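import Mathlib
import Pool.Agent.H370R2.Local

/-!
Differential operators with constant coefficients and local growth data.
-/

set_option autoImplicit false

open Complex Filter Topology Metric Set
open H370 H370.Loc

set_option maxHeartbeats 4000000

namespace Pool.Agent.TH804.SB

/-- local growth data for `F z = L (1/2 + iT + z)`; `ℓ = log Q` -/
structure LG (F : ℂ → ℂ) (η W B ℓ : ℝ) : Prop where
  an : ∀ z : ℂ, |z.re| ≤ 2 → |z.im| ≤ W → AnalyticAt ℂ F z
  crude : ∀ z : ℂ, |z.re| ≤ 2 → |z.im| ≤ W → ‖F z‖ ≤ Real.exp (B * ℓ)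
  right : ∀ z : ℂ, 1 / 2 + η ≤ z.re → z.re ≤ 2 → |z.im| ≤ W → ‖F z‖ ≤ Real.exp (η * ℓ)
  up : ∀ z : ℂ, -2 ≤ z.re → z.re ≤ -(1 / 2 + η) → |z.im| ≤ W → ‖F z‖ ≤ Real.exp ((-z.re + η) * ℓ)
  lo : ∀ z : ℂ, -2 ≤ z.re → z.re ≤ -(1 / 2 + η) → |z.im| ≤ W → Real.exp ((-z.re - η) * ℓ) ≤ ‖F z‖

/-- `(D - l₁) ⋯ (D - lₙ) F` -/
noncomputable def opL : List ℂ → (ℂ → ℂ) → ℂ → ℂ
  | [], F => F
  | l :: L, F => fun z => deriv (opL L F) z - l * opL L F z

lemma opL_nil (F : ℂ → ℂ) : opL [] F = F := rfl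

lemma opL_cons (l : ℂ) (L : List ℂ) (F : ℂ → ℂ) :
    opL (l :: L) F = fun z => deriv (opL L F) z - l * opL L F z := rfl

lemma opL_an (L : List ℂ) {F : ℂ → ℂ} {z : ℂ} (h : AnalyticAt ℂ F z) : AnalyticAt ℂ (opL L F) z := by
  induction L with
  | nil => exact h
  | cons l L ih => exact ih.deriv.sub (analyticAt_const.mul ih)

/-- Cauchy's estimate -/
lemma deriv_le {f : ℂ → ℂ} {z : ℂ} {r M : ℝ} (hr : 0 < r) (ha : ∀ v ∈ closedBall z r, AnalyticAt ℂ f v)
    (hM : ∀ v ∈ closedBall z r, ‖f v‖ ≤ M) : ‖deriv f z‖ ≤ M / r := by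
  refine Complex.norm_deriv_le_of_forall_mem_sphere_norm_le hr ?_ (fun v hv =>
    hM v (sphere_subset_closedBall hv))
  apply DifferentiableOn.diffContOnCl
  intro v hv
  rw [closure_ball _ hr.ne'] at hv
  exact (ha v hv).differentiableAt.differentiableWithinAt

lemma opL_le (L : List ℂ) : ∀ r : ℝ, 0 < r → ∃ C : ℝ, 1 ≤ C ∧ ∀ (F : ℂ → ℂ) (z : ℂ) (M : ℝ), 0 ≤ M →
    (∀ v ∈ closedBall z r, AnalyticAt ℂ F v) → (∀ v ∈ closedBall z r, ‖F v‖ ≤ M) →
      ‖opL L F z‖ ≤ C * M := by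
  induction L with
  | nil =>
    intro r hr
    exact ⟨1, le_rfl, fun F z M _ _ hM => by
      rw [one_mul]; exact hM z (mem_closedBall_self hr.le)⟩
  | cons l L ih =>
    intro r hr
    obtain ⟨C, hC, h⟩ := ih (r / 2) (by positivity)
    have hl := norm_nonneg l
    refine ⟨C * (2 / r) + ‖l‖ * C + 1, by
      have : 0 ≤ C * (2 / r) := by positivity
      have : 0 ≤ ‖l‖ * C := by positivity
      linarith, fun F z M hM0 ha hM => ?_⟩
    have hsub : ∀ w ∈ closedBall z (r / 2), closedBall w (r / 2) ⊆ closedBall z r := by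
      intro w hw v hv
      rw [mem_closedBall] at hw hv ⊢
      linarith [dist_triangle v w z]
    have h1 : ∀ w ∈ closedBall z (r / 2), ‖opL L F w‖ ≤ C * M := fun w hw =>
      h F w M hM0 (fun v hv => ha v (hsub w hw hv)) (fun v hv => hM v (hsub w hw hv))
    have h2 := deriv_le (f := opL L F) (z := z) (r := r / 2) (M := C * M) (by positivity)
      (fun v hv => opL_an L (ha v (closedBall_subset_closedBall (by linarith) hv))) h1
    have h3 := h1 z (mem_closedBall_self (by positivity))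
    rw [opL_cons]
    calc ‖deriv (opL L F) z - l * opL L F z‖ ≤ ‖deriv (opL L F) z‖ + ‖l * opL L F z‖ := norm_sub_le _ _
      _ ≤ C * M / (r / 2) + ‖l‖ * (C * M) := by
          rw [norm_mul]
          exact add_le_add h2 (mul_le_mul_of_nonneg_left h3 hl)
      _ = (C * (2 / r) + ‖l‖ * C) * M := by field_simp
      _ ≤ _ := mul_le_mul_of_nonneg_right (by linarith) hM0

lemma ball_re {z v : ℂ} {r : ℝ} (h : v ∈ closedBall z r) : |v.re - z.re| ≤ r := by
  rw [mem_closedBall, dist_eq_norm] at h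
  have := (Complex.abs_re_le_norm (v - z)).trans h
  rwa [Complex.sub_re] at this

lemma ball_im {z v : ℂ} {r : ℝ} (h : v ∈ closedBall z r) : |v.im - z.im| ≤ r := by
  rw [mem_closedBall, dist_eq_norm] at h
  have := (Complex.abs_im_le_norm (v - z)).trans h
  rwa [Complex.sub_im] at this

/-- crude bound -/
lemma opL_crude (L : List ℂ) : ∃ ℓ₀ : ℝ, ∀ (F : ℂ → ℂ) (η W B ℓ : ℝ), ℓ₀ ≤ ℓ → LG F η W B ℓ →
    ∀ z : ℂ, |z.re| ≤ 3 / 2 → |z.im| ≤ W - 1 / 2 → ‖opL L F z‖ ≤ Real.exp ((B + 1) * ℓ) := by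
  obtain ⟨C, hC, h⟩ := opL_le L (1 / 2) (by norm_num)
  refine ⟨Real.log C, fun F η W B ℓ hℓ hF z hre him => ?_⟩
  have hv1 : ∀ v ∈ closedBall z (1 / 2), |v.re| ≤ 2 := fun v hv => by
    have h1 := abs_le.1 (ball_re hv)
    have h2 := abs_le.1 hre
    rw [abs_le]; constructor <;> linarith
  have hv2 : ∀ v ∈ closedBall z (1 / 2), |v.im| ≤ W := fun v hv => by
    have h1 := abs_le.1 (ball_im hv)
    have h2 := abs_le.1 him
    rw [abs_le]; constructor <;> linarith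
  refine (h F z (Real.exp (B * ℓ)) (Real.exp_pos _).le (fun v hv => hF.an v (hv1 v hv) (hv2 v hv))
    (fun v hv => hF.crude v (hv1 v hv) (hv2 v hv))).trans ?_
  have hCe : C = Real.exp (Real.log C) := (Real.exp_log (by linarith)).symm
  rw [hCe, ← Real.exp_add]
  apply Real.exp_le_exp.2
  linarith

/-- the function `G v exp (ℓ v)` -/
lemma tw_norm (G : ℂ → ℂ) (ℓ : ℝ) (v : ℂ) : ‖G v * cexp (ℓ * v)‖ = ‖G v‖ * Real.exp (ℓ * v.re) := by
  rw [norm_mul, Complex.norm_exp]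
  congr 2
  simp

lemma tw_logDeriv {G : ℂ → ℂ} {ℓ : ℝ} {w : ℂ} (hG : DifferentiableAt ℂ G w) (h0 : G w ≠ 0) :
    logDeriv (fun v => G v * cexp (ℓ * v)) w = logDeriv G w + ℓ := by
  have h1 : HasDerivAt (fun v : ℂ => cexp (ℓ * v)) (cexp (ℓ * w) * ℓ) w := by
    have h2 : HasDerivAt (fun v : ℂ => (ℓ : ℂ) * v) (ℓ : ℂ) w := by
      simpa using (hasDerivAt_id w).const_mul (ℓ : ℂ)
    exact h2.cexp
  have h3 := logDeriv_mul (f := G) (g := fun v : ℂ => cexp (ℓ * v)) w h0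
    (Complex.exp_ne_zero _) hG h1.differentiableAt
  rw [h3, logDeriv_apply (fun v : ℂ => cexp (ℓ * v)), h1.deriv]
  have h4 : cexp (ℓ * w) ≠ 0 := Complex.exp_ne_zero _
  field_simp

/-- **two-sided bounds on the left** -/
theorem opL_left (L : List ℂ) : ∀ ε : ℝ, 0 < ε → ε ≤ 1 → ∃ η : ℝ, 0 < η ∧ η ≤ ε ∧ ∃ ℓ₀ : ℝ, 1 ≤ ℓ₀ ∧
    ∀ (F : ℂ → ℂ) (W B ℓ : ℝ), ℓ₀ ≤ ℓ → LG F η W B ℓ → ∀ z : ℂ, -2 + ε ≤ z.re → z.re ≤ -(1 / 2 + ε) →
      |z.im| ≤ W - ε → Real.exp ((-z.re - ε) * ℓ) ≤ ‖opL L F z‖ ∧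
        ‖opL L F z‖ ≤ Real.exp ((-z.re + ε) * ℓ) := by
  induction L with
  | nil =>
    intro ε hε _
    refine ⟨ε, hε, le_rfl, 1, le_rfl, fun F W B ℓ hℓ hF z h1 h2 h3 => ⟨?_, ?_⟩⟩
    · exact hF.lo z (by linarith) h2 (by linarith)
    · exact hF.up z (by linarith) h2 (by linarith)
  | cons l L ih =>
    intro ε hε hε1
    set ε' : ℝ := ε / 200 with hε'
    have hε'0 : 0 < ε' := by positivity
    obtain ⟨η, hη, hηε, ℓ₀, hℓ₀, h⟩ := ih ε' hε'0 (by linarith)
    -- `2 ℓ ≤ exp ((ε - ε') ℓ)`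
    obtain ⟨Y, hY⟩ : ∃ Y : ℝ, ∀ y : ℝ, Y ≤ y → 2 * y ≤ Real.exp (ε / 2 * y) := by
      have h1 : Tendsto (fun y : ℝ => Real.exp (ε / 2 * y) / y ^ (1:ℝ)) atTop atTop :=
        tendsto_exp_mul_div_rpow_atTop 1 (ε / 2) (by positivity)
      obtain ⟨Y, hY⟩ := (eventually_atTop.1 (h1.eventually_ge_atTop 2))
      refine ⟨max Y 1, fun y hy => ?_⟩
      have hy1 : 1 ≤ y := (le_max_right _ _).trans hy
      have h2 := hY y ((le_max_left _ _).trans hy)
      rwa [Real.rpow_one, le_div_iff₀ (by linarith)] at h2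
    have hl0 := norm_nonneg l
    refine ⟨η, hη, by linarith, ℓ₀ + |Y| + 200 / ε + 4 * (1 + ‖l‖), by
      have := abs_nonneg Y
      have : 0 ≤ 200 / ε := by positivity
      linarith, fun F W B ℓ hℓ hF z hz1 hz2 hz3 => ?_⟩
    have hYa := le_abs_self Y
    have hYn := abs_nonneg Y
    have h200 : 0 ≤ 200 / ε := by positivity
    have hℓ1 : 1 ≤ ℓ := by linarith
    have hℓ0 : 0 < ℓ := by linarith
    have hεℓ : 200 ≤ ε * ℓ := by
      have : 200 / ε ≤ ℓ := by linarith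
      rw [div_le_iff₀ hε] at this
      linarith
    set G : ℂ → ℂ := opL L F with hG
    have hin : ∀ v ∈ closedBall z (ε / 2), -2 + ε' ≤ v.re ∧ v.re ≤ -(1 / 2 + ε') ∧ |v.im| ≤ W - ε' := by
      intro v hv
      have h1 := abs_le.1 (ball_re hv)
      have h2 := abs_le.1 (ball_im hv)
      have h3 := abs_le.1 hz3
      refine ⟨by linarith, by linarith, ?_⟩
      rw [abs_le]; constructor <;> linarith
    have hGan : ∀ v ∈ closedBall z (ε / 2), AnalyticAt ℂ G v := by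
      intro v hv
      obtain ⟨h1, h2, h3⟩ := hin v hv
      refine opL_an L (hF.an v ?_ (by linarith))
      rw [abs_le]; constructor <;> linarith
    have hb : ∀ v ∈ closedBall z (ε / 2), Real.exp (-(ε' * ℓ)) ≤ ‖G v * cexp (ℓ * v)‖ ∧
        ‖G v * cexp (ℓ * v)‖ ≤ Real.exp (ε' * ℓ) := by
      intro v hv
      obtain ⟨h1, h2, h3⟩ := hin v hv
      obtain ⟨h4, h5⟩ := h F W B ℓ (by linarith) hF v h1 h2 h3
      rw [tw_norm]
      have hpos := Real.exp_pos (ℓ * v.re)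
      constructor
      · calc Real.exp (-(ε' * ℓ)) = Real.exp ((-v.re - ε') * ℓ) * Real.exp (ℓ * v.re) := by
              rw [← Real.exp_add]; congr 1; ring
          _ ≤ _ := mul_le_mul_of_nonneg_right h4 hpos.le
      · calc ‖G v‖ * Real.exp (ℓ * v.re) ≤ Real.exp ((-v.re + ε') * ℓ) * Real.exp (ℓ * v.re) :=
              mul_le_mul_of_nonneg_right h5 hpos.le
          _ = _ := by rw [← Real.exp_add]; congr 1; ring
    have hzz : z ∈ closedBall z (ε / 2) := mem_closedBall_self (by positivity)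
    have hG0 : ∀ v ∈ closedBall z (ε / 2), G v ≠ 0 := by
      intro v hv h0
      have h1 := (hb v hv).1
      rw [h0, zero_mul, norm_zero] at h1
      linarith [Real.exp_pos (-(ε' * ℓ))]
    have hld := logDeriv_zero_free (g := fun v => G v * cexp (ℓ * v)) (c := z) (r := ε / 2)
      (r1 := ε / 4) (r2 := ε / 8) (B := 2 * (ε' * ℓ)) (by positivity) (by linarith) (by linarith)
      (by positivity) (fun v hv => (hGan v hv).mul (by fun_prop))
      (fun v hv => mul_ne_zero (hG0 v hv) (Complex.exp_ne_zero _)) (fun v hv => by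
        refine (hb v hv).2.trans ?_
        calc Real.exp (ε' * ℓ) = Real.exp (2 * (ε' * ℓ)) * Real.exp (-(ε' * ℓ)) := by
              rw [← Real.exp_add]; congr 1; ring
          _ ≤ _ := mul_le_mul_of_nonneg_left (hb z hzz).1 (Real.exp_pos _).le)
      (z := z) (mem_closedBall_self (by positivity))
    rw [tw_logDeriv (hGan z hzz).differentiableAt (hG0 z hzz)] at hld
    have e1 : 2 * (2 * (ε' * ℓ) + 1) * (ε / 4) / (ε / 2 - ε / 4) / (ε / 4 - ε / 8) =
        2 * (2 * (ε' * ℓ) + 1) / (ε / 8) := by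
      field_simp
      ring
    have e2 : 2 * (2 * (ε' * ℓ) + 1) / (ε / 8) ≤ ℓ / 4 := by
      rw [div_le_iff₀ (by positivity)]
      have : ε' * ℓ = ε * ℓ / 200 := by rw [hε']; ring
      rw [this]
      nlinarith
    rw [e1] at hld
    have hld2 : ‖logDeriv G z + ℓ‖ ≤ ℓ / 4 := hld.trans e2
    have hGz := hG0 z hzz
    have heq : deriv G z - l * G z = (logDeriv G z - l) * G z := by
      rw [logDeriv_apply, sub_mul, div_mul_cancel₀ _ hGz]
    have hlow : 1 ≤ ‖logDeriv G z - l‖ := by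
      have h1 : ‖(ℓ : ℂ)‖ ≤ ‖logDeriv G z + ℓ‖ + ‖l‖ + ‖logDeriv G z - l‖ := by
        calc ‖(ℓ : ℂ)‖ = ‖(logDeriv G z + ℓ) - l - (logDeriv G z - l)‖ := by congr 1; ring
          _ ≤ ‖(logDeriv G z + ℓ) - l‖ + ‖logDeriv G z - l‖ := norm_sub_le _ _
          _ ≤ _ := by
              have := norm_sub_le (logDeriv G z + ℓ) l
              linarith
      rw [Complex.norm_real, Real.norm_eq_abs, abs_of_pos hℓ0] at h1
      linarith
    have hupp : ‖logDeriv G z - l‖ ≤ 2 * ℓ := by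
      have h1 : ‖logDeriv G z - l‖ ≤ ‖logDeriv G z + ℓ‖ + ‖(ℓ : ℂ)‖ + ‖l‖ := by
        calc ‖logDeriv G z - l‖ = ‖(logDeriv G z + ℓ) - ℓ - l‖ := by congr 1; ring
          _ ≤ ‖(logDeriv G z + ℓ) - ℓ‖ + ‖l‖ := norm_sub_le _ _
          _ ≤ _ := by
              have := norm_sub_le (logDeriv G z + ℓ) (ℓ : ℂ)
              linarith
      rw [Complex.norm_real, Real.norm_eq_abs, abs_of_pos hℓ0] at h1
      linarith
    obtain ⟨h1, h2, h3⟩ := hin z hzz
    obtain ⟨h4, h5⟩ := h F W B ℓ (by linarith) hF z h1 h2 h3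
    rw [opL_cons]
    show _ ≤ ‖deriv G z - l * G z‖ ∧ ‖deriv G z - l * G z‖ ≤ _
    rw [heq, norm_mul]
    constructor
    · calc Real.exp ((-z.re - ε) * ℓ) ≤ Real.exp ((-z.re - ε') * ℓ) := by
            apply Real.exp_le_exp.2
            apply mul_le_mul_of_nonneg_right _ hℓ0.le
            linarith
        _ ≤ ‖G z‖ := h4
        _ = 1 * ‖G z‖ := (one_mul _).symm
        _ ≤ _ := mul_le_mul_of_nonneg_right hlow (norm_nonneg _)
    · calc ‖logDeriv G z - l‖ * ‖G z‖ ≤ (2 * ℓ) * Real.exp ((-z.re + ε') * ℓ) :=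
            mul_le_mul hupp h5 (norm_nonneg _) (by positivity)
        _ ≤ Real.exp (ε / 2 * ℓ) * Real.exp ((-z.re + ε') * ℓ) :=
            mul_le_mul_of_nonneg_right (hY ℓ (by linarith)) (Real.exp_pos _).le
        _ ≤ _ := by
            rw [← Real.exp_add]
            apply Real.exp_le_exp.2
            nlinarith

end Pool.Agent.TH804.SB
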