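import Mathlib
import Pool.Agent.TH804.SB1

/-!
Local three lines estimates, and the chain of derivatives near a (weighted) maximum on the critical line.
-/

set_option autoImplicit false

open Complex Filter Topology Metric Set
open H370 H370.Loc

set_option maxHeartbeats 4000000

namespace Pool.Agent.TH804.SB

/-- maximum principle for a rectangle -/
lemma max_rect {H : ℂ → ℂ} {x0 x1 y0 y1 M : ℝ} (hx : x0 < x1) (hy : y0 < y1)
    (ha : ∀ z : ℂ, x0 ≤ z.re → z.re ≤ x1 → y0 ≤ z.im → z.im ≤ y1 → AnalyticAt ℂ H z)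
    (h0 : ∀ z : ℂ, z.re = x0 → y0 ≤ z.im → z.im ≤ y1 → ‖H z‖ ≤ M)
    (h1 : ∀ z : ℂ, z.re = x1 → y0 ≤ z.im → z.im ≤ y1 → ‖H z‖ ≤ M)
    (h2 : ∀ z : ℂ, x0 ≤ z.re → z.re ≤ x1 → (z.im = y0 ∨ z.im = y1) → ‖H z‖ ≤ M)
    {z : ℂ} (hz1 : x0 ≤ z.re) (hz2 : z.re ≤ x1) (hz3 : y0 ≤ z.im) (hz4 : z.im ≤ y1) : ‖H z‖ ≤ M := by
  have hcl : closure (Ioo x0 x1 ×ℂ Ioo y0 y1) = Icc x0 x1 ×ℂ Icc y0 y1 := by
    rw [Complex.closure_reProdIm, closure_Ioo hx.ne, closure_Ioo hy.ne]
  have hbd : Bornology.IsBounded (Ioo x0 x1 ×ℂ Ioo y0 y1) :=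
    (isBounded_Ioo x0 x1).reProdIm (isBounded_Ioo y0 y1)
  refine Complex.norm_le_of_forall_mem_frontier_norm_le (f := H) hbd ?_ ?_ (z := z) ?_
  · apply DifferentiableOn.diffContOnCl
    rw [hcl]
    intro w hw
    rw [Complex.mem_reProdIm] at hw
    exact (ha w hw.1.1 hw.1.2 hw.2.1 hw.2.2).differentiableAt.differentiableWithinAt
  · intro w hw
    rw [Complex.frontier_reProdIm, closure_Ioo hx.ne, frontier_Ioo hy, frontier_Ioo hx,
      closure_Ioo hy.ne] at hw
    rcases hw with hw | hw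
    · rw [Complex.mem_reProdIm] at hw
      obtain ⟨⟨a1, a2⟩, a3⟩ := hw
      exact h2 w a1 a2 (by simpa using a3)
    · rw [Complex.mem_reProdIm] at hw
      obtain ⟨a1, a2, a3⟩ := hw
      rcases a1 with h | h
      · exact h0 w h a2 a3
      · exact h1 w h a2 a3
  · rw [hcl, Complex.mem_reProdIm]
    exact ⟨⟨hz1, hz2⟩, ⟨hz3, hz4⟩⟩

/-- the weight `exp (b z + q (z - i y₀)²)` -/
lemma wt_norm (F : ℂ → ℂ) (b q y₀ : ℝ) (z : ℂ) : ‖F z * cexp (b * z + q * (z - y₀ * I) ^ 2)‖ =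
    ‖F z‖ * Real.exp (b * z.re + q * (z.re ^ 2 - (z.im - y₀) ^ 2)) := by
  rw [norm_mul, Complex.norm_exp]
  congr 2
  have : ((z - y₀ * I) ^ 2).re = z.re ^ 2 - (z.im - y₀) ^ 2 := by
    rw [sq, Complex.mul_re]
    simp
    ring
  rw [Complex.add_re, Complex.re_ofReal_mul, Complex.re_ofReal_mul, this]

/-- **upper bounds to the left of the critical line** -/
theorem left_upper {ε B : ℝ} (hε : 0 < ε) (hε1 : ε ≤ 1) (hB : 0 ≤ B) : ∃ η V : ℝ, 0 < η ∧ η ≤ ε ∧ 0 < V ∧
    ∀ (F : ℂ → ℂ) (W ℓ : ℝ), 0 ≤ ℓ → LG F η W B ℓ → (∀ y : ℝ, |y| ≤ W → ‖F (y * I)‖ ≤ Real.exp (η * ℓ)) →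
      ∀ z : ℂ, -2 ≤ z.re → z.re ≤ 0 → |z.im| ≤ W - V → ‖F z‖ ≤ Real.exp ((-z.re + ε) * ℓ) := by
  set c : ℝ := ε / 2 with hc
  have hc0 : 0 < c := by positivity
  set V : ℝ := (B + 2) / c + 1 with hV
  have hV1 : 1 ≤ V := by
    have : 0 ≤ (B + 2) / c := by positivity
    linarith
  have hVc : B + 2 ≤ c * V ^ 2 := by
    have h1 : (B + 2) / c ≤ V := by rw [hV]; linarith
    rw [div_le_iff₀ hc0] at h1
    nlinarith
  refine ⟨ε / 2, V, by positivity, by linarith, by linarith, fun F W ℓ hℓ hF hcrit z hz1 hz2 hz3 => ?_⟩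
  rcases le_or_gt z.re (-(1 / 2 + ε / 2)) with h | h
  · refine (hF.up z hz1 h (by linarith)).trans ?_
    apply Real.exp_le_exp.2
    apply mul_le_mul_of_nonneg_right _ hℓ
    linarith
  · set y₀ : ℝ := z.im with hy₀
    have hz3' := abs_le.1 hz3
    have hwin : ∀ y : ℝ, y₀ - V ≤ y → y ≤ y₀ + V → |y| ≤ W := by
      intro y h1 h2
      rw [abs_le]; constructor <;> linarith
    have key := max_rect (H := fun z => F z * cexp ((ℓ : ℝ) * z + ((c * ℓ : ℝ) : ℂ) * (z - y₀ * I) ^ 2))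
      (x0 := -(1 / 2 + ε / 2)) (x1 := 0) (y0 := y₀ - V) (y1 := y₀ + V) (M := Real.exp ((ε / 2 + c) * ℓ))
      (by linarith) (by linarith)
      (fun v h1 h2 h3 h4 => (hF.an v (by rw [abs_le]; constructor <;> linarith) (hwin _ h3 h4)).mul
        (by fun_prop))
      (fun v h1 h3 h4 => by
        rw [wt_norm]
        have h5 := hF.up v (by rw [h1]; linarith) (by rw [h1]) (hwin _ h3 h4)
        calc ‖F v‖ * Real.exp (ℓ * v.re + c * ℓ * (v.re ^ 2 - (v.im - y₀) ^ 2))
            ≤ Real.exp ((-v.re + ε / 2) * ℓ) * Real.exp (ℓ * v.re + c * ℓ * 1) := by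
              apply mul_le_mul h5 _ (Real.exp_pos _).le (Real.exp_pos _).le
              apply Real.exp_le_exp.2
              have h6 : v.re ^ 2 - (v.im - y₀) ^ 2 ≤ 1 := by
                rw [h1]
                nlinarith [sq_nonneg (v.im - y₀)]
              have := mul_le_mul_of_nonneg_left h6 (show 0 ≤ c * ℓ by positivity)
              linarith
          _ = _ := by rw [← Real.exp_add]; congr 1; ring)
      (fun v h1 h3 h4 => by
        rw [wt_norm, h1]
        have ev : v = (v.im : ℂ) * I := by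
          apply Complex.ext <;> simp [h1]
        have h5 := hcrit v.im (hwin _ h3 h4)
        rw [← ev] at h5
        calc ‖F v‖ * Real.exp (ℓ * 0 + c * ℓ * (0 ^ 2 - (v.im - y₀) ^ 2))
            ≤ Real.exp (ε / 2 * ℓ) * Real.exp (c * ℓ) := by
              apply mul_le_mul h5 _ (Real.exp_pos _).le (Real.exp_pos _).le
              apply Real.exp_le_exp.2
              have h6 : (0:ℝ) ^ 2 - (v.im - y₀) ^ 2 ≤ 1 := by nlinarith [sq_nonneg (v.im - y₀)]
              have := mul_le_mul_of_nonneg_left h6 (show 0 ≤ c * ℓ by positivity)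
              linarith
          _ = _ := by rw [← Real.exp_add]; congr 1; ring)
      (fun v h1 h2 h3 => by
        rw [wt_norm]
        have h4 : (v.im - y₀) ^ 2 = V ^ 2 := by
          rcases h3 with h | h <;> rw [h] <;> ring
        have h5 : |v.im| ≤ W := by
          rcases h3 with h | h <;> rw [h] <;> apply hwin <;> linarith
        have h6 := hF.crude v (by rw [abs_le]; constructor <;> linarith) h5
        calc ‖F v‖ * Real.exp (ℓ * v.re + c * ℓ * (v.re ^ 2 - (v.im - y₀) ^ 2))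
            ≤ Real.exp (B * ℓ) * Real.exp (-(B * ℓ)) := by
              apply mul_le_mul h6 _ (Real.exp_pos _).le (Real.exp_pos _).le
              apply Real.exp_le_exp.2
              rw [h4]
              have h7 : v.re ^ 2 ≤ 1 := by nlinarith
              have h8 : ℓ * v.re ≤ 0 := mul_nonpos_of_nonneg_of_nonpos hℓ h2
              have h9 : c * ℓ * (v.re ^ 2 - V ^ 2) ≤ c * ℓ - (B + 2) * ℓ := by
                have h10 := mul_le_mul_of_nonneg_right hVc hℓ
                have h11 := mul_le_mul_of_nonneg_left h7 (show 0 ≤ c * ℓ by positivity)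
                nlinarith
              have h12 : c * ℓ ≤ 2 * ℓ := mul_le_mul_of_nonneg_right (by linarith) hℓ
              nlinarith
          _ = 1 := by rw [← Real.exp_add]; simp
          _ ≤ _ := Real.one_le_exp (by positivity))
      (z := z) h.le hz2 (by linarith) (by linarith)
    rw [wt_norm, ← hy₀] at key
    have h1 : ‖F z‖ * Real.exp (ℓ * z.re) ≤ Real.exp ((ε / 2 + c) * ℓ) := by
      refine le_trans (mul_le_mul_of_nonneg_left (Real.exp_le_exp.2 ?_) (norm_nonneg _)) key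
      have : 0 ≤ c * ℓ * (z.re ^ 2 - (y₀ - y₀) ^ 2) := by
        rw [sub_self]
        have := sq_nonneg z.re
        have h0 : 0 ≤ c * ℓ := by positivity
        nlinarith
      linarith
    calc ‖F z‖ = ‖F z‖ * Real.exp (ℓ * z.re) * Real.exp (-(ℓ * z.re)) := by
          rw [mul_assoc, ← Real.exp_add]; simp
      _ ≤ Real.exp ((ε / 2 + c) * ℓ) * Real.exp (-(ℓ * z.re)) :=
          mul_le_mul_of_nonneg_right h1 (Real.exp_pos _).le
      _ = _ := by rw [← Real.exp_add]; congr 1; rw [hc]; ring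

/-- **a weighted maximum on the critical line** -/
theorem peak {ε ε₁ B : ℝ} (hε : 0 < ε) (hε1 : ε ≤ 1) (hε₁ : 0 < ε₁) (hε₁1 : ε₁ ≤ ε) (hB : 0 ≤ B) :
    ∃ η W : ℝ, 0 < η ∧ η ≤ ε ∧ 3 ≤ W ∧ ∀ (F : ℂ → ℂ) (ℓ : ℝ), 0 < ℓ → LG F η W B ℓ →
      Real.exp (ε * ℓ) ≤ ‖F 0‖ → ∃ y₀ : ℝ, |y₀| + 2 ≤ W ∧ ‖F 0‖ ≤ ‖F (y₀ * I)‖ ∧
        ∀ z : ℂ, 0 ≤ z.re → z.re ≤ 1 / 2 → |z.im - y₀| ≤ 1 →
          ‖F z‖ ≤ ‖F (y₀ * I)‖ * Real.exp ((-(ε / 2) * z.re + ε₁ * |z.im - y₀|) * ℓ) := by
  set c : ℝ := ε₁ ^ 2 / (64 * (B + 4)) with hc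
  have hB4 : 0 < B + 4 := by linarith
  have hc0 : 0 < c := by positivity
  have hcB : c * (B + 4) = ε₁ ^ 2 / 64 := by rw [hc]; field_simp
  have hc1 : c ≤ ε₁ / 64 := by
    have h1 : c * 4 ≤ c * (B + 4) := mul_le_mul_of_nonneg_left (by linarith) hc0.le
    nlinarith
  set V : ℝ := (8 * (B + 4)) / ε₁ with hV
  have hV1 : 1 ≤ V := by
    rw [hV, le_div_iff₀ hε₁]; linarith
  have hcV : c * V = ε₁ / 8 := by rw [hc, hV]; field_simp; norm_num
  have hcV2 : c * V ^ 2 = B + 4 := by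
    rw [sq, ← mul_assoc, hcV, hV]; field_simp
  refine ⟨ε / 4, V + 2, by positivity, by linarith, by linarith, fun F ℓ hℓ hF hF0 => ?_⟩
  set W : ℝ := V + 2 with hW
  set H : ℂ → ℂ := fun z => F z * cexp (((ε / 2 * ℓ : ℝ) : ℂ) * z + ((c * ℓ : ℝ) : ℂ) * (z - (0 : ℝ) * I) ^ 2)
    with hH
  have hHn : ∀ z : ℂ, ‖H z‖ = ‖F z‖ * Real.exp (ε / 2 * ℓ * z.re + c * ℓ * (z.re ^ 2 - z.im ^ 2)) := by
    intro z
    have := wt_norm F (ε / 2 * ℓ) (c * ℓ) 0 z
    rw [sub_zero] at this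
    exact this
  have hHa : ∀ z : ℂ, |z.re| ≤ 2 → |z.im| ≤ W → AnalyticAt ℂ H z := fun z h1 h2 =>
    (hF.an z h1 h2).mul (by fun_prop)
  have hHi : ∀ y : ℝ, ‖H (y * I)‖ = ‖F (y * I)‖ * Real.exp (-(c * ℓ * y ^ 2)) := by
    intro y
    rw [hHn]
    congr 2
    simp
  -- the edges
  have hedge : ∀ z : ℂ, 0 ≤ z.re → z.re ≤ 1 → V ≤ |z.im| → |z.im| ≤ W → ‖H z‖ ≤ 1 := by
    intro z h1 h2 h3 h4
    rw [hHn]
    have h5 := hF.crude z (by rw [abs_le]; constructor <;> linarith) h4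
    have h6 : V ^ 2 ≤ z.im ^ 2 := by
      rw [← sq_abs z.im]
      exact pow_le_pow_left₀ (by linarith) h3 2
    calc ‖F z‖ * Real.exp (ε / 2 * ℓ * z.re + c * ℓ * (z.re ^ 2 - z.im ^ 2))
        ≤ Real.exp (B * ℓ) * Real.exp (-(B * ℓ)) := by
          apply mul_le_mul h5 _ (Real.exp_pos _).le (Real.exp_pos _).le
          apply Real.exp_le_exp.2
          have h7 : ε / 2 * ℓ * z.re ≤ 1 * ℓ := by
            have : ε / 2 * z.re ≤ 1 := by nlinarith
            nlinarith
          have h8 : z.re ^ 2 ≤ 1 := by nlinarith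
          have h9 : c * ℓ * (z.re ^ 2 - z.im ^ 2) ≤ c * ℓ * (1 - V ^ 2) :=
            mul_le_mul_of_nonneg_left (by linarith) (by positivity)
          have h10 : c * ℓ * (1 - V ^ 2) = c * ℓ - (B + 4) * ℓ := by
            rw [← hcV2]; ring
          have h11 : c * ℓ ≤ 1 * ℓ := mul_le_mul_of_nonneg_right (by linarith) hℓ.le
          nlinarith
      _ = 1 := by rw [← Real.exp_add]; simp
  -- the maximum
  obtain ⟨y₀, hy₀, hmax⟩ := (isCompact_Icc (a := -W) (b := W)).exists_isMaxOn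
    (nonempty_Icc.2 (by linarith)) (f := fun y : ℝ => ‖H (y * I)‖) (by
      intro y hy
      apply ContinuousAt.continuousWithinAt
      have h1 : ContinuousAt H ((y : ℂ) * I) := (hHa _ (by simp) (by simpa using abs_le.2 hy)).continuousAt
      have h2 : ContinuousAt (fun y : ℝ => (y : ℂ) * I) y := by fun_prop
      exact (ContinuousAt.comp (f := fun y : ℝ => (y : ℂ) * I) (g := H) h1 h2).norm)
  set M : ℝ := ‖H (y₀ * I)‖ with hM
  have hmax' : ∀ y : ℝ, |y| ≤ W → ‖H (y * I)‖ ≤ M := fun y hy => hmax (abs_le.1 hy)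
  have hH0 : ‖H 0‖ = ‖F 0‖ := by
    rw [hHn]; simp
  have hFM : ‖F 0‖ ≤ M := by
    have h1 := hmax' 0 (by rw [abs_zero]; linarith)
    rw [Complex.ofReal_zero, zero_mul, hH0] at h1
    exact h1
  have hM1 : 1 < M := by
    have h1 : 1 < Real.exp (ε * ℓ) := Real.one_lt_exp_iff.2 (by positivity)
    linarith
  have hy₀V : |y₀| < V := by
    by_contra hcon
    push Not at hcon
    have h1 := hedge (y₀ * I) (by simp) (by simp) (by simpa using hcon) (by simpa using abs_le.2 hy₀)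
    linarith
  have hM0 : M = ‖F (y₀ * I)‖ * Real.exp (-(c * ℓ * y₀ ^ 2)) := by rw [hM, hHi]
  refine ⟨y₀, by linarith, ?_, fun z h1 h2 h3 => ?_⟩
  · refine hFM.trans ?_
    rw [hM0]
    have : Real.exp (-(c * ℓ * y₀ ^ 2)) ≤ 1 := by
      rw [Real.exp_le_one_iff]
      have : 0 ≤ c * ℓ * y₀ ^ 2 := by positivity
      linarith
    exact mul_le_of_le_one_right (norm_nonneg _) this
  · have hy1 := abs_le.1 h3
    have hy2 := abs_lt.1 hy₀V
    have key := max_rect (H := H) (x0 := 0) (x1 := 1 / 2 + ε / 4) (y0 := -W) (y1 := W) (M := M)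
      (by linarith) (by linarith)
      (fun v h1 h2 h3 h4 => hHa v (by rw [abs_le]; constructor <;> linarith) (abs_le.2 ⟨h3, h4⟩))
      (fun v h1 h3 h4 => by
        have ev : v = (v.im : ℂ) * I := by
          apply Complex.ext <;> simp [h1]
        rw [ev]
        exact hmax' v.im (abs_le.2 ⟨h3, h4⟩))
      (fun v h1 h3 h4 => by
        rw [hHn]
        have h5 := hF.right v (by rw [h1]) (by rw [h1]; linarith) (abs_le.2 ⟨h3, h4⟩)
        have h6 : 0 < v.re := by rw [h1]; linarith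
        have h7 : v.re ≤ 1 := by rw [h1]; linarith
        calc ‖F v‖ * Real.exp (ε / 2 * ℓ * v.re + c * ℓ * (v.re ^ 2 - v.im ^ 2))
            ≤ Real.exp (ε / 4 * ℓ) * Real.exp (ε / 2 * ℓ + ε / 4 * ℓ) := by
              apply mul_le_mul h5 _ (Real.exp_pos _).le (Real.exp_pos _).le
              apply Real.exp_le_exp.2
              have h8 : ε / 2 * ℓ * v.re ≤ ε / 2 * ℓ := mul_le_of_le_one_right (by positivity) h7
              have h9 : v.re ^ 2 - v.im ^ 2 ≤ 1 := by nlinarith [sq_nonneg v.im]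
              have h10 : c * ℓ * (v.re ^ 2 - v.im ^ 2) ≤ c * ℓ * 1 :=
                mul_le_mul_of_nonneg_left h9 (by positivity)
              have h11 : c * ℓ ≤ ε / 4 * ℓ := mul_le_mul_of_nonneg_right (by linarith) hℓ.le
              linarith
          _ = Real.exp (ε * ℓ) := by rw [← Real.exp_add]; congr 1; ring
          _ ≤ M := hF0.trans hFM)
      (fun v h1 h2 h3 => by
        have h4 : |v.im| = W := by
          rcases h3 with h | h
          · rw [h, abs_neg, abs_of_pos (by linarith)]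
          · rw [h, abs_of_pos (by linarith)]
        exact (hedge v h1 (by linarith) (by rw [h4]; linarith) h4.le).trans hM1.le)
      (z := z) h1 (by linarith) (by linarith) (by linarith)
    rw [hHn, hM0] at key
    have h5 : ‖F z‖ ≤ ‖F (y₀ * I)‖ * Real.exp (-(c * ℓ * y₀ ^ 2)) *
        Real.exp (-(ε / 2 * ℓ * z.re + c * ℓ * (z.re ^ 2 - z.im ^ 2))) := by
      calc ‖F z‖ = ‖F z‖ * Real.exp (ε / 2 * ℓ * z.re + c * ℓ * (z.re ^ 2 - z.im ^ 2)) *
            Real.exp (-(ε / 2 * ℓ * z.re + c * ℓ * (z.re ^ 2 - z.im ^ 2))) := by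
            rw [mul_assoc, ← Real.exp_add]; simp
        _ ≤ _ := mul_le_mul_of_nonneg_right key (Real.exp_pos _).le
    refine h5.trans ?_
    rw [mul_assoc, ← Real.exp_add]
    apply mul_le_mul_of_nonneg_left _ (norm_nonneg _)
    apply Real.exp_le_exp.2
    have h6 : z.im ^ 2 - y₀ ^ 2 ≤ |z.im - y₀| * (2 * V + 1) := by
      have h7 : z.im ^ 2 - y₀ ^ 2 = (z.im - y₀) * (z.im + y₀) := by ring
      rw [h7]
      refine (le_abs_self _).trans ?_
      rw [abs_mul]
      apply mul_le_mul_of_nonneg_left _ (abs_nonneg _)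
      rw [abs_le]; constructor <;> linarith
    have h8 : c * (2 * V + 1) ≤ ε₁ := by
      have : c * (2 * V + 1) = 2 * (c * V) + c := by ring
      rw [this, hcV]
      linarith
    have h9 : c * (z.im ^ 2 - y₀ ^ 2) ≤ ε₁ * |z.im - y₀| := by
      calc c * (z.im ^ 2 - y₀ ^ 2) ≤ c * (|z.im - y₀| * (2 * V + 1)) :=
            mul_le_mul_of_nonneg_left h6 hc0.le
        _ = c * (2 * V + 1) * |z.im - y₀| := by ring
        _ ≤ _ := mul_le_mul_of_nonneg_right h8 (abs_nonneg _)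
    have h10 := mul_le_mul_of_nonneg_right h9 hℓ.le
    have h11 : 0 ≤ c * ℓ * z.re ^ 2 := by positivity
    nlinarith

/-- **the chain** -/
theorem chain (L : List ℂ) : ∀ ε r : ℝ, 0 < ε → ε ≤ 1 → 0 < r → r ≤ 1 / 2 → ∃ ℓ₀ : ℝ,
    ∀ (F : ℂ → ℂ) (y₀ ε₁ ℓ M : ℝ), ℓ₀ ≤ ℓ → 0 < M → ε₁ ≤ ε / 64 → 
      (∀ z : ℂ, ‖z - y₀ * I‖ ≤ 1 → AnalyticAt ℂ F z) →
      M ≤ ‖F (y₀ * I)‖ →
      (∀ z : ℂ, 0 ≤ z.re → z.re ≤ 1 / 2 → |z.im - y₀| ≤ 1 →
        ‖F z‖ ≤ M * Real.exp ((-(ε / 2) * z.re + ε₁ * |z.im - y₀|) * ℓ)) →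
      ∃ z : ℂ, ‖z - y₀ * I‖ ≤ r ∧ M * Real.exp (-(ε / 4 * r * ℓ)) ≤ ‖opL L F z‖ := by
  induction L with
  | nil =>
    intro ε r hε hε1 hr hr1
    refine ⟨0, fun F y₀ ε₁ ℓ M hℓ hM _ _ hF _ => ⟨y₀ * I, by simp [hr.le], ?_⟩⟩
    refine le_trans ?_ hF
    have : Real.exp (-(ε / 4 * r * ℓ)) ≤ 1 := by
      rw [Real.exp_le_one_iff]
      have : 0 ≤ ε / 4 * r * ℓ := by positivity
      linarith
    exact mul_le_of_le_one_right hM.le this
  | cons l L ih =>
    intro ε r hε hε1 hr hr1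
    obtain ⟨ℓ₀, h⟩ := ih ε (r / 8) hε hε1 (by positivity) (by linarith)
    obtain ⟨C, hC, hCauchy⟩ := opL_le L (r / 8) (by positivity)
    set X : ℝ := Real.exp (2 * ‖l‖) with hX
    have hX1 : 1 ≤ X := Real.one_le_exp (by positivity)
    -- thresholds
    refine ⟨|ℓ₀| + 64 * (Real.log (4 * X * C) + 1) / (ε * r), fun F y₀ ε₁ ℓ M hℓ hM hε₁ han hF0 hup => ?_⟩
    have hXC : 1 ≤ X * C := by nlinarith
    have hlog : 0 ≤ Real.log (4 * X * C) := Real.log_nonneg (by nlinarith)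
    have hℓa := le_abs_self ℓ₀
    have hℓn := abs_nonneg ℓ₀
    have hεr : 0 < ε * r := by positivity
    have hdiv : 0 ≤ 64 * (Real.log (4 * X * C) + 1) / (ε * r) := by positivity
    have hℓ0 : 0 ≤ ℓ := by linarith
    have hbig : 64 * (Real.log (4 * X * C) + 1) ≤ ε * r * ℓ := by
      have : 64 * (Real.log (4 * X * C) + 1) / (ε * r) ≤ ℓ := by linarith
      rw [div_le_iff₀ hεr] at this
      linarith
    have hexp : 4 * X * C ≤ Real.exp (ε * r * ℓ / 64) := by
      rw [← Real.exp_log (show 0 < 4 * X * C by positivity)]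
      apply Real.exp_le_exp.2
      linarith
    obtain ⟨z', hz', hG'⟩ := h F y₀ ε₁ ℓ M (by linarith) hM hε₁ han hF0 hup
    set G : ℂ → ℂ := opL L F with hG
    by_contra hcon
    push Not at hcon
    have hball : ∀ v ∈ closedBall ((y₀ : ℂ) * I) r, ‖v - y₀ * I‖ ≤ r := fun v hv => by
      rwa [mem_closedBall, dist_eq_norm] at hv
    have hGa : ∀ v ∈ closedBall ((y₀ : ℂ) * I) r, AnalyticAt ℂ G v := fun v hv =>
      opL_an L (han v ((hball v hv).trans (by linarith)))
    -- the point to the right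
    set w : ℂ := z' + ((r / 2 : ℝ) : ℂ) with hw
    have hz'mem : z' ∈ closedBall ((y₀ : ℂ) * I) r := by
      rw [mem_closedBall, dist_eq_norm]; linarith
    have hwz : ‖w - z'‖ = r / 2 := by
      rw [hw, add_sub_cancel_left, Complex.norm_real, Real.norm_eq_abs, abs_of_pos (by positivity)]
    have hwmem : w ∈ closedBall ((y₀ : ℂ) * I) r := by
      rw [mem_closedBall, dist_eq_norm]
      calc ‖w - y₀ * I‖ = ‖(w - z') + (z' - y₀ * I)‖ := by congr 1; ring
        _ ≤ ‖w - z'‖ + ‖z' - y₀ * I‖ := norm_add_le _ _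
        _ ≤ r := by rw [hwz]; linarith
    -- mean value inequality for the twisted function
    set φ : ℂ → ℂ := fun v => cexp (-(l * (v - z'))) * G v with hφ
    have hder : ∀ v ∈ closedBall ((y₀ : ℂ) * I) r,
        deriv φ v = cexp (-(l * (v - z'))) * (deriv G v - l * G v) := by
      intro v hv
      have h1 : HasDerivAt (fun v : ℂ => cexp (-(l * (v - z')))) (cexp (-(l * (v - z'))) * (-l)) v := by
        have h2 : HasDerivAt (fun v : ℂ => -(l * (v - z'))) (-l : ℂ) v := by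
          have := (((hasDerivAt_id v).sub_const z').const_mul (l : ℂ)).fun_neg
          simpa using this
        exact h2.cexp
      have h3 := (h1.mul (hGa v hv).differentiableAt.hasDerivAt).deriv
      have e : φ = (fun v => cexp (-(l * (v - z')))) * G := rfl
      rw [e, h3]
      ring
    have hexpn : ∀ v ∈ closedBall ((y₀ : ℂ) * I) r, ‖cexp (-(l * (v - z')))‖ ≤ X := by
      intro v hv
      rw [Complex.norm_exp, hX]
      apply Real.exp_le_exp.2
      refine (Complex.re_le_norm _).trans ?_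
      rw [norm_neg, norm_mul]
      have h1 : ‖v - z'‖ ≤ 2 := by
        calc ‖v - z'‖ = ‖(v - y₀ * I) - (z' - y₀ * I)‖ := by congr 1; ring
          _ ≤ ‖v - y₀ * I‖ + ‖z' - y₀ * I‖ := norm_sub_le _ _
          _ ≤ 2 := by linarith [hball v hv]
      nlinarith [norm_nonneg l]
    have hmv := (convex_closedBall ((y₀ : ℂ) * I) r).norm_image_sub_le_of_norm_deriv_le (𝕜 := ℂ) (f := φ)
      (C := X * (M * Real.exp (-(ε / 4 * r * ℓ)))) (fun v hv => by
        have h1 : AnalyticAt ℂ φ v := (by fun_prop : AnalyticAt ℂ (fun v => cexp (-(l * (v - z')))) v).mul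
          (hGa v hv)
        exact h1.differentiableAt)
      (fun v hv => by
        rw [hder v hv, norm_mul]
        exact mul_le_mul (hexpn v hv) (hcon v (hball v hv)).le (norm_nonneg _) (by linarith)) hz'mem hwmem
    have hφz : φ z' = G z' := by simp [hφ]
    rw [hφz, hwz] at hmv
    -- the upper bound at the right point
    have hzre := abs_le.1 (ball_re (z := (y₀ : ℂ) * I) (v := z') (r := r / 8)
      (by rw [mem_closedBall, dist_eq_norm]; exact hz'))
    have hzim := abs_le.1 (ball_im (z := (y₀ : ℂ) * I) (v := z') (r := r / 8)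
      (by rw [mem_closedBall, dist_eq_norm]; exact hz'))
    simp only [mul_re, ofReal_re, I_re, mul_zero, ofReal_im, I_im, zero_mul, sub_zero, mul_im, mul_one,
      add_zero, zero_add] at hzre hzim
    have hwre : w.re = z'.re + r / 2 := by rw [hw]; simp
    have hwim : w.im = z'.im := by rw [hw]; simp
    have hGw := hCauchy F w (M * Real.exp (-(ε * r / 9) * ℓ)) (by positivity) (fun v hv => by
      apply han
      have h1 : ‖v - w‖ ≤ r / 8 := by rwa [mem_closedBall, dist_eq_norm] at hv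
      calc ‖v - y₀ * I‖ = ‖(v - w) + (w - y₀ * I)‖ := by congr 1; ring
        _ ≤ ‖v - w‖ + ‖w - y₀ * I‖ := norm_add_le _ _
        _ ≤ 1 := by
            have := hball w hwmem
            linarith) (fun v hv => by
      have h1 := abs_le.1 (ball_re hv)
      have h2 := abs_le.1 (ball_im hv)
      rw [hwre] at h1
      rw [hwim] at h2
      have h3 : |v.im - y₀| ≤ r / 4 := by rw [abs_le]; constructor <;> linarith
      refine (hup v (by linarith) (by linarith) (by linarith)).trans ?_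
      apply mul_le_mul_of_nonneg_left _ hM.le
      apply Real.exp_le_exp.2
      apply mul_le_mul_of_nonneg_right _ hℓ0
      have h4 : ε₁ * |v.im - y₀| ≤ ε / 64 * (r / 4) := by
        calc ε₁ * |v.im - y₀| ≤ ε / 64 * |v.im - y₀| := mul_le_mul_of_nonneg_right hε₁ (abs_nonneg _)
          _ ≤ _ := mul_le_mul_of_nonneg_left h3 (by positivity)
      have h5 : ε / 2 * (r / 4) ≤ ε / 2 * v.re := mul_le_mul_of_nonneg_left (by linarith) (by positivity)
      nlinarith)
    -- comparison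
    have h1 : ‖G z'‖ ≤ ‖φ w - G z'‖ + ‖φ w‖ := by
      have := norm_sub_le (φ w) (φ w - G z')
      rw [sub_sub_cancel] at this
      linarith
    have h2 : ‖φ w‖ ≤ X * ‖G w‖ := by
      rw [hφ]
      simp only
      rw [norm_mul]
      exact mul_le_mul_of_nonneg_right (hexpn w hwmem) (norm_nonneg _)
    have h3 : ‖G z'‖ ≤ X * (M * Real.exp (-(ε / 4 * r * ℓ))) * (r / 2) +
        X * (C * (M * Real.exp (-(ε * r / 9) * ℓ))) := by
      have h21 : X * ‖G w‖ ≤ X * (C * (M * Real.exp (-(ε * r / 9) * ℓ))) :=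
        mul_le_mul_of_nonneg_left hGw (by linarith)
      linarith
    set e : ℝ := Real.exp (-(ε / 4 * (r / 8) * ℓ)) with he
    have he0 : 0 < e := Real.exp_pos _
    have hE := Real.exp_pos (ε * r * ℓ / 64)
    have h4 : Real.exp (-(ε / 4 * r * ℓ)) ≤ e * (Real.exp (ε * r * ℓ / 64))⁻¹ := by
      rw [he, ← Real.exp_neg, ← Real.exp_add]
      apply Real.exp_le_exp.2
      nlinarith
    have h5 : Real.exp (-(ε * r / 9) * ℓ) ≤ e * (Real.exp (ε * r * ℓ / 64))⁻¹ := by
      rw [he, ← Real.exp_neg, ← Real.exp_add]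
      apply Real.exp_le_exp.2
      nlinarith
    have h6 : X * C * (Real.exp (ε * r * ℓ / 64))⁻¹ ≤ 1 / 4 := by
      rw [← div_eq_mul_inv, div_le_iff₀ hE]
      linarith
    have h7 : X * (Real.exp (ε * r * ℓ / 64))⁻¹ ≤ 1 / 4 := by
      refine le_trans ?_ h6
      apply mul_le_mul_of_nonneg_right _ (inv_nonneg.2 hE.le)
      nlinarith
    have hMe : 0 < M * e := by positivity
    have h8 : X * (M * Real.exp (-(ε / 4 * r * ℓ))) * (r / 2) ≤ M * e * (1 / 4) := by
      calc X * (M * Real.exp (-(ε / 4 * r * ℓ))) * (r / 2)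
          ≤ X * (M * (e * (Real.exp (ε * r * ℓ / 64))⁻¹)) * 1 := by
            apply mul_le_mul _ (by linarith) (by positivity) (by positivity)
            apply mul_le_mul_of_nonneg_left _ (by linarith)
            exact mul_le_mul_of_nonneg_left h4 hM.le
        _ = M * e * (X * (Real.exp (ε * r * ℓ / 64))⁻¹) := by ring
        _ ≤ _ := mul_le_mul_of_nonneg_left h7 hMe.le
    have h9 : X * (C * (M * Real.exp (-(ε * r / 9) * ℓ))) ≤ M * e * (1 / 4) := by
      calc X * (C * (M * Real.exp (-(ε * r / 9) * ℓ)))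
          ≤ X * (C * (M * (e * (Real.exp (ε * r * ℓ / 64))⁻¹))) := by
            apply mul_le_mul_of_nonneg_left _ (by linarith)
            apply mul_le_mul_of_nonneg_left _ (by linarith)
            exact mul_le_mul_of_nonneg_left h5 hM.le
        _ = M * e * (X * C * (Real.exp (ε * r * ℓ / 64))⁻¹) := by ring
        _ ≤ _ := mul_le_mul_of_nonneg_left h6 hMe.le
    linarith

end Pool.Agent.TH804.SB
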