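import Mathlib
import Pool.Agent.TH804.SB2
import Pool.Agent.H31R2.DH.Back

/-!
Few `a`-points of the differential operator to the left of the critical line imply small values on the
critical line, and conversely.
-/

set_option autoImplicit false

open Complex Filter Topology Metric Set
open H370 H370.Loc

set_option maxHeartbeats 4000000

namespace Pool.Agent.TH804.SB

lemma exists_exp_dom (C : ℝ) {ε : ℝ} (hε : 0 < ε) : ∃ Y : ℝ, 1 ≤ Y ∧ ∀ y : ℝ, Y ≤ y → C * y ≤ Real.exp (ε * y) := by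
  have h1 : Tendsto (fun y : ℝ => Real.exp (ε * y) / y ^ (1:ℝ)) atTop atTop :=
    tendsto_exp_mul_div_rpow_atTop 1 ε hε
  obtain ⟨Y, hY⟩ := (eventually_atTop.1 (h1.eventually_ge_atTop C))
  refine ⟨max Y 1, le_max_right _ _, fun y hy => ?_⟩
  have hy1 : 1 ≤ y := (le_max_right _ _).trans hy
  have h2 := hY y ((le_max_left _ _).trans hy)
  rwa [Real.rpow_one, le_div_iff₀ (by linarith)] at h2

/-- **from the left to the critical line** -/
theorem crit_bound (L : List ℂ) {ε B : ℝ} (hε : 0 < ε) (hε1 : ε ≤ 1) (hB : 0 ≤ B) :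
    ∃ δ η W ℓ₀ : ℝ, 0 < δ ∧ δ ≤ ε ∧ 0 < η ∧ η ≤ ε ∧ 3 ≤ W ∧ ∀ (F : ℂ → ℂ) (ℓ : ℝ), ℓ₀ ≤ ℓ → LG F η W B ℓ →
      (∀ z : ℂ, -1 ≤ z.re → z.re ≤ -δ → |z.im| ≤ W - 1 → ‖opL L F z‖ ≤ Real.exp ((-z.re + δ) * ℓ)) →
      ‖F 0‖ ≤ Real.exp (ε * ℓ) := by
  obtain ⟨η, W, hη, hηε, hW, hpeak⟩ := peak (ε := ε) (ε₁ := ε / 64) (B := B) hε hε1 (by positivity)
    (by linarith) hB
  obtain ⟨ℓ₁, hcrude⟩ := opL_crude L
  set ρ : ℝ := ε / 16 with hρ
  have hρ0 : 0 < ρ := by positivity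
  set r : ℝ := ε * ρ / (80 * (B + 2)) with hr
  have hB2 : 0 < B + 2 := by linarith
  have hr0 : 0 < r := by positivity
  have hrB : r * (80 * (B + 2)) = ε * ρ := by rw [hr]; field_simp
  have hrρ : r ≤ ρ / 160 := by
    have : r * 160 ≤ r * (80 * (B + 2)) := mul_le_mul_of_nonneg_left (by linarith) hr0.le
    nlinarith
  obtain ⟨ℓ₂, hchain⟩ := chain L ε r hε hε1 hr0 (by linarith)
  obtain ⟨Y, hY1, hY⟩ := exists_exp_dom (20 * (B + 2)) (ε := ε / 8) (by positivity)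
  refine ⟨r, η, W, |ℓ₁| + |ℓ₂| + Y + 8, hr0, by linarith, hη, hηε, hW, fun F ℓ hℓ hF hleft => ?_⟩
  have a1 := le_abs_self ℓ₁
  have a2 := le_abs_self ℓ₂
  have a3 := abs_nonneg ℓ₁
  have a4 := abs_nonneg ℓ₂
  have hℓ1 : 1 ≤ ℓ := by linarith
  have hℓ0 : 0 < ℓ := by linarith
  by_contra hcon
  push Not at hcon
  obtain ⟨y₀, hy₀, hF0, hup⟩ := hpeak F ℓ hℓ0 hF hcon.le
  set M : ℝ := ‖F (y₀ * I)‖ with hM
  have hMe : Real.exp (ε * ℓ) ≤ M := hcon.le.trans hF0
  have hM0 : 0 < M := lt_of_lt_of_le (Real.exp_pos _) hMe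
  have hy₀' := abs_le.1 (show |y₀| ≤ W - 2 by linarith)
  obtain ⟨z, hz, hGz⟩ := hchain F y₀ (ε / 64) ℓ M (by linarith) hM0 le_rfl (fun v hv => by
    have h1 := abs_le.1 ((Complex.abs_re_le_norm (v - y₀ * I)).trans hv)
    have h2 := abs_le.1 ((Complex.abs_im_le_norm (v - y₀ * I)).trans hv)
    simp at h1 h2
    apply hF.an
    · rw [abs_le]; constructor <;> linarith
    · rw [abs_le]; constructor <;> linarith) le_rfl hup
  set G : ℂ → ℂ := opL L F with hG
  -- three circles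
  set c : ℂ := y₀ * I - (ρ : ℂ) with hc
  have hcre : c.re = -ρ := by rw [hc]; simp
  have hcim : c.im = y₀ := by rw [hc]; simp
  have hzc : ‖z - c‖ ≤ ρ + r := by
    calc ‖z - c‖ = ‖(z - y₀ * I) + (ρ : ℂ)‖ := by rw [hc]; congr 1; ring
      _ ≤ ‖z - y₀ * I‖ + ‖(ρ : ℂ)‖ := norm_add_le _ _
      _ ≤ _ := by
          rw [Complex.norm_real, Real.norm_eq_abs, abs_of_pos hρ0]; linarith
  have hcoord : ∀ (R : ℝ) (v : ℂ), ‖v - c‖ ≤ R → -ρ - R ≤ v.re ∧ v.re ≤ -ρ + R ∧ y₀ - R ≤ v.im ∧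
      v.im ≤ y₀ + R := by
    intro R v hv
    have h1 := abs_le.1 ((Complex.abs_re_le_norm (v - c)).trans hv)
    have h2 := abs_le.1 ((Complex.abs_im_le_norm (v - c)).trans hv)
    rw [Complex.sub_re, hcre] at h1
    rw [Complex.sub_im, hcim] at h2
    refine ⟨by linarith, by linarith, by linarith, by linarith⟩
  set K : ℕ := ⌈4 * (B + 2) * ℓ⌉₊ with hK
  have hK1 : 4 * (B + 2) * ℓ ≤ K := Nat.le_ceil _
  have hK2 : (K : ℝ) ≤ 5 * (B + 2) * ℓ := by
    have h1 : (K : ℝ) < 4 * (B + 2) * ℓ + 1 := Nat.ceil_lt_add_one (by positivity)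
    nlinarith
  have hcb := DH31.circle_bound (f := G) (c := c) (z := z) (r := ρ + r) (s0 := ρ - r) (s := 2 * ρ)
    (R := 3 * ρ) (m := Real.exp (2 * ρ * ℓ)) (M := Real.exp ((B + 1) * ℓ)) (by linarith) (by linarith)
    (by linarith) (by linarith) (by linarith) (by linarith)
    (fun v hv => by
      rw [mem_ball, dist_eq_norm] at hv
      obtain ⟨h1, h2, h3, h4⟩ := hcoord _ v hv.le
      apply AnalyticAt.differentiableWithinAt
      apply opL_an L
      apply hF.an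
      · rw [abs_le]; constructor <;> linarith
      · rw [abs_le]; constructor <;> linarith)
    (fun v hv => by
      rw [mem_sphere, dist_eq_norm] at hv
      obtain ⟨h1, h2, h3, h4⟩ := hcoord _ v hv.le
      refine (hleft v (by linarith) (by linarith) (by rw [abs_le]; constructor <;> linarith)).trans ?_
      apply Real.exp_le_exp.2
      apply mul_le_mul_of_nonneg_right _ hℓ0.le
      linarith)
    (fun v hv => by
      rw [mem_sphere, dist_eq_norm] at hv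
      obtain ⟨h1, h2, h3, h4⟩ := hcoord _ v hv.le
      apply hcrude F η W B ℓ (by linarith) hF v
      · rw [abs_le]; constructor <;> linarith
      · rw [abs_le]; constructor <;> linarith)
    hzc K
  -- the geometric sum
  have hq1 : 1 ≤ (ρ + r) / (ρ - r) := by
    rw [le_div_iff₀ (by linarith)]; linarith
  have hsum : ∑ n ∈ Finset.range K, ((ρ + r) / (ρ - r)) ^ n ≤ K * ((ρ + r) / (ρ - r)) ^ K := by
    have h1 : ∀ n ∈ Finset.range K, ((ρ + r) / (ρ - r)) ^ n ≤ ((ρ + r) / (ρ - r)) ^ K := fun n hn =>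
      pow_le_pow_right₀ hq1 (Finset.mem_range.1 hn).le
    refine (Finset.sum_le_sum h1).trans ?_
    rw [Finset.sum_const, Finset.card_range, nsmul_eq_mul]
  have hqe : (ρ + r) / (ρ - r) ≤ Real.exp (4 * r / ρ) := by
    have h1 := Real.add_one_le_exp (4 * r / ρ)
    refine le_trans ?_ h1
    rw [div_le_iff₀ (by linarith)]
    have h2 : (4 * r / ρ + 1) * (ρ - r) = 4 * r - 4 * r ^ 2 / ρ + ρ - r := by field_simp; ring
    rw [h2]
    have h3 : 4 * r ^ 2 / ρ ≤ r := by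
      rw [div_le_iff₀ hρ0]
      nlinarith
    linarith
  have hqK : ((ρ + r) / (ρ - r)) ^ K ≤ Real.exp (ε / 4 * ℓ) := by
    calc ((ρ + r) / (ρ - r)) ^ K ≤ (Real.exp (4 * r / ρ)) ^ K :=
          pow_le_pow_left₀ (by linarith) hqe K
      _ = Real.exp (K * (4 * r / ρ)) := by rw [← Real.exp_nat_mul]
      _ ≤ _ := by
          apply Real.exp_le_exp.2
          have h1 : (K : ℝ) * (4 * r / ρ) ≤ 5 * (B + 2) * ℓ * (4 * r / ρ) :=
            mul_le_mul_of_nonneg_right hK2 (by positivity)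
          have h2 : 5 * (B + 2) * ℓ * (4 * r / ρ) = (r * (80 * (B + 2))) / ρ * ℓ / 4 := by
            field_simp; norm_num
          rw [h2, hrB] at h1
          have h3 : ε * ρ / ρ = ε := by field_simp
          rw [h3] at h1
          linarith
  have hlast : Real.exp ((B + 1) * ℓ) * ((ρ + r) / (2 * ρ)) ^ K / (1 - (ρ + r) / (2 * ρ)) ≤ 4 := by
    have h1 : (ρ + r) / (2 * ρ) ≤ 3 / 4 := by
      rw [div_le_iff₀ (by positivity)]; linarith
    have h0 : 0 ≤ (ρ + r) / (2 * ρ) := by positivity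
    have h2 : ((ρ + r) / (2 * ρ)) ^ K ≤ Real.exp (-((B + 2) * ℓ)) := by
      calc ((ρ + r) / (2 * ρ)) ^ K ≤ (3 / 4) ^ K := pow_le_pow_left₀ h0 h1 K
        _ ≤ (Real.exp (-(1 / 4))) ^ K := by
            apply pow_le_pow_left₀ (by norm_num)
            have := Real.add_one_le_exp (-(1/4 : ℝ))
            linarith
        _ = Real.exp (K * (-(1 / 4))) := by rw [← Real.exp_nat_mul]
        _ ≤ _ := by
            apply Real.exp_le_exp.2
            linarith
    rw [div_le_iff₀ (by linarith)]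
    calc Real.exp ((B + 1) * ℓ) * ((ρ + r) / (2 * ρ)) ^ K
        ≤ Real.exp ((B + 1) * ℓ) * Real.exp (-((B + 2) * ℓ)) :=
          mul_le_mul_of_nonneg_left h2 (Real.exp_pos _).le
      _ = Real.exp (-ℓ) := by rw [← Real.exp_add]; congr 1; ring
      _ ≤ 1 := by rw [Real.exp_le_one_iff]; linarith
      _ ≤ _ := by linarith
  have hupper : ‖G z‖ ≤ 5 * (B + 2) * ℓ * Real.exp ((ε / 8 + ε / 4) * ℓ) + 4 := by
    refine hcb.trans (add_le_add ?_ hlast)
    have h1 : ∑ n ∈ Finset.range K, ((ρ + r) / (ρ - r)) ^ n ≤ 5 * (B + 2) * ℓ * Real.exp (ε / 4 * ℓ) := by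
      refine hsum.trans ?_
      exact mul_le_mul hK2 hqK (by positivity) (by positivity)
    calc Real.exp (2 * ρ * ℓ) * ∑ n ∈ Finset.range K, ((ρ + r) / (ρ - r)) ^ n
        ≤ Real.exp (2 * ρ * ℓ) * (5 * (B + 2) * ℓ * Real.exp (ε / 4 * ℓ)) :=
          mul_le_mul_of_nonneg_left h1 (Real.exp_pos _).le
      _ = 5 * (B + 2) * ℓ * (Real.exp (2 * ρ * ℓ) * Real.exp (ε / 4 * ℓ)) := by ring
      _ = _ := by rw [← Real.exp_add]; congr 2; rw [hρ]; ring
  have hlower : Real.exp (3 / 4 * ε * ℓ) ≤ ‖G z‖ := by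
    refine le_trans ?_ hGz
    calc Real.exp (3 / 4 * ε * ℓ) ≤ Real.exp (ε * ℓ) * Real.exp (-(ε / 4 * r * ℓ)) := by
          rw [← Real.exp_add]
          apply Real.exp_le_exp.2
          have h1 : r ≤ 1 := by linarith
          have h2 : 0 < ε * ℓ := by positivity
          nlinarith
      _ ≤ _ := mul_le_mul_of_nonneg_right hMe (Real.exp_pos _).le
  -- contradiction
  have hYℓ := hY ℓ (by linarith)
  have h20 : 20 * (B + 2) * ℓ ≥ 40 := by nlinarith
  set E : ℝ := Real.exp (ε / 8 * ℓ) with hE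
  have hE0 : 40 ≤ E := by linarith
  have e1 : Real.exp ((ε / 8 + ε / 4) * ℓ) = E * E * E := by
    rw [hE, ← Real.exp_add, ← Real.exp_add]; congr 1; ring
  have e2 : Real.exp (3 / 4 * ε * ℓ) = E * E * E * (E * E * E) := by
    rw [hE, ← Real.exp_add, ← Real.exp_add, ← Real.exp_add]; congr 1; ring
  rw [e1] at hupper
  rw [e2] at hlower
  have h5 : 5 * (B + 2) * ℓ ≤ E / 4 := by linarith
  have hE3 : 0 < E * E * E := by positivity
  have h6 : 5 * (B + 2) * ℓ * (E * E * E) ≤ E / 4 * (E * E * E) := mul_le_mul_of_nonneg_right h5 hE3.le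
  have h7 : E * 1600 ≤ E * E * E := by nlinarith
  have h8 : E * E * E * (E * 1600) ≤ E * E * E * (E * E * E) := mul_le_mul_of_nonneg_left h7 hE3.le
  have h9 : 64000 ≤ E * E * E := by nlinarith
  nlinarith

lemma mult_tw {f : ℂ → ℂ} {ℓ : ℝ} {z : ℂ} (hf : AnalyticAt ℂ f z) :
    mult (fun v => f v * cexp (ℓ * v)) z = mult f z := by
  have h2 : AnalyticAt ℂ (fun v : ℂ => cexp (ℓ * v)) z := by fun_prop
  have h3 : analyticOrderAt (fun v : ℂ => cexp (ℓ * v)) z = 0 :=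
    h2.analyticOrderAt_eq_zero.2 (Complex.exp_ne_zero _)
  have h4 := analyticOrderAt_mul hf h2
  rw [h3, add_zero] at h4
  unfold mult analyticOrderNatAt
  rw [← h4]
  rfl

/-- bounds for `(G v - a) exp (ℓ v)` from bounds for `G` -/
lemma tw_sub_le {G : ℂ → ℂ} {a v : ℂ} {ε ℓ : ℝ} (hε : 0 ≤ ε) (hℓ : 0 ≤ ℓ) (hv : v.re ≤ 0)
    (hG : ‖G v‖ ≤ Real.exp ((-v.re + ε) * ℓ)) : ‖(G v - a) * cexp (ℓ * v)‖ ≤ (1 + ‖a‖) * Real.exp (ε * ℓ) := by
  have h := tw_norm (fun v => G v - a) ℓ v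
  rw [h]
  have h1 : ‖G v - a‖ ≤ Real.exp ((-v.re + ε) * ℓ) + ‖a‖ := (norm_sub_le _ _).trans (by linarith)
  have h2 : Real.exp (ℓ * v.re) ≤ 1 := by
    rw [Real.exp_le_one_iff]
    exact mul_nonpos_of_nonneg_of_nonpos hℓ hv
  have h3 : 1 ≤ Real.exp (ε * ℓ) := Real.one_le_exp (by positivity)
  calc ‖G v - a‖ * Real.exp (ℓ * v.re) ≤ (Real.exp ((-v.re + ε) * ℓ) + ‖a‖) * Real.exp (ℓ * v.re) :=
        mul_le_mul_of_nonneg_right h1 (Real.exp_pos _).le
    _ = Real.exp (ε * ℓ) + ‖a‖ * Real.exp (ℓ * v.re) := by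
        rw [add_mul, ← Real.exp_add]; congr 2; ring
    _ ≤ Real.exp (ε * ℓ) + ‖a‖ * Real.exp (ε * ℓ) := by
        have := mul_le_mul_of_nonneg_left (h2.trans h3) (norm_nonneg a)
        linarith
    _ = _ := by ring

lemma tw_sub_ge {G : ℂ → ℂ} {a v : ℂ} {ε ℓ : ℝ} (hG : Real.exp ((-v.re - ε) * ℓ) ≤ ‖G v‖)
    (ha : 2 * ‖a‖ ≤ Real.exp ((-v.re - ε) * ℓ)) :
    Real.exp (-(ε * ℓ)) / 2 ≤ ‖(G v - a) * cexp (ℓ * v)‖ := by
  have h := tw_norm (fun v => G v - a) ℓ v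
  rw [h]
  have h1 : ‖G v‖ - ‖a‖ ≤ ‖G v - a‖ := norm_sub_norm_le _ _
  have h2 : Real.exp ((-v.re - ε) * ℓ) / 2 ≤ ‖G v - a‖ := by linarith
  calc Real.exp (-(ε * ℓ)) / 2 = Real.exp ((-v.re - ε) * ℓ) / 2 * Real.exp (ℓ * v.re) := by
        rw [div_mul_eq_mul_div, ← Real.exp_add]; congr 2; ring
    _ ≤ _ := mul_le_mul_of_nonneg_right h2 (Real.exp_pos _).le

/-- the box of the zeros -/
def Few (G : ℂ → ℂ) (a : ℂ) (δ y n : ℝ) : Prop := ∀ S : Finset ℂ,
  (∀ z ∈ S, -(3 / 4) ≤ z.re ∧ z.re ≤ -δ ∧ |z.im - y| ≤ 1 ∧ G z = a) →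
    ∑ z ∈ S, (mult (fun v => G v - a) z : ℝ) ≤ n

/-- **few zeros imply small values** -/
theorem few_zeros (L : List ℂ) (a : ℂ) {ε B : ℝ} (hε : 0 < ε) (hε1 : ε ≤ 1 / 4) (hB : 0 ≤ B) :
    ∃ δ κ η ℓ₀ : ℝ, 0 < δ ∧ δ ≤ ε ∧ 0 < κ ∧ κ ≤ ε ∧ 0 < η ∧ η ≤ ε ∧ ∀ (F : ℂ → ℂ) (W ℓ y : ℝ), ℓ₀ ≤ ℓ →
      LG F η W B ℓ → |y| ≤ W - 2 → Few (opL L F) a δ y (κ * ℓ) →
      ∀ x : ℝ, ε ≤ x → x ≤ 1 → ‖opL L F (-x + y * I)‖ ≤ Real.exp ((x + ε) * ℓ) := by
  obtain ⟨ℓ₁, hcrude⟩ := opL_crude L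
  set δ : ℝ := ε / 4 with hδ
  have hδ0 : 0 < δ := by positivity
  -- the number of terms
  set D : ℝ := 8 * (B + 8) / δ * (2 / δ) with hD
  have hD0 : 0 < D := by positivity
  obtain ⟨K, hK⟩ := exists_pow_lt_of_lt_one (show 0 < ε / 8 / D by positivity)
    (show 1 - δ / 2 < 1 by linarith)
  rw [lt_div_iff₀ hD0] at hK
  set N : ℝ := K * (32 : ℝ) ^ K with hN
  have hN0 : 0 ≤ N := by positivity
  set l16 : ℝ := Real.log 16 with hl16
  have hl16' : l16 ≤ 4 := by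
    rw [hl16, show (16:ℝ) = 2 ^ 4 by norm_num, Real.log_pow]
    have := Real.log_two_lt_d9
    push_cast
    linarith
  have hl160 : 0 ≤ l16 := Real.log_nonneg (by norm_num)
  have hlogδ : 0 ≤ Real.log (1 / δ) := Real.log_nonneg (by rw [le_div_iff₀ hδ0]; linarith)
  set κ : ℝ := min (ε / (64 * (1 + N))) (1 / (1 + Real.log (1 / δ))) with hκ
  have hκ0 : 0 < κ := by positivity
  have hκ1 : κ * (64 * (1 + N)) ≤ ε := by
    have : κ ≤ ε / (64 * (1 + N)) := min_le_left _ _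
    rwa [le_div_iff₀ (by positivity)] at this
  have hκ2 : κ * Real.log (1 / δ) ≤ 1 := by
    have h1 : κ ≤ 1 / (1 + Real.log (1 / δ)) := min_le_right _ _
    rw [le_div_iff₀ (by positivity)] at h1
    linarith
  have hκ64 : κ ≤ ε / 64 := by
    have : κ * 64 ≤ κ * (64 * (1 + N)) := mul_le_mul_of_nonneg_left (by linarith) hκ0.le
    linarith
  obtain ⟨η, hη, hηκ, ℓ₂, hℓ₂, hleft⟩ := opL_left L κ hκ0 (by linarith)
  refine ⟨δ, κ, η, |ℓ₁| + ℓ₂ + 4 * (1 + ‖a‖) + 16 * (1 + ‖a‖) / κ + 4 / κ, hδ0, by linarith, hκ0, by linarith, hη,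
    by linarith, fun F W ℓ y hℓ hF hy hfew x hx1 hx2 => ?_⟩
  have hx0 : 0 < x := by linarith
  have b1 := le_abs_self ℓ₁
  have b2 := abs_nonneg ℓ₁
  have ha0 := norm_nonneg a
  have b3 : 0 ≤ 16 * (1 + ‖a‖) / κ := by positivity
  have b4 : 0 ≤ 4 / κ := by positivity
  have hℓ1 : 1 ≤ ℓ := by linarith
  have hℓ0 : 0 < ℓ := by linarith
  have hκℓ : 16 * (1 + ‖a‖) ≤ κ * ℓ := by
    have : 16 * (1 + ‖a‖) / κ ≤ ℓ := by linarith
    rw [div_le_iff₀ hκ0] at this
    linarith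
  have hκℓ1 : 1 ≤ κ * ℓ := by linarith
  have hy' := abs_le.1 hy
  set G : ℂ → ℂ := opL L F with hG
  set f : ℂ → ℂ := fun v => (G v - a) * cexp (ℓ * v) with hf
  set c : ℂ := ⟨-(3 / 4), y⟩ with hc
  have hcoord : ∀ (R : ℝ) (v : ℂ), v ∈ closedBall c R → -(3 / 4) - R ≤ v.re ∧ v.re ≤ -(3 / 4) + R ∧
      y - R ≤ v.im ∧ v.im ≤ y + R := by
    intro R v hv
    have h1 := abs_le.1 (ball_re hv)
    have h2 := abs_le.1 (ball_im hv)
    have e1 : c.re = -(3 / 4) := rfl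
    have e2 : c.im = y := rfl
    rw [e1] at h1
    rw [e2] at h2
    refine ⟨by linarith, by linarith, by linarith, by linarith⟩
  have hGan : ∀ v ∈ closedBall c (3 / 4), AnalyticAt ℂ G v := by
    intro v hv
    obtain ⟨h1, h2, h3, h4⟩ := hcoord _ v hv
    apply opL_an L
    apply hF.an
    · rw [abs_le]; constructor <;> linarith
    · rw [abs_le]; constructor <;> linarith
  -- size of `a`
  have haexp : ∀ p : ℝ, 1 / 4 ≤ p → 2 * ‖a‖ ≤ Real.exp (p * ℓ) ∧ ‖a‖ < Real.exp (p * ℓ) := by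
    intro p hp
    have h1 := Real.add_one_le_exp (p * ℓ)
    have h2 : 1 / 4 * ℓ ≤ p * ℓ := mul_le_mul_of_nonneg_right hp hℓ0.le
    have h3 : 16 * (1 + ‖a‖) ≤ 1 / 4 * ℓ := by
      have : κ * ℓ ≤ 1 / 4 * ℓ := mul_le_mul_of_nonneg_right (by linarith) hℓ0.le
      linarith
    constructor <;> linarith
  have hsmall : (1 + ‖a‖) * Real.exp (κ * ℓ) ≤ Real.exp (2 * κ * ℓ) := by
    have h1 := Real.add_one_le_exp (κ * ℓ)
    have e : Real.exp (2 * κ * ℓ) = Real.exp (κ * ℓ) * Real.exp (κ * ℓ) := by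
      rw [← Real.exp_add]; congr 1; ring
    rw [e]
    exact mul_le_mul_of_nonneg_right (by linarith) (Real.exp_pos _).le
  have hmain := DH31.backlund_abs (f := f) (c := c) (ϱ := 3 / 4 - 3 * δ) (δ := δ) (l := 1 / 8)
    (n := κ * ℓ) (M := Real.exp ((B + 2) * ℓ)) (A := Real.exp (2 * κ * ℓ)) (a := Real.exp (2 * κ * ℓ))
    (by norm_num) (by norm_num) (by linarith) (by linarith) hδ0
    (Real.one_le_exp (by positivity)) (Real.one_le_exp (by positivity)) (Real.one_le_exp (by positivity))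
    (by positivity)
    (fun v hv => ((hGan v (by
      convert hv using 2; ring)).sub analyticAt_const).mul (by fun_prop))
    (fun v hv => by
      have hv' : v ∈ closedBall c (3 / 4) := by
        convert hv using 2; ring
      obtain ⟨h1, h2, h3, h4⟩ := hcoord _ v hv'
      have h5 := hcrude F η W B ℓ (by linarith) hF v (by rw [abs_le]; constructor <;> linarith)
        (by rw [abs_le]; constructor <;> linarith)
      have h6 := tw_norm (fun v => G v - a) ℓ v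
      rw [hf]
      simp only
      rw [h6]
      have h7 : Real.exp (ℓ * v.re) ≤ 1 := by
        rw [Real.exp_le_one_iff]
        exact mul_nonpos_of_nonneg_of_nonpos hℓ0.le (by linarith)
      have h8 : ‖G v - a‖ ≤ Real.exp ((B + 1) * ℓ) + ‖a‖ := (norm_sub_le _ _).trans (by linarith)
      have h9 : Real.exp ((B + 1) * ℓ) + ‖a‖ ≤ Real.exp ((B + 2) * ℓ) := by
        have e : Real.exp ((B + 2) * ℓ) = Real.exp ((B + 1) * ℓ) * Real.exp ℓ := by
          rw [← Real.exp_add]; congr 1; ring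
        rw [e]
        have h10 : 1 ≤ Real.exp ((B + 1) * ℓ) := Real.one_le_exp (by positivity)
        have h11 := Real.add_one_le_exp ℓ
        have h12 : 1 + ‖a‖ ≤ Real.exp ℓ := by linarith
        nlinarith
      calc ‖G v - a‖ * Real.exp (ℓ * v.re) ≤ ‖G v - a‖ * 1 :=
            mul_le_mul_of_nonneg_left h7 (norm_nonneg _)
        _ ≤ _ := by rw [mul_one]; linarith)
    (fun v hv => by
      obtain ⟨h1, h2, h3, h4⟩ := hcoord _ v hv
      obtain ⟨h5, h6⟩ := hleft F W B ℓ (by linarith) hF v (by linarith) (by linarith)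
        (by rw [abs_le]; constructor <;> linarith)
      exact (tw_sub_le hκ0.le hℓ0.le (by linarith) h6).trans hsmall)
    (by
      obtain ⟨h5, h6⟩ := hleft F W B ℓ (by linarith) hF c (by show -2 + κ ≤ -(3 / 4); linarith)
        (by show -(3 / 4 : ℝ) ≤ -(1 / 2 + κ); linarith)
        (by show |y| ≤ W - κ; linarith)
      have h7 := tw_sub_ge (a := a) h5 (haexp _ (by show (1:ℝ) / 4 ≤ - -(3 / 4) - κ; linarith)).1
      refine le_trans ?_ h7
      rw [one_div, ← Real.exp_neg, le_div_iff₀ (by norm_num)]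
      have h8 := Real.add_one_le_exp (κ * ℓ)
      have e : Real.exp (-(κ * ℓ)) = Real.exp (-(2 * κ * ℓ)) * Real.exp (κ * ℓ) := by
        rw [← Real.exp_add]; congr 1; ring
      rw [e]
      exact mul_le_mul_of_nonneg_left (by linarith) (Real.exp_pos _).le)
    (fun z hz h0 => by
      obtain ⟨h1, h2, h3, h4⟩ := hcoord _ z hz
      have h5 : G z = a := by
        rw [hf] at h0
        simp only [mul_eq_zero, Complex.exp_ne_zero, or_false] at h0
        exact sub_eq_zero.1 h0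
      by_contra hcon
      push Not at hcon
      obtain ⟨h6, h7, h8, h9⟩ := hcoord (1 / 8) z (by
        rw [mem_closedBall, dist_eq_norm]; exact hcon.le)
      obtain ⟨h10, h11⟩ := hleft F W B ℓ (by linarith) hF z (by linarith) (by linarith)
        (by rw [abs_le]; constructor <;> linarith)
      have h12 : ‖G z‖ = ‖a‖ := by rw [h5]
      have h13 := (haexp (-z.re - κ) (by linarith)).2
      have h14 : Real.exp ((-z.re - κ) * ℓ) ≤ ‖G z‖ := h10
      linarith)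
    (fun S hS => by
      have h1 := hfew S (fun z hz => by
        obtain ⟨h2, h3⟩ := hS z hz
        obtain ⟨h4, h5, h6, h7⟩ := hcoord _ z h2
        have h8 : G z = a := by
          rw [hf] at h3
          simp only [mul_eq_zero, Complex.exp_ne_zero, or_false] at h3
          exact sub_eq_zero.1 h3
        refine ⟨?_, by linarith, by rw [abs_le]; constructor <;> linarith, h8⟩
        by_contra hcon
        push Not at hcon
        obtain ⟨h10, h11⟩ := hleft F W B ℓ (by linarith) hF z (by linarith) (by linarith)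
          (by rw [abs_le]; constructor <;> linarith)
        have h12 : ‖G z‖ = ‖a‖ := by rw [h8]
        have h13 := (haexp (-z.re - κ) (by linarith)).2
        have h14 : Real.exp ((-z.re - κ) * ℓ) ≤ ‖G z‖ := h10
        linarith)
      refine le_trans (le_of_eq (Finset.sum_congr rfl fun z hz => ?_)) h1
      rw [hf, mult_tw]
      refine (hGan z ?_).sub analyticAt_const
      exact closedBall_subset_closedBall (by linarith) (hS z hz).1)
    K (z := -x + y * I) (by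
      rw [mem_closedBall, dist_eq_norm]
      have e1 : (-x + y * I : ℂ) - c = ((3 / 4 - x : ℝ) : ℂ) := by
        apply Complex.ext
        · simp [hc]; ring
        · simp [hc]
      rw [e1, Complex.norm_real, Real.norm_eq_abs, abs_le]
      constructor <;> linarith)
  -- simplification
  have e28 : Real.log (2 / (1 / 8 : ℝ)) = l16 := by rw [hl16]; norm_num
  have e48 : (4 / (1 / 8 : ℝ)) = 32 := by norm_num
  rw [e28, e48, Real.log_exp, Real.log_exp, ← Real.exp_add] at hmain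
  have hfz := tw_norm (fun v => G v - a) ℓ (-x + y * I)
  rw [hf] at hmain
  simp only at hmain
  rw [hfz] at hmain
  have hre : (-x + y * I : ℂ).re = -x := by simp
  rw [hre] at hmain
  have hexp : 2 * κ * ℓ + (κ * ℓ * l16 + 2 * (2 * κ * ℓ + κ * ℓ * l16 + 2 * κ * ℓ + 1) * (K * 32 ^ K) +
      4 * ((B + 2) * ℓ + κ * ℓ * Real.log (1 / δ) + 2 * κ * ℓ + 1) / δ * (1 - δ / 2) ^ K * (2 / δ)) ≤
      ε / 2 * ℓ := by
    have t1 : κ * ℓ * l16 ≤ 4 * (κ * ℓ) := by nlinarith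
    have t2 : 2 * (2 * κ * ℓ + κ * ℓ * l16 + 2 * κ * ℓ + 1) * (K * 32 ^ K) ≤ 18 * (κ * ℓ) * N := by
      rw [hN]
      apply mul_le_mul_of_nonneg_right _ hN0
      linarith
    have t3 : κ * ℓ * Real.log (1 / δ) ≤ ℓ := by nlinarith
    have t4 : 4 * ((B + 2) * ℓ + κ * ℓ * Real.log (1 / δ) + 2 * κ * ℓ + 1) / δ * (1 - δ / 2) ^ K * (2 / δ)
        ≤ ε / 8 * ℓ := by
      have hq : 0 ≤ (1 - δ / 2) ^ K := pow_nonneg (by linarith) K
      calc 4 * ((B + 2) * ℓ + κ * ℓ * Real.log (1 / δ) + 2 * κ * ℓ + 1) / δ * (1 - δ / 2) ^ K * (2 / δ)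
          ≤ 4 * (2 * (B + 8) * ℓ) / δ * (1 - δ / 2) ^ K * (2 / δ) := by
            apply mul_le_mul_of_nonneg_right _ (by positivity)
            apply mul_le_mul_of_nonneg_right _ hq
            apply div_le_div_of_nonneg_right _ hδ0.le
            have : 2 * κ * ℓ ≤ ℓ := by nlinarith
            nlinarith
        _ = ((1 - δ / 2) ^ K * D) * ℓ := by rw [hD]; ring
        _ ≤ ε / 8 * ℓ := mul_le_mul_of_nonneg_right hK.le hℓ0.le
    have t5 : κ * ℓ * (64 * (1 + N)) ≤ ε * ℓ := by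
      have := mul_le_mul_of_nonneg_right hκ1 hℓ0.le
      linarith
    have t6 : 0 ≤ κ * ℓ * N := by positivity
    nlinarith
  have h1 : ‖G (-x + y * I) - a‖ * Real.exp (ℓ * -x) ≤ Real.exp (ε / 2 * ℓ) :=
    hmain.trans (Real.exp_le_exp.2 hexp)
  have h2 : ‖G (-x + y * I) - a‖ ≤ Real.exp ((x + ε / 2) * ℓ) := by
    calc ‖G (-x + y * I) - a‖ = ‖G (-x + y * I) - a‖ * Real.exp (ℓ * -x) * Real.exp (ℓ * x) := by
          rw [mul_assoc, ← Real.exp_add]; simp
      _ ≤ Real.exp (ε / 2 * ℓ) * Real.exp (ℓ * x) := mul_le_mul_of_nonneg_right h1 (Real.exp_pos _).le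
      _ = _ := by rw [← Real.exp_add]; congr 1; ring
  calc ‖G (-x + y * I)‖ ≤ ‖G (-x + y * I) - a‖ + ‖a‖ := by
        have := norm_add_le (G (-x + y * I) - a) a
        rwa [sub_add_cancel] at this
    _ ≤ (1 + ‖a‖) * Real.exp ((x + ε / 2) * ℓ) := by
        have h3 : 1 ≤ Real.exp ((x + ε / 2) * ℓ) := Real.one_le_exp (by positivity)
        nlinarith
    _ ≤ Real.exp (ε / 2 * ℓ) * Real.exp ((x + ε / 2) * ℓ) := by
        apply mul_le_mul_of_nonneg_right _ (Real.exp_pos _).le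
        have h4 := Real.add_one_le_exp (ε / 2 * ℓ)
        have h5 : κ * ℓ ≤ ε / 2 * ℓ := mul_le_mul_of_nonneg_right (by linarith) hℓ0.le
        linarith
    _ = _ := by rw [← Real.exp_add]; congr 1; ring

end Pool.Agent.TH804.SB
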