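import Mathlib
import Pool.Agent.TH804.SB3

/-!
Small values on the critical line imply few `a`-points; the two local theorems.
-/

set_option autoImplicit false

open Complex Filter Topology Metric Set
open H370 H370.Loc

set_option maxHeartbeats 4000000

namespace Pool.Agent.TH804.SB

lemma LG.mono {F : ℂ → ℂ} {η η' W W' B ℓ : ℝ} (h : LG F η W B ℓ) (hη : η ≤ η') (hW : W' ≤ W) (hℓ : 0 ≤ ℓ) :
    LG F η' W' B ℓ where
  an := fun z h1 h2 => h.an z h1 (h2.trans hW)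
  crude := fun z h1 h2 => h.crude z h1 (h2.trans hW)
  right := fun z h1 h2 h3 => (h.right z (by linarith) h2 (h3.trans hW)).trans
    (Real.exp_le_exp.2 (mul_le_mul_of_nonneg_right hη hℓ))
  up := fun z h1 h2 h3 => (h.up z h1 (by linarith) (h3.trans hW)).trans
    (Real.exp_le_exp.2 (mul_le_mul_of_nonneg_right (by linarith) hℓ))
  lo := fun z h1 h2 h3 => le_trans
    (Real.exp_le_exp.2 (mul_le_mul_of_nonneg_right (by linarith) hℓ)) (h.lo z h1 (by linarith) (h3.trans hW))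

/-- **small values imply few zeros** -/
theorem few_of_small (L : List ℂ) (a : ℂ) {ε δ B : ℝ} (hε : 0 < ε) (hε1 : ε ≤ 1) (hδ : 0 < δ) (hδ1 : δ ≤ 1 / 4) :
    ∃ ε' η ℓ₀ : ℝ, 0 < ε' ∧ ε' ≤ ε ∧ 0 < η ∧ η ≤ ε' ∧ ∀ (F : ℂ → ℂ) (W ℓ y : ℝ), ℓ₀ ≤ ℓ →
      LG F η W B ℓ → |y| ≤ W - 3 →
      (∀ z : ℂ, -(3 / 2) ≤ z.re → z.re ≤ -(δ / 4) → |z.im - y| ≤ 2 →
        ‖opL L F z‖ ≤ Real.exp ((-z.re + ε') * ℓ)) → Few (opL L F) a δ y (ε * ℓ) := by
  classical
  set ε' : ℝ := ε * δ ^ 2 / 60 with hε'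
  have hε'0 : 0 < ε' := by positivity
  have hδ2 : δ ^ 2 ≤ 1 / 16 := by nlinarith
  have hε'1 : ε' ≤ ε / 960 := by
    rw [hε']
    have : ε * δ ^ 2 ≤ ε * (1 / 16) := mul_le_mul_of_nonneg_left hδ2 hε.le
    linarith
  obtain ⟨η, hη, hηε, ℓ₁, hℓ₁, hleft⟩ := opL_left L ε' hε'0 (by linarith)
  refine ⟨ε', η, ℓ₁ + 16 * (1 + ‖a‖) / ε', hε'0, by linarith, hη, hηε, fun F W ℓ y hℓ hF hy hup => ?_⟩
  have ha0 := norm_nonneg a
  have b1 : 0 ≤ 16 * (1 + ‖a‖) / ε' := by positivity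
  have hℓ1 : 1 ≤ ℓ := by linarith
  have hℓ0 : 0 < ℓ := by linarith
  have hεℓ : 16 * (1 + ‖a‖) ≤ ε' * ℓ := by
    have : 16 * (1 + ‖a‖) / ε' ≤ ℓ := by linarith
    rw [div_le_iff₀ hε'0] at this
    linarith
  have hεℓ1 : 1 ≤ ε' * ℓ := by linarith
  have hy' := abs_le.1 hy
  set G : ℂ → ℂ := opL L F with hG
  set f : ℂ → ℂ := fun v => (G v - a) * cexp (ℓ * v) with hf
  set c : ℕ → ℂ := fun k => ⟨-(3 / 4), y - 1 + k * (δ / 2)⟩ with hc
  set N : ℕ := ⌊4 / δ⌋₊ + 1 with hN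
  have hN1 : (N : ℝ) ≤ 5 / δ := by
    rw [hN]
    push_cast
    have h1 : (⌊4 / δ⌋₊ : ℝ) ≤ 4 / δ := Nat.floor_le (by positivity)
    have h2 : 1 ≤ 1 / δ := by rw [le_div_iff₀ hδ]; linarith
    have h3 : 5 / δ = 4 / δ + 1 / δ := by ring
    linarith
  have hkb : ∀ k < N, (k : ℝ) * (δ / 2) ≤ 2 := by
    intro k hk
    have h1 : k ≤ ⌊4 / δ⌋₊ := by omega
    have h2 : (k : ℝ) ≤ 4 / δ := (Nat.cast_le.2 h1).trans (Nat.floor_le (by positivity))
    calc (k : ℝ) * (δ / 2) ≤ 4 / δ * (δ / 2) := mul_le_mul_of_nonneg_right h2 (by positivity)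
      _ = 2 := by field_simp; norm_num
  have hcoord : ∀ k < N, ∀ (R : ℝ) (v : ℂ), v ∈ closedBall (c k) R → -(3 / 4) - R ≤ v.re ∧ v.re ≤ -(3 / 4) + R ∧
      y - 1 - R ≤ v.im ∧ v.im ≤ y + 1 + R := by
    intro k hk R v hv
    have h1 := abs_le.1 (ball_re hv)
    have h2 := abs_le.1 (ball_im hv)
    have e1 : (c k).re = -(3 / 4) := rfl
    have e2 : (c k).im = y - 1 + k * (δ / 2) := rfl
    rw [e1] at h1
    rw [e2] at h2
    have h3 := hkb k hk
    have h4 : 0 ≤ (k : ℝ) * (δ / 2) := by positivity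
    refine ⟨by linarith, by linarith, by linarith, by linarith⟩
  have hsmall : (1 + ‖a‖) * Real.exp (ε' * ℓ) ≤ Real.exp (2 * ε' * ℓ) := by
    have h1 := Real.add_one_le_exp (ε' * ℓ)
    have e : Real.exp (2 * ε' * ℓ) = Real.exp (ε' * ℓ) * Real.exp (ε' * ℓ) := by
      rw [← Real.exp_add]; congr 1; ring
    rw [e]
    exact mul_le_mul_of_nonneg_right (by linarith) (Real.exp_pos _).le
  -- one disc
  have hone : ∀ k < N, ∀ S : Finset ℂ, (∀ z ∈ S, z ∈ closedBall (c k) (3 / 4 - δ / 2)) →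
      ∑ z ∈ S, (mult f z : ℝ) ≤ 12 * ε' * ℓ / δ := by
    intro k hk S hS
    have hfc : Real.exp (-(2 * ε' * ℓ)) ≤ ‖f (c k)‖ := by
      have h3 := hkb k hk
      have h4 : 0 ≤ (k : ℝ) * (δ / 2) := by positivity
      obtain ⟨h5, h6⟩ := hleft F W B ℓ (by linarith) hF (c k) (by show -2 + ε' ≤ -(3 / 4); linarith)
        (by show -(3 / 4 : ℝ) ≤ -(1 / 2 + ε'); linarith)
        (by show |y - 1 + k * (δ / 2)| ≤ W - ε'; rw [abs_le]; constructor <;> linarith)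
      have h7 := tw_sub_ge (a := a) h5 (by
        show 2 * ‖a‖ ≤ Real.exp ((- -(3 / 4) - ε') * ℓ)
        have h8 := Real.add_one_le_exp ((- -(3 / 4) - ε') * ℓ)
        have h9 : 1 / 4 * ℓ ≤ (- -(3 / 4) - ε') * ℓ := mul_le_mul_of_nonneg_right (by linarith) hℓ0.le
        have h10 : ε' * ℓ ≤ 1 / 4 * ℓ := mul_le_mul_of_nonneg_right (by linarith) hℓ0.le
        linarith)
      refine le_trans ?_ h7
      rw [le_div_iff₀ (by norm_num)]
      have h8 := Real.add_one_le_exp (ε' * ℓ)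
      have e : Real.exp (-(ε' * ℓ)) = Real.exp (-(2 * ε' * ℓ)) * Real.exp (ε' * ℓ) := by
        rw [← Real.exp_add]; congr 1; ring
      rw [e]
      exact mul_le_mul_of_nonneg_left (by linarith) (Real.exp_pos _).le
    have hfc0 : 0 < ‖f (c k)‖ := lt_of_lt_of_le (Real.exp_pos _) hfc
    have hj := jensen_mult (f := f) (c := c k) (r := 3 / 4 - δ / 2) (R := 3 / 4 - δ / 4)
      (M := Real.exp (2 * ε' * ℓ)) (by linarith) (by linarith) (Real.one_le_exp (by positivity))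
      (fun v hv => by
        obtain ⟨h1, h2, h3, h4⟩ := hcoord k hk _ v hv
        refine ((opL_an L (hF.an v ?_ ?_)).sub analyticAt_const).mul (by fun_prop)
        · rw [abs_le]; constructor <;> linarith
        · rw [abs_le]; constructor <;> linarith) (norm_pos_iff.1 hfc0)
      (fun v hv => by
        obtain ⟨h1, h2, h3, h4⟩ := hcoord k hk _ v hv
        exact (tw_sub_le hε'0.le hℓ0.le (by linarith) (hup v (by linarith) (by linarith)
          (by rw [abs_le]; constructor <;> linarith))).trans hsmall) S hS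
    refine hj.trans ?_
    have h1 : Real.log (Real.exp (2 * ε' * ℓ) / ‖f (c k)‖) ≤ 4 * ε' * ℓ := by
      rw [Real.log_div (Real.exp_pos _).ne' hfc0.ne', Real.log_exp]
      have h2 : -(2 * ε' * ℓ) ≤ Real.log ‖f (c k)‖ := by
        rw [Real.le_log_iff_exp_le hfc0]
        exact hfc
      linarith
    have h2 : δ / 3 ≤ Real.log ((3 / 4 - δ / 4) / (3 / 4 - δ / 2)) := by
      have h3 : 0 < 3 / 4 - δ / 4 := by linarith
      have h4 : 0 < 3 / 4 - δ / 2 := by linarith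
      have h5 := Real.one_sub_inv_le_log_of_pos (x := (3 / 4 - δ / 4) / (3 / 4 - δ / 2)) (by positivity)
      refine le_trans ?_ h5
      rw [inv_div, le_sub_iff_add_le, add_comm, ← le_sub_iff_add_le, div_le_iff₀ h3]
      nlinarith
    have h3 : 0 ≤ 4 * ε' * ℓ := by positivity
    calc Real.log (Real.exp (2 * ε' * ℓ) / ‖f (c k)‖) / Real.log ((3 / 4 - δ / 4) / (3 / 4 - δ / 2))
        ≤ 4 * ε' * ℓ / (δ / 3) := div_le_div₀ h3 h1 (by positivity) h2
      _ = _ := by field_simp; norm_num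
  intro S hS
  have hmul : ∀ z ∈ S, mult (fun v => G v - a) z = mult f z := by
    intro z hz
    obtain ⟨h1, h2, h3, h4⟩ := hS z hz
    have h5 := abs_le.1 h3
    rw [hf, mult_tw]
    refine (opL_an L (hF.an z ?_ ?_)).sub analyticAt_const
    · rw [abs_le]; constructor <;> linarith
    · rw [abs_le]; constructor <;> linarith
  have hcov : ∀ z ∈ S, ∃ k < N, z ∈ closedBall (c k) (3 / 4 - δ / 2) := by
    intro z hz
    obtain ⟨h1, h2, h3, h4⟩ := hS z hz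
    have h5 := abs_le.1 h3
    set u : ℝ := (z.im - y + 1) / (δ / 2) with hu
    have hu0 : 0 ≤ u := div_nonneg (by linarith) (by positivity)
    have hu1 : u ≤ 4 / δ := by
      rw [hu, div_le_div_iff₀ (by positivity) hδ]
      nlinarith
    refine ⟨⌊u⌋₊, ?_, ?_⟩
    · rw [hN]
      have : ⌊u⌋₊ ≤ ⌊4 / δ⌋₊ := Nat.floor_le_floor hu1
      omega
    · have h6 : (⌊u⌋₊ : ℝ) ≤ u := Nat.floor_le hu0
      have h7 : u < ⌊u⌋₊ + 1 := Nat.lt_floor_add_one u
      have h8 : u * (δ / 2) = z.im - y + 1 := by rw [hu]; field_simp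
      have h9 := mul_le_mul_of_nonneg_right h6 (show 0 ≤ δ / 2 by positivity)
      have h10 := mul_lt_mul_of_pos_right h7 (show 0 < δ / 2 by positivity)
      rw [mem_closedBall, dist_eq_norm]
      refine (Complex.norm_le_abs_re_add_abs_im _).trans ?_
      rw [Complex.sub_re, Complex.sub_im]
      have e1 : (c ⌊u⌋₊).re = -(3 / 4) := rfl
      have e2 : (c ⌊u⌋₊).im = y - 1 + ⌊u⌋₊ * (δ / 2) := rfl
      rw [e1, e2]
      have h11 : |z.re - -(3 / 4)| ≤ 3 / 4 - δ := by rw [abs_le]; constructor <;> linarith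
      have h12 : |z.im - (y - 1 + ⌊u⌋₊ * (δ / 2))| ≤ δ / 2 := by
        rw [abs_le]; constructor <;> linarith
      linarith
  calc ∑ z ∈ S, (mult (fun v => G v - a) z : ℝ) = ∑ z ∈ S, (mult f z : ℝ) :=
        Finset.sum_congr rfl fun z hz => by rw [hmul z hz]
    _ ≤ ∑ z ∈ S, ∑ k ∈ Finset.range N, (if z ∈ closedBall (c k) (3 / 4 - δ / 2) then (mult f z : ℝ) else 0) := by
        refine Finset.sum_le_sum fun z hz => ?_
        obtain ⟨k, hk, hzk⟩ := hcov z hz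
        have h1 := Finset.single_le_sum (s := Finset.range N)
          (f := fun k => if z ∈ closedBall (c k) (3 / 4 - δ / 2) then (mult f z : ℝ) else 0)
          (fun i _ => by positivity) (Finset.mem_range.2 hk)
        simp only [hzk, if_true] at h1
        exact h1
    _ = ∑ k ∈ Finset.range N, ∑ z ∈ S, (if z ∈ closedBall (c k) (3 / 4 - δ / 2) then (mult f z : ℝ) else 0) :=
        Finset.sum_comm
    _ ≤ ∑ k ∈ Finset.range N, 12 * ε' * ℓ / δ := by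
        refine Finset.sum_le_sum fun k hk => ?_
        rw [← Finset.sum_filter]
        exact hone k (Finset.mem_range.1 hk) _ fun z hz => (Finset.mem_filter.1 hz).2
    _ = N * (12 * ε' * ℓ / δ) := by rw [Finset.sum_const, Finset.card_range, nsmul_eq_mul]
    _ ≤ 5 / δ * (12 * ε' * ℓ / δ) := mul_le_mul_of_nonneg_right hN1 (by positivity)
    _ = ε * ℓ := by rw [hε']; field_simp; norm_num

/-- **local theorem, first part** -/
theorem T1 (L : List ℂ) (a : ℂ) {ε δ B : ℝ} (hε : 0 < ε) (hδ : 0 < δ) (hδ1 : δ ≤ 1 / 4) (hB : 0 ≤ B) :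
    ∃ η W ℓ₀ : ℝ, 0 < η ∧ 0 < W ∧ ∀ (F : ℂ → ℂ) (ℓ : ℝ), ℓ₀ ≤ ℓ → LG F η W B ℓ →
      (∀ y : ℝ, |y| ≤ W → ‖F (y * I)‖ ≤ Real.exp (η * ℓ)) → Few (opL L F) a δ 0 (ε * ℓ) := by
  obtain ⟨ε', η₁, ℓ₁, hε', hε'1, hη₁, hη₁ε, hfew⟩ := few_of_small L a (ε := min ε 1) (δ := δ) (B := B)
    (lt_min hε one_pos) (min_le_right _ _) hδ hδ1
  have hm : min ε 1 ≤ 1 := min_le_right _ _
  obtain ⟨η₂, V, hη₂, hη₂ε, hV, hup⟩ := left_upper (ε := ε' / 4) (B := B) (by positivity) (by linarith) hB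
  set r : ℝ := min (δ / 8) (ε' / 4) with hr
  have hr0 : 0 < r := lt_min (by positivity) (by positivity)
  have hr1 : r ≤ δ / 8 := min_le_left _ _
  have hr2 : r ≤ ε' / 4 := min_le_right _ _
  obtain ⟨C, hC, hCau⟩ := opL_le L r hr0
  have hlC : 0 ≤ Real.log C := Real.log_nonneg hC
  refine ⟨min η₁ η₂, V + 4, |ℓ₁| + 4 * Real.log C / ε', lt_min hη₁ hη₂, by linarith, fun F ℓ hℓ hF hcrit => ?_⟩
  have b1 := le_abs_self ℓ₁
  have b2 := abs_nonneg ℓ₁
  have b3 : 0 ≤ 4 * Real.log C / ε' := by positivity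
  have hℓ0 : 0 ≤ ℓ := by linarith
  have hCℓ : Real.log C ≤ ε' / 4 * ℓ := by
    have : 4 * Real.log C / ε' ≤ ℓ := by linarith
    rw [div_le_iff₀ hε'] at this
    linarith
  have hF1 := hF.mono (min_le_left η₁ η₂) le_rfl hℓ0
  have hF2 := hF.mono (min_le_right η₁ η₂) le_rfl hℓ0
  have hup' := hup F (V + 4) ℓ hℓ0 hF2 (fun y hy => (hcrit y hy).trans (Real.exp_le_exp.2
    (mul_le_mul_of_nonneg_right (min_le_right _ _) hℓ0)))
  have := hfew F (V + 4) ℓ 0 (by linarith) hF1 (by rw [abs_zero]; linarith) (fun z h1 h2 h3 => by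
    rw [sub_zero] at h3
    have h3' := abs_le.1 h3
    have h4 := hCau F z (Real.exp ((-z.re + r + ε' / 4) * ℓ)) (Real.exp_pos _).le (fun v hv => by
      have h5 := abs_le.1 (ball_re hv)
      have h6 := abs_le.1 (ball_im hv)
      apply hF.an
      · rw [abs_le]; constructor <;> linarith
      · rw [abs_le]; constructor <;> linarith) (fun v hv => by
      have h5 := abs_le.1 (ball_re hv)
      have h6 := abs_le.1 (ball_im hv)
      refine (hup' v (by linarith) (by linarith) (by rw [abs_le]; constructor <;> linarith)).trans ?_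
      apply Real.exp_le_exp.2
      apply mul_le_mul_of_nonneg_right _ hℓ0
      linarith)
    refine h4.trans ?_
    have hCe : C = Real.exp (Real.log C) := (Real.exp_log (by linarith)).symm
    rw [hCe, ← Real.exp_add]
    apply Real.exp_le_exp.2
    have h5 : r * ℓ ≤ ε' / 4 * ℓ := mul_le_mul_of_nonneg_right hr2 hℓ0
    nlinarith)
  intro S hS
  exact (this S hS).trans (mul_le_mul_of_nonneg_right (min_le_left _ _) hℓ0)

/-- **local theorem, second part** -/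
theorem T2 (L : List ℂ) (a : ℂ) {ε B : ℝ} (hε : 0 < ε) (hB : 0 ≤ B) :
    ∃ δ κ η W ℓ₀ : ℝ, 0 < δ ∧ δ ≤ 1 / 4 ∧ 0 < κ ∧ 0 < η ∧ 0 < W ∧ ∀ (F : ℂ → ℂ) (ℓ : ℝ), ℓ₀ ≤ ℓ → LG F η W B ℓ →
      (∀ y : ℝ, |y| ≤ W → Few (opL L F) a δ y (κ * ℓ)) → ‖F 0‖ ≤ Real.exp (ε * ℓ) := by
  obtain ⟨δ₁, η₁, W, ℓ₁, hδ₁, hδ₁ε, hη₁, hη₁ε, hW, hcrit⟩ := crit_bound L (ε := min ε (1 / 4)) (B := B)
    (lt_min hε (by norm_num)) ((min_le_right _ _).trans (by norm_num)) hB
  have hm : min ε (1 / 4) ≤ 1 / 4 := min_le_right _ _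
  obtain ⟨δ, κ, η₂, ℓ₂, hδ, hδε, hκ, hκε, hη₂, hη₂ε, hfew⟩ := few_zeros L a (ε := δ₁) (B := B) hδ₁
    (by linarith) hB
  refine ⟨δ, κ, min η₁ η₂, W + 1, |ℓ₁| + |ℓ₂|, hδ, by linarith, hκ, lt_min hη₁ hη₂, by linarith,
    fun F ℓ hℓ hF hall => ?_⟩
  have b1 := le_abs_self ℓ₁
  have b2 := abs_nonneg ℓ₁
  have b3 := le_abs_self ℓ₂
  have b4 := abs_nonneg ℓ₂
  have hℓ0 : 0 ≤ ℓ := by linarith
  have hF1 := hF.mono (η' := η₁) (W' := W) (min_le_left η₁ η₂) (by linarith) hℓ0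
  have hF2 := hF.mono (η' := η₂) (W' := W + 1) (min_le_right η₁ η₂) le_rfl hℓ0
  refine (hcrit F ℓ (by linarith) hF1 (fun z h1 h2 h3 => ?_)).trans ?_
  · have h4 := hfew F (W + 1) ℓ z.im (by linarith) hF2 (by linarith) (hall z.im (by linarith)) (-z.re)
      (by linarith) (by linarith)
    have e : (-((-z.re : ℝ) : ℂ) + z.im * I) = z := by
      apply Complex.ext <;> simp
    rw [e] at h4
    exact h4
  · apply Real.exp_le_exp.2
    exact mul_le_mul_of_nonneg_right (min_le_left _ _) hℓ0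

end Pool.Agent.TH804.SB
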