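import Mathlib
import Pool.Agent.TH804.SB4

/-!
Polynomials in the derivative, and the local theorems for them.
-/

set_option autoImplicit false

open Complex Filter Topology Metric Set Polynomial
open H370 H370.Loc

set_option maxHeartbeats 4000000

namespace Pool.Agent.TH804.SB

/-- `P(D) F` -/
noncomputable def PF (P : ℂ[X]) (F : ℂ → ℂ) (z : ℂ) : ℂ := P.sum fun i c => c * iteratedDeriv i F z

lemma PF_add (P Q : ℂ[X]) (F : ℂ → ℂ) (z : ℂ) : PF (P + Q) F z = PF P F z + PF Q F z := by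
  unfold PF
  exact Polynomial.sum_add_index _ _ _ (fun i => by simp) (fun i a b => by ring)

lemma PF_monomial (i : ℕ) (c : ℂ) (F : ℂ → ℂ) (z : ℂ) :
    PF (monomial i c) F z = c * iteratedDeriv i F z := by
  unfold PF
  rw [Polynomial.sum_monomial_index _ _ (by simp)]

lemma itd_an (i : ℕ) {F : ℂ → ℂ} {z : ℂ} (h : AnalyticAt ℂ F z) : AnalyticAt ℂ (iteratedDeriv i F) z := by
  induction i with
  | zero => rw [iteratedDeriv_zero]; exact h
  | succ i ih => rw [iteratedDeriv_succ]; exact ih.deriv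

lemma PF_an (P : ℂ[X]) {F : ℂ → ℂ} {z : ℂ} (h : AnalyticAt ℂ F z) : AnalyticAt ℂ (PF P F) z := by
  induction P using Polynomial.induction_on' with
  | add p q hp hq =>
    have e : PF (p + q) F = fun s => PF p F s + PF q F s := funext fun s => PF_add p q F s
    rw [e]
    exact hp.add hq
  | monomial i c =>
    have e : PF (monomial i c) F = fun s => c * iteratedDeriv i F s := funext fun s => PF_monomial i c F s
    rw [e]
    exact analyticAt_const.mul (itd_an i h)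

lemma PF_C_mul (c : ℂ) (P : ℂ[X]) (F : ℂ → ℂ) (z : ℂ) : PF (C c * P) F z = c * PF P F z := by
  induction P using Polynomial.induction_on' with
  | add p q hp hq => rw [mul_add, PF_add, PF_add, hp, hq]; ring
  | monomial i a => rw [C_mul_monomial, PF_monomial, PF_monomial]; ring

lemma PF_X_mul (P : ℂ[X]) {F : ℂ → ℂ} {z : ℂ} (h : AnalyticAt ℂ F z) :
    PF (X * P) F z = deriv (PF P F) z := by
  induction P using Polynomial.induction_on' with
  | add p q hp hq =>
    have e : PF (p + q) F = fun s => PF p F s + PF q F s := funext fun s => PF_add p q F s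
    rw [mul_add, PF_add, hp, hq, e, deriv_fun_add ((PF_an p h).differentiableAt)
      ((PF_an q h).differentiableAt)]
  | monomial i a =>
    have e : PF (monomial i a) F = fun s => a * iteratedDeriv i F s := funext fun s => PF_monomial i a F s
    rw [X_mul_monomial, PF_monomial, e, deriv_const_mul_field, iteratedDeriv_succ]

/-- factorization -/
lemma PF_eq : ∀ (n : ℕ) (P : ℂ[X]), P ≠ 0 → P.natDegree = n → ∃ (c : ℂ) (L : List ℂ), c ≠ 0 ∧
    ∀ (F : ℂ → ℂ) (z : ℂ), AnalyticAt ℂ F z → PF P F z = c * opL L F z := by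
  intro n
  induction n with
  | zero =>
    intro P hP hn
    obtain ⟨c, rfl⟩ := Polynomial.natDegree_eq_zero.1 hn
    have hc : c ≠ 0 := by
      rintro rfl
      exact hP (by simp)
    refine ⟨c, [], hc, fun F z _ => ?_⟩
    have e : (C c : ℂ[X]) = monomial 0 c := rfl
    rw [e, PF_monomial, iteratedDeriv_zero]
    rfl
  | succ n ih =>
    intro P hP hn
    have hdeg : P.degree ≠ 0 := by
      intro h
      rw [Polynomial.degree_eq_natDegree hP, hn] at h
      have : ((n + 1 : ℕ) : WithBot ℕ) = ((0 : ℕ) : WithBot ℕ) := h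
      rw [Nat.cast_inj] at this
      omega
    obtain ⟨l, hl⟩ := IsAlgClosed.exists_root P hdeg
    obtain ⟨Q, hQ⟩ := Polynomial.dvd_iff_isRoot.2 hl
    have hQ0 : Q ≠ 0 := by
      rintro rfl
      exact hP (by rw [hQ]; simp)
    have hQn : Q.natDegree = n := by
      have h1 := Polynomial.natDegree_mul (Polynomial.X_sub_C_ne_zero l) hQ0
      rw [← hQ, hn, Polynomial.natDegree_X_sub_C] at h1
      omega
    obtain ⟨c, L, hc, h⟩ := ih Q hQ0 hQn
    refine ⟨c, l :: L, hc, fun F z hF => ?_⟩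
    have h1 : PF P F z = deriv (PF Q F) z - l * PF Q F z := by
      have e : P = X * Q + C (-l) * Q := by
        rw [hQ, map_neg]
        ring
      rw [e, PF_add, PF_X_mul Q hF, PF_C_mul]
      ring
    have h2 : deriv (PF Q F) z = c * deriv (opL L F) z := by
      have hev : PF Q F =ᶠ[𝓝 z] fun v => c * opL L F v := by
        filter_upwards [hF.eventually_analyticAt] with v hv
        exact h F v hv
      rw [hev.deriv_eq, deriv_const_mul_field]
    rw [h1, h2, h F z hF, opL_cons]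
    ring

lemma mult_smul {f : ℂ → ℂ} {c z : ℂ} (hc : c ≠ 0) (hf : AnalyticAt ℂ f z) :
    mult (fun v => c * f v) z = mult f z := by
  have h2 : AnalyticAt ℂ (fun _ : ℂ => c) z := analyticAt_const
  have h3 : analyticOrderAt (fun _ : ℂ => c) z = 0 := h2.analyticOrderAt_eq_zero.2 hc
  have h4 := analyticOrderAt_mul h2 hf
  rw [h3, zero_add] at h4
  unfold mult analyticOrderNatAt
  rw [← h4]
  rfl

lemma mult_congr {f g : ℂ → ℂ} {z : ℂ} (h : f =ᶠ[𝓝 z] g) : mult f z = mult g z := by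
  unfold mult analyticOrderNatAt
  rw [analyticOrderAt_congr h]

/-- the relation between the counts -/
lemma few_iff {P : ℂ[X]} {c : ℂ} {L : List ℂ} (hc : c ≠ 0) {F : ℂ → ℂ} {y : ℝ}
    (han : ∀ z : ℂ, |z.re| ≤ 3 / 4 → |z.im - y| ≤ 1 → AnalyticAt ℂ F z)
    (h : ∀ z : ℂ, AnalyticAt ℂ F z → PF P F z = c * opL L F z) {a : ℂ} {δ n : ℝ} (hδ : 0 < δ) :
    Few (PF P F) a δ y n ↔ Few (opL L F) (a / c) δ y n := by
  have key : ∀ z : ℂ, -(3 / 4) ≤ z.re → z.re ≤ -δ → |z.im - y| ≤ 1 →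
      (PF P F z = a ↔ opL L F z = a / c) ∧
      mult (fun v => PF P F v - a) z = mult (fun v => opL L F v - a / c) z := by
    intro z h1 h2 h3
    have hz := han z (by rw [abs_le]; constructor <;> linarith) h3
    constructor
    · rw [h z hz, eq_div_iff hc, mul_comm]
    · have h4 : (fun v => PF P F v - a) =ᶠ[𝓝 z] fun v => c * (opL L F v - a / c) := by
        filter_upwards [hz.eventually_analyticAt] with v hv
        rw [h v hv, mul_sub, mul_div_cancel₀ _ hc]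
      rw [mult_congr h4]
      exact mult_smul (f := fun v => opL L F v - a / c) hc ((opL_an L hz).sub analyticAt_const)
  constructor
  · intro hf S hS
    refine le_trans (le_of_eq (Finset.sum_congr rfl fun z hz => ?_)) (hf S fun z hz => ?_)
    · obtain ⟨h1, h2, h3, h4⟩ := hS z hz
      rw [(key z h1 h2 h3).2]
    · obtain ⟨h1, h2, h3, h4⟩ := hS z hz
      exact ⟨h1, h2, h3, (key z h1 h2 h3).1.2 h4⟩
  · intro hf S hS
    refine le_trans (le_of_eq (Finset.sum_congr rfl fun z hz => ?_)) (hf S fun z hz => ?_)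
    · obtain ⟨h1, h2, h3, h4⟩ := hS z hz
      rw [(key z h1 h2 h3).2]
    · obtain ⟨h1, h2, h3, h4⟩ := hS z hz
      exact ⟨h1, h2, h3, (key z h1 h2 h3).1.1 h4⟩

/-- **local theorem, first part** -/
theorem P1 {P : ℂ[X]} (hP : P ≠ 0) (a : ℂ) {ε δ B : ℝ} (hε : 0 < ε) (hδ : 0 < δ) (hδ1 : δ ≤ 1 / 4) (hB : 0 ≤ B) :
    ∃ η W ℓ₀ : ℝ, 0 < η ∧ 0 < W ∧ ∀ (F : ℂ → ℂ) (ℓ : ℝ), ℓ₀ ≤ ℓ → LG F η W B ℓ →
      (∀ y : ℝ, |y| ≤ W → ‖F (y * I)‖ ≤ Real.exp (η * ℓ)) → Few (PF P F) a δ 0 (ε * ℓ) := by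
  obtain ⟨c, L, hc, h⟩ := PF_eq _ P hP rfl
  obtain ⟨η, W, ℓ₀, hη, hW, hT⟩ := T1 L (a / c) hε hδ hδ1 hB
  refine ⟨η, W + 1, |ℓ₀|, hη, by linarith, fun F ℓ hℓ hF hcrit => ?_⟩
  have b1 := le_abs_self ℓ₀
  have b2 := abs_nonneg ℓ₀
  rw [few_iff hc (fun z h1 h2 => hF.an z (by linarith) (by rw [sub_zero] at h2; linarith)) (h F) hδ]
  exact hT F ℓ (by linarith) (hF.mono le_rfl (by linarith) (by linarith)) (fun y hy => hcrit y (by linarith))

/-- **local theorem, second part** -/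
theorem P2 {P : ℂ[X]} (hP : P ≠ 0) (a : ℂ) {ε B : ℝ} (hε : 0 < ε) (hB : 0 ≤ B) :
    ∃ δ κ η W ℓ₀ : ℝ, 0 < δ ∧ δ ≤ 1 / 4 ∧ 0 < κ ∧ 0 < η ∧ 0 < W ∧ ∀ (F : ℂ → ℂ) (ℓ : ℝ), ℓ₀ ≤ ℓ → LG F η W B ℓ →
      (∀ y : ℝ, |y| ≤ W → Few (PF P F) a δ y (κ * ℓ)) → ‖F 0‖ ≤ Real.exp (ε * ℓ) := by
  obtain ⟨c, L, hc, h⟩ := PF_eq _ P hP rfl
  obtain ⟨δ, κ, η, W, ℓ₀, hδ, hδ1, hκ, hη, hW, hT⟩ := T2 L (a / c) hε hB
  refine ⟨δ, κ, η, W + 1, |ℓ₀|, hδ, hδ1, hκ, hη, by linarith, fun F ℓ hℓ hF hall => ?_⟩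
  have b1 := le_abs_self ℓ₀
  have b2 := abs_nonneg ℓ₀
  refine hT F ℓ (by linarith) (hF.mono le_rfl (by linarith) (by linarith)) (fun y hy => ?_)
  rw [← few_iff hc (fun z h1 h2 => hF.an z (by linarith) (by
    have h3 := abs_le.1 h2
    have h4 := abs_le.1 hy
    rw [abs_le]; constructor <;> linarith)) (h F) hδ]
  exact hall y (by linarith)

end Pool.Agent.TH804.SB
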