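import Mathlib
import Pool.Agent.TH804.SB5
import Pool.Agent.TH804.SP4
import Pool.Agent.H31R2.DH.BackZeta
import Pool.Agent.H388LH.ZG

/-!
The local growth of `ζ(1/2 + iT + z)`.
-/

set_option autoImplicit false

open Complex Filter Topology Metric Set Polynomial
open H370 H370.Loc

set_option maxHeartbeats 4000000

namespace Pool.Agent.TH804.SB

/-- `ζ(1/2 + iT + z)` -/
noncomputable def zT (T : ℝ) (z : ℂ) : ℂ := riemannZeta (1 / 2 + T * I + z)

lemma zeta_left : ∃ K : ℝ, 0 < K ∧ ∀ w : ℂ, 1 / 2 ≤ w.re → w.re ≤ 5 / 2 → 1 ≤ |w.im| →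
    Real.exp (-K) * |w.im| ^ (w.re - 1 / 2) * ‖riemannZeta w‖ ≤ ‖riemannZeta (1 - w)‖ ∧
    ‖riemannZeta (1 - w)‖ ≤ Real.exp K * |w.im| ^ (w.re - 1 / 2) * ‖riemannZeta w‖ := by
  obtain ⟨K, hK, hX⟩ := H345.Chi.XX_size
  have main : ∀ w : ℂ, 1 / 2 ≤ w.re → w.re ≤ 5 / 2 → 1 ≤ w.im →
      Real.exp (-K) * w.im ^ (w.re - 1 / 2) * ‖riemannZeta w‖ ≤ ‖riemannZeta (1 - w)‖ ∧
      ‖riemannZeta (1 - w)‖ ≤ Real.exp K * w.im ^ (w.re - 1 / 2) * ‖riemannZeta w‖ := by
    intro w h1 h2 h3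
    have h4 := SP.fz_norm (w := w) h3
    unfold SP.fz at h4
    rw [h4]
    obtain ⟨h5, h6⟩ := hX w h1 (by linarith) h3
    exact ⟨mul_le_mul_of_nonneg_right h5 (norm_nonneg _), mul_le_mul_of_nonneg_right h6 (norm_nonneg _)⟩
  refine ⟨K, hK, fun w h1 h2 h3 => ?_⟩
  rcases le_total 0 w.im with h | h
  · rw [abs_of_nonneg h] at h3 ⊢
    exact main w h1 h2 h3
  · rw [abs_of_nonpos h] at h3 ⊢
    have h4 := main ((starRingEnd ℂ) w) (by rw [Complex.conj_re]; exact h1) (by rw [Complex.conj_re]; exact h2)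
      (by rw [Complex.conj_im]; exact h3)
    rw [Complex.conj_im, Complex.conj_re, SP.norm_zeta_conj] at h4
    have e : 1 - (starRingEnd ℂ) w = (starRingEnd ℂ) (1 - w) := by simp
    rw [e, SP.norm_zeta_conj] at h4
    exact h4

lemma zeta_growth_abs {s : ℂ} (hs : 1 / 4 ≤ s.re) (hi : 1 ≤ |s.im|) : ‖riemannZeta s‖ ≤ 6 * ‖s‖ := by
  rcases le_total 0 s.im with h | h
  · rw [abs_of_nonneg h] at hi
    exact H388LH.zeta_growth hs hi
  · rw [abs_of_nonpos h] at hi
    have h1 := H388LH.zeta_growth (s := (starRingEnd ℂ) s) (by rw [Complex.conj_re]; exact hs)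
      (by rw [Complex.conj_im]; exact hi)
    rwa [SP.norm_zeta_conj, Complex.norm_conj] at h1

/-- **local growth** -/
theorem zT_LG {η W : ℝ} (hη : 0 < η) (hW : 0 < W) : ∃ T₀ : ℝ, 8 ≤ T₀ ∧ ∀ T : ℝ, T₀ ≤ |T| →
    LG (zT T) η W 5 (Real.log |T|) := by
  obtain ⟨K, hK, hleft⟩ := zeta_left
  obtain ⟨A, hA, hz⟩ := DH31.zeta_bounds (a := 1 + η) (by linarith)
  set M : ℝ := 4 * Real.exp K * A with hM
  have hM0 : 0 < M := by positivity
  have hMA : A ≤ M := by
    have := Real.one_le_exp hK.le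
    nlinarith
  have hp : 0 ≤ M ^ (1 / η) := by positivity
  refine ⟨100 * Real.exp K + 2 * W + M ^ (1 / η), ?_, fun T hT => ?_⟩
  · have := Real.one_le_exp hK.le
    linarith
  have hK1 := Real.one_le_exp hK.le
  set t : ℝ := |T| with ht
  have ht100 : 100 ≤ t := by linarith
  have ht0 : 0 < t := by linarith
  have hℓ0 : 0 ≤ Real.log t := Real.log_nonneg (by linarith)
  have hpow : ∀ p : ℝ, Real.exp (p * Real.log t) = t ^ p := fun p => by
    rw [Real.rpow_def_of_pos ht0, mul_comm]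
  have hMt : M ≤ t ^ η := W587.PL.large_of_rpow hM0 hη (by linarith)
  -- coordinates
  have hco : ∀ z : ℂ, |z.im| ≤ W → (1 / 2 + T * I + z : ℂ).re = 1 / 2 + z.re ∧
      t / 2 ≤ |(1 / 2 + T * I + z : ℂ).im| ∧ |(1 / 2 + T * I + z : ℂ).im| ≤ 2 * t := by
    intro z hz
    have e : (1 / 2 + T * I + z : ℂ).im = T + z.im := by simp
    refine ⟨by simp, ?_, ?_⟩
    · rw [e]
      have := abs_sub_abs_le_abs_sub T (-z.im)
      rw [abs_neg, sub_neg_eq_add] at this
      linarith
    · rw [e]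
      have := abs_add_le T z.im
      linarith
  have hne : ∀ z : ℂ, |z.im| ≤ W → (1 / 2 + T * I + z : ℂ) ≠ 1 := by
    intro z hz h
    obtain ⟨h1, h2, h3⟩ := hco z hz
    rw [h] at h2
    simp at h2
    linarith
  -- the left side
  have hl : ∀ z : ℂ, -2 ≤ z.re → z.re ≤ 0 → |z.im| ≤ W →
      Real.exp (-K) * (t / 2) ^ (-z.re) * ‖riemannZeta (1 - (1 / 2 + T * I + z))‖ ≤ ‖zT T z‖ ∧
      ‖zT T z‖ ≤ Real.exp K * (2 * t) ^ (-z.re) * ‖riemannZeta (1 - (1 / 2 + T * I + z))‖ := by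
    intro z h1 h2 h3
    obtain ⟨h4, h5, h6⟩ := hco z h3
    set s : ℂ := 1 / 2 + T * I + z with hs
    have e1 : (1 - s).re = 1 / 2 - z.re := by rw [Complex.sub_re, h4, Complex.one_re]; ring
    have e2 : |(1 - s).im| = |s.im| := by rw [Complex.sub_im, Complex.one_im, zero_sub, abs_neg]
    obtain ⟨h7, h8⟩ := hleft (1 - s) (by rw [e1]; linarith) (by rw [e1]; linarith) (by rw [e2]; linarith)
    rw [sub_sub_cancel, e1, e2] at h7 h8
    have e3 : 1 / 2 - z.re - 1 / 2 = -z.re := by ring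
    rw [e3] at h7 h8
    have hzT : zT T z = riemannZeta s := rfl
    rw [hzT]
    constructor
    · refine le_trans ?_ h7
      apply mul_le_mul_of_nonneg_right _ (norm_nonneg _)
      apply mul_le_mul_of_nonneg_left _ (Real.exp_pos _).le
      exact Real.rpow_le_rpow (by positivity) h5 (by linarith)
    · refine h8.trans ?_
      apply mul_le_mul_of_nonneg_right _ (norm_nonneg _)
      apply mul_le_mul_of_nonneg_left _ (Real.exp_pos _).le
      exact Real.rpow_le_rpow (abs_nonneg _) h6 (by linarith)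
  have h2pow : ∀ p : ℝ, 0 ≤ p → p ≤ 2 → (2 : ℝ) ^ p ≤ 4 := by
    intro p h0 h1
    calc (2:ℝ) ^ p ≤ 2 ^ (2:ℝ) := Real.rpow_le_rpow_of_exponent_le (by norm_num) h1
      _ = 4 := by norm_num
  refine ⟨fun z h1 h2 => ?_, fun z h1 h2 => ?_, fun z h1 h2 h3 => ?_, fun z h1 h2 h3 => ?_, fun z h1 h2 h3 => ?_⟩
  · have hd : DifferentiableOn ℂ riemannZeta {s : ℂ | s ≠ 1} := fun s hs =>
      (differentiableAt_riemannZeta hs).differentiableWithinAt
    have h3 : AnalyticAt ℂ riemannZeta (1 / 2 + T * I + z) := hd.analyticAt (isOpen_ne.mem_nhds (hne z h2))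
    have h4 : AnalyticAt ℂ (fun z : ℂ => 1 / 2 + T * I + z) z := by fun_prop
    exact AnalyticAt.comp (g := riemannZeta) (f := fun z : ℂ => 1 / 2 + T * I + z) h3 h4
  · -- crude
    have h1' := abs_le.1 h1
    obtain ⟨h4, h5, h6⟩ := hco z h2
    have hT5 : Real.exp (5 * Real.log t) = t ^ 5 := by
      rw [hpow]
      exact_mod_cast Real.rpow_natCast t 5
    rw [hT5]
    rcases le_total 0 z.re with h | h
    · have h7 := zeta_growth_abs (s := 1 / 2 + T * I + z) (by rw [h4]; linarith) (by linarith)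
      have h8 := Complex.norm_le_abs_re_add_abs_im (1 / 2 + T * I + z)
      rw [h4, abs_of_nonneg (by linarith : 0 ≤ 1 / 2 + z.re)] at h8
      have h9 : ‖zT T z‖ ≤ 6 * (3 + 2 * t) := h7.trans (by linarith)
      have h10 : 6 * (3 + 2 * t) ≤ 100 * t := by linarith
      have h11 : 100 * t ≤ t ^ 2 := by nlinarith
      have h12 : t ^ 2 ≤ t ^ 5 := pow_le_pow_right₀ (by linarith) (by norm_num)
      linarith
    · obtain ⟨-, h7⟩ := hl z h1'.1 h h2
      have h8 := zeta_growth_abs (s := 1 - (1 / 2 + T * I + z)) (by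
        rw [Complex.sub_re, h4, Complex.one_re]; linarith) (by
        rw [Complex.sub_im, Complex.one_im, zero_sub, abs_neg]; linarith)
      have h9 := Complex.norm_le_abs_re_add_abs_im (1 - (1 / 2 + T * I + z))
      rw [Complex.sub_re, h4, Complex.one_re, Complex.sub_im, Complex.one_im, zero_sub, abs_neg,
        abs_of_nonneg (by linarith : 0 ≤ 1 - (1 / 2 + z.re))] at h9
      have h10 : ‖riemannZeta (1 - (1 / 2 + T * I + z))‖ ≤ 100 * t := h8.trans (by linarith)
      have h11 : (2 * t) ^ (-z.re) ≤ 4 * t ^ 2 := by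
        calc (2 * t) ^ (-z.re) ≤ (2 * t) ^ (2:ℝ) :=
              Real.rpow_le_rpow_of_exponent_le (by linarith) (by linarith)
          _ = 4 * t ^ 2 := by
              rw [Real.rpow_two]; ring
      calc ‖zT T z‖ ≤ Real.exp K * (4 * t ^ 2) * (100 * t) := by
            refine h7.trans ?_
            exact mul_le_mul (mul_le_mul_of_nonneg_left h11 (Real.exp_pos _).le) h10 (norm_nonneg _)
              (by positivity)
        _ = (100 * Real.exp K) * (4 * t ^ 3) := by ring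
        _ ≤ t * (4 * t ^ 3) := mul_le_mul_of_nonneg_right (by linarith) (by positivity)
        _ ≤ t ^ 5 := by
            have : 0 < t ^ 4 := by positivity
            nlinarith
  · rw [hpow]
    obtain ⟨h4, h5, h6⟩ := hco z h3
    exact ((hz _ (by rw [h4]; linarith)).1.trans hMA).trans hMt
  · -- up
    have h2' : z.re ≤ 0 := by linarith
    obtain ⟨h4, h5, h6⟩ := hco z h3
    obtain ⟨-, h7⟩ := hl z h1 h2' h3
    have h8 := (hz (1 - (1 / 2 + T * I + z)) (by rw [Complex.sub_re, h4, Complex.one_re]; linarith)).1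
    rw [hpow]
    have h9 : (2 * t) ^ (-z.re) ≤ 4 * t ^ (-z.re) := by
      rw [Real.mul_rpow (by norm_num) ht0.le]
      exact mul_le_mul_of_nonneg_right (h2pow _ (by linarith) (by linarith)) (by positivity)
    calc ‖zT T z‖ ≤ Real.exp K * (4 * t ^ (-z.re)) * A := by
          refine h7.trans ?_
          exact mul_le_mul (mul_le_mul_of_nonneg_left h9 (Real.exp_pos _).le) h8 (norm_nonneg _)
            (by positivity)
      _ = t ^ (-z.re) * M := by rw [hM]; ring
      _ ≤ t ^ (-z.re) * t ^ η := mul_le_mul_of_nonneg_left hMt (by positivity)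
      _ = _ := by rw [← Real.rpow_add ht0]
  · -- lo
    have h2' : z.re ≤ 0 := by linarith
    obtain ⟨h4, h5, h6⟩ := hco z h3
    obtain ⟨h7, -⟩ := hl z h1 h2' h3
    have h8 := (hz (1 - (1 / 2 + T * I + z)) (by rw [Complex.sub_re, h4, Complex.one_re]; linarith)).2
    rw [hpow]
    have h9 : t ^ (-z.re) / 4 ≤ (t / 2) ^ (-z.re) := by
      rw [Real.div_rpow ht0.le (by norm_num)]
      apply div_le_div_of_nonneg_left (by positivity) (by positivity)
      exact h2pow _ (by linarith) (by linarith)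
    calc t ^ (-z.re - η) = t ^ (-z.re) * (t ^ η)⁻¹ := by
          rw [sub_eq_add_neg, Real.rpow_add ht0, Real.rpow_neg ht0.le η]
      _ ≤ t ^ (-z.re) * M⁻¹ := by
          apply mul_le_mul_of_nonneg_left _ (by positivity)
          exact inv_anti₀ hM0 hMt
      _ = Real.exp (-K) * (t ^ (-z.re) / 4) * (1 / A) := by
          rw [hM, Real.exp_neg]
          field_simp
      _ ≤ Real.exp (-K) * (t / 2) ^ (-z.re) * ‖riemannZeta (1 - (1 / 2 + T * I + z))‖ := by
          apply mul_le_mul _ h8 (by positivity) (by positivity)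
          exact mul_le_mul_of_nonneg_left h9 (Real.exp_pos _).le
      _ ≤ _ := h7

end Pool.Agent.TH804.SB
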