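import Mathlib
import Pool.Agent.TH804.SB6
import Pool.Agent.TH804.SP8

/-!
The `a`-points of `P(D)ζ` to the left of the critical line and the Lindelöf hypothesis.
-/

set_option autoImplicit false

open Complex Filter Topology Metric Set Polynomial
open H370 H370.Loc

set_option maxHeartbeats 4000000

namespace Pool.Agent.TH804.SB

open SP (PZ)

lemma PF_shift (P : ℂ[X]) (F : ℂ → ℂ) (s z : ℂ) : PF P (fun z => F (s + z)) z = PF P F (s + z) := by
  induction P using Polynomial.induction_on' with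
  | add p q hp hq => rw [PF_add, PF_add, hp, hq]
  | monomial i a =>
    rw [PF_monomial, PF_monomial]
    congr 1
    have := iteratedDeriv_comp_const_add i F s
    exact congrFun this z

lemma PF_zT (P : ℂ[X]) (T : ℝ) (z : ℂ) : PF P (zT T) z = PZ P (1 / 2 + T * I + z) :=
  PF_shift P riemannZeta (1 / 2 + T * I) z

lemma mult_shift (f : ℂ → ℂ) (s z : ℂ) :
    mult (fun v => f (s + v)) z = mult f (s + z) := by
  have h2 : AnalyticAt ℂ (fun v : ℂ => s + v) z := by fun_prop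
  have h3 : deriv (fun v : ℂ => s + v) z ≠ 0 := by
    have : HasDerivAt (fun v : ℂ => s + v) 1 z := (hasDerivAt_id z).const_add s
    rw [this.deriv]
    exact one_ne_zero
  have h4 := analyticOrderAt_comp_of_deriv_ne_zero (f := f) h2 h3
  unfold mult analyticOrderNatAt
  rw [← h4]
  rfl

/-- few `a`-points of `P(D)ζ` in the box `0 < Re s ≤ 1/2 - δ`, `|Im s - T| ≤ 1` -/
def FewPts (P : ℂ[X]) (a : ℂ) (δ T n : ℝ) : Prop := ∀ S : Finset ℂ,
  (∀ s ∈ S, 0 < s.re ∧ s.re ≤ 1 / 2 - δ ∧ |s.im - T| ≤ 1 ∧ PZ P s = a) →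
    ∑ s ∈ S, (analyticOrderNatAt (fun s => PZ P s - a) s : ℝ) ≤ n

lemma FewPts.mono {P : ℂ[X]} {a : ℂ} {δ δ' T n n' : ℝ} (h : FewPts P a δ T n) (hδ : δ ≤ δ') (hn : n ≤ n') :
    FewPts P a δ' T n' := fun S hS => (h S fun s hs => by
      obtain ⟨h1, h2, h3, h4⟩ := hS s hs
      exact ⟨h1, by linarith, h3, h4⟩).trans hn

/-- the left part of the box -/
theorem no_left {P : ℂ[X]} (hP : P ≠ 0) (a : ℂ) : ∃ T₀ : ℝ, ∀ s : ℂ, -(1 / 4) ≤ s.re → s.re ≤ 0 →
    T₀ ≤ |s.im| → PZ P s ≠ a := by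
  -- near the edge
  have edge : ∀ (P : ℂ[X]) (a : ℂ), P ≠ 0 → ∃ b T₀ : ℝ, 0 < b ∧ ∀ s : ℂ, -b ≤ s.re → s.re ≤ 0 →
      T₀ ≤ -s.im → PZ P s ≠ a := by
    intro P a hP
    obtain ⟨b, hb, hb1, h⟩ := (SP.op_PZ' hP).right
    obtain ⟨T₁, hT₁, h⟩ := h (1 / 4) (by norm_num)
    have hx2 : 0 ≤ (1 + ‖a‖) ^ (1 / (1 / 4 : ℝ)) := by positivity
    refine ⟨b, T₁ + (1 + ‖a‖) ^ (1 / (1 / 4 : ℝ)), hb, fun s h1 h2 h3 h4 => ?_⟩
    have him : (1 - s).im = -s.im := by simp
    have hre : (1 - s).re = 1 - s.re := by simp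
    have h5 := h (1 - s) (by rw [hre]; linarith) (by rw [hre]; linarith) (by rw [him]; linarith)
    rw [sub_sub_cancel, h4] at h5
    have h6 : 1 + ‖a‖ ≤ (1 - s).im ^ (1 / 4 : ℝ) :=
      W587.PL.large_of_rpow (by positivity) (by norm_num) (by rw [him]; linarith)
    have h7 : (1 - s).im ^ (1 / 4 : ℝ) ≤ (1 - s).im ^ ((1 - s).re - 1 / 2 - 1 / 4) :=
      Real.rpow_le_rpow_of_exponent_le (by rw [him]; linarith) (by rw [hre]; linarith)
    linarith
  obtain ⟨b₁, T₁, hb₁, h1⟩ := edge P a hP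
  obtain ⟨b₂, T₂, hb₂, h2⟩ := edge (P.map (starRingEnd ℂ)) ((starRingEnd ℂ) a) (SP.conj_map_ne hP)
  set b : ℝ := min (min b₁ b₂) (1 / 8) with hb
  have hb0 : 0 < b := lt_min (lt_min hb₁ hb₂) (by norm_num)
  have hbb1 : b ≤ b₁ := (min_le_left _ _).trans (min_le_left _ _)
  have hbb2 : b ≤ b₂ := (min_le_left _ _).trans (min_le_right _ _)
  have hb8 : b ≤ 1 / 8 := min_le_right _ _
  obtain ⟨c, L, hc, hPF⟩ := PF_eq _ P hP rfl
  obtain ⟨η, hη, hηb, ℓ₀, hℓ₀, hleft⟩ := opL_left L b hb0 (by linarith)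
  obtain ⟨T₃, hT₃, hLG⟩ := zT_LG (η := η) (W := 1) hη one_pos
  have hc0 : 0 < ‖c‖ := norm_pos_iff.2 hc
  refine ⟨|T₁| + |T₂| + T₃ + Real.exp ℓ₀ + Real.exp (4 * (1 + ‖a‖) / ‖c‖), fun s hs1 hs2 hs3 hsa => ?_⟩
  have c1 := le_abs_self T₁
  have c2 := le_abs_self T₂
  have c3 := abs_nonneg T₁
  have c4 := abs_nonneg T₂
  have c5 := Real.exp_pos ℓ₀
  have c6 := Real.exp_pos (4 * (1 + ‖a‖) / ‖c‖)
  rcases le_or_gt (-b) s.re with h | h
  · rcases le_total 0 s.im with h0 | h0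
    · rw [abs_of_nonneg h0] at hs3
      refine h2 ((starRingEnd ℂ) s) (by rw [Complex.conj_re]; linarith) (by rw [Complex.conj_re]; exact hs2)
        (by rw [Complex.conj_im]; linarith) ?_
      rw [SP.PZ_conj, hsa]
    · rw [abs_of_nonpos h0] at hs3
      exact h1 s (by linarith) hs2 (by linarith) hsa
  · set ℓ : ℝ := Real.log |s.im| with hℓ
    have him0 : 0 < |s.im| := by linarith
    have hℓ1 : ℓ₀ ≤ ℓ := by
      rw [hℓ, Real.le_log_iff_exp_le him0]; linarith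
    have hℓ2 : 4 * (1 + ‖a‖) / ‖c‖ ≤ ℓ := by
      rw [hℓ, Real.le_log_iff_exp_le him0]; linarith
    have hF := hLG s.im (by linarith)
    set z : ℂ := ((s.re - 1 / 2 : ℝ) : ℂ) with hz
    have hzre : z.re = s.re - 1 / 2 := by rw [hz, Complex.ofReal_re]
    have hzim : z.im = 0 := by rw [hz, Complex.ofReal_im]
    have hzs : 1 / 2 + s.im * I + z = s := by
      apply Complex.ext <;> simp [hz]
    obtain ⟨h4, -⟩ := hleft (zT s.im) 1 5 ℓ hℓ1 hF z (by rw [hzre]; linarith) (by rw [hzre]; linarith)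
      (by rw [hzim, abs_zero]; linarith)
    have h5 := hPF (zT s.im) z (hF.an z (by rw [hzre, abs_le]; constructor <;> linarith)
      (by rw [hzim, abs_zero]; exact zero_le_one))
    rw [PF_zT, hzs, hsa] at h5
    have h6 : ‖a‖ = ‖c‖ * ‖opL L (zT s.im) z‖ := by rw [h5, norm_mul]
    have h7 : 1 / 4 * ℓ ≤ (-z.re - b) * ℓ := by
      apply mul_le_mul_of_nonneg_right _ (by linarith)
      rw [hzre]; linarith
    have h8 := Real.add_one_le_exp ((-z.re - b) * ℓ)
    rw [div_le_iff₀ hc0] at hℓ2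
    have h9 : ‖c‖ * (1 / 4 * ℓ) ≤ ‖c‖ * ‖opL L (zT s.im) z‖ :=
      mul_le_mul_of_nonneg_left (by linarith) hc0.le
    have h10 := norm_nonneg a
    nlinarith

/-- translation of the counts -/
lemma few_of_fewPts {P : ℂ[X]} {a : ℂ} {δ T y n : ℝ} (hδ : 0 < δ) (hδ1 : δ ≤ 1 / 4)
    (hno : ∀ s : ℂ, -(1 / 4) ≤ s.re → s.re ≤ 0 → |s.im - (T + y)| ≤ 1 → PZ P s ≠ a)
    (h : FewPts P a δ (T + y) n) : Few (PF P (zT T)) a δ y n := by
  classical
  intro S hS
  have hinj : Set.InjOn (fun z : ℂ => 1 / 2 + T * I + z) S := fun x _ y _ h => by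
    simpa using h
  have h1 := h (S.image fun z : ℂ => 1 / 2 + T * I + z) (fun s hs => by
    obtain ⟨z, hz, rfl⟩ := Finset.mem_image.1 hs
    obtain ⟨h1, h2, h3, h4⟩ := hS z hz
    have hre : (1 / 2 + T * I + z : ℂ).re = 1 / 2 + z.re := by simp
    have him : (1 / 2 + T * I + z : ℂ).im = T + z.im := by simp
    have h3' : |(1 / 2 + T * I + z : ℂ).im - (T + y)| ≤ 1 := by
      rw [him]
      have : T + z.im - (T + y) = z.im - y := by ring
      rw [this]; exact h3
    rw [PF_zT] at h4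
    refine ⟨?_, by rw [hre]; linarith, h3', h4⟩
    by_contra hcon
    push Not at hcon
    exact hno _ (by rw [hre]; linarith) hcon h3' h4)
  rw [Finset.sum_image hinj] at h1
  refine le_trans (le_of_eq (Finset.sum_congr rfl fun z hz => ?_)) h1
  obtain ⟨h2, h3, h4, h5⟩ := hS z hz
  have him : (1 / 2 + T * I + z : ℂ).im = T + z.im := by simp
  have e : (fun v => PF P (zT T) v - a) = fun v => (fun s => PZ P s - a) (1 / 2 + T * I + v) := by
    funext v
    rw [PF_zT]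
  rw [e]
  exact congrArg (Nat.cast : ℕ → ℝ) (mult_shift (fun s => PZ P s - a) (1 / 2 + T * I) z)

/-- translation of the counts, converse -/
lemma fewPts_of_few {P : ℂ[X]} {a : ℂ} {δ T n : ℝ}
    (h : Few (PF P (zT T)) a δ 0 n) : FewPts P a δ T n := by
  classical
  intro S hS
  have hinj : Set.InjOn (fun s : ℂ => s - (1 / 2 + T * I)) S := fun x _ y _ h => by
    simpa using h
  have h1 := h (S.image fun s : ℂ => s - (1 / 2 + T * I)) (fun z hz => by
    obtain ⟨s, hs, rfl⟩ := Finset.mem_image.1 hz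
    obtain ⟨h1, h2, h3, h4⟩ := hS s hs
    have hre : (s - (1 / 2 + T * I) : ℂ).re = s.re - 1 / 2 := by simp
    have him : (s - (1 / 2 + T * I) : ℂ).im = s.im - T := by simp
    refine ⟨by rw [hre]; linarith, by rw [hre]; linarith, by rw [him, sub_zero]; exact h3, ?_⟩
    rw [PF_zT, add_sub_cancel]
    exact h4)
  rw [Finset.sum_image hinj] at h1
  refine le_trans (le_of_eq (Finset.sum_congr rfl fun s hs => ?_)) h1
  obtain ⟨h2, h3, h4, h5⟩ := hS s hs
  have e : (fun v => PF P (zT T) v - a) = fun v => (fun s => PZ P s - a) (1 / 2 + T * I + v) := by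
    funext v
    rw [PF_zT]
  have hs1 : 1 / 2 + T * I + (s - (1 / 2 + T * I)) = s := add_sub_cancel _ _
  have h6 := mult_shift (fun s => PZ P s - a) (1 / 2 + T * I) (s - (1 / 2 + T * I))
  rw [hs1] at h6
  rw [e]
  exact congrArg (Nat.cast : ℕ → ℝ) h6.symm

/-- **few points imply small values** -/
theorem small_of_few {P : ℂ[X]} (hP : P ≠ 0) (a : ℂ) {ε : ℝ} (hε : 0 < ε) : ∃ δ κ W T₀ : ℝ, 0 < δ ∧
    0 < κ ∧ ∀ T : ℝ, T₀ ≤ |T| → (∀ T' : ℝ, |T' - T| ≤ W → FewPts P a δ T' (κ * Real.log |T|)) →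
      ‖riemannZeta (1 / 2 + T * I)‖ ≤ |T| ^ ε := by
  obtain ⟨δ, κ, η, W, ℓ₀, hδ, hδ1, hκ, hη, hW, h⟩ := P2 hP a (ε := ε) (B := 5) hε (by norm_num)
  obtain ⟨T₁, hT₁, hLG⟩ := zT_LG (η := η) (W := W) hη hW
  obtain ⟨T₂, hno⟩ := no_left hP a
  refine ⟨δ, κ, W, T₁ + |T₂| + W + 4 + Real.exp ℓ₀, hδ, hκ, fun T hT hfew => ?_⟩
  have c1 := le_abs_self T₂
  have c2 := abs_nonneg T₂
  have c3 := Real.exp_pos ℓ₀
  have hT0 : 0 < |T| := by linarith
  have him : ∀ (y : ℝ), |y| ≤ W → ∀ s : ℂ, |s.im - (T + y)| ≤ 1 → |T| - W - 1 ≤ |s.im| := by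
    intro y hy s hs
    have h1 : |T| ≤ |s.im| + |s.im - (T + y)| + |y| := by
      have h2 := abs_add_le (s.im - (s.im - (T + y))) (-y)
      have h3 : s.im - (s.im - (T + y)) + -y = T := by ring
      rw [h3, abs_neg] at h2
      have h4 := abs_sub s.im (s.im - (T + y))
      linarith
    linarith
  have h1 := h (zT T) (Real.log |T|) (by rw [Real.le_log_iff_exp_le hT0]; linarith) (hLG T (by linarith))
    (fun y hy => few_of_fewPts hδ hδ1 (fun s h1 h2 h3 => hno s h1 h2 (by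
      have := him y hy s h3
      linarith)) (hfew (T + y) (by rw [add_sub_cancel_left]; exact hy)))
  unfold zT at h1
  rw [add_zero] at h1
  rw [Real.rpow_def_of_pos hT0, mul_comm (Real.log |T|)]
  exact h1

/-- **small values imply few points** -/
theorem few_of_small' {P : ℂ[X]} (hP : P ≠ 0) (a : ℂ) {ε δ : ℝ} (hε : 0 < ε) (hδ : 0 < δ) : ∃ κ W T₀ : ℝ,
    0 < κ ∧ ∀ T : ℝ, T₀ ≤ |T| → (∀ T' : ℝ, |T' - T| ≤ W → ‖riemannZeta (1 / 2 + T' * I)‖ ≤ |T| ^ κ) →
      FewPts P a δ T (ε * Real.log |T|) := by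
  obtain ⟨η, W, ℓ₀, hη, hW, h⟩ := P1 hP a (ε := ε) (δ := min δ (1 / 4)) (B := 5) hε
    (lt_min hδ (by norm_num)) (min_le_right _ _) (by norm_num)
  obtain ⟨T₁, hT₁, hLG⟩ := zT_LG (η := η) (W := W) hη hW
  refine ⟨η, W, T₁ + W + 4 + Real.exp ℓ₀, hη, fun T hT hsmall => ?_⟩
  have c3 := Real.exp_pos ℓ₀
  have hT0 : 0 < |T| := by linarith
  have h1 := h (zT T) (Real.log |T|) (by rw [Real.le_log_iff_exp_le hT0]; linarith) (hLG T (by linarith))
    (fun y hy => by
      have h2 := hsmall (T + y) (by rw [add_sub_cancel_left]; exact hy)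
      rw [Real.rpow_def_of_pos hT0] at h2
      have e : zT T (y * I) = riemannZeta (1 / 2 + ((T + y : ℝ) : ℂ) * I) := by
        unfold zT
        congr 1
        push_cast
        ring
      rw [e, mul_comm η]
      exact h2)
  exact (fewPts_of_few h1).mono (min_le_left _ _) le_rfl

/-- the Lindelöf hypothesis -/
def LH : Prop := ∀ ε : ℝ, 0 < ε → ∃ C : ℝ, ∀ t : ℝ, 1 ≤ |t| → ‖riemannZeta (1 / 2 + t * I)‖ ≤ C * |t| ^ ε

/-- **the criterion** -/
theorem LH_iff {P : ℂ[X]} (hP : P ≠ 0) (a : ℂ) : LH ↔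
    ∀ δ : ℝ, 0 < δ → ∀ ε : ℝ, 0 < ε → ∃ T₀ : ℝ, ∀ T : ℝ, T₀ ≤ |T| → FewPts P a δ T (ε * Real.log |T|) := by
  constructor
  · intro hLH δ hδ ε hε
    obtain ⟨κ, W, T₀, hκ, h⟩ := few_of_small' hP a hε hδ
    obtain ⟨C, hC⟩ := hLH (κ / 2) (by positivity)
    have hp : 0 ≤ (1 + |C| * 2 ^ (κ / 2)) ^ (1 / (κ / 2)) := by positivity
    refine ⟨|T₀| + |W| + 4 + (1 + |C| * 2 ^ (κ / 2)) ^ (1 / (κ / 2)), fun T hT => ?_⟩
    have c1 := le_abs_self T₀
    have c2 := abs_nonneg T₀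
    have c3 := le_abs_self W
    have c4 := abs_nonneg W
    have hT0 : 0 < |T| := by linarith
    refine h T (by linarith) (fun T' hT' => ?_)
    have h1 : |T'| ≤ 2 * |T| := by
      have := abs_add_le T (T' - T)
      rw [add_sub_cancel] at this
      linarith
    have h2 : 1 ≤ |T'| := by
      have := abs_sub_abs_le_abs_sub T T'
      rw [abs_sub_comm] at this
      linarith
    have h3 : 1 + |C| * 2 ^ (κ / 2) ≤ |T| ^ (κ / 2) :=
      W587.PL.large_of_rpow (by positivity) (by positivity) (by linarith)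
    have h4 : |T| ^ κ = |T| ^ (κ / 2) * |T| ^ (κ / 2) := by
      rw [← Real.rpow_add hT0]; congr 1; ring
    calc ‖riemannZeta (1 / 2 + T' * I)‖ ≤ C * |T'| ^ (κ / 2) := hC T' h2
      _ ≤ |C| * |T'| ^ (κ / 2) := mul_le_mul_of_nonneg_right (le_abs_self _) (by positivity)
      _ ≤ |C| * (2 * |T|) ^ (κ / 2) := by
          apply mul_le_mul_of_nonneg_left _ (abs_nonneg _)
          exact Real.rpow_le_rpow (abs_nonneg _) h1 (by positivity)
      _ = (|C| * 2 ^ (κ / 2)) * |T| ^ (κ / 2) := by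
          rw [Real.mul_rpow (by norm_num) hT0.le]; ring
      _ ≤ |T| ^ (κ / 2) * |T| ^ (κ / 2) := mul_le_mul_of_nonneg_right (by linarith) (by positivity)
      _ = _ := h4.symm
  · intro hfew ε hε
    obtain ⟨δ, κ, W, T₀, hδ, hκ, h⟩ := small_of_few hP a hε
    obtain ⟨T₁, h1⟩ := hfew δ hδ (κ / 2) (by positivity)
    set T₂ : ℝ := |T₀| + |T₁| + |W| + 4 with hT₂
    -- compactness for the bounded range
    have hcont : ContinuousOn (fun t : ℝ => ‖riemannZeta (1 / 2 + t * I)‖) (Icc (-T₂) T₂) := by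
      intro t _
      apply ContinuousAt.continuousWithinAt
      have hne : (1 / 2 + t * I : ℂ) ≠ 1 := by
        intro h
        have := congrArg Complex.re h
        norm_num at this
      have h2 : ContinuousAt riemannZeta (1 / 2 + t * I) := (differentiableAt_riemannZeta hne).continuousAt
      have h3 : ContinuousAt (fun t : ℝ => (1 / 2 + t * I : ℂ)) t := by fun_prop
      exact (ContinuousAt.comp (f := fun t : ℝ => (1 / 2 + t * I : ℂ)) (g := riemannZeta) h2 h3).norm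
    obtain ⟨K, hK⟩ := isCompact_Icc.exists_bound_of_continuousOn hcont
    refine ⟨max |K| 1, fun t ht => ?_⟩
    have hpow : 1 ≤ |t| ^ ε := Real.one_le_rpow ht hε.le
    rcases le_total T₂ |t| with h2 | h2
    · have c1 := le_abs_self T₀
      have c2 := abs_nonneg T₀
      have c3 := le_abs_self W
      have c4 := abs_nonneg W
      have c5 := le_abs_self T₁
      have c6 := abs_nonneg T₁
      have h3 := h t (by linarith) (fun T' hT' => by
        have h4 : |t| - |W| ≤ |T'| := by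
          have := abs_sub_abs_le_abs_sub t T'
          rw [abs_sub_comm] at this
          linarith
        have h5 : |T'| ≤ |t| ^ 2 := by
          have := abs_add_le t (T' - t)
          rw [add_sub_cancel] at this
          nlinarith
        refine (h1 T' (by linarith)).mono le_rfl ?_
        have h6 : Real.log |T'| ≤ 2 * Real.log |t| := by
          have h7 := Real.log_le_log (by linarith) h5
          rw [Real.log_pow] at h7
          exact_mod_cast h7
        calc κ / 2 * Real.log |T'| ≤ κ / 2 * (2 * Real.log |t|) := mul_le_mul_of_nonneg_left h6 (by positivity)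
          _ = _ := by ring)
      refine h3.trans ?_
      calc |t| ^ ε = 1 * |t| ^ ε := (one_mul _).symm
        _ ≤ _ := mul_le_mul_of_nonneg_right (le_max_right _ _) (by positivity)
    · have h3 := hK t (abs_le.1 h2)
      rw [norm_norm] at h3
      calc ‖riemannZeta (1 / 2 + t * I)‖ ≤ K := h3
        _ ≤ max |K| 1 := (le_abs_self K).trans (le_max_left _ _)
        _ = max |K| 1 * 1 := (mul_one _).symm
        _ ≤ _ := mul_le_mul_of_nonneg_left hpow (le_trans zero_le_one (le_max_right _ _))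

end Pool.Agent.TH804.SB
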