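import Mathlib

/-!
Separated points: counting, products of distances, and the size of the interpolation polynomial.
-/

set_option autoImplicit false

open Finset

namespace Pool.Agent.TH804.DL

/-- points to the right of `x`, separated by `s` -/
lemma prod_half {ι : Type*} (S : Finset ι) (h : ι → ℝ) {x s D : ℝ} (hs : 0 < s) (hD : 0 < D)
    (h1 : ∀ i ∈ S, s ≤ h i - x) (h2 : ∀ i ∈ S, h i - x ≤ D)
    (hsep : ∀ i ∈ S, ∀ j ∈ S, i ≠ j → s ≤ |h i - h j|) :
    ∏ i ∈ S, D / (h i - x) ≤ Real.exp (D / s) := by
  classical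
  set n : ι → ℕ := fun i => ⌊(h i - x) / s⌋₊ with hn
  have hn1 : ∀ i ∈ S, 1 ≤ n i := by
    intro i hi
    rw [hn]
    apply Nat.le_floor
    rw [Nat.cast_one, le_div_iff₀ hs]
    linarith [h1 i hi]
  have hn2 : ∀ i ∈ S, n i ≤ ⌊D / s⌋₊ := fun i hi =>
    Nat.floor_le_floor (div_le_div_of_nonneg_right (h2 i hi) hs.le)
  have hle : ∀ i ∈ S, s * n i ≤ h i - x := by
    intro i hi
    have h3 := Nat.floor_le (a := (h i - x) / s) (div_nonneg (by linarith [h1 i hi]) hs.le)
    rw [le_div_iff₀ hs] at h3
    linarith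
  have hinj : Set.InjOn n S := by
    intro i hi j hj hij
    by_contra hne
    have h3 := hsep i hi j hj hne
    have h4 := Nat.floor_le (a := (h i - x) / s) (div_nonneg (by linarith [h1 i hi]) hs.le)
    have h5 := Nat.lt_floor_add_one ((h i - x) / s)
    have h6 := Nat.floor_le (a := (h j - x) / s) (div_nonneg (by linarith [h1 j hj]) hs.le)
    have h7 := Nat.lt_floor_add_one ((h j - x) / s)
    have h8 : ⌊(h i - x) / s⌋₊ = ⌊(h j - x) / s⌋₊ := hij
    rw [h8] at h4 h5
    have h9 : |(h i - x) / s - (h j - x) / s| < 1 := by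
      rw [abs_lt]; constructor <;> linarith
    rw [← sub_div, abs_div, abs_of_pos hs, div_lt_one hs] at h9
    have h10 : h i - x - (h j - x) = h i - h j := by ring
    rw [h10] at h9
    linarith
  calc ∏ i ∈ S, D / (h i - x) ≤ ∏ i ∈ S, D / (s * n i) := by
        apply prod_le_prod
        · intro i hi
          exact div_nonneg hD.le (by linarith [h1 i hi])
        · intro i hi
          have h3 : (0:ℝ) < n i := by exact_mod_cast hn1 i hi
          exact div_le_div_of_nonneg_left hD.le (by positivity) (hle i hi)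
    _ = ∏ k ∈ S.image n, D / (s * (k : ℝ)) := by
        rw [prod_image hinj]
    _ ≤ ∏ k ∈ Finset.Icc 1 ⌊D / s⌋₊, D / (s * (k : ℝ)) := by
        apply Finset.prod_le_prod_of_subset_of_one_le
        · intro k hk
          obtain ⟨i, hi, rfl⟩ := mem_image.1 hk
          exact mem_Icc.2 ⟨hn1 i hi, hn2 i hi⟩
        · intro k _
          positivity
        · intro k hk _
          rw [mem_Icc] at hk
          have h3 : (0:ℝ) < k := by exact_mod_cast hk.1
          have h4 : (k : ℝ) ≤ D / s :=
            (Nat.cast_le.2 hk.2).trans (Nat.floor_le (by positivity))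
          rw [le_div_iff₀ hs] at h4
          rw [le_div_iff₀ (by positivity)]
          linarith
    _ = (D / s) ^ ⌊D / s⌋₊ / (⌊D / s⌋₊).factorial := by
        have h3 : ∀ N : ℕ, ∏ k ∈ Finset.Icc 1 N, D / (s * (k : ℝ)) = (D / s) ^ N / (N.factorial : ℝ) := by
          intro N
          induction N with
          | zero => simp
          | succ N ih =>
            rw [Finset.prod_Icc_succ_top (by omega), ih, Nat.factorial_succ]
            push_cast
            have : (0:ℝ) < N.factorial := by exact_mod_cast N.factorial_pos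
            rw [pow_succ]
            field_simp
        exact h3 _
    _ ≤ Real.exp (D / s) := Real.pow_div_factorial_le_exp _ (by positivity) _

/-- separated points on both sides of `x` -/
lemma prod_both {ι : Type*} [DecidableEq ι] (S : Finset ι) (h : ι → ℝ) {s D : ℝ} (hs : 0 < s)
    (hD : 0 < D) (h2 : ∀ i ∈ S, ∀ j ∈ S, |h i - h j| ≤ D)
    (hsep : ∀ i ∈ S, ∀ j ∈ S, i ≠ j → s ≤ |h i - h j|) {i : ι} (hi : i ∈ S) :
    ∏ j ∈ S.erase i, D / |h i - h j| ≤ Real.exp (2 * D / s) := by
  classical
  have hsub : ∀ j ∈ S.erase i, j ∈ S ∧ j ≠ i := fun j hj => ⟨mem_of_mem_erase hj, ne_of_mem_erase hj⟩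
  rw [← prod_filter_mul_prod_filter_not (S.erase i) (fun j => h i < h j)]
  have e : Real.exp (2 * D / s) = Real.exp (D / s) * Real.exp (D / s) := by
    rw [← Real.exp_add]; congr 1; ring
  rw [e]
  have hr : ∏ j ∈ (S.erase i).filter (fun j => h i < h j), D / |h i - h j| ≤ Real.exp (D / s) := by
    rw [prod_congr rfl (g := fun j => D / (h j - h i))]
    · apply prod_half _ _ hs hD
      · intro j hj
        rw [mem_filter] at hj
        obtain ⟨h3, h4⟩ := hsub j hj.1
        have h5 := hsep j h3 i hi h4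
        rwa [abs_of_pos (by linarith [hj.2])] at h5
      · intro j hj
        rw [mem_filter] at hj
        obtain ⟨h3, h4⟩ := hsub j hj.1
        exact (le_abs_self _).trans (h2 j h3 i hi)
      · intro j hj k hk hne
        rw [mem_filter] at hj hk
        exact hsep j (hsub j hj.1).1 k (hsub k hk.1).1 hne
    · intro j hj
      rw [mem_filter] at hj
      rw [abs_sub_comm, abs_of_pos (by linarith [hj.2])]
  have hl : ∏ j ∈ (S.erase i).filter (fun j => ¬ h i < h j), D / |h i - h j| ≤ Real.exp (D / s) := by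
    rw [prod_congr rfl (g := fun j => D / (-h j - -h i))]
    · apply prod_half _ (fun j => -h j) hs hD
      · intro j hj
        rw [mem_filter] at hj
        obtain ⟨h3, h4⟩ := hsub j hj.1
        have h5 := hsep i hi j h3 (Ne.symm h4)
        rw [abs_of_nonneg (by linarith [not_lt.1 hj.2])] at h5
        linarith
      · intro j hj
        rw [mem_filter] at hj
        obtain ⟨h3, h4⟩ := hsub j hj.1
        have := (le_abs_self _).trans (h2 i hi j h3)
        linarith
      · intro j hj k hk hne
        rw [mem_filter] at hj hk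
        have := hsep j (hsub j hj.1).1 k (hsub k hk.1).1 hne
        rw [show -h j - -h k = -(h j - h k) by ring, abs_neg]
        exact this
    · intro j hj
      rw [mem_filter] at hj
      rw [abs_of_nonneg (by linarith [not_lt.1 hj.2])]
      congr 1
      ring
  exact mul_le_mul hr hl (prod_nonneg fun j _ => div_nonneg hD.le (abs_nonneg _)) (Real.exp_pos _).le

/-- the number of separated points of an interval -/
lemma card_le {ι : Type*} (S : Finset ι) (h : ι → ℝ) {s D x : ℝ} (hs : 0 < s) (hD : 0 ≤ D)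
    (h1 : ∀ i ∈ S, x ≤ h i) (h2 : ∀ i ∈ S, h i ≤ x + D)
    (hsep : ∀ i ∈ S, ∀ j ∈ S, i ≠ j → s ≤ |h i - h j|) : (S.card : ℝ) ≤ D / s + 1 := by
  classical
  set n : ι → ℕ := fun i => ⌊(h i - x) / s⌋₊ with hn
  have hinj : Set.InjOn n S := by
    intro i hi j hj hij
    by_contra hne
    have h3 := hsep i hi j hj hne
    have h4 := Nat.floor_le (a := (h i - x) / s) (div_nonneg (by linarith [h1 i hi]) hs.le)
    have h5 := Nat.lt_floor_add_one ((h i - x) / s)
    have h6 := Nat.floor_le (a := (h j - x) / s) (div_nonneg (by linarith [h1 j hj]) hs.le)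
    have h7 := Nat.lt_floor_add_one ((h j - x) / s)
    have h8 : ⌊(h i - x) / s⌋₊ = ⌊(h j - x) / s⌋₊ := hij
    rw [h8] at h4 h5
    have h9 : |(h i - x) / s - (h j - x) / s| < 1 := by
      rw [abs_lt]; constructor <;> linarith
    rw [← sub_div, abs_div, abs_of_pos hs, div_lt_one hs] at h9
    have h10 : h i - x - (h j - x) = h i - h j := by ring
    rw [h10] at h9
    linarith
  have h3 : S.card ≤ (Finset.range (⌊D / s⌋₊ + 1)).card := by
    rw [← card_image_of_injOn hinj]
    apply card_le_card
    intro k hk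
    obtain ⟨i, hi, rfl⟩ := mem_image.1 hk
    rw [mem_range, Nat.lt_succ_iff]
    exact Nat.floor_le_floor (div_le_div_of_nonneg_right (by linarith [h2 i hi]) hs.le)
  rw [card_range] at h3
  have h4 : (S.card : ℝ) ≤ (⌊D / s⌋₊ : ℝ) + 1 := by exact_mod_cast h3
  linarith [Nat.floor_le (a := D / s) (div_nonneg hD hs.le)]

/-- the interpolation polynomial -/
noncomputable def PP (S : Finset ℂ) (g : ℂ → ℂ) : Polynomial ℂ := Lagrange.interpolate S id g

lemma PP_node {S : Finset ℂ} {g : ℂ → ℂ} {z : ℂ} (hz : z ∈ S) : (PP S g).eval z = g z := by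
  unfold PP
  exact Lagrange.eval_interpolate_at_node g (Set.injOn_id _) hz

/-- its size on a disc -/
lemma PP_le {S : Finset ℂ} {g : ℂ → ℂ} {R s m : ℝ} (hR : 0 < R) (hs : 0 < s) (hm : 0 ≤ m)
    (hS : ∀ z ∈ S, ‖z‖ ≤ R) (hsep : ∀ z ∈ S, ∀ w ∈ S, z ≠ w → s ≤ |z.im - w.im|)
    (hg : ∀ z ∈ S, ‖g z‖ ≤ m) {z : ℂ} (hz : ‖z‖ ≤ R) :
    ‖(PP S g).eval z‖ ≤ m * Real.exp (6 * R / s) := by
  classical
  have hcard : (S.card : ℝ) ≤ 2 * R / s + 1 := by
    refine card_le S Complex.im hs (x := -R) (by linarith) ?_ ?_ hsep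
    · intro w hw
      have := (abs_le.1 (Complex.abs_im_le_norm w)).1
      linarith [hS w hw]
    · intro w hw
      have := (abs_le.1 (Complex.abs_im_le_norm w)).2
      linarith [hS w hw]
  have hcard2 : (S.card : ℝ) ≤ Real.exp (2 * R / s) := by
    have := Real.add_one_le_exp (2 * R / s)
    linarith
  have hterm : ∀ w ∈ S, ‖(Lagrange.basis S id w).eval z‖ ≤ Real.exp (4 * R / s) := by
    intro w hw
    unfold Lagrange.basis
    rw [Polynomial.eval_prod, norm_prod]
    refine le_trans ?_ (le_of_le_of_eq (prod_both S Complex.im hs (D := 2 * R) (by linarith) ?_ hsep hw)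
      (by congr 1; ring))
    · apply prod_le_prod
      · intro j _
        exact norm_nonneg _
      · intro j hj
        have hjS := mem_of_mem_erase hj
        have hne : w ≠ j := (ne_of_mem_erase hj).symm
        unfold Lagrange.basisDivisor
        simp only [id, Polynomial.eval_mul, Polynomial.eval_C, Polynomial.eval_sub, Polynomial.eval_X]
        rw [norm_mul, norm_inv]
        have h1 : |w.im - j.im| ≤ ‖w - j‖ := by
          have := Complex.abs_im_le_norm (w - j)
          rwa [Complex.sub_im] at this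
        have h2 : 0 < |w.im - j.im| := lt_of_lt_of_le hs (hsep w hw j hjS hne)
        have h3 : ‖z - j‖ ≤ 2 * R := (norm_sub_le _ _).trans (by linarith [hS j hjS])
        rw [inv_mul_eq_div]
        exact div_le_div₀ (by linarith) h3 h2 h1
    · intro i hi j hj
      have h1 := Complex.abs_im_le_norm i
      have h2 := Complex.abs_im_le_norm j
      have h3 := abs_sub i.im j.im
      linarith [hS i hi, hS j hj]
  unfold PP
  rw [Lagrange.interpolate_apply, Polynomial.eval_finsetSum]
  calc ‖∑ i ∈ S, (Polynomial.C (g i) * Lagrange.basis S id i).eval z‖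
      ≤ ∑ i ∈ S, ‖(Polynomial.C (g i) * Lagrange.basis S id i).eval z‖ := norm_sum_le _ _
    _ ≤ ∑ i ∈ S, m * Real.exp (4 * R / s) := by
        apply sum_le_sum
        intro i hi
        rw [Polynomial.eval_mul, Polynomial.eval_C, norm_mul]
        exact mul_le_mul (hg i hi) (hterm i hi) (norm_nonneg _) hm
    _ = S.card * (m * Real.exp (4 * R / s)) := by rw [sum_const, nsmul_eq_mul]
    _ ≤ Real.exp (2 * R / s) * (m * Real.exp (4 * R / s)) :=
        mul_le_mul_of_nonneg_right hcard2 (by positivity)
    _ = m * (Real.exp (2 * R / s) * Real.exp (4 * R / s)) := by ring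
    _ = m * Real.exp (6 * R / s) := by
        rw [← Real.exp_add]; congr 2; ring

end Pool.Agent.TH804.DL
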