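import Mathlib
import Pool.Agent.TH804.DL1

/-!
Jensen's formula and small values at separated points.
-/

set_option autoImplicit false

open MeasureTheory Metric Filter Finset
open scoped ComplexConjugate ENNReal Topology

namespace Pool.Agent.TH804.DL

/-- circle average of the logarithm -/
noncomputable def JJ (g : ℂ → ℂ) (r : ℝ) : ℝ := Real.circleAverage (fun z => Real.log ‖g z‖) 0 r

lemma div_eq (g : ℂ → ℂ) (R : ℝ) (hg : AnalyticOnNhd ℂ g (closedBall 0 R)) (u : ℂ)
    (hu : u ∈ closedBall (0 : ℂ) R) :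
    MeromorphicOn.divisor g (closedBall 0 R) u = (analyticOrderNatAt g u : ℤ) := by
  rw [MeromorphicOn.AnalyticOnNhd.divisor_apply hg hu]
  unfold analyticOrderNatAt
  cases h : analyticOrderAt g u with
  | top => simp
  | coe n => simp

/-- Jensen's formula with a finite set of zeros (as in `Pool.Agent.Helper873.Jen`). -/
theorem jensen (g : ℂ → ℂ) (R : ℝ) (hR : 0 < R) (hg : AnalyticOnNhd ℂ g (closedBall 0 R))
    (hg0 : g 0 ≠ 0) : ∃ S : Finset ℂ, (∀ u, u ∈ S ↔ (‖u‖ ≤ R ∧ analyticOrderNatAt g u ≠ 0)) ∧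
      JJ g R = ∑ u ∈ S, (analyticOrderNatAt g u : ℝ) * Real.log (R / ‖u‖) + Real.log ‖g 0‖ := by
  classical
  have habs : |R| = R := abs_of_pos hR
  have hg' : AnalyticOnNhd ℂ g (closedBall 0 |R|) := by rw [habs]; exact hg
  have h1 := hg'.circleAverage_log_norm hR.ne' hg0
  rw [habs] at h1
  have hfin : (MeromorphicOn.divisor g (closedBall (0 : ℂ) R)).support.Finite :=
    (MeromorphicOn.divisor g (closedBall (0 : ℂ) R)).finiteSupport (isCompact_closedBall 0 R)
  refine ⟨hfin.toFinset, fun u => ?_, ?_⟩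
  · rw [Set.Finite.mem_toFinset, Function.mem_support]
    by_cases hu : u ∈ closedBall (0 : ℂ) R
    · rw [div_eq g R hg u hu]
      rw [mem_closedBall_zero_iff] at hu
      simp only [hu, true_and]
      exact_mod_cast Iff.rfl
    · have h2 : MeromorphicOn.divisor g (closedBall (0 : ℂ) R) u = 0 :=
        Function.locallyFinsuppWithin.apply_eq_zero_of_notMem _ hu
      rw [mem_closedBall_zero_iff] at hu
      simp [h2, hu]
  · unfold JJ
    rw [h1]
    congr 1
    rw [finsum_eq_sum_of_support_subset (s := hfin.toFinset)]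
    · refine Finset.sum_congr rfl fun u hu => ?_
      rw [Set.Finite.mem_toFinset, Function.mem_support] at hu
      have hu' : u ∈ closedBall (0 : ℂ) R := by
        by_contra h
        exact hu (Function.locallyFinsuppWithin.apply_eq_zero_of_notMem _ h)
      rw [div_eq g R hg u hu', zero_sub, norm_neg]
      push_cast
      rfl
    · intro u hu
      rw [Set.Finite.coe_toFinset, Function.mem_support]
      intro h0
      rw [Function.mem_support, h0] at hu
      simp at hu

lemma order_zero_iff (g : ℂ → ℂ) (u : ℂ) (hg : AnalyticAt ℂ g u)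
    (h : analyticOrderNatAt g u ≠ 0) : g u = 0 := by
  by_contra hne
  have h1 : analyticOrderAt g u = 0 := hg.analyticOrderAt_eq_zero.2 hne
  apply h
  unfold analyticOrderNatAt
  rw [h1]; rfl

/-- a zero of an entire function that does not vanish at `0` has positive (natural) order -/
lemma order_pos (g : ℂ → ℂ) (hg : Differentiable ℂ g) (hg0 : g 0 ≠ 0) {u : ℂ} (hu : g u = 0) :
    1 ≤ analyticOrderNatAt g u := by
  have h1 : analyticOrderAt g u ≠ ⊤ := by
    intro h
    rw [analyticOrderAt_eq_top] at h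
    have h2 : AnalyticOnNhd ℂ g Set.univ := fun z _ => hg.analyticAt z
    have h3 := h2.eqOn_zero_of_preconnected_of_eventuallyEq_zero isPreconnected_univ
      (Set.mem_univ u) h
    exact hg0 (h3 (Set.mem_univ 0))
  have h2 : analyticOrderAt g u ≠ 0 := fun h =>
    (hg.analyticAt u).analyticOrderAt_eq_zero.1 h hu
  have h3 : analyticOrderNatAt g u ≠ 0 := by
    intro h
    rw [← Nat.cast_analyticOrderNatAt h1, h] at h2
    exact h2 rfl
  omega

theorem integral_abs_cos : ∫ θ in (0 : ℝ)..(2 * Real.pi), |Real.cos θ| = 4 := by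
  have hp : Function.Periodic (fun θ : ℝ => |Real.cos θ|) (2 * Real.pi) := by
    intro θ; simp
  have h1 : ∫ θ in (0 : ℝ)..(2 * Real.pi), |Real.cos θ|
      = ∫ θ in (-(Real.pi / 2))..(-(Real.pi / 2) + 2 * Real.pi), |Real.cos θ| := by
    have := hp.intervalIntegral_add_eq 0 (-(Real.pi / 2))
    simpa using this
  have hi : ∀ a b : ℝ, IntervalIntegrable (fun θ : ℝ => |Real.cos θ|) volume a b := fun a b =>
    (Real.continuous_cos.abs).intervalIntegrable a b
  rw [h1, ← intervalIntegral.integral_add_adjacent_intervals (hi _ (Real.pi / 2)) (hi _ _)]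
  have h2 : ∫ θ in (-(Real.pi / 2))..(Real.pi / 2), |Real.cos θ| = 2 := by
    rw [intervalIntegral.integral_congr (g := Real.cos)]
    · simp; norm_num
    · intro θ hθ
      rw [Set.uIcc_of_le (by linarith [Real.pi_pos])] at hθ
      exact abs_of_nonneg (Real.cos_nonneg_of_mem_Icc ⟨by linarith [hθ.1], hθ.2⟩)
  have h3 : ∫ θ in (Real.pi / 2)..(-(Real.pi / 2) + 2 * Real.pi), |Real.cos θ| = 2 := by
    rw [intervalIntegral.integral_congr (g := fun θ => - Real.cos θ)]
    · rw [intervalIntegral.integral_neg]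
      simp only [integral_cos]
      rw [show -(Real.pi / 2) + 2 * Real.pi = 3 * Real.pi / 2 by ring]
      rw [show 3 * Real.pi / 2 = Real.pi / 2 + Real.pi by ring, Real.sin_add_pi, Real.sin_pi_div_two]
      norm_num
    · intro θ hθ
      rw [Set.uIcc_of_le (by linarith [Real.pi_pos])] at hθ
      exact abs_of_nonpos (Real.cos_nonpos_of_pi_div_two_le_of_le hθ.1 (by linarith [hθ.2]))
  rw [h2, h3]
  norm_num

/-- average of `|Re z|` -/
lemma avg_re {R : ℝ} (hR : 0 < R) :
    Real.circleAverage (fun z : ℂ => |z.re|) 0 R = 2 * R / Real.pi := by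
  unfold Real.circleAverage
  have e : ∀ θ : ℝ, |(circleMap 0 R θ).re| = R * |Real.cos θ| := by
    intro θ
    have : (circleMap 0 R θ).re = R * Real.cos θ := by
      simp [circleMap, Complex.exp_re]
    rw [this, abs_mul, abs_of_pos hR]
  simp only [e]
  rw [intervalIntegral.integral_const_mul, integral_abs_cos, smul_eq_mul]
  have := Real.pi_pos
  field_simp
  ring

/-- the mean of `log ‖g‖` on a circle, from a bound of exponential type -/
lemma JJ_le {g : ℂ → ℂ} (hg : Differentiable ℂ g) {R M τ : ℝ} (hR : 0 < R) (hM : 1 ≤ M) (hτ : 0 ≤ τ)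
    (hb : ∀ z : ℂ, ‖z‖ ≤ R → ‖g z‖ ≤ M * Real.exp (τ * |z.re|)) :
    JJ g R ≤ Real.log M + τ * (2 * R / Real.pi) := by
  have e : Real.log M + τ * (2 * R / Real.pi) =
      Real.circleAverage (fun z : ℂ => Real.log M + τ * |z.re|) 0 R := by
    have hi1 : CircleIntegrable (fun _ : ℂ => Real.log M) 0 R := circleIntegrable_const _ _ _
    have hi2 : CircleIntegrable (fun z : ℂ => τ * |z.re|) 0 R := by
      apply ContinuousOn.circleIntegrable hR.le
      fun_prop
    have h1 := Real.circleAverage_add hi1 hi2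
    have h2 : Real.circleAverage (fun z : ℂ => τ * |z.re|) 0 R = τ * (2 * R / Real.pi) := by
      rw [← avg_re hR]
      exact Real.circleAverage_smul (a := τ) (f := fun z : ℂ => |z.re|)
    rw [h2, Real.circleAverage_const] at h1
    exact h1.symm
  rw [e]
  unfold JJ
  apply Real.circleAverage_mono
  · exact MeromorphicOn.circleIntegrable_log_norm (fun z _ => (hg.analyticAt z).meromorphicAt)
  · apply ContinuousOn.circleIntegrable hR.le
    fun_prop
  · intro z hz
    have hz' : ‖z‖ ≤ R := by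
      rw [abs_of_pos hR, mem_sphere_zero_iff_norm] at hz
      exact hz.le
    have h1 := hb z hz'
    rcases eq_or_lt_of_le (norm_nonneg (g z)) with h2 | h2
    · rw [← h2, Real.log_zero]
      have : 0 ≤ Real.log M := Real.log_nonneg hM
      positivity
    · have h3 := Real.log_le_log h2 h1
      rwa [Real.log_mul (by positivity) (Real.exp_pos _).ne', Real.log_exp] at h3

lemma log_div_nonneg {R : ℝ} {u : ℂ} (hu : ‖u‖ ≤ R) : 0 ≤ Real.log (R / ‖u‖) := by
  rcases eq_or_lt_of_le (norm_nonneg u) with h1 | h1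
  · rw [← h1]; simp
  · exact Real.log_nonneg (by rw [one_le_div h1]; exact hu)

/-- **Zeros near a maximum**, with multiplicities. -/
theorem local_zeros {g : ℂ → ℂ} (hg : Differentiable ℂ g) {R M τ : ℝ} (hR : 0 < R)
    (hM : 1 ≤ M) (hτ : 0 ≤ τ) (h0 : M ≤ ‖g 0‖)
    (hb : ∀ z : ℂ, ‖z‖ ≤ R → ‖g z‖ ≤ M * Real.exp (τ * |z.re|)) {S : Finset ℂ}
    (hS : ∀ z ∈ S, ‖z‖ ≤ R) :
    ∑ z ∈ S, (analyticOrderNatAt g z : ℝ) * Real.log (R / ‖z‖) ≤ 2 * R / Real.pi * τ := by
  classical
  have hM0 : 0 < M := by linarith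
  have hne : g 0 ≠ 0 := by
    intro h1
    rw [h1, norm_zero] at h0
    linarith
  have han : AnalyticOnNhd ℂ g (closedBall 0 R) := fun z _ => hg.analyticAt z
  obtain ⟨Z, hZ, hJ⟩ := jensen g R hR han hne
  have hlow : ∑ z ∈ S, (analyticOrderNatAt g z : ℝ) * Real.log (R / ‖z‖) ≤
      ∑ u ∈ Z, (analyticOrderNatAt g u : ℝ) * Real.log (R / ‖u‖) := by
    rw [← sum_filter_add_sum_filter_not S (fun z => analyticOrderNatAt g z ≠ 0)]
    have h1 : ∑ z ∈ S.filter (fun z => ¬ analyticOrderNatAt g z ≠ 0),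
        (analyticOrderNatAt g z : ℝ) * Real.log (R / ‖z‖) = 0 := by
      apply sum_eq_zero
      intro z hz
      rw [mem_filter, not_not] at hz
      rw [hz.2, Nat.cast_zero, zero_mul]
    rw [h1, add_zero]
    apply sum_le_sum_of_subset_of_nonneg
    · intro z hz
      rw [mem_filter] at hz
      rw [hZ]
      exact ⟨hS z hz.1, hz.2⟩
    · intro u hu _
      exact mul_nonneg (Nat.cast_nonneg _) (log_div_nonneg ((hZ u).1 hu).1)
  have hJle := JJ_le hg hR hM hτ hb
  have hl0 : Real.log M ≤ Real.log ‖g 0‖ := Real.log_le_log hM0 h0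
  have e2 : 2 * R / Real.pi * τ = τ * (2 * R / Real.pi) := by ring
  rw [e2]
  linarith

/-- **Small values at separated points.** -/
theorem local_count {g : ℂ → ℂ} (hg : Differentiable ℂ g) {R s m M τ : ℝ} (hR : 0 < R) (hs : 0 < s)
    (hm : 0 ≤ m) (hM : 1 ≤ M) (hτ : 0 ≤ τ) (h0 : M ≤ ‖g 0‖)
    (hb : ∀ z : ℂ, ‖z‖ ≤ R → ‖g z‖ ≤ M * Real.exp (τ * |z.re|))
    (hmM : 4 * (m * Real.exp (6 * R / s)) ≤ M) {S : Finset ℂ}
    (hS : ∀ z ∈ S, ‖z‖ ≤ R) (hsep : ∀ z ∈ S, ∀ w ∈ S, z ≠ w → s ≤ |z.im - w.im|)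
    (hgS : ∀ z ∈ S, ‖g z‖ ≤ m) :
    ∑ z ∈ S, Real.log (R / ‖z‖) ≤ 2 * R / Real.pi * τ + 1 := by
  classical
  have hM0 : 0 < M := by linarith
  set p : ℝ := m * Real.exp (6 * R / s) with hp
  have hp0 : 0 ≤ p := by positivity
  set h : ℂ → ℂ := fun z => g z - (PP S g).eval z with hh
  have hhd : Differentiable ℂ h := hg.sub (PP S g).differentiable
  have hP : ∀ z : ℂ, ‖z‖ ≤ R → ‖(PP S g).eval z‖ ≤ p := fun z hz => PP_le hR hs hm hS hsep hgS hz
  have hh0 : 3 / 4 * M ≤ ‖h 0‖ := by
    have h1 := hP 0 (by rw [norm_zero]; exact hR.le)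
    have h2 := norm_sub_norm_le (g 0) ((PP S g).eval 0)
    rw [hh]
    simp only
    linarith
  have hne : h 0 ≠ 0 := by
    intro h1
    rw [h1, norm_zero] at hh0
    linarith
  have hhS : ∀ z ∈ S, h z = 0 := by
    intro z hz
    rw [hh]
    simp only
    rw [PP_node hz, sub_self]
  have han : AnalyticOnNhd ℂ h (closedBall 0 R) := fun z _ => hhd.analyticAt z
  obtain ⟨Z, hZ, hJ⟩ := jensen h R hR han hne
  have hsub : S ⊆ Z := by
    intro z hz
    rw [hZ]
    have := order_pos h hhd hne (hhS z hz)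
    exact ⟨hS z hz, by omega⟩
  have hlow : ∑ z ∈ S, Real.log (R / ‖z‖) ≤
      ∑ u ∈ Z, (analyticOrderNatAt h u : ℝ) * Real.log (R / ‖u‖) := by
    have hnn : ∀ u : ℂ, ‖u‖ ≤ R → 0 ≤ Real.log (R / ‖u‖) := by
      intro u hu
      rcases eq_or_lt_of_le (norm_nonneg u) with h1 | h1
      · rw [← h1]; simp
      · exact Real.log_nonneg (by rw [one_le_div h1]; exact hu)
    calc ∑ z ∈ S, Real.log (R / ‖z‖) ≤ ∑ z ∈ S, (analyticOrderNatAt h z : ℝ) * Real.log (R / ‖z‖) := by
          apply sum_le_sum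
          intro z hz
          have h1 : (1 : ℝ) ≤ analyticOrderNatAt h z := by
            exact_mod_cast order_pos h hhd hne (hhS z hz)
          have h2 := hnn z (hS z hz)
          nlinarith
      _ ≤ _ := by
          apply sum_le_sum_of_subset_of_nonneg hsub
          intro u hu _
          exact mul_nonneg (Nat.cast_nonneg _) (hnn u ((hZ u).1 hu).1)
  have hJle : JJ h R ≤ Real.log (5 / 4 * M) + τ * (2 * R / Real.pi) := by
    have e : Real.log (5 / 4 * M) + τ * (2 * R / Real.pi) =
        Real.circleAverage (fun z : ℂ => Real.log (5 / 4 * M) + τ * |z.re|) 0 R := by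
      have hi1 : CircleIntegrable (fun _ : ℂ => Real.log (5 / 4 * M)) 0 R := circleIntegrable_const _ _ _
      have hi2 : CircleIntegrable (fun z : ℂ => τ * |z.re|) 0 R := by
        apply ContinuousOn.circleIntegrable hR.le
        fun_prop
      have h1 := Real.circleAverage_add hi1 hi2
      have h2 : Real.circleAverage (fun z : ℂ => τ * |z.re|) 0 R = τ * (2 * R / Real.pi) := by
        rw [← avg_re hR]
        exact Real.circleAverage_smul (a := τ) (f := fun z : ℂ => |z.re|)
      rw [h2, Real.circleAverage_const] at h1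
      exact h1.symm
    rw [e]
    unfold JJ
    apply Real.circleAverage_mono
    · exact MeromorphicOn.circleIntegrable_log_norm (fun z _ => (hhd.analyticAt z).meromorphicAt)
    · apply ContinuousOn.circleIntegrable hR.le
      fun_prop
    · intro z hz
      have hz' : ‖z‖ ≤ R := by
        rw [abs_of_pos hR, mem_sphere_zero_iff_norm] at hz
        exact hz.le
      have h1 : ‖h z‖ ≤ 5 / 4 * M * Real.exp (τ * |z.re|) := by
        have h2 := hb z hz'
        have h3 := hP z hz'
        have h4 : 1 ≤ Real.exp (τ * |z.re|) := Real.one_le_exp (by positivity)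
        have h5 : ‖h z‖ ≤ ‖g z‖ + ‖(PP S g).eval z‖ := norm_sub_le _ _
        nlinarith
      rcases eq_or_lt_of_le (norm_nonneg (h z)) with h2 | h2
      · rw [← h2, Real.log_zero]
        have : 0 ≤ Real.log (5 / 4 * M) := Real.log_nonneg (by linarith)
        positivity
      · have h3 := Real.log_le_log h2 h1
        rwa [Real.log_mul (by positivity) (Real.exp_pos _).ne', Real.log_exp] at h3
  have hl0 : Real.log (3 / 4 * M) ≤ Real.log ‖h 0‖ := Real.log_le_log (by positivity) hh0
  have hdiff : Real.log (5 / 4 * M) - Real.log (3 / 4 * M) ≤ 1 := by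
    rw [← Real.log_div (by positivity) (by positivity)]
    have e : 5 / 4 * M / (3 / 4 * M) = 5 / 3 := by field_simp
    rw [e, Real.log_le_iff_le_exp (by norm_num)]
    have := Real.exp_one_gt_d9
    linarith
  have e2 : 2 * R / Real.pi * τ = τ * (2 * R / Real.pi) := by ring
  rw [e2]
  linarith

end Pool.Agent.TH804.DL
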