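import Mathlib
import Pool.Agent.W587.PL.E
import Pool.Agent.TH804.DL2

/-!
The function near a (weighted) maximum on the critical line, and the small values near this point.
The first part is the first half of the proof of `W587.PL.plateau_local`.
-/

set_option autoImplicit false

open Complex Filter Topology Metric Set
open W587.PL

set_option maxHeartbeats 4000000

namespace Pool.Agent.TH804.DL

theorem peak_local {ε B : ℝ} (hε : 0 < ε) (hε1 : ε ≤ 1) (hB : 1 ≤ B) :
    ∃ a δ W : ℝ, 1 / 2 < a ∧ a ≤ 3 / 4 ∧ 0 < δ ∧ 1 ≤ W ∧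
    ∀ (F : ℂ → ℂ) (Λ ℓ : ℝ), 1 ≤ Λ → Loc F a δ B W Λ ℓ → 1 ≤ ‖F 0‖ →
      ∃ y₀ M : ℝ, |y₀| + 1 ≤ W ∧ ‖F 0‖ ≤ M ∧ M ≤ ‖F (y₀ * I)‖ ∧
        ∃ G : ℂ → ℂ, Differentiable ℂ G ∧ ‖G (y₀ * I)‖ = M ∧
          (∀ x y : ℝ, |x| ≤ a → |y| ≤ W → ‖G (x + y * I)‖ ≤
            M * Real.exp ((max (ℓ - 4 * Real.log ‖F 0‖) 0 + ε / 4 * Λ) / 2 * |x|)) ∧
          (∀ x y : ℝ, |x| ≤ a → ‖G (x + y * I)‖ ≤ ‖F (x + y * I)‖ * Real.exp ((B + 1) * Λ * |x|)) ∧
          Real.log ‖F 0‖ ≤ B * Λ ∧ ℓ ≤ B * Λ ∧ ∀ z : ℂ, analyticOrderNatAt G z = analyticOrderNatAt F z := by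
  have hpi := Real.pi_pos
  have hpi3 := Real.pi_gt_three
  have hBp : 0 < B := by linarith
  set e : ℝ := ε / (64 * B) with he
  have he0 : 0 < e := by positivity
  have heB : e * B = ε / 64 := by rw [he]; field_simp
  have he1 : e ≤ 1 / 64 := by
    rw [he, div_le_div_iff₀ (by positivity) (by norm_num)]
    nlinarith
  set a : ℝ := 1 / 2 + e with ha
  set c : ℝ := ε / 64 with hc
  have hc0 : 0 < c := by positivity
  have hc1 : c ≤ 1 / 64 := by rw [hc]; linarith
  -- the window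
  set V : ℝ := (2 * B + c) / c + 1 with hV
  have hV1 : 1 ≤ V := by
    have : 0 ≤ (2 * B + c) / c := by positivity
    linarith
  have hVc : 2 * B + c ≤ c * V ^ 2 := by
    have h1 : (2 * B + c) / c ≤ V := by rw [hV]; linarith
    have h2 : 2 * B + c ≤ c * V := by
      rw [div_le_iff₀ hc0] at h1
      linarith
    nlinarith
  set W : ℝ := V + 1 with hW
  refine ⟨a, c, W, by linarith, by linarith, hc0, by linarith, ?_⟩
  intro F Λ ℓ hΛ H hF0
  have hΛ0 : 0 < Λ := lt_of_lt_of_le one_pos hΛ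
  have hℓ0 := H.l0
  have hℓB := H.lB
  set f : ℝ := ‖F 0‖ with hf
  have hf0 : 0 < f := by linarith
  have hlf : 0 ≤ Real.log f := Real.log_nonneg hF0
  have hfB : Real.log f ≤ B * Λ := by
    have h1 := H.crude 0 0 (by rw [abs_zero]; linarith) (by rw [abs_zero]; linarith)
    have e0 : (((0 : ℝ) : ℂ) + ((0 : ℝ) : ℂ) * I) = 0 := by simp
    rw [e0] at h1
    rw [← Real.log_exp (B * Λ)]
    exact Real.log_le_log hf0 h1
  set G : ℂ → ℂ := GG F c Λ ℓ with hG
  have hGd : Differentiable ℂ G := GG_diff H.diff c Λ ℓ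
  -- values on the imaginary axis
  have hGi : ∀ y : ℝ, ‖G (y * I)‖ = ‖F (y * I)‖ * Real.exp (-(c * Λ * y ^ 2)) := by
    intro y
    have h1 := GG_norm F c Λ ℓ 0 y
    rw [Complex.ofReal_zero, zero_add] at h1
    rw [hG, h1]
    congr 2
    ring
  have hGle : ∀ y : ℝ, ‖G (y * I)‖ ≤ ‖F (y * I)‖ := by
    intro y
    rw [hGi]
    have : Real.exp (-(c * Λ * y ^ 2)) ≤ 1 := by
      rw [Real.exp_le_one_iff]
      have : 0 ≤ c * Λ * y ^ 2 := by positivity
      linarith
    calc ‖F (y * I)‖ * Real.exp (-(c * Λ * y ^ 2)) ≤ ‖F (y * I)‖ * 1 :=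
          mul_le_mul_of_nonneg_left this (norm_nonneg _)
      _ = _ := mul_one _
  have hG0 : ‖G ((0 : ℝ) * I)‖ = f := by
    rw [hGi]
    simp [hf]
  -- edges
  have hedge : ∀ x y : ℝ, |x| ≤ a → V ≤ |y| → |y| ≤ W → ‖G (x + y * I)‖ ≤ 1 := by
    intro x y hx hy1 hy2
    rw [hG, GG_norm]
    have h1 := H.crude x y hx hy2
    have h2 : ℓ / 2 * x + c * Λ * (x ^ 2 - y ^ 2) ≤ -(B * Λ) := by
      have h3 : x ^ 2 ≤ 1 := by
        rw [sq_le_one_iff_abs_le_one]
        linarith
      have h4 : V ^ 2 ≤ y ^ 2 := by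
        rw [← sq_abs y]
        exact pow_le_pow_left₀ (by linarith) hy1 2
      have h5 : ℓ / 2 * x ≤ B * Λ := by
        have h51 : x ≤ 1 := by linarith [le_abs_self x]
        have h52 : ℓ / 2 * x ≤ ℓ / 2 * 1 := mul_le_mul_of_nonneg_left h51 (by linarith)
        linarith
      have h6 : c * Λ * (x ^ 2 - y ^ 2) ≤ c * Λ * (1 - V ^ 2) :=
        mul_le_mul_of_nonneg_left (by linarith) (by positivity)
      have h7 : (2 * B + c) * Λ ≤ c * V ^ 2 * Λ := mul_le_mul_of_nonneg_right hVc hΛ0.le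
      have h8 : c * Λ * (1 - V ^ 2) = c * Λ - c * V ^ 2 * Λ := by ring
      have h9 : (2 * B + c) * Λ = 2 * (B * Λ) + c * Λ := by ring
      linarith
    calc ‖F (x + y * I)‖ * Real.exp (ℓ / 2 * x + c * Λ * (x ^ 2 - y ^ 2))
        ≤ Real.exp (B * Λ) * Real.exp (-(B * Λ)) :=
          mul_le_mul h1 (Real.exp_le_exp.2 h2) (Real.exp_pos _).le (Real.exp_pos _).le
      _ = 1 := by rw [← Real.exp_add]; simp
  -- the maximum
  obtain ⟨y₁, hy₁, hmax⟩ := (isCompact_Icc (a := -W) (b := W)).exists_isMaxOn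
    (nonempty_Icc.2 (by linarith)) (f := fun y : ℝ => ‖G (y * I)‖) (by
      apply Continuous.continuousOn
      exact (hGd.continuous.comp (by fun_prop)).norm)
  set M : ℝ := ‖G (y₁ * I)‖ with hM
  have hmax' : ∀ y : ℝ, |y| ≤ W → ‖G (y * I)‖ ≤ M := fun y hy => hmax (abs_le.1 hy)
  have hfM : f ≤ M := by
    rw [← hG0]
    exact hmax' 0 (by rw [abs_zero]; linarith)
  have hM1 : 1 ≤ M := hF0.trans hfM
  have hM0 : 0 < M := by linarith
  obtain ⟨y₀, hy₀, hGy₀⟩ : ∃ y₀ : ℝ, |y₀| ≤ V ∧ ‖G (y₀ * I)‖ = M := by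
    rcases le_or_gt |y₁| V with h | h
    · exact ⟨y₁, h, rfl⟩
    · have h1 := hedge 0 y₁ (by rw [abs_zero]; linarith) h.le (abs_le.2 hy₁)
      rw [Complex.ofReal_zero, zero_add] at h1
      have h2 : M = 1 := le_antisymm h1 hM1
      refine ⟨0, by rw [abs_zero]; linarith, ?_⟩
      rw [hG0, h2]
      linarith
  -- the type
  set P : ℝ := max (ℓ - 4 * Real.log f) 0 with hP
  have hP0 : 0 ≤ P := le_max_right _ _
  have hPB : P ≤ B * Λ := max_le (by linarith) (by positivity)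
  set A : ℝ := Real.exp (2 * c * Λ + a * ℓ / 2) with hA
  have hA1 : 1 ≤ A := Real.one_le_exp (by positivity)
  have hlA : Real.log A = 2 * c * Λ + a * ℓ / 2 := Real.log_exp _
  set τ : ℝ := (P + ε / 4 * Λ) / 2 with hτ
  have hτ0 : 0 < τ := by positivity
  have ha0 : 0 < a := by linarith
  have ha2 : 1 / a ≤ 2 := by
    rw [div_le_iff₀ ha0]; linarith
  have htype : (Real.log A - Real.log M) / a ≤ τ := by
    rw [hlA, div_le_iff₀ ha0]
    have h1 : Real.log f ≤ Real.log M := Real.log_le_log hf0 hfM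
    have h2 : ℓ - 4 * Real.log f ≤ P := le_max_left _ _
    -- want: 2cΛ + aℓ/2 - log M ≤ τ a
    have h3 : τ * a = (P + ε / 4 * Λ) / 2 * a := by rw [hτ]
    rw [h3]
    have h4 : (ℓ - 4 * Real.log f) * a ≤ P * a := mul_le_mul_of_nonneg_right h2 ha0.le
    have h5 : (2 * a - 1) * Real.log f ≤ 2 * e * (B * Λ) := by
      have : 2 * a - 1 = 2 * e := by rw [ha]; ring
      rw [this]
      exact mul_le_mul_of_nonneg_left hfB (by positivity)
    have h6 : 2 * e * (B * Λ) = ε / 32 * Λ := by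
      rw [show 2 * e * (B * Λ) = 2 * (e * B) * Λ by ring, heB]; ring
    have h7 : ε / 4 * Λ / 2 * (1 / 2) ≤ ε / 4 * Λ / 2 * a :=
      mul_le_mul_of_nonneg_left (by linarith) (by positivity)
    have h8 : 2 * c * Λ = ε / 32 * Λ := by rw [hc]; ring
    have h9 : 0 < ε * Λ := by positivity
    have h10 : (ℓ - 4 * Real.log f) * a = a * ℓ - 2 * Real.log f - 2 * ((2 * a - 1) * Real.log f) := by
      ring
    have h11 : (P + ε / 4 * Λ) / 2 * a = P * a / 2 + ε / 4 * Λ / 2 * a := by ring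
    rw [h11, h8]
    have h12 : ε / 4 * Λ / 2 * (1 / 2) = ε * Λ / 16 := by ring
    have h13 : ε / 32 * Λ = ε * Λ / 32 := by ring
    rw [h13] at h6 ⊢
    linarith
  have hbox : ∀ x y : ℝ, |x| ≤ a → |y| ≤ W → ‖G (x + y * I)‖ ≤ M * Real.exp (τ * |x|) := by
    intro x y hx hy
    have h1 := box hGd ha0 (by linarith : (0:ℝ) < W) hM1 hA1 hmax' (fun x y hx hy => by
      rw [hG, GG_norm]
      have h2 := H.side x y hx hy
      have h3 : x ^ 2 ≤ 1 := by
        rw [sq_le_one_iff_abs_le_one, hx]; linarith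
      have h31 : 0 ≤ y ^ 2 := sq_nonneg y
      have h4 : c * Λ * (x ^ 2 - y ^ 2) ≤ c * Λ * 1 :=
        mul_le_mul_of_nonneg_left (by linarith) (by positivity)
      rw [hA]
      calc ‖F (x + y * I)‖ * Real.exp (ℓ / 2 * x + c * Λ * (x ^ 2 - y ^ 2))
          ≤ Real.exp (c * Λ + (a - x) * ℓ / 2) * Real.exp (ℓ / 2 * x + c * Λ * 1) :=
            mul_le_mul h2 (Real.exp_le_exp.2 (by linarith)) (Real.exp_pos _).le (Real.exp_pos _).le
        _ = _ := by rw [← Real.exp_add]; congr 1; ring) (fun x y hx hy =>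
      hedge x y hx (by rw [hy]; linarith) hy.le) hx hy
    refine h1.trans ?_
    apply mul_le_mul_of_nonneg_left _ hM0.le
    apply Real.exp_le_exp.2
    rw [mul_comm τ]
    exact mul_le_mul_of_nonneg_left htype (abs_nonneg x)
  refine ⟨y₀, M, by linarith, hfM, ?_, G, hGd, hGy₀, fun x y hx hy => ?_, fun x y hx => ?_,
    hfB, hℓB, fun z => ?_⟩
  · rw [← hGy₀]
    exact hGle y₀
  · exact hbox x y hx hy
  · rw [hG, GG_norm]
    apply mul_le_mul_of_nonneg_left _ (norm_nonneg _)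
    apply Real.exp_le_exp.2
    have hx0 := abs_nonneg x
    have h1 : ℓ / 2 * x ≤ B * Λ / 2 * |x| := by
      calc ℓ / 2 * x ≤ ℓ / 2 * |x| := mul_le_mul_of_nonneg_left (le_abs_self x) (by linarith)
        _ ≤ B * Λ / 2 * |x| := mul_le_mul_of_nonneg_right (by linarith) hx0
    have h2 : c * Λ * (x ^ 2 - y ^ 2) ≤ 1 * Λ * |x| := by
      have h3 : x ^ 2 ≤ |x| := by
        rw [← sq_abs]
        have : |x| ≤ 1 := by linarith
        nlinarith
      calc c * Λ * (x ^ 2 - y ^ 2) ≤ c * Λ * x ^ 2 :=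
            mul_le_mul_of_nonneg_left (by linarith [sq_nonneg y]) (by positivity)
        _ ≤ c * Λ * |x| := mul_le_mul_of_nonneg_left h3 (by positivity)
        _ ≤ 1 * Λ * |x| := by
            apply mul_le_mul_of_nonneg_right _ hx0
            apply mul_le_mul_of_nonneg_right _ hΛ0.le
            linarith
    have h4 : 0 ≤ B * Λ / 2 * |x| := by positivity
    linarith [show (B + 1) * Λ * |x| = 2 * (B * Λ / 2 * |x|) + 1 * Λ * |x| by ring]
  · have h1 : AnalyticAt ℂ F z := H.diff.analyticAt z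
    have h2 : Differentiable ℂ (fun z : ℂ => Complex.exp ((ℓ / 2 : ℝ) * z + (c * Λ : ℝ) * z ^ 2)) := by
      fun_prop
    have h3 : analyticOrderAt (fun z : ℂ => Complex.exp ((ℓ / 2 : ℝ) * z + (c * Λ : ℝ) * z ^ 2)) z = 0 :=
      (h2.analyticAt z).analyticOrderAt_eq_zero.2 (Complex.exp_ne_zero _)
    have h4 := analyticOrderAt_mul h1 (h2.analyticAt z)
    rw [h3, add_zero] at h4
    unfold analyticOrderNatAt
    rw [← h4]
    rfl

/-- **Large values**, local form: near `0` there is a point `y₀ i` with `‖F (y₀ i)‖ ≥ ‖F 0‖` around which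
`F` is large on a long interval of the line, and around which there are few separated small values. -/
theorem large_local {ε B : ℝ} (hε : 0 < ε) (hε1 : ε ≤ 1) (hB : 1 ≤ B) :
    ∃ a δ W Λ₀ : ℝ, 1 / 2 < a ∧ a ≤ 3 / 4 ∧ 0 < δ ∧ 1 ≤ W ∧ 1 ≤ Λ₀ ∧
    ∀ (F : ℂ → ℂ) (Λ ℓ : ℝ), Λ₀ ≤ Λ → Loc F a δ B W Λ ℓ → 1 ≤ ‖F 0‖ →
      ∃ y₀ : ℝ, |y₀| + 1 ≤ W ∧ ‖F 0‖ ≤ ‖F (y₀ * I)‖ ∧
        (∀ b : ℝ, |b| * (max (ℓ - 4 * Real.log ‖F 0‖) 0 + ε * Λ) ≤ Real.pi →
          Real.exp (-(ε * Λ)) * ‖F 0‖ ≤ ‖F ((y₀ + b : ℝ) * I)‖) ∧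
        (∀ R : ℝ, 0 < R → R ≤ 1 / 2 → ∀ S : Finset ℂ, (∀ z ∈ S, ‖z - y₀ * I‖ ≤ R) →
            ∑ z ∈ S, (analyticOrderNatAt F z : ℝ) * Real.log (R / ‖z - y₀ * I‖) ≤
              R / Real.pi * (max (ℓ - 4 * Real.log ‖F 0‖) 0 + ε * Λ)) ∧
        ∀ R s : ℝ, 0 < R → R ≤ 1 / 2 → 0 < s → 6 * R / s + (B + 1) * Λ * R + 2 ≤ ε * Λ →
          ∀ S : Finset ℂ, (∀ z ∈ S, ‖z - y₀ * I‖ ≤ R) →
            (∀ z ∈ S, ‖F z‖ ≤ Real.exp (-(ε * Λ)) * ‖F 0‖) →
            (∀ z ∈ S, ∀ w ∈ S, z ≠ w → s ≤ |z.im - w.im|) →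
            ∑ z ∈ S, Real.log (R / ‖z - y₀ * I‖) ≤
              R / Real.pi * (max (ℓ - 4 * Real.log ‖F 0‖) 0 + ε * Λ) + 1 := by
  classical
  have hpi := Real.pi_pos
  have hpi3 := Real.pi_gt_three
  have hBp : 0 < B := by linarith
  obtain ⟨a, δ, W, ha, ha', hδ, hW, hpk⟩ := peak_local hε hε1 hB
  -- the angle
  set θ : ℝ := (B + ε / 4) / (B + ε) with hθ
  have hθ0 : 0 < θ := by positivity
  have hθ1 : θ < 1 := by
    rw [hθ, div_lt_one (by positivity)]
    linarith
  set σ : ℝ := Real.sin (θ * (Real.pi / 2)) with hs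
  have hs1 : σ < 1 := by
    have h1 : Real.sin (θ * (Real.pi / 2)) < Real.sin (Real.pi / 2) := by
      apply Real.sin_lt_sin_of_lt_of_le_pi_div_two
      · nlinarith
      · exact le_rfl
      · nlinarith
    rwa [Real.sin_pi_div_two] at h1
  obtain ⟨N, hN⟩ := exists_nat_gt (12 / (1 - σ))
  have hNpos : (0 : ℝ) < N := lt_trans (by
    have : 0 < 1 - σ := by linarith
    positivity) hN
  have hN1 : 1 ≤ N := by
    have : 0 < N := by exact_mod_cast hNpos
    omega
  have hN6 : 6 / (N : ℝ) < (1 - σ) / 2 := by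
    have h1 : 0 < 1 - σ := by linarith
    rw [div_lt_iff₀ h1] at hN
    rw [div_lt_div_iff₀ hNpos (by norm_num)]
    linarith
  -- the threshold
  set Λ₀ : ℝ := 1 + 32 * (N * Real.pi) / ε + 4 * Real.pi / ε + 2 / (ε * (1 - σ)) with hΛ₀
  have h1s : 0 < 1 - σ := by linarith
  have hΛ₀p : 0 < Λ₀ := by positivity
  have hΛ₀1 : 1 ≤ Λ₀ := by
    have h1 : 0 ≤ 32 * (N * Real.pi) / ε := by positivity
    have h2 : 0 ≤ 4 * Real.pi / ε := by positivity
    have h3 : 0 ≤ 2 / (ε * (1 - σ)) := by positivity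
    rw [hΛ₀]; linarith
  refine ⟨a, δ, W, Λ₀, ha, ha', hδ, hW, hΛ₀1, fun F Λ ℓ hΛ H hF0 => ?_⟩
  have hΛ1 : 1 ≤ Λ := hΛ₀1.trans hΛ
  obtain ⟨y₀, M, hy₀, hFM, hMF, G, hGd, hGy, hbox', hGF, hfB, hℓB, hord⟩ := hpk F Λ ℓ hΛ1 H hF0
  have hM1 : 1 ≤ M := hF0.trans hFM
  have hM0 : 0 < M := by linarith
  have hΛ0 : 0 < Λ := by linarith
  have hℓ0 := H.l0
  set P : ℝ := max (ℓ - 4 * Real.log ‖F 0‖) 0 with hP
  have hP0 : 0 ≤ P := le_max_right _ _
  have hboxw : ∀ x y : ℝ, |x| ≤ a → |y| ≤ W → ‖G (x + y * I)‖ ≤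
      M * Real.exp ((P + ε * Λ) / 2 * |x|) := by
    intro x y hx hy
    refine (hbox' x y hx hy).trans ?_
    apply mul_le_mul_of_nonneg_left _ hM0.le
    apply Real.exp_le_exp.2
    apply mul_le_mul_of_nonneg_right _ (abs_nonneg x)
    have : 0 ≤ ε * Λ := by positivity
    linarith
  refine ⟨y₀, hy₀, hFM.trans hMF, ?_, ?_, ?_⟩
  · -- the plateau
    intro b hb
    by_contra hcon
    push Not at hcon
    set f : ℝ := ‖F 0‖ with hf
    have hf0 : 0 < f := by linarith
    have hlf : 0 ≤ Real.log f := Real.log_nonneg hF0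
    have hfM : f ≤ M := hFM
    have hGy₀ : ‖G (y₀ * I)‖ = M := hGy
    have hPB : P ≤ B * Λ := max_le (by linarith) (by positivity)
    set τ : ℝ := (P + ε / 4 * Λ) / 2 with hτ
    have hτ0 : 0 < τ := by positivity
    have hGle : ∀ y : ℝ, ‖G (y * I)‖ ≤ ‖F (y * I)‖ := by
      intro y
      have h1 := hGF 0 y (by rw [abs_zero]; linarith)
      rw [abs_zero, mul_zero, Real.exp_zero, mul_one, Complex.ofReal_zero, zero_add] at h1
      exact h1
    have hbox : ∀ x y : ℝ, |x| ≤ a → |y| ≤ W → ‖G (x + y * I)‖ ≤ M * Real.exp (τ * |x|) := hbox'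
    -- sizes
    have hεΛ : 0 < ε * Λ := by positivity
    have hb1 : τ * |b| ≤ θ * (Real.pi / 2) := by
      have h1 : τ = (P + ε / 4 * Λ) / (P + ε * Λ) * ((P + ε * Λ) / 2) := by
        rw [hτ]; field_simp
      have h2 : (P + ε / 4 * Λ) / (P + ε * Λ) ≤ θ := by
        rw [hθ, div_le_div_iff₀ (by positivity) (by positivity)]
        have h21 : 0 ≤ ε * (B * Λ - P) := mul_nonneg hε.le (by linarith)
        linarith
      have h3 : (P + ε * Λ) / 2 * |b| ≤ Real.pi / 2 := by linarith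
      calc τ * |b| = (P + ε / 4 * Λ) / (P + ε * Λ) * ((P + ε * Λ) / 2 * |b|) := by
            conv_lhs => rw [h1]
            ring
        _ ≤ θ * (Real.pi / 2) := mul_le_mul h2 h3 (by positivity) hθ0.le
    have hθpi : θ * (Real.pi / 2) < 1 * (Real.pi / 2) :=
      mul_lt_mul_of_pos_right hθ1 (by positivity)
    have hb2 : τ * |b| < Real.pi / 2 := by
      refine lt_of_le_of_lt hb1 ?_
      linarith
    have hbs : |b| ≤ 1 / 4 := by
      have h1 : |b| * (ε * Λ) ≤ Real.pi := by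
        refine le_trans (mul_le_mul_of_nonneg_left ?_ (abs_nonneg b)) hb
        linarith
      have h2 : 4 * Real.pi / ε ≤ Λ := by
        refine le_trans ?_ hΛ
        have h3 : 0 ≤ 32 * (N * Real.pi) / ε := by positivity
        have h4 : 0 ≤ 2 / (ε * (1 - σ)) := by positivity
        rw [hΛ₀]; linarith
      have h3 : 4 * Real.pi ≤ Λ * ε := by rwa [div_le_iff₀ hε] at h2
      by_contra h4
      push Not at h4
      have h5 := mul_lt_mul_of_pos_right h4 hεΛ
      linarith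
    have hNτ : N * Real.pi / τ ≤ 1 / 4 := by
      rw [div_le_iff₀ hτ0]
      have h2 : 32 * (N * Real.pi) / ε ≤ Λ := by
        refine le_trans ?_ hΛ
        have h3 : 0 ≤ 4 * Real.pi / ε := by positivity
        have h4 : 0 ≤ 2 / (ε * (1 - σ)) := by positivity
        rw [hΛ₀]; linarith
      rw [div_le_iff₀ hε] at h2
      rw [hτ]
      linarith
    have hLS := LS (g := fun w => G ((y₀ + w) * I)) (hGd.comp (by fun_prop)) hτ0 hM0 hb2 hN1 (fun w hw => by
      have h1 : ‖w‖ ≤ 1 / 2 := by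
        refine hw.trans ?_
        rw [add_div, mul_div_cancel_left₀ _ hτ0.ne']
        linarith
      have e : ((y₀ : ℂ) + w) * I = ((-w.im : ℝ) : ℂ) + ((y₀ + w.re : ℝ) : ℂ) * I := by
        apply Complex.ext <;> simp
      show ‖G (((y₀ : ℂ) + w) * I)‖ ≤ _
      rw [e]
      have h2 := hbox (-w.im) (y₀ + w.re) (by
        rw [abs_neg]
        have := Complex.abs_im_le_norm w
        linarith) (by
        have h3 := Complex.abs_re_le_norm w
        have h4 := abs_add_le y₀ w.re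
        linarith)
      rwa [abs_neg] at h2)
    simp only [add_zero] at hLS
    rw [hGy₀] at hLS
    have hGb : ‖G ((y₀ + (b : ℂ)) * I)‖ ≤ Real.exp (-(ε * Λ)) * M := by
      have h1 := hGle (y₀ + b)
      rw [Complex.ofReal_add] at h1 hcon
      calc ‖G ((y₀ + (b : ℂ)) * I)‖ ≤ ‖F ((y₀ + (b : ℂ)) * I)‖ := h1
        _ ≤ Real.exp (-(ε * Λ)) * f := hcon.le
        _ ≤ _ := mul_le_mul_of_nonneg_left hfM (Real.exp_pos _).le
    have hsin : Real.sin (τ * |b|) ≤ σ := by
      rw [hs]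
      apply Real.sin_le_sin_of_le_of_le_pi_div_two
      · have : 0 ≤ τ * |b| := by positivity
        linarith
      · linarith
      · exact hb1
    have hexp : Real.exp (-(ε * Λ)) < (1 - σ) / 2 := by
      have h2 : 2 / (ε * (1 - σ)) < Λ := by
        refine lt_of_lt_of_le ?_ hΛ
        have h3 : 0 ≤ 4 * Real.pi / ε := by positivity
        have h4 : 0 ≤ 32 * (N * Real.pi) / ε := by positivity
        rw [hΛ₀]; linarith
      rw [div_lt_iff₀ (by positivity)] at h2
      have h3 : 1 + ε * Λ ≤ Real.exp (ε * Λ) := by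
        have := Real.add_one_le_exp (ε * Λ)
        linarith
      rw [Real.exp_neg, inv_lt_comm₀ (Real.exp_pos _) (by linarith)]
      rw [inv_div, div_lt_iff₀ h1s]
      have h5 := mul_le_mul_of_nonneg_right h3 h1s.le
      linarith
    have hfin : M ≤ Real.exp (-(ε * Λ)) * M + M * (σ + 6 / N) := by
      refine hLS.trans (add_le_add hGb ?_)
      exact mul_le_mul_of_nonneg_left (by linarith) hM0.le
    have hfin1 : Real.exp (-(ε * Λ)) * M < (1 - σ) / 2 * M := mul_lt_mul_of_pos_right hexp hM0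
    have hfin2 : M * (6 / N) < M * ((1 - σ) / 2) := mul_lt_mul_of_pos_left hN6 hM0
    linarith
  · -- few zeros
    intro R hR hR2 S hS
    have key : ∀ z : ℂ, (y₀ : ℂ) * I + z = (z.re : ℂ) + ((y₀ + z.im : ℝ) : ℂ) * I := by
      intro z
      apply Complex.ext <;> simp
    have hgd : Differentiable ℂ (fun z : ℂ => G (y₀ * I + z)) := hGd.comp (by fun_prop)
    have hmain := local_zeros (g := fun z : ℂ => G (y₀ * I + z)) hgd (τ := (P + ε * Λ) / 2) (M := M)
      hR hM1 (by positivity) (by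
        simp only [add_zero]
        rw [hGy]) (fun z hz => by
        show ‖G ((y₀ : ℂ) * I + z)‖ ≤ _
        rw [key z]
        have h1 := Complex.abs_re_le_norm z
        have h2 := Complex.abs_im_le_norm z
        exact hboxw z.re (y₀ + z.im) (by linarith) (by
          have := abs_add_le y₀ z.im
          linarith)) (S := S.image (fun z => z - y₀ * I)) (by
        intro w hw
        obtain ⟨z, hz, rfl⟩ := Finset.mem_image.1 hw
        exact hS z hz)
    rw [Finset.sum_image (fun z _ w _ h => sub_left_injective h)] at hmain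
    have hordz : ∀ z : ℂ, analyticOrderNatAt (fun z : ℂ => G (y₀ * I + z)) (z - y₀ * I) =
        analyticOrderNatAt F z := by
      intro z
      rw [← hord z]
      unfold analyticOrderNatAt
      congr 1
      have h1 : AnalyticAt ℂ (fun z : ℂ => (y₀ : ℂ) * I + z) (z - y₀ * I) := by fun_prop
      have h2 : deriv (fun z : ℂ => (y₀ : ℂ) * I + z) (z - y₀ * I) ≠ 0 := by
        rw [deriv_const_add, deriv_id'']
        exact one_ne_zero
      have h3 := analyticOrderAt_comp_of_deriv_ne_zero (f := G) h1 h2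
      have e : (y₀ : ℂ) * I + (z - y₀ * I) = z := by ring
      simp only [e] at h3
      exact h3
    have hsum : ∑ z ∈ S, (analyticOrderNatAt F z : ℝ) * Real.log (R / ‖z - y₀ * I‖) =
        ∑ z ∈ S, (analyticOrderNatAt (fun z : ℂ => G (y₀ * I + z)) (z - y₀ * I) : ℝ) *
          Real.log (R / ‖z - y₀ * I‖) :=
      Finset.sum_congr rfl fun z _ => by rw [hordz z]
    rw [hsum]
    refine hmain.trans (le_of_eq ?_)
    ring
  · -- few small values
    intro R s hR hR2 hs hcond S hS hSF hsep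
    have hbox : ∀ x y : ℝ, |x| ≤ a → |y| ≤ W → ‖G (x + y * I)‖ ≤
        M * Real.exp ((P + ε * Λ) / 2 * |x|) := by
      intro x y hx hy
      refine (hbox' x y hx hy).trans ?_
      apply mul_le_mul_of_nonneg_left _ hM0.le
      apply Real.exp_le_exp.2
      apply mul_le_mul_of_nonneg_right _ (abs_nonneg x)
      have : 0 ≤ ε * Λ := by positivity
      linarith
    have hεΛ : 0 < ε * Λ := by positivity
    set g : ℂ → ℂ := fun z => G (y₀ * I + z) with hg
    have hgd : Differentiable ℂ g := hGd.comp (by fun_prop)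
    set m : ℝ := Real.exp (-(ε * Λ)) * M * Real.exp ((B + 1) * Λ * R) with hm
    have hm0 : 0 ≤ m := by positivity
    have key : ∀ z : ℂ, (y₀ : ℂ) * I + z = (z.re : ℂ) + ((y₀ + z.im : ℝ) : ℂ) * I := by
      intro z
      apply Complex.ext <;> simp
    have hmain := local_count (g := g) hgd (τ := (P + ε * Λ) / 2) (m := m) (M := M) hR hs hm0 hM1
      (by positivity) (by
        rw [hg]
        simp only [add_zero]
        rw [hGy]) (fun z hz => by
        rw [hg]
        simp only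
        rw [key z]
        have h1 := Complex.abs_re_le_norm z
        have h2 := Complex.abs_im_le_norm z
        exact hbox z.re (y₀ + z.im) (by linarith) (by
          have := abs_add_le y₀ z.im
          linarith)) (by
        have h1 : 4 * (m * Real.exp (6 * R / s)) =
            M * (4 * Real.exp (6 * R / s + (B + 1) * Λ * R + -(ε * Λ))) := by
          rw [hm, Real.exp_add, Real.exp_add]; ring
        rw [h1]
        have h2 : Real.exp (6 * R / s + (B + 1) * Λ * R + -(ε * Λ)) ≤ Real.exp (-2) :=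
          Real.exp_le_exp.2 (by linarith)
        have h3 : 4 * Real.exp (-2) ≤ 1 := by
          have h4 : Real.exp (-2) * Real.exp 2 = 1 := by rw [← Real.exp_add]; simp
          have h5 : 4 ≤ Real.exp 2 := by
            have h6 := Real.exp_one_gt_d9
            have h7 : Real.exp 2 = Real.exp 1 * Real.exp 1 := by rw [← Real.exp_add]; norm_num
            rw [h7]; nlinarith
          nlinarith [Real.exp_pos (-2)]
        have h4 : 4 * Real.exp (6 * R / s + (B + 1) * Λ * R + -(ε * Λ)) ≤ 1 := by linarith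
        nlinarith) (S := S.image (fun z => z - y₀ * I)) (by
        intro w hw
        obtain ⟨z, hz, rfl⟩ := Finset.mem_image.1 hw
        exact hS z hz) (by
        intro w hw w' hw' hne
        obtain ⟨z, hz, rfl⟩ := Finset.mem_image.1 hw
        obtain ⟨z', hz', rfl⟩ := Finset.mem_image.1 hw'
        have h1 := hsep z hz z' hz' (fun h => hne (by rw [h]))
        have e : (z - (y₀ : ℂ) * I).im - (z' - (y₀ : ℂ) * I).im = z.im - z'.im := by simp
        rw [e]
        exact h1) (by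
        intro w hw
        obtain ⟨z, hz, rfl⟩ := Finset.mem_image.1 hw
        rw [hg]
        simp only
        have e : (y₀ : ℂ) * I + (z - y₀ * I) = (z.re : ℂ) + (z.im : ℂ) * I := by
          rw [Complex.re_add_im]; ring
        have hzr : |z.re| ≤ R := by
          have h1 := Complex.abs_re_le_norm (z - y₀ * I)
          have e2 : (z - (y₀ : ℂ) * I).re = z.re := by simp
          rw [e2] at h1
          exact h1.trans (hS z hz)
        rw [e]
        refine (hGF z.re z.im (by linarith)).trans ?_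
        rw [Complex.re_add_im, hm]
        have h2 : ‖F z‖ ≤ Real.exp (-(ε * Λ)) * M :=
          (hSF z hz).trans (mul_le_mul_of_nonneg_left hFM (Real.exp_pos _).le)
        have h3 : Real.exp ((B + 1) * Λ * |z.re|) ≤ Real.exp ((B + 1) * Λ * R) :=
          Real.exp_le_exp.2 (mul_le_mul_of_nonneg_left hzr (by positivity))
        exact mul_le_mul h2 h3 (Real.exp_pos _).le (by positivity))
    rw [Finset.sum_image (fun z _ w _ h => sub_left_injective h)] at hmain
    refine hmain.trans (le_of_eq ?_)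
    ring

end Pool.Agent.TH804.DL
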