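import Mathlib
import Pool.Agent.W587.PL.G
import Pool.Agent.H345R2.Chi
import Pool.Agent.H388LH.ZG

/-!
Local bounds for `(s - 1) ζ(s) / T` near `1/2 + iT`, in the form needed for the local sampling theorem.
-/

set_option autoImplicit false

open Complex Filter Topology Set
open W587.PL

namespace Pool.Agent.TH804.MS

/-- `(s - 1) ζ(s) / T` at `s = 1/2 + iT + z`, entire -/
noncomputable def F (T : ℝ) (z : ℂ) : ℂ := riemannZeta₁ (1 / 2 + T * Complex.I + z) / (T : ℂ)

lemma z1_ne {s : ℂ} (hs : s ≠ 1) : riemannZeta₁ s = (s - 1) * riemannZeta s := by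
  have h := riemannZeta_eq_inv_sub_mul hs
  rw [h]
  have : s - 1 ≠ 0 := sub_ne_zero.2 hs
  field_simp

lemma F_diff (T : ℝ) : Differentiable ℂ (F T) := by
  unfold F
  exact (differentiable_riemannZeta₁.comp (by fun_prop)).div_const _

lemma pt_eq (T x y : ℝ) : (1 / 2 + T * Complex.I + (x + y * Complex.I) : ℂ) = ⟨1 / 2 + x, T + y⟩ := by
  apply Complex.ext <;> simp

lemma F_norm {T : ℝ} (hT : 0 < T) {z : ℂ} (hz : 1 / 2 + T * Complex.I + z ≠ 1) :
    ‖F T z‖ = ‖(1 / 2 + T * Complex.I + z) - 1‖ / T * ‖riemannZeta (1 / 2 + T * Complex.I + z)‖ := by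
  unfold F
  rw [z1_ne hz, norm_div, norm_mul, Complex.norm_real, Real.norm_eq_abs, abs_of_pos hT]
  ring

lemma ne_one_of_im {s : ℂ} (h : 0 < s.im) : s ≠ 1 := by
  rintro rfl
  simp at h

/-- comparison of `F` and `ζ` near height `T` -/
lemma F_le {T : ℝ} (hT : 8 ≤ T) {z : ℂ} (hx : |z.re| ≤ 1) (hy : |z.im| ≤ T / 2) :
    ‖F T z‖ ≤ 2 * ‖riemannZeta (1 / 2 + T * Complex.I + z)‖ := by
  have hy' := abs_le.1 hy
  have hx' := abs_le.1 hx
  have him : (1 / 2 + T * Complex.I + z : ℂ).im = T + z.im := by simp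
  have hre : (1 / 2 + T * Complex.I + z : ℂ).re = 1 / 2 + z.re := by simp
  have hne : (1 / 2 + T * Complex.I + z : ℂ) ≠ 1 := ne_one_of_im (by rw [him]; linarith)
  rw [F_norm (by linarith) hne]
  refine mul_le_mul_of_nonneg_right ?_ (norm_nonneg _)
  rw [div_le_iff₀ (by linarith)]
  have h1 := Complex.norm_le_abs_re_add_abs_im ((1 / 2 + T * Complex.I + z : ℂ) - 1)
  rw [Complex.sub_re, Complex.sub_im, him, hre, Complex.one_re, Complex.one_im, sub_zero] at h1
  have h2 : |1 / 2 + z.re - 1| ≤ 3 / 2 := by rw [abs_le]; constructor <;> linarith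
  have h3 : |T + z.im| ≤ 3 / 2 * T := by rw [abs_le]; constructor <;> linarith
  linarith

lemma le_F {T : ℝ} (hT : 8 ≤ T) {z : ℂ} (hy : |z.im| ≤ T / 2) :
    ‖riemannZeta (1 / 2 + T * Complex.I + z)‖ ≤ 2 * ‖F T z‖ := by
  have hy' := abs_le.1 hy
  have him : (1 / 2 + T * Complex.I + z : ℂ).im = T + z.im := by simp
  have hne : (1 / 2 + T * Complex.I + z : ℂ) ≠ 1 := ne_one_of_im (by rw [him]; linarith)
  rw [F_norm (by linarith) hne]
  have h1 := Complex.abs_im_le_norm ((1 / 2 + T * Complex.I + z : ℂ) - 1)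
  rw [Complex.sub_im, him, Complex.one_im, sub_zero, abs_of_pos (by linarith)] at h1
  have h2 : 1 ≤ 2 * (‖(1 / 2 + T * Complex.I + z : ℂ) - 1‖ / T) := by
    rw [mul_div_assoc', le_div_iff₀ (by linarith)]; linarith
  nlinarith [norm_nonneg (riemannZeta (1 / 2 + T * Complex.I + z))]

/-- at the centre -/
lemma le_F0 {T : ℝ} (hT : 8 ≤ T) : ‖riemannZeta (1 / 2 + T * Complex.I)‖ ≤ ‖F T 0‖ := by
  have him : (1 / 2 + T * Complex.I + 0 : ℂ).im = T := by simp
  have hne : (1 / 2 + T * Complex.I + 0 : ℂ) ≠ 1 := ne_one_of_im (by rw [him]; linarith)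
  rw [F_norm (by linarith) hne]
  have h1 := Complex.abs_im_le_norm ((1 / 2 + T * Complex.I + 0 : ℂ) - 1)
  rw [Complex.sub_im, him, Complex.one_im, sub_zero, abs_of_pos (by linarith)] at h1
  have h2 : 1 ≤ ‖(1 / 2 + T * Complex.I + 0 : ℂ) - 1‖ / T := by
    rw [le_div_iff₀ (by linarith)]; linarith
  simp only [add_zero] at h2 ⊢
  nlinarith [norm_nonneg (riemannZeta (1 / 2 + T * Complex.I))]

/-- the functional equation, as an inequality -/
lemma refl : ∃ K : ℝ, 1 ≤ K ∧ ∀ σ t : ℝ, 0 ≤ σ → σ ≤ 3 / 4 → 1 ≤ t →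
    ‖riemannZeta ⟨1 / 2 - σ, t⟩‖ ≤ K * t ^ σ * ‖riemannZeta ⟨1 / 2 + σ, t⟩‖ := by
  obtain ⟨K, hK, hX⟩ := H345.Chi.XX_size
  refine ⟨Real.exp K, Real.one_le_exp hK.le, fun σ t h0 h1 ht => ?_⟩
  set s : ℂ := ⟨1 / 2 + σ, t⟩ with hs
  have hre : s.re = 1 / 2 + σ := rfl
  have him : s.im = t := rfl
  have hcre : ((starRingEnd ℂ) s).re = 1 / 2 + σ := by rw [Complex.conj_re, hre]
  have hcim : ((starRingEnd ℂ) s).im = -t := by rw [Complex.conj_im, him]
  have h2 := H345.zeta_fe ((starRingEnd ℂ) s) (by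
    intro n hn
    have := congrArg Complex.im hn
    rw [hcim] at this
    simp at this
    linarith) (by
    intro hn
    have := congrArg Complex.im hn
    rw [hcim] at this
    simp at this
    linarith)
  have e1 : 1 - (starRingEnd ℂ) s = ⟨1 / 2 - σ, t⟩ := by
    apply Complex.ext
    · rw [Complex.sub_re, hcre, Complex.one_re]; ring
    · rw [Complex.sub_im, hcim, Complex.one_im]; ring
  rw [e1, H345.Chi.XX_conj, riemannZeta_conj] at h2
  rw [h2, norm_mul, Complex.norm_conj, Complex.norm_conj]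
  have h4 := (hX s (by rw [hre]; linarith) (by rw [hre]; linarith) (by rw [him]; exact ht)).2
  rw [hre, him] at h4
  rw [show 1 / 2 + σ - 1 / 2 = σ by ring] at h4
  exact mul_le_mul_of_nonneg_right h4 (norm_nonneg _)

/-- the region of absolute convergence -/
lemma right {σ : ℝ} (hσ : 1 < σ) : ∃ C : ℝ, 1 ≤ C ∧ ∀ t : ℝ, ‖riemannZeta ⟨σ, t⟩‖ ≤ C := by
  refine ⟨1 + ∑' n : ℕ, 1 / ((n : ℝ) + 1) ^ σ, ?_, fun t => ?_⟩
  · have : 0 ≤ ∑' n : ℕ, 1 / ((n : ℝ) + 1) ^ σ := tsum_nonneg fun n => by positivity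
    linarith
  · have hre : 1 < (⟨σ, t⟩ : ℂ).re := hσ
    rw [zeta_eq_tsum_one_div_nat_add_one_cpow hre]
    have hsum : Summable fun n : ℕ => 1 / ((n : ℝ) + 1) ^ σ := by
      have := (summable_nat_add_iff 1).2 (Real.summable_one_div_nat_rpow.2 hσ)
      refine this.congr fun n => ?_
      push_cast
      rfl
    have hnorm : ∀ n : ℕ, ‖1 / ((n : ℂ) + 1) ^ (⟨σ, t⟩ : ℂ)‖ = 1 / ((n : ℝ) + 1) ^ σ := by
      intro n
      have e : ((n : ℂ) + 1) = (((n : ℝ) + 1 : ℝ) : ℂ) := by push_cast; rfl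
      rw [norm_div, norm_one, e, Complex.norm_cpow_eq_rpow_re_of_pos (by positivity)]
    have h1 := norm_tsum_le_tsum_norm (f := fun n : ℕ => 1 / ((n : ℂ) + 1) ^ (⟨σ, t⟩ : ℂ))
      (by simp only [hnorm]; exact hsum)
    simp only [hnorm] at h1
    linarith

lemma rpow_exp {T : ℝ} (hT : 0 < T) (p : ℝ) : T ^ p = Real.exp (p * Real.log T) := by
  rw [Real.rpow_def_of_pos hT, mul_comm]

/-- **the local growth of `F T`** -/
theorem loc {a δ W : ℝ} (ha : 1 / 2 < a) (ha' : a ≤ 3 / 4) (hδ : 0 < δ) (hW : 0 < W) :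
    ∃ T₁ : ℝ, 8 ≤ T₁ ∧ ∀ T : ℝ, T₁ ≤ T → Loc (F T) a δ 3 W (Real.log T) (Real.log T) := by
  obtain ⟨K, hK, hrefl⟩ := refl
  obtain ⟨C, hC, hright⟩ := right (σ := 1 / 2 + a) (by linarith)
  set A : ℝ := 4 * K * C with hA
  have hA1 : 1 ≤ A := by rw [hA]; nlinarith
  refine ⟨8 + 2 * W + A ^ (1 / δ) + 96 * K, ?_, fun T hT => ?_⟩
  · have h1 : 0 ≤ A ^ (1 / δ) := by positivity
    have h2 : 0 ≤ 96 * K := by positivity
    linarith
  have hAp : 0 ≤ A ^ (1 / δ) := by positivity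
  have hKp : 0 ≤ 96 * K := by positivity
  have hT8 : 8 ≤ T := by linarith
  have hT0 : 0 < T := by linarith
  have hWT : W ≤ T / 2 := by linarith
  have hlog : 0 ≤ Real.log T := Real.log_nonneg (by linarith)
  have hAT : A ≤ Real.exp (δ * Real.log T) := by
    rw [← rpow_exp hT0]
    exact large_of_rpow (by linarith) hδ (by linarith)
  -- the two vertical sides
  have hR : ∀ y : ℝ, |y| ≤ W → ‖riemannZeta ⟨1 / 2 + a, T + y⟩‖ ≤ C := fun y _ => hright _
  refine ⟨F_diff T, hlog, by linarith, ?_, ?_⟩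
  · intro x y hx hy
    have hy' := abs_le.1 hy
    have hFz := F_le hT8 (z := (x : ℂ) + y * Complex.I) (by simp [hx]; linarith)
      (by simp only [add_im, ofReal_im, mul_im, ofReal_re, I_im, mul_one, I_re, mul_zero, add_zero,
            zero_add]; linarith)
    rw [pt_eq] at hFz
    rcases abs_eq (by linarith : (0:ℝ) ≤ a) |>.1 hx with h | h
    · rw [h, sub_self, zero_mul, zero_div, add_zero]
      rw [h] at hFz
      refine hFz.trans (le_trans ?_ hAT)
      have := hR y hy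
      rw [hA]
      nlinarith
    · have h1 := hrefl a (T + y) (by linarith) ha' (by linarith)
      have e : (⟨1 / 2 + x, T + y⟩ : ℂ) = ⟨1 / 2 - a, T + y⟩ := by rw [h, sub_eq_add_neg]
      rw [e] at hFz
      have h2 : (T + y) ^ a ≤ 2 * T ^ a := by
        calc (T + y) ^ a ≤ (2 * T) ^ a := Real.rpow_le_rpow (by linarith) (by linarith) (by linarith)
          _ = 2 ^ a * T ^ a := Real.mul_rpow (by norm_num) hT0.le
          _ ≤ 2 ^ (1:ℝ) * T ^ a := by
              apply mul_le_mul_of_nonneg_right _ (by positivity)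
              exact Real.rpow_le_rpow_of_exponent_le (by norm_num) (by linarith)
          _ = 2 * T ^ a := by rw [Real.rpow_one]
      have h3 : ‖riemannZeta ⟨1 / 2 - a, T + y⟩‖ ≤ K * (2 * T ^ a) * C := by
        refine h1.trans ?_
        exact mul_le_mul (mul_le_mul_of_nonneg_left h2 (by linarith)) (hR y hy) (norm_nonneg _)
          (by positivity)
      calc ‖F T (x + y * Complex.I)‖ ≤ 2 * (K * (2 * T ^ a) * C) := by linarith
        _ = A * T ^ a := by rw [hA]; ring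
        _ ≤ Real.exp (δ * Real.log T) * T ^ a := mul_le_mul_of_nonneg_right hAT (by positivity)
        _ = _ := by
            rw [rpow_exp hT0, ← Real.exp_add, h]; congr 1; ring
  · intro x y hx hy
    have hy' := abs_le.1 hy
    have hx' := abs_le.1 hx
    have hFz := F_le hT8 (z := (x : ℂ) + y * Complex.I) (by simp; linarith)
      (by simp only [add_im, ofReal_im, mul_im, ofReal_re, I_im, mul_one, I_re, mul_zero, add_zero,
            zero_add]; linarith)
    rw [pt_eq] at hFz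
    have hT3 : Real.exp (3 * Real.log T) = T ^ 3 := by
      rw [← Real.rpow_natCast T 3, rpow_exp hT0]
      norm_num
    rw [hT3]
    have hpos : ∀ u : ℝ, 0 ≤ u → u ≤ 3 / 4 → ‖riemannZeta ⟨1 / 2 + u, T + y⟩‖ ≤ 24 * T := by
      intro u hu hu'
      have h1 := Pool.Agent.H388LH.zeta_growth (s := ⟨1 / 2 + u, T + y⟩) (by show 1 / 4 ≤ 1 / 2 + u; linarith)
        (by show 1 ≤ T + y; linarith)
      have h2 := Complex.norm_le_abs_re_add_abs_im (⟨1 / 2 + u, T + y⟩ : ℂ)
      have e1 : (⟨1 / 2 + u, T + y⟩ : ℂ).re = 1 / 2 + u := rfl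
      have e2 : (⟨1 / 2 + u, T + y⟩ : ℂ).im = T + y := rfl
      rw [e1, e2, abs_of_pos (by linarith : 0 < 1 / 2 + u), abs_of_pos (by linarith : 0 < T + y)] at h2
      linarith
    rcases le_total 0 x with h | h
    · have h1 := hpos x h (by linarith)
      calc ‖F T (x + y * Complex.I)‖ ≤ 48 * T := by linarith
        _ ≤ T ^ 2 * T := mul_le_mul_of_nonneg_right (by nlinarith) hT0.le
        _ = T ^ 3 := by ring
    · have h1 := hrefl (-x) (T + y) (by linarith) (by linarith) (by linarith)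
      have h2 := hpos (-x) (by linarith) (by linarith)
      have e : (⟨1 / 2 - -x, T + y⟩ : ℂ) = ⟨1 / 2 + x, T + y⟩ := by rw [sub_neg_eq_add]
      rw [e] at h1
      have h3 : (T + y) ^ (-x) ≤ 2 * T := by
        calc (T + y) ^ (-x) ≤ (T + y) ^ (1:ℝ) :=
              Real.rpow_le_rpow_of_exponent_le (by linarith) (by linarith)
          _ = T + y := Real.rpow_one _
          _ ≤ 2 * T := by linarith
      have h4 : ‖riemannZeta ⟨1 / 2 + x, T + y⟩‖ ≤ K * (2 * T) * (24 * T) := by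
        refine h1.trans ?_
        exact mul_le_mul (mul_le_mul_of_nonneg_left h3 (by linarith)) h2 (norm_nonneg _)
          (by positivity)
      calc ‖F T (x + y * Complex.I)‖ ≤ 2 * (K * (2 * T) * (24 * T)) := by linarith
        _ = 96 * K * T ^ 2 := by ring
        _ ≤ T * T ^ 2 := mul_le_mul_of_nonneg_right (by linarith) (by positivity)
        _ = T ^ 3 := by ring

end Pool.Agent.TH804.MS
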