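import Mathlib
import Pool.Agent.TH804.DL3
import Pool.Agent.TH804.MS1

/-!
Large values of zeta on the critical line.
-/

set_option autoImplicit false

open Complex Filter Topology Set
open W587.PL Pool.Agent.TH804.DL

set_option maxHeartbeats 4000000

namespace Pool.Agent.TH804.MS

/-- `|ζ(1/2 + it)|` -/
noncomputable def Z (t : ℝ) : ℝ := ‖riemannZeta (1 / 2 + t * Complex.I)‖

lemma order_z1 {s : ℂ} (hs : s ≠ 1) : analyticOrderAt riemannZeta₁ s = analyticOrderAt riemannZeta s := by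
  have h1 : riemannZeta₁ =ᶠ[𝓝 s] (fun s => s - 1) * riemannZeta := by
    filter_upwards [isOpen_ne.mem_nhds hs] with z hz
    exact z1_ne hz
  have hd : DifferentiableOn ℂ riemannZeta {z : ℂ | z ≠ 1} := fun z hz =>
    (differentiableAt_riemannZeta hz).differentiableWithinAt
  have h2 : AnalyticAt ℂ riemannZeta s := hd.analyticAt (isOpen_ne.mem_nhds hs)
  have h3 : AnalyticAt ℂ (fun s : ℂ => s - 1) s := by fun_prop
  have h4 : analyticOrderAt (fun s : ℂ => s - 1) s = 0 :=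
    h3.analyticOrderAt_eq_zero.2 (sub_ne_zero.2 hs)
  rw [analyticOrderAt_congr h1, analyticOrderAt_mul h3 h2, h4, zero_add]

lemma order_F {T : ℝ} (hT : 0 < T) {z : ℂ} (hz : 1 / 2 + T * Complex.I + z ≠ 1) :
    analyticOrderNatAt (F T) z = analyticOrderNatAt riemannZeta (1 / 2 + T * Complex.I + z) := by
  have hTc : (T : ℂ) ≠ 0 := by exact_mod_cast hT.ne'
  have h1 : F T = (riemannZeta₁ ∘ fun z : ℂ => 1 / 2 + T * Complex.I + z) * fun _ => (T : ℂ)⁻¹ := by
    funext z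
    simp only [F, Pi.mul_apply, Function.comp, div_eq_mul_inv]
  have h2 : AnalyticAt ℂ (fun z : ℂ => (1 / 2 + T * Complex.I + z : ℂ)) z := by fun_prop
  have h3 : deriv (fun z : ℂ => (1 / 2 + T * Complex.I + z : ℂ)) z ≠ 0 := by
    rw [deriv_const_add, deriv_id'']
    exact one_ne_zero
  have h4 : AnalyticAt ℂ (fun _ : ℂ => (T : ℂ)⁻¹) z := analyticAt_const
  have h5 : analyticOrderAt (fun _ : ℂ => (T : ℂ)⁻¹) z = 0 :=
    h4.analyticOrderAt_eq_zero.2 (inv_ne_zero hTc)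
  have h6 : AnalyticAt ℂ (riemannZeta₁ ∘ fun z : ℂ => (1 / 2 + T * Complex.I + z : ℂ)) z :=
    (differentiable_riemannZeta₁.comp (by fun_prop)).analyticAt z
  unfold analyticOrderNatAt
  rw [h1, analyticOrderAt_mul h6 h4, h5, add_zero, analyticOrderAt_comp_of_deriv_ne_zero h2 h3,
    order_z1 hz]

theorem large_zeta {ε : ℝ} (hε : 0 < ε) (hε1 : ε ≤ 1) : ∃ W T₁ : ℝ, 0 ≤ W ∧ 8 ≤ T₁ ∧
    ∀ T : ℝ, T₁ ≤ T → 1 ≤ Z T →
      0 < (1 + ε) * Real.log T - 4 * Real.log (Z T) ∧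
      ∃ T₀ : ℝ, |T₀ - T| ≤ W ∧ Z T ≤ 2 * Z T₀ ∧
        (∀ t : ℝ, |t - T₀| ≤ Real.pi / ((1 + ε) * Real.log T - 4 * Real.log (Z T)) →
          T ^ (-ε) * Z T ≤ Z t) ∧
        (∀ R : ℝ, 0 < R → R ≤ 1 / 2 → ∀ S : Finset ℂ,
          (∀ s ∈ S, ‖s - (1 / 2 + T₀ * Complex.I)‖ ≤ R) →
          ∑ s ∈ S, (analyticOrderNatAt riemannZeta s : ℝ) *
              Real.log (R / ‖s - (1 / 2 + T₀ * Complex.I)‖) ≤
            R / Real.pi * ((1 + ε) * Real.log T - 4 * Real.log (Z T))) ∧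
        ∀ η R : ℝ, 0 < η → η ≤ 1 → 0 < R → R ≤ ε * η / 32 → ∀ S : Finset ℂ,
          (∀ s ∈ S, ‖s - (1 / 2 + T₀ * Complex.I)‖ ≤ R) →
          (∀ s ∈ S, ‖riemannZeta s‖ ≤ T ^ (-ε) * Z T) →
          (∀ s ∈ S, ∀ s' ∈ S, s ≠ s' → η / Real.log T ≤ |s.im - s'.im|) →
          ∑ s ∈ S, Real.log (R / ‖s - (1 / 2 + T₀ * Complex.I)‖) ≤
            R / Real.pi * ((1 + ε) * Real.log T - 4 * Real.log (Z T)) + 1 := by
  classical
  have hpi := Real.pi_pos
  obtain ⟨a, δ, W, Λ₀, ha, ha', hδ, hW, hΛ₀, hlg⟩ :=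
    large_local (ε := ε / 2) (B := 3) (by linarith) (by linarith) (by norm_num)
  obtain ⟨a₂, δ₂, W₂, ha₂, ha₂', hδ₂, hW₂, hcv⟩ :=
    convex_local (ε := ε / 8) (B := 3) (by linarith) (by linarith) (by norm_num)
  obtain ⟨T₂, hT₂8, hT₂⟩ := loc ha ha' hδ (by linarith : (0:ℝ) < W)
  obtain ⟨T₃, hT₃8, hT₃⟩ := loc ha₂ ha₂' hδ₂ hW₂
  refine ⟨W, T₂ + T₃ + Real.exp Λ₀ + Real.exp (16 / ε) + 2 * W, by linarith, ?_, fun T hT hV => ?_⟩
  · have := Real.exp_pos Λ₀
    have := Real.exp_pos (16 / ε)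
    linarith
  have he1 := Real.exp_pos Λ₀
  have he2 := Real.exp_pos (16 / ε)
  have hT8 : 8 ≤ T := by linarith
  have hT0 : 0 < T := by linarith
  have hTW : W ≤ T / 2 := by linarith
  set Λ : ℝ := Real.log T with hΛd
  have hΛ1 : Λ₀ ≤ Λ := by
    rw [hΛd, Real.le_log_iff_exp_le hT0]; linarith
  have hΛ2 : 16 / ε ≤ Λ := by
    rw [hΛd, Real.le_log_iff_exp_le hT0]; linarith
  have hΛp : 0 < Λ := by linarith
  have hεΛ : 16 ≤ ε * Λ := by
    rw [div_le_iff₀ hε] at hΛ2; linarith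
  have hL := hT₂ T (by linarith)
  have hL2 := hT₃ T (by linarith)
  have hZ0 : 0 < Z T := by linarith
  have hZF : Z T ≤ ‖F T 0‖ := le_F0 hT8
  have hF1 : 1 ≤ ‖F T 0‖ := hV.trans hZF
  have hlZF : Real.log (Z T) ≤ Real.log ‖F T 0‖ := Real.log_le_log hZ0 hZF
  have hcx := hcv _ _ _ hΛp.le hL2
  have hlF : Real.log ‖F T 0‖ ≤ ε / 8 * Λ + Λ / 4 :=
    (Real.log_le_iff_le_exp (by linarith)).2 hcx
  have hmax : max (Λ - 4 * Real.log ‖F T 0‖) 0 + ε / 2 * Λ ≤ (1 + ε) * Λ - 4 * Real.log (Z T) := by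
    rcases max_cases (Λ - 4 * Real.log ‖F T 0‖) 0 with ⟨h, _⟩ | ⟨h, _⟩ <;> rw [h]
    · linarith
    · linarith
  have hmx : 0 ≤ max (Λ - 4 * Real.log ‖F T 0‖) 0 := le_max_right _ _
  have hD0 : 0 < (1 + ε) * Λ - 4 * Real.log (Z T) := by linarith
  have hexp2 : 2 * Real.exp (-(ε * Λ)) ≤ Real.exp (-(ε / 2 * Λ)) := by
    have h1 : Real.exp (-(ε / 2 * Λ)) = Real.exp (-(ε * Λ)) * Real.exp (ε / 2 * Λ) := by
      rw [← Real.exp_add]; congr 1; ring
    rw [h1]
    have h2 : 2 ≤ Real.exp (ε / 2 * Λ) := by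
      have := Real.add_one_le_exp (ε / 2 * Λ)
      linarith
    nlinarith [Real.exp_pos (-(ε * Λ))]
  have hTε : T ^ (-ε) = Real.exp (-(ε * Λ)) := by
    rw [rpow_exp hT0]; congr 1; ring
  refine ⟨hD0, ?_⟩
  obtain ⟨y₀, hy₀, hy₁, hpl, hzer, hden⟩ := hlg (F T) Λ Λ hΛ1 hL hF1
  have hy₀W : |y₀| ≤ W := by linarith
  have hcomp : ∀ y : ℝ, |y| ≤ T / 2 → ‖F T (y * I)‖ ≤ 2 * Z (T + y) := by
    intro y hy
    have h1 := F_le hT8 (z := (y : ℂ) * I) (by simp) (by simpa using hy)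
    have e : (1 / 2 + T * Complex.I + (y : ℂ) * I : ℂ) = 1 / 2 + ((T + y : ℝ) : ℂ) * Complex.I := by
      push_cast; ring
    rw [e] at h1
    exact h1
  have hcen : ∀ s : ℂ, s - (1 / 2 + ((T + y₀ : ℝ) : ℂ) * Complex.I) =
      (s - (1 / 2 + T * Complex.I)) - y₀ * I := by
    intro s; push_cast; ring
  refine ⟨T + y₀, by rw [add_sub_cancel_left]; exact hy₀W, ?_, fun t ht => ?_, ?_, ?_⟩
  · exact hZF.trans (hy₁.trans (hcomp y₀ (by linarith)))
  · rw [le_div_iff₀ hD0] at ht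
    set b : ℝ := t - (T + y₀) with hb
    have h1 := hpl b ((mul_le_mul_of_nonneg_left hmax (abs_nonneg _)).trans ht)
    have hb1 : |b| ≤ 1 := by
      by_contra hcon
      push Not at hcon
      have h2 : 8 ≤ (1 + ε) * Λ - 4 * Real.log (Z T) := by linarith
      have h3 : 1 * 8 ≤ |b| * ((1 + ε) * Λ - 4 * Real.log (Z T)) :=
        mul_le_mul hcon.le h2 (by norm_num) (abs_nonneg b)
      have := Real.pi_lt_four
      linarith
    have h2 := hcomp (y₀ + b) (by
      have := abs_add_le y₀ b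
      linarith)
    have e : T + (y₀ + b) = t := by rw [hb]; ring
    rw [e] at h2
    rw [hTε]
    have h3 : Real.exp (-(ε / 2 * Λ)) * Z T ≤ 2 * Z t :=
      (mul_le_mul_of_nonneg_left hZF (Real.exp_pos _).le).trans (h1.trans h2)
    nlinarith
  · intro R hR hR2 S hS
    have h1 := hzer R hR hR2 (S.image (fun s => s - (1 / 2 + T * Complex.I))) (by
        intro z hz
        obtain ⟨s, hs, rfl⟩ := Finset.mem_image.1 hz
        have := hS s hs
        rwa [hcen] at this)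
    rw [Finset.sum_image (fun z _ w _ h => sub_left_injective h)] at h1
    have h2 : ∑ s ∈ S, (analyticOrderNatAt riemannZeta s : ℝ) *
          Real.log (R / ‖s - (1 / 2 + ((T + y₀ : ℝ) : ℂ) * Complex.I)‖) =
        ∑ s ∈ S, (analyticOrderNatAt (F T) (s - (1 / 2 + T * Complex.I)) : ℝ) *
          Real.log (R / ‖s - (1 / 2 + T * Complex.I) - y₀ * I‖) := by
      refine Finset.sum_congr rfl fun s hs => ?_
      have e5 : (1 / 2 + T * Complex.I + (s - (1 / 2 + T * Complex.I)) : ℂ) = s := by ring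
      have h3 : s ≠ 1 := by
        rintro rfl
        have h4 := hS 1 hs
        rw [hcen] at h4
        have h5 := (Complex.abs_im_le_norm _).trans h4
        have e6 : ((1 : ℂ) - (1 / 2 + (T : ℂ) * Complex.I) - y₀ * I).im = -(T + y₀) := by
          simp; ring
        rw [e6, abs_neg] at h5
        have h6 := (abs_le.1 h5).2
        have h7 := (abs_le.1 hy₀W).1
        linarith
      rw [order_F hT0 (by rw [e5]; exact h3), e5, hcen]
    rw [h2]
    exact h1.trans (mul_le_mul_of_nonneg_left hmax (by positivity))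
  · intro η R hη hη1 hR hRle S hS hSz hsep
    have hcond : 6 * R / (η / Λ) + (3 + 1) * Λ * R + 2 ≤ ε / 2 * Λ := by
      have h1 : 6 * R / (η / Λ) = 6 * (R / η) * Λ := by field_simp
      have h2 : R / η ≤ ε / 32 := by rw [div_le_iff₀ hη]; linarith
      have h3 : R ≤ ε / 32 := by nlinarith
      rw [h1]
      have h4 : 6 * (R / η) * Λ ≤ 6 * (ε / 32) * Λ := by
        apply mul_le_mul_of_nonneg_right _ hΛp.le
        linarith
      have h5 : (3 + 1) * Λ * R ≤ (3 + 1) * Λ * (ε / 32) := mul_le_mul_of_nonneg_left h3 (by positivity)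
      linarith
    have hR2 : R ≤ 1 / 2 := by nlinarith
    have h1 := hden R (η / Λ) hR hR2 (by positivity) hcond
      (S.image (fun s => s - (1 / 2 + T * Complex.I))) (by
        intro z hz
        obtain ⟨s, hs, rfl⟩ := Finset.mem_image.1 hz
        have := hS s hs
        rwa [hcen] at this) (by
        intro z hz
        obtain ⟨s, hs, rfl⟩ := Finset.mem_image.1 hz
        have h2 := hS s hs
        rw [hcen] at h2
        set z : ℂ := s - (1 / 2 + T * Complex.I) with hzd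
        have h3 := (Complex.abs_re_le_norm (z - y₀ * I)).trans h2
        have h4 := (Complex.abs_im_le_norm (z - y₀ * I)).trans h2
        have e3 : (z - (y₀ : ℂ) * I).re = z.re := by simp
        have e4 : (z - (y₀ : ℂ) * I).im = z.im - y₀ := by simp
        rw [e3] at h3
        rw [e4] at h4
        have h5 : |z.im| ≤ T / 2 := by
          have := abs_add_le (z.im - y₀) y₀
          rw [sub_add_cancel] at this
          linarith
        have h6 := F_le hT8 (z := z) (by linarith) h5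
        have e5 : (1 / 2 + T * Complex.I + z : ℂ) = s := by rw [hzd]; ring
        rw [e5] at h6
        have h7 := hSz s hs
        rw [hTε] at h7
        calc ‖F T z‖ ≤ 2 * (Real.exp (-(ε * Λ)) * Z T) := by linarith
          _ = (2 * Real.exp (-(ε * Λ))) * Z T := by ring
          _ ≤ Real.exp (-(ε / 2 * Λ)) * ‖F T 0‖ :=
              mul_le_mul hexp2 hZF hZ0.le (Real.exp_pos _).le) (by
        intro z hz w hw hne
        obtain ⟨s, hs, rfl⟩ := Finset.mem_image.1 hz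
        obtain ⟨s', hs', rfl⟩ := Finset.mem_image.1 hw
        have h2 := hsep s hs s' hs' (fun h => hne (by rw [h]))
        have e : (s - (1 / 2 + (T : ℂ) * Complex.I)).im - (s' - (1 / 2 + (T : ℂ) * Complex.I)).im =
            s.im - s'.im := by simp
        rw [e]
        exact h2)
    rw [Finset.sum_image (fun z _ w _ h => sub_left_injective h)] at h1
    have h2 : ∑ s ∈ S, Real.log (R / ‖s - (1 / 2 + ((T + y₀ : ℝ) : ℂ) * Complex.I)‖) =
        ∑ s ∈ S, Real.log (R / ‖s - (1 / 2 + T * Complex.I) - y₀ * I‖) :=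
      Finset.sum_congr rfl fun s _ => by rw [hcen]
    rw [h2]
    refine h1.trans ?_
    have h3 := mul_le_mul_of_nonneg_left hmax (by positivity : 0 ≤ R / Real.pi)
    linarith

end Pool.Agent.TH804.MS
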