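import Mathlib

/-!
Combinatorial part: putting together the sets of adjacent windows.
-/

set_option autoImplicit false

open Finset

set_option maxHeartbeats 4000000

namespace Pool.Agent.TH804.MS

/-- an upper bound for the factorial -/
lemma log_factorial_le (n : ℕ) (hn : 1 ≤ n) :
    Real.log (n.factorial : ℝ) ≤ (n + 1) * Real.log n - n + 1 := by
  induction n, hn using Nat.le_induction with
  | base => simp
  | succ n hn ih =>
    have hn0 : (0:ℝ) < n := by exact_mod_cast hn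
    have hf : (0:ℝ) < n.factorial := by exact_mod_cast n.factorial_pos
    rw [Nat.factorial_succ]
    push_cast
    rw [Real.log_mul (by positivity) hf.ne']
    have h1 := Real.one_sub_inv_le_log_of_pos (show 0 < ((n:ℝ) + 1) / n by positivity)
    rw [Real.log_div (by positivity) hn0.ne', inv_div] at h1
    have h2 : 1 - (n:ℝ) / (n + 1) = 1 / (n + 1) := by field_simp; ring
    rw [h2, div_le_iff₀ (by positivity)] at h1
    linarith

/-- `∑ log (n / j)` over `2 ≤ j ≤ n` -/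
noncomputable def LL (n : ℕ) : ℝ := ∑ k ∈ range (n - 1), Real.log ((n : ℝ) / (k + 2))

lemma LL_eq (N : ℕ) :
    LL (N + 1) = N * Real.log ((N + 1 : ℕ) : ℝ) - Real.log ((N + 1).factorial : ℝ) := by
  unfold LL
  rw [Nat.add_sub_cancel]
  have hterm : ∀ k ∈ range N, Real.log (((N + 1 : ℕ) : ℝ) / ((k : ℝ) + 2)) =
      Real.log ((N + 1 : ℕ) : ℝ) - Real.log ((k : ℝ) + 2) := by
    intro k _
    rw [Real.log_div (by positivity) (by positivity)]
  rw [sum_congr rfl hterm, sum_sub_distrib, sum_const, card_range, nsmul_eq_mul]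
  congr 1
  have h2 : ∀ M : ℕ, ∑ k ∈ range M, Real.log ((k : ℝ) + 2) = Real.log ((M + 1).factorial : ℝ) := by
    intro M
    induction M with
    | zero => simp
    | succ M ih =>
      rw [sum_range_succ, ih, Nat.factorial_succ (M + 1)]
      have hf : (0:ℝ) < (M + 1).factorial := by exact_mod_cast (M + 1).factorial_pos
      push_cast
      rw [Real.log_mul (by positivity) hf.ne', add_comm]
      congr 2
      ring
  exact h2 N

lemma LL_ge {n : ℕ} (hn : 1 ≤ n) : (n : ℝ) - 1 - 2 * Real.log n ≤ LL n := by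
  obtain ⟨N, rfl⟩ : ∃ N, n = N + 1 := ⟨n - 1, by omega⟩
  have h2 := log_factorial_le (N + 1) (by omega)
  rw [LL_eq]
  push_cast at h2 ⊢
  linarith

lemma LL_le {n : ℕ} (hn : 1 ≤ n) : LL n ≤ n := by
  obtain ⟨N, rfl⟩ : ∃ N, n = N + 1 := ⟨n - 1, by omega⟩
  rw [LL_eq]
  have h1 := Real.pow_div_factorial_le_exp ((N + 1 : ℕ) : ℝ) (by positivity) (N + 1)
  have hf : (0:ℝ) < (N + 1).factorial := by exact_mod_cast (N + 1).factorial_pos
  have h2 := Real.log_le_log (by positivity) h1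
  rw [Real.log_exp, Real.log_div (by positivity) hf.ne', Real.log_pow] at h2
  have h3 : 0 ≤ Real.log ((N + 1 : ℕ) : ℝ) := Real.log_natCast_nonneg _
  push_cast at h2 h3 ⊢
  linarith

lemma LL_nonneg (n : ℕ) : 0 ≤ LL n := by
  unfold LL
  apply sum_nonneg
  intro k hk
  rw [mem_range] at hk
  apply Real.log_nonneg
  rw [le_div_iff₀ (by positivity), one_mul]
  have : k + 2 ≤ n := by omega
  exact_mod_cast this

/-- `LL n ≥ (1 - ν) n` for a suitable `n` -/
lemma exists_LL {ν : ℝ} (hν : 0 < ν) : ∃ n : ℕ, 2 ≤ n ∧ (1 - ν) * n ≤ LL n := by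
  have h1 : (fun x : ℝ => Real.log x) =o[Filter.atTop] fun x : ℝ => x := Real.isLittleO_log_id_atTop
  have h2 := (h1.bound (c := ν / 4) (by positivity)).and (Filter.eventually_ge_atTop (2 / ν + 2))
  obtain ⟨X, hX⟩ := Filter.eventually_atTop.1 h2
  obtain ⟨n, hn⟩ := exists_nat_ge (max X 2)
  have hn2 : (2:ℝ) ≤ n := (le_max_right _ _).trans hn
  obtain ⟨h3, h4⟩ := hX n ((le_max_left _ _).trans hn)
  have h5 : 2 ≤ n := by exact_mod_cast hn2
  refine ⟨n, h5, le_trans ?_ (LL_ge (by omega))⟩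
  rw [Real.norm_eq_abs, Real.norm_eq_abs, abs_of_nonneg (Real.log_nonneg (by linarith)),
    abs_of_nonneg (by linarith)] at h3
  have h6 : 1 ≤ ν / 2 * n := by
    have h7 : 2 / ν ≤ n := by linarith
    rw [div_le_iff₀ hν] at h7
    linarith
  linarith

/-- an interval shorter than the separation contains at most one point -/
lemma card_le_one_of_sep {S : Finset ℂ} {d x : ℝ} (hd : 0 < d)
    (h1 : ∀ s ∈ S, x ≤ s.im ∧ s.im ≤ x + d)
    (hsep : ∀ s ∈ S, ∀ s' ∈ S, s ≠ s' → 2 * d ≤ |s.im - s'.im|) : S.card ≤ 1 := by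
  rw [card_le_one]
  intro a ha b hb
  by_contra hne
  have h2 := hsep a ha b hb hne
  have h3 := h1 a ha
  have h4 := h1 b hb
  have h5 : |a.im - b.im| ≤ d := by rw [abs_le]; constructor <;> linarith
  linarith

/-- one window -/
lemma window {n j : ℕ} (hj : j + 2 ≤ n) {r d c T₀ u : ℝ} (hr : 0 < r) (hd : 0 < d) {A : Finset ℂ}
    (hu : u = T₀ + j * r ∨ u = T₀ - (j + 1) * r)
    (hA : ∀ s ∈ A, |s.re - 1 / 2| ≤ r ∧ u ≤ s.im ∧ s.im ≤ u + r)
    (hsep : ∀ s ∈ A, ∀ s' ∈ A, s ≠ s' → 2 * d ≤ |s.im - s'.im|) (hc : c ≤ A.card) :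
    (∀ s ∈ A.filter (fun s => u + d ≤ s.im ∧ s.im ≤ u + r - d),
      0 < ‖s - (1 / 2 + T₀ * Complex.I)‖ ∧ ‖s - (1 / 2 + T₀ * Complex.I)‖ ≤ (j + 2) * r) ∧
    (c - 2) * Real.log ((n : ℝ) / (j + 2)) ≤
      ∑ s ∈ A.filter (fun s => u + d ≤ s.im ∧ s.im ≤ u + r - d),
        Real.log (n * r / ‖s - (1 / 2 + T₀ * Complex.I)‖) := by
  classical
  set A' : Finset ℂ := A.filter (fun s => u + d ≤ s.im ∧ s.im ≤ u + r - d) with hA'
  have hpos : ∀ s ∈ A', 0 < ‖s - (1 / 2 + T₀ * Complex.I)‖ ∧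
      ‖s - (1 / 2 + T₀ * Complex.I)‖ ≤ (j + 2) * r := by
    intro s hs
    rw [hA', mem_filter] at hs
    obtain ⟨h1, h2, h3⟩ := hs
    obtain ⟨h4, h5, h6⟩ := hA s h1
    have e1 : (s - (1 / 2 + (T₀ : ℂ) * Complex.I)).im = s.im - T₀ := by simp
    have e2 : (s - (1 / 2 + (T₀ : ℂ) * Complex.I)).re = s.re - 1 / 2 := by simp
    have hj0 : (0:ℝ) ≤ j := Nat.cast_nonneg j
    have hjr : 0 ≤ (j:ℝ) * r := by positivity
    constructor
    · have h7 := Complex.abs_im_le_norm (s - (1 / 2 + (T₀ : ℂ) * Complex.I))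
      rw [e1] at h7
      refine lt_of_lt_of_le ?_ h7
      rw [abs_pos]
      rcases hu with hu | hu
      · have : 0 < s.im - T₀ := by linarith
        exact this.ne'
      · have : s.im - T₀ < 0 := by linarith
        exact this.ne
    · refine (Complex.norm_le_abs_re_add_abs_im _).trans ?_
      rw [e1, e2]
      have h8 : |s.im - T₀| ≤ (j + 1) * r := by
        rw [abs_le]
        rcases hu with hu | hu
        · constructor <;> linarith
        · constructor <;> linarith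
      linarith
  refine ⟨hpos, ?_⟩
  -- cardinalities
  have hcard : (A.card : ℝ) ≤ A'.card + 2 := by
    have h1 : A ⊆ A' ∪ (A.filter (fun s => s.im ≤ u + d) ∪ A.filter (fun s => u + r - d ≤ s.im)) := by
      intro s hs
      rw [mem_union, mem_union, hA', mem_filter, mem_filter, mem_filter]
      rcases le_total (u + d) s.im with h2 | h2
      · rcases le_total s.im (u + r - d) with h3 | h3
        · exact Or.inl ⟨hs, h2, h3⟩
        · exact Or.inr (Or.inr ⟨hs, h3⟩)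
      · exact Or.inr (Or.inl ⟨hs, h2⟩)
    have h2 := (card_le_card h1).trans (card_union_le _ _)
    have h3 := card_union_le (A.filter (fun s => s.im ≤ u + d)) (A.filter (fun s => u + r - d ≤ s.im))
    have h4 : (A.filter (fun s => s.im ≤ u + d)).card ≤ 1 := by
      apply card_le_one_of_sep hd (x := u)
      · intro s hs
        rw [mem_filter] at hs
        exact ⟨(hA s hs.1).2.1, hs.2⟩
      · intro s hs s' hs' hne
        rw [mem_filter] at hs hs'
        exact hsep s hs.1 s' hs'.1 hne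
    have h5 : (A.filter (fun s => u + r - d ≤ s.im)).card ≤ 1 := by
      apply card_le_one_of_sep hd (x := u + r - d)
      · intro s hs
        rw [mem_filter] at hs
        exact ⟨hs.2, by linarith [(hA s hs.1).2.2]⟩
      · intro s hs s' hs' hne
        rw [mem_filter] at hs hs'
        exact hsep s hs.1 s' hs'.1 hne
    have h6 : A.card ≤ A'.card + 2 := by omega
    exact_mod_cast h6
  have hj0 : (0:ℝ) ≤ j := Nat.cast_nonneg j
  have hjn : (j:ℝ) + 2 ≤ n := by exact_mod_cast hj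
  have hlog0 : 0 ≤ Real.log ((n : ℝ) / (j + 2)) := by
    apply Real.log_nonneg
    rw [le_div_iff₀ (by positivity)]
    linarith
  calc (c - 2) * Real.log ((n : ℝ) / (j + 2)) ≤ A'.card * Real.log ((n : ℝ) / (j + 2)) :=
        mul_le_mul_of_nonneg_right (by linarith) hlog0
    _ = ∑ _s ∈ A', Real.log ((n : ℝ) / (j + 2)) := by rw [sum_const, nsmul_eq_mul]
    _ ≤ _ := by
        apply sum_le_sum
        intro s hs
        obtain ⟨h1, h2⟩ := hpos s hs
        apply Real.log_le_log (by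
          have : 0 < (j:ℝ) + 2 := by positivity
          have : 0 < (n:ℝ) := by linarith
          positivity)
        rw [div_le_div_iff₀ (by positivity) h1]
        have hn0 : (0:ℝ) ≤ n := Nat.cast_nonneg n
        calc (n:ℝ) * ‖s - (1 / 2 + T₀ * Complex.I)‖ ≤ n * ((j + 2) * r) :=
              mul_le_mul_of_nonneg_left h2 hn0
          _ = n * r * (j + 2) := by ring

/-- **putting the windows together** -/
lemma assemble {n : ℕ} {r d c T₀ : ℝ} (hr : 0 < r) (hd : 0 < d) (Q : ℂ → Prop)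
    (h : ∀ k : ℤ, -(n : ℤ) ≤ k → k ≤ n → ∃ A : Finset ℂ,
      (∀ s ∈ A, |s.re - 1 / 2| ≤ r ∧ T₀ + k * r ≤ s.im ∧ s.im ≤ T₀ + k * r + r ∧ Q s) ∧
      (∀ s ∈ A, ∀ s' ∈ A, s ≠ s' → 2 * d ≤ |s.im - s'.im|) ∧ c ≤ A.card) :
    ∃ S : Finset ℂ, (∀ s ∈ S, Q s ∧ ‖s - (1 / 2 + T₀ * Complex.I)‖ ≤ n * r) ∧
      (∀ s ∈ S, ∀ s' ∈ S, s ≠ s' → 2 * d ≤ |s.im - s'.im|) ∧
      2 * (c - 2) * LL n ≤ ∑ s ∈ S, Real.log (n * r / ‖s - (1 / 2 + T₀ * Complex.I)‖) := by
  classical
  choose! A hA using h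
  set A' : ℤ → Finset ℂ := fun k =>
    (A k).filter (fun s => T₀ + k * r + d ≤ s.im ∧ s.im ≤ T₀ + k * r + r - d) with hA'
  set I1 : Finset ℤ := (range (n - 1)).image (fun k : ℕ => (k : ℤ)) with hI1
  set I2 : Finset ℤ := (range (n - 1)).image (fun k : ℕ => -(k : ℤ) - 1) with hI2
  have hI : ∀ k ∈ I1 ∪ I2, -(n : ℤ) ≤ k ∧ k ≤ n := by
    intro k hk
    rw [mem_union, hI1, hI2, mem_image, mem_image] at hk
    rcases hk with ⟨j, hj, rfl⟩ | ⟨j, hj, rfl⟩ <;> rw [mem_range] at hj <;> constructor <;> omega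
  have hdisj12 : Disjoint I1 I2 := by
    rw [disjoint_left]
    intro k h1 h2
    rw [hI1, mem_image] at h1
    rw [hI2, mem_image] at h2
    obtain ⟨j, -, hj⟩ := h1
    obtain ⟨l, -, hl⟩ := h2
    omega
  have hmem : ∀ k ∈ I1 ∪ I2, ∀ s ∈ A' k, T₀ + k * r + d ≤ s.im ∧ s.im ≤ T₀ + k * r + r - d ∧ s ∈ A k := by
    intro k _ s hs
    simp only [hA', mem_filter] at hs
    exact ⟨hs.2.1, hs.2.2, hs.1⟩
  have hcross : ∀ k ∈ I1 ∪ I2, ∀ l ∈ I1 ∪ I2, k < l → ∀ s ∈ A' k, ∀ s' ∈ A' l, 2 * d ≤ s'.im - s.im := by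
    intro k hk l hl hkl s hs s' hs'
    obtain ⟨_, h2, _⟩ := hmem k hk s hs
    obtain ⟨h3, _, _⟩ := hmem l hl s' hs'
    have h4 : (k : ℝ) + 1 ≤ l := by exact_mod_cast hkl
    have h5 : ((k : ℝ) + 1) * r ≤ l * r := mul_le_mul_of_nonneg_right h4 hr.le
    linarith
  refine ⟨(I1 ∪ I2).biUnion A', ?_, ?_, ?_⟩
  · intro s hs
    rw [mem_biUnion] at hs
    obtain ⟨k, hk, hsk⟩ := hs
    obtain ⟨_, _, h3⟩ := hmem k hk s hsk
    obtain ⟨hb1, hb2⟩ := hI k hk
    obtain ⟨hA1, hA2, hA3⟩ := hA k hb1 hb2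
    refine ⟨(hA1 s h3).2.2.2, ?_⟩
    rw [mem_union, hI1, hI2, mem_image, mem_image] at hk
    have key : ∃ j : ℕ, j + 2 ≤ n ∧
        (T₀ + (k : ℝ) * r = T₀ + j * r ∨ T₀ + (k : ℝ) * r = T₀ - (j + 1) * r) := by
      rcases hk with ⟨j, hj, rfl⟩ | ⟨j, hj, rfl⟩
      · rw [mem_range] at hj
        exact ⟨j, by omega, Or.inl (by push_cast; ring)⟩
      · rw [mem_range] at hj
        exact ⟨j, by omega, Or.inr (by push_cast; ring)⟩
    obtain ⟨j, hj, hu⟩ := key
    obtain ⟨hw1, _⟩ := window hj hr hd hu (fun s hs => ⟨(hA1 s hs).1, (hA1 s hs).2.1, (hA1 s hs).2.2.1⟩)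
      hA2 hA3
    refine (hw1 s hsk).2.trans ?_
    apply mul_le_mul_of_nonneg_right _ hr.le
    exact_mod_cast hj
  · intro s hs s' hs' hne
    rw [mem_biUnion] at hs hs'
    obtain ⟨k, hk, hsk⟩ := hs
    obtain ⟨l, hl, hsl⟩ := hs'
    rcases lt_trichotomy k l with hkl | hkl | hkl
    · have := hcross k hk l hl hkl s hsk s' hsl
      rw [abs_sub_comm]
      exact this.trans (le_abs_self _)
    · subst hkl
      obtain ⟨hb1, hb2⟩ := hI k hk
      exact (hA k hb1 hb2).2.1 s (hmem k hk s hsk).2.2 s' (hmem k hk s' hsl).2.2 hne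
    · have := hcross l hl k hk hkl s' hsl s hsk
      exact this.trans (le_abs_self _)
  · rw [sum_biUnion]
    · rw [sum_union hdisj12]
      have hone : ∀ (j : ℕ), j ∈ range (n - 1) → ∀ k ∈ I1 ∪ I2,
          (T₀ + (k : ℝ) * r = T₀ + j * r ∨ T₀ + (k : ℝ) * r = T₀ - (j + 1) * r) →
          (c - 2) * Real.log ((n : ℝ) / (j + 2)) ≤
            ∑ s ∈ A' k, Real.log (n * r / ‖s - (1 / 2 + T₀ * Complex.I)‖) := by
        intro j hj k hk hu
        rw [mem_range] at hj
        obtain ⟨hb1, hb2⟩ := hI k hk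
        obtain ⟨hA1, hA2, hA3⟩ := hA k hb1 hb2
        exact (window (by omega) hr hd hu
          (fun s hs => ⟨(hA1 s hs).1, (hA1 s hs).2.1, (hA1 s hs).2.2.1⟩) hA2 hA3).2
      have h1 : (c - 2) * LL n ≤
          ∑ k ∈ I1, ∑ s ∈ A' k, Real.log (n * r / ‖s - (1 / 2 + T₀ * Complex.I)‖) := by
        rw [hI1, sum_image (fun a _ b _ hab => by exact_mod_cast hab)]
        unfold LL
        rw [mul_sum]
        apply sum_le_sum
        intro j hj
        exact hone j hj j (mem_union_left _ (by rw [hI1]; exact mem_image_of_mem _ hj))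
          (Or.inl (by push_cast; ring))
      have h2 : (c - 2) * LL n ≤
          ∑ k ∈ I2, ∑ s ∈ A' k, Real.log (n * r / ‖s - (1 / 2 + T₀ * Complex.I)‖) := by
        rw [hI2, sum_image (fun a _ b _ hab => by
          have : -(a : ℤ) - 1 = -(b : ℤ) - 1 := hab
          omega)]
        unfold LL
        rw [mul_sum]
        apply sum_le_sum
        intro j hj
        exact hone j hj (-(j : ℤ) - 1) (mem_union_right _ (by rw [hI2]; exact mem_image_of_mem _ hj))
          (Or.inr (by push_cast; ring))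
      linarith
    · intro k hk l hl hkl
      rw [Function.onFun, disjoint_left]
      intro s hs hs'
      have hk' : k ∈ I1 ∪ I2 := hk
      have hl' : l ∈ I1 ∪ I2 := hl
      rcases lt_or_gt_of_ne hkl with h3 | h3
      · have := hcross k hk' l hl' h3 s hs s hs'
        linarith
      · have := hcross l hl' k hk' h3 s hs' s hs
        linarith

/-- one window, with weights -/
lemma windowZ {n j : ℕ} (hj : j + 2 ≤ n) {r c T₀ u : ℝ} (hr : 0 < r) {A : Finset ℂ} (w : ℂ → ℝ)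
    (hw : ∀ s, 0 ≤ w s) (hw0 : w (1 / 2 + T₀ * Complex.I) = 0)
    (hu : u = T₀ + j * r ∨ u = T₀ - (j + 1) * r)
    (hA : ∀ s ∈ A, |s.re - 1 / 2| ≤ r ∧ u ≤ s.im ∧ s.im < u + r) (hc : c ≤ ∑ s ∈ A, w s) :
    (∀ s ∈ A, ‖s - (1 / 2 + T₀ * Complex.I)‖ ≤ (j + 2) * r) ∧
    c * Real.log ((n : ℝ) / (j + 2)) ≤
      ∑ s ∈ A, w s * Real.log (n * r / ‖s - (1 / 2 + T₀ * Complex.I)‖) := by
  have hj0 : (0:ℝ) ≤ j := Nat.cast_nonneg j
  have hjr : 0 ≤ (j:ℝ) * r := by positivity
  have hjn : (j:ℝ) + 2 ≤ n := by exact_mod_cast hj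
  have hn0 : (0:ℝ) ≤ n := Nat.cast_nonneg n
  have hlog0 : 0 ≤ Real.log ((n : ℝ) / (j + 2)) := by
    apply Real.log_nonneg
    rw [le_div_iff₀ (by positivity)]
    linarith
  have hle : ∀ s ∈ A, ‖s - (1 / 2 + T₀ * Complex.I)‖ ≤ (j + 2) * r := by
    intro s hs
    obtain ⟨h4, h5, h6⟩ := hA s hs
    have e1 : (s - (1 / 2 + (T₀ : ℂ) * Complex.I)).im = s.im - T₀ := by simp
    have e2 : (s - (1 / 2 + (T₀ : ℂ) * Complex.I)).re = s.re - 1 / 2 := by simp
    refine (Complex.norm_le_abs_re_add_abs_im _).trans ?_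
    rw [e1, e2]
    have h8 : |s.im - T₀| ≤ (j + 1) * r := by
      rw [abs_le]
      rcases hu with hu | hu
      · constructor <;> linarith
      · constructor <;> linarith
    linarith
  refine ⟨hle, ?_⟩
  calc c * Real.log ((n : ℝ) / (j + 2)) ≤ (∑ s ∈ A, w s) * Real.log ((n : ℝ) / (j + 2)) :=
        mul_le_mul_of_nonneg_right hc hlog0
    _ = ∑ s ∈ A, w s * Real.log ((n : ℝ) / (j + 2)) := sum_mul _ _ _
    _ ≤ _ := by
        apply sum_le_sum
        intro s hs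
        rcases eq_or_ne s (1 / 2 + T₀ * Complex.I) with h0 | h0
        · rw [h0, hw0, zero_mul, zero_mul]
        · apply mul_le_mul_of_nonneg_left _ (hw s)
          have h1 : 0 < ‖s - (1 / 2 + T₀ * Complex.I)‖ := norm_pos_iff.2 (sub_ne_zero.2 h0)
          have h2 := hle s hs
          apply Real.log_le_log (by
            have : 0 < (j:ℝ) + 2 := by positivity
            have : 0 < (n:ℝ) := by linarith
            positivity)
          rw [div_le_div_iff₀ (by positivity) h1]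
          calc (n:ℝ) * ‖s - (1 / 2 + T₀ * Complex.I)‖ ≤ n * ((j + 2) * r) :=
                mul_le_mul_of_nonneg_left h2 hn0
            _ = n * r * (j + 2) := by ring

/-- **putting the windows together**, with weights -/
lemma assembleZ {n : ℕ} {r c T₀ : ℝ} (hr : 0 < r) (w : ℂ → ℝ)
    (hw : ∀ s, 0 ≤ w s) (hw0 : w (1 / 2 + T₀ * Complex.I) = 0)
    (h : ∀ k : ℤ, -(n : ℤ) ≤ k → k ≤ n → ∃ A : Finset ℂ,
      (∀ s ∈ A, |s.re - 1 / 2| ≤ r ∧ T₀ + k * r ≤ s.im ∧ s.im < T₀ + k * r + r) ∧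
      c ≤ ∑ s ∈ A, w s) :
    ∃ S : Finset ℂ, (∀ s ∈ S, ‖s - (1 / 2 + T₀ * Complex.I)‖ ≤ n * r) ∧
      2 * c * LL n ≤ ∑ s ∈ S, w s * Real.log (n * r / ‖s - (1 / 2 + T₀ * Complex.I)‖) := by
  classical
  choose! A hA using h
  set I1 : Finset ℤ := (range (n - 1)).image (fun k : ℕ => (k : ℤ)) with hI1
  set I2 : Finset ℤ := (range (n - 1)).image (fun k : ℕ => -(k : ℤ) - 1) with hI2
  have hI : ∀ k ∈ I1 ∪ I2, -(n : ℤ) ≤ k ∧ k ≤ n := by
    intro k hk
    rw [mem_union, hI1, hI2, mem_image, mem_image] at hk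
    rcases hk with ⟨j, hj, rfl⟩ | ⟨j, hj, rfl⟩ <;> rw [mem_range] at hj <;> constructor <;> omega
  have hdisj12 : Disjoint I1 I2 := by
    rw [disjoint_left]
    intro k h1 h2
    rw [hI1, mem_image] at h1
    rw [hI2, mem_image] at h2
    obtain ⟨j, -, hj⟩ := h1
    obtain ⟨l, -, hl⟩ := h2
    omega
  have hcross : ∀ k ∈ I1 ∪ I2, ∀ l ∈ I1 ∪ I2, k < l → ∀ s ∈ A k, s ∉ A l := by
    intro k hk l hl hkl s hs hs'
    obtain ⟨hb1, hb2⟩ := hI k hk
    obtain ⟨hb3, hb4⟩ := hI l hl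
    have h1 := ((hA k hb1 hb2).1 s hs).2.2
    have h2 := ((hA l hb3 hb4).1 s hs').2.1
    have h4 : (k : ℝ) + 1 ≤ l := by exact_mod_cast hkl
    have h5 : ((k : ℝ) + 1) * r ≤ l * r := mul_le_mul_of_nonneg_right h4 hr.le
    linarith
  refine ⟨(I1 ∪ I2).biUnion A, ?_, ?_⟩
  · intro s hs
    rw [mem_biUnion] at hs
    obtain ⟨k, hk, hsk⟩ := hs
    obtain ⟨hb1, hb2⟩ := hI k hk
    obtain ⟨hA1, hA3⟩ := hA k hb1 hb2
    rw [mem_union, hI1, hI2, mem_image, mem_image] at hk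
    have key : ∃ j : ℕ, j + 2 ≤ n ∧
        (T₀ + (k : ℝ) * r = T₀ + j * r ∨ T₀ + (k : ℝ) * r = T₀ - (j + 1) * r) := by
      rcases hk with ⟨j, hj, rfl⟩ | ⟨j, hj, rfl⟩
      · rw [mem_range] at hj
        exact ⟨j, by omega, Or.inl (by push_cast; ring)⟩
      · rw [mem_range] at hj
        exact ⟨j, by omega, Or.inr (by push_cast; ring)⟩
    obtain ⟨j, hj, hu⟩ := key
    refine ((windowZ hj hr w hw hw0 hu hA1 hA3).1 s hsk).trans ?_
    apply mul_le_mul_of_nonneg_right _ hr.le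
    exact_mod_cast hj
  · rw [sum_biUnion]
    · rw [sum_union hdisj12]
      have hone : ∀ (j : ℕ), j ∈ range (n - 1) → ∀ k ∈ I1 ∪ I2,
          (T₀ + (k : ℝ) * r = T₀ + j * r ∨ T₀ + (k : ℝ) * r = T₀ - (j + 1) * r) →
          c * Real.log ((n : ℝ) / (j + 2)) ≤
            ∑ s ∈ A k, w s * Real.log (n * r / ‖s - (1 / 2 + T₀ * Complex.I)‖) := by
        intro j hj k hk hu
        rw [mem_range] at hj
        obtain ⟨hb1, hb2⟩ := hI k hk
        obtain ⟨hA1, hA3⟩ := hA k hb1 hb2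
        exact (windowZ (by omega) hr w hw hw0 hu hA1 hA3).2
      have h1 : c * LL n ≤
          ∑ k ∈ I1, ∑ s ∈ A k, w s * Real.log (n * r / ‖s - (1 / 2 + T₀ * Complex.I)‖) := by
        rw [hI1, sum_image (fun a _ b _ hab => by exact_mod_cast hab)]
        unfold LL
        rw [mul_sum]
        apply sum_le_sum
        intro j hj
        exact hone j hj j (mem_union_left _ (by rw [hI1]; exact mem_image_of_mem _ hj))
          (Or.inl (by push_cast; ring))
      have h2 : c * LL n ≤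
          ∑ k ∈ I2, ∑ s ∈ A k, w s * Real.log (n * r / ‖s - (1 / 2 + T₀ * Complex.I)‖) := by
        rw [hI2, sum_image (fun a _ b _ hab => by
          have : -(a : ℤ) - 1 = -(b : ℤ) - 1 := hab
          omega)]
        unfold LL
        rw [mul_sum]
        apply sum_le_sum
        intro j hj
        exact hone j hj (-(j : ℤ) - 1) (mem_union_right _ (by rw [hI2]; exact mem_image_of_mem _ hj))
          (Or.inr (by push_cast; ring))
      linarith
    · intro k hk l hl hkl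
      rw [Function.onFun, disjoint_left]
      intro s hs hs'
      have hk' : k ∈ I1 ∪ I2 := hk
      have hl' : l ∈ I1 ∪ I2 := hl
      rcases lt_or_gt_of_ne hkl with h3 | h3
      · exact hcross k hk' l hl' h3 s hs hs'
      · exact hcross l hl' k hk' h3 s hs' hs

end Pool.Agent.TH804.MS
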