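import Mathlib
import Pool.Agent.TH804.MS2
import Pool.Agent.TH804.MS3

/-!
The density criterion.
-/

set_option autoImplicit false

open Complex Filter Topology Set

set_option maxHeartbeats 4000000

namespace Pool.Agent.TH804.MS

def Exponent (κ : ℝ) : Prop := ∀ ε : ℝ, 0 < ε → ∃ C : ℝ, ∀ t : ℝ, Z t ≤ C * (1 + |t|) ^ (κ + ε)

def Dense (θ κ : ℝ) : Prop := ∀ ε : ℝ, 0 < ε → ∃ η : ℝ, 0 < η ∧ ∀ r₀ : ℝ, 0 < r₀ →
  ∃ r T₁ : ℝ, 0 < r ∧ r ≤ r₀ ∧ ∀ T : ℝ, T₁ ≤ T → ∃ S : Finset ℂ,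
    (∀ s ∈ S, |s.re - 1 / 2| ≤ r ∧ T ≤ s.im ∧ s.im ≤ T + r ∧ ‖riemannZeta s‖ ≤ T ^ (κ + ε)) ∧
    (∀ s ∈ S, ∀ s' ∈ S, s ≠ s' → η / Real.log T ≤ |s.im - s'.im|) ∧
    r * Real.log T / (2 * Real.pi * θ) ≤ S.card

lemma Z_cont : Continuous Z := by
  rw [continuous_iff_continuousAt]
  intro t
  unfold Z
  have h : (1 / 2 + (t : ℂ) * Complex.I) ≠ 1 := by
    intro h
    have := congrArg Complex.re h
    norm_num at this
  have h1 := (differentiableAt_riemannZeta h).continuousAt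
  have h2 : ContinuousAt (fun t : ℝ => (1 / 2 + (t : ℂ) * Complex.I)) t := by fun_prop
  exact (ContinuousAt.comp (f := fun t : ℝ => (1 / 2 + (t : ℂ) * Complex.I)) (g := riemannZeta)
    h1 h2).norm

lemma Z_neg (t : ℝ) : Z (-t) = Z t := by
  unfold Z
  have e : (1 / 2 + ((-t : ℝ) : ℂ) * Complex.I) =
      (starRingEnd ℂ) (1 / 2 + (t : ℂ) * Complex.I) := by
    simp [map_add, map_mul, map_ofNat]
  rw [e, riemannZeta_conj, Complex.norm_conj]

lemma Z_abs (t : ℝ) : Z t = Z |t| := by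
  rcases abs_cases t with ⟨h, _⟩ | ⟨h, _⟩
  · rw [h]
  · rw [h, Z_neg]

lemma Z_nonneg (t : ℝ) : 0 ≤ Z t := norm_nonneg _

lemma exponent_of_large {κ : ℝ} (hκ : 0 ≤ κ)
    (h : ∀ ε : ℝ, 0 < ε → ∃ T₀ : ℝ, ∀ t : ℝ, T₀ ≤ t → Z t ≤ t ^ (κ + ε)) : Exponent κ := by
  intro ε hε
  obtain ⟨T₀, hC⟩ := h ε hε
  obtain ⟨B, hB⟩ := (isCompact_Icc (a := (0 : ℝ)) (b := max T₀ 0)).exists_bound_of_continuousOn
    Z_cont.continuousOn
  refine ⟨1 + |B|, fun t => ?_⟩
  rw [Z_abs]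
  have h1 : 1 ≤ (1 + |t|) ^ (κ + ε) :=
    Real.one_le_rpow (by linarith [abs_nonneg t]) (by linarith)
  by_cases ht : max T₀ 0 ≤ |t|
  · have h2 := hC |t| ((le_max_left _ _).trans ht)
    have h3 : |t| ^ (κ + ε) ≤ (1 + |t|) ^ (κ + ε) :=
      Real.rpow_le_rpow (abs_nonneg t) (by linarith) (by linarith)
    calc Z |t| ≤ (1 + |t|) ^ (κ + ε) := h2.trans h3
      _ ≤ (1 + |B|) * (1 + |t|) ^ (κ + ε) :=
          le_mul_of_one_le_left (by linarith) (by linarith [abs_nonneg B])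
  · push Not at ht
    have h2 := hB |t| ⟨abs_nonneg t, ht.le⟩
    calc Z |t| ≤ ‖Z |t|‖ := le_abs_self _
      _ ≤ 1 + |B| := by linarith [le_abs_self B]
      _ ≤ (1 + |B|) * (1 + |t|) ^ (κ + ε) := le_mul_of_one_le_right (by positivity) h1

/-- **the density criterion** -/
theorem exponent_of_dense {θ κ : ℝ} (hθ : 0 < θ) (hκ : 0 ≤ κ) (hD : Dense θ κ) :
    Exponent (max κ ((1 - 1 / θ) / 4)) := by
  have hpi := Real.pi_pos
  set μ : ℝ := max κ ((1 - 1 / θ) / 4) with hμ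
  have hμ1 : κ ≤ μ := le_max_left _ _
  have hμ2 : (1 - 1 / θ) / 4 ≤ μ := le_max_right _ _
  refine exponent_of_large (hκ.trans hμ1) fun ε' hε' => ?_
  -- parameters
  set ε : ℝ := min (ε' / 2) 1 with hεd
  have hε0 : 0 < ε := lt_min (by linarith) one_pos
  have hε1 : ε ≤ 1 := min_le_right _ _
  have hεε' : 2 * ε ≤ ε' := by
    have : ε ≤ ε' / 2 := min_le_left _ _
    linarith
  obtain ⟨W, T₂, hW, hT₂8, hlz⟩ := large_zeta hε0 hε1
  obtain ⟨η, hη, hdense⟩ := hD (ε / 2) (by linarith)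
  set η' : ℝ := min η 1 / 2 with hη'
  have hη'0 : 0 < η' := by
    have : 0 < min η 1 := lt_min hη one_pos
    rw [hη']; linarith
  have hη'1 : η' ≤ 1 := by
    have : min η 1 ≤ 1 := min_le_right _ _
    rw [hη']; linarith
  have hη'2 : 2 * η' ≤ η := by
    have : min η 1 ≤ η := min_le_left _ _
    rw [hη']; linarith
  obtain ⟨n, hn2, hnL⟩ := exists_LL (ν := ε' * θ) (by positivity)
  have hn0 : (0:ℝ) < n := by
    have : (2:ℝ) ≤ n := by exact_mod_cast hn2
    linarith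
  obtain ⟨r, T₁, hr, hrle, hS⟩ := hdense (ε * η' / (32 * n)) (by positivity)
  set R : ℝ := n * r with hR
  have hR0 : 0 < R := by positivity
  have hRle : R ≤ ε * η' / 32 := by
    rw [hR]
    calc n * r ≤ n * (ε * η' / (32 * n)) := mul_le_mul_of_nonneg_left hrle hn0.le
      _ = ε * η' / 32 := by field_simp
  have hR1 : R ≤ 1 := by nlinarith
  -- the constant
  set C : ℝ := r * Real.log 2 / (2 * Real.pi * θ) + 2 with hC
  have hl2 : 0 < Real.log 2 := Real.log_pos (by norm_num)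
  have hC0 : 0 < C := by positivity
  -- threshold
  set K₁ : ℝ := (2:ℝ) ^ (κ + ε / 2) with hK₁
  have hK₁1 : 1 ≤ K₁ := Real.one_le_rpow (by norm_num) (by linarith)
  set X : ℝ := (2 * C * n + 1) * Real.pi / (R * (2 * ε')) with hX
  refine ⟨8 + T₂ + 2 * (W + 2) + 2 * |T₁| + K₁ ^ (1 / (ε / 2)) + Real.exp X, fun T hT => ?_⟩
  have hb1 := abs_nonneg T₁
  have hb2 : 0 ≤ K₁ ^ (1 / (ε / 2)) := by positivity
  have hb3 := Real.exp_pos X
  have hT8 : 8 ≤ T := by linarith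
  have hT0 : 0 < T := by linarith
  set Λ : ℝ := Real.log T with hΛ
  have hΛ2 : Real.log 2 ≤ Λ := Real.log_le_log (by norm_num) (by linarith)
  have hΛX : X < Λ := by
    rw [hΛ, Real.lt_log_iff_exp_lt hT0]
    linarith
  have hΛ0 : 0 < Λ := by linarith
  by_contra hcon
  push Not at hcon
  have hT1 : (1:ℝ) ≤ T := by linarith
  have hZ1 : 1 ≤ Z T := by
    have : 1 ≤ T ^ (μ + ε') := Real.one_le_rpow hT1 (by linarith)
    linarith
  have hZlog : (μ + ε') * Λ < Real.log (Z T) := by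
    have h1 := Real.log_lt_log (by positivity) hcon
    rwa [Real.log_rpow hT0] at h1
  obtain ⟨hpos, T₀, hT₀, -, -, -, hlaw⟩ := hlz T (by linarith) hZ1
  have hT₀' := abs_le.1 hT₀
  -- windows
  have hwin : ∀ k : ℤ, -(n : ℤ) ≤ k → k ≤ n → ∃ A : Finset ℂ,
      (∀ s ∈ A, |s.re - 1 / 2| ≤ r ∧ T₀ + k * r ≤ s.im ∧ s.im ≤ T₀ + k * r + r ∧
        ‖riemannZeta s‖ ≤ T ^ (-ε) * Z T) ∧
      (∀ s ∈ A, ∀ s' ∈ A, s ≠ s' → 2 * (η' / (2 * Λ)) ≤ |s.im - s'.im|) ∧
      r * (Λ - Real.log 2) / (2 * Real.pi * θ) ≤ A.card := by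
    intro k hk1 hk2
    have hk1' : -(n:ℝ) ≤ k := by exact_mod_cast hk1
    have hk2' : (k:ℝ) ≤ n := by exact_mod_cast hk2
    have hkr1 : -R ≤ k * r := by
      rw [hR]
      have := mul_le_mul_of_nonneg_right hk1' hr.le
      linarith
    have hkr2 : k * r ≤ R := mul_le_mul_of_nonneg_right hk2' hr.le
    set T' : ℝ := T₀ + k * r with hT'
    have hT'1 : T / 2 ≤ T' := by linarith
    have hT'2 : T' ≤ 2 * T := by linarith
    have hT'3 : T₁ ≤ T' := by linarith [le_abs_self T₁]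
    have hT'0 : 0 < T' := by linarith
    have hlog1 : Λ - Real.log 2 ≤ Real.log T' := by
      have := Real.log_le_log (by positivity) hT'1
      rwa [Real.log_div hT0.ne' (by norm_num)] at this
    have hlog2 : Real.log T' ≤ 2 * Λ := by
      have := Real.log_le_log hT'0 hT'2
      rw [Real.log_mul (by norm_num) hT0.ne'] at this
      linarith
    have hlogpos : 0 < Real.log T' := Real.log_pos (by linarith)
    obtain ⟨A, hA1, hA2, hA3⟩ := hS T' hT'3
    refine ⟨A, fun s hs => ?_, fun s hs s' hs' hne => ?_, le_trans ?_ hA3⟩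
    · obtain ⟨h1, h2, h3, h4⟩ := hA1 s hs
      refine ⟨h1, h2, h3, h4.trans ?_⟩
      have h5 : T' ^ (κ + ε / 2) ≤ K₁ * T ^ (κ + ε / 2) := by
        rw [hK₁, ← Real.mul_rpow (by norm_num) hT0.le]
        exact Real.rpow_le_rpow hT'0.le hT'2 (by linarith)
      have h6 : K₁ ≤ T ^ (ε / 2) := W587.PL.large_of_rpow (by linarith) (by linarith) (by linarith)
      calc T' ^ (κ + ε / 2) ≤ K₁ * T ^ (κ + ε / 2) := h5
        _ ≤ T ^ (ε / 2) * T ^ (κ + ε / 2) := mul_le_mul_of_nonneg_right h6 (by positivity)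
        _ = T ^ (κ + ε) := by rw [← Real.rpow_add hT0]; congr 1; ring
        _ ≤ T ^ (-ε + (μ + ε')) := Real.rpow_le_rpow_of_exponent_le hT1 (by linarith)
        _ = T ^ (-ε) * T ^ (μ + ε') := Real.rpow_add hT0 _ _
        _ ≤ T ^ (-ε) * Z T := mul_le_mul_of_nonneg_left hcon.le (by positivity)
    · refine le_trans ?_ (hA2 s hs s' hs' hne)
      have e : 2 * (η' / (2 * Λ)) = η' / Λ := by field_simp
      rw [e, div_le_div_iff₀ hΛ0 hlogpos]
      calc η' * Real.log T' ≤ η' * (2 * Λ) := mul_le_mul_of_nonneg_left hlog2 hη'0.le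
        _ = 2 * η' * Λ := by ring
        _ ≤ η * Λ := mul_le_mul_of_nonneg_right hη'2 hΛ0.le
    · apply div_le_div_of_nonneg_right _ (by positivity)
      exact mul_le_mul_of_nonneg_left hlog1 hr.le
  obtain ⟨S, hS1, hS2, hS3⟩ := assemble (n := n) hr (d := η' / (2 * Λ)) (by positivity)
    (fun s => ‖riemannZeta s‖ ≤ T ^ (-ε) * Z T) hwin
  have hl := hlaw η' R hη'0 hη'1 hR0 hRle S (fun s hs => (hS1 s hs).2) (fun s hs => (hS1 s hs).1)
    (fun s hs s' hs' hne => by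
      have h1 := hS2 s hs s' hs' hne
      have e : 2 * (η' / (2 * Λ)) = η' / Λ := by field_simp
      rwa [e] at h1)
  have hmain := hS3.trans hl
  -- the contradiction
  have hLn : LL n ≤ n := LL_le (by omega)
  have hL0 : 0 ≤ LL n := LL_nonneg n
  have hc : r * (Λ - Real.log 2) / (2 * Real.pi * θ) - 2 = r * Λ / (2 * Real.pi * θ) - C := by
    rw [hC]; ring
  rw [hc] at hmain
  have hm1 : 2 * (r * Λ / (2 * Real.pi * θ) - C) * LL n =
      r * Λ / (Real.pi * θ) * LL n - 2 * C * LL n := by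
    field_simp
  have hm2 : r * Λ / (Real.pi * θ) * ((1 - ε' * θ) * n) ≤ r * Λ / (Real.pi * θ) * LL n :=
    mul_le_mul_of_nonneg_left hnL (by positivity)
  have hm3 : r * Λ / (Real.pi * θ) * ((1 - ε' * θ) * n) = R / Real.pi * ((1 / θ - ε') * Λ) := by
    rw [hR]; field_simp
  have hm4 : 2 * C * LL n ≤ 2 * C * n := mul_le_mul_of_nonneg_left hLn (by positivity)
  have hm5 : (1 + ε) * Λ - 4 * Real.log (Z T) ≤ (1 / θ - 3 * ε') * Λ := by
    have h1 : 4 * ((μ + ε') * Λ) ≤ 4 * Real.log (Z T) := by linarith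
    have h2 : (1 - 1 / θ) * Λ ≤ 4 * μ * Λ := mul_le_mul_of_nonneg_right (by linarith) hΛ0.le
    have h3 : 2 * ε * Λ ≤ ε' * Λ := mul_le_mul_of_nonneg_right hεε' hΛ0.le
    have h4 : 0 < ε * Λ := by positivity
    linarith
  have hm6 : R / Real.pi * ((1 + ε) * Λ - 4 * Real.log (Z T)) ≤
      R / Real.pi * ((1 / θ - 3 * ε') * Λ) := mul_le_mul_of_nonneg_left hm5 (by positivity)
  have hm7 : R / Real.pi * (2 * ε' * Λ) ≤ 2 * C * n + 1 := by
    have e : R / Real.pi * (2 * ε' * Λ) = R / Real.pi * ((1 / θ - ε') * Λ) -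
        R / Real.pi * ((1 / θ - 3 * ε') * Λ) := by ring
    rw [e]
    linarith
  have hm8 : Λ ≤ X := by
    rw [hX, le_div_iff₀ (by positivity)]
    have e : R / Real.pi * (2 * ε' * Λ) = Λ * (R * (2 * ε')) / Real.pi := by ring
    rw [e, div_le_iff₀ hpi] at hm7
    exact hm7
  linarith

def ZeroDense (δ : ℝ) : Prop := ∀ r₀ : ℝ, 0 < r₀ → ∃ r T₁ : ℝ, 0 < r ∧ r ≤ r₀ ∧
  ∀ T : ℝ, T₁ ≤ T → ∃ S : Finset ℂ,
    (∀ s ∈ S, |s.re - 1 / 2| ≤ r ∧ T ≤ s.im ∧ s.im < T + r) ∧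
    (1 - δ) * (r * Real.log T / (2 * Real.pi)) ≤ ∑ s ∈ S, (analyticOrderNatAt riemannZeta s : ℝ)

/-- **zeros near the critical line** -/
theorem exponent_of_zeros {δ : ℝ} (hδ0 : 0 ≤ δ) (hδ1 : δ ≤ 1) (hD : ZeroDense δ) :
    Exponent (δ / 4) := by
  have hpi := Real.pi_pos
  refine exponent_of_large (by linarith) fun ε' hε' => ?_
  -- parameters
  set ε : ℝ := min (ε' / 2) 1 with hεd
  have hε0 : 0 < ε := lt_min (by linarith) one_pos
  have hε1 : ε ≤ 1 := min_le_right _ _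
  have hεε' : 2 * ε ≤ ε' := by
    have : ε ≤ ε' / 2 := min_le_left _ _
    linarith
  obtain ⟨W, T₂, hW, hT₂8, hlz⟩ := large_zeta hε0 hε1
  obtain ⟨n, hn2, hnL⟩ := exists_LL (ν := ε') hε'
  have hn0 : (0:ℝ) < n := by
    have : (2:ℝ) ≤ n := by exact_mod_cast hn2
    linarith
  obtain ⟨r, T₁, hr, hrle, hS⟩ := hD (1 / (2 * n)) (by positivity)
  set R : ℝ := n * r with hR
  have hR0 : 0 < R := by positivity
  have hRle : R ≤ 1 / 2 := by
    rw [hR]
    calc n * r ≤ n * (1 / (2 * n)) := mul_le_mul_of_nonneg_left hrle hn0.le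
      _ = 1 / 2 := by field_simp
  have hl2 : 0 < Real.log 2 := Real.log_pos (by norm_num)
  set X : ℝ := Real.log 2 / (2 * ε') with hX
  refine ⟨8 + T₂ + 2 * (W + 2) + 2 * |T₁| + Real.exp X, fun T hT => ?_⟩
  have hb1 := abs_nonneg T₁
  have hb3 := Real.exp_pos X
  have hT8 : 8 ≤ T := by linarith
  have hT0 : 0 < T := by linarith
  set Λ : ℝ := Real.log T with hΛ
  have hΛ2 : Real.log 2 ≤ Λ := Real.log_le_log (by norm_num) (by linarith)
  have hΛX : X < Λ := by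
    rw [hΛ, Real.lt_log_iff_exp_lt hT0]
    linarith
  have hΛ0 : 0 < Λ := by linarith
  by_contra hcon
  push Not at hcon
  have hT1 : (1:ℝ) ≤ T := by linarith
  have hZ1 : 1 ≤ Z T := by
    have : 1 ≤ T ^ (δ / 4 + ε') := Real.one_le_rpow hT1 (by linarith)
    linarith
  have hZlog : (δ / 4 + ε') * Λ < Real.log (Z T) := by
    have h1 := Real.log_lt_log (by positivity) hcon
    rwa [Real.log_rpow hT0] at h1
  obtain ⟨hpos, T₀, hT₀, hZT₀, -, hlaw, -⟩ := hlz T (by linarith) hZ1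
  have hT₀' := abs_le.1 hT₀
  have hw0 : (analyticOrderNatAt riemannZeta (1 / 2 + T₀ * Complex.I) : ℝ) = 0 := by
    have h1 : riemannZeta (1 / 2 + T₀ * Complex.I) ≠ 0 := by
      intro h
      unfold Z at hZT₀ hZ1
      rw [h, norm_zero] at hZT₀
      linarith
    by_contra h2
    exact h1 (apply_eq_zero_of_analyticOrderNatAt_ne_zero (by exact_mod_cast h2))
  -- windows
  have hwin : ∀ k : ℤ, -(n : ℤ) ≤ k → k ≤ n → ∃ A : Finset ℂ,
      (∀ s ∈ A, |s.re - 1 / 2| ≤ r ∧ T₀ + k * r ≤ s.im ∧ s.im < T₀ + k * r + r) ∧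
      (1 - δ) * (r * (Λ - Real.log 2) / (2 * Real.pi)) ≤
        ∑ s ∈ A, (analyticOrderNatAt riemannZeta s : ℝ) := by
    intro k hk1 hk2
    have hk1' : -(n:ℝ) ≤ k := by exact_mod_cast hk1
    have hk2' : (k:ℝ) ≤ n := by exact_mod_cast hk2
    have hkr1 : -R ≤ k * r := by
      rw [hR]
      have := mul_le_mul_of_nonneg_right hk1' hr.le
      linarith
    have hkr2 : k * r ≤ R := mul_le_mul_of_nonneg_right hk2' hr.le
    set T' : ℝ := T₀ + k * r with hT'
    have hT'1 : T / 2 ≤ T' := by linarith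
    have hT'3 : T₁ ≤ T' := by linarith [le_abs_self T₁]
    have hlog1 : Λ - Real.log 2 ≤ Real.log T' := by
      have := Real.log_le_log (by positivity) hT'1
      rwa [Real.log_div hT0.ne' (by norm_num)] at this
    obtain ⟨A, hA1, hA3⟩ := hS T' hT'3
    refine ⟨A, hA1, le_trans ?_ hA3⟩
    apply mul_le_mul_of_nonneg_left _ (by linarith)
    apply div_le_div_of_nonneg_right _ (by positivity)
    exact mul_le_mul_of_nonneg_left hlog1 hr.le
  obtain ⟨S, hS1, hS3⟩ := assembleZ (n := n) hr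
    (fun s => (analyticOrderNatAt riemannZeta s : ℝ)) (fun s => Nat.cast_nonneg _) hw0 hwin
  have hl := hlaw R hR0 hRle S hS1
  have hmain := hS3.trans hl
  -- the contradiction
  have hm1 : 2 * ((1 - δ) * (r * (Λ - Real.log 2) / (2 * Real.pi))) * ((1 - ε') * n) ≤
      2 * ((1 - δ) * (r * (Λ - Real.log 2) / (2 * Real.pi))) * LL n := by
    apply mul_le_mul_of_nonneg_left hnL
    have h1 : 0 ≤ 1 - δ := by linarith
    have h2 : 0 ≤ Λ - Real.log 2 := by linarith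
    positivity
  have hm2 : 2 * ((1 - δ) * (r * (Λ - Real.log 2) / (2 * Real.pi))) * ((1 - ε') * n) =
      R / Real.pi * ((1 - δ) * (1 - ε') * (Λ - Real.log 2)) := by
    rw [hR]; field_simp
  have hm5 : (1 + ε) * Λ - 4 * Real.log (Z T) ≤ (1 - δ - 3 * ε') * Λ := by
    have h1 : 4 * ((δ / 4 + ε') * Λ) ≤ 4 * Real.log (Z T) := by linarith
    have h3 : 2 * ε * Λ ≤ ε' * Λ := mul_le_mul_of_nonneg_right hεε' hΛ0.le
    have h4 : 0 < ε * Λ := by positivity
    linarith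
  have hm6 : R / Real.pi * ((1 - δ) * (1 - ε') * (Λ - Real.log 2)) ≤
      R / Real.pi * ((1 - δ - 3 * ε') * Λ) := by
    rw [← hm2]
    exact (hm1.trans hmain).trans (mul_le_mul_of_nonneg_left hm5 (by positivity))
  have hm7 : (1 - δ) * (1 - ε') * (Λ - Real.log 2) ≤ (1 - δ - 3 * ε') * Λ :=
    le_of_mul_le_mul_left hm6 (by positivity)
  have hm8 : (1 - δ - ε') * (Λ - Real.log 2) ≤ (1 - δ) * (1 - ε') * (Λ - Real.log 2) := by
    apply mul_le_mul_of_nonneg_right _ (by linarith)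
    have : 0 ≤ δ * ε' := by positivity
    linarith
  have hm9 : (1 - δ - ε') * Real.log 2 ≤ 1 * Real.log 2 :=
    mul_le_mul_of_nonneg_right (by linarith) hl2.le
  have hm10 : Λ ≤ X := by
    rw [hX, le_div_iff₀ (by positivity)]
    linarith
  linarith

/-- the converse -/
theorem dense_of_exponent {θ κ : ℝ} (hθ : 0 < θ) (hκ : 0 ≤ κ) (hE : Exponent κ) : Dense θ κ := by
  classical
  have hpi := Real.pi_pos
  intro ε hε
  obtain ⟨C, hC⟩ := hE (ε / 2) (by linarith)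
  refine ⟨2 * Real.pi * θ, by positivity, fun r₀ hr₀ => ?_⟩
  set r : ℝ := min r₀ 1 with hr
  have hr0 : 0 < r := lt_min hr₀ one_pos
  have hr1 : r ≤ 1 := min_le_right _ _
  set K : ℝ := (1 + |C|) * (3:ℝ) ^ (κ + ε / 2) with hK
  have h3 : 1 ≤ (3:ℝ) ^ (κ + ε / 2) := Real.one_le_rpow (by norm_num) (by linarith)
  have hK0 : 0 < K := by
    have := abs_nonneg C
    positivity
  refine ⟨r, 8 + K ^ (1 / (ε / 2)), hr0, min_le_left _ _, fun T hT => ?_⟩
  have hKp : 0 ≤ K ^ (1 / (ε / 2)) := by positivity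
  have hT8 : 8 ≤ T := by linarith
  have hT0 : 0 < T := by linarith
  have hlog : 0 < Real.log T := Real.log_pos (by linarith)
  set δ : ℝ := 2 * Real.pi * θ / Real.log T with hδ
  have hδ0 : 0 < δ := by positivity
  set N : ℕ := ⌊r / δ⌋₊ with hN
  set pt : ℕ → ℂ := fun j => ⟨1 / 2, T + j * δ⟩ with hpt
  have hinj : Function.Injective pt := by
    intro i j hij
    have h1 := congrArg Complex.im hij
    simp only [hpt] at h1
    have h2 : (i:ℝ) * δ = j * δ := by linarith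
    have h4 := mul_right_cancel₀ hδ0.ne' h2
    exact_mod_cast h4
  refine ⟨(Finset.range (N + 1)).image pt, fun s hs => ?_, fun s hs s' hs' hne => ?_, ?_⟩
  · obtain ⟨j, hj, rfl⟩ := Finset.mem_image.1 hs
    rw [Finset.mem_range, Nat.lt_succ_iff] at hj
    have hjδ : (j:ℝ) * δ ≤ r := by
      have h1 : (j:ℝ) ≤ r / δ := (Nat.cast_le.2 hj).trans (Nat.floor_le (by positivity))
      rwa [le_div_iff₀ hδ0] at h1
    have hjδ0 : 0 ≤ (j:ℝ) * δ := by positivity
    have e1 : (pt j).re = 1 / 2 := rfl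
    have e2 : (pt j).im = T + j * δ := rfl
    rw [e1, e2]
    refine ⟨by rw [sub_self, abs_zero]; exact hr0.le, by linarith, by linarith, ?_⟩
    have e3 : pt j = 1 / 2 + ((T + j * δ : ℝ) : ℂ) * Complex.I := by
      apply Complex.ext <;> simp [hpt]
    have h1 := hC (T + j * δ)
    unfold Z at h1
    rw [← e3, abs_of_pos (by linarith : 0 < T + j * δ)] at h1
    refine h1.trans ?_
    have h2 : (1 + (T + j * δ)) ^ (κ + ε / 2) ≤ (3 * T) ^ (κ + ε / 2) :=
      Real.rpow_le_rpow (by linarith) (by linarith) (by linarith)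
    rw [Real.mul_rpow (by norm_num) hT0.le] at h2
    have h5 : K ≤ T ^ (ε / 2) := W587.PL.large_of_rpow hK0 (by linarith) (by linarith)
    calc C * (1 + (T + j * δ)) ^ (κ + ε / 2) ≤ (1 + |C|) * ((3:ℝ) ^ (κ + ε / 2) * T ^ (κ + ε / 2)) :=
          mul_le_mul (by linarith [le_abs_self C]) h2 (by positivity) (by positivity)
      _ = K * T ^ (κ + ε / 2) := by rw [hK]; ring
      _ ≤ T ^ (ε / 2) * T ^ (κ + ε / 2) := mul_le_mul_of_nonneg_right h5 (by positivity)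
      _ = T ^ (κ + ε) := by rw [← Real.rpow_add hT0]; congr 1; ring
  · obtain ⟨i, hi, rfl⟩ := Finset.mem_image.1 hs
    obtain ⟨j, hj, rfl⟩ := Finset.mem_image.1 hs'
    have hij : i ≠ j := fun h => hne (by rw [h])
    have e2 : (pt i).im - (pt j).im = ((i:ℝ) - j) * δ := by
      simp only [hpt]; ring
    rw [e2, abs_mul, abs_of_pos hδ0]
    have h1 : (1:ℝ) ≤ |(i:ℝ) - j| := by
      have h2 : (i:ℤ) - j ≠ 0 := by
        intro h
        exact hij (by omega)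
      have h4 := Int.one_le_abs h2
      exact_mod_cast h4
    calc 2 * Real.pi * θ / Real.log T = 1 * δ := by rw [one_mul]
      _ ≤ |(i:ℝ) - j| * δ := mul_le_mul_of_nonneg_right h1 hδ0.le
  · rw [Finset.card_image_of_injective _ hinj, Finset.card_range]
    have e : r * Real.log T / (2 * Real.pi * θ) = r / δ := by rw [hδ]; field_simp
    rw [e]
    push_cast
    exact (Nat.lt_floor_add_one _).le

end Pool.Agent.TH804.MS
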