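import Pool.Agent.TH804.SS8

/-! The sections under the Lindelöf hypothesis: few zeros; the equivalences. -/

set_option autoImplicit false

open Complex Metric MeasureTheory Filter Topology

namespace Pool.Agent.TH804.SS

open H370 H370.Loc

/-- all sections of length at most `T^θ` have few zeros -/
def All (θ H : ℝ) : Prop := ∀ δ : ℝ, 0 < δ → ∀ ε : ℝ, 0 < ε → ∃ T₀ : ℝ, ∀ T : ℝ, T₀ ≤ T →
  ∀ N : ℕ, 1 ≤ N → (N : ℝ) ≤ T ^ θ → Few N δ H T (ε * Real.log T)

/-- **few zeros under LH** -/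
theorem few_LH (hLH : LH) {δ ε H : ℝ} (hδ : 0 < δ) (hδ1 : δ ≤ 1) (hε : 0 < ε) (hH : 0 ≤ H) :
    ∃ T₀ : ℝ, ∀ T : ℝ, T₀ ≤ T → ∀ N : ℕ, 1 ≤ N → (N : ℝ) ≤ T * T → Few N δ H T (ε * Real.log T) := by
  classical
  obtain ⟨l, A, hl, hl1, hA, hright⟩ := sec_right
  obtain ⟨q, hq⟩ : ∃ q : ℝ, q = Real.log ((3 / 2 - δ / 4) / (3 / 2 - δ / 2)) := ⟨_, rfl⟩
  have hq0 : 0 < q := by
    rw [hq]
    apply Real.log_pos
    rw [one_lt_div (by linarith)]
    linarith
  obtain ⟨m, hm⟩ : ∃ m : ℕ, m = ⌊4 * H / δ⌋₊ + 1 := ⟨_, rfl⟩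
  have hm0 : (0 : ℝ) < m := by rw [hm]; positivity
  obtain ⟨κ, hκ⟩ : ∃ κ : ℝ, κ = ε * q / (4 * m) := ⟨_, rfl⟩
  have hκ0 : 0 < κ := by rw [hκ]; positivity
  obtain ⟨C, hC, hsec⟩ := sec_LH hLH (δ := δ / 4) (by positivity) hκ0
  obtain ⟨P, hP⟩ : ∃ P : ℝ, P = Real.log ((C + 1) * A) := ⟨_, rfl⟩
  have hP0 : 0 ≤ P := by
    rw [hP]
    apply Real.log_nonneg
    nlinarith
  refine ⟨max (2 * H + 4) (Real.exp (4 * m * P / (ε * q))), fun T hT N hN1 hN2 => ?_⟩
  have hT1 : 2 * H + 4 ≤ T := (le_max_left _ _).trans hT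
  have hT2 : Real.exp (4 * m * P / (ε * q)) ≤ T := (le_max_right _ _).trans hT
  have hT4 : 4 ≤ T := by linarith
  have hT0 : 0 < T := by linarith
  have hL : 4 * m * P / (ε * q) ≤ Real.log T := by
    rw [Real.le_log_iff_exp_le hT0]; exact hT2
  have hL0 : 0 ≤ Real.log T := Real.log_nonneg (by linarith)
  rw [div_le_iff₀ (by positivity)] at hL
  set c : ℕ → ℂ := fun k => ⟨2, T - H + k * (δ / 2)⟩ with hc
  have hkb : ∀ k < m, (k : ℝ) * (δ / 2) ≤ 2 * H := by
    intro k hk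
    have h1 : k ≤ ⌊4 * H / δ⌋₊ := by omega
    have h2 : (k : ℝ) ≤ 4 * H / δ := (Nat.cast_le.2 h1).trans (Nat.floor_le (by positivity))
    calc (k : ℝ) * (δ / 2) ≤ 4 * H / δ * (δ / 2) := mul_le_mul_of_nonneg_right h2 (by positivity)
      _ = 2 * H := by field_simp; ring
  -- one disc
  have hone : ∀ k < m, ∀ S : Finset ℂ, (∀ z ∈ S, z ∈ closedBall (c k) (3 / 2 - δ / 2)) →
      ∑ z ∈ S, (mult (sec N) z : ℝ) ≤ (P + κ * Real.log T) / q := by
    intro k hk S hS
    have h1 : 2 - l ≤ (c k).re := by show 2 - l ≤ 2; linarith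
    have hfc := (hright N hN1 (c k) h1).2
    have hA0 : 0 < A := by linarith
    have hfc0 : 0 < ‖sec N (c k)‖ := lt_of_lt_of_le (by positivity) hfc
    have hTκ : 1 ≤ T ^ κ := Real.one_le_rpow (by linarith) hκ0.le
    have hj := jensen_mult (f := sec N) (c := c k) (r := 3 / 2 - δ / 2) (R := 3 / 2 - δ / 4)
      (M := (C + 1) * T ^ κ) (by linarith) (by linarith) (by nlinarith)
      (fun v _ => sec_analytic N v) (norm_pos_iff.1 hfc0)
      (fun v hv => by
        rw [mem_closedBall, dist_eq_norm] at hv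
        have h2 := Complex.abs_re_le_norm (v - c k)
        have h3 := Complex.abs_im_le_norm (v - c k)
        rw [Complex.sub_re] at h2
        rw [Complex.sub_im] at h3
        have e1 : (c k).re = 2 := rfl
        have e2 : (c k).im = T - H + k * (δ / 2) := rfl
        rw [e1] at h2
        rw [e2] at h3
        have h4 := abs_le.1 (h2.trans hv)
        have h5 := abs_le.1 (h3.trans hv)
        have h6 := hkb k hk
        have h7 : 0 ≤ (k : ℝ) * (δ / 2) := by positivity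
        have h8 : T / 2 ≤ v.im := by linarith
        have h9 : 0 ≤ v.im := by linarith
        refine (hsec T hT4 N hN1 hN2 v (by linarith) ?_ ?_).trans ?_
        · rw [abs_of_nonneg h9]; exact h8
        · rw [abs_of_nonneg h9]; linarith
        · exact mul_le_mul_of_nonneg_right (by linarith) (by positivity)) S hS
    refine hj.trans ?_
    rw [← hq]
    apply div_le_div_of_nonneg_right _ hq0.le
    have h10 : (C + 1) * T ^ κ / ‖sec N (c k)‖ ≤ ((C + 1) * A) * T ^ κ := by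
      rw [div_le_iff₀ hfc0]
      rw [div_le_iff₀ hA0] at hfc
      calc (C + 1) * T ^ κ = ((C + 1) * T ^ κ) * 1 := by ring
        _ ≤ ((C + 1) * T ^ κ) * (‖sec N (c k)‖ * A) := by gcongr
        _ = _ := by ring
    have h11 : 0 < (C + 1) * T ^ κ / ‖sec N (c k)‖ := by positivity
    refine (Real.log_le_log h11 h10).trans ?_
    rw [Real.log_mul (by positivity) (by positivity), Real.log_rpow hT0, hP]
  intro S hS
  have hcov : ∀ z ∈ S, ∃ k < m, z ∈ closedBall (c k) (3 / 2 - δ / 2) := by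
    intro z hz
    obtain ⟨h1, h3, h4⟩ := hS z hz
    have h2 : z.re ≤ 2 := by
      by_contra hcon
      push Not at hcon
      have h5 := (hright N hN1 z (by linarith)).2
      rw [h4, norm_zero] at h5
      have : 0 < 1 / A := by positivity
      linarith
    have h5 := abs_le.1 h3
    set u : ℝ := (z.im - T + H) / (δ / 2) with hu
    have hu0 : 0 ≤ u := div_nonneg (by linarith) (by positivity)
    have hu1 : u ≤ 4 * H / δ := by
      rw [hu, div_le_div_iff₀ (by positivity) hδ]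
      nlinarith
    refine ⟨⌊u⌋₊, ?_, ?_⟩
    · rw [hm]
      have : ⌊u⌋₊ ≤ ⌊4 * H / δ⌋₊ := Nat.floor_le_floor hu1
      omega
    · have h6 : (⌊u⌋₊ : ℝ) ≤ u := Nat.floor_le hu0
      have h7 : u < ⌊u⌋₊ + 1 := Nat.lt_floor_add_one u
      have h8 : u * (δ / 2) = z.im - T + H := by rw [hu]; field_simp
      have h9 := mul_le_mul_of_nonneg_right h6 (show 0 ≤ δ / 2 by positivity)
      have h10 := mul_lt_mul_of_pos_right h7 (show 0 < δ / 2 by positivity)
      rw [mem_closedBall, dist_eq_norm]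
      refine (Complex.norm_le_abs_re_add_abs_im _).trans ?_
      rw [Complex.sub_re, Complex.sub_im]
      have e1 : (c ⌊u⌋₊).re = 2 := rfl
      have e2 : (c ⌊u⌋₊).im = T - H + ⌊u⌋₊ * (δ / 2) := rfl
      rw [e1, e2]
      have h11 : |z.re - 2| ≤ 3 / 2 - δ := by rw [abs_le]; constructor <;> linarith
      have h12 : |z.im - (T - H + ⌊u⌋₊ * (δ / 2))| ≤ δ / 2 := by
        rw [abs_le]; constructor <;> linarith
      linarith
  have hnn : 0 ≤ (P + κ * Real.log T) / q := by positivity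
  calc ∑ z ∈ S, (analyticOrderNatAt (sec N) z : ℝ) = ∑ z ∈ S, (mult (sec N) z : ℝ) := rfl
    _ ≤ ∑ z ∈ S, ∑ k ∈ Finset.range m, (if z ∈ closedBall (c k) (3 / 2 - δ / 2) then (mult (sec N) z : ℝ) else 0) := by
        refine Finset.sum_le_sum fun z hz => ?_
        obtain ⟨k, hk, hzk⟩ := hcov z hz
        have h1 := Finset.single_le_sum (s := Finset.range m)
          (f := fun k => if z ∈ closedBall (c k) (3 / 2 - δ / 2) then (mult (sec N) z : ℝ) else 0)
          (fun i _ => by positivity) (Finset.mem_range.2 hk)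
        simp only [hzk, if_true] at h1
        exact h1
    _ = ∑ k ∈ Finset.range m, ∑ z ∈ S, (if z ∈ closedBall (c k) (3 / 2 - δ / 2) then (mult (sec N) z : ℝ) else 0) :=
        Finset.sum_comm
    _ ≤ ∑ k ∈ Finset.range m, (P + κ * Real.log T) / q := by
        refine Finset.sum_le_sum fun k hk => ?_
        rw [← Finset.sum_filter]
        exact hone k (Finset.mem_range.1 hk) _ fun z hz => (Finset.mem_filter.1 hz).2
    _ = m * ((P + κ * Real.log T) / q) := by rw [Finset.sum_const, Finset.card_range, nsmul_eq_mul]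
    _ ≤ ε * Real.log T := by
        rw [mul_div_assoc', div_le_iff₀ hq0]
        have h1 : (m : ℝ) * (κ * Real.log T) = ε * q / 4 * Real.log T := by
          rw [hκ]; field_simp
        have h2 : (m : ℝ) * P ≤ Real.log T * (ε * q) / 4 := by linarith
        have h3 : 0 ≤ Real.log T * (ε * q) := by positivity
        have h4 : (m : ℝ) * (P + κ * Real.log T) = m * P + m * (κ * Real.log T) := by ring
        rw [h4, h1]
        linarith

lemma Few.mono_δ {N : ℕ} {δ δ' H T n : ℝ} (h : Few N δ H T n) (hδ : δ ≤ δ') : Few N δ' H T n :=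
  fun S hS => h S fun s hs => ⟨by linarith [(hS s hs).1], (hS s hs).2⟩

theorem All_of_LH (hLH : LH) {θ H : ℝ} (hθ : θ ≤ 2) : All θ H := by
  intro δ hδ ε hε
  obtain ⟨T₀, h⟩ := few_LH hLH (δ := min δ 1) (ε := ε) (H := max H 0) (lt_min hδ one_pos) (min_le_right _ _) hε
    (le_max_right _ _)
  refine ⟨max T₀ 1, fun T hT N hN1 hN2 => ?_⟩
  have hT1 : 1 ≤ T := (le_max_right _ _).trans hT
  have h1 : (N : ℝ) ≤ T * T := by
    refine hN2.trans ?_
    calc T ^ θ ≤ T ^ (2 : ℝ) := Real.rpow_le_rpow_of_exponent_le hT1 hθ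
      _ = T * T := by rw [show (2 : ℝ) = ((2 : ℕ) : ℝ) by norm_num, Real.rpow_natCast]; ring
  exact ((h T ((le_max_left _ _).trans hT) N hN1 h1).mono (le_max_left _ _) le_rfl).mono_δ (min_le_left _ _)

theorem Single_of_All {θ H : ℝ} (hθ : 0 < θ) (h : All θ H) : Single θ H := by
  intro δ hδ ε hε
  obtain ⟨T₀, h1⟩ := h δ hδ ε hε
  refine ⟨max T₀ 1, fun T hT => ?_⟩
  have hT1 : 1 ≤ T := (le_max_right _ _).trans hT
  have hN : 1 ≤ ⌊T ^ θ⌋₊ := by
    rw [Nat.one_le_floor_iff]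
    exact Real.one_le_rpow hT1 hθ.le
  exact h1 T ((le_max_left _ _).trans hT) _ hN (Nat.floor_le (by positivity))

/-- **the phase transition** -/
theorem main {θ H : ℝ} (hθ : 1 / 2 < θ) (hH : 3 / 2 ≤ H) :
    (θ ≤ 2 → (LH ↔ Single θ H) ∧ (LH ↔ All θ H)) ∧ (2 < θ → ¬ Single θ H ∧ ¬ All θ H) := by
  refine ⟨fun h2 => ⟨⟨fun h => Single_of_All (by linarith) (All_of_LH h h2), LH_of_single hθ h2 hH⟩,
    ⟨fun h => All_of_LH h h2, fun h => LH_of_single hθ h2 hH (Single_of_All (by linarith) h)⟩⟩,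
    fun h2 => ⟨not_single h2 hH, fun h => not_single h2 hH (Single_of_All (by linarith) h)⟩⟩

end Pool.Agent.TH804.SS
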