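import Mathlib
import Pool.Agent.TH804.DL3
import Pool.Agent.W587.PL.G

/-!
Large values for families (`W587.PL.Fam2`).
-/

set_option autoImplicit false

open Complex Filter Topology Set
open W587.PL Pool.Agent.TH804.DL

set_option maxHeartbeats 4000000

namespace Pool.Agent.TH804.FM

variable {ι : Type*} {L : ι → ℂ → ℂ} {X Q : ι → ℝ → ℝ}

/-- `log Q - 4 log |L(1/2 + iT)| + ε log X` -/
noncomputable def DD (L : ι → ℂ → ℂ) (X Q : ι → ℝ → ℝ) (i : ι) (ε T : ℝ) : ℝ :=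
  Real.log (Q i T) - 4 * Real.log ‖L i (1 / 2 + T * Complex.I)‖ + ε * Real.log (X i T)

lemma order_shf (H : Fam2 L X Q) (i : ι) (T : ℝ) (z : ℂ) :
    analyticOrderNatAt (shf L i T) z = analyticOrderNatAt (L i) (1 / 2 + T * Complex.I + z) := by
  have h1 : shf L i T = L i ∘ fun z : ℂ => 1 / 2 + T * Complex.I + z := by
    funext z; rfl
  have h2 : AnalyticAt ℂ (fun z : ℂ => (1 / 2 + T * Complex.I + z : ℂ)) z := by fun_prop
  have h3 : deriv (fun z : ℂ => (1 / 2 + T * Complex.I + z : ℂ)) z ≠ 0 := by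
    rw [deriv_const_add, deriv_id'']
    exact one_ne_zero
  unfold analyticOrderNatAt
  rw [h1, analyticOrderAt_comp_of_deriv_ne_zero h2 h3]

theorem law (H : Fam2 L X Q) : ∃ c : ℝ, 0 < c ∧ c ≤ 1 / 2 ∧ ∀ ε : ℝ, 0 < ε → ε ≤ 1 →
    ∃ W X₁ : ℝ, 0 ≤ W ∧ 1 ≤ X₁ ∧ ∀ (i : ι) (T : ℝ), X₁ ≤ X i T → 1 ≤ ‖L i (1 / 2 + T * Complex.I)‖ →
      0 < DD L X Q i ε T ∧
      ∃ T₀ : ℝ, |T₀ - T| ≤ W ∧ ‖L i (1 / 2 + T * Complex.I)‖ ≤ ‖L i (1 / 2 + T₀ * Complex.I)‖ ∧
        (∀ t : ℝ, |t - T₀| ≤ Real.pi / DD L X Q i ε T →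
          X i T ^ (-ε) * ‖L i (1 / 2 + T * Complex.I)‖ ≤ ‖L i (1 / 2 + t * Complex.I)‖) ∧
        (∀ R : ℝ, 0 < R → R ≤ 1 / 2 → ∀ S : Finset ℂ,
          (∀ s ∈ S, ‖s - (1 / 2 + T₀ * Complex.I)‖ ≤ R) →
          ∑ s ∈ S, (analyticOrderNatAt (L i) s : ℝ) *
              Real.log (R / ‖s - (1 / 2 + T₀ * Complex.I)‖) ≤
            R / Real.pi * DD L X Q i ε T) ∧
        ∀ η R : ℝ, 0 < η → η ≤ 1 → 0 < R → R ≤ c * ε * η → ∀ S : Finset ℂ,
          (∀ s ∈ S, ‖s - (1 / 2 + T₀ * Complex.I)‖ ≤ R) →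
          (∀ s ∈ S, ‖L i s‖ ≤ X i T ^ (-ε) * ‖L i (1 / 2 + T * Complex.I)‖) →
          (∀ s ∈ S, ∀ s' ∈ S, s ≠ s' → η / Real.log (X i T) ≤ |s.im - s'.im|) →
          ∑ s ∈ S, Real.log (R / ‖s - (1 / 2 + T₀ * Complex.I)‖) ≤
            R / Real.pi * DD L X Q i ε T + 1 := by
  classical
  have hpi := Real.pi_pos
  obtain ⟨B, hB, hloc⟩ := H.loc
  set c : ℝ := 1 / (4 * (B + 7)) with hc
  have hc0 : 0 < c := by positivity
  have hc1 : (B + 7) * c = 1 / 4 := by rw [hc]; field_simp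
  have hc2 : c ≤ 1 / 2 := by
    rw [hc, div_le_div_iff₀ (by positivity) (by norm_num)]
    linarith
  refine ⟨c, hc0, hc2, fun ε hε hε1 => ?_⟩
  obtain ⟨a, δ, W, Λ₀, ha, ha', hδ, hW, hΛ₀, hlg⟩ :=
    large_local (ε := ε / 2) (B := B) (by linarith) (by linarith) hB
  obtain ⟨a₂, δ₂, W₂, ha₂, ha₂', hδ₂, hW₂, hcv⟩ :=
    convex_local (ε := ε / 8) (B := B) (by linarith) (by linarith) hB
  obtain ⟨Λ₁, hΛ₁⟩ := hloc a δ W ha ha' hδ (by linarith)
  obtain ⟨Λ₂, hΛ₂⟩ := hloc a₂ δ₂ W₂ ha₂ ha₂' hδ₂ hW₂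
  refine ⟨W, Real.exp (Λ₀ + |Λ₁| + |Λ₂| + 8 / ε), by linarith,
    Real.one_le_exp (by positivity), fun i T hX hV => ?_⟩
  have hX1 := H.X1 i T
  have hXp : 0 < X i T := by linarith
  set Λ : ℝ := Real.log (X i T) with hΛd
  set ℓ : ℝ := Real.log (Q i T) with hℓd
  have hΛ : Λ₀ + |Λ₁| + |Λ₂| + 8 / ε ≤ Λ := by
    have := Real.log_le_log (Real.exp_pos _) hX
    rwa [Real.log_exp] at this
  have hb1 := le_abs_self Λ₁
  have hb2 := le_abs_self Λ₂
  have hb3 := abs_nonneg Λ₁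
  have hb4 := abs_nonneg Λ₂
  have hb5 : 0 < 8 / ε := by positivity
  have hΛp : 0 < Λ := by linarith
  have hεΛ : 8 ≤ ε * Λ := by
    have h1 : 8 / ε ≤ Λ := by linarith
    rw [div_le_iff₀ hε] at h1; linarith
  have hL := hΛ₁ i T (by linarith)
  have hL2 := hΛ₂ i T (by linarith)
  set V : ℝ := ‖L i (1 / 2 + T * Complex.I)‖ with hVd
  have hV0 : 0 < V := by linarith
  have hsh0 : ‖shf L i T 0‖ = V := by rw [shf_zero]
  have hcx := hcv _ _ _ hΛp.le hL2
  rw [hsh0] at hcx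
  have hlV : Real.log V ≤ ε / 8 * Λ + ℓ / 4 := (Real.log_le_iff_le_exp hV0).2 hcx
  have hDD : DD L X Q i ε T = ℓ - 4 * Real.log V + ε * Λ := rfl
  have hmax : max (ℓ - 4 * Real.log V) 0 + ε / 2 * Λ ≤ DD L X Q i ε T := by
    rw [hDD]
    rcases max_cases (ℓ - 4 * Real.log V) 0 with ⟨h, _⟩ | ⟨h, _⟩ <;> rw [h]
    · linarith
    · linarith
  have hmx : 0 ≤ max (ℓ - 4 * Real.log V) 0 := le_max_right _ _
  have hD0 : 0 < DD L X Q i ε T := by linarith
  have hexp2 : Real.exp (-(ε * Λ)) ≤ Real.exp (-(ε / 2 * Λ)) := by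
    apply Real.exp_le_exp.2
    linarith
  have hTε : X i T ^ (-ε) = Real.exp (-(ε * Λ)) := by
    rw [Real.rpow_def_of_pos hXp]; congr 1; ring
  refine ⟨hD0, ?_⟩
  obtain ⟨y₀, hy₀, hy₁, hpl, hzer, hden⟩ := hlg (shf L i T) Λ ℓ (by linarith) hL (by rw [hsh0]; exact hV)
  rw [hsh0] at hy₁ hpl hzer hden
  have hy₀W : |y₀| ≤ W := by linarith
  have hcomp : ∀ y : ℝ, shf L i T (y * I) = L i (1 / 2 + ((T + y : ℝ) : ℂ) * Complex.I) := by
    intro y
    unfold shf
    congr 1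
    push_cast; ring
  have hcen : ∀ s : ℂ, s - (1 / 2 + ((T + y₀ : ℝ) : ℂ) * Complex.I) =
      (s - (1 / 2 + T * Complex.I)) - y₀ * I := by
    intro s; push_cast; ring
  refine ⟨T + y₀, by rw [add_sub_cancel_left]; exact hy₀W, ?_, fun t ht => ?_, ?_, ?_⟩
  · rw [← hcomp]; exact hy₁
  · rw [le_div_iff₀ hD0] at ht
    set b : ℝ := t - (T + y₀) with hb
    have h1 := hpl b ((mul_le_mul_of_nonneg_left hmax (abs_nonneg _)).trans ht)
    rw [hcomp] at h1
    have e : T + (y₀ + b) = t := by rw [hb]; ring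
    rw [e] at h1
    rw [hTε]
    exact (mul_le_mul_of_nonneg_right hexp2 hV0.le).trans h1
  · intro R hR hR2 S hS
    have h1 := hzer R hR hR2 (S.image (fun s => s - (1 / 2 + T * Complex.I))) (by
        intro z hz
        obtain ⟨s, hs, rfl⟩ := Finset.mem_image.1 hz
        have := hS s hs
        rwa [hcen] at this)
    rw [Finset.sum_image (fun z _ w _ h => sub_left_injective h)] at h1
    have h2 : ∑ s ∈ S, (analyticOrderNatAt (L i) s : ℝ) *
          Real.log (R / ‖s - (1 / 2 + ((T + y₀ : ℝ) : ℂ) * Complex.I)‖) =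
        ∑ s ∈ S, (analyticOrderNatAt (shf L i T) (s - (1 / 2 + T * Complex.I)) : ℝ) *
          Real.log (R / ‖s - (1 / 2 + T * Complex.I) - y₀ * I‖) := by
      refine Finset.sum_congr rfl fun s hs => ?_
      have e5 : (1 / 2 + T * Complex.I + (s - (1 / 2 + T * Complex.I)) : ℂ) = s := by ring
      rw [order_shf H, e5, hcen]
    rw [h2]
    exact h1.trans (mul_le_mul_of_nonneg_left hmax (by positivity))
  · intro η R hη hη1 hR hRle S hS hSz hsep
    have hcond : 6 * R / (η / Λ) + (B + 1) * Λ * R + 2 ≤ ε / 2 * Λ := by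
      have h1 : 6 * R / (η / Λ) = 6 * (R / η) * Λ := by field_simp
      have h2 : R / η ≤ c * ε := by rw [div_le_iff₀ hη]; exact hRle
      have h3 : R ≤ c * ε := by
        refine hRle.trans ?_
        calc c * ε * η ≤ c * ε * 1 := mul_le_mul_of_nonneg_left hη1 (by positivity)
          _ = c * ε := mul_one _
      rw [h1]
      have h4 : 6 * (R / η) * Λ ≤ 6 * (c * ε) * Λ := by
        apply mul_le_mul_of_nonneg_right _ hΛp.le
        linarith
      have h5 : (B + 1) * Λ * R ≤ (B + 1) * Λ * (c * ε) := mul_le_mul_of_nonneg_left h3 (by positivity)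
      have h6 : 6 * (c * ε) * Λ + (B + 1) * Λ * (c * ε) = ((B + 7) * c) * (ε * Λ) := by ring
      rw [hc1] at h6
      linarith
    have hR2 : R ≤ 1 / 2 := by
      refine hRle.trans ?_
      calc c * ε * η ≤ (1 / 2) * 1 * 1 := by
            apply mul_le_mul _ hη1 hη.le (by norm_num)
            exact mul_le_mul hc2 hε1 hε.le (by norm_num)
        _ = 1 / 2 := by norm_num
    have h1 := hden R (η / Λ) hR hR2 (by positivity) hcond
      (S.image (fun s => s - (1 / 2 + T * Complex.I))) (by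
        intro z hz
        obtain ⟨s, hs, rfl⟩ := Finset.mem_image.1 hz
        have := hS s hs
        rwa [hcen] at this) (by
        intro z hz
        obtain ⟨s, hs, rfl⟩ := Finset.mem_image.1 hz
        have e5 : shf L i T (s - (1 / 2 + T * Complex.I)) = L i s := by
          unfold shf; congr 1; ring
        have h7 := hSz s hs
        rw [hTε] at h7
        rw [e5]
        exact h7.trans (mul_le_mul_of_nonneg_right hexp2 hV0.le)) (by
        intro z hz w hw hne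
        obtain ⟨s, hs, rfl⟩ := Finset.mem_image.1 hz
        obtain ⟨s', hs', rfl⟩ := Finset.mem_image.1 hw
        have h2 := hsep s hs s' hs' (fun h => hne (by rw [h]))
        have e : (s - (1 / 2 + (T : ℂ) * Complex.I)).im - (s' - (1 / 2 + (T : ℂ) * Complex.I)).im =
            s.im - s'.im := by simp
        rw [e]
        exact h2)
    rw [Finset.sum_image (fun z _ w _ h => sub_left_injective h)] at h1
    have h2 : ∑ s ∈ S, Real.log (R / ‖s - (1 / 2 + ((T + y₀ : ℝ) : ℂ) * Complex.I)‖) =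
        ∑ s ∈ S, Real.log (R / ‖s - (1 / 2 + T * Complex.I) - y₀ * I‖) :=
      Finset.sum_congr rfl fun s _ => by rw [hcen]
    rw [h2]
    refine h1.trans ?_
    have h3 := mul_le_mul_of_nonneg_left hmax (by positivity : 0 ≤ R / Real.pi)
    linarith

end Pool.Agent.TH804.FM
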