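import Mathlib
import Pool.Agent.TH804.FM1
import Pool.Agent.TH804.MS3

/-!
Density criteria for families.
-/

set_option autoImplicit false

open Complex Filter Topology Set
open W587.PL Pool.Agent.TH804.DL Pool.Agent.TH804.MS

set_option maxHeartbeats 4000000

namespace Pool.Agent.TH804.FM

variable {ι : Type*} {L : ι → ℂ → ℂ} {X Q : ι → ℝ → ℝ}

/-- For every `ε > 0` there are `η > 0` and arbitrarily small `r > 0` such that for all `i`, `T` with `X i T` large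
there are at least `(1/θ) (r / 2π) log Q - ε r log X` points `s` with `|Re s - 1/2| ≤ r`, `T ≤ Im s ≤ T + r` and
`|L i s| ≤ X^(κ + ε)`, the ordinates of any two of which differ by at least `η / log X`. -/
def Dense (L : ι → ℂ → ℂ) (X Q : ι → ℝ → ℝ) (θ κ : ℝ) : Prop := ∀ ε : ℝ, 0 < ε → ∃ η : ℝ, 0 < η ∧
  ∀ r₀ : ℝ, 0 < r₀ → ∃ r X₀ : ℝ, 0 < r ∧ r ≤ r₀ ∧ ∀ (i : ι) (T : ℝ), X₀ ≤ X i T → ∃ S : Finset ℂ,
    (∀ s ∈ S, |s.re - 1 / 2| ≤ r ∧ T ≤ s.im ∧ s.im ≤ T + r ∧ ‖L i s‖ ≤ X i T ^ (κ + ε)) ∧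
    (∀ s ∈ S, ∀ s' ∈ S, s ≠ s' → η / Real.log (X i T) ≤ |s.im - s'.im|) ∧
    r * Real.log (Q i T) / (2 * Real.pi * θ) ≤ S.card + ε * r * Real.log (X i T)

/-- For every `ε > 0` there are arbitrarily small `r > 0` such that for all `i`, `T` with `X i T` large
the box `|Re s - 1/2| ≤ r`, `T ≤ Im s < T + r` contains at least `(1 - δ) (r / 2π) log Q - ε r log X` zeros of
`L i`, counted with multiplicities. -/
def ZeroDense (L : ι → ℂ → ℂ) (X Q : ι → ℝ → ℝ) (δ : ℝ) : Prop := ∀ ε : ℝ, 0 < ε →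
  ∀ r₀ : ℝ, 0 < r₀ → ∃ r X₀ : ℝ, 0 < r ∧ r ≤ r₀ ∧ ∀ (i : ι) (T : ℝ), X₀ ≤ X i T → ∃ S : Finset ℂ,
    (∀ s ∈ S, |s.re - 1 / 2| ≤ r ∧ T ≤ s.im ∧ s.im < T + r) ∧
    (1 - δ) * (r * Real.log (Q i T) / (2 * Real.pi)) ≤
      ∑ s ∈ S, (analyticOrderNatAt (L i) s : ℝ) + ε * r * Real.log (X i T)

/-- from large `X` to all `X` -/
lemma bound_of_large (H : Fam2 L X Q) {ε : ℝ} (hε : 0 ≤ ε) {M : ι → ℝ → ℝ} (hM : ∀ i T, 1 ≤ M i T) {X₃ : ℝ}
    (h : ∀ (i : ι) (T : ℝ), X₃ ≤ X i T → ‖L i (1 / 2 + T * Complex.I)‖ ≤ X i T ^ ε * M i T) :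
    ∃ B : ℝ, ∀ (i : ι) (T : ℝ), ‖L i (1 / 2 + T * Complex.I)‖ ≤ B * X i T ^ ε * M i T := by
  obtain ⟨CC, BC, hCC, hBC, hcr⟩ := H.crude
  refine ⟨1 + CC * (1 + |X₃|) ^ BC, fun i T => ?_⟩
  have hX1 := H.X1 i T
  have hXp : 0 < X i T := by linarith
  have hXε : 1 ≤ X i T ^ ε := Real.one_le_rpow hX1 hε
  have hMi := hM i T
  have hBB : 1 ≤ 1 + CC * (1 + |X₃|) ^ BC := by
    have : 0 ≤ CC * (1 + |X₃|) ^ BC := by positivity
    linarith
  rcases lt_or_ge (X i T) X₃ with hs | hl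
  · have h1 := hcr i (1 / 2 + T * I) (by simp; norm_num)
    have e1 : ((1 / 2 : ℂ) + T * I).im = T := by simp
    rw [e1] at h1
    have h2 : X i T ^ BC ≤ (1 + |X₃|) ^ BC :=
      Real.rpow_le_rpow hXp.le (by linarith [le_abs_self X₃]) hBC
    have h3 : CC * X i T ^ BC ≤ CC * (1 + |X₃|) ^ BC := mul_le_mul_of_nonneg_left h2 hCC
    have h4 : 1 + CC * (1 + |X₃|) ^ BC ≤ (1 + CC * (1 + |X₃|) ^ BC) * (X i T ^ ε * M i T) :=
      le_mul_of_one_le_right (by linarith) (one_le_mul_of_one_le_of_one_le hXε hMi)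
    rw [mul_assoc]
    linarith
  · rw [mul_assoc]
    exact (h i T hl).trans (le_mul_of_one_le_left (by positivity) hBB)

/-- **the density criterion** for small values -/
theorem bound_of_dense (H : Fam2 L X Q) {θ κ : ℝ} (hθ : 0 < θ) (hκ : 0 ≤ κ) (hD : Dense L X Q θ κ)
    {ε' : ℝ} (hε' : 0 < ε') : ∃ B : ℝ, ∀ (i : ι) (T : ℝ),
      ‖L i (1 / 2 + T * Complex.I)‖ ≤ B * X i T ^ ε' * max (X i T ^ κ) (Q i T ^ ((1 - 1 / θ) / 4)) := by
  have hpi := Real.pi_pos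
  obtain ⟨mX, hmX, hXs⟩ := H.Xs
  obtain ⟨mQ, hmQ, hQs⟩ := H.Qs
  obtain ⟨BQ, hBQ, hQX⟩ := H.QX
  obtain ⟨c₀, hc₀, hc₀1, hlw⟩ := law H
  -- parameters
  set ε : ℝ := min (ε' / 2) 1 with hεd
  have hε0 : 0 < ε := lt_min (by linarith) one_pos
  have hε1 : ε ≤ 1 := min_le_right _ _
  have hεε' : 2 * ε ≤ ε' := by
    have : ε ≤ ε' / 2 := min_le_left _ _
    linarith
  obtain ⟨W, X₁, hW, hX₁, hlz⟩ := hlw ε hε0 hε1
  set ε₂ : ℝ := min (ε / 2) (ε / (8 * Real.pi)) with hε₂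
  have hε₂0 : 0 < ε₂ := lt_min (by linarith) (by positivity)
  have hε₂1 : ε₂ ≤ ε / 2 := min_le_left _ _
  have hε₂2 : 8 * Real.pi * ε₂ ≤ ε := by
    have h1 : ε₂ ≤ ε / (8 * Real.pi) := min_le_right _ _
    rw [le_div_iff₀ (by positivity)] at h1
    linarith
  obtain ⟨η, hη, hdense⟩ := hD ε₂ hε₂0
  set η' : ℝ := min η 1 / 2 with hη'
  have hη'0 : 0 < η' := by
    have : 0 < min η 1 := lt_min hη one_pos
    rw [hη']; linarith
  have hη'1 : η' ≤ 1 := by
    have : min η 1 ≤ 1 := min_le_right _ _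
    rw [hη']; linarith
  have hη'2 : 2 * η' ≤ η := by
    have : min η 1 ≤ η := min_le_left _ _
    rw [hη']; linarith
  obtain ⟨n, hn2, hnL⟩ := exists_LL (ν := ε * θ / (1 + BQ)) (by positivity)
  have hn0 : (0:ℝ) < n := by
    have : (2:ℝ) ≤ n := by exact_mod_cast hn2
    linarith
  obtain ⟨r, X₂, hr, hrle, hS⟩ := hdense (c₀ * ε * η' / n) (by positivity)
  set R : ℝ := n * r with hR
  have hR0 : 0 < R := by positivity
  have hRle : R ≤ c₀ * ε * η' := by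
    rw [hR]
    calc n * r ≤ n * (c₀ * ε * η' / n) := mul_le_mul_of_nonneg_left hrle hn0.le
      _ = c₀ * ε * η' := by field_simp
  have hR1 : R ≤ 1 := by
    refine hRle.trans ?_
    calc c₀ * ε * η' ≤ (1 / 2) * 1 * 1 := by
          apply mul_le_mul _ hη'1 hη'0.le (by norm_num)
          exact mul_le_mul hc₀1 hε1 hε0.le (by norm_num)
      _ ≤ 1 := by norm_num
  -- distortions
  set PW : ℝ := (2 + W) ^ mX with hPW
  set QW : ℝ := (2 + W) ^ mQ with hQW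
  have hPW1 : 1 ≤ PW := Real.one_le_rpow (by linarith) hmX
  have hQW1 : 1 ≤ QW := Real.one_le_rpow (by linarith) hmQ
  have hlP : 0 ≤ Real.log PW := Real.log_nonneg hPW1
  have hlQ : 0 ≤ Real.log QW := Real.log_nonneg hQW1
  set K₁ : ℝ := PW ^ (κ + ε / 2) with hK₁
  have hK₁1 : 1 ≤ K₁ := Real.one_le_rpow hPW1 (by linarith)
  -- the constant
  set C : ℝ := r * Real.log QW / (2 * Real.pi * θ) + 2 with hC
  have hC0 : 0 < C := by positivity
  set K : ℝ := (2 * C * n + 1) * Real.pi / R with hK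
  have hK0 : 0 < K := by positivity
  have hb1 := abs_nonneg X₂
  have hb2 : 0 ≤ K₁ ^ (1 / (ε / 2)) := by positivity
  refine bound_of_large H hε'.le (M := fun i T => max (X i T ^ κ) (Q i T ^ ((1 - 1 / θ) / 4)))
    (fun i T => (Real.one_le_rpow (H.X1 i T) hκ).trans (le_max_left _ _))
    (X₃ := X₁ + PW * (1 + |X₂|) + K₁ ^ (1 / (ε / 2)) + Real.exp (Real.log PW + K / ε' + 1)) fun i T hX => ?_
  have hb3 := Real.exp_pos (Real.log PW + K / ε' + 1)
  have hX1 := H.X1 i T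
  have hXp : 0 < X i T := by linarith
  have hQ1 := H.Q1 i T
  have hQp : 0 < Q i T := by linarith
  have hPX : 0 ≤ PW * (1 + |X₂|) := by positivity
  set Λ : ℝ := Real.log (X i T) with hΛ
  set ℓ : ℝ := Real.log (Q i T) with hℓ
  have hℓ0 : 0 ≤ ℓ := Real.log_nonneg hQ1
  have hΛ1 : Real.log PW + K / ε' + 1 ≤ Λ := by
    rw [hΛ, Real.le_log_iff_exp_le hXp]
    linarith
  have hKε : 0 < K / ε' := by positivity
  have hΛ0 : 0 < Λ := by linarith
  have hKΛ : K ≤ ε' * Λ := by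
    have h1 : K / ε' ≤ Λ := by linarith
    rw [div_le_iff₀ hε'] at h1
    linarith
  have hℓB : ℓ ≤ BQ * Λ := by
    have h1 := Real.log_le_log hQp (hQX i T)
    rwa [Real.log_rpow hXp] at h1
  set V : ℝ := ‖L i (1 / 2 + T * Complex.I)‖ with hV
  show V ≤ X i T ^ ε' * max (X i T ^ κ) (Q i T ^ ((1 - 1 / θ) / 4))
  rcases le_or_gt V (X i T ^ (κ + ε')) with hVs | hVl
  · refine hVs.trans ?_
    rw [add_comm, Real.rpow_add hXp]
    exact mul_le_mul_of_nonneg_left (le_max_left _ _) (by positivity)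
  have hV1 : 1 ≤ V := (Real.one_le_rpow hX1 (by linarith)).trans hVl.le
  have hV0 : 0 < V := by linarith
  obtain ⟨hpos, T₀, hT₀, -, -, -, hlaw⟩ := hlz i T (by linarith) hV1
  rw [← hV] at hlaw
  -- windows
  have hwin : ∀ k : ℤ, -(n : ℤ) ≤ k → k ≤ n → ∃ A : Finset ℂ,
      (∀ s ∈ A, |s.re - 1 / 2| ≤ r ∧ T₀ + k * r ≤ s.im ∧ s.im ≤ T₀ + k * r + r ∧
        ‖L i s‖ ≤ X i T ^ (-ε) * V) ∧
      (∀ s ∈ A, ∀ s' ∈ A, s ≠ s' → 2 * (η' / (2 * Λ)) ≤ |s.im - s'.im|) ∧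
      r * (ℓ - Real.log QW) / (2 * Real.pi * θ) - 2 * ε₂ * r * Λ ≤ A.card := by
    intro k hk1 hk2
    have hk1' : -(n:ℝ) ≤ k := by exact_mod_cast hk1
    have hk2' : (k:ℝ) ≤ n := by exact_mod_cast hk2
    have hkr1 : -R ≤ k * r := by
      rw [hR]
      have := mul_le_mul_of_nonneg_right hk1' hr.le
      linarith
    have hkr2 : k * r ≤ R := mul_le_mul_of_nonneg_right hk2' hr.le
    set T' : ℝ := T₀ + k * r with hT'
    have hTT : |T' - T| ≤ 1 + W := by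
      have h1 : |(k:ℝ) * r| ≤ R := abs_le.2 ⟨hkr1, hkr2⟩
      have h2 : T' - T = (T₀ - T) + k * r := by rw [hT']; ring
      rw [h2]
      have := abs_add_le (T₀ - T) (k * r)
      linarith
    have hX' : X i T' ≤ PW * X i T := by
      have h1 := hXs i T (T' - T)
      rw [add_sub_cancel] at h1
      refine h1.trans (mul_le_mul_of_nonneg_right ?_ hXp.le)
      exact Real.rpow_le_rpow (by positivity) (by linarith) hmX
    have hX'' : X i T ≤ PW * X i T' := by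
      have h1 := hXs i T' (T - T')
      rw [add_sub_cancel] at h1
      refine h1.trans (mul_le_mul_of_nonneg_right ?_ (by linarith [H.X1 i T']))
      exact Real.rpow_le_rpow (by positivity) (by rw [abs_sub_comm]; linarith) hmX
    have hQ'' : Q i T ≤ QW * Q i T' := by
      have h1 := hQs i T' (T - T')
      rw [add_sub_cancel] at h1
      refine h1.trans (mul_le_mul_of_nonneg_right ?_ (by linarith [H.Q1 i T']))
      exact Real.rpow_le_rpow (by positivity) (by rw [abs_sub_comm]; linarith) hmQ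
    have hX'1 := H.X1 i T'
    have hX'0 : 0 < X i T' := by linarith
    have hQ'1 := H.Q1 i T'
    have hX₂ : X₂ ≤ X i T' := by
      have h1 : PW * (1 + |X₂|) ≤ PW * X i T' := by linarith
      have h2 := le_of_mul_le_mul_left h1 (by linarith)
      linarith [le_abs_self X₂]
    have hlogX : Real.log (X i T') ≤ 2 * Λ := by
      have h1 := Real.log_le_log hX'0 hX'
      rw [Real.log_mul (by linarith) hXp.ne'] at h1
      linarith
    have hlogX0 : 0 < Real.log (X i T') := by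
      have h1 := Real.log_le_log hXp hX''
      rw [Real.log_mul (by linarith) hX'0.ne'] at h1
      linarith
    have hlogQ : ℓ - Real.log QW ≤ Real.log (Q i T') := by
      have h1 := Real.log_le_log hQp hQ''
      rw [Real.log_mul (by linarith) (by linarith)] at h1
      linarith
    obtain ⟨A, hA1, hA2, hA3⟩ := hS i T' hX₂
    refine ⟨A, fun s hs => ?_, fun s hs s' hs' hne => ?_, ?_⟩
    · obtain ⟨h1, h2, h3, h4⟩ := hA1 s hs
      refine ⟨h1, h2, h3, h4.trans ?_⟩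
      have h5 : X i T' ^ (κ + ε₂) ≤ K₁ * X i T ^ (κ + ε / 2) := by
        rw [hK₁, ← Real.mul_rpow (by linarith) hXp.le]
        refine (Real.rpow_le_rpow_of_exponent_le hX'1 (by linarith : κ + ε₂ ≤ κ + ε / 2)).trans ?_
        exact Real.rpow_le_rpow hX'0.le hX' (by linarith)
      have h6 : K₁ ≤ X i T ^ (ε / 2) := large_of_rpow (by linarith) (by linarith) (by linarith)
      calc X i T' ^ (κ + ε₂) ≤ K₁ * X i T ^ (κ + ε / 2) := h5
        _ ≤ X i T ^ (ε / 2) * X i T ^ (κ + ε / 2) := mul_le_mul_of_nonneg_right h6 (by positivity)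
        _ = X i T ^ (κ + ε) := by rw [← Real.rpow_add hXp]; congr 1; ring
        _ ≤ X i T ^ (-ε + (κ + ε')) := Real.rpow_le_rpow_of_exponent_le hX1 (by linarith)
        _ = X i T ^ (-ε) * X i T ^ (κ + ε') := Real.rpow_add hXp _ _
        _ ≤ X i T ^ (-ε) * V := mul_le_mul_of_nonneg_left hVl.le (by positivity)
    · refine le_trans ?_ (hA2 s hs s' hs' hne)
      have e : 2 * (η' / (2 * Λ)) = η' / Λ := by field_simp
      rw [e, div_le_div_iff₀ hΛ0 hlogX0]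
      calc η' * Real.log (X i T') ≤ η' * (2 * Λ) := mul_le_mul_of_nonneg_left hlogX hη'0.le
        _ = 2 * η' * Λ := by ring
        _ ≤ η * Λ := mul_le_mul_of_nonneg_right hη'2 hΛ0.le
    · have h1 : r * (ℓ - Real.log QW) / (2 * Real.pi * θ) ≤ r * Real.log (Q i T') / (2 * Real.pi * θ) := by
        apply div_le_div_of_nonneg_right _ (by positivity)
        exact mul_le_mul_of_nonneg_left hlogQ hr.le
      have h2 : ε₂ * r * Real.log (X i T') ≤ ε₂ * r * (2 * Λ) :=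
        mul_le_mul_of_nonneg_left hlogX (by positivity)
      linarith
  obtain ⟨S, hS1, hS2, hS3⟩ := assemble (n := n) hr (d := η' / (2 * Λ)) (by positivity)
    (fun s => ‖L i s‖ ≤ X i T ^ (-ε) * V) hwin
  have hl := hlaw η' R hη'0 hη'1 hR0 hRle S (fun s hs => (hS1 s hs).2) (fun s hs => (hS1 s hs).1)
    (fun s hs s' hs' hne => by
      have h1 := hS2 s hs s' hs' hne
      have e : 2 * (η' / (2 * Λ)) = η' / Λ := by field_simp
      rwa [e] at h1)
  have hmain := hS3.trans hl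
  -- the conclusion
  have hLn : LL n ≤ n := LL_le (by omega)
  have hL0 : 0 ≤ LL n := LL_nonneg n
  have hDD : DD L X Q i ε T = ℓ - 4 * Real.log V + ε * Λ := rfl
  rw [hDD] at hmain
  have hc : r * (ℓ - Real.log QW) / (2 * Real.pi * θ) - 2 * ε₂ * r * Λ - 2 =
      r * ℓ / (2 * Real.pi * θ) - (C + 2 * ε₂ * r * Λ) := by
    rw [hC]; ring
  rw [hc] at hmain
  have hm1 : 2 * (r * ℓ / (2 * Real.pi * θ) - (C + 2 * ε₂ * r * Λ)) * LL n =
      r * ℓ / (Real.pi * θ) * LL n - 2 * (C + 2 * ε₂ * r * Λ) * LL n := by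
    field_simp
  have hm2 : r * ℓ / (Real.pi * θ) * ((1 - ε * θ / (1 + BQ)) * n) ≤ r * ℓ / (Real.pi * θ) * LL n :=
    mul_le_mul_of_nonneg_left hnL (by positivity)
  have hm3 : r * ℓ / (Real.pi * θ) * ((1 - ε * θ / (1 + BQ)) * n) =
      R / Real.pi * (1 / θ * ℓ - ε / (1 + BQ) * ℓ) := by
    rw [hR]; field_simp
  have hm4 : 2 * (C + 2 * ε₂ * r * Λ) * LL n ≤ 2 * (C + 2 * ε₂ * r * Λ) * n :=
    mul_le_mul_of_nonneg_left hLn (by positivity)
  have hm5 : 2 * (C + 2 * ε₂ * r * Λ) * n = 2 * C * n + R / Real.pi * (4 * Real.pi * ε₂ * Λ) := by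
    rw [hR]; field_simp; ring
  have hm6 : ε / (1 + BQ) * ℓ ≤ ε * Λ := by
    rw [div_mul_eq_mul_div, div_le_iff₀ (by linarith)]
    have : ℓ ≤ (1 + BQ) * Λ := by linarith
    calc ε * ℓ ≤ ε * ((1 + BQ) * Λ) := mul_le_mul_of_nonneg_left this hε0.le
      _ = ε * Λ * (1 + BQ) := by ring
  have hm7 : R / Real.pi * K = 2 * C * n + 1 := by
    rw [hK]; field_simp
  have hm8 : R / Real.pi * (1 / θ * ℓ - ε / (1 + BQ) * ℓ) ≤
      R / Real.pi * (ℓ - 4 * Real.log V + ε * Λ + 4 * Real.pi * ε₂ * Λ + K) := by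
    have e : R / Real.pi * (ℓ - 4 * Real.log V + ε * Λ + 4 * Real.pi * ε₂ * Λ + K) =
      R / Real.pi * (ℓ - 4 * Real.log V + ε * Λ) + R / Real.pi * (4 * Real.pi * ε₂ * Λ) +
        R / Real.pi * K := by ring
    rw [e, hm7]
    linarith
  have hm9 := le_of_mul_le_mul_left hm8 (by positivity)
  have hm10 : 8 * Real.pi * ε₂ * Λ ≤ ε * Λ := mul_le_mul_of_nonneg_right hε₂2 hΛ0.le
  have hm11 : 2 * ε * Λ ≤ ε' * Λ := mul_le_mul_of_nonneg_right hεε' hΛ0.le
  have hεΛ : 0 < ε * Λ := by positivity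
  have hlV : Real.log V ≤ ε' * Λ + (1 - 1 / θ) / 4 * ℓ := by
    have e : (1 - 1 / θ) / 4 * ℓ = (ℓ - 1 / θ * ℓ) / 4 := by ring
    rw [e]
    linarith
  calc V ≤ Real.exp (ε' * Λ + (1 - 1 / θ) / 4 * ℓ) := (Real.log_le_iff_le_exp hV0).1 hlV
    _ = X i T ^ ε' * Q i T ^ ((1 - 1 / θ) / 4) := by
        rw [Real.exp_add, Real.rpow_def_of_pos hXp, Real.rpow_def_of_pos hQp]
        congr 2 <;> ring
    _ ≤ _ := mul_le_mul_of_nonneg_left (le_max_right _ _) (by positivity)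

/-- **zeros near the critical line** -/
theorem bound_of_zeros (H : Fam2 L X Q) {δ : ℝ} (hδ0 : 0 ≤ δ) (hδ1 : δ ≤ 1) (hD : ZeroDense L X Q δ)
    {ε' : ℝ} (hε' : 0 < ε') : ∃ B : ℝ, ∀ (i : ι) (T : ℝ),
      ‖L i (1 / 2 + T * Complex.I)‖ ≤ B * X i T ^ ε' * Q i T ^ (δ / 4) := by
  have hpi := Real.pi_pos
  obtain ⟨mX, hmX, hXs⟩ := H.Xs
  obtain ⟨mQ, hmQ, hQs⟩ := H.Qs
  obtain ⟨BQ, hBQ, hQX⟩ := H.QX
  obtain ⟨c₀, hc₀, hc₀1, hlw⟩ := law H
  -- parameters
  set ε : ℝ := min (ε' / 2) 1 with hεd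
  have hε0 : 0 < ε := lt_min (by linarith) one_pos
  have hε1 : ε ≤ 1 := min_le_right _ _
  have hεε' : 2 * ε ≤ ε' := by
    have : ε ≤ ε' / 2 := min_le_left _ _
    linarith
  obtain ⟨W, X₁, hW, hX₁, hlz⟩ := hlw ε hε0 hε1
  set ε₂ : ℝ := ε / (8 * Real.pi) with hε₂
  have hε₂0 : 0 < ε₂ := by positivity
  have hε₂2 : 8 * Real.pi * ε₂ ≤ ε := by
    rw [hε₂]; apply le_of_eq; field_simp
  obtain ⟨n, hn2, hnL⟩ := exists_LL (ν := ε / (1 + BQ)) (by positivity)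
  have hn0 : (0:ℝ) < n := by
    have : (2:ℝ) ≤ n := by exact_mod_cast hn2
    linarith
  obtain ⟨r, X₂, hr, hrle, hS⟩ := hD ε₂ hε₂0 (1 / (2 * n)) (by positivity)
  set R : ℝ := n * r with hR
  have hR0 : 0 < R := by positivity
  have hRle : R ≤ 1 / 2 := by
    rw [hR]
    calc n * r ≤ n * (1 / (2 * n)) := mul_le_mul_of_nonneg_left hrle hn0.le
      _ = 1 / 2 := by field_simp
  -- distortions
  set PW : ℝ := (2 + W) ^ mX with hPW
  set QW : ℝ := (2 + W) ^ mQ with hQW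
  have hPW1 : 1 ≤ PW := Real.one_le_rpow (by linarith) hmX
  have hQW1 : 1 ≤ QW := Real.one_le_rpow (by linarith) hmQ
  have hlP : 0 ≤ Real.log PW := Real.log_nonneg hPW1
  have hlQ : 0 ≤ Real.log QW := Real.log_nonneg hQW1
  have hb1 := abs_nonneg X₂
  refine bound_of_large H hε'.le (M := fun i T => Q i T ^ (δ / 4))
    (fun i T => Real.one_le_rpow (H.Q1 i T) (by linarith))
    (X₃ := X₁ + PW * (1 + |X₂|) + Real.exp (Real.log PW + Real.log QW / ε' + 1)) fun i T hX => ?_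
  have hb3 := Real.exp_pos (Real.log PW + Real.log QW / ε' + 1)
  have hX1 := H.X1 i T
  have hXp : 0 < X i T := by linarith
  have hQ1 := H.Q1 i T
  have hQp : 0 < Q i T := by linarith
  have hPX : 0 ≤ PW * (1 + |X₂|) := by positivity
  set Λ : ℝ := Real.log (X i T) with hΛ
  set ℓ : ℝ := Real.log (Q i T) with hℓ
  have hℓ0 : 0 ≤ ℓ := Real.log_nonneg hQ1
  have hΛ1 : Real.log PW + Real.log QW / ε' + 1 ≤ Λ := by
    rw [hΛ, Real.le_log_iff_exp_le hXp]
    linarith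
  have hKε : 0 ≤ Real.log QW / ε' := by positivity
  have hΛ0 : 0 < Λ := by linarith
  have hKΛ : Real.log QW ≤ ε' * Λ := by
    have h1 : Real.log QW / ε' ≤ Λ := by linarith
    rw [div_le_iff₀ hε'] at h1
    linarith
  have hℓB : ℓ ≤ BQ * Λ := by
    have h1 := Real.log_le_log hQp (hQX i T)
    rwa [Real.log_rpow hXp] at h1
  set V : ℝ := ‖L i (1 / 2 + T * Complex.I)‖ with hV
  show V ≤ X i T ^ ε' * Q i T ^ (δ / 4)
  have hXε' : 1 ≤ X i T ^ ε' := Real.one_le_rpow hX1 hε'.le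
  have hQδ : 1 ≤ Q i T ^ (δ / 4) := Real.one_le_rpow hQ1 (by linarith)
  rcases le_or_gt V 1 with hVs | hVl
  · exact hVs.trans (one_le_mul_of_one_le_of_one_le hXε' hQδ)
  have hV1 : 1 ≤ V := hVl.le
  have hV0 : 0 < V := by linarith
  obtain ⟨hpos, T₀, hT₀, hLT₀, -, hlaw, -⟩ := hlz i T (by linarith) hV1
  rw [← hV] at hLT₀
  have hw0 : (analyticOrderNatAt (L i) (1 / 2 + T₀ * Complex.I) : ℝ) = 0 := by
    have h1 : L i (1 / 2 + T₀ * Complex.I) ≠ 0 := by
      intro h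
      rw [h, norm_zero] at hLT₀
      linarith
    by_contra h2
    exact h1 (apply_eq_zero_of_analyticOrderNatAt_ne_zero (by exact_mod_cast h2))
  -- windows
  have hwin : ∀ k : ℤ, -(n : ℤ) ≤ k → k ≤ n → ∃ A : Finset ℂ,
      (∀ s ∈ A, |s.re - 1 / 2| ≤ r ∧ T₀ + k * r ≤ s.im ∧ s.im < T₀ + k * r + r) ∧
      (1 - δ) * (r * (ℓ - Real.log QW) / (2 * Real.pi)) - 2 * ε₂ * r * Λ ≤
        ∑ s ∈ A, (analyticOrderNatAt (L i) s : ℝ) := by
    intro k hk1 hk2
    have hk1' : -(n:ℝ) ≤ k := by exact_mod_cast hk1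
    have hk2' : (k:ℝ) ≤ n := by exact_mod_cast hk2
    have hkr1 : -R ≤ k * r := by
      rw [hR]
      have := mul_le_mul_of_nonneg_right hk1' hr.le
      linarith
    have hkr2 : k * r ≤ R := mul_le_mul_of_nonneg_right hk2' hr.le
    set T' : ℝ := T₀ + k * r with hT'
    have hTT : |T' - T| ≤ 1 + W := by
      have h1 : |(k:ℝ) * r| ≤ R := abs_le.2 ⟨hkr1, hkr2⟩
      have h2 : T' - T = (T₀ - T) + k * r := by rw [hT']; ring
      rw [h2]
      have := abs_add_le (T₀ - T) (k * r)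
      linarith
    have hX' : X i T' ≤ PW * X i T := by
      have h1 := hXs i T (T' - T)
      rw [add_sub_cancel] at h1
      refine h1.trans (mul_le_mul_of_nonneg_right ?_ hXp.le)
      exact Real.rpow_le_rpow (by positivity) (by linarith) hmX
    have hX'' : X i T ≤ PW * X i T' := by
      have h1 := hXs i T' (T - T')
      rw [add_sub_cancel] at h1
      refine h1.trans (mul_le_mul_of_nonneg_right ?_ (by linarith [H.X1 i T']))
      exact Real.rpow_le_rpow (by positivity) (by rw [abs_sub_comm]; linarith) hmX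
    have hQ'' : Q i T ≤ QW * Q i T' := by
      have h1 := hQs i T' (T - T')
      rw [add_sub_cancel] at h1
      refine h1.trans (mul_le_mul_of_nonneg_right ?_ (by linarith [H.Q1 i T']))
      exact Real.rpow_le_rpow (by positivity) (by rw [abs_sub_comm]; linarith) hmQ
    have hX'1 := H.X1 i T'
    have hX'0 : 0 < X i T' := by linarith
    have hQ'1 := H.Q1 i T'
    have hX₂ : X₂ ≤ X i T' := by
      have h1 : PW * (1 + |X₂|) ≤ PW * X i T' := by linarith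
      have h2 := le_of_mul_le_mul_left h1 (by linarith)
      linarith [le_abs_self X₂]
    have hlogX : Real.log (X i T') ≤ 2 * Λ := by
      have h1 := Real.log_le_log hX'0 hX'
      rw [Real.log_mul (by linarith) hXp.ne'] at h1
      linarith
    have hlogQ : ℓ - Real.log QW ≤ Real.log (Q i T') := by
      have h1 := Real.log_le_log hQp hQ''
      rw [Real.log_mul (by linarith) (by linarith)] at h1
      linarith
    obtain ⟨A, hA1, hA3⟩ := hS i T' hX₂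
    refine ⟨A, hA1, ?_⟩
    have h1 : (1 - δ) * (r * (ℓ - Real.log QW) / (2 * Real.pi)) ≤
        (1 - δ) * (r * Real.log (Q i T') / (2 * Real.pi)) := by
      apply mul_le_mul_of_nonneg_left _ (by linarith)
      apply div_le_div_of_nonneg_right _ (by positivity)
      exact mul_le_mul_of_nonneg_left hlogQ hr.le
    have h2 : ε₂ * r * Real.log (X i T') ≤ ε₂ * r * (2 * Λ) :=
      mul_le_mul_of_nonneg_left hlogX (by positivity)
    linarith
  obtain ⟨S, hS1, hS3⟩ := assembleZ (n := n) hr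
    (fun s => (analyticOrderNatAt (L i) s : ℝ)) (fun s => Nat.cast_nonneg _) hw0 hwin
  have hl := hlaw R hR0 hRle S hS1
  have hmain := hS3.trans hl
  -- the conclusion
  have hLn : LL n ≤ n := LL_le (by omega)
  have hL0 : 0 ≤ LL n := LL_nonneg n
  have hDD : DD L X Q i ε T = ℓ - 4 * Real.log V + ε * Λ := rfl
  rw [hDD] at hmain
  have h1δ : 0 ≤ 1 - δ := by linarith
  have hm1 : 2 * ((1 - δ) * (r * (ℓ - Real.log QW) / (2 * Real.pi)) - 2 * ε₂ * r * Λ) * LL n =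
      (1 - δ) * (r * ℓ / Real.pi) * LL n - ((1 - δ) * (r * Real.log QW / Real.pi) + 4 * ε₂ * r * Λ) * LL n := by
    field_simp; ring
  have hm2 : (1 - δ) * (r * ℓ / Real.pi) * ((1 - ε / (1 + BQ)) * n) ≤
      (1 - δ) * (r * ℓ / Real.pi) * LL n :=
    mul_le_mul_of_nonneg_left hnL (by positivity)
  have hm3 : (1 - δ) * (r * ℓ / Real.pi) * ((1 - ε / (1 + BQ)) * n) =
      R / Real.pi * ((1 - δ) * ℓ - (1 - δ) * (ε / (1 + BQ) * ℓ)) := by
    rw [hR]; field_simp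
  have hm4 : ((1 - δ) * (r * Real.log QW / Real.pi) + 4 * ε₂ * r * Λ) * LL n ≤
      ((1 - δ) * (r * Real.log QW / Real.pi) + 4 * ε₂ * r * Λ) * n :=
    mul_le_mul_of_nonneg_left hLn (by positivity)
  have hm5 : ((1 - δ) * (r * Real.log QW / Real.pi) + 4 * ε₂ * r * Λ) * n =
      R / Real.pi * ((1 - δ) * Real.log QW + 4 * Real.pi * ε₂ * Λ) := by
    rw [hR]; field_simp
  have hm6 : ε / (1 + BQ) * ℓ ≤ ε * Λ := by
    rw [div_mul_eq_mul_div, div_le_iff₀ (by linarith)]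
    have : ℓ ≤ (1 + BQ) * Λ := by linarith
    calc ε * ℓ ≤ ε * ((1 + BQ) * Λ) := mul_le_mul_of_nonneg_left this hε0.le
      _ = ε * Λ * (1 + BQ) := by ring
  have hm8 : R / Real.pi * ((1 - δ) * ℓ - (1 - δ) * (ε / (1 + BQ) * ℓ)) ≤
      R / Real.pi * (ℓ - 4 * Real.log V + ε * Λ + ((1 - δ) * Real.log QW + 4 * Real.pi * ε₂ * Λ)) := by
    have e : R / Real.pi * (ℓ - 4 * Real.log V + ε * Λ +
        ((1 - δ) * Real.log QW + 4 * Real.pi * ε₂ * Λ)) =
      R / Real.pi * (ℓ - 4 * Real.log V + ε * Λ) +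
        R / Real.pi * ((1 - δ) * Real.log QW + 4 * Real.pi * ε₂ * Λ) := by ring
    rw [e]
    linarith
  have hm9 := le_of_mul_le_mul_left hm8 (by positivity)
  have hm10 : 8 * Real.pi * ε₂ * Λ ≤ ε * Λ := mul_le_mul_of_nonneg_right hε₂2 hΛ0.le
  have hm11 : 2 * ε * Λ ≤ ε' * Λ := mul_le_mul_of_nonneg_right hεε' hΛ0.le
  have hm12 : (1 - δ) * (ε / (1 + BQ) * ℓ) ≤ 1 * (ε * Λ) :=
    mul_le_mul (by linarith) hm6 (by positivity) (by norm_num)
  have hm13 : (1 - δ) * Real.log QW ≤ 1 * Real.log QW := mul_le_mul_of_nonneg_right (by linarith) hlQ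
  have hεΛ : 0 < ε * Λ := by positivity
  have hlV : Real.log V ≤ ε' * Λ + δ / 4 * ℓ := by linarith
  calc V ≤ Real.exp (ε' * Λ + δ / 4 * ℓ) := (Real.log_le_iff_le_exp hV0).1 hlV
    _ = X i T ^ ε' * Q i T ^ (δ / 4) := by
        rw [Real.exp_add, Real.rpow_def_of_pos hXp, Real.rpow_def_of_pos hQp]
        congr 2 <;> ring

end Pool.Agent.TH804.FM
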