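import Mathlib
import Pool.Agent.TH804.FM2

/-!
The converse of the density criterion, and criteria with a fixed window.
-/

set_option autoImplicit false

open Complex Filter Topology Set
open W587.PL Pool.Agent.TH804.DL Pool.Agent.TH804.MS

set_option maxHeartbeats 4000000

namespace Pool.Agent.TH804.FM

variable {ι : Type*} {L : ι → ℂ → ℂ} {X Q : ι → ℝ → ℝ}

/-- equally spaced points of the critical line -/
lemma points {T ℓ d r : ℝ} (hℓ : 0 < ℓ) (hd : 0 < d) (hr : 0 < r) : ∃ S : Finset ℂ,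
    (∀ s ∈ S, ∃ t : ℝ, T ≤ t ∧ t ≤ T + r ∧ s = 1 / 2 + t * Complex.I) ∧
    (∀ s ∈ S, ∀ s' ∈ S, s ≠ s' → d / ℓ ≤ |s.im - s'.im|) ∧ r * ℓ / d ≤ S.card := by
  classical
  set δ : ℝ := d / ℓ with hδ
  have hδ0 : 0 < δ := by positivity
  set N : ℕ := ⌊r / δ⌋₊ with hN
  set pt : ℕ → ℂ := fun j => 1 / 2 + ((T + j * δ : ℝ) : ℂ) * Complex.I with hpt
  have him : ∀ j, (pt j).im = T + j * δ := fun j => by simp [hpt]
  have hinj : Function.Injective pt := by
    intro i j hij
    have h1 := congrArg Complex.im hij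
    rw [him, him] at h1
    have h2 : (i:ℝ) * δ = j * δ := by linarith
    have h4 := mul_right_cancel₀ hδ0.ne' h2
    exact_mod_cast h4
  refine ⟨(Finset.range (N + 1)).image pt, fun s hs => ?_, fun s hs s' hs' hne => ?_, ?_⟩
  · obtain ⟨j, hj, rfl⟩ := Finset.mem_image.1 hs
    rw [Finset.mem_range, Nat.lt_succ_iff] at hj
    have hjδ : (j:ℝ) * δ ≤ r := by
      have h1 : (j:ℝ) ≤ r / δ := (Nat.cast_le.2 hj).trans (Nat.floor_le (by positivity))
      rwa [le_div_iff₀ hδ0] at h1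
    have hjδ0 : 0 ≤ (j:ℝ) * δ := by positivity
    exact ⟨T + j * δ, by linarith, by linarith, rfl⟩
  · obtain ⟨i, hi, rfl⟩ := Finset.mem_image.1 hs
    obtain ⟨j, hj, rfl⟩ := Finset.mem_image.1 hs'
    have hij : i ≠ j := fun h => hne (by rw [h])
    have e2 : (pt i).im - (pt j).im = ((i:ℝ) - j) * δ := by
      rw [him, him]; ring
    rw [e2, abs_mul, abs_of_pos hδ0]
    have h1 : (1:ℝ) ≤ |(i:ℝ) - j| := by
      have h2 : (i:ℤ) - j ≠ 0 := by
        intro h
        exact hij (by omega)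
      have h4 := Int.one_le_abs h2
      exact_mod_cast h4
    calc δ = 1 * δ := by rw [one_mul]
      _ ≤ |(i:ℝ) - j| * δ := mul_le_mul_of_nonneg_right h1 hδ0.le
  · rw [Finset.card_image_of_injective _ hinj, Finset.card_range]
    have e : r * ℓ / d = r / δ := by rw [hδ]; field_simp
    rw [e]
    push_cast
    exact (Nat.lt_floor_add_one _).le

/-- values near `T` from an exponent -/
lemma values_near (H : Fam2 L X Q) {κ : ℝ} (hκ : 0 ≤ κ) (hE : Exponent L X κ) {ε r : ℝ} (hε : 0 < ε)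
    (hr : 0 ≤ r) : ∃ X₀ : ℝ, ∀ (i : ι) (T t : ℝ), X₀ ≤ X i T → |t - T| ≤ r →
      ‖L i (1 / 2 + t * Complex.I)‖ ≤ X i T ^ (κ + ε) := by
  obtain ⟨mX, hmX, hXs⟩ := H.Xs
  obtain ⟨B, hB⟩ := hE (ε / 2) (by linarith)
  set PW : ℝ := (1 + r) ^ mX with hPW
  have hPW1 : 1 ≤ PW := Real.one_le_rpow (by linarith) hmX
  set K : ℝ := (1 + |B|) * PW ^ (κ + ε / 2) with hK
  have hP2 : 1 ≤ PW ^ (κ + ε / 2) := Real.one_le_rpow hPW1 (by linarith)
  have hB0 := abs_nonneg B
  have hK0 : 0 < K := by positivity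
  refine ⟨K ^ (1 / (ε / 2)), fun i T t hX ht => ?_⟩
  have hX1 := H.X1 i T
  have hXp : 0 < X i T := by linarith
  have hXt := H.X1 i t
  have hX' : X i t ≤ PW * X i T := by
    have h1 := hXs i T (t - T)
    rw [add_sub_cancel] at h1
    refine h1.trans (mul_le_mul_of_nonneg_right ?_ hXp.le)
    exact Real.rpow_le_rpow (by positivity) (by linarith) hmX
  have h2 : X i t ^ (κ + ε / 2) ≤ (PW * X i T) ^ (κ + ε / 2) :=
    Real.rpow_le_rpow (by linarith) hX' (by linarith)
  rw [Real.mul_rpow (by linarith) hXp.le] at h2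
  have h5 : K ≤ X i T ^ (ε / 2) := large_of_rpow hK0 (by linarith) hX
  calc ‖L i (1 / 2 + t * Complex.I)‖ ≤ B * X i t ^ (κ + ε / 2) := hB i t
    _ ≤ (1 + |B|) * (PW ^ (κ + ε / 2) * X i T ^ (κ + ε / 2)) :=
        mul_le_mul (by linarith [le_abs_self B]) h2 (by positivity) (by positivity)
    _ = K * X i T ^ (κ + ε / 2) := by rw [hK]; ring
    _ ≤ X i T ^ (ε / 2) * X i T ^ (κ + ε / 2) := mul_le_mul_of_nonneg_right h5 (by positivity)
    _ = X i T ^ (κ + ε) := by rw [← Real.rpow_add hXp]; congr 1; ring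

/-- **the converse** of the density criterion -/
theorem dense_of_exponent (H : Fam2 L X Q) {θ κ : ℝ} (hθ : 0 < θ) (hκ : 0 ≤ κ) (hE : Exponent L X κ) :
    Dense L X Q θ κ := by
  have hpi := Real.pi_pos
  obtain ⟨BQ, hBQ, hQX⟩ := H.QX
  intro ε hε
  refine ⟨2 * Real.pi * θ / (1 + BQ), by positivity, fun r₀ hr₀ => ?_⟩
  obtain ⟨X₀, hX₀⟩ := values_near H hκ hE (r := r₀) hε hr₀.le
  refine ⟨r₀, X₀, hr₀, le_rfl, fun i T hX => ?_⟩
  have hX1 := H.X1 i T
  have hXp : 0 < X i T := by linarith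
  have hQ1 := H.Q1 i T
  have hQp : 0 < Q i T := by linarith
  have hΛ0 : 0 ≤ Real.log (X i T) := Real.log_nonneg hX1
  have hℓB : Real.log (Q i T) ≤ BQ * Real.log (X i T) := by
    have h1 := Real.log_le_log hQp (hQX i T)
    rwa [Real.log_rpow hXp] at h1
  rcases eq_or_lt_of_le (Real.log_nonneg hQ1) with h0 | h0
  · refine ⟨∅, by simp, by simp, ?_⟩
    rw [← h0]
    simp only [mul_zero, zero_div, Finset.card_empty, Nat.cast_zero, zero_add]
    positivity
  · obtain ⟨S, hS1, hS2, hS3⟩ := points (T := T) h0 (by positivity : 0 < 2 * Real.pi * θ) hr₀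
    refine ⟨S, fun s hs => ?_, fun s hs s' hs' hne => ?_, ?_⟩
    · obtain ⟨t, h1, h2, rfl⟩ := hS1 s hs
      have e1 : (1 / 2 + (t : ℂ) * Complex.I).re = 1 / 2 := by simp
      have e2 : (1 / 2 + (t : ℂ) * Complex.I).im = t := by simp
      rw [e1, e2]
      refine ⟨by rw [sub_self, abs_zero]; exact hr₀.le, h1, h2, hX₀ i T t hX ?_⟩
      rw [abs_le]; constructor <;> linarith
    · refine le_trans ?_ (hS2 s hs s' hs' hne)
      have hΛp : 0 < Real.log (X i T) := by
        rcases eq_or_lt_of_le hΛ0 with h | h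
        · rw [← h] at hℓB; linarith
        · exact h
      rw [div_div, div_le_div_iff₀ (by positivity) h0]
      apply mul_le_mul_of_nonneg_left _ (by positivity)
      linarith
    · have : 0 ≤ ε * r₀ * Real.log (X i T) := by positivity
      linarith

/-- the equivalence for `θ ≤ 1` -/
theorem exponent_iff_dense (H : Fam2 L X Q) {θ κ : ℝ} (hθ : 0 < θ) (hθ1 : θ ≤ 1) (hκ : 0 ≤ κ) :
    Exponent L X κ ↔ Dense L X Q θ κ := by
  refine ⟨dense_of_exponent H hθ hκ, fun h ε hε => ?_⟩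
  obtain ⟨B, hB⟩ := bound_of_dense H hθ hκ h hε
  refine ⟨B, fun i T => ?_⟩
  have hX1 := H.X1 i T
  have hXp : 0 < X i T := by linarith
  have h1 : Q i T ^ ((1 - 1 / θ) / 4) ≤ X i T ^ κ := by
    have h2 : 1 ≤ 1 / θ := by rw [le_div_iff₀ hθ]; linarith
    exact (Real.rpow_le_one_of_one_le_of_nonpos (H.Q1 i T) (by linarith)).trans
      (Real.one_le_rpow hX1 hκ)
  have h2 := hB i T
  rw [max_eq_left h1, mul_assoc, ← Real.rpow_add hXp, add_comm ε] at h2
  exact h2

lemma exponent_closed {κ : ℝ} (h : ∀ κ' : ℝ, κ < κ' → Exponent L X κ') : Exponent L X κ := by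
  intro ε hε
  obtain ⟨C, hC⟩ := h (κ + ε / 2) (by linarith) (ε / 2) (by linarith)
  exact ⟨C, fun i T => by rw [show κ + ε = κ + ε / 2 + ε / 2 by ring]; exact hC i T⟩

/-- a bound with `X` and `Q` in terms of `X` -/
lemma exponent_of_bound (H : Fam2 L X Q) {κ : ℝ}
    (h : ∀ ε : ℝ, 0 < ε → ∃ B : ℝ, ∀ (i : ι) (T : ℝ),
      ‖L i (1 / 2 + T * Complex.I)‖ ≤ B * X i T ^ ε * Q i T ^ κ) :
    ∀ μ : ℝ, (∀ i T, Q i T ^ κ ≤ X i T ^ μ) → Exponent L X μ := by
  intro μ hμ ε hε
  obtain ⟨B, hB⟩ := h ε hε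
  refine ⟨|B|, fun i T => (hB i T).trans ?_⟩
  have hX1 := H.X1 i T
  have hXp : 0 < X i T := by linarith
  have hQp : 0 < Q i T := by linarith [H.Q1 i T]
  calc B * X i T ^ ε * Q i T ^ κ ≤ |B| * X i T ^ ε * X i T ^ μ := by
        apply mul_le_mul _ (hμ i T) (by positivity) (by positivity)
        exact mul_le_mul_of_nonneg_right (le_abs_self B) (by positivity)
    _ = |B| * X i T ^ (μ + ε) := by rw [mul_assoc, ← Real.rpow_add hXp, add_comm]

lemma QX_le (H : Fam2 L X Q) {BQ κ : ℝ} (hκ : 0 ≤ κ) (hQX : ∀ i t, Q i t ≤ X i t ^ BQ) (i : ι) (T : ℝ) :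
    Q i T ^ κ ≤ X i T ^ (BQ * κ) := by
  have hX1 := H.X1 i T
  have hQ1 := H.Q1 i T
  rw [Real.rpow_mul (by linarith)]
  exact Real.rpow_le_rpow (by linarith) (hQX i T) hκ

/-- Lindelöf for the family is equivalent to `Dense θ 0` for all `θ > 1` -/
theorem lindelof_iff_dense (H : Fam2 L X Q) :
    Exponent L X 0 ↔ ∀ θ : ℝ, 1 < θ → Dense L X Q θ 0 := by
  refine ⟨fun h θ hθ => dense_of_exponent H (by linarith) le_rfl h, fun h => ?_⟩
  obtain ⟨BQ, hBQ, hQX⟩ := H.QX
  refine exponent_closed fun κ' hκ' => ?_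
  set a : ℝ := κ' / (1 + BQ) with ha
  have ha0 : 0 < a := by positivity
  have hκa : BQ * a ≤ κ' := by
    rw [ha, mul_div_assoc', div_le_iff₀ (by positivity)]
    nlinarith
  refine exponent_of_bound H (κ := (1 - 1 / (1 + a)) / 4) (fun ε hε => ?_) κ' fun i T => ?_
  · obtain ⟨B, hB⟩ := bound_of_dense H (θ := 1 + a) (by linarith) le_rfl (h _ (by linarith)) hε
    refine ⟨B, fun i T => (hB i T).trans (le_of_eq ?_)⟩
    congr 1
    rw [Real.rpow_zero]
    apply max_eq_right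
    apply Real.one_le_rpow (H.Q1 i T)
    have : 1 - 1 / (1 + a) = a / (1 + a) := by field_simp; ring
    rw [this]; positivity
  · have h0 : (1 - 1 / (1 + a)) / 4 ≤ a := by
      have h1 : 1 - 1 / (1 + a) = a / (1 + a) := by field_simp; ring
      have h2 : a / (1 + a) ≤ a := div_le_self ha0.le (by linarith)
      rw [h1]
      linarith
    calc Q i T ^ ((1 - 1 / (1 + a)) / 4) ≤ Q i T ^ a :=
          Real.rpow_le_rpow_of_exponent_le (H.Q1 i T) h0
      _ ≤ X i T ^ (BQ * a) := QX_le H ha0.le hQX i T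
      _ ≤ X i T ^ κ' := Real.rpow_le_rpow_of_exponent_le (H.X1 i T) hκa

/-- zeros: Lindelöf for the family from the full density of zeros -/
theorem lindelof_of_zeros (H : Fam2 L X Q) (h : ∀ δ : ℝ, 0 < δ → ZeroDense L X Q δ) :
    Exponent L X 0 := by
  obtain ⟨BQ, hBQ, hQX⟩ := H.QX
  refine exponent_closed fun κ' hκ' => ?_
  set a : ℝ := min (κ' / (1 + BQ)) 1 with ha
  have ha0 : 0 < a := lt_min (by positivity) one_pos
  have ha1 : a ≤ 1 := min_le_right _ _
  have hκa : BQ * (a / 4) ≤ κ' := by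
    have h1 : a ≤ κ' / (1 + BQ) := min_le_left _ _
    rw [le_div_iff₀ (by positivity)] at h1
    nlinarith
  refine exponent_of_bound H (κ := a / 4)
    (fun ε hε => bound_of_zeros H ha0.le ha1 (h a ha0) hε) κ' fun i T => ?_
  calc Q i T ^ (a / 4) ≤ X i T ^ (BQ * (a / 4)) := QX_le H (by positivity) hQX i T
    _ ≤ X i T ^ κ' := Real.rpow_le_rpow_of_exponent_le (H.X1 i T) hκa

/-! ### fixed windows -/

/-- For every `ε > 0`, if `Q i T` is large, the disc of radius `r` about `1/2 + iT` contains at least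
`(c - ε) log Q` zeros of `L i`, counted with multiplicities. -/
def ManyZeros (L : ι → ℂ → ℂ) (Q : ι → ℝ → ℝ) (r c : ℝ) : Prop := ∀ ε : ℝ, 0 < ε → ∃ X₀ : ℝ,
  ∀ (i : ι) (T : ℝ), X₀ ≤ Q i T → ∃ S : Finset ℂ, (∀ s ∈ S, ‖s - (1 / 2 + T * Complex.I)‖ ≤ r) ∧
    (c - ε) * Real.log (Q i T) ≤ ∑ s ∈ S, (analyticOrderNatAt (L i) s : ℝ)

theorem exponent_of_manyZeros (H : Fam2 L Q Q) {r c : ℝ} (hr : 0 < r) (hr2 : r < 1 / 2) (hc : 0 ≤ c)
    (hZ : ManyZeros L Q r c) :
    Exponent L Q (max 0 (1 / 4 - Real.pi * c / 2 * Real.log (1 / (2 * r)))) := by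
  have hpi := Real.pi_pos
  obtain ⟨mQ, hmQ, hQs⟩ := H.Qs
  obtain ⟨c₀, hc₀, hc₀1, hlw⟩ := law H
  intro ε' hε'
  set lr : ℝ := Real.log (1 / (2 * r)) with hlr
  have hlr0 : 0 < lr := by
    apply Real.log_pos
    rw [lt_div_iff₀ (by positivity)]
    linarith
  set ε : ℝ := min ε' 1 with hεd
  have hε0 : 0 < ε := lt_min hε' one_pos
  have hε1 : ε ≤ 1 := min_le_right _ _
  have hεε' : ε ≤ ε' := min_le_left _ _
  obtain ⟨W, X₁, hW, hX₁, hlz⟩ := hlw ε hε0 hε1
  set ε₂ : ℝ := ε / (4 * Real.pi * lr) with hε₂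
  have hε₂0 : 0 < ε₂ := by positivity
  have hε₂2 : 4 * Real.pi * ε₂ * lr = ε := by rw [hε₂]; field_simp
  obtain ⟨X₂, hS⟩ := hZ ε₂ hε₂0
  set QW : ℝ := (2 + W) ^ mQ with hQW
  have hQW1 : 1 ≤ QW := Real.one_le_rpow (by linarith) hmQ
  have hlQ : 0 ≤ Real.log QW := Real.log_nonneg hQW1
  have hb1 := abs_nonneg X₂
  set κ : ℝ := max 0 (1 / 4 - Real.pi * c / 2 * lr) with hκ
  have hκ0 : 0 ≤ κ := le_max_left _ _
  have hκ1 : 1 / 4 - Real.pi * c / 2 * lr ≤ κ := le_max_right _ _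
  set K : ℝ := 2 * Real.pi * lr * (c + 1) * Real.log QW with hK
  have hK0 : 0 ≤ K := by positivity
  obtain ⟨B, hB⟩ := bound_of_large H hε'.le (M := fun i T => Q i T ^ κ)
    (fun i T => Real.one_le_rpow (H.Q1 i T) hκ0)
    (X₃ := X₁ + QW * (1 + |X₂|) + Real.exp (Real.log QW + K / ε' + 1)) (fun i T hX => by
      have hb3 := Real.exp_pos (Real.log QW + K / ε' + 1)
      have hQ1 := H.Q1 i T
      have hQp : 0 < Q i T := by linarith
      have hPX : 0 ≤ QW * (1 + |X₂|) := by positivity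
      set ℓ : ℝ := Real.log (Q i T) with hℓ
      have hΛ1 : Real.log QW + K / ε' + 1 ≤ ℓ := by
        rw [hℓ, Real.le_log_iff_exp_le hQp]
        linarith
      have hKε : 0 ≤ K / ε' := by positivity
      have hℓ0 : 0 < ℓ := by linarith
      have hKΛ : K ≤ ε' * ℓ := by
        have h1 : K / ε' ≤ ℓ := by linarith
        rw [div_le_iff₀ hε'] at h1
        linarith
      set V : ℝ := ‖L i (1 / 2 + T * Complex.I)‖ with hV
      show V ≤ Q i T ^ ε' * Q i T ^ κ
      have hXε' : 1 ≤ Q i T ^ ε' := Real.one_le_rpow hQ1 hε'.le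
      have hQδ : 1 ≤ Q i T ^ κ := Real.one_le_rpow hQ1 hκ0
      rcases le_or_gt V 1 with hVs | hVl
      · exact hVs.trans (one_le_mul_of_one_le_of_one_le hXε' hQδ)
      have hV1 : 1 ≤ V := hVl.le
      have hV0 : 0 < V := by linarith
      obtain ⟨hpos, T₀, hT₀, hLT₀, -, hlaw, -⟩ := hlz i T (by linarith) hV1
      rw [← hV] at hLT₀
      have hw0 : (analyticOrderNatAt (L i) (1 / 2 + T₀ * Complex.I) : ℝ) = 0 := by
        have h1 : L i (1 / 2 + T₀ * Complex.I) ≠ 0 := by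
          intro h
          rw [h, norm_zero] at hLT₀
          linarith
        by_contra h2
        exact h1 (apply_eq_zero_of_analyticOrderNatAt_ne_zero (by exact_mod_cast h2))
      have hQ'' : Q i T ≤ QW * Q i T₀ := by
        have h1 := hQs i T₀ (T - T₀)
        rw [add_sub_cancel] at h1
        refine h1.trans (mul_le_mul_of_nonneg_right ?_ (by linarith [H.Q1 i T₀]))
        exact Real.rpow_le_rpow (by positivity) (by rw [abs_sub_comm]; linarith) hmQ
      have hQ' : Q i T₀ ≤ QW * Q i T := by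
        have h1 := hQs i T (T₀ - T)
        rw [add_sub_cancel] at h1
        refine h1.trans (mul_le_mul_of_nonneg_right ?_ hQp.le)
        exact Real.rpow_le_rpow (by positivity) (by linarith) hmQ
      have hQ01 := H.Q1 i T₀
      have hX₂ : X₂ ≤ Q i T₀ := by
        have h1 : QW * (1 + |X₂|) ≤ QW * Q i T₀ := by linarith
        have h2 := le_of_mul_le_mul_left h1 (by linarith)
        linarith [le_abs_self X₂]
      have hlogQ : ℓ - Real.log QW ≤ Real.log (Q i T₀) := by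
        have h1 := Real.log_le_log hQp hQ''
        rw [Real.log_mul (by linarith) (by linarith)] at h1
        linarith
      have hlogQ' : Real.log (Q i T₀) ≤ 2 * ℓ := by
        have h1 := Real.log_le_log (by linarith) hQ'
        rw [Real.log_mul (by linarith) hQp.ne'] at h1
        linarith
      obtain ⟨S, hS1, hS3⟩ := hS i T₀ hX₂
      have hl := hlaw (1 / 2) (by norm_num) le_rfl S (fun s hs => (hS1 s hs).trans hr2.le)
      have hsum : (∑ s ∈ S, (analyticOrderNatAt (L i) s : ℝ)) * lr ≤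
          ∑ s ∈ S, (analyticOrderNatAt (L i) s : ℝ) *
            Real.log (1 / 2 / ‖s - (1 / 2 + T₀ * Complex.I)‖) := by
        rw [Finset.sum_mul]
        apply Finset.sum_le_sum
        intro s hs
        rcases eq_or_ne s (1 / 2 + T₀ * Complex.I) with h0 | h0
        · rw [h0, hw0, zero_mul, zero_mul]
        · apply mul_le_mul_of_nonneg_left _ (Nat.cast_nonneg _)
          have h1 : 0 < ‖s - (1 / 2 + T₀ * Complex.I)‖ := norm_pos_iff.2 (sub_ne_zero.2 h0)
          have h2 := hS1 s hs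
          apply Real.log_le_log (by positivity)
          rw [div_le_div_iff₀ (by positivity) h1]
          linarith
      have hDD : DD L Q Q i ε T = ℓ - 4 * Real.log V + ε * ℓ := rfl
      rw [hDD] at hl
      have h1 : (c - ε₂) * Real.log (Q i T₀) * lr ≤
          1 / 2 / Real.pi * (ℓ - 4 * Real.log V + ε * ℓ) :=
        (mul_le_mul_of_nonneg_right hS3 hlr0.le).trans (hsum.trans hl)
      have h2 : c * (ℓ - Real.log QW) ≤ c * Real.log (Q i T₀) := mul_le_mul_of_nonneg_left hlogQ hc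
      have h3 : ε₂ * Real.log (Q i T₀) ≤ ε₂ * (2 * ℓ) := mul_le_mul_of_nonneg_left hlogQ' hε₂0.le
      have h4 : (c * (ℓ - Real.log QW) - ε₂ * (2 * ℓ)) * lr ≤
          1 / 2 / Real.pi * (ℓ - 4 * Real.log V + ε * ℓ) := by
        refine le_trans (mul_le_mul_of_nonneg_right ?_ hlr0.le) h1
        linarith
      have h5 : 2 * Real.pi * ((c * (ℓ - Real.log QW) - ε₂ * (2 * ℓ)) * lr) ≤
          ℓ - 4 * Real.log V + ε * ℓ := by
        have h6 := mul_le_mul_of_nonneg_left h4 (by positivity : 0 ≤ 2 * Real.pi)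
        have e : 2 * Real.pi * (1 / 2 / Real.pi * (ℓ - 4 * Real.log V + ε * ℓ)) =
            ℓ - 4 * Real.log V + ε * ℓ := by field_simp
        rwa [e] at h6
      have h6 : 2 * Real.pi * ((c * (ℓ - Real.log QW) - ε₂ * (2 * ℓ)) * lr) =
          2 * Real.pi * c * lr * ℓ - 2 * Real.pi * lr * c * Real.log QW -
            (4 * Real.pi * ε₂ * lr) * ℓ := by ring
      rw [h6, hε₂2] at h5
      have h7 : 2 * Real.pi * lr * c * Real.log QW ≤ K := by
        rw [hK]
        apply mul_le_mul_of_nonneg_right _ hlQ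
        apply mul_le_mul_of_nonneg_left _ (by positivity)
        linarith
      have h8 : ε * ℓ ≤ ε' * ℓ := mul_le_mul_of_nonneg_right hεε' hℓ0.le
      have h9 : Real.log V ≤ ε' * ℓ + κ * ℓ := by
        have h10 : (1 / 4 - Real.pi * c / 2 * lr) * ℓ ≤ κ * ℓ :=
          mul_le_mul_of_nonneg_right hκ1 hℓ0.le
        have e : (1 / 4 - Real.pi * c / 2 * lr) * ℓ = (ℓ - 2 * Real.pi * c * lr * ℓ) / 4 := by ring
        rw [e] at h10
        linarith
      calc V ≤ Real.exp (ε' * ℓ + κ * ℓ) := (Real.log_le_iff_le_exp hV0).1 h9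
        _ = Q i T ^ ε' * Q i T ^ κ := by
            rw [Real.exp_add, Real.rpow_def_of_pos hQp, Real.rpow_def_of_pos hQp]
            congr 2 <;> ring)
  refine ⟨B, fun i T => (hB i T).trans (le_of_eq ?_)⟩
  have hQp : 0 < Q i T := by linarith [H.Q1 i T]
  show B * Q i T ^ ε' * Q i T ^ κ = B * Q i T ^ (κ + ε')
  rw [mul_assoc, ← Real.rpow_add hQp, add_comm]

/-- If `Q i T` is large, the disc of radius `r` about `1/2 + iT` contains at least `λ r log Q` points at which
`|L i| ≤ Q^κ`, the ordinates of any two of which differ by at least `η / log Q`. -/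
def ManySmall (L : ι → ℂ → ℂ) (Q : ι → ℝ → ℝ) (r l η κ : ℝ) : Prop := ∃ X₀ : ℝ,
  ∀ (i : ι) (T : ℝ), X₀ ≤ Q i T → ∃ S : Finset ℂ,
    (∀ s ∈ S, ‖s - (1 / 2 + T * Complex.I)‖ ≤ r ∧ ‖L i s‖ ≤ Q i T ^ κ) ∧
    (∀ s ∈ S, ∀ s' ∈ S, s ≠ s' → η / Real.log (Q i T) ≤ |s.im - s'.im|) ∧
    l * r * Real.log (Q i T) ≤ S.card

theorem bound_of_manySmall (H : Fam2 L Q Q) : ∃ c : ℝ, 0 < c ∧ ∀ r l η κ : ℝ, 0 < r → 0 < l → 0 < η → η ≤ 1 →
    0 ≤ κ → κ < 1 / 4 → r ≤ c * η * min l (1 / 4 - κ) → ManySmall L Q r l η κ →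
    ∃ B : ℝ, ∀ (i : ι) (T : ℝ),
      ‖L i (1 / 2 + T * Complex.I)‖ ≤ B * Q i T ^ (1 / 4 - min l (1 / 4 - κ) / 8) := by
  have hpi := Real.pi_pos
  have hpi3 := Real.pi_gt_three
  obtain ⟨mQ, hmQ, hQs⟩ := H.Qs
  obtain ⟨c₀, hc₀, hc₀1, hlw⟩ := law H
  refine ⟨c₀ / 24, by positivity, fun r l η κ hr hl hη hη1 hκ hκ4 hrle hM => ?_⟩
  set μ : ℝ := min l (1 / 4 - κ) with hμ
  have hμ0 : 0 < μ := lt_min hl (by linarith)
  have hμ1 : μ ≤ l := min_le_left _ _
  have hμ2 : μ ≤ 1 / 4 - κ := min_le_right _ _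
  have hμ4 : μ ≤ 1 / 4 := by linarith
  set ε : ℝ := μ / 4 with hεd
  have hε0 : 0 < ε := by positivity
  have hε1 : ε ≤ 1 := by rw [hεd]; linarith
  obtain ⟨W, X₁, hW, hX₁, hlz⟩ := hlw ε hε0 hε1
  obtain ⟨X₂, hS⟩ := hM
  set R : ℝ := 3 * r with hR
  have hR0 : 0 < R := by positivity
  have hRle : R ≤ c₀ * ε * (η / 2) := by
    rw [hR, hεd]
    calc 3 * r ≤ 3 * (c₀ / 24 * η * μ) := by linarith
      _ = c₀ * (μ / 4) * (η / 2) := by ring
  set QW : ℝ := (2 + W) ^ mQ with hQW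
  have hQW1 : 1 ≤ QW := Real.one_le_rpow (by linarith) hmQ
  have hlQ : 0 ≤ Real.log QW := Real.log_nonneg hQW1
  have hb1 := abs_nonneg X₂
  set K : ℝ := Real.pi / 3 * l * Real.log QW + Real.pi / R with hK
  have hK0 : 0 < K := by positivity
  set κ' : ℝ := 1 / 4 - μ / 8 with hκ'
  have hκ'0 : 0 ≤ κ' := by rw [hκ']; linarith
  set K₂ : ℝ := QW ^ κ with hK₂
  have hK₂1 : 1 ≤ K₂ := Real.one_le_rpow hQW1 hκ
  have hb2 : 0 ≤ K₂ ^ (1 / (μ / 8)) := by positivity
  obtain ⟨B, hB⟩ := bound_of_large H (le_refl (0:ℝ)) (M := fun i T => Q i T ^ κ')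
    (fun i T => Real.one_le_rpow (H.Q1 i T) hκ'0)
    (X₃ := X₁ + QW * (1 + |X₂|) + K₂ ^ (1 / (μ / 8)) + Real.exp (Real.log QW + 4 * K / μ + 1))
    (fun i T hX => by
      have hb3 := Real.exp_pos (Real.log QW + 4 * K / μ + 1)
      have hQ1 := H.Q1 i T
      have hQp : 0 < Q i T := by linarith
      have hPX : 0 ≤ QW * (1 + |X₂|) := by positivity
      set ℓ : ℝ := Real.log (Q i T) with hℓ
      have hΛ1 : Real.log QW + 4 * K / μ + 1 ≤ ℓ := by
        rw [hℓ, Real.le_log_iff_exp_le hQp]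
        linarith
      have hKε : 0 ≤ 4 * K / μ := by positivity
      have hℓ0 : 0 < ℓ := by linarith
      have hKΛ : 4 * K ≤ μ * ℓ := by
        have h1 : 4 * K / μ ≤ ℓ := by linarith
        rw [div_le_iff₀ hμ0] at h1
        linarith
      set V : ℝ := ‖L i (1 / 2 + T * Complex.I)‖ with hV
      show V ≤ Q i T ^ (0:ℝ) * Q i T ^ κ'
      rw [Real.rpow_zero, one_mul]
      rcases le_or_gt V (Q i T ^ κ') with hVs | hVl
      · exact hVs
      have hV1 : 1 ≤ V := (Real.one_le_rpow hQ1 hκ'0).trans hVl.le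
      have hV0 : 0 < V := by linarith
      obtain ⟨hpos, T₀, hT₀, hLT₀, -, -, hlaw⟩ := hlz i T (by linarith) hV1
      rw [← hV] at hLT₀ hlaw
      have hQ'' : Q i T ≤ QW * Q i T₀ := by
        have h1 := hQs i T₀ (T - T₀)
        rw [add_sub_cancel] at h1
        refine h1.trans (mul_le_mul_of_nonneg_right ?_ (by linarith [H.Q1 i T₀]))
        exact Real.rpow_le_rpow (by positivity) (by rw [abs_sub_comm]; linarith) hmQ
      have hQ' : Q i T₀ ≤ QW * Q i T := by
        have h1 := hQs i T (T₀ - T)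
        rw [add_sub_cancel] at h1
        refine h1.trans (mul_le_mul_of_nonneg_right ?_ hQp.le)
        exact Real.rpow_le_rpow (by positivity) (by linarith) hmQ
      have hQ01 := H.Q1 i T₀
      have hX₂ : X₂ ≤ Q i T₀ := by
        have h1 : QW * (1 + |X₂|) ≤ QW * Q i T₀ := by linarith
        have h2 := le_of_mul_le_mul_left h1 (by linarith)
        linarith [le_abs_self X₂]
      have hlogQ : ℓ - Real.log QW ≤ Real.log (Q i T₀) := by
        have h1 := Real.log_le_log hQp hQ''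
        rw [Real.log_mul (by linarith) (by linarith)] at h1
        linarith
      have hlogQ' : Real.log (Q i T₀) ≤ 2 * ℓ := by
        have h1 := Real.log_le_log (by linarith) hQ'
        rw [Real.log_mul (by linarith) hQp.ne'] at h1
        linarith
      have hlogQ0 : 0 < Real.log (Q i T₀) := by linarith
      obtain ⟨S, hS1, hS2, hS3⟩ := hS i T₀ hX₂
      have hlw2 := hlaw (η / 2) R (by positivity) (by linarith) hR0 hRle S
        (fun s hs => (hS1 s hs).1.trans (by rw [hR]; linarith)) (fun s hs => by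
          refine (hS1 s hs).2.trans ?_
          have h6 : K₂ ≤ Q i T ^ (μ / 8) := large_of_rpow (by linarith) (by positivity) (by linarith)
          calc Q i T₀ ^ κ ≤ (QW * Q i T) ^ κ := Real.rpow_le_rpow (by linarith) hQ' hκ
            _ = K₂ * Q i T ^ κ := Real.mul_rpow (by linarith) hQp.le
            _ ≤ Q i T ^ (μ / 8) * Q i T ^ κ := mul_le_mul_of_nonneg_right h6 (by positivity)
            _ = Q i T ^ (μ / 8 + κ) := (Real.rpow_add hQp _ _).symm
            _ ≤ Q i T ^ (-ε + κ') := Real.rpow_le_rpow_of_exponent_le hQ1 (by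
                rw [hεd, hκ']; linarith)
            _ = Q i T ^ (-ε) * Q i T ^ κ' := Real.rpow_add hQp _ _
            _ ≤ Q i T ^ (-ε) * V := mul_le_mul_of_nonneg_left hVl.le (by positivity))
        (fun s hs s' hs' hne => by
          refine le_trans ?_ (hS2 s hs s' hs' hne)
          rw [div_div, div_le_div_iff₀ (by positivity) hlogQ0]
          exact mul_le_mul_of_nonneg_left hlogQ' hη.le)
      have hQT₀ne : ∀ s ∈ S, 0 < ‖s - (1 / 2 + T₀ * Complex.I)‖ := by
        intro s hs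
        rw [norm_pos_iff, sub_ne_zero]
        rintro rfl
        have h1 := (hS1 _ hs).2
        have h6 : K₂ ≤ Q i T ^ (μ / 8) := large_of_rpow (by linarith) (by positivity) (by linarith)
        have h7 : Q i T₀ ^ κ < Q i T ^ κ' := by
          calc Q i T₀ ^ κ ≤ (QW * Q i T) ^ κ := Real.rpow_le_rpow (by linarith) hQ' hκ
            _ = K₂ * Q i T ^ κ := Real.mul_rpow (by linarith) hQp.le
            _ ≤ Q i T ^ (μ / 8) * Q i T ^ κ := mul_le_mul_of_nonneg_right h6 (by positivity)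
            _ = Q i T ^ (μ / 8 + κ) := (Real.rpow_add hQp _ _).symm
            _ < Q i T ^ κ' := by
                apply Real.rpow_lt_rpow_of_exponent_lt
                · by_contra hcon
                  push Not at hcon
                  have : ℓ ≤ 0 := Real.log_nonpos hQp.le hcon
                  linarith
                · rw [hκ']; linarith
        linarith
      have hsum : (S.card : ℝ) ≤
          ∑ s ∈ S, Real.log (R / ‖s - (1 / 2 + T₀ * Complex.I)‖) := by
        rw [Finset.card_eq_sum_ones, Nat.cast_sum]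
        apply Finset.sum_le_sum
        intro s hs
        have h1 := hQT₀ne s hs
        rw [Nat.cast_one, Real.le_log_iff_exp_le (by positivity), le_div_iff₀ h1]
        have h2 := (hS1 s hs).1
        have h3 : Real.exp 1 < 3 := by
          have := Real.exp_one_lt_d9
          linarith
        calc Real.exp 1 * ‖s - (1 / 2 + T₀ * Complex.I)‖ ≤ 3 * r :=
              mul_le_mul h3.le h2 h1.le (by norm_num)
          _ = R := rfl
      have hDD : DD L Q Q i ε T = ℓ - 4 * Real.log V + ε * ℓ := rfl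
      rw [hDD] at hlw2
      have h1 : l * r * (ℓ - Real.log QW) ≤ R / Real.pi * (ℓ - 4 * Real.log V + ε * ℓ) + 1 := by
        refine (mul_le_mul_of_nonneg_left hlogQ (by positivity)).trans ?_
        exact hS3.trans (hsum.trans hlw2)
      have h2 : R / Real.pi * (Real.pi / 3 * l * (ℓ - Real.log QW)) = l * r * (ℓ - Real.log QW) := by
        rw [hR]; field_simp
      have h3 : R / Real.pi * (Real.pi / R) = 1 := by field_simp
      have h4 : R / Real.pi * (Real.pi / 3 * l * (ℓ - Real.log QW)) ≤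
          R / Real.pi * (ℓ - 4 * Real.log V + ε * ℓ + Real.pi / R) := by
        rw [h2, mul_add, h3]
        exact h1
      have h5 := le_of_mul_le_mul_left h4 (by positivity)
      have h6 : l * ℓ ≤ Real.pi / 3 * l * ℓ := by
        have : 1 * (l * ℓ) ≤ Real.pi / 3 * (l * ℓ) :=
          mul_le_mul_of_nonneg_right (by linarith) (by positivity)
        linarith
      have h7 : μ * ℓ ≤ l * ℓ := mul_le_mul_of_nonneg_right hμ1 hℓ0.le
      have h8 : Real.pi / 3 * l * (ℓ - Real.log QW) = Real.pi / 3 * l * ℓ -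
        Real.pi / 3 * l * Real.log QW := by ring
      have h9 : Real.log V ≤ κ' * ℓ := by
        rw [hκ']
        have h10 : ε * ℓ = μ * ℓ / 4 := by rw [hεd]; ring
        linarith
      calc V ≤ Real.exp (κ' * ℓ) := (Real.log_le_iff_le_exp hV0).1 h9
        _ = Q i T ^ κ' := by
            rw [Real.rpow_def_of_pos hQp]
            congr 1; ring)
  refine ⟨B, fun i T => (hB i T).trans (le_of_eq ?_)⟩
  show B * Q i T ^ (0:ℝ) * Q i T ^ κ' = B * Q i T ^ κ'
  rw [Real.rpow_zero, mul_one]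

/-- the converse: a bound with exponent `κ' < κ` gives many small values -/
theorem manySmall_of_exponent (H : Fam2 L Q Q) {κ κ' r η : ℝ} (hκ' : 0 ≤ κ') (hκ : κ' < κ) (hr : 0 < r)
    (hη : 0 < η) (hE : Exponent L Q κ') : ManySmall L Q r (1 / η) η κ := by
  obtain ⟨X₀, hX₀⟩ := values_near H hκ' hE (ε := κ - κ') (r := r) (by linarith) hr.le
  refine ⟨X₀, fun i T hX => ?_⟩
  have hQ1 := H.Q1 i T
  rcases eq_or_lt_of_le (Real.log_nonneg hQ1) with h0 | h0
  · refine ⟨∅, by simp, by simp, ?_⟩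
    rw [← h0]
    simp
  · obtain ⟨S, hS1, hS2, hS3⟩ := points (T := T) h0 hη hr
    refine ⟨S, fun s hs => ?_, hS2, ?_⟩
    · obtain ⟨t, h1, h2, rfl⟩ := hS1 s hs
      have e1 : (1 / 2 + (t : ℂ) * Complex.I) - (1 / 2 + (T : ℂ) * Complex.I) =
          ((t - T : ℝ) : ℂ) * Complex.I := by push_cast; ring
      have h3 : |t - T| ≤ r := by rw [abs_le]; constructor <;> linarith
      have h4 := hX₀ i T t hX h3
      rw [add_sub_cancel] at h4
      refine ⟨?_, h4⟩
      rw [e1, norm_mul, Complex.norm_I, mul_one, Complex.norm_real]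
      exact h3
    · refine le_trans (le_of_eq ?_) hS3
      field_simp

end Pool.Agent.TH804.FM
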