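import Mathlib
import Pool.Agent.TH804.SB5

/-!
Local growth data, with a lower bound to the left of the critical strip only in a vertical strip free of trivial zeros.
-/

set_option autoImplicit false

open Complex Filter Topology Metric Set
open H370 H370.Loc
open Pool.Agent.TH804.SB (opL opL_nil opL_cons opL_an opL_le ball_re ball_im tw_norm tw_logDeriv exists_exp_dom
  tw_sub_le tw_sub_ge mult_tw max_rect wt_norm chain)

set_option maxHeartbeats 4000000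

namespace Pool.Agent.TH804.SG

/-- local growth data for `F z = L (1/2 + iT + z)`; `ℓ = log Q` -/
structure LG (F : ℂ → ℂ) (η W B ℓ : ℝ) : Prop where
  an : ∀ z : ℂ, |z.re| ≤ 2 → |z.im| ≤ W → AnalyticAt ℂ F z
  crude : ∀ z : ℂ, |z.re| ≤ 2 → |z.im| ≤ W → ‖F z‖ ≤ Real.exp (B * ℓ)
  right : ∀ z : ℂ, 1 / 2 + η ≤ z.re → z.re ≤ 2 → |z.im| ≤ W → ‖F z‖ ≤ Real.exp (η * ℓ)
  up : ∀ z : ℂ, -2 ≤ z.re → z.re ≤ -(1 / 2 + η) → |z.im| ≤ W → ‖F z‖ ≤ Real.exp ((-z.re + η) * ℓ)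

/-- lower bound in the strip `|Re z + x| ≤ c` -/
def Lo (F : ℂ → ℂ) (x c η W ℓ : ℝ) : Prop := ∀ z : ℂ, |z.re + x| ≤ c → |z.im| ≤ W →
  Real.exp ((-z.re - η) * ℓ) ≤ ‖F z‖

lemma LG.mono {F : ℂ → ℂ} {η η' W W' B ℓ : ℝ} (h : LG F η W B ℓ) (hη : η ≤ η') (hW : W' ≤ W) (hℓ : 0 ≤ ℓ) :
    LG F η' W' B ℓ where
  an := fun z h1 h2 => h.an z h1 (h2.trans hW)
  crude := fun z h1 h2 => h.crude z h1 (h2.trans hW)
  right := fun z h1 h2 h3 => (h.right z (by linarith) h2 (h3.trans hW)).trans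
    (Real.exp_le_exp.2 (mul_le_mul_of_nonneg_right hη hℓ))
  up := fun z h1 h2 h3 => (h.up z h1 (by linarith) (h3.trans hW)).trans
    (Real.exp_le_exp.2 (mul_le_mul_of_nonneg_right (by linarith) hℓ))

lemma Lo.mono {F : ℂ → ℂ} {x c η η' W W' ℓ : ℝ} (h : Lo F x c η W ℓ) (hη : η ≤ η') (hW : W' ≤ W) (hℓ : 0 ≤ ℓ) :
    Lo F x c η' W' ℓ := fun z h1 h2 => le_trans
  (Real.exp_le_exp.2 (mul_le_mul_of_nonneg_right (by linarith) hℓ)) (h z h1 (h2.trans hW))

/-- crude bound -/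
lemma opL_crude (L : List ℂ) : ∃ ℓ₀ : ℝ, ∀ (F : ℂ → ℂ) (η W B ℓ : ℝ), ℓ₀ ≤ ℓ → LG F η W B ℓ →
    ∀ z : ℂ, |z.re| ≤ 3 / 2 → |z.im| ≤ W - 1 / 2 → ‖opL L F z‖ ≤ Real.exp ((B + 1) * ℓ) := by
  obtain ⟨C, hC, h⟩ := opL_le L (1 / 2) (by norm_num)
  refine ⟨Real.log C, fun F η W B ℓ hℓ hF z hre him => ?_⟩
  have hv1 : ∀ v ∈ closedBall z (1 / 2), |v.re| ≤ 2 := fun v hv => by
    have h1 := abs_le.1 (ball_re hv)
    have h2 := abs_le.1 hre
    rw [abs_le]; constructor <;> linarith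
  have hv2 : ∀ v ∈ closedBall z (1 / 2), |v.im| ≤ W := fun v hv => by
    have h1 := abs_le.1 (ball_im hv)
    have h2 := abs_le.1 him
    rw [abs_le]; constructor <;> linarith
  refine (h F z (Real.exp (B * ℓ)) (Real.exp_pos _).le (fun v hv => hF.an v (hv1 v hv) (hv2 v hv))
    (fun v hv => hF.crude v (hv1 v hv) (hv2 v hv))).trans ?_
  have hCe : C = Real.exp (Real.log C) := (Real.exp_log (by linarith)).symm
  rw [hCe, ← Real.exp_add]
  apply Real.exp_le_exp.2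
  linarith

/-- **two-sided bounds on the left** -/
theorem opL_left (L : List ℂ) : ∀ ε c : ℝ, 0 < ε → ε ≤ c → c ≤ 1 / 4 → ∃ η : ℝ, 0 < η ∧ η ≤ ε ∧ ∃ ℓ₀ : ℝ, 1 ≤ ℓ₀ ∧
    ∀ (F : ℂ → ℂ) (x W B ℓ : ℝ), ℓ₀ ≤ ℓ → 1 / 2 + 2 * c ≤ x → x + c ≤ 2 → LG F η W B ℓ → Lo F x c η W ℓ →
      ∀ z : ℂ, |z.re + x| ≤ c - ε → |z.im| ≤ W - ε →
        Real.exp ((-z.re - ε) * ℓ) ≤ ‖opL L F z‖ ∧ ‖opL L F z‖ ≤ Real.exp ((-z.re + ε) * ℓ) := by
  induction L with
  | nil =>
    intro ε c hε hεc hc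
    refine ⟨ε, hε, le_rfl, 1, le_rfl, fun F x W B ℓ hℓ hx1 hx2 hF hlo z h1 h2 => ⟨?_, ?_⟩⟩
    · exact hlo z (by linarith) (by linarith)
    · have h3 := abs_le.1 h1
      exact hF.up z (by linarith) (by linarith) (by linarith)
  | cons l L ih =>
    intro ε c hε hεc hc
    set ε' : ℝ := ε / 200 with hε'
    have hε'0 : 0 < ε' := by positivity
    obtain ⟨η, hη, hηε, ℓ₀, hℓ₀, h⟩ := ih ε' c hε'0 (by linarith) hc
    -- `2 ℓ ≤ exp ((ε - ε') ℓ)`
    obtain ⟨Y, hY1, hY⟩ := exists_exp_dom 2 (ε := ε / 2) (by positivity)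
    have hl0 := norm_nonneg l
    refine ⟨η, hη, by linarith, ℓ₀ + |Y| + 200 / ε + 4 * (1 + ‖l‖), by
      have := abs_nonneg Y
      have : 0 ≤ 200 / ε := by positivity
      linarith, fun F x W B ℓ hℓ hx1 hx2 hF hlo z hz1 hz3 => ?_⟩
    have hYa := le_abs_self Y
    have hYn := abs_nonneg Y
    have h200 : 0 ≤ 200 / ε := by positivity
    have hℓ1 : 1 ≤ ℓ := by linarith
    have hℓ0 : 0 < ℓ := by linarith
    have hεℓ : 200 ≤ ε * ℓ := by
      have : 200 / ε ≤ ℓ := by linarith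
      rw [div_le_iff₀ hε] at this
      linarith
    have hz1' := abs_le.1 hz1
    set G : ℂ → ℂ := opL L F with hG
    have hin : ∀ v ∈ closedBall z (ε / 2), |v.re + x| ≤ c - ε' ∧ |v.im| ≤ W - ε' := by
      intro v hv
      have h1 := abs_le.1 (ball_re hv)
      have h2 := abs_le.1 (ball_im hv)
      have h3 := abs_le.1 hz3
      refine ⟨?_, ?_⟩
      · rw [abs_le]; constructor <;> linarith
      · rw [abs_le]; constructor <;> linarith
    have hGan : ∀ v ∈ closedBall z (ε / 2), AnalyticAt ℂ G v := by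
      intro v hv
      obtain ⟨h1, h3⟩ := hin v hv
      have h1' := abs_le.1 h1
      refine opL_an L (hF.an v ?_ (by linarith))
      rw [abs_le]; constructor <;> linarith
    have hb : ∀ v ∈ closedBall z (ε / 2), Real.exp (-(ε' * ℓ)) ≤ ‖G v * cexp (ℓ * v)‖ ∧
        ‖G v * cexp (ℓ * v)‖ ≤ Real.exp (ε' * ℓ) := by
      intro v hv
      obtain ⟨h1, h3⟩ := hin v hv
      obtain ⟨h4, h5⟩ := h F x W B ℓ (by linarith) hx1 hx2 hF hlo v h1 h3
      rw [tw_norm]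
      have hpos := Real.exp_pos (ℓ * v.re)
      constructor
      · calc Real.exp (-(ε' * ℓ)) = Real.exp ((-v.re - ε') * ℓ) * Real.exp (ℓ * v.re) := by
              rw [← Real.exp_add]; congr 1; ring
          _ ≤ _ := mul_le_mul_of_nonneg_right h4 hpos.le
      · calc ‖G v‖ * Real.exp (ℓ * v.re) ≤ Real.exp ((-v.re + ε') * ℓ) * Real.exp (ℓ * v.re) :=
              mul_le_mul_of_nonneg_right h5 hpos.le
          _ = _ := by rw [← Real.exp_add]; congr 1; ring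
    have hzz : z ∈ closedBall z (ε / 2) := mem_closedBall_self (by positivity)
    have hG0 : ∀ v ∈ closedBall z (ε / 2), G v ≠ 0 := by
      intro v hv h0
      have h1 := (hb v hv).1
      rw [h0, zero_mul, norm_zero] at h1
      linarith [Real.exp_pos (-(ε' * ℓ))]
    have hld := logDeriv_zero_free (g := fun v => G v * cexp (ℓ * v)) (c := z) (r := ε / 2)
      (r1 := ε / 4) (r2 := ε / 8) (B := 2 * (ε' * ℓ)) (by positivity) (by linarith) (by linarith)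
      (by positivity) (fun v hv => (hGan v hv).mul (by fun_prop))
      (fun v hv => mul_ne_zero (hG0 v hv) (Complex.exp_ne_zero _)) (fun v hv => by
        refine (hb v hv).2.trans ?_
        calc Real.exp (ε' * ℓ) = Real.exp (2 * (ε' * ℓ)) * Real.exp (-(ε' * ℓ)) := by
              rw [← Real.exp_add]; congr 1; ring
          _ ≤ _ := mul_le_mul_of_nonneg_left (hb z hzz).1 (Real.exp_pos _).le)
      (z := z) (mem_closedBall_self (by positivity))
    rw [tw_logDeriv (hGan z hzz).differentiableAt (hG0 z hzz)] at hld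
    have e1 : 2 * (2 * (ε' * ℓ) + 1) * (ε / 4) / (ε / 2 - ε / 4) / (ε / 4 - ε / 8) =
        2 * (2 * (ε' * ℓ) + 1) / (ε / 8) := by
      field_simp
      ring
    have e2 : 2 * (2 * (ε' * ℓ) + 1) / (ε / 8) ≤ ℓ / 4 := by
      rw [div_le_iff₀ (by positivity)]
      have : ε' * ℓ = ε * ℓ / 200 := by rw [hε']; ring
      rw [this]
      nlinarith
    rw [e1] at hld
    have hld2 : ‖logDeriv G z + ℓ‖ ≤ ℓ / 4 := hld.trans e2
    have hGz := hG0 z hzz
    have heq : deriv G z - l * G z = (logDeriv G z - l) * G z := by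
      rw [logDeriv_apply, sub_mul, div_mul_cancel₀ _ hGz]
    have hlow : 1 ≤ ‖logDeriv G z - l‖ := by
      have h1 : ‖(ℓ : ℂ)‖ ≤ ‖logDeriv G z + ℓ‖ + ‖l‖ + ‖logDeriv G z - l‖ := by
        calc ‖(ℓ : ℂ)‖ = ‖(logDeriv G z + ℓ) - l - (logDeriv G z - l)‖ := by congr 1; ring
          _ ≤ ‖(logDeriv G z + ℓ) - l‖ + ‖logDeriv G z - l‖ := norm_sub_le _ _
          _ ≤ _ := by
              have := norm_sub_le (logDeriv G z + ℓ) l
              linarith
      rw [Complex.norm_real, Real.norm_eq_abs, abs_of_pos hℓ0] at h1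
      linarith
    have hupp : ‖logDeriv G z - l‖ ≤ 2 * ℓ := by
      have h1 : ‖logDeriv G z - l‖ ≤ ‖logDeriv G z + ℓ‖ + ‖(ℓ : ℂ)‖ + ‖l‖ := by
        calc ‖logDeriv G z - l‖ = ‖(logDeriv G z + ℓ) - ℓ - l‖ := by congr 1; ring
          _ ≤ ‖(logDeriv G z + ℓ) - ℓ‖ + ‖l‖ := norm_sub_le _ _
          _ ≤ _ := by
              have := norm_sub_le (logDeriv G z + ℓ) (ℓ : ℂ)
              linarith
      rw [Complex.norm_real, Real.norm_eq_abs, abs_of_pos hℓ0] at h1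
      linarith
    obtain ⟨h1, h3⟩ := hin z hzz
    obtain ⟨h4, h5⟩ := h F x W B ℓ (by linarith) hx1 hx2 hF hlo z h1 h3
    rw [opL_cons]
    show _ ≤ ‖deriv G z - l * G z‖ ∧ ‖deriv G z - l * G z‖ ≤ _
    rw [heq, norm_mul]
    constructor
    · calc Real.exp ((-z.re - ε) * ℓ) ≤ Real.exp ((-z.re - ε') * ℓ) := by
            apply Real.exp_le_exp.2
            apply mul_le_mul_of_nonneg_right _ hℓ0.le
            linarith
        _ ≤ ‖G z‖ := h4
        _ = 1 * ‖G z‖ := (one_mul _).symm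
        _ ≤ _ := mul_le_mul_of_nonneg_right hlow (norm_nonneg _)
    · calc ‖logDeriv G z - l‖ * ‖G z‖ ≤ (2 * ℓ) * Real.exp ((-z.re + ε') * ℓ) :=
            mul_le_mul hupp h5 (norm_nonneg _) (by positivity)
        _ ≤ Real.exp (ε / 2 * ℓ) * Real.exp ((-z.re + ε') * ℓ) :=
            mul_le_mul_of_nonneg_right (hY ℓ (by linarith)) (Real.exp_pos _).le
        _ ≤ _ := by
            rw [← Real.exp_add]
            apply Real.exp_le_exp.2
            nlinarith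

end Pool.Agent.TH804.SG
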