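import Mathlib
import Pool.Agent.TH804.SG1

/-!
Local three lines estimates (copy of `SB2` for the weaker growth data).
-/

set_option autoImplicit false

open Complex Filter Topology Metric Set
open H370 H370.Loc
open Pool.Agent.TH804.SB (opL opL_nil opL_cons opL_an opL_le ball_re ball_im tw_norm tw_logDeriv exists_exp_dom
  tw_sub_le tw_sub_ge mult_tw max_rect wt_norm chain)

set_option maxHeartbeats 4000000

namespace Pool.Agent.TH804.SG

/-- **upper bounds to the left of the critical line** -/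
theorem left_upper {ε B : ℝ} (hε : 0 < ε) (hε1 : ε ≤ 1) (hB : 0 ≤ B) : ∃ η V : ℝ, 0 < η ∧ η ≤ ε ∧ 0 < V ∧
    ∀ (F : ℂ → ℂ) (W ℓ : ℝ), 0 ≤ ℓ → LG F η W B ℓ → (∀ y : ℝ, |y| ≤ W → ‖F (y * I)‖ ≤ Real.exp (η * ℓ)) →
      ∀ z : ℂ, -2 ≤ z.re → z.re ≤ 0 → |z.im| ≤ W - V → ‖F z‖ ≤ Real.exp ((-z.re + ε) * ℓ) := by
  set c : ℝ := ε / 2 with hc
  have hc0 : 0 < c := by positivity
  set V : ℝ := (B + 2) / c + 1 with hV
  have hV1 : 1 ≤ V := by
    have : 0 ≤ (B + 2) / c := by positivity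
    linarith
  have hVc : B + 2 ≤ c * V ^ 2 := by
    have h1 : (B + 2) / c ≤ V := by rw [hV]; linarith
    rw [div_le_iff₀ hc0] at h1
    nlinarith
  refine ⟨ε / 2, V, by positivity, by linarith, by linarith, fun F W ℓ hℓ hF hcrit z hz1 hz2 hz3 => ?_⟩
  rcases le_or_gt z.re (-(1 / 2 + ε / 2)) with h | h
  · refine (hF.up z hz1 h (by linarith)).trans ?_
    apply Real.exp_le_exp.2
    apply mul_le_mul_of_nonneg_right _ hℓ
    linarith
  · set y₀ : ℝ := z.im with hy₀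
    have hz3' := abs_le.1 hz3
    have hwin : ∀ y : ℝ, y₀ - V ≤ y → y ≤ y₀ + V → |y| ≤ W := by
      intro y h1 h2
      rw [abs_le]; constructor <;> linarith
    have key := max_rect (H := fun z => F z * cexp ((ℓ : ℝ) * z + ((c * ℓ : ℝ) : ℂ) * (z - y₀ * I) ^ 2))
      (x0 := -(1 / 2 + ε / 2)) (x1 := 0) (y0 := y₀ - V) (y1 := y₀ + V) (M := Real.exp ((ε / 2 + c) * ℓ))
      (by linarith) (by linarith)
      (fun v h1 h2 h3 h4 => (hF.an v (by rw [abs_le]; constructor <;> linarith) (hwin _ h3 h4)).mul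
        (by fun_prop))
      (fun v h1 h3 h4 => by
        rw [wt_norm]
        have h5 := hF.up v (by rw [h1]; linarith) (by rw [h1]) (hwin _ h3 h4)
        calc ‖F v‖ * Real.exp (ℓ * v.re + c * ℓ * (v.re ^ 2 - (v.im - y₀) ^ 2))
            ≤ Real.exp ((-v.re + ε / 2) * ℓ) * Real.exp (ℓ * v.re + c * ℓ * 1) := by
              apply mul_le_mul h5 _ (Real.exp_pos _).le (Real.exp_pos _).le
              apply Real.exp_le_exp.2
              have h6 : v.re ^ 2 - (v.im - y₀) ^ 2 ≤ 1 := by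
                rw [h1]
                nlinarith [sq_nonneg (v.im - y₀)]
              have := mul_le_mul_of_nonneg_left h6 (show 0 ≤ c * ℓ by positivity)
              linarith
          _ = _ := by rw [← Real.exp_add]; congr 1; ring)
      (fun v h1 h3 h4 => by
        rw [wt_norm, h1]
        have ev : v = (v.im : ℂ) * I := by
          apply Complex.ext <;> simp [h1]
        have h5 := hcrit v.im (hwin _ h3 h4)
        rw [← ev] at h5
        calc ‖F v‖ * Real.exp (ℓ * 0 + c * ℓ * (0 ^ 2 - (v.im - y₀) ^ 2))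
            ≤ Real.exp (ε / 2 * ℓ) * Real.exp (c * ℓ) := by
              apply mul_le_mul h5 _ (Real.exp_pos _).le (Real.exp_pos _).le
              apply Real.exp_le_exp.2
              have h6 : (0:ℝ) ^ 2 - (v.im - y₀) ^ 2 ≤ 1 := by nlinarith [sq_nonneg (v.im - y₀)]
              have := mul_le_mul_of_nonneg_left h6 (show 0 ≤ c * ℓ by positivity)
              linarith
          _ = _ := by rw [← Real.exp_add]; congr 1; ring)
      (fun v h1 h2 h3 => by
        rw [wt_norm]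
        have h4 : (v.im - y₀) ^ 2 = V ^ 2 := by
          rcases h3 with h | h <;> rw [h] <;> ring
        have h5 : |v.im| ≤ W := by
          rcases h3 with h | h <;> rw [h] <;> apply hwin <;> linarith
        have h6 := hF.crude v (by rw [abs_le]; constructor <;> linarith) h5
        calc ‖F v‖ * Real.exp (ℓ * v.re + c * ℓ * (v.re ^ 2 - (v.im - y₀) ^ 2))
            ≤ Real.exp (B * ℓ) * Real.exp (-(B * ℓ)) := by
              apply mul_le_mul h6 _ (Real.exp_pos _).le (Real.exp_pos _).le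
              apply Real.exp_le_exp.2
              rw [h4]
              have h7 : v.re ^ 2 ≤ 1 := by nlinarith
              have h8 : ℓ * v.re ≤ 0 := mul_nonpos_of_nonneg_of_nonpos hℓ h2
              have h9 : c * ℓ * (v.re ^ 2 - V ^ 2) ≤ c * ℓ - (B + 2) * ℓ := by
                have h10 := mul_le_mul_of_nonneg_right hVc hℓ
                have h11 := mul_le_mul_of_nonneg_left h7 (show 0 ≤ c * ℓ by positivity)
                nlinarith
              have h12 : c * ℓ ≤ 2 * ℓ := mul_le_mul_of_nonneg_right (by linarith) hℓ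
              nlinarith
          _ = 1 := by rw [← Real.exp_add]; simp
          _ ≤ _ := Real.one_le_exp (by positivity))
      (z := z) h.le hz2 (by linarith) (by linarith)
    rw [wt_norm, ← hy₀] at key
    have h1 : ‖F z‖ * Real.exp (ℓ * z.re) ≤ Real.exp ((ε / 2 + c) * ℓ) := by
      refine le_trans (mul_le_mul_of_nonneg_left (Real.exp_le_exp.2 ?_) (norm_nonneg _)) key
      have : 0 ≤ c * ℓ * (z.re ^ 2 - (y₀ - y₀) ^ 2) := by
        rw [sub_self]
        have := sq_nonneg z.re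
        have h0 : 0 ≤ c * ℓ := by positivity
        nlinarith
      linarith
    calc ‖F z‖ = ‖F z‖ * Real.exp (ℓ * z.re) * Real.exp (-(ℓ * z.re)) := by
          rw [mul_assoc, ← Real.exp_add]; simp
      _ ≤ Real.exp ((ε / 2 + c) * ℓ) * Real.exp (-(ℓ * z.re)) :=
          mul_le_mul_of_nonneg_right h1 (Real.exp_pos _).le
      _ = _ := by rw [← Real.exp_add]; congr 1; rw [hc]; ring

/-- **a weighted maximum on the critical line** -/
theorem peak {ε ε₁ B : ℝ} (hε : 0 < ε) (hε1 : ε ≤ 1) (hε₁ : 0 < ε₁) (hε₁1 : ε₁ ≤ ε) (hB : 0 ≤ B) :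
    ∃ η W : ℝ, 0 < η ∧ η ≤ ε ∧ 3 ≤ W ∧ ∀ (F : ℂ → ℂ) (ℓ : ℝ), 0 < ℓ → LG F η W B ℓ →
      Real.exp (ε * ℓ) ≤ ‖F 0‖ → ∃ y₀ : ℝ, |y₀| + 2 ≤ W ∧ ‖F 0‖ ≤ ‖F (y₀ * I)‖ ∧
        ∀ z : ℂ, 0 ≤ z.re → z.re ≤ 1 / 2 → |z.im - y₀| ≤ 1 →
          ‖F z‖ ≤ ‖F (y₀ * I)‖ * Real.exp ((-(ε / 2) * z.re + ε₁ * |z.im - y₀|) * ℓ) := by
  set c : ℝ := ε₁ ^ 2 / (64 * (B + 4)) with hc
  have hB4 : 0 < B + 4 := by linarith
  have hc0 : 0 < c := by positivity
  have hcB : c * (B + 4) = ε₁ ^ 2 / 64 := by rw [hc]; field_simp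
  have hc1 : c ≤ ε₁ / 64 := by
    have h1 : c * 4 ≤ c * (B + 4) := mul_le_mul_of_nonneg_left (by linarith) hc0.le
    nlinarith
  set V : ℝ := (8 * (B + 4)) / ε₁ with hV
  have hV1 : 1 ≤ V := by
    rw [hV, le_div_iff₀ hε₁]; linarith
  have hcV : c * V = ε₁ / 8 := by rw [hc, hV]; field_simp; norm_num
  have hcV2 : c * V ^ 2 = B + 4 := by
    rw [sq, ← mul_assoc, hcV, hV]; field_simp
  refine ⟨ε / 4, V + 2, by positivity, by linarith, by linarith, fun F ℓ hℓ hF hF0 => ?_⟩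
  set W : ℝ := V + 2 with hW
  set H : ℂ → ℂ := fun z => F z * cexp (((ε / 2 * ℓ : ℝ) : ℂ) * z + ((c * ℓ : ℝ) : ℂ) * (z - (0 : ℝ) * I) ^ 2)
    with hH
  have hHn : ∀ z : ℂ, ‖H z‖ = ‖F z‖ * Real.exp (ε / 2 * ℓ * z.re + c * ℓ * (z.re ^ 2 - z.im ^ 2)) := by
    intro z
    have := wt_norm F (ε / 2 * ℓ) (c * ℓ) 0 z
    rw [sub_zero] at this
    exact this
  have hHa : ∀ z : ℂ, |z.re| ≤ 2 → |z.im| ≤ W → AnalyticAt ℂ H z := fun z h1 h2 =>
    (hF.an z h1 h2).mul (by fun_prop)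
  have hHi : ∀ y : ℝ, ‖H (y * I)‖ = ‖F (y * I)‖ * Real.exp (-(c * ℓ * y ^ 2)) := by
    intro y
    rw [hHn]
    congr 2
    simp
  -- the edges
  have hedge : ∀ z : ℂ, 0 ≤ z.re → z.re ≤ 1 → V ≤ |z.im| → |z.im| ≤ W → ‖H z‖ ≤ 1 := by
    intro z h1 h2 h3 h4
    rw [hHn]
    have h5 := hF.crude z (by rw [abs_le]; constructor <;> linarith) h4
    have h6 : V ^ 2 ≤ z.im ^ 2 := by
      rw [← sq_abs z.im]
      exact pow_le_pow_left₀ (by linarith) h3 2
    calc ‖F z‖ * Real.exp (ε / 2 * ℓ * z.re + c * ℓ * (z.re ^ 2 - z.im ^ 2))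
        ≤ Real.exp (B * ℓ) * Real.exp (-(B * ℓ)) := by
          apply mul_le_mul h5 _ (Real.exp_pos _).le (Real.exp_pos _).le
          apply Real.exp_le_exp.2
          have h7 : ε / 2 * ℓ * z.re ≤ 1 * ℓ := by
            have : ε / 2 * z.re ≤ 1 := by nlinarith
            nlinarith
          have h8 : z.re ^ 2 ≤ 1 := by nlinarith
          have h9 : c * ℓ * (z.re ^ 2 - z.im ^ 2) ≤ c * ℓ * (1 - V ^ 2) :=
            mul_le_mul_of_nonneg_left (by linarith) (by positivity)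
          have h10 : c * ℓ * (1 - V ^ 2) = c * ℓ - (B + 4) * ℓ := by
            rw [← hcV2]; ring
          have h11 : c * ℓ ≤ 1 * ℓ := mul_le_mul_of_nonneg_right (by linarith) hℓ.le
          nlinarith
      _ = 1 := by rw [← Real.exp_add]; simp
  -- the maximum
  obtain ⟨y₀, hy₀, hmax⟩ := (isCompact_Icc (a := -W) (b := W)).exists_isMaxOn
    (nonempty_Icc.2 (by linarith)) (f := fun y : ℝ => ‖H (y * I)‖) (by
      intro y hy
      apply ContinuousAt.continuousWithinAt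
      have h1 : ContinuousAt H ((y : ℂ) * I) := (hHa _ (by simp) (by simpa using abs_le.2 hy)).continuousAt
      have h2 : ContinuousAt (fun y : ℝ => (y : ℂ) * I) y := by fun_prop
      exact (ContinuousAt.comp (f := fun y : ℝ => (y : ℂ) * I) (g := H) h1 h2).norm)
  set M : ℝ := ‖H (y₀ * I)‖ with hM
  have hmax' : ∀ y : ℝ, |y| ≤ W → ‖H (y * I)‖ ≤ M := fun y hy => hmax (abs_le.1 hy)
  have hH0 : ‖H 0‖ = ‖F 0‖ := by
    rw [hHn]; simp
  have hFM : ‖F 0‖ ≤ M := by
    have h1 := hmax' 0 (by rw [abs_zero]; linarith)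
    rw [Complex.ofReal_zero, zero_mul, hH0] at h1
    exact h1
  have hM1 : 1 < M := by
    have h1 : 1 < Real.exp (ε * ℓ) := Real.one_lt_exp_iff.2 (by positivity)
    linarith
  have hy₀V : |y₀| < V := by
    by_contra hcon
    push Not at hcon
    have h1 := hedge (y₀ * I) (by simp) (by simp) (by simpa using hcon) (by simpa using abs_le.2 hy₀)
    linarith
  have hM0 : M = ‖F (y₀ * I)‖ * Real.exp (-(c * ℓ * y₀ ^ 2)) := by rw [hM, hHi]
  refine ⟨y₀, by linarith, ?_, fun z h1 h2 h3 => ?_⟩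
  · refine hFM.trans ?_
    rw [hM0]
    have : Real.exp (-(c * ℓ * y₀ ^ 2)) ≤ 1 := by
      rw [Real.exp_le_one_iff]
      have : 0 ≤ c * ℓ * y₀ ^ 2 := by positivity
      linarith
    exact mul_le_of_le_one_right (norm_nonneg _) this
  · have hy1 := abs_le.1 h3
    have hy2 := abs_lt.1 hy₀V
    have key := max_rect (H := H) (x0 := 0) (x1 := 1 / 2 + ε / 4) (y0 := -W) (y1 := W) (M := M)
      (by linarith) (by linarith)
      (fun v h1 h2 h3 h4 => hHa v (by rw [abs_le]; constructor <;> linarith) (abs_le.2 ⟨h3, h4⟩))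
      (fun v h1 h3 h4 => by
        have ev : v = (v.im : ℂ) * I := by
          apply Complex.ext <;> simp [h1]
        rw [ev]
        exact hmax' v.im (abs_le.2 ⟨h3, h4⟩))
      (fun v h1 h3 h4 => by
        rw [hHn]
        have h5 := hF.right v (by rw [h1]) (by rw [h1]; linarith) (abs_le.2 ⟨h3, h4⟩)
        have h6 : 0 < v.re := by rw [h1]; linarith
        have h7 : v.re ≤ 1 := by rw [h1]; linarith
        calc ‖F v‖ * Real.exp (ε / 2 * ℓ * v.re + c * ℓ * (v.re ^ 2 - v.im ^ 2))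
            ≤ Real.exp (ε / 4 * ℓ) * Real.exp (ε / 2 * ℓ + ε / 4 * ℓ) := by
              apply mul_le_mul h5 _ (Real.exp_pos _).le (Real.exp_pos _).le
              apply Real.exp_le_exp.2
              have h8 : ε / 2 * ℓ * v.re ≤ ε / 2 * ℓ := mul_le_of_le_one_right (by positivity) h7
              have h9 : v.re ^ 2 - v.im ^ 2 ≤ 1 := by nlinarith [sq_nonneg v.im]
              have h10 : c * ℓ * (v.re ^ 2 - v.im ^ 2) ≤ c * ℓ * 1 :=
                mul_le_mul_of_nonneg_left h9 (by positivity)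
              have h11 : c * ℓ ≤ ε / 4 * ℓ := mul_le_mul_of_nonneg_right (by linarith) hℓ.le
              linarith
          _ = Real.exp (ε * ℓ) := by rw [← Real.exp_add]; congr 1; ring
          _ ≤ M := hF0.trans hFM)
      (fun v h1 h2 h3 => by
        have h4 : |v.im| = W := by
          rcases h3 with h | h
          · rw [h, abs_neg, abs_of_pos (by linarith)]
          · rw [h, abs_of_pos (by linarith)]
        exact (hedge v h1 (by linarith) (by rw [h4]; linarith) h4.le).trans hM1.le)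
      (z := z) h1 (by linarith) (by linarith) (by linarith)
    rw [hHn, hM0] at key
    have h5 : ‖F z‖ ≤ ‖F (y₀ * I)‖ * Real.exp (-(c * ℓ * y₀ ^ 2)) *
        Real.exp (-(ε / 2 * ℓ * z.re + c * ℓ * (z.re ^ 2 - z.im ^ 2))) := by
      calc ‖F z‖ = ‖F z‖ * Real.exp (ε / 2 * ℓ * z.re + c * ℓ * (z.re ^ 2 - z.im ^ 2)) *
            Real.exp (-(ε / 2 * ℓ * z.re + c * ℓ * (z.re ^ 2 - z.im ^ 2))) := by
            rw [mul_assoc, ← Real.exp_add]; simp
        _ ≤ _ := mul_le_mul_of_nonneg_right key (Real.exp_pos _).le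
    refine h5.trans ?_
    rw [mul_assoc, ← Real.exp_add]
    apply mul_le_mul_of_nonneg_left _ (norm_nonneg _)
    apply Real.exp_le_exp.2
    have h6 : z.im ^ 2 - y₀ ^ 2 ≤ |z.im - y₀| * (2 * V + 1) := by
      have h7 : z.im ^ 2 - y₀ ^ 2 = (z.im - y₀) * (z.im + y₀) := by ring
      rw [h7]
      refine (le_abs_self _).trans ?_
      rw [abs_mul]
      apply mul_le_mul_of_nonneg_left _ (abs_nonneg _)
      rw [abs_le]; constructor <;> linarith
    have h8 : c * (2 * V + 1) ≤ ε₁ := by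
      have : c * (2 * V + 1) = 2 * (c * V) + c := by ring
      rw [this, hcV]
      linarith
    have h9 : c * (z.im ^ 2 - y₀ ^ 2) ≤ ε₁ * |z.im - y₀| := by
      calc c * (z.im ^ 2 - y₀ ^ 2) ≤ c * (|z.im - y₀| * (2 * V + 1)) :=
            mul_le_mul_of_nonneg_left h6 hc0.le
        _ = c * (2 * V + 1) * |z.im - y₀| := by ring
        _ ≤ _ := mul_le_mul_of_nonneg_right h8 (abs_nonneg _)
    have h10 := mul_le_mul_of_nonneg_right h9 hℓ.le
    have h11 : 0 ≤ c * ℓ * z.re ^ 2 := by positivity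
    nlinarith

/-- **from the left to the critical line** -/
theorem crit_bound (L : List ℂ) {ε B : ℝ} (hε : 0 < ε) (hε1 : ε ≤ 1) (hB : 0 ≤ B) :
    ∃ δ η W ℓ₀ : ℝ, 0 < δ ∧ δ ≤ ε ∧ 0 < η ∧ η ≤ ε ∧ 3 ≤ W ∧ ∀ (F : ℂ → ℂ) (ℓ : ℝ), ℓ₀ ≤ ℓ → LG F η W B ℓ →
      (∀ z : ℂ, -1 ≤ z.re → z.re ≤ -δ → |z.im| ≤ W - 1 → ‖opL L F z‖ ≤ Real.exp ((-z.re + δ) * ℓ)) →
      ‖F 0‖ ≤ Real.exp (ε * ℓ) := by
  obtain ⟨η, W, hη, hηε, hW, hpeak⟩ := peak (ε := ε) (ε₁ := ε / 64) (B := B) hε hε1 (by positivity)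
    (by linarith) hB
  obtain ⟨ℓ₁, hcrude⟩ := opL_crude L
  set ρ : ℝ := ε / 16 with hρ
  have hρ0 : 0 < ρ := by positivity
  set r : ℝ := ε * ρ / (80 * (B + 2)) with hr
  have hB2 : 0 < B + 2 := by linarith
  have hr0 : 0 < r := by positivity
  have hrB : r * (80 * (B + 2)) = ε * ρ := by rw [hr]; field_simp
  have hrρ : r ≤ ρ / 160 := by
    have : r * 160 ≤ r * (80 * (B + 2)) := mul_le_mul_of_nonneg_left (by linarith) hr0.le
    nlinarith
  obtain ⟨ℓ₂, hchain⟩ := chain L ε r hε hε1 hr0 (by linarith)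
  obtain ⟨Y, hY1, hY⟩ := exists_exp_dom (20 * (B + 2)) (ε := ε / 8) (by positivity)
  refine ⟨r, η, W, |ℓ₁| + |ℓ₂| + Y + 8, hr0, by linarith, hη, hηε, hW, fun F ℓ hℓ hF hleft => ?_⟩
  have a1 := le_abs_self ℓ₁
  have a2 := le_abs_self ℓ₂
  have a3 := abs_nonneg ℓ₁
  have a4 := abs_nonneg ℓ₂
  have hℓ1 : 1 ≤ ℓ := by linarith
  have hℓ0 : 0 < ℓ := by linarith
  by_contra hcon
  push Not at hcon
  obtain ⟨y₀, hy₀, hF0, hup⟩ := hpeak F ℓ hℓ0 hF hcon.le
  set M : ℝ := ‖F (y₀ * I)‖ with hM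
  have hMe : Real.exp (ε * ℓ) ≤ M := hcon.le.trans hF0
  have hM0 : 0 < M := lt_of_lt_of_le (Real.exp_pos _) hMe
  have hy₀' := abs_le.1 (show |y₀| ≤ W - 2 by linarith)
  obtain ⟨z, hz, hGz⟩ := hchain F y₀ (ε / 64) ℓ M (by linarith) hM0 le_rfl (fun v hv => by
    have h1 := abs_le.1 ((Complex.abs_re_le_norm (v - y₀ * I)).trans hv)
    have h2 := abs_le.1 ((Complex.abs_im_le_norm (v - y₀ * I)).trans hv)
    simp at h1 h2
    apply hF.an
    · rw [abs_le]; constructor <;> linarith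
    · rw [abs_le]; constructor <;> linarith) le_rfl hup
  set G : ℂ → ℂ := opL L F with hG
  -- three circles
  set c : ℂ := y₀ * I - (ρ : ℂ) with hc
  have hcre : c.re = -ρ := by rw [hc]; simp
  have hcim : c.im = y₀ := by rw [hc]; simp
  have hzc : ‖z - c‖ ≤ ρ + r := by
    calc ‖z - c‖ = ‖(z - y₀ * I) + (ρ : ℂ)‖ := by rw [hc]; congr 1; ring
      _ ≤ ‖z - y₀ * I‖ + ‖(ρ : ℂ)‖ := norm_add_le _ _
      _ ≤ _ := by
          rw [Complex.norm_real, Real.norm_eq_abs, abs_of_pos hρ0]; linarith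
  have hcoord : ∀ (R : ℝ) (v : ℂ), ‖v - c‖ ≤ R → -ρ - R ≤ v.re ∧ v.re ≤ -ρ + R ∧ y₀ - R ≤ v.im ∧
      v.im ≤ y₀ + R := by
    intro R v hv
    have h1 := abs_le.1 ((Complex.abs_re_le_norm (v - c)).trans hv)
    have h2 := abs_le.1 ((Complex.abs_im_le_norm (v - c)).trans hv)
    rw [Complex.sub_re, hcre] at h1
    rw [Complex.sub_im, hcim] at h2
    refine ⟨by linarith, by linarith, by linarith, by linarith⟩
  set K : ℕ := ⌈4 * (B + 2) * ℓ⌉₊ with hK
  have hK1 : 4 * (B + 2) * ℓ ≤ K := Nat.le_ceil _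
  have hK2 : (K : ℝ) ≤ 5 * (B + 2) * ℓ := by
    have h1 : (K : ℝ) < 4 * (B + 2) * ℓ + 1 := Nat.ceil_lt_add_one (by positivity)
    nlinarith
  have hcb := DH31.circle_bound (f := G) (c := c) (z := z) (r := ρ + r) (s0 := ρ - r) (s := 2 * ρ)
    (R := 3 * ρ) (m := Real.exp (2 * ρ * ℓ)) (M := Real.exp ((B + 1) * ℓ)) (by linarith) (by linarith)
    (by linarith) (by linarith) (by linarith) (by linarith)
    (fun v hv => by
      rw [mem_ball, dist_eq_norm] at hv
      obtain ⟨h1, h2, h3, h4⟩ := hcoord _ v hv.le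
      apply AnalyticAt.differentiableWithinAt
      apply opL_an L
      apply hF.an
      · rw [abs_le]; constructor <;> linarith
      · rw [abs_le]; constructor <;> linarith)
    (fun v hv => by
      rw [mem_sphere, dist_eq_norm] at hv
      obtain ⟨h1, h2, h3, h4⟩ := hcoord _ v hv.le
      refine (hleft v (by linarith) (by linarith) (by rw [abs_le]; constructor <;> linarith)).trans ?_
      apply Real.exp_le_exp.2
      apply mul_le_mul_of_nonneg_right _ hℓ0.le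
      linarith)
    (fun v hv => by
      rw [mem_sphere, dist_eq_norm] at hv
      obtain ⟨h1, h2, h3, h4⟩ := hcoord _ v hv.le
      apply hcrude F η W B ℓ (by linarith) hF v
      · rw [abs_le]; constructor <;> linarith
      · rw [abs_le]; constructor <;> linarith)
    hzc K
  -- the geometric sum
  have hq1 : 1 ≤ (ρ + r) / (ρ - r) := by
    rw [le_div_iff₀ (by linarith)]; linarith
  have hsum : ∑ n ∈ Finset.range K, ((ρ + r) / (ρ - r)) ^ n ≤ K * ((ρ + r) / (ρ - r)) ^ K := by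
    have h1 : ∀ n ∈ Finset.range K, ((ρ + r) / (ρ - r)) ^ n ≤ ((ρ + r) / (ρ - r)) ^ K := fun n hn =>
      pow_le_pow_right₀ hq1 (Finset.mem_range.1 hn).le
    refine (Finset.sum_le_sum h1).trans ?_
    rw [Finset.sum_const, Finset.card_range, nsmul_eq_mul]
  have hqe : (ρ + r) / (ρ - r) ≤ Real.exp (4 * r / ρ) := by
    have h1 := Real.add_one_le_exp (4 * r / ρ)
    refine le_trans ?_ h1
    rw [div_le_iff₀ (by linarith)]
    have h2 : (4 * r / ρ + 1) * (ρ - r) = 4 * r - 4 * r ^ 2 / ρ + ρ - r := by field_simp; ring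
    rw [h2]
    have h3 : 4 * r ^ 2 / ρ ≤ r := by
      rw [div_le_iff₀ hρ0]
      nlinarith
    linarith
  have hqK : ((ρ + r) / (ρ - r)) ^ K ≤ Real.exp (ε / 4 * ℓ) := by
    calc ((ρ + r) / (ρ - r)) ^ K ≤ (Real.exp (4 * r / ρ)) ^ K :=
          pow_le_pow_left₀ (by linarith) hqe K
      _ = Real.exp (K * (4 * r / ρ)) := by rw [← Real.exp_nat_mul]
      _ ≤ _ := by
          apply Real.exp_le_exp.2
          have h1 : (K : ℝ) * (4 * r / ρ) ≤ 5 * (B + 2) * ℓ * (4 * r / ρ) :=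
            mul_le_mul_of_nonneg_right hK2 (by positivity)
          have h2 : 5 * (B + 2) * ℓ * (4 * r / ρ) = (r * (80 * (B + 2))) / ρ * ℓ / 4 := by
            field_simp; norm_num
          rw [h2, hrB] at h1
          have h3 : ε * ρ / ρ = ε := by field_simp
          rw [h3] at h1
          linarith
  have hlast : Real.exp ((B + 1) * ℓ) * ((ρ + r) / (2 * ρ)) ^ K / (1 - (ρ + r) / (2 * ρ)) ≤ 4 := by
    have h1 : (ρ + r) / (2 * ρ) ≤ 3 / 4 := by
      rw [div_le_iff₀ (by positivity)]; linarith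
    have h0 : 0 ≤ (ρ + r) / (2 * ρ) := by positivity
    have h2 : ((ρ + r) / (2 * ρ)) ^ K ≤ Real.exp (-((B + 2) * ℓ)) := by
      calc ((ρ + r) / (2 * ρ)) ^ K ≤ (3 / 4) ^ K := pow_le_pow_left₀ h0 h1 K
        _ ≤ (Real.exp (-(1 / 4))) ^ K := by
            apply pow_le_pow_left₀ (by norm_num)
            have := Real.add_one_le_exp (-(1/4 : ℝ))
            linarith
        _ = Real.exp (K * (-(1 / 4))) := by rw [← Real.exp_nat_mul]
        _ ≤ _ := by
            apply Real.exp_le_exp.2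
            linarith
    rw [div_le_iff₀ (by linarith)]
    calc Real.exp ((B + 1) * ℓ) * ((ρ + r) / (2 * ρ)) ^ K
        ≤ Real.exp ((B + 1) * ℓ) * Real.exp (-((B + 2) * ℓ)) :=
          mul_le_mul_of_nonneg_left h2 (Real.exp_pos _).le
      _ = Real.exp (-ℓ) := by rw [← Real.exp_add]; congr 1; ring
      _ ≤ 1 := by rw [Real.exp_le_one_iff]; linarith
      _ ≤ _ := by linarith
  have hupper : ‖G z‖ ≤ 5 * (B + 2) * ℓ * Real.exp ((ε / 8 + ε / 4) * ℓ) + 4 := by
    refine hcb.trans (add_le_add ?_ hlast)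
    have h1 : ∑ n ∈ Finset.range K, ((ρ + r) / (ρ - r)) ^ n ≤ 5 * (B + 2) * ℓ * Real.exp (ε / 4 * ℓ) := by
      refine hsum.trans ?_
      exact mul_le_mul hK2 hqK (by positivity) (by positivity)
    calc Real.exp (2 * ρ * ℓ) * ∑ n ∈ Finset.range K, ((ρ + r) / (ρ - r)) ^ n
        ≤ Real.exp (2 * ρ * ℓ) * (5 * (B + 2) * ℓ * Real.exp (ε / 4 * ℓ)) :=
          mul_le_mul_of_nonneg_left h1 (Real.exp_pos _).le
      _ = 5 * (B + 2) * ℓ * (Real.exp (2 * ρ * ℓ) * Real.exp (ε / 4 * ℓ)) := by ring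
      _ = _ := by rw [← Real.exp_add]; congr 2; rw [hρ]; ring
  have hlower : Real.exp (3 / 4 * ε * ℓ) ≤ ‖G z‖ := by
    refine le_trans ?_ hGz
    calc Real.exp (3 / 4 * ε * ℓ) ≤ Real.exp (ε * ℓ) * Real.exp (-(ε / 4 * r * ℓ)) := by
          rw [← Real.exp_add]
          apply Real.exp_le_exp.2
          have h1 : r ≤ 1 := by linarith
          have h2 : 0 < ε * ℓ := by positivity
          nlinarith
      _ ≤ _ := mul_le_mul_of_nonneg_right hMe (Real.exp_pos _).le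
  -- contradiction
  have hYℓ := hY ℓ (by linarith)
  have h20 : 20 * (B + 2) * ℓ ≥ 40 := by nlinarith
  set E : ℝ := Real.exp (ε / 8 * ℓ) with hE
  have hE0 : 40 ≤ E := by linarith
  have e1 : Real.exp ((ε / 8 + ε / 4) * ℓ) = E * E * E := by
    rw [hE, ← Real.exp_add, ← Real.exp_add]; congr 1; ring
  have e2 : Real.exp (3 / 4 * ε * ℓ) = E * E * E * (E * E * E) := by
    rw [hE, ← Real.exp_add, ← Real.exp_add, ← Real.exp_add]; congr 1; ring
  rw [e1] at hupper
  rw [e2] at hlower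
  have h5 : 5 * (B + 2) * ℓ ≤ E / 4 := by linarith
  have hE3 : 0 < E * E * E := by positivity
  have h6 : 5 * (B + 2) * ℓ * (E * E * E) ≤ E / 4 * (E * E * E) := mul_le_mul_of_nonneg_right h5 hE3.le
  have h7 : E * 1600 ≤ E * E * E := by nlinarith
  have h8 : E * E * E * (E * 1600) ≤ E * E * E * (E * E * E) := mul_le_mul_of_nonneg_left h7 hE3.le
  have h9 : 64000 ≤ E * E * E := by nlinarith
  nlinarith

end Pool.Agent.TH804.SG
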