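import Mathlib
import Pool.Agent.TH804.SG2
import Pool.Agent.H31R2.DH.Back

/-!
Few `a`-points of the differential operator to the left of the critical line imply small values.
-/

set_option autoImplicit false

open Complex Filter Topology Metric Set
open H370 H370.Loc
open Pool.Agent.TH804.SB (opL opL_nil opL_cons opL_an opL_le ball_re ball_im tw_norm tw_logDeriv exists_exp_dom
  tw_sub_le tw_sub_ge mult_tw max_rect wt_norm chain)

set_option maxHeartbeats 4000000

namespace Pool.Agent.TH804.SG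

/-- the box of the zeros -/
def Few (G : ℂ → ℂ) (a : ℂ) (δ y n : ℝ) : Prop := ∀ S : Finset ℂ,
  (∀ z ∈ S, -(3 / 2) ≤ z.re ∧ z.re ≤ -δ ∧ |z.im - y| ≤ 1 ∧ G z = a) →
    ∑ z ∈ S, (mult (fun v => G v - a) z : ℝ) ≤ n

/-- **few zeros imply small values** -/
theorem few_zeros (L : List ℂ) (a : ℂ) {ε B b : ℝ} (hε : 0 < ε) (hεb : ε ≤ b) (hb : b ≤ 1 / 4) (hB : 0 ≤ B) :
    ∃ δ κ η ℓ₀ : ℝ, 0 < δ ∧ δ ≤ ε ∧ 0 < κ ∧ κ ≤ ε ∧ 0 < η ∧ η ≤ ε ∧ ∀ (F : ℂ → ℂ) (p W ℓ y : ℝ), ℓ₀ ≤ ℓ →
      1 / 2 + 2 * b ≤ p → p ≤ 3 / 4 → LG F η W B ℓ → Lo F p b η W ℓ → |y| ≤ W - 2 →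
      Few (opL L F) a δ y (κ * ℓ) →
      ∀ x : ℝ, ε ≤ x → x ≤ 1 → ‖opL L F (-x + y * I)‖ ≤ Real.exp ((x + ε) * ℓ) := by
  obtain ⟨ℓ₁, hcrude⟩ := opL_crude L
  have hb0 : 0 < b := by linarith
  set δ : ℝ := ε / 4 with hδ
  have hδ0 : 0 < δ := by positivity
  -- the number of terms
  set D : ℝ := 8 * (B + 8) / δ * (2 / δ) with hD
  have hD0 : 0 < D := by positivity
  obtain ⟨K, hK⟩ := exists_pow_lt_of_lt_one (show 0 < ε / 8 / D by positivity)
    (show 1 - δ / 2 < 1 by linarith)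
  rw [lt_div_iff₀ hD0] at hK
  set N : ℝ := K * (4 / (b / 2)) ^ K with hN
  have hN0 : 0 ≤ N := by positivity
  set l16 : ℝ := Real.log (2 / (b / 2)) with hl16
  have hl160 : 0 ≤ l16 := Real.log_nonneg (by rw [le_div_iff₀ (by positivity)]; linarith)
  have hlogδ : 0 ≤ Real.log (1 / δ) := Real.log_nonneg (by rw [le_div_iff₀ hδ0]; linarith)
  set κ : ℝ := min (ε / (64 * (1 + l16) * (1 + N))) (1 / (1 + Real.log (1 / δ))) with hκ
  have hκ0 : 0 < κ := by positivity
  have hκ1 : κ * (64 * (1 + l16) * (1 + N)) ≤ ε := by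
    have : κ ≤ ε / (64 * (1 + l16) * (1 + N)) := min_le_left _ _
    rwa [le_div_iff₀ (by positivity)] at this
  have hκ2 : κ * Real.log (1 / δ) ≤ 1 := by
    have h1 : κ ≤ 1 / (1 + Real.log (1 / δ)) := min_le_right _ _
    rw [le_div_iff₀ (by positivity)] at h1
    linarith
  have hκ64 : κ ≤ ε / 64 := by
    have h1 : 64 * 1 ≤ 64 * (1 + l16) * (1 + N) := by
      have : 1 ≤ (1 + l16) * (1 + N) := by nlinarith
      linarith
    have : κ * (64 * 1) ≤ κ * (64 * (1 + l16) * (1 + N)) := mul_le_mul_of_nonneg_left h1 hκ0.le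
    linarith
  obtain ⟨η, hη, hηκ, ℓ₂, hℓ₂, hleft⟩ := opL_left L κ b hκ0 (by linarith) hb
  refine ⟨δ, κ, η, |ℓ₁| + ℓ₂ + 4 * (1 + ‖a‖) + 16 * (1 + ‖a‖) / κ + 4 / κ, hδ0, by linarith, hκ0, by linarith, hη,
    by linarith, fun F p W ℓ y hℓ hp1 hp2 hF hlo hy hfew x hx1 hx2 => ?_⟩
  have hx0 : 0 < x := by linarith
  have b1 := le_abs_self ℓ₁
  have b2 := abs_nonneg ℓ₁
  have ha0 := norm_nonneg a
  have b3 : 0 ≤ 16 * (1 + ‖a‖) / κ := by positivity
  have b4 : 0 ≤ 4 / κ := by positivity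
  have hℓ1 : 1 ≤ ℓ := by linarith
  have hℓ0 : 0 < ℓ := by linarith
  have hκℓ : 16 * (1 + ‖a‖) ≤ κ * ℓ := by
    have : 16 * (1 + ‖a‖) / κ ≤ ℓ := by linarith
    rw [div_le_iff₀ hκ0] at this
    linarith
  have hκℓ1 : 1 ≤ κ * ℓ := by linarith
  have hy' := abs_le.1 hy
  set G : ℂ → ℂ := opL L F with hG
  set f : ℂ → ℂ := fun v => (G v - a) * cexp (ℓ * v) with hf
  set c : ℂ := ⟨-p, y⟩ with hc
  have hcoord : ∀ (R : ℝ) (v : ℂ), v ∈ closedBall c R → -p - R ≤ v.re ∧ v.re ≤ -p + R ∧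
      y - R ≤ v.im ∧ v.im ≤ y + R := by
    intro R v hv
    have h1 := abs_le.1 (ball_re hv)
    have h2 := abs_le.1 (ball_im hv)
    have e1 : c.re = -p := rfl
    have e2 : c.im = y := rfl
    rw [e1] at h1
    rw [e2] at h2
    refine ⟨by linarith, by linarith, by linarith, by linarith⟩
  have hleft' : ∀ v ∈ closedBall c (b / 2), Real.exp ((-v.re - κ) * ℓ) ≤ ‖G v‖ ∧
      ‖G v‖ ≤ Real.exp ((-v.re + κ) * ℓ) := by
    intro v hv
    obtain ⟨h1, h2, h3, h4⟩ := hcoord _ v hv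
    exact hleft F p W B ℓ (by linarith) hp1 (by linarith) hF hlo v (by rw [abs_le]; constructor <;> linarith)
      (by rw [abs_le]; constructor <;> linarith)
  have hGan : ∀ v ∈ closedBall c p, AnalyticAt ℂ G v := by
    intro v hv
    obtain ⟨h1, h2, h3, h4⟩ := hcoord _ v hv
    apply opL_an L
    apply hF.an
    · rw [abs_le]; constructor <;> linarith
    · rw [abs_le]; constructor <;> linarith
  -- size of `a`
  have haexp : ∀ p : ℝ, 1 / 4 ≤ p → 2 * ‖a‖ ≤ Real.exp (p * ℓ) ∧ ‖a‖ < Real.exp (p * ℓ) := by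
    intro p hp
    have h1 := Real.add_one_le_exp (p * ℓ)
    have h2 : 1 / 4 * ℓ ≤ p * ℓ := mul_le_mul_of_nonneg_right hp hℓ0.le
    have h3 : 16 * (1 + ‖a‖) ≤ 1 / 4 * ℓ := by
      have : κ * ℓ ≤ 1 / 4 * ℓ := mul_le_mul_of_nonneg_right (by linarith) hℓ0.le
      linarith
    constructor <;> linarith
  have hsmall : (1 + ‖a‖) * Real.exp (κ * ℓ) ≤ Real.exp (2 * κ * ℓ) := by
    have h1 := Real.add_one_le_exp (κ * ℓ)
    have e : Real.exp (2 * κ * ℓ) = Real.exp (κ * ℓ) * Real.exp (κ * ℓ) := by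
      rw [← Real.exp_add]; congr 1; ring
    rw [e]
    exact mul_le_mul_of_nonneg_right (by linarith) (Real.exp_pos _).le
  have hmain := DH31.backlund_abs (f := f) (c := c) (ϱ := p - 3 * δ) (δ := δ) (l := b / 2)
    (n := κ * ℓ) (M := Real.exp ((B + 2) * ℓ)) (A := Real.exp (2 * κ * ℓ)) (a := Real.exp (2 * κ * ℓ))
    (by positivity) (by linarith) (by linarith) (by linarith) hδ0
    (Real.one_le_exp (by positivity)) (Real.one_le_exp (by positivity)) (Real.one_le_exp (by positivity))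
    (by positivity)
    (fun v hv => ((hGan v (by
      convert hv using 2; ring)).sub analyticAt_const).mul (by fun_prop))
    (fun v hv => by
      have hv' : v ∈ closedBall c p := by
        convert hv using 2; ring
      obtain ⟨h1, h2, h3, h4⟩ := hcoord _ v hv'
      have h5 := hcrude F η W B ℓ (by linarith) hF v (by rw [abs_le]; constructor <;> linarith)
        (by rw [abs_le]; constructor <;> linarith)
      have h6 := tw_norm (fun v => G v - a) ℓ v
      rw [hf]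
      simp only
      rw [h6]
      have h7 : Real.exp (ℓ * v.re) ≤ 1 := by
        rw [Real.exp_le_one_iff]
        exact mul_nonpos_of_nonneg_of_nonpos hℓ0.le (by linarith)
      have h8 : ‖G v - a‖ ≤ Real.exp ((B + 1) * ℓ) + ‖a‖ := (norm_sub_le _ _).trans (by linarith)
      have h9 : Real.exp ((B + 1) * ℓ) + ‖a‖ ≤ Real.exp ((B + 2) * ℓ) := by
        have e : Real.exp ((B + 2) * ℓ) = Real.exp ((B + 1) * ℓ) * Real.exp ℓ := by
          rw [← Real.exp_add]; congr 1; ring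
        rw [e]
        have h10 : 1 ≤ Real.exp ((B + 1) * ℓ) := Real.one_le_exp (by positivity)
        have h11 := Real.add_one_le_exp ℓ
        have h12 : 1 + ‖a‖ ≤ Real.exp ℓ := by linarith
        nlinarith
      calc ‖G v - a‖ * Real.exp (ℓ * v.re) ≤ ‖G v - a‖ * 1 :=
            mul_le_mul_of_nonneg_left h7 (norm_nonneg _)
        _ ≤ _ := by rw [mul_one]; linarith)
    (fun v hv => by
      have hv' : v ∈ closedBall c (b / 2) := closedBall_subset_closedBall (by linarith) hv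
      obtain ⟨h1, h2, h3, h4⟩ := hcoord _ v hv
      obtain ⟨h5, h6⟩ := hleft' v hv'
      exact (tw_sub_le hκ0.le hℓ0.le (by linarith) h6).trans hsmall)
    (by
      obtain ⟨h5, h6⟩ := hleft' c (mem_closedBall_self (by positivity))
      have h7 := tw_sub_ge (a := a) h5 (haexp _ (by show (1:ℝ) / 4 ≤ - -p - κ; linarith)).1
      refine le_trans ?_ h7
      rw [one_div, ← Real.exp_neg, le_div_iff₀ (by norm_num)]
      have h8 := Real.add_one_le_exp (κ * ℓ)
      have e : Real.exp (-(κ * ℓ)) = Real.exp (-(2 * κ * ℓ)) * Real.exp (κ * ℓ) := by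
        rw [← Real.exp_add]; congr 1; ring
      rw [e]
      exact mul_le_mul_of_nonneg_left (by linarith) (Real.exp_pos _).le)
    (fun z hz h0 => by
      obtain ⟨h1, h2, h3, h4⟩ := hcoord _ z hz
      have h5 : G z = a := by
        rw [hf] at h0
        simp only [mul_eq_zero, Complex.exp_ne_zero, or_false] at h0
        exact sub_eq_zero.1 h0
      by_contra hcon
      push Not at hcon
      have hz' : z ∈ closedBall c (b / 2) := by
        rw [mem_closedBall, dist_eq_norm]; exact hcon.le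
      obtain ⟨h6, h7, h8, h9⟩ := hcoord (b / 2) z hz'
      obtain ⟨h10, h11⟩ := hleft' z hz'
      have h12 : ‖G z‖ = ‖a‖ := by rw [h5]
      have h13 := (haexp (-z.re - κ) (by linarith)).2
      have h14 : Real.exp ((-z.re - κ) * ℓ) ≤ ‖G z‖ := h10
      linarith)
    (fun S hS => by
      have h1 := hfew S (fun z hz => by
        obtain ⟨h2, h3⟩ := hS z hz
        obtain ⟨h4, h5, h6, h7⟩ := hcoord _ z h2
        have h8 : G z = a := by
          rw [hf] at h3
          simp only [mul_eq_zero, Complex.exp_ne_zero, or_false] at h3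
          exact sub_eq_zero.1 h3
        exact ⟨by linarith, by linarith, by rw [abs_le]; constructor <;> linarith, h8⟩)
      refine le_trans (le_of_eq (Finset.sum_congr rfl fun z hz => ?_)) h1
      rw [hf, mult_tw]
      refine (hGan z ?_).sub analyticAt_const
      exact closedBall_subset_closedBall (by linarith) (hS z hz).1)
    K (z := -x + y * I) (by
      rw [mem_closedBall, dist_eq_norm]
      have e1 : (-x + y * I : ℂ) - c = ((p - x : ℝ) : ℂ) := by
        apply Complex.ext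
        · simp [hc]; ring
        · simp [hc]
      rw [e1, Complex.norm_real, Real.norm_eq_abs, abs_le]
      constructor <;> linarith)
  -- simplification
  rw [← hl16, Real.log_exp, Real.log_exp, ← Real.exp_add, ← hN] at hmain
  have hfz := tw_norm (fun v => G v - a) ℓ (-x + y * I)
  rw [hf] at hmain
  simp only at hmain
  rw [hfz] at hmain
  have hre : (-x + y * I : ℂ).re = -x := by simp
  rw [hre] at hmain
  have hexp : 2 * κ * ℓ + (κ * ℓ * l16 + 2 * (2 * κ * ℓ + κ * ℓ * l16 + 2 * κ * ℓ + 1) * N +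
      4 * ((B + 2) * ℓ + κ * ℓ * Real.log (1 / δ) + 2 * κ * ℓ + 1) / δ * (1 - δ / 2) ^ K * (2 / δ)) ≤
      ε / 2 * ℓ := by
    set t : ℝ := κ * ℓ * ((1 + l16) * (1 + N)) with ht
    have t0 : 64 * t ≤ ε * ℓ := by
      have := mul_le_mul_of_nonneg_right hκ1 hℓ0.le
      calc 64 * t = κ * (64 * (1 + l16) * (1 + N)) * ℓ := by rw [ht]; ring
        _ ≤ ε * ℓ := this
    have hkl : 0 ≤ κ * ℓ := by positivity
    have t1 : 0 ≤ κ * ℓ * l16 := by positivity
    have t1' : 0 ≤ κ * ℓ * N := by positivity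
    have t1'' : 0 ≤ κ * ℓ * l16 * N := by positivity
    have ht' : t = κ * ℓ + κ * ℓ * l16 + κ * ℓ * N + κ * ℓ * l16 * N := by rw [ht]; ring
    have t2 : 2 * (2 * κ * ℓ + κ * ℓ * l16 + 2 * κ * ℓ + 1) * N ≤ 10 * (κ * ℓ * N) + 2 * (κ * ℓ * l16 * N) := by
      have : (1 : ℝ) * N ≤ κ * ℓ * N := mul_le_mul_of_nonneg_right hκℓ1 hN0
      linarith
    have t3 : κ * ℓ * Real.log (1 / δ) ≤ ℓ := by nlinarith
    have t4 : 4 * ((B + 2) * ℓ + κ * ℓ * Real.log (1 / δ) + 2 * κ * ℓ + 1) / δ * (1 - δ / 2) ^ K * (2 / δ)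
        ≤ ε / 8 * ℓ := by
      have hq : 0 ≤ (1 - δ / 2) ^ K := pow_nonneg (by linarith) K
      calc 4 * ((B + 2) * ℓ + κ * ℓ * Real.log (1 / δ) + 2 * κ * ℓ + 1) / δ * (1 - δ / 2) ^ K * (2 / δ)
          ≤ 4 * (2 * (B + 8) * ℓ) / δ * (1 - δ / 2) ^ K * (2 / δ) := by
            apply mul_le_mul_of_nonneg_right _ (by positivity)
            apply mul_le_mul_of_nonneg_right _ hq
            apply div_le_div_of_nonneg_right _ hδ0.le
            have : 2 * κ * ℓ ≤ ℓ := by nlinarith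
            nlinarith
        _ = ((1 - δ / 2) ^ K * D) * ℓ := by rw [hD]; ring
        _ ≤ ε / 8 * ℓ := mul_le_mul_of_nonneg_right hK.le hℓ0.le
    linarith
  have h1 : ‖G (-x + y * I) - a‖ * Real.exp (ℓ * -x) ≤ Real.exp (ε / 2 * ℓ) :=
    hmain.trans (Real.exp_le_exp.2 hexp)
  have h2 : ‖G (-x + y * I) - a‖ ≤ Real.exp ((x + ε / 2) * ℓ) := by
    calc ‖G (-x + y * I) - a‖ = ‖G (-x + y * I) - a‖ * Real.exp (ℓ * -x) * Real.exp (ℓ * x) := by
          rw [mul_assoc, ← Real.exp_add]; simp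
      _ ≤ Real.exp (ε / 2 * ℓ) * Real.exp (ℓ * x) := mul_le_mul_of_nonneg_right h1 (Real.exp_pos _).le
      _ = _ := by rw [← Real.exp_add]; congr 1; ring
  calc ‖G (-x + y * I)‖ ≤ ‖G (-x + y * I) - a‖ + ‖a‖ := by
        have := norm_add_le (G (-x + y * I) - a) a
        rwa [sub_add_cancel] at this
    _ ≤ (1 + ‖a‖) * Real.exp ((x + ε / 2) * ℓ) := by
        have h3 : 1 ≤ Real.exp ((x + ε / 2) * ℓ) := Real.one_le_exp (by positivity)
        nlinarith
    _ ≤ Real.exp (ε / 2 * ℓ) * Real.exp ((x + ε / 2) * ℓ) := by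
        apply mul_le_mul_of_nonneg_right _ (Real.exp_pos _).le
        have h4 := Real.add_one_le_exp (ε / 2 * ℓ)
        have h5 : κ * ℓ ≤ ε / 2 * ℓ := mul_le_mul_of_nonneg_right (by linarith) hℓ0.le
        linarith
    _ = _ := by rw [← Real.exp_add]; congr 1; ring

end Pool.Agent.TH804.SG
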