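import Mathlib
import Pool.Agent.TH804.SG4

/-!
Polynomials in the derivative, and the local theorems for them.
-/

set_option autoImplicit false

open Complex Filter Topology Metric Set Polynomial
open H370 H370.Loc
open Pool.Agent.TH804.SB (opL opL_an PF PF_eq PF_an mult_smul mult_congr)

set_option maxHeartbeats 4000000

namespace Pool.Agent.TH804.SG

/-- the relation between the counts -/
lemma few_iff {P : ℂ[X]} {c : ℂ} {L : List ℂ} (hc : c ≠ 0) {F : ℂ → ℂ} {y : ℝ}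
    (han : ∀ z : ℂ, |z.re| ≤ 2 → |z.im - y| ≤ 1 → AnalyticAt ℂ F z)
    (h : ∀ z : ℂ, AnalyticAt ℂ F z → PF P F z = c * opL L F z) {a : ℂ} {δ n : ℝ} (hδ : 0 < δ) :
    Few (PF P F) a δ y n ↔ Few (opL L F) (a / c) δ y n := by
  have key : ∀ z : ℂ, -(3 / 2) ≤ z.re → z.re ≤ -δ → |z.im - y| ≤ 1 →
      (PF P F z = a ↔ opL L F z = a / c) ∧
      mult (fun v => PF P F v - a) z = mult (fun v => opL L F v - a / c) z := by
    intro z h1 h2 h3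
    have hz := han z (by rw [abs_le]; constructor <;> linarith) h3
    constructor
    · rw [h z hz, eq_div_iff hc, mul_comm]
    · have h4 : (fun v => PF P F v - a) =ᶠ[𝓝 z] fun v => c * (opL L F v - a / c) := by
        filter_upwards [hz.eventually_analyticAt] with v hv
        rw [h v hv, mul_sub, mul_div_cancel₀ _ hc]
      rw [mult_congr h4]
      exact mult_smul (f := fun v => opL L F v - a / c) hc ((opL_an L hz).sub analyticAt_const)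
  constructor
  · intro hf S hS
    refine le_trans (le_of_eq (Finset.sum_congr rfl fun z hz => ?_)) (hf S fun z hz => ?_)
    · obtain ⟨h1, h2, h3, h4⟩ := hS z hz
      rw [(key z h1 h2 h3).2]
    · obtain ⟨h1, h2, h3, h4⟩ := hS z hz
      exact ⟨h1, h2, h3, (key z h1 h2 h3).1.2 h4⟩
  · intro hf S hS
    refine le_trans (le_of_eq (Finset.sum_congr rfl fun z hz => ?_)) (hf S fun z hz => ?_)
    · obtain ⟨h1, h2, h3, h4⟩ := hS z hz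
      rw [(key z h1 h2 h3).2]
    · obtain ⟨h1, h2, h3, h4⟩ := hS z hz
      exact ⟨h1, h2, h3, (key z h1 h2 h3).1.1 h4⟩

/-- **local theorem, first part** -/
theorem P1 {P : ℂ[X]} (hP : P ≠ 0) (a : ℂ) {ε δ B b : ℝ} (hε : 0 < ε) (hδ : 0 < δ) (hδ1 : δ ≤ 1 / 4) (hB : 0 ≤ B)
    (hb0 : 0 < b) (hb : b ≤ 1 / 4) :
    ∃ η W ℓ₀ : ℝ, 0 < η ∧ 0 < W ∧ ∀ (F : ℂ → ℂ) (p ℓ : ℝ), ℓ₀ ≤ ℓ → 7 / 8 ≤ p → p ≤ 1 → 1 / 2 + 2 * b ≤ p →
      LG F η W B ℓ → Lo F p b η W ℓ →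
      (∀ y : ℝ, |y| ≤ W → ‖F (y * I)‖ ≤ Real.exp (η * ℓ)) → Few (PF P F) a δ 0 (ε * ℓ) := by
  obtain ⟨c, L, hc, h⟩ := PF_eq _ P hP rfl
  obtain ⟨η, W, ℓ₀, hη, hW, hT⟩ := T1 L (a / c) hε hδ hδ1 hB hb0 hb
  refine ⟨η, W + 1, |ℓ₀|, hη, by linarith, fun F p ℓ hℓ hp1 hp2 hp3 hF hlo hcrit => ?_⟩
  have b1 := le_abs_self ℓ₀
  have b2 := abs_nonneg ℓ₀
  rw [few_iff hc (fun z h1 h2 => hF.an z (by linarith) (by rw [sub_zero] at h2; linarith)) (h F) hδ]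
  exact hT F p ℓ (by linarith) hp1 hp2 hp3 (hF.mono le_rfl (by linarith) (by linarith))
    (hlo.mono le_rfl (by linarith) (by linarith)) (fun y hy => hcrit y (by linarith))

/-- **local theorem, second part** -/
theorem P2 {P : ℂ[X]} (hP : P ≠ 0) (a : ℂ) {ε B b : ℝ} (hε : 0 < ε) (hB : 0 ≤ B) (hb0 : 0 < b) (hb : b ≤ 1 / 4) :
    ∃ δ κ η W ℓ₀ : ℝ, 0 < δ ∧ δ ≤ 1 / 4 ∧ 0 < κ ∧ 0 < η ∧ 0 < W ∧ ∀ (F : ℂ → ℂ) (p ℓ : ℝ), ℓ₀ ≤ ℓ →
      1 / 2 + 2 * b ≤ p → p ≤ 3 / 4 → LG F η W B ℓ → Lo F p b η W ℓ →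
      (∀ y : ℝ, |y| ≤ W → Few (PF P F) a δ y (κ * ℓ)) → ‖F 0‖ ≤ Real.exp (ε * ℓ) := by
  obtain ⟨c, L, hc, h⟩ := PF_eq _ P hP rfl
  obtain ⟨δ, κ, η, W, ℓ₀, hδ, hδ1, hκ, hη, hW, hT⟩ := T2 L (a / c) hε hB hb0 hb
  refine ⟨δ, κ, η, W + 1, |ℓ₀|, hδ, hδ1, hκ, hη, by linarith, fun F p ℓ hℓ hp1 hp2 hF hlo hall => ?_⟩
  have b1 := le_abs_self ℓ₀
  have b2 := abs_nonneg ℓ₀
  refine hT F p ℓ (by linarith) hp1 hp2 (hF.mono le_rfl (by linarith) (by linarith))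
    (hlo.mono le_rfl (by linarith) (by linarith)) (fun y hy => ?_)
  rw [← few_iff hc (fun z h1 h2 => hF.an z h1 (by
    have h3 := abs_le.1 h2
    have h4 := abs_le.1 hy
    rw [abs_le]; constructor <;> linarith)) (h F) hδ]
  exact hall y (by linarith)

end Pool.Agent.TH804.SG
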