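import Mathlib
import Pool.Agent.H855R2.SF.Data

/-!
Two-sided bounds for the quotient of the gamma factors, `0 ≤ x ≤ 2`.
-/

set_option autoImplicit false

open Complex Filter Topology Set
open H855R2.SF (norm_add_sq gamma_quot)

set_option maxHeartbeats 4000000

namespace Pool.Agent.TH804.SG

/-- upper bound, `0 ≤ x ≤ 2` -/
lemma gq_up {z : ℂ} {x : ℝ} (hx0 : 0 ≤ x) (hx1 : x ≤ 2) (hz : 1 ≤ z.re) :
    ‖Complex.Gamma (z + x)‖ ≤ 8 * ‖z‖ ^ x * ‖Complex.Gamma z‖ := by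
  have hz1 : 1 ≤ ‖z‖ := hz.trans (re_le_norm z)
  have h1 := gamma_quot (z := z) (y := x / 2) (by linarith) (by linarith) hz
  have h2 := gamma_quot (z := z + ((x / 2 : ℝ) : ℂ)) (y := x / 2) (by linarith) (by linarith) (by simp; linarith)
  have e : z + ((x / 2 : ℝ) : ℂ) + ((x / 2 : ℝ) : ℂ) = z + x := by push_cast; ring
  rw [e] at h2
  have h3 : ‖z + ((x / 2 : ℝ) : ℂ)‖ ≤ 2 * ‖z‖ := by
    refine (norm_add_le _ _).trans ?_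
    rw [Complex.norm_real, Real.norm_eq_abs, abs_of_nonneg (by linarith)]
    linarith
  have h4 : ‖z + ((x / 2 : ℝ) : ℂ)‖ ^ (x / 2) ≤ 2 * ‖z‖ ^ (x / 2) := by
    calc ‖z + ((x / 2 : ℝ) : ℂ)‖ ^ (x / 2) ≤ (2 * ‖z‖) ^ (x / 2) :=
          Real.rpow_le_rpow (norm_nonneg _) h3 (by linarith)
      _ = 2 ^ (x / 2) * ‖z‖ ^ (x / 2) := Real.mul_rpow (by norm_num) (by linarith)
      _ ≤ 2 ^ (1:ℝ) * ‖z‖ ^ (x / 2) := by
          apply mul_le_mul_of_nonneg_right _ (by positivity)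
          exact Real.rpow_le_rpow_of_exponent_le (by norm_num) (by linarith)
      _ = _ := by norm_num
  calc ‖Complex.Gamma (z + x)‖ ≤ 2 * ‖z + ((x / 2 : ℝ) : ℂ)‖ ^ (x / 2) * ‖Complex.Gamma (z + ((x / 2 : ℝ) : ℂ))‖ := h2
    _ ≤ 2 * (2 * ‖z‖ ^ (x / 2)) * (2 * ‖z‖ ^ (x / 2) * ‖Complex.Gamma z‖) := by
        apply mul_le_mul _ h1 (norm_nonneg _) (by positivity)
        exact mul_le_mul_of_nonneg_left h4 (by norm_num)
    _ = 8 * (‖z‖ ^ (x / 2) * ‖z‖ ^ (x / 2)) * ‖Complex.Gamma z‖ := by ring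
    _ = _ := by rw [← Real.rpow_add (by linarith)]; congr 3; ring

/-- lower bound, `0 ≤ y ≤ 1` -/
lemma gq_lo1 {z : ℂ} {y : ℝ} (hy0 : 0 ≤ y) (hy1 : y ≤ 1) (hz : 1 ≤ z.re) :
    ‖z‖ ^ y * ‖Complex.Gamma z‖ ≤ 4 * ‖Complex.Gamma (z + y)‖ := by
  have hz1 : 1 ≤ ‖z‖ := hz.trans (re_le_norm z)
  have hz0 : z ≠ 0 := norm_pos_iff.1 (by linarith)
  have h1 := gamma_quot (z := z + y) (y := 1 - y) (by linarith) (by linarith) (by simp; linarith)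
  have e : z + (y : ℂ) + ((1 - y : ℝ) : ℂ) = z + 1 := by push_cast; ring
  rw [e, Complex.Gamma_add_one z hz0, norm_mul] at h1
  have h2 : ‖z + y‖ ^ (1 - y) ≤ 2 * ‖z‖ ^ (1 - y) := by
    have h3 : ‖z + (y : ℂ)‖ ≤ 2 * ‖z‖ := by
      refine (norm_add_le _ _).trans ?_
      rw [Complex.norm_real, Real.norm_eq_abs, abs_of_nonneg hy0]
      linarith
    calc ‖z + (y : ℂ)‖ ^ (1 - y) ≤ (2 * ‖z‖) ^ (1 - y) := Real.rpow_le_rpow (norm_nonneg _) h3 (by linarith)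
      _ = 2 ^ (1 - y) * ‖z‖ ^ (1 - y) := Real.mul_rpow (by norm_num) (by linarith)
      _ ≤ 2 ^ (1:ℝ) * ‖z‖ ^ (1 - y) := by
          apply mul_le_mul_of_nonneg_right _ (by positivity)
          exact Real.rpow_le_rpow_of_exponent_le (by norm_num) (by linarith)
      _ = _ := by norm_num
  have h4 : ‖z‖ ^ y * ‖z‖ ^ (1 - y) = ‖z‖ := by
    rw [← Real.rpow_add (by linarith)]; simp
  have hp : 0 < ‖z‖ ^ (1 - y) := by positivity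
  have h5 : ‖z‖ ^ (1 - y) * (‖z‖ ^ y * ‖Complex.Gamma z‖) ≤ ‖z‖ ^ (1 - y) * (4 * ‖Complex.Gamma (z + y)‖) := by
    calc ‖z‖ ^ (1 - y) * (‖z‖ ^ y * ‖Complex.Gamma z‖) = (‖z‖ ^ y * ‖z‖ ^ (1 - y)) * ‖Complex.Gamma z‖ := by ring
      _ = ‖z‖ * ‖Complex.Gamma z‖ := by rw [h4]
      _ ≤ 2 * ‖z + y‖ ^ (1 - y) * ‖Complex.Gamma (z + y)‖ := h1
      _ ≤ 2 * (2 * ‖z‖ ^ (1 - y)) * ‖Complex.Gamma (z + y)‖ := by
          apply mul_le_mul_of_nonneg_right _ (norm_nonneg _)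
          exact mul_le_mul_of_nonneg_left h2 (by norm_num)
      _ = _ := by ring
  exact le_of_mul_le_mul_left h5 hp

/-- lower bound, `0 ≤ x ≤ 2` -/
lemma gq_lo {z : ℂ} {x : ℝ} (hx0 : 0 ≤ x) (hx1 : x ≤ 2) (hz : 1 ≤ z.re) :
    ‖z‖ ^ x * ‖Complex.Gamma z‖ ≤ 16 * ‖Complex.Gamma (z + x)‖ := by
  have hz1 : 1 ≤ ‖z‖ := hz.trans (re_le_norm z)
  have h1 := gq_lo1 (z := z) (y := x / 2) (by linarith) (by linarith) hz
  have h2 := gq_lo1 (z := z + ((x / 2 : ℝ) : ℂ)) (y := x / 2) (by linarith) (by linarith) (by simp; linarith)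
  have e : z + ((x / 2 : ℝ) : ℂ) + ((x / 2 : ℝ) : ℂ) = z + x := by push_cast; ring
  rw [e] at h2
  have h3 : ‖z‖ ≤ ‖z + ((x / 2 : ℝ) : ℂ)‖ := by
    apply le_of_sq_le_sq _ (norm_nonneg _)
    rw [norm_add_sq]
    nlinarith
  have h4 : ‖z‖ ^ (x / 2) ≤ ‖z + ((x / 2 : ℝ) : ℂ)‖ ^ (x / 2) :=
    Real.rpow_le_rpow (norm_nonneg _) h3 (by linarith)
  calc ‖z‖ ^ x * ‖Complex.Gamma z‖ = ‖z‖ ^ (x / 2) * (‖z‖ ^ (x / 2) * ‖Complex.Gamma z‖) := by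
        rw [← mul_assoc, ← Real.rpow_add (by linarith)]; congr 2; ring
    _ ≤ ‖z‖ ^ (x / 2) * (4 * ‖Complex.Gamma (z + ((x / 2 : ℝ) : ℂ))‖) :=
        mul_le_mul_of_nonneg_left h1 (by positivity)
    _ ≤ ‖z + ((x / 2 : ℝ) : ℂ)‖ ^ (x / 2) * (4 * ‖Complex.Gamma (z + ((x / 2 : ℝ) : ℂ))‖) :=
        mul_le_mul_of_nonneg_right h4 (by positivity)
    _ = 4 * (‖z + ((x / 2 : ℝ) : ℂ)‖ ^ (x / 2) * ‖Complex.Gamma (z + ((x / 2 : ℝ) : ℂ))‖) := by ring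
    _ ≤ 4 * (4 * ‖Complex.Gamma (z + x)‖) := mul_le_mul_of_nonneg_left h2 (by norm_num)
    _ = _ := by ring

/-- one step: `Γ(u+x)/Γ(u)` and `Γ(u+1+x)/Γ(u+1)` -/
lemma gstep {u : ℂ} {x : ℝ} (hux : 0 < (u + x).re) :
    ‖Complex.Gamma (u + x)‖ * ‖(Complex.Gamma u)⁻¹‖ ≤
      ‖Complex.Gamma (u + 1 + x)‖ * ‖(Complex.Gamma (u + 1))⁻¹‖ * (‖u‖ / ‖u + x‖) ∧
    ‖Complex.Gamma (u + 1 + x)‖ * ‖(Complex.Gamma (u + 1))⁻¹‖ * (‖u‖ / ‖u + x‖) ≤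
      ‖Complex.Gamma (u + x)‖ * ‖(Complex.Gamma u)⁻¹‖ := by
  have hux0 : u + x ≠ 0 := by
    intro h
    rw [h] at hux
    simp at hux
  have hn : 0 < ‖u + x‖ := norm_pos_iff.2 hux0
  have e2 : Complex.Gamma (u + 1 + x) = (u + x) * Complex.Gamma (u + x) := by
    rw [← Complex.Gamma_add_one _ hux0]
    congr 1
    ring
  rcases eq_or_ne u 0 with h0 | h0
  · rw [h0, Complex.Gamma_zero]
    simp
  · have e1 : Complex.Gamma (u + 1) = u * Complex.Gamma u := Complex.Gamma_add_one u h0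
    have hu : 0 < ‖u‖ := norm_pos_iff.2 h0
    have key : ‖Complex.Gamma (u + 1 + x)‖ * ‖(Complex.Gamma (u + 1))⁻¹‖ * (‖u‖ / ‖u + x‖) =
        ‖Complex.Gamma (u + x)‖ * ‖(Complex.Gamma u)⁻¹‖ := by
      rw [e1, e2, norm_mul, mul_inv, norm_mul, norm_inv u]
      field_simp
    exact ⟨key.ge, key.le⟩

/-- the quotient of the Γ-functions, upper bound -/
lemma gr_up {u : ℂ} {x : ℝ} (hx0 : 0 ≤ x) (hx1 : x ≤ 2) (hu : -x / 2 < u.re) :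
    ‖Complex.Gamma (u + x)‖ * ‖(Complex.Gamma u)⁻¹‖ ≤ 8 * ‖u + 2‖ ^ x := by
  have h1 := (gstep (u := u) (x := x) (by simp; linarith)).1
  have h2 := (gstep (u := u + 1) (x := x) (by simp; linarith)).1
  have e : u + 1 + 1 = u + 2 := by ring
  rw [e] at h2
  have hq : ∀ v : ℂ, -x / 2 ≤ v.re → 0 < (v + x).re → ‖v‖ / ‖v + x‖ ≤ 1 := by
    intro v hv hvx
    have hn : 0 < ‖v + x‖ := lt_of_lt_of_le hvx (re_le_norm _)
    rw [div_le_one hn]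
    apply le_of_sq_le_sq _ (norm_nonneg _)
    rw [norm_add_sq]
    nlinarith
  have h3 := hq u hu.le (by simp; linarith)
  have h4 := hq (u + 1) (by simp; linarith) (by simp; linarith)
  have h5 := gq_up (z := u + 2) hx0 hx1 (by simp; linarith)
  have hG : 0 < ‖Complex.Gamma (u + 2)‖ := norm_pos_iff.2 (Complex.Gamma_ne_zero_of_re_pos (by simp; linarith))
  have h6 : ‖Complex.Gamma (u + 2 + x)‖ * ‖(Complex.Gamma (u + 2))⁻¹‖ ≤ 8 * ‖u + 2‖ ^ x := by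
    rw [norm_inv, ← div_eq_mul_inv, div_le_iff₀ hG]
    exact h5
  have hn1 : 0 ≤ ‖Complex.Gamma (u + 2 + x)‖ * ‖(Complex.Gamma (u + 2))⁻¹‖ := by positivity
  have hn2 : 0 ≤ ‖Complex.Gamma (u + 1 + x)‖ * ‖(Complex.Gamma (u + 1))⁻¹‖ := by positivity
  calc ‖Complex.Gamma (u + x)‖ * ‖(Complex.Gamma u)⁻¹‖
      ≤ ‖Complex.Gamma (u + 1 + x)‖ * ‖(Complex.Gamma (u + 1))⁻¹‖ * (‖u‖ / ‖u + x‖) := h1
    _ ≤ ‖Complex.Gamma (u + 1 + x)‖ * ‖(Complex.Gamma (u + 1))⁻¹‖ := mul_le_of_le_one_right hn2 h3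
    _ ≤ ‖Complex.Gamma (u + 2 + x)‖ * ‖(Complex.Gamma (u + 2))⁻¹‖ * (‖u + 1‖ / ‖u + 1 + x‖) := h2
    _ ≤ ‖Complex.Gamma (u + 2 + x)‖ * ‖(Complex.Gamma (u + 2))⁻¹‖ := mul_le_of_le_one_right hn1 h4
    _ ≤ _ := h6

/-- the quotient of the Γ-functions, lower bound -/
lemma gr_lo {u : ℂ} {x d : ℝ} (hx0 : 0 ≤ x) (hx1 : x ≤ 2) (hu : -x / 2 < u.re) (hd : 0 < d) (hd1 : d ≤ ‖u‖)
    (hd2 : d ≤ ‖u + 1‖) :
    (d / (d + 2)) ^ 2 / 16 * ‖u + 2‖ ^ x ≤ ‖Complex.Gamma (u + x)‖ * ‖(Complex.Gamma u)⁻¹‖ := by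
  have h1 := (gstep (u := u) (x := x) (by simp; linarith)).2
  have h2 := (gstep (u := u + 1) (x := x) (by simp; linarith)).2
  have e : u + 1 + 1 = u + 2 := by ring
  rw [e] at h2
  have hq : ∀ v : ℂ, d ≤ ‖v‖ → 0 < (v + x).re → d / (d + 2) ≤ ‖v‖ / ‖v + x‖ := by
    intro v hv hvx
    have hn : 0 < ‖v + x‖ := lt_of_lt_of_le hvx (re_le_norm _)
    have h3 : ‖v + x‖ ≤ ‖v‖ + 2 := by
      refine (norm_add_le _ _).trans ?_
      rw [Complex.norm_real, Real.norm_eq_abs, abs_of_nonneg hx0]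
      linarith
    rw [div_le_div_iff₀ (by positivity) hn]
    nlinarith
  have h3 := hq u hd1 (by simp; linarith)
  have h4 := hq (u + 1) hd2 (by simp; linarith)
  have h5 := gq_lo (z := u + 2) hx0 hx1 (by simp; linarith)
  have hG : 0 < ‖Complex.Gamma (u + 2)‖ := norm_pos_iff.2 (Complex.Gamma_ne_zero_of_re_pos (by simp; linarith))
  have h6 : ‖u + 2‖ ^ x / 16 ≤ ‖Complex.Gamma (u + 2 + x)‖ * ‖(Complex.Gamma (u + 2))⁻¹‖ := by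
    rw [norm_inv, ← div_eq_mul_inv, div_le_div_iff₀ (by norm_num) hG]
    linarith
  have hd0 : 0 ≤ d / (d + 2) := by positivity
  calc (d / (d + 2)) ^ 2 / 16 * ‖u + 2‖ ^ x = ‖u + 2‖ ^ x / 16 * (d / (d + 2)) * (d / (d + 2)) := by ring
    _ ≤ ‖Complex.Gamma (u + 2 + x)‖ * ‖(Complex.Gamma (u + 2))⁻¹‖ * (‖u + 1‖ / ‖u + 1 + x‖) *
          (‖u‖ / ‖u + x‖) := by
        apply mul_le_mul _ h3 hd0 (by positivity)
        exact mul_le_mul h6 h4 hd0 (by positivity)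
    _ ≤ ‖Complex.Gamma (u + 1 + x)‖ * ‖(Complex.Gamma (u + 1))⁻¹‖ * (‖u‖ / ‖u + x‖) :=
        mul_le_mul_of_nonneg_right h2 (by positivity)
    _ ≤ _ := h1

lemma gR_eq (w : ℂ) (x : ℝ) : ‖Gammaℝ (w + 2 * x)‖ * ‖(Gammaℝ w)⁻¹‖ =
    Real.pi ^ (-x) * (‖Complex.Gamma (w / 2 + x)‖ * ‖(Complex.Gamma (w / 2))⁻¹‖) := by
  have hpi := Real.pi_pos
  rw [Gammaℝ_def, Gammaℝ_def, norm_mul, norm_inv, norm_mul, norm_inv,
    Complex.norm_cpow_eq_rpow_re_of_pos hpi, Complex.norm_cpow_eq_rpow_re_of_pos hpi]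
  have e1 : (w + 2 * (x:ℂ)) / 2 = w / 2 + x := by ring
  have e2 : (-(w + 2 * (x:ℂ)) / 2).re = -x + (-w / 2).re := by
    simp; ring
  rw [e1, e2, Real.rpow_add hpi, mul_inv]
  have hne : Real.pi ^ (-w / 2).re ≠ 0 := (Real.rpow_pos_of_pos hpi _).ne'
  field_simp

lemma gR_up {w : ℂ} {x : ℝ} (hx0 : 0 ≤ x) (hx1 : x ≤ 2) (hw : -x < w.re) :
    ‖Gammaℝ (w + 2 * x)‖ * ‖(Gammaℝ w)⁻¹‖ ≤ 72 * (1 + ‖w + x - 1 / 2‖) ^ x := by
  have hpi := Real.pi_pos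
  have hre : (w / 2).re = w.re / 2 := by simp
  rw [gR_eq]
  have h1 := gr_up (u := w / 2) hx0 hx1 (by rw [hre]; linarith)
  have hpx : Real.pi ^ (-x) ≤ 1 :=
    Real.rpow_le_one_of_one_le_of_nonpos (by linarith [Real.pi_gt_three]) (by linarith)
  have h2 : ‖w / 2 + 2‖ ≤ 3 * (1 + ‖w + x - 1 / 2‖) := by
    have e : w / 2 + 2 = (w + x - 1 / 2) / 2 + ((9 / 4 - x / 2 : ℝ) : ℂ) := by push_cast; ring
    rw [e]
    refine (norm_add_le _ _).trans ?_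
    rw [norm_div, Complex.norm_real, Real.norm_eq_abs, abs_of_nonneg (by linarith)]
    have := norm_nonneg (w + x - 1 / 2)
    have e2 : ‖(2:ℂ)‖ = 2 := by simp
    rw [e2]
    linarith
  have h3 : ‖w / 2 + 2‖ ^ x ≤ 9 * (1 + ‖w + x - 1 / 2‖) ^ x := by
    calc ‖w / 2 + 2‖ ^ x ≤ (3 * (1 + ‖w + x - 1 / 2‖)) ^ x := Real.rpow_le_rpow (norm_nonneg _) h2 hx0
      _ = 3 ^ x * (1 + ‖w + x - 1 / 2‖) ^ x := Real.mul_rpow (by norm_num) (by positivity)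
      _ ≤ 3 ^ (2:ℝ) * (1 + ‖w + x - 1 / 2‖) ^ x := by
          apply mul_le_mul_of_nonneg_right _ (by positivity)
          exact Real.rpow_le_rpow_of_exponent_le (by norm_num) hx1
      _ = _ := by norm_num
  calc Real.pi ^ (-x) * (‖Complex.Gamma (w / 2 + x)‖ * ‖(Complex.Gamma (w / 2))⁻¹‖)
      ≤ 1 * (8 * ‖w / 2 + 2‖ ^ x) := mul_le_mul hpx h1 (by positivity) (by norm_num)
    _ ≤ 1 * (8 * (9 * (1 + ‖w + x - 1 / 2‖) ^ x)) := by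
        apply mul_le_mul_of_nonneg_left _ (by norm_num)
        exact mul_le_mul_of_nonneg_left h3 (by norm_num)
    _ = _ := by ring

lemma gR_lo {w : ℂ} {x d : ℝ} (hx0 : 0 ≤ x) (hx1 : x ≤ 2) (hw : -x < w.re) (hd : 0 < d) (hd1 : d ≤ ‖w / 2‖)
    (hd2 : d ≤ ‖w / 2 + 1‖) :
    (d / (d + 2)) ^ 2 / 16384 * (1 + ‖w + x - 1 / 2‖) ^ x ≤ ‖Gammaℝ (w + 2 * x)‖ * ‖(Gammaℝ w)⁻¹‖ := by
  have hpi := Real.pi_pos
  have hre : (w / 2).re = w.re / 2 := by simp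
  rw [gR_eq]
  have h1 := gr_lo (u := w / 2) hx0 hx1 (by rw [hre]; linarith) hd hd1 hd2
  have hpx : 1 / 16 ≤ Real.pi ^ (-x) := by
    calc (1:ℝ) / 16 = 4 ^ (-2 : ℝ) := by
          rw [Real.rpow_neg (by norm_num), Real.rpow_two]; norm_num
      _ ≤ 4 ^ (-x) := Real.rpow_le_rpow_of_exponent_le (by norm_num) (by linarith)
      _ ≤ Real.pi ^ (-x) := by
          rw [Real.rpow_neg (by norm_num), Real.rpow_neg hpi.le]
          apply inv_anti₀ (by positivity)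
          exact Real.rpow_le_rpow hpi.le Real.pi_le_four hx0
  have hz1 : 1 ≤ ‖w / 2 + 2‖ := by
    have := re_le_norm (w / 2 + 2)
    have e : (w / 2 + 2).re = w.re / 2 + 2 := by simp
    rw [e] at this
    linarith
  have h2 : 1 + ‖w + x - 1 / 2‖ ≤ 8 * ‖w / 2 + 2‖ := by
    have e : w + x - 1 / 2 = 2 * (w / 2 + 2) - ((9 / 2 - x : ℝ) : ℂ) := by push_cast; ring
    have h3 : ‖w + x - 1 / 2‖ ≤ 2 * ‖w / 2 + 2‖ + (9 / 2 - x) := by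
      rw [e]
      refine (norm_sub_le _ _).trans ?_
      rw [norm_mul, Complex.norm_real, Real.norm_eq_abs, abs_of_nonneg (by linarith)]
      have e2 : ‖(2:ℂ)‖ = 2 := by simp
      rw [e2]
    linarith
  have h3 : (1 + ‖w + x - 1 / 2‖) ^ x ≤ 64 * ‖w / 2 + 2‖ ^ x := by
    calc (1 + ‖w + x - 1 / 2‖) ^ x ≤ (8 * ‖w / 2 + 2‖) ^ x := Real.rpow_le_rpow (by positivity) h2 hx0
      _ = 8 ^ x * ‖w / 2 + 2‖ ^ x := Real.mul_rpow (by norm_num) (by positivity)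
      _ ≤ 8 ^ (2:ℝ) * ‖w / 2 + 2‖ ^ x := by
          apply mul_le_mul_of_nonneg_right _ (by positivity)
          exact Real.rpow_le_rpow_of_exponent_le (by norm_num) hx1
      _ = _ := by norm_num
  calc (d / (d + 2)) ^ 2 / 16384 * (1 + ‖w + x - 1 / 2‖) ^ x
      ≤ (d / (d + 2)) ^ 2 / 16384 * (64 * ‖w / 2 + 2‖ ^ x) := mul_le_mul_of_nonneg_left h3 (by positivity)
    _ = 1 / 16 * ((d / (d + 2)) ^ 2 / 16 * ‖w / 2 + 2‖ ^ x) := by ring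
    _ ≤ _ := mul_le_mul hpx h1 (by positivity) (by positivity)

/-- the exact reflection formula -/
theorem refl_eq {m : ℕ} {N : ℕ} (hN : 0 < N) (mu : Fin m → ℂ) (hmu : ∀ j, (mu j).re < 1 / 2)
    {root : ℂ} (hroot : ‖root‖ = 1) {f : ℂ → ℂ}
    (hfe : ∀ s : ℂ, f s * ∏ j, (Gammaℝ (1 - s - (starRingEnd ℂ) (mu j)))⁻¹ =
      root * (N : ℂ) ^ (1 / 2 - s) * (starRingEnd ℂ) (f (1 - (starRingEnd ℂ) s)) *
        ∏ j, (Gammaℝ (s - mu j))⁻¹)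
    {x t : ℝ} (hx0 : 0 ≤ x) :
    ‖f ⟨1 / 2 - x, t⟩‖ = (N:ℝ) ^ x * ‖f ⟨1 / 2 + x, t⟩‖ *
      ∏ j, (‖Gammaℝ ((⟨1 / 2 - x, t⟩ : ℂ) - mu j + 2 * x)‖ * ‖(Gammaℝ ((⟨1 / 2 - x, t⟩ : ℂ) - mu j))⁻¹‖) := by
  set s : ℂ := ⟨1 / 2 - x, t⟩ with hs
  have h := hfe s
  have e1 : 1 - (starRingEnd ℂ) s = ⟨1 / 2 + x, t⟩ := by
    rw [hs]; apply Complex.ext
    · simp; ring
    · simp
  rw [e1] at h
  have hne : ∀ j, Gammaℝ (1 - s - (starRingEnd ℂ) (mu j)) ≠ 0 := by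
    intro j
    apply Gammaℝ_ne_zero_of_re_pos
    rw [hs]
    simp
    linarith [hmu j]
  have hpne : ∏ j, ‖Gammaℝ (1 - s - (starRingEnd ℂ) (mu j))‖ ≠ 0 :=
    Finset.prod_ne_zero_iff.2 fun j _ => norm_ne_zero_iff.2 (hne j)
  have hn := congrArg norm h
  rw [norm_mul, norm_mul, norm_mul, norm_mul, hroot, one_mul, norm_conj, norm_prod, norm_prod] at hn
  have e2 : ∏ j, ‖(Gammaℝ (1 - s - (starRingEnd ℂ) (mu j)))⁻¹‖ =
      (∏ j, ‖Gammaℝ (1 - s - (starRingEnd ℂ) (mu j))‖)⁻¹ := by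
    rw [← Finset.prod_inv_distrib]
    apply Finset.prod_congr rfl
    intro j _
    rw [norm_inv]
  have e3 : ‖(N:ℂ) ^ (1 / 2 - s)‖ = (N:ℝ) ^ x := by
    rw [Complex.norm_natCast_cpow_of_pos hN]
    congr 1
    rw [hs]; simp
  rw [e2, e3, ← div_eq_mul_inv, div_eq_iff hpne] at hn
  have e4 : ∀ j, ‖Gammaℝ (1 - s - (starRingEnd ℂ) (mu j))‖ = ‖Gammaℝ (s - mu j + 2 * x)‖ := by
    intro j
    have e5 : 1 - s - (starRingEnd ℂ) (mu j) = (starRingEnd ℂ) (s - mu j + 2 * x) := by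
      apply Complex.ext
      · simp [hs]; ring
      · simp [hs]
    rw [e5, Gammaℝ_def, Gammaℝ_def, norm_mul, norm_mul,
      Complex.norm_cpow_eq_rpow_re_of_pos Real.pi_pos, Complex.norm_cpow_eq_rpow_re_of_pos Real.pi_pos]
    have e3 : (-(starRingEnd ℂ) (s - mu j + 2 * x) / 2).re = (-(s - mu j + 2 * x) / 2).re := by
      simp
    have e4 : (starRingEnd ℂ) (s - mu j + 2 * x) / 2 = (starRingEnd ℂ) ((s - mu j + 2 * x) / 2) := by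
      rw [map_div₀, map_ofNat]
    rw [e3, e4, Complex.Gamma_conj, Complex.norm_conj]
  rw [hn, Finset.prod_mul_distrib, Finset.prod_congr rfl fun j _ => e4 j]
  ring

end Pool.Agent.TH804.SG
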