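import Mathlib
import Pool.Agent.TH804.SG5
import Pool.Agent.TH804.SG6
import Pool.Agent.H983R4.GL.F2

/-!
The analytic data of a family of standard L-functions of `GL(m)` give uniform local growth data.
-/

set_option autoImplicit false

open Complex Filter Topology Metric Set Polynomial
open H855R2.SF (cond_one_le cond_shift AFam refl_of_fe)

set_option maxHeartbeats 4000000

namespace Pool.Agent.TH804.SG

/-- pigeonhole principle: a point far away from `m` given points -/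
lemma sep {m : ℕ} (r : Fin m → ℝ) {α β : ℝ} (h : α < β) : ∃ p : ℝ, α ≤ p ∧ p ≤ β ∧
    ∀ j, (β - α) / (m + 1) / 2 ≤ |p - r j| := by
  set u : ℝ := (β - α) / (m + 1) with hu
  have hm : (0:ℝ) < m + 1 := by positivity
  have hu0 : 0 < u := div_pos (by linarith) hm
  have hum : u * (m + 1) = β - α := by rw [hu]; field_simp
  by_contra hcon
  push Not at hcon
  have key : ∀ k : Fin (m + 1), ∃ j, |α + (k + 1 / 2) * u - r j| < u / 2 := by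
    intro k
    have hk : (k : ℝ) + 1 ≤ m + 1 := by
      have : (k : ℕ) + 1 ≤ m + 1 := k.2
      exact_mod_cast this
    have hk0 : (0:ℝ) ≤ k := Nat.cast_nonneg _
    exact hcon _ (by nlinarith) (by nlinarith)
  choose g hg using key
  obtain ⟨k, k', hne, hk⟩ := Fintype.exists_ne_map_eq_of_card_lt g (by simp)
  have h1 := abs_lt.1 (hg k)
  have h2 := abs_lt.1 (hg k')
  rw [← hk] at h2
  have h3 : |((k : ℝ) - k') * u| < u := by
    rw [abs_lt]; constructor <;> nlinarith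
  rw [abs_mul, abs_of_pos hu0] at h3
  have h4 : 1 ≤ |((k : ℝ) - k')| := by
    have h5 : ((k : ℕ) : ℤ) - ((k' : ℕ) : ℤ) ≠ 0 := by
      intro h
      apply hne
      apply Fin.ext
      omega
    have h6 := Int.one_le_abs h5
    have h7 : ((1 : ℤ) : ℝ) ≤ ((|((k : ℕ) : ℤ) - ((k' : ℕ) : ℤ)| : ℤ) : ℝ) := by exact_mod_cast h6
    push_cast at h7
    exact h7
  nlinarith

/-- the analytic conductor at height `t` -/
noncomputable def Qc {m : ℕ} (N : ℕ) (mu : Fin m → ℂ) (t : ℝ) : ℝ := N * ∏ j, (1 + ‖mu j - t * I‖)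

/-- reflection, upper bound, `0 ≤ x ≤ 2` -/
theorem refl_up {m : ℕ} {N : ℕ} (hN : 0 < N) (mu : Fin m → ℂ) (hmu : ∀ j, (mu j).re < 1 / 2)
    {root : ℂ} (hroot : ‖root‖ = 1) {f : ℂ → ℂ}
    (hfe : ∀ s : ℂ, f s * ∏ j, (Gammaℝ (1 - s - (starRingEnd ℂ) (mu j)))⁻¹ =
      root * (N : ℂ) ^ (1 / 2 - s) * (starRingEnd ℂ) (f (1 - (starRingEnd ℂ) s)) *
        ∏ j, (Gammaℝ (s - mu j))⁻¹)
    {x t : ℝ} (hx0 : 0 ≤ x) (hx2 : x ≤ 2) :
    ‖f ⟨1 / 2 - x, t⟩‖ ≤ 72 ^ m * Qc N mu t ^ x * ‖f ⟨1 / 2 + x, t⟩‖ := by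
  rw [refl_eq hN mu hmu hroot hfe hx0]
  have h1 : ∏ j, (‖Gammaℝ ((⟨1 / 2 - x, t⟩ : ℂ) - mu j + 2 * x)‖ *
      ‖(Gammaℝ ((⟨1 / 2 - x, t⟩ : ℂ) - mu j))⁻¹‖) ≤ 72 ^ m * (∏ j, (1 + ‖mu j - t * I‖)) ^ x := by
    rw [← Real.finsetProd_rpow _ _ (fun j _ => by positivity)]
    have h16 : (72:ℝ) ^ m = ∏ _j : Fin m, (72:ℝ) := by simp
    rw [h16, ← Finset.prod_mul_distrib]
    apply Finset.prod_le_prod (fun j _ => by positivity)
    intro j _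
    have h2 := gR_up (w := (⟨1 / 2 - x, t⟩ : ℂ) - mu j) hx0 hx2 (by
      rw [Complex.sub_re]
      have := hmu j
      show -x < 1 / 2 - x - (mu j).re
      linarith)
    have e : (⟨1 / 2 - x, t⟩ : ℂ) - mu j + x - 1 / 2 = -(mu j - t * I) := by
      apply Complex.ext
      · simp; ring
      · simp
    rw [e, norm_neg] at h2
    exact h2
  have hP : 0 ≤ ∏ j, (1 + ‖mu j - t * I‖) := Finset.prod_nonneg fun j _ => by positivity
  unfold Qc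
  rw [Real.mul_rpow (Nat.cast_nonneg _) hP]
  calc (N:ℝ) ^ x * ‖f ⟨1 / 2 + x, t⟩‖ * ∏ j, (‖Gammaℝ ((⟨1 / 2 - x, t⟩ : ℂ) - mu j + 2 * x)‖ *
        ‖(Gammaℝ ((⟨1 / 2 - x, t⟩ : ℂ) - mu j))⁻¹‖)
      ≤ (N:ℝ) ^ x * ‖f ⟨1 / 2 + x, t⟩‖ * (72 ^ m * (∏ j, (1 + ‖mu j - t * I‖)) ^ x) :=
        mul_le_mul_of_nonneg_left h1 (by positivity)
    _ = _ := by ring

/-- reflection, lower bound, `0 ≤ x ≤ 3/2` -/
theorem refl_lo {m : ℕ} {N : ℕ} (hN : 0 < N) (mu : Fin m → ℂ) (hmu : ∀ j, (mu j).re < 1 / 2)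
    {root : ℂ} (hroot : ‖root‖ = 1) {f : ℂ → ℂ}
    (hfe : ∀ s : ℂ, f s * ∏ j, (Gammaℝ (1 - s - (starRingEnd ℂ) (mu j)))⁻¹ =
      root * (N : ℂ) ^ (1 / 2 - s) * (starRingEnd ℂ) (f (1 - (starRingEnd ℂ) s)) *
        ∏ j, (Gammaℝ (s - mu j))⁻¹)
    {x t d : ℝ} (hx0 : 0 ≤ x) (hx2 : x ≤ 3 / 2) (hd : 0 < d) (hd4 : d ≤ 1 / 4)
    (hsep : ∀ j, 2 * d ≤ |x - (1 / 2 - (mu j).re)|) :
    ((d / (d + 2)) ^ 2 / 16384) ^ m * Qc N mu t ^ x * ‖f ⟨1 / 2 + x, t⟩‖ ≤ ‖f ⟨1 / 2 - x, t⟩‖ := by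
  rw [refl_eq hN mu hmu hroot hfe hx0]
  set κ : ℝ := (d / (d + 2)) ^ 2 / 16384 with hκ
  have hκ0 : 0 < κ := by positivity
  have h1 : κ ^ m * (∏ j, (1 + ‖mu j - t * I‖)) ^ x ≤ ∏ j, (‖Gammaℝ ((⟨1 / 2 - x, t⟩ : ℂ) - mu j + 2 * x)‖ *
      ‖(Gammaℝ ((⟨1 / 2 - x, t⟩ : ℂ) - mu j))⁻¹‖) := by
    rw [← Real.finsetProd_rpow _ _ (fun j _ => by positivity)]
    have h16 : κ ^ m = ∏ _j : Fin m, κ := by simp
    rw [h16, ← Finset.prod_mul_distrib]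
    apply Finset.prod_le_prod (fun j _ => by positivity)
    intro j _
    set w : ℂ := (⟨1 / 2 - x, t⟩ : ℂ) - mu j with hw
    have hwre : w.re = 1 / 2 - x - (mu j).re := by rw [hw, Complex.sub_re]
    have hmj := hmu j
    have h2 := gR_lo (w := w) (d := d) hx0 (by linarith) (by rw [hwre]; linarith) hd (by
      have h3 := abs_re_le_norm (w / 2)
      have e : (w / 2).re = w.re / 2 := by simp
      rw [e, abs_div, hwre] at h3
      have h4 := hsep j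
      rw [abs_sub_comm] at h4
      have e2 : 1 / 2 - (mu j).re - x = 1 / 2 - x - (mu j).re := by ring
      rw [e2] at h4
      rw [abs_of_pos (by norm_num : (0:ℝ) < 2)] at h3
      linarith) (by
      have h3 := re_le_norm (w / 2 + 1)
      have e : (w / 2 + 1).re = w.re / 2 + 1 := by simp
      rw [e, hwre] at h3
      linarith)
    have e : w + x - 1 / 2 = -(mu j - t * I) := by
      apply Complex.ext
      · simp [hw]; ring
      · simp [hw]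
    rw [e, norm_neg] at h2
    exact h2
  have hP : 0 ≤ ∏ j, (1 + ‖mu j - t * I‖) := Finset.prod_nonneg fun j _ => by positivity
  unfold Qc
  rw [Real.mul_rpow (Nat.cast_nonneg _) hP]
  calc κ ^ m * ((N:ℝ) ^ x * (∏ j, (1 + ‖mu j - t * I‖)) ^ x) * ‖f ⟨1 / 2 + x, t⟩‖
      = (N:ℝ) ^ x * ‖f ⟨1 / 2 + x, t⟩‖ * (κ ^ m * (∏ j, (1 + ‖mu j - t * I‖)) ^ x) := by ring
    _ ≤ _ := mul_le_mul_of_nonneg_left h1 (by positivity)

/-- the data of a family of standard L-functions of `GL(m)` -/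
structure GLd {ι : Type} (m : ℕ) (N : ι → ℕ) (mu : ι → Fin m → ℂ) (f : ι → ℂ → ℂ) : Prop where
  m_pos : 0 < m
  N_pos : ∀ i, 0 < N i
  mu_re : ∀ i j, (mu i j).re < 1 / 2
  norm : ∀ i, ∑ j, (mu i j).im = 0
  entire : ∀ i, Differentiable ℂ (f i)
  order : ∀ i, ∃ A : ℝ, ∀ s : ℂ, -1 / 4 ≤ s.re → s.re ≤ 5 / 4 → ‖f i s‖ ≤ Real.exp (A * (1 + |s.im|) ^ A)
  fe : ∀ i, ∃ root : ℂ, ‖root‖ = 1 ∧ ∀ s : ℂ,
    f i s * ∏ j, (Gammaℝ (1 - s - (starRingEnd ℂ) (mu i j)))⁻¹ =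
      root * (N i : ℂ) ^ (1 / 2 - s) * (starRingEnd ℂ) (f i (1 - (starRingEnd ℂ) s)) *
        ∏ j, (Gammaℝ (s - mu i j))⁻¹
  right : ∀ ε : ℝ, 0 < ε → ∃ B : ℝ, ∀ i (s : ℂ), 1 + ε ≤ s.re → ‖f i s‖ ≤ B * (N i * ∏ j, (1 + ‖mu i j‖)) ^ ε
  inv : ∀ ε : ℝ, 0 < ε → ∃ B : ℝ, ∀ i (s : ℂ), 1 + ε ≤ s.re →
    1 ≤ B * (N i * ∏ j, (1 + ‖mu i j‖)) ^ ε * ‖f i s‖

/-- `C = N ∏ (1 + |mu j|)` -/
noncomputable def Cc {m : ℕ} (N : ℕ) (mu : Fin m → ℂ) : ℝ := N * ∏ j, (1 + ‖mu j‖)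

lemma Cc_eq {m : ℕ} (N : ℕ) (mu : Fin m → ℂ) : Cc N mu = Qc N mu 0 := by
  unfold Cc Qc; simp

lemma Qc_one {m : ℕ} {N : ℕ} (hN : 0 < N) (mu : Fin m → ℂ) (t : ℝ) : 1 ≤ Qc N mu t := cond_one_le hN mu t

lemma Cc_one {m : ℕ} {N : ℕ} (hN : 0 < N) (mu : Fin m → ℂ) : 1 ≤ Cc N mu := by
  rw [Cc_eq]; exact Qc_one hN mu 0

lemma Qc_shift {m : ℕ} (N : ℕ) (mu : Fin m → ℂ) (t u : ℝ) :
    Qc N mu (t + u) ≤ (1 + |u|) ^ (m : ℝ) * Qc N mu t := cond_shift N mu t u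

lemma X_shift {m : ℕ} {N : ℕ} (hN : 0 < N) (mu : Fin m → ℂ) (t u : ℝ) :
    (1 + |t + u|) * Cc N mu ≤ (1 + |u|) * ((1 + |t|) * Cc N mu) := by
  have h1 := Cc_one hN mu
  have h2 : 1 + |t + u| ≤ (1 + |u|) * (1 + |t|) := by
    have := abs_add_le t u
    nlinarith [abs_nonneg t, abs_nonneg u, mul_nonneg (abs_nonneg t) (abs_nonneg u)]
  calc (1 + |t + u|) * Cc N mu ≤ ((1 + |u|) * (1 + |t|)) * Cc N mu :=
        mul_le_mul_of_nonneg_right h2 (by linarith)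
    _ = _ := by ring

/-- `Q ≤ X^(m+1)` -/
lemma Q_le_X {m : ℕ} {N : ℕ} (hN : 0 < N) (mu : Fin m → ℂ) (t : ℝ) :
    Qc N mu t ≤ ((1 + |t|) * Cc N mu) ^ (m + 1 : ℝ) := by
  have h1 := Cc_one hN mu
  have ht : 1 ≤ 1 + |t| := by linarith [abs_nonneg t]
  have h2 := Qc_shift N mu 0 t
  rw [zero_add, ← Cc_eq] at h2
  refine h2.trans ?_
  rw [Real.mul_rpow (by positivity) (by linarith)]
  refine mul_le_mul ?_ ?_ (by linarith) (by positivity)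
  · exact Real.rpow_le_rpow_of_exponent_le ht (by linarith)
  · conv_lhs => rw [← Real.rpow_one (Cc N mu)]
    exact Real.rpow_le_rpow_of_exponent_le h1 (by
      have : (0 : ℝ) ≤ m := Nat.cast_nonneg _
      linarith)

/-- `X ≤ Q^(m+2)` for normalised data -/
lemma X_le_Q {m : ℕ} (hm : 0 < m) {N : ℕ} (hN : 0 < N) (mu : Fin m → ℂ) (hmu : ∑ j, (mu j).im = 0) (t : ℝ) :
    (1 + |t|) * Cc N mu ≤ Qc N mu t ^ (m + 2 : ℝ) := by
  have hQ1 := Qc_one hN mu t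
  have hQp : 0 < Qc N mu t := by linarith
  -- `1 + |t| ≤ Q`
  have h1 : 1 + |t| ≤ Qc N mu t := by
    have hne : (Finset.univ : Finset (Fin m)).Nonempty := ⟨⟨0, hm⟩, Finset.mem_univ _⟩
    obtain ⟨j, hj⟩ : ∃ j : Fin m, |t| ≤ ‖mu j - t * I‖ := by
      by_contra hcon
      push Not at hcon
      have h2 : ∑ j : Fin m, ‖mu j - t * I‖ < ∑ _j : Fin m, |t| :=
        Finset.sum_lt_sum_of_nonempty hne fun j _ => hcon j
      have h3 : |∑ j : Fin m, (mu j - t * I).im| ≤ ∑ j : Fin m, ‖mu j - t * I‖ :=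
        (Finset.abs_sum_le_sum_abs _ _).trans (Finset.sum_le_sum fun j _ => abs_im_le_norm _)
      have h4 : ∑ j : Fin m, (mu j - t * I).im = -(m * t) := by
        have e : ∀ j : Fin m, (mu j - t * I).im = (mu j).im - t := fun j => by simp
        rw [Finset.sum_congr rfl fun j _ => e j, Finset.sum_sub_distrib, hmu]
        simp
      have h5 : ∑ _j : Fin m, |t| = m * |t| := by simp
      rw [h4, abs_neg, abs_mul, abs_of_nonneg (Nat.cast_nonneg m : (0:ℝ) ≤ m)] at h3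
      linarith
    have h6 : 1 + ‖mu j - t * I‖ ≤ ∏ k, (1 + ‖mu k - t * I‖) := by
      rw [← Finset.mul_prod_erase Finset.univ (fun k => 1 + ‖mu k - t * I‖) (Finset.mem_univ j)]
      have h7 : (1:ℝ) ≤ ∏ k ∈ Finset.univ.erase j, (1 + ‖mu k - t * I‖) := by
        have : ∏ _k ∈ Finset.univ.erase j, (1:ℝ) ≤ ∏ k ∈ Finset.univ.erase j, (1 + ‖mu k - t * I‖) :=
          Finset.prod_le_prod (fun _ _ => by norm_num) fun k _ => by linarith [norm_nonneg (mu k - t * I)]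
        simpa using this
      exact le_mul_of_one_le_right (by positivity) h7
    have h8 : (1:ℝ) ≤ N := by exact_mod_cast hN
    unfold Qc
    have h9 : 0 ≤ ∏ k, (1 + ‖mu k - t * I‖) := Finset.prod_nonneg fun j _ => by positivity
    nlinarith
  have h2 : Cc N mu ≤ (1 + |t|) ^ (m : ℝ) * Qc N mu t := by
    have h3 := Qc_shift N mu t (-t)
    rw [add_neg_cancel, abs_neg, ← Cc_eq] at h3
    exact h3
  have h3 : (1 + |t|) ^ (m : ℝ) ≤ Qc N mu t ^ (m : ℝ) := Real.rpow_le_rpow (by positivity) h1 (Nat.cast_nonneg _)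
  calc (1 + |t|) * Cc N mu ≤ Qc N mu t * (Qc N mu t ^ (m : ℝ) * Qc N mu t) := by
        apply mul_le_mul h1 _ (by linarith [Cc_one hN mu]) hQp.le
        exact h2.trans (mul_le_mul_of_nonneg_right h3 hQp.le)
    _ = Qc N mu t ^ (m + 2 : ℝ) := by
        rw [Real.rpow_add hQp, Real.rpow_two]; ring

end Pool.Agent.TH804.SG
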