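import Mathlib
import Pool.Agent.TH804.SG5
import Pool.Agent.W587.PL.G

/-!
The theorem for families with uniform local growth.
-/

set_option autoImplicit false

open Complex Filter Topology Metric Set Polynomial
open H370 H370.Loc
open Pool.Agent.TH804.SB (PF PF_an PF_add PF_monomial)

set_option maxHeartbeats 4000000

namespace Pool.Agent.TH804.SG

variable {ι : Type}

/-- `L (1/2 + i T + z)` -/
noncomputable def sh (L : ι → ℂ → ℂ) (i : ι) (T : ℝ) (z : ℂ) : ℂ := L i (1 / 2 + T * I + z)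

/-- uniform local growth of a family -/
structure Grow (L : ι → ℂ → ℂ) (X : ι → ℝ → ℝ) : Prop where
  X1 : ∀ i T, 1 ≤ X i T
  Xs : ∃ M : ℝ, 0 ≤ M ∧ ∀ i T u, X i (T + u) ≤ (1 + |u|) ^ M * X i T
  cr : ∃ C B : ℝ, 0 ≤ C ∧ 0 ≤ B ∧ ∀ i (T : ℝ), ‖L i (1 / 2 + T * I)‖ ≤ C * X i T ^ B
  lg : ∃ A B b : ℝ, 1 ≤ A ∧ 0 ≤ B ∧ 0 < b ∧ b ≤ 1 / 32 ∧ ∀ η W : ℝ, 0 < η → 0 < W → ∃ X₁ : ℝ,
    ∀ i T, X₁ ≤ X i T → ∃ ℓ p₁ p₂ : ℝ, ℓ ≤ A * Real.log (X i T) ∧ Real.log (X i T) ≤ A * ℓ ∧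
      7 / 8 ≤ p₁ ∧ p₁ ≤ 1 ∧ 5 / 8 ≤ p₂ ∧ p₂ ≤ 3 / 4 ∧ LG (sh L i T) η W B ℓ ∧
      Lo (sh L i T) p₁ b η W ℓ ∧ Lo (sh L i T) p₂ b η W ℓ

lemma PF_shift (P : ℂ[X]) (F : ℂ → ℂ) (s z : ℂ) : PF P (fun z => F (s + z)) z = PF P F (s + z) := by
  induction P using Polynomial.induction_on' with
  | add p q hp hq => rw [PF_add, PF_add, hp, hq]
  | monomial i a =>
    rw [PF_monomial, PF_monomial]
    congr 1
    have := iteratedDeriv_comp_const_add i F s
    exact congrFun this z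

lemma PF_sh (P : ℂ[X]) (L : ι → ℂ → ℂ) (i : ι) (T : ℝ) (z : ℂ) :
    PF P (sh L i T) z = PF P (L i) (1 / 2 + T * I + z) := PF_shift P (L i) (1 / 2 + T * I) z

lemma mult_shift (f : ℂ → ℂ) (s z : ℂ) :
    mult (fun v => f (s + v)) z = mult f (s + z) := by
  have h2 : AnalyticAt ℂ (fun v : ℂ => s + v) z := by fun_prop
  have h3 : deriv (fun v : ℂ => s + v) z ≠ 0 := by
    have : HasDerivAt (fun v : ℂ => s + v) 1 z := (hasDerivAt_id z).const_add s
    rw [this.deriv]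
    exact one_ne_zero
  have h4 := analyticOrderAt_comp_of_deriv_ne_zero (f := f) h2 h3
  unfold mult analyticOrderNatAt
  rw [← h4]
  rfl

/-- few `a`-points of `P(D)F` in the box `-1 ≤ Re s ≤ 1/2 - δ`, `|Im s - T| ≤ 1` -/
def FewP (P : ℂ[X]) (a : ℂ) (F : ℂ → ℂ) (δ T n : ℝ) : Prop := ∀ S : Finset ℂ,
  (∀ s ∈ S, -1 ≤ s.re ∧ s.re ≤ 1 / 2 - δ ∧ |s.im - T| ≤ 1 ∧ PF P F s = a) →
    ∑ s ∈ S, (analyticOrderNatAt (fun s => PF P F s - a) s : ℝ) ≤ n

lemma FewP.mono {P : ℂ[X]} {a : ℂ} {F : ℂ → ℂ} {δ δ' T n n' : ℝ} (h : FewP P a F δ T n) (hδ : δ ≤ δ')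
    (hn : n ≤ n') : FewP P a F δ' T n' := fun S hS => (h S fun s hs => by
      obtain ⟨h1, h2, h3, h4⟩ := hS s hs
      exact ⟨h1, by linarith, h3, h4⟩).trans hn

/-- translation of the counts -/
lemma few_of_fewP {P : ℂ[X]} {a : ℂ} {L : ι → ℂ → ℂ} {i : ι} {δ T y n : ℝ}
    (h : FewP P a (L i) δ (T + y) n) : Few (PF P (sh L i T)) a δ y n := by
  classical
  intro S hS
  have hinj : Set.InjOn (fun z : ℂ => 1 / 2 + T * I + z) S := fun x _ y _ h => by
    simpa using h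
  have h1 := h (S.image fun z : ℂ => 1 / 2 + T * I + z) (fun s hs => by
    obtain ⟨z, hz, rfl⟩ := Finset.mem_image.1 hs
    obtain ⟨h1, h2, h3, h4⟩ := hS z hz
    have hre : (1 / 2 + T * I + z : ℂ).re = 1 / 2 + z.re := by simp
    have him : (1 / 2 + T * I + z : ℂ).im = T + z.im := by simp
    have h3' : |(1 / 2 + T * I + z : ℂ).im - (T + y)| ≤ 1 := by
      rw [him]
      have : T + z.im - (T + y) = z.im - y := by ring
      rw [this]; exact h3
    rw [PF_sh] at h4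
    exact ⟨by rw [hre]; linarith, by rw [hre]; linarith, h3', h4⟩)
  rw [Finset.sum_image hinj] at h1
  refine le_trans (le_of_eq (Finset.sum_congr rfl fun z hz => ?_)) h1
  have e : (fun v => PF P (sh L i T) v - a) = fun v => (fun s => PF P (L i) s - a) (1 / 2 + T * I + v) := by
    funext v
    rw [PF_sh]
  rw [e]
  exact congrArg (Nat.cast : ℕ → ℝ) (mult_shift (fun s => PF P (L i) s - a) (1 / 2 + T * I) z)

/-- translation of the counts, converse -/
lemma fewP_of_few {P : ℂ[X]} {a : ℂ} {L : ι → ℂ → ℂ} {i : ι} {δ T n : ℝ}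
    (h : Few (PF P (sh L i T)) a δ 0 n) : FewP P a (L i) δ T n := by
  classical
  intro S hS
  have hinj : Set.InjOn (fun s : ℂ => s - (1 / 2 + T * I)) S := fun x _ y _ h => by
    simpa using h
  have h1 := h (S.image fun s : ℂ => s - (1 / 2 + T * I)) (fun z hz => by
    obtain ⟨s, hs, rfl⟩ := Finset.mem_image.1 hz
    obtain ⟨h1, h2, h3, h4⟩ := hS s hs
    have hre : (s - (1 / 2 + T * I) : ℂ).re = s.re - 1 / 2 := by simp
    have him : (s - (1 / 2 + T * I) : ℂ).im = s.im - T := by simp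
    refine ⟨by rw [hre]; linarith, by rw [hre]; linarith, by rw [him, sub_zero]; exact h3, ?_⟩
    rw [PF_sh, add_sub_cancel]
    exact h4)
  rw [Finset.sum_image hinj] at h1
  refine le_trans (le_of_eq (Finset.sum_congr rfl fun s hs => ?_)) h1
  have e : (fun v => PF P (sh L i T) v - a) = fun v => (fun s => PF P (L i) s - a) (1 / 2 + T * I + v) := by
    funext v
    rw [PF_sh]
  have hs1 : 1 / 2 + T * I + (s - (1 / 2 + T * I)) = s := add_sub_cancel _ _
  have h6 := mult_shift (fun s => PF P (L i) s - a) (1 / 2 + T * I) (s - (1 / 2 + T * I))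
  rw [hs1] at h6
  rw [e]
  exact congrArg (Nat.cast : ℕ → ℝ) h6.symm

variable {L : ι → ℂ → ℂ} {X : ι → ℝ → ℝ}

/-- **few points imply small values** -/
theorem Grow.small_of_few (H : Grow L X) {P : ℂ[X]} (hP : P ≠ 0) (a : ℂ) {ε : ℝ} (hε : 0 < ε) :
    ∃ δ κ W X₀ : ℝ, 0 < δ ∧ 0 < κ ∧ ∀ i (T : ℝ), X₀ ≤ X i T →
      (∀ T' : ℝ, |T' - T| ≤ W → FewP P a (L i) δ T' (κ * Real.log (X i T))) →
        ‖L i (1 / 2 + T * I)‖ ≤ X i T ^ ε := by
  obtain ⟨A, B, b, hA, hB, hb0, hb, hlg⟩ := H.lg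
  obtain ⟨δ, κ, η, W, ℓ₀, hδ, hδ1, hκ, hη, hW, h⟩ := P2 hP a (ε := ε / A) (B := B) (b := b)
    (by positivity) hB hb0 (by linarith)
  obtain ⟨X₁, hX₁⟩ := hlg η W hη hW
  refine ⟨δ, κ / A, W, |X₁| + Real.exp (A * |ℓ₀|), hδ, by positivity, fun i T hX hfew => ?_⟩
  have c1 := le_abs_self X₁
  have c2 := abs_nonneg X₁
  have c3 := Real.exp_pos (A * |ℓ₀|)
  have hX0 : 0 < X i T := by linarith [H.X1 i T]
  obtain ⟨ℓ, p₁, p₂, hℓ1, hℓ2, hp1, hp2, hp3, hp4, hF, hlo1, hlo2⟩ := hX₁ i T (by linarith)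
  have hlog : A * |ℓ₀| ≤ Real.log (X i T) := by
    rw [Real.le_log_iff_exp_le hX0]; linarith
  have hA0 : 0 < A := by linarith
  have hℓ0 : ℓ₀ ≤ ℓ := by
    have h1 : A * |ℓ₀| ≤ A * ℓ := hlog.trans hℓ2
    exact (le_abs_self _).trans (le_of_mul_le_mul_left h1 hA0)
  have h1 := h (sh L i T) p₂ ℓ hℓ0 (by linarith) hp4 hF hlo2 (fun y hy =>
    few_of_fewP ((hfew (T + y) (by rw [add_sub_cancel_left]; exact hy)).mono le_rfl (by
      rw [div_mul_eq_mul_div, div_le_iff₀ hA0]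
      have := mul_le_mul_of_nonneg_left hℓ2 hκ.le
      linarith)))
  unfold sh at h1
  rw [add_zero] at h1
  refine h1.trans ?_
  rw [Real.rpow_def_of_pos hX0]
  apply Real.exp_le_exp.2
  rw [div_mul_eq_mul_div, div_le_iff₀ hA0]
  have := mul_le_mul_of_nonneg_left hℓ1 hε.le
  linarith

/-- **small values imply few points** -/
theorem Grow.few_of_small (H : Grow L X) {P : ℂ[X]} (hP : P ≠ 0) (a : ℂ) {ε δ : ℝ} (hε : 0 < ε) (hδ : 0 < δ) :
    ∃ κ W X₀ : ℝ, 0 < κ ∧ ∀ i (T : ℝ), X₀ ≤ X i T →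
      (∀ T' : ℝ, |T' - T| ≤ W → ‖L i (1 / 2 + T' * I)‖ ≤ X i T ^ κ) →
        FewP P a (L i) δ T (ε * Real.log (X i T)) := by
  obtain ⟨A, B, b, hA, hB, hb0, hb, hlg⟩ := H.lg
  obtain ⟨η, W, ℓ₀, hη, hW, h⟩ := P1 hP a (ε := ε / A) (δ := min δ (1 / 4)) (B := B) (b := b) (by positivity)
    (lt_min hδ (by norm_num)) (min_le_right _ _) hB hb0 (by linarith)
  obtain ⟨X₁, hX₁⟩ := hlg η W hη hW
  have hA0 : 0 < A := by linarith
  refine ⟨η / A, W, |X₁| + Real.exp (A * |ℓ₀|), by positivity, fun i T hX hsmall => ?_⟩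
  have c1 := le_abs_self X₁
  have c2 := abs_nonneg X₁
  have c3 := Real.exp_pos (A * |ℓ₀|)
  have hX0 : 0 < X i T := by linarith [H.X1 i T]
  obtain ⟨ℓ, p₁, p₂, hℓ1, hℓ2, hp1, hp2, hp3, hp4, hF, hlo1, hlo2⟩ := hX₁ i T (by linarith)
  have hlog : A * |ℓ₀| ≤ Real.log (X i T) := by
    rw [Real.le_log_iff_exp_le hX0]; linarith
  have hℓ0 : ℓ₀ ≤ ℓ := by
    have h1 : A * |ℓ₀| ≤ A * ℓ := hlog.trans hℓ2
    exact (le_abs_self _).trans (le_of_mul_le_mul_left h1 hA0)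
  have h1 := h (sh L i T) p₁ ℓ hℓ0 hp1 hp2 (by linarith) hF hlo1 (fun y hy => by
    have h2 := hsmall (T + y) (by rw [add_sub_cancel_left]; exact hy)
    rw [Real.rpow_def_of_pos hX0] at h2
    have e : sh L i T (y * I) = L i (1 / 2 + ((T + y : ℝ) : ℂ) * I) := by
      unfold sh
      congr 1
      push_cast
      ring
    rw [e]
    refine h2.trans (Real.exp_le_exp.2 ?_)
    rw [mul_div_assoc', div_le_iff₀ hA0]
    have := mul_le_mul_of_nonneg_left hℓ2 hη.le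
    linarith)
  refine (fewP_of_few h1).mono (min_le_left _ _) ?_
  rw [div_mul_eq_mul_div, div_le_iff₀ hA0]
  have := mul_le_mul_of_nonneg_left hℓ1 hε.le
  linarith

/-- the Lindelöf hypothesis for the family -/
def Lind (L : ι → ℂ → ℂ) (X : ι → ℝ → ℝ) : Prop := ∀ ε : ℝ, 0 < ε → ∃ B : ℝ, ∀ i (T : ℝ),
  ‖L i (1 / 2 + T * I)‖ ≤ B * X i T ^ ε

/-- **the criterion** -/
theorem Grow.lind_iff (H : Grow L X) {P : ℂ[X]} (hP : P ≠ 0) (a : ℂ) : Lind L X ↔
    ∀ δ : ℝ, 0 < δ → ∀ ε : ℝ, 0 < ε → ∃ X₀ : ℝ, ∀ i (T : ℝ), X₀ ≤ X i T →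
      FewP P a (L i) δ T (ε * Real.log (X i T)) := by
  obtain ⟨M, hM, hXs⟩ := H.Xs
  constructor
  · intro hLH δ hδ ε hε
    obtain ⟨κ, W, X₀, hκ, h⟩ := H.few_of_small hP a hε hδ
    obtain ⟨C, hC⟩ := hLH (κ / 2) (by positivity)
    set K : ℝ := |C| * ((1 + |W|) ^ M) ^ (κ / 2) with hK
    have hK0 : 0 ≤ K := by positivity
    refine ⟨|X₀| + (1 + K) ^ (1 / (κ / 2)), fun i T hX => ?_⟩
    have c1 := le_abs_self X₀
    have c2 := abs_nonneg X₀
    have c3 : 0 ≤ (1 + K) ^ (1 / (κ / 2)) := by positivity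
    have hX1 := H.X1 i T
    have hX0 : 0 < X i T := by linarith
    refine h i T (by linarith) (fun T' hT' => ?_)
    have h1 : X i T' ≤ (1 + |W|) ^ M * X i T := by
      have h2 := hXs i T (T' - T)
      rw [add_sub_cancel] at h2
      refine h2.trans (mul_le_mul_of_nonneg_right ?_ hX0.le)
      exact Real.rpow_le_rpow (by positivity) (by linarith [le_abs_self W]) hM
    have h3 : 1 + K ≤ X i T ^ (κ / 2) := W587.PL.large_of_rpow (by positivity) (by positivity) (by linarith)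
    have h4 : X i T ^ κ = X i T ^ (κ / 2) * X i T ^ (κ / 2) := by
      rw [← Real.rpow_add hX0]; congr 1; ring
    have hXT' := H.X1 i T'
    calc ‖L i (1 / 2 + T' * I)‖ ≤ C * X i T' ^ (κ / 2) := hC i T'
      _ ≤ |C| * X i T' ^ (κ / 2) := mul_le_mul_of_nonneg_right (le_abs_self _)
          (Real.rpow_nonneg (by linarith) _)
      _ ≤ |C| * ((1 + |W|) ^ M * X i T) ^ (κ / 2) := by
          apply mul_le_mul_of_nonneg_left _ (abs_nonneg _)
          exact Real.rpow_le_rpow (by linarith) h1 (by positivity)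
      _ = K * X i T ^ (κ / 2) := by
          rw [Real.mul_rpow (by positivity) hX0.le, hK]; ring
      _ ≤ X i T ^ (κ / 2) * X i T ^ (κ / 2) :=
          mul_le_mul_of_nonneg_right (by linarith) (Real.rpow_nonneg hX0.le _)
      _ = _ := h4.symm
  · intro hfew ε hε
    obtain ⟨δ, κ, W, X₀, hδ, hκ, h⟩ := H.small_of_few hP a hε
    obtain ⟨X₁, h1⟩ := hfew δ hδ (κ / 2) (by positivity)
    obtain ⟨C, B, hC, hB, hcr⟩ := H.cr
    set PW : ℝ := (1 + |W|) ^ M with hPW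
    have hPW1 : 1 ≤ PW := Real.one_le_rpow (by linarith [abs_nonneg W]) hM
    set X₂ : ℝ := |X₀| + PW * (1 + |X₁|) + PW with hX₂
    have hX₂0 : 0 ≤ X₂ := by positivity
    refine ⟨1 + C * X₂ ^ B, fun i T => ?_⟩
    have hX1 := H.X1 i T
    have hX0 : 0 < X i T := by linarith
    have hpow : 1 ≤ X i T ^ ε := Real.one_le_rpow hX1 hε.le
    have hCB : 0 ≤ C * X₂ ^ B := by positivity
    rcases le_total X₂ (X i T) with h2 | h2
    · have c1 := le_abs_self X₀
      have c2 := abs_nonneg X₀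
      have c3 := le_abs_self X₁
      have c4 := abs_nonneg X₁
      have c5 : 0 ≤ PW * (1 + |X₁|) := by positivity
      have h3 := h i T (by linarith) (fun T' hT' => by
        have h4 : X i T' ≤ PW * X i T := by
          have h2 := hXs i T (T' - T)
          rw [add_sub_cancel] at h2
          refine h2.trans (mul_le_mul_of_nonneg_right ?_ hX0.le)
          exact Real.rpow_le_rpow (by positivity) (by linarith [le_abs_self W]) hM
        have h5 : X i T ≤ PW * X i T' := by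
          have h2 := hXs i T' (T - T')
          rw [add_sub_cancel] at h2
          refine h2.trans (mul_le_mul_of_nonneg_right ?_ (by linarith [H.X1 i T']))
          exact Real.rpow_le_rpow (by positivity) (by rw [abs_sub_comm]; linarith [le_abs_self W]) hM
        have hX₁ : X₁ ≤ X i T' := by
          have h6 : PW * (1 + |X₁|) ≤ PW * X i T' := by linarith
          have h7 := le_of_mul_le_mul_left h6 (by linarith)
          linarith
        refine (h1 i T' hX₁).mono le_rfl ?_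
        have h6 : Real.log (X i T') ≤ 2 * Real.log (X i T) := by
          have h7 : X i T' ≤ X i T * X i T := h4.trans (mul_le_mul_of_nonneg_right (by linarith) hX0.le)
          have h8 := Real.log_le_log (by linarith [H.X1 i T']) h7
          rw [Real.log_mul hX0.ne' hX0.ne'] at h8
          linarith
        calc κ / 2 * Real.log (X i T') ≤ κ / 2 * (2 * Real.log (X i T)) :=
              mul_le_mul_of_nonneg_left h6 (by positivity)
          _ = _ := by ring)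
      refine h3.trans ?_
      exact le_mul_of_one_le_left (by linarith) (by linarith)
    · have h3 := hcr i T
      have h4 : X i T ^ B ≤ X₂ ^ B := Real.rpow_le_rpow hX0.le h2 hB
      calc ‖L i (1 / 2 + T * I)‖ ≤ C * X i T ^ B := h3
        _ ≤ C * X₂ ^ B := mul_le_mul_of_nonneg_left h4 hC
        _ ≤ (1 + C * X₂ ^ B) * 1 := by linarith
        _ ≤ _ := mul_le_mul_of_nonneg_left hpow (by linarith)

/-- change of the conductor -/
theorem Grow.change {X' : ι → ℝ → ℝ} (H : Grow L X') (h1 : ∀ i T, 1 ≤ X i T)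
    (hs : ∃ M : ℝ, 0 ≤ M ∧ ∀ i T u, X i (T + u) ≤ (1 + |u|) ^ M * X i T)
    (hX : ∀ i T, X i T ≤ X' i T ∧ X' i T ≤ 2 * X i T) : Grow L X where
  X1 := h1
  Xs := hs
  cr := by
    obtain ⟨C, B, hC, hB, h⟩ := H.cr
    refine ⟨C * 2 ^ B, B, by positivity, hB, fun i T => (h i T).trans ?_⟩
    have h2 : X' i T ^ B ≤ (2 * X i T) ^ B := Real.rpow_le_rpow (by linarith [H.X1 i T]) (hX i T).2 hB
    rw [Real.mul_rpow (by norm_num) (by linarith [h1 i T])] at h2
    calc C * X' i T ^ B ≤ C * (2 ^ B * X i T ^ B) := mul_le_mul_of_nonneg_left h2 hC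
      _ = _ := by ring
  lg := by
    obtain ⟨A, B, b, hA, hB, hb0, hb, h⟩ := H.lg
    refine ⟨2 * A, B, b, by linarith, hB, hb0, hb, fun η W hη hW => ?_⟩
    obtain ⟨X₁, hX₁⟩ := h η W hη hW
    refine ⟨|X₁| + 2, fun i T hT => ?_⟩
    have c1 := le_abs_self X₁
    have c2 := abs_nonneg X₁
    obtain ⟨hX2, hX3⟩ := hX i T
    obtain ⟨ℓ, p₁, p₂, hℓ1, hℓ2, hrest⟩ := hX₁ i T (by linarith)
    have hXp : 0 < X i T := by linarith
    have hl1 : Real.log (X' i T) ≤ 2 * Real.log (X i T) := by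
      have h2 : X' i T ≤ X i T * X i T := hX3.trans (mul_le_mul_of_nonneg_right (by linarith) hXp.le)
      have h3 := Real.log_le_log (by linarith) h2
      rw [Real.log_mul hXp.ne' hXp.ne'] at h3
      linarith
    have hl2 : Real.log (X i T) ≤ Real.log (X' i T) := Real.log_le_log hXp hX2
    have hl3 : 0 ≤ Real.log (X i T) := Real.log_nonneg (h1 i T)
    refine ⟨ℓ, p₁, p₂, ?_, ?_, hrest⟩
    · have := mul_le_mul_of_nonneg_left hl1 (by linarith : 0 ≤ A)
      linarith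
    · have h4 : 0 ≤ A * ℓ := (hl3.trans hl2).trans hℓ2
      linarith

end Pool.Agent.TH804.SG
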