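import Mathlib
import Pool.Agent.TH804.SG7
import Pool.Agent.TH804.SG8

/-!
The data of `GL(m)` have uniform local growth.
-/

set_option autoImplicit false

open Complex Filter Topology Metric Set Polynomial
open H855R2.SF (cond_one_le cond_shift AFam refl_of_fe)

set_option maxHeartbeats 4000000

namespace Pool.Agent.TH804.SG

variable {ι : Type} {m : ℕ} {N : ι → ℕ} {mu : ι → Fin m → ℂ} {f : ι → ℂ → ℂ}

theorem GLd.right' (H : GLd m N mu f) : ∀ δ : ℝ, 0 < δ → ∃ B : ℝ, 0 ≤ B ∧ ∀ i (s : ℂ), 1 + δ ≤ s.re →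
    ‖f i s‖ ≤ B * ((1 + |s.im|) * Cc (N i) (mu i)) ^ δ := by
  intro δ hδ
  obtain ⟨B, hB⟩ := H.right δ hδ
  refine ⟨|B|, abs_nonneg _, fun i s hs => ?_⟩
  have h1 := Cc_one (H.N_pos i) (mu i)
  refine (hB i s hs).trans ?_
  have h2 : Cc (N i) (mu i) ≤ (1 + |s.im|) * Cc (N i) (mu i) := by
    nlinarith [abs_nonneg s.im]
  calc B * (N i * ∏ j, (1 + ‖mu i j‖)) ^ δ ≤ |B| * Cc (N i) (mu i) ^ δ :=
        mul_le_mul_of_nonneg_right (le_abs_self B) (Real.rpow_nonneg (by unfold Cc at h1; linarith) _)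
    _ ≤ _ := mul_le_mul_of_nonneg_left (Real.rpow_le_rpow (by linarith) h2 hδ.le) (abs_nonneg B)

theorem GLd.refl' (H : GLd m N mu f) (i : ι) {x t : ℝ} (hx0 : 0 ≤ x) (hx1 : x ≤ 3 / 4) :
    ‖f i ⟨1 / 2 - x, t⟩‖ ≤ 16 ^ m * Qc (N i) (mu i) t ^ x * ‖f i ⟨1 / 2 + x, t⟩‖ := by
  obtain ⟨root, hroot, hfe⟩ := H.fe i
  exact refl_of_fe (H.N_pos i) (mu i) (H.mu_re i) hroot hfe hx0 hx1

theorem GLd.afam (H : GLd m N mu f) :
    AFam (m + 1 : ℝ) f (fun i t => ((1 + |t|) * Cc (N i) (mu i)) ^ (m + 1 : ℝ)) where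
  m0 := by positivity
  Q1 := by
    intro i t
    refine Real.one_le_rpow ?_ (by positivity)
    have h1 := Cc_one (H.N_pos i) (mu i)
    nlinarith [abs_nonneg t]
  Qs := by
    intro i t u
    have h1 := Cc_one (H.N_pos i) (mu i)
    rw [← Real.mul_rpow (by positivity) (by positivity)]
    exact Real.rpow_le_rpow (by positivity) (X_shift (H.N_pos i) (mu i) t u) (by positivity)
  diff := H.entire
  order := H.order
  right := by
    intro δ hδ
    obtain ⟨B, hB0, hB⟩ := H.right' δ hδ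
    refine ⟨B, fun i s hs => ?_⟩
    have h1 := Cc_one (H.N_pos i) (mu i)
    have h0 : 1 ≤ (1 + |s.im|) * Cc (N i) (mu i) := by nlinarith [abs_nonneg s.im]
    refine (hB i s hs).trans ?_
    have h3 : (1 + |s.im|) * Cc (N i) (mu i) ≤ ((1 + |s.im|) * Cc (N i) (mu i)) ^ (m + 1 : ℝ) := by
      conv_lhs => rw [← Real.rpow_one ((1 + |s.im|) * Cc (N i) (mu i))]
      refine Real.rpow_le_rpow_of_exponent_le h0 ?_
      have : (0 : ℝ) ≤ m := Nat.cast_nonneg _
      linarith
    exact mul_le_mul_of_nonneg_left (Real.rpow_le_rpow (by linarith) h3 hδ.le) hB0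
  refl := by
    refine ⟨16 ^ m, by positivity, fun i x t hx0 hx1 => ?_⟩
    refine (H.refl' i (t := t) hx0 hx1).trans ?_
    refine mul_le_mul_of_nonneg_right ?_ (norm_nonneg _)
    refine mul_le_mul_of_nonneg_left ?_ (by positivity)
    have h1 := Qc_one (H.N_pos i) (mu i) t
    exact Real.rpow_le_rpow (by linarith) (Q_le_X (H.N_pos i) (mu i) t) hx0

/-- polynomial growth in `|Re s - 1/2| ≤ 2` -/
theorem GLd.crude (H : GLd m N mu f) : ∃ C B : ℝ, 0 ≤ C ∧ 0 ≤ B ∧ ∀ i (s : ℂ), -(3 / 2) ≤ s.re →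
    ‖f i s‖ ≤ C * ((1 + |s.im|) * Cc (N i) (mu i)) ^ B := by
  obtain ⟨C, hC, h⟩ := Pool.Agent.H983R4.GL.crude H.afam
  refine ⟨72 ^ m * C, 3 * (m + 1), by positivity, by positivity, fun i s hs => ?_⟩
  have h1 := Cc_one (H.N_pos i) (mu i)
  set X : ℝ := (1 + |s.im|) * Cc (N i) (mu i) with hX
  have hX1 : 1 ≤ X := by nlinarith [abs_nonneg s.im]
  have hX0 : 0 < X := by linarith
  have h72 : (1:ℝ) ≤ 72 ^ m := one_le_pow₀ (by norm_num)
  have hXp : (1:ℝ) ≤ X ^ (m + 1 : ℝ) := Real.one_le_rpow hX1 (by positivity)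
  have e3 : X ^ (3 * (m + 1) : ℝ) = (X ^ (m + 1 : ℝ)) ^ (2:ℝ) * X ^ (m + 1 : ℝ) := by
    rw [← Real.rpow_mul hX0.le, ← Real.rpow_add hX0]; congr 1; ring
  rcases le_total (-1 / 4) s.re with h4 | h4
  · refine (h i s h4).trans ?_
    have h5 : X ^ (m + 1 : ℝ) ≤ X ^ (3 * (m + 1) : ℝ) := Real.rpow_le_rpow_of_exponent_le hX1 (by
      have : (0:ℝ) ≤ m := Nat.cast_nonneg _
      linarith)
    exact mul_le_mul (le_mul_of_one_le_left (by linarith) h72) h5 (by positivity) (by positivity)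
  · obtain ⟨root, hroot, hfe⟩ := H.fe i
    have h5 := refl_up (H.N_pos i) (mu i) (H.mu_re i) hroot hfe (x := 1 / 2 - s.re) (t := s.im) (by linarith)
      (by linarith)
    have e1 : (⟨1 / 2 - (1 / 2 - s.re), s.im⟩ : ℂ) = s := by
      apply Complex.ext
      · show 1 / 2 - (1 / 2 - s.re) = s.re; ring
      · rfl
    rw [e1] at h5
    have h6 := h i ⟨1 / 2 + (1 / 2 - s.re), s.im⟩ (by show -1 / 4 ≤ 1 / 2 + (1 / 2 - s.re); linarith)
    have h7 : Qc (N i) (mu i) s.im ^ (1 / 2 - s.re) ≤ (X ^ (m + 1 : ℝ)) ^ (2:ℝ) := by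
      have hQ := Qc_one (H.N_pos i) (mu i) s.im
      calc Qc (N i) (mu i) s.im ^ (1 / 2 - s.re) ≤ Qc (N i) (mu i) s.im ^ (2:ℝ) :=
            Real.rpow_le_rpow_of_exponent_le hQ (by linarith)
        _ ≤ _ := Real.rpow_le_rpow (by linarith) (Q_le_X (H.N_pos i) (mu i) s.im) (by norm_num)
    calc ‖f i s‖ ≤ 72 ^ m * Qc (N i) (mu i) s.im ^ (1 / 2 - s.re) * ‖f i ⟨1 / 2 + (1 / 2 - s.re), s.im⟩‖ := h5
      _ ≤ 72 ^ m * (X ^ (m + 1 : ℝ)) ^ (2:ℝ) * (C * X ^ (m + 1 : ℝ)) := by
          apply mul_le_mul _ h6 (norm_nonneg _) (by positivity)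
          exact mul_le_mul_of_nonneg_left h7 (by positivity)
      _ = _ := by rw [e3]; ring

/-- **uniform local growth** -/
theorem GLd.grow (H : GLd m N mu f) : Grow f (fun i T => (1 + |T|) * Cc (N i) (mu i)) where
  X1 := by
    intro i t
    have h1 := Cc_one (H.N_pos i) (mu i)
    nlinarith [abs_nonneg t]
  Xs := ⟨1, zero_le_one, fun i t u => by rw [Real.rpow_one]; exact X_shift (H.N_pos i) (mu i) t u⟩
  cr := by
    obtain ⟨C, B, hC, hB, h⟩ := H.crude
    refine ⟨C, B, hC, hB, fun i T => ?_⟩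
    have h1 := h i (1 / 2 + T * I) (by simp; norm_num)
    have e : (1 / 2 + T * I : ℂ).im = T := by simp
    rw [e] at h1
    exact h1
  lg := by
    obtain ⟨C, B, hC, hB, hcr⟩ := H.crude
    have hm0 : (0:ℝ) ≤ m := Nat.cast_nonneg _
    set A : ℝ := m + 2 with hA
    set d : ℝ := 1 / (64 * (m + 1)) with hd
    have hd0 : 0 < d := by positivity
    have hd64 : d ≤ 1 / 64 := by
      rw [hd]
      apply one_div_le_one_div_of_le (by norm_num)
      linarith
    set κ : ℝ := ((d / (d + 2)) ^ 2 / 16384) ^ m with hκ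
    have hκ0 : 0 < κ := by positivity
    refine ⟨A, A * B + 1, 2 * d, by linarith, by positivity, by positivity, by linarith, fun η W hη hW => ?_⟩
    set ε : ℝ := min (η / (2 * A)) (min η (1 / 16)) with hε
    have hA0 : 0 < A := by positivity
    have hε0 : 0 < ε := lt_min (by positivity) (lt_min hη (by norm_num))
    have hεη : ε ≤ η := (min_le_right _ _).trans (min_le_left _ _)
    have hε16 : ε ≤ 1 / 16 := (min_le_right _ _).trans (min_le_right _ _)
    have hεA : ε * A ≤ η / 2 := by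
      have h1 : ε ≤ η / (2 * A) := min_le_left _ _
      rw [le_div_iff₀ (by positivity)] at h1
      linarith
    obtain ⟨B₁, hB₁0, hB₁⟩ := H.right' ε hε0
    obtain ⟨B₂', hB₂'⟩ := H.inv ε hε0
    set B₂ : ℝ := |B₂'| with hB₂d
    have hB₂0 : 0 ≤ B₂ := abs_nonneg _
    -- the constant
    set PW : ℝ := 1 + W with hPW
    have hPW1 : 1 ≤ PW := by linarith
    set QW : ℝ := (PW ^ (m : ℝ)) ^ (2:ℝ) with hQW
    have hPm : 1 ≤ PW ^ (m : ℝ) := Real.one_le_rpow hPW1 hm0
    have hQW1 : 1 ≤ QW := Real.one_le_rpow hPm (by norm_num)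
    set K : ℝ := 1 + (1 + C) * PW ^ B + (1 + B₁) * PW ^ ε * (72 ^ m * QW) +
      κ⁻¹ * QW * (1 + B₂) * PW ^ ε with hK
    have hPB : 0 < PW ^ B := by positivity
    have hPε : 0 < PW ^ ε := by positivity
    have t1 : 0 ≤ (1 + C) * PW ^ B := by positivity
    have t2 : 0 ≤ (1 + B₁) * PW ^ ε * (72 ^ m * QW) := by positivity
    have t3 : 0 ≤ κ⁻¹ * QW * (1 + B₂) * PW ^ ε := by positivity
    have hK1 : 1 ≤ K := by linarith
    have hlK : 0 ≤ Real.log K := Real.log_nonneg hK1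
    refine ⟨Real.exp (A * ((2 / η + 1) * Real.log K)), fun i T hX => ?_⟩
    have hN := H.N_pos i
    have hC1 := Cc_one hN (mu i)
    have hX1 : 1 ≤ (1 + |T|) * Cc (N i) (mu i) := by nlinarith [abs_nonneg T]
    have hXp : 0 < (1 + |T|) * Cc (N i) (mu i) := by linarith
    have hQ1 := Qc_one hN (mu i) T
    have hQp : 0 < Qc (N i) (mu i) T := by linarith
    set ℓ : ℝ := Real.log (Qc (N i) (mu i) T) with hℓ
    have hℓ0 : 0 ≤ ℓ := Real.log_nonneg hQ1
    have hlog1 : ℓ ≤ A * Real.log ((1 + |T|) * Cc (N i) (mu i)) := by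
      have h1 := Real.log_le_log hQp (Q_le_X hN (mu i) T)
      rw [Real.log_rpow hXp] at h1
      have h2 : 0 ≤ Real.log ((1 + |T|) * Cc (N i) (mu i)) := Real.log_nonneg hX1
      rw [hA]
      linarith
    have hlog2 : Real.log ((1 + |T|) * Cc (N i) (mu i)) ≤ A * ℓ := by
      have h1 := Real.log_le_log hXp (X_le_Q H.m_pos hN (mu i) (H.norm i) T)
      rw [Real.log_rpow hQp] at h1
      exact h1
    have hKℓ : (2 / η + 1) * Real.log K ≤ ℓ := by
      have h1 : A * ((2 / η + 1) * Real.log K) ≤ Real.log ((1 + |T|) * Cc (N i) (mu i)) := by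
        rw [Real.le_log_iff_exp_le hXp]; exact hX
      exact le_of_mul_le_mul_left (h1.trans hlog2) hA0
    have hK2 : K ≤ Real.exp (η / 2 * ℓ) := by
      rw [← Real.exp_log (show 0 < K by linarith)]
      apply Real.exp_le_exp.2
      have h1 : 2 / η * Real.log K ≤ ℓ := by linarith
      have h2 := mul_le_mul_of_nonneg_left h1 (show 0 ≤ η / 2 by positivity)
      calc Real.log K = η / 2 * (2 / η * Real.log K) := by field_simp
        _ ≤ _ := h2
    have hK3 : K ≤ Real.exp ℓ := by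
      rw [← Real.exp_log (show 0 < K by linarith)]
      apply Real.exp_le_exp.2
      have : 0 ≤ 2 / η * Real.log K := by positivity
      linarith
    have hXℓ : ∀ p : ℝ, 0 ≤ p → ((1 + |T|) * Cc (N i) (mu i)) ^ p ≤ Real.exp (p * A * ℓ) := by
      intro p hp
      rw [Real.rpow_def_of_pos hXp]
      apply Real.exp_le_exp.2
      have := mul_le_mul_of_nonneg_left hlog2 hp
      linarith
    have hXε : ((1 + |T|) * Cc (N i) (mu i)) ^ ε ≤ Real.exp (η / 2 * ℓ) := by
      refine (hXℓ ε hε0.le).trans (Real.exp_le_exp.2 ?_)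
      exact mul_le_mul_of_nonneg_right hεA hℓ0
    -- coordinates
    have hco : ∀ z : ℂ, (1 / 2 + T * I + z : ℂ) = ⟨1 / 2 + z.re, T + z.im⟩ := by
      intro z
      apply Complex.ext <;> simp
    have hXs : ∀ y : ℝ, |y| ≤ W → (1 + |T + y|) * Cc (N i) (mu i) ≤ PW * ((1 + |T|) * Cc (N i) (mu i)) := by
      intro y hy
      refine (X_shift hN (mu i) T y).trans (mul_le_mul_of_nonneg_right ?_ hXp.le)
      linarith
    have hXpow : ∀ (y p : ℝ), |y| ≤ W → 0 ≤ p → ((1 + |T + y|) * Cc (N i) (mu i)) ^ p ≤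
        PW ^ p * ((1 + |T|) * Cc (N i) (mu i)) ^ p := by
      intro y p hy hp
      rw [← Real.mul_rpow (by positivity) hXp.le]
      exact Real.rpow_le_rpow (by positivity) (hXs y hy) hp
    have hQs1 : ∀ y : ℝ, |y| ≤ W → Qc (N i) (mu i) (T + y) ≤ PW ^ (m : ℝ) * Qc (N i) (mu i) T := by
      intro y hy
      refine (Qc_shift (N i) (mu i) T y).trans (mul_le_mul_of_nonneg_right ?_ hQp.le)
      exact Real.rpow_le_rpow (by positivity) (by linarith) hm0
    have hQs2 : ∀ y : ℝ, |y| ≤ W → Qc (N i) (mu i) T ≤ PW ^ (m : ℝ) * Qc (N i) (mu i) (T + y) := by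
      intro y hy
      have h1 := Qc_shift (N i) (mu i) (T + y) (-y)
      rw [add_neg_cancel_right, abs_neg] at h1
      refine h1.trans (mul_le_mul_of_nonneg_right ?_ (by linarith [Qc_one hN (mu i) (T + y)]))
      exact Real.rpow_le_rpow (by positivity) (by linarith) hm0
    have hpow2 : ∀ x : ℝ, 0 ≤ x → x ≤ 2 → (PW ^ (m : ℝ)) ^ x ≤ QW := fun x _ hx =>
      Real.rpow_le_rpow_of_exponent_le hPm hx
    have hQx : ∀ x : ℝ, Qc (N i) (mu i) T ^ x = Real.exp (x * ℓ) := fun x => by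
      rw [Real.rpow_def_of_pos hQp, mul_comm]
    have hQup : ∀ x y : ℝ, 0 ≤ x → x ≤ 2 → |y| ≤ W → Qc (N i) (mu i) (T + y) ^ x ≤ QW * Real.exp (x * ℓ) := by
      intro x y hx0 hx2 hy
      have h0 := Qc_one hN (mu i) (T + y)
      calc Qc (N i) (mu i) (T + y) ^ x ≤ (PW ^ (m : ℝ) * Qc (N i) (mu i) T) ^ x :=
            Real.rpow_le_rpow (by linarith) (hQs1 y hy) hx0
        _ = (PW ^ (m : ℝ)) ^ x * Qc (N i) (mu i) T ^ x := Real.mul_rpow (by positivity) hQp.le
        _ ≤ QW * Real.exp (x * ℓ) := by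
            rw [hQx]
            exact mul_le_mul_of_nonneg_right (hpow2 x hx0 hx2) (Real.exp_pos _).le
    have hQlo : ∀ x y : ℝ, 0 ≤ x → x ≤ 2 → |y| ≤ W → Real.exp (x * ℓ) ≤ QW * Qc (N i) (mu i) (T + y) ^ x := by
      intro x y hx0 hx2 hy
      have h0 := Qc_one hN (mu i) (T + y)
      rw [← hQx]
      calc Qc (N i) (mu i) T ^ x ≤ (PW ^ (m : ℝ) * Qc (N i) (mu i) (T + y)) ^ x :=
            Real.rpow_le_rpow hQp.le (hQs2 y hy) hx0
        _ = (PW ^ (m : ℝ)) ^ x * Qc (N i) (mu i) (T + y) ^ x := Real.mul_rpow (by positivity) (by linarith)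
        _ ≤ _ := mul_le_mul_of_nonneg_right (hpow2 x hx0 hx2) (Real.rpow_nonneg (by linarith) _)
    -- the right side
    have hr : ∀ x y : ℝ, 1 / 2 + η ≤ x → |y| ≤ W → ‖f i ⟨1 / 2 + x, T + y⟩‖ ≤
        B₁ * PW ^ ε * Real.exp (η / 2 * ℓ) := by
      intro x y hx hy
      have h1 := hB₁ i ⟨1 / 2 + x, T + y⟩ (by show 1 + ε ≤ 1 / 2 + x; linarith)
      have h2 : (⟨1 / 2 + x, T + y⟩ : ℂ).im = T + y := rfl
      rw [h2] at h1
      calc ‖f i ⟨1 / 2 + x, T + y⟩‖ ≤ B₁ * ((1 + |T + y|) * Cc (N i) (mu i)) ^ ε := h1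
        _ ≤ B₁ * (PW ^ ε * ((1 + |T|) * Cc (N i) (mu i)) ^ ε) :=
            mul_le_mul_of_nonneg_left (hXpow y ε hy hε0.le) hB₁0
        _ ≤ B₁ * (PW ^ ε * Real.exp (η / 2 * ℓ)) := by
            apply mul_le_mul_of_nonneg_left _ hB₁0
            exact mul_le_mul_of_nonneg_left hXε hPε.le
        _ = _ := by ring
    -- the lower bound
    have hlo : ∀ p : ℝ, 5 / 8 ≤ p → p ≤ 1 → (∀ j, 4 * d ≤ |p - (1 / 2 - (mu i j).re)|) → 
        Lo (sh f i T) p (2 * d) η W ℓ := by
      intro p hp1 hp2 hsep z hz1 hz2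
      have hz1' := abs_le.1 hz1
      obtain ⟨root, hroot, hfe⟩ := H.fe i
      have h1 := refl_lo hN (mu i) (H.mu_re i) hroot hfe (x := -z.re) (t := T + z.im) (d := d) (by linarith)
        (by linarith) hd0 (by linarith) (fun j => by
          have h2 := hsep j
          have h3 : |p - (1 / 2 - (mu i j).re)| ≤ |-z.re - (1 / 2 - (mu i j).re)| + |z.re + p| := by
            have h4 := abs_add_le (-z.re - (1 / 2 - (mu i j).re)) (z.re + p)
            have e : -z.re - (1 / 2 - (mu i j).re) + (z.re + p) = p - (1 / 2 - (mu i j).re) := by ring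
            rw [e] at h4
            exact h4
          linarith)
      rw [sub_neg_eq_add] at h1
      have e : sh f i T z = f i ⟨1 / 2 + z.re, T + z.im⟩ := by unfold sh; rw [hco]
      rw [e]
      refine le_trans ?_ h1
      rw [← hκ]
      -- the inverse bound
      have h2 := hB₂' i ⟨1 / 2 + -z.re, T + z.im⟩ (by
        show 1 + ε ≤ 1 / 2 + -z.re
        linarith)
      set g : ℝ := ‖f i ⟨1 / 2 + -z.re, T + z.im⟩‖ with hg
      have hg0 : 0 ≤ g := norm_nonneg _
      have hCc : Cc (N i) (mu i) ^ ε ≤ Real.exp (η / 2 * ℓ) := by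
        refine le_trans (Real.rpow_le_rpow (by linarith) ?_ hε0.le) hXε
        nlinarith [abs_nonneg T]
      have h3 : 1 ≤ B₂ * Real.exp (η / 2 * ℓ) * g := by
        refine h2.trans (mul_le_mul_of_nonneg_right ?_ hg0)
        have h4 : B₂' * Cc (N i) (mu i) ^ ε ≤ B₂ * Cc (N i) (mu i) ^ ε :=
          mul_le_mul_of_nonneg_right (le_abs_self _) (Real.rpow_nonneg (by linarith) _)
        exact h4.trans (mul_le_mul_of_nonneg_left hCc hB₂0)
      have h4 := hQlo (-z.re) z.im (by linarith) (by linarith) hz2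
      set q : ℝ := Qc (N i) (mu i) (T + z.im) ^ (-z.re) with hq
      have hq0 : 0 ≤ q := Real.rpow_nonneg (by linarith [Qc_one hN (mu i) (T + z.im)]) _
      -- `κ⁻¹ QW B₂ ≤ K ≤ exp (η/2 ℓ)`
      have h5 : κ⁻¹ * QW * B₂ ≤ Real.exp (η / 2 * ℓ) := by
        refine le_trans ?_ hK2
        have hPε1 : 1 ≤ PW ^ ε := Real.one_le_rpow hPW1 hε0.le
        have h6 : κ⁻¹ * QW * B₂ ≤ κ⁻¹ * QW * (1 + B₂) * PW ^ ε := by
          have h7 : κ⁻¹ * QW * B₂ ≤ κ⁻¹ * QW * (1 + B₂) :=
            mul_le_mul_of_nonneg_left (by linarith) (by positivity)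
          exact h7.trans (le_mul_of_one_le_right (by positivity) hPε1)
        linarith
      set E : ℝ := Real.exp (η / 2 * ℓ) with hE
      have hE0 : 0 < E := Real.exp_pos _
      have e1 : Real.exp ((-z.re - η) * ℓ) * (E * E) = Real.exp (-z.re * ℓ) := by
        rw [hE, ← Real.exp_add, ← Real.exp_add]; congr 1; ring
      have h6 : Real.exp ((-z.re - η) * ℓ) * (E * E) ≤ κ * q * g * (E * E) := by
        rw [e1]
        calc Real.exp (-z.re * ℓ) = Real.exp (-z.re * ℓ) * 1 := (mul_one _).symm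
          _ ≤ (QW * q) * (B₂ * E * g) := mul_le_mul h4 h3 zero_le_one (by positivity)
          _ = κ * (κ⁻¹ * QW * B₂) * q * g * E := by
              have : κ * κ⁻¹ = 1 := mul_inv_cancel₀ hκ0.ne'
              calc (QW * q) * (B₂ * E * g) = (κ * κ⁻¹) * ((QW * q) * (B₂ * E * g)) := by rw [this, one_mul]
                _ = _ := by ring
          _ ≤ κ * E * q * g * E := by
              apply mul_le_mul_of_nonneg_right _ hE0.le
              apply mul_le_mul_of_nonneg_right _ hg0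
              apply mul_le_mul_of_nonneg_right _ hq0
              exact mul_le_mul_of_nonneg_left h5 hκ0.le
          _ = _ := by ring
      exact le_of_mul_le_mul_right h6 (by positivity)
    obtain ⟨p₁, hp1, hp2, hp3⟩ := sep (fun j => 1 / 2 - (mu i j).re) (α := 7 / 8) (β := 1) (by norm_num)
    obtain ⟨p₂, hp4, hp5, hp6⟩ := sep (fun j => 1 / 2 - (mu i j).re) (α := 5 / 8) (β := 3 / 4) (by norm_num)
    have ed : 4 * d = 1 / 8 / (m + 1) / 2 := by rw [hd]; field_simp; norm_num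
    refine ⟨ℓ, p₁, p₂, hlog1, hlog2, hp1, hp2, hp4, hp5, ?_, hlo p₁ (by linarith) hp2 (fun j => ?_),
      hlo p₂ hp4 (by linarith) (fun j => ?_)⟩
    · refine ⟨fun z h1 h2 => ?_, fun z h1 h2 => ?_, fun z h1 h2 h3 => ?_, fun z h1 h2 h3 => ?_⟩
      · have h4 : Differentiable ℂ (sh f i T) := by
          unfold sh
          exact (H.entire i).comp (by fun_prop)
        exact h4.analyticAt z
      · have h1' := abs_le.1 h1
        have h4 := hcr i (1 / 2 + T * I + z) (by rw [hco]; show -(3 / 2) ≤ 1 / 2 + z.re; linarith)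
        have e : (1 / 2 + T * I + z : ℂ).im = T + z.im := by rw [hco]
        rw [e] at h4
        have e2 : sh f i T z = f i (1 / 2 + T * I + z) := rfl
        rw [e2]
        calc ‖f i (1 / 2 + T * I + z)‖ ≤ C * ((1 + |T + z.im|) * Cc (N i) (mu i)) ^ B := h4
          _ ≤ C * (PW ^ B * ((1 + |T|) * Cc (N i) (mu i)) ^ B) :=
              mul_le_mul_of_nonneg_left (hXpow z.im B h2 hB) hC
          _ = C * PW ^ B * ((1 + |T|) * Cc (N i) (mu i)) ^ B := by ring
          _ ≤ K * Real.exp (B * A * ℓ) := by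
              apply mul_le_mul _ (hXℓ B hB) (by positivity) (by linarith)
              have : C * PW ^ B ≤ (1 + C) * PW ^ B := mul_le_mul_of_nonneg_right (by linarith) hPB.le
              linarith
          _ ≤ Real.exp ℓ * Real.exp (B * A * ℓ) := mul_le_mul_of_nonneg_right hK3 (Real.exp_pos _).le
          _ = _ := by rw [← Real.exp_add]; congr 1; ring
      · have e : sh f i T z = f i ⟨1 / 2 + z.re, T + z.im⟩ := by unfold sh; rw [hco]
        rw [e]
        refine (hr z.re z.im h1 h3).trans ?_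
        have h4 : B₁ * PW ^ ε ≤ Real.exp (η / 2 * ℓ) := by
          refine le_trans ?_ hK2
          have h72 : (1:ℝ) ≤ 72 ^ m := one_le_pow₀ (by norm_num)
          have h5 : 1 ≤ 72 ^ m * QW := one_le_mul_of_one_le_of_one_le h72 hQW1
          have h6 : B₁ * PW ^ ε ≤ (1 + B₁) * PW ^ ε := mul_le_mul_of_nonneg_right (by linarith) hPε.le
          have h7 : (1 + B₁) * PW ^ ε ≤ (1 + B₁) * PW ^ ε * (72 ^ m * QW) :=
            le_mul_of_one_le_right (by positivity) h5
          linarith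
        calc B₁ * PW ^ ε * Real.exp (η / 2 * ℓ) ≤ Real.exp (η / 2 * ℓ) * Real.exp (η / 2 * ℓ) :=
              mul_le_mul_of_nonneg_right h4 (Real.exp_pos _).le
          _ = _ := by rw [← Real.exp_add]; congr 1; ring
      · obtain ⟨root, hroot, hfe⟩ := H.fe i
        have h4 := refl_up hN (mu i) (H.mu_re i) hroot hfe (x := -z.re) (t := T + z.im) (by linarith)
          (by linarith)
        rw [sub_neg_eq_add] at h4
        have e : sh f i T z = f i ⟨1 / 2 + z.re, T + z.im⟩ := by unfold sh; rw [hco]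
        rw [e]
        refine h4.trans ?_
        have h5 := hr (-z.re) z.im (by linarith) h3
        have h6 := hQup (-z.re) z.im (by linarith) (by linarith) h3
        have h7 : B₁ * PW ^ ε * (72 ^ m * QW) ≤ Real.exp (η / 2 * ℓ) := by
          refine le_trans ?_ hK2
          have : B₁ * PW ^ ε * (72 ^ m * QW) ≤ (1 + B₁) * PW ^ ε * (72 ^ m * QW) := by
            apply mul_le_mul_of_nonneg_right _ (by positivity)
            exact mul_le_mul_of_nonneg_right (by linarith) hPε.le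
          linarith
        calc 72 ^ m * Qc (N i) (mu i) (T + z.im) ^ (-z.re) * ‖f i ⟨1 / 2 + -z.re, T + z.im⟩‖
            ≤ 72 ^ m * (QW * Real.exp (-z.re * ℓ)) * (B₁ * PW ^ ε * Real.exp (η / 2 * ℓ)) := by
              apply mul_le_mul _ h5 (norm_nonneg _) (by positivity)
              exact mul_le_mul_of_nonneg_left h6 (by positivity)
          _ = (B₁ * PW ^ ε * (72 ^ m * QW)) * (Real.exp (η / 2 * ℓ) * Real.exp (-z.re * ℓ)) := by ring
          _ ≤ Real.exp (η / 2 * ℓ) * (Real.exp (η / 2 * ℓ) * Real.exp (-z.re * ℓ)) :=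
              mul_le_mul_of_nonneg_right h7 (by positivity)
          _ = _ := by rw [← Real.exp_add, ← Real.exp_add]; congr 1; ring
    · rw [ed]
      have := hp3 j
      have e : ((1:ℝ) - 7 / 8) = 1 / 8 := by norm_num
      rw [e] at this
      exact this
    · rw [ed]
      have := hp6 j
      have e : ((3:ℝ) / 4 - 5 / 8) = 1 / 8 := by norm_num
      rw [e] at this
      exact this

end Pool.Agent.TH804.SG
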