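import Mathlib
import Pool.Agent.TH804.SG9
import Pool.Agent.H855R2.SF.Dir

/-!
Primitive Dirichlet characters.
-/

set_option autoImplicit false

open Complex Filter Topology Metric Set Polynomial
open H370.DL (aa aa_im)
open H429.GP (aa_re_nonneg)
open H855R2.SF

set_option maxHeartbeats 4000000

namespace Pool.Agent.TH804.SG

lemma dir_inv {q : ℕ} [NeZero q] (χ : DirichletCharacter ℂ q) {δ : ℝ} (hδ : 0 < δ) {s : ℂ} (hs : 1 + δ ≤ s.re) :
    1 ≤ (∑' n : ℕ, 1 / (n : ℝ) ^ (1 + δ)) * ‖DirichletCharacter.LFunction χ s‖ := by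
  have hs1 : 1 < s.re := by linarith
  have h1 := DirichletCharacter.LSeries.mul_mu_eq_one χ hs1
  rw [DirichletCharacter.LFunction_eq_LSeries χ hs1]
  have hsum : Summable (fun n : ℕ => 1 / (n:ℝ) ^ (1 + δ)) := Real.summable_one_div_nat_rpow.mpr (by linarith)
  have h2 : ‖LSeries ((fun n : ℕ => χ n) * (fun n : ℕ => ((ArithmeticFunction.moebius n : ℤ) : ℂ))) s‖ ≤
      ∑' n : ℕ, 1 / (n:ℝ) ^ (1 + δ) := by
    unfold LSeries
    refine tsum_of_norm_bounded hsum.hasSum ?_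
    intro n
    rcases Nat.eq_zero_or_pos n with rfl | hn
    · simp [LSeries.term]
      positivity
    · rw [LSeries.norm_term_eq]
      rw [if_neg (by omega)]
      have hn1 : (1:ℝ) ≤ n := by exact_mod_cast hn
      have h1 : (n:ℝ) ^ (1 + δ) ≤ (n:ℝ) ^ s.re := Real.rpow_le_rpow_of_exponent_le hn1 hs
      have h2 : 0 < (n:ℝ) ^ (1 + δ) := by positivity
      have h3 : ‖((fun n : ℕ => χ n) * (fun n : ℕ => ((ArithmeticFunction.moebius n : ℤ) : ℂ))) n‖ ≤ 1 := by
        rw [Pi.mul_apply, norm_mul]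
        have h4 : ‖χ n‖ ≤ 1 := χ.norm_le_one _
        have h5 : ‖((ArithmeticFunction.moebius n : ℤ) : ℂ)‖ ≤ 1 := by
          rw [Complex.norm_intCast]
          exact_mod_cast ArithmeticFunction.abs_moebius_le_one
        exact mul_le_one₀ h4 (norm_nonneg _) h5
      calc ‖((fun n : ℕ => χ n) * (fun n : ℕ => ((ArithmeticFunction.moebius n : ℤ) : ℂ))) n‖ / (n:ℝ) ^ s.re
          ≤ 1 / (n:ℝ) ^ s.re := div_le_div_of_nonneg_right h3 (by positivity)
        _ ≤ 1 / (n:ℝ) ^ (1 + δ) := by gcongr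
  have h3 : ‖LSeries (fun n : ℕ => χ n) s‖ *
      ‖LSeries ((fun n : ℕ => χ n) * (fun n : ℕ => ((ArithmeticFunction.moebius n : ℤ) : ℂ))) s‖ = 1 := by
    rw [← norm_mul, h1, norm_one]
  calc (1 : ℝ) = ‖LSeries (fun n : ℕ => χ n) s‖ *
      ‖LSeries ((fun n : ℕ => χ n) * (fun n : ℕ => ((ArithmeticFunction.moebius n : ℤ) : ℂ))) s‖ := h3.symm
    _ ≤ ‖LSeries (fun n : ℕ => χ n) s‖ * ∑' n : ℕ, 1 / (n:ℝ) ^ (1 + δ) :=
        mul_le_mul_of_nonneg_left h2 (norm_nonneg _)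
    _ = _ := mul_comm _ _

variable {ι : Type}

theorem dir_gld (q : ι → ℕ) [∀ i, NeZero (q i)] (χ : (i : ι) → DirichletCharacter ℂ (q i))
    (h : ∀ i, 1 < q i ∧ (χ i).IsPrimitive) :
    GLd 1 q (fun i (_ : Fin 1) => -aa (χ i)) (fun i => DirichletCharacter.LFunction (χ i)) where
  m_pos := one_pos
  N_pos := fun i => by have := (h i).1; omega
  mu_re := fun i _ => by
    have := aa_re_nonneg (χ := χ i)
    rw [neg_re]
    linarith
  norm := fun i => by simp [aa_im]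
  entire := fun i => DirichletCharacter.differentiable_LFunction (ne_one_of_prim (h i).1 (h i).2)
  order := fun i => order_dir (h i).1 (h i).2
  fe := fun i => ⟨DirichletCharacter.rootNumber (χ i), H429.GP.norm_rootNumber (h i).2,
    fun s => fe_dir (h i).1 (h i).2 s⟩
  right := fun ε hε => ⟨∑' n : ℕ, 1 / (n : ℝ) ^ (1 + ε), fun i s hs => by
    refine (right_dir (χ := χ i) hε hs).trans ?_
    have h1 : (1:ℝ) ≤ (q i * ∏ _j : Fin 1, (1 + ‖-aa (χ i)‖)) ^ ε := by
      refine Real.one_le_rpow ?_ hε.le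
      exact Cc_one (N := q i) (by have := (h i).1; omega) (fun _ : Fin 1 => -aa (χ i))
    have h0 : 0 ≤ ∑' n : ℕ, 1 / (n : ℝ) ^ (1 + ε) := tsum_nonneg fun n => by positivity
    exact le_mul_of_one_le_right h0 h1⟩
  inv := fun ε hε => ⟨∑' n : ℕ, 1 / (n : ℝ) ^ (1 + ε), fun i s hs => by
    have h2 := dir_inv (χ i) hε hs
    have h1 : (1:ℝ) ≤ (q i * ∏ _j : Fin 1, (1 + ‖-aa (χ i)‖)) ^ ε := by
      refine Real.one_le_rpow ?_ hε.le
      exact Cc_one (N := q i) (by have := (h i).1; omega) (fun _ : Fin 1 => -aa (χ i))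
    have h0 : 0 ≤ ∑' n : ℕ, 1 / (n : ℝ) ^ (1 + ε) := tsum_nonneg fun n => by positivity
    refine h2.trans (mul_le_mul_of_nonneg_right ?_ (norm_nonneg _))
    exact le_mul_of_one_le_right h0 h1⟩

/-- **uniform local growth for Dirichlet characters** -/
theorem dir_grow (q : ι → ℕ) [∀ i, NeZero (q i)] (χ : (i : ι) → DirichletCharacter ℂ (q i))
    (h : ∀ i, 1 < q i ∧ (χ i).IsPrimitive) :
    Grow (fun i => DirichletCharacter.LFunction (χ i)) (fun i T => (q i : ℝ) * (1 + |T|)) := by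
  refine (dir_gld q χ h).grow.change (fun i T => ?_) ⟨1, zero_le_one, fun i T u => ?_⟩ (fun i T => ?_)
  · have h1 : (1:ℝ) ≤ q i := by exact_mod_cast (h i).1.le
    nlinarith [abs_nonneg T]
  · rw [Real.rpow_one]
    have h1 : (0:ℝ) ≤ q i := Nat.cast_nonneg _
    have h2 : 1 + |T + u| ≤ (1 + |u|) * (1 + |T|) := by
      have := abs_add_le T u
      nlinarith [abs_nonneg T, abs_nonneg u, mul_nonneg (abs_nonneg T) (abs_nonneg u)]
    calc (q i : ℝ) * (1 + |T + u|) ≤ q i * ((1 + |u|) * (1 + |T|)) := mul_le_mul_of_nonneg_left h2 h1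
      _ = _ := by ring
  · have h1 : (0:ℝ) ≤ q i := Nat.cast_nonneg _
    have e : Cc (q i) (fun _ : Fin 1 => -aa (χ i)) = q i * (1 + ‖aa (χ i)‖) := by
      unfold Cc; simp
    have h2 : ‖aa (χ i)‖ ≤ 1 := by
      unfold aa
      split_ifs <;> simp
    have h3 := norm_nonneg (aa (χ i))
    have h4 := abs_nonneg T
    rw [e]
    have h5 : 0 ≤ (q i : ℝ) * (1 + |T|) := by positivity
    constructor
    · nlinarith [mul_nonneg h5 h3]
    · nlinarith [mul_nonneg h5 h3, mul_le_mul_of_nonneg_left h2 h5]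

end Pool.Agent.TH804.SG
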