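import Pool.Agent.TH804.SD8

/-! Unconditional comparison of the zeros of zeta and of its sections. -/

set_option autoImplicit false

open Complex Metric Set Filter Topology

namespace Pool.Agent.TH804.SD

open Pool.Agent.TH804.SS DH31 H370 H370.Loc

/-- zeros of the section -/
def ZN (N : ℕ) (σ a b : ℝ) : Set ℂ := {s : ℂ | sec N s = 0 ∧ σ ≤ s.re ∧ a < s.im ∧ s.im ≤ b}

/-- zeros of zeta -/
def ZZ (σ a b : ℝ) : Set ℂ := {s : ℂ | riemannZeta s = 0 ∧ σ ≤ s.re ∧ a < s.im ∧ s.im ≤ b}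

lemma sec_ne {N : ℕ} (hN : 1 ≤ N) {s : ℂ} (hs : 2 ≤ s.re) : sec N s ≠ 0 := by
  obtain ⟨l, A, hl, hl1, hA, hright⟩ := sec_right
  have h := (hright N hN s (by linarith)).2
  have : 0 < 1 / A := by positivity
  exact norm_pos_iff.1 (this.trans_le h)

lemma sec_ord {N : ℕ} (hN : 1 ≤ N) {z : ℂ} (hz : sec N z = 0) : 1 ≤ analyticOrderNatAt (sec N) z := by
  have h1 := order_ne_top (f := sec N) (K := Set.univ) isPreconnected_univ (fun w _ => sec_analytic N w)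
    (Set.mem_univ (2 : ℂ)) (sec_ne hN (by simp)) (Set.mem_univ z)
  have h2 : analyticOrderAt (sec N) z ≠ 0 := by
    rw [Ne, (sec_analytic N z).analyticOrderAt_eq_zero]
    simpa using hz
  unfold analyticOrderNatAt
  rw [Nat.one_le_iff_ne_zero, Ne, ENat.toNat_eq_zero]
  push Not
  exact ⟨h2, h1⟩

lemma zeta_ord {z : ℂ} (him : 0 < z.im) (hz : riemannZeta z = 0) : 1 ≤ analyticOrderNatAt riemannZeta z := by
  have hconv : Convex ℝ {w : ℂ | 0 < w.im} := convex_halfSpace_im_gt 0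
  have h1 := order_ne_top (f := riemannZeta) (K := {w : ℂ | 0 < w.im}) hconv.isPreconnected
    (fun w hw => zeta_analyticAt hw) (show (⟨2, 1⟩ : ℂ) ∈ {w : ℂ | 0 < w.im} by simp)
    (riemannZeta_ne_zero_of_one_le_re (by simp only; norm_num)) (show z ∈ {w : ℂ | 0 < w.im} from him)
  have h2 : analyticOrderAt riemannZeta z ≠ 0 := by
    rw [Ne, (zeta_analyticAt him).analyticOrderAt_eq_zero]
    simpa using hz
  unfold analyticOrderNatAt
  rw [Nat.one_le_iff_ne_zero, Ne, ENat.toNat_eq_zero]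
  push Not
  exact ⟨h2, h1⟩

lemma ZN_finite {N : ℕ} (hN : 1 ≤ N) (σ a b : ℝ) : (ZN N σ a b).Finite := by
  have hcomp : IsCompact (Icc σ 2 ×ℂ Icc a b) := isCompact_Icc.reProdIm isCompact_Icc
  by_contra hinf
  have hinf : (ZN N σ a b).Infinite := hinf
  obtain ⟨x, hx, hacc⟩ := hinf.exists_accPt_of_subset_isCompact hcomp (fun s hs => by
    refine ⟨⟨hs.2.1, ?_⟩, ⟨hs.2.2.1.le, hs.2.2.2⟩⟩
    by_contra hcon
    push Not at hcon
    exact sec_ne hN hcon.le hs.1)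
  have hfreq : ∃ᶠ z in 𝓝[≠] x, sec N z = 0 := by
    rw [accPt_iff_frequently_nhdsNE] at hacc
    exact hacc.mono fun z hz => hz.1
  have hz := AnalyticOnNhd.eqOn_zero_of_preconnected_of_frequently_eq_zero
      (f := sec N) (U := Set.univ) (fun s _ => sec_analytic N s) isPreconnected_univ
      (Set.mem_univ x) hfreq
  exact sec_ne hN (s := 2) (by simp) (hz (Set.mem_univ (2 : ℂ)))

lemma ZZ_finite (σ a b : ℝ) : (ZZ σ a b).Finite :=
  (finite_region σ a b).subset fun _ hs => ⟨hs.1, hs.2.1, hs.2.2.1.le, hs.2.2.2⟩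

/-- local count -/
lemma loc_gen {f : ℂ → ℂ} {c : ℂ} {M A : ℝ} (hM : 1 ≤ M) (hA : 1 ≤ A)
    (hf : AnalyticOnNhd ℂ f (closedBall c (7 / 4))) (hb : ∀ z ∈ closedBall c (7 / 4), ‖f z‖ ≤ M)
    (hc : 1 / A ≤ ‖f c‖) (W : Finset ℂ) (hW : ∀ z ∈ W, z ∈ closedBall c (8 / 5)) :
    ∑ z ∈ W, (analyticOrderNatAt f z : ℝ) ≤ (Real.log M + Real.log A) / Real.log ((7 / 4) / (8 / 5)) := by
  have hA0 : 0 < A := by linarith
  have hfc0 : 0 < ‖f c‖ := lt_of_lt_of_le (by positivity) hc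
  have hj := jensen_mult (f := f) (c := c) (r := 8 / 5) (R := 7 / 4) (M := M) (by norm_num) (by norm_num) hM
    hf (norm_pos_iff.1 hfc0) hb W hW
  refine hj.trans ?_
  apply div_le_div_of_nonneg_right _ (Real.log_nonneg (by norm_num))
  rw [← Real.log_mul (by positivity) (by positivity)]
  apply Real.log_le_log (by positivity)
  rw [div_le_iff₀ hfc0]
  rw [div_le_iff₀ hA0] at hc
  calc M = M * 1 := (mul_one M).symm
    _ ≤ M * (‖f c‖ * A) := by gcongr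
    _ = _ := by ring

lemma in_ball {z : ℂ} {n : ℕ} (h1 : 1 / 2 ≤ z.re) (h2 : z.re ≤ 2) (h3 : (n : ℝ) < z.im) (h4 : z.im ≤ n + 1) :
    z ∈ closedBall (⟨2, n + 1 / 2⟩ : ℂ) (8 / 5) := by
  rw [mem_closedBall, dist_eq_norm]
  apply abs_le_of_sq_le_sq' _ (by norm_num) |>.2
  rw [← Complex.normSq_eq_norm_sq, Complex.normSq_apply]
  simp only [sub_re, sub_im]
  have e1 : (z.re - 2) * (z.re - 2) ≤ 9 / 4 := by nlinarith
  have e2 : (z.im - (n + 1 / 2)) * (z.im - (n + 1 / 2)) ≤ 1 / 4 := by nlinarith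
  linarith

lemma loc_sec {a : ℝ} (ha : 0 ≤ a) : ∃ C : ℝ, 0 < C ∧ ∀ T : ℝ, 3 ≤ T → ∀ N : ℕ, 1 ≤ N → (N : ℝ) ≤ T ^ a →
    ∀ n : ℕ, ∀ W : Finset ℂ, (∀ z ∈ W, sec N z = 0 ∧ 1 / 2 ≤ z.re ∧ (n : ℝ) < z.im ∧ z.im ≤ n + 1) →
      ∑ z ∈ W, (analyticOrderNatAt (sec N) z : ℝ) ≤ C * Real.log T := by
  obtain ⟨l, A, hl, hl1, hA, hright⟩ := sec_right
  obtain ⟨q, hq⟩ : ∃ q : ℝ, q = Real.log ((7 / 4) / (8 / 5)) := ⟨_, rfl⟩
  have hq0 : 0 < q := by rw [hq]; exact Real.log_pos (by norm_num)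
  have hlA : 0 ≤ Real.log A := Real.log_nonneg hA
  refine ⟨(a + Real.log A + 1) / q, by positivity, fun T hT N hN1 hN2 n W hW => ?_⟩
  have hT0 : 0 < T := by linarith
  have hlog : 1 ≤ Real.log T := by
    rw [Real.le_log_iff_exp_le hT0]
    linarith [Real.exp_one_lt_d9]
  have h1 := loc_gen (f := sec N) (c := ⟨2, n + 1 / 2⟩) (M := T ^ a) (A := A) (Real.one_le_rpow (by linarith) ha) hA
    (fun z _ => sec_analytic N z) (fun z hz => (sec_crude N (by linarith [(ball_re_im hz).1])).trans hN2)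
    (hright N hN1 ⟨2, n + 1 / 2⟩ (by simp only; linarith)).2 W (fun z hz => by
      obtain ⟨h1, h2, h3, h4⟩ := hW z hz
      refine in_ball h2 ?_ h3 h4
      by_contra hcon
      push Not at hcon
      exact sec_ne hN1 hcon.le h1)
  rw [← hq, Real.log_rpow hT0] at h1
  refine h1.trans ?_
  rw [div_mul_eq_mul_div]
  apply div_le_div_of_nonneg_right _ hq0.le
  nlinarith

lemma loc_zeta : ∃ C : ℝ, 0 < C ∧ ∀ T : ℝ, 60 ≤ T → ∀ n : ℕ, 3 ≤ n → (n : ℝ) ≤ 4 * T → ∀ W : Finset ℂ,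
    (∀ z ∈ W, riemannZeta z = 0 ∧ 1 / 2 ≤ z.re ∧ (n : ℝ) < z.im ∧ z.im ≤ n + 1) →
      ∑ z ∈ W, (analyticOrderNatAt riemannZeta z : ℝ) ≤ C * Real.log T := by
  obtain ⟨A, hA, hright⟩ := zeta_bounds (a := 7 / 4) (by norm_num)
  obtain ⟨q, hq⟩ : ∃ q : ℝ, q = Real.log ((7 / 4) / (8 / 5)) := ⟨_, rfl⟩
  have hq0 : 0 < q := by rw [hq]; exact Real.log_pos (by norm_num)
  have hlA : 0 ≤ Real.log A := Real.log_nonneg hA
  refine ⟨(2 + Real.log A + 1) / q, by positivity, fun T hT n hn3 hn4 W hW => ?_⟩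
  have hT0 : 0 < T := by linarith
  have hlog : 1 ≤ Real.log T := by
    rw [Real.le_log_iff_exp_le hT0]
    linarith [Real.exp_one_lt_d9]
  have hn3' : (3 : ℝ) ≤ n := by exact_mod_cast hn3
  have him : ∀ z ∈ closedBall (⟨2, n + 1 / 2⟩ : ℂ) (7 / 4), 1 / 4 ≤ z.re ∧ z.re ≤ 4 ∧ 1 ≤ z.im ∧ z.im ≤ 4 * T + 3 := by
    intro z hz
    have h3 := ball_re_im hz
    have h4 := abs_le.1 h3.2
    rw [mem_closedBall, dist_eq_norm] at hz
    have h5 := Complex.abs_re_le_norm (z - ⟨2, n + 1 / 2⟩)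
    simp only [Complex.sub_re] at h5
    have h6 := abs_le.1 (h5.trans hz)
    exact ⟨by linarith, by linarith, by linarith, by linarith⟩
  have h1 := loc_gen (f := riemannZeta) (c := ⟨2, n + 1 / 2⟩) (M := T ^ 2) (A := A) (by nlinarith) hA
    (fun z hz => zeta_analyticAt (by linarith [(him z hz).2.2.1])) (fun z hz => by
      obtain ⟨h3, h4, h5, h6⟩ := him z hz
      refine (Pool.Agent.H388LH.zeta_growth h3 h5).trans ?_
      have h7 : ‖z‖ ≤ 4 + (4 * T + 3) := by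
        refine (Complex.norm_le_abs_re_add_abs_im z).trans ?_
        rw [abs_of_nonneg (by linarith), abs_of_nonneg (by linarith)]
        linarith
      nlinarith)
    (hright ⟨2, n + 1 / 2⟩ (by simp only; norm_num)).2 W (fun z hz => by
      obtain ⟨h1, h2, h3, h4⟩ := hW z hz
      refine in_ball h2 ?_ h3 h4
      by_contra hcon
      push Not at hcon
      exact riemannZeta_ne_zero_of_one_le_re (by linarith) h1)
  rw [← hq, Real.log_pow] at h1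
  refine h1.trans ?_
  rw [div_mul_eq_mul_div]
  apply div_le_div_of_nonneg_right _ hq0.le
  push_cast
  nlinarith

/-- a large difference needs a large average -/
theorem large_diff {δ κ : ℝ} (hδ : 0 < δ) (hδ1 : δ ≤ 1 / 2) (hκ : 0 < κ) (hκ1 : κ ≤ 1) (hκ2 : κ < 2 * δ) :
    ∃ C : ℝ, 0 < C ∧ ∃ T₀ : ℝ, ∀ T : ℝ, T₀ ≤ T → ∀ N : ℕ, 1 ≤ N → (N : ℝ) ≤ T * T → ∀ σ : ℝ, 1 / 2 + δ ≤ σ →
      ∀ s : ℂ, σ ≤ s.re → s.re ≤ 2 → T < s.im → T ^ (-κ) ≤ ‖riemannZeta s - sec N s‖ →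
        T ^ (-(4 * κ)) * (N : ℝ) ^ (σ - 1 / 2) / (2 * C) ≤ G κ s.im := by
  obtain ⟨C, hC, h⟩ := diff_G hδ hκ hκ1
  obtain ⟨T₁, hT₁⟩ := Filter.eventually_atTop.1
    ((tendsto_rpow_atTop (show 0 < 2 * δ - κ by linarith)).eventually_ge_atTop (2 * C))
  refine ⟨C, hC, max T₁ 4, fun T hT N hN1 hN2 σ hσ s hs1 hs2 hs3 hlow => ?_⟩
  have hT4 : 4 ≤ T := (le_max_right _ _).trans hT
  have hTT : 2 * C ≤ T ^ (2 * δ - κ) := hT₁ T ((le_max_left _ _).trans hT)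
  have hT0 : 0 < T := by linarith
  have hN0 : (0 : ℝ) < N := by exact_mod_cast hN1
  have hN1' : (1 : ℝ) ≤ N := by exact_mod_cast hN1
  have him : 0 < s.im := by linarith
  have h1 := h T hT4 N hN1 hN2 s (by linarith) hs2 (by rw [abs_of_pos him]; linarith)
  have hpole : (N : ℝ) ^ (1 - s.re) ≤ T ^ (1 - 2 * δ) := by
    rcases le_or_gt s.re 1 with h2 | h2
    · calc (N : ℝ) ^ (1 - s.re) ≤ (T * T) ^ (1 - s.re) := Real.rpow_le_rpow hN0.le hN2 (by linarith)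
        _ = T ^ (2 * (1 - s.re)) := by
          rw [Real.mul_rpow hT0.le hT0.le, ← Real.rpow_add hT0]; congr 1; ring
        _ ≤ _ := Real.rpow_le_rpow_of_exponent_le (by linarith) (by linarith)
    · calc (N : ℝ) ^ (1 - s.re) ≤ 1 := Real.rpow_le_one_of_one_le_of_nonpos hN1' (by linarith)
        _ ≤ _ := Real.one_le_rpow (by linarith) (by linarith)
  have hpole2 : C * ((N : ℝ) ^ (1 - s.re) / T) ≤ T ^ (-κ) / 2 := by
    have e1 : T ^ (1 - 2 * δ) / T = T ^ (-(2 * δ)) := by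
      rw [div_eq_iff hT0.ne', ← Real.rpow_add_one hT0.ne']
      congr 1
      ring
    have e2 : T ^ (2 * δ - κ) * T ^ (-(2 * δ)) = T ^ (-κ) := by
      rw [← Real.rpow_add hT0]; congr 1; ring
    calc C * ((N : ℝ) ^ (1 - s.re) / T) ≤ C * (T ^ (1 - 2 * δ) / T) := by gcongr
      _ = (2 * C) * T ^ (-(2 * δ)) / 2 := by rw [e1]; ring
      _ ≤ T ^ (2 * δ - κ) * T ^ (-(2 * δ)) / 2 := by gcongr
      _ = _ := by rw [e2]
  have h3 : T ^ (-κ) / 2 ≤ C * (T ^ (3 * κ) * (N : ℝ) ^ (-(s.re - 1 / 2)) * G κ s.im) := by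
    have := hlow.trans h1
    rw [mul_add] at this
    linarith
  have hG0 : 0 ≤ G κ s.im := MeasureTheory.integral_nonneg fun u => by positivity
  have h4 : (N : ℝ) ^ (-(s.re - 1 / 2)) ≤ (N : ℝ) ^ (-(σ - 1 / 2)) :=
    Real.rpow_le_rpow_of_exponent_le hN1' (by linarith)
  have h5 : T ^ (-κ) / 2 ≤ C * (T ^ (3 * κ) * (N : ℝ) ^ (-(σ - 1 / 2)) * G κ s.im) := by
    refine h3.trans ?_
    gcongr
  have e3 : T ^ (-(4 * κ)) = T ^ (-κ) * T ^ (-(3 * κ)) := by rw [← Real.rpow_add hT0]; congr 1; ring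
  have e4 : T ^ (-(3 * κ)) * T ^ (3 * κ) = 1 := by rw [← Real.rpow_add hT0]; simp
  have e5 : (N : ℝ) ^ (σ - 1 / 2) * (N : ℝ) ^ (-(σ - 1 / 2)) = 1 := by rw [← Real.rpow_add hN0]; simp
  rw [div_le_iff₀ (by positivity)]
  calc T ^ (-(4 * κ)) * (N : ℝ) ^ (σ - 1 / 2) = 2 * (T ^ (-κ) / 2) * (T ^ (-(3 * κ)) * (N : ℝ) ^ (σ - 1 / 2)) := by
        rw [e3]; ring
    _ ≤ 2 * (C * (T ^ (3 * κ) * (N : ℝ) ^ (-(σ - 1 / 2)) * G κ s.im)) *
        (T ^ (-(3 * κ)) * (N : ℝ) ^ (σ - 1 / 2)) := by gcongr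
    _ = (2 * C) * G κ s.im * (T ^ (-(3 * κ)) * T ^ (3 * κ)) *
        ((N : ℝ) ^ (σ - 1 / 2) * (N : ℝ) ^ (-(σ - 1 / 2))) := by ring
    _ = G κ s.im * (2 * C) := by rw [e4, e5]; ring

end Pool.Agent.TH804.SD
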