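import Pool.Agent.TH804.SD7
import Pool.Agent.TH804.SD9

/-! The Dirichlet polynomials `1 + ∑_{N ≤ n ≤ 2N} b_n n^{-s}`: basic facts. -/

set_option autoImplicit false

open Complex Metric Set Filter Topology

namespace Pool.Agent.TH804.DP

open Pool.Agent.TH804.SS Pool.Agent.TH804.SD DH31 H370 H370.Loc

/-- the Dirichlet polynomial `∑_{N ≤ n ≤ 2N} b_n n^{-s}` -/
noncomputable def P (N : ℕ) (b : ℕ → ℂ) (s : ℂ) : ℂ := ∑ n ∈ Finset.Icc N (2 * N), b n * (n : ℂ) ^ (-s)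

/-- `∑_{N ≤ n ≤ 2N} b_n n^{-s} - a` -/
noncomputable def F (N : ℕ) (a : ℂ) (b : ℕ → ℂ) (s : ℂ) : ℂ := P N b s - a

lemma P_an {N : ℕ} (hN : 1 ≤ N) (b : ℕ → ℂ) (s : ℂ) : AnalyticAt ℂ (P N b) s := by
  unfold P
  apply Finset.analyticAt_fun_sum
  intro n hn
  rw [Finset.mem_Icc] at hn
  have hn0 : (n : ℂ) ≠ 0 := by
    have : n ≠ 0 := by omega
    exact_mod_cast this
  apply AnalyticAt.mul analyticAt_const
  have : (fun z : ℂ => (n : ℂ) ^ (-z)) = fun z => cexp (Complex.log n * (-z)) := by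
    funext z
    rw [cpow_def_of_ne_zero hn0]
  rw [this]
  fun_prop

lemma F_an {N : ℕ} (hN : 1 ≤ N) (a : ℂ) (b : ℕ → ℂ) (s : ℂ) : AnalyticAt ℂ (F N a b) s :=
  (P_an hN b s).sub analyticAt_const

lemma P_le {N : ℕ} (hN : 1 ≤ N) {b : ℕ → ℂ} (hb : ∀ n, ‖b n‖ ≤ 1) {s : ℂ} (hs : 0 ≤ s.re) :
    ‖P N b s‖ ≤ 2 * (N : ℝ) ^ (1 - s.re) := by
  have hN0 : (0 : ℝ) < N := by exact_mod_cast hN
  have hN1 : (1 : ℝ) ≤ N := by exact_mod_cast hN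
  unfold P
  calc ‖∑ n ∈ Finset.Icc N (2 * N), b n * (n : ℂ) ^ (-s)‖
      ≤ ∑ n ∈ Finset.Icc N (2 * N), ‖b n * (n : ℂ) ^ (-s)‖ := norm_sum_le _ _
    _ ≤ ∑ n ∈ Finset.Icc N (2 * N), (N : ℝ) ^ (-s.re) := by
        refine Finset.sum_le_sum fun n hn => ?_
        rw [Finset.mem_Icc] at hn
        have hn0 : 0 < n := by omega
        rw [norm_mul, Complex.norm_natCast_cpow_of_pos hn0, neg_re]
        calc ‖b n‖ * (n : ℝ) ^ (-s.re) ≤ 1 * (n : ℝ) ^ (-s.re) := by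
              gcongr; exact hb n
          _ = (n : ℝ) ^ (-s.re) := one_mul _
          _ ≤ (N : ℝ) ^ (-s.re) := by
              apply Real.rpow_le_rpow_of_nonpos hN0 (by exact_mod_cast hn.1) (by linarith)
    _ = ((N : ℝ) + 1) * (N : ℝ) ^ (-s.re) := by
        rw [Finset.sum_const, Nat.card_Icc, nsmul_eq_mul]
        congr 1
        have : 2 * N + 1 - N = N + 1 := by omega
        rw [this]
        push_cast
        ring
    _ ≤ (2 * N) * (N : ℝ) ^ (-s.re) := by gcongr; linarith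
    _ = 2 * (N : ℝ) ^ (1 - s.re) := by
        rw [show (1 : ℝ) - s.re = 1 + -s.re by ring, Real.rpow_add hN0, Real.rpow_one]
        ring

/-- the constant in the half plane of small values -/
noncomputable def A0 (a : ℂ) : ℝ := max (2 / ‖a‖) (2 * ‖a‖ + 2)

lemma A0_one (a : ℂ) : 1 ≤ A0 a := le_trans (by have := norm_nonneg a; linarith) (le_max_right _ _)

/-- the threshold for `N` -/
def Big (a : ℂ) (N : ℕ) : Prop := 16 ≤ N ∧ ‖a‖ + 2 ≤ N ∧ 2 * (N : ℝ) ^ (-(1 / 2) : ℝ) ≤ ‖a‖ / 2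

lemma exists_Big {a : ℂ} (ha : a ≠ 0) : ∃ N₀ : ℕ, ∀ N : ℕ, N₀ ≤ N → Big a N := by
  have ha0 : 0 < ‖a‖ := norm_pos_iff.2 ha
  have h1 : Tendsto (fun N : ℕ => 2 * (N : ℝ) ^ (-(1 / 2) : ℝ)) atTop (𝓝 (2 * 0)) :=
    ((tendsto_rpow_neg_atTop (show (0 : ℝ) < 1 / 2 by norm_num)).comp tendsto_natCast_atTop_atTop).const_mul 2
  rw [mul_zero] at h1
  obtain ⟨N₁, h₁⟩ := Filter.eventually_atTop.1 (h1.eventually (eventually_le_nhds (show 0 < ‖a‖ / 2 by positivity)))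
  refine ⟨max (max 16 N₁) ⌈‖a‖ + 2⌉₊, fun N hN => ⟨(le_max_left _ _).trans ((le_max_left _ _).trans hN), ?_,
    h₁ N ((le_max_right _ _).trans ((le_max_left _ _).trans hN))⟩⟩
  have h2 : (⌈‖a‖ + 2⌉₊ : ℝ) ≤ N := by exact_mod_cast (le_max_right _ _).trans hN
  exact (Nat.le_ceil _).trans h2

lemma P_right {a : ℂ} {N : ℕ} (hN : Big a N) {b : ℕ → ℂ} (hb : ∀ n, ‖b n‖ ≤ 1) {s : ℂ} (hs : 3 / 2 ≤ s.re) :
    ‖P N b s‖ ≤ ‖a‖ / 2 := by
  obtain ⟨h16, -, h2⟩ := hN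
  have h1 := P_le (s := s) (show 1 ≤ N by omega) hb (by linarith)
  have hN16 : (16 : ℝ) ≤ N := by exact_mod_cast h16
  have h3 : (N : ℝ) ^ (1 - s.re) ≤ (N : ℝ) ^ (-(1 / 2) : ℝ) :=
    Real.rpow_le_rpow_of_exponent_le (by linarith) (by linarith)
  linarith

lemma F_right {a : ℂ} {N : ℕ} (hN : Big a N) {b : ℕ → ℂ} (hb : ∀ n, ‖b n‖ ≤ 1) {s : ℂ} (hs : 3 / 2 ≤ s.re) :
    ‖a‖ / 2 ≤ ‖F N a b s‖ ∧ ‖F N a b s‖ ≤ A0 a := by
  have h1 := P_right hN hb hs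
  have ha := norm_nonneg a
  unfold F
  constructor
  · have h2 := norm_sub_norm_le a (P N b s)
    rw [norm_sub_rev] at h2
    linarith
  · have h2 := norm_sub_le (P N b s) a
    have h3 : 2 * ‖a‖ + 2 ≤ A0 a := le_max_right _ _
    linarith

lemma F_right' {a : ℂ} (ha : a ≠ 0) {N : ℕ} (hN : Big a N) {b : ℕ → ℂ} (hb : ∀ n, ‖b n‖ ≤ 1) {s : ℂ}
    (hs : 3 / 2 ≤ s.re) : 1 / A0 a ≤ ‖F N a b s‖ := by
  have ha0 : 0 < ‖a‖ := norm_pos_iff.2 ha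
  refine le_trans ?_ (F_right hN hb hs).1
  have h1 : 2 / ‖a‖ ≤ A0 a := le_max_left _ _
  have h2 : 0 < A0 a := lt_of_lt_of_le one_pos (A0_one a)
  rw [div_le_iff₀ ha0] at h1
  rw [div_le_iff₀ h2]
  linarith

lemma F_crude {a : ℂ} {N : ℕ} (hN : Big a N) {b : ℕ → ℂ} (hb : ∀ n, ‖b n‖ ≤ 1) {s : ℂ} (hs : 0 ≤ s.re) :
    ‖F N a b s‖ ≤ (N : ℝ) ^ (3 : ℝ) := by
  obtain ⟨h16, ha, -⟩ := hN
  have h1 := P_le (s := s) (show 1 ≤ N by omega) hb hs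
  have hN2 : (16 : ℝ) ≤ N := by exact_mod_cast h16
  have h2 : (N : ℝ) ^ (1 - s.re) ≤ N := by
    calc (N : ℝ) ^ (1 - s.re) ≤ (N : ℝ) ^ (1 : ℝ) :=
          Real.rpow_le_rpow_of_exponent_le (by linarith) (by linarith)
      _ = N := Real.rpow_one _
  have h3 : (N : ℝ) ^ (3 : ℝ) = N * N * N := by
    rw [show (3 : ℝ) = ((3 : ℕ) : ℝ) by norm_num, Real.rpow_natCast]
    ring
  have h4 := norm_sub_le (P N b s) a
  have h5 : (256 : ℝ) ≤ N * N := by nlinarith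
  have h6 : 256 * (N : ℝ) ≤ N * N * N := by gcongr
  unfold F
  rw [h3]
  linarith

/-- a window without zeros -/
theorem F_window {a : ℂ} (ha : a ≠ 0) {δ κ : ℝ} (hδ : 0 < δ) (hδ1 : δ ≤ 1 / 12) (hκ : 0 < κ) :
    ∃ N₀ : ℕ, ∀ N : ℕ, N₀ ≤ N → ∀ b : ℕ → ℂ, (∀ n, ‖b n‖ ≤ 1) → ∀ σ : ℝ, 1 / 2 ≤ σ → σ ≤ 1 → ∀ t : ℝ,
      (∀ z : ℂ, σ - 3 * δ ≤ z.re → |z.im - t| ≤ 2 → F N a b z ≠ 0) → ‖F N a b ⟨σ, t⟩‖ ≤ (N : ℝ) ^ κ := by
  obtain ⟨T₁, h₁⟩ := zf_T (l := 1 / 2) (A := A0 a) (a := 3) (δ := δ) (κ := κ) (by norm_num) (A0_one a)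
    (by norm_num) hδ hκ
  obtain ⟨N₁, hB⟩ := exists_Big ha
  refine ⟨max N₁ ⌈T₁⌉₊, ?_⟩
  intro N hN b hb σ hσ1 hσ2 t h0
  have hNB : Big a N := hB N ((le_max_left _ _).trans hN)
  have hN16 := hNB.1
  have hNT : T₁ ≤ N := by
    have h1 : (⌈T₁⌉₊ : ℝ) ≤ N := by exact_mod_cast (le_max_right _ _).trans hN
    exact (Nat.le_ceil _).trans h1
  refine (h₁ N hNT (F N a b) ⟨2, t⟩ (2 - σ) (by linarith) (by linarith) (fun z _ => F_an (by omega) a b z)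
    ?_ ?_ ?_ ?_ ⟨σ, t⟩ ?_).2
  · intro z hz
    have h3 := ball_re_im hz
    exact F_crude hNB hb (by linarith [h3.1])
  · intro z hz
    have h3 := ball_re_im hz
    exact (F_right hNB hb (by linarith [h3.1])).2
  · exact F_right' ha hNB hb (s := ⟨2, t⟩) (by simp only; norm_num)
  · intro z hz
    have h3 := ball_re_im hz
    exact h0 z (by linarith [h3.1]) (by linarith [h3.2])
  · rw [mem_closedBall, dist_eq_norm]
    have e1 : (⟨σ, t⟩ : ℂ) - ⟨2, t⟩ = ((σ - 2 : ℝ) : ℂ) := by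
      apply Complex.ext <;> simp
    rw [e1, Complex.norm_real, Real.norm_eq_abs, abs_of_nonpos (by linarith)]
    linarith

lemma F_ne {a : ℂ} (ha : a ≠ 0) {N : ℕ} (hN : Big a N) {b : ℕ → ℂ} (hb : ∀ n, ‖b n‖ ≤ 1) {s : ℂ}
    (hs : 3 / 2 ≤ s.re) : F N a b s ≠ 0 := by
  have h1 := (F_right hN hb hs).1
  have ha0 : 0 < ‖a‖ := norm_pos_iff.2 ha
  intro h
  rw [h, norm_zero] at h1
  linarith

lemma F_order {a : ℂ} (ha : a ≠ 0) {N : ℕ} (hN : Big a N) {b : ℕ → ℂ} (hb : ∀ n, ‖b n‖ ≤ 1) {z : ℂ}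
    (hz : F N a b z = 0) : 1 ≤ analyticOrderNatAt (F N a b) z := by
  have hN16 := hN.1
  have han : AnalyticAt ℂ (F N a b) z := F_an (by omega) a b z
  have h1 : analyticOrderAt (F N a b) z ≠ 0 := by
    rw [Ne, han.analyticOrderAt_eq_zero]
    exact fun h => h hz
  have h2 : analyticOrderAt (F N a b) z ≠ ⊤ := by
    intro h
    rw [analyticOrderAt_eq_top] at h
    have h3 := AnalyticOnNhd.eqOn_zero_of_preconnected_of_frequently_eq_zero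
      (f := F N a b) (U := Set.univ) (fun s _ => F_an (by omega) a b s) isPreconnected_univ
      (Set.mem_univ z) (h.filter_mono nhdsWithin_le_nhds).frequently
    exact F_ne ha hN hb (s := 2) (by simp; norm_num) (h3 (Set.mem_univ (2 : ℂ)))
  rw [Nat.one_le_iff_ne_zero]
  intro h
  apply h1
  have h3 := Nat.cast_analyticOrderNatAt h2
  rw [← h3, h]
  rfl

/-- number of zeros in a unit window -/
lemma F_loc {a : ℂ} (ha : a ≠ 0) : ∃ C : ℝ, 0 < C ∧ ∀ N : ℕ, Big a N → ∀ b : ℕ → ℂ, (∀ n, ‖b n‖ ≤ 1) →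
    ∀ n : ℕ, ∀ W : Finset ℂ, (∀ z ∈ W, F N a b z = 0 ∧ 1 / 2 ≤ z.re ∧ (n : ℝ) < z.im ∧ z.im ≤ n + 1) →
      ∑ z ∈ W, (analyticOrderNatAt (F N a b) z : ℝ) ≤ C * Real.log N := by
  obtain ⟨q, hq⟩ : ∃ q : ℝ, q = Real.log ((7 / 4) / (8 / 5)) := ⟨_, rfl⟩
  have hq0 : 0 < q := by rw [hq]; exact Real.log_pos (by norm_num)
  have hA : 0 ≤ Real.log (A0 a) := Real.log_nonneg (A0_one a)
  refine ⟨(3 + Real.log (A0 a)) / q, by positivity, fun N hN b hb n W hW => ?_⟩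
  have hN16 := hN.1
  have hN16' : (16 : ℝ) ≤ N := by exact_mod_cast hN16
  have hN0 : (0 : ℝ) < N := by linarith
  have hlog : 1 ≤ Real.log N := by
    rw [Real.le_log_iff_exp_le hN0]
    linarith [Real.exp_one_lt_d9]
  have h1 := loc_gen (f := F N a b) (c := ⟨2, n + 1 / 2⟩) (M := (N : ℝ) ^ (3 : ℝ)) (A := A0 a)
    (Real.one_le_rpow (by linarith) (by norm_num)) (A0_one a)
    (fun z _ => F_an (by omega) a b z) (fun z hz => F_crude hN hb (by linarith [(ball_re_im hz).1]))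
    (F_right' ha hN hb (s := ⟨2, n + 1 / 2⟩) (by simp only; norm_num)) W (fun z hz => by
      obtain ⟨h1, h2, h3, h4⟩ := hW z hz
      refine in_ball h2 ?_ h3 h4
      by_contra hcon
      push Not at hcon
      exact F_ne ha hN hb (by linarith) h1)
  rw [← hq, Real.log_rpow hN0] at h1
  refine h1.trans ?_
  rw [div_mul_eq_mul_div]
  apply div_le_div_of_nonneg_right _ hq0.le
  nlinarith

end Pool.Agent.TH804.DP
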