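import Pool.Agent.TH804.DP1

/-! Reduction of bounded coefficients to coefficients 0 and 1. -/

set_option autoImplicit false

open Complex Metric Set Filter Topology

namespace Pool.Agent.TH804.DP

/-- the remainders of the binary expansion -/
noncomputable def rem (x : ℕ → ℝ) : ℕ → ℕ → ℝ
  | 0, n => x n
  | j + 1, n => if (1 / 2 : ℝ) ^ (j + 1) < rem x j n then rem x j n - (1 / 2) ^ (j + 1) else rem x j n

lemma rem_bd {x : ℕ → ℝ} {n : ℕ} (h0 : 0 ≤ x n) (h1 : x n ≤ 1) (j : ℕ) :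
    0 ≤ rem x j n ∧ rem x j n ≤ (1 / 2) ^ j := by
  induction j with
  | zero => simpa [rem] using ⟨h0, h1⟩
  | succ j ih =>
    have e : (1 / 2 : ℝ) ^ j = 2 * (1 / 2) ^ (j + 1) := by rw [pow_succ]; ring
    simp only [rem]
    split_ifs with h
    · constructor
      · linarith
      · linarith [ih.2]
    · push Not at h
      exact ⟨ih.1, h⟩

/-- real coefficients in `[0,1]` -/
lemma decompR (I : Finset ℕ) (x : ℕ → ℝ) (hx : ∀ n ∈ I, 0 ≤ x n ∧ x n ≤ 1) (J : ℕ) :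
    ∃ 𝒮 : Finset (Finset ℕ), 𝒮.card ≤ J ∧ (∀ S ∈ 𝒮, S ⊆ I) ∧ ∀ (w : ℕ → ℂ) (V : ℝ), 0 ≤ V →
      (∀ n ∈ I, ‖w n‖ ≤ 1) → (∀ S ∈ 𝒮, ‖∑ n ∈ S, w n‖ ≤ V) →
        ‖∑ n ∈ I, (x n : ℂ) * w n‖ ≤ V + (1 / 2) ^ J * (I.card : ℝ) := by
  classical
  set S : ℕ → Finset ℕ := fun j => I.filter (fun n => (1 / 2 : ℝ) ^ (j + 1) < rem x j n) with hS
  refine ⟨(Finset.range J).image S, ?_, ?_, ?_⟩
  · exact Finset.card_image_le.trans (by simp)
  · intro T hT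
    rw [Finset.mem_image] at hT
    obtain ⟨j, -, rfl⟩ := hT
    exact Finset.filter_subset _ _
  · intro w V hV hw hSV
    have key : ∀ j, ∑ n ∈ I, (x n : ℂ) * w n = (∑ i ∈ Finset.range j, ((1 / 2 : ℝ) ^ (i + 1) : ℝ) *
        ∑ n ∈ S i, w n) + ∑ n ∈ I, (rem x j n : ℂ) * w n := by
      intro j
      induction j with
      | zero => simp [rem]
      | succ j ih =>
        rw [ih, Finset.sum_range_succ, add_assoc]
        congr 1
        have e1 : ∑ n ∈ S j, w n = ∑ n ∈ I, if (1 / 2 : ℝ) ^ (j + 1) < rem x j n then w n else 0 := by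
          rw [hS, Finset.sum_filter]
        rw [e1, Finset.mul_sum, ← Finset.sum_add_distrib]
        refine Finset.sum_congr rfl fun n _ => ?_
        simp only [rem]
        split_ifs with h
        · push_cast
          ring
        · simp
    rw [key J]
    refine (norm_add_le _ _).trans (add_le_add ?_ ?_)
    · calc ‖∑ i ∈ Finset.range J, (((1 / 2 : ℝ) ^ (i + 1) : ℝ) : ℂ) * ∑ n ∈ S i, w n‖
          ≤ ∑ i ∈ Finset.range J, ‖(((1 / 2 : ℝ) ^ (i + 1) : ℝ) : ℂ) * ∑ n ∈ S i, w n‖ := norm_sum_le _ _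
        _ ≤ ∑ i ∈ Finset.range J, (1 / 2 : ℝ) ^ (i + 1) * V := by
            refine Finset.sum_le_sum fun i hi => ?_
            rw [norm_mul, Complex.norm_real, Real.norm_eq_abs, abs_of_pos (by positivity)]
            gcongr
            exact hSV _ (Finset.mem_image_of_mem _ hi)
        _ = (1 - (1 / 2) ^ J) * V := by
            rw [← Finset.sum_mul]
            congr 1
            induction J with
            | zero => simp
            | succ J ih =>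
              rw [Finset.sum_range_succ, ih (by
                intro S' hS'
                apply hSV
                rw [Finset.mem_image] at hS' ⊢
                obtain ⟨i, hi, he⟩ := hS'
                exact ⟨i, Finset.mem_range.2 (by rw [Finset.mem_range] at hi; omega), he⟩)]
              ring
        _ ≤ V := by
            have : (0 : ℝ) ≤ (1 / 2) ^ J := by positivity
            nlinarith
    · calc ‖∑ n ∈ I, (rem x J n : ℂ) * w n‖ ≤ ∑ n ∈ I, ‖(rem x J n : ℂ) * w n‖ := norm_sum_le _ _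
        _ ≤ ∑ n ∈ I, (1 / 2 : ℝ) ^ J := by
            refine Finset.sum_le_sum fun n hn => ?_
            have h1 := rem_bd (hx n hn).1 (hx n hn).2 J
            rw [norm_mul, Complex.norm_real, Real.norm_eq_abs, abs_of_nonneg h1.1]
            calc rem x J n * ‖w n‖ ≤ (1 / 2) ^ J * 1 := by
                  apply mul_le_mul h1.2 (hw n hn) (norm_nonneg _) (by positivity)
              _ = _ := mul_one _
        _ = _ := by rw [Finset.sum_const, nsmul_eq_mul]; ring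

/-- complex coefficients in the unit disc -/
lemma decompC (I : Finset ℕ) (a : ℕ → ℂ) (ha : ∀ n ∈ I, ‖a n‖ ≤ 1) (J : ℕ) :
    ∃ 𝒮 : Finset (Finset ℕ), 𝒮.card ≤ 4 * J ∧ (∀ S ∈ 𝒮, S ⊆ I) ∧ ∀ (w : ℕ → ℂ) (V : ℝ), 0 ≤ V →
      (∀ n ∈ I, ‖w n‖ ≤ 1) → (∀ S ∈ 𝒮, ‖∑ n ∈ S, w n‖ ≤ V) →
        ‖∑ n ∈ I, a n * w n‖ ≤ 4 * (V + (1 / 2) ^ J * (I.card : ℝ)) := by
  classical
  have hre : ∀ n ∈ I, |(a n).re| ≤ 1 := fun n hn => (Complex.abs_re_le_norm _).trans (ha n hn)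
  have him : ∀ n ∈ I, |(a n).im| ≤ 1 := fun n hn => (Complex.abs_im_le_norm _).trans (ha n hn)
  obtain ⟨𝒮₁, c₁, s₁, h₁⟩ := decompR I (fun n => max (a n).re 0) (fun n hn => by
    have := abs_le.1 (hre n hn)
    exact ⟨le_max_right _ _, max_le this.2 (by norm_num)⟩) J
  obtain ⟨𝒮₂, c₂, s₂, h₂⟩ := decompR I (fun n => max (-(a n).re) 0) (fun n hn => by
    have := abs_le.1 (hre n hn)
    exact ⟨le_max_right _ _, max_le (by linarith) (by norm_num)⟩) J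
  obtain ⟨𝒮₃, c₃, s₃, h₃⟩ := decompR I (fun n => max (a n).im 0) (fun n hn => by
    have := abs_le.1 (him n hn)
    exact ⟨le_max_right _ _, max_le this.2 (by norm_num)⟩) J
  obtain ⟨𝒮₄, c₄, s₄, h₄⟩ := decompR I (fun n => max (-(a n).im) 0) (fun n hn => by
    have := abs_le.1 (him n hn)
    exact ⟨le_max_right _ _, max_le (by linarith) (by norm_num)⟩) J
  refine ⟨(𝒮₁ ∪ 𝒮₂) ∪ (𝒮₃ ∪ 𝒮₄), ?_, ?_, ?_⟩
  · have e1 := Finset.card_union_le (𝒮₁ ∪ 𝒮₂) (𝒮₃ ∪ 𝒮₄)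
    have e2 := Finset.card_union_le 𝒮₁ 𝒮₂
    have e3 := Finset.card_union_le 𝒮₃ 𝒮₄
    omega
  · intro S hS
    simp only [Finset.mem_union] at hS
    rcases hS with (h | h) | (h | h)
    · exact s₁ S h
    · exact s₂ S h
    · exact s₃ S h
    · exact s₄ S h
  · intro w V hV hw hSV
    have g₁ := h₁ w V hV hw (fun S hS => hSV S (by simp [hS]))
    have g₂ := h₂ w V hV hw (fun S hS => hSV S (by simp [hS]))
    have g₃ := h₃ w V hV hw (fun S hS => hSV S (by simp [hS]))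
    have g₄ := h₄ w V hV hw (fun S hS => hSV S (by simp [hS]))
    have hmax : ∀ y : ℝ, max y 0 - max (-y) 0 = y := by
      intro y
      rcases le_total 0 y with h | h
      · rw [max_eq_left h, max_eq_right (by linarith)]; ring
      · rw [max_eq_right h, max_eq_left (by linarith)]; ring
    have e : ∑ n ∈ I, a n * w n = (∑ n ∈ I, ((max (a n).re 0 : ℝ) : ℂ) * w n -
        ∑ n ∈ I, ((max (-(a n).re) 0 : ℝ) : ℂ) * w n) + Complex.I * (∑ n ∈ I, ((max (a n).im 0 : ℝ) : ℂ) * w n -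
        ∑ n ∈ I, ((max (-(a n).im) 0 : ℝ) : ℂ) * w n) := by
      rw [← Finset.sum_sub_distrib, ← Finset.sum_sub_distrib, Finset.mul_sum, ← Finset.sum_add_distrib]
      refine Finset.sum_congr rfl fun n _ => ?_
      have q1 : (((a n).re : ℝ) : ℂ) = ((max (a n).re 0 : ℝ) : ℂ) - ((max (-(a n).re) 0 : ℝ) : ℂ) := by
        rw [← Complex.ofReal_sub, hmax]
      have q2 : (((a n).im : ℝ) : ℂ) = ((max (a n).im 0 : ℝ) : ℂ) - ((max (-(a n).im) 0 : ℝ) : ℂ) := by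
        rw [← Complex.ofReal_sub, hmax]
      calc a n * w n = ((((a n).re : ℝ) : ℂ) + (((a n).im : ℝ) : ℂ) * Complex.I) * w n := by
            rw [Complex.re_add_im]
        _ = _ := by rw [q1, q2]; ring
    rw [e]
    refine (norm_add_le _ _).trans ?_
    rw [norm_mul, Complex.norm_I, one_mul]
    have n1 := norm_sub_le (∑ n ∈ I, ((max (a n).re 0 : ℝ) : ℂ) * w n) (∑ n ∈ I, ((max (-(a n).re) 0 : ℝ) : ℂ) * w n)
    have n2 := norm_sub_le (∑ n ∈ I, ((max (a n).im 0 : ℝ) : ℂ) * w n) (∑ n ∈ I, ((max (-(a n).im) 0 : ℝ) : ℂ) * w n)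
    linarith

/-- the set of `a`-points -/
def FZ (N : ℕ) (a : ℂ) (b : ℕ → ℂ) (σ T : ℝ) : Set ℂ := {z | F N a b z = 0 ∧ σ ≤ z.re ∧ 0 < z.im ∧ z.im ≤ T}

lemma FZ_finite {a : ℂ} (ha : a ≠ 0) {N : ℕ} (hN : Big a N) {b : ℕ → ℂ} (hb : ∀ n, ‖b n‖ ≤ 1) (σ T : ℝ) :
    (FZ N a b σ T).Finite := by
  have hN16 := hN.1
  have hcomp : IsCompact (Icc σ 2 ×ℂ Icc 0 T) := isCompact_Icc.reProdIm isCompact_Icc
  by_contra hinf
  have hinf : (FZ N a b σ T).Infinite := hinf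
  obtain ⟨x, hx, hacc⟩ := hinf.exists_accPt_of_subset_isCompact hcomp (fun s hs => by
    refine ⟨⟨hs.2.1, ?_⟩, ⟨hs.2.2.1.le, hs.2.2.2⟩⟩
    by_contra hcon
    push Not at hcon
    exact F_ne ha hN hb (by linarith) hs.1)
  have hfreq : ∃ᶠ z in 𝓝[≠] x, F N a b z = 0 := by
    rw [accPt_iff_frequently_nhdsNE] at hacc
    exact hacc.mono fun z hz => hz.1
  have hz := AnalyticOnNhd.eqOn_zero_of_preconnected_of_frequently_eq_zero
      (f := F N a b) (U := Set.univ) (fun s _ => F_an (by omega) a b s) isPreconnected_univ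
      (Set.mem_univ x) hfreq
  exact F_ne ha hN hb (s := 2) (by simp; norm_num) (hz (Set.mem_univ (2 : ℂ)))

/-- the coefficients 1 on `S` and 0 outside -/
noncomputable def ind (S : Finset ℕ) (n : ℕ) : ℂ := if n ∈ S then 1 else 0

lemma ind_le (S : Finset ℕ) (n : ℕ) : ‖ind S n‖ ≤ 1 := by
  unfold ind
  split_ifs <;> simp

lemma P_ind {N : ℕ} {S : Finset ℕ} (hS : S ⊆ Finset.Icc N (2 * N)) (s : ℂ) :
    P N (ind S) s = ∑ n ∈ S, (n : ℂ) ^ (-s) := by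
  unfold P ind
  simp only [ite_mul, one_mul, zero_mul]
  rw [← Finset.sum_filter]
  congr 1
  ext n
  rw [Finset.mem_filter]
  exact ⟨fun h => h.2, fun h => ⟨hS h, h⟩⟩

/-- zeros of the set polynomials control large values -/
theorem core2 {a : ℂ} (ha : a ≠ 0) {δ : ℝ} (hδ : 0 < δ) (hδ1 : δ ≤ 1 / 12) : ∃ N₀ : ℕ, ∀ N : ℕ, N₀ ≤ N → ∀ σ : ℝ, 1 / 2 + δ ≤ σ → σ ≤ 1 →
    ∀ T R : ℝ, 0 ≤ R → (∀ S : Finset ℕ, S ⊆ Finset.Icc N (2 * N) → ∀ Z : Finset ℂ,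
      (∀ z ∈ Z, F N a (ind S) z = 0 ∧ σ - 4 * δ ≤ z.re ∧ 0 < z.im ∧ z.im ≤ T) →
        ∑ z ∈ Z, (analyticOrderNatAt (F N a (ind S)) z : ℝ) ≤ R) →
    ∀ b : ℕ → ℂ, (∀ n, ‖b n‖ ≤ 1) → ∀ W : Finset ℕ,
      (∀ t ∈ W, (t : ℝ) ≤ T ∧ (N : ℝ) ^ σ < ‖P N b ⟨0, t⟩‖) →
        (W.card : ℝ) ≤ (4 * (Nat.log 2 N + 1)) * (8 * R + 7) := by
  obtain ⟨N₁, h₁⟩ := F_window ha (δ := δ) (κ := δ / 2) hδ hδ1 (by positivity)
  obtain ⟨N₂, h₂⟩ := Filter.eventually_atTop.1 (((tendsto_rpow_atTop (show 0 < δ / 2 by positivity)).comp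
    tendsto_natCast_atTop_atTop).eventually_ge_atTop (16 + 8 * ‖a‖))
  obtain ⟨N₃, h₃⟩ := exists_Big ha
  have hna := norm_nonneg a
  refine ⟨max (max N₁ N₂) N₃, ?_⟩
  intro N hN σ hσ1 hσ2 T R hR hZ b hb W hW
  have hN₁ : N₁ ≤ N := (le_max_left _ _).trans ((le_max_left _ _).trans hN)
  have hN₂ : N₂ ≤ N := (le_max_right _ _).trans ((le_max_left _ _).trans hN)
  have hNB : Big a N := h₃ N ((le_max_right _ _).trans hN)
  have hN16 : 16 ≤ N := hNB.1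
  have hbig : (16 + 8 * ‖a‖ : ℝ) ≤ (N : ℝ) ^ (δ / 2) := h₂ N hN₂
  have hN0 : (0 : ℝ) < N := by
    have : (16 : ℝ) ≤ N := by exact_mod_cast hN16
    linarith
  classical
  obtain ⟨J, hJ⟩ : ∃ J : ℕ, J = Nat.log 2 N + 1 := ⟨_, rfl⟩
  have hJ2 : (1 / 2 : ℝ) ^ J * ((N : ℝ) + 1) ≤ 1 := by
    have h1 : N < 2 ^ J := by rw [hJ]; exact Nat.lt_pow_succ_log_self (by norm_num) N
    have h2 : N + 1 ≤ 2 ^ J := h1
    have h3 : (N : ℝ) + 1 ≤ 2 ^ J := by exact_mod_cast h2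
    rw [one_div, inv_pow, inv_mul_le_iff₀ (by positivity), mul_one]
    exact h3
  obtain ⟨σ₁, hσ₁⟩ : ∃ σ₁ : ℝ, σ₁ = σ - δ := ⟨_, rfl⟩
  have hσ₁0 : 0 ≤ σ₁ := by linarith
  -- the normalised coefficients
  obtain ⟨c, hcd⟩ : ∃ c : ℕ → ℂ, c = fun n => b n * (((n : ℝ) / (2 * N)) ^ σ₁ : ℝ) := ⟨_, rfl⟩
  have ha1 : ∀ n ∈ Finset.Icc N (2 * N), ‖c n‖ ≤ 1 := by
    intro n hn
    rw [Finset.mem_Icc] at hn
    rw [hcd]
    simp only
    rw [norm_mul, Complex.norm_real, Real.norm_eq_abs, abs_of_nonneg (by positivity)]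
    have h1 : ((n : ℝ) / (2 * N)) ^ σ₁ ≤ 1 := by
      apply Real.rpow_le_one (by positivity) _ hσ₁0
      rw [div_le_one (by positivity)]
      exact_mod_cast hn.2
    calc ‖b n‖ * ((n : ℝ) / (2 * N)) ^ σ₁ ≤ 1 * 1 := by
          apply mul_le_mul (hb n) h1 (by positivity) (by norm_num)
      _ = 1 := one_mul 1
  obtain ⟨𝒮, h𝒮, hs, hdec⟩ := decompC (Finset.Icc N (2 * N)) c ha1 J
  have hPa : ∀ t : ℝ, P N b ⟨0, t⟩ = ((2 * N : ℝ) ^ σ₁ : ℝ) * ∑ n ∈ Finset.Icc N (2 * N), c n * (n : ℂ) ^ (-(⟨σ₁, t⟩ : ℂ)) := by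
    intro t
    unfold P
    rw [Finset.mul_sum]
    refine Finset.sum_congr rfl fun n hn => ?_
    rw [Finset.mem_Icc] at hn
    have hn0 : (0 : ℝ) < n := by
      have : 0 < n := by omega
      exact_mod_cast this
    have hn0' : (n : ℂ) ≠ 0 := by exact_mod_cast hn0.ne'
    have e1 : (-(⟨σ₁, t⟩ : ℂ)) = ((-σ₁ : ℝ) : ℂ) + -(⟨0, t⟩ : ℂ) := by
      apply Complex.ext <;> simp
    rw [e1, Complex.cpow_add _ _ hn0', hcd]
    simp only
    have e2 : (n : ℂ) ^ ((-σ₁ : ℝ) : ℂ) = (((n : ℝ) ^ (-σ₁) : ℝ) : ℂ) := by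
      rw [Complex.ofReal_cpow hn0.le]
      simp
    rw [e2]
    have e3 : (2 * (N : ℝ)) ^ σ₁ * ((n : ℝ) / (2 * N)) ^ σ₁ * (n : ℝ) ^ (-σ₁) = 1 := by
      rw [Real.div_rpow hn0.le (by positivity), Real.rpow_neg hn0.le]
      field_simp
    have e4 : ((((2 * (N : ℝ)) ^ σ₁ : ℝ) : ℂ) * (((((n : ℝ) / (2 * N)) ^ σ₁ : ℝ) : ℂ) * (((n : ℝ) ^ (-σ₁) : ℝ) : ℂ))) = 1 := by
      rw [← Complex.ofReal_mul, ← Complex.ofReal_mul, ← mul_assoc, e3, Complex.ofReal_one]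
    calc b n * (n : ℂ) ^ (-(⟨0, t⟩ : ℂ)) = ((((2 * (N : ℝ)) ^ σ₁ : ℝ) : ℂ) * (((((n : ℝ) / (2 * N)) ^ σ₁ : ℝ) : ℂ) * (((n : ℝ) ^ (-σ₁) : ℝ) : ℂ))) *
          (b n * (n : ℂ) ^ (-(⟨0, t⟩ : ℂ))) := by rw [e4, one_mul]
      _ = _ := by ring
  -- a large value gives a set with a large value
  have hstep : ∀ t ∈ W, ∃ S ∈ 𝒮, ∃ z : ℂ, F N a (ind S) z = 0 ∧ σ - 4 * δ ≤ z.re ∧ |z.im - t| ≤ 2 := by
    intro t ht
    by_contra hcon
    push Not at hcon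
    have hsm : ∀ S ∈ 𝒮, ‖∑ n ∈ S, (n : ℂ) ^ (-(⟨σ₁, t⟩ : ℂ))‖ ≤ (N : ℝ) ^ (δ / 2) + ‖a‖ := by
      intro S hS
      have h3 := h₁ N hN₁ (ind S) (ind_le S) σ₁ (by linarith) (by linarith) t (fun z hz1 hz2 hz3 => by
        have := hcon S hS z hz3 (by linarith)
        linarith)
      rw [← P_ind (hs S hS)]
      have h4 : P N (ind S) ⟨σ₁, t⟩ = F N a (ind S) ⟨σ₁, t⟩ + a := by unfold F; ring
      rw [h4]
      refine (norm_add_le _ _).trans ?_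
      linarith
    have h5 := hdec (fun n => (n : ℂ) ^ (-(⟨σ₁, t⟩ : ℂ))) ((N : ℝ) ^ (δ / 2) + ‖a‖) (by positivity) (fun n hn => by
      rw [Finset.mem_Icc] at hn
      have hn0 : 0 < n := by omega
      rw [Complex.norm_natCast_cpow_of_pos hn0, neg_re]
      exact Real.rpow_le_one_of_one_le_of_nonpos (by exact_mod_cast hn0) (by simp only; linarith)) hsm
    have hcard : ((Finset.Icc N (2 * N)).card : ℝ) = N + 1 := by
      rw [Nat.card_Icc]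
      have : 2 * N + 1 - N = N + 1 := by omega
      rw [this]
      push_cast
      ring
    rw [hcard] at h5
    have h6 := (hW t ht).2
    rw [hPa, norm_mul, Complex.norm_real, Real.norm_eq_abs, abs_of_nonneg (by positivity)] at h6
    have h7 : (2 * (N : ℝ)) ^ σ₁ ≤ 2 * (N : ℝ) ^ σ₁ := by
      rw [Real.mul_rpow (by norm_num) hN0.le]
      gcongr
      calc (2 : ℝ) ^ σ₁ ≤ 2 ^ (1 : ℝ) := Real.rpow_le_rpow_of_exponent_le (by norm_num) (by linarith)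
        _ = 2 := Real.rpow_one 2
    have h8 : (N : ℝ) ^ σ = (N : ℝ) ^ σ₁ * ((N : ℝ) ^ (δ / 2) * (N : ℝ) ^ (δ / 2)) := by
      rw [← Real.rpow_add hN0, ← Real.rpow_add hN0]
      congr 1
      rw [hσ₁]
      ring
    have hx : 0 < (N : ℝ) ^ σ₁ := Real.rpow_pos_of_pos hN0 _
    rw [h8] at h6
    have h9 : (2 * (N : ℝ)) ^ σ₁ * ‖∑ n ∈ Finset.Icc N (2 * N), c n * (n : ℂ) ^ (-(⟨σ₁, t⟩ : ℂ))‖ ≤
        (2 * (N : ℝ) ^ σ₁) * (4 * ((N : ℝ) ^ (δ / 2) + ‖a‖ + 1)) := by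
      apply mul_le_mul h7 (h5.trans (by linarith)) (norm_nonneg _) (by positivity)
    have h10 : (N : ℝ) ^ (δ / 2) * (N : ℝ) ^ (δ / 2) < 2 * (4 * ((N : ℝ) ^ (δ / 2) + ‖a‖ + 1)) := by
      have := h6.trans_le h9
      rw [mul_comm (2 : ℝ) ((N : ℝ) ^ σ₁), mul_assoc] at this
      exact lt_of_mul_lt_mul_left this hx.le
    nlinarith
  -- counting
  have hcount : ∀ S ∈ 𝒮, ∀ Q : Finset ℕ, (∀ t ∈ Q, (t : ℝ) ≤ T ∧ ∃ z : ℂ, F N a (ind S) z = 0 ∧
      σ - 4 * δ ≤ z.re ∧ |z.im - t| ≤ 2) → (Q.card : ℝ) ≤ 8 * R + 7 := by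
    intro S hS Q hQ
    have hfin := FZ_finite ha hNB (ind_le S) (σ - 4 * δ) T
    have hR' : (SD.cntf (F N a (ind S)) (FZ N a (ind S) (σ - 4 * δ) T) : ℝ) ≤ R := by
      rw [SD.cntf_eq hfin]
      push_cast
      exact hZ S (hs S hS) hfin.toFinset (fun z hz => by
        rw [Set.Finite.mem_toFinset] at hz
        exact hz)
    set Q' : Finset ℕ := Q.filter (fun t : ℕ => 3 ≤ t ∧ (t : ℝ) + 2 ≤ T) with hQ'
    have hch : ∀ t : ℕ, ∃ z : ℂ, t ∈ Q' → z ∈ FZ N a (ind S) (σ - 4 * δ) T ∧ |z.im - t| ≤ 3 := by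
      intro t
      by_cases ht : t ∈ Q'
      · rw [hQ', Finset.mem_filter] at ht
        obtain ⟨z, hz1, hz2, hz3⟩ := (hQ t ht.1).2
        refine ⟨z, fun _ => ⟨⟨hz1, hz2, ?_, ?_⟩, by linarith⟩⟩
        · have := (abs_le.1 hz3).1
          have h3 : (3 : ℝ) ≤ t := by exact_mod_cast ht.2.1
          linarith
        · have := (abs_le.1 hz3).2
          linarith [ht.2.2]
      · exact ⟨0, fun h => absurd h ht⟩
    choose z hz using hch
    have h1 := SD.class_count hfin (fun z hz => F_order ha hNB (ind_le S) hz.1) Q' z (fun n hn => hz n hn)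
    -- the remaining points
    have h2 : Q ⊆ (Q' ∪ Finset.range 3) ∪ Finset.Ioc (⌊T⌋₊ - 3) (⌊T⌋₊) := by
      intro t ht
      simp only [Finset.mem_union, Finset.mem_range, Finset.mem_Ioc]
      by_cases h3 : 3 ≤ t
      · by_cases h4 : (t : ℝ) + 2 ≤ T
        · left; left
          rw [hQ', Finset.mem_filter]
          exact ⟨ht, h3, h4⟩
        · right
          push Not at h4
          have h5 := (hQ t ht).1
          have h6 : t ≤ ⌊T⌋₊ := Nat.le_floor h5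
          refine ⟨?_, h6⟩
          have hT0 : 0 ≤ T := (Nat.cast_nonneg t).trans h5
          have h7 := Nat.floor_le hT0
          have h8 : ((⌊T⌋₊ : ℕ) : ℝ) < (t : ℝ) + 2 := by linarith
          have h9 : ⌊T⌋₊ < t + 2 := by exact_mod_cast h8
          omega
      · left; right
        omega
    have h3 : Q.card ≤ Q'.card + 3 + 3 := by
      calc Q.card ≤ ((Q' ∪ Finset.range 3) ∪ Finset.Ioc (⌊T⌋₊ - 3) (⌊T⌋₊)).card := Finset.card_le_card h2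
        _ ≤ (Q' ∪ Finset.range 3).card + (Finset.Ioc (⌊T⌋₊ - 3) (⌊T⌋₊)).card := Finset.card_union_le _ _
        _ ≤ Q'.card + (Finset.range 3).card + (Finset.Ioc (⌊T⌋₊ - 3) (⌊T⌋₊)).card := by
            gcongr
            exact Finset.card_union_le _ _
        _ ≤ Q'.card + 3 + 3 := by
            rw [Finset.card_range, Nat.card_Ioc]
            omega
    have h4 : (Q.card : ℝ) ≤ Q'.card + 3 + 3 := by exact_mod_cast h3
    linarith
  -- assembling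
  have hW' : W ⊆ 𝒮.biUnion (fun S => W.filter (fun t : ℕ => ∃ z : ℂ, F N a (ind S) z = 0 ∧ σ - 4 * δ ≤ z.re ∧
      |z.im - (t : ℝ)| ≤ 2)) := by
    intro t ht
    rw [Finset.mem_biUnion]
    obtain ⟨S, hS, z, hz⟩ := hstep t ht
    exact ⟨S, hS, Finset.mem_filter.2 ⟨ht, z, hz⟩⟩
  calc (W.card : ℝ) ≤ ((𝒮.biUnion (fun S => W.filter (fun t : ℕ => ∃ z : ℂ, F N a (ind S) z = 0 ∧ σ - 4 * δ ≤ z.re ∧
      |z.im - (t : ℝ)| ≤ 2))).card : ℝ) := by exact_mod_cast Finset.card_le_card hW'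
    _ ≤ ∑ S ∈ 𝒮, ((W.filter (fun t : ℕ => ∃ z : ℂ, F N a (ind S) z = 0 ∧ σ - 4 * δ ≤ z.re ∧
      |z.im - (t : ℝ)| ≤ 2)).card : ℝ) := by exact_mod_cast Finset.card_biUnion_le
    _ ≤ ∑ S ∈ 𝒮, (8 * R + 7) := by
        refine Finset.sum_le_sum fun S hS => hcount S hS _ fun t ht => ?_
        rw [Finset.mem_filter] at ht
        exact ⟨(hW t ht.1).1, ht.2⟩
    _ = (𝒮.card : ℝ) * (8 * R + 7) := by rw [Finset.sum_const, nsmul_eq_mul]
    _ ≤ (4 * (Nat.log 2 N + 1)) * (8 * R + 7) := by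
        have h1 : (𝒮.card : ℝ) ≤ 4 * J := by exact_mod_cast h𝒮
        rw [hJ] at h1
        push_cast at h1
        gcongr

end Pool.Agent.TH804.DP
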