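import Mathlib

/-! Area sub-mean value property of `log⁺ |w|` (as in the file of `MP_6ac3f6_an`) and its consequence for
large values. -/

set_option autoImplicit false

open Set Filter Topology Metric MeasureTheory

namespace Pool.Agent.TH804.LV

lemma posLog_submean {w : ℂ → ℂ} {c : ℂ} {t : ℝ} (ht : 0 < t)
    (hw : AnalyticOnNhd ℂ w (closedBall c t)) :
    Real.posLog ‖w c‖ ≤ Real.circleAverage (fun z => Real.posLog ‖w z‖) c t := by
  have habs : |t| = t := abs_of_pos ht
  rcases le_or_gt ‖w c‖ 1 with h1 | h1
  · have : Real.posLog ‖w c‖ = 0 := by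
      rw [Real.posLog_eq_zero_iff]; simpa using h1
    rw [this]
    exact Real.circleAverage_nonneg_of_nonneg fun z _ => Real.posLog_nonneg
  · have hc0 : w c ≠ 0 := by
      intro h; rw [h] at h1; simp at h1; linarith
    have hj := AnalyticOnNhd.circleAverage_log_norm (c := c) (R := t) (f := w) ht.ne'
      (by rw [habs]; exact hw) hc0
    rw [habs] at hj
    have hfs : 0 ≤ ∑ᶠ u, (MeromorphicOn.divisor w (closedBall c t) u : ℝ) *
        Real.log (t * ‖c - u‖⁻¹) := by
      apply finsum_nonneg
      intro u
      by_cases hu : u ∈ closedBall c t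
      · have h2 : 0 ≤ MeromorphicOn.divisor w (closedBall c t) u :=
          MeromorphicOn.AnalyticOnNhd.divisor_nonneg hw u
        refine mul_nonneg (by exact_mod_cast h2) ?_
        rcases eq_or_ne c u with rfl | hcu
        · simp
        · have h3 : 0 < ‖c - u‖ := norm_pos_iff.2 (sub_ne_zero.2 hcu)
          apply Real.log_nonneg
          rw [← div_eq_mul_inv, one_le_div h3]
          rw [mem_closedBall, dist_comm, dist_eq_norm] at hu
          exact hu
      · simp [hu]
    have h4 : Real.posLog ‖w c‖ = Real.log ‖w c‖ := Real.posLog_eq_log (by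
      rw [abs_of_nonneg (norm_nonneg _)]; exact h1.le)
    have hm : MeromorphicOn w (sphere c |t|) := by
      rw [habs]; exact (hw.mono sphere_subset_closedBall).meromorphicOn
    have h5 : Real.circleAverage (fun z => Real.log ‖w z‖) c t ≤
        Real.circleAverage (fun z => Real.posLog ‖w z‖) c t :=
      Real.circleAverage_mono hm.circleIntegrable_log_norm hm.circleIntegrable_posLog_norm
        fun z _ => by rw [Real.posLog_apply]; exact le_max_right _ _
    rw [h4]
    linarith

lemma area_submean {w : ℂ → ℂ} {c : ℂ} {t : ℝ} (ht : 0 < t)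
    (hw : AnalyticOnNhd ℂ w (closedBall c t)) :
    Real.pi * t ^ 2 * Real.posLog ‖w c‖ ≤ ∫ z in ball c t, Real.posLog ‖w z‖ := by
  set V : ℂ → ℝ := fun z => Real.posLog ‖w z‖ with hV
  have hVc : ContinuousOn V (closedBall c t) :=
    Real.continuous_posLog.comp_continuousOn hw.continuousOn.norm
  -- the polar parametrisation
  set Φ : ℝ × ℝ → ℂ := fun p => circleMap c p.1 p.2 with hΦ
  have hΦc : Continuous Φ := by
    simp only [hΦ, circleMap]; fun_prop
  have hΦm : ∀ p : ℝ × ℝ, 0 ≤ p.1 → p.1 ≤ t → Φ p ∈ closedBall c t := by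
    intro p h0 h1
    simp only [hΦ, mem_closedBall, dist_eq_norm, circleMap_sub_center, norm_circleMap_zero,
      abs_of_nonneg h0]
    exact h1
  have hcont : ContinuousOn (fun p : ℝ × ℝ => p.1 * V (Φ p)) (Icc 0 t ×ˢ Icc (-Real.pi) Real.pi) :=
    continuous_fst.continuousOn.mul (hVc.comp hΦc.continuousOn fun p hp =>
      hΦm p hp.1.1 hp.1.2)
  have hint : IntegrableOn (fun p : ℝ × ℝ => p.1 * V (Φ p)) (Ioo 0 t ×ˢ Ioo (-Real.pi) Real.pi)
      (volume.prod volume) := by
    have := hcont.integrableOn_compact (μ := volume) (isCompact_Icc.prod isCompact_Icc)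
    exact this.mono_set (prod_mono Ioo_subset_Icc_self Ioo_subset_Icc_self)
  have h1 : ∫ z in ball c t, V z = ∫ p in Ioo 0 t ×ˢ Ioo (-Real.pi) Real.pi, p.1 * V (Φ p)
      ∂(volume.prod volume) := by
    have e1 : ∫ z in ball c t, V z = ∫ z, (ball c t).indicator V (c + z) := by
      rw [integral_add_left_eq_self (fun z => (ball c t).indicator V z) c]
      exact (integral_indicator measurableSet_ball).symm
    rw [e1, ← Complex.integral_comp_polarCoord_symm, polarCoord_target,
      ← integral_indicator (measurableSet_Ioi.prod measurableSet_Ioo),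
      ← Measure.volume_eq_prod, ← integral_indicator (measurableSet_Ioo.prod measurableSet_Ioo)]
    congr 1
    ext p
    have hp : c + Complex.polarCoord.symm p = Φ p := by
      rw [Complex.polarCoord_symm_apply]
      simp only [hΦ, circleMap, Complex.exp_mul_I, Complex.ofReal_cos, Complex.ofReal_sin]
    by_cases hp1 : p ∈ Ioi (0 : ℝ) ×ˢ Ioo (-Real.pi) Real.pi
    · rw [indicator_of_mem hp1, hp, smul_eq_mul]
      by_cases hp2 : p.1 < t
      · have m1 : Φ p ∈ ball c t := by
          simp only [hΦ, mem_ball, dist_eq_norm, circleMap_sub_center, norm_circleMap_zero,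
            abs_of_pos (show 0 < p.1 from hp1.1)]
          exact hp2
        rw [indicator_of_mem m1, indicator_of_mem (show p ∈ Ioo 0 t ×ˢ Ioo (-Real.pi) Real.pi from
          ⟨⟨hp1.1, hp2⟩, hp1.2⟩)]
      · have m1 : Φ p ∉ ball c t := by
          simp only [hΦ, mem_ball, dist_eq_norm, circleMap_sub_center, norm_circleMap_zero,
            abs_of_pos (show 0 < p.1 from hp1.1)]
          exact hp2
        rw [indicator_of_notMem m1, indicator_of_notMem (fun h => hp2 h.1.2), mul_zero]
    · rw [indicator_of_notMem hp1, indicator_of_notMem (fun h => hp1 ⟨h.1.1, h.2⟩)]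
  rw [h1, setIntegral_prod _ hint]
  have hinner : ∀ ρ : ℝ, ρ ∈ Ioo 0 t → 2 * Real.pi * V c * ρ ≤
      ∫ φ in Ioo (-Real.pi) Real.pi, ρ * V (Φ (ρ, φ)) := by
    intro ρ hρ
    have hs := posLog_submean (w := w) (c := c) (t := ρ) hρ.1
      (hw.mono (closedBall_subset_closedBall hρ.2.le))
    have e2 : ∫ φ in Ioo (-Real.pi) Real.pi, ρ * V (Φ (ρ, φ)) =
        ρ * (2 * Real.pi * Real.circleAverage V c ρ) := by
      rw [integral_const_mul, Real.circleAverage_eq_integral_add (-Real.pi),
        intervalIntegral.integral_comp_add_right (fun x => V (circleMap c ρ x)),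
        ← integral_Ioc_eq_integral_Ioo, ← intervalIntegral.integral_of_le (by
          linarith [Real.pi_pos])]
      have : (2 * Real.pi + -Real.pi) = Real.pi := by ring
      rw [this, zero_add, smul_eq_mul]
      simp only [hΦ]
      field_simp
    rw [e2]
    have : V c ≤ Real.circleAverage V c ρ := hs
    have hπ := Real.pi_pos
    have hρ0 := hρ.1
    nlinarith [mul_le_mul_of_nonneg_left this (show 0 ≤ 2 * Real.pi * ρ by positivity)]
  have hI1 : IntegrableOn (fun ρ : ℝ => 2 * Real.pi * V c * ρ) (Ioo 0 t) :=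
    ((continuous_const.mul continuous_id).continuousOn.integrableOn_compact
      (isCompact_Icc (a := 0) (b := t))).mono_set Ioo_subset_Icc_self
  have hI2 : IntegrableOn (fun ρ : ℝ => ∫ φ in Ioo (-Real.pi) Real.pi, ρ * V (Φ (ρ, φ)))
      (Ioo 0 t) := by
    have := hint
    rw [IntegrableOn, ← Measure.prod_restrict] at this
    exact this.integral_prod_left
  refine le_trans (le_of_eq ?_) (setIntegral_mono_on hI1 hI2 measurableSet_Ioo hinner)
  rw [← integral_Ioc_eq_integral_Ioo, ← intervalIntegral.integral_of_le ht.le,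
    intervalIntegral.integral_const_mul, integral_id]
  ring


/-- **a large value at the centre gives large values on a positive proportion of the disc** -/
lemma area_large {w : ℂ → ℂ} {c : ℂ} {t V M : ℝ} (ht : 0 < t) (hV : 1 < V) (hM : 1 < M)
    (hw : AnalyticOnNhd ℂ w (closedBall c t)) (hwM : ∀ z ∈ ball c t, ‖w z‖ ≤ M)
    (hc : V ^ 2 ≤ ‖w c‖) :
    Real.pi * t ^ 2 * Real.log V / Real.log M ≤ (volume (ball c t ∩ {z | V ≤ ‖w z‖})).toReal := by
  have hlogV : 0 < Real.log V := Real.log_pos hV
  have hlogM : 0 < Real.log M := Real.log_pos hM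
  set F : ℂ → ℝ := fun z => Real.posLog ‖w z‖ with hF
  have hFc : ContinuousOn F (closedBall c t) :=
    Real.continuous_posLog.comp_continuousOn hw.continuousOn.norm
  have hcont : ContinuousOn (fun z => ‖w z‖) (ball c t) := (hw.continuousOn.mono ball_subset_closedBall).norm
  have hmeas : MeasurableSet (ball c t ∩ {z | V ≤ ‖w z‖}) := by
    have h1 : ball c t ∩ {z | V ≤ ‖w z‖} = ball c t ∩ ((fun z => ‖w z‖) ⁻¹' Ici V) := rfl
    rw [h1]
    obtain ⟨U, hU, hU2⟩ := continuousOn_iff'.1 hcont (Iio V) isOpen_Iio
    have h2 : ball c t ∩ ((fun z => ‖w z‖) ⁻¹' Ici V) = ball c t \ U := by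
      ext z
      have h3 : z ∈ (fun z => ‖w z‖) ⁻¹' Iio V ∩ ball c t ↔ z ∈ U ∩ ball c t := by rw [hU2]
      simp only [mem_inter_iff, mem_preimage, mem_Iio, mem_Ici, Set.mem_sdiff] at h3 ⊢
      constructor
      · rintro ⟨a, b⟩
        refine ⟨a, fun hzU => ?_⟩
        have := h3.2 ⟨hzU, a⟩
        linarith [this.1]
      · rintro ⟨a, b⟩
        refine ⟨a, ?_⟩
        by_contra hcon
        push Not at hcon
        exact b (h3.1 ⟨hcon, a⟩).1
    rw [h2]
    exact measurableSet_ball.diff hU.measurableSet
  have hvol : volume (ball c t) = ENNReal.ofReal (Real.pi * t ^ 2) := by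
    rw [Complex.volume_ball]
    rw [mul_comm, ENNReal.ofReal_mul Real.pi_pos.le, ENNReal.ofReal_pow ht.le]
    congr 1
    rw [← ENNReal.ofReal_coe_nnreal]
    rfl
  have hvol' : (volume (ball c t)).toReal = Real.pi * t ^ 2 := by
    rw [hvol, ENNReal.toReal_ofReal (by positivity)]
  have hfin : volume (ball c t) ≠ ⊤ := by rw [hvol]; exact ENNReal.ofReal_ne_top
  have hfin2 : volume (ball c t ∩ {z | V ≤ ‖w z‖}) ≠ ⊤ := measure_ne_top_of_subset inter_subset_left hfin
  set E := ball c t ∩ {z | V ≤ ‖w z‖} with hE
  have hJ1 : Integrable (fun _ : ℂ => Real.log V) (volume.restrict (ball c t)) :=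
    integrableOn_const hfin
  have hJ2 : Integrable (fun z => E.indicator (fun _ => Real.log M) z) (volume.restrict (ball c t)) := by
    have h1 : Integrable (E.indicator (fun _ => Real.log M)) volume := by
      rw [integrable_indicator_iff hmeas]
      exact integrableOn_const hfin2
    exact h1.restrict
  -- upper bound of the integral
  have hub : ∫ z in ball c t, F z ≤ ∫ z in ball c t, (Real.log V + E.indicator (fun _ => Real.log M) z) := by
    have hI1 : IntegrableOn F (ball c t) :=
      (hFc.integrableOn_compact (isCompact_closedBall c t)).mono_set ball_subset_closedBall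
    have hI2 : IntegrableOn (fun z => Real.log V + E.indicator (fun _ => Real.log M) z) (ball c t) :=
      hJ1.add hJ2
    refine setIntegral_mono_on hI1 hI2 measurableSet_ball fun z hz => ?_
    by_cases hz2 : z ∈ E
    · rw [indicator_of_mem hz2]
      have h1 := Real.posLog_le_posLog (norm_nonneg _) (hwM z hz)
      rw [Real.posLog_eq_log (x := M) (by rw [abs_of_pos (by linarith)]; exact hM.le)] at h1
      have : F z ≤ Real.log M := h1
      linarith
    · rw [indicator_of_notMem hz2, add_zero]
      have h2 : ‖w z‖ ≤ V := by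
        by_contra hcon
        push Not at hcon
        exact hz2 ⟨hz, hcon.le⟩
      have h1 := Real.posLog_le_posLog (norm_nonneg _) h2
      rwa [Real.posLog_eq_log (x := V) (by rw [abs_of_pos (by linarith)]; exact hV.le)] at h1
  have hval : ∫ z in ball c t, (Real.log V + E.indicator (fun _ => Real.log M) z) =
      Real.pi * t ^ 2 * Real.log V + (volume E).toReal * Real.log M := by
    rw [integral_add hJ1 hJ2]
    rw [setIntegral_const, setIntegral_indicator hmeas, smul_eq_mul, measureReal_def, hvol']
    have : ball c t ∩ E = E := by rw [hE, ← inter_assoc, inter_self]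
    rw [this, setIntegral_const, smul_eq_mul, measureReal_def]
  have hlow := area_submean ht hw
  have hc1 : 2 * Real.log V ≤ Real.posLog ‖w c‖ := by
    rw [Real.posLog_apply]
    refine le_trans ?_ (le_max_right _ _)
    have : Real.log (V ^ 2) = 2 * Real.log V := by rw [Real.log_pow]; push_cast; ring
    rw [← this]
    exact Real.log_le_log (by positivity) hc
  rw [div_le_iff₀ hlogM]
  have hπ : 0 < Real.pi * t ^ 2 := by have := Real.pi_pos; positivity
  nlinarith [mul_le_mul_of_nonneg_left hc1 hπ.le]

end Pool.Agent.TH804.LV
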