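import Pool.Agent.TH804.DP2
import Pool.Agent.TH804.LV4

/-! Large values control zeros. -/

set_option autoImplicit false

open Complex Metric Set Filter Topology MeasureTheory

namespace Pool.Agent.TH804.DP

open Pool.Agent.TH804.SD (cntf cntf_eq wi wi_spec win_count)

/-- moving along a vertical line and to the line `Re s = 0` -/
lemma P_shift {N : ℕ} (hN : 1 ≤ N) {b : ℕ → ℂ} (hb : ∀ n, ‖b n‖ ≤ 1) {x v : ℝ} (hx : 0 ≤ x) :
    ∃ b' : ℕ → ℂ, (∀ n, ‖b' n‖ ≤ 1) ∧ ∀ m : ℝ, P N b ⟨x, m + v⟩ = ((N : ℝ) ^ (-x) : ℝ) * P N b' ⟨0, m⟩ := by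
  have hN0 : (0 : ℝ) < N := by exact_mod_cast hN
  refine ⟨fun n => if n ∈ Finset.Icc N (2 * N) then b n * (((N : ℝ) ^ x : ℝ) * (n : ℂ) ^ (-(⟨x, v⟩ : ℂ))) else 0,
    fun n => ?_, fun m => ?_⟩
  · simp only
    split_ifs with h
    · rw [Finset.mem_Icc] at h
      have hn0 : 0 < n := by omega
      rw [norm_mul, norm_mul, Complex.norm_natCast_cpow_of_pos hn0, neg_re, Complex.norm_real, Real.norm_eq_abs,
        abs_of_nonneg (by positivity)]
      have h1 : (n : ℝ) ^ (-x) ≤ (N : ℝ) ^ (-x) :=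
        Real.rpow_le_rpow_of_nonpos hN0 (by exact_mod_cast h.1) (by linarith)
      calc ‖b n‖ * ((N : ℝ) ^ x * (n : ℝ) ^ (-x)) ≤ 1 * ((N : ℝ) ^ x * (N : ℝ) ^ (-x)) := by
            gcongr
            exact hb n
        _ = 1 := by rw [one_mul, ← Real.rpow_add hN0, add_neg_cancel, Real.rpow_zero]
    · simp
  · unfold P
    rw [Finset.mul_sum]
    refine Finset.sum_congr rfl fun n hn => ?_
    simp only [hn, if_true]
    rw [Finset.mem_Icc] at hn
    have hn0 : (n : ℂ) ≠ 0 := by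
      have : n ≠ 0 := by omega
      exact_mod_cast this
    have e1 : (-(⟨x, m + v⟩ : ℂ)) = -(⟨x, v⟩ : ℂ) + -(⟨0, m⟩ : ℂ) := by
      apply Complex.ext
      · simp
      · simp
    rw [e1, Complex.cpow_add _ _ hn0]
    have e2 : (((N : ℝ) ^ (-x) : ℝ) : ℂ) * (((N : ℝ) ^ x : ℝ) : ℂ) = 1 := by
      rw [← Complex.ofReal_mul, ← Real.rpow_add hN0, neg_add_cancel, Real.rpow_zero, Complex.ofReal_one]
    calc b n * ((n : ℂ) ^ (-(⟨x, v⟩ : ℂ)) * (n : ℂ) ^ (-(⟨0, m⟩ : ℂ))) =
        ((((N : ℝ) ^ (-x) : ℝ) : ℂ) * (((N : ℝ) ^ x : ℝ) : ℂ)) * (b n * ((n : ℂ) ^ (-(⟨x, v⟩ : ℂ)) * (n : ℂ) ^ (-(⟨0, m⟩ : ℂ)))) := by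
          rw [e2, one_mul]
      _ = _ := by ring

/-- large values control zeros -/
theorem core1 {a : ℂ} (ha : a ≠ 0) {η : ℝ} (hη : 0 < η) (hη1 : η ≤ 1 / 8) : ∃ C : ℝ, 0 < C ∧ ∃ N₀ : ℕ, ∀ N : ℕ, N₀ ≤ N → ∀ σ : ℝ,
    1 / 2 ≤ σ → ∀ T R : ℝ, 0 ≤ R →
    (∀ b : ℕ → ℂ, (∀ n, ‖b n‖ ≤ 1) → ∀ W : Finset ℕ,
      (∀ t ∈ W, (t : ℝ) ≤ T ∧ (N : ℝ) ^ (σ - 2 * η) < ‖P N b ⟨0, t⟩‖) → (W.card : ℝ) ≤ R) →
    ∀ b : ℕ → ℂ, (∀ n, ‖b n‖ ≤ 1) → ∀ Z : Finset ℂ, (∀ z ∈ Z, F N a b z = 0 ∧ σ ≤ z.re ∧ 0 < z.im ∧ z.im ≤ T) →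
      ∑ z ∈ Z, (analyticOrderNatAt (F N a b) z : ℝ) ≤ C * Real.log N ^ 2 * R := by
  obtain ⟨C₁, hC₁, hloc⟩ := F_loc ha
  obtain ⟨N₁, h₁⟩ := Filter.eventually_atTop.1 (((tendsto_rpow_atTop hη).comp
    tendsto_natCast_atTop_atTop).eventually_ge_atTop (2 / ‖a‖))
  obtain ⟨N₂, h₂⟩ := Filter.eventually_atTop.1 ((tendsto_natCast_atTop_atTop (R := ℝ)).eventually_ge_atTop (2 / ‖a‖))
  obtain ⟨N₃, h₃⟩ := exists_Big ha
  have ha0 : 0 < ‖a‖ := norm_pos_iff.2 ha
  obtain ⟨D, hD⟩ : ∃ D : ℝ, D = Real.pi * η ^ 2 * Real.log 2 := ⟨_, rfl⟩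
  have hlog2 : 0 < Real.log 2 := Real.log_pos (by norm_num)
  have hD0 : 0 < D := by rw [hD]; positivity
  refine ⟨C₁ * (16 * Real.pi * 3 / D), by positivity, max (max N₃ N₁) N₂, ?_⟩
  intro N hN σ hσ T R hR hLV b hb Z hZ
  have hNB : Big a N := h₃ N ((le_max_left _ _).trans ((le_max_left _ _).trans hN))
  have hN16 : 16 ≤ N := hNB.1
  have hN1 : 1 ≤ N := by omega
  have hN2 : 2 / ‖a‖ ≤ (N : ℝ) ^ η := h₁ N ((le_max_right _ _).trans ((le_max_left _ _).trans hN))
  have hN3 : 2 / ‖a‖ ≤ (N : ℝ) := h₂ N ((le_max_right _ _).trans hN)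
  have hNr : (16 : ℝ) ≤ N := by exact_mod_cast hN16
  have hN0 : (0 : ℝ) < N := by linarith
  have hlogN : 0 < Real.log N := Real.log_pos (by linarith)
  have hfin := FZ_finite ha hNB hb σ T
  classical
  -- all zeros
  have s1 : ∑ z ∈ Z, (analyticOrderNatAt (F N a b) z : ℝ) ≤ (cntf (F N a b) (FZ N a b σ T) : ℝ) := by
    rw [cntf_eq hfin]
    push_cast
    apply Finset.sum_le_sum_of_subset_of_nonneg
    · intro z hz
      rw [Set.Finite.mem_toFinset]
      exact hZ z hz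
    · intro z _ _
      positivity
  have s2 := win_count (f := F N a b) (A := FZ N a b σ T) (B := C₁ * Real.log N) hfin (fun z hz => hz.2.2.1)
    (fun n W hW => hloc N hNB b hb n W (fun z hz => ⟨(hW z hz).1.1, hσ.trans (hW z hz).1.2.1, (hW z hz).2⟩))
  set M := hfin.toFinset.image wi with hM
  -- a zero in each window
  have hch : ∀ n : ℕ, ∃ z : ℂ, n ∈ M → z ∈ FZ N a b σ T ∧ (n : ℝ) < z.im ∧ z.im ≤ n + 1 := by
    intro n
    by_cases hn : n ∈ M
    · rw [hM, Finset.mem_image] at hn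
      obtain ⟨z, hz, he⟩ := hn
      rw [Set.Finite.mem_toFinset] at hz
      have := wi_spec hz.2.2.1
      rw [he] at this
      exact ⟨z, fun _ => ⟨hz, this⟩⟩
    · exact ⟨0, fun h => absurd h hn⟩
  choose s hs using hch
  -- the test function
  set V : ℂ → ℝ := fun z => Real.posLog ‖2 / a * P N b z‖ with hV
  have hPan : ∀ z, AnalyticAt ℂ (fun z => 2 / a * P N b z) z := fun z => analyticAt_const.mul (P_an hN1 b z)
  have hPc : Continuous (fun z => 2 / a * P N b z) := continuous_iff_continuousAt.2 fun z => (hPan z).continuousAt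
  have hVc : Continuous V := Real.continuous_posLog.comp hPc.norm
  have hV0 : ∀ z, 0 ≤ V z := fun z => Real.posLog_nonneg
  set K : Set ℂ := Icc (σ - η) 2 ×ℂ Icc (-1) 2 with hK
  have hKc : IsCompact K := isCompact_Icc.reProdIm isCompact_Icc
  have hKm : MeasurableSet K := hKc.measurableSet
  -- the volume of K
  have hKv : (volume K).toReal ≤ 16 * Real.pi * 1 := by
    have h1 : K ⊆ closedBall 0 4 := by
      intro z hz
      obtain ⟨⟨h1, h2⟩, h3, h4⟩ := hz
      rw [mem_closedBall, dist_zero_right]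
      have := Complex.norm_le_abs_re_add_abs_im z
      have h5 : |z.re| ≤ 2 := abs_le.2 ⟨by linarith, h2⟩
      have h6 : |z.im| ≤ 2 := abs_le.2 ⟨by linarith, h4⟩
      linarith
    have h2 : volume K ≤ volume (closedBall (0 : ℂ) 4) := measure_mono h1
    rw [Complex.volume_closedBall] at h2
    have h3 : (volume K).toReal ≤ (ENNReal.ofReal 4 ^ 2 * (NNReal.pi : ENNReal)).toReal :=
      ENNReal.toReal_mono (by finiteness) h2
    refine h3.trans (le_of_eq ?_)
    rw [ENNReal.toReal_mul, ENNReal.toReal_pow, ENNReal.toReal_ofReal (by norm_num)]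
    simp
    norm_num
  have hint : ∀ n : ℕ, IntegrableOn (fun z => V (z + (n : ℂ) * I)) K :=
    fun n => (hVc.comp (by fun_prop : Continuous fun z : ℂ => z + (n : ℂ) * I)).continuousOn.integrableOn_compact hKc
  -- the area inequality
  have harea : ∀ n ∈ M, D ≤ ∫ z in K, V (z + (n : ℂ) * I) := by
    intro n hn
    obtain ⟨h1, h2, h3⟩ := hs n hn
    have h4 := LV.area_submean (w := fun z => 2 / a * P N b (z + (n : ℂ) * I)) (c := s n - (n : ℂ) * I) (t := η) hη
      (fun z _ => by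
        have h5 : AnalyticAt ℂ (fun z : ℂ => z + (n : ℂ) * I) z := by fun_prop
        exact (hPan (z + (n : ℂ) * I)).comp_of_eq h5 rfl)
    have h5 : P N b (s n) = a := by
      have := h1.1
      unfold F at this
      linear_combination this
    rw [sub_add_cancel, h5] at h4
    have h6 : Real.posLog ‖(2 : ℂ) / a * a‖ = Real.log 2 := by
      have : ‖(2 : ℂ) / a * a‖ = 2 := by rw [div_mul_cancel₀ _ ha]; simp
      rw [this, Real.posLog_eq_log (by norm_num)]
    rw [h6, ← hD] at h4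
    refine h4.trans ?_
    have hsub : ball (s n - (n : ℂ) * I) η ⊆ K := by
      intro z hz
      rw [mem_ball, dist_eq_norm] at hz
      have g1 := abs_lt.1 ((Complex.abs_re_le_norm _).trans_lt hz)
      have g2 := abs_lt.1 ((Complex.abs_im_le_norm _).trans_lt hz)
      simp only [sub_re, sub_im, mul_re, mul_im, natCast_re, natCast_im, I_re, I_im, mul_zero, mul_one, zero_mul,
        sub_zero, add_zero, zero_add] at g1 g2
      have g3 : (s n).re < 3 / 2 := by
        by_contra hcon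
        push Not at hcon
        exact F_ne ha hNB hb hcon h1.1
      have g4 := h1.2.1
      refine ⟨⟨by linarith [g1.1], by linarith [g1.2]⟩, by linarith [g2.1], by linarith [g2.2]⟩
    exact setIntegral_mono_set (hint n) (Filter.Eventually.of_forall fun z => hV0 _) hsub.eventuallyLE
  -- the pointwise inequality
  have hpt : ∀ z ∈ K, ∑ n ∈ M, V (z + (n : ℂ) * I) ≤ R * (3 * Real.log N) := by
    intro z hz
    obtain ⟨⟨g1, g2⟩, g3, g4⟩ := hz
    have hx0 : 0 ≤ z.re := by linarith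
    obtain ⟨b', hb', hsh⟩ := P_shift hN1 hb (x := z.re) (v := z.im) hx0
    have hzn : ∀ n : ℕ, z + (n : ℂ) * I = ⟨z.re, (n : ℝ) + z.im⟩ := by
      intro n
      apply Complex.ext
      · simp
      · simp
        ring
    set W := M.filter (fun n : ℕ => 1 < ‖2 / a * P N b (z + (n : ℂ) * I)‖) with hW
    have hcard : (W.card : ℝ) ≤ R := by
      apply hLV b' hb' W
      intro t ht
      rw [hW, Finset.mem_filter] at ht
      constructor
      · obtain ⟨h1, h2, h3⟩ := hs t ht.1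
        have := h1.2.2.2
        linarith
      · have h2 := ht.2
        rw [hzn, hsh, norm_mul, norm_mul, norm_div, Complex.norm_real, Real.norm_eq_abs,
          abs_of_pos (by positivity)] at h2
        have h3 : ‖(2 : ℂ)‖ = 2 := by simp
        rw [h3, Real.rpow_neg hN0.le] at h2
        have h4 : (N : ℝ) ^ z.re < 2 / ‖a‖ * ‖P N b' ⟨0, t⟩‖ := by
          have hp : 0 < (N : ℝ) ^ z.re := Real.rpow_pos_of_pos hN0 _
          have h5 : 2 / ‖a‖ * (((N : ℝ) ^ z.re)⁻¹ * ‖P N b' ⟨0, t⟩‖) = (2 / ‖a‖ * ‖P N b' ⟨0, t⟩‖) / (N : ℝ) ^ z.re := by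
            field_simp
          rw [h5, lt_div_iff₀ hp, one_mul] at h2
          exact h2
        have h5 : (N : ℝ) ^ z.re = (N : ℝ) ^ (z.re - η) * (N : ℝ) ^ η := by
          rw [← Real.rpow_add hN0]; congr 1; ring
        have h6 : 0 < (N : ℝ) ^ (z.re - η) := Real.rpow_pos_of_pos hN0 _
        have h7 : (N : ℝ) ^ (σ - 2 * η) ≤ (N : ℝ) ^ (z.re - η) :=
          Real.rpow_le_rpow_of_exponent_le (by linarith) (by linarith)
        have h8 : (N : ℝ) ^ (z.re - η) * (2 / ‖a‖) < 2 / ‖a‖ * ‖P N b' ⟨0, t⟩‖ := by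
          refine lt_of_le_of_lt ?_ h4
          rw [h5]
          gcongr
        have h9 : 0 < 2 / ‖a‖ := by positivity
        rw [mul_comm] at h8
        exact h7.trans_lt (lt_of_mul_lt_mul_left h8 h9.le)
    have hVle : ∀ n ∈ W, V (z + (n : ℂ) * I) ≤ 3 * Real.log N := by
      intro n _
      rw [hV]
      simp only
      have h1 := P_le (s := z + (n : ℂ) * I) hN1 hb (by simpa using hx0)
      have h2 : (N : ℝ) ^ (1 - (z + (n : ℂ) * I).re) ≤ N := by
        calc (N : ℝ) ^ (1 - (z + (n : ℂ) * I).re) ≤ (N : ℝ) ^ (1 : ℝ) := by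
              apply Real.rpow_le_rpow_of_exponent_le (by linarith)
              have : (z + (n : ℂ) * I).re = z.re := by simp
              rw [this]
              linarith
          _ = N := Real.rpow_one _
      have h3 : ‖2 / a * P N b (z + (n : ℂ) * I)‖ ≤ (N : ℝ) ^ 3 := by
        rw [norm_mul, norm_div]
        have : ‖(2 : ℂ)‖ = 2 := by simp
        rw [this]
        have h4 : ‖P N b (z + (n : ℂ) * I)‖ ≤ N * N := by nlinarith
        have h5 : (N : ℝ) ^ 3 = N * (N * N) := by ring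
        rw [h5]
        gcongr
      calc Real.posLog ‖2 / a * P N b (z + (n : ℂ) * I)‖ ≤ Real.posLog ((N : ℝ) ^ 3) :=
            Real.posLog_le_posLog (norm_nonneg _) h3
        _ = Real.log ((N : ℝ) ^ 3) := Real.posLog_eq_log (by
            rw [abs_of_pos (by positivity)]
            exact one_le_pow₀ (by linarith))
        _ = 3 * Real.log N := by rw [Real.log_pow]; norm_num
    have hsplit : ∑ n ∈ M, V (z + (n : ℂ) * I) = ∑ n ∈ W, V (z + (n : ℂ) * I) := by
      rw [hW, Finset.sum_filter]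
      refine Finset.sum_congr rfl fun n _ => ?_
      split_ifs with h
      · rfl
      · push Not at h
        rw [hV]
        simp only
        rw [Real.posLog_eq_zero_iff, abs_of_nonneg (norm_nonneg _)]
        exact h
    rw [hsplit]
    calc ∑ n ∈ W, V (z + (n : ℂ) * I) ≤ ∑ n ∈ W, 3 * Real.log N := Finset.sum_le_sum hVle
      _ = (W.card : ℝ) * (3 * Real.log N) := by rw [Finset.sum_const, nsmul_eq_mul]
      _ ≤ R * (3 * Real.log N) := by gcongr
  -- conclusion
  have hMc : (M.card : ℝ) * D ≤ R * (3 * Real.log N) * (16 * Real.pi) := by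
    calc (M.card : ℝ) * D = ∑ n ∈ M, D := by rw [Finset.sum_const, nsmul_eq_mul]
      _ ≤ ∑ n ∈ M, ∫ z in K, V (z + (n : ℂ) * I) := Finset.sum_le_sum harea
      _ = ∫ z in K, ∑ n ∈ M, V (z + (n : ℂ) * I) := by
          rw [integral_finsetSum]
          intro n _
          exact hint n
      _ ≤ ∫ z in K, R * (3 * Real.log N) := by
          apply setIntegral_mono_on
          · exact integrable_finsetSum _ fun n _ => hint n
          · exact (continuous_const).continuousOn.integrableOn_compact hKc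
          · exact hKm
          · exact hpt
      _ = (volume K).toReal * (R * (3 * Real.log N)) := by
          rw [setIntegral_const, smul_eq_mul]
          rfl
      _ ≤ (16 * Real.pi * 1) * (R * (3 * Real.log N)) := by gcongr
      _ = _ := by ring
  have hMc' : (M.card : ℝ) ≤ (16 * Real.pi * 3 / D) * Real.log N * R := by
    rw [div_mul_eq_mul_div, div_mul_eq_mul_div, le_div_iff₀ hD0]
    linarith
  calc ∑ z ∈ Z, (analyticOrderNatAt (F N a b) z : ℝ) ≤ (cntf (F N a b) (FZ N a b σ T) : ℝ) := s1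
    _ ≤ (M.card : ℝ) * (C₁ * Real.log N) := s2
    _ ≤ ((16 * Real.pi * 3 / D) * Real.log N * R) * (C₁ * Real.log N) := by gcongr
    _ = _ := by ring

end Pool.Agent.TH804.DP
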