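import Pool.Agent.TH804.DP3

/-! The inequality with exponent `q` and the `a`-points of set polynomials. -/

set_option autoImplicit false

open Complex Metric Set Filter Topology

namespace Pool.Agent.TH804.DP

lemma pw {N : ℕ} (hN : 1 ≤ N) {x y : ℝ} (h : x ≤ y) : (N : ℝ) ^ x ≤ (N : ℝ) ^ y :=
  Real.rpow_le_rpow_of_exponent_le (by exact_mod_cast hN) h

lemma exists_log2 {C ε : ℝ} (hε : 0 < ε) : ∃ N₀ : ℕ, ∀ N : ℕ, N₀ ≤ N → C * Real.log N ^ 2 ≤ (N : ℝ) ^ ε := by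
  have h1 := (isLittleO_log_rpow_rpow_atTop (s := ε) 2 hε).comp_tendsto tendsto_natCast_atTop_atTop
  have h2 := h1.bound (show 0 < 1 / (|C| + 1) by positivity)
  obtain ⟨N₀, h₀⟩ := Filter.eventually_atTop.1 h2
  refine ⟨N₀, fun N hN => ?_⟩
  have h3 := h₀ N hN
  simp only [Function.comp_apply, Real.norm_eq_abs] at h3
  rw [abs_of_nonneg (show (0 : ℝ) ≤ (N : ℝ) ^ ε by positivity)] at h3
  have h4 : Real.log N ^ (2 : ℝ) = Real.log N ^ 2 := by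
    rw [show (2 : ℝ) = ((2 : ℕ) : ℝ) by norm_num, Real.rpow_natCast]
  rw [h4, abs_of_nonneg (by positivity)] at h3
  have h5 : C ≤ |C| + 1 := by linarith [le_abs_self C]
  calc C * Real.log N ^ 2 ≤ (|C| + 1) * (1 / (|C| + 1) * (N : ℝ) ^ ε) := by
        apply mul_le_mul h5 h3 (by positivity) (by positivity)
    _ = (N : ℝ) ^ ε := by field_simp

lemma exists_nlog {ε : ℝ} (hε : 0 < ε) : ∃ N₀ : ℕ, ∀ N : ℕ, N₀ ≤ N →
    (4 * ((Nat.log 2 N : ℝ) + 1)) * 15 ≤ (N : ℝ) ^ ε := by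
  obtain ⟨N₀, h₀⟩ := exists_log2 (C := 240) hε
  refine ⟨max N₀ 3, fun N hN => ?_⟩
  have h1 := h₀ N ((le_max_left _ _).trans hN)
  have hN3 : 3 ≤ N := (le_max_right _ _).trans hN
  have hN0 : (0 : ℝ) < N := by
    have : (3 : ℝ) ≤ N := by exact_mod_cast hN3
    linarith
  have hlog : 1 ≤ Real.log N := by
    rw [Real.le_log_iff_exp_le hN0]
    have : (3 : ℝ) ≤ N := by exact_mod_cast hN3
    linarith [Real.exp_one_lt_d9]
  have h2 : (2 : ℝ) ^ (Nat.log 2 N) ≤ N := by exact_mod_cast Nat.pow_log_le_self 2 (by omega)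
  have h3 := Real.log_le_log (by positivity) h2
  rw [Real.log_pow] at h3
  have h4 := Real.log_two_gt_d9
  have h5 : (0 : ℝ) ≤ Nat.log 2 N := Nat.cast_nonneg _
  have h6 : (Nat.log 2 N : ℝ) ≤ 2 * Real.log N := by nlinarith
  refine le_trans ?_ h1
  nlinarith

/-- the bound for the `q`-th moment at the integers -/
def Lq (q A : ℝ) : Prop := ∀ ε : ℝ, 0 < ε → ∃ K : ℝ, ∀ N T : ℕ, 1 ≤ N → N ≤ T → (T : ℝ) ≤ (N : ℝ) ^ A →
  ∀ b : ℕ → ℂ, (∀ n, ‖b n‖ ≤ 1) →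
    ∑ t ∈ Finset.Icc 1 T, ‖P N b ⟨0, t⟩‖ ^ q ≤ K * (N : ℝ) ^ ε * ((N : ℝ) ^ q + (N : ℝ) ^ (q / 2) * (T : ℝ))

/-- the bound for the number of `a`-points -/
def Zq (a : ℂ) (q A : ℝ) : Prop := ∀ ε : ℝ, 0 < ε → ∃ K : ℝ, ∃ N₀ : ℕ, ∀ N T : ℕ, N₀ ≤ N → N ≤ T →
  (T : ℝ) ≤ (N : ℝ) ^ A → ∀ S : Finset ℕ, S ⊆ Finset.Icc N (2 * N) → ∀ σ : ℝ, 1 / 2 ≤ σ → σ ≤ 1 →
    ∀ Z : Finset ℂ, (∀ z ∈ Z, F N a (ind S) z = 0 ∧ σ ≤ z.re ∧ 0 < z.im ∧ z.im ≤ T) →
      ∑ z ∈ Z, (analyticOrderNatAt (F N a (ind S)) z : ℝ) ≤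
        K * (N : ℝ) ^ ε * ((N : ℝ) ^ (q * (1 - σ)) + (N : ℝ) ^ (q * (1 / 2 - σ)) * T)

theorem Zq_of_Lq {a : ℂ} (ha : a ≠ 0) {q A : ℝ} (hq : 0 < q) (h : Lq q A) : Zq a q A := by
  intro ε hε
  obtain ⟨K, hK⟩ := h (ε / 4) (by positivity)
  obtain ⟨η, hη⟩ : ∃ η : ℝ, η = min (1 / 8) (ε / (8 * q)) := ⟨_, rfl⟩
  have hη0 : 0 < η := by rw [hη]; positivity
  have hη1 : η ≤ 1 / 8 := by rw [hη]; exact min_le_left _ _
  have hηq : 2 * η * q ≤ ε / 4 := by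
    have h1 : η ≤ ε / (8 * q) := by rw [hη]; exact min_le_right _ _
    rw [le_div_iff₀ (by positivity)] at h1
    linarith
  obtain ⟨C, hC, N₁, h₁⟩ := core1 ha hη0 hη1
  obtain ⟨N₂, h₂⟩ := exists_log2 (C := C) (show 0 < ε / 4 by positivity)
  refine ⟨|K| + 1, max (max N₁ N₂) 1, ?_⟩
  intro N T hN hNT hTA S hS σ hσ1 hσ2 Z hZ
  have hN₁ : N₁ ≤ N := (le_max_left _ _).trans ((le_max_left _ _).trans hN)
  have hN₂ : N₂ ≤ N := (le_max_right _ _).trans ((le_max_left _ _).trans hN)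
  have hN1 : 1 ≤ N := (le_max_right _ _).trans hN
  have hN0 : (0 : ℝ) < N := by exact_mod_cast hN1
  obtain ⟨X, hX⟩ : ∃ X : ℝ, X = (N : ℝ) ^ (q * (1 - σ)) + (N : ℝ) ^ (q * (1 / 2 - σ)) * T := ⟨_, rfl⟩
  have hX1 : 1 ≤ X := by
    rw [hX]
    have h1 : 1 ≤ (N : ℝ) ^ (q * (1 - σ)) :=
      Real.one_le_rpow (by exact_mod_cast hN1) (mul_nonneg hq.le (by linarith))
    have h2 : 0 ≤ (N : ℝ) ^ (q * (1 / 2 - σ)) * T := by positivity
    linarith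
  have hKX : 1 ≤ (N : ℝ) ^ (ε / 4 + ε / 4) := Real.one_le_rpow (by exact_mod_cast hN1) (by positivity)
  have hk0 := abs_nonneg K
  have key := h₁ N hN₁ σ hσ1 T ((|K| + 1) * (N : ℝ) ^ (ε / 4 + ε / 4) * X) (by positivity) (fun b hb W hW => by
    have h3 := hK N T hN1 hNT hTA b hb
    classical
    have h4 : (W.card : ℝ) ≤ (W.filter (fun t => 1 ≤ t)).card + 1 := by
      have e1 : W ⊆ W.filter (fun t => 1 ≤ t) ∪ {0} := by
        intro t ht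
        rw [Finset.mem_union, Finset.mem_filter, Finset.mem_singleton]
        rcases Nat.eq_zero_or_pos t with h | h
        · right; exact h
        · left; exact ⟨ht, h⟩
      have e2 := (Finset.card_le_card e1).trans (Finset.card_union_le _ _)
      rw [Finset.card_singleton] at e2
      exact_mod_cast e2
    have h5 : ((W.filter (fun t => 1 ≤ t)).card : ℝ) * (N : ℝ) ^ ((σ - 2 * η) * q) ≤
        |K| * (N : ℝ) ^ (ε / 4) * ((N : ℝ) ^ q + (N : ℝ) ^ (q / 2) * (T : ℝ)) := by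
      calc ((W.filter (fun t => 1 ≤ t)).card : ℝ) * (N : ℝ) ^ ((σ - 2 * η) * q) =
          ∑ t ∈ W.filter (fun t => 1 ≤ t), (N : ℝ) ^ ((σ - 2 * η) * q) := by
            rw [Finset.sum_const, nsmul_eq_mul]
        _ ≤ ∑ t ∈ W.filter (fun t => 1 ≤ t), ‖P N b ⟨0, t⟩‖ ^ q := by
            refine Finset.sum_le_sum fun t ht => ?_
            rw [Finset.mem_filter] at ht
            rw [Real.rpow_mul hN0.le]
            exact Real.rpow_le_rpow (by positivity) (hW t ht.1).2.le hq.le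
        _ ≤ ∑ t ∈ Finset.Icc 1 T, ‖P N b ⟨0, t⟩‖ ^ q := by
            apply Finset.sum_le_sum_of_subset_of_nonneg
            · intro t ht
              rw [Finset.mem_filter] at ht
              rw [Finset.mem_Icc]
              exact ⟨ht.2, by exact_mod_cast (hW t ht.1).1⟩
            · intro t _ _
              positivity
        _ ≤ K * (N : ℝ) ^ (ε / 4) * ((N : ℝ) ^ q + (N : ℝ) ^ (q / 2) * (T : ℝ)) := h3
        _ ≤ _ := by
            gcongr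
            exact le_abs_self K
    -- divide
    have h6 : ((W.filter (fun t => 1 ≤ t)).card : ℝ) ≤ |K| * (N : ℝ) ^ (ε / 4 + ε / 4) * X := by
      have e0 : 0 < (N : ℝ) ^ ((σ - 2 * η) * q) := by positivity
      have e1 : |K| * (N : ℝ) ^ (ε / 4) * ((N : ℝ) ^ q + (N : ℝ) ^ (q / 2) * (T : ℝ)) =
          |K| * ((N : ℝ) ^ (ε / 4 + 2 * η * q) * X) * (N : ℝ) ^ ((σ - 2 * η) * q) := by
        have f1 : (N : ℝ) ^ q = (N : ℝ) ^ (2 * η * q) * (N : ℝ) ^ (q * (1 - σ)) * (N : ℝ) ^ ((σ - 2 * η) * q) := by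
          rw [← Real.rpow_add hN0, ← Real.rpow_add hN0]; congr 1; ring
        have f2 : (N : ℝ) ^ (q / 2) = (N : ℝ) ^ (2 * η * q) * (N : ℝ) ^ (q * (1 / 2 - σ)) * (N : ℝ) ^ ((σ - 2 * η) * q) := by
          rw [← Real.rpow_add hN0, ← Real.rpow_add hN0]; congr 1; ring
        rw [f1, f2, hX, Real.rpow_add hN0]
        ring
      rw [e1] at h5
      have h7 := le_of_mul_le_mul_right h5 e0
      refine h7.trans ?_
      have h9 : (N : ℝ) ^ (ε / 4 + 2 * η * q) ≤ (N : ℝ) ^ (ε / 4 + ε / 4) := pw hN1 (by linarith)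
      rw [mul_assoc |K| _ X]
      exact mul_le_mul_of_nonneg_left (mul_le_mul_of_nonneg_right h9 (by linarith)) hk0
    calc (W.card : ℝ) ≤ (W.filter (fun t => 1 ≤ t)).card + 1 := h4
      _ ≤ |K| * (N : ℝ) ^ (ε / 4 + ε / 4) * X + 1 := by linarith
      _ ≤ |K| * (N : ℝ) ^ (ε / 4 + ε / 4) * X + 1 * (N : ℝ) ^ (ε / 4 + ε / 4) * X := by
          have : 1 ≤ 1 * (N : ℝ) ^ (ε / 4 + ε / 4) * X := by
            rw [one_mul]
            exact one_le_mul_of_one_le_of_one_le hKX hX1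
          linarith
      _ = _ := by ring) (ind S) (ind_le S) Z hZ
  refine key.trans ?_
  have h8 := h₂ N hN₂
  rw [← hX]
  calc C * Real.log N ^ 2 * ((|K| + 1) * (N : ℝ) ^ (ε / 4 + ε / 4) * X)
      ≤ (N : ℝ) ^ (ε / 4) * ((|K| + 1) * (N : ℝ) ^ (ε / 4 + ε / 4) * X) := by gcongr
    _ = (|K| + 1) * ((N : ℝ) ^ (ε / 4) * (N : ℝ) ^ (ε / 4 + ε / 4)) * X := by ring
    _ = (|K| + 1) * (N : ℝ) ^ (ε / 4 + (ε / 4 + ε / 4)) * X := by rw [← Real.rpow_add hN0]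
    _ ≤ (|K| + 1) * (N : ℝ) ^ ε * X := by
        have h9 : (N : ℝ) ^ (ε / 4 + (ε / 4 + ε / 4)) ≤ (N : ℝ) ^ ε := pw hN1 (by linarith)
        exact mul_le_mul_of_nonneg_right (mul_le_mul_of_nonneg_left h9 (by positivity)) (by linarith)

/-- the level sets -/
lemma levels {q δ : ℝ} (hq : 0 < q) {N : ℕ} (hN : 1 ≤ N) (s : ℕ → ℝ)
    (hs : ∀ k, s (k + 1) ≤ s k + δ) {v : ℝ} (hv : 0 ≤ v) (J : ℕ) (hJ : v ≤ (N : ℝ) ^ (s J + δ)) :
    v ^ q ≤ (N : ℝ) ^ (q * s 0) + ∑ j ∈ Finset.range (J + 1),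
      (N : ℝ) ^ (q * (s j + δ)) * (if (N : ℝ) ^ s j < v then 1 else 0) := by
  have hN0 : (0 : ℝ) < N := by exact_mod_cast hN
  have key : ∀ k, v ≤ (N : ℝ) ^ s k → v ^ q ≤ (N : ℝ) ^ (q * s 0) + ∑ j ∈ Finset.range k,
      (N : ℝ) ^ (q * (s j + δ)) * (if (N : ℝ) ^ s j < v then 1 else 0) := by
    intro k
    induction k with
    | zero =>
      intro h
      simp only [Finset.range_zero, Finset.sum_empty, add_zero]
      calc v ^ q ≤ ((N : ℝ) ^ s 0) ^ q := Real.rpow_le_rpow hv h hq.le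
        _ = _ := by rw [← Real.rpow_mul hN0.le, mul_comm]
    | succ k ih =>
      intro h
      rw [Finset.sum_range_succ]
      rcases le_or_gt v ((N : ℝ) ^ s k) with h1 | h1
      · have h2 := ih h1
        have h3 : 0 ≤ (N : ℝ) ^ (q * (s k + δ)) * (if (N : ℝ) ^ s k < v then 1 else 0) := by
          split_ifs <;> positivity
        linarith
      · rw [if_pos h1, mul_one]
        have h2 : v ^ q ≤ (N : ℝ) ^ (q * (s k + δ)) := by
          calc v ^ q ≤ ((N : ℝ) ^ s (k + 1)) ^ q := Real.rpow_le_rpow hv h hq.le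
            _ = (N : ℝ) ^ (q * s (k + 1)) := by rw [← Real.rpow_mul hN0.le, mul_comm]
            _ ≤ _ := pw hN (by have := hs k; gcongr)
        have h3 : 0 ≤ (N : ℝ) ^ (q * s 0) := by positivity
        have h4 : 0 ≤ ∑ j ∈ Finset.range k, (N : ℝ) ^ (q * (s j + δ)) * (if (N : ℝ) ^ s j < v then 1 else 0) := by
          apply Finset.sum_nonneg
          intro j _
          split_ifs <;> positivity
        linarith
  rw [Finset.sum_range_succ]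
  rcases le_or_gt v ((N : ℝ) ^ s J) with h1 | h1
  · have h2 := key J h1
    have h3 : 0 ≤ (N : ℝ) ^ (q * (s J + δ)) * (if (N : ℝ) ^ s J < v then 1 else 0) := by
      split_ifs <;> positivity
    linarith
  · rw [if_pos h1, mul_one]
    have h2 : v ^ q ≤ (N : ℝ) ^ (q * (s J + δ)) := by
      calc v ^ q ≤ ((N : ℝ) ^ (s J + δ)) ^ q := Real.rpow_le_rpow hv hJ hq.le
        _ = (N : ℝ) ^ (q * (s J + δ)) := by rw [← Real.rpow_mul hN0.le, mul_comm]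
    have h3 : 0 ≤ (N : ℝ) ^ (q * s 0) := by positivity
    have h4 : 0 ≤ ∑ j ∈ Finset.range J, (N : ℝ) ^ (q * (s j + δ)) * (if (N : ℝ) ^ s j < v then 1 else 0) := by
      apply Finset.sum_nonneg
      intro j _
      split_ifs <;> positivity
    linarith

theorem Lq_of_Zq {a : ℂ} (ha : a ≠ 0) {q A : ℝ} (hq : 0 < q) (h : Zq a q A) : Lq q A := by
  intro ε hε
  obtain ⟨K, N₁, hK⟩ := h (ε / 4) (by positivity)
  obtain ⟨δ, hδ⟩ : ∃ δ : ℝ, δ = min (1 / 12) (ε / (10 * q)) := ⟨_, rfl⟩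
  have hδ0 : 0 < δ := by rw [hδ]; positivity
  have hδ1 : δ ≤ 1 / 12 := by rw [hδ]; exact min_le_left _ _
  have hδq : 5 * δ * q ≤ ε / 2 := by
    have h1 : δ ≤ ε / (10 * q) := by rw [hδ]; exact min_le_right _ _
    rw [le_div_iff₀ (by positivity)] at h1
    linarith
  obtain ⟨N₂, h₂⟩ := core2 ha hδ0 hδ1
  obtain ⟨N₃, h₃⟩ := exists_nlog (show 0 < ε / 4 by positivity)
  obtain ⟨N₄, h₄⟩ := Filter.eventually_atTop.1 (((tendsto_rpow_atTop hδ0).comp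
    tendsto_natCast_atTop_atTop).eventually_ge_atTop (2 : ℝ))
  obtain ⟨J, hJ⟩ : ∃ J : ℕ, J = ⌈1 / (2 * δ)⌉₊ := ⟨_, rfl⟩
  have hJδ : 1 / 2 ≤ J * δ := by
    have h1 : 1 / (2 * δ) ≤ J := by rw [hJ]; exact Nat.le_ceil _
    rw [div_le_iff₀ (by positivity)] at h1
    linarith
  obtain ⟨s, hs⟩ : ∃ s : ℕ → ℝ, s = fun j : ℕ => min (1 / 2 + 4 * δ + j * δ) 1 := ⟨_, rfl⟩
  have hs0 : s 0 = 1 / 2 + 4 * δ := by
    rw [hs]; simp only [Nat.cast_zero, zero_mul, add_zero]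
    exact min_eq_left (by linarith)
  have hsJ : s J = 1 := by
    rw [hs]; exact min_eq_right (by linarith)
  have hs1 : ∀ j, s j ≤ 1 := fun j => by rw [hs]; exact min_le_right _ _
  have hs2 : ∀ j, 1 / 2 + 4 * δ ≤ s j := fun j => by
    rw [hs]
    apply le_min
    · have : 0 ≤ (j : ℝ) * δ := by positivity
      linarith
    · linarith
  have hs3 : ∀ k, s (k + 1) ≤ s k + δ := fun k => by
    rw [hs]
    simp only
    rw [← min_add_add_right]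
    apply min_le_min
    · push_cast
      linarith
    · linarith
  obtain ⟨M, hM⟩ : ∃ M : ℕ, M = max (max N₁ N₂) (max N₃ (max N₄ 1)) := ⟨_, rfl⟩
  have hk0 := abs_nonneg K
  refine ⟨1 + (J + 1) * (|K| + 1) + (M : ℝ) ^ |A| * 2 ^ q, ?_⟩
  intro N T hN1 hNT hTA b hb
  have hN0 : (0 : ℝ) < N := by exact_mod_cast hN1
  have hN1' : (1 : ℝ) ≤ N := by exact_mod_cast hN1
  have hvle : ∀ t : ℕ, ‖P N b ⟨0, t⟩‖ ≤ 2 * N := by
    intro t
    have := P_le (s := ⟨0, t⟩) hN1 hb (by simp)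
    simpa using this
  have hY0 : 0 ≤ (N : ℝ) ^ q + (N : ℝ) ^ (q / 2) * (T : ℝ) := by positivity
  have hNε : 1 ≤ (N : ℝ) ^ ε := Real.one_le_rpow hN1' hε.le
  rcases lt_or_ge N M with hNM | hNM
  · -- small N
    have h1 : ∑ t ∈ Finset.Icc 1 T, ‖P N b ⟨0, t⟩‖ ^ q ≤ (T : ℝ) * (2 * N) ^ q := by
      calc ∑ t ∈ Finset.Icc 1 T, ‖P N b ⟨0, t⟩‖ ^ q ≤ ∑ t ∈ Finset.Icc 1 T, (2 * (N : ℝ)) ^ q :=
            Finset.sum_le_sum fun t _ => Real.rpow_le_rpow (norm_nonneg _) (hvle t) hq.le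
        _ = _ := by rw [Finset.sum_const, nsmul_eq_mul, Nat.card_Icc]; simp
    have h2 : (T : ℝ) ≤ (M : ℝ) ^ |A| := by
      calc (T : ℝ) ≤ (N : ℝ) ^ A := hTA
        _ ≤ (N : ℝ) ^ |A| := pw hN1 (le_abs_self A)
        _ ≤ (M : ℝ) ^ |A| := Real.rpow_le_rpow hN0.le (by exact_mod_cast hNM.le) (abs_nonneg A)
    have h3 : (2 * (N : ℝ)) ^ q = 2 ^ q * (N : ℝ) ^ q := Real.mul_rpow (by norm_num) hN0.le
    have h4 : (T : ℝ) * (2 * N) ^ q ≤ ((M : ℝ) ^ |A| * 2 ^ q) * (N : ℝ) ^ q := by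
      rw [h3, ← mul_assoc]
      gcongr
    have h5 : (N : ℝ) ^ q ≤ (N : ℝ) ^ ε * ((N : ℝ) ^ q + (N : ℝ) ^ (q / 2) * (T : ℝ)) := by
      calc (N : ℝ) ^ q ≤ 1 * ((N : ℝ) ^ q + (N : ℝ) ^ (q / 2) * (T : ℝ)) := by
            rw [one_mul]
            have : 0 ≤ (N : ℝ) ^ (q / 2) * (T : ℝ) := by positivity
            linarith
        _ ≤ _ := by gcongr
    calc ∑ t ∈ Finset.Icc 1 T, ‖P N b ⟨0, t⟩‖ ^ q ≤ ((M : ℝ) ^ |A| * 2 ^ q) * (N : ℝ) ^ q := h1.trans h4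
      _ ≤ ((M : ℝ) ^ |A| * 2 ^ q) * ((N : ℝ) ^ ε * ((N : ℝ) ^ q + (N : ℝ) ^ (q / 2) * (T : ℝ))) := by gcongr
      _ ≤ (1 + (J + 1) * (|K| + 1) + (M : ℝ) ^ |A| * 2 ^ q) * ((N : ℝ) ^ ε * ((N : ℝ) ^ q + (N : ℝ) ^ (q / 2) * (T : ℝ))) := by
          apply mul_le_mul_of_nonneg_right _ (by positivity)
          have : 0 ≤ ((J : ℝ) + 1) * (|K| + 1) := by positivity
          linarith
      _ = _ := by ring
  · -- large N
    rw [hM] at hNM
    have hN₁ : N₁ ≤ N := (le_max_left _ _).trans ((le_max_left _ _).trans hNM)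
    have hN₂ : N₂ ≤ N := (le_max_right _ _).trans ((le_max_left _ _).trans hNM)
    have hN₃ : N₃ ≤ N := (le_max_left _ _).trans ((le_max_right _ _).trans hNM)
    have hN₄ : N₄ ≤ N := (le_max_left _ _).trans ((le_max_right _ _).trans ((le_max_right _ _).trans hNM))
    have h2N : (2 : ℝ) ≤ (N : ℝ) ^ δ := h₄ N hN₄
    -- the size of the level sets
    have hlev : ∀ j, (((Finset.Icc 1 T).filter (fun t : ℕ => (N : ℝ) ^ s j < ‖P N b ⟨0, t⟩‖)).card : ℝ) ≤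
        (N : ℝ) ^ (ε / 4) * ((|K| + 1) * (N : ℝ) ^ (ε / 4) * ((N : ℝ) ^ (q * (1 - s j + 4 * δ)) +
          (N : ℝ) ^ (q * (1 / 2 - s j + 4 * δ)) * T)) := by
      intro j
      obtain ⟨R, hR⟩ : ∃ R : ℝ, R = (|K| + 1) * (N : ℝ) ^ (ε / 4) * ((N : ℝ) ^ (q * (1 - s j + 4 * δ)) +
          (N : ℝ) ^ (q * (1 / 2 - s j + 4 * δ)) * T) := ⟨_, rfl⟩
      have hR1 : 1 ≤ R := by
        have e1 : 1 ≤ (N : ℝ) ^ (q * (1 - s j + 4 * δ)) :=
          Real.one_le_rpow hN1' (mul_nonneg hq.le (by linarith [hs1 j]))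
        have e2 : 0 ≤ (N : ℝ) ^ (q * (1 / 2 - s j + 4 * δ)) * (T : ℝ) := by positivity
        have e3 : 1 ≤ (N : ℝ) ^ (ε / 4) := Real.one_le_rpow hN1' (by positivity)
        have e4 : 1 ≤ (|K| + 1) * (N : ℝ) ^ (ε / 4) := one_le_mul_of_one_le_of_one_le (by linarith) e3
        rw [hR]
        exact one_le_mul_of_one_le_of_one_le e4 (by linarith)
      have h5 := h₂ N hN₂ (s j) (by linarith [hs2 j]) (hs1 j) T R (by linarith) (fun S hS Z hZ => by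
        have h6 := hK N T hN₁ hNT hTA S hS (s j - 4 * δ) (by linarith [hs2 j]) (by linarith [hs1 j]) Z hZ
        refine h6.trans ?_
        rw [hR]
        have e1 : q * (1 - (s j - 4 * δ)) = q * (1 - s j + 4 * δ) := by ring
        have e2 : q * (1 / 2 - (s j - 4 * δ)) = q * (1 / 2 - s j + 4 * δ) := by ring
        rw [e1, e2]
        apply mul_le_mul_of_nonneg_right _ (by positivity)
        apply mul_le_mul_of_nonneg_right _ (by positivity)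
        linarith [le_abs_self K]) b hb ((Finset.Icc 1 T).filter (fun t : ℕ => (N : ℝ) ^ s j < ‖P N b ⟨0, t⟩‖))
        (fun t ht => by
          rw [Finset.mem_filter, Finset.mem_Icc] at ht
          exact ⟨by exact_mod_cast ht.1.2, ht.2⟩)
      rw [← hR]
      refine h5.trans ?_
      have h7 := h₃ N hN₃
      calc (4 * ((Nat.log 2 N : ℝ) + 1)) * (8 * R + 7) ≤ (4 * ((Nat.log 2 N : ℝ) + 1)) * (15 * R) := by
            apply mul_le_mul_of_nonneg_left (by linarith) (by positivity)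
        _ = ((4 * ((Nat.log 2 N : ℝ) + 1)) * 15) * R := by ring
        _ ≤ (N : ℝ) ^ (ε / 4) * R := by gcongr
    -- the pointwise bound
    have hpt : ∀ t ∈ Finset.Icc 1 T, ‖P N b ⟨0, t⟩‖ ^ q ≤ (N : ℝ) ^ (q * s 0) + ∑ j ∈ Finset.range (J + 1),
        (N : ℝ) ^ (q * (s j + δ)) * (if (N : ℝ) ^ s j < ‖P N b ⟨0, (t : ℕ)⟩‖ then 1 else 0) := by
      intro t _
      apply levels hq hN1 s hs3 (norm_nonneg _) J
      rw [hsJ, Real.rpow_add hN0, Real.rpow_one]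
      refine (hvle t).trans ?_
      rw [mul_comm]
      gcongr
    have hsum : ∑ t ∈ Finset.Icc 1 T, ‖P N b ⟨0, t⟩‖ ^ q ≤ (T : ℝ) * (N : ℝ) ^ (q * s 0) +
        ∑ j ∈ Finset.range (J + 1), (N : ℝ) ^ (q * (s j + δ)) *
          (((Finset.Icc 1 T).filter (fun t : ℕ => (N : ℝ) ^ s j < ‖P N b ⟨0, t⟩‖)).card : ℝ) := by
      calc ∑ t ∈ Finset.Icc 1 T, ‖P N b ⟨0, t⟩‖ ^ q ≤ ∑ t ∈ Finset.Icc 1 T, ((N : ℝ) ^ (q * s 0) +
            ∑ j ∈ Finset.range (J + 1),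
              (N : ℝ) ^ (q * (s j + δ)) * (if (N : ℝ) ^ s j < ‖P N b ⟨0, (t : ℕ)⟩‖ then 1 else 0)) :=
            Finset.sum_le_sum hpt
        _ = _ := by
            rw [Finset.sum_add_distrib, Finset.sum_const, nsmul_eq_mul, Nat.card_Icc, Finset.sum_comm]
            congr 1
            refine Finset.sum_congr rfl fun j _ => ?_
            rw [← Finset.mul_sum, Finset.sum_boole]
    -- each level
    have hterm : ∀ j ∈ Finset.range (J + 1), (N : ℝ) ^ (q * (s j + δ)) *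
          (((Finset.Icc 1 T).filter (fun t : ℕ => (N : ℝ) ^ s j < ‖P N b ⟨0, t⟩‖)).card : ℝ) ≤
        (|K| + 1) * ((N : ℝ) ^ ε * ((N : ℝ) ^ q + (N : ℝ) ^ (q / 2) * (T : ℝ))) := by
      intro j _
      have f1 : (N : ℝ) ^ (q * (s j + δ)) * ((N : ℝ) ^ (ε / 4) * ((|K| + 1) * (N : ℝ) ^ (ε / 4) *
          ((N : ℝ) ^ (q * (1 - s j + 4 * δ)) + (N : ℝ) ^ (q * (1 / 2 - s j + 4 * δ)) * T))) =
          (|K| + 1) * ((N : ℝ) ^ (ε / 2 + 5 * δ * q) * ((N : ℝ) ^ q + (N : ℝ) ^ (q / 2) * (T : ℝ))) := by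
        have g1 : (N : ℝ) ^ (q * (s j + δ)) * ((N : ℝ) ^ (ε / 4) * (N : ℝ) ^ (ε / 4)) *
            (N : ℝ) ^ (q * (1 - s j + 4 * δ)) = (N : ℝ) ^ (ε / 2 + 5 * δ * q) * (N : ℝ) ^ q := by
          rw [← Real.rpow_add hN0, ← Real.rpow_add hN0, ← Real.rpow_add hN0, ← Real.rpow_add hN0]
          congr 1; ring
        have g2 : (N : ℝ) ^ (q * (s j + δ)) * ((N : ℝ) ^ (ε / 4) * (N : ℝ) ^ (ε / 4)) *
            (N : ℝ) ^ (q * (1 / 2 - s j + 4 * δ)) = (N : ℝ) ^ (ε / 2 + 5 * δ * q) * (N : ℝ) ^ (q / 2) := by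
          rw [← Real.rpow_add hN0, ← Real.rpow_add hN0, ← Real.rpow_add hN0, ← Real.rpow_add hN0]
          congr 1; ring
        calc _ = (|K| + 1) * ((N : ℝ) ^ (q * (s j + δ)) * ((N : ℝ) ^ (ε / 4) * (N : ℝ) ^ (ε / 4)) *
            (N : ℝ) ^ (q * (1 - s j + 4 * δ)) + (N : ℝ) ^ (q * (s j + δ)) * ((N : ℝ) ^ (ε / 4) * (N : ℝ) ^ (ε / 4)) *
            (N : ℝ) ^ (q * (1 / 2 - s j + 4 * δ)) * T) := by ring
          _ = _ := by rw [g1, g2]; ring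
      have f2 : (N : ℝ) ^ (ε / 2 + 5 * δ * q) ≤ (N : ℝ) ^ ε := pw hN1 (by linarith)
      calc _ ≤ (N : ℝ) ^ (q * (s j + δ)) * ((N : ℝ) ^ (ε / 4) * ((|K| + 1) * (N : ℝ) ^ (ε / 4) *
          ((N : ℝ) ^ (q * (1 - s j + 4 * δ)) + (N : ℝ) ^ (q * (1 / 2 - s j + 4 * δ)) * T))) :=
            mul_le_mul_of_nonneg_left (hlev j) (by positivity)
        _ = _ := f1
        _ ≤ _ := mul_le_mul_of_nonneg_left (mul_le_mul_of_nonneg_right f2 hY0) (by positivity)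
    have hfirst : (T : ℝ) * (N : ℝ) ^ (q * s 0) ≤ (N : ℝ) ^ ε * ((N : ℝ) ^ q + (N : ℝ) ^ (q / 2) * (T : ℝ)) := by
      have f1 : (N : ℝ) ^ (q * s 0) ≤ (N : ℝ) ^ ε * (N : ℝ) ^ (q / 2) := by
        rw [← Real.rpow_add hN0, hs0]
        apply pw hN1
        have : 0 < δ * q := by positivity
        nlinarith
      calc (T : ℝ) * (N : ℝ) ^ (q * s 0) ≤ T * ((N : ℝ) ^ ε * (N : ℝ) ^ (q / 2)) := by gcongr
        _ = (N : ℝ) ^ ε * ((N : ℝ) ^ (q / 2) * T) := by ring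
        _ ≤ _ := by
            apply mul_le_mul_of_nonneg_left _ (by positivity)
            have : 0 ≤ (N : ℝ) ^ q := by positivity
            linarith
    have hlast := Finset.sum_le_sum hterm
    rw [Finset.sum_const, nsmul_eq_mul, Finset.card_range] at hlast
    push_cast at hlast
    have hM0 : 0 ≤ (M : ℝ) ^ |A| * 2 ^ q := by positivity
    calc ∑ t ∈ Finset.Icc 1 T, ‖P N b ⟨0, t⟩‖ ^ q ≤ (N : ℝ) ^ ε * ((N : ℝ) ^ q + (N : ℝ) ^ (q / 2) * (T : ℝ)) +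
          ((J : ℝ) + 1) * ((|K| + 1) * ((N : ℝ) ^ ε * ((N : ℝ) ^ q + (N : ℝ) ^ (q / 2) * (T : ℝ)))) :=
          hsum.trans (add_le_add hfirst hlast)
      _ = (1 + (J + 1) * (|K| + 1)) * ((N : ℝ) ^ ε * ((N : ℝ) ^ q + (N : ℝ) ^ (q / 2) * (T : ℝ))) := by ring
      _ ≤ (1 + (J + 1) * (|K| + 1) + (M : ℝ) ^ |A| * 2 ^ q) * ((N : ℝ) ^ ε * ((N : ℝ) ^ q + (N : ℝ) ^ (q / 2) * (T : ℝ))) := by
          apply mul_le_mul_of_nonneg_right _ (by positivity)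
          linarith
      _ = _ := by ring

end Pool.Agent.TH804.DP
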