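import Pool.Agent.TH804.DP4

/-! The density hypothesis for set polynomials. -/

set_option autoImplicit false

open Complex Metric Set Filter Topology

namespace Pool.Agent.TH804.DP

/-- the density hypothesis for the `a`-points of set polynomials -/
def DHp (a : ℂ) : Prop := ∀ A : ℝ, 1 ≤ A → ∀ ε : ℝ, 0 < ε → ∃ K : ℝ, ∃ N₀ : ℕ, ∀ N T : ℕ, N₀ ≤ N → N ≤ T →
  (T : ℝ) ≤ (N : ℝ) ^ A → ∀ S : Finset ℕ, S ⊆ Finset.Icc N (2 * N) → ∀ σ : ℝ, 1 / 2 ≤ σ → σ ≤ 1 →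
    ∀ Z : Finset ℂ, (∀ z ∈ Z, F N a (ind S) z = 0 ∧ σ ≤ z.re ∧ 0 < z.im ∧ z.im ≤ T) →
      ∑ z ∈ Z, (analyticOrderNatAt (F N a (ind S)) z : ℝ) ≤ K * (N : ℝ) ^ ε * (T : ℝ) ^ (2 * (1 - σ))

theorem Zq_of_DHp {a : ℂ} (h : DHp a) {q A : ℝ} (hA : 1 ≤ A) : Zq a q A := by
  intro ε hε
  obtain ⟨K, N₀, hK⟩ := h A hA ε hε
  refine ⟨|K|, max N₀ 1, ?_⟩
  intro N T hN hNT hTA S hS σ hσ1 hσ2 Z hZ
  have hN₀ : N₀ ≤ N := (le_max_left _ _).trans hN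
  have hN1 : 1 ≤ N := (le_max_right _ _).trans hN
  have hN0 : (0 : ℝ) < N := by exact_mod_cast hN1
  have hT0 : (0 : ℝ) < T := by exact_mod_cast hN1.trans hNT
  refine (hK N T hN₀ hNT hTA S hS σ hσ1 hσ2 Z hZ).trans ?_
  have key : (T : ℝ) ^ (2 * (1 - σ)) ≤ (N : ℝ) ^ (q * (1 - σ)) + (N : ℝ) ^ (q * (1 / 2 - σ)) * T := by
    rcases le_or_gt (T : ℝ) ((N : ℝ) ^ (q / 2)) with h1 | h1
    · have h2 : (T : ℝ) ^ (2 * (1 - σ)) ≤ (N : ℝ) ^ (q * (1 - σ)) := by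
        calc (T : ℝ) ^ (2 * (1 - σ)) ≤ ((N : ℝ) ^ (q / 2)) ^ (2 * (1 - σ)) :=
              Real.rpow_le_rpow hT0.le h1 (by linarith)
          _ = _ := by rw [← Real.rpow_mul hN0.le]; congr 1; ring
      have h3 : 0 ≤ (N : ℝ) ^ (q * (1 / 2 - σ)) * (T : ℝ) := by positivity
      linarith
    · have h2 : (T : ℝ) ^ (2 * (1 - σ)) ≤ (N : ℝ) ^ (q * (1 / 2 - σ)) * T := by
        calc (T : ℝ) ^ (2 * (1 - σ)) = (T : ℝ) ^ (1 - 2 * σ) * T := by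
              rw [← Real.rpow_add_one hT0.ne']; congr 1; ring
          _ ≤ ((N : ℝ) ^ (q / 2)) ^ (1 - 2 * σ) * T := by
              apply mul_le_mul_of_nonneg_right _ hT0.le
              exact Real.rpow_le_rpow_of_nonpos (by positivity) h1.le (by linarith)
          _ = _ := by rw [← Real.rpow_mul hN0.le]; congr 2; ring
      have h3 : 0 ≤ (N : ℝ) ^ (q * (1 - σ)) := by positivity
      linarith
  apply mul_le_mul _ key (by positivity) (by positivity)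
  apply mul_le_mul_of_nonneg_right (le_abs_self K) (by positivity)

theorem DHp_of_Zq {a : ℂ} (h : ∀ q : ℝ, 2 ≤ q → ∀ A : ℝ, 1 ≤ A → Zq a q A) : DHp a := by
  intro A hA ε hε
  have h' : ∀ j : ℕ, ∃ K : ℝ, ∃ N₀ : ℕ, ∀ N T : ℕ, N₀ ≤ N → N ≤ T →
      (T : ℝ) ≤ (N : ℝ) ^ A → ∀ S : Finset ℕ, S ⊆ Finset.Icc N (2 * N) → ∀ σ : ℝ, 1 / 2 ≤ σ → σ ≤ 1 →
      ∀ Z : Finset ℂ, (∀ z ∈ Z, F N a (ind S) z = 0 ∧ σ ≤ z.re ∧ 0 < z.im ∧ z.im ≤ T) →
      ∑ z ∈ Z, (analyticOrderNatAt (F N a (ind S)) z : ℝ) ≤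
        K * (N : ℝ) ^ (ε / 2) * ((N : ℝ) ^ ((2 + j * ε) * (1 - σ)) + (N : ℝ) ^ ((2 + j * ε) * (1 / 2 - σ)) * T) :=
    fun j => h (2 + j * ε) (by have : 0 ≤ (j : ℝ) * ε := by positivity
                               linarith) A hA (ε / 2) (by positivity)
  choose K N₀ hK using h'
  obtain ⟨J, hJ⟩ : ∃ J : ℕ, J = ⌈2 * A / ε⌉₊ := ⟨_, rfl⟩
  have hJ' : 2 * A ≤ J * ε := by
    have h1 : 2 * A / ε ≤ J := by rw [hJ]; exact Nat.le_ceil _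
    rwa [div_le_iff₀ hε] at h1
  refine ⟨2 * ∑ j ∈ Finset.range (J + 1), |K j|, max ((Finset.range (J + 1)).sup N₀) 1, ?_⟩
  intro N T hN hNT hTA S hS σ hσ1 hσ2 Z hZ
  have hN1 : 1 ≤ N := (le_max_right _ _).trans hN
  have hN0 : (0 : ℝ) < N := by exact_mod_cast hN1
  have hN1' : (1 : ℝ) ≤ N := by exact_mod_cast hN1
  have hT0 : (0 : ℝ) < T := by exact_mod_cast hN1.trans hNT
  have hex : ∃ j : ℕ, (T : ℝ) ≤ (N : ℝ) ^ ((2 + j * ε) / 2) := by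
    refine ⟨J, hTA.trans (pw hN1 (by linarith))⟩
  classical
  obtain ⟨j, hj⟩ : ∃ j : ℕ, j = Nat.find hex := ⟨_, rfl⟩
  have hj1 : (T : ℝ) ≤ (N : ℝ) ^ ((2 + j * ε) / 2) := by rw [hj]; exact Nat.find_spec hex
  have hjJ : j ≤ J := by rw [hj]; exact Nat.find_min' hex (hTA.trans (pw hN1 (by linarith)))
  have hj2 : (N : ℝ) ^ ((2 + j * ε) / 2) ≤ T * (N : ℝ) ^ (ε / 2) := by
    rcases Nat.eq_zero_or_pos j with h0 | h0
    · rw [h0]
      have e1 : (N : ℝ) ^ ((2 + ((0 : ℕ) : ℝ) * ε) / 2) = N := by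
        rw [show (2 + ((0 : ℕ) : ℝ) * ε) / 2 = 1 by simp, Real.rpow_one]
      rw [e1]
      have h2 : (N : ℝ) ≤ T := by exact_mod_cast hNT
      have h3 : 1 ≤ (N : ℝ) ^ (ε / 2) := Real.one_le_rpow hN1' (by positivity)
      nlinarith
    · have h1 : ¬ (T : ℝ) ≤ (N : ℝ) ^ ((2 + ((j - 1 : ℕ) : ℝ) * ε) / 2) := by
        have := Nat.find_min hex (m := j - 1) (by rw [← hj]; omega)
        exact this
      push Not at h1
      have h2 : ((j - 1 : ℕ) : ℝ) = j - 1 := by rw [Nat.cast_sub h0]; simp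
      rw [h2] at h1
      have h3 : (N : ℝ) ^ ((2 + j * ε) / 2) = (N : ℝ) ^ ((2 + ((j : ℝ) - 1) * ε) / 2) * (N : ℝ) ^ (ε / 2) := by
        rw [← Real.rpow_add hN0]; congr 1; ring
      rw [h3]
      gcongr
  have hN₀ : N₀ j ≤ N := by
    refine le_trans ?_ ((le_max_left _ _).trans hN)
    exact Finset.le_sup (f := N₀) (Finset.mem_range.2 (by omega))
  refine (hK j N T hN₀ hNT hTA S hS σ hσ1 hσ2 Z hZ).trans ?_
  have hX : (N : ℝ) ^ ((2 + j * ε) * (1 - σ)) ≤ (N : ℝ) ^ (ε / 2) * (T : ℝ) ^ (2 * (1 - σ)) := by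
    calc (N : ℝ) ^ ((2 + j * ε) * (1 - σ)) = ((N : ℝ) ^ ((2 + j * ε) / 2)) ^ (2 * (1 - σ)) := by
          rw [← Real.rpow_mul hN0.le]; congr 1; ring
      _ ≤ (T * (N : ℝ) ^ (ε / 2)) ^ (2 * (1 - σ)) := Real.rpow_le_rpow (by positivity) hj2 (by linarith)
      _ = (N : ℝ) ^ (ε / 2 * (2 * (1 - σ))) * (T : ℝ) ^ (2 * (1 - σ)) := by
          rw [Real.mul_rpow hT0.le (by positivity), ← Real.rpow_mul hN0.le]
          ring
      _ ≤ (N : ℝ) ^ (ε / 2) * (T : ℝ) ^ (2 * (1 - σ)) := by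
          apply mul_le_mul_of_nonneg_right _ (by positivity)
          apply pw hN1
          nlinarith
  have hY : (N : ℝ) ^ ((2 + j * ε) * (1 / 2 - σ)) * T ≤ (N : ℝ) ^ (ε / 2) * (T : ℝ) ^ (2 * (1 - σ)) := by
    calc (N : ℝ) ^ ((2 + j * ε) * (1 / 2 - σ)) * T = ((N : ℝ) ^ ((2 + j * ε) / 2)) ^ (1 - 2 * σ) * T := by
          rw [← Real.rpow_mul hN0.le]; congr 2; ring
      _ ≤ (T : ℝ) ^ (1 - 2 * σ) * T := by
          apply mul_le_mul_of_nonneg_right _ hT0.le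
          exact Real.rpow_le_rpow_of_nonpos hT0 hj1 (by linarith)
      _ = (T : ℝ) ^ (2 * (1 - σ)) := by rw [← Real.rpow_add_one hT0.ne']; congr 1; ring
      _ = 1 * (T : ℝ) ^ (2 * (1 - σ)) := (one_mul _).symm
      _ ≤ _ := by
          apply mul_le_mul_of_nonneg_right _ (by positivity)
          exact Real.one_le_rpow hN1' (by positivity)
  have hKj : K j ≤ ∑ j ∈ Finset.range (J + 1), |K j| :=
    (le_abs_self _).trans (Finset.single_le_sum (f := fun j => |K j|) (fun i _ => abs_nonneg _)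
      (Finset.mem_range.2 (by omega)))
  have hKs : 0 ≤ ∑ j ∈ Finset.range (J + 1), |K j| := Finset.sum_nonneg fun _ _ => abs_nonneg _
  calc K j * (N : ℝ) ^ (ε / 2) * ((N : ℝ) ^ ((2 + j * ε) * (1 - σ)) + (N : ℝ) ^ ((2 + j * ε) * (1 / 2 - σ)) * T)
      ≤ (∑ j ∈ Finset.range (J + 1), |K j|) * (N : ℝ) ^ (ε / 2) *
        ((N : ℝ) ^ (ε / 2) * (T : ℝ) ^ (2 * (1 - σ)) + (N : ℝ) ^ (ε / 2) * (T : ℝ) ^ (2 * (1 - σ))) := by
        apply mul_le_mul _ (add_le_add hX hY) (by positivity) (by positivity)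
        apply mul_le_mul_of_nonneg_right hKj (by positivity)
    _ = 2 * (∑ j ∈ Finset.range (J + 1), |K j|) * ((N : ℝ) ^ (ε / 2) * (N : ℝ) ^ (ε / 2)) * (T : ℝ) ^ (2 * (1 - σ)) := by
        ring
    _ = _ := by
        rw [← Real.rpow_add hN0, add_halves]

/-- the sums of the problem -/
lemma conj_sum {N : ℕ} (hN : 1 ≤ N) (b : ℕ → ℂ) (t : ℝ) :
    ‖∑ n ∈ Finset.Icc N (2 * N), b n * cexp (I * (t : ℂ) * ((Real.log (n : ℝ) : ℝ) : ℂ))‖ =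
      ‖P N (fun n => (starRingEnd ℂ) (b n)) ⟨0, t⟩‖ := by
  rw [← Complex.norm_conj, map_sum]
  congr 1
  unfold P
  refine Finset.sum_congr rfl fun n hn => ?_
  rw [Finset.mem_Icc] at hn
  have hn0 : (0 : ℝ) < n := by
    have : 0 < n := by omega
    exact_mod_cast this
  have hn0' : (n : ℂ) ≠ 0 := by exact_mod_cast hn0.ne'
  rw [map_mul, ← Complex.exp_conj]
  congr 1
  rw [Complex.cpow_def_of_ne_zero hn0']
  congr 1
  rw [map_mul, map_mul, Complex.conj_I, Complex.conj_ofReal, Complex.conj_ofReal, Complex.ofReal_log hn0.le]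
  have e1 : (⟨0, t⟩ : ℂ) = t * I := by apply Complex.ext <;> simp
  rw [e1]
  push_cast
  ring

end Pool.Agent.TH804.DP
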