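import Pool.Agent.TH804.DP5
import Pool.Agent.H31R2.DH.Pow
import Pool.Agent.H31R2.DH.Detect

/-! Even exponents. -/

set_option autoImplicit false

open Complex Metric Set Filter Topology

namespace Pool.Agent.TH804.DP

open DH31

/-- the coefficients as an arithmetic function -/
noncomputable def af (N : ℕ) (hN : 1 ≤ N) (b : ℕ → ℂ) : ArithmeticFunction ℂ where
  toFun n := if n ∈ Finset.Icc N (2 * N) then b n else 0
  map_zero' := by
    rw [if_neg]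
    rw [Finset.mem_Icc]
    omega

lemma af_apply {N : ℕ} (hN : 1 ≤ N) (b : ℕ → ℂ) (n : ℕ) :
    af N hN b n = if n ∈ Finset.Icc N (2 * N) then b n else 0 := rfl

lemma dp_af {N : ℕ} (hN : 1 ≤ N) (b : ℕ → ℂ) (t : ℝ) : dp (fun n => af N hN b n) (2 * N) t = P N b ⟨0, t⟩ := by
  unfold dp P
  have e1 : ∀ n : ℕ, (n : ℂ) ^ (-(⟨0, t⟩ : ℂ)) = (n : ℂ) ^ (-(t : ℂ) * I) := by
    intro n
    congr 1
    apply Complex.ext <;> simp
  simp only [af_apply, ite_mul, zero_mul, e1]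
  rw [← Finset.sum_filter]
  congr 1
  ext n
  simp only [Finset.mem_filter, Finset.mem_Icc]
  constructor
  · intro h; exact h.2
  · intro h; exact ⟨⟨by omega, h.2⟩, h⟩

theorem Lq_even {m : ℕ} (hm : 1 ≤ m) (A : ℝ) : Lq (2 * (m : ℝ)) A := by
  intro ε hε
  have hm0 : (0 : ℝ) < m := by exact_mod_cast hm
  obtain ⟨C, hC1, hC⟩ := div_bound (show 0 < ε / (16 * (m : ℝ) ^ 2) by positivity)
  obtain ⟨e, he⟩ : ∃ e : ℝ, e = ε / 16 := ⟨_, rfl⟩
  have he0 : 0 < e := by rw [he]; positivity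
  obtain ⟨D, hD⟩ : ∃ D : ℝ, D = 2 + ((m : ℝ) * (2 ^ e / e)) ^ 2 := ⟨_, rfl⟩
  have hD0 : 0 < D := by rw [hD]; positivity
  refine ⟨D ^ 2 * (8 * 4 ^ m) * (C ^ (4 * m) * 2 ^ (ε / 4)), ?_⟩
  intro N T hN hNT hTA b hb
  have hNr : (1 : ℝ) ≤ N := by exact_mod_cast hN
  have hN0 : (0 : ℝ) < N := by linarith
  have hT1 : (1 : ℝ) ≤ T := by exact_mod_cast hN.trans hNT
  obtain ⟨Y, hY⟩ : ∃ Y : ℕ, Y = (2 * N) ^ m := ⟨_, rfl⟩
  have hYr : (Y : ℝ) = 2 ^ m * (N : ℝ) ^ m := by rw [hY]; push_cast; ring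
  have hY1 : (1 : ℝ) ≤ Y := by
    rw [hYr]
    exact one_le_mul_of_one_le_of_one_le (one_le_pow₀ (by norm_num)) (one_le_pow₀ hNr)
  have hsup : ∀ n, af N hN b n ≠ 0 → N ≤ n ∧ n ≤ 2 * N := by
    intro n hn
    rw [af_apply] at hn
    have : n ∈ Finset.Icc N (2 * N) := by
      by_contra h
      rw [if_neg h] at hn
      exact hn rfl
    exact Finset.mem_Icc.1 this
  have hcoef := pow_bound (b := af N hN b) (σ := 0) (fun n hn => by
    rw [neg_zero, Real.rpow_zero, mul_one, af_apply]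
    have h1 : (1 : ℝ) ≤ n.divisors.card := by
      have : 0 < n.divisors.card := Finset.card_pos.2 ⟨1, Nat.one_mem_divisors.2 (by omega)⟩
      exact_mod_cast this
    split_ifs with h
    · exact (hb n).trans h1
    · rw [norm_zero]; linarith) m
  -- the sum of squares of the coefficients
  obtain ⟨B, hB⟩ : ∃ B : ℝ, B = C ^ (4 * m) * (2 ^ (ε / 4) * (N : ℝ) ^ (ε / 4)) := ⟨_, rfl⟩
  have hcoef2 : ∀ n ∈ Finset.Icc 1 Y, ‖((af N hN b) ^ m) n‖ ^ 2 ≤ B := by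
    intro n hn
    rw [Finset.mem_Icc] at hn
    have h1 := hcoef n hn.1
    rw [neg_zero, Real.rpow_zero, mul_one] at h1
    have h2 := hC n hn.1
    have h3 : (n : ℝ) ^ (ε / (16 * (m : ℝ) ^ 2)) ≤ (2 * (N : ℝ)) ^ (ε / (16 * (m : ℝ))) := by
      calc (n : ℝ) ^ (ε / (16 * (m : ℝ) ^ 2)) ≤ ((Y : ℕ) : ℝ) ^ (ε / (16 * (m : ℝ) ^ 2)) :=
            Real.rpow_le_rpow (by positivity) (by exact_mod_cast hn.2) (by positivity)
        _ = (2 * (N : ℝ)) ^ ((m : ℝ) * (ε / (16 * (m : ℝ) ^ 2))) := by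
            rw [Real.rpow_mul (by positivity), Real.rpow_natCast, hYr, mul_pow]
        _ = _ := by congr 1; field_simp
    have h4 : (n.divisors.card : ℝ) ≤ C * (2 * (N : ℝ)) ^ (ε / (16 * (m : ℝ))) :=
      h2.trans (mul_le_mul_of_nonneg_left h3 (by linarith))
    calc ‖((af N hN b) ^ m) n‖ ^ 2 ≤ ((n.divisors.card : ℝ) ^ (2 * m)) ^ 2 := by gcongr
      _ = (n.divisors.card : ℝ) ^ (4 * m) := by rw [← pow_mul]; congr 1; ring
      _ ≤ (C * (2 * (N : ℝ)) ^ (ε / (16 * (m : ℝ)))) ^ (4 * m) := by gcongr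
      _ = C ^ (4 * m) * (2 * (N : ℝ)) ^ (ε / 4) := by
          rw [mul_pow, ← Real.rpow_natCast ((2 * (N : ℝ)) ^ (ε / (16 * (m : ℝ)))), ← Real.rpow_mul (by positivity)]
          congr 2
          push_cast
          field_simp
          norm_num
      _ = B := by rw [hB, Real.mul_rpow (by norm_num) hN0.le]
  have hsq : ∑ n ∈ Finset.Icc 1 Y, ‖((af N hN b) ^ m) n‖ ^ 2 ≤ Y * B := by
    calc ∑ n ∈ Finset.Icc 1 Y, ‖((af N hN b) ^ m) n‖ ^ 2 ≤ ∑ n ∈ Finset.Icc 1 Y, B := Finset.sum_le_sum hcoef2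
      _ = _ := by rw [Finset.sum_const, nsmul_eq_mul, Nat.card_Icc]; simp
  have hmv := discrete_mv (fun n => ((af N hN b) ^ m) n) Y (T + 1) (Finset.Icc 1 T)
    (fun n hn => by rw [Finset.mem_Icc] at hn; rw [Finset.mem_range]; omega) (fun n => (n : ℝ))
    (fun n _ => ⟨le_rfl, by linarith⟩)
  have hl0 : 0 ≤ Real.log Y := Real.log_nonneg hY1
  have hlog : Real.log Y ≤ (m : ℝ) * ((2 ^ e / e) * (N : ℝ) ^ e) := by
    rw [hYr, ← mul_pow, Real.log_pow]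
    have h1 := Real.log_le_rpow_div (show (0 : ℝ) ≤ 2 * N by positivity) he0
    rw [Real.mul_rpow (by norm_num) hN0.le] at h1
    calc (m : ℝ) * Real.log (2 * N) ≤ m * (2 ^ e * (N : ℝ) ^ e / e) := by gcongr
      _ = _ := by ring
  have hNe : 1 ≤ (N : ℝ) ^ (2 * e) := Real.one_le_rpow hNr (by positivity)
  have hL : 2 + Real.log Y ^ 2 ≤ D * (N : ℝ) ^ (2 * e) := by
    have h1 : Real.log Y ^ 2 ≤ ((m : ℝ) * ((2 ^ e / e) * (N : ℝ) ^ e)) ^ 2 := by gcongr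
    have h2 : ((m : ℝ) * ((2 ^ e / e) * (N : ℝ) ^ e)) ^ 2 = ((m : ℝ) * (2 ^ e / e)) ^ 2 * (N : ℝ) ^ (2 * e) := by
      have : (N : ℝ) ^ (2 * e) = ((N : ℝ) ^ e) ^ 2 := by
        rw [← Real.rpow_natCast, ← Real.rpow_mul hN0.le]
        congr 1
        push_cast
        ring
      rw [this]
      ring
    rw [hD]
    nlinarith
  have hL1 : 1 + Real.log Y ≤ 2 + Real.log Y ^ 2 := by nlinarith
  have hsum : ∑ t ∈ Finset.Icc 1 T, ‖P N b ⟨0, t⟩‖ ^ (2 * (m : ℝ)) =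
      ∑ n ∈ Finset.Icc 1 T, ‖dp (fun n => ((af N hN b) ^ m) n) Y (n : ℝ)‖ ^ 2 := by
    refine Finset.sum_congr rfl fun t _ => ?_
    rw [hY, dp_pow hsup, dp_af, norm_pow, ← pow_mul, mul_comm m 2, ← Real.rpow_natCast]
    push_cast
    rfl
  rw [hsum]
  have hlog2 : 0 ≤ 2 + Real.log Y ^ 2 := by positivity
  have hB0 : 0 ≤ B := by rw [hB]; positivity
  have hT0 : (0 : ℝ) ≤ T := by linarith
  calc ∑ n ∈ Finset.Icc 1 T, ‖dp (fun n => ((af N hN b) ^ m) n) Y (n : ℝ)‖ ^ 2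
      ≤ (2 + Real.log Y ^ 2) * (((T + 1 : ℕ) : ℝ) + 8 * Y * (1 + Real.log Y)) *
        ∑ n ∈ Finset.Icc 1 Y, ‖((af N hN b) ^ m) n‖ ^ 2 := hmv
    _ ≤ (2 + Real.log Y ^ 2) * ((2 + Real.log Y ^ 2) * (8 * ((T : ℝ) + Y))) * (Y * B) := by
        have h1 : ((T + 1 : ℕ) : ℝ) + 8 * Y * (1 + Real.log Y) ≤ (2 + Real.log Y ^ 2) * (8 * ((T : ℝ) + Y)) := by
          push_cast
          have h2 : 8 * (Y : ℝ) * (1 + Real.log Y) ≤ 8 * Y * (2 + Real.log Y ^ 2) := by gcongr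
          have h3 : (T : ℝ) + 1 ≤ (2 + Real.log Y ^ 2) * (8 * T) := by
            have : 2 * (8 * (T : ℝ)) ≤ (2 + Real.log Y ^ 2) * (8 * T) := by
              gcongr
              linarith [sq_nonneg (Real.log Y)]
            linarith
          linarith
        gcongr
    _ = (2 + Real.log Y ^ 2) ^ 2 * 8 * (((T : ℝ) + Y) * Y) * B := by ring
    _ ≤ (D * (N : ℝ) ^ (2 * e)) ^ 2 * 8 * (((T : ℝ) + Y) * Y) * B := by gcongr
    _ ≤ (D * (N : ℝ) ^ (2 * e)) ^ 2 * 8 * (4 ^ m * ((N : ℝ) ^ (2 * (m : ℝ)) + (N : ℝ) ^ (2 * (m : ℝ) / 2) * T)) * B := by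
        have h1 : ((T : ℝ) + Y) * Y ≤ 4 ^ m * ((N : ℝ) ^ (2 * (m : ℝ)) + (N : ℝ) ^ (2 * (m : ℝ) / 2) * T) := by
          have e1 : (N : ℝ) ^ (2 * (m : ℝ)) = (N : ℝ) ^ m * (N : ℝ) ^ m := by
            rw [← pow_add, ← Real.rpow_natCast]
            congr 1
            push_cast
            ring
          have e2 : (N : ℝ) ^ (2 * (m : ℝ) / 2) = (N : ℝ) ^ m := by
            rw [← Real.rpow_natCast]
            congr 1
            ring
          rw [e1, e2, hYr]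
          have e3 : (4 : ℝ) ^ m = 2 ^ m * 2 ^ m := by rw [← mul_pow]; norm_num
          rw [e3]
          have h2 : (1 : ℝ) ≤ 2 ^ m := one_le_pow₀ (by norm_num)
          have h3 : (T : ℝ) * (2 ^ m * (N : ℝ) ^ m) ≤ 2 ^ m * 2 ^ m * ((N : ℝ) ^ m * T) := by
            have : (T : ℝ) * (2 ^ m * (N : ℝ) ^ m) = 1 * (2 ^ m * ((N : ℝ) ^ m * T)) := by ring
            rw [this, mul_assoc]
            gcongr
          nlinarith
        gcongr
    _ = D ^ 2 * (8 * 4 ^ m) * (C ^ (4 * m) * 2 ^ (ε / 4)) * (((N : ℝ) ^ (2 * e)) ^ 2 * (N : ℝ) ^ (ε / 4)) *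
        ((N : ℝ) ^ (2 * (m : ℝ)) + (N : ℝ) ^ (2 * (m : ℝ) / 2) * T) := by rw [hB]; ring
    _ ≤ D ^ 2 * (8 * 4 ^ m) * (C ^ (4 * m) * 2 ^ (ε / 4)) * (N : ℝ) ^ ε *
        ((N : ℝ) ^ (2 * (m : ℝ)) + (N : ℝ) ^ (2 * (m : ℝ) / 2) * T) := by
        have h1 : ((N : ℝ) ^ (2 * e)) ^ 2 * (N : ℝ) ^ (ε / 4) ≤ (N : ℝ) ^ ε := by
          rw [← Real.rpow_natCast, ← Real.rpow_mul hN0.le, ← Real.rpow_add hN0]
          apply pw hN
          push_cast
          rw [he]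
          linarith
        have h2 : 0 ≤ (N : ℝ) ^ (2 * (m : ℝ)) + (N : ℝ) ^ (2 * (m : ℝ) / 2) * T := by positivity
        apply mul_le_mul_of_nonneg_right _ h2
        apply mul_le_mul_of_nonneg_left h1 (by positivity)

end Pool.Agent.TH804.DP
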