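import Pool.Agent.TH804.DP5

/-! The large value conjecture and the `a`-points of set polynomials. -/

set_option autoImplicit false

open Complex Metric Set Filter Topology

namespace Pool.Agent.TH804.DP

/-- the large value estimate at `σ` -/
def LVs (σ A : ℝ) : Prop := ∀ ε : ℝ, 0 < ε → ∃ C : ℝ, ∀ N : ℕ, 1 ≤ N → ∀ T : ℝ, (N : ℝ) ≤ T → T ≤ (N : ℝ) ^ A →
  ∀ b : ℕ → ℂ, (∀ n, ‖b n‖ ≤ 1) → ∀ W : Finset ℕ, (∀ t ∈ W, (t : ℝ) ≤ T ∧ (N : ℝ) ^ σ < ‖P N b ⟨0, t⟩‖) →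
    (W.card : ℝ) ≤ C * (N : ℝ) ^ (2 - 2 * σ + ε)

/-- the bound for the `a`-points -/
def ZPs (a : ℂ) (σ A : ℝ) : Prop := ∀ ε : ℝ, 0 < ε → ∃ K : ℝ, ∃ N₀ : ℕ, ∀ N : ℕ, N₀ ≤ N → ∀ T : ℝ,
  (N : ℝ) ≤ T → T ≤ (N : ℝ) ^ A → ∀ S : Finset ℕ, S ⊆ Finset.Icc N (2 * N) →
    ∀ Z : Finset ℂ, (∀ z ∈ Z, F N a (ind S) z = 0 ∧ σ ≤ z.re ∧ 0 < z.im ∧ z.im ≤ T) →
      ∑ z ∈ Z, (analyticOrderNatAt (F N a (ind S)) z : ℝ) ≤ K * (N : ℝ) ^ (2 - 2 * σ + ε)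

theorem ZPs_of_LVs {a : ℂ} (ha : a ≠ 0) {σ₀ A : ℝ} (hσ₀ : 1 / 2 ≤ σ₀)
    (h : ∀ σ : ℝ, σ₀ < σ → σ ≤ 1 → LVs σ A) : ∀ σ : ℝ, σ₀ < σ → σ ≤ 1 → ZPs a σ A := by
  intro σ hσ1 hσ2 ε hε
  obtain ⟨η, hη⟩ : ∃ η : ℝ, η = min (1 / 8) (min ((σ - σ₀) / 4) (ε / 16)) := ⟨_, rfl⟩
  have hη0 : 0 < η := by
    rw [hη]
    have : 0 < σ - σ₀ := by linarith
    positivity
  have hη1 : η ≤ 1 / 8 := by rw [hη]; exact min_le_left _ _
  have hη2 : η ≤ (σ - σ₀) / 4 := by rw [hη]; exact (min_le_right _ _).trans (min_le_left _ _)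
  have hη3 : η ≤ ε / 16 := by rw [hη]; exact (min_le_right _ _).trans (min_le_right _ _)
  obtain ⟨K, hK⟩ := h (σ - 2 * η) (by linarith) (by linarith) (ε / 4) (by positivity)
  obtain ⟨C, hC, N₁, h₁⟩ := core1 ha hη0 hη1
  obtain ⟨N₂, h₂⟩ := exists_log2 (C := C) (show 0 < ε / 4 by positivity)
  refine ⟨|K|, max (max N₁ N₂) 1, ?_⟩
  intro N hN T hNT hTA S hS Z hZ
  have hN₁ : N₁ ≤ N := (le_max_left _ _).trans ((le_max_left _ _).trans hN)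
  have hN₂ : N₂ ≤ N := (le_max_right _ _).trans ((le_max_left _ _).trans hN)
  have hN1 : 1 ≤ N := (le_max_right _ _).trans hN
  have hN0 : (0 : ℝ) < N := by exact_mod_cast hN1
  have hk0 := abs_nonneg K
  have key := h₁ N hN₁ σ (by linarith) T (|K| * (N : ℝ) ^ (2 - 2 * (σ - 2 * η) + ε / 4)) (by positivity)
    (fun b hb W hW => by
      refine (hK N hN1 T hNT hTA b hb W hW).trans ?_
      exact mul_le_mul_of_nonneg_right (le_abs_self K) (by positivity)) (ind S) (ind_le S) Z hZ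
  refine key.trans ?_
  have h3 := h₂ N hN₂
  calc C * Real.log N ^ 2 * (|K| * (N : ℝ) ^ (2 - 2 * (σ - 2 * η) + ε / 4))
      ≤ (N : ℝ) ^ (ε / 4) * (|K| * (N : ℝ) ^ (2 - 2 * (σ - 2 * η) + ε / 4)) := by gcongr
    _ = |K| * (N : ℝ) ^ (ε / 4 + (2 - 2 * (σ - 2 * η) + ε / 4)) := by rw [Real.rpow_add hN0 (ε / 4)]; ring
    _ ≤ |K| * (N : ℝ) ^ (2 - 2 * σ + ε) := mul_le_mul_of_nonneg_left (pw hN1 (by linarith)) hk0

theorem LVs_of_ZPs {a : ℂ} (ha : a ≠ 0) {σ₀ A : ℝ} (hσ₀ : 1 / 2 ≤ σ₀)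
    (h : ∀ σ : ℝ, σ₀ < σ → σ ≤ 1 → ZPs a σ A) : ∀ σ : ℝ, σ₀ < σ → σ ≤ 1 → LVs σ A := by
  intro σ hσ1 hσ2 ε hε
  obtain ⟨δ, hδ⟩ : ∃ δ : ℝ, δ = min (1 / 12) (min ((σ - σ₀) / 8) (ε / 32)) := ⟨_, rfl⟩
  have hδ0 : 0 < δ := by
    rw [hδ]
    have : 0 < σ - σ₀ := by linarith
    positivity
  have hδ1 : δ ≤ 1 / 12 := by rw [hδ]; exact min_le_left _ _
  have hδ2 : δ ≤ (σ - σ₀) / 8 := by rw [hδ]; exact (min_le_right _ _).trans (min_le_left _ _)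
  have hδ3 : δ ≤ ε / 32 := by rw [hδ]; exact (min_le_right _ _).trans (min_le_right _ _)
  obtain ⟨K, N₁, hK⟩ := h (σ - 4 * δ) (by linarith) (by linarith) (ε / 4) (by positivity)
  obtain ⟨N₂, h₂⟩ := core2 ha hδ0 hδ1
  obtain ⟨N₃, h₃⟩ := exists_nlog (show 0 < ε / 4 by positivity)
  obtain ⟨M, hM⟩ : ∃ M : ℕ, M = max (max N₁ N₂) (max N₃ 1) := ⟨_, rfl⟩
  have hk0 := abs_nonneg K
  refine ⟨(|K| + 1) + ((M : ℝ) ^ |A| + 1), ?_⟩
  intro N hN1 T hNT hTA b hb W hW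
  have hN0 : (0 : ℝ) < N := by exact_mod_cast hN1
  have hN1' : (1 : ℝ) ≤ N := by exact_mod_cast hN1
  have hT0 : 0 ≤ T := by linarith
  have hM0 : (0 : ℝ) ≤ (M : ℝ) ^ |A| := by positivity
  have hX : 1 ≤ (N : ℝ) ^ (2 - 2 * σ + ε) := Real.one_le_rpow hN1' (by linarith)
  rcases lt_or_ge N M with hNM | hNM
  · have h1 : W ⊆ Finset.range (⌊T⌋₊ + 1) := by
      intro t ht
      rw [Finset.mem_range]
      exact Nat.lt_succ_of_le (Nat.le_floor (hW t ht).1)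
    have h2 := Finset.card_le_card h1
    rw [Finset.card_range] at h2
    have h3 : (W.card : ℝ) ≤ T + 1 := by
      have : (W.card : ℝ) ≤ ((⌊T⌋₊ + 1 : ℕ) : ℝ) := by exact_mod_cast h2
      push_cast at this
      linarith [Nat.floor_le hT0]
    have h4 : T ≤ (M : ℝ) ^ |A| := by
      calc T ≤ (N : ℝ) ^ A := hTA
        _ ≤ (N : ℝ) ^ |A| := pw hN1 (le_abs_self A)
        _ ≤ (M : ℝ) ^ |A| := Real.rpow_le_rpow hN0.le (by exact_mod_cast hNM.le) (abs_nonneg A)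
    calc (W.card : ℝ) ≤ ((|K| + 1) + ((M : ℝ) ^ |A| + 1)) * 1 := by linarith
      _ ≤ _ := by gcongr
  · rw [hM] at hNM
    have hN₁ : N₁ ≤ N := (le_max_left _ _).trans ((le_max_left _ _).trans hNM)
    have hN₂ : N₂ ≤ N := (le_max_right _ _).trans ((le_max_left _ _).trans hNM)
    have hN₃ : N₃ ≤ N := (le_max_left _ _).trans ((le_max_right _ _).trans hNM)
    obtain ⟨R, hR⟩ : ∃ R : ℝ, R = (|K| + 1) * (N : ℝ) ^ (2 - 2 * (σ - 4 * δ) + ε / 4) := ⟨_, rfl⟩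
    have hR1 : 1 ≤ R := by
      rw [hR]
      exact one_le_mul_of_one_le_of_one_le (by linarith) (Real.one_le_rpow hN1' (by linarith))
    have h5 := h₂ N hN₂ σ (by linarith) hσ2 T R (by linarith) (fun S hS Z hZ => by
      refine (hK N hN₁ T hNT hTA S hS Z hZ).trans ?_
      rw [hR]
      apply mul_le_mul_of_nonneg_right _ (by positivity)
      linarith [le_abs_self K]) b hb W hW
    refine h5.trans ?_
    have h7 := h₃ N hN₃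
    calc (4 * ((Nat.log 2 N : ℝ) + 1)) * (8 * R + 7) ≤ (4 * ((Nat.log 2 N : ℝ) + 1)) * (15 * R) := by
          apply mul_le_mul_of_nonneg_left (by linarith) (by positivity)
      _ = ((4 * ((Nat.log 2 N : ℝ) + 1)) * 15) * R := by ring
      _ ≤ (N : ℝ) ^ (ε / 4) * R := by gcongr
      _ = (|K| + 1) * (N : ℝ) ^ (ε / 4 + (2 - 2 * (σ - 4 * δ) + ε / 4)) := by
          rw [hR, Real.rpow_add hN0 (ε / 4)]; ring
      _ ≤ (|K| + 1) * (N : ℝ) ^ (2 - 2 * σ + ε) := by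
          apply mul_le_mul_of_nonneg_left (pw hN1 (by linarith)) (by positivity)
      _ ≤ _ := by
          apply mul_le_mul_of_nonneg_right _ (by positivity)
          linarith

/-- above the line `σ = 1` there are no large values -/
theorem LVs_right {σ A : ℝ} (hσ : 1 < σ) : LVs σ A := by
  intro ε hε
  obtain ⟨N₀, h₀⟩ := Filter.eventually_atTop.1 (((tendsto_rpow_atTop (show 0 < σ - 1 by linarith)).comp
    tendsto_natCast_atTop_atTop).eventually_ge_atTop (2 : ℝ))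
  obtain ⟨M, hM⟩ : ∃ M : ℕ, M = max N₀ 1 := ⟨_, rfl⟩
  have hM1 : (1 : ℝ) ≤ M := by
    have : 1 ≤ M := by rw [hM]; exact le_max_right _ _
    exact_mod_cast this
  refine ⟨((M : ℝ) ^ |A| + 1) * (M : ℝ) ^ |2 - 2 * σ + ε|, ?_⟩
  intro N hN1 T hNT hTA b hb W hW
  have hN0 : (0 : ℝ) < N := by exact_mod_cast hN1
  have hN1' : (1 : ℝ) ≤ N := by exact_mod_cast hN1
  have hT0 : 0 ≤ T := by linarith
  rcases lt_or_ge N M with hNM | hNM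
  · have h1 : W ⊆ Finset.range (⌊T⌋₊ + 1) := by
      intro t ht
      rw [Finset.mem_range]
      exact Nat.lt_succ_of_le (Nat.le_floor (hW t ht).1)
    have h2 := Finset.card_le_card h1
    rw [Finset.card_range] at h2
    have h3 : (W.card : ℝ) ≤ T + 1 := by
      have : (W.card : ℝ) ≤ ((⌊T⌋₊ + 1 : ℕ) : ℝ) := by exact_mod_cast h2
      push_cast at this
      linarith [Nat.floor_le hT0]
    have hNMr : (N : ℝ) ≤ M := by exact_mod_cast hNM.le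
    have h4 : T ≤ (M : ℝ) ^ |A| := by
      calc T ≤ (N : ℝ) ^ A := hTA
        _ ≤ (N : ℝ) ^ |A| := pw hN1 (le_abs_self A)
        _ ≤ (M : ℝ) ^ |A| := Real.rpow_le_rpow hN0.le hNMr (abs_nonneg A)
    have h5 : 1 ≤ (M : ℝ) ^ |2 - 2 * σ + ε| * (N : ℝ) ^ (2 - 2 * σ + ε) := by
      have h6 : (N : ℝ) ^ (-|2 - 2 * σ + ε|) ≤ (N : ℝ) ^ (2 - 2 * σ + ε) := pw hN1 (neg_abs_le _)
      have h7 : (N : ℝ) ^ |2 - 2 * σ + ε| ≤ (M : ℝ) ^ |2 - 2 * σ + ε| :=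
        Real.rpow_le_rpow hN0.le hNMr (abs_nonneg _)
      calc (1 : ℝ) = (N : ℝ) ^ |2 - 2 * σ + ε| * (N : ℝ) ^ (-|2 - 2 * σ + ε|) := by
            rw [← Real.rpow_add hN0, add_neg_cancel, Real.rpow_zero]
        _ ≤ _ := by gcongr
    calc (W.card : ℝ) ≤ ((M : ℝ) ^ |A| + 1) * 1 := by linarith
      _ ≤ ((M : ℝ) ^ |A| + 1) * ((M : ℝ) ^ |2 - 2 * σ + ε| * (N : ℝ) ^ (2 - 2 * σ + ε)) := by gcongr
      _ = _ := by ring
  · have hW0 : W = ∅ := by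
      rw [Finset.eq_empty_iff_forall_notMem]
      intro t ht
      have h1 := (hW t ht).2
      have h2 := P_le (s := ⟨0, t⟩) hN1 hb (by simp)
      have h3 : (2 : ℝ) ≤ (N : ℝ) ^ (σ - 1) := h₀ N (by rw [hM] at hNM; exact (le_max_left _ _).trans hNM)
      simp only [sub_zero, Real.rpow_one] at h2
      have h4 : (N : ℝ) ^ σ = (N : ℝ) ^ (σ - 1) * N := by
        rw [← Real.rpow_add_one hN0.ne']; congr 1; ring
      rw [h4] at h1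
      nlinarith
    rw [hW0, Finset.card_empty, Nat.cast_zero]
    positivity

end Pool.Agent.TH804.DP
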