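import Mathlib

/-!
The little Grothendieck theorem (with constant 3) and Pietsch factorization for a finite matrix.
The lemmas on signs up to `khinchine` are copied from the starting file
`Pool/Agent/Results/MP_20ef18_an/OpAlg.lean`.
-/

set_option autoImplicit false

open Finset

namespace Pool.Agent.TH804.GW

/-- signed sum attached to a subset `s` -/
noncomputable def sgn (s : Finset ℕ) (i : ℕ) : ℂ := if i ∈ s then 1 else -1

lemma norm_sgn (s : Finset ℕ) (i : ℕ) : ‖sgn s i‖ = 1 := by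
  unfold sgn; split_ifs <;> simp

noncomputable def sg (c : ℕ → ℂ) (M : ℕ) (s : Finset ℕ) : ℂ := ∑ i ∈ range M, sgn s i * c i

lemma sgn_insert_of_ne {s : Finset ℕ} {M i : ℕ} (h : i ≠ M) : sgn (insert M s) i = sgn s i := by
  unfold sgn; simp [h]

lemma sg_succ_insert (c : ℕ → ℂ) (M : ℕ) (s : Finset ℕ) :
    sg c (M+1) (insert M s) = sg c M s + c M := by
  unfold sg
  rw [sum_range_succ]
  congr 1
  · apply sum_congr rfl
    intro i hi
    rw [sgn_insert_of_ne]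
    have := mem_range.1 hi
    omega
  · simp [sgn]

lemma sg_succ_not (c : ℕ → ℂ) (M : ℕ) (s : Finset ℕ) (h : s ⊆ range M) :
    sg c (M+1) s = sg c M s - c M := by
  unfold sg
  rw [sum_range_succ]
  have : M ∉ s := fun hM => by simpa using h hM
  simp [sgn, this, sub_eq_add_neg]

lemma sq_pair (z c : ℂ) : ‖z + c‖^2 + ‖z - c‖^2 = 2 * ‖z‖^2 + 2 * ‖c‖^2 := by
  have := parallelogram_law_with_norm ℝ z c
  nlinarith

lemma four_pair (z c : ℂ) : ‖z + c‖^4 + ‖z - c‖^4 ≤ 2 * ‖z‖^4 + 12 * ‖z‖^2 * ‖c‖^2 + 2 * ‖c‖^4 := by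
  have h1 : ‖z + c‖^2 = ‖z‖^2 + 2 * (z.re * c.re + z.im * c.im) + ‖c‖^2 := by
    rw [← Complex.normSq_eq_norm_sq, ← Complex.normSq_eq_norm_sq, ← Complex.normSq_eq_norm_sq]
    simp [Complex.normSq_apply]; ring
  have h2 : ‖z - c‖^2 = ‖z‖^2 - 2 * (z.re * c.re + z.im * c.im) + ‖c‖^2 := by
    rw [← Complex.normSq_eq_norm_sq, ← Complex.normSq_eq_norm_sq, ← Complex.normSq_eq_norm_sq]
    simp [Complex.normSq_apply]; ring
  have h3 : (z.re * c.re + z.im * c.im)^2 ≤ ‖z‖^2 * ‖c‖^2 := by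
    rw [← Complex.normSq_eq_norm_sq, ← Complex.normSq_eq_norm_sq]
    simp only [Complex.normSq_apply]
    nlinarith [sq_nonneg (z.re * c.im - z.im * c.re)]
  have e1 : ‖z + c‖^4 = (‖z + c‖^2)^2 := by ring
  have e2 : ‖z - c‖^4 = (‖z - c‖^2)^2 := by ring
  rw [e1, e2, h1, h2]
  nlinarith

lemma second_moment (c : ℕ → ℂ) (M : ℕ) :
    ∑ s ∈ (range M).powerset, ‖sg c M s‖^2 = 2^M * ∑ i ∈ range M, ‖c i‖^2 := by
  induction M with
  | zero => simp [sg]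
  | succ M ih =>
    rw [range_add_one, sum_powerset_insert notMem_range_self, sum_insert notMem_range_self,
      ← sum_add_distrib]
    rw [show M + 1 = M + 1 from rfl]
    have : ∀ s ∈ (range M).powerset, ‖sg c (M+1) s‖^2 + ‖sg c (M+1) (insert M s)‖^2
        = 2 * ‖sg c M s‖^2 + 2 * ‖c M‖^2 := by
      intro s hs
      rw [sg_succ_insert, sg_succ_not c M s (mem_powerset.1 hs), add_comm]
      exact sq_pair _ _
    rw [sum_congr rfl this, sum_add_distrib, ← mul_sum, ih]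
    simp only [sum_const, card_powerset, card_range, nsmul_eq_mul]
    push_cast
    ring

lemma fourth_moment (c : ℕ → ℂ) (M : ℕ) :
    ∑ s ∈ (range M).powerset, ‖sg c M s‖^4 ≤ 3 * 2^M * (∑ i ∈ range M, ‖c i‖^2)^2 := by
  induction M with
  | zero => simp [sg]
  | succ M ih =>
    rw [range_add_one, sum_powerset_insert notMem_range_self, sum_insert notMem_range_self,
      ← sum_add_distrib]
    have : ∀ s ∈ (range M).powerset, ‖sg c (M+1) s‖^4 + ‖sg c (M+1) (insert M s)‖^4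
        ≤ 2 * ‖sg c M s‖^4 + 12 * ‖c M‖^2 * ‖sg c M s‖^2 + 2 * ‖c M‖^4 := by
      intro s hs
      rw [sg_succ_insert, sg_succ_not c M s (mem_powerset.1 hs), add_comm]
      have := four_pair (sg c M s) (c M)
      linarith
    refine (sum_le_sum this).trans ?_
    rw [sum_add_distrib, sum_add_distrib, ← mul_sum, ← mul_sum, second_moment]
    simp only [sum_const, card_powerset, card_range, nsmul_eq_mul]
    push_cast
    have hp : (0:ℝ) < 2^M := by positivity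
    have hS : 0 ≤ ∑ i ∈ range M, ‖c i‖^2 := sum_nonneg (fun _ _ => by positivity)
    set S := ∑ i ∈ range M, ‖c i‖^2
    rw [show (2:ℝ)^(M+1) = 2 * 2^M by ring]
    set P : ℝ := 2^M
    nlinarith [mul_nonneg hp.le (by positivity : (0:ℝ) ≤ ‖c M‖^4)]

/-- Khinchine, L1 lower bound -/
lemma khinchine (c : ℕ → ℂ) (M : ℕ) :
    2^M * Real.sqrt (∑ i ∈ range M, ‖c i‖^2) ≤ Real.sqrt 3 * ∑ s ∈ (range M).powerset, ‖sg c M s‖ := by
  set S := ∑ i ∈ range M, ‖c i‖^2 with hSdef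
  have hS : 0 ≤ S := sum_nonneg (fun _ _ => by positivity)
  rcases hS.eq_or_lt with h0 | hpos
  · rw [← h0]; simp
    positivity
  set σ := Real.sqrt S with hσ
  have hσpos : 0 < σ := Real.sqrt_pos.2 hpos
  have hσ2 : σ^2 = S := Real.sq_sqrt hS
  have h3 : Real.sqrt 3 ^ 2 = 3 := Real.sq_sqrt (by norm_num)
  have h3pos : 0 < Real.sqrt 3 := Real.sqrt_pos.2 (by norm_num)
  -- pointwise: sqrt 3 * t ≥ (3/2) t^2/σ - (1/6) t^4/σ^3
  have key : ∀ t : ℝ, 0 ≤ t → 9 * σ^2 * t^2 - t^4 ≤ 6 * Real.sqrt 3 * σ^3 * t := by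
    intro t ht
    have h9 : 6 * Real.sqrt 3 * σ^3 - 9 * σ^2 * t + t^3 = (t - Real.sqrt 3 * σ)^2 * (t + 2 * Real.sqrt 3 * σ) := by
      ring_nf
      rw [show Real.sqrt 3 ^ 3 = Real.sqrt 3 ^ 2 * Real.sqrt 3 by ring, h3]
      ring
    have : 0 ≤ t * ((t - Real.sqrt 3 * σ)^2 * (t + 2 * Real.sqrt 3 * σ)) := by positivity
    rw [← h9] at this
    nlinarith
  have hsum : ∑ s ∈ (range M).powerset, (9 * σ^2 * ‖sg c M s‖^2 - ‖sg c M s‖^4)
      ≤ ∑ s ∈ (range M).powerset, 6 * Real.sqrt 3 * σ^3 * ‖sg c M s‖ :=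
    sum_le_sum (fun s _ => key _ (norm_nonneg _))
  rw [sum_sub_distrib, ← mul_sum, ← mul_sum, second_moment, ← hSdef] at hsum
  have h4 := fourth_moment c M
  rw [← hSdef] at h4
  rw [← hσ2] at hsum h4
  have : 6 * σ^3 * (2^M * σ) ≤ 6 * σ^3 * (Real.sqrt 3 * ∑ s ∈ (range M).powerset, ‖sg c M s‖) := by
    nlinarith
  have h6 : 0 < 6 * σ^3 := by positivity
  exact le_of_mul_le_mul_left this h6

section little

variable {τ : Type*} (S : Finset τ) (I : Finset ℕ) (U : τ → ℕ → ℂ)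

/-- the quadratic form `∑_{t ∈ S} |∑_{n ∈ I} a_n U_{t,n}|²` -/
noncomputable def QF (a : ℕ → ℂ) : ℝ := ∑ t ∈ S, ‖∑ n ∈ I, a n * U t n‖ ^ 2

lemma QF_nonneg (a : ℕ → ℂ) : 0 ≤ QF S I U a := sum_nonneg fun _ _ => by positivity

lemma QF_smul (c : ℂ) (a : ℕ → ℂ) : QF S I U (fun n => c * a n) = ‖c‖ ^ 2 * QF S I U a := by
  unfold QF
  rw [mul_sum]
  refine sum_congr rfl fun t _ => ?_
  rw [← mul_pow, ← norm_mul, mul_sum]
  have : ∑ n ∈ I, c * a n * U t n = ∑ n ∈ I, c * (a n * U t n) := sum_congr rfl fun n _ => by ring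
  rw [this]

/-- the dual bound -/
lemma dual_bound {Q : ℝ} (hQ : ∀ a : ℕ → ℂ, (∀ n, ‖a n‖ ≤ 1) → QF S I U a ≤ Q) (w : τ → ℂ) :
    ∑ n ∈ I, ‖∑ t ∈ S, w t * U t n‖ ≤ Real.sqrt (∑ t ∈ S, ‖w t‖ ^ 2) * Real.sqrt Q := by
  classical
  obtain ⟨a, ha⟩ : ∃ a : ℕ → ℂ, a = fun n => if ∑ t ∈ S, w t * U t n = 0 then 1 else
    (starRingEnd ℂ (∑ t ∈ S, w t * U t n)) / ‖∑ t ∈ S, w t * U t n‖ := ⟨_, rfl⟩
  have ha1 : ∀ n, ‖a n‖ ≤ 1 := by
    intro n
    rw [ha]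
    dsimp only
    split_ifs with h
    · simp
    · rw [norm_div, RCLike.norm_conj, Complex.norm_real, norm_norm, div_self (norm_ne_zero_iff.2 h)]
  have ha2 : ∀ n, a n * (∑ t ∈ S, w t * U t n) = (‖∑ t ∈ S, w t * U t n‖ : ℂ) := by
    intro n
    rw [ha]
    dsimp only
    split_ifs with h
    · rw [h]; simp
    · have h' : (‖∑ t ∈ S, w t * U t n‖ : ℂ) ≠ 0 := by
        exact_mod_cast norm_ne_zero_iff.2 h
      rw [div_mul_eq_mul_div, mul_comm, Complex.mul_conj, div_eq_iff h', Complex.normSq_eq_norm_sq]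
      push_cast
      ring
  have h1 : ((∑ n ∈ I, ‖∑ t ∈ S, w t * U t n‖ : ℝ) : ℂ) = ∑ t ∈ S, w t * ∑ n ∈ I, a n * U t n := by
    push_cast
    rw [sum_congr rfl fun n _ => (ha2 n).symm]
    simp_rw [mul_sum]
    rw [sum_comm]
    refine sum_congr rfl fun t _ => sum_congr rfl fun n _ => by ring
  have h2 : 0 ≤ ∑ n ∈ I, ‖∑ t ∈ S, w t * U t n‖ := sum_nonneg fun _ _ => norm_nonneg _
  have h3 : ∑ n ∈ I, ‖∑ t ∈ S, w t * U t n‖ = ‖∑ t ∈ S, w t * ∑ n ∈ I, a n * U t n‖ := by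
    rw [← h1, Complex.norm_real, Real.norm_of_nonneg h2]
  rw [h3]
  refine (norm_sum_le _ _).trans ?_
  simp_rw [norm_mul]
  refine (Real.sum_mul_le_sqrt_mul_sqrt _ _ _).trans ?_
  have := hQ a ha1
  unfold QF at this
  gcongr

/-- the little Grothendieck theorem for `(a_n) ↦ (∑_n a_n U_{t,n})_t`, with the constant 3 -/
theorem little {Q : ℝ} (hQ : ∀ a : ℕ → ℂ, (∀ n, ‖a n‖ ≤ 1) → QF S I U a ≤ Q) (K : ℕ) (x : ℕ → ℕ → ℂ)
    (hx : ∀ n ∈ I, ∑ j ∈ range K, ‖x j n‖ ^ 2 ≤ 1) : ∑ j ∈ range K, QF S I U (x j) ≤ 3 * Q := by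
  classical
  have hQ0 : 0 ≤ Q := (QF_nonneg S I U (fun _ => 0)).trans (hQ _ fun n => by simp)
  obtain ⟨y, hy⟩ : ∃ y : ℕ → τ → ℂ, y = fun j t => ∑ n ∈ I, x j n * U t n := ⟨_, rfl⟩
  obtain ⟨z, hz⟩ : ∃ z : ℕ → ℕ → ℂ, z = fun n j => ∑ t ∈ S, starRingEnd ℂ (y j t) * U t n := ⟨_, rfl⟩
  obtain ⟨V, hV⟩ : ∃ V : ℝ, V = ∑ j ∈ range K, QF S I U (x j) := ⟨_, rfl⟩
  have hV0 : 0 ≤ V := by rw [hV]; exact sum_nonneg fun _ _ => QF_nonneg _ _ _ _
  have hVy : V = ∑ j ∈ range K, ∑ t ∈ S, ‖y j t‖ ^ 2 := by rw [hV, hy]; rfl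
  have e1 : (V : ℂ) = ∑ n ∈ I, ∑ j ∈ range K, x j n * z n j := by
    rw [hVy]
    push_cast
    have h1 : ∀ j t, ((‖y j t‖ : ℂ)) ^ 2 = starRingEnd ℂ (y j t) * ∑ n ∈ I, x j n * U t n := by
      intro j t
      have : (∑ n ∈ I, x j n * U t n) = y j t := by rw [hy]
      rw [this, mul_comm, Complex.mul_conj, Complex.normSq_eq_norm_sq]
      push_cast
      ring
    calc ∑ j ∈ range K, ∑ t ∈ S, ((‖y j t‖ : ℂ)) ^ 2
        = ∑ j ∈ range K, ∑ t ∈ S, ∑ n ∈ I, x j n * (starRingEnd ℂ (y j t) * U t n) := by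
          refine sum_congr rfl fun j _ => sum_congr rfl fun t _ => ?_
          rw [h1, mul_sum]
          exact sum_congr rfl fun n _ => by ring
      _ = ∑ j ∈ range K, ∑ n ∈ I, ∑ t ∈ S, x j n * (starRingEnd ℂ (y j t) * U t n) :=
          sum_congr rfl fun j _ => sum_comm
      _ = ∑ n ∈ I, ∑ j ∈ range K, ∑ t ∈ S, x j n * (starRingEnd ℂ (y j t) * U t n) := sum_comm
      _ = _ := by
          refine sum_congr rfl fun n _ => sum_congr rfl fun j _ => ?_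
          rw [hz, mul_sum]
  have e2 : V ≤ ∑ n ∈ I, Real.sqrt (∑ j ∈ range K, ‖z n j‖ ^ 2) := by
    have h1 : V = ‖(V : ℂ)‖ := by rw [Complex.norm_real, Real.norm_of_nonneg hV0]
    rw [h1, e1]
    refine (norm_sum_le _ _).trans (sum_le_sum fun n hn => ?_)
    refine (norm_sum_le _ _).trans ?_
    simp_rw [norm_mul]
    refine (Real.sum_mul_le_sqrt_mul_sqrt _ _ _).trans ?_
    have h2 : Real.sqrt (∑ j ∈ range K, ‖x j n‖ ^ 2) ≤ 1 :=
      (Real.sqrt_le_sqrt (hx n hn)).trans (by simp)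
    have h3 := Real.sqrt_nonneg (∑ j ∈ range K, ‖z n j‖ ^ 2)
    nlinarith
  have e3 : (2 : ℝ) ^ K * V ≤ Real.sqrt 3 * ∑ s ∈ (range K).powerset, ∑ n ∈ I, ‖sg (z n) K s‖ := by
    calc (2 : ℝ) ^ K * V ≤ 2 ^ K * ∑ n ∈ I, Real.sqrt (∑ j ∈ range K, ‖z n j‖ ^ 2) := by gcongr
      _ = ∑ n ∈ I, 2 ^ K * Real.sqrt (∑ j ∈ range K, ‖z n j‖ ^ 2) := by rw [mul_sum]
      _ ≤ ∑ n ∈ I, Real.sqrt 3 * ∑ s ∈ (range K).powerset, ‖sg (z n) K s‖ :=
          sum_le_sum fun n _ => khinchine (z n) K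
      _ = _ := by rw [← mul_sum, sum_comm]
  obtain ⟨w, hw⟩ : ∃ w : Finset ℕ → τ → ℂ, w = fun s t => sg (fun j => starRingEnd ℂ (y j t)) K s := ⟨_, rfl⟩
  have e4 : ∀ s, ∑ n ∈ I, ‖sg (z n) K s‖ ≤ Real.sqrt (∑ t ∈ S, ‖w s t‖ ^ 2) * Real.sqrt Q := by
    intro s
    have h1 : ∀ n, sg (z n) K s = ∑ t ∈ S, w s t * U t n := by
      intro n
      rw [hw, hz]
      unfold sg
      simp_rw [mul_sum, sum_mul]
      rw [sum_comm]
      refine sum_congr rfl fun t _ => sum_congr rfl fun j _ => by ring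
    simp_rw [h1]
    exact dual_bound S I U hQ (w s)
  have e5 : ∑ s ∈ (range K).powerset, ∑ t ∈ S, ‖w s t‖ ^ 2 = 2 ^ K * V := by
    rw [sum_comm]
    have h1 : V = ∑ t ∈ S, ∑ j ∈ range K, ‖y j t‖ ^ 2 := by rw [hVy, sum_comm]
    rw [h1, mul_sum]
    refine sum_congr rfl fun t _ => ?_
    have := second_moment (fun j => starRingEnd ℂ (y j t)) K
    rw [hw]
    simp only [RCLike.norm_conj] at this
    exact this
  have e6 : ∑ s ∈ (range K).powerset, Real.sqrt (∑ t ∈ S, ‖w s t‖ ^ 2) ≤ 2 ^ K * Real.sqrt V := by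
    have h1 := Real.sum_mul_le_sqrt_mul_sqrt (range K).powerset (fun _ => (1 : ℝ))
      (fun s => Real.sqrt (∑ t ∈ S, ‖w s t‖ ^ 2))
    simp only [one_mul, one_pow, sum_const, card_powerset, card_range, nsmul_eq_mul, mul_one] at h1
    refine h1.trans ?_
    have h2 : ∑ s ∈ (range K).powerset, Real.sqrt (∑ t ∈ S, ‖w s t‖ ^ 2) ^ 2 = 2 ^ K * V := by
      rw [← e5]
      exact sum_congr rfl fun s _ => Real.sq_sqrt (sum_nonneg fun _ _ => by positivity)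
    rw [h2]
    have h3 : (0 : ℝ) ≤ 2 ^ K := by positivity
    rw [Real.sqrt_mul h3, ← mul_assoc]
    push_cast
    rw [Real.mul_self_sqrt h3]
  have e7 : (2 : ℝ) ^ K * V ≤ Real.sqrt 3 * (2 ^ K * Real.sqrt V * Real.sqrt Q) := by
    refine e3.trans ?_
    have : ∑ s ∈ (range K).powerset, ∑ n ∈ I, ‖sg (z n) K s‖ ≤ 2 ^ K * Real.sqrt V * Real.sqrt Q := by
      refine (sum_le_sum fun s _ => e4 s).trans ?_
      rw [← sum_mul]
      gcongr
    gcongr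
  have h2K : (0 : ℝ) < 2 ^ K := by positivity
  have e8 : V ≤ Real.sqrt 3 * Real.sqrt Q * Real.sqrt V := by
    have : (2 : ℝ) ^ K * V ≤ 2 ^ K * (Real.sqrt 3 * Real.sqrt Q * Real.sqrt V) := by
      refine e7.trans (le_of_eq ?_)
      ring
    exact le_of_mul_le_mul_left this h2K
  rw [← hV]
  have e9 : Real.sqrt V ^ 2 = V := Real.sq_sqrt hV0
  have e10 : Real.sqrt V ≤ Real.sqrt 3 * Real.sqrt Q := by
    by_contra hc
    push Not at hc
    have h1 : 0 < Real.sqrt V := lt_of_le_of_lt (by positivity) hc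
    nlinarith
  have e11 : Real.sqrt V ^ 2 ≤ (Real.sqrt 3 * Real.sqrt Q) ^ 2 := pow_le_pow_left₀ (Real.sqrt_nonneg _) e10 2
  rw [e9, mul_pow, Real.sq_sqrt (by norm_num : (0 : ℝ) ≤ 3), Real.sq_sqrt hQ0] at e11
  exact e11

end little

end Pool.Agent.TH804.GW
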