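import Pool.Agent.TH804.GW1

/-!
Pietsch factorization (finite case): weights
-/

set_option autoImplicit false

open Finset

namespace Pool.Agent.TH804.GW

section pietsch

variable {τ : Type*} (S : Finset τ) (I : Finset ℕ) (U : τ → ℕ → ℂ)

lemma QF_congr {a b : ℕ → ℂ} (h : ∀ n ∈ I, a n = b n) : QF S I U a = QF S I U b := by
  unfold QF
  refine sum_congr rfl fun t _ => ?_
  rw [sum_congr rfl fun n hn => by rw [h n hn]]

/-- the set of the functions `B ∑_j |x_j|² - ∑_j QF(x_j)` on `I` -/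
def cone (B : ℝ) : Set (I → ℝ) :=
  {v | ∃ (K : ℕ) (x : ℕ → ℕ → ℂ), ∀ i : I, v i = B * ∑ j ∈ range K, ‖x j i‖ ^ 2 - ∑ j ∈ range K, QF S I U (x j)}

lemma cone_zero (B : ℝ) : (0 : I → ℝ) ∈ cone S I U B := ⟨0, fun _ _ => 0, fun i => by simp⟩

lemma sq_sqrt_norm {α : ℝ} (hα : 0 ≤ α) : ‖((Real.sqrt α : ℝ) : ℂ)‖ ^ 2 = α := by
  rw [Complex.norm_real, Real.norm_of_nonneg (Real.sqrt_nonneg _), Real.sq_sqrt hα]

lemma cone_smul {B α : ℝ} (hα : 0 ≤ α) {v : I → ℝ} (hv : v ∈ cone S I U B) : α • v ∈ cone S I U B := by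
  obtain ⟨K, x, h⟩ := hv
  refine ⟨K, fun j n => ((Real.sqrt α : ℝ) : ℂ) * x j n, fun i => ?_⟩
  simp only [Pi.smul_apply, smul_eq_mul, h i, norm_mul, mul_pow, QF_smul, sq_sqrt_norm hα, ← mul_sum]
  ring

lemma cone_add {B : ℝ} {v w : I → ℝ} (hv : v ∈ cone S I U B) (hw : w ∈ cone S I U B) :
    v + w ∈ cone S I U B := by
  obtain ⟨K, x, h⟩ := hv
  obtain ⟨L, y, h'⟩ := hw
  obtain ⟨z, hz⟩ : ∃ z : ℕ → ℕ → ℂ, z = fun j => if j < K then x j else y (j - K) := ⟨_, rfl⟩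
  have key : ∀ f : (ℕ → ℂ) → ℝ, ∑ j ∈ range (K + L), f (z j) = ∑ j ∈ range K, f (x j) + ∑ j ∈ range L, f (y j) := by
    intro f
    rw [Finset.sum_range_add]
    congr 1
    · refine sum_congr rfl fun j hj => ?_
      rw [hz]
      simp only [mem_range.1 hj, if_true]
    · refine sum_congr rfl fun j hj => ?_
      rw [hz]
      simp
  refine ⟨K + L, z, fun i => ?_⟩
  rw [Pi.add_apply, h i, h' i, key (fun a => ‖a i‖ ^ 2), key (QF S I U)]
  ring

theorem pietsch {B : ℝ} (hI : I.Nonempty)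
    (h : ∀ (K : ℕ) (x : ℕ → ℕ → ℂ), (∀ n ∈ I, ∑ j ∈ range K, ‖x j n‖ ^ 2 ≤ 1) →
      ∑ j ∈ range K, QF S I U (x j) ≤ B) :
    ∃ p : ℕ → ℝ, (∀ n, 0 ≤ p n) ∧ ∑ n ∈ I, p n = 1 ∧ ∀ a : ℕ → ℂ, QF S I U a ≤ B * ∑ n ∈ I, p n * ‖a n‖ ^ 2 := by
  classical
  have : Nonempty I := hI.to_subtype
  obtain ⟨s, hs⟩ : ∃ s : Set (I → ℝ), s = {v | ∀ i, v i < 0} := ⟨_, rfl⟩
  have hs1 : Convex ℝ s := by
    rw [hs]
    intro v hv w hw α β hα hβ hαβ i
    have h1 := hv i
    have h2 := hw i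
    simp only [Pi.add_apply, Pi.smul_apply, smul_eq_mul]
    rcases hα.eq_or_lt with h0 | h0
    · have : β = 1 := by linarith
      rw [← h0, this]; linarith
    · nlinarith
  have hs2 : IsOpen s := by
    rw [hs]
    have : {v : I → ℝ | ∀ i, v i < 0} = ⋂ i, {v : I → ℝ | v i < 0} := by ext v; simp
    rw [this]
    exact isOpen_iInter_of_finite fun i => isOpen_lt (continuous_apply i) continuous_const
  have hc : Convex ℝ (cone S I U B) := by
    intro v hv w hw α β hα hβ _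
    exact cone_add S I U (cone_smul S I U hα hv) (cone_smul S I U hβ hw)
  have hdisj : Disjoint s (cone S I U B) := by
    rw [Set.disjoint_left]
    rintro v hv ⟨K, x, hx⟩
    rw [hs] at hv
    obtain ⟨i₀, hi₀⟩ := Finite.exists_max (fun i : I => ∑ j ∈ range K, ‖x j i‖ ^ 2)
    obtain ⟨m, hm⟩ : ∃ m : ℝ, m = ∑ j ∈ range K, ‖x j i₀‖ ^ 2 := ⟨_, rfl⟩
    have hm0 : 0 ≤ m := by rw [hm]; exact sum_nonneg fun _ _ => by positivity
    have h1 := hv i₀
    rw [hx i₀, ← hm] at h1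
    rcases hm0.eq_or_lt with h0 | h0
    · have h2 : ∀ j ∈ range K, QF S I U (x j) = 0 := by
        intro j hj
        have h3 : ∀ n ∈ I, x j n = 0 := by
          intro n hn
          have h4 := hi₀ ⟨n, hn⟩
          simp only at h4
          rw [← hm, ← h0] at h4
          have h5 : ‖x j n‖ ^ 2 ≤ 0 := (single_le_sum (f := fun j => ‖x j n‖ ^ 2)
            (fun _ _ => by positivity) hj).trans h4
          have h6 : ‖x j n‖ = 0 := by nlinarith [norm_nonneg (x j n)]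
          exact norm_eq_zero.1 h6
        rw [QF_congr S I U (b := fun _ => 0) h3]
        simp [QF]
      rw [sum_congr rfl h2, ← h0] at h1
      simp at h1
    · have h2 := h K (fun j n => ((Real.sqrt (1 / m) : ℝ) : ℂ) * x j n) (fun n hn => by
        simp only [norm_mul, mul_pow, sq_sqrt_norm (show (0 : ℝ) ≤ 1 / m by positivity), ← mul_sum]
        have h4 := hi₀ ⟨n, hn⟩
        simp only at h4
        rw [← hm] at h4
        rw [one_div, inv_mul_le_iff₀ h0, mul_one]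
        exact h4)
      simp only [QF_smul, sq_sqrt_norm (show (0 : ℝ) ≤ 1 / m by positivity), ← mul_sum] at h2
      rw [one_div, inv_mul_le_iff₀ h0] at h2
      linarith [mul_comm m B]
  obtain ⟨f, u, hf1, hf2⟩ := geometric_hahn_banach_open hs1 hs2 hc hdisj
  have hu : u ≤ 0 := by
    have := hf2 0 (cone_zero S I U B)
    simpa using this
  have hcone : ∀ v ∈ cone S I U B, 0 ≤ f v := by
    intro v hv
    by_contra hneg
    push Not at hneg
    have h1 := hf2 (((u - 1) / f v) • v) (cone_smul S I U (div_nonneg_of_nonpos (by linarith) hneg.le) hv)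
    rw [map_smul, smul_eq_mul, div_mul_cancel₀ _ hneg.ne] at h1
    linarith
  obtain ⟨o, ho⟩ : ∃ o : I → ℝ, o = fun _ => 1 := ⟨_, rfl⟩
  have ho1 : 0 < f o := by
    have h1 : -o ∈ s := by rw [hs, ho]; intro i; simp
    have h2 := hf1 _ h1
    rw [map_neg] at h2
    linarith
  have hsingle : ∀ i : I, 0 ≤ f (Pi.single i 1) := by
    intro i
    by_contra hneg
    push Not at hneg
    obtain ⟨d, hd⟩ : ∃ d : ℝ, d = -f (Pi.single i 1) / (2 * f o) := ⟨_, rfl⟩
    have hd0 : 0 < d := by rw [hd]; exact div_pos (by linarith) (by linarith)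
    have h1 : -(Pi.single i (1 : ℝ)) - d • o ∈ s := by
      rw [hs, ho]
      intro k
      simp only [Pi.sub_apply, Pi.neg_apply, Pi.smul_apply, smul_eq_mul, mul_one]
      have : 0 ≤ (Pi.single i (1 : ℝ) : I → ℝ) k := by
        rw [Pi.single_apply]; split_ifs <;> norm_num
      linarith
    have h2 := hf1 _ h1
    rw [map_sub, map_neg, map_smul, smul_eq_mul] at h2
    have h3 : d * f o = -f (Pi.single i 1) / 2 := by
      rw [hd]; field_simp
    rw [h3] at h2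
    linarith
  have hexp : ∀ v : I → ℝ, f v = ∑ i : I, v i * f (Pi.single i 1) := by
    intro v
    conv_lhs => rw [← Finset.univ_sum_single v]
    rw [map_sum]
    refine sum_congr rfl fun i _ => ?_
    rw [show (Pi.single i (v i) : I → ℝ) = v i • Pi.single i 1 by
      rw [← Pi.single_smul, smul_eq_mul, mul_one], map_smul, smul_eq_mul]
  refine ⟨fun n => if hn : n ∈ I then f (Pi.single ⟨n, hn⟩ 1) / f o else 0, fun n => ?_, ?_, fun a => ?_⟩
  · dsimp only
    split_ifs with hn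
    · exact div_nonneg (hsingle _) ho1.le
    · exact le_rfl
  · rw [← Finset.sum_coe_sort]
    have h1 : ∀ i : I, (if hn : (i : ℕ) ∈ I then f (Pi.single ⟨i, hn⟩ 1) / f o else 0) = f (Pi.single i 1) / f o := by
      intro i
      rw [dif_pos i.2]
    rw [sum_congr rfl fun i _ => h1 i, ← sum_div, div_eq_one_iff_eq ho1.ne', hexp o, ho]
    exact sum_congr rfl fun i _ => by rw [one_mul]
  · have h1 : (fun i : I => B * ‖a i‖ ^ 2 - QF S I U a) ∈ cone S I U B :=
      ⟨1, fun _ => a, fun i => by simp⟩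
    have h2 := hcone _ h1
    rw [hexp] at h2
    have h3 : ∑ i : I, (B * ‖a i‖ ^ 2 - QF S I U a) * f (Pi.single i 1) =
        B * ∑ i : I, ‖a i‖ ^ 2 * f (Pi.single i 1) - QF S I U a * f o := by
      rw [hexp o, ho, mul_sum, mul_sum, ← sum_sub_distrib]
      exact sum_congr rfl fun i _ => by ring
    rw [h3] at h2
    have h4 : ∑ n ∈ I, (if hn : n ∈ I then f (Pi.single ⟨n, hn⟩ 1) / f o else 0) * ‖a n‖ ^ 2 =
        (∑ i : I, ‖a i‖ ^ 2 * f (Pi.single i 1)) / f o := by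
      rw [← Finset.sum_coe_sort, sum_div]
      refine sum_congr rfl fun i _ => ?_
      rw [dif_pos i.2]
      ring
    rw [h4, ← mul_div_assoc, le_div_iff₀ ho1]
    linarith

/-- weights from a bound for bounded coefficients -/
theorem weights {Q : ℝ} (hI : I.Nonempty) (hQ : ∀ a : ℕ → ℂ, (∀ n, ‖a n‖ ≤ 1) → QF S I U a ≤ Q) :
    ∃ p : ℕ → ℝ, (∀ n, 0 ≤ p n) ∧ ∑ n ∈ I, p n = 1 ∧
      ∀ a : ℕ → ℂ, QF S I U a ≤ 3 * Q * ∑ n ∈ I, p n * ‖a n‖ ^ 2 := by
  exact pietsch S I U hI fun K x hx => little S I U hQ K x hx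

/-- from weights to vectors -/
theorem vectors {Q : ℝ} {p : ℕ → ℝ} (h : ∀ a : ℕ → ℂ, QF S I U a ≤ Q * ∑ n ∈ I, p n * ‖a n‖ ^ 2)
    {k : ℕ} (a : ℕ → EuclideanSpace ℂ (Fin k)) :
    ∑ t ∈ S, ‖∑ n ∈ I, U t n • a n‖ ^ 2 ≤ Q * ∑ n ∈ I, p n * ‖a n‖ ^ 2 := by
  have e1 : ∑ t ∈ S, ‖∑ n ∈ I, U t n • a n‖ ^ 2 = ∑ j, QF S I U (fun n => a n j) := by
    unfold QF
    rw [sum_comm]
    refine sum_congr rfl fun t _ => ?_
    rw [EuclideanSpace.norm_sq_eq]
    refine sum_congr rfl fun j _ => ?_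
    congr 2
    simp [mul_comm]
  have e2 : ∑ n ∈ I, p n * ‖a n‖ ^ 2 = ∑ j, ∑ n ∈ I, p n * ‖a n j‖ ^ 2 := by
    rw [sum_comm]
    refine sum_congr rfl fun n _ => ?_
    rw [EuclideanSpace.norm_sq_eq, mul_sum]
  rw [e1, e2, mul_sum]
  exact sum_le_sum fun j _ => h _

/-- exact duality: weights and vectors -/
theorem weights_iff_vectors {Q : ℝ} (hI : I.Nonempty) :
    (∀ (k : ℕ) (a : ℕ → EuclideanSpace ℂ (Fin k)), (∀ n, ‖a n‖ ≤ 1) →
      ∑ t ∈ S, ‖∑ n ∈ I, U t n • a n‖ ^ 2 ≤ Q) ↔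
    ∃ p : ℕ → ℝ, (∀ n, 0 ≤ p n) ∧ ∑ n ∈ I, p n = 1 ∧ ∀ a : ℕ → ℂ, QF S I U a ≤ Q * ∑ n ∈ I, p n * ‖a n‖ ^ 2 := by
  classical
  constructor
  · intro h
    refine pietsch S I U hI fun K x hx => ?_
    obtain ⟨a, ha⟩ : ∃ a : ℕ → EuclideanSpace ℂ (Fin K), a = fun n => if n ∈ I then
      WithLp.toLp 2 (fun j : Fin K => x j n) else 0 := ⟨_, rfl⟩
    have h1 := h K a (fun n => by
      rw [ha]
      dsimp only
      split_ifs with hn
      · have h2 := hx n hn
        rw [EuclideanSpace.norm_eq]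
        refine (Real.sqrt_le_sqrt ?_).trans (le_of_eq Real.sqrt_one)
        rw [Finset.sum_range] at h2
        exact h2
      · simp)
    refine le_trans (le_of_eq ?_) h1
    unfold QF
    rw [sum_comm]
    refine sum_congr rfl fun t _ => ?_
    rw [EuclideanSpace.norm_sq_eq, Finset.sum_range]
    refine sum_congr rfl fun j _ => ?_
    congr 2
    rw [WithLp.ofLp_sum, Finset.sum_apply]
    refine sum_congr rfl fun n hn => ?_
    rw [ha]
    simp [hn, mul_comm]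
  · rintro ⟨p, hp0, hp1, hp⟩ k a ha
    refine (vectors S I U hp a).trans ?_
    have hQ : 0 ≤ Q := by
      have h1 := hp (fun _ => 1)
      simp only [norm_one, one_pow, mul_one, hp1] at h1
      exact (QF_nonneg _ _ _ _).trans h1
    have h2 : ∑ n ∈ I, p n * ‖a n‖ ^ 2 ≤ 1 := by
      rw [← hp1]
      refine sum_le_sum fun n _ => ?_
      have h3 : ‖a n‖ ^ 2 ≤ 1 := by
        have := ha n
        have := norm_nonneg (a n)
        nlinarith
      have := mul_le_mul_of_nonneg_left h3 (hp0 n)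
      linarith
    nlinarith

end pietsch

end Pool.Agent.TH804.GW
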