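import Pool.Agent.TH804.GW2

/-!
Montgomery's conjecture in the form of MP_71ac24: the weighted and the vector valued form
-/

set_option autoImplicit false

open Finset

namespace Pool.Agent.TH804.GW

/-- `n^{it}` -/
noncomputable def E (t : ℝ) (n : ℕ) : ℂ := Complex.exp (Complex.I * (t : ℂ) * (Real.log (n : ℝ) : ℂ))

def Sep (T : ℝ) (S : Finset ℝ) : Prop :=
  (∀ t ∈ S, 0 ≤ t ∧ t ≤ T) ∧ ∀ t ∈ S, ∀ u ∈ S, t ≠ u → 1 ≤ |t - u|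

def MC : Prop := ∀ ε : ℝ, 0 < ε → ∃ C : ℝ, 0 < C ∧ ∀ N : ℕ, 1 ≤ N → ∀ T : ℝ, T ≤ (N : ℝ) ^ 2 →
  ∀ S : Finset ℝ, Sep T S → ∀ a : ℕ → ℂ, (∀ n, ‖a n‖ ≤ 1) →
    QF S (Icc 1 N) E a ≤ C * (N : ℝ) ^ ε * ((N : ℝ) + (S.card : ℝ)) * N

def WC : Prop := ∀ ε : ℝ, 0 < ε → ∃ C : ℝ, 0 < C ∧ ∀ N : ℕ, 1 ≤ N → ∀ T : ℝ, T ≤ (N : ℝ) ^ 2 →
  ∀ S : Finset ℝ, Sep T S → ∃ w : ℕ → ℝ, (∀ n, 0 ≤ w n) ∧ ∑ n ∈ Icc 1 N, w n = N ∧ ∀ a : ℕ → ℂ,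
    QF S (Icc 1 N) E a ≤ C * (N : ℝ) ^ ε * ((N : ℝ) + (S.card : ℝ)) * ∑ n ∈ Icc 1 N, w n * ‖a n‖ ^ 2

def VC : Prop := ∀ ε : ℝ, 0 < ε → ∃ C : ℝ, 0 < C ∧ ∀ N : ℕ, 1 ≤ N → ∀ T : ℝ, T ≤ (N : ℝ) ^ 2 →
  ∀ S : Finset ℝ, Sep T S → ∀ (k : ℕ) (a : ℕ → EuclideanSpace ℂ (Fin k)), (∀ n, ‖a n‖ ≤ 1) →
    ∑ t ∈ S, ‖∑ n ∈ Icc 1 N, E t n • a n‖ ^ 2 ≤ C * (N : ℝ) ^ ε * ((N : ℝ) + (S.card : ℝ)) * N

theorem WC_of_MC (h : MC) : WC := by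
  intro ε hε
  obtain ⟨C, hC, h1⟩ := h ε hε
  refine ⟨3 * C, by positivity, fun N hN T hT S hS => ?_⟩
  have hN0 : (0 : ℝ) < N := by exact_mod_cast hN
  obtain ⟨p, hp0, hp1, hp⟩ := weights S (Icc 1 N) E ⟨1, by simpa using hN⟩ (h1 N hN T hT S hS)
  refine ⟨fun n => N * p n, fun n => mul_nonneg hN0.le (hp0 n), ?_, fun a => ?_⟩
  · rw [← mul_sum, hp1, mul_one]
  · refine (hp a).trans (le_of_eq ?_)
    have : ∑ n ∈ Icc 1 N, (N : ℝ) * p n * ‖a n‖ ^ 2 = N * ∑ n ∈ Icc 1 N, p n * ‖a n‖ ^ 2 := by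
      rw [mul_sum]
      exact sum_congr rfl fun n _ => by ring
    rw [this]
    ring

lemma sum_w_le {N : ℕ} {w : ℕ → ℝ} (hw : ∀ n, 0 ≤ w n) (hw1 : ∑ n ∈ Icc 1 N, w n = N) {b : ℕ → ℝ}
    (hb : ∀ n, b n ≤ 1) : ∑ n ∈ Icc 1 N, w n * b n ≤ N := by
  rw [← hw1]
  refine sum_le_sum fun n _ => ?_
  have := mul_le_mul_of_nonneg_left (hb n) (hw n)
  linarith

theorem VC_of_WC (h : WC) : VC := by
  intro ε hε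
  obtain ⟨C, hC, h1⟩ := h ε hε
  refine ⟨C, hC, fun N hN T hT S hS k a ha => ?_⟩
  have hN0 : (0 : ℝ) < N := by exact_mod_cast hN
  obtain ⟨w, hw0, hw1, hw⟩ := h1 N hN T hT S hS
  refine (vectors S (Icc 1 N) E hw a).trans ?_
  have h2 := sum_w_le hw0 hw1 (b := fun n => ‖a n‖ ^ 2) (fun n => by
    have := ha n
    have := norm_nonneg (a n)
    nlinarith)
  gcongr

theorem MC_of_VC (h : VC) : MC := by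
  intro ε hε
  obtain ⟨C, hC, h1⟩ := h ε hε
  refine ⟨C, hC, fun N hN T hT S hS a ha => ?_⟩
  have h2 := h1 N hN T hT S hS 1 (fun n => EuclideanSpace.single 0 (a n)) (fun n => by
    rw [EuclideanSpace.norm_single]; exact ha n)
  refine le_trans (le_of_eq ?_) h2
  unfold QF
  refine sum_congr rfl fun t _ => ?_
  rw [EuclideanSpace.norm_sq_eq]
  simp [mul_comm]

end Pool.Agent.TH804.GW
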