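import Pool.Agent.TH804.GW3

/-!
No weights are good for all sets of points
-/

set_option autoImplicit false

open Finset

namespace Pool.Agent.TH804.GW

/-- an interval on which the weights are not large -/
lemma light {N M : ℕ} (hM : 1 ≤ M) (hMN : 8 * M ≤ N) {w : ℕ → ℝ} (hw : ∀ n, 0 ≤ w n)
    (hw1 : ∑ n ∈ Icc 1 N, w n ≤ N) : ∃ n₀ : ℕ, N ≤ 2 * n₀ ∧ n₀ + M ≤ N + 1 ∧ ∑ n ∈ Ico n₀ (n₀ + M), w n ≤ 8 * M := by
  obtain ⟨h, hh⟩ : ∃ h : ℕ, h = N / 2 + 1 := ⟨_, rfl⟩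
  obtain ⟨J, hJ⟩ : ∃ J : ℕ, J = N / (4 * M) := ⟨_, rfl⟩
  have hJ1 : 4 * M * J ≤ N := by rw [hJ]; exact Nat.mul_div_le _ _
  have hJ2 : N < 4 * M * (J + 1) := by
    rw [hJ]
    have := Nat.lt_mul_div_succ N (show 0 < 4 * M by omega)
    simpa using this
  have hJ3 : N ≤ 8 * M * J := by
    have : 1 ≤ J := by
      by_contra hc
      have : J = 0 := by omega
      rw [this] at hJ2
      omega
    nlinarith
  by_contra hcon
  push Not at hcon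
  have h1 : ∀ j < J, (8 * M : ℝ) < ∑ n ∈ Ico (h + j * M) (h + j * M + M), w n := by
    intro j hj
    refine hcon (h + j * M) ?_ ?_
    · rw [hh]
      have := Nat.zero_le (j * M)
      omega
    · have h2 : (j + 1) * M ≤ J * M := Nat.mul_le_mul_right _ hj
      have h3 : (j + 1) * M = j * M + M := by ring
      have h4 : 4 * M * J = 4 * (J * M) := by ring
      rw [hh]
      omega
  have h2 : ∀ j ≤ J, ∑ n ∈ Ico h (h + j * M), w n = ∑ i ∈ range j, ∑ n ∈ Ico (h + i * M) (h + i * M + M), w n := by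
    intro j
    induction j with
    | zero => intro _; simp
    | succ j ih =>
      intro hj
      rw [sum_range_succ, ← ih (by omega)]
      have e : h + (j + 1) * M = h + j * M + M := by ring
      rw [e, Finset.sum_Ico_consecutive _ (by omega) (by omega)]
  have h3 : ∑ n ∈ Ico h (h + J * M), w n ≤ N := by
    refine (sum_le_sum_of_subset_of_nonneg ?_ fun n _ _ => hw n).trans hw1
    intro n hn
    rw [mem_Ico] at hn
    rw [mem_Icc]
    have h4 : 4 * M * J = 4 * (J * M) := by ring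
    omega
  rw [h2 J le_rfl] at h3
  have h4 : (J : ℝ) * (8 * M) < ∑ i ∈ range J, ∑ n ∈ Ico (h + i * M) (h + i * M + M), w n := by
    have : (J : ℝ) * (8 * M) = ∑ i ∈ range J, (8 * M : ℝ) := by simp
    rw [this]
    refine sum_lt_sum_of_nonempty ?_ fun i hi => h1 i (mem_range.1 hi)
    rw [nonempty_range_iff]
    intro h0
    rw [h0] at hJ3
    omega
  have h5 : (N : ℝ) ≤ 8 * M * J := by exact_mod_cast hJ3
  linarith

lemma E_norm (t : ℝ) (n : ℕ) : ‖E t n‖ = 1 := by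
  unfold E
  rw [show Complex.I * (t : ℂ) * (Real.log (n : ℝ) : ℂ) = ((t * Real.log n : ℝ) : ℂ) * Complex.I by push_cast; ring,
    Complex.norm_exp_ofReal_mul_I]

/-- the geometric-like sum is large -/
lemma big {n₀ M k l : ℕ} (hn₀ : 1 ≤ n₀) (hk : 16 * M ^ 2 * k ≤ n₀) (hl : 4 * M * l ≤ n₀) {A : Finset ℕ}
    (hA : A ⊆ Ico n₀ (n₀ + M)) :
    (A.card : ℝ) / 2 ≤ ‖∑ n ∈ A, E (2 * Real.pi * n₀ * k + l) n‖ := by
  obtain ⟨t, ht⟩ : ∃ t : ℝ, t = 2 * Real.pi * n₀ * k + l := ⟨_, rfl⟩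
  rw [← ht]
  have hn0 : (0 : ℝ) < n₀ := by exact_mod_cast hn₀
  have hk' : 16 * (M : ℝ) ^ 2 * k ≤ n₀ := by exact_mod_cast hk
  have hl' : 4 * (M : ℝ) * l ≤ n₀ := by exact_mod_cast hl
  have hpi := Real.pi_lt_d2
  have hpi0 := Real.pi_pos
  have key : ∀ n ∈ Ico n₀ (n₀ + M), ‖E t n - E t n₀‖ ≤ 1 / 2 := by
    intro n hn
    rw [mem_Ico] at hn
    obtain ⟨m, hm⟩ : ∃ m : ℕ, n = n₀ + m := ⟨n - n₀, by omega⟩
    have hmM : m < M := by omega
    obtain ⟨x, hx⟩ : ∃ x : ℝ, x = (m : ℝ) / n₀ := ⟨_, rfl⟩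
    have hx0 : 0 ≤ x := by rw [hx]; positivity
    obtain ⟨φ, hφ⟩ : ∃ φ : ℝ, φ = t * Real.log (1 + x) - 2 * Real.pi * k * m := ⟨_, rfl⟩
    have hlog : Real.log n = Real.log n₀ + Real.log (1 + x) := by
      rw [← Real.log_mul hn0.ne' (by positivity), hx, hm]
      congr 1
      push_cast
      field_simp
    have e1 : E t n = E t n₀ * Complex.exp (Complex.I * (φ : ℂ)) := by
      unfold E
      rw [← Complex.exp_add, hlog, hφ]
      have : Complex.exp (Complex.I * (t : ℂ) * ((Real.log n₀ + Real.log (1 + x) : ℝ) : ℂ)) =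
          Complex.exp (Complex.I * (t : ℂ) * (Real.log (n₀ : ℝ) : ℂ) +
            Complex.I * ((t * Real.log (1 + x) - 2 * Real.pi * k * m : ℝ) : ℂ) + ((k * m : ℤ) : ℂ) * (2 * Real.pi * Complex.I)) := by
        congr 1
        push_cast
        ring
      rw [this, Complex.exp_add, Complex.exp_int_mul_two_pi_mul_I, mul_one]
    have e2 : E t n - E t n₀ = E t n₀ * (Complex.exp (Complex.I * (φ : ℂ)) - 1) := by rw [e1]; ring
    rw [e2, norm_mul, E_norm, one_mul]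
    refine (Real.norm_exp_I_mul_ofReal_sub_one_le).trans ?_
    rw [Real.norm_eq_abs]
    have h1 : Real.log (1 + x) ≤ x := by
      have := Real.log_le_sub_one_of_pos (show 0 < 1 + x by linarith)
      linarith
    have h2 : x - x ^ 2 / 2 ≤ Real.log (1 + x) := by
      refine le_trans ?_ (Real.le_log_one_add_of_nonneg hx0)
      rw [le_div_iff₀ (by linarith)]
      have : 0 ≤ x ^ 3 := by positivity
      nlinarith
    have hm' : (m : ℝ) ≤ M := by exact_mod_cast hmM.le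
    have hm0 : (0 : ℝ) ≤ m := Nat.cast_nonneg _
    have hk0 : (0 : ℝ) ≤ k := Nat.cast_nonneg _
    have hl0 : (0 : ℝ) ≤ l := Nat.cast_nonneg _
    have hnx : (n₀ : ℝ) * x = m := by rw [hx]; field_simp
    have e3 : φ = 2 * Real.pi * n₀ * k * (Real.log (1 + x) - x) + l * Real.log (1 + x) := by
      rw [hφ, ht, ← hnx]; ring
    have h3 : (k : ℝ) * (n₀ * x ^ 2) ≤ 1 / 16 := by
      have : (k : ℝ) * (n₀ * x ^ 2) = k * m ^ 2 / n₀ := by rw [hx]; field_simp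
      rw [this, div_le_iff₀ hn0]
      have : (k : ℝ) * m ^ 2 ≤ k * M ^ 2 := by gcongr
      linarith
    have h4 : (l : ℝ) * x ≤ 1 / 4 := by
      have : (l : ℝ) * x = l * m / n₀ := by rw [hx]; ring
      rw [this, div_le_iff₀ hn0]
      have : (l : ℝ) * m ≤ l * M := by gcongr
      linarith
    rw [abs_le]
    have h5 : 0 ≤ Real.log (1 + x) := Real.log_nonneg (by linarith)
    have h6 : 0 ≤ 2 * Real.pi * n₀ * k := by positivity
    constructor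
    · have h7 : 2 * Real.pi * n₀ * k * (-(x ^ 2 / 2)) ≤ 2 * Real.pi * n₀ * k * (Real.log (1 + x) - x) :=
        mul_le_mul_of_nonneg_left (by linarith) h6
      have h8 : 2 * Real.pi * n₀ * k * (-(x ^ 2 / 2)) = -(Real.pi * (k * (n₀ * x ^ 2))) := by ring
      have h9 : 0 ≤ l * Real.log (1 + x) := by positivity
      have h10 : Real.pi * (k * (n₀ * x ^ 2)) ≤ 3.15 * (1 / 16) := by
        have : 0 ≤ (k : ℝ) * (n₀ * x ^ 2) := by positivity
        nlinarith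
      rw [e3]
      linarith
    · have h7 : 2 * Real.pi * n₀ * k * (Real.log (1 + x) - x) ≤ 0 :=
        mul_nonpos_of_nonneg_of_nonpos h6 (by linarith)
      have h8 : l * Real.log (1 + x) ≤ l * x := by gcongr
      rw [e3]
      linarith
  have h1 : ‖∑ n ∈ A, (E t n - E t n₀)‖ ≤ A.card / 2 := by
    refine (norm_sum_le _ _).trans ((sum_le_sum fun n hn => key n (hA hn)).trans ?_)
    simp
    linarith
  have h2 : ∑ n ∈ A, (E t n - E t n₀) = ∑ n ∈ A, E t n - A.card * E t n₀ := by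
    rw [sum_sub_distrib]
    simp
  have h3 : ‖(A.card : ℂ) * E t n₀‖ = A.card := by rw [norm_mul, E_norm]; simp
  have h4 := norm_sub_norm_le ((A.card : ℂ) * E t n₀) (∑ n ∈ A, E t n)
  rw [norm_sub_rev, ← h2, h3] at h4
  linarith

/-- the set of points -/
noncomputable def pts (n₀ K L : ℕ) : Finset ℝ :=
  (range K ×ˢ range L).image fun q : ℕ × ℕ => 2 * Real.pi * n₀ * (q.1 : ℝ) + (q.2 : ℝ)

lemma pts_sep_aux {n₀ L : ℕ} (hL : L ≤ n₀) (hn₀ : 1 ≤ n₀) {q r : ℕ × ℕ} (hq : q.2 < L) (hr : r.2 < L)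
    (hne : q ≠ r) : 1 ≤ |(2 * Real.pi * n₀ * (q.1 : ℝ) + (q.2 : ℝ)) - (2 * Real.pi * n₀ * (r.1 : ℝ) + (r.2 : ℝ))| := by
  have hpi := Real.pi_gt_three
  have hn0 : (1 : ℝ) ≤ n₀ := by exact_mod_cast hn₀
  have hL' : (L : ℝ) ≤ n₀ := by exact_mod_cast hL
  have hq' : (q.2 : ℝ) ≤ L := by exact_mod_cast hq.le
  have hr' : (r.2 : ℝ) ≤ L := by exact_mod_cast hr.le
  have hq0 : (0 : ℝ) ≤ q.2 := Nat.cast_nonneg _
  have hr0 : (0 : ℝ) ≤ r.2 := Nat.cast_nonneg _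
  rcases lt_trichotomy q.1 r.1 with h | h | h
  · have h1 : (q.1 : ℝ) + 1 ≤ r.1 := by exact_mod_cast h
    have h2 : 2 * Real.pi * n₀ * ((q.1 : ℝ) + 1) ≤ 2 * Real.pi * n₀ * r.1 := by gcongr
    rw [abs_sub_comm]
    refine le_trans ?_ (le_abs_self _)
    nlinarith
  · rw [h]
    have h1 : q.2 ≠ r.2 := fun h2 => hne (Prod.ext h h2)
    have h2 : (2 * Real.pi * n₀ * (r.1 : ℝ) + (q.2 : ℝ)) - (2 * Real.pi * n₀ * (r.1 : ℝ) + (r.2 : ℝ)) =
        (((q.2 : ℤ) - (r.2 : ℤ) : ℤ) : ℝ) := by push_cast; ring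
    rw [h2, ← Int.cast_abs]
    have h3 : (q.2 : ℤ) - (r.2 : ℤ) ≠ 0 := by omega
    exact_mod_cast Int.one_le_abs h3
  · have h1 : (r.1 : ℝ) + 1 ≤ q.1 := by exact_mod_cast h
    have h2 : 2 * Real.pi * n₀ * ((r.1 : ℝ) + 1) ≤ 2 * Real.pi * n₀ * q.1 := by gcongr
    refine le_trans ?_ (le_abs_self _)
    nlinarith

lemma pts_sep {n₀ K L : ℕ} (hL : L ≤ n₀) (hn₀ : 1 ≤ n₀) :
    ∀ t ∈ pts n₀ K L, ∀ u ∈ pts n₀ K L, t ≠ u → 1 ≤ |t - u| := by
  intro t ht u hu hne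
  unfold pts at ht hu
  rw [mem_image] at ht hu
  obtain ⟨q, hq, rfl⟩ := ht
  obtain ⟨r, hr, rfl⟩ := hu
  rw [mem_product, mem_range, mem_range] at hq hr
  exact pts_sep_aux hL hn₀ hq.2 hr.2 (fun h => hne (by rw [h]))

lemma pts_card {n₀ K L : ℕ} (hL : L ≤ n₀) (hn₀ : 1 ≤ n₀) : (pts n₀ K L).card = K * L := by
  unfold pts
  rw [card_image_of_injOn, card_product, card_range, card_range]
  intro q hq r hr h
  simp only [coe_product, Set.mem_prod, mem_coe, mem_range] at hq hr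
  by_contra hne
  have := pts_sep_aux hL hn₀ hq.2 hr.2 hne
  simp only at h
  rw [h, sub_self, abs_zero] at this
  linarith

/-- `M ≈ N^(1/3)` -/
lemma exists_M {N : ℕ} (hN : 1000 ≤ N) : ∃ M : ℕ, 9 < (M : ℝ) ∧ (M : ℝ) ^ 3 ≤ N ∧ (N : ℝ) ^ (1 / 3 : ℝ) ≤ 2 * M := by
  have hN' : (1000 : ℝ) ≤ N := by exact_mod_cast hN
  have hN0 : (0 : ℝ) < N := by linarith
  obtain ⟨y, hy⟩ : ∃ y : ℝ, y = (N : ℝ) ^ (1 / 3 : ℝ) := ⟨_, rfl⟩
  have hy0 : 0 ≤ y := by rw [hy]; positivity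
  have hy3 : y ^ 3 = N := by
    rw [hy, ← Real.rpow_natCast, ← Real.rpow_mul hN0.le]
    norm_num
  have hy10 : 10 ≤ y := by
    by_contra hc
    push Not at hc
    have : y ^ 3 < 10 ^ 3 := by gcongr
    rw [hy3] at this
    linarith
  have hMy : (⌊y⌋₊ : ℝ) ≤ y := Nat.floor_le hy0
  have hMy2 : y < ⌊y⌋₊ + 1 := Nat.lt_floor_add_one y
  refine ⟨⌊y⌋₊, by linarith, ?_, ?_⟩
  · rw [← hy3]
    gcongr
  · rw [← hy]
    linarith

/-- the configuration -/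
theorem config {N M n₀ : ℕ} (hM9 : 9 < (M : ℝ)) (hM3 : (M : ℝ) ^ 3 ≤ N) (hn1 : N ≤ 2 * n₀) (hn2 : n₀ + M ≤ N + 1) :
    ∃ S : Finset ℝ, Sep ((N : ℝ) ^ 2) S ∧ 0 < (S.card : ℝ) ∧ (N : ℝ) ≤ 512 * S.card ∧
      ∀ A ⊆ Ico n₀ (n₀ + M), ∀ t ∈ S, (A.card : ℝ) / 2 ≤ ‖∑ n ∈ A, E t n‖ := by
  have hM0 : (0 : ℝ) < M := by linarith
  have hM1 : 1 ≤ M := by exact_mod_cast hM0
  have hN0 : (0 : ℝ) < N := by
    have : (0 : ℝ) < (M : ℝ) ^ 3 := by positivity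
    linarith
  have hNn : 1 ≤ N := by exact_mod_cast hN0
  have hn1' : (N : ℝ) ≤ 2 * n₀ := by exact_mod_cast hn1
  have hn2' : (n₀ : ℝ) + M ≤ N + 1 := by exact_mod_cast hn2
  have hn0 : 1 ≤ n₀ := by omega
  have hn0' : (0 : ℝ) < n₀ := by exact_mod_cast hn0
  obtain ⟨K, hK⟩ : ∃ K : ℕ, K = n₀ / (16 * M ^ 2) := ⟨_, rfl⟩
  obtain ⟨L, hL⟩ : ∃ L : ℕ, L = n₀ / (4 * M) := ⟨_, rfl⟩
  have hK1 : 16 * M ^ 2 * K ≤ n₀ := by rw [hK]; exact Nat.mul_div_le _ _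
  have hL1 : 4 * M * L ≤ n₀ := by rw [hL]; exact Nat.mul_div_le _ _
  have hK2 : (n₀ : ℝ) ≤ 16 * M ^ 2 * (K + 1) := by
    have := Nat.lt_mul_div_succ n₀ (show 0 < 16 * M ^ 2 by positivity)
    rw [← hK] at this
    exact_mod_cast this.le
  have hLn : L ≤ n₀ := by rw [hL]; exact Nat.div_le_self _ _
  have hK1' : 16 * (M : ℝ) ^ 2 * K ≤ n₀ := by exact_mod_cast hK1
  have hL2 : (n₀ : ℝ) ≤ 4 * M * (L + 1) := by
    have := Nat.lt_mul_div_succ n₀ (show 0 < 4 * M by omega)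
    rw [← hL] at this
    exact_mod_cast this.le
  have hL3 : (n₀ : ℝ) ≤ 8 * M * L := by
    have h1 : 8 * (M : ℝ) ≤ n₀ := by
      have h2 : (81 : ℝ) * M ≤ M ^ 3 := by nlinarith
      linarith
    have h2 : (1 : ℝ) ≤ L := by
      have : 1 ≤ L := by
        rw [hL, Nat.one_le_div_iff (by omega)]
        have : (4 : ℝ) * M ≤ n₀ := by linarith
        exact_mod_cast this
      exact_mod_cast this
    nlinarith
  have hL0 : (0 : ℝ) ≤ L := Nat.cast_nonneg _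
  have hK0 : (0 : ℝ) ≤ K := Nat.cast_nonneg _
  obtain ⟨S, hS⟩ : ∃ S : Finset ℝ, S = pts n₀ (K + 1) L := ⟨_, rfl⟩
  have hcard : (S.card : ℝ) = (K + 1) * L := by rw [hS, pts_card hLn hn0]; push_cast; ring
  refine ⟨S, ⟨?_, ?_⟩, ?_, ?_, ?_⟩
  · intro t ht
    rw [hS, pts, mem_image] at ht
    obtain ⟨q, hq, rfl⟩ := ht
    rw [mem_product, mem_range, mem_range] at hq
    have hq1 : (q.1 : ℝ) ≤ K := by
      have : q.1 ≤ K := by omega
      exact_mod_cast this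
    have hq2 : (q.2 : ℝ) ≤ L := by exact_mod_cast hq.2.le
    have hpi := Real.pi_pos
    have hpi4 := Real.pi_le_four
    refine ⟨by positivity, ?_⟩
    have h1 : 2 * Real.pi * n₀ * (q.1 : ℝ) ≤ 8 * n₀ * K := by
      have : 2 * Real.pi * n₀ * (q.1 : ℝ) ≤ 2 * 4 * n₀ * K := by gcongr
      linarith
    have h2 : 16 * (K : ℝ) ≤ n₀ := by
      have : (1 : ℝ) ≤ (M : ℝ) ^ 2 := by nlinarith
      nlinarith
    have h3 : 8 * (n₀ : ℝ) * K ≤ n₀ * n₀ / 2 := by nlinarith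
    have h4 : (L : ℝ) ≤ n₀ := by exact_mod_cast hLn
    have h5 : (n₀ : ℝ) ≤ N := by linarith
    nlinarith
  · rw [hS]
    exact pts_sep hLn hn0
  · rw [hcard]
    have : (0 : ℝ) < L := by
      by_contra hc
      have : (L : ℝ) = 0 := le_antisymm (not_lt.1 hc) hL0
      rw [this] at hL3
      linarith
    positivity
  · rw [hcard]
    -- `(K+1) L ≥ n₀² / (128 M³) ≥ N² / (512 N)`
    have h1 : (n₀ : ℝ) * n₀ ≤ (16 * M ^ 2 * (K + 1)) * (8 * M * L) := by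
      gcongr
    have h2 : (16 * (M : ℝ) ^ 2 * (K + 1)) * (8 * M * L) = 128 * M ^ 3 * ((K + 1) * L) := by ring
    have h3 : 128 * (M : ℝ) ^ 3 * ((K + 1) * L) ≤ 128 * N * ((K + 1) * L) := by gcongr
    have h4 : (N : ℝ) * N ≤ 4 * (n₀ * n₀) := by nlinarith
    have h5 : (N : ℝ) * N ≤ N * (512 * ((K + 1) * L)) := by nlinarith
    exact le_of_mul_le_mul_left h5 hN0
  · intro A hA t ht
    rw [hS, pts, mem_image] at ht
    obtain ⟨q, hq, rfl⟩ := ht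
    rw [mem_product, mem_range, mem_range] at hq
    exact big (M := M) (k := q.1) (l := q.2) hn0
      ((Nat.mul_le_mul_left _ (by omega)).trans hK1) ((Nat.mul_le_mul_left _ (by omega)).trans hL1) hA

/-- the quadratic form at an indicator function -/
lemma QF_ind {S : Finset ℝ} {N : ℕ} {A : Finset ℕ} (hA : A ⊆ Icc 1 N)
    (h : ∀ t ∈ S, (A.card : ℝ) / 2 ≤ ‖∑ n ∈ A, E t n‖) :
    (S.card : ℝ) * ((A.card : ℝ) / 2) ^ 2 ≤ QF S (Icc 1 N) E (fun n => if n ∈ A then 1 else 0) := by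
  classical
  unfold QF
  rw [← nsmul_eq_mul]
  refine card_nsmul_le_sum _ _ _ fun t ht => ?_
  have h1 : ∑ n ∈ Icc 1 N, (if n ∈ A then (1 : ℂ) else 0) * E t n = ∑ n ∈ A, E t n := by
    simp only [ite_mul, one_mul, zero_mul]
    rw [← sum_filter]
    congr 1
    ext n
    rw [mem_filter]
    exact ⟨fun h => h.2, fun h => ⟨hA h, h⟩⟩
  rw [h1]
  exact pow_le_pow_left₀ (by positivity) (h t ht) 2

lemma sum_ind {N : ℕ} {A : Finset ℕ} (hA : A ⊆ Icc 1 N) (w : ℕ → ℝ) :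
    ∑ n ∈ Icc 1 N, w n * ‖(if n ∈ A then (1 : ℂ) else 0)‖ ^ 2 = ∑ n ∈ A, w n := by
  classical
  have : ∀ n, w n * ‖(if n ∈ A then (1 : ℂ) else 0)‖ ^ 2 = if n ∈ A then w n else 0 := by
    intro n
    split_ifs <;> simp
  simp_rw [this]
  rw [← sum_filter]
  congr 1
  ext n
  rw [mem_filter]
  exact ⟨fun h => h.2, fun h => ⟨hA h, h⟩⟩

theorem no_weights : ∃ c : ℝ, 0 < c ∧ ∃ N₀ : ℕ, ∀ N : ℕ, N₀ ≤ N → ∀ w : ℕ → ℝ, (∀ n, 0 ≤ w n) →
    ∑ n ∈ Icc 1 N, w n ≤ N → ∃ S : Finset ℝ, Sep ((N : ℝ) ^ 2) S ∧ ∃ a : ℕ → ℂ, (∀ n, ‖a n‖ ≤ 1) ∧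
      0 < QF S (Icc 1 N) E a ∧
      c * (N : ℝ) ^ (1 / 3 : ℝ) * ((N : ℝ) + S.card) * ∑ n ∈ Icc 1 N, w n * ‖a n‖ ^ 2 ≤ QF S (Icc 1 N) E a := by
  classical
  refine ⟨1 / 40000, by norm_num, 1000, fun N hN w hw hw1 => ?_⟩
  obtain ⟨M, hM9, hM3, hM2⟩ := exists_M hN
  have hM0 : (0 : ℝ) < M := by linarith
  have hM1 : 1 ≤ M := by exact_mod_cast hM0
  have h8 : 8 * M ≤ N := by
    have : (8 : ℝ) * M ≤ N := by nlinarith [mul_nonneg hM0.le (sq_nonneg ((M:ℝ) - 9))]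
    exact_mod_cast this
  obtain ⟨n₀, hn1, hn2, hn3⟩ := light hM1 h8 hw hw1
  obtain ⟨S, hS, hS0, hSN, hA⟩ := config hM9 hM3 hn1 hn2
  have hsub : Ico n₀ (n₀ + M) ⊆ Icc 1 N := by
    intro n hn
    rw [mem_Ico] at hn
    rw [mem_Icc]
    omega
  have hc : ((Ico n₀ (n₀ + M)).card : ℝ) = M := by simp
  have hQ := QF_ind (S := S) hsub (hA _ (Subset.refl _))
  rw [hc] at hQ
  refine ⟨S, hS, _, fun n => ?_, ?_, le_trans ?_ hQ⟩
  · split_ifs <;> simp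
  · exact lt_of_lt_of_le (by positivity) hQ
  · rw [sum_ind hsub]
    have h3 : (N : ℝ) + S.card ≤ 513 * S.card := by linarith
    calc 1 / 40000 * (N : ℝ) ^ (1 / 3 : ℝ) * ((N : ℝ) + S.card) * ∑ n ∈ Ico n₀ (n₀ + M), w n
        ≤ 1 / 40000 * (2 * M) * (513 * S.card) * (8 * M) := by
          have : 0 ≤ ∑ n ∈ Ico n₀ (n₀ + M), w n := sum_nonneg fun _ _ => hw _
          gcongr
      _ ≤ S.card * (M / 2) ^ 2 := by nlinarith [mul_nonneg hS0.le (sq_nonneg (M : ℝ))]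

theorem no_exceptional : ∃ c : ℝ, 0 < c ∧ ∃ N₀ : ℕ, ∀ N : ℕ, N₀ ≤ N → ∀ B : Finset ℕ, B ⊆ Icc 1 N →
    32 * B.card ≤ N → ∃ S : Finset ℝ, Sep ((N : ℝ) ^ 2) S ∧ ∃ a : ℕ → ℂ, (∀ n, ‖a n‖ ≤ 1) ∧ (∀ n ∈ B, a n = 0) ∧
      0 < QF S (Icc 1 N) E a ∧
      c * (N : ℝ) ^ (1 / 3 : ℝ) * ((N : ℝ) + S.card) * ∑ n ∈ Icc 1 N, ‖a n‖ ^ 2 ≤ QF S (Icc 1 N) E a := by
  classical
  refine ⟨1 / 40000, by norm_num, 1000, fun N hN B hB hB1 => ?_⟩
  obtain ⟨M, hM9, hM3, hM2⟩ := exists_M hN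
  have hM0 : (0 : ℝ) < M := by linarith
  have hM1 : 1 ≤ M := by exact_mod_cast hM0
  have h8 : 8 * M ≤ N := by
    have : (8 : ℝ) * M ≤ N := by nlinarith [mul_nonneg hM0.le (sq_nonneg ((M:ℝ) - 9))]
    exact_mod_cast this
  obtain ⟨w, hw⟩ : ∃ w : ℕ → ℝ, w = fun n => if n ∈ B then 32 else 0 := ⟨_, rfl⟩
  have hw0 : ∀ n, 0 ≤ w n := by
    intro n
    rw [hw]
    dsimp only
    split_ifs <;> norm_num
  have hwsum : ∀ C : Finset ℕ, ∑ n ∈ C, w n = 32 * ((C ∩ B).card : ℝ) := by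
    intro C
    rw [hw]
    dsimp only
    rw [← sum_filter, sum_const, nsmul_eq_mul, filter_mem_eq_inter]
    ring
  have hw1 : ∑ n ∈ Icc 1 N, w n ≤ N := by
    rw [hwsum]
    have : (32 : ℝ) * B.card ≤ N := by exact_mod_cast hB1
    have h2 : (((Icc 1 N ∩ B).card : ℕ) : ℝ) ≤ B.card := by exact_mod_cast card_le_card inter_subset_right
    linarith
  obtain ⟨n₀, hn1, hn2, hn3⟩ := light hM1 h8 hw0 hw1
  rw [hwsum] at hn3
  obtain ⟨S, hS, hS0, hSN, hA⟩ := config hM9 hM3 hn1 hn2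
  obtain ⟨A, hAdef⟩ : ∃ A : Finset ℕ, A = Ico n₀ (n₀ + M) \ B := ⟨_, rfl⟩
  have hAI : A ⊆ Ico n₀ (n₀ + M) := by rw [hAdef]; exact sdiff_subset
  have hsub : A ⊆ Icc 1 N := by
    intro n hn
    have := hAI hn
    rw [mem_Ico] at this
    rw [mem_Icc]
    omega
  have hc1 : (M : ℝ) - M / 4 ≤ A.card := by
    have h1 : A.card + (Ico n₀ (n₀ + M) ∩ B).card = M := by
      rw [hAdef, card_sdiff_add_card_inter]
      simp
    have h2 : (A.card : ℝ) + (Ico n₀ (n₀ + M) ∩ B).card = M := by exact_mod_cast h1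
    linarith
  have hc2 : (A.card : ℝ) ≤ M := by
    have h1 : A.card ≤ M := by
      have := card_le_card hAI
      simpa using this
    exact_mod_cast h1
  have hc0 : (0 : ℝ) < A.card := by linarith
  have hQ := QF_ind (S := S) hsub (hA _ hAI)
  refine ⟨S, hS, _, fun n => ?_, fun n hn => ?_, ?_, le_trans ?_ hQ⟩
  · split_ifs <;> simp
  · rw [if_neg]
    rw [hAdef, mem_sdiff]
    exact fun h => h.2 hn
  · exact lt_of_lt_of_le (by positivity) hQ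
  · have h1 := sum_ind hsub (fun _ => 1)
    simp only [one_mul, sum_const, nsmul_eq_mul, mul_one] at h1
    rw [h1]
    have h3 : (N : ℝ) + S.card ≤ 513 * S.card := by linarith
    calc 1 / 40000 * (N : ℝ) ^ (1 / 3 : ℝ) * ((N : ℝ) + S.card) * A.card
        ≤ 1 / 40000 * (2 * M) * (513 * S.card) * A.card := by gcongr
      _ ≤ S.card * (A.card / 2) ^ 2 := by
          have h4 : 0 ≤ (S.card : ℝ) * A.card := by positivity
          have h5 : 1 / 40000 * (2 * M) * 513 ≤ (A.card : ℝ) / 4 := by linarith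
          nlinarith

end Pool.Agent.TH804.GW
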