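import Pool.Agent.TH804.GW4

/-!
The form with an exceptional set of integers
-/

set_option autoImplicit false

open Finset

namespace Pool.Agent.TH804.GW

/-- the `ℓ²` inequality off a set of at most `N / K` integers, with the loss of a factor `K` -/
def EC : Prop := ∀ ε : ℝ, 0 < ε → ∃ C : ℝ, 0 < C ∧ ∀ N : ℕ, 1 ≤ N → ∀ T : ℝ, T ≤ (N : ℝ) ^ 2 →
  ∀ S : Finset ℝ, Sep T S → ∀ K : ℝ, 1 ≤ K → ∃ B : Finset ℕ, B ⊆ Icc 1 N ∧ K * B.card ≤ N ∧ ∀ a : ℕ → ℂ,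
    (∀ n ∈ B, a n = 0) →
      QF S (Icc 1 N) E a ≤ C * (N : ℝ) ^ ε * K * ((N : ℝ) + (S.card : ℝ)) * ∑ n ∈ Icc 1 N, ‖a n‖ ^ 2

section general

variable {τ : Type*} (S : Finset τ) (U : τ → ℕ → ℂ)

/-- from weights to exceptional sets -/
lemma exc_of_weights {N : ℕ} {w : ℕ → ℝ} (hw0 : ∀ n, 0 ≤ w n) (hw1 : ∑ n ∈ Icc 1 N, w n = N) {Q : ℝ} (hQ : 0 ≤ Q)
    (hw : ∀ a : ℕ → ℂ, QF S (Icc 1 N) U a ≤ Q * ∑ n ∈ Icc 1 N, w n * ‖a n‖ ^ 2) (K : ℝ) :
    ∃ B : Finset ℕ, B ⊆ Icc 1 N ∧ K * B.card ≤ N ∧ ∀ a : ℕ → ℂ, (∀ n ∈ B, a n = 0) →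
      QF S (Icc 1 N) U a ≤ Q * K * ∑ n ∈ Icc 1 N, ‖a n‖ ^ 2 := by
  classical
  refine ⟨(Icc 1 N).filter (fun n => K < w n), filter_subset _ _, ?_, fun a ha => ?_⟩
  · have h1 : ∑ n ∈ (Icc 1 N).filter (fun n => K < w n), K ≤ ∑ n ∈ (Icc 1 N).filter (fun n => K < w n), w n :=
      sum_le_sum fun n hn => (mem_filter.1 hn).2.le
    have h2 : ∑ n ∈ (Icc 1 N).filter (fun n => K < w n), w n ≤ ∑ n ∈ Icc 1 N, w n :=
      sum_le_sum_of_subset_of_nonneg (filter_subset _ _) fun n _ _ => hw0 n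
    rw [sum_const, nsmul_eq_mul] at h1
    rw [hw1] at h2
    linarith
  · refine (hw a).trans ?_
    rw [mul_assoc, mul_sum (a := K)]
    refine mul_le_mul_of_nonneg_left (sum_le_sum fun n hn => ?_) hQ
    by_cases h : K < w n
    · rw [ha n (mem_filter.2 ⟨hn, h⟩)]
      simp
    · exact mul_le_mul_of_nonneg_right (not_lt.1 h) (by positivity)

lemma QF_sum_le (I : Finset ℕ) (J : ℕ) (b : ℕ → ℕ → ℂ) :
    QF S I U (fun n => ∑ j ∈ range J, b j n) ≤ J * ∑ j ∈ range J, QF S I U (b j) := by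
  unfold QF
  rw [sum_comm, mul_sum]
  refine sum_le_sum fun t _ => ?_
  have h1 : ∑ n ∈ I, (∑ j ∈ range J, b j n) * U t n = ∑ j ∈ range J, ∑ n ∈ I, b j n * U t n := by
    simp_rw [sum_mul]
    rw [sum_comm]
  rw [h1]
  have h2 : ‖∑ j ∈ range J, ∑ n ∈ I, b j n * U t n‖ ^ 2 ≤ (∑ j ∈ range J, ‖∑ n ∈ I, b j n * U t n‖) ^ 2 :=
    pow_le_pow_left₀ (norm_nonneg _) (norm_sum_le _ _) 2
  refine h2.trans ?_
  have h3 := sq_sum_le_card_mul_sum_sq (s := range J) (f := fun j => ‖∑ n ∈ I, b j n * U t n‖)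
  rw [card_range] at h3
  exact h3

/-- from exceptional sets to bounded coefficients -/
lemma bdd_of_exc {N : ℕ} {Q : ℝ} (hQ : 0 ≤ Q)
    (h : ∀ K : ℝ, 1 ≤ K → ∃ B : Finset ℕ, B ⊆ Icc 1 N ∧ K * B.card ≤ N ∧ ∀ a : ℕ → ℂ, (∀ n ∈ B, a n = 0) →
      QF S (Icc 1 N) U a ≤ Q * K * ∑ n ∈ Icc 1 N, ‖a n‖ ^ 2) {a : ℕ → ℂ} (ha : ∀ n, ‖a n‖ ≤ 1) :
    QF S (Icc 1 N) U a ≤ 2 * ((Nat.log 2 N : ℝ) + 1) ^ 2 * Q * N := by
  classical
  choose! B hB1 hB2 hB3 using h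
  obtain ⟨J, hJ⟩ : ∃ J : ℕ, J = Nat.log 2 N + 1 := ⟨_, rfl⟩
  have hNJ : N < 2 ^ J := by rw [hJ]; exact Nat.lt_pow_succ_log_self (by norm_num) N
  -- `G j` = set for `K = 2 ^ j`
  obtain ⟨G, hG⟩ : ∃ G : ℕ → Finset ℕ, G = fun j => B ((2 : ℝ) ^ j) := ⟨_, rfl⟩
  have h2j : ∀ j : ℕ, (1 : ℝ) ≤ 2 ^ j := fun j => one_le_pow₀ (by norm_num)
  have hG2 : ∀ j, (2 : ℝ) ^ j * (G j).card ≤ N := fun j => by rw [hG]; exact hB2 _ (h2j j)
  have hGJ : G J = ∅ := by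
    have h1 := hG2 J
    rw [← card_eq_zero]
    by_contra hc
    have h2 : (1 : ℝ) ≤ (G J).card := by exact_mod_cast Nat.one_le_iff_ne_zero.2 hc
    have h3 : (N : ℝ) < 2 ^ J := by exact_mod_cast hNJ
    have h4 := h2j J
    nlinarith
  -- `n` belongs to the class of the least `j` in `1..J` with `n ∉ G j`
  have hex : ∀ n : ℕ, ∃ j : ℕ, n ∉ G (j + 1) := fun n => ⟨J - 1, by
    have : J - 1 + 1 = J := by omega
    rw [this, hGJ]; simp⟩
  obtain ⟨f, hf⟩ : ∃ f : ℕ → ℕ, f = fun n => Nat.find (hex n) := ⟨_, rfl⟩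
  have hf1 : ∀ n, n ∉ G (f n + 1) := fun n => by rw [hf]; exact Nat.find_spec (hex n)
  have hfn : ∀ n, f n = Nat.find (hex n) := fun n => by rw [hf]
  have hf2 : ∀ n, f n < J := fun n => by
    have h1 : Nat.find (hex n) ≤ J - 1 := Nat.find_min' (hex n) (by
      have : J - 1 + 1 = J := by omega
      rw [this, hGJ]; simp)
    rw [← hfn] at h1
    omega
  have hf3 : ∀ n, f n ≠ 0 → n ∈ G (f n) := fun n hn => by
    by_contra hc
    have h1 : Nat.find (hex n) ≤ f n - 1 := Nat.find_min' (hex n) (by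
      have : f n - 1 + 1 = f n := by omega
      rw [this]; exact hc)
    rw [← hfn] at h1
    omega
  obtain ⟨b, hb⟩ : ∃ b : ℕ → ℕ → ℂ, b = fun j n => if f n = j then a n else 0 := ⟨_, rfl⟩
  have hsum : ∀ n, ∑ j ∈ range J, b j n = a n := by
    intro n
    rw [hb]
    simp only
    rw [sum_ite_eq]
    simp [hf2 n]
  have hQF : QF S (Icc 1 N) U a = QF S (Icc 1 N) U (fun n => ∑ j ∈ range J, b j n) := by
    congr 1
    funext n
    exact (hsum n).symm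
  have hj : ∀ j ∈ range J, QF S (Icc 1 N) U (b j) ≤ 2 * Q * N := by
    intro j _
    have h1 := hB3 ((2 : ℝ) ^ (j + 1)) (h2j _) (b j) (fun n hn => by
      rw [hb]
      dsimp only
      rw [if_neg]
      intro h2
      have h3 := hf1 n
      rw [h2, hG] at h3
      exact h3 hn)
    refine h1.trans ?_
    have h4 : (2 : ℝ) ^ j * ∑ n ∈ Icc 1 N, ‖b j n‖ ^ 2 ≤ N := by
      rcases Nat.eq_zero_or_pos j with h0 | h0
      · rw [h0, pow_zero, one_mul]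
        refine (sum_le_sum fun n _ => show ‖b 0 n‖ ^ 2 ≤ (1 : ℝ) from ?_).trans (by simp)
        rw [hb]
        dsimp only
        split_ifs
        · have := ha n
          have := norm_nonneg (a n)
          nlinarith
        · simp
      · have h5 : ∑ n ∈ Icc 1 N, ‖b j n‖ ^ 2 ≤ (G j).card := by
          have h6 : ∀ n ∈ Icc 1 N, ‖b j n‖ ^ 2 ≤ if n ∈ G j then (1 : ℝ) else 0 := by
            intro n _
            rw [hb]
            dsimp only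
            by_cases h7 : f n = j
            · have h8 : n ∈ G j := by rw [← h7]; exact hf3 n (by omega)
              rw [if_pos h7, if_pos h8]
              have := ha n
              have := norm_nonneg (a n)
              nlinarith
            · rw [if_neg h7]
              split_ifs <;> simp
          refine (sum_le_sum h6).trans ?_
          rw [← sum_filter, sum_const, nsmul_eq_mul, mul_one, filter_mem_eq_inter]
          exact_mod_cast card_le_card inter_subset_right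
        have h9 := hG2 j
        have h10 : (0 : ℝ) ≤ 2 ^ j := by positivity
        nlinarith
    have h5 : Q * 2 ^ (j + 1) * ∑ n ∈ Icc 1 N, ‖b j n‖ ^ 2 = 2 * Q * (2 ^ j * ∑ n ∈ Icc 1 N, ‖b j n‖ ^ 2) := by
      rw [pow_succ]; ring
    rw [h5]
    exact mul_le_mul_of_nonneg_left h4 (by positivity)
  rw [hQF]
  refine (QF_sum_le S U _ J b).trans ?_
  have h1 : ∑ j ∈ range J, QF S (Icc 1 N) U (b j) ≤ J * (2 * Q * N) := by
    refine (sum_le_sum hj).trans ?_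
    simp
  have h2 : (J : ℝ) = (Nat.log 2 N : ℝ) + 1 := by rw [hJ]; push_cast; ring
  calc (J : ℝ) * ∑ j ∈ range J, QF S (Icc 1 N) U (b j) ≤ J * (J * (2 * Q * N)) := by gcongr
    _ = _ := by rw [h2]; ring

end general

lemma log_le {ε : ℝ} (hε : 0 < ε) : ∃ C : ℝ, 0 < C ∧ ∀ N : ℕ, 1 ≤ N → 2 * ((Nat.log 2 N : ℝ) + 1) ^ 2 ≤ C * (N : ℝ) ^ ε := by
  refine ⟨2 * (2 / (ε * Real.log 2) + 1) ^ 2, by positivity, fun N hN => ?_⟩
  have hN1 : (1 : ℝ) ≤ N := by exact_mod_cast hN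
  have hN0 : (0 : ℝ) < N := by linarith
  have hl2 : 0 < Real.log 2 := Real.log_pos (by norm_num)
  have h1 : (Nat.log 2 N : ℝ) * Real.log 2 ≤ Real.log N := by
    rw [← Real.log_pow]
    apply Real.log_le_log (by positivity)
    exact_mod_cast Nat.pow_log_le_self 2 (by omega)
  have h2 : Real.log N ≤ (N : ℝ) ^ (ε / 2) / (ε / 2) := Real.log_le_rpow_div hN0.le (by positivity)
  have h3 : (1 : ℝ) ≤ (N : ℝ) ^ (ε / 2) := Real.one_le_rpow hN1 (by positivity)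
  have h4 : (Nat.log 2 N : ℝ) ≤ 2 / (ε * Real.log 2) * (N : ℝ) ^ (ε / 2) := by
    have h5 : (Nat.log 2 N : ℝ) ≤ ((N : ℝ) ^ (ε / 2) / (ε / 2)) / Real.log 2 := by
      rw [le_div_iff₀ hl2]
      exact h1.trans h2
    refine h5.trans (le_of_eq ?_)
    field_simp
  have h5 : (Nat.log 2 N : ℝ) + 1 ≤ (2 / (ε * Real.log 2) + 1) * (N : ℝ) ^ (ε / 2) := by linarith
  have h6 : ((N : ℝ) ^ (ε / 2)) ^ 2 = (N : ℝ) ^ ε := by
    rw [← Real.rpow_natCast, ← Real.rpow_mul hN0.le]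
    congr 1
    push_cast
    ring
  calc 2 * ((Nat.log 2 N : ℝ) + 1) ^ 2 ≤ 2 * ((2 / (ε * Real.log 2) + 1) * (N : ℝ) ^ (ε / 2)) ^ 2 := by gcongr
    _ = _ := by rw [mul_pow, h6]; ring

theorem EC_of_WC (h : WC) : EC := by
  intro ε hε
  obtain ⟨C, hC, h1⟩ := h ε hε
  refine ⟨C, hC, fun N hN T hT S hS K hK => ?_⟩
  obtain ⟨w, hw0, hw1, hw⟩ := h1 N hN T hT S hS
  obtain ⟨B, hB1, hB2, hB3⟩ := exc_of_weights S E hw0 hw1 (Q := C * (N : ℝ) ^ ε * ((N : ℝ) + (S.card : ℝ)))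
    (by positivity) hw K
  refine ⟨B, hB1, hB2, fun a ha => (hB3 a ha).trans (le_of_eq ?_)⟩
  ring

theorem MC_of_EC (h : EC) : MC := by
  intro ε hε
  obtain ⟨C, hC, h1⟩ := h (ε / 2) (by positivity)
  obtain ⟨C', hC', h2⟩ := log_le (ε := ε / 2) (by positivity)
  refine ⟨C' * C, by positivity, fun N hN T hT S hS a ha => ?_⟩
  have hN0 : (0 : ℝ) < N := by exact_mod_cast hN
  have h3 := bdd_of_exc S E (N := N) (Q := C * (N : ℝ) ^ (ε / 2) * ((N : ℝ) + (S.card : ℝ))) (by positivity)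
    (fun K hK => by
      obtain ⟨B, hB1, hB2, hB3⟩ := h1 N hN T hT S hS K hK
      exact ⟨B, hB1, hB2, fun a ha => (hB3 a ha).trans (le_of_eq (by ring))⟩) ha
  refine h3.trans ?_
  have h4 := h2 N hN
  have h5 : (N : ℝ) ^ ε = (N : ℝ) ^ (ε / 2) * (N : ℝ) ^ (ε / 2) := by
    rw [← Real.rpow_add hN0, add_halves]
  calc 2 * ((Nat.log 2 N : ℝ) + 1) ^ 2 * (C * (N : ℝ) ^ (ε / 2) * ((N : ℝ) + (S.card : ℝ))) * N
      ≤ (C' * (N : ℝ) ^ (ε / 2)) * (C * (N : ℝ) ^ (ε / 2) * ((N : ℝ) + (S.card : ℝ))) * N := by gcongr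
    _ = _ := by rw [h5]; ring

end Pool.Agent.TH804.GW
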