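import Pool.Agent.TH804.GW5

/-!
Montgomery's conjecture in the form of MP_a93a41: weighted, vector valued forms and exceptional sets
-/

set_option autoImplicit false

open Finset

namespace Pool.Agent.TH804.GX

open Pool.Agent.TH804.GW

/-- `n^{-it}` -/
noncomputable def U (t : ℝ) (n : ℕ) : ℂ := (n : ℂ) ^ (-((t : ℂ) * Complex.I))

lemma card_le {T : ℝ} (hT : 0 ≤ T) {S : Finset ℝ} (hS : Sep T S) : (S.card : ℝ) ≤ T + 1 := by
  classical
  have h1 : S.card ≤ (range (⌊T⌋₊ + 1)).card := by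
    refine card_le_card_of_injOn (fun t : ℝ => ⌊t⌋₊) ?_ ?_
    · intro t ht
      have := Nat.floor_le_floor (hS.1 t ht).2
      simp only [coe_range, Set.mem_Iio]
      omega
    · intro t ht u hu h
      by_contra hne
      have h1 := hS.2 t ht u hu hne
      have h2 := Nat.floor_le (hS.1 t ht).1
      have h3 := Nat.lt_floor_add_one t
      have h4 := Nat.floor_le (hS.1 u hu).1
      have h5 := Nat.lt_floor_add_one u
      simp only at h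
      rw [h] at h2 h3
      rw [le_abs] at h1
      rcases h1 with h1 | h1 <;> linarith
  rw [card_range] at h1
  have h2 : ((⌊T⌋₊ + 1 : ℕ) : ℝ) ≤ T + 1 := by
    push_cast
    linarith [Nat.floor_le hT]
  exact (Nat.cast_le.2 h1).trans h2

/-- a bound for a sum from bounds for the number of large terms -/
lemma sum_le_of_levels {x : ℝ → ℝ} {y₀ A : ℝ} (hA : 0 ≤ A) :
    ∀ (m : ℕ) (S : Finset ℝ), S.card = m → (∀ S' ⊆ S, ∀ y : ℝ, y₀ ≤ y → 0 < y → (∀ t ∈ S', y ≤ x t) → (S'.card : ℝ) * y ≤ A) →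
      (∀ t ∈ S, 0 ≤ x t) → ∑ t ∈ S, x t ≤ m * max y₀ 0 + A * (harmonic m : ℝ) := by
  classical
  intro m
  induction m with
  | zero =>
    intro S hS _ _
    rw [card_eq_zero.1 hS]
    simp
  | succ m ih =>
    intro S hS h hx
    have hne : S.Nonempty := by
      rw [← card_pos, hS]; omega
    obtain ⟨t₀, ht₀, hmin⟩ := S.exists_min_image x hne
    have h1 := ih (S.erase t₀) (by rw [card_erase_of_mem ht₀, hS]; omega)
      (fun S' hS' => h S' (hS'.trans (erase_subset _ _))) (fun t ht => hx t (mem_of_mem_erase ht))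
    rw [← add_sum_erase S x ht₀]
    have h2 : x t₀ ≤ max y₀ 0 + A * (1 / ((m : ℝ) + 1)) := by
      rcases le_or_gt (x t₀) (max y₀ 0) with h3 | h3
      · have : 0 ≤ A * (1 / ((m : ℝ) + 1)) := by positivity
        linarith
      · have h4 := h S (Subset.refl _) (x t₀) ((le_max_left _ _).trans h3.le) (lt_of_le_of_lt (le_max_right _ _) h3) hmin
        rw [hS] at h4
        push_cast at h4
        have h5 : x t₀ ≤ A * (1 / ((m : ℝ) + 1)) := by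
          rw [mul_one_div, le_div_iff₀ (by positivity)]
          linarith
        have : 0 ≤ max y₀ 0 := le_max_right _ _
        linarith
    rw [harmonic_succ]
    push_cast
    have e : A * ((harmonic m : ℝ) + ((m : ℝ) + 1)⁻¹) = A * (harmonic m : ℝ) + A * (1 / ((m : ℝ) + 1)) := by
      rw [one_div]; ring
    rw [e]
    linarith

/-- Q1, for `N ≤ T ^ A` (all `N` if `A = ⊤`, expressed by a predicate `R N T`) -/
def LV (R : ℕ → ℝ → Prop) : Prop := ∀ ε : ℝ, 0 < ε → ∃ C : ℝ, 0 < C ∧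
  ∀ (N : ℕ) (T V : ℝ) (a : ℕ → ℂ) (S : Finset ℝ), 1 ≤ N → 1 ≤ T → R N T → 0 < V → (∀ n, ‖a n‖ ≤ 1) →
    (N : ℝ) * T ^ ε ≤ V ^ 2 → Sep T S → (∀ t ∈ S, V ≤ ‖∑ n ∈ Icc 1 N, a n * U t n‖) →
      (S.card : ℝ) ≤ C * (N : ℝ) ^ 2 / V ^ 2 * T ^ ε

/-- the mean square over at most `N` points -/
def MS (R : ℕ → ℝ → Prop) : Prop := ∀ ε : ℝ, 0 < ε → ∃ C : ℝ, 0 < C ∧
  ∀ (N : ℕ) (T : ℝ) (S : Finset ℝ), 1 ≤ N → 1 ≤ T → R N T → Sep T S → S.card ≤ N → ∀ a : ℕ → ℂ, (∀ n, ‖a n‖ ≤ 1) →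
    QF S (Icc 1 N) U a ≤ C * (N : ℝ) ^ 2 * T ^ ε

/-- weights -/
def WS (R : ℕ → ℝ → Prop) : Prop := ∀ ε : ℝ, 0 < ε → ∃ C : ℝ, 0 < C ∧
  ∀ (N : ℕ) (T : ℝ) (S : Finset ℝ), 1 ≤ N → 1 ≤ T → R N T → Sep T S → S.card ≤ N →
    ∃ w : ℕ → ℝ, (∀ n, 0 ≤ w n) ∧ ∑ n ∈ Icc 1 N, w n = N ∧ ∀ a : ℕ → ℂ,
      QF S (Icc 1 N) U a ≤ C * N * T ^ ε * ∑ n ∈ Icc 1 N, w n * ‖a n‖ ^ 2

/-- exceptional sets -/
def ES (R : ℕ → ℝ → Prop) : Prop := ∀ ε : ℝ, 0 < ε → ∃ C : ℝ, 0 < C ∧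
  ∀ (N : ℕ) (T : ℝ) (S : Finset ℝ), 1 ≤ N → 1 ≤ T → R N T → Sep T S → S.card ≤ N → ∀ K : ℝ, 1 ≤ K →
    ∃ B : Finset ℕ, B ⊆ Icc 1 N ∧ K * B.card ≤ N ∧ ∀ a : ℕ → ℂ, (∀ n ∈ B, a n = 0) →
      QF S (Icc 1 N) U a ≤ C * K * N * T ^ ε * ∑ n ∈ Icc 1 N, ‖a n‖ ^ 2

/-- Q1 for vectors -/
def VS (R : ℕ → ℝ → Prop) : Prop := ∀ ε : ℝ, 0 < ε → ∃ C : ℝ, 0 < C ∧
  ∀ (N : ℕ) (T V : ℝ) (k : ℕ) (a : ℕ → EuclideanSpace ℂ (Fin k)) (S : Finset ℝ), 1 ≤ N → 1 ≤ T → R N T → 0 < V →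
    (∀ n, ‖a n‖ ≤ 1) → (N : ℝ) * T ^ ε ≤ V ^ 2 → Sep T S → (∀ t ∈ S, V ≤ ‖∑ n ∈ Icc 1 N, U t n • a n‖) →
      (S.card : ℝ) ≤ C * (N : ℝ) ^ 2 / V ^ 2 * T ^ ε

lemma Sep.sub {T : ℝ} {S S' : Finset ℝ} (h : Sep T S) (hs : S' ⊆ S) : Sep T S' :=
  ⟨fun t ht => h.1 t (hs ht), fun t ht u hu => h.2 t (hs ht) u (hs hu)⟩

theorem MS_of_LV {R : ℕ → ℝ → Prop} (h : LV R) : MS R := by
  intro ε hε
  obtain ⟨C, hC, h1⟩ := h (ε / 2) (by positivity)
  -- `harmonic m ≤ 1 + log (T + 1) ≤ C' T^(ε/2)`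
  obtain ⟨C', hC'⟩ : ∃ C' : ℝ, C' = 1 + Real.log 2 + 2 / ε := ⟨_, rfl⟩
  have hC'0 : 0 < C' := by rw [hC']; have := Real.log_nonneg (show (1:ℝ) ≤ 2 by norm_num); positivity
  refine ⟨1 + C * C', by positivity, fun N T S hN hT hR hS hSN a ha => ?_⟩
  have hN0 : (0 : ℝ) < N := by exact_mod_cast hN
  have hT0 : (0 : ℝ) < T := by linarith
  have hSN' : (S.card : ℝ) ≤ N := by exact_mod_cast hSN
  have hTe : (1 : ℝ) ≤ T ^ (ε / 2) := Real.one_le_rpow hT (by positivity)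
  have key := sum_le_of_levels (x := fun t => ‖∑ n ∈ Icc 1 N, a n * U t n‖ ^ 2) (y₀ := N * T ^ (ε / 2))
    (A := C * (N : ℝ) ^ 2 * T ^ (ε / 2)) (by positivity) S.card S rfl (fun S' hS' y hy1 hy2 hy3 => by
      have h2 := h1 N T (Real.sqrt y) a S' hN hT hR (Real.sqrt_pos.2 hy2) ha (by rw [Real.sq_sqrt hy2.le]; exact hy1)
        (Sep.sub hS hS') (fun t ht => by
          rw [Real.sqrt_le_left (norm_nonneg _)]
          exact hy3 t ht)
      rw [Real.sq_sqrt hy2.le] at h2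
      have h3 : C * (N : ℝ) ^ 2 / y * T ^ (ε / 2) = C * (N : ℝ) ^ 2 * T ^ (ε / 2) / y := by ring
      rw [h3, le_div_iff₀ hy2] at h2
      exact h2) (fun t _ => by positivity)
  have hharm : (harmonic S.card : ℝ) ≤ C' * T ^ (ε / 2) := by
    rcases Nat.eq_zero_or_pos S.card with h0 | h0
    · rw [h0]
      simp
      positivity
    · have h2 : (harmonic S.card : ℝ) ≤ 1 + Real.log S.card := harmonic_le_one_add_log _
      have h3 : Real.log S.card ≤ Real.log (2 * T) := by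
        apply Real.log_le_log (by exact_mod_cast h0)
        have := card_le hT0.le hS
        linarith
      rw [Real.log_mul (by norm_num) hT0.ne'] at h3
      have h4 : Real.log T ≤ T ^ (ε / 2) / (ε / 2) := Real.log_le_rpow_div hT0.le (by positivity)
      have h5 : T ^ (ε / 2) / (ε / 2) = 2 / ε * T ^ (ε / 2) := by field_simp
      have h6 := Real.log_nonneg (show (1:ℝ) ≤ 2 by norm_num)
      rw [hC']
      nlinarith
  have hTT : T ^ ε = T ^ (ε / 2) * T ^ (ε / 2) := by rw [← Real.rpow_add hT0, add_halves]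
  have hmax : max ((N : ℝ) * T ^ (ε / 2)) 0 = N * T ^ (ε / 2) := max_eq_left (by positivity)
  rw [hmax] at key
  refine key.trans ?_
  calc (S.card : ℝ) * (N * T ^ (ε / 2)) + C * (N : ℝ) ^ 2 * T ^ (ε / 2) * (harmonic S.card : ℝ)
      ≤ N * (N * T ^ (ε / 2)) * T ^ (ε / 2) + C * (N : ℝ) ^ 2 * T ^ (ε / 2) * (C' * T ^ (ε / 2)) := by
        have h7 : (S.card : ℝ) * (N * T ^ (ε / 2)) ≤ N * (N * T ^ (ε / 2)) := by gcongr
        have h8 : N * (N * T ^ (ε / 2)) ≤ N * (N * T ^ (ε / 2)) * T ^ (ε / 2) := by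
          have : 0 ≤ (N : ℝ) * (N * T ^ (ε / 2)) := by positivity
          nlinarith
        have h9 : C * (N : ℝ) ^ 2 * T ^ (ε / 2) * (harmonic S.card : ℝ) ≤ C * (N : ℝ) ^ 2 * T ^ (ε / 2) * (C' * T ^ (ε / 2)) := by
          gcongr
        linarith
    _ = _ := by rw [hTT]; ring

theorem WS_of_MS {R : ℕ → ℝ → Prop} (h : MS R) : WS R := by
  intro ε hε
  obtain ⟨C, hC, h1⟩ := h ε hε
  refine ⟨3 * C, by positivity, fun N T S hN hT hR hS hSN => ?_⟩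
  have hN0 : (0 : ℝ) < N := by exact_mod_cast hN
  obtain ⟨p, hp0, hp1, hp⟩ := weights S (Icc 1 N) U ⟨1, by simpa using hN⟩ (h1 N T S hN hT hR hS hSN)
  refine ⟨fun n => N * p n, fun n => mul_nonneg hN0.le (hp0 n), ?_, fun a => ?_⟩
  · rw [← mul_sum, hp1, mul_one]
  · refine (hp a).trans (le_of_eq ?_)
    have : ∑ n ∈ Icc 1 N, (N : ℝ) * p n * ‖a n‖ ^ 2 = N * ∑ n ∈ Icc 1 N, p n * ‖a n‖ ^ 2 := by
      rw [mul_sum]
      exact sum_congr rfl fun n _ => by ring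
    rw [this]
    ring

theorem ES_of_WS {R : ℕ → ℝ → Prop} (h : WS R) : ES R := by
  intro ε hε
  obtain ⟨C, hC, h1⟩ := h ε hε
  refine ⟨C, hC, fun N T S hN hT hR hS hSN K hK => ?_⟩
  have hT0 : (0 : ℝ) < T := by linarith
  obtain ⟨w, hw0, hw1, hw⟩ := h1 N T S hN hT hR hS hSN
  obtain ⟨B, hB1, hB2, hB3⟩ := exc_of_weights S U hw0 hw1 (Q := C * N * T ^ ε) (by positivity) hw K
  exact ⟨B, hB1, hB2, fun a ha => (hB3 a ha).trans (le_of_eq (by ring))⟩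

/-- the final step: from the mean square over at most `N` points to the number of points -/
lemma count {N : ℕ} {T V ε C : ℝ} (hN : 1 ≤ N) (hT : 1 ≤ T) (hV : 0 < V) (hε : 0 < ε) (hC : 0 < C)
    (hVT : (N : ℝ) * T ^ ε ≤ V ^ 2) {S : Finset ℝ} (hS : Sep T S) {x : ℝ → ℝ} (hx : ∀ t ∈ S, V ≤ x t)
    (h : ∀ S' ⊆ S, S'.card ≤ N → ∑ t ∈ S', x t ^ 2 ≤ C * (N : ℝ) ^ 2 * T ^ (ε / 2)) :
    (S.card : ℝ) ≤ (2 + (C + 1) ^ (2 / ε)) * (C + 1) * (N : ℝ) ^ 2 / V ^ 2 * T ^ ε := by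
  classical
  have hN0 : (0 : ℝ) < N := by exact_mod_cast hN
  have hN1 : (1 : ℝ) ≤ N := by exact_mod_cast hN
  have hT0 : (0 : ℝ) < T := by linarith
  have hTe : (1 : ℝ) ≤ T ^ (ε / 2) := Real.one_le_rpow hT (by positivity)
  have hTT : T ^ ε = T ^ (ε / 2) * T ^ (ε / 2) := by rw [← Real.rpow_add hT0, add_halves]
  have hsub : ∀ S' ⊆ S, S'.card ≤ N → (S'.card : ℝ) * V ^ 2 ≤ C * (N : ℝ) ^ 2 * T ^ (ε / 2) := by
    intro S' hS' hc
    refine le_trans ?_ (h S' hS' hc)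
    rw [← nsmul_eq_mul]
    refine card_nsmul_le_sum _ _ _ fun t ht => ?_
    exact pow_le_pow_left₀ hV.le (hx t (hS' ht)) 2
  have hP : 0 < (C + 1) ^ (2 / ε) := by positivity
  have hgoal : ∀ G : ℝ, (S.card : ℝ) * V ^ 2 ≤ G * (N : ℝ) ^ 2 * T ^ ε → G ≤ (2 + (C + 1) ^ (2 / ε)) * (C + 1) →
      (S.card : ℝ) ≤ (2 + (C + 1) ^ (2 / ε)) * (C + 1) * (N : ℝ) ^ 2 / V ^ 2 * T ^ ε := by
    intro G h1 h2
    have e : (2 + (C + 1) ^ (2 / ε)) * (C + 1) * (N : ℝ) ^ 2 / V ^ 2 * T ^ ε =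
      (2 + (C + 1) ^ (2 / ε)) * (C + 1) * (N : ℝ) ^ 2 * T ^ ε / V ^ 2 := by ring
    rw [e, le_div_iff₀ (by positivity)]
    refine h1.trans ?_
    gcongr
  rcases le_or_gt S.card N with hc | hc
  · refine hgoal C ((hsub S (Subset.refl _) hc).trans ?_) ?_
    · have : T ^ (ε / 2) ≤ T ^ ε := by rw [hTT]; nlinarith
      gcongr
    · nlinarith
  · -- more than `N` points: then `T` is bounded
    obtain ⟨S', hS', hc'⟩ := exists_subset_card_eq hc.le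
    have h1 := hsub S' hS' hc'.le
    rw [hc'] at h1
    have h2 : (N : ℝ) * (N * T ^ ε) ≤ C * (N : ℝ) ^ 2 * T ^ (ε / 2) := (mul_le_mul_of_nonneg_left hVT hN0.le).trans h1
    have h3 : T ^ (ε / 2) ≤ C := by
      have h4 : (N : ℝ) ^ 2 * T ^ (ε / 2) * T ^ (ε / 2) ≤ (N : ℝ) ^ 2 * T ^ (ε / 2) * C := by
        calc (N : ℝ) ^ 2 * T ^ (ε / 2) * T ^ (ε / 2) = N * (N * T ^ ε) := by rw [hTT]; ring
          _ ≤ C * (N : ℝ) ^ 2 * T ^ (ε / 2) := h2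
          _ = _ := by ring
      exact le_of_mul_le_mul_left h4 (by positivity)
    have hTb : T ≤ (C + 1) ^ (2 / ε) := by
      have h5 : (T ^ (ε / 2)) ^ (2 / ε) = T := by
        rw [← Real.rpow_mul hT0.le]
        have : ε / 2 * (2 / ε) = 1 := by field_simp
        rw [this, Real.rpow_one]
      rw [← h5]
      exact Real.rpow_le_rpow (by positivity) (h3.trans (by linarith)) (by positivity)
    -- `V² ≤ C N T^(ε/2)`
    have hV2 : V ^ 2 ≤ C * N * T ^ (ε / 2) := by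
      have h6 : (N : ℝ) * V ^ 2 ≤ N * (C * N * T ^ (ε / 2)) := h1.trans (le_of_eq (by ring))
      exact le_of_mul_le_mul_left h6 hN0
    have hcard := card_le hT0.le hS
    refine hgoal ((2 + (C + 1) ^ (2 / ε)) * (C + 1)) ?_ le_rfl
    have h7 : (S.card : ℝ) ≤ 2 + (C + 1) ^ (2 / ε) := by linarith
    have h8 : V ^ 2 ≤ (C + 1) * (N : ℝ) ^ 2 * T ^ ε := by
      calc V ^ 2 ≤ C * N * T ^ (ε / 2) := hV2
        _ ≤ (C + 1) * (N : ℝ) ^ 2 * T ^ ε := by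
            have : T ^ (ε / 2) ≤ T ^ ε := by rw [hTT]; nlinarith
            have h9 : (N : ℝ) ≤ (N : ℝ) ^ 2 := by nlinarith
            gcongr
            linarith
    calc (S.card : ℝ) * V ^ 2 ≤ (2 + (C + 1) ^ (2 / ε)) * ((C + 1) * (N : ℝ) ^ 2 * T ^ ε) := by gcongr
      _ = _ := by ring

theorem LV_of_MS {R : ℕ → ℝ → Prop} (h : MS R) : LV R := by
  intro ε hε
  obtain ⟨C, hC, h1⟩ := h (ε / 2) (by positivity)
  refine ⟨(2 + (C + 1) ^ (2 / ε)) * (C + 1), by positivity, fun N T V a S hN hT hR hV ha hVT hS hx => ?_⟩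
  exact count hN hT hV hε hC hVT hS (x := fun t => ‖∑ n ∈ Icc 1 N, a n * U t n‖) hx
    (fun S' hS' hc => h1 N T S' hN hT hR (Sep.sub hS hS') hc a ha)

theorem VS_of_WS {R : ℕ → ℝ → Prop} (h : WS R) : VS R := by
  intro ε hε
  obtain ⟨C, hC, h1⟩ := h (ε / 2) (by positivity)
  refine ⟨(2 + (C + 1) ^ (2 / ε)) * (C + 1), by positivity, fun N T V k a S hN hT hR hV ha hVT hS hx => ?_⟩
  refine count hN hT hV hε hC hVT hS (x := fun t => ‖∑ n ∈ Icc 1 N, U t n • a n‖) hx (fun S' hS' hc => ?_)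
  have hT0 : (0 : ℝ) < T := by linarith
  obtain ⟨w, hw0, hw1, hw⟩ := h1 N T S' hN hT hR (Sep.sub hS hS') hc
  refine (vectors S' (Icc 1 N) U hw a).trans ?_
  have h2 := sum_w_le hw0 hw1 (b := fun n => ‖a n‖ ^ 2) (fun n => by
    have := ha n
    have := norm_nonneg (a n)
    nlinarith)
  calc C * N * T ^ (ε / 2) * ∑ n ∈ Icc 1 N, w n * ‖a n‖ ^ 2 ≤ C * N * T ^ (ε / 2) * N := by gcongr
    _ = _ := by ring

theorem LV_of_VS {R : ℕ → ℝ → Prop} (h : VS R) : LV R := by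
  intro ε hε
  obtain ⟨C, hC, h1⟩ := h ε hε
  refine ⟨C, hC, fun N T V a S hN hT hR hV ha hVT hS hx => ?_⟩
  refine h1 N T V 1 (fun n => EuclideanSpace.single 0 (a n)) S hN hT hR hV (fun n => ?_) hVT hS (fun t ht => ?_)
  · rw [PiLp.norm_single]; exact ha n
  · refine (hx t ht).trans (le_of_eq ?_)
    rw [EuclideanSpace.norm_eq]
    simp [mul_comm]

theorem MS_of_ES {A : ℝ} (hA : 0 ≤ A) (h : ES fun N T => (N : ℝ) ≤ T ^ A) : MS fun N T => (N : ℝ) ≤ T ^ A := by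
  intro ε hε
  obtain ⟨C, hC, h1⟩ := h (ε / 2) (by positivity)
  obtain ⟨C', hC', h2⟩ := log_le (ε := ε / (2 * (A + 1))) (by positivity)
  refine ⟨C' * C, by positivity, fun N T S hN hT hR hS hSN a ha => ?_⟩
  have hN0 : (0 : ℝ) < N := by exact_mod_cast hN
  have hT0 : (0 : ℝ) < T := by linarith
  have h3 := bdd_of_exc S U (N := N) (Q := C * N * T ^ (ε / 2)) (by positivity)
    (fun K hK => by
      obtain ⟨B, hB1, hB2, hB3⟩ := h1 N T S hN hT hR hS hSN K hK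
      exact ⟨B, hB1, hB2, fun a ha => (hB3 a ha).trans (le_of_eq (by ring))⟩) ha
  refine h3.trans ?_
  have h4 := h2 N hN
  have h5 : (N : ℝ) ^ (ε / (2 * (A + 1))) ≤ T ^ (ε / 2) := by
    calc (N : ℝ) ^ (ε / (2 * (A + 1))) ≤ (T ^ A) ^ (ε / (2 * (A + 1))) :=
          Real.rpow_le_rpow hN0.le hR (by positivity)
      _ = T ^ (A * (ε / (2 * (A + 1)))) := by rw [← Real.rpow_mul hT0.le]
      _ ≤ T ^ (ε / 2) := by
          apply Real.rpow_le_rpow_of_exponent_le hT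
          rw [mul_div_assoc', div_le_div_iff₀ (by positivity) (by positivity)]
          nlinarith
  have hTT : T ^ ε = T ^ (ε / 2) * T ^ (ε / 2) := by rw [← Real.rpow_add hT0, add_halves]
  calc 2 * ((Nat.log 2 N : ℝ) + 1) ^ 2 * (C * N * T ^ (ε / 2)) * N
      ≤ (C' * T ^ (ε / 2)) * (C * N * T ^ (ε / 2)) * N := by
        have := h4.trans (mul_le_mul_of_nonneg_left h5 hC'.le)
        gcongr
    _ = _ := by rw [hTT]; ring

end Pool.Agent.TH804.GX
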