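import Pool.Agent.TH804.GX1

/-!
The exceptional sets must depend on the points
-/

set_option autoImplicit false

open Finset

namespace Pool.Agent.TH804.GX

open Pool.Agent.TH804.GW

lemma U_eq (t : ℝ) {n : ℕ} (hn : 1 ≤ n) : U t n = starRingEnd ℂ (E t n) := by
  unfold U E
  have hn0 : (n : ℂ) ≠ 0 := by
    exact_mod_cast (by omega : n ≠ 0)
  rw [Complex.cpow_def_of_ne_zero hn0, ← Complex.exp_conj]
  congr 1
  rw [← Complex.natCast_log]
  simp only [map_mul, Complex.conj_I, Complex.conj_ofReal]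
  ring

theorem no_exceptional' : ∃ c : ℝ, 0 < c ∧ ∃ N₀ : ℕ, ∀ N : ℕ, N₀ ≤ N → ∀ B : Finset ℕ, B ⊆ Icc 1 N →
    32 * B.card ≤ N → ∃ S : Finset ℝ, Sep ((N : ℝ) ^ 2) S ∧ S.card ≤ N ∧ ∃ a : ℕ → ℂ, (∀ n, ‖a n‖ ≤ 1) ∧
      (∀ n ∈ B, a n = 0) ∧ 0 < QF S (Icc 1 N) U a ∧
      c * (N : ℝ) ^ (1 / 3 : ℝ) * (N : ℝ) * ∑ n ∈ Icc 1 N, ‖a n‖ ^ 2 ≤ QF S (Icc 1 N) U a := by
  classical
  refine ⟨1 / 40000, by norm_num, 1000, fun N hN B hB hB1 => ?_⟩
  have hN' : (1000 : ℝ) ≤ N := by exact_mod_cast hN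
  obtain ⟨M, hM9, hM3, hM2⟩ := exists_M hN
  have hM0 : (0 : ℝ) < M := by linarith
  have hM1 : 1 ≤ M := by exact_mod_cast hM0
  have h8 : 8 * M ≤ N := by
    have : (8 : ℝ) * M ≤ N := by nlinarith [mul_nonneg hM0.le (sq_nonneg ((M:ℝ) - 9))]
    exact_mod_cast this
  obtain ⟨w, hw⟩ : ∃ w : ℕ → ℝ, w = fun n => if n ∈ B then 32 else 0 := ⟨_, rfl⟩
  have hw0 : ∀ n, 0 ≤ w n := by
    intro n
    rw [hw]
    dsimp only
    split_ifs <;> norm_num
  have hwsum : ∀ C : Finset ℕ, ∑ n ∈ C, w n = 32 * ((C ∩ B).card : ℝ) := by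
    intro C
    rw [hw]
    dsimp only
    rw [← sum_filter, sum_const, nsmul_eq_mul, filter_mem_eq_inter]
    ring
  have hw1 : ∑ n ∈ Icc 1 N, w n ≤ N := by
    rw [hwsum]
    have : (32 : ℝ) * B.card ≤ N := by exact_mod_cast hB1
    have h2 : (((Icc 1 N ∩ B).card : ℕ) : ℝ) ≤ B.card := by exact_mod_cast card_le_card inter_subset_right
    linarith
  obtain ⟨n₀, hn1, hn2, hn3⟩ := light hM1 h8 hw0 hw1
  rw [hwsum] at hn3
  obtain ⟨S₁, hS₁, hS0₁, hSN₁, hA₁⟩ := config hM9 hM3 hn1 hn2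
  -- at most `N` points
  obtain ⟨S, hSS, hScard, hSN⟩ : ∃ S ⊆ S₁, S.card ≤ N ∧ (N : ℝ) ≤ 512 * S.card := by
    rcases le_or_gt S₁.card N with h | h
    · exact ⟨S₁, Subset.refl _, h, hSN₁⟩
    · obtain ⟨S, hS1, hS2⟩ := exists_subset_card_eq h.le
      refine ⟨S, hS1, hS2.le, ?_⟩
      rw [hS2]
      linarith
  have hS0 : (0 : ℝ) < S.card := by linarith
  obtain ⟨A, hAdef⟩ : ∃ A : Finset ℕ, A = Ico n₀ (n₀ + M) \ B := ⟨_, rfl⟩
  have hAI : A ⊆ Ico n₀ (n₀ + M) := by rw [hAdef]; exact sdiff_subset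
  have hsub : A ⊆ Icc 1 N := by
    intro n hn
    have := hAI hn
    rw [mem_Ico] at this
    rw [mem_Icc]
    omega
  have hc1 : (M : ℝ) - M / 4 ≤ A.card := by
    have h1 : A.card + (Ico n₀ (n₀ + M) ∩ B).card = M := by
      rw [hAdef, card_sdiff_add_card_inter]
      simp
    have h2 : (A.card : ℝ) + (Ico n₀ (n₀ + M) ∩ B).card = M := by exact_mod_cast h1
    linarith
  have hc0 : (0 : ℝ) < A.card := by linarith
  have hQ := QF_ind (S := S) hsub (fun t ht => hA₁ _ hAI t (hSS ht))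
  have hQU : QF S (Icc 1 N) E (fun n => if n ∈ A then 1 else 0) = QF S (Icc 1 N) U (fun n => if n ∈ A then 1 else 0) := by
    unfold QF
    refine sum_congr rfl fun t _ => ?_
    have h1 : ∑ n ∈ Icc 1 N, (if n ∈ A then (1 : ℂ) else 0) * U t n =
        starRingEnd ℂ (∑ n ∈ Icc 1 N, (if n ∈ A then (1 : ℂ) else 0) * E t n) := by
      rw [map_sum]
      refine sum_congr rfl fun n hn => ?_
      rw [map_mul, U_eq t (mem_Icc.1 hn).1]
      congr 1
      split_ifs <;> simp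
    rw [h1, RCLike.norm_conj]
  rw [hQU] at hQ
  refine ⟨S, Sep.sub hS₁ hSS, hScard, _, fun n => ?_, fun n hn => ?_, ?_, le_trans ?_ hQ⟩
  · split_ifs <;> simp
  · rw [if_neg]
    rw [hAdef, mem_sdiff]
    exact fun h => h.2 hn
  · exact lt_of_lt_of_le (by positivity) hQ
  · have h1 := sum_ind hsub (fun _ => 1)
    simp only [one_mul, sum_const, nsmul_eq_mul, mul_one] at h1
    rw [h1]
    calc 1 / 40000 * (N : ℝ) ^ (1 / 3 : ℝ) * (N : ℝ) * A.card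
        ≤ 1 / 40000 * (2 * M) * (512 * S.card) * A.card := by gcongr
      _ ≤ S.card * (A.card / 2) ^ 2 := by
          have h4 : 0 ≤ (S.card : ℝ) * A.card := by positivity
          have h5 : 1 / 40000 * (2 * M) * 512 ≤ (A.card : ℝ) / 4 := by linarith
          nlinarith

end Pool.Agent.TH804.GX
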