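import Pool.Agent.TH804.GW2

/-!
Pisier's factorization theorem for `ℓ^∞ → ℓ^q`, `q ≥ 2` (finite case)
-/

set_option autoImplicit false

open Finset

namespace Pool.Agent.TH804.GY

/-- tangent line inequality -/
lemma tangent {q a b : ℝ} (hq : 1 ≤ q) (ha : 0 ≤ a) (hb : 0 ≤ b) : a ^ q + q * a ^ (q - 1) * (b - a) ≤ b ^ q := by
  rcases ha.eq_or_lt with h0 | h0
  · rw [← h0]
    have h1 : (0 : ℝ) ^ q = 0 := Real.zero_rpow (by linarith)
    rcases hq.eq_or_lt with h2 | h2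
    · rw [← h2]
      simp
    · have h3 : (0 : ℝ) ^ (q - 1) = 0 := Real.zero_rpow (by linarith)
      rw [h1, h3]
      have : 0 ≤ b ^ q := by positivity
      simpa using this
  · have h1 := one_add_mul_self_le_rpow_one_add (s := b / a - 1) (by
      have : 0 ≤ b / a := by positivity
      linarith) hq
    have h2 : 1 + (b / a - 1) = b / a := by ring
    rw [h2, Real.div_rpow hb h0.le, le_div_iff₀ (by positivity)] at h1
    refine le_trans (le_of_eq ?_) h1
    rw [Real.rpow_sub_one h0.ne']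
    field_simp

/-- Clarkson's inequality for complex numbers -/
lemma clarkson {q : ℝ} (hq : 2 ≤ q) (a b : ℂ) : 2 * (‖a‖ ^ q + ‖b‖ ^ q) ≤ ‖a + b‖ ^ q + ‖a - b‖ ^ q := by
  have hp : 1 ≤ q / 2 := by linarith
  have e : ∀ z : ℂ, ‖z‖ ^ q = (‖z‖ ^ 2) ^ (q / 2) := fun z => by
    rw [← Real.rpow_natCast, ← Real.rpow_mul (norm_nonneg z)]
    congr 1
    push_cast
    ring
  have h1 := parallelogram_law_with_norm ℝ a b
  obtain ⟨s, hs⟩ : ∃ s : ℝ, s = ‖a‖ ^ 2 + ‖b‖ ^ 2 := ⟨_, rfl⟩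
  have hs0 : 0 ≤ s := by rw [hs]; positivity
  rw [← hs] at h1
  have h2 := tangent (q := q / 2) (a := s) (b := ‖a + b‖ ^ 2) hp hs0 (by positivity)
  have h3 := tangent (q := q / 2) (a := s) (b := ‖a - b‖ ^ 2) hp hs0 (by positivity)
  have h4 := Real.add_rpow_le_rpow_add (p := q / 2) (a := ‖a‖ ^ 2) (b := ‖b‖ ^ 2) (by positivity) (by positivity) hp
  rw [← hs] at h4
  rw [e a, e b, e (a + b), e (a - b)]
  have h5 : q / 2 * s ^ (q / 2 - 1) * (‖a + b‖ ^ 2 - s) + q / 2 * s ^ (q / 2 - 1) * (‖a - b‖ ^ 2 - s) = 0 := by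
    rw [← mul_add]
    have : ‖a + b‖ ^ 2 - s + (‖a - b‖ ^ 2 - s) = 0 := by linarith
    rw [this, mul_zero]
  linarith

/-- convexity -/
lemma convex {q : ℝ} (hq : 2 ≤ q) (y z : ℂ) :
    ‖y‖ ^ q - ‖y - z‖ ^ q ≤ q * ‖y‖ ^ (q - 2) * ((starRingEnd ℂ) y * z).re := by
  have h1 := tangent (q := q) (a := ‖y‖) (b := ‖y - z‖) (by linarith) (norm_nonneg _) (norm_nonneg _)
  rcases (norm_nonneg y).eq_or_lt with h0 | h0
  · have hy : y = 0 := norm_eq_zero.1 h0.symm
    rw [hy]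
    simp only [norm_zero, map_zero, zero_mul, Complex.zero_re, mul_zero, zero_sub, norm_neg]
    rw [Real.zero_rpow (by linarith)]
    have : 0 ≤ ‖z‖ ^ q := by positivity
    linarith
  · have h2 : ((starRingEnd ℂ) y * z).re = ‖y‖ ^ 2 - ((starRingEnd ℂ) y * (y - z)).re := by
      rw [mul_sub, Complex.sub_re]
      have : ((starRingEnd ℂ) y * y).re = ‖y‖ ^ 2 := by
        rw [mul_comm, Complex.mul_conj, Complex.ofReal_re, Complex.normSq_eq_norm_sq]
      rw [this]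
      ring
    have h3 : ((starRingEnd ℂ) y * (y - z)).re ≤ ‖y‖ * ‖y - z‖ := by
      refine (Complex.re_le_norm _).trans ?_
      rw [norm_mul, Complex.norm_conj]
    have h4 : ‖y‖ ^ (q - 1) = ‖y‖ ^ (q - 2) * ‖y‖ := by
      rw [← Real.rpow_add_one h0.ne']
      congr 1
      ring
    have h5 : 0 ≤ q * ‖y‖ ^ (q - 2) := by positivity
    have h6 : q * ‖y‖ ^ (q - 2) * (‖y‖ ^ 2 - ‖y‖ * ‖y - z‖) ≤ q * ‖y‖ ^ (q - 2) * ((starRingEnd ℂ) y * z).re := by
      rw [h2]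
      exact mul_le_mul_of_nonneg_left (by linarith) h5
    refine le_trans ?_ h6
    rw [h4] at h1
    nlinarith

section general

variable {τ : Type*} (S : Finset τ) (I : Finset ℕ) (U : τ → ℕ → ℂ) (q : ℝ)

/-- `∑_{t ∈ S} |∑_{n ∈ I} x_n U(t,n)|^q` -/
noncomputable def F (x : ℕ → ℂ) : ℝ := ∑ t ∈ S, ‖∑ n ∈ I, x n * U t n‖ ^ q

lemma F_nonneg (x : ℕ → ℂ) : 0 ≤ F S I U q x := sum_nonneg fun _ _ => by positivity

lemma F_congr {x y : ℕ → ℂ} (h : ∀ n ∈ I, x n = y n) : F S I U q x = F S I U q y := by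
  unfold F
  refine sum_congr rfl fun t _ => ?_
  rw [sum_congr rfl fun n hn => by rw [h n hn]]

lemma F_smul (c : ℂ) (x : ℕ → ℂ) : F S I U q (fun n => c * x n) = ‖c‖ ^ q * F S I U q x := by
  unfold F
  rw [mul_sum]
  refine sum_congr rfl fun t _ => ?_
  rw [← Real.mul_rpow (norm_nonneg _) (norm_nonneg _), ← norm_mul, mul_sum]
  congr 3
  funext n
  ring

lemma F_clarkson {q : ℝ} (hq : 2 ≤ q) (x y : ℕ → ℂ) :
    2 * (F S I U q x + F S I U q y) ≤ F S I U q (fun n => x n + y n) + F S I U q (fun n => x n - y n) := by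
  unfold F
  rw [← sum_add_distrib, ← sum_add_distrib, mul_sum]
  refine sum_le_sum fun t _ => ?_
  have := clarkson hq (∑ n ∈ I, x n * U t n) (∑ n ∈ I, y n * U t n)
  rw [← sum_add_distrib, ← sum_sub_distrib] at this
  simp_rw [← add_mul, ← sub_mul] at this
  exact this

lemma exists_signs {q : ℝ} (hq : 2 ≤ q) (K : ℕ) (x : ℕ → ℕ → ℂ) : ∃ e : ℕ → ℂ, (∀ j, ‖e j‖ ≤ 1) ∧
    ∑ j ∈ range K, F S I U q (x j) ≤ F S I U q (fun n => ∑ j ∈ range K, e j * x j n) := by
  classical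
  induction K with
  | zero => exact ⟨fun _ => 0, fun _ => by simp, by simpa using F_nonneg S I U q _⟩
  | succ K ih =>
    obtain ⟨e, he, h⟩ := ih
    have h1 := F_clarkson S I U hq (fun n => ∑ j ∈ range K, e j * x j n) (x K)
    have key : ∀ s : ℂ, ‖s‖ ≤ 1 → F S I U q (x K) + F S I U q (fun n => ∑ j ∈ range K, e j * x j n) ≤
        F S I U q (fun n => (∑ j ∈ range K, e j * x j n) + s * x K n) → ∃ e : ℕ → ℂ, (∀ j, ‖e j‖ ≤ 1) ∧
        ∑ j ∈ range (K + 1), F S I U q (x j) ≤ F S I U q (fun n => ∑ j ∈ range (K + 1), e j * x j n) := by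
      intro s hs h2
      refine ⟨fun j => if j = K then s else e j, fun j => ?_, ?_⟩
      · dsimp only
        split_ifs
        · exact hs
        · exact he j
      · rw [sum_range_succ]
        have h3 : (fun n => ∑ j ∈ range (K + 1), (if j = K then s else e j) * x j n) =
            fun n => (∑ j ∈ range K, e j * x j n) + s * x K n := by
          funext n
          rw [sum_range_succ, if_pos rfl]
          congr 1
          refine sum_congr rfl fun j hj => ?_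
          rw [if_neg (by have := mem_range.1 hj; omega)]
        rw [h3]
        linarith
    rcases le_total (F S I U q (fun n => (∑ j ∈ range K, e j * x j n) + x K n))
      (F S I U q (fun n => (∑ j ∈ range K, e j * x j n) - x K n)) with h2 | h2
    · refine key (-1) (by simp) ?_
      have : (fun n => (∑ j ∈ range K, e j * x j n) + (-1) * x K n) =
          fun n => (∑ j ∈ range K, e j * x j n) - x K n := by funext n; ring
      rw [this]
      linarith
    · refine key 1 (by simp) ?_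
      simp only [one_mul]
      linarith

/-- cotype `q` -/
lemma cotype {q : ℝ} (hq : 2 ≤ q) {Q : ℝ} (hQ : ∀ b : ℕ → ℂ, (∀ n, ‖b n‖ ≤ 1) → F S I U q b ≤ Q) (K : ℕ)
    (x : ℕ → ℕ → ℂ) (hx : ∀ n ∈ I, ∑ j ∈ range K, ‖x j n‖ ≤ 1) : ∑ j ∈ range K, F S I U q (x j) ≤ Q := by
  classical
  obtain ⟨e, he, h⟩ := exists_signs S I U hq K x
  refine h.trans ?_
  rw [F_congr S I U q (y := fun n => if n ∈ I then ∑ j ∈ range K, e j * x j n else 0)
    (fun n hn => by rw [if_pos hn])]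
  refine hQ _ fun n => ?_
  split_ifs with hn
  · refine (norm_sum_le _ _).trans (le_trans (sum_le_sum fun j _ => ?_) (hx n hn))
    rw [norm_mul]
    have := he j
    have := norm_nonneg (x j n)
    nlinarith
  · simp

/-- Pisier's factorization, up to `ε`-losses of compactness -/
theorem pisier {q : ℝ} (hq : 2 ≤ q) (hI : I.Nonempty) {Q : ℝ} (hQ0 : 0 < Q)
    (hQ : ∀ b : ℕ → ℂ, (∀ n, ‖b n‖ ≤ 1) → F S I U q b ≤ Q) :
    ∃ w : ℕ → ℝ, (∀ n, 0 ≤ w n) ∧ ∑ n ∈ I, w n ≤ (q + 1) * Q ∧ ∀ (x : ℕ → ℂ) (m : ℝ), (∀ n ∈ I, ‖x n‖ ≤ m) →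
      F S I U q x ≤ m ^ (q - 1) * ∑ n ∈ I, w n * ‖x n‖ := by
  classical
  obtain ⟨A, hA⟩ : ∃ A : Set ℝ, A = {s | ∃ (K : ℕ) (x : ℕ → ℕ → ℂ), (∀ n ∈ I, ∑ j ∈ range K, ‖x j n‖ ≤ 1) ∧
    s = ∑ j ∈ range K, F S I U q (x j)} := ⟨_, rfl⟩
  have hAb : BddAbove A := by
    refine ⟨Q, ?_⟩
    rw [hA]
    rintro s ⟨K, x, hx, rfl⟩
    exact cotype S I U hq hQ K x hx
  have hAn : A.Nonempty := by
    rw [hA]
    exact ⟨0, 0, fun _ _ => 0, by simp, by simp⟩
  have hAQ : ∀ s ∈ A, s ≤ Q := by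
    rw [hA]
    rintro s ⟨K, x, hx, rfl⟩
    exact cotype S I U hq hQ K x hx
  have hc0 : (0 : ℝ) < I.card := by exact_mod_cast card_pos.2 hI
  obtain ⟨δ, hδ⟩ : ∃ δ : ℝ, δ = Q / I.card := ⟨_, rfl⟩
  have hδ0 : 0 < δ := by rw [hδ]; positivity
  obtain ⟨s, hsA, hs⟩ := exists_lt_of_lt_csSup hAn (show sSup A - δ < sSup A by linarith)
  have hsA' := hsA
  rw [hA] at hsA'
  obtain ⟨K, x, hx, hsx⟩ := hsA'
  obtain ⟨y, hy⟩ : ∃ y : ℕ → τ → ℂ, y = fun j t => ∑ n ∈ I, x j n * U t n := ⟨_, rfl⟩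
  obtain ⟨g, hg⟩ : ∃ g : ℕ → τ → ℕ → ℝ, g = fun j t n =>
    q * ‖y j t‖ ^ (q - 2) * ((starRingEnd ℂ) (y j t) * (x j n * U t n)).re := ⟨_, rfl⟩
  obtain ⟨φ, hφ⟩ : ∃ φ : ℕ → ℝ, φ = fun n => ∑ j ∈ range K, ∑ t ∈ S, g j t n := ⟨_, rfl⟩
  -- sums against `g`
  have hgsum : ∀ (c : ℕ → ℝ) (j : ℕ) (t : τ), ∑ n ∈ I, c n * g j t n =
      q * ‖y j t‖ ^ (q - 2) * ((starRingEnd ℂ) (y j t) * ∑ n ∈ I, ((c n : ℂ) * x j n) * U t n).re := by
    intro c j t
    rw [mul_sum, Complex.re_sum, mul_sum]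
    refine sum_congr rfl fun n _ => ?_
    rw [hg]
    dsimp only
    have : (starRingEnd ℂ) (y j t) * ((c n : ℂ) * x j n * U t n) = (c n : ℂ) * ((starRingEnd ℂ) (y j t) * (x j n * U t n)) := by
      ring
    rw [this, Complex.re_ofReal_mul]
    ring
  have hφsum : ∀ c : ℕ → ℝ, ∑ n ∈ I, c n * φ n = ∑ j ∈ range K, ∑ t ∈ S,
      q * ‖y j t‖ ^ (q - 2) * ((starRingEnd ℂ) (y j t) * ∑ n ∈ I, ((c n : ℂ) * x j n) * U t n).re := by
    intro c
    simp_rw [← hgsum c]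
    rw [hφ]
    simp_rw [mul_sum]
    rw [sum_comm]
    refine sum_congr rfl fun j _ => ?_
    rw [sum_comm]
  -- the main inequality
  have main : ∀ z : ℕ → ℂ, (∀ n ∈ I, ‖z n‖ ≤ 1) → F S I U q z ≤ δ + ∑ n ∈ I, ‖z n‖ * φ n := by
    intro z hz
    have h1 : (∑ j ∈ range K, F S I U q (fun n => ((1 - ‖z n‖ : ℝ) : ℂ) * x j n)) + F S I U q z ≤ sSup A := by
      refine le_csSup hAb ?_
      rw [hA]
      refine ⟨K + 1, fun j => if j = K then z else fun n => ((1 - ‖z n‖ : ℝ) : ℂ) * x j n, fun n hn => ?_, ?_⟩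
      · dsimp only
        rw [sum_range_succ, if_pos rfl]
        have h2 : ∑ j ∈ range K, ‖(if j = K then z else fun n => ((1 - ‖z n‖ : ℝ) : ℂ) * x j n) n‖ =
            ∑ j ∈ range K, (1 - ‖z n‖) * ‖x j n‖ := by
          refine sum_congr rfl fun j hj => ?_
          rw [if_neg (by have := mem_range.1 hj; omega), norm_mul, Complex.norm_real,
            Real.norm_of_nonneg (by linarith [hz n hn])]
        rw [h2, ← mul_sum]
        have h3 := hx n hn
        have h4 := hz n hn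
        have h5 := norm_nonneg (z n)
        nlinarith
      · dsimp only
        rw [sum_range_succ, if_pos rfl]
        congr 1
        refine sum_congr rfl fun j hj => ?_
        rw [if_neg (by have := mem_range.1 hj; omega)]
    have h2 : ∑ j ∈ range K, F S I U q (x j) - ∑ j ∈ range K, F S I U q (fun n => ((1 - ‖z n‖ : ℝ) : ℂ) * x j n) ≤
        ∑ n ∈ I, ‖z n‖ * φ n := by
      rw [hφsum, ← sum_sub_distrib]
      refine sum_le_sum fun j _ => ?_
      unfold F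
      rw [← sum_sub_distrib]
      refine sum_le_sum fun t _ => ?_
      have h3 := convex hq (y j t) (∑ n ∈ I, (((‖z n‖ : ℝ) : ℂ) * x j n) * U t n)
      have h4 : y j t - ∑ n ∈ I, (((‖z n‖ : ℝ) : ℂ) * x j n) * U t n =
          ∑ n ∈ I, ((1 - ‖z n‖ : ℝ) : ℂ) * x j n * U t n := by
        rw [hy]
        dsimp only
        rw [← sum_sub_distrib]
        refine sum_congr rfl fun n _ => ?_
        push_cast
        ring
      rw [h4] at h3
      refine le_trans (le_of_eq ?_) h3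
      rw [hy]
    rw [hsx] at hs
    linarith
  -- the positive part
  obtain ⟨P, hP⟩ : ∃ P : Finset ℕ, P = I.filter (fun n => 0 < φ n) := ⟨_, rfl⟩
  have hpos : ∑ n ∈ I, max (φ n) 0 ≤ q * Q := by
    have h1 : ∑ n ∈ I, max (φ n) 0 = ∑ n ∈ I, (if n ∈ P then (1 : ℝ) else 0) * φ n := by
      refine sum_congr rfl fun n hn => ?_
      rw [hP]
      simp only [mem_filter, hn, true_and]
      split_ifs with h
      · rw [one_mul, max_eq_left h.le]
      · rw [zero_mul, max_eq_right (not_lt.1 h)]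
    rw [h1, hφsum]
    have h2 : ∀ j ∈ range K, ∑ t ∈ S, q * ‖y j t‖ ^ (q - 2) * ((starRingEnd ℂ) (y j t) *
        ∑ n ∈ I, (((if n ∈ P then (1 : ℝ) else 0 : ℝ) : ℂ) * x j n) * U t n).re ≤
        (q - 1) * F S I U q (x j) + F S I U q (fun n => ((if n ∈ P then (1 : ℝ) else 0 : ℝ) : ℂ) * x j n) := by
      intro j _
      unfold F
      rw [mul_sum, ← sum_add_distrib]
      refine sum_le_sum fun t _ => ?_
      obtain ⟨v, hv⟩ : ∃ v : ℂ, v = ∑ n ∈ I, (((if n ∈ P then (1 : ℝ) else 0 : ℝ) : ℂ) * x j n) * U t n := ⟨_, rfl⟩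
      rw [← hv]
      have e0 : ∑ n ∈ I, x j n * U t n = y j t := by rw [hy]
      rw [e0]
      have h3 : ((starRingEnd ℂ) (y j t) * v).re ≤ ‖y j t‖ * ‖v‖ := by
        refine (Complex.re_le_norm _).trans ?_
        rw [norm_mul, Complex.norm_conj]
      have h4 := tangent (q := q) (a := ‖y j t‖) (b := ‖v‖) (by linarith) (norm_nonneg _) (norm_nonneg _)
      have h5 : q * ‖y j t‖ ^ (q - 2) * ((starRingEnd ℂ) (y j t) * v).re ≤ q * ‖y j t‖ ^ (q - 2) * (‖y j t‖ * ‖v‖) :=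
        mul_le_mul_of_nonneg_left h3 (by positivity)
      refine h5.trans ?_
      rcases (norm_nonneg (y j t)).eq_or_lt with h0 | h0
      · rw [← h0]
        have : 0 ≤ ‖v‖ ^ q := by positivity
        rw [Real.zero_rpow (show q ≠ 0 by linarith)]
        simpa using this
      · have h6 : ‖y j t‖ ^ (q - 2) * ‖y j t‖ = ‖y j t‖ ^ (q - 1) := by
          rw [← Real.rpow_add_one h0.ne']
          congr 1
          ring
        have h7 : ‖y j t‖ ^ (q - 1) * ‖y j t‖ = ‖y j t‖ ^ q := by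
          rw [← Real.rpow_add_one h0.ne']
          congr 1
          ring
        have h8 : q * ‖y j t‖ ^ (q - 2) * (‖y j t‖ * ‖v‖) = q * ‖y j t‖ ^ (q - 1) * ‖v‖ := by
          rw [← h6]; ring
        have h9 : q * ‖y j t‖ ^ (q - 1) * (‖v‖ - ‖y j t‖) = q * ‖y j t‖ ^ (q - 1) * ‖v‖ - q * ‖y j t‖ ^ q := by
          rw [← h7]; ring
        rw [h8]
        rw [h9] at h4
        linarith
    refine (sum_le_sum h2).trans ?_
    rw [sum_add_distrib, ← mul_sum]
    have h3 : ∑ j ∈ range K, F S I U q (x j) ≤ Q := cotype S I U hq hQ K x hx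
    have h4 : ∑ j ∈ range K, F S I U q (fun n => ((if n ∈ P then (1 : ℝ) else 0 : ℝ) : ℂ) * x j n) ≤ Q := by
      refine cotype S I U hq hQ K _ fun n hn => le_trans (sum_le_sum fun j _ => ?_) (hx n hn)
      rw [norm_mul]
      have h5 : ‖((if n ∈ P then (1 : ℝ) else 0 : ℝ) : ℂ)‖ ≤ 1 := by
        split_ifs <;> simp
      have := norm_nonneg (x j n)
      nlinarith
    have h5 : 0 ≤ q - 1 := by linarith
    nlinarith
  refine ⟨fun n => max (φ n) 0 + δ, fun n => by positivity, ?_, fun z m hz => ?_⟩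
  · rw [sum_add_distrib, sum_const, nsmul_eq_mul, hδ, mul_div_cancel₀ _ hc0.ne']
    linarith
  · obtain ⟨n₀, hn₀, hmax⟩ := exists_max_image I (fun n => ‖z n‖) hI
    rcases (norm_nonneg (z n₀)).eq_or_lt with h0 | h0
    · have h1 : ∀ n ∈ I, z n = 0 := fun n hn => by
        have := hmax n hn
        rw [← h0] at this
        exact norm_le_zero_iff.1 this
      have hm0 : 0 ≤ m := (norm_nonneg (z n₀)).trans (hz n₀ hn₀)
      rw [F_congr S I U q (y := fun _ => 0) h1]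
      have h2 : F S I U q (fun _ => 0) = 0 := by
        unfold F
        simp [Real.zero_rpow (show q ≠ 0 by linarith)]
      rw [h2]
      have : ∀ n ∈ I, 0 ≤ (max (φ n) 0 + δ) * ‖z n‖ := fun n _ => by positivity
      have := sum_nonneg this
      positivity
    · obtain ⟨μ, hμ⟩ : ∃ μ : ℝ, μ = ‖z n₀‖ := ⟨_, rfl⟩
      rw [← hμ] at h0
      have hμm : μ ≤ m := by rw [hμ]; exact hz n₀ hn₀
      have h1 := main (fun n => ((μ⁻¹ : ℝ) : ℂ) * z n) (fun n hn => by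
        rw [norm_mul, Complex.norm_real, Real.norm_of_nonneg (by positivity), inv_mul_le_iff₀ h0, mul_one, hμ]
        exact hmax n hn)
      have h2 : ∀ n, ‖((μ⁻¹ : ℝ) : ℂ) * z n‖ = μ⁻¹ * ‖z n‖ := fun n => by
        rw [norm_mul, Complex.norm_real, Real.norm_of_nonneg (by positivity)]
      rw [F_smul, Complex.norm_real, Real.norm_of_nonneg (show 0 ≤ μ⁻¹ by positivity)] at h1
      simp_rw [h2] at h1
      have h3 : δ ≤ ∑ n ∈ I, δ * (μ⁻¹ * ‖z n‖) := by
        have h4 := single_le_sum (f := fun n => δ * (μ⁻¹ * ‖z n‖)) (fun n _ => by positivity) hn₀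
        refine le_trans (le_of_eq ?_) h4
        rw [← hμ, inv_mul_cancel₀ h0.ne', mul_one]
      have h4 : ∑ n ∈ I, μ⁻¹ * ‖z n‖ * φ n ≤ ∑ n ∈ I, μ⁻¹ * ‖z n‖ * max (φ n) 0 :=
        sum_le_sum fun n _ => mul_le_mul_of_nonneg_left (le_max_left _ _) (by positivity)
      have h5 : (μ⁻¹) ^ q * F S I U q z ≤ μ⁻¹ * ∑ n ∈ I, (max (φ n) 0 + δ) * ‖z n‖ := by
        refine h1.trans ((add_le_add h3 h4).trans (le_of_eq ?_))
        rw [← sum_add_distrib, mul_sum]
        refine sum_congr rfl fun n _ => ?_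
        ring
      rw [Real.inv_rpow h0.le, inv_mul_le_iff₀ (by positivity)] at h5
      have h6 : μ ^ q * (μ⁻¹ * ∑ n ∈ I, (max (φ n) 0 + δ) * ‖z n‖) =
          μ ^ (q - 1) * ∑ n ∈ I, (max (φ n) 0 + δ) * ‖z n‖ := by
        rw [Real.rpow_sub_one h0.ne']
        ring
      rw [h6] at h5
      refine h5.trans ?_
      have h7 : 0 ≤ ∑ n ∈ I, (max (φ n) 0 + δ) * ‖z n‖ := sum_nonneg fun n _ => by positivity
      have h8 : μ ^ (q - 1) ≤ m ^ (q - 1) := Real.rpow_le_rpow h0.le hμm (by linarith)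
      exact mul_le_mul_of_nonneg_right h8 h7

end general

end Pool.Agent.TH804.GY
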