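import Pool.Agent.TH804.GY1

/-!
Weights and exceptional sets for `ℓ^q` sums
-/

set_option autoImplicit false

open Finset

namespace Pool.Agent.TH804.GY

section general

variable {τ : Type*} (S : Finset τ) (I : Finset ℕ) (U : τ → ℕ → ℂ) (q : ℝ)

lemma F_sum_le {q : ℝ} (hq : 1 ≤ q) (J : ℕ) (b : ℕ → ℕ → ℂ) :
    F S I U q (fun n => ∑ j ∈ range J, b j n) ≤ (J : ℝ) ^ (q - 1) * ∑ j ∈ range J, F S I U q (b j) := by
  unfold F
  rw [sum_comm, mul_sum]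
  refine sum_le_sum fun t _ => ?_
  have h1 : ∑ n ∈ I, (∑ j ∈ range J, b j n) * U t n = ∑ j ∈ range J, ∑ n ∈ I, b j n * U t n := by
    simp_rw [sum_mul]
    rw [sum_comm]
  rw [h1]
  have h2 : ‖∑ j ∈ range J, ∑ n ∈ I, b j n * U t n‖ ^ q ≤ (∑ j ∈ range J, |‖∑ n ∈ I, b j n * U t n‖|) ^ q := by
    refine Real.rpow_le_rpow (norm_nonneg _) ?_ (by linarith)
    simp only [abs_norm]
    exact norm_sum_le _ _
  refine h2.trans ?_
  have h3 := Real.rpow_sum_le_const_mul_sum_rpow (range J) (fun j => ‖∑ n ∈ I, b j n * U t n‖) hq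
  rw [card_range] at h3
  simp only [abs_norm] at h3 ⊢
  exact h3

/-- from the weights for the Lorentz norm to weights for the `ℓ^q` norm -/
lemma lorentz {q : ℝ} (hq : 2 ≤ q) (hI : I.Nonempty) {M₀ : ℝ} (hM : 0 < M₀) {w : ℕ → ℝ} (hw0 : ∀ n, 0 ≤ w n)
    (hw1 : ∑ n ∈ I, w n ≤ M₀) (h : ∀ (x : ℕ → ℂ) (m : ℝ), (∀ n ∈ I, ‖x n‖ ≤ m) →
      F S I U q x ≤ m ^ (q - 1) * ∑ n ∈ I, w n * ‖x n‖) {L : ℕ} (hL : (I.card : ℝ) ≤ 2 ^ L) (x : ℕ → ℂ) :
    F S I U q x ≤ ((L : ℝ) + 1) ^ (q - 1) * 2 ^ (q - 1) * ∑ n ∈ I, (w n + M₀ / I.card) * ‖x n‖ ^ q := by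
  classical
  have hc0 : (0 : ℝ) < I.card := by exact_mod_cast card_pos.2 hI
  obtain ⟨n₀, hn₀, hmax⟩ := exists_max_image I (fun n => ‖x n‖) hI
  obtain ⟨m, hm⟩ : ∃ m : ℝ, m = ‖x n₀‖ := ⟨_, rfl⟩
  have hm0 : 0 ≤ m := by rw [hm]; exact norm_nonneg _
  rw [← hm] at hmax
  have hnn : ∀ n ∈ I, 0 ≤ (w n + M₀ / I.card) * ‖x n‖ ^ q := fun n _ => by
    have := hw0 n
    positivity
  rcases hm0.eq_or_lt with h0 | h0
  · have h1 : ∀ n ∈ I, x n = 0 := fun n hn => by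
      have := hmax n hn
      rw [← h0] at this
      exact norm_le_zero_iff.1 this
    rw [F_congr S I U q (y := fun _ => 0) h1]
    have h2 : F S I U q (fun _ => 0) = 0 := by
      unfold F
      simp [Real.zero_rpow (show q ≠ 0 by linarith)]
    rw [h2]
    have := sum_nonneg hnn
    positivity
  obtain ⟨f, hf⟩ : ∃ f : ℕ → ℕ, f = fun n => min L ⌊Real.logb 2 (m / ‖x n‖)⌋₊ := ⟨_, rfl⟩
  have hfL : ∀ n, f n ≤ L := fun n => by rw [hf]; exact min_le_left _ _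
  have h2 : (1 : ℝ) < 2 := by norm_num
  -- upper bound in a class
  have hup : ∀ n ∈ I, ‖x n‖ ≤ m / 2 ^ (f n) := by
    intro n hn
    rcases (norm_nonneg (x n)).eq_or_lt with h1 | h1
    · rw [← h1]; positivity
    · have h3 : 1 ≤ m / ‖x n‖ := by rw [le_div_iff₀ h1, one_mul]; exact hmax n hn
      have h4 : 0 ≤ Real.logb 2 (m / ‖x n‖) := Real.logb_nonneg h2 h3
      have h5 : ((f n : ℕ) : ℝ) ≤ Real.logb 2 (m / ‖x n‖) := by
        refine le_trans ?_ (Nat.floor_le h4)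
        rw [hf]
        exact_mod_cast min_le_right _ _
      rw [Real.le_logb_iff_rpow_le h2 (by positivity), Real.rpow_natCast, le_div_iff₀ h1] at h5
      rw [le_div_iff₀ (by positivity)]
      linarith
  -- lower bound in the classes `< L`
  have hlow : ∀ n ∈ I, f n < L → 0 < ‖x n‖ → m / 2 ^ (f n) ≤ 2 * ‖x n‖ := by
    intro n hn hfn h1
    have h3 : ⌊Real.logb 2 (m / ‖x n‖)⌋₊ = f n := by
      rw [hf] at hfn ⊢
      dsimp only at hfn ⊢
      rcases min_lt_iff.1 hfn with h4 | h4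
      · exact absurd h4 (lt_irrefl _)
      · rw [min_eq_right h4.le]
    have h4 := Nat.lt_floor_add_one (Real.logb 2 (m / ‖x n‖))
    rw [h3] at h4
    have h5 : Real.logb 2 (m / ‖x n‖) < ((f n + 1 : ℕ) : ℝ) := by push_cast; exact h4
    rw [Real.logb_lt_iff_lt_rpow h2 (by positivity), Real.rpow_natCast, div_lt_iff₀ h1, pow_succ] at h5
    rw [div_le_iff₀ (by positivity)]
    linarith
  obtain ⟨b, hb⟩ : ∃ b : ℕ → ℕ → ℂ, b = fun j n => if f n = j then x n else 0 := ⟨_, rfl⟩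
  have hsum : ∀ n, ∑ j ∈ range (L + 1), b j n = x n := by
    intro n
    rw [hb]
    simp only
    rw [sum_ite_eq]
    have := hfL n
    simp [Nat.lt_succ_of_le this]
  have hbn : ∀ j n, ‖b j n‖ = if f n = j then ‖x n‖ else 0 := by
    intro j n
    rw [hb]
    dsimp only
    split_ifs <;> simp
  have hbm : ∀ j, ∀ n ∈ I, ‖b j n‖ ≤ m / 2 ^ j := by
    intro j n hn
    rw [hbn]
    split_ifs with h1
    · rw [← h1]; exact hup n hn
    · positivity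
  have hF : ∀ j, F S I U q (b j) ≤ (m / 2 ^ j) ^ (q - 1) * ∑ n ∈ I, w n * ‖b j n‖ := fun j => h _ _ (hbm j)
  have hFj : ∀ j ∈ range L, F S I U q (b j) ≤ 2 ^ (q - 1) * ∑ n ∈ I, (if f n = j then w n * ‖x n‖ ^ q else 0) := by
    intro j hj
    refine (hF j).trans ?_
    rw [mul_sum, mul_sum]
    refine sum_le_sum fun n hn => ?_
    rw [hbn]
    split_ifs with h1
    · rcases (norm_nonneg (x n)).eq_or_lt with h3 | h3
      · rw [← h3, Real.zero_rpow (show q ≠ 0 by linarith)]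
        simp
      · have h4 := hlow n hn (by rw [h1]; exact mem_range.1 hj) h3
        rw [h1] at h4
        have h5 : (m / 2 ^ j) ^ (q - 1) ≤ (2 * ‖x n‖) ^ (q - 1) :=
          Real.rpow_le_rpow (by positivity) h4 (by linarith)
        rw [Real.mul_rpow (by norm_num) h3.le] at h5
        have h6 : ‖x n‖ ^ q = ‖x n‖ ^ (q - 1) * ‖x n‖ := by
          rw [← Real.rpow_add_one h3.ne']
          congr 1
          ring
        rw [h6]
        have h7 : 0 ≤ w n * ‖x n‖ := mul_nonneg (hw0 n) h3.le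
        calc (m / 2 ^ j) ^ (q - 1) * (w n * ‖x n‖) ≤ (2 ^ (q - 1) * ‖x n‖ ^ (q - 1)) * (w n * ‖x n‖) :=
              mul_le_mul_of_nonneg_right h5 h7
          _ = _ := by ring
    · simp
  have hFL : F S I U q (b L) ≤ ∑ n ∈ I, M₀ / I.card * ‖x n‖ ^ q := by
    refine (hF L).trans ?_
    have h1 : ∑ n ∈ I, w n * ‖b L n‖ ≤ M₀ * (m / 2 ^ L) := by
      calc ∑ n ∈ I, w n * ‖b L n‖ ≤ ∑ n ∈ I, w n * (m / 2 ^ L) :=
            sum_le_sum fun n hn => mul_le_mul_of_nonneg_left (hbm L n hn) (hw0 n)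
        _ = (∑ n ∈ I, w n) * (m / 2 ^ L) := by rw [sum_mul]
        _ ≤ _ := by gcongr
    have h3 : (m / 2 ^ L) ^ (q - 1) * (M₀ * (m / 2 ^ L)) = M₀ * (m / 2 ^ L) ^ q := by
      have : (m / 2 ^ L) ^ q = (m / 2 ^ L) ^ (q - 1) * (m / 2 ^ L) := by
        rw [← Real.rpow_add_one (by positivity)]
        congr 1
        ring
      rw [this]; ring
    have h4 : (m / 2 ^ L) ^ q ≤ m ^ q / I.card := by
      rw [Real.div_rpow hm0 (by positivity)]
      have h5 : (I.card : ℝ) ≤ ((2 : ℝ) ^ L) ^ q := by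
        refine hL.trans ?_
        have h6 : (1 : ℝ) ≤ 2 ^ L := one_le_pow₀ h2.le
        calc (2 : ℝ) ^ L = ((2 : ℝ) ^ L) ^ (1 : ℝ) := (Real.rpow_one _).symm
          _ ≤ _ := Real.rpow_le_rpow_of_exponent_le h6 (by linarith)
      exact div_le_div_of_nonneg_left (by positivity) hc0 h5
    have h5 : M₀ / I.card * ‖x n₀‖ ^ q ≤ ∑ n ∈ I, M₀ / I.card * ‖x n‖ ^ q :=
      single_le_sum (f := fun n => M₀ / I.card * ‖x n‖ ^ q) (fun n _ => by positivity) hn₀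
    rw [← hm] at h5
    calc (m / 2 ^ L) ^ (q - 1) * ∑ n ∈ I, w n * ‖b L n‖ ≤ (m / 2 ^ L) ^ (q - 1) * (M₀ * (m / 2 ^ L)) :=
          mul_le_mul_of_nonneg_left h1 (by positivity)
      _ = M₀ * (m / 2 ^ L) ^ q := h3
      _ ≤ M₀ * (m ^ q / I.card) := by gcongr
      _ = M₀ / I.card * m ^ q := by ring
      _ ≤ _ := h5
  have e1 : F S I U q x = F S I U q (fun n => ∑ j ∈ range (L + 1), b j n) := by
    congr 1
    funext n
    exact (hsum n).symm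
  rw [e1]
  refine (F_sum_le S I U (by linarith) (L + 1) b).trans ?_
  rw [sum_range_succ]
  have h3 : ∑ j ∈ range L, F S I U q (b j) ≤ 2 ^ (q - 1) * ∑ n ∈ I, w n * ‖x n‖ ^ q := by
    refine (sum_le_sum hFj).trans ?_
    rw [← mul_sum, sum_comm]
    refine mul_le_mul_of_nonneg_left (sum_le_sum fun n _ => ?_) (by positivity)
    rw [sum_ite_eq]
    split_ifs
    · exact le_rfl
    · exact mul_nonneg (hw0 n) (by positivity)
  have h4 : (1 : ℝ) ≤ 2 ^ (q - 1) := Real.one_le_rpow h2.le (by linarith)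
  have h5 : 0 ≤ ∑ n ∈ I, M₀ / I.card * ‖x n‖ ^ q := sum_nonneg fun n _ => by positivity
  have h6 : ∑ j ∈ range L, F S I U q (b j) + F S I U q (b L) ≤
      2 ^ (q - 1) * ∑ n ∈ I, (w n + M₀ / I.card) * ‖x n‖ ^ q := by
    have h7 : ∑ n ∈ I, (w n + M₀ / I.card) * ‖x n‖ ^ q = ∑ n ∈ I, w n * ‖x n‖ ^ q + ∑ n ∈ I, M₀ / I.card * ‖x n‖ ^ q := by
      rw [← sum_add_distrib]
      exact sum_congr rfl fun n _ => by ring
    rw [h7]
    nlinarith
  push_cast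
  rw [mul_assoc]
  exact mul_le_mul_of_nonneg_left h6 (by positivity)

/-- weights from a bound for bounded coefficients -/
theorem weights {q : ℝ} (hq : 2 ≤ q) (hI : I.Nonempty) {Q : ℝ} (hQ0 : 0 < Q)
    (hQ : ∀ b : ℕ → ℂ, (∀ n, ‖b n‖ ≤ 1) → F S I U q b ≤ Q) {L : ℕ} (hL : (I.card : ℝ) ≤ 2 ^ L) :
    ∃ p : ℕ → ℝ, (∀ n, 0 ≤ p n) ∧ ∑ n ∈ I, p n = 1 ∧ ∀ x : ℕ → ℂ,
      F S I U q x ≤ ((L : ℝ) + 1) ^ (q - 1) * 2 ^ (q - 1) * (2 * (q + 1)) * Q * ∑ n ∈ I, p n * ‖x n‖ ^ q := by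
  obtain ⟨w, hw0, hw1, hw⟩ := pisier S I U hq hI hQ0 hQ
  have hM : 0 < (q + 1) * Q := by positivity
  have hc0 : (0 : ℝ) < I.card := by exact_mod_cast card_pos.2 hI
  obtain ⟨v, hv⟩ : ∃ v : ℕ → ℝ, v = fun n => w n + (q + 1) * Q / I.card := ⟨_, rfl⟩
  have hv0 : ∀ n, 0 ≤ v n := fun n => by
    rw [hv]
    have := hw0 n
    positivity
  obtain ⟨V, hV⟩ : ∃ V : ℝ, V = ∑ n ∈ I, v n := ⟨_, rfl⟩
  have hVe : V = ∑ n ∈ I, w n + (q + 1) * Q := by
    rw [hV, hv, sum_add_distrib, sum_const, nsmul_eq_mul, mul_div_cancel₀ _ hc0.ne']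
  have hV0 : 0 < V := by
    rw [hVe]
    have : 0 ≤ ∑ n ∈ I, w n := sum_nonneg fun n _ => hw0 n
    linarith
  have hV1 : V ≤ 2 * (q + 1) * Q := by rw [hVe]; linarith
  refine ⟨fun n => v n / V, fun n => div_nonneg (hv0 n) hV0.le, ?_, fun x => ?_⟩
  · rw [← sum_div, ← hV, div_self hV0.ne']
  · have h1 := lorentz S I U hq hI hM hw0 hw1 hw hL x
    have h2 : ∑ n ∈ I, (w n + (q + 1) * Q / I.card) * ‖x n‖ ^ q = V * ∑ n ∈ I, v n / V * ‖x n‖ ^ q := by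
      rw [mul_sum]
      refine sum_congr rfl fun n _ => ?_
      rw [hv]
      field_simp
    rw [h2] at h1
    refine h1.trans ?_
    have h3 : 0 ≤ ∑ n ∈ I, v n / V * ‖x n‖ ^ q := sum_nonneg fun n _ => by
      have := hv0 n
      positivity
    calc ((L : ℝ) + 1) ^ (q - 1) * 2 ^ (q - 1) * (V * ∑ n ∈ I, v n / V * ‖x n‖ ^ q)
        ≤ ((L : ℝ) + 1) ^ (q - 1) * 2 ^ (q - 1) * ((2 * (q + 1) * Q) * ∑ n ∈ I, v n / V * ‖x n‖ ^ q) := by gcongr
      _ = _ := by ring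

/-- from weights to exceptional sets -/
lemma exc_of_weights {N : ℝ} (hN : 0 < N) {p : ℕ → ℝ} (hp0 : ∀ n, 0 ≤ p n) (hp1 : ∑ n ∈ I, p n = 1) {q Q : ℝ}
    (hq : 2 ≤ q) (hQ : 0 ≤ Q) (hp : ∀ x : ℕ → ℂ, F S I U q x ≤ Q * ∑ n ∈ I, p n * ‖x n‖ ^ q) (K : ℝ) :
    ∃ B : Finset ℕ, B ⊆ I ∧ K * B.card ≤ N ∧ ∀ x : ℕ → ℂ, (∀ n ∈ B, x n = 0) →
      F S I U q x ≤ Q * K * (1 / N * ∑ n ∈ I, ‖x n‖ ^ q) := by
  classical
  refine ⟨I.filter (fun n => K < N * p n), filter_subset _ _, ?_, fun x hx => ?_⟩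
  · have h1 : ∑ n ∈ I.filter (fun n => K < N * p n), K ≤ ∑ n ∈ I.filter (fun n => K < N * p n), N * p n :=
      sum_le_sum fun n hn => (mem_filter.1 hn).2.le
    have h2 : ∑ n ∈ I.filter (fun n => K < N * p n), N * p n ≤ ∑ n ∈ I, N * p n :=
      sum_le_sum_of_subset_of_nonneg (filter_subset _ _) fun n _ _ => mul_nonneg hN.le (hp0 n)
    rw [sum_const, nsmul_eq_mul] at h1
    rw [← mul_sum I, hp1, mul_one] at h2
    linarith
  · refine (hp x).trans ?_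
    have e : Q * K * (1 / N * ∑ n ∈ I, ‖x n‖ ^ q) = Q * ∑ n ∈ I, K / N * ‖x n‖ ^ q := by
      rw [← mul_sum]
      ring
    rw [e]
    refine mul_le_mul_of_nonneg_left (sum_le_sum fun n hn => ?_) hQ
    by_cases h : K < N * p n
    · rw [hx n (mem_filter.2 ⟨hn, h⟩), norm_zero, Real.zero_rpow (by linarith)]
      simp
    · refine mul_le_mul_of_nonneg_right ?_ (by positivity)
      rw [le_div_iff₀ hN]
      linarith [not_lt.1 h]

/-- from exceptional sets to bounded coefficients -/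
lemma bdd_of_exc {N : ℕ} (hN : 1 ≤ N) (hI : (I.card : ℝ) ≤ 2 * N) {q Q : ℝ} (hq : 2 ≤ q) (hQ : 0 ≤ Q)
    (h : ∀ K : ℝ, 1 ≤ K → ∃ B : Finset ℕ, B ⊆ I ∧ K * B.card ≤ N ∧ ∀ x : ℕ → ℂ, (∀ n ∈ B, x n = 0) →
      F S I U q x ≤ Q * K * (1 / (N : ℝ) * ∑ n ∈ I, ‖x n‖ ^ q)) {x : ℕ → ℂ} (hx : ∀ n, ‖x n‖ ≤ 1) :
    F S I U q x ≤ 4 * ((Nat.log 2 N : ℝ) + 1) ^ q * Q := by
  classical
  choose! B hB1 hB2 hB3 using h
  have hN0 : (0 : ℝ) < N := by exact_mod_cast hN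
  obtain ⟨J, hJ⟩ : ∃ J : ℕ, J = Nat.log 2 N + 1 := ⟨_, rfl⟩
  have hNJ : N < 2 ^ J := by rw [hJ]; exact Nat.lt_pow_succ_log_self (by norm_num) N
  obtain ⟨G, hG⟩ : ∃ G : ℕ → Finset ℕ, G = fun j => B ((2 : ℝ) ^ j) := ⟨_, rfl⟩
  have h2j : ∀ j : ℕ, (1 : ℝ) ≤ 2 ^ j := fun j => one_le_pow₀ (by norm_num)
  have hG2 : ∀ j, (2 : ℝ) ^ j * (G j).card ≤ N := fun j => by rw [hG]; exact hB2 _ (h2j j)
  have hGJ : G J = ∅ := by
    have h1 := hG2 J
    rw [← card_eq_zero]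
    by_contra hc
    have h2 : (1 : ℝ) ≤ (G J).card := by exact_mod_cast Nat.one_le_iff_ne_zero.2 hc
    have h3 : (N : ℝ) < 2 ^ J := by exact_mod_cast hNJ
    have h4 := h2j J
    nlinarith
  have hex : ∀ n : ℕ, ∃ j : ℕ, n ∉ G (j + 1) := fun n => ⟨J - 1, by
    have : J - 1 + 1 = J := by omega
    rw [this, hGJ]; simp⟩
  obtain ⟨f, hf⟩ : ∃ f : ℕ → ℕ, f = fun n => Nat.find (hex n) := ⟨_, rfl⟩
  have hf1 : ∀ n, n ∉ G (f n + 1) := fun n => by rw [hf]; exact Nat.find_spec (hex n)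
  have hfn : ∀ n, f n = Nat.find (hex n) := fun n => by rw [hf]
  have hf2 : ∀ n, f n < J := fun n => by
    have h1 : Nat.find (hex n) ≤ J - 1 := Nat.find_min' (hex n) (by
      have : J - 1 + 1 = J := by omega
      rw [this, hGJ]; simp)
    rw [← hfn] at h1
    omega
  have hf3 : ∀ n, f n ≠ 0 → n ∈ G (f n) := fun n hn => by
    by_contra hc
    have h1 : Nat.find (hex n) ≤ f n - 1 := Nat.find_min' (hex n) (by
      have : f n - 1 + 1 = f n := by omega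
      rw [this]; exact hc)
    rw [← hfn] at h1
    omega
  obtain ⟨b, hb⟩ : ∃ b : ℕ → ℕ → ℂ, b = fun j n => if f n = j then x n else 0 := ⟨_, rfl⟩
  have hsum : ∀ n, ∑ j ∈ range J, b j n = x n := by
    intro n
    rw [hb]
    simp only
    rw [sum_ite_eq]
    simp [hf2 n]
  have e1 : F S I U q x = F S I U q (fun n => ∑ j ∈ range J, b j n) := by
    congr 1
    funext n
    exact (hsum n).symm
  have hb1 : ∀ j n, ‖b j n‖ ^ q ≤ 1 := by
    intro j n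
    rw [hb]
    dsimp only
    split_ifs
    · exact Real.rpow_le_one (norm_nonneg _) (hx n) (by linarith)
    · rw [norm_zero, Real.zero_rpow (by linarith)]
      norm_num
  have hj : ∀ j ∈ range J, F S I U q (b j) ≤ 4 * Q := by
    intro j _
    have h1 := hB3 ((2 : ℝ) ^ (j + 1)) (h2j _) (b j) (fun n hn => by
      rw [hb]
      dsimp only
      rw [if_neg]
      intro h2
      have h3 := hf1 n
      rw [h2, hG] at h3
      exact h3 hn)
    refine h1.trans ?_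
    have h4 : (2 : ℝ) ^ j * ∑ n ∈ I, ‖b j n‖ ^ q ≤ 2 * N := by
      rcases Nat.eq_zero_or_pos j with h0 | h0
      · rw [h0, pow_zero, one_mul]
        refine (sum_le_sum fun n _ => hb1 0 n).trans ?_
        rw [sum_const, nsmul_eq_mul, mul_one]
        exact hI
      · have h5 : ∑ n ∈ I, ‖b j n‖ ^ q ≤ (G j).card := by
          have h6 : ∀ n ∈ I, ‖b j n‖ ^ q ≤ if n ∈ G j then (1 : ℝ) else 0 := by
            intro n _
            by_cases h7 : f n = j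
            · have h8 : n ∈ G j := by rw [← h7]; exact hf3 n (by omega)
              rw [if_pos h8]
              exact hb1 j n
            · have h8 : b j n = 0 := by rw [hb]; dsimp only; rw [if_neg h7]
              rw [h8, norm_zero, Real.zero_rpow (by linarith)]
              split_ifs <;> norm_num
          refine (sum_le_sum h6).trans ?_
          rw [← sum_filter, sum_const, nsmul_eq_mul, mul_one, filter_mem_eq_inter]
          exact_mod_cast card_le_card inter_subset_right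
        have h9 := hG2 j
        have h10 : (0 : ℝ) ≤ 2 ^ j := by positivity
        nlinarith
    have h5 : Q * 2 ^ (j + 1) * (1 / (N : ℝ) * ∑ n ∈ I, ‖b j n‖ ^ q) =
        2 * Q * (1 / (N : ℝ)) * (2 ^ j * ∑ n ∈ I, ‖b j n‖ ^ q) := by
      rw [pow_succ]; ring
    rw [h5]
    calc 2 * Q * (1 / (N : ℝ)) * (2 ^ j * ∑ n ∈ I, ‖b j n‖ ^ q) ≤ 2 * Q * (1 / (N : ℝ)) * (2 * N) := by gcongr
      _ = 4 * Q := by field_simp; ring
  rw [e1]
  refine (F_sum_le S I U (by linarith) J b).trans ?_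
  have h1 : ∑ j ∈ range J, F S I U q (b j) ≤ J * (4 * Q) := by
    refine (sum_le_sum hj).trans ?_
    simp
  have hJ0 : (0 : ℝ) < J := by rw [hJ]; positivity
  have h2 : (J : ℝ) = (Nat.log 2 N : ℝ) + 1 := by rw [hJ]; push_cast; ring
  rw [← h2]
  have h3 : (J : ℝ) ^ q = (J : ℝ) ^ (q - 1) * J := by
    rw [← Real.rpow_add_one hJ0.ne']
    congr 1
    ring
  rw [h3]
  calc (J : ℝ) ^ (q - 1) * ∑ j ∈ range J, F S I U q (b j) ≤ (J : ℝ) ^ (q - 1) * (J * (4 * Q)) := by gcongr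
    _ = _ := by ring

end general

lemma log_le {q ε : ℝ} (hq : 0 < q) (hε : 0 < ε) : ∃ C : ℝ, 0 < C ∧ ∀ N : ℕ, 1 ≤ N → ((Nat.log 2 N : ℝ) + 3) ^ q ≤ C * (N : ℝ) ^ ε := by
  obtain ⟨η, hη⟩ : ∃ η : ℝ, η = ε / q := ⟨_, rfl⟩
  have hη0 : 0 < η := by rw [hη]; positivity
  have hl2 : 0 < Real.log 2 := Real.log_pos (by norm_num)
  refine ⟨(1 / (η * Real.log 2) + 3) ^ q, by positivity, fun N hN => ?_⟩
  have hN1 : (1 : ℝ) ≤ N := by exact_mod_cast hN
  have hN0 : (0 : ℝ) < N := by linarith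
  have h1 : (Nat.log 2 N : ℝ) * Real.log 2 ≤ Real.log N := by
    rw [← Real.log_pow]
    apply Real.log_le_log (by positivity)
    exact_mod_cast Nat.pow_log_le_self 2 (by omega)
  have h2 : Real.log N ≤ (N : ℝ) ^ η / η := Real.log_le_rpow_div hN0.le hη0
  have h3 : (1 : ℝ) ≤ (N : ℝ) ^ η := Real.one_le_rpow hN1 hη0.le
  have h4 : (Nat.log 2 N : ℝ) ≤ 1 / (η * Real.log 2) * (N : ℝ) ^ η := by
    have h5 : (Nat.log 2 N : ℝ) ≤ ((N : ℝ) ^ η / η) / Real.log 2 := by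
      rw [le_div_iff₀ hl2]
      exact h1.trans h2
    refine h5.trans (le_of_eq ?_)
    field_simp
  have h5 : (Nat.log 2 N : ℝ) + 3 ≤ (1 / (η * Real.log 2) + 3) * (N : ℝ) ^ η := by linarith
  have h6 : ((N : ℝ) ^ η) ^ q = (N : ℝ) ^ ε := by
    rw [← Real.rpow_mul hN0.le]
    congr 1
    rw [hη]
    field_simp
  calc ((Nat.log 2 N : ℝ) + 3) ^ q ≤ ((1 / (η * Real.log 2) + 3) * (N : ℝ) ^ η) ^ q :=
        Real.rpow_le_rpow (by positivity) h5 hq.le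
    _ = _ := by rw [Real.mul_rpow (by positivity) (by positivity), h6]

end Pool.Agent.TH804.GY
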