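import Pool.Agent.TH804.GY2

/-!
Hilbert space valued coefficients for `ℓ^q` sums
-/

set_option autoImplicit false

open Finset

namespace Pool.Agent.TH804.GY

/-- a bound for a sum from bounds for the number of large terms -/
lemma levels {τ : Type*} {x : τ → ℝ} {A : ℝ} (hA : 0 ≤ A) :
    ∀ (m : ℕ) (S : Finset τ), S.card = m → (∀ S' ⊆ S, ∀ y : ℝ, 0 < y → (∀ t ∈ S', y ≤ x t) → (S'.card : ℝ) * y ≤ A) →
      ∑ t ∈ S, x t ≤ A * (harmonic m : ℝ) := by
  classical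
  intro m
  induction m with
  | zero =>
    intro S hS _
    rw [card_eq_zero.1 hS]
    simp
  | succ m ih =>
    intro S hS h
    have hne : S.Nonempty := by
      rw [← card_pos, hS]; omega
    obtain ⟨t₀, ht₀, hmin⟩ := S.exists_min_image x hne
    have h1 := ih (S.erase t₀) (by rw [card_erase_of_mem ht₀, hS]; omega)
      (fun S' hS' => h S' (hS'.trans (erase_subset _ _)))
    rw [← add_sum_erase S x ht₀]
    have h2 : x t₀ ≤ A * (1 / ((m : ℝ) + 1)) := by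
      rcases le_or_gt (x t₀) 0 with h3 | h3
      · have : 0 ≤ A * (1 / ((m : ℝ) + 1)) := by positivity
        linarith
      · have h4 := h S (Subset.refl _) (x t₀) h3 hmin
        rw [hS] at h4
        push_cast at h4
        rw [mul_one_div, le_div_iff₀ (by positivity)]
        linarith
    rw [harmonic_succ]
    push_cast
    have e : A * ((harmonic m : ℝ) + ((m : ℝ) + 1)⁻¹) = A * (harmonic m : ℝ) + A * (1 / ((m : ℝ) + 1)) := by
      rw [one_div]; ring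
    rw [e]
    linarith

section general

variable {τ : Type*} (S : Finset τ) (I : Finset ℕ) (U : τ → ℕ → ℂ)

lemma F_mono {S S' : Finset τ} (h : S' ⊆ S) (q : ℝ) (x : ℕ → ℂ) : F S' I U q x ≤ F S I U q x :=
  sum_le_sum_of_subset_of_nonneg h fun _ _ _ => by positivity

theorem vec {q : ℝ} (hq : 2 ≤ q) (hI : I.Nonempty) {Q : ℝ}
    (hQ : ∀ b : ℕ → ℂ, (∀ n, ‖b n‖ ≤ 1) → F S I U q b ≤ Q) {k : ℕ} (a : ℕ → EuclideanSpace ℂ (Fin k))
    (ha : ∀ n, ‖a n‖ ≤ 1) :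
    ∑ t ∈ S, ‖∑ n ∈ I, U t n • a n‖ ^ q ≤ 3 ^ (q / 2) * Q * (harmonic S.card : ℝ) := by
  classical
  have hQ0 : 0 ≤ Q := (F_nonneg S I U q (fun _ => 0)).trans (hQ _ (fun _ => by simp))
  refine levels (by positivity) S.card S rfl fun S' hS' y hy hS'y => ?_
  rcases Nat.eq_zero_or_pos S'.card with h0 | h0
  · rw [h0]
    simp
    positivity
  have hc : (0 : ℝ) < S'.card := by exact_mod_cast h0
  have hq2 : 1 ≤ q / 2 := by linarith
  have hq0 : 0 < q / 2 := by linarith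
  obtain ⟨Q₂, hQ₂⟩ : ∃ Q₂ : ℝ, Q₂ = ((S'.card : ℝ) ^ (q / 2 - 1) * Q) ^ (1 / (q / 2)) := ⟨_, rfl⟩
  have hQ₂0 : 0 ≤ Q₂ := by rw [hQ₂]; positivity
  have hQ₂1 : Q₂ ^ (q / 2) = (S'.card : ℝ) ^ (q / 2 - 1) * Q := by
    rw [hQ₂, ← Real.rpow_mul (by positivity), one_div_mul_cancel hq0.ne', Real.rpow_one]
  have e : ∀ z : ℝ, 0 ≤ z → (z ^ 2) ^ (q / 2) = z ^ q := fun z hz => by
    rw [← Real.rpow_natCast, ← Real.rpow_mul hz]
    congr 1
    push_cast
    ring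
  have h1 : ∀ b : ℕ → ℂ, (∀ n, ‖b n‖ ≤ 1) → GW.QF S' I U b ≤ Q₂ := by
    intro b hb
    have h2 := Real.rpow_sum_le_const_mul_sum_rpow S' (fun t => ‖∑ n ∈ I, b n * U t n‖ ^ 2) hq2
    simp only [abs_pow, abs_norm] at h2
    have h3 : ∑ t ∈ S', (‖∑ n ∈ I, b n * U t n‖ ^ 2) ^ (q / 2) = F S' I U q b := by
      unfold F
      exact sum_congr rfl fun t _ => e _ (norm_nonneg _)
    rw [h3] at h2
    have h4 : F S' I U q b ≤ Q := (F_mono I U hS' q b).trans (hQ b hb)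
    have h5 : (GW.QF S' I U b) ^ (q / 2) ≤ Q₂ ^ (q / 2) := by
      rw [hQ₂1]
      unfold GW.QF
      exact h2.trans (mul_le_mul_of_nonneg_left h4 (by positivity))
    exact (Real.rpow_le_rpow_iff (GW.QF_nonneg _ _ _ _) hQ₂0 hq0).1 h5
  obtain ⟨p, hp0, hp1, hp⟩ := GW.weights S' I U hI h1
  have h2 := GW.vectors S' I U hp a
  have h3 : ∑ n ∈ I, p n * ‖a n‖ ^ 2 ≤ 1 := by
    rw [← hp1]
    refine sum_le_sum fun n _ => ?_
    have h3 : ‖a n‖ ^ 2 ≤ 1 := by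
      have := ha n
      have := norm_nonneg (a n)
      nlinarith
    have := mul_le_mul_of_nonneg_left h3 (hp0 n)
    linarith
  have h4 : (S'.card : ℝ) * (y ^ (1 / q)) ^ 2 ≤ 3 * Q₂ := by
    have h5 : (S'.card : ℝ) * (y ^ (1 / q)) ^ 2 ≤ ∑ t ∈ S', ‖∑ n ∈ I, U t n • a n‖ ^ 2 := by
      rw [← nsmul_eq_mul]
      refine card_nsmul_le_sum _ _ _ fun t ht => ?_
      refine pow_le_pow_left₀ (by positivity) ?_ 2
      have h6 := hS'y t ht
      calc y ^ (1 / q) ≤ (‖∑ n ∈ I, U t n • a n‖ ^ q) ^ (1 / q) :=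
            Real.rpow_le_rpow hy.le h6 (by positivity)
        _ = _ := by
            rw [← Real.rpow_mul (norm_nonneg _), mul_one_div_cancel (by linarith), Real.rpow_one]
    refine h5.trans (h2.trans ?_)
    have : 0 ≤ 3 * Q₂ := by positivity
    nlinarith
  have h5 : ((S'.card : ℝ) * (y ^ (1 / q)) ^ 2) ^ (q / 2) ≤ (3 * Q₂) ^ (q / 2) :=
    Real.rpow_le_rpow (by positivity) h4 hq0.le
  rw [Real.mul_rpow hc.le (by positivity), Real.mul_rpow (by norm_num) hQ₂0, hQ₂1, e _ (by positivity),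
    ← Real.rpow_mul hy.le, one_div_mul_cancel (by linarith), Real.rpow_one] at h5
  have h6 : (S'.card : ℝ) ^ (q / 2) = (S'.card : ℝ) ^ (q / 2 - 1) * S'.card := by
    rw [← Real.rpow_add_one hc.ne']
    congr 1
    ring
  rw [h6] at h5
  have h7 : (0 : ℝ) < (S'.card : ℝ) ^ (q / 2 - 1) := by positivity
  have h8 : (S'.card : ℝ) ^ (q / 2 - 1) * ((S'.card : ℝ) * y) ≤ (S'.card : ℝ) ^ (q / 2 - 1) * (3 ^ (q / 2) * Q) := by
    linarith
  exact le_of_mul_le_mul_left h8 h7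

end general

end Pool.Agent.TH804.GY
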