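import Pool.Agent.TH804.GY3

/-!
Montgomery's `ℓ^q` conjecture: weights, exceptional sets, Hilbert valued coefficients
-/

set_option autoImplicit false

open Finset

namespace Pool.Agent.TH804.GY

/-- `n^{it}` -/
noncomputable def E (t n : ℕ) : ℂ := Complex.exp (Complex.I * (t : ℂ) * ((Real.log (n : ℝ) : ℝ) : ℂ))

/-- the bound for bounded coefficients -/
def MB (q A : ℝ) : Prop := ∀ ε : ℝ, 0 < ε → ∃ K : ℝ,
  ∀ N T : ℕ, 1 ≤ N → N ≤ T → (T : ℝ) ≤ (N : ℝ) ^ A → ∀ b : ℕ → ℂ, (∀ n, ‖b n‖ ≤ 1) →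
    F (Icc 1 T) (Icc N (2 * N)) E q b ≤ K * (N : ℝ) ^ ε * ((N : ℝ) ^ q + (N : ℝ) ^ (q / 2) * (T : ℝ))

/-- weights -/
def WB (q A : ℝ) : Prop := ∀ ε : ℝ, 0 < ε → ∃ K : ℝ,
  ∀ N T : ℕ, 1 ≤ N → N ≤ T → (T : ℝ) ≤ (N : ℝ) ^ A → ∃ p : ℕ → ℝ, (∀ n, 0 ≤ p n) ∧ ∑ n ∈ Icc N (2 * N), p n = 1 ∧
    ∀ b : ℕ → ℂ, F (Icc 1 T) (Icc N (2 * N)) E q b ≤
      K * (N : ℝ) ^ ε * ((N : ℝ) ^ q + (N : ℝ) ^ (q / 2) * (T : ℝ)) * ∑ n ∈ Icc N (2 * N), p n * ‖b n‖ ^ q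

/-- exceptional sets -/
def EB (q A : ℝ) : Prop := ∀ ε : ℝ, 0 < ε → ∃ K : ℝ,
  ∀ N T : ℕ, 1 ≤ N → N ≤ T → (T : ℝ) ≤ (N : ℝ) ^ A → ∀ R : ℝ, 1 ≤ R →
    ∃ B : Finset ℕ, B ⊆ Icc N (2 * N) ∧ R * B.card ≤ N ∧ ∀ b : ℕ → ℂ, (∀ n ∈ B, b n = 0) →
      F (Icc 1 T) (Icc N (2 * N)) E q b ≤
        K * (N : ℝ) ^ ε * R * ((N : ℝ) ^ q + (N : ℝ) ^ (q / 2) * (T : ℝ)) *
          (1 / (N : ℝ) * ∑ n ∈ Icc N (2 * N), ‖b n‖ ^ q)

/-- vectors -/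
def VB (q A : ℝ) : Prop := ∀ ε : ℝ, 0 < ε → ∃ K : ℝ,
  ∀ N T : ℕ, 1 ≤ N → N ≤ T → (T : ℝ) ≤ (N : ℝ) ^ A → ∀ (k : ℕ) (b : ℕ → EuclideanSpace ℂ (Fin k)),
    (∀ n, ‖b n‖ ≤ 1) → ∑ t ∈ Icc 1 T, ‖∑ n ∈ Icc N (2 * N), E t n • b n‖ ^ q ≤
      K * (N : ℝ) ^ ε * ((N : ℝ) ^ q + (N : ℝ) ^ (q / 2) * (T : ℝ))

lemma Icc_nonempty (N : ℕ) : (Icc N (2 * N)).Nonempty := ⟨N, by rw [mem_Icc]; omega⟩

lemma card_Icc_le {N : ℕ} (hN : 1 ≤ N) : ((Icc N (2 * N)).card : ℝ) ≤ 2 * N := by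
  rw [Nat.card_Icc]
  have : 2 * N + 1 - N ≤ 2 * N := by omega
  exact_mod_cast this

lemma card_Icc_pow {N : ℕ} (hN : 1 ≤ N) : ((Icc N (2 * N)).card : ℝ) ≤ 2 ^ (Nat.log 2 N + 2) := by
  refine (card_Icc_le hN).trans ?_
  have h1 : N < 2 ^ (Nat.log 2 N + 1) := Nat.lt_pow_succ_log_self (by norm_num) N
  have h2 : 2 * N ≤ 2 ^ (Nat.log 2 N + 2) := by
    have : 2 ^ (Nat.log 2 N + 2) = 2 * 2 ^ (Nat.log 2 N + 1) := by ring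
    omega
  exact_mod_cast h2

theorem WB_of_MB {q A : ℝ} (hq : 2 ≤ q) (h : MB q A) : WB q A := by
  intro ε hε
  obtain ⟨K, hK⟩ := h (ε / 2) (by positivity)
  obtain ⟨C, hC, hC1⟩ := log_le (q := q) (ε := ε / 2) (by linarith) (by positivity)
  refine ⟨C * 2 ^ (q - 1) * (2 * (q + 1)) * max K 1, fun N T hN hNT hTA => ?_⟩
  have hN0 : (0 : ℝ) < N := by exact_mod_cast hN
  obtain ⟨X, hX⟩ : ∃ X : ℝ, X = (N : ℝ) ^ q + (N : ℝ) ^ (q / 2) * (T : ℝ) := ⟨_, rfl⟩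
  have hX0 : 0 < X := by rw [hX]; positivity
  have hK1 : (0 : ℝ) < max K 1 := lt_of_lt_of_le one_pos (le_max_right _ _)
  have hQ : ∀ b : ℕ → ℂ, (∀ n, ‖b n‖ ≤ 1) → F (Icc 1 T) (Icc N (2 * N)) E q b ≤ max K 1 * (N : ℝ) ^ (ε / 2) * X := by
    intro b hb
    refine (hK N T hN hNT hTA b hb).trans ?_
    rw [← hX]
    have := le_max_left K 1
    gcongr
  obtain ⟨p, hp0, hp1, hp⟩ := weights (Icc 1 T) (Icc N (2 * N)) E hq (Icc_nonempty N) (by positivity) hQ (card_Icc_pow hN)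
  refine ⟨p, hp0, hp1, fun b => (hp b).trans ?_⟩
  have hs : 0 ≤ ∑ n ∈ Icc N (2 * N), p n * ‖b n‖ ^ q := sum_nonneg fun n _ => by
    have := hp0 n
    positivity
  have h1 : (((Nat.log 2 N + 2 : ℕ) : ℝ) + 1) ^ (q - 1) ≤ C * (N : ℝ) ^ (ε / 2) := by
    refine le_trans ?_ (hC1 N hN)
    have e : ((Nat.log 2 N + 2 : ℕ) : ℝ) + 1 = (Nat.log 2 N : ℝ) + 3 := by push_cast; ring
    rw [e]
    refine Real.rpow_le_rpow_of_exponent_le ?_ (by linarith)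
    have : (0 : ℝ) ≤ Nat.log 2 N := Nat.cast_nonneg _
    linarith
  have h5 : (N : ℝ) ^ ε = (N : ℝ) ^ (ε / 2) * (N : ℝ) ^ (ε / 2) := by
    rw [← Real.rpow_add hN0, add_halves]
  rw [← hX]
  have hq1 : 0 < 2 * (q + 1) := by linarith
  calc (((Nat.log 2 N + 2 : ℕ) : ℝ) + 1) ^ (q - 1) * 2 ^ (q - 1) * (2 * (q + 1)) * (max K 1 * (N : ℝ) ^ (ε / 2) * X) *
        ∑ n ∈ Icc N (2 * N), p n * ‖b n‖ ^ q
      ≤ (C * (N : ℝ) ^ (ε / 2)) * 2 ^ (q - 1) * (2 * (q + 1)) * (max K 1 * (N : ℝ) ^ (ε / 2) * X) *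
        ∑ n ∈ Icc N (2 * N), p n * ‖b n‖ ^ q := by gcongr
    _ = _ := by rw [h5]; ring

theorem EB_of_WB {q A : ℝ} (hq : 2 ≤ q) (h : WB q A) : EB q A := by
  intro ε hε
  obtain ⟨K, hK⟩ := h ε hε
  refine ⟨max K 0, fun N T hN hNT hTA R hR => ?_⟩
  have hN0 : (0 : ℝ) < N := by exact_mod_cast hN
  obtain ⟨X, hX⟩ : ∃ X : ℝ, X = (N : ℝ) ^ q + (N : ℝ) ^ (q / 2) * (T : ℝ) := ⟨_, rfl⟩
  have hX0 : 0 < X := by rw [hX]; positivity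
  obtain ⟨p, hp0, hp1, hp⟩ := hK N T hN hNT hTA
  obtain ⟨B, hB1, hB2, hB3⟩ := exc_of_weights (Icc 1 T) (Icc N (2 * N)) E hN0 hp0 hp1 hq
    (Q := max K 0 * (N : ℝ) ^ ε * X) (mul_nonneg (mul_nonneg (le_max_right _ _) (by positivity)) hX0.le) (fun x => by
      refine (hp x).trans ?_
      rw [← hX]
      have hs : 0 ≤ ∑ n ∈ Icc N (2 * N), p n * ‖x n‖ ^ q := sum_nonneg fun n _ => by
        have := hp0 n
        positivity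
      have := le_max_left K 0
      gcongr) R
  refine ⟨B, hB1, hB2, fun b hb => (hB3 b hb).trans (le_of_eq ?_)⟩
  rw [hX]
  ring

theorem MB_of_EB {q A : ℝ} (hq : 2 ≤ q) (h : EB q A) : MB q A := by
  intro ε hε
  obtain ⟨K, hK⟩ := h (ε / 2) (by positivity)
  obtain ⟨C, hC, hC1⟩ := log_le (q := q) (ε := ε / 2) (by linarith) (by positivity)
  refine ⟨4 * C * max K 0, fun N T hN hNT hTA b hb => ?_⟩
  have hN0 : (0 : ℝ) < N := by exact_mod_cast hN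
  obtain ⟨X, hX⟩ : ∃ X : ℝ, X = (N : ℝ) ^ q + (N : ℝ) ^ (q / 2) * (T : ℝ) := ⟨_, rfl⟩
  have hX0 : 0 < X := by rw [hX]; positivity
  have hQ0 : 0 ≤ max K 0 * (N : ℝ) ^ (ε / 2) * X :=
    mul_nonneg (mul_nonneg (le_max_right _ _) (by positivity)) hX0.le
  have h1 := bdd_of_exc (Icc 1 T) (Icc N (2 * N)) E hN (card_Icc_le hN) hq hQ0 (fun R hR => by
    obtain ⟨B, hB1, hB2, hB3⟩ := hK N T hN hNT hTA R hR
    refine ⟨B, hB1, hB2, fun x hx => (hB3 x hx).trans ?_⟩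
    rw [← hX]
    have hs : 0 ≤ 1 / (N : ℝ) * ∑ n ∈ Icc N (2 * N), ‖x n‖ ^ q := by positivity
    have h2 := le_max_left K 0
    calc K * (N : ℝ) ^ (ε / 2) * R * X * (1 / (N : ℝ) * ∑ n ∈ Icc N (2 * N), ‖x n‖ ^ q)
        ≤ max K 0 * (N : ℝ) ^ (ε / 2) * R * X * (1 / (N : ℝ) * ∑ n ∈ Icc N (2 * N), ‖x n‖ ^ q) := by gcongr
      _ = _ := by ring) hb
  refine h1.trans ?_
  have h2 : ((Nat.log 2 N : ℝ) + 1) ^ q ≤ C * (N : ℝ) ^ (ε / 2) := by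
    refine le_trans ?_ (hC1 N hN)
    exact Real.rpow_le_rpow (by positivity) (by linarith) (by linarith)
  have h5 : (N : ℝ) ^ ε = (N : ℝ) ^ (ε / 2) * (N : ℝ) ^ (ε / 2) := by
    rw [← Real.rpow_add hN0, add_halves]
  rw [← hX]
  calc 4 * ((Nat.log 2 N : ℝ) + 1) ^ q * (max K 0 * (N : ℝ) ^ (ε / 2) * X)
      ≤ 4 * (C * (N : ℝ) ^ (ε / 2)) * (max K 0 * (N : ℝ) ^ (ε / 2) * X) := by gcongr
    _ = _ := by rw [h5]; ring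

theorem VB_of_MB {q A : ℝ} (hq : 2 ≤ q) (h : MB q A) : VB q A := by
  intro ε hε
  obtain ⟨K, hK⟩ := h (ε / 2) (by positivity)
  refine ⟨3 ^ (q / 2) * max K 0 * (1 + |A| * (2 / ε)), fun N T hN hNT hTA k b hb => ?_⟩
  have hN0 : (0 : ℝ) < N := by exact_mod_cast hN
  have hN1 : (1 : ℝ) ≤ N := by exact_mod_cast hN
  have hT : 1 ≤ T := hN.trans hNT
  have hT0 : (0 : ℝ) < T := by exact_mod_cast hT
  obtain ⟨X, hX⟩ : ∃ X : ℝ, X = (N : ℝ) ^ q + (N : ℝ) ^ (q / 2) * (T : ℝ) := ⟨_, rfl⟩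
  have hX0 : 0 < X := by rw [hX]; positivity
  have hQ0 : 0 ≤ max K 0 * (N : ℝ) ^ (ε / 2) * X :=
    mul_nonneg (mul_nonneg (le_max_right _ _) (by positivity)) hX0.le
  have h1 := vec (Icc 1 T) (Icc N (2 * N)) E hq (Icc_nonempty N) (Q := max K 0 * (N : ℝ) ^ (ε / 2) * X) (fun x hx => by
    refine (hK N T hN hNT hTA x hx).trans ?_
    rw [← hX]
    have := le_max_left K 0
    gcongr) b hb
  refine h1.trans ?_
  have h2 : (harmonic (Icc 1 T).card : ℝ) ≤ (1 + |A| * (2 / ε)) * (N : ℝ) ^ (ε / 2) := by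
    rw [Nat.card_Icc, Nat.add_sub_cancel]
    have h3 : (harmonic T : ℝ) ≤ 1 + Real.log T := harmonic_le_one_add_log _
    have h4 : Real.log T ≤ A * Real.log N := by
      rw [← Real.log_rpow hN0]
      exact Real.log_le_log hT0 hTA
    have h5 : 0 ≤ Real.log N := Real.log_nonneg hN1
    have h6 : A * Real.log N ≤ |A| * Real.log N := mul_le_mul_of_nonneg_right (le_abs_self A) h5
    have h7 : Real.log N ≤ (N : ℝ) ^ (ε / 2) / (ε / 2) := Real.log_le_rpow_div hN0.le (by positivity)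
    have h8 : (N : ℝ) ^ (ε / 2) / (ε / 2) = 2 / ε * (N : ℝ) ^ (ε / 2) := by field_simp
    have h9 : (1 : ℝ) ≤ (N : ℝ) ^ (ε / 2) := Real.one_le_rpow hN1 (by positivity)
    have h10 : |A| * Real.log N ≤ |A| * (2 / ε * (N : ℝ) ^ (ε / 2)) := by
      rw [← h8]
      exact mul_le_mul_of_nonneg_left h7 (abs_nonneg A)
    linarith
  have h5 : (N : ℝ) ^ ε = (N : ℝ) ^ (ε / 2) * (N : ℝ) ^ (ε / 2) := by
    rw [← Real.rpow_add hN0, add_halves]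
  rw [← hX]
  calc 3 ^ (q / 2) * (max K 0 * (N : ℝ) ^ (ε / 2) * X) * (harmonic (Icc 1 T).card : ℝ)
      ≤ 3 ^ (q / 2) * (max K 0 * (N : ℝ) ^ (ε / 2) * X) * ((1 + |A| * (2 / ε)) * (N : ℝ) ^ (ε / 2)) := by gcongr
    _ = _ := by rw [h5]; ring

theorem MB_of_VB {q A : ℝ} (h : VB q A) : MB q A := by
  intro ε hε
  obtain ⟨K, hK⟩ := h ε hε
  refine ⟨K, fun N T hN hNT hTA b hb => ?_⟩
  have h1 := hK N T hN hNT hTA 1 (fun n => EuclideanSpace.single 0 (b n)) (fun n => by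
    rw [PiLp.norm_single]; exact hb n)
  refine le_trans (le_of_eq ?_) h1
  unfold F
  refine sum_congr rfl fun t _ => ?_
  congr 1
  rw [EuclideanSpace.norm_eq]
  simp [mul_comm]

end Pool.Agent.TH804.GY
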