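import Pool.Agent.TH804.GY4
import Pool.Agent.TH804.GW4

/-!
No weights are good for `ℓ^r` norms with small `r`
-/

set_option autoImplicit false

open Finset

namespace Pool.Agent.TH804.GY

/-- an interval on which the weights are not large -/
lemma light {N M : ℕ} (hM : 1 ≤ M) (hMN : M ≤ N) {p : ℕ → ℝ} (hp : ∀ n, 0 ≤ p n)
    (hp1 : ∑ n ∈ Icc N (2 * N), p n ≤ 1) : ∃ n₀ : ℕ, N ≤ n₀ ∧ n₀ + M ≤ 2 * N + 1 ∧
      ∑ n ∈ Ico n₀ (n₀ + M), p n ≤ 2 * M / N := by
  have hN0 : (0 : ℝ) < N := by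
    have : 0 < N := by omega
    exact_mod_cast this
  obtain ⟨J, hJ⟩ : ∃ J : ℕ, J = N / M := ⟨_, rfl⟩
  have hJ1 : M * J ≤ N := by rw [hJ]; exact Nat.mul_div_le _ _
  have hJ2 : N < M * (J + 1) := by
    rw [hJ]
    have := Nat.lt_mul_div_succ N (show 0 < M by omega)
    simpa using this
  have hJ0 : 1 ≤ J := by
    by_contra hc
    have : J = 0 := by omega
    rw [this] at hJ2
    omega
  have hJ3 : N ≤ 2 * M * J := by nlinarith
  by_contra hcon
  push Not at hcon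
  have h1 : ∀ j < J, (2 * M / N : ℝ) < ∑ n ∈ Ico (N + j * M) (N + j * M + M), p n := by
    intro j hj
    refine hcon (N + j * M) (Nat.le_add_right _ _) ?_
    have h2 : (j + 1) * M ≤ J * M := Nat.mul_le_mul_right _ hj
    have h3 : (j + 1) * M = j * M + M := by ring
    have h4 : M * J = J * M := by ring
    omega
  have h2 : ∀ j ≤ J, ∑ n ∈ Ico N (N + j * M), p n = ∑ i ∈ range j, ∑ n ∈ Ico (N + i * M) (N + i * M + M), p n := by
    intro j
    induction j with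
    | zero => intro _; simp
    | succ j ih =>
      intro hj
      rw [sum_range_succ, ← ih (by omega)]
      have e : N + (j + 1) * M = N + j * M + M := by ring
      rw [e, Finset.sum_Ico_consecutive _ (by omega) (by omega)]
  have h3 : ∑ n ∈ Ico N (N + J * M), p n ≤ 1 := by
    refine (sum_le_sum_of_subset_of_nonneg ?_ fun n _ _ => hp n).trans hp1
    intro n hn
    rw [mem_Ico] at hn
    rw [mem_Icc]
    have h4 : M * J = J * M := by ring
    omega
  rw [h2 J le_rfl] at h3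
  have h4 : (J : ℝ) * (2 * M / N) < ∑ i ∈ range J, ∑ n ∈ Ico (N + i * M) (N + i * M + M), p n := by
    have : (J : ℝ) * (2 * M / N) = ∑ i ∈ range J, (2 * M / N : ℝ) := by simp
    rw [this]
    refine sum_lt_sum_of_nonempty ?_ fun i hi => h1 i (mem_range.1 hi)
    rw [nonempty_range_iff]
    omega
  have h5 : (N : ℝ) ≤ 2 * M * J := by exact_mod_cast hJ3
  have h6 : 1 ≤ (J : ℝ) * (2 * M / N) := by
    rw [mul_div_assoc', le_div_iff₀ hN0]
    linarith
  linarith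

/-- the geometric-like sum is large -/
lemma big {n₀ M k : ℕ} {l : ℝ} (hn₀ : 1 ≤ n₀) (hk : 16 * M ^ 2 * k ≤ n₀) (hl0 : 0 ≤ l) (hl' : 4 * M * l ≤ n₀)
    {A : Finset ℕ} (hA : A ⊆ Ico n₀ (n₀ + M)) :
    (A.card : ℝ) / 2 ≤ ‖∑ n ∈ A, GW.E (2 * Real.pi * n₀ * k + l) n‖ := by
  obtain ⟨t, ht⟩ : ∃ t : ℝ, t = 2 * Real.pi * n₀ * k + l := ⟨_, rfl⟩
  rw [← ht]
  have hn0 : (0 : ℝ) < n₀ := by exact_mod_cast hn₀
  have hk' : 16 * (M : ℝ) ^ 2 * k ≤ n₀ := by exact_mod_cast hk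
  have hpi := Real.pi_lt_d2
  have hpi0 := Real.pi_pos
  have key : ∀ n ∈ Ico n₀ (n₀ + M), ‖GW.E t n - GW.E t n₀‖ ≤ 1 / 2 := by
    intro n hn
    rw [mem_Ico] at hn
    obtain ⟨m, hm⟩ : ∃ m : ℕ, n = n₀ + m := ⟨n - n₀, by omega⟩
    have hmM : m < M := by omega
    obtain ⟨x, hx⟩ : ∃ x : ℝ, x = (m : ℝ) / n₀ := ⟨_, rfl⟩
    have hx0 : 0 ≤ x := by rw [hx]; positivity
    obtain ⟨φ, hφ⟩ : ∃ φ : ℝ, φ = t * Real.log (1 + x) - 2 * Real.pi * k * m := ⟨_, rfl⟩
    have hlog : Real.log n = Real.log n₀ + Real.log (1 + x) := by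
      rw [← Real.log_mul hn0.ne' (by positivity), hx, hm]
      congr 1
      push_cast
      field_simp
    have e1 : GW.E t n = GW.E t n₀ * Complex.exp (Complex.I * (φ : ℂ)) := by
      unfold GW.E
      rw [← Complex.exp_add, hlog, hφ]
      have : Complex.exp (Complex.I * (t : ℂ) * ((Real.log n₀ + Real.log (1 + x) : ℝ) : ℂ)) =
          Complex.exp (Complex.I * (t : ℂ) * (Real.log (n₀ : ℝ) : ℂ) +
            Complex.I * ((t * Real.log (1 + x) - 2 * Real.pi * k * m : ℝ) : ℂ) + ((k * m : ℤ) : ℂ) * (2 * Real.pi * Complex.I)) := by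
        congr 1
        push_cast
        ring
      rw [this, Complex.exp_add, Complex.exp_int_mul_two_pi_mul_I, mul_one]
    have e2 : GW.E t n - GW.E t n₀ = GW.E t n₀ * (Complex.exp (Complex.I * (φ : ℂ)) - 1) := by rw [e1]; ring
    rw [e2, norm_mul, GW.E_norm, one_mul]
    refine (Real.norm_exp_I_mul_ofReal_sub_one_le).trans ?_
    rw [Real.norm_eq_abs]
    have h1 : Real.log (1 + x) ≤ x := by
      have := Real.log_le_sub_one_of_pos (show 0 < 1 + x by linarith)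
      linarith
    have h2 : x - x ^ 2 / 2 ≤ Real.log (1 + x) := by
      refine le_trans ?_ (Real.le_log_one_add_of_nonneg hx0)
      rw [le_div_iff₀ (by linarith)]
      have : 0 ≤ x ^ 3 := by positivity
      nlinarith
    have hm' : (m : ℝ) ≤ M := by exact_mod_cast hmM.le
    have hm0 : (0 : ℝ) ≤ m := Nat.cast_nonneg _
    have hk0 : (0 : ℝ) ≤ k := Nat.cast_nonneg _
    have hnx : (n₀ : ℝ) * x = m := by rw [hx]; field_simp
    have e3 : φ = 2 * Real.pi * n₀ * k * (Real.log (1 + x) - x) + l * Real.log (1 + x) := by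
      rw [hφ, ht, ← hnx]; ring
    have h3 : (k : ℝ) * (n₀ * x ^ 2) ≤ 1 / 16 := by
      have : (k : ℝ) * (n₀ * x ^ 2) = k * m ^ 2 / n₀ := by rw [hx]; field_simp
      rw [this, div_le_iff₀ hn0]
      have : (k : ℝ) * m ^ 2 ≤ k * M ^ 2 := by gcongr
      linarith
    have h4 : l * x ≤ 1 / 4 := by
      have : l * x = l * m / n₀ := by rw [hx]; ring
      rw [this, div_le_iff₀ hn0]
      have : l * m ≤ l * M := by gcongr
      linarith
    rw [abs_le]
    have h5 : 0 ≤ Real.log (1 + x) := Real.log_nonneg (by linarith)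
    have h6 : 0 ≤ 2 * Real.pi * n₀ * k := by positivity
    constructor
    · have h7 : 2 * Real.pi * n₀ * k * (-(x ^ 2 / 2)) ≤ 2 * Real.pi * n₀ * k * (Real.log (1 + x) - x) :=
        mul_le_mul_of_nonneg_left (by linarith) h6
      have h8 : 2 * Real.pi * n₀ * k * (-(x ^ 2 / 2)) = -(Real.pi * (k * (n₀ * x ^ 2))) := by ring
      have h9 : 0 ≤ l * Real.log (1 + x) := by positivity
      have h10 : Real.pi * (k * (n₀ * x ^ 2)) ≤ 3.15 * (1 / 16) := by
        have : 0 ≤ (k : ℝ) * (n₀ * x ^ 2) := by positivity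
        nlinarith
      rw [e3]
      linarith
    · have h7 : 2 * Real.pi * n₀ * k * (Real.log (1 + x) - x) ≤ 0 :=
        mul_nonpos_of_nonneg_of_nonpos h6 (by linarith)
      have h8 : l * Real.log (1 + x) ≤ l * x := by gcongr
      rw [e3]
      linarith
  have h1 : ‖∑ n ∈ A, (GW.E t n - GW.E t n₀)‖ ≤ A.card / 2 := by
    refine (norm_sum_le _ _).trans ((sum_le_sum fun n hn => key n (hA hn)).trans ?_)
    simp
    linarith
  have h2 : ∑ n ∈ A, (GW.E t n - GW.E t n₀) = ∑ n ∈ A, GW.E t n - A.card * GW.E t n₀ := by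
    rw [sum_sub_distrib]
    simp
  have h3 : ‖(A.card : ℂ) * GW.E t n₀‖ = A.card := by rw [norm_mul, GW.E_norm]; simp
  have h4 := norm_sub_norm_le ((A.card : ℂ) * GW.E t n₀) (∑ n ∈ A, GW.E t n)
  rw [norm_sub_rev, ← h2, h3] at h4
  linarith

lemma E_eq (t n : ℕ) : E t n = GW.E (t : ℝ) n := by
  unfold E GW.E
  push_cast
  rfl

/-- many integers at which all the sums over subsets of a short interval are large -/
theorem config {N M n₀ T : ℕ} (hN : 1 ≤ N) (hM : 1 ≤ M) (hMT : 4 * M ^ 2 * T ≤ N ^ 2) (hT : 28 * N ≤ T)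
    (hn1 : N ≤ n₀) (hn2 : n₀ + M ≤ 2 * N + 1) :
    ∃ P : Finset ℕ, P ⊆ Icc 1 T ∧ (T : ℝ) ≤ 448 * M * P.card ∧
      ∀ A ⊆ Ico n₀ (n₀ + M), ∀ t ∈ P, (A.card : ℝ) / 2 ≤ ‖∑ n ∈ A, E t n‖ := by
  classical
  have hn0 : 1 ≤ n₀ := by omega
  have hN0' : (0 : ℝ) < N := by exact_mod_cast hN
  have hM0' : (0 : ℝ) < M := by exact_mod_cast hM
  have hT' : 28 * (N : ℝ) ≤ T := by exact_mod_cast hT
  have hn0' : (N : ℝ) ≤ n₀ := by exact_mod_cast hn1
  have hn2N : n₀ ≤ 2 * N := by omega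
  have hn2' : (n₀ : ℝ) ≤ 2 * N := by exact_mod_cast hn2N
  have hMT' : 4 * (M : ℝ) ^ 2 * T ≤ N ^ 2 := by exact_mod_cast hMT
  have hM112 : 112 * (M : ℝ) ^ 2 ≤ N := by
    have h1 : 4 * (M : ℝ) ^ 2 * (28 * N) ≤ N ^ 2 := le_trans (by gcongr) hMT'
    have h2 : N * (112 * (M : ℝ) ^ 2) ≤ N * N := by nlinarith
    exact le_of_mul_le_mul_left h2 hN0'
  have hM1' : (1 : ℝ) ≤ M := by exact_mod_cast hM
  have h4M : 4 * (M : ℝ) ≤ N := by nlinarith
  obtain ⟨K, hK⟩ : ∃ K : ℕ, K = T / (28 * N) := ⟨_, rfl⟩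
  obtain ⟨L, hL⟩ : ∃ L : ℕ, L = n₀ / (4 * M) := ⟨_, rfl⟩
  have hK1 : 28 * N * K ≤ T := by rw [hK]; exact Nat.mul_div_le _ _
  have hL1 : 4 * M * L ≤ n₀ := by rw [hL]; exact Nat.mul_div_le _ _
  have hK0 : 1 ≤ K := by
    rw [hK, Nat.one_le_div_iff (by omega)]
    exact hT
  have hL0 : 1 ≤ L := by
    rw [hL, Nat.one_le_div_iff (by omega)]
    have : 4 * (M : ℝ) ≤ n₀ := by linarith
    exact_mod_cast this
  have hK1' : 28 * (N : ℝ) * K ≤ T := by exact_mod_cast hK1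
  have hL1' : 4 * (M : ℝ) * L ≤ n₀ := by exact_mod_cast hL1
  have hK2 : (T : ℝ) ≤ 56 * N * K := by
    have h1 := Nat.lt_mul_div_succ T (show 0 < 28 * N by omega)
    rw [← hK] at h1
    have h2 : (T : ℝ) ≤ 28 * N * (K + 1) := by exact_mod_cast h1.le
    have h3 : (1 : ℝ) ≤ K := by exact_mod_cast hK0
    nlinarith
  have hL2 : (n₀ : ℝ) ≤ 8 * M * L := by
    have h1 := Nat.lt_mul_div_succ n₀ (show 0 < 4 * M by omega)
    rw [← hL] at h1
    have h2 : (n₀ : ℝ) ≤ 4 * M * (L + 1) := by exact_mod_cast h1.le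
    have h3 : (1 : ℝ) ≤ L := by exact_mod_cast hL0
    nlinarith
  have hLn : (L : ℝ) ≤ n₀ := by
    have : (0 : ℝ) ≤ L := Nat.cast_nonneg _
    nlinarith
  have hpi3 := Real.pi_gt_three
  have hpi4 := Real.pi_lt_d2
  have hn00 : (0 : ℝ) < n₀ := by linarith
  obtain ⟨g, hg⟩ : ∃ g : ℕ × ℕ → ℕ, g = fun u => ⌊2 * Real.pi * n₀ * (u.1 : ℝ)⌋₊ + 1 + u.2 := ⟨_, rfl⟩
  have hglow : ∀ u : ℕ × ℕ, 2 * Real.pi * n₀ * (u.1 : ℝ) ≤ (g u : ℝ) := by
    intro u
    have h1 := Nat.lt_floor_add_one (2 * Real.pi * n₀ * (u.1 : ℝ))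
    have h2 : (0 : ℝ) ≤ u.2 := Nat.cast_nonneg _
    rw [hg]
    push_cast
    linarith
  have hgup : ∀ u : ℕ × ℕ, (g u : ℝ) ≤ 2 * Real.pi * n₀ * (u.1 : ℝ) + (1 + u.2) := by
    intro u
    have h1 := Nat.floor_le (show 0 ≤ 2 * Real.pi * n₀ * (u.1 : ℝ) by positivity)
    rw [hg]
    push_cast
    linarith
  have haux : ∀ u v : ℕ × ℕ, u.2 < L → v.2 < L → u.1 < v.1 → g u ≠ g v := by
    intro u v hu hv huv h
    have h1 := hgup u
    have h2 := hglow v
    rw [h] at h1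
    have h3 : (u.1 : ℝ) + 1 ≤ v.1 := by exact_mod_cast huv
    have h4 : 2 * Real.pi * n₀ * ((u.1 : ℝ) + 1) ≤ 2 * Real.pi * n₀ * v.1 := by gcongr
    have h5 : (1 : ℝ) + u.2 ≤ L := by
      have : 1 + u.2 ≤ L := by omega
      exact_mod_cast this
    nlinarith
  have hinj : Set.InjOn g (range K ×ˢ range L : Finset (ℕ × ℕ)) := by
    intro u hu v hv h
    simp only [coe_product, Set.mem_prod, mem_coe, mem_range] at hu hv
    rcases lt_trichotomy u.1 v.1 with h1 | h1 | h1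
    · exact absurd h (haux u v hu.2 hv.2 h1)
    · have h2 : u.2 = v.2 := by
        rw [hg] at h
        dsimp only at h
        rw [h1] at h
        omega
      exact Prod.ext h1 h2
    · exact absurd h.symm (haux v u hv.2 hu.2 h1)
  refine ⟨(range K ×ˢ range L).image g, ?_, ?_, ?_⟩
  · intro t ht
    rw [mem_image] at ht
    obtain ⟨u, hu, rfl⟩ := ht
    rw [mem_product, mem_range, mem_range] at hu
    rw [mem_Icc]
    constructor
    · rw [hg]
      dsimp only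
      omega
    · have h1 := hgup u
      have h2 : (1 : ℝ) + u.2 ≤ L := by
        have : 1 + u.2 ≤ L := by omega
        exact_mod_cast this
      have h3 : (u.1 : ℝ) + 1 ≤ K := by exact_mod_cast hu.1
      have h4 : 2 * Real.pi * n₀ * (u.1 : ℝ) ≤ 7 * (2 * N) * (u.1 : ℝ) := by
        have : 2 * Real.pi ≤ 7 := by linarith
        gcongr
      have h5 : 14 * (N : ℝ) * ((u.1 : ℝ) + 1) ≤ 14 * (N : ℝ) * K := by gcongr
      have h6 : (g u : ℝ) ≤ T := by nlinarith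
      exact_mod_cast h6
  · rw [card_image_of_injOn hinj, card_product, card_range, card_range]
    push_cast
    have h1 : (T : ℝ) * n₀ ≤ (56 * N * K) * (8 * M * L) := by gcongr
    have h2 : (T : ℝ) * N ≤ T * n₀ := by gcongr
    have h3 : (N : ℝ) * T ≤ N * (448 * M * (K * L)) := by nlinarith
    exact le_of_mul_le_mul_left h3 hN0'
  · intro A hA t ht
    rw [mem_image] at ht
    obtain ⟨u, hu, rfl⟩ := ht
    rw [mem_product, mem_range, mem_range] at hu
    obtain ⟨l, hl⟩ : ∃ l : ℝ, l = (g u : ℝ) - 2 * Real.pi * n₀ * (u.1 : ℝ) := ⟨_, rfl⟩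
    have hl0 : 0 ≤ l := by rw [hl]; linarith [hglow u]
    have hl1 : l ≤ L := by
      have h1 := hgup u
      have h2 : (1 : ℝ) + u.2 ≤ L := by
        have : 1 + u.2 ≤ L := by omega
        exact_mod_cast this
      rw [hl]
      linarith
    have hk : 16 * M ^ 2 * u.1 ≤ n₀ := by
      have h3 : (u.1 : ℝ) ≤ K := by exact_mod_cast hu.1.le
      have h4 : (28 * (N : ℝ)) * (16 * (M : ℝ) ^ 2 * u.1) ≤ (28 * (N : ℝ)) * n₀ := by
        calc (28 * (N : ℝ)) * (16 * (M : ℝ) ^ 2 * u.1) ≤ (28 * (N : ℝ)) * (16 * (M : ℝ) ^ 2 * K) := by gcongr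
          _ = 4 * (4 * (M : ℝ) ^ 2 * (28 * N * K)) := by ring
          _ ≤ 4 * (4 * (M : ℝ) ^ 2 * T) := by gcongr
          _ ≤ 4 * (N : ℝ) ^ 2 := by gcongr
          _ ≤ _ := by nlinarith
      have h5 := le_of_mul_le_mul_left h4 (by positivity)
      exact_mod_cast h5
    have h1 := big (k := u.1) hn0 hk hl0 (le_trans (by gcongr) hL1') hA
    have h2 : 2 * Real.pi * n₀ * (u.1 : ℝ) + l = (g u : ℝ) := by rw [hl]; ring
    rw [h2] at h1
    simp_rw [E_eq]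
    exact h1

end Pool.Agent.TH804.GY
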