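import Pool.Agent.TH804.GY5

/-!
No weights and no exceptional sets are good for `ℓ^r` norms with small `r`
-/

set_option autoImplicit false

open Finset Filter

namespace Pool.Agent.TH804.GY

/-- the sum at an indicator function -/
lemma F_ind {T N : ℕ} {q : ℝ} (hq : 0 ≤ q) {A P : Finset ℕ} (hA : A ⊆ Icc N (2 * N)) (hP : P ⊆ Icc 1 T)
    (h : ∀ t ∈ P, (A.card : ℝ) / 2 ≤ ‖∑ n ∈ A, E t n‖) :
    (P.card : ℝ) * ((A.card : ℝ) / 2) ^ q ≤ F (Icc 1 T) (Icc N (2 * N)) E q (fun n => if n ∈ A then 1 else 0) := by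
  classical
  refine le_trans ?_ (F_mono (Icc N (2 * N)) E hP q _)
  unfold F
  rw [← nsmul_eq_mul]
  refine card_nsmul_le_sum _ _ _ fun t ht => ?_
  have h1 : ∑ n ∈ Icc N (2 * N), (if n ∈ A then (1 : ℂ) else 0) * E t n = ∑ n ∈ A, E t n := by
    simp only [ite_mul, one_mul, zero_mul]
    rw [← sum_filter]
    congr 1
    ext n
    rw [mem_filter]
    exact ⟨fun h => h.2, fun h => ⟨hA h, h⟩⟩
  rw [h1]
  exact Real.rpow_le_rpow (by positivity) (h t ht) hq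

lemma sum_ind {N : ℕ} {r : ℝ} (hr : 0 < r) {A : Finset ℕ} (hA : A ⊆ Icc N (2 * N)) (w : ℕ → ℝ) :
    ∑ n ∈ Icc N (2 * N), w n * ‖(if n ∈ A then (1 : ℂ) else 0)‖ ^ r = ∑ n ∈ A, w n := by
  classical
  have : ∀ n, w n * ‖(if n ∈ A then (1 : ℂ) else 0)‖ ^ r = if n ∈ A then w n else 0 := by
    intro n
    split_ifs
    · simp
    · simp [Real.zero_rpow hr.ne']
  simp_rw [this]
  rw [← sum_filter]
  congr 1
  ext n
  rw [mem_filter]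
  exact ⟨fun h => h.2, fun h => ⟨hA h, h⟩⟩

theorem core {q r : ℝ} (hq2 : 2 < q) (hq4 : q < 4) (hr : 2 ≤ r) : ∃ c : ℝ, 0 < c ∧ ∃ N₀ : ℕ, 1 ≤ N₀ ∧ ∀ N : ℕ, N₀ ≤ N →
    N ≤ ⌊(N : ℝ) ^ (q / 2)⌋₊ ∧ ∀ p : ℕ → ℝ, (∀ n, 0 ≤ p n) → ∑ n ∈ Icc N (2 * N), p n ≤ 1 →
    ∃ M n₀ : ℕ, 1 ≤ M ∧ Ico n₀ (n₀ + M) ⊆ Icc N (2 * N) ∧ ∑ n ∈ Ico n₀ (n₀ + M), p n ≤ 2 * M / N ∧
      ∀ A ⊆ Ico n₀ (n₀ + M), M ≤ 2 * A.card →
        c * (N : ℝ) ^ ((q ^ 2 / r - q ^ 2 + 3 * q - 4) / 4) *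
          ((N : ℝ) ^ q + (N : ℝ) ^ (q / 2) * (⌊(N : ℝ) ^ (q / 2)⌋₊ : ℝ)) * ((M : ℝ) / N) ^ (q / r) ≤
          F (Icc 1 ⌊(N : ℝ) ^ (q / 2)⌋₊) (Icc N (2 * N)) E q (fun n => if n ∈ A then 1 else 0) := by
  classical
  have h1 : ∀ᶠ N : ℕ in atTop, (29 : ℝ) ≤ (N : ℝ) ^ (q / 2 - 1) :=
    ((tendsto_rpow_atTop (show 0 < q / 2 - 1 by linarith)).comp tendsto_natCast_atTop_atTop).eventually_ge_atTop 29
  have h2 : ∀ᶠ N : ℕ in atTop, (4 : ℝ) ≤ (N : ℝ) ^ (1 - q / 4) :=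
    ((tendsto_rpow_atTop (show 0 < 1 - q / 4 by linarith)).comp tendsto_natCast_atTop_atTop).eventually_ge_atTop 4
  obtain ⟨N₀, hN₀⟩ := eventually_atTop.1 (h1.and h2)
  refine ⟨1 / (1792 * 16 ^ q), by positivity, max N₀ 1, le_max_right _ _, fun N hN => ?_⟩
  obtain ⟨h3, h4⟩ := hN₀ N ((le_max_left _ _).trans hN)
  have hN1 : 1 ≤ N := (le_max_right _ _).trans hN
  have hN0 : (0 : ℝ) < N := by exact_mod_cast hN1
  have hN1' : (1 : ℝ) ≤ N := by exact_mod_cast hN1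
  obtain ⟨T, hT⟩ : ∃ T : ℕ, T = ⌊(N : ℝ) ^ (q / 2)⌋₊ := ⟨_, rfl⟩
  have hT1 : (T : ℝ) ≤ (N : ℝ) ^ (q / 2) := by rw [hT]; exact Nat.floor_le (by positivity)
  have hT2 : (N : ℝ) ^ (q / 2) < T + 1 := by rw [hT]; exact Nat.lt_floor_add_one _
  have h5 : 29 * (N : ℝ) ≤ (N : ℝ) ^ (q / 2) := by
    have : (N : ℝ) ^ (q / 2) = (N : ℝ) ^ (q / 2 - 1) * N := by
      rw [← Real.rpow_add_one hN0.ne']
      congr 1
      ring
    rw [this]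
    gcongr
  have hT3 : 28 * (N : ℝ) ≤ T := by linarith
  have hT3' : 28 * N ≤ T := by exact_mod_cast hT3
  have hT0 : (0 : ℝ) < T := by linarith
  have hT4 : (N : ℝ) ^ (q / 2) ≤ 2 * T := by linarith
  rw [← hT]
  refine ⟨by omega, fun p hp hp1 => ?_⟩
  -- `M`
  obtain ⟨y, hy⟩ : ∃ y : ℝ, y = (N : ℝ) / (2 * Real.sqrt T) := ⟨_, rfl⟩
  have hsT : 0 < Real.sqrt T := Real.sqrt_pos.2 hT0
  have hsq : Real.sqrt T ^ 2 = T := Real.sq_sqrt hT0.le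
  have hy0 : 0 ≤ y := by rw [hy]; positivity
  have hsT1 : Real.sqrt T ≤ (N : ℝ) ^ (q / 4) := by
    rw [Real.sqrt_le_left (by positivity)]
    refine hT1.trans (le_of_eq ?_)
    rw [← Real.rpow_natCast, ← Real.rpow_mul hN0.le]
    congr 1
    push_cast
    ring
  have hy1 : (N : ℝ) ^ (1 - q / 4) / 2 ≤ y := by
    rw [hy, Real.rpow_sub hN0, Real.rpow_one, div_div, mul_comm ((N : ℝ) ^ (q / 4)) 2]
    gcongr
  obtain ⟨M, hM⟩ : ∃ M : ℕ, M = ⌊y⌋₊ := ⟨_, rfl⟩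
  have hMy : (M : ℝ) ≤ y := by rw [hM]; exact Nat.floor_le hy0
  have hMy2 : y < M + 1 := by rw [hM]; exact Nat.lt_floor_add_one y
  have hM1 : (N : ℝ) ^ (1 - q / 4) / 4 ≤ M := by linarith
  have hM1' : (1 : ℝ) ≤ M := by linarith
  have hMn : 1 ≤ M := by exact_mod_cast hM1'
  have hM0 : (0 : ℝ) < M := by linarith
  have hMT : 4 * M ^ 2 * T ≤ N ^ 2 := by
    have h6 : (M : ℝ) * (2 * Real.sqrt T) ≤ N := by
      rw [hy, le_div_iff₀ (by positivity)] at hMy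
      exact hMy
    have h7 : ((M : ℝ) * (2 * Real.sqrt T)) ^ 2 ≤ (N : ℝ) ^ 2 := pow_le_pow_left₀ (by positivity) h6 2
    have h8 : ((M : ℝ) * (2 * Real.sqrt T)) ^ 2 = 4 * M ^ 2 * T := by rw [mul_pow, mul_pow, hsq]; ring
    rw [h8] at h7
    exact_mod_cast h7
  have hMN : M ≤ N := by
    have h6 : M ^ 2 ≤ N ^ 2 := by
      refine le_trans ?_ hMT
      have : 1 ≤ T := by omega
      nlinarith [Nat.zero_le (M ^ 2)]
    exact (Nat.pow_le_pow_iff_left (by norm_num)).1 h6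
  obtain ⟨n₀, hn1, hn2, hn3⟩ := light hMn hMN hp hp1
  have hsub : Ico n₀ (n₀ + M) ⊆ Icc N (2 * N) := by
    intro n hn
    rw [mem_Ico] at hn
    rw [mem_Icc]
    omega
  refine ⟨M, n₀, hMn, hsub, hn3, fun A hA hAM => ?_⟩
  obtain ⟨P, hP1, hP2, hP3⟩ := config hN1 hMn hMT hT3' hn1 hn2
  refine le_trans ?_ (F_ind (by linarith) (hA.trans hsub) hP1 (hP3 A hA))
  have hA' : (M : ℝ) / 4 ≤ (A.card : ℝ) / 2 := by
    have : (M : ℝ) ≤ 2 * A.card := by exact_mod_cast hAM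
    linarith
  have hPT : (T : ℝ) / (448 * M) ≤ P.card := by
    rw [div_le_iff₀ (by positivity)]
    linarith
  have hR : (T : ℝ) / (448 * M) * ((M : ℝ) / 4) ^ q ≤ (P.card : ℝ) * ((A.card : ℝ) / 2) ^ q := by
    gcongr
  refine le_trans ?_ hR
  obtain ⟨s, hs⟩ : ∃ s : ℝ, s = q / r := ⟨_, rfl⟩
  have hr0 : 0 < r := by linarith
  have hs1 : s ≤ q / 2 := by rw [hs]; exact div_le_div_of_nonneg_left (by linarith) (by norm_num) hr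
  have hs0 : 0 < s := by rw [hs]; positivity
  have hu : 0 ≤ q - 1 - s := by linarith
  have e1 : (q ^ 2 / r - q ^ 2 + 3 * q - 4) / 4 = q / 2 + (1 - q / 4) * (q - 1 - s) - q + s := by
    rw [hs]
    field_simp
    ring
  rw [e1, ← hs]
  have e2 : (N : ℝ) ^ (q / 2 + (1 - q / 4) * (q - 1 - s) - q + s) =
      (N : ℝ) ^ (q / 2) * ((N : ℝ) ^ (1 - q / 4)) ^ (q - 1 - s) / (N : ℝ) ^ q * (N : ℝ) ^ s := by
    rw [Real.rpow_add hN0, Real.rpow_sub hN0, Real.rpow_add hN0, Real.rpow_mul hN0.le (1 - q / 4)]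
  have e3 : ((M : ℝ) / N) ^ s = (M : ℝ) ^ s / (N : ℝ) ^ s := Real.div_rpow hM0.le hN0.le _
  have e4 : (M : ℝ) ^ q = (M : ℝ) ^ (q - 1 - s) * (M : ℝ) ^ s * M := by
    rw [← Real.rpow_add hM0, ← Real.rpow_add_one hM0.ne']
    congr 1
    ring
  have h6 : (N : ℝ) ^ q + (N : ℝ) ^ (q / 2) * T ≤ 2 * (N : ℝ) ^ q := by
    have : (N : ℝ) ^ q = (N : ℝ) ^ (q / 2) * (N : ℝ) ^ (q / 2) := by rw [← Real.rpow_add hN0, add_halves]
    rw [this]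
    have : (N : ℝ) ^ (q / 2) * T ≤ (N : ℝ) ^ (q / 2) * (N : ℝ) ^ (q / 2) := by gcongr
    linarith
  have h7 : ((N : ℝ) ^ (1 - q / 4)) ^ (q - 1 - s) ≤ 4 ^ q * (M : ℝ) ^ (q - 1 - s) := by
    calc ((N : ℝ) ^ (1 - q / 4)) ^ (q - 1 - s) ≤ (4 * (M : ℝ)) ^ (q - 1 - s) :=
          Real.rpow_le_rpow (by positivity) (by linarith) hu
      _ = 4 ^ (q - 1 - s) * (M : ℝ) ^ (q - 1 - s) := Real.mul_rpow (by norm_num) hM0.le
      _ ≤ _ := by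
          have : (4 : ℝ) ^ (q - 1 - s) ≤ 4 ^ q := Real.rpow_le_rpow_of_exponent_le (by norm_num) (by linarith)
          gcongr
  have e5 : ((M : ℝ) / 4) ^ q = (M : ℝ) ^ q / 4 ^ q := Real.div_rpow hM0.le (by norm_num) _
  have e6 : (16 : ℝ) ^ q = 4 ^ q * 4 ^ q := by
    rw [← Real.mul_rpow (by norm_num) (by norm_num)]
    norm_num
  have hNq : (0 : ℝ) < (N : ℝ) ^ q := by positivity
  have hNs : (0 : ℝ) < (N : ℝ) ^ s := by positivity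
  have h4q : (0 : ℝ) < (4 : ℝ) ^ q := by positivity
  rw [e2, e3, e5, e4, e6]
  calc 1 / (1792 * ((4 : ℝ) ^ q * 4 ^ q)) *
        ((N : ℝ) ^ (q / 2) * ((N : ℝ) ^ (1 - q / 4)) ^ (q - 1 - s) / (N : ℝ) ^ q * (N : ℝ) ^ s) *
        ((N : ℝ) ^ q + (N : ℝ) ^ (q / 2) * T) * ((M : ℝ) ^ s / (N : ℝ) ^ s)
      ≤ 1 / (1792 * ((4 : ℝ) ^ q * 4 ^ q)) *
        ((2 * T) * (4 ^ q * (M : ℝ) ^ (q - 1 - s)) / (N : ℝ) ^ q * (N : ℝ) ^ s) *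
        (2 * (N : ℝ) ^ q) * ((M : ℝ) ^ s / (N : ℝ) ^ s) := by gcongr
    _ = (T : ℝ) / (448 * M) * ((M : ℝ) ^ (q - 1 - s) * (M : ℝ) ^ s * M / 4 ^ q) := by
        field_simp
        norm_num

theorem no_weights {q r : ℝ} (hq2 : 2 < q) (hq4 : q < 4) (hr : 2 ≤ r) : ∃ c : ℝ, 0 < c ∧ ∃ N₀ : ℕ, 1 ≤ N₀ ∧
    ∀ N : ℕ, N₀ ≤ N → N ≤ ⌊(N : ℝ) ^ (q / 2)⌋₊ ∧
    (∀ p : ℕ → ℝ, (∀ n, 0 ≤ p n) → ∑ n ∈ Icc N (2 * N), p n ≤ 1 →
      ∃ b : ℕ → ℂ, (∀ n, ‖b n‖ ≤ 1) ∧ 0 < F (Icc 1 ⌊(N : ℝ) ^ (q / 2)⌋₊) (Icc N (2 * N)) E q b ∧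
        c * (N : ℝ) ^ ((q ^ 2 / r - q ^ 2 + 3 * q - 4) / 4) *
          ((N : ℝ) ^ q + (N : ℝ) ^ (q / 2) * (⌊(N : ℝ) ^ (q / 2)⌋₊ : ℝ)) *
          (∑ n ∈ Icc N (2 * N), p n * ‖b n‖ ^ r) ^ (q / r) ≤
          F (Icc 1 ⌊(N : ℝ) ^ (q / 2)⌋₊) (Icc N (2 * N)) E q b) ∧
    (∀ B : Finset ℕ, 4 * B.card ≤ N →
      ∃ b : ℕ → ℂ, (∀ n, ‖b n‖ ≤ 1) ∧ (∀ n ∈ B, b n = 0) ∧
        0 < F (Icc 1 ⌊(N : ℝ) ^ (q / 2)⌋₊) (Icc N (2 * N)) E q b ∧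
        c * (N : ℝ) ^ ((q ^ 2 / r - q ^ 2 + 3 * q - 4) / 4) *
          ((N : ℝ) ^ q + (N : ℝ) ^ (q / 2) * (⌊(N : ℝ) ^ (q / 2)⌋₊ : ℝ)) *
          (1 / (N : ℝ) * ∑ n ∈ Icc N (2 * N), ‖b n‖ ^ r) ^ (q / r) ≤
          F (Icc 1 ⌊(N : ℝ) ^ (q / 2)⌋₊) (Icc N (2 * N)) E q b) := by
  classical
  obtain ⟨c, hc, N₀, hN₀, h⟩ := core hq2 hq4 hr
  have hr0 : 0 < r := by linarith
  have hs0 : 0 < q / r := by positivity
  refine ⟨c / 2 ^ (q / r), by positivity, N₀, hN₀, fun N hN => ?_⟩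
  obtain ⟨hNT, h1⟩ := h N hN
  have hN1 : 1 ≤ N := hN₀.trans hN
  have hN0 : (0 : ℝ) < N := by exact_mod_cast hN1
  have h21 : (1 : ℝ) ≤ 2 ^ (q / r) := Real.one_le_rpow (by norm_num) hs0.le
  refine ⟨hNT, fun p hp hp1 => ?_, fun B hB => ?_⟩
  · obtain ⟨M, n₀, hM, hsub, hpM, hA⟩ := h1 p hp hp1
    have hM0 : (0 : ℝ) < M := by exact_mod_cast hM
    have h2 := hA (Ico n₀ (n₀ + M)) (Subset.refl _) (by simp; omega)
    refine ⟨_, fun n => ?_, lt_of_lt_of_le (by positivity) h2, le_trans ?_ h2⟩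
    · split_ifs <;> simp
    · rw [sum_ind hr0 hsub]
      have h3 : (∑ n ∈ Ico n₀ (n₀ + M), p n) ^ (q / r) ≤ 2 ^ (q / r) * ((M : ℝ) / N) ^ (q / r) := by
        rw [← Real.mul_rpow (by norm_num) (by positivity)]
        refine Real.rpow_le_rpow (sum_nonneg fun n _ => hp n) (hpM.trans (le_of_eq (by ring))) hs0.le
      calc c / 2 ^ (q / r) * (N : ℝ) ^ ((q ^ 2 / r - q ^ 2 + 3 * q - 4) / 4) *
            ((N : ℝ) ^ q + (N : ℝ) ^ (q / 2) * (⌊(N : ℝ) ^ (q / 2)⌋₊ : ℝ)) *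
            (∑ n ∈ Ico n₀ (n₀ + M), p n) ^ (q / r)
          ≤ c / 2 ^ (q / r) * (N : ℝ) ^ ((q ^ 2 / r - q ^ 2 + 3 * q - 4) / 4) *
            ((N : ℝ) ^ q + (N : ℝ) ^ (q / 2) * (⌊(N : ℝ) ^ (q / 2)⌋₊ : ℝ)) *
            (2 ^ (q / r) * ((M : ℝ) / N) ^ (q / r)) := by gcongr
        _ = _ := by field_simp
  · obtain ⟨p, hpdef⟩ : ∃ p : ℕ → ℝ, p = fun n => if n ∈ B then 4 / (N : ℝ) else 0 := ⟨_, rfl⟩
    have hp0 : ∀ n, 0 ≤ p n := by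
      intro n
      rw [hpdef]
      dsimp only
      split_ifs <;> positivity
    have hpsum : ∀ C : Finset ℕ, ∑ n ∈ C, p n = 4 / N * ((C ∩ B).card : ℝ) := by
      intro C
      rw [hpdef]
      dsimp only
      rw [← sum_filter, sum_const, nsmul_eq_mul, filter_mem_eq_inter]
      ring
    have hp1 : ∑ n ∈ Icc N (2 * N), p n ≤ 1 := by
      rw [hpsum]
      have h2 : (((Icc N (2 * N) ∩ B).card : ℕ) : ℝ) ≤ B.card := by exact_mod_cast card_le_card inter_subset_right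
      have h3 : (4 : ℝ) * B.card ≤ N := by exact_mod_cast hB
      rw [div_mul_eq_mul_div, div_le_one hN0]
      linarith
    obtain ⟨M, n₀, hM, hsub, hpM, hA⟩ := h1 p hp0 hp1
    have hM0 : (0 : ℝ) < M := by exact_mod_cast hM
    rw [hpsum] at hpM
    obtain ⟨A, hAdef⟩ : ∃ A : Finset ℕ, A = Ico n₀ (n₀ + M) \ B := ⟨_, rfl⟩
    have hAI : A ⊆ Ico n₀ (n₀ + M) := by rw [hAdef]; exact sdiff_subset
    have hc1 : M ≤ 2 * A.card := by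
      have h2 : A.card + (Ico n₀ (n₀ + M) ∩ B).card = M := by
        rw [hAdef, card_sdiff_add_card_inter]
        simp
      have h3 : 2 * (Ico n₀ (n₀ + M) ∩ B).card ≤ M := by
        rw [div_mul_eq_mul_div, div_le_div_iff_of_pos_right hN0] at hpM
        have : 2 * ((Ico n₀ (n₀ + M) ∩ B).card : ℝ) ≤ M := by linarith
        exact_mod_cast this
      omega
    have hc2 : (A.card : ℝ) ≤ M := by
      have h2 : A.card ≤ M := by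
        have := card_le_card hAI
        simpa using this
      exact_mod_cast h2
    have h2 := hA A hAI hc1
    refine ⟨_, fun n => ?_, fun n hn => ?_, lt_of_lt_of_le (by positivity) h2, le_trans ?_ h2⟩
    · split_ifs <;> simp
    · rw [if_neg]
      rw [hAdef, Finset.mem_sdiff]
      exact fun h => h.2 hn
    · have h3 := sum_ind hr0 (hAI.trans hsub) (fun _ => 1)
      simp only [one_mul, sum_const, nsmul_eq_mul, mul_one] at h3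
      rw [h3]
      have h4 : (1 / (N : ℝ) * A.card) ^ (q / r) ≤ ((M : ℝ) / N) ^ (q / r) := by
        refine Real.rpow_le_rpow (by positivity) ?_ hs0.le
        rw [one_div_mul_eq_div]
        gcongr
      have h5 : c / 2 ^ (q / r) ≤ c := div_le_self hc.le h21
      gcongr

end Pool.Agent.TH804.GY
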