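import Pool.Agent.TH804.GY5

/-!
Large values: no weights and no exceptional sets are good for `ℓ^r` norms with `r < 4`
-/

set_option autoImplicit false

open Finset Filter

namespace Pool.Agent.TH804.GZ

open Pool.Agent.TH804.GY

theorem core {σ r δ : ℝ} (hr : 2 ≤ r) (hσ : 1 / 2 < σ) (hσr : (r + 2) * σ < 3)
    (hδ : δ < (3 - (r + 2) * σ) / (r - 1)) :
    ∃ N₀ : ℕ, 1 ≤ N₀ ∧ ∀ N : ℕ, N₀ ≤ N → ∃ T : ℕ, N ≤ T ∧ T ≤ N ^ 2 ∧
      ∀ p : ℕ → ℝ, (∀ n, 0 ≤ p n) → ∑ n ∈ Icc N (2 * N), p n ≤ 1 →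
      ∃ M n₀ : ℕ, 1 ≤ M ∧ Ico n₀ (n₀ + M) ⊆ Icc N (2 * N) ∧ ∑ n ∈ Ico n₀ (n₀ + M), p n ≤ 2 * M / N ∧
        4 * (N : ℝ) ^ σ < ((N : ℝ) / (2 * M)) ^ (1 / r) * M ∧
        ∃ P : Finset ℕ, P ⊆ Icc 1 T ∧ (N : ℝ) ^ (2 - 2 * σ + δ) ≤ P.card ∧
          ∀ A ⊆ Ico n₀ (n₀ + M), ∀ t ∈ P, (A.card : ℝ) / 2 ≤ ‖∑ n ∈ A, E t n‖ := by
  classical
  have hr1 : 0 < r - 1 := by linarith
  have hr0 : 0 < r := by linarith
  obtain ⟨μ, hμ⟩ : ∃ μ : ℝ, μ = (r * σ - 1) / (r - 1) := ⟨_, rfl⟩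
  have hμ0 : 0 ≤ μ := by
    rw [hμ]
    apply div_nonneg _ hr1.le
    nlinarith
  have hμ1 : 0 < 1 - 2 * μ := by
    have h1 : 2 * μ < 1 := by
      rw [hμ, mul_div_assoc', div_lt_one hr1]
      have h2 : (r + 2) * (2 * (r * σ)) < (r + 2) * (r + 1) := by nlinarith
      have h3 : 2 * (r * σ) < r + 1 := lt_of_mul_lt_mul_left h2 (by linarith)
      linarith
    linarith
  have hμσ : 1 / r + μ * (1 - 1 / r) = σ := by
    rw [hμ]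
    field_simp
    ring
  obtain ⟨d, hd⟩ : ∃ d : ℝ, d = 2 * σ - 3 * μ - δ := ⟨_, rfl⟩
  have hd0 : 0 < d := by
    have : (3 - (r + 2) * σ) / (r - 1) = 2 * σ - 3 * μ := by
      rw [hμ]
      field_simp
      ring
    linarith
  have h1 : ∀ᶠ N : ℕ in atTop, (4640000 : ℝ) ≤ (N : ℝ) ^ (1 - 2 * μ) :=
    ((tendsto_rpow_atTop hμ1).comp tendsto_natCast_atTop_atTop).eventually_ge_atTop _
  have h2 : ∀ᶠ N : ℕ in atTop, (28672000000 : ℝ) ≤ (N : ℝ) ^ d :=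
    ((tendsto_rpow_atTop hd0).comp tendsto_natCast_atTop_atTop).eventually_ge_atTop _
  obtain ⟨N₀, hN₀⟩ := eventually_atTop.1 (h1.and h2)
  refine ⟨max N₀ 1, le_max_right _ _, fun N hN => ?_⟩
  obtain ⟨h3, h4⟩ := hN₀ N ((le_max_left _ _).trans hN)
  have hN1 : 1 ≤ N := (le_max_right _ _).trans hN
  have hN0 : (0 : ℝ) < N := by exact_mod_cast hN1
  have hN1' : (1 : ℝ) ≤ N := by exact_mod_cast hN1
  -- `M`
  obtain ⟨x, hx⟩ : ∃ x : ℝ, x = (N : ℝ) ^ μ := ⟨_, rfl⟩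
  have hx1 : 1 ≤ x := by rw [hx]; exact Real.one_le_rpow hN1' hμ0
  obtain ⟨M, hM⟩ : ∃ M : ℕ, M = ⌈100 * x⌉₊ := ⟨_, rfl⟩
  have hM1 : 100 * x ≤ M := by rw [hM]; exact Nat.le_ceil _
  have hM2 : (M : ℝ) ≤ 200 * x := by
    have : (M : ℝ) < 100 * x + 1 := by rw [hM]; exact Nat.ceil_lt_add_one (by positivity)
    linarith
  have hM0 : (0 : ℝ) < M := by linarith
  have hMn : 1 ≤ M := by
    have : (1 : ℝ) ≤ M := by linarith
    exact_mod_cast this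
  have hNx : 4640000 * x ^ 2 ≤ N := by
    have e : (N : ℝ) = (N : ℝ) ^ (1 - 2 * μ) * x ^ 2 := by
      rw [hx, ← Real.rpow_natCast, ← Real.rpow_mul hN0.le, ← Real.rpow_add hN0]
      nth_rewrite 1 [← Real.rpow_one (N : ℝ)]
      congr 1
      push_cast
      ring
    rw [e]
    gcongr
  have hM2' : (M : ℝ) ^ 2 ≤ 40000 * x ^ 2 := by nlinarith
  have hMM : 116 * (M : ℝ) ^ 2 ≤ N := by linarith
  obtain ⟨T, hT⟩ : ∃ T : ℕ, T = N ^ 2 / (4 * M ^ 2) := ⟨_, rfl⟩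
  have hMT : 4 * M ^ 2 * T ≤ N ^ 2 := by rw [hT]; exact Nat.mul_div_le _ _
  have hMT2 : N ^ 2 < 4 * M ^ 2 * (T + 1) := by
    rw [hT]
    exact Nat.lt_mul_div_succ _ (by positivity)
  have hMT2' : (N : ℝ) ^ 2 < 4 * (M : ℝ) ^ 2 * (T + 1) := by exact_mod_cast hMT2
  have hT3 : 28 * (N : ℝ) ≤ T := by
    have h5 : (116 * (M : ℝ) ^ 2) * N ≤ N * N := by gcongr
    have h6 : (M : ℝ) ^ 2 * (29 * N) < (M : ℝ) ^ 2 * (T + 1) := by nlinarith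
    have h7 := lt_of_mul_lt_mul_left h6 (by positivity)
    linarith
  have hT3' : 28 * N ≤ T := by exact_mod_cast hT3
  have hT0 : (0 : ℝ) < T := by linarith
  have hT4 : (N : ℝ) ^ 2 ≤ 8 * (M : ℝ) ^ 2 * T := by
    have : (4 : ℝ) * (M : ℝ) ^ 2 * (T + 1) ≤ 4 * (M : ℝ) ^ 2 * (T + T) := by
      have : (1 : ℝ) ≤ T := by linarith
      gcongr
    linarith
  have hMN : M ≤ N := by
    have h6 : (M : ℝ) ≤ N := by nlinarith
    exact_mod_cast h6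
  refine ⟨T, by omega, by rw [hT]; exact Nat.div_le_self _ _, fun p hp hp1 => ?_⟩
  obtain ⟨n₀, hn1, hn2, hn3⟩ := light hMn hMN hp hp1
  have hsub : Ico n₀ (n₀ + M) ⊆ Icc N (2 * N) := by
    intro n hn
    rw [mem_Ico] at hn
    rw [mem_Icc]
    omega
  obtain ⟨P, hP1, hP2, hP3⟩ := config hN1 hMn hMT hT3' hn1 hn2
  refine ⟨M, n₀, hMn, hsub, hn3, ?_, P, hP1, ?_, hP3⟩
  · -- height
    have hri : 0 < 1 / r := by positivity
    have hri2 : 1 / r ≤ 1 / 2 := one_div_le_one_div_of_le (by norm_num) hr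
    have e1 : ((N : ℝ) / (2 * M)) ^ (1 / r) * M = (1 / 2) ^ (1 / r) * ((N : ℝ) ^ (1 / r) * (M : ℝ) ^ (1 - 1 / r)) := by
      have : (N : ℝ) / (2 * M) = (1 / 2) * (N / M) := by field_simp
      rw [this, Real.mul_rpow (by norm_num) (by positivity), Real.div_rpow hN0.le hM0.le,
        Real.rpow_sub hM0, Real.rpow_one]
      field_simp
    have e2 : (1 / 2 : ℝ) ≤ (1 / 2) ^ (1 / r) := by
      calc (1 / 2 : ℝ) = (1 / 2) ^ (1 : ℝ) := (Real.rpow_one _).symm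
        _ ≤ _ := Real.rpow_le_rpow_of_exponent_ge (by norm_num) (by norm_num) (by linarith)
    have e3 : (10 : ℝ) ≤ 100 ^ (1 - 1 / r) := by
      calc (10 : ℝ) = 100 ^ ((1 : ℝ) / 2) := by
            rw [← Real.sqrt_eq_rpow, show (100 : ℝ) = 10 ^ 2 by norm_num, Real.sqrt_sq (by norm_num)]
        _ ≤ _ := Real.rpow_le_rpow_of_exponent_le (by norm_num) (by linarith)
    have e4 : 100 ^ (1 - 1 / r) * x ^ (1 - 1 / r) ≤ (M : ℝ) ^ (1 - 1 / r) := by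
      rw [← Real.mul_rpow (by norm_num) (by positivity)]
      exact Real.rpow_le_rpow (by positivity) hM1 (by linarith)
    have e5 : (N : ℝ) ^ σ = (N : ℝ) ^ (1 / r) * x ^ (1 - 1 / r) := by
      rw [hx, ← Real.rpow_mul hN0.le, ← Real.rpow_add hN0, hμσ]
    have hNr : 0 < (N : ℝ) ^ (1 / r) := by positivity
    have hxr : 0 < x ^ (1 - 1 / r) := by positivity
    have hMr : 0 < (M : ℝ) ^ (1 - 1 / r) := by positivity
    rw [e1, e5]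
    have e6 : 10 * x ^ (1 - 1 / r) ≤ (M : ℝ) ^ (1 - 1 / r) := le_trans (by gcongr) e4
    calc 4 * ((N : ℝ) ^ (1 / r) * x ^ (1 - 1 / r)) < 1 / 2 * ((N : ℝ) ^ (1 / r) * (10 * x ^ (1 - 1 / r))) := by
          have : 0 < (N : ℝ) ^ (1 / r) * x ^ (1 - 1 / r) := by positivity
          linarith
      _ ≤ (1 / 2) ^ (1 / r) * ((N : ℝ) ^ (1 / r) * (M : ℝ) ^ (1 - 1 / r)) := by gcongr
  · -- count
    have h5 : (N : ℝ) ^ 2 ≤ 3584 * (M : ℝ) ^ 3 * P.card := by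
      calc (N : ℝ) ^ 2 ≤ 8 * (M : ℝ) ^ 2 * T := hT4
        _ ≤ 8 * (M : ℝ) ^ 2 * (448 * M * P.card) := by gcongr
        _ = _ := by ring
    have h6 : (M : ℝ) ^ 3 ≤ 8000000 * x ^ 3 := by
      calc (M : ℝ) ^ 3 ≤ (200 * x) ^ 3 := by gcongr
        _ = _ := by ring
    have h7 : (N : ℝ) ^ 2 ≤ 28672000000 * x ^ 3 * P.card := by
      calc (N : ℝ) ^ 2 ≤ 3584 * (M : ℝ) ^ 3 * P.card := h5
        _ ≤ 3584 * (8000000 * x ^ 3) * P.card := by gcongr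
        _ = _ := by ring
    have h8 : (N : ℝ) ^ 2 = (N : ℝ) ^ (2 - 2 * σ + δ) * (N : ℝ) ^ d * x ^ 3 := by
      rw [hx, ← Real.rpow_natCast ((N : ℝ) ^ μ), ← Real.rpow_mul hN0.le, ← Real.rpow_add hN0,
        ← Real.rpow_add hN0, ← Real.rpow_natCast]
      congr 1
      rw [hd]
      push_cast
      ring
    have hx3 : 0 < 28672000000 * x ^ 3 := by positivity
    refine le_of_mul_le_mul_left ?_ hx3
    calc 28672000000 * x ^ 3 * (N : ℝ) ^ (2 - 2 * σ + δ) ≤ (N : ℝ) ^ d * x ^ 3 * (N : ℝ) ^ (2 - 2 * σ + δ) := by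
          gcongr
      _ = (N : ℝ) ^ 2 := by rw [h8]; ring
      _ ≤ _ := h7

end Pool.Agent.TH804.GZ
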