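import Pool.Agent.TH804.GZ1

/-!
Large values: no weights and no exceptional sets are good for `ℓ^r` norms with `r < 4`
-/

set_option autoImplicit false

open Finset Filter

namespace Pool.Agent.TH804.GZ

open Pool.Agent.TH804.GY

/-- the values at `W ⊆ [1, T]` are larger than `N^σ` and `W` has at least `X` elements -/
def Many (N : ℕ) (T σ X : ℝ) (b : ℕ → ℂ) : Prop := ∃ W : Finset ℤ,
  (∀ t ∈ W, 0 ≤ (t : ℝ) ∧ (t : ℝ) ≤ T ∧
    (N : ℝ) ^ σ < ‖∑ n ∈ Finset.Icc N (2 * N),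
      b n * Complex.exp ((((t : ℝ) * Real.log (n : ℝ) : ℝ) : ℂ) * Complex.I)‖) ∧
  X ≤ W.card

lemma many_ind {N T M : ℕ} {σ X h : ℝ} (hh : 0 ≤ h) {A P : Finset ℕ} (hA : A ⊆ Icc N (2 * N))
    (hP : P ⊆ Icc 1 T) (hX : X ≤ P.card) (hAM : M ≤ 2 * A.card) (hM : 4 * (N : ℝ) ^ σ < h * M)
    (hE : ∀ t ∈ P, (A.card : ℝ) / 2 ≤ ‖∑ n ∈ A, E t n‖) :
    Many N T σ X (fun n => if n ∈ A then (h : ℂ) else 0) := by
  classical
  refine ⟨P.image (fun n : ℕ => (n : ℤ)), fun t ht => ?_, ?_⟩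
  · rw [mem_image] at ht
    obtain ⟨m, hm, rfl⟩ := ht
    have h1 := mem_Icc.1 (hP hm)
    refine ⟨by positivity, by exact_mod_cast h1.2, ?_⟩
    have h2 : ∑ n ∈ Finset.Icc N (2 * N), (if n ∈ A then (h : ℂ) else 0) *
        Complex.exp (((((m : ℤ) : ℝ) * Real.log (n : ℝ) : ℝ) : ℂ) * Complex.I) = h * ∑ n ∈ A, E m n := by
      rw [mul_sum]
      simp only [ite_mul, zero_mul]
      rw [← sum_filter]
      have : (Icc N (2 * N)).filter (fun n => n ∈ A) = A := by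
        ext n
        rw [mem_filter]
        exact ⟨fun h => h.2, fun h => ⟨hA h, h⟩⟩
      rw [this]
      refine sum_congr rfl fun n _ => ?_
      unfold E
      congr 2
      push_cast
      ring
    rw [h2, norm_mul, Complex.norm_real, Real.norm_of_nonneg hh]
    have h3 := hE m hm
    have h4 : (M : ℝ) / 4 ≤ (A.card : ℝ) / 2 := by
      have : (M : ℝ) ≤ 2 * A.card := by exact_mod_cast hAM
      linarith
    have h5 : h * ((M : ℝ) / 4) ≤ h * ‖∑ n ∈ A, E m n‖ := mul_le_mul_of_nonneg_left (h4.trans h3) hh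
    linarith
  · rw [card_image_of_injective _ (fun a b h => by exact_mod_cast h)]
    exact hX

lemma sum_ind' {N : ℕ} {r h : ℝ} (hr : 0 < r) (hh : 0 ≤ h) {A : Finset ℕ} (hA : A ⊆ Icc N (2 * N)) (w : ℕ → ℝ) :
    ∑ n ∈ Icc N (2 * N), w n * ‖(if n ∈ A then (h : ℂ) else 0)‖ ^ r = (∑ n ∈ A, w n) * h ^ r := by
  classical
  have : ∀ n, w n * ‖(if n ∈ A then (h : ℂ) else 0)‖ ^ r = if n ∈ A then w n * h ^ r else 0 := by
    intro n
    split_ifs
    · rw [Complex.norm_real, Real.norm_of_nonneg hh]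
    · simp [Real.zero_rpow hr.ne']
  simp_rw [this]
  rw [← sum_filter, sum_mul]
  congr 1
  ext n
  rw [mem_filter]
  exact ⟨fun h => h.2, fun h => ⟨hA h, h⟩⟩

theorem no_weights {σ r δ : ℝ} (hr : 2 ≤ r) (hσ : 1 / 2 < σ) (hσr : (r + 2) * σ < 3)
    (hδ : δ < (3 - (r + 2) * σ) / (r - 1)) :
    ∃ N₀ : ℕ, 1 ≤ N₀ ∧ ∀ N : ℕ, N₀ ≤ N → ∃ T : ℕ, N ≤ T ∧ T ≤ N ^ 2 ∧
      (∀ p : ℕ → ℝ, (∀ n, 0 ≤ p n) → ∑ n ∈ Icc N (2 * N), p n ≤ 1 →
        ∃ b : ℕ → ℂ, ∑ n ∈ Icc N (2 * N), p n * ‖b n‖ ^ r ≤ 1 ∧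
          Many N T σ ((N : ℝ) ^ (2 - 2 * σ + δ)) b) ∧
      (∀ B : Finset ℕ, 4 * B.card ≤ N →
        ∃ b : ℕ → ℂ, (∀ n ∈ B, b n = 0) ∧ ∑ n ∈ Icc N (2 * N), ‖b n‖ ^ r ≤ N ∧
          Many N T σ ((N : ℝ) ^ (2 - 2 * σ + δ)) b) := by
  classical
  obtain ⟨N₀, hN₀, H⟩ := core hr hσ hσr hδ
  have hr0 : 0 < r := by linarith
  refine ⟨N₀, hN₀, fun N hN => ?_⟩
  obtain ⟨T, hNT, hT, h1⟩ := H N hN
  have hN1 : 1 ≤ N := hN₀.trans hN
  have hN0 : (0 : ℝ) < N := by exact_mod_cast hN1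
  refine ⟨T, hNT, hT, fun p hp hp1 => ?_, fun B hB => ?_⟩
  · obtain ⟨M, n₀, hM, hsub, hpM, hh, P, hP, hX, hE⟩ := h1 p hp hp1
    have hM0 : (0 : ℝ) < M := by exact_mod_cast hM
    have hpos : 0 ≤ ((N : ℝ) / (2 * M)) ^ (1 / r) := by positivity
    refine ⟨_, ?_, many_ind (M := M) hpos hsub hP hX (by simp; omega) hh (hE _ (Subset.refl _))⟩
    rw [sum_ind' hr0 hpos hsub, ← Real.rpow_mul (by positivity), one_div_mul_cancel hr0.ne', Real.rpow_one]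
    calc (∑ n ∈ Ico n₀ (n₀ + M), p n) * ((N : ℝ) / (2 * M)) ≤ (2 * M / N) * ((N : ℝ) / (2 * M)) := by gcongr
      _ = 1 := by field_simp
  · obtain ⟨p, hpdef⟩ : ∃ p : ℕ → ℝ, p = fun n => if n ∈ B then 4 / (N : ℝ) else 0 := ⟨_, rfl⟩
    have hp0 : ∀ n, 0 ≤ p n := by
      intro n
      rw [hpdef]
      dsimp only
      split_ifs <;> positivity
    have hpsum : ∀ C : Finset ℕ, ∑ n ∈ C, p n = 4 / N * ((C ∩ B).card : ℝ) := by
      intro C
      rw [hpdef]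
      dsimp only
      rw [← sum_filter, sum_const, nsmul_eq_mul, filter_mem_eq_inter]
      ring
    have hp1 : ∑ n ∈ Icc N (2 * N), p n ≤ 1 := by
      rw [hpsum]
      have h2 : (((Icc N (2 * N) ∩ B).card : ℕ) : ℝ) ≤ B.card := by exact_mod_cast card_le_card inter_subset_right
      have h3 : (4 : ℝ) * B.card ≤ N := by exact_mod_cast hB
      rw [div_mul_eq_mul_div, div_le_one hN0]
      linarith
    obtain ⟨M, n₀, hM, hsub, hpM, hh, P, hP, hX, hE⟩ := h1 p hp0 hp1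
    have hM0 : (0 : ℝ) < M := by exact_mod_cast hM
    rw [hpsum] at hpM
    obtain ⟨A, hAdef⟩ : ∃ A : Finset ℕ, A = Ico n₀ (n₀ + M) \ B := ⟨_, rfl⟩
    have hAI : A ⊆ Ico n₀ (n₀ + M) := by rw [hAdef]; exact sdiff_subset
    have hc1 : M ≤ 2 * A.card := by
      have h2 : A.card + (Ico n₀ (n₀ + M) ∩ B).card = M := by
        rw [hAdef, card_sdiff_add_card_inter]
        simp
      have h3 : 2 * (Ico n₀ (n₀ + M) ∩ B).card ≤ M := by
        rw [div_mul_eq_mul_div, div_le_div_iff_of_pos_right hN0] at hpM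
        have : 2 * ((Ico n₀ (n₀ + M) ∩ B).card : ℝ) ≤ M := by linarith
        exact_mod_cast this
      omega
    have hc2 : (A.card : ℝ) ≤ M := by
      have h2 : A.card ≤ M := by
        have := card_le_card hAI
        simpa using this
      exact_mod_cast h2
    have hpos : 0 ≤ ((N : ℝ) / (2 * M)) ^ (1 / r) := by positivity
    refine ⟨_, fun n hn => ?_, ?_, many_ind (M := M) hpos (hAI.trans hsub) hP hX hc1 hh (hE _ hAI)⟩
    · rw [if_neg]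
      rw [hAdef, Finset.mem_sdiff]
      exact fun h => h.2 hn
    · have h3 := sum_ind' hr0 hpos (hAI.trans hsub) (fun _ => 1)
      simp only [one_mul, sum_const, nsmul_eq_mul, mul_one] at h3
      rw [h3, ← Real.rpow_mul (by positivity), one_div_mul_cancel hr0.ne', Real.rpow_one]
      calc (A.card : ℝ) * ((N : ℝ) / (2 * M)) ≤ M * ((N : ℝ) / (2 * M)) := by gcongr
        _ = N / 2 := by field_simp
        _ ≤ N := by linarith

end Pool.Agent.TH804.GZ
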