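import Pool.Agent.TH804.GW1

/-!
Random signs: a choice of signs that is good for many points and for all the coefficients
-/

set_option autoImplicit false

open Finset

namespace Pool.Agent.TH804.GZ

open Pool.Agent.TH804.GW

/-- real sum with signs -/
noncomputable def rs (a : ℕ → ℝ) (M : ℕ) (s : Finset ℕ) : ℝ := ∑ i ∈ range M, (if i ∈ s then (1 : ℝ) else -1) * a i

lemma rs_insert (a : ℕ → ℝ) (M : ℕ) (s : Finset ℕ) : rs a (M + 1) (insert M s) = rs a M s + a M := by
  unfold rs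
  rw [sum_range_succ]
  congr 1
  · apply sum_congr rfl
    intro i hi
    have := mem_range.1 hi
    have h : i ≠ M := by omega
    simp [h]
  · simp

lemma rs_not (a : ℕ → ℝ) (M : ℕ) (s : Finset ℕ) (h : s ⊆ range M) : rs a (M + 1) s = rs a M s - a M := by
  unfold rs
  rw [sum_range_succ]
  have : M ∉ s := fun hM => by simpa using h hM
  simp [this, sub_eq_add_neg]

lemma exp_moment (a : ℕ → ℝ) (M : ℕ) :
    ∑ s ∈ (range M).powerset, Real.exp (rs a M s) ≤ 2 ^ M * Real.exp ((∑ i ∈ range M, a i ^ 2) / 2) := by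
  induction M with
  | zero => simp [rs]
  | succ M ih =>
    rw [range_add_one, sum_powerset_insert notMem_range_self, sum_insert notMem_range_self,
      ← sum_add_distrib]
    have h1 : ∀ s ∈ (range M).powerset, Real.exp (rs a (M + 1) s) + Real.exp (rs a (M + 1) (insert M s)) =
        Real.exp (rs a M s) * (2 * Real.cosh (a M)) := by
      intro s hs
      rw [rs_insert, rs_not a M s (mem_powerset.1 hs), Real.cosh_eq, sub_eq_add_neg, Real.exp_add, Real.exp_add]
      ring
    rw [sum_congr rfl h1, ← sum_mul]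
    have h2 : Real.cosh (a M) ≤ Real.exp (a M ^ 2 / 2) := Real.cosh_le_exp_half_sq _
    calc (∑ s ∈ (range M).powerset, Real.exp (rs a M s)) * (2 * Real.cosh (a M))
        ≤ (2 ^ M * Real.exp ((∑ i ∈ range M, a i ^ 2) / 2)) * (2 * Real.exp (a M ^ 2 / 2)) := by
          have := Real.cosh_pos (a M)
          gcongr
      _ = 2 ^ (M + 1) * Real.exp ((a M ^ 2 + ∑ i ∈ range M, a i ^ 2) / 2) := by
          rw [add_div, Real.exp_add, pow_succ]
          ring

lemma re_sg (c : ℕ → ℂ) (M : ℕ) (s : Finset ℕ) : (sg c M s).re = rs (fun i => (c i).re) M s := by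
  unfold sg rs
  rw [Complex.re_sum]
  refine sum_congr rfl fun i _ => ?_
  unfold sgn
  split_ifs <;> simp

lemma im_sg (c : ℕ → ℂ) (M : ℕ) (s : Finset ℕ) : (sg c M s).im = rs (fun i => (c i).im) M s := by
  unfold sg rs
  rw [Complex.im_sum]
  refine sum_congr rfl fun i _ => ?_
  unfold sgn
  split_ifs <;> simp

lemma rs_neg (a : ℕ → ℝ) (M : ℕ) (s : Finset ℕ) : rs (fun i => -a i) M s = -rs a M s := by
  unfold rs
  rw [← sum_neg_distrib]
  refine sum_congr rfl fun i _ => ?_
  ring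

lemma exp_moment' {a : ℕ → ℝ} {M : ℕ} (ha : ∑ i ∈ range M, a i ^ 2 ≤ 1) :
    ∑ s ∈ (range M).powerset, (Real.exp (rs a M s) + Real.exp (-rs a M s)) ≤ 2 ^ M * (7 / 2) := by
  have h1 := exp_moment a M
  have h2 := exp_moment (fun i => -a i) M
  simp only [rs_neg, neg_sq] at h2
  have h3 : Real.exp ((∑ i ∈ range M, a i ^ 2) / 2) ≤ 7 / 4 := by
    have h4 : Real.exp ((∑ i ∈ range M, a i ^ 2) / 2) ≤ Real.exp (1 / 2) := Real.exp_le_exp.2 (by linarith)
    have h5 : Real.exp (1 / 2) ^ 2 ≤ (7 / 4) ^ 2 := by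
      rw [← Real.exp_nat_mul]
      norm_num
      have := Real.exp_one_lt_d9
      linarith
    have h6 : Real.exp (1 / 2) ≤ 7 / 4 := (sq_le_sq₀ (Real.exp_pos _).le (by norm_num)).1 h5
    linarith
  rw [sum_add_distrib]
  have h7 : (2 : ℝ) ^ M * Real.exp ((∑ i ∈ range M, a i ^ 2) / 2) ≤ 2 ^ M * (7 / 4) := by gcongr
  linarith

lemma bad {c : ℕ → ℂ} {M : ℕ} {u : ℝ} (hc : ∑ i ∈ range M, ‖c i‖ ^ 2 ≤ 1) :
    (((range M).powerset.filter (fun s => u < ‖sg c M s‖)).card : ℝ) * Real.exp (u / 2) ≤ 7 * 2 ^ M := by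
  classical
  have hre : ∑ i ∈ range M, (c i).re ^ 2 ≤ 1 := by
    refine le_trans (sum_le_sum fun i _ => ?_) hc
    rw [← Complex.normSq_eq_norm_sq, Complex.normSq_apply]
    nlinarith [sq_nonneg (c i).im]
  have him : ∑ i ∈ range M, (c i).im ^ 2 ≤ 1 := by
    refine le_trans (sum_le_sum fun i _ => ?_) hc
    rw [← Complex.normSq_eq_norm_sq, Complex.normSq_apply]
    nlinarith [sq_nonneg (c i).re]
  have h1 := exp_moment' hre
  have h2 := exp_moment' him
  have habs : ∀ x : ℝ, Real.exp |x| ≤ Real.exp x + Real.exp (-x) := by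
    intro x
    rcases abs_cases x with h | h <;> rw [h.1]
    · linarith [Real.exp_pos (-x)]
    · linarith [Real.exp_pos x]
  rw [← nsmul_eq_mul]
  calc (((range M).powerset.filter (fun s => u < ‖sg c M s‖)).card) • Real.exp (u / 2)
      ≤ ∑ s ∈ (range M).powerset.filter (fun s => u < ‖sg c M s‖),
        ((Real.exp (rs (fun i => (c i).re) M s) + Real.exp (-rs (fun i => (c i).re) M s)) +
          (Real.exp (rs (fun i => (c i).im) M s) + Real.exp (-rs (fun i => (c i).im) M s))) := by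
        refine card_nsmul_le_sum _ _ _ fun s hs => ?_
        have h3 := (mem_filter.1 hs).2
        have h4 := Complex.norm_le_abs_re_add_abs_im (sg c M s)
        rw [re_sg, im_sg] at h4
        have h5 := habs (rs (fun i => (c i).re) M s)
        have h6 := habs (rs (fun i => (c i).im) M s)
        have h7 := Real.exp_pos |rs (fun i => (c i).re) M s|
        have h8 := Real.exp_pos |rs (fun i => (c i).im) M s|
        by_cases hcase : u / 2 ≤ |rs (fun i => (c i).re) M s|
        · have := Real.exp_le_exp.2 hcase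
          linarith
        · have h9 : u / 2 ≤ |rs (fun i => (c i).im) M s| := by
            push Not at hcase
            linarith
          have := Real.exp_le_exp.2 h9
          linarith
    _ ≤ ∑ s ∈ (range M).powerset,
        ((Real.exp (rs (fun i => (c i).re) M s) + Real.exp (-rs (fun i => (c i).re) M s)) +
          (Real.exp (rs (fun i => (c i).im) M s) + Real.exp (-rs (fun i => (c i).im) M s))) :=
        sum_le_sum_of_subset_of_nonneg (filter_subset _ _) fun s _ _ => by positivity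
    _ ≤ _ := by
        rw [sum_add_distrib]
        linarith

lemma good (c : ℕ → ℂ) (M : ℕ) : (2 : ℝ) ^ M ≤
    12 * ((range M).powerset.filter (fun s => (∑ i ∈ range M, ‖c i‖ ^ 2) / 2 ≤ ‖sg c M s‖ ^ 2)).card := by
  classical
  obtain ⟨S, hS⟩ : ∃ S : ℝ, S = ∑ i ∈ range M, ‖c i‖ ^ 2 := ⟨_, rfl⟩
  have hS0 : 0 ≤ S := by rw [hS]; exact sum_nonneg fun _ _ => by positivity
  rw [← hS]
  rcases hS0.eq_or_lt with h0 | hpos
  · have : (range M).powerset.filter (fun s => S / 2 ≤ ‖sg c M s‖ ^ 2) = (range M).powerset := by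
      rw [filter_eq_self]
      intro s _
      rw [← h0, zero_div]
      positivity
    rw [this, card_powerset, card_range]
    push_cast
    have : (0 : ℝ) < 2 ^ M := by positivity
    linarith
  · obtain ⟨G, hG⟩ : ∃ G : Finset (Finset ℕ), G = (range M).powerset.filter (fun s => S / 2 ≤ ‖sg c M s‖ ^ 2) :=
      ⟨_, rfl⟩
    rw [← hG]
    have h1 := second_moment c M
    have h2 := fourth_moment c M
    rw [← hS] at h1 h2
    have h3 := sum_filter_add_sum_filter_not (range M).powerset (fun s => S / 2 ≤ ‖sg c M s‖ ^ 2)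
      (fun s => ‖sg c M s‖ ^ 2)
    rw [h1, ← hG] at h3
    have h4 : ∑ s ∈ (range M).powerset.filter (fun s => ¬ S / 2 ≤ ‖sg c M s‖ ^ 2), ‖sg c M s‖ ^ 2 ≤
        2 ^ M * (S / 2) := by
      calc ∑ s ∈ (range M).powerset.filter (fun s => ¬ S / 2 ≤ ‖sg c M s‖ ^ 2), ‖sg c M s‖ ^ 2
          ≤ ∑ s ∈ (range M).powerset.filter (fun s => ¬ S / 2 ≤ ‖sg c M s‖ ^ 2), S / 2 :=
            sum_le_sum fun s hs => (not_le.1 (mem_filter.1 hs).2).le
        _ ≤ ∑ s ∈ (range M).powerset, S / 2 :=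
            sum_le_sum_of_subset_of_nonneg (filter_subset _ _) fun _ _ _ => by positivity
        _ = _ := by
            rw [sum_const, card_powerset, card_range, nsmul_eq_mul]
            push_cast
            ring
    have h5 : 2 ^ M * (S / 2) ≤ ∑ s ∈ G, ‖sg c M s‖ ^ 2 := by
      have : (2 : ℝ) ^ M * S = 2 ^ M * (S / 2) + 2 ^ M * (S / 2) := by ring
      linarith
    have h6 : (∑ s ∈ G, ‖sg c M s‖ ^ 2) ^ 2 ≤ G.card * ∑ s ∈ G, (‖sg c M s‖ ^ 2) ^ 2 := sq_sum_le_card_mul_sum_sq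
    have h7 : ∑ s ∈ G, (‖sg c M s‖ ^ 2) ^ 2 ≤ 3 * 2 ^ M * S ^ 2 := by
      refine le_trans ?_ h2
      refine le_trans (sum_le_sum_of_subset_of_nonneg (t := (range M).powerset) (by rw [hG]; exact filter_subset _ _)
        fun _ _ _ => by positivity) (le_of_eq (sum_congr rfl fun s _ => by ring))
    have h8 : (2 ^ M * (S / 2)) ^ 2 ≤ G.card * (3 * 2 ^ M * S ^ 2) :=
      calc (2 ^ M * (S / 2)) ^ 2 ≤ (∑ s ∈ G, ‖sg c M s‖ ^ 2) ^ 2 := pow_le_pow_left₀ (by positivity) h5 2
        _ ≤ G.card * ∑ s ∈ G, (‖sg c M s‖ ^ 2) ^ 2 := h6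
        _ ≤ _ := by gcongr
    have h9 : (2 ^ M * S ^ 2 / 4) * 2 ^ M ≤ (2 ^ M * S ^ 2 / 4) * (12 * (G.card : ℝ)) := by
      calc (2 ^ M * S ^ 2 / 4) * 2 ^ M = (2 ^ M * (S / 2)) ^ 2 := by ring
        _ ≤ _ := h8
        _ = _ := by ring
    exact le_of_mul_le_mul_left h9 (by positivity)

/-- a good choice of signs -/
theorem pick {α : Type*} (W : Finset α) (I : Finset ℕ) (k : ℕ) (b : ℕ → ℕ → ℂ) (D : ℕ → α → ℂ) {u : ℝ}
    (hb : ∀ n, ∑ j ∈ range k, ‖b j n‖ ^ 2 ≤ 1) (hu : 336 * (I.card : ℝ) ≤ Real.exp (u / 2)) :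
    ∃ s : Finset ℕ, (∀ n ∈ I, ‖sg (fun j => b j n) k s‖ ≤ u) ∧
      (W.card : ℝ) ≤ 24 * (W.filter (fun t => (∑ j ∈ range k, ‖D j t‖ ^ 2) / 2 ≤ ‖sg (fun j => D j t) k s‖ ^ 2)).card := by
  classical
  obtain ⟨B, hB⟩ : ∃ B : Finset (Finset ℕ), B = (range k).powerset.filter
    (fun s => ∃ n ∈ I, u < ‖sg (fun j => b j n) k s‖) := ⟨_, rfl⟩
  have he : 0 < Real.exp (u / 2) := Real.exp_pos _
  have h2k : (0 : ℝ) < 2 ^ k := by positivity
  have hBsub : B ⊆ (range k).powerset := by rw [hB]; exact filter_subset _ _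
  have hBc : 48 * (B.card : ℝ) ≤ 2 ^ k := by
    have h1 : B ⊆ I.biUnion (fun n => (range k).powerset.filter (fun s => u < ‖sg (fun j => b j n) k s‖)) := by
      intro s hs
      rw [hB, mem_filter] at hs
      obtain ⟨hs1, n, hn, hn2⟩ := hs
      rw [mem_biUnion]
      exact ⟨n, hn, mem_filter.2 ⟨hs1, hn2⟩⟩
    have h2 : (B.card : ℝ) ≤ ∑ n ∈ I, (((range k).powerset.filter (fun s => u < ‖sg (fun j => b j n) k s‖)).card : ℝ) := by
      exact_mod_cast (card_le_card h1).trans card_biUnion_le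
    have h3 : (B.card : ℝ) * Real.exp (u / 2) ≤ I.card * (7 * 2 ^ k) := by
      calc (B.card : ℝ) * Real.exp (u / 2)
          ≤ (∑ n ∈ I, (((range k).powerset.filter (fun s => u < ‖sg (fun j => b j n) k s‖)).card : ℝ)) *
            Real.exp (u / 2) := by gcongr
        _ = ∑ n ∈ I, (((range k).powerset.filter (fun s => u < ‖sg (fun j => b j n) k s‖)).card : ℝ) *
            Real.exp (u / 2) := sum_mul _ _ _
        _ ≤ ∑ n ∈ I, 7 * 2 ^ k := sum_le_sum fun n _ => bad (hb n)
        _ = _ := by rw [sum_const, nsmul_eq_mul]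
    have h4 : Real.exp (u / 2) * (48 * (B.card : ℝ)) ≤ Real.exp (u / 2) * 2 ^ k := by
      calc Real.exp (u / 2) * (48 * (B.card : ℝ)) = 48 * ((B.card : ℝ) * Real.exp (u / 2)) := by ring
        _ ≤ 48 * (I.card * (7 * 2 ^ k)) := by gcongr
        _ = (336 * (I.card : ℝ)) * 2 ^ k := by ring
        _ ≤ _ := by gcongr
    exact le_of_mul_le_mul_left h4 he
  obtain ⟨g, hg⟩ : ∃ g : Finset ℕ → ℝ, g = fun s => ((W.filter (fun t => (∑ j ∈ range k, ‖D j t‖ ^ 2) / 2 ≤
    ‖sg (fun j => D j t) k s‖ ^ 2)).card : ℝ) := ⟨_, rfl⟩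
  have hgW : ∀ s, g s ≤ W.card := by
    intro s
    rw [hg]
    dsimp only
    exact_mod_cast card_le_card (filter_subset _ _)
  have hsum : (W.card : ℝ) * 2 ^ k ≤ 12 * ∑ s ∈ (range k).powerset, g s := by
    have e1 : ∑ s ∈ (range k).powerset, g s = ∑ t ∈ W, (((range k).powerset.filter (fun s =>
        (∑ j ∈ range k, ‖D j t‖ ^ 2) / 2 ≤ ‖sg (fun j => D j t) k s‖ ^ 2)).card : ℝ) := by
      rw [hg]
      simp only [card_filter]
      push_cast
      rw [sum_comm]
    rw [e1, mul_sum, ← nsmul_eq_mul]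
    exact card_nsmul_le_sum _ _ _ fun t _ => good (fun j => D j t) k
  by_contra hcon
  push Not at hcon
  have h5 : ∀ s ∈ (range k).powerset, s ∉ B → 24 * g s < W.card := by
    intro s hs hsB
    rw [hg]
    refine hcon s fun n hn => ?_
    by_contra hc
    push Not at hc
    exact hsB (by rw [hB]; exact mem_filter.2 ⟨hs, n, hn, hc⟩)
  rcases W.eq_empty_or_nonempty with hW | hW
  · have h6 : (range k).powerset ⊆ B := by
      intro s hs
      by_contra hsB
      have := h5 s hs hsB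
      rw [hg, hW] at this
      simp at this
    have h7 := card_le_card h6
    rw [card_powerset, card_range] at h7
    have h8 : (2 : ℝ) ^ k ≤ B.card := by exact_mod_cast h7
    linarith
  · have hW0 : (0 : ℝ) < W.card := by exact_mod_cast hW.card_pos
    have h6 : ∑ s ∈ (range k).powerset, g s ≤ ∑ s ∈ (range k).powerset, (W.card / 24 + if s ∈ B then (W.card : ℝ) else 0) := by
      refine sum_le_sum fun s hs => ?_
      split_ifs with h
      · have := hgW s
        have : (0 : ℝ) ≤ W.card / 24 := by positivity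
        linarith [hgW s]
      · have := h5 s hs h
        linarith
    rw [sum_add_distrib, sum_const, card_powerset, card_range, nsmul_eq_mul, ← sum_filter,
      filter_mem_eq_inter, inter_eq_right.2 hBsub, sum_const, nsmul_eq_mul] at h6
    push_cast at h6
    have h7 : (W.card : ℝ) * 2 ^ k ≤ 12 * (2 ^ k * (W.card / 24) + B.card * W.card) := by
      refine hsum.trans ?_
      gcongr
    have h8 : (B.card : ℝ) * W.card ≤ 2 ^ k / 48 * W.card := by
      have : (B.card : ℝ) ≤ 2 ^ k / 48 := by linarith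
      gcongr
    have h9 : 0 < (W.card : ℝ) * 2 ^ k := by positivity
    nlinarith

end Pool.Agent.TH804.GZ
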