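import Pool.Agent.TH804.GZ2
import Pool.Agent.TH804.GZ3

/-!
Large values for coefficients in `ℂ^k`
-/

set_option autoImplicit false

open Finset Filter

namespace Pool.Agent.TH804.GZ

open Pool.Agent.TH804.GW

/-- `n^{it}` -/
noncomputable def e (t : ℝ) (n : ℕ) : ℂ := Complex.exp (((t * Real.log (n : ℝ) : ℝ) : ℂ) * Complex.I)

def LV (σ A : ℝ) : Prop := ∀ ε : ℝ, ε > 0 → ∃ C : ℝ,
  ∀ N : ℕ, 1 ≤ N → ∀ T : ℝ, (N : ℝ) ≤ T → T ≤ (N : ℝ) ^ A →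
  ∀ b : ℕ → ℂ, (∀ n, ‖b n‖ ≤ 1) →
  ∀ W : Finset ℤ,
    (∀ t ∈ W, 0 ≤ (t : ℝ) ∧ (t : ℝ) ≤ T ∧
      (N : ℝ) ^ σ < ‖∑ n ∈ Finset.Icc N (2 * N), b n * e t n‖) →
    (W.card : ℝ) ≤ C * (N : ℝ) ^ (2 - 2 * σ + ε)

def VLV (σ A : ℝ) : Prop := ∀ ε : ℝ, ε > 0 → ∃ C : ℝ,
  ∀ N : ℕ, 1 ≤ N → ∀ T : ℝ, (N : ℝ) ≤ T → T ≤ (N : ℝ) ^ A →
  ∀ (k : ℕ) (b : ℕ → ℕ → ℂ), (∀ n, ∑ j ∈ range k, ‖b j n‖ ^ 2 ≤ 1) →
  ∀ W : Finset ℤ,
    (∀ t ∈ W, 0 ≤ (t : ℝ) ∧ (t : ℝ) ≤ T ∧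
      (N : ℝ) ^ σ < Real.sqrt (∑ j ∈ range k, ‖∑ n ∈ Finset.Icc N (2 * N), b j n * e t n‖ ^ 2)) →
    (W.card : ℝ) ≤ C * (N : ℝ) ^ (2 - 2 * σ + ε)

lemma card_le {W : Finset ℤ} {T : ℝ} (hT : 0 ≤ T) (hW : ∀ t ∈ W, 0 ≤ (t : ℝ) ∧ (t : ℝ) ≤ T) :
    (W.card : ℝ) ≤ T + 1 := by
  have h1 : W ⊆ Icc 0 ⌊T⌋ := by
    intro t ht
    rw [mem_Icc]
    exact ⟨by exact_mod_cast (hW t ht).1, Int.le_floor.2 (hW t ht).2⟩
  have h2 := card_le_card h1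
  rw [Int.card_Icc] at h2
  have h3 : ((⌊T⌋ + 1 - 0).toNat : ℤ) = ⌊T⌋ + 1 := by
    rw [Int.toNat_of_nonneg]
    · ring
    · have := Int.floor_nonneg.2 hT
      omega
  have h4 : (((⌊T⌋ + 1 - 0).toNat : ℕ) : ℝ) = (⌊T⌋ : ℝ) + 1 := by
    have := congrArg (fun z : ℤ => (z : ℝ)) h3
    push_cast at this
    exact_mod_cast this
  have h5 : (W.card : ℝ) ≤ ((⌊T⌋ + 1 - 0).toNat : ℕ) := by exact_mod_cast h2
  rw [h4] at h5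
  linarith [Int.floor_le T]

lemma small_N {A ρ : ℝ} {Q : ℕ → ℝ → Finset ℤ → Prop}
    (h0 : ∀ N T W, Q N T W → ∀ t ∈ W, 0 ≤ (t : ℝ) ∧ (t : ℝ) ≤ T)
    (h : ∃ C : ℝ, ∃ N₀ : ℕ, ∀ N : ℕ, N₀ ≤ N → 1 ≤ N → ∀ T : ℝ, (N : ℝ) ≤ T → T ≤ (N : ℝ) ^ A →
      ∀ W, Q N T W → (W.card : ℝ) ≤ C * (N : ℝ) ^ ρ) :
    ∃ C : ℝ, ∀ N : ℕ, 1 ≤ N → ∀ T : ℝ, (N : ℝ) ≤ T → T ≤ (N : ℝ) ^ A →
      ∀ W, Q N T W → (W.card : ℝ) ≤ C * (N : ℝ) ^ ρ := by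
  obtain ⟨C, N₀, hC⟩ := h
  refine ⟨max C 0 + ∑ n ∈ range N₀, ((n : ℝ) ^ A + 1) / (n : ℝ) ^ ρ, fun N hN T hNT hTA W hW => ?_⟩
  have hN0 : (0 : ℝ) < N := by exact_mod_cast hN
  have hNρ : 0 < (N : ℝ) ^ ρ := by positivity
  have hsum : 0 ≤ ∑ n ∈ range N₀, ((n : ℝ) ^ A + 1) / (n : ℝ) ^ ρ := sum_nonneg fun n _ => by positivity
  rcases lt_or_ge N N₀ with h1 | h1
  · have h2 := card_le (by linarith) (h0 N T W hW)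
    have h3 : ((N : ℝ) ^ A + 1) / (N : ℝ) ^ ρ ≤ ∑ n ∈ range N₀, ((n : ℝ) ^ A + 1) / (n : ℝ) ^ ρ :=
      single_le_sum (f := fun n : ℕ => ((n : ℝ) ^ A + 1) / (n : ℝ) ^ ρ) (fun n _ => by positivity) (mem_range.2 h1)
    have h4 : 0 ≤ max C 0 := le_max_right _ _
    calc (W.card : ℝ) ≤ (N : ℝ) ^ A + 1 := by linarith
      _ = ((N : ℝ) ^ A + 1) / (N : ℝ) ^ ρ * (N : ℝ) ^ ρ := by field_simp
      _ ≤ _ := by
          apply mul_le_mul_of_nonneg_right _ hNρ.le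
          linarith
  · refine (hC N h1 hN T hNT hTA W hW).trans ?_
    apply mul_le_mul_of_nonneg_right _ hNρ.le
    linarith [le_max_left C 0]

lemma exp_large {η : ℝ} (hη : 0 < η) : ∃ N₀ : ℕ, ∀ N : ℕ, N₀ ≤ N → 336 * ((N : ℝ) + 1) ≤ Real.exp ((N : ℝ) ^ η / 2 / 2) := by
  obtain ⟨m, hm⟩ := exists_nat_ge (2 / η)
  have hm0 : 0 < (m : ℝ) := lt_of_lt_of_le (by positivity) hm
  have hmη : 2 ≤ η * m := by
    rw [div_le_iff₀ hη] at hm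
    linarith
  obtain ⟨N₁, hN₁⟩ := exists_nat_ge (672 * (4 * (m : ℝ)) ^ m)
  refine ⟨max N₁ 1, fun N hN => ?_⟩
  have hN1 : N₁ ≤ N := (le_max_left _ _).trans hN
  have hN2 : 1 ≤ N := (le_max_right _ _).trans hN
  have hN2' : (1 : ℝ) ≤ N := by exact_mod_cast hN2
  have hN0 : (0 : ℝ) < N := by linarith
  have hN1' : (N₁ : ℝ) ≤ N := by exact_mod_cast hN1
  have h1 : (N : ℝ) ^ η / 2 / 2 = m * ((N : ℝ) ^ η / (4 * m)) := by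
    field_simp
    norm_num
  rw [h1, Real.exp_nat_mul]
  have h2 : (N : ℝ) ^ η / (4 * m) ≤ Real.exp ((N : ℝ) ^ η / (4 * m)) := by
    linarith [Real.add_one_le_exp ((N : ℝ) ^ η / (4 * m))]
  have h3 : (N : ℝ) ^ 2 / (4 * (m : ℝ)) ^ m ≤ ((N : ℝ) ^ η / (4 * m)) ^ m := by
    rw [div_pow]
    have h4 : (N : ℝ) ^ 2 ≤ ((N : ℝ) ^ η) ^ m := by
      rw [← Real.rpow_natCast ((N : ℝ) ^ η), ← Real.rpow_mul hN0.le, ← Real.rpow_natCast (N : ℝ) 2]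
      exact Real.rpow_le_rpow_of_exponent_le hN2' (by exact_mod_cast hmη)
    gcongr
  have h5 : 336 * ((N : ℝ) + 1) ≤ (N : ℝ) ^ 2 / (4 * (m : ℝ)) ^ m := by
    rw [le_div_iff₀ (by positivity)]
    have h6 : 672 * (4 * (m : ℝ)) ^ m ≤ N := hN₁.trans hN1'
    have h7 : 0 < (4 * (m : ℝ)) ^ m := by positivity
    calc 336 * ((N : ℝ) + 1) * (4 * (m : ℝ)) ^ m ≤ 336 * ((N : ℝ) + N) * (4 * (m : ℝ)) ^ m := by gcongr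
      _ = (672 * (4 * (m : ℝ)) ^ m) * N := by ring
      _ ≤ N * N := by gcongr
      _ = _ := by ring
  exact (h5.trans h3).trans (pow_le_pow_left₀ (by positivity) h2 m)

lemma sg_sum {k N : ℕ} (b : ℕ → ℕ → ℂ) (t : ℝ) (s : Finset ℕ) :
    sg (fun j => ∑ n ∈ Finset.Icc N (2 * N), b j n * e t n) k s =
      ∑ n ∈ Finset.Icc N (2 * N), sg (fun j => b j n) k s * e t n := by
  unfold sg
  simp only [mul_sum, sum_mul]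
  rw [sum_comm]
  exact sum_congr rfl fun n _ => sum_congr rfl fun j _ => by ring

theorem VLV_of_LV {σ₀ A : ℝ} (h : ∀ σ : ℝ, σ₀ < σ → LV σ A) (σ : ℝ) (hσ : σ₀ < σ) : VLV σ A := by
  classical
  intro ε hε
  obtain ⟨η, hη⟩ : ∃ η : ℝ, η = min ((σ - σ₀) / 2) (ε / 4) := ⟨_, rfl⟩
  have hη0 : 0 < η := by rw [hη]; exact lt_min (by linarith) (by linarith)
  have hη1 : η ≤ (σ - σ₀) / 2 := by rw [hη]; exact min_le_left _ _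
  have hη2 : η ≤ ε / 4 := by rw [hη]; exact min_le_right _ _
  obtain ⟨C, hC⟩ := h (σ - η) (by linarith) (ε / 2) (by linarith)
  obtain ⟨N₁, hN₁⟩ := exp_large hη0
  have key := small_N (A := A) (ρ := 2 - 2 * σ + ε)
    (Q := fun N T W => ∃ (k : ℕ) (b : ℕ → ℕ → ℂ), (∀ n, ∑ j ∈ range k, ‖b j n‖ ^ 2 ≤ 1) ∧
      (∀ t ∈ W, 0 ≤ (t : ℝ) ∧ (t : ℝ) ≤ T ∧
      (N : ℝ) ^ σ < Real.sqrt (∑ j ∈ range k, ‖∑ n ∈ Finset.Icc N (2 * N), b j n * e t n‖ ^ 2)))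
    (fun N T W ⟨k, b, h1, h2⟩ t ht => ⟨(h2 t ht).1, (h2 t ht).2.1⟩) ?_
  · obtain ⟨C', hC'⟩ := key
    exact ⟨C', fun N hN T hNT hTA k b hb W hW => hC' N hN T hNT hTA W ⟨k, b, hb, hW⟩⟩
  refine ⟨24 * max C 0, N₁, fun N hN hN1 T hNT hTA W ⟨k, b, hb, hW⟩ => ?_⟩
  have hN1' : (1 : ℝ) ≤ N := by exact_mod_cast hN1
  have hN0 : (0 : ℝ) < N := by linarith
  obtain ⟨u, hu⟩ : ∃ u : ℝ, u = (N : ℝ) ^ η / 2 := ⟨_, rfl⟩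
  have hu0 : 0 < u := by rw [hu]; positivity
  have hcard : ((Finset.Icc N (2 * N)).card : ℝ) = N + 1 := by
    rw [Nat.card_Icc, show 2 * N + 1 - N = N + 1 by omega]
    push_cast
    ring
  obtain ⟨s, hs1, hs2⟩ := pick W (Finset.Icc N (2 * N)) k b
    (fun j (t : ℤ) => ∑ n ∈ Finset.Icc N (2 * N), b j n * e t n) (u := u) hb (by
      rw [hcard, hu]
      exact hN₁ N hN)
  obtain ⟨W', hW'⟩ : ∃ W' : Finset ℤ, W' = W.filter (fun t : ℤ =>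
    (∑ j ∈ range k, ‖∑ n ∈ Finset.Icc N (2 * N), b j n * e t n‖ ^ 2) / 2 ≤
      ‖sg (fun j => ∑ n ∈ Finset.Icc N (2 * N), b j n * e t n) k s‖ ^ 2) := ⟨_, rfl⟩
  rw [← hW'] at hs2
  obtain ⟨b', hb'⟩ : ∃ b' : ℕ → ℂ, b' = fun n => if n ∈ Finset.Icc N (2 * N) then
    ((1 / u : ℝ) : ℂ) * sg (fun j => b j n) k s else 0 := ⟨_, rfl⟩
  have h1 := hC N hN1 T hNT hTA b' (fun n => by
    rw [hb']
    dsimp only
    split_ifs with hn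
    · rw [norm_mul, Complex.norm_real, Real.norm_of_nonneg (by positivity), one_div_mul_eq_div, div_le_one hu0]
      exact hs1 n hn
    · simp) W' (fun t ht => by
    rw [hW', mem_filter] at ht
    obtain ⟨htW, ht2⟩ := ht
    obtain ⟨h3, h4, h5⟩ := hW t htW
    refine ⟨h3, h4, ?_⟩
    have e1 : ∑ n ∈ Finset.Icc N (2 * N), b' n * e t n =
        ((1 / u : ℝ) : ℂ) * sg (fun j => ∑ n ∈ Finset.Icc N (2 * N), b j n * e t n) k s := by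
      rw [sg_sum, mul_sum]
      refine sum_congr rfl fun n hn => ?_
      rw [hb']
      dsimp only
      rw [if_pos hn]
      ring
    rw [e1, norm_mul, Complex.norm_real, Real.norm_of_nonneg (by positivity), one_div_mul_eq_div, lt_div_iff₀ hu0, hu]
    obtain ⟨Y, hY⟩ : ∃ Y : ℝ, Y = ∑ j ∈ range k, ‖∑ n ∈ Finset.Icc N (2 * N), b j n * e t n‖ ^ 2 := ⟨_, rfl⟩
    rw [← hY] at h5 ht2
    obtain ⟨Z, hZ⟩ : ∃ Z : ℝ, Z = ‖sg (fun j => ∑ n ∈ Finset.Icc N (2 * N), b j n * e t n) k s‖ := ⟨_, rfl⟩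
    rw [← hZ] at ht2 ⊢
    have hZ0 : 0 ≤ Z := by rw [hZ]; positivity
    have hY0 : 0 ≤ Y := by rw [hY]; positivity
    have e2 : (N : ℝ) ^ (σ - η) * ((N : ℝ) ^ η / 2) = (N : ℝ) ^ σ / 2 := by
      rw [mul_div_assoc', ← Real.rpow_add hN0, sub_add_cancel]
    rw [e2]
    have h6 : ((N : ℝ) ^ σ) ^ 2 < Y := by
      have h7 := Real.sq_sqrt hY0
      have h8 : ((N : ℝ) ^ σ) ^ 2 < Real.sqrt Y ^ 2 := pow_lt_pow_left₀ h5 (by positivity) (by norm_num)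
      linarith
    have hNσ : 0 < (N : ℝ) ^ σ := by positivity
    have h9 : ((N : ℝ) ^ σ / 2) ^ 2 < Z ^ 2 := by nlinarith
    exact lt_of_pow_lt_pow_left₀ 2 hZ0 h9)
  have h2 : (N : ℝ) ^ (2 - 2 * (σ - η) + ε / 2) ≤ (N : ℝ) ^ (2 - 2 * σ + ε) :=
    Real.rpow_le_rpow_of_exponent_le hN1' (by linarith)
  calc (W.card : ℝ) ≤ 24 * W'.card := hs2
    _ ≤ 24 * (C * (N : ℝ) ^ (2 - 2 * (σ - η) + ε / 2)) := by gcongr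
    _ ≤ 24 * (max C 0 * (N : ℝ) ^ (2 - 2 * (σ - η) + ε / 2)) := by
        have := le_max_left C 0
        gcongr
    _ ≤ 24 * (max C 0 * (N : ℝ) ^ (2 - 2 * σ + ε)) := by
        have := le_max_right C 0
        gcongr
    _ = _ := by ring

theorem LV_of_VLV {σ A : ℝ} (h : VLV σ A) : LV σ A := by
  intro ε hε
  obtain ⟨C, hC⟩ := h ε hε
  refine ⟨C, fun N hN T hNT hTA b hb W hW => hC N hN T hNT hTA 1 (fun _ n => b n) (fun n => ?_) W fun t ht => ?_⟩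
  · simp only [range_one, sum_singleton]
    exact pow_le_one₀ (norm_nonneg _) (hb n)
  · refine ⟨(hW t ht).1, (hW t ht).2.1, ?_⟩
    simp only [range_one, sum_singleton]
    rw [Real.sqrt_sq (norm_nonneg _)]
    exact (hW t ht).2.2

end Pool.Agent.TH804.GZ
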