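import Pool.Agent.TH804.GZ4
import Pool.Agent.TH804.GW5

/-!
Large values for all `σ > σ₀`: mean squares, weights and exceptional sets
-/

set_option autoImplicit false

open Finset Filter

namespace Pool.Agent.TH804.GZ

open Pool.Agent.TH804.GW

/-- `n^{it}`, `t` an integer -/
noncomputable def ez (t : ℤ) (n : ℕ) : ℂ := e (t : ℝ) n

/-- the bound `N^ε (N^2 + N^(2σ₀) |W|)` -/
noncomputable def Y (σ₀ ε : ℝ) (N : ℕ) (W : Finset ℤ) : ℝ :=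
  (N : ℝ) ^ ε * ((N : ℝ) ^ 2 + (N : ℝ) ^ (2 * σ₀) * W.card)

lemma Y_nonneg (σ₀ ε : ℝ) (N : ℕ) (W : Finset ℤ) : 0 ≤ Y σ₀ ε N W := by unfold Y; positivity

def MSQ (σ₀ A : ℝ) : Prop := ∀ ε : ℝ, 0 < ε → ∃ C : ℝ, 0 < C ∧
  ∀ N : ℕ, 1 ≤ N → ∀ T : ℝ, (N : ℝ) ≤ T → T ≤ (N : ℝ) ^ A →
  ∀ W : Finset ℤ, (∀ t ∈ W, 0 ≤ (t : ℝ) ∧ (t : ℝ) ≤ T) →
  ∀ b : ℕ → ℂ, (∀ n, ‖b n‖ ≤ 1) → QF W (Icc N (2 * N)) ez b ≤ C * Y σ₀ ε N W

def WF (σ₀ A : ℝ) : Prop := ∀ ε : ℝ, 0 < ε → ∃ C : ℝ, 0 < C ∧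
  ∀ N : ℕ, 1 ≤ N → ∀ T : ℝ, (N : ℝ) ≤ T → T ≤ (N : ℝ) ^ A →
  ∀ W : Finset ℤ, (∀ t ∈ W, 0 ≤ (t : ℝ) ∧ (t : ℝ) ≤ T) →
  ∃ p : ℕ → ℝ, (∀ n, 0 ≤ p n) ∧ ∑ n ∈ Icc N (2 * N), p n = 1 ∧
    ∀ b : ℕ → ℂ, QF W (Icc N (2 * N)) ez b ≤ C * Y σ₀ ε N W * ∑ n ∈ Icc N (2 * N), p n * ‖b n‖ ^ 2

def EF (σ₀ A : ℝ) : Prop := ∀ ε : ℝ, 0 < ε → ∃ C : ℝ, 0 < C ∧
  ∀ N : ℕ, 1 ≤ N → ∀ T : ℝ, (N : ℝ) ≤ T → T ≤ (N : ℝ) ^ A →
  ∀ W : Finset ℤ, (∀ t ∈ W, 0 ≤ (t : ℝ) ∧ (t : ℝ) ≤ T) → ∀ K : ℝ, 1 ≤ K →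
  ∃ B : Finset ℕ, B ⊆ Icc N (2 * N) ∧ K * B.card ≤ N ∧
    ∀ b : ℕ → ℂ, (∀ n ∈ B, b n = 0) →
      QF W (Icc N (2 * N)) ez b ≤ C * Y σ₀ ε N W * (K / N) * ∑ n ∈ Icc N (2 * N), ‖b n‖ ^ 2

lemma levels {V : ℕ → ℝ} {x : ℝ} (hx : 0 ≤ x) : ∀ J : ℕ, x ≤ V (J + 1) →
    x ^ 2 ≤ V 1 ^ 2 + ∑ j ∈ range J, (if V (j + 1) < x then V (j + 2) ^ 2 else 0) := by
  intro J
  induction J with
  | zero =>
    intro h
    simp only [range_zero, sum_empty, add_zero]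
    exact pow_le_pow_left₀ hx (by simpa using h) 2
  | succ J ih =>
    intro h
    rw [sum_range_succ]
    rcases le_or_gt x (V (J + 1)) with h1 | h1
    · have h2 := ih h1
      have h3 : (0 : ℝ) ≤ if V (J + 1) < x then V (J + 2) ^ 2 else 0 := by split_ifs <;> positivity
      linarith
    · rw [if_pos h1]
      have h2 : x ^ 2 ≤ V (J + 2) ^ 2 := pow_le_pow_left₀ hx h 2
      have h3 : (0 : ℝ) ≤ ∑ j ∈ range J, (if V (j + 1) < x then V (j + 2) ^ 2 else 0) :=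
        sum_nonneg fun j _ => by split_ifs <;> positivity
      have h4 : 0 ≤ V 1 ^ 2 := by positivity
      linarith

lemma norm_e (t : ℝ) (n : ℕ) : ‖e t n‖ = 1 := by
  unfold e
  exact Complex.norm_exp_ofReal_mul_I _

lemma trivial_le {N : ℕ} {b : ℕ → ℂ} (hb : ∀ n, ‖b n‖ ≤ 1) (t : ℤ) :
    ‖∑ n ∈ Icc N (2 * N), b n * ez t n‖ ≤ N + 1 := by
  refine (norm_sum_le _ _).trans ?_
  calc ∑ n ∈ Icc N (2 * N), ‖b n * ez t n‖ ≤ ∑ n ∈ Icc N (2 * N), (1 : ℝ) := by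
        refine sum_le_sum fun n _ => ?_
        rw [norm_mul]
        unfold ez
        rw [norm_e, mul_one]
        exact hb n
    _ = _ := by
        rw [sum_const, Nat.card_Icc, show 2 * N + 1 - N = N + 1 by omega, nsmul_eq_mul]
        push_cast
        ring

theorem MSQ_of_LV {σ₀ A : ℝ} (hσ₀ : 0 ≤ σ₀) (h : ∀ σ : ℝ, σ₀ < σ → LV σ A) : MSQ σ₀ A := by
  classical
  intro ε hε
  obtain ⟨η, hη⟩ : ∃ η : ℝ, η = ε / 4 := ⟨_, rfl⟩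
  have hη0 : 0 < η := by rw [hη]; linarith
  obtain ⟨J, hJ⟩ := exists_nat_ge (2 / η)
  have hJη : 2 ≤ J * η := by rwa [div_le_iff₀ hη0] at hJ
  have h1 : ∀ j : ℕ, ∃ C : ℝ, ∀ N : ℕ, 1 ≤ N → ∀ T : ℝ, (N : ℝ) ≤ T → T ≤ (N : ℝ) ^ A →
      ∀ b : ℕ → ℂ, (∀ n, ‖b n‖ ≤ 1) → ∀ W : Finset ℤ,
      (∀ t ∈ W, 0 ≤ (t : ℝ) ∧ (t : ℝ) ≤ T ∧ (N : ℝ) ^ (σ₀ + (j + 1 : ℕ) * η) < ‖∑ n ∈ Finset.Icc N (2 * N), b n * e t n‖) →
      (W.card : ℝ) ≤ C * (N : ℝ) ^ (2 - 2 * (σ₀ + (j + 1 : ℕ) * η) + η) := by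
    intro j
    exact h (σ₀ + (j + 1 : ℕ) * η) (by
      have : 0 < ((j + 1 : ℕ) : ℝ) * η := by positivity
      linarith) η hη0
  choose C hC using h1
  refine ⟨4 + ∑ j ∈ range J, max (C j) 0, ?_, fun N hN T hNT hTA W hW b hb => ?_⟩
  · have : 0 ≤ ∑ j ∈ range J, max (C j) 0 := sum_nonneg fun j _ => le_max_right _ _
    linarith
  have hN0 : (0 : ℝ) < N := by exact_mod_cast hN
  have hN1 : (1 : ℝ) ≤ N := by exact_mod_cast hN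
  obtain ⟨V, hV⟩ : ∃ V : ℕ → ℝ, V = fun j : ℕ => (N : ℝ) ^ (σ₀ + j * η) := ⟨_, rfl⟩
  have hsum0 : 0 ≤ ∑ j ∈ range J, max (C j) 0 := sum_nonneg fun j _ => le_max_right _ _
  have hNε : (1 : ℝ) ≤ (N : ℝ) ^ ε := Real.one_le_rpow hN1 hε.le
  have hNs : (1 : ℝ) ≤ (N : ℝ) ^ (2 * σ₀) := Real.one_le_rpow hN1 (by linarith)
  rcases Nat.lt_or_ge N 2 with hN2 | hN2
  · -- `N = 1`
    have hNe : N = 1 := by omega
    have h2 : QF W (Icc N (2 * N)) ez b ≤ ∑ t ∈ W, 4 := by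
      unfold QF
      refine sum_le_sum fun t _ => ?_
      have h3 := trivial_le (N := N) hb t
      have h4 : (N : ℝ) + 1 = 2 := by rw [hNe]; norm_num
      rw [h4] at h3
      calc ‖∑ n ∈ Icc N (2 * N), b n * ez t n‖ ^ 2 ≤ 2 ^ 2 := pow_le_pow_left₀ (norm_nonneg _) h3 2
        _ = 4 := by norm_num
    rw [sum_const, nsmul_eq_mul] at h2
    refine h2.trans ?_
    have hW0 : (0 : ℝ) ≤ W.card := by positivity
    have h3 : (W.card : ℝ) ≤ Y σ₀ ε N W := by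
      unfold Y
      calc (W.card : ℝ) = 1 * (0 + 1 * W.card) := by ring
        _ ≤ _ := by gcongr; positivity
    nlinarith [Y_nonneg σ₀ ε N W]
  have hN2' : (2 : ℝ) ≤ N := by exact_mod_cast hN2
  have htop : ∀ t : ℤ, ‖∑ n ∈ Icc N (2 * N), b n * ez t n‖ ≤ V (J + 1) := by
    intro t
    refine (trivial_le hb t).trans ?_
    rw [hV]
    dsimp only
    calc (N : ℝ) + 1 ≤ (N : ℝ) ^ (2 : ℝ) := by
          rw [Real.rpow_two]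
          nlinarith
      _ ≤ _ := by
          apply Real.rpow_le_rpow_of_exponent_le hN1
          push_cast
          nlinarith
  have h2 : QF W (Icc N (2 * N)) ez b ≤ ∑ t ∈ W, (V 1 ^ 2 + ∑ j ∈ range J,
      (if V (j + 1) < ‖∑ n ∈ Icc N (2 * N), b n * ez t n‖ then V (j + 2) ^ 2 else 0)) := by
    unfold QF
    exact sum_le_sum fun t _ => levels (norm_nonneg _) J (htop t)
  rw [sum_add_distrib, sum_const, nsmul_eq_mul, sum_comm] at h2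
  have h3 : ∀ j ∈ range J, ∑ t ∈ W, (if V (j + 1) < ‖∑ n ∈ Icc N (2 * N), b n * ez t n‖ then V (j + 2) ^ 2 else 0) ≤
      max (C j) 0 * ((N : ℝ) ^ ε * (N : ℝ) ^ 2) := by
    intro j _
    rw [← sum_filter, sum_const, nsmul_eq_mul]
    have h4 := hC j N hN T hNT hTA b hb (W.filter fun t : ℤ => V (j + 1) < ‖∑ n ∈ Icc N (2 * N), b n * ez t n‖)
      (fun t ht => by
        rw [mem_filter] at ht
        refine ⟨(hW t ht.1).1, (hW t ht.1).2, ?_⟩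
        have h5 := ht.2
        rw [hV] at h5
        exact h5)
    have hV2 : 0 ≤ V (j + 2) ^ 2 := by positivity
    calc ((W.filter fun t : ℤ => V (j + 1) < ‖∑ n ∈ Icc N (2 * N), b n * ez t n‖).card : ℝ) * V (j + 2) ^ 2
        ≤ (max (C j) 0 * (N : ℝ) ^ (2 - 2 * (σ₀ + (j + 1 : ℕ) * η) + η)) * V (j + 2) ^ 2 := by
          refine mul_le_mul_of_nonneg_right (h4.trans ?_) hV2
          have := le_max_left (C j) 0
          gcongr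
      _ = max (C j) 0 * ((N : ℝ) ^ (2 + 3 * η)) := by
          rw [hV]
          dsimp only
          rw [← Real.rpow_natCast, ← Real.rpow_mul hN0.le, mul_assoc, ← Real.rpow_add hN0]
          congr 2
          push_cast
          ring
      _ ≤ max (C j) 0 * ((N : ℝ) ^ ε * (N : ℝ) ^ 2) := by
          have h0 := le_max_right (C j) 0
          have h5 : (N : ℝ) ^ (2 + 3 * η) ≤ (N : ℝ) ^ ε * (N : ℝ) ^ 2 := by
            rw [← Real.rpow_natCast (N : ℝ) 2, ← Real.rpow_add hN0]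
            apply Real.rpow_le_rpow_of_exponent_le hN1
            push_cast
            linarith
          gcongr
  have h4 : (W.card : ℝ) * V 1 ^ 2 ≤ (N : ℝ) ^ ε * ((N : ℝ) ^ (2 * σ₀) * W.card) := by
    have h5 : V 1 ^ 2 ≤ (N : ℝ) ^ ε * (N : ℝ) ^ (2 * σ₀) := by
      rw [hV]
      dsimp only
      rw [← Real.rpow_natCast, ← Real.rpow_mul hN0.le, ← Real.rpow_add hN0]
      apply Real.rpow_le_rpow_of_exponent_le hN1
      push_cast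
      linarith
    calc (W.card : ℝ) * V 1 ^ 2 ≤ (W.card : ℝ) * ((N : ℝ) ^ ε * (N : ℝ) ^ (2 * σ₀)) := by gcongr
      _ = _ := by ring
  have h5 := sum_le_sum h3
  rw [← sum_mul] at h5
  have hW0 : (0 : ℝ) ≤ W.card := by positivity
  have h6 : 0 ≤ (N : ℝ) ^ ε * (N : ℝ) ^ 2 := by positivity
  have h7 : 0 ≤ (N : ℝ) ^ ε * ((N : ℝ) ^ (2 * σ₀) * W.card) := by positivity
  have h8 : Y σ₀ ε N W = (N : ℝ) ^ ε * (N : ℝ) ^ 2 + (N : ℝ) ^ ε * ((N : ℝ) ^ (2 * σ₀) * W.card) := by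
    unfold Y; ring
  rw [h8]
  nlinarith [mul_nonneg hsum0 h7]

theorem WF_of_MSQ {σ₀ A : ℝ} (h : MSQ σ₀ A) : WF σ₀ A := by
  intro ε hε
  obtain ⟨C, hC, h1⟩ := h ε hε
  refine ⟨3 * C, by positivity, fun N hN T hNT hTA W hW => ?_⟩
  obtain ⟨p, hp0, hp1, hp⟩ := weights W (Icc N (2 * N)) ez ⟨N, by rw [mem_Icc]; omega⟩ (h1 N hN T hNT hTA W hW)
  exact ⟨p, hp0, hp1, fun b => (hp b).trans (le_of_eq (by ring))⟩

theorem EF_of_WF {σ₀ A : ℝ} (h : WF σ₀ A) : EF σ₀ A := by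
  classical
  intro ε hε
  obtain ⟨C, hC, h1⟩ := h ε hε
  refine ⟨C, hC, fun N hN T hNT hTA W hW K hK => ?_⟩
  obtain ⟨p, hp0, hp1, hp⟩ := h1 N hN T hNT hTA W hW
  have hN0 : (0 : ℝ) < N := by exact_mod_cast hN
  have hK0 : 0 < K := by linarith
  refine ⟨(Icc N (2 * N)).filter (fun n => K / N < p n), filter_subset _ _, ?_, fun b hb => ?_⟩
  · have h2 : ∑ n ∈ (Icc N (2 * N)).filter (fun n => K / N < p n), K / (N : ℝ) ≤ 1 := by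
      rw [← hp1]
      exact (sum_le_sum fun n hn => (mem_filter.1 hn).2.le).trans
        (sum_le_sum_of_subset_of_nonneg (filter_subset _ _) fun n _ _ => hp0 n)
    rw [sum_const, nsmul_eq_mul, mul_div_assoc', div_le_one hN0] at h2
    linarith
  · refine (hp b).trans ?_
    rw [mul_assoc (C * Y σ₀ ε N W)]
    refine mul_le_mul_of_nonneg_left ?_ (mul_nonneg hC.le (Y_nonneg _ _ _ _))
    rw [mul_sum]
    refine sum_le_sum fun n hn => ?_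
    by_cases hB : n ∈ (Icc N (2 * N)).filter (fun n => K / N < p n)
    · rw [hb n hB]
      simp
    · have h3 : p n ≤ K / N := by
        by_contra hcon
        exact hB (mem_filter.2 ⟨hn, not_le.1 hcon⟩)
      gcongr

theorem MSQ_of_EF {σ₀ A : ℝ} (h : EF σ₀ A) : MSQ σ₀ A := by
  classical
  intro ε hε
  obtain ⟨C, hC, h1⟩ := h (ε / 2) (by positivity)
  obtain ⟨C', hC', h2⟩ := log_le (ε := ε / 2) (by positivity)
  refine ⟨C' * 2 ^ (ε / 2) * 2 * C, by positivity, fun N hN T hNT hTA W hW b hb => ?_⟩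
  have hN0 : (0 : ℝ) < N := by exact_mod_cast hN
  obtain ⟨U, hU⟩ : ∃ U : ℤ → ℕ → ℂ, U = fun t n => if n ∈ Icc N (2 * N) then ez t n else 0 := ⟨_, rfl⟩
  have hsub : Icc N (2 * N) ⊆ Icc 1 (2 * N) := by
    intro n hn
    rw [mem_Icc] at hn ⊢
    omega
  have hQF : ∀ a : ℕ → ℂ, QF W (Icc 1 (2 * N)) U a = QF W (Icc N (2 * N)) ez a := by
    intro a
    unfold QF
    refine sum_congr rfl fun t _ => ?_
    congr 2
    rw [hU]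
    simp only [mul_ite, mul_zero]
    rw [← sum_filter]
    congr 1
    ext n
    rw [mem_filter]
    exact ⟨fun h => h.2, fun h => ⟨hsub h, h⟩⟩
  have h3 := bdd_of_exc W U (N := 2 * N) (Q := C * Y σ₀ (ε / 2) N W / N)
    (div_nonneg (mul_nonneg hC.le (Y_nonneg _ _ _ _)) hN0.le)
    (fun K hK => by
      obtain ⟨B, hB1, hB2, hB3⟩ := h1 N hN T hNT hTA W hW K hK
      refine ⟨B, hB1.trans hsub, ?_, fun a ha => ?_⟩
      · push_cast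
        linarith
      · rw [hQF]
        refine (hB3 a ha).trans ?_
        have h4 : ∑ n ∈ Icc N (2 * N), ‖a n‖ ^ 2 ≤ ∑ n ∈ Icc 1 (2 * N), ‖a n‖ ^ 2 :=
          sum_le_sum_of_subset_of_nonneg hsub fun _ _ _ => by positivity
        have h5 : 0 ≤ C * Y σ₀ (ε / 2) N W := mul_nonneg hC.le (Y_nonneg _ _ _ _)
        have hK0 : 0 ≤ K := by linarith
        calc C * Y σ₀ (ε / 2) N W * (K / N) * ∑ n ∈ Icc N (2 * N), ‖a n‖ ^ 2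
            ≤ C * Y σ₀ (ε / 2) N W * (K / N) * ∑ n ∈ Icc 1 (2 * N), ‖a n‖ ^ 2 := by gcongr
          _ = _ := by ring) hb
  rw [hQF] at h3
  refine h3.trans ?_
  have h4 := h2 (2 * N) (by omega)
  have h5 : Y σ₀ ε N W = (N : ℝ) ^ (ε / 2) * Y σ₀ (ε / 2) N W := by
    unfold Y
    rw [← mul_assoc, ← Real.rpow_add hN0, add_halves]
  have h6 : 0 ≤ Y σ₀ (ε / 2) N W := Y_nonneg _ _ _ _
  have h7 : (((2 * N : ℕ) : ℝ)) ^ (ε / 2) = 2 ^ (ε / 2) * (N : ℝ) ^ (ε / 2) := by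
    push_cast
    exact Real.mul_rpow (by norm_num) hN0.le
  rw [h7] at h4
  calc 2 * ((Nat.log 2 (2 * N) : ℝ) + 1) ^ 2 * (C * Y σ₀ (ε / 2) N W / N) * ((2 * N : ℕ) : ℝ)
      ≤ (C' * (2 ^ (ε / 2) * (N : ℝ) ^ (ε / 2))) * (C * Y σ₀ (ε / 2) N W / N) * ((2 * N : ℕ) : ℝ) := by gcongr
    _ = _ := by
        rw [h5]
        push_cast
        field_simp

theorem LV_of_MSQ {σ₀ A : ℝ} (h : MSQ σ₀ A) (σ : ℝ) (hσ : σ₀ < σ) : LV σ A := by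
  classical
  intro ε hε
  obtain ⟨η, hη⟩ : ∃ η : ℝ, η = min ε (σ - σ₀) := ⟨_, rfl⟩
  have hη0 : 0 < η := by rw [hη]; exact lt_min hε (by linarith)
  have hη1 : η ≤ ε := by rw [hη]; exact min_le_left _ _
  have hη2 : η ≤ σ - σ₀ := by rw [hη]; exact min_le_right _ _
  obtain ⟨C, hC, h1⟩ := h η hη0
  obtain ⟨N₁, hN₁⟩ := eventually_atTop.1 (((tendsto_rpow_atTop (show 0 < σ - σ₀ by linarith)).comp
    tendsto_natCast_atTop_atTop).eventually_ge_atTop (2 * C))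
  have key := small_N (A := A) (ρ := 2 - 2 * σ + ε)
    (Q := fun N T W => ∃ (b : ℕ → ℂ), (∀ n, ‖b n‖ ≤ 1) ∧
      (∀ t ∈ W, 0 ≤ (t : ℝ) ∧ (t : ℝ) ≤ T ∧
      (N : ℝ) ^ σ < ‖∑ n ∈ Finset.Icc N (2 * N), b n * e t n‖))
    (fun N T W ⟨b, h1, h2⟩ t ht => ⟨(h2 t ht).1, (h2 t ht).2.1⟩) ?_
  · obtain ⟨C', hC'⟩ := key
    exact ⟨C', fun N hN T hNT hTA b hb W hW => hC' N hN T hNT hTA W ⟨b, hb, hW⟩⟩
  refine ⟨2 * C, N₁, fun N hN hN1 T hNT hTA W ⟨b, hb, hW⟩ => ?_⟩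
  have hN0 : (0 : ℝ) < N := by exact_mod_cast hN1
  have hN1' : (1 : ℝ) ≤ N := by exact_mod_cast hN1
  have h2 : (2 * C : ℝ) ≤ (N : ℝ) ^ (σ - σ₀) := hN₁ N hN
  have h3 := h1 N hN1 T hNT hTA W (fun t ht => ⟨(hW t ht).1, (hW t ht).2.1⟩) b hb
  have h4 : (W.card : ℝ) * ((N : ℝ) ^ σ) ^ 2 ≤ QF W (Icc N (2 * N)) ez b := by
    unfold QF
    rw [← nsmul_eq_mul]
    refine card_nsmul_le_sum _ _ _ fun t ht => ?_
    exact pow_le_pow_left₀ (by positivity) (hW t ht).2.2.le 2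
  have e1 : ((N : ℝ) ^ σ) ^ 2 = (N : ℝ) ^ (2 * σ) := by
    rw [← Real.rpow_natCast, ← Real.rpow_mul hN0.le]
    congr 1
    push_cast
    ring
  rw [e1] at h4
  have h5 : C * ((N : ℝ) ^ η * (N : ℝ) ^ (2 * σ₀)) ≤ (N : ℝ) ^ (2 * σ) / 2 := by
    have h6 : (N : ℝ) ^ η * (N : ℝ) ^ (2 * σ₀) ≤ (N : ℝ) ^ (σ + σ₀) := by
      rw [← Real.rpow_add hN0]
      exact Real.rpow_le_rpow_of_exponent_le hN1' (by linarith)
    have h7 : (2 * C) * (N : ℝ) ^ (σ + σ₀) ≤ (N : ℝ) ^ (2 * σ) := by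
      calc (2 * C) * (N : ℝ) ^ (σ + σ₀) ≤ (N : ℝ) ^ (σ - σ₀) * (N : ℝ) ^ (σ + σ₀) := by gcongr
        _ = _ := by rw [← Real.rpow_add hN0]; congr 1; ring
    have h8 : C * ((N : ℝ) ^ η * (N : ℝ) ^ (2 * σ₀)) ≤ C * (N : ℝ) ^ (σ + σ₀) := by gcongr
    linarith
  have hW0 : (0 : ℝ) ≤ W.card := by positivity
  have h9 : (W.card : ℝ) * (N : ℝ) ^ (2 * σ) ≤ 2 * C * ((N : ℝ) ^ η * (N : ℝ) ^ 2) := by
    have h10 : C * ((N : ℝ) ^ η * (N : ℝ) ^ (2 * σ₀)) * W.card ≤ (N : ℝ) ^ (2 * σ) / 2 * W.card := by gcongr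
    have h11 : C * Y σ₀ η N W = C * ((N : ℝ) ^ η * (N : ℝ) ^ 2) + C * ((N : ℝ) ^ η * (N : ℝ) ^ (2 * σ₀)) * W.card := by
      unfold Y; ring
    rw [h11] at h3
    linarith
  have hNσ : 0 < (N : ℝ) ^ (2 * σ) := by positivity
  have h12 : (N : ℝ) ^ η * (N : ℝ) ^ 2 ≤ (N : ℝ) ^ (2 * σ) * (N : ℝ) ^ (2 - 2 * σ + ε) := by
    rw [← Real.rpow_natCast (N : ℝ) 2, ← Real.rpow_add hN0, ← Real.rpow_add hN0]
    apply Real.rpow_le_rpow_of_exponent_le hN1'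
    push_cast
    linarith
  refine le_of_mul_le_mul_left ?_ hNσ
  calc (N : ℝ) ^ (2 * σ) * (W.card : ℝ) = (W.card : ℝ) * (N : ℝ) ^ (2 * σ) := mul_comm _ _
    _ ≤ 2 * C * ((N : ℝ) ^ η * (N : ℝ) ^ 2) := h9
    _ ≤ 2 * C * ((N : ℝ) ^ (2 * σ) * (N : ℝ) ^ (2 - 2 * σ + ε)) := by gcongr
    _ = _ := by ring

end Pool.Agent.TH804.GZ
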