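import Mathlib

/-!
Dirichlet series `f = g h` with absolutely summable coefficients and `|g| = |h|` on the line
-/

set_option autoImplicit false

open Finset

namespace Pool.Agent.TH804.HM

/-- the arithmetic function `p^j ↦ c_j`, zero elsewhere -/
noncomputable def emb (p : ℕ) (c : ℕ → ℂ) : ArithmeticFunction ℂ :=
  ⟨fun n => if n = p ^ Nat.log p n then c (Nat.log p n) else 0, by simp⟩

lemma emb_apply (p : ℕ) (c : ℕ → ℂ) (n : ℕ) :
    emb p c n = if n = p ^ Nat.log p n then c (Nat.log p n) else 0 := rfl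

lemma emb_pow {p : ℕ} (hp : 2 ≤ p) (c : ℕ → ℂ) (j : ℕ) : emb p c (p ^ j) = c j := by
  rw [emb_apply, Nat.log_pow (by omega), if_pos rfl]

lemma emb_ne {p : ℕ} (c : ℕ → ℂ) {n : ℕ} (h : ∀ j, n ≠ p ^ j) : emb p c n = 0 := by
  rw [emb_apply, if_neg (h _)]

/-- Cauchy product -/
def cp (c d : ℕ → ℂ) (n : ℕ) : ℂ := ∑ j ∈ range (n + 1), c j * d (n - j)

lemma emb_mul {p : ℕ} (hp : 2 ≤ p) (c d : ℕ → ℂ) : emb p c * emb p d = emb p (cp c d) := by
  classical
  have hinj : Function.Injective fun j : ℕ => p ^ j := Nat.pow_right_injective hp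
  have hp0 : 0 < p := by omega
  ext n
  by_cases h : ∃ k, n = p ^ k
  · obtain ⟨k, rfl⟩ := h
    rw [emb_pow hp, ArithmeticFunction.mul_apply]
    unfold cp
    have h1 : ∑ j ∈ range (k + 1), c j * d (k - j) =
        ∑ x ∈ (range (k + 1)).image (fun j => (p ^ j, p ^ (k - j))), emb p c x.1 * emb p d x.2 := by
      rw [sum_image]
      · refine sum_congr rfl fun j _ => ?_
        rw [emb_pow hp, emb_pow hp]
      · intro i _ j _ hij
        exact hinj (Prod.ext_iff.1 hij).1
    rw [h1]
    symm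
    refine sum_subset ?_ ?_
    · intro x hx
      rw [mem_image] at hx
      obtain ⟨j, hj, rfl⟩ := hx
      rw [mem_range] at hj
      rw [Nat.mem_divisorsAntidiagonal]
      refine ⟨?_, (pow_pos hp0 k).ne'⟩
      dsimp only
      rw [← pow_add]
      congr 1
      omega
    · intro x hx hx'
      rw [Nat.mem_divisorsAntidiagonal] at hx
      by_contra h0
      have h2 : ∃ i, x.1 = p ^ i := by
        by_contra h2
        push Not at h2
        rw [emb_ne _ h2, zero_mul] at h0
        exact h0 rfl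
      have h3 : ∃ i, x.2 = p ^ i := by
        by_contra h2
        push Not at h2
        rw [emb_ne _ h2, mul_zero] at h0
        exact h0 rfl
      obtain ⟨i, hi⟩ := h2
      obtain ⟨j, hj⟩ := h3
      have h4 : i + j = k := by
        apply hinj
        dsimp only
        rw [pow_add, ← hi, ← hj]
        exact hx.1
      apply hx'
      rw [mem_image]
      refine ⟨i, mem_range.2 (by omega), Prod.ext hi.symm ?_⟩
      dsimp only
      rw [hj]
      congr 1
      omega
  · push Not at h
    rw [emb_ne _ h, ArithmeticFunction.mul_apply]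
    refine sum_eq_zero fun x hx => ?_
    rw [Nat.mem_divisorsAntidiagonal] at hx
    by_contra h0
    have h1 : ∃ i, x.1 = p ^ i := by
      by_contra h2
      push Not at h2
      rw [emb_ne _ h2, zero_mul] at h0
      exact h0 rfl
    have h2 : ∃ i, x.2 = p ^ i := by
      by_contra h2
      push Not at h2
      rw [emb_ne _ h2, mul_zero] at h0
      exact h0 rfl
    obtain ⟨i, hi⟩ := h1
    obtain ⟨j, hj⟩ := h2
    refine h (i + j) ?_
    rw [← hx.1, hi, hj, pow_add]

/-- unit -/
def one (n : ℕ) : ℂ := if n = 0 then 1 else 0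

lemma emb_one {p : ℕ} (hp : 2 ≤ p) : emb p one = 1 := by
  ext n
  by_cases h : ∃ k, n = p ^ k
  · obtain ⟨k, rfl⟩ := h
    rw [emb_pow hp]
    unfold one
    rcases Nat.eq_zero_or_pos k with h0 | h0
    · rw [h0]; simp
    · rw [if_neg (by omega), ArithmeticFunction.one_apply_ne]
      have := Nat.one_lt_pow (show k ≠ 0 by omega) (show 1 < p by omega)
      omega
  · push Not at h
    rw [emb_ne _ h, ArithmeticFunction.one_apply_ne]
    intro h1
    exact h 0 (by rw [h1, pow_zero])

/-- absolute summability -/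
def Abs (f : ArithmeticFunction ℂ) : Prop := LSeriesSummable (fun n => f n) 0

lemma abs_iff (f : ArithmeticFunction ℂ) : Abs f ↔ Summable fun n => ‖f n‖ := by
  unfold Abs LSeriesSummable
  have : LSeries.term (fun n => f n) 0 = fun n => f n := by
    funext n
    rw [LSeries.term_def]
    split_ifs with h
    · rw [h]; simp
    · simp
  rw [this, summable_norm_iff]

lemma Abs.at {f : ArithmeticFunction ℂ} (h : Abs f) (t : ℝ) :
    LSeriesSummable (fun n => f n) (2 * Real.pi * Complex.I * t) :=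
  LSeriesSummable.of_re_le_re (by simp) h

lemma Abs.mul {f g : ArithmeticFunction ℂ} (hf : Abs f) (hg : Abs g) : Abs (f * g) :=
  ArithmeticFunction.LSeriesSummable_mul hf hg

lemma emb_abs {p : ℕ} (hp : 2 ≤ p) {c : ℕ → ℂ} (hc : Summable fun n => ‖c n‖) : Abs (emb p c) := by
  rw [abs_iff]
  have hinj : Function.Injective fun j : ℕ => p ^ j := Nat.pow_right_injective hp
  rw [← hinj.summable_iff]
  · refine hc.congr fun j => ?_
    rw [Function.comp_apply, emb_pow hp]
  · intro n hn
    rw [emb_ne, norm_zero]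
    intro j hj
    exact hn ⟨j, hj.symm⟩

/-- the Dirichlet series on the line -/
noncomputable def LS (f : ArithmeticFunction ℂ) (t : ℝ) : ℂ := LSeries (fun n => f n) (2 * Real.pi * Complex.I * t)

lemma LS_mul {f g : ArithmeticFunction ℂ} (hf : Abs f) (hg : Abs g) (t : ℝ) : LS (f * g) t = LS f t * LS g t :=
  ArithmeticFunction.LSeries_mul' (hf.at t) (hg.at t)

/-- `p^{-2πit}` -/
noncomputable def z (p : ℕ) (t : ℝ) : ℂ := ((p : ℂ) ^ (2 * Real.pi * Complex.I * t : ℂ))⁻¹

lemma norm_z {p : ℕ} (hp : 2 ≤ p) (t : ℝ) : ‖z p t‖ = 1 := by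
  unfold z
  rw [norm_inv, Complex.norm_natCast_cpow_of_pos (by omega)]
  simp

lemma LS_emb {p : ℕ} (hp : 2 ≤ p) (c : ℕ → ℂ) (t : ℝ) : LS (emb p c) t = ∑' j, c j * z p t ^ j := by
  unfold LS LSeries
  have hinj : Function.Injective fun j : ℕ => p ^ j := Nat.pow_right_injective hp
  rw [← hinj.tsum_eq]
  · refine tsum_congr fun j => ?_
    rw [LSeries.term_def, if_neg (pow_pos (show 0 < p by omega) j).ne', emb_pow hp, div_eq_mul_inv]
    congr 1
    unfold z
    push_cast
    rw [← Complex.natCast_cpow_natCast_mul, Complex.cpow_nat_mul, inv_pow]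
  · intro n hn
    rw [Function.mem_support, LSeries.term_def] at hn
    by_contra h
    apply hn
    rw [emb_ne]
    · simp
    · intro j hj
      exact h ⟨j, hj.symm⟩

/-! ### the square root of `1 - x` -/

/-- coefficients of `(1 - x)^{1/2}` -/
noncomputable def sq : ℕ → ℂ
  | 0 => 1
  | n + 1 => -(((catalan n : ℝ) / (2 * 4 ^ n) : ℝ) : ℂ)

lemma sq_norm (n : ℕ) : ‖sq (n + 1)‖ = (n.centralBinom : ℝ) / 4 ^ n - ((n + 1).centralBinom : ℝ) / 4 ^ (n + 1) := by
  have h1 : ((n : ℝ) + 1) * ((n + 1).centralBinom : ℝ) = 2 * (2 * n + 1) * n.centralBinom := by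
    exact_mod_cast Nat.succ_mul_centralBinom_succ n
  have h2 : ((n : ℝ) + 1) * (catalan n : ℝ) = n.centralBinom := by
    exact_mod_cast succ_mul_catalan_eq_centralBinom n
  have h3 : ‖sq (n + 1)‖ = (catalan n : ℝ) / (2 * 4 ^ n) := by
    unfold sq
    rw [norm_neg, Complex.norm_real, Real.norm_of_nonneg (by positivity)]
  rw [h3, pow_succ]
  have h4 : (0 : ℝ) < (n : ℝ) + 1 := by positivity
  have h5 : ((n + 1).centralBinom : ℝ) = 2 * (2 * n + 1) * catalan n := by
    have : ((n : ℝ) + 1) * ((n + 1).centralBinom : ℝ) = ((n : ℝ) + 1) * (2 * (2 * n + 1) * catalan n) := by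
      rw [h1, ← h2]; ring
    exact mul_left_cancel₀ h4.ne' this
  rw [h5, ← h2]
  field_simp
  ring

lemma sq_summable : Summable fun n => ‖sq n‖ := by
  rw [← summable_nat_add_iff 1]
  refine summable_of_sum_range_le (c := 1) (fun n => norm_nonneg _) fun n => ?_
  simp_rw [sq_norm]
  rw [Finset.sum_range_sub']
  have : (0 : ℝ) ≤ (n.centralBinom : ℝ) / 4 ^ n := by positivity
  simp
  exact this

/-- `c_j w^j` -/
def tw (w : ℂ) (c : ℕ → ℂ) (n : ℕ) : ℂ := c n * w ^ n

lemma tw_summable {w : ℂ} (hw : ‖w‖ ≤ 1) {c : ℕ → ℂ} (hc : Summable fun n => ‖c n‖) : Summable fun n => ‖tw w c n‖ := by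
  refine Summable.of_nonneg_of_le (fun n => norm_nonneg _) (fun n => ?_) hc
  unfold tw
  rw [norm_mul, norm_pow]
  exact mul_le_of_le_one_right (norm_nonneg _) (pow_le_one₀ (norm_nonneg _) hw)

lemma cp_tw (w : ℂ) (c d : ℕ → ℂ) : cp (tw w c) (tw w d) = tw w (cp c d) := by
  funext n
  unfold cp tw
  rw [sum_mul]
  refine sum_congr rfl fun j hj => ?_
  rw [mem_range] at hj
  have : w ^ n = w ^ j * w ^ (n - j) := by rw [← pow_add]; congr 1; omega
  rw [this]
  ring

/-- `1 - x` -/
def lin (n : ℕ) : ℂ := if n = 0 then 1 else if n = 1 then -1 else 0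

lemma cp_sq : cp sq sq = lin := by
  funext n
  unfold cp lin
  match n with
  | 0 => simp [sq]
  | 1 => simp [sum_range_succ, sq]; norm_num
  | n + 2 =>
    rw [if_neg (by omega), if_neg (by omega), sum_range_succ, sum_range_succ']
    have h1 : ∑ k ∈ range (n + 1), sq (k + 1) * sq (n + 2 - (k + 1)) =
        (((catalan (n + 1) : ℝ) / (4 * 4 ^ n) : ℝ) : ℂ) := by
      rw [catalan_succ', Finset.Nat.sum_antidiagonal_eq_sum_range_succ (fun i j => catalan i * catalan j)]
      push_cast
      rw [sum_div]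
      refine sum_congr rfl fun k hk => ?_
      rw [mem_range] at hk
      have e : n + 1 - k = (n - k) + 1 := by omega
      rw [e]
      unfold sq
      push_cast
      have e2 : (4 : ℂ) ^ n = 4 ^ k * 4 ^ (n - k) := by rw [← pow_add]; congr 1; omega
      rw [e2]
      field_simp
      ring
    rw [h1]
    have e3 : n + 2 - (n + 1 + 1) = 0 := by omega
    have e4 : n + 2 - 0 = (n + 1) + 1 := by omega
    have e5 : n + 1 + 1 = (n + 1) + 1 := rfl
    rw [e3, e4]
    simp only [sq]
    push_cast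
    rw [pow_succ]
    field_simp
    ring

/-! ### good functions -/

/-- `f = g h` with `|g| = |h|` on the line -/
def Good (f : ArithmeticFunction ℂ) : Prop := ∃ g h : ArithmeticFunction ℂ, Abs g ∧ Abs h ∧ f = g * h ∧
  ∀ t : ℝ, ‖LS g t‖ = ‖LS h t‖

lemma Good.mul {f₁ f₂ : ArithmeticFunction ℂ} (h₁ : Good f₁) (h₂ : Good f₂) : Good (f₁ * f₂) := by
  obtain ⟨g₁, k₁, a₁, b₁, rfl, c₁⟩ := h₁
  obtain ⟨g₂, k₂, a₂, b₂, rfl, c₂⟩ := h₂
  refine ⟨g₁ * g₂, k₁ * k₂, a₁.mul a₂, b₁.mul b₂, by ring, fun t => ?_⟩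
  rw [LS_mul a₁ a₂, LS_mul b₁ b₂, norm_mul, norm_mul, c₁, c₂]

lemma finite_summable {c : ℕ → ℂ} {N : ℕ} (h : ∀ n, N ≤ n → c n = 0) : Summable fun n => ‖c n‖ :=
  summable_of_ne_finset_zero (s := range N) fun n hn => by
    rw [mem_range, not_lt] at hn
    rw [h n hn, norm_zero]

/-- the sequence `(α, β, 0, …)` -/
def two (α β : ℂ) (n : ℕ) : ℂ := if n = 0 then α else if n = 1 then β else 0

lemma two_summable (α β : ℂ) : Summable fun n => ‖two α β n‖ :=
  finite_summable (N := 2) fun n hn => by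
    unfold two
    rw [if_neg (by omega), if_neg (by omega)]

lemma LS_two {p : ℕ} (hp : 2 ≤ p) (α β : ℂ) (t : ℝ) : LS (emb p (two α β)) t = α + β * z p t := by
  rw [LS_emb hp, tsum_eq_sum (s := range 2)]
  · simp [sum_range_succ, two]
  · intro n hn
    rw [mem_range, not_lt] at hn
    unfold two
    rw [if_neg (by omega), if_neg (by omega), zero_mul]

lemma tw_lin (w : ℂ) : tw w lin = two 1 (-w) := by
  funext n
  unfold tw lin two
  split_ifs with h1 h2
  · rw [h1]; simp
  · rw [h2]; simp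
  · simp

/-- `1 - w z`, `|w| ≤ 1` -/
lemma good_one_sub {p : ℕ} (hp : 2 ≤ p) {w : ℂ} (hw : ‖w‖ ≤ 1) : Good (emb p (two 1 (-w))) := by
  refine ⟨emb p (tw w sq), emb p (tw w sq), emb_abs hp (tw_summable hw sq_summable),
    emb_abs hp (tw_summable hw sq_summable), ?_, fun t => rfl⟩
  rw [emb_mul hp, cp_tw, cp_sq, tw_lin]

/-- constants -/
lemma good_const {p : ℕ} (hp : 2 ≤ p) (c : ℂ) : Good (emb p (two c 0)) := by
  obtain ⟨s, hs⟩ := IsAlgClosed.exists_pow_nat_eq c (show 0 < 2 by norm_num)
  refine ⟨emb p (two s 0), emb p (two s 0), emb_abs hp (two_summable _ _), emb_abs hp (two_summable _ _), ?_,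
    fun t => rfl⟩
  rw [emb_mul hp]
  congr 1
  funext n
  unfold cp two
  split_ifs with h1 h2
  · rw [h1]; simp [← hs]; ring
  · rw [h2]; simp [sum_range_succ]
  · symm
    refine sum_eq_zero fun j hj => ?_
    by_cases h3 : j = 0
    · rw [if_pos h3, if_neg (by omega)]
      split_ifs <;> simp
    · rw [if_neg h3]
      split_ifs <;> simp

/-- geometric series -/
def geo (w : ℂ) (n : ℕ) : ℂ := w ^ n

lemma cp_geo (w : ℂ) : cp (two 1 (-w)) (geo w) = one := by
  funext n
  unfold cp two geo one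
  match n with
  | 0 => simp
  | n + 1 =>
    rw [sum_range_succ', sum_range_succ']
    simp
    rw [pow_succ]
    ring

/-- `z - r`, `|r| < 1` -/
lemma good_sub {p : ℕ} (hp : 2 ≤ p) {r : ℂ} (hr : ‖r‖ < 1) : Good (emb p (two (-r) 1)) := by
  obtain ⟨w, hw⟩ : ∃ w : ℂ, w = (starRingEnd ℂ) r := ⟨_, rfl⟩
  have hw1 : ‖w‖ < 1 := by rw [hw, Complex.norm_conj]; exact hr
  have hg : Abs (emb p (tw w sq)) := emb_abs hp (tw_summable hw1.le sq_summable)
  have ha : Abs (emb p (two (-r) 1)) := emb_abs hp (two_summable _ _)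
  have hb : Abs (emb p (two 1 (-w))) := emb_abs hp (two_summable _ _)
  have hgeo : Abs (emb p (geo w)) := emb_abs hp (by
    unfold geo
    simp only [norm_pow]
    exact summable_geometric_of_lt_one (norm_nonneg _) hw1)
  have e1 : emb p (tw w sq) * emb p (tw w sq) = emb p (two 1 (-w)) := by rw [emb_mul hp, cp_tw, cp_sq, tw_lin]
  have e2 : emb p (two 1 (-w)) * emb p (geo w) = 1 := by rw [emb_mul hp, cp_geo, emb_one hp]
  refine ⟨emb p (tw w sq), emb p (two (-r) 1) * emb p (tw w sq) * emb p (geo w), hg, (ha.mul hg).mul hgeo, ?_,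
    fun t => ?_⟩
  · calc emb p (two (-r) 1) = emb p (two (-r) 1) * (emb p (two 1 (-w)) * emb p (geo w)) := by rw [e2, mul_one]
      _ = _ := by rw [← e1]; ring
  · rw [LS_mul (ha.mul hg) hgeo, LS_mul ha hg, norm_mul, norm_mul]
    have e3 : LS (emb p (two 1 (-w))) t * LS (emb p (geo w)) t = 1 := by
      rw [← LS_mul hb hgeo, e2, ← emb_one hp, LS_emb hp, tsum_eq_single 0]
      · simp [one]
      · intro n hn
        simp [one, hn]
    rw [LS_two hp] at e3
    rw [LS_two hp]
    have hz := norm_z hp t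
    have e4 : ‖-r + 1 * z p t‖ = ‖1 + -w * z p t‖ := by
      have h1 : z p t * (starRingEnd ℂ) (z p t) = 1 := by
        rw [Complex.mul_conj, Complex.normSq_eq_norm_sq, hz]; simp
      have h2 : -r + 1 * z p t = z p t * (starRingEnd ℂ) (1 + -w * z p t) := by
        rw [map_add, map_mul, map_neg, map_one, hw, Complex.conj_conj]
        linear_combination r * h1
      rw [h2, norm_mul, hz, one_mul, Complex.norm_conj]
    have e5 : ‖1 + -w * z p t‖ * ‖LS (emb p (geo w)) t‖ = 1 := by rw [← norm_mul, e3, norm_one]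
    rw [e4]
    linear_combination (-‖LS (emb p (tw w sq)) t‖) * e5

lemma emb_coeff_mul {p : ℕ} (hp : 2 ≤ p) (P Q : Polynomial ℂ) :
    emb p (P * Q).coeff = emb p P.coeff * emb p Q.coeff := by
  rw [emb_mul hp]
  congr 1
  funext n
  unfold cp
  rw [Polynomial.coeff_mul, Finset.Nat.sum_antidiagonal_eq_sum_range_succ (fun i j => P.coeff i * Q.coeff j)]

lemma coeff_C_eq (c : ℂ) : (Polynomial.C c).coeff = two c 0 := by
  funext n
  unfold two
  rw [Polynomial.coeff_C]
  split_ifs <;> rfl

lemma coeff_X_sub (r : ℂ) : (Polynomial.X - Polynomial.C r).coeff = two (-r) 1 := by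
  funext n
  unfold two
  rw [Polynomial.coeff_sub, Polynomial.coeff_C, Polynomial.coeff_X]
  split_ifs <;> first | omega | simp

/-- polynomials in `p^{-s}` are good -/
theorem good_poly {p : ℕ} (hp : 2 ≤ p) : ∀ (n : ℕ) (Q : Polynomial ℂ), Q.natDegree = n → Good (emb p Q.coeff) := by
  intro n
  induction n with
  | zero =>
    intro Q hQ
    rw [Polynomial.eq_C_of_natDegree_eq_zero hQ, coeff_C_eq]
    exact good_const hp _
  | succ n ih =>
    intro Q hQ
    obtain ⟨r, hr⟩ := IsAlgClosed.exists_root Q (by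
      intro h
      have h1 : Q.natDegree = 0 := Polynomial.natDegree_eq_of_degree_eq_some h
      rw [hQ] at h1
      exact Nat.succ_ne_zero n h1)
    have h1 := Polynomial.mul_divByMonic_eq_iff_isRoot.2 hr
    have h2 : (Q /ₘ (Polynomial.X - Polynomial.C r)).natDegree = n := by
      rw [Polynomial.natDegree_divByMonic _ (Polynomial.monic_X_sub_C r), Polynomial.natDegree_X_sub_C, hQ]
      rfl
    rw [← h1, emb_coeff_mul hp]
    refine Good.mul ?_ (ih _ h2)
    rw [coeff_X_sub]
    rcases lt_or_ge ‖r‖ 1 with h3 | h3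
    · exact good_sub hp h3
    · have hr0 : r ≠ 0 := by
        intro h
        rw [h, norm_zero] at h3
        linarith
      have h4 : emb p (two (-r) 1) = emb p (two (-r) 0) * emb p (two 1 (-(r⁻¹))) := by
        rw [emb_mul hp]
        congr 1
        funext n
        unfold cp two
        match n with
        | 0 => simp
        | 1 => simp [sum_range_succ, hr0]
        | n + 2 =>
          rw [if_neg (by omega), if_neg (by omega)]
          symm
          refine sum_eq_zero fun j hj => ?_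
          by_cases h5 : j = 0
          · rw [if_pos h5, if_neg (by omega), if_neg (by omega), mul_zero]
          · rw [if_neg h5]
            split_ifs <;> simp
      rw [h4]
      refine Good.mul (good_const hp _) (good_one_sub hp ?_)
      rw [norm_inv]
      exact inv_le_one_of_one_le₀ h3

end Pool.Agent.TH804.HM
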