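import Pool.Agent.TH804.HM1

/-!
Parseval and Helson's inequality for good functions
-/

set_option autoImplicit false

open Finset Filter Topology MeasureTheory

namespace Pool.Agent.TH804.HM

lemma term_eq (g : ArithmeticFunction ℂ) (t : ℝ) (n : ℕ) :
    LSeries.term (fun n => g n) (2 * Real.pi * Complex.I * t) n =
      g n * Complex.exp (-(2 * Real.pi * Complex.I * (Real.log n : ℂ)) * t) := by
  rw [LSeries.term_def]
  split_ifs with h
  · rw [h]; simp
  · rw [Complex.cpow_def_of_ne_zero (by exact_mod_cast h), div_eq_mul_inv, ← Complex.exp_neg, ← Complex.natCast_log]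
    congr 2
    ring

/-- the frequencies -/
noncomputable def fr (n m : ℕ) : ℂ := -(2 * Real.pi * Complex.I * ((Real.log n - Real.log m : ℝ) : ℂ))

lemma norm_exp_fr (n m : ℕ) (t : ℝ) : ‖Complex.exp (fr n m * t)‖ = 1 := by
  have : fr n m * t = ((-(2 * Real.pi * (Real.log n - Real.log m) * t) : ℝ) : ℂ) * Complex.I := by
    unfold fr; push_cast; ring
  rw [this, Complex.norm_exp_ofReal_mul_I]

lemma norm_sq_eq {g : ArithmeticFunction ℂ} (hg : Abs g) (t : ℝ) :
    HasSum (fun x : ℕ × ℕ => g x.1 * (starRingEnd ℂ) (g x.2) * Complex.exp (fr x.1 x.2 * t)) ((‖LS g t‖ ^ 2 : ℝ) : ℂ) := by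
  have h1 : Summable fun n => ‖LSeries.term (fun n => g n) (2 * Real.pi * Complex.I * t) n‖ :=
    summable_norm_iff.2 (hg.at t)
  have h2 : Summable fun n => ‖(starRingEnd ℂ) (LSeries.term (fun n => g n) (2 * Real.pi * Complex.I * t) n)‖ := by
    simpa only [Complex.norm_conj] using h1
  have h3 := tsum_mul_tsum_of_summable_norm h1 h2
  have h4 := summable_mul_of_summable_norm h1 h2
  have h5 : ((‖LS g t‖ ^ 2 : ℝ) : ℂ) = LS g t * (starRingEnd ℂ) (LS g t) := by
    rw [Complex.mul_conj, Complex.normSq_eq_norm_sq]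
  have h6 : (starRingEnd ℂ) (LS g t) = ∑' n, (starRingEnd ℂ) (LSeries.term (fun n => g n) (2 * Real.pi * Complex.I * t) n) := by
    unfold LS LSeries
    rw [Complex.conj_tsum]
  have h7 : LS g t = ∑' n, LSeries.term (fun n => g n) (2 * Real.pi * Complex.I * t) n := rfl
  rw [h5, h6, h7, h3]
  have h8 : (fun x : ℕ × ℕ => g x.1 * (starRingEnd ℂ) (g x.2) * Complex.exp (fr x.1 x.2 * t)) = fun x : ℕ × ℕ =>
      LSeries.term (fun n => g n) (2 * Real.pi * Complex.I * t) x.1 *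
        (starRingEnd ℂ) (LSeries.term (fun n => g n) (2 * Real.pi * Complex.I * t) x.2) := by
    funext x
    rw [term_eq, term_eq, map_mul, ← Complex.exp_conj]
    have e : fr x.1 x.2 * t = -(2 * Real.pi * Complex.I * (Real.log x.1 : ℂ)) * t +
        (starRingEnd ℂ) (-(2 * Real.pi * Complex.I * (Real.log x.2 : ℂ)) * t) := by
      unfold fr
      simp only [map_mul, map_neg, Complex.conj_ofReal, Complex.conj_I, map_ofNat]
      push_cast
      ring
    rw [e, Complex.exp_add]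
    ring
  rw [h8]
  exact h4.hasSum

/-- the mean of `exp (fr n m t)` -/
noncomputable def mn (n m : ℕ) (T : ℝ) : ℂ := ((1 / T : ℝ) : ℂ) * ∫ t in (-T / 2)..(T / 2), Complex.exp (fr n m * t)

lemma mn_le (n m : ℕ) {T : ℝ} (hT : 0 < T) : ‖mn n m T‖ ≤ 1 := by
  unfold mn
  rw [norm_mul, Complex.norm_real, Real.norm_of_nonneg (by positivity)]
  have h1 : ‖∫ t in (-T / 2)..(T / 2), Complex.exp (fr n m * t)‖ ≤ 1 * |T / 2 - -T / 2| :=
    intervalIntegral.norm_integral_le_of_norm_le_const fun t _ => by rw [norm_exp_fr]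
  have h2 : |T / 2 - -T / 2| = T := by
    rw [show T / 2 - -T / 2 = T by ring, abs_of_pos hT]
  rw [h2, one_mul] at h1
  calc 1 / T * ‖∫ t in (-T / 2)..(T / 2), Complex.exp (fr n m * t)‖ ≤ 1 / T * T := by gcongr
    _ = 1 := by field_simp

lemma mn_same (n : ℕ) : Tendsto (mn n n) atTop (𝓝 1) := by
  refine tendsto_const_nhds.congr' ?_
  filter_upwards [eventually_gt_atTop 0] with T hT
  unfold mn
  have h1 : ∀ t : ℝ, Complex.exp (fr n n * t) = 1 := fun t => by
    unfold fr; simp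
  simp_rw [h1]
  rw [intervalIntegral.integral_const]
  have : (T : ℂ) ≠ 0 := by exact_mod_cast hT.ne'
  rw [show T / 2 - -T / 2 = T by ring]
  simp [this]

lemma mn_ne {n m : ℕ} (hn : n ≠ 0) (hm : m ≠ 0) (h : n ≠ m) : Tendsto (mn n m) atTop (𝓝 0) := by
  have hfr : fr n m ≠ 0 := by
    unfold fr
    have h1 : Real.log n - Real.log m ≠ 0 := by
      intro h0
      have h2 : Real.log n = Real.log m := by linarith
      have hn0 : (0 : ℝ) < n := by exact_mod_cast Nat.pos_of_ne_zero hn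
      have hm0 : (0 : ℝ) < m := by exact_mod_cast Nat.pos_of_ne_zero hm
      exact h (by exact_mod_cast Real.log_injOn_pos hn0 hm0 h2)
    have h2 : ((Real.log n - Real.log m : ℝ) : ℂ) ≠ 0 := by exact_mod_cast h1
    have h3 : (Real.pi : ℂ) ≠ 0 := by exact_mod_cast Real.pi_ne_zero
    simp only [neg_ne_zero]
    exact mul_ne_zero (mul_ne_zero (mul_ne_zero two_ne_zero h3) Complex.I_ne_zero) h2
  have hpos : 0 < ‖fr n m‖ := norm_pos_iff.2 hfr
  rw [tendsto_zero_iff_norm_tendsto_zero]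
  have h1 : Tendsto (fun T : ℝ => 2 / ‖fr n m‖ * T⁻¹) atTop (𝓝 0) := by
    have := tendsto_inv_atTop_zero (𝕜 := ℝ)
    simpa using this.const_mul (2 / ‖fr n m‖)
  refine squeeze_zero' (Eventually.of_forall fun T => norm_nonneg _) ?_ h1
  filter_upwards [eventually_gt_atTop 0] with T hT
  unfold mn
  rw [norm_mul, Complex.norm_real, Real.norm_of_nonneg (by positivity), integral_exp_mul_complex hfr, norm_div]
  have h2 : ‖Complex.exp (fr n m * ((T / 2 : ℝ) : ℂ)) - Complex.exp (fr n m * ((-T / 2 : ℝ) : ℂ))‖ ≤ 2 := by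
    refine (norm_sub_le _ _).trans ?_
    rw [norm_exp_fr, norm_exp_fr]
    norm_num
  calc 1 / T * (‖Complex.exp (fr n m * ((T / 2 : ℝ) : ℂ)) - Complex.exp (fr n m * ((-T / 2 : ℝ) : ℂ))‖ / ‖fr n m‖)
      ≤ 1 / T * (2 / ‖fr n m‖) := by gcongr
    _ = _ := by ring

/-- Parseval -/
theorem parseval {g : ArithmeticFunction ℂ} (hg : Abs g) :
    Tendsto (fun T : ℝ => (1 / T) * ∫ t in (-T / 2)..(T / 2), ‖LS g t‖ ^ 2) atTop (𝓝 (∑' n, ‖g n‖ ^ 2)) := by
  have hs : Summable fun n => ‖g n‖ := (abs_iff g).1 hg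
  have hb : Summable fun x : ℕ × ℕ => ‖g x.1‖ * ‖g x.2‖ :=
    summable_mul_of_summable_norm (f := fun n => ‖g n‖) (g := fun n => ‖g n‖) (by simpa only [norm_norm] using hs)
      (by simpa only [norm_norm] using hs)
  have h1 : ∀ T : ℝ, (((1 / T) * ∫ t in (-T / 2)..(T / 2), ‖LS g t‖ ^ 2 : ℝ) : ℂ) =
      ∑' x : ℕ × ℕ, g x.1 * (starRingEnd ℂ) (g x.2) * mn x.1 x.2 T := by
    intro T
    have h2 := intervalIntegral.hasSum_integral_of_dominated_convergence (a := -T / 2) (b := T / 2) (μ := volume)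
      (F := fun (x : ℕ × ℕ) (t : ℝ) => g x.1 * (starRingEnd ℂ) (g x.2) * Complex.exp (fr x.1 x.2 * t))
      (f := fun t => ((‖LS g t‖ ^ 2 : ℝ) : ℂ)) (fun x _ => ‖g x.1‖ * ‖g x.2‖)
      (fun x => (by fun_prop : Continuous fun t : ℝ => g x.1 * (starRingEnd ℂ) (g x.2) * Complex.exp (fr x.1 x.2 * t)).aestronglyMeasurable)
      (fun x => Eventually.of_forall fun t _ => by
        rw [norm_mul, norm_mul, norm_exp_fr, Complex.norm_conj, mul_one])
      (Eventually.of_forall fun t _ => hb) (by simp)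
      (Eventually.of_forall fun t _ => norm_sq_eq hg t)
    rw [intervalIntegral.integral_ofReal] at h2
    rw [Complex.ofReal_mul, ← h2.tsum_eq, ← tsum_mul_left]
    refine tsum_congr fun x => ?_
    rw [intervalIntegral.integral_const_mul]
    unfold mn
    ring
  have h2 : Tendsto (fun T : ℝ => ∑' x : ℕ × ℕ, g x.1 * (starRingEnd ℂ) (g x.2) * mn x.1 x.2 T) atTop
      (𝓝 (∑' x : ℕ × ℕ, if x.1 = x.2 then ((‖g x.1‖ ^ 2 : ℝ) : ℂ) else 0)) := by
    refine tendsto_tsum_of_dominated_convergence hb (fun x => ?_) ?_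
    · split_ifs with h
      · have h3 := (mn_same x.1).const_mul (g x.1 * (starRingEnd ℂ) (g x.1))
        rw [mul_one, Complex.mul_conj, Complex.normSq_eq_norm_sq] at h3
        rw [← h]
        exact h3.congr fun T => by rw [Complex.mul_conj, Complex.normSq_eq_norm_sq]
      · by_cases hx1 : x.1 = 0
        · rw [hx1]; simp
        by_cases hx2 : x.2 = 0
        · rw [hx2]; simp
        have h3 := (mn_ne hx1 hx2 h).const_mul (g x.1 * (starRingEnd ℂ) (g x.2))
        rwa [mul_zero] at h3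
    · filter_upwards [eventually_gt_atTop 0] with T hT x
      rw [norm_mul, norm_mul, Complex.norm_conj]
      exact mul_le_of_le_one_right (by positivity) (mn_le _ _ hT)
  have h3 : ∑' x : ℕ × ℕ, (if x.1 = x.2 then ((‖g x.1‖ ^ 2 : ℝ) : ℂ) else 0) = ((∑' n, ‖g n‖ ^ 2 : ℝ) : ℂ) := by
    have hinj : Function.Injective fun n : ℕ => (n, n) := fun a b h => (Prod.ext_iff.1 h).1
    rw [← hinj.tsum_eq, Complex.ofReal_tsum]
    · simp
    · intro x hx
      rw [Function.mem_support] at hx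
      by_cases h : x.1 = x.2
      · exact ⟨x.1, Prod.ext rfl h⟩
      · rw [if_neg h] at hx
        exact absurd rfl hx
  rw [h3] at h2
  have h4 := h2.congr fun T => (h1 T).symm
  have h5 := (Complex.continuous_re.tendsto _).comp h4
  simpa only [Function.comp_def, Complex.ofReal_re] using h5

/-- the mean value of a good function and Helson's inequality -/
theorem helson {f : ArithmeticFunction ℂ} (hf : Good f) : ∃ L : ℝ, 0 ≤ L ∧
    Tendsto (fun T : ℝ => (1 / T) * ∫ t in (-T / 2)..(T / 2), ‖LS f t‖) atTop (𝓝 L) ∧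
    ∀ N : ℕ, ∑ n ∈ Icc 1 N, ‖f n‖ ^ 2 / (n.divisors.card : ℝ) ≤ L ^ 2 := by
  classical
  obtain ⟨g, h, hg, hh, hfe, hn⟩ := hf
  have e1 : ∀ t, ‖LS f t‖ = ‖LS g t‖ ^ 2 := fun t => by
    rw [hfe, LS_mul hg hh, norm_mul, ← hn]; ring
  have p1 := parseval hg
  have p2 := parseval hh
  have e2 : ∑' n, ‖h n‖ ^ 2 = ∑' n, ‖g n‖ ^ 2 := by
    refine tendsto_nhds_unique p2 (p1.congr fun T => ?_)
    simp_rw [hn]
  have s1 : ∀ {k : ArithmeticFunction ℂ}, Abs k → Summable fun n => ‖k n‖ ^ 2 := by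
    intro k hk
    have h1 := (abs_iff k).1 hk
    refine Summable.of_norm_bounded_eventually_nat h1 ?_
    have h2 := h1.tendsto_atTop_zero
    filter_upwards [h2.eventually (gt_mem_nhds (show (0 : ℝ) < 1 by norm_num))] with n hn1
    rw [Real.norm_of_nonneg (by positivity)]
    have := norm_nonneg (k n)
    nlinarith
  refine ⟨∑' n, ‖g n‖ ^ 2, tsum_nonneg fun _ => by positivity, ?_, fun N => ?_⟩
  · refine p1.congr fun T => ?_
    simp_rw [e1]
  · have h1 : ∀ n ∈ Icc 1 N, ‖f n‖ ^ 2 / (n.divisors.card : ℝ) ≤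
        ∑ x ∈ n.divisorsAntidiagonal, ‖g x.1‖ ^ 2 * ‖h x.2‖ ^ 2 := by
      intro n hn1
      rw [mem_Icc] at hn1
      have hc : (0 : ℝ) < n.divisors.card := by
        have : 0 < n.divisors.card := card_pos.2 ⟨1, by rw [Nat.mem_divisors]; exact ⟨one_dvd _, by omega⟩⟩
        exact_mod_cast this
      rw [div_le_iff₀ hc, hfe, ArithmeticFunction.mul_apply]
      have h2 : ‖∑ x ∈ n.divisorsAntidiagonal, g x.1 * h x.2‖ ^ 2 ≤ (∑ x ∈ n.divisorsAntidiagonal, ‖g x.1‖ * ‖h x.2‖) ^ 2 := by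
        refine pow_le_pow_left₀ (norm_nonneg _) ((norm_sum_le _ _).trans (le_of_eq ?_)) 2
        simp_rw [norm_mul]
      refine h2.trans ((sq_sum_le_card_mul_sum_sq).trans (le_of_eq ?_))
      have h3 : n.divisorsAntidiagonal.card = n.divisors.card := by
        rw [← Nat.map_div_right_divisors, card_map]
      rw [h3, mul_comm]
      simp_rw [mul_pow]
    refine (sum_le_sum h1).trans ?_
    have h2 : ∑ n ∈ Icc 1 N, ∑ x ∈ n.divisorsAntidiagonal, ‖g x.1‖ ^ 2 * ‖h x.2‖ ^ 2 ≤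
        ∑ x ∈ Icc 1 N ×ˢ Icc 1 N, ‖g x.1‖ ^ 2 * ‖h x.2‖ ^ 2 := by
      rw [← Finset.sum_biUnion]
      · refine sum_le_sum_of_subset_of_nonneg ?_ fun _ _ _ => by positivity
        intro x hx
        rw [mem_biUnion] at hx
        obtain ⟨n, hn1, hx⟩ := hx
        rw [Nat.mem_divisorsAntidiagonal] at hx
        rw [mem_Icc] at hn1
        have hx1 : x.1 ∣ n := ⟨x.2, hx.1.symm⟩
        have hx2 : x.2 ∣ n := ⟨x.1, by rw [mul_comm]; exact hx.1.symm⟩
        have h3 := Nat.le_of_dvd (by omega) hx1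
        have h4 := Nat.le_of_dvd (by omega) hx2
        have h5 := Nat.pos_of_dvd_of_pos hx1 (by omega)
        have h6 := Nat.pos_of_dvd_of_pos hx2 (by omega)
        rw [mem_product, mem_Icc, mem_Icc]
        omega
      · intro n _ m _ hnm
        rw [Function.onFun, disjoint_left]
        intro x hx hx'
        rw [Nat.mem_divisorsAntidiagonal] at hx hx'
        exact hnm (hx.1.symm.trans hx'.1)
    refine h2.trans ?_
    rw [sum_product]
    simp_rw [← mul_sum]
    rw [← sum_mul, pow_two]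
    have h3 : ∑ n ∈ Icc 1 N, ‖g n‖ ^ 2 ≤ ∑' n, ‖g n‖ ^ 2 := (s1 hg).sum_le_tsum _ fun _ _ => by positivity
    have h4 : ∑ n ∈ Icc 1 N, ‖h n‖ ^ 2 ≤ ∑' n, ‖g n‖ ^ 2 := by
      rw [← e2]
      exact (s1 hh).sum_le_tsum _ fun _ _ => by positivity
    have h5 : 0 ≤ ∑ n ∈ Icc 1 N, ‖h n‖ ^ 2 := sum_nonneg fun _ _ => by positivity
    have h6 : 0 ≤ ∑' n, ‖g n‖ ^ 2 := tsum_nonneg fun _ => by positivity
    exact mul_le_mul h3 h4 h5 h6

end Pool.Agent.TH804.HM
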