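import Pool.Agent.TH804.HM2

/-!
Multiplicative functions of finite support are good
-/

set_option autoImplicit false

open Finset

namespace Pool.Agent.TH804.HM

lemma isMult_emb {p : ℕ} (hp : p.Prime) {c : ℕ → ℂ} (hc : c 0 = 1) : (emb p c).IsMultiplicative := by
  rw [ArithmeticFunction.IsMultiplicative.iff_ne_zero]
  refine ⟨?_, fun {m n} hm hn hmn => ?_⟩
  · have := emb_pow hp.two_le c 0
    rwa [pow_zero, hc] at this
  · have h1 : emb p c 1 = 1 := by
      have := emb_pow hp.two_le c 0
      rwa [pow_zero, hc] at this
    by_cases hm' : ∃ i, m = p ^ i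
    · by_cases hn' : ∃ j, n = p ^ j
      · obtain ⟨i, rfl⟩ := hm'
        obtain ⟨j, rfl⟩ := hn'
        rcases Nat.eq_zero_or_pos i with h0 | h0
        · rw [h0, pow_zero, one_mul, h1, one_mul]
        rcases Nat.eq_zero_or_pos j with h0' | h0'
        · rw [h0', pow_zero, mul_one, h1, mul_one]
        · exfalso
          have h2 : p ∣ Nat.gcd (p ^ i) (p ^ j) := Nat.dvd_gcd (dvd_pow_self p (by omega)) (dvd_pow_self p (by omega))
          rw [hmn] at h2
          exact hp.one_lt.ne' (Nat.dvd_one.1 h2)
      · push Not at hn'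
        rw [emb_ne _ hn', mul_zero, emb_ne]
        intro j hj
        obtain ⟨k, _, hk⟩ := (Nat.dvd_prime_pow hp).1 (show n ∣ p ^ j by rw [← hj]; exact dvd_mul_left _ _)
        exact hn' k hk
    · push Not at hm'
      rw [emb_ne _ hm', zero_mul, emb_ne]
      intro j hj
      obtain ⟨k, _, hk⟩ := (Nat.dvd_prime_pow hp).1 (show m ∣ p ^ j by rw [← hj]; exact dvd_mul_right _ _)
      exact hm' k hk

lemma one_pow {q : ℕ} (hq : q.Prime) (j : ℕ) : (1 : ArithmeticFunction ℂ) (q ^ j) = one j := by
  rw [← emb_one hq.two_le, emb_pow hq.two_le]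

lemma prod_eval (c : ℕ → ℕ → ℂ) (hc : ∀ p, c p 0 = 1) (P : Finset ℕ) (hP : ∀ p ∈ P, p.Prime) {q : ℕ} (hq : q.Prime)
    (j : ℕ) : (∏ p ∈ P, emb p (c p)) (q ^ j) = if q ∈ P then c q j else one j := by
  classical
  induction P using Finset.induction_on generalizing j with
  | empty => simp [one_pow hq]
  | insert p P hpP ih =>
    have hp : p.Prime := hP p (mem_insert_self _ _)
    have ih' := fun j => ih (fun r hr => hP r (mem_insert_of_mem hr)) j
    rw [prod_insert hpP, ArithmeticFunction.mul_apply,
      Nat.sum_divisorsAntidiagonal (fun a b => emb p (c p) a * (∏ p ∈ P, emb p (c p)) b), Nat.divisors_prime_pow hq,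
      sum_map]
    simp only [Function.Embedding.coeFn_mk]
    have h1 : ∀ i ∈ range (j + 1), emb p (c p) (q ^ i) * (∏ p ∈ P, emb p (c p)) (q ^ j / q ^ i) =
        emb p (c p) (q ^ i) * (if q ∈ P then c q (j - i) else one (j - i)) := by
      intro i hi
      rw [mem_range] at hi
      rw [Nat.pow_div (by omega) hq.pos, ih']
    rw [sum_congr rfl h1]
    by_cases hqp : q = p
    · subst hqp
      rw [if_pos (mem_insert_self _ _)]
      simp only [if_neg hpP]
      rw [sum_eq_single j]
      · rw [emb_pow hq.two_le]; simp [one]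
      · intro i hi hij
        rw [mem_range] at hi
        unfold one
        rw [if_neg (by omega), mul_zero]
      · intro h
        exact absurd (mem_range.2 (Nat.lt_succ_self j)) h
    · have h2 : ∀ i, i ≠ 0 → emb p (c p) (q ^ i) = 0 := by
        intro i hi
        apply emb_ne
        intro k hk
        have h3 : q ∣ p ^ k := by rw [← hk]; exact dvd_pow_self q hi
        exact hqp ((Nat.prime_dvd_prime_iff_eq hq hp).1 (hq.dvd_of_dvd_pow h3))
      rw [sum_eq_single 0]
      · have h4 := emb_pow hp.two_le (c p) 0
        rw [pow_zero, hc] at h4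
        rw [pow_zero, h4, one_mul, Nat.sub_zero]
        simp [hqp]
      · intro i _ hi
        rw [h2 i hi, zero_mul]
      · intro h
        exact absurd (mem_range.2 (Nat.succ_pos j)) h

lemma good_one : Good 1 := by
  have h := good_const (le_refl 2) 1
  have e : (two 1 0 : ℕ → ℂ) = one := by
    funext n
    unfold two one
    split_ifs <;> rfl
  rwa [e, emb_one (le_refl 2)] at h

lemma good_prod (F : ℕ → ArithmeticFunction ℂ) (P : Finset ℕ) (h : ∀ p ∈ P, Good (F p)) : Good (∏ p ∈ P, F p) := by
  classical
  induction P using Finset.induction_on with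
  | empty => simpa using good_one
  | insert p P hp ih =>
    rw [prod_insert hp]
    exact (h p (mem_insert_self _ _)).mul (ih fun q hq => h q (mem_insert_of_mem hq))

lemma good_finite {p : ℕ} (hp : 2 ≤ p) {c : ℕ → ℂ} {N : ℕ} (h : ∀ n, N ≤ n → c n = 0) : Good (emb p c) := by
  have e : c = (∑ j ∈ range N, Polynomial.monomial j (c j)).coeff := by
    funext n
    rw [Polynomial.finsetSum_coeff]
    simp_rw [Polynomial.coeff_monomial]
    rw [sum_ite_eq']
    split_ifs with h1
    · rfl
    · rw [mem_range, not_lt] at h1
      exact h n h1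
  rw [e]
  exact good_poly hp _ _ rfl

theorem good_mult {f : ArithmeticFunction ℂ} (hf : f.IsMultiplicative) {N : ℕ} (hN : ∀ n, N < n → f n = 0) : Good f := by
  have hP : ∀ p ∈ (N + 1).primesBelow, p.Prime := fun p hp => Nat.prime_of_mem_primesBelow hp
  have h1 : f = ∏ p ∈ (N + 1).primesBelow, emb p (fun j => f (p ^ j)) := by
    have h2 : (∏ p ∈ (N + 1).primesBelow, emb p (fun j => f (p ^ j))).IsMultiplicative := by
      have h3 : ∀ P : Finset ℕ, (∀ p ∈ P, p.Prime) → (∏ p ∈ P, emb p (fun j => f (p ^ j))).IsMultiplicative := by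
        classical
        intro P
        induction P using Finset.induction_on with
        | empty => intro _; simpa using ArithmeticFunction.isMultiplicative_one
        | insert p P hp ih =>
          intro h
          rw [prod_insert hp]
          refine ArithmeticFunction.IsMultiplicative.mul (isMult_emb (h p (mem_insert_self _ _)) ?_)
            (ih fun q hq => h q (mem_insert_of_mem hq))
          rw [pow_zero]
          exact hf.map_one
      exact h3 _ hP
    rw [ArithmeticFunction.IsMultiplicative.eq_iff_eq_on_prime_powers _ hf _ h2]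
    intro q i hq
    rw [prod_eval (fun p j => f (p ^ j)) (fun p => by rw [pow_zero]; exact hf.map_one) _ hP hq]
    split_ifs with h3
    · rfl
    · unfold one
      split_ifs with h4
      · rw [h4, pow_zero]
        exact hf.map_one
      · apply hN
        rw [Nat.mem_primesBelow, not_and] at h3
        have h5 : N < q := by
          by_contra h6
          exact h3 (by omega) hq
        exact h5.trans_le (Nat.le_self_pow h4 q)
  rw [h1]
  refine good_prod _ _ fun p hp => ?_
  refine good_finite (hP p hp).two_le (N := N + 1) fun n hn => ?_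
  apply hN
  have h2 : n < p ^ n := Nat.lt_pow_self (hP p hp).one_lt
  omega

end Pool.Agent.TH804.HM
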