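import Pool.Agent.TH804.HM3

/-!
The `L¹` lower bound for good functions
-/

set_option autoImplicit false

open Finset Filter Topology

namespace Pool.Agent.TH804.HM

/-- `∑ n^{-1-u} ≤ 1 + 1/u` -/
lemma sum_rpow_le' {u : ℝ} (hu : 0 < u) (m : ℕ) :
    ∑ n ∈ Icc 1 (m + 1), (n : ℝ) ^ (-(1 + u)) ≤ 1 + 1 / u - 1 / u * ((m : ℝ) + 1) ^ (-u) := by
  induction m with
  | zero => simp
  | succ m ih =>
    rw [sum_Icc_succ_top (by omega)]
    have key : (((m + 1 + 1 : ℕ) : ℝ)) ^ (-(1 + u)) ≤ 1 / u * ((m : ℝ) + 1) ^ (-u) - 1 / u * ((m : ℝ) + 1 + 1) ^ (-u) := by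
      obtain ⟨x, hx⟩ : ∃ x : ℝ, x = (m : ℝ) + 1 + 1 := ⟨_, rfl⟩
      have hx2 : 2 ≤ x := by rw [hx]; have : (0 : ℝ) ≤ m := Nat.cast_nonneg _; linarith
      have hx0 : 0 < x := by linarith
      have e1 : ((m + 1 + 1 : ℕ) : ℝ) = x := by rw [hx]; push_cast; ring
      have e2 : (m : ℝ) + 1 = x * (1 - 1 / x) := by rw [hx]; field_simp; ring
      have h1x : 0 < 1 - 1 / x := by
        have : 1 / x ≤ 1 / 2 := one_div_le_one_div_of_le (by norm_num) hx2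
        linarith
      rw [e1, e2]
      rw [show x * (1 - 1 / x) + 1 = x by field_simp; ring]
      rw [Real.mul_rpow hx0.le h1x.le]
      have h2 : 1 + u / x ≤ (1 - 1 / x) ^ (-u) := by
        rw [Real.rpow_def_of_pos h1x]
        have h3 : Real.log (1 - 1 / x) ≤ -(1 / x) := by
          have := Real.log_le_sub_one_of_pos h1x
          linarith
        have h4 : u / x ≤ Real.log (1 - 1 / x) * -u := by
          have : u / x = u * (1 / x) := by ring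
          rw [this]
          nlinarith
        linarith [Real.add_one_le_exp (Real.log (1 - 1 / x) * -u)]
      have h5 : x ^ (-(1 + u)) = x ^ (-u) / x := by
        rw [show -(1 + u) = -u - 1 by ring, Real.rpow_sub_one hx0.ne']
      rw [h5]
      have h6 : 0 < x ^ (-u) := by positivity
      have h7 : x ^ (-u) / x = 1 / u * (x ^ (-u) * (u / x)) := by field_simp
      rw [h7, ← mul_sub]
      refine mul_le_mul_of_nonneg_left ?_ (by positivity)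
      nlinarith
    have e3 : (((m + 1 : ℕ) : ℝ) + 1) = (m : ℝ) + 1 + 1 := by push_cast; ring
    rw [e3]
    linarith

lemma sum_rpow_le_one_add {u : ℝ} (hu : 0 < u) (N : ℕ) : ∑ n ∈ Icc 1 N, (n : ℝ) ^ (-(1 + u)) ≤ 1 + 1 / u := by
  have h1 : ∑ n ∈ Icc 1 N, (n : ℝ) ^ (-(1 + u)) ≤ ∑ n ∈ Icc 1 (N + 1), (n : ℝ) ^ (-(1 + u)) :=
    sum_le_sum_of_subset_of_nonneg (Icc_subset_Icc_right (Nat.le_succ N)) fun _ _ _ => by positivity
  have h2 := sum_rpow_le' hu N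
  have : 0 ≤ 1 / u * ((N : ℝ) + 1) ^ (-u) := by positivity
  linarith

/-- `∑ |f(n)| n^{-1/2-u}` -/
noncomputable def SS (f : ArithmeticFunction ℂ) (N : ℕ) (u : ℝ) : ℝ := ∑ n ∈ Icc 1 N, ‖f n‖ * (n : ℝ) ^ (-(1 / 2 + u))

lemma SS_nonneg (f : ArithmeticFunction ℂ) (N : ℕ) (u : ℝ) : 0 ≤ SS f N u := sum_nonneg fun _ _ => by positivity

/-- `1 / log k` as a sum over the scales -/
lemma log_inv_le' {k n : ℕ} (hk : 2 ≤ k) (hn : 2 * k ≤ n) :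
    1 / Real.log k ≤ 2 * Real.exp 1 * ∑ i ∈ range n, (1 / 2 : ℝ) ^ i * (k : ℝ) ^ (-((1 / 2 : ℝ) ^ i)) := by
  have hk2 : (2 : ℝ) ≤ k := by exact_mod_cast hk
  have hk0 : (0 : ℝ) < k := by linarith
  have hl2 : Real.log 2 ≤ Real.log k := Real.log_le_log (by norm_num) hk2
  have hlog2 := Real.log_two_gt_d9
  have hl0 : 0 < Real.log k := by linarith
  obtain ⟨i, hi⟩ : ∃ i : ℕ, i = ⌈Real.logb 2 (Real.log k)⌉₊ := ⟨_, rfl⟩
  have h1 : Real.log k ≤ 2 ^ i := by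
    have h2 : Real.logb 2 (Real.log k) ≤ i := by rw [hi]; exact Nat.le_ceil _
    rw [Real.logb_le_iff_le_rpow (by norm_num) hl0, Real.rpow_natCast] at h2
    exact h2
  have h2 : (2 : ℝ) ^ i ≤ 2 * Real.log k := by
    rcases Nat.eq_zero_or_pos i with h0 | h0
    · rw [h0, pow_zero]
      linarith
    · have h3 : ((i - 1 : ℕ) : ℝ) < Real.logb 2 (Real.log k) := by
        rw [← Nat.lt_ceil, ← hi]
        omega
      rw [Real.lt_logb_iff_rpow_lt (by norm_num) hl0, Real.rpow_natCast] at h3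
      have h4 : (2 : ℝ) ^ i = 2 * 2 ^ (i - 1) := by
        rw [← pow_succ']
        congr 1
        omega
      rw [h4]
      linarith
  have hin : i < n := by
    have h3 : (i : ℝ) < n := by
      have h4 : (i : ℝ) < 2 ^ i := by exact_mod_cast Nat.lt_two_pow_self
      have h5 : Real.log k ≤ k := by
        have := Real.log_le_sub_one_of_pos hk0
        linarith
      have h6 : 2 * (k : ℝ) ≤ n := by exact_mod_cast hn
      linarith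
    exact_mod_cast h3
  have h3 : (1 / 2 : ℝ) ^ i * (k : ℝ) ^ (-((1 / 2 : ℝ) ^ i)) ≤
      ∑ i ∈ range n, (1 / 2 : ℝ) ^ i * (k : ℝ) ^ (-((1 / 2 : ℝ) ^ i)) :=
    single_le_sum (f := fun i : ℕ => (1 / 2 : ℝ) ^ i * (k : ℝ) ^ (-((1 / 2 : ℝ) ^ i))) (fun _ _ => by positivity)
      (mem_range.2 hin)
  have e1 : (1 / 2 : ℝ) ^ i = 1 / 2 ^ i := by rw [div_pow, _root_.one_pow]
  have hpos : (0 : ℝ) < 2 ^ i := by positivity
  have h4 : Real.exp (-1) ≤ (k : ℝ) ^ (-((1 / 2 : ℝ) ^ i)) := by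
    rw [Real.rpow_def_of_pos hk0]
    apply Real.exp_le_exp.2
    rw [e1]
    have : Real.log k * -(1 / 2 ^ i) = -(Real.log k / 2 ^ i) := by ring
    rw [this]
    have : Real.log k / 2 ^ i ≤ 1 := by rw [div_le_one hpos]; exact h1
    linarith
  have h5 : 1 / (2 * Real.log k) ≤ (1 / 2 : ℝ) ^ i := by
    rw [e1]
    exact one_div_le_one_div_of_le hpos h2
  calc 1 / Real.log k = 2 * Real.exp 1 * (1 / (2 * Real.log k) * Real.exp (-1)) := by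
        rw [Real.exp_neg]
        field_simp
    _ ≤ 2 * Real.exp 1 * ((1 / 2 : ℝ) ^ i * (k : ℝ) ^ (-((1 / 2 : ℝ) ^ i))) := by gcongr
    _ ≤ _ := by gcongr

/-- `ρ = 2^{-1/2}` -/
noncomputable def ρ : ℝ := Real.sqrt (1 / 2)

lemma ρ_pos : 0 < ρ := Real.sqrt_pos.2 (by norm_num)

lemma ρ_lt : ρ < 1 := by
  unfold ρ
  rw [Real.sqrt_lt' (by norm_num)]
  norm_num

lemma ρ_sq : ρ ^ 2 = 1 / 2 := Real.sq_sqrt (by norm_num)

/-- the distance of two scales -/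
def ds (i j : ℕ) : ℕ := (i - j) + (j - i)

lemma kernel (i j : ℕ) : ρ ^ i * ρ ^ j * (1 + 1 / ((1 / 2 : ℝ) ^ i + (1 / 2 : ℝ) ^ j)) ≤ 3 * ρ ^ ds i j := by
  wlog h : i ≤ j generalizing i j
  · have := this j i (by omega)
    rw [mul_comm (ρ ^ i), add_comm ((1 / 2 : ℝ) ^ i)]
    refine this.trans (le_of_eq ?_)
    unfold ds
    rw [add_comm]
  have hd : ds i j = j - i := by unfold ds; omega
  have e1 : (1 / 2 : ℝ) ^ i = ρ ^ i * ρ ^ i := by rw [← ρ_sq, ← pow_mul, ← pow_add]; congr 1; omega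
  have e2 : ρ ^ j = ρ ^ i * ρ ^ (j - i) := by rw [← pow_add]; congr 1; omega
  have h1 : (1 / 2 : ℝ) ^ i ≤ 1 := pow_le_one₀ (by norm_num) (by norm_num)
  have h2 : (0 : ℝ) < (1 / 2 : ℝ) ^ i := by positivity
  have h3 : (0 : ℝ) < (1 / 2 : ℝ) ^ j := by positivity
  have h4 : 1 / ((1 / 2 : ℝ) ^ i + (1 / 2 : ℝ) ^ j) ≤ 1 / (1 / 2 : ℝ) ^ i := one_div_le_one_div_of_le h2 (by linarith)
  have h5 : 1 ≤ 1 / (1 / 2 : ℝ) ^ i := by rw [le_div_iff₀ h2]; linarith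
  have h6 : 1 + 1 / ((1 / 2 : ℝ) ^ i + (1 / 2 : ℝ) ^ j) ≤ 3 * (1 / (1 / 2 : ℝ) ^ i) := by linarith
  have hρ := ρ_pos
  rw [hd]
  calc ρ ^ i * ρ ^ j * (1 + 1 / ((1 / 2 : ℝ) ^ i + (1 / 2 : ℝ) ^ j)) ≤ ρ ^ i * ρ ^ j * (3 * (1 / (1 / 2 : ℝ) ^ i)) := by
        gcongr
    _ = 3 * ρ ^ (j - i) := by
        rw [e1, e2]
        field_simp

lemma sum_ds (n i : ℕ) : ∑ j ∈ range n, ρ ^ ds i j ≤ 2 / (1 - ρ) := by
  have hρ := ρ_pos
  have hρ1 := ρ_lt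
  have h1ρ : 0 < 1 - ρ := by linarith
  have hgeo : ∀ m : ℕ, ∑ i ∈ range m, ρ ^ i ≤ 1 / (1 - ρ) := by
    intro m
    rw [one_div, ← tsum_geometric_of_lt_one hρ.le hρ1]
    exact (summable_geometric_of_lt_one hρ.le hρ1).sum_le_tsum _ fun _ _ => by positivity
  have h1 : ∀ j, ρ ^ ds i j ≤ (if j ≤ i then ρ ^ (i - j) else 0) + (if i ≤ j then ρ ^ (j - i) else 0) := by
    intro j
    unfold ds
    rcases le_total j i with h | h
    · rw [if_pos h]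
      have e : i - j + (j - i) = i - j := by omega
      rw [e]
      have : 0 ≤ (if i ≤ j then ρ ^ (j - i) else 0) := by split_ifs <;> positivity
      linarith
    · rw [if_pos h]
      have e : i - j + (j - i) = j - i := by omega
      rw [e]
      have : 0 ≤ (if j ≤ i then ρ ^ (i - j) else 0) := by split_ifs <;> positivity
      linarith
  refine (sum_le_sum fun j _ => h1 j).trans ?_
  rw [sum_add_distrib]
  have h2 : ∑ j ∈ range n, (if j ≤ i then ρ ^ (i - j) else 0) ≤ 1 / (1 - ρ) := by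
    have h3 : ∑ j ∈ range n, (if j ≤ i then ρ ^ (i - j) else 0) ≤ ∑ j ∈ range (i + 1), ρ ^ (i - j) := by
      rw [← sum_filter]
      refine sum_le_sum_of_subset_of_nonneg ?_ fun _ _ _ => by positivity
      intro j hj
      rw [mem_filter] at hj
      rw [mem_range]
      omega
    have h4 : ∑ j ∈ range (i + 1), ρ ^ (i - j) = ∑ j ∈ range (i + 1), ρ ^ j := by
      have := Finset.sum_range_reflect (fun j => ρ ^ j) (i + 1)
      simpa using this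
    rw [h4] at h3
    exact h3.trans (hgeo _)
  have h3 : ∑ j ∈ range n, (if i ≤ j then ρ ^ (j - i) else 0) ≤ 1 / (1 - ρ) := by
    have h3 : ∑ j ∈ range n, (if i ≤ j then ρ ^ (j - i) else 0) ≤ ∑ j ∈ Ico i (i + n), ρ ^ (j - i) := by
      rw [← sum_filter]
      refine sum_le_sum_of_subset_of_nonneg ?_ fun _ _ _ => by positivity
      intro j hj
      rw [mem_filter, mem_range] at hj
      rw [mem_Ico]
      omega
    rw [sum_Ico_eq_sum_range] at h3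
    simp only [Nat.add_sub_cancel_left] at h3
    exact h3.trans (hgeo _)
  have : 2 / (1 - ρ) = 1 / (1 - ρ) + 1 / (1 - ρ) := by ring
  rw [this]
  exact add_le_add h2 h3

/-- a Hilbert type inequality -/
lemma hilbert (g : ArithmeticFunction ℂ) (N n : ℕ) :
    ∑ i ∈ range n, (1 / 2 : ℝ) ^ i * SS g N ((1 / 2 : ℝ) ^ i) ^ 2 ≤ 6 / (1 - ρ) * ∑ m ∈ Icc 1 N, ‖g m‖ ^ 2 := by
  have hρ := ρ_pos
  have h1ρ : 0 < 1 - ρ := by linarith [ρ_lt]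
  obtain ⟨w, hw⟩ : ∃ w : ℕ → ℝ, w = fun i => ρ ^ i * SS g N ((1 / 2 : ℝ) ^ i) := ⟨_, rfl⟩
  have hw0 : ∀ i, 0 ≤ w i := fun i => by
    rw [hw]
    have := SS_nonneg g N ((1 / 2 : ℝ) ^ i)
    positivity
  obtain ⟨W, hW⟩ : ∃ W : ℝ, W = ∑ i ∈ range n, w i ^ 2 := ⟨_, rfl⟩
  have hW0 : 0 ≤ W := by rw [hW]; exact sum_nonneg fun _ _ => by positivity
  have e0 : ∑ i ∈ range n, (1 / 2 : ℝ) ^ i * SS g N ((1 / 2 : ℝ) ^ i) ^ 2 = W := by
    rw [hW, hw]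
    refine sum_congr rfl fun i _ => ?_
    rw [mul_pow, ← pow_mul, mul_comm i 2, pow_mul, ρ_sq]
  rw [e0]
  -- `W = ∑_m |g_m| m^{-1/2} ∑_i w_i ρ^i m^{-x_i}`
  have e1 : W = ∑ m ∈ Icc 1 N, ‖g m‖ * ((m : ℝ) ^ (-(1 / 2 : ℝ)) * ∑ i ∈ range n, w i * ρ ^ i * (m : ℝ) ^ (-((1 / 2 : ℝ) ^ i))) := by
    have h1 : ∀ i ∈ range n, w i ^ 2 = ∑ m ∈ Icc 1 N, w i * ρ ^ i * (‖g m‖ * (m : ℝ) ^ (-(1 / 2 + (1 / 2 : ℝ) ^ i))) := by
      intro i _
      have : w i = ρ ^ i * SS g N ((1 / 2 : ℝ) ^ i) := by rw [hw]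
      rw [pow_two]
      nth_rw 2 [this]
      unfold SS
      rw [mul_sum, mul_sum]
      exact sum_congr rfl fun m _ => by ring
    rw [hW, sum_congr rfl h1, sum_comm]
    refine sum_congr rfl fun m hm => ?_
    rw [mem_Icc] at hm
    have hm0 : (0 : ℝ) < m := by
      have : 0 < m := by omega
      exact_mod_cast this
    rw [mul_sum, mul_sum]
    refine sum_congr rfl fun i _ => ?_
    rw [neg_add, Real.rpow_add hm0]
    ring
  have h1 : W ^ 2 ≤ (∑ m ∈ Icc 1 N, ‖g m‖ ^ 2) * ∑ m ∈ Icc 1 N, ((m : ℝ) ^ (-(1 / 2 : ℝ)) *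
      ∑ i ∈ range n, w i * ρ ^ i * (m : ℝ) ^ (-((1 / 2 : ℝ) ^ i))) ^ 2 := by
    rw [e1]
    exact Finset.sum_mul_sq_le_sq_mul_sq _ _ _
  have h2 : ∑ m ∈ Icc 1 N, ((m : ℝ) ^ (-(1 / 2 : ℝ)) *
      ∑ i ∈ range n, w i * ρ ^ i * (m : ℝ) ^ (-((1 / 2 : ℝ) ^ i))) ^ 2 ≤ 6 / (1 - ρ) * W := by
    have h3 : ∀ m ∈ Icc 1 N, ((m : ℝ) ^ (-(1 / 2 : ℝ)) *
        ∑ i ∈ range n, w i * ρ ^ i * (m : ℝ) ^ (-((1 / 2 : ℝ) ^ i))) ^ 2 =
        ∑ i ∈ range n, ∑ j ∈ range n, w i * w j * (ρ ^ i * ρ ^ j) *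
          (m : ℝ) ^ (-(1 + ((1 / 2 : ℝ) ^ i + (1 / 2 : ℝ) ^ j))) := by
      intro m hm
      rw [mem_Icc] at hm
      have hm0 : (0 : ℝ) < m := by
        have : 0 < m := by omega
        exact_mod_cast this
      rw [mul_pow, pow_two (∑ i ∈ range n, _), sum_mul_sum, mul_sum]
      refine sum_congr rfl fun i _ => ?_
      rw [mul_sum]
      refine sum_congr rfl fun j _ => ?_
      have e3 : (m : ℝ) ^ (-(1 + ((1 / 2 : ℝ) ^ i + (1 / 2 : ℝ) ^ j))) =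
          ((m : ℝ) ^ (-(1 / 2 : ℝ))) ^ 2 * ((m : ℝ) ^ (-((1 / 2 : ℝ) ^ i)) * (m : ℝ) ^ (-((1 / 2 : ℝ) ^ j))) := by
        rw [pow_two, ← Real.rpow_add hm0, ← Real.rpow_add hm0, ← Real.rpow_add hm0]
        congr 1
        ring
      rw [e3]
      ring
    rw [sum_congr rfl h3, sum_comm]
    simp_rw [sum_comm (s := Icc 1 N), ← mul_sum]
    have h4 : ∀ i ∈ range n, ∀ j ∈ range n, w i * w j * (ρ ^ i * ρ ^ j) *
        ∑ m ∈ Icc 1 N, (m : ℝ) ^ (-(1 + ((1 / 2 : ℝ) ^ i + (1 / 2 : ℝ) ^ j))) ≤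
        3 / 2 * (w i ^ 2 * ρ ^ ds i j) + 3 / 2 * (w j ^ 2 * ρ ^ ds i j) := by
      intro i _ j _
      have h5 := sum_rpow_le_one_add (show 0 < (1 / 2 : ℝ) ^ i + (1 / 2 : ℝ) ^ j by positivity) N
      have h6 := kernel i j
      have hwij : 0 ≤ w i * w j := mul_nonneg (hw0 i) (hw0 j)
      calc w i * w j * (ρ ^ i * ρ ^ j) * ∑ m ∈ Icc 1 N, (m : ℝ) ^ (-(1 + ((1 / 2 : ℝ) ^ i + (1 / 2 : ℝ) ^ j)))
          ≤ w i * w j * (ρ ^ i * ρ ^ j) * (1 + 1 / ((1 / 2 : ℝ) ^ i + (1 / 2 : ℝ) ^ j)) := by gcongr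
        _ = w i * w j * (ρ ^ i * ρ ^ j * (1 + 1 / ((1 / 2 : ℝ) ^ i + (1 / 2 : ℝ) ^ j))) := by ring
        _ ≤ w i * w j * (3 * ρ ^ ds i j) := by gcongr
        _ ≤ _ := by
          have h7 : 0 ≤ ρ ^ ds i j := by positivity
          nlinarith [mul_nonneg (sq_nonneg (w i - w j)) h7]
    refine (sum_le_sum fun i hi => sum_le_sum fun j hj => h4 i hi j hj).trans ?_
    have h5 : ∑ i ∈ range n, ∑ j ∈ range n, w i ^ 2 * ρ ^ ds i j ≤ 2 / (1 - ρ) * W := by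
      rw [hW, mul_sum]
      refine sum_le_sum fun i _ => ?_
      rw [← mul_sum, mul_comm]
      exact mul_le_mul_of_nonneg_right (sum_ds n i) (by positivity)
    have h6 : ∑ i ∈ range n, ∑ j ∈ range n, w j ^ 2 * ρ ^ ds i j ≤ 2 / (1 - ρ) * W := by
      rw [sum_comm]
      refine le_trans (le_of_eq ?_) h5
      refine sum_congr rfl fun i _ => sum_congr rfl fun j _ => ?_
      unfold ds
      rw [add_comm]
    have e7 : ∑ i ∈ range n, ∑ j ∈ range n, (3 / 2 * (w i ^ 2 * ρ ^ ds i j) + 3 / 2 * (w j ^ 2 * ρ ^ ds i j)) =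
        3 / 2 * (∑ i ∈ range n, ∑ j ∈ range n, w i ^ 2 * ρ ^ ds i j) +
          3 / 2 * (∑ i ∈ range n, ∑ j ∈ range n, w j ^ 2 * ρ ^ ds i j) := by
      simp only [sum_add_distrib, mul_sum]
    rw [e7]
    have : 6 / (1 - ρ) * W = 3 / 2 * (2 / (1 - ρ) * W) + 3 / 2 * (2 / (1 - ρ) * W) := by ring
    rw [this]
    linarith
  rcases hW0.eq_or_lt with h0 | h0
  · rw [← h0]
    positivity
  · have h3 : W * W ≤ W * (6 / (1 - ρ) * ∑ m ∈ Icc 1 N, ‖g m‖ ^ 2) := by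
      have h4 : 0 ≤ ∑ m ∈ Icc 1 N, ‖g m‖ ^ 2 := sum_nonneg fun _ _ => by positivity
      calc W * W = W ^ 2 := by ring
        _ ≤ _ := h1
        _ ≤ (∑ m ∈ Icc 1 N, ‖g m‖ ^ 2) * (6 / (1 - ρ) * W) := by gcongr
        _ = _ := by ring
    exact le_of_mul_le_mul_left h3 h0

/-- the multiplicative Hilbert inequality for a product -/
lemma product_le (g h : ArithmeticFunction ℂ) (N : ℕ) :
    ∑ k ∈ Icc 2 N, ‖(g * h) k‖ / (Real.sqrt k * Real.log k) ≤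
      2 * Real.exp 1 * (6 / (1 - ρ)) * (Real.sqrt (∑ m ∈ Icc 1 N, ‖g m‖ ^ 2) * Real.sqrt (∑ m ∈ Icc 1 N, ‖h m‖ ^ 2)) := by
  classical
  have h1ρ : 0 < 1 - ρ := by linarith [ρ_lt]
  have h1 : ∀ k ∈ Icc 2 N, ‖(g * h) k‖ / (Real.sqrt k * Real.log k) ≤
      2 * Real.exp 1 * ∑ i ∈ range (2 * N), (1 / 2 : ℝ) ^ i *
        ∑ x ∈ k.divisorsAntidiagonal, (‖g x.1‖ * (x.1 : ℝ) ^ (-(1 / 2 + (1 / 2 : ℝ) ^ i))) *
          (‖h x.2‖ * (x.2 : ℝ) ^ (-(1 / 2 + (1 / 2 : ℝ) ^ i))) := by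
    intro k hk
    rw [mem_Icc] at hk
    have hk0 : (0 : ℝ) < k := by
      have : 0 < k := by omega
      exact_mod_cast this
    have h5 := log_inv_le' (n := 2 * N) hk.1 (by omega)
    have e3 : ‖(g * h) k‖ / (Real.sqrt k * Real.log k) = ‖(g * h) k‖ * (k : ℝ) ^ (-(1 / 2 : ℝ)) * (1 / Real.log k) := by
      rw [Real.sqrt_eq_rpow, Real.rpow_neg hk0.le]
      field_simp
    rw [e3]
    have h6 : ‖(g * h) k‖ ≤ ∑ x ∈ k.divisorsAntidiagonal, ‖g x.1‖ * ‖h x.2‖ := by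
      rw [ArithmeticFunction.mul_apply]
      refine (norm_sum_le _ _).trans (le_of_eq ?_)
      simp_rw [norm_mul]
    have h7 : 0 ≤ 2 * Real.exp 1 * ∑ i ∈ range (2 * N), (1 / 2 : ℝ) ^ i * (k : ℝ) ^ (-((1 / 2 : ℝ) ^ i)) := by
      have : 0 ≤ ∑ i ∈ range (2 * N), (1 / 2 : ℝ) ^ i * (k : ℝ) ^ (-((1 / 2 : ℝ) ^ i)) :=
        sum_nonneg fun _ _ => by positivity
      positivity
    calc ‖(g * h) k‖ * (k : ℝ) ^ (-(1 / 2 : ℝ)) * (1 / Real.log k)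
        ≤ ‖(g * h) k‖ * (k : ℝ) ^ (-(1 / 2 : ℝ)) *
          (2 * Real.exp 1 * ∑ i ∈ range (2 * N), (1 / 2 : ℝ) ^ i * (k : ℝ) ^ (-((1 / 2 : ℝ) ^ i))) := by gcongr
      _ ≤ (∑ x ∈ k.divisorsAntidiagonal, ‖g x.1‖ * ‖h x.2‖) * (k : ℝ) ^ (-(1 / 2 : ℝ)) *
          (2 * Real.exp 1 * ∑ i ∈ range (2 * N), (1 / 2 : ℝ) ^ i * (k : ℝ) ^ (-((1 / 2 : ℝ) ^ i))) := by gcongr
      _ = _ := by
        rw [mul_left_comm, mul_sum]
        congr 1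
        refine sum_congr rfl fun i _ => ?_
        rw [sum_mul, sum_mul, mul_sum]
        refine sum_congr rfl fun x hx => ?_
        rw [Nat.mem_divisorsAntidiagonal] at hx
        have e4 : (k : ℝ) ^ (-(1 / 2 : ℝ)) * (k : ℝ) ^ (-((1 / 2 : ℝ) ^ i)) =
            (x.1 : ℝ) ^ (-(1 / 2 + (1 / 2 : ℝ) ^ i)) * (x.2 : ℝ) ^ (-(1 / 2 + (1 / 2 : ℝ) ^ i)) := by
          rw [← Real.rpow_add hk0, ← Real.mul_rpow (Nat.cast_nonneg _) (Nat.cast_nonneg _), ← Nat.cast_mul, hx.1]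
          congr 1
          ring
        linear_combination (‖g x.1‖ * ‖h x.2‖ * (1 / 2 : ℝ) ^ i) * e4
  refine (sum_le_sum h1).trans ?_
  rw [← mul_sum, sum_comm, mul_assoc (2 * Real.exp 1)]
  refine mul_le_mul_of_nonneg_left ?_ (by positivity)
  -- now the sum over the scales
  have h2 : ∀ i ∈ range (2 * N), ∑ k ∈ Icc 2 N, (1 / 2 : ℝ) ^ i *
      ∑ x ∈ k.divisorsAntidiagonal, (‖g x.1‖ * (x.1 : ℝ) ^ (-(1 / 2 + (1 / 2 : ℝ) ^ i))) *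
        (‖h x.2‖ * (x.2 : ℝ) ^ (-(1 / 2 + (1 / 2 : ℝ) ^ i))) ≤
      (ρ ^ i * SS g N ((1 / 2 : ℝ) ^ i)) * (ρ ^ i * SS h N ((1 / 2 : ℝ) ^ i)) := by
    intro i _
    rw [← mul_sum]
    have e5 : (ρ ^ i * SS g N ((1 / 2 : ℝ) ^ i)) * (ρ ^ i * SS h N ((1 / 2 : ℝ) ^ i)) =
        (1 / 2 : ℝ) ^ i * (SS g N ((1 / 2 : ℝ) ^ i) * SS h N ((1 / 2 : ℝ) ^ i)) := by
      rw [← ρ_sq, ← pow_mul]; ring
    rw [e5]
    refine mul_le_mul_of_nonneg_left ?_ (by positivity)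
    unfold SS
    rw [sum_mul_sum, ← sum_product', ← Finset.sum_biUnion]
    · refine sum_le_sum_of_subset_of_nonneg ?_ fun _ _ _ => by positivity
      intro x hx
      rw [mem_biUnion] at hx
      obtain ⟨n, hn1, hx⟩ := hx
      rw [Nat.mem_divisorsAntidiagonal] at hx
      rw [mem_Icc] at hn1
      have hx1 : x.1 ∣ n := ⟨x.2, hx.1.symm⟩
      have hx2 : x.2 ∣ n := ⟨x.1, by rw [mul_comm]; exact hx.1.symm⟩
      have h3 := Nat.le_of_dvd (by omega) hx1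
      have h4 := Nat.le_of_dvd (by omega) hx2
      have h5 := Nat.pos_of_dvd_of_pos hx1 (by omega)
      have h6 := Nat.pos_of_dvd_of_pos hx2 (by omega)
      rw [mem_product, mem_Icc, mem_Icc]
      omega
    · intro n _ m _ hnm
      rw [Function.onFun, disjoint_left]
      intro x hx hx'
      rw [Nat.mem_divisorsAntidiagonal] at hx hx'
      exact hnm (hx.1.symm.trans hx'.1)
  refine (sum_le_sum h2).trans ?_
  have h3 := Finset.sum_mul_sq_le_sq_mul_sq (range (2 * N)) (fun i => ρ ^ i * SS g N ((1 / 2 : ℝ) ^ i))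
    (fun i => ρ ^ i * SS h N ((1 / 2 : ℝ) ^ i))
  have e6 : ∀ f : ArithmeticFunction ℂ, ∑ i ∈ range (2 * N), (ρ ^ i * SS f N ((1 / 2 : ℝ) ^ i)) ^ 2 ≤
      6 / (1 - ρ) * ∑ m ∈ Icc 1 N, ‖f m‖ ^ 2 := by
    intro f
    refine le_trans (le_of_eq ?_) (hilbert f N (2 * N))
    refine sum_congr rfl fun i _ => ?_
    rw [mul_pow, ← pow_mul, mul_comm i 2, pow_mul, ρ_sq]
  have hg0 : 0 ≤ ∑ m ∈ Icc 1 N, ‖g m‖ ^ 2 := sum_nonneg fun _ _ => by positivity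
  have hh0 : 0 ≤ ∑ m ∈ Icc 1 N, ‖h m‖ ^ 2 := sum_nonneg fun _ _ => by positivity
  have h4 : (∑ i ∈ range (2 * N), (ρ ^ i * SS g N ((1 / 2 : ℝ) ^ i)) * (ρ ^ i * SS h N ((1 / 2 : ℝ) ^ i))) ^ 2 ≤
      (6 / (1 - ρ) * (Real.sqrt (∑ m ∈ Icc 1 N, ‖g m‖ ^ 2) * Real.sqrt (∑ m ∈ Icc 1 N, ‖h m‖ ^ 2))) ^ 2 := by
    refine h3.trans ?_
    rw [mul_pow, mul_pow, Real.sq_sqrt hg0, Real.sq_sqrt hh0]
    calc (∑ i ∈ range (2 * N), (ρ ^ i * SS g N ((1 / 2 : ℝ) ^ i)) ^ 2) *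
          ∑ i ∈ range (2 * N), (ρ ^ i * SS h N ((1 / 2 : ℝ) ^ i)) ^ 2
        ≤ (6 / (1 - ρ) * ∑ m ∈ Icc 1 N, ‖g m‖ ^ 2) * (6 / (1 - ρ) * ∑ m ∈ Icc 1 N, ‖h m‖ ^ 2) :=
          mul_le_mul (e6 g) (e6 h) (sum_nonneg fun _ _ => by positivity) (by positivity)
      _ = _ := by ring
  refine (sq_le_sq₀ ?_ (by positivity)).1 h4
  refine sum_nonneg fun i _ => mul_nonneg ?_ ?_
  · have := SS_nonneg g N ((1 / 2 : ℝ) ^ i)
    have := ρ_pos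
    positivity
  · have := SS_nonneg h N ((1 / 2 : ℝ) ^ i)
    have := ρ_pos
    positivity

lemma sq_summable' {k : ArithmeticFunction ℂ} (hk : Abs k) : Summable fun n => ‖k n‖ ^ 2 := by
  have h1 := (abs_iff k).1 hk
  refine Summable.of_norm_bounded_eventually_nat h1 ?_
  have h2 := h1.tendsto_atTop_zero
  filter_upwards [h2.eventually (gt_mem_nhds (show (0 : ℝ) < 1 by norm_num))] with n hn1
  rw [Real.norm_of_nonneg (by positivity)]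
  have := norm_nonneg (k n)
  nlinarith

/-- the `L¹` lower bound for good functions -/
theorem good_bound : ∃ C : ℝ, 0 < C ∧ ∀ f : ArithmeticFunction ℂ, Good f → ∃ L : ℝ,
    Tendsto (fun T : ℝ => (1 / T) * ∫ t in (-T / 2)..(T / 2), ‖LS f t‖) atTop (𝓝 L) ∧
    ∀ N : ℕ, C * (‖f 1‖ + ∑ k ∈ Icc 2 N, ‖f k‖ / (Real.sqrt k * Real.log k)) ≤ L := by
  have h1ρ : 0 < 1 - ρ := by linarith [ρ_lt]
  obtain ⟨K, hK⟩ : ∃ K : ℝ, K = 1 + 2 * Real.exp 1 * (6 / (1 - ρ)) := ⟨_, rfl⟩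
  have hK0 : 0 < K := by rw [hK]; positivity
  refine ⟨1 / K, by positivity, fun f hf => ?_⟩
  obtain ⟨g, h, hg, hh, hfe, hn⟩ := hf
  have e1 : ∀ t, ‖LS f t‖ = ‖LS g t‖ ^ 2 := fun t => by
    rw [hfe, LS_mul hg hh, norm_mul, ← hn]; ring
  have p1 := parseval hg
  have p2 := parseval hh
  have e2 : ∑' n, ‖h n‖ ^ 2 = ∑' n, ‖g n‖ ^ 2 := by
    refine tendsto_nhds_unique p2 (p1.congr fun T => ?_)
    simp_rw [hn]
  obtain ⟨L, hL⟩ : ∃ L : ℝ, L = ∑' n, ‖g n‖ ^ 2 := ⟨_, rfl⟩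
  have hL0 : 0 ≤ L := by rw [hL]; exact tsum_nonneg fun _ => by positivity
  refine ⟨L, ?_, fun N => ?_⟩
  · rw [hL]
    refine p1.congr fun T => ?_
    simp_rw [e1]
  rw [one_div, inv_mul_le_iff₀ hK0]
  have hgN : ∀ s : Finset ℕ, ∑ n ∈ s, ‖g n‖ ^ 2 ≤ L := fun s => by
    rw [hL]
    exact (sq_summable' hg).sum_le_tsum _ fun _ _ => by positivity
  have hhN : ∀ s : Finset ℕ, ∑ n ∈ s, ‖h n‖ ^ 2 ≤ L := fun s => by
    rw [hL, ← e2]
    exact (sq_summable' hh).sum_le_tsum _ fun _ _ => by positivity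
  have h1 : ‖f 1‖ ≤ L := by
    have h2 : f 1 = g 1 * h 1 := by rw [hfe]; simp [ArithmeticFunction.mul_apply]
    have h3 := hgN {1}
    have h4 := hhN {1}
    rw [sum_singleton] at h3 h4
    rw [h2, norm_mul]
    nlinarith [sq_nonneg (‖g 1‖ - ‖h 1‖)]
  have h2 := product_le g h N
  rw [← hfe] at h2
  have h3 : Real.sqrt (∑ m ∈ Icc 1 N, ‖g m‖ ^ 2) * Real.sqrt (∑ m ∈ Icc 1 N, ‖h m‖ ^ 2) ≤ L := by
    calc Real.sqrt (∑ m ∈ Icc 1 N, ‖g m‖ ^ 2) * Real.sqrt (∑ m ∈ Icc 1 N, ‖h m‖ ^ 2) ≤ Real.sqrt L * Real.sqrt L := by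
          gcongr
          · exact hgN _
          · exact hhN _
      _ = L := Real.mul_self_sqrt hL0
  have h4 : 2 * Real.exp 1 * (6 / (1 - ρ)) * (Real.sqrt (∑ m ∈ Icc 1 N, ‖g m‖ ^ 2) * Real.sqrt (∑ m ∈ Icc 1 N, ‖h m‖ ^ 2)) ≤
      2 * Real.exp 1 * (6 / (1 - ρ)) * L := mul_le_mul_of_nonneg_left h3 (by positivity)
  rw [hK]
  linarith

end Pool.Agent.TH804.HM
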