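import Pool.Agent.TH804.HM6

/-!
Uniqueness of coefficients; the weights are best possible
-/

set_option autoImplicit false

open Finset Filter Topology

namespace Pool.Agent.TH804.HM

/-- truncation as an arithmetic function -/
noncomputable def tr (N : ℕ) (a : ℕ → ℂ) : ArithmeticFunction ℂ := ⟨fun n => if n ∈ Icc 1 N then a n else 0, by simp⟩

lemma tr_apply (N : ℕ) (a : ℕ → ℂ) (n : ℕ) : tr N a n = if n ∈ Icc 1 N then a n else 0 := rfl

lemma tr_abs (N : ℕ) (a : ℕ → ℂ) : Abs (tr N a) := by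
  rw [abs_iff]
  refine summable_of_ne_finset_zero (s := Icc 1 N) fun n hn => ?_
  rw [tr_apply, if_neg hn, norm_zero]

lemma LS_tr (N : ℕ) (a : ℕ → ℂ) (t : ℝ) :
    LS (tr N a) t = ∑ k ∈ Icc 1 N, a k / ((k : ℂ) ^ (2 * (Real.pi : ℂ) * Complex.I * (t : ℂ))) := by
  unfold LS LSeries
  rw [tsum_eq_sum (s := Icc 1 N)]
  · refine sum_congr rfl fun k hk => ?_
    have h0 : k ≠ 0 := by rw [mem_Icc] at hk; omega
    rw [LSeries.term_def, if_neg h0, tr_apply, if_pos hk]
  · intro n hn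
    rw [LSeries.term_def, tr_apply, if_neg hn]
    simp

lemma LS_sub {f g : ArithmeticFunction ℂ} (hf : Abs f) (hg : Abs g) (t : ℝ) : LS (f - g) t = LS f t - LS g t := by
  unfold LS
  rw [← LSeries_sub (hf.at t) (hg.at t)]
  rfl

/-- uniqueness of the coefficients -/
lemma unique {f g : ArithmeticFunction ℂ} (hf : Abs f) (hg : Abs g) (h : ∀ t, LS f t = LS g t) : f = g := by
  have hfg : Abs (f - g) := by
    unfold Abs
    exact LSeriesSummable.sub hf hg
  have h1 := parseval hfg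
  have h2 : ∀ t, ‖LS (f - g) t‖ ^ 2 = 0 := fun t => by rw [LS_sub hf hg, h t, sub_self]; simp
  simp_rw [h2] at h1
  simp only [intervalIntegral.integral_zero, mul_zero] at h1
  have h3 : ∑' n, ‖(f - g) n‖ ^ 2 = 0 := tendsto_nhds_unique h1 tendsto_const_nhds
  have h4 := (hasSum_zero_iff_of_nonneg (f := fun n => ‖(f - g) n‖ ^ 2) fun n => by positivity).1
    (by rw [← h3]; exact (sq_summable' hfg).hasSum)
  ext n
  have h5 := congrFun h4 n
  simp only [Pi.zero_apply] at h5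
  have h6 : (f - g) n = 0 := by
    have : ‖(f - g) n‖ = 0 := by nlinarith [norm_nonneg ((f - g) n)]
    exact norm_eq_zero.1 this
  have h7 : (f - g) n = f n - g n := rfl
  rw [h7] at h6
  exact sub_eq_zero.1 h6

lemma emb_poly_abs {p : ℕ} (hp : 2 ≤ p) (Q : Polynomial ℂ) : Abs (emb p Q.coeff) :=
  emb_abs hp (finite_summable (N := Q.natDegree + 1) fun n hn => Polynomial.coeff_eq_zero_of_natDegree_lt (by omega))

lemma LS_poly {p : ℕ} (hp : 2 ≤ p) (Q : Polynomial ℂ) (t : ℝ) : LS (emb p Q.coeff) t = Q.eval (z p t) := by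
  rw [LS_emb hp, Polynomial.eval_eq_sum_range, tsum_eq_sum (s := range (Q.natDegree + 1))]
  intro n hn
  rw [mem_range, not_lt] at hn
  rw [Polynomial.coeff_eq_zero_of_natDegree_lt (by omega), zero_mul]

lemma prod_abs (P : Finset ℕ) (F : ℕ → ArithmeticFunction ℂ) (h : ∀ p ∈ P, Abs (F p)) : Abs (∏ p ∈ P, F p) := by
  classical
  induction P using Finset.induction_on with
  | empty =>
    rw [prod_empty, ← emb_one (le_refl 2)]
    exact emb_abs (le_refl 2) (finite_summable (N := 1) fun n hn => by unfold one; rw [if_neg (by omega)])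
  | insert p P hp ih =>
    rw [prod_insert hp]
    exact (h p (mem_insert_self _ _)).mul (ih fun q hq => h q (mem_insert_of_mem hq))

lemma LS_one (t : ℝ) : LS 1 t = 1 := by
  rw [← emb_one (le_refl 2), LS_emb (le_refl 2), tsum_eq_single 0]
  · simp [one]
  · intro n hn
    simp [one, hn]

lemma LS_prod (P : Finset ℕ) (F : ℕ → ArithmeticFunction ℂ) (h : ∀ p ∈ P, Abs (F p)) (t : ℝ) :
    LS (∏ p ∈ P, F p) t = ∏ p ∈ P, LS (F p) t := by
  classical
  induction P using Finset.induction_on with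
  | empty => rw [prod_empty, prod_empty, LS_one]
  | insert p P hp ih =>
    rw [prod_insert hp, prod_insert hp, LS_mul (h p (mem_insert_self _ _))
      (prod_abs P F fun q hq => h q (mem_insert_of_mem hq)), ih fun q hq => h q (mem_insert_of_mem hq)]

/-- products of two polynomials of the same modulus and of polynomials in `p^{-s}` are good -/
theorem good_of_product {N M : ℕ} {a b c : ℕ → ℂ} {P : Finset ℕ} {Q : ℕ → Polynomial ℂ} (hP : ∀ p ∈ P, 2 ≤ p)
    (hbc : ∀ t, ‖LS (tr M b) t‖ = ‖LS (tr M c) t‖)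
    (h : ∀ t, LS (tr N a) t = LS (tr M b) t * LS (tr M c) t * ∏ p ∈ P, (Q p).eval (z p t)) : Good (tr N a) := by
  have hQ : ∀ p ∈ P, Abs (emb p (Q p).coeff) := fun p hp => emb_poly_abs (hP p hp) _
  have h1 : tr N a = tr M b * tr M c * ∏ p ∈ P, emb p (Q p).coeff := by
    refine unique (tr_abs _ _) (((tr_abs _ _).mul (tr_abs _ _)).mul (prod_abs _ _ hQ)) fun t => ?_
    rw [LS_mul ((tr_abs _ _).mul (tr_abs _ _)) (prod_abs _ _ hQ), LS_mul (tr_abs _ _) (tr_abs _ _), LS_prod _ _ hQ, h t]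
    congr 1
    exact prod_congr rfl fun p hp => (LS_poly (hP p hp) _ _).symm
  rw [h1]
  refine Good.mul ⟨tr M b, tr M c, tr_abs _ _, tr_abs _ _, rfl, hbc⟩ (good_prod _ _ fun p hp => good_poly (hP p hp) _ _ rfl)

/-! ### the weights are best possible -/

/-- `k^{-1/2-x}` on the divisors of `m` -/
noncomputable def gg (m : ℕ) (x : ℝ) : ArithmeticFunction ℂ :=
  ⟨fun k => if k ∣ m ∧ k ≠ 0 then (((k : ℝ) ^ (-(1 / 2 + x)) : ℝ) : ℂ) else 0, by simp⟩

lemma gg_apply (m : ℕ) (x : ℝ) (k : ℕ) :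
    gg m x k = if k ∣ m ∧ k ≠ 0 then (((k : ℝ) ^ (-(1 / 2 + x)) : ℝ) : ℂ) else 0 := rfl

lemma gg_mult {m : ℕ} (x : ℝ) : (gg m x).IsMultiplicative := by
  rw [ArithmeticFunction.IsMultiplicative.iff_ne_zero]
  refine ⟨by rw [gg_apply]; simp, fun {a b} ha hb hab => ?_⟩
  rw [gg_apply, gg_apply, gg_apply]
  by_cases h1 : a ∣ m
  · by_cases h2 : b ∣ m
    · rw [if_pos ⟨hab.mul_dvd_of_dvd_of_dvd h1 h2, mul_ne_zero ha hb⟩, if_pos ⟨h1, ha⟩, if_pos ⟨h2, hb⟩, ← Complex.ofReal_mul,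
        ← Real.mul_rpow (Nat.cast_nonneg _) (Nat.cast_nonneg _), Nat.cast_mul]
    · rw [if_neg (fun h => h2 ((dvd_mul_left b a).trans h.1)), if_pos ⟨h1, ha⟩, if_neg (fun h => h2 h.1), mul_zero]
  · rw [if_neg (fun h => h1 ((dvd_mul_right a b).trans h.1)), if_neg (fun h => h1 h.1), zero_mul]

lemma gg_zero {m : ℕ} (hm : 0 < m) (x : ℝ) {k : ℕ} (hk : k ∉ Icc 1 m) : gg m x k = 0 := by
  rw [gg_apply, if_neg]
  rintro ⟨h1, h2⟩
  have := Nat.le_of_dvd hm h1
  rw [mem_Icc] at hk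
  omega

lemma gg_abs {m : ℕ} (hm : 0 < m) (x : ℝ) : Abs (gg m x) := by
  rw [abs_iff]
  exact summable_of_ne_finset_zero (s := Icc 1 m) fun n hn => by rw [gg_zero hm x hn, norm_zero]

lemma gg_sum {m : ℕ} (hm : 0 < m) {x : ℝ} (hx : 0 < x) : ∑' n, ‖gg m x n‖ ^ 2 ≤ 1 + 1 / (2 * x) := by
  rw [tsum_eq_sum (s := Icc 1 m) fun n hn => by rw [gg_zero hm x hn]; simp]
  refine le_trans (sum_le_sum fun n hn => ?_) (sum_rpow_le_one_add (show 0 < 2 * x by positivity) m)
  rw [mem_Icc] at hn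
  have hn0 : (0 : ℝ) < n := by
    have : 0 < n := by omega
    exact_mod_cast this
  rw [gg_apply]
  split_ifs
  · rw [Complex.norm_real, Real.norm_of_nonneg (by positivity), pow_two, ← Real.rpow_add hn0]
    apply le_of_eq
    congr 1
    ring
  · simp
    positivity

lemma gg_sq {y : ℕ} (x : ℝ) {k : ℕ} (hk : 1 ≤ k) (hky : k ≤ y) :
    ‖(gg y.factorial x * gg y.factorial x) k‖ = (k.divisors.card : ℝ) * (k : ℝ) ^ (-(1 / 2 + x)) := by
  have h1 : (gg y.factorial x * gg y.factorial x) k = (((k.divisors.card : ℝ) * (k : ℝ) ^ (-(1 / 2 + x)) : ℝ) : ℂ) := by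
    rw [ArithmeticFunction.mul_apply]
    have h2 : ∀ u ∈ k.divisorsAntidiagonal, gg y.factorial x u.1 * gg y.factorial x u.2 =
        (((k : ℝ) ^ (-(1 / 2 + x)) : ℝ) : ℂ) := by
      intro u hu
      rw [Nat.mem_divisorsAntidiagonal] at hu
      have hu1 : u.1 ∣ k := ⟨u.2, hu.1.symm⟩
      have hu2 : u.2 ∣ k := ⟨u.1, by rw [mul_comm]; exact hu.1.symm⟩
      have h3 := Nat.le_of_dvd (by omega) hu1
      have h4 := Nat.le_of_dvd (by omega) hu2
      have h5 := Nat.pos_of_dvd_of_pos hu1 (by omega)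
      have h6 := Nat.pos_of_dvd_of_pos hu2 (by omega)
      rw [gg_apply, gg_apply, if_pos ⟨Nat.dvd_factorial h5 (by omega), by omega⟩,
        if_pos ⟨Nat.dvd_factorial h6 (by omega), by omega⟩, ← Complex.ofReal_mul,
        ← Real.mul_rpow (Nat.cast_nonneg _) (Nat.cast_nonneg _), ← Nat.cast_mul, hu.1]
    rw [sum_congr rfl h2, sum_const, nsmul_eq_mul, ← Nat.map_div_right_divisors, card_map]
    push_cast
    rfl
  rw [h1, Complex.norm_real, Real.norm_of_nonneg (by positivity)]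

lemma divisor_sum {n y : ℕ} (hn : n ^ 2 ≤ y) :
    (∑ m ∈ Icc 1 n, 1 / (m : ℝ)) ^ 2 ≤ ∑ k ∈ Icc 1 y, (k.divisors.card : ℝ) / k := by
  classical
  have h1 : ∀ k ∈ Icc 1 y, (k.divisors.card : ℝ) / k = ∑ x ∈ k.divisorsAntidiagonal, 1 / (x.1 : ℝ) * (1 / (x.2 : ℝ)) := by
    intro k hk
    have h2 : ∀ x ∈ k.divisorsAntidiagonal, 1 / (x.1 : ℝ) * (1 / (x.2 : ℝ)) = 1 / k := by
      intro x hx
      rw [Nat.mem_divisorsAntidiagonal] at hx
      rw [one_div_mul_one_div, ← Nat.cast_mul, hx.1]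
    rw [sum_congr rfl h2, sum_const, nsmul_eq_mul, ← Nat.map_div_right_divisors, card_map]
    ring
  rw [sum_congr rfl h1, ← Finset.sum_biUnion, pow_two, sum_mul_sum, ← sum_product']
  · refine sum_le_sum_of_subset_of_nonneg ?_ fun _ _ _ => by positivity
    intro x hx
    rw [mem_product, mem_Icc, mem_Icc] at hx
    rw [mem_biUnion]
    have h3 : x.1 * x.2 ≤ n ^ 2 := by
      rw [pow_two]
      exact Nat.mul_le_mul hx.1.2 hx.2.2
    have h4 : 0 < x.1 * x.2 := Nat.mul_pos (by omega) (by omega)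
    exact ⟨x.1 * x.2, by rw [mem_Icc]; omega, by rw [Nat.mem_divisorsAntidiagonal]; exact ⟨rfl, h4.ne'⟩⟩
  · intro n _ m _ hnm
    rw [Function.onFun, disjoint_left]
    intro x hx hx'
    rw [Nat.mem_divisorsAntidiagonal] at hx hx'
    exact hnm (hx.1.symm.trans hx'.1)

lemma log_le_sum {y : ℕ} : Real.log y / 2 ≤ ∑ m ∈ Icc 1 (Nat.sqrt y), 1 / (m : ℝ) := by
  rcases Nat.eq_zero_or_pos y with h0 | h0
  · rw [h0]; simp
  have h1 : Real.log ((Nat.sqrt y : ℕ) + 1 : ℝ) ≤ ∑ m ∈ Icc 1 (Nat.sqrt y), 1 / (m : ℝ) := by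
    have := log_add_one_le_harmonic (Nat.sqrt y)
    rw [harmonic_eq_sum_Icc] at this
    push_cast at this
    simpa only [one_div] using this
  refine le_trans ?_ h1
  have h2 : (y : ℝ) ≤ ((Nat.sqrt y : ℕ) + 1 : ℝ) ^ 2 := by
    have := (Nat.lt_succ_sqrt y).le
    have h3 : y ≤ (Nat.sqrt y + 1) ^ 2 := by rw [pow_two]; exact this
    exact_mod_cast h3
  have h3 := Real.log_le_log (by exact_mod_cast h0) h2
  rw [Real.log_pow] at h3
  push_cast at h3
  linarith

theorem optimal (ω : ℕ → ℝ) (hω0 : ∀ k, 0 ≤ ω k) (hω : Tendsto ω atTop atTop) {c : ℝ} (hc : 0 < c) :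
    ∃ (f : ArithmeticFunction ℂ) (N : ℕ), f.IsMultiplicative ∧ 1 ≤ N ∧ (∀ n, N < n → f n = 0) ∧ ∃ L : ℝ,
      Tendsto (fun T : ℝ => (1 / T) * ∫ t in (-T / 2)..(T / 2), ‖LS f t‖) atTop (𝓝 L) ∧
      L < c * ∑ k ∈ Icc 2 N, ω k * ‖f k‖ / (Real.sqrt k * Real.log k) := by
  obtain ⟨Ω, hΩ⟩ : ∃ Ω : ℝ, Ω = 8 * Real.exp 1 / c := ⟨_, rfl⟩
  have hΩ0 : 0 < Ω := by rw [hΩ]; positivity
  obtain ⟨k₀, hk₀⟩ := eventually_atTop.1 (hω.eventually_ge_atTop Ω)
  obtain ⟨k₁, hk₁⟩ : ∃ k₁ : ℕ, k₁ = k₀ + 1 := ⟨_, rfl⟩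
  obtain ⟨c₀, hc₀⟩ : ∃ c₀ : ℝ, c₀ = ∑ k ∈ Icc 1 k₁, (k.divisors.card : ℝ) / k := ⟨_, rfl⟩
  have hc₀0 : 0 ≤ c₀ := by rw [hc₀]; exact sum_nonneg fun _ _ => by positivity
  have hlog : Tendsto (fun y : ℕ => Real.log y) atTop atTop := Real.tendsto_log_atTop.comp tendsto_natCast_atTop_atTop
  obtain ⟨y, hy1, hy2⟩ := ((hlog.eventually_gt_atTop (8 * c₀ + 2)).and (eventually_ge_atTop (k₁ + 2))).exists
  obtain ⟨l, hl⟩ : ∃ l : ℝ, l = Real.log y := ⟨_, rfl⟩
  rw [← hl] at hy1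
  have hl2 : 2 < l := by linarith
  have hl0 : 0 < l := by linarith
  obtain ⟨x, hx⟩ : ∃ x : ℝ, x = 1 / l := ⟨_, rfl⟩
  have hx0 : 0 < x := by rw [hx]; positivity
  obtain ⟨m, hm⟩ : ∃ m : ℕ, m = y.factorial := ⟨_, rfl⟩
  have hm0 : 0 < m := by rw [hm]; exact Nat.factorial_pos y
  have hy0 : (0 : ℝ) < y := by
    have : 0 < y := by omega
    exact_mod_cast this
  refine ⟨gg m x * gg m x, m ^ 2, (gg_mult x).mul (gg_mult x), Nat.one_le_pow _ _ hm0, fun n hn => ?_,
    ∑' n, ‖gg m x n‖ ^ 2, ?_, ?_⟩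
  · rw [ArithmeticFunction.mul_apply]
    refine sum_eq_zero fun u hu => ?_
    rw [Nat.mem_divisorsAntidiagonal] at hu
    by_cases h1 : u.1 ∈ Icc 1 m
    · by_cases h2 : u.2 ∈ Icc 1 m
      · rw [mem_Icc] at h1 h2
        have h3 : u.1 * u.2 ≤ m ^ 2 := by rw [pow_two]; exact Nat.mul_le_mul h1.2 h2.2
        omega
      · rw [gg_zero hm0 x h2, mul_zero]
    · rw [gg_zero hm0 x h1, zero_mul]
  · refine (parseval (gg_abs hm0 x)).congr fun T => ?_
    have : ∀ t, ‖LS (gg m x * gg m x) t‖ = ‖LS (gg m x) t‖ ^ 2 := fun t => by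
      rw [LS_mul (gg_abs hm0 x) (gg_abs hm0 x), norm_mul]; ring
    simp_rw [this]
  · refine (gg_sum hm0 hx0).trans_lt ?_
    have h1 : ∑ k ∈ Ioc k₁ y, Ω * Real.exp (-1) / l * ((k.divisors.card : ℝ) / k) ≤
        ∑ k ∈ Icc 2 (m ^ 2), ω k * ‖(gg m x * gg m x) k‖ / (Real.sqrt k * Real.log k) := by
      have hsub : Ioc k₁ y ⊆ Icc 2 (m ^ 2) := by
        intro k hk
        rw [mem_Ioc] at hk
        rw [mem_Icc]
        have h2 : y ≤ m := by rw [hm]; exact Nat.self_le_factorial y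
        have h3 : m ≤ m ^ 2 := Nat.le_self_pow (by norm_num) m
        omega
      refine le_trans (sum_le_sum fun k hk => ?_) (sum_le_sum_of_subset_of_nonneg hsub fun k hk _ => ?_)
      · rw [mem_Ioc] at hk
        have hk1 : 1 ≤ k := by omega
        have hk2 : (1 : ℝ) < k := by
          have : 1 < k := by omega
          exact_mod_cast this
        have hk0 : (0 : ℝ) < k := by linarith
        have hky : (k : ℝ) ≤ y := by exact_mod_cast hk.2
        have hlk0 : 0 < Real.log k := Real.log_pos hk2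
        have hlk : Real.log k ≤ l := by rw [hl]; exact Real.log_le_log hk0 hky
        rw [hm, gg_sq x hk1 hk.2]
        have h2 : Real.exp (-1) ≤ (k : ℝ) ^ (-x) := by
          rw [Real.rpow_def_of_pos hk0]
          apply Real.exp_le_exp.2
          rw [hx]
          have : Real.log k * -(1 / l) = -(Real.log k / l) := by ring
          rw [this]
          have : Real.log k / l ≤ 1 := by rw [div_le_one hl0]; exact hlk
          linarith
        have e1 : ω k * ((k.divisors.card : ℝ) * (k : ℝ) ^ (-(1 / 2 + x))) / (Real.sqrt k * Real.log k) =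
            ω k * (k : ℝ) ^ (-x) / Real.log k * ((k.divisors.card : ℝ) / k) := by
          have e2 : (k : ℝ) ^ (-(1 / 2 + x)) = (k : ℝ) ^ (-x) / Real.sqrt k := by
            rw [Real.sqrt_eq_rpow, ← Real.rpow_sub hk0]
            congr 1
            ring
          have e3 : Real.sqrt k * Real.sqrt k = (k : ℝ) := Real.mul_self_sqrt hk0.le
          have hs : 0 < Real.sqrt k := Real.sqrt_pos.2 hk0
          rw [e2]
          generalize (k : ℝ) ^ (-x) = A
          generalize (k.divisors.card : ℝ) = d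
          generalize hs' : Real.sqrt k = s at e3 hs
          generalize Real.log k = ℓ at hlk0
          rw [← e3]
          field_simp
        rw [e1]
        have h3 := hk₀ k (by omega)
        have hωk := hω0 k
        gcongr
      · rw [mem_Icc] at hk
        have hk2 : (1 : ℝ) < k := by
          have : 1 < k := by omega
          exact_mod_cast this
        have := Real.log_pos hk2
        have := hω0 k
        positivity
    have h2 : l ^ 2 / 4 - c₀ ≤ ∑ k ∈ Ioc k₁ y, (k.divisors.card : ℝ) / k := by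
      have h3 : ∑ k ∈ Icc 1 y, (k.divisors.card : ℝ) / k =
          c₀ + ∑ k ∈ Ioc k₁ y, (k.divisors.card : ℝ) / k := by
        rw [hc₀, ← Finset.sum_union]
        · congr 1
          ext k
          rw [mem_union, mem_Icc, mem_Icc, mem_Ioc]
          omega
        · rw [disjoint_left]
          intro k hk hk'
          rw [mem_Icc] at hk
          rw [mem_Ioc] at hk'
          omega
      have h4 := divisor_sum (n := Nat.sqrt y) (y := y) (by rw [pow_two]; exact Nat.sqrt_le y)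
      have h5 := log_le_sum (y := y)
      rw [← hl] at h5
      have h6 : (l / 2) ^ 2 ≤ (∑ m ∈ Icc 1 (Nat.sqrt y), 1 / (m : ℝ)) ^ 2 := pow_le_pow_left₀ (by positivity) h5 2
      rw [h3] at h4
      have : (l / 2) ^ 2 = l ^ 2 / 4 := by ring
      linarith
    rw [← mul_sum] at h1
    have h3 : Ω * Real.exp (-1) / l * (l ^ 2 / 4 - c₀) ≤
        ∑ k ∈ Icc 2 (m ^ 2), ω k * ‖(gg m x * gg m x) k‖ / (Real.sqrt k * Real.log k) :=
      (mul_le_mul_of_nonneg_left h2 (by positivity)).trans h1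
    have h4 : c * (Ω * Real.exp (-1) / l * (l ^ 2 / 4 - c₀)) = 2 * l - 8 * c₀ / l := by
      rw [hΩ, Real.exp_neg]
      field_simp
      ring
    have h5 : 8 * c₀ / l ≤ 8 * c₀ := div_le_self (by positivity) (by linarith)
    have h6 : 1 + 1 / (2 * x) = 1 + l / 2 := by rw [hx]; field_simp
    rw [h6]
    calc 1 + l / 2 < 2 * l - 8 * c₀ / l := by linarith
      _ = c * (Ω * Real.exp (-1) / l * (l ^ 2 / 4 - c₀)) := h4.symm
      _ ≤ _ := mul_le_mul_of_nonneg_left h3 hc.le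

end Pool.Agent.TH804.HM
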