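import Pool.Agent.H31R2.DH.Assemble

/-! Large values of zeta and zeros of zeta: windows. -/

set_option autoImplicit false

open Complex Metric Set Filter Topology

namespace Pool.Agent.TH804.LV

/-- a well-spaced set of points with real part at least `σ` and ordinate in `[2, T]` at which `|ζ| ≥ V` -/
def Large (V σ T : ℝ) (S : Finset ℂ) : Prop :=
  (∀ s ∈ S, σ ≤ s.re ∧ 2 ≤ s.im ∧ s.im ≤ T ∧ V ≤ ‖riemannZeta s‖) ∧
    ∀ s ∈ S, ∀ s' ∈ S, s ≠ s' → 1 ≤ |s.im - s'.im|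

lemma Large.mono {V V' σ σ' T T' : ℝ} {S : Finset ℂ} (h : Large V σ T S) (hV : V' ≤ V) (hσ : σ' ≤ σ)
    (hT : T ≤ T') : Large V' σ' T' S :=
  ⟨fun s hs => ⟨hσ.trans (h.1 s hs).1, (h.1 s hs).2.1, (h.1 s hs).2.2.1.trans hT, hV.trans (h.1 s hs).2.2.2⟩,
    h.2⟩

/-- a choice of one point for each window -/
lemma choice_bound {V σ T R : ℝ} (hR : ∀ S : Finset ℂ, Large V σ T S → (S.card : ℝ) ≤ R)
    (Q : Finset ℕ) (z : ℕ → ℂ)
    (hz : ∀ n ∈ Q, σ ≤ (z n).re ∧ 2 ≤ (z n).im ∧ (z n).im ≤ T ∧ V ≤ ‖riemannZeta (z n)‖ ∧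
      (n : ℝ) - 1 ≤ (z n).im ∧ (z n).im ≤ n + 2) : (Q.card : ℝ) ≤ 4 * R := by
  classical
  have h1 : ∀ r ∈ Finset.range 4, ((Q.filter (fun n => n % 4 = r)).card : ℝ) ≤ R := by
    intro r _
    set Qr := Q.filter (fun n => n % 4 = r) with hQr
    have hsp : ∀ n ∈ Qr, ∀ m ∈ Qr, n ≠ m → 1 ≤ |(z n).im - (z m).im| := by
      have aux : ∀ n ∈ Qr, ∀ m ∈ Qr, n < m → 1 ≤ |(z n).im - (z m).im| := by
        intro n hn m hm hnm
        rw [hQr, Finset.mem_filter] at hn hm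
        have h2 : n + 4 ≤ m := by omega
        have h3 : (n : ℝ) + 4 ≤ m := by exact_mod_cast h2
        have h4 := (hz n hn.1).2.2.2.2.2
        have h5 := (hz m hm.1).2.2.2.2.1
        rw [abs_sub_comm, abs_of_nonneg (by linarith)]
        linarith
      intro n hn m hm hne
      rcases Nat.lt_or_ge n m with h | h
      · exact aux n hn m hm h
      · rw [abs_sub_comm]
        exact aux m hm n hn (lt_of_le_of_ne h (Ne.symm hne))
    have hinj : Set.InjOn z Qr := by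
      intro n hn m hm hnm
      by_contra hne
      have := hsp n hn m hm hne
      rw [hnm] at this
      simp at this
      linarith
    have hcard : (Qr.image z).card = Qr.card := Finset.card_image_of_injOn hinj
    have h6 := hR (Qr.image z) ⟨?_, ?_⟩
    · rw [hcard] at h6
      exact h6
    · intro s hs
      rw [Finset.mem_image] at hs
      obtain ⟨n, hn, rfl⟩ := hs
      rw [hQr, Finset.mem_filter] at hn
      obtain ⟨a1, a2, a3, a4, -, -⟩ := hz n hn.1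
      exact ⟨a1, a2, a3, a4⟩
    · intro s hs s' hs' hne
      rw [Finset.mem_image] at hs hs'
      obtain ⟨n, hn, rfl⟩ := hs
      obtain ⟨m, hm, rfl⟩ := hs'
      exact hsp n hn m hm (fun h => hne (by rw [h]))
  have h2 : Q.card = ∑ r ∈ Finset.range 4, (Q.filter (fun n => n % 4 = r)).card :=
    Finset.card_eq_sum_card_fiberwise (fun n _ => Finset.mem_coe.2 (Finset.mem_range.2 (Nat.mod_lt n (by norm_num))))
  rw [h2]
  push_cast
  calc ∑ r ∈ Finset.range 4, ((Q.filter (fun n => n % 4 = r)).card : ℝ) ≤ ∑ r ∈ Finset.range 4, R :=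
        Finset.sum_le_sum h1
    _ = 4 * R := by simp

/-- **zeros beyond the density hypothesis come with large values** -/
theorem upper {ε δ : ℝ} (hε : 0 < ε) (hδ : 0 < δ) :
    ∃ η : ℝ, 0 < η ∧ ∃ C : ℝ, 0 < C ∧ ∃ T₀ : ℝ, ∀ T : ℝ, T₀ ≤ T → ∀ σ : ℝ, 1 / 2 ≤ σ → σ ≤ 1 → ∀ R : ℝ, 0 ≤ R →
      (∀ S : Finset ℂ, Large (T ^ η) (σ - δ) (T + 1) S → (S.card : ℝ) ≤ R) →
        (DH31.cnt (DH31.zeros σ T) : ℝ) ≤ C * (T ^ (2 * (1 - σ) + ε) + R * Real.log T) := by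
  classical
  obtain ⟨δ₀, hδ₀⟩ : ∃ δ₀ : ℝ, δ₀ = min δ (1 / 12) := ⟨_, rfl⟩
  have hδ₀0 : 0 < δ₀ := by rw [hδ₀]; exact lt_min hδ (by norm_num)
  have hδ₀1 : δ₀ ≤ 1 / 12 := by rw [hδ₀]; exact min_le_right _ _
  have hδ₀2 : δ₀ ≤ δ := by rw [hδ₀]; exact min_le_left _ _
  obtain ⟨η, hη, C₁, hC₁, T₁, h₁⟩ := DH31.count_a hδ₀0 hδ₀1 (show 0 < ε / 2 by positivity)
  obtain ⟨C₃, hC₃, h₃⟩ := DH31.windows_to_count
  obtain ⟨T₄, h₄⟩ := Filter.eventually_atTop.1 (DH31.ev_log 1 (ε / 2) 1 (by positivity))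
  refine ⟨η, hη, C₃ * 5 + 5 * C₃ + C₁ * C₃ + 4 * C₃, by positivity, max (max T₁ T₄) 3, ?_⟩
  intro T hT σ hσ1 hσ2 R hR0 hR
  have hT₁ : T₁ ≤ T := (le_max_left _ _).trans ((le_max_left _ _).trans hT)
  have hT₄ : T₄ ≤ T := (le_max_right _ _).trans ((le_max_left _ _).trans hT)
  have hT3 : 3 ≤ T := (le_max_right _ _).trans hT
  have hTpos : 0 < T := by linarith
  set A : Set ℂ := DH31.zeros σ T with hA
  have hAsub : A ⊆ DH31.zeros (1 / 2) T := by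
    rintro ρ ⟨a1, a2, a3, a4⟩
    exact ⟨a1, hσ1.trans a2, a3, a4⟩
  have hre : ∀ ρ ∈ A, ρ.re ≤ 1 := by
    intro ρ hρ
    by_contra hcon
    push Not at hcon
    exact riemannZeta_ne_zero_of_one_le_re hcon.le hρ.1
  -- the two kinds of windows
  set P1 : ℕ → Prop := fun n => ∃ ρ ∈ A, 3 < ρ.im ∧ (n : ℝ) < ρ.im ∧ ρ.im ≤ n + 1 ∧
    ∀ z ∈ closedBall (⟨1 + δ₀, ρ.im⟩ : ℂ) (1 + δ₀ - ρ.re + δ₀), ‖riemannZeta z‖ ≤ T ^ η with hP1
  set P2 : ℕ → Prop := fun n => ∃ ρ ∈ A, 3 < ρ.im ∧ (n : ℝ) < ρ.im ∧ ρ.im ≤ n + 1 ∧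
    ∃ z ∈ closedBall (⟨1 + δ₀, ρ.im⟩ : ℂ) (1 + δ₀ - ρ.re + δ₀), T ^ η < ‖riemannZeta z‖ with hP2
  set S1 : Finset ℕ := (Finset.range (⌊T⌋₊ + 1)).filter P1 with hS1
  set S2 : Finset ℕ := (Finset.range (⌊T⌋₊ + 1)).filter P2 with hS2
  have hc1 : (S1.card : ℝ) ≤ C₁ * T ^ (2 * (1 - σ) + ε / 2) := by
    have hSP : ∀ n ∈ S1, P1 n := fun n hn => (Finset.mem_filter.1 hn).2
    choose! ρ hρA hρ3 hρn hρn1 hρs using hSP
    refine h₁ T hT₁ σ hσ1 hσ2 S1 ρ fun n hn => ?_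
    obtain ⟨a1, a2, a3, a4⟩ := hρA n hn
    exact ⟨a1, (hρ3 n hn).le, a4, a2, hre _ (hρA n hn), ⟨(hρn n hn).le, hρn1 n hn⟩, hρs n hn⟩
  have hc2 : (S2.card : ℝ) ≤ 4 * R := by
    have hSP : ∀ n ∈ S2, P2 n := fun n hn => (Finset.mem_filter.1 hn).2
    choose! ρ hρA hρ3 hρn hρn1 z hzb hzl using hSP
    refine choice_bound hR S2 z fun n hn => ?_
    obtain ⟨a1, a2, a3, a4⟩ := hρA n hn
    have h5 := DH31.ball_re_im (hzb n hn)
    have h6 := abs_le.1 h5.2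
    have h7 := hρ3 n hn
    have h8 := hρn n hn
    have h9 := hρn1 n hn
    have h10 := hre _ (hρA n hn)
    refine ⟨by linarith [h5.1], by linarith [h6.1], by linarith [h6.2], (hzl n hn).le, by linarith [h6.1],
      by linarith [h6.2]⟩
  have hcnt := h₃ T hT3 A hAsub (S1 ∪ S2) (by
    intro w hw hw3
    set n : ℕ := ⌈w.im⌉₊ - 1 with hn
    have hceil : 1 ≤ ⌈w.im⌉₊ := Nat.one_le_iff_ne_zero.2 (by
      intro h; rw [Nat.ceil_eq_zero] at h; linarith)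
    have hn1 : ((n : ℕ) : ℝ) + 1 = (⌈w.im⌉₊ : ℝ) := by
      rw [hn]
      have : ((⌈w.im⌉₊ - 1 : ℕ) : ℝ) = (⌈w.im⌉₊ : ℝ) - 1 := by
        push_cast [Nat.cast_sub hceil]; ring
      rw [this]; ring
    have h10 : (n : ℝ) < w.im := by
      have := Nat.ceil_lt_add_one (show 0 ≤ w.im by linarith)
      linarith
    have h11 : w.im ≤ n + 1 := by rw [hn1]; exact Nat.le_ceil _
    refine ⟨n, ?_, h10, h11⟩
    have h12 : (n : ℝ) ≤ T := h10.le.trans hw.2.2.2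
    have h13 : n < ⌊T⌋₊ + 1 := by
      have := Nat.le_floor h12
      omega
    rw [Finset.mem_union, hS1, hS2, Finset.mem_filter, Finset.mem_filter, Finset.mem_range]
    by_cases hb : ∀ z ∈ closedBall (⟨1 + δ₀, w.im⟩ : ℂ) (1 + δ₀ - w.re + δ₀), ‖riemannZeta z‖ ≤ T ^ η
    · exact Or.inl ⟨h13, w, hw, hw3, h10, h11, hb⟩
    · push Not at hb
      obtain ⟨z, hz1, hz2⟩ := hb
      exact Or.inr ⟨h13, w, hw, hw3, h10, h11, z, hz1, hz2⟩)
  have hlog : Real.log T ≤ T ^ (ε / 2) := by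
    have := h₄ T hT₄
    simpa using this
  have hlog0 : 0 ≤ Real.log T := Real.log_nonneg (by linarith)
  have hone : 1 ≤ T ^ (2 * (1 - σ) + ε) := Real.one_le_rpow (by linarith) (by linarith)
  have hcu : ((S1 ∪ S2).card : ℝ) ≤ C₁ * T ^ (2 * (1 - σ) + ε / 2) + 4 * R := by
    have : ((S1 ∪ S2).card : ℝ) ≤ S1.card + S2.card := by exact_mod_cast Finset.card_union_le _ _
    linarith
  have hmul : T ^ (2 * (1 - σ) + ε / 2) * Real.log T ≤ T ^ (2 * (1 - σ) + ε) := by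
    calc T ^ (2 * (1 - σ) + ε / 2) * Real.log T ≤ T ^ (2 * (1 - σ) + ε / 2) * T ^ (ε / 2) := by gcongr
      _ = _ := by rw [← Real.rpow_add hTpos]; congr 1; ring
  have hRl : 0 ≤ R * Real.log T := by positivity
  calc (DH31.cnt A : ℝ) ≤ C₃ + ((S1 ∪ S2).card : ℝ) * (C₃ * Real.log T) := hcnt
    _ ≤ C₃ + (C₁ * T ^ (2 * (1 - σ) + ε / 2) + 4 * R) * (C₃ * Real.log T) := by gcongr
    _ = C₃ + C₁ * C₃ * (T ^ (2 * (1 - σ) + ε / 2) * Real.log T) + 4 * C₃ * (R * Real.log T) := by ring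
    _ ≤ C₃ * T ^ (2 * (1 - σ) + ε) + C₁ * C₃ * T ^ (2 * (1 - σ) + ε) + 4 * C₃ * (R * Real.log T) := by
        have : C₃ ≤ C₃ * T ^ (2 * (1 - σ) + ε) := le_mul_of_one_le_right hC₃.le hone
        gcongr
    _ ≤ _ := by
        have e1 : 0 ≤ T ^ (2 * (1 - σ) + ε) := by positivity
        nlinarith [mul_nonneg hC₃.le e1, mul_nonneg hC₃.le hRl, mul_nonneg (mul_nonneg hC₁.le hC₃.le) hRl]

end Pool.Agent.TH804.LV
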