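import Pool.Agent.TH804.LV1

/-! Large values of zeta force zeros, and the two forms of the density hypothesis. -/

set_option autoImplicit false

open Complex Metric Set Filter Topology

namespace Pool.Agent.TH804.LV

lemma floor_inj {V σ T : ℝ} {S : Finset ℂ} (h : Large V σ T S) :
    Set.InjOn (fun s : ℂ => ⌊s.im⌋₊) S := by
  intro s hs s' hs' he
  by_contra hne
  have h1 := h.2 s hs s' hs' hne
  have h2 := (h.1 s hs).2.1
  have h3 := (h.1 s' hs').2.1
  have a1 := Nat.floor_le (show 0 ≤ s.im by linarith)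
  have a2 := Nat.lt_floor_add_one s.im
  have b1 := Nat.floor_le (show 0 ≤ s'.im by linarith)
  have b2 := Nat.lt_floor_add_one s'.im
  simp only at he
  rw [he] at a1 a2
  rcases le_abs.1 h1 with h | h <;> linarith

lemma card_le {V σ T : ℝ} {S : Finset ℂ} (hT : 0 ≤ T) (h : Large V σ T S) : (S.card : ℝ) ≤ T + 1 := by
  classical
  have h1 : S.card ≤ (Finset.range (⌊T⌋₊ + 1)).card := by
    refine Finset.card_le_card_of_injOn (fun s : ℂ => ⌊s.im⌋₊) ?_ (floor_inj h)
    intro s hs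
    have := Nat.floor_le_floor (h.1 s hs).2.2.1
    rw [Finset.mem_coe, Finset.mem_range]
    exact Nat.lt_succ_of_le this
  rw [Finset.card_range] at h1
  have h2 : (S.card : ℝ) ≤ ⌊T⌋₊ + 1 := by exact_mod_cast h1
  have h3 := Nat.floor_le hT
  linarith

/-- `ζ` is bounded on a low strip -/
lemma low_bound : ∃ K : ℝ, 0 < K ∧ ∀ s : ℂ, 1 / 2 ≤ s.re → 2 ≤ s.im → s.im ≤ 3 → ‖riemannZeta s‖ ≤ K := by
  obtain ⟨A, hA1, hA⟩ := DH31.zeta_bounds (a := 2) (by norm_num)
  have hcomp : IsCompact ((Set.Icc (1 / 2 : ℝ) 2) ×ℂ (Set.Icc (2 : ℝ) 3)) := isCompact_Icc.reProdIm isCompact_Icc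
  obtain ⟨K, hK⟩ := hcomp.exists_bound_of_continuousOn (f := riemannZeta) (by
    intro z hz
    rw [Complex.mem_reProdIm] at hz
    exact ((DH31.zeta_analyticAt (by linarith [hz.2.1])).continuousAt).continuousWithinAt)
  refine ⟨max K A, lt_of_lt_of_le one_pos (hA1.trans (le_max_right _ _)), fun s h1 h2 h3 => ?_⟩
  rcases le_total s.re 2 with h | h
  · exact (hK s (by rw [Complex.mem_reProdIm]; exact ⟨⟨h1, h⟩, ⟨h2, h3⟩⟩)).trans (le_max_left _ _)
  · exact (hA s h).1.trans (le_max_right _ _)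

/-- **every large value comes with zeros**: the number of large values times `log T` is at most a constant
times the number of zeros -/
theorem lower {η δ : ℝ} (hη : 0 < η) (hδ : 0 < δ) :
    ∃ C : ℝ, 0 < C ∧ ∃ T₀ : ℝ, ∀ T : ℝ, T₀ ≤ T → ∀ σ : ℝ, 1 / 2 ≤ σ → σ ≤ 1 → ∀ S : Finset ℂ,
      Large (T ^ η) σ T S → (S.card : ℝ) * Real.log T ≤ C * (DH31.cnt (DH31.zeros (σ - δ) (T + 1)) : ℝ) := by
  classical
  obtain ⟨δ', hδ'⟩ : ∃ δ' : ℝ, δ' = min (δ / 2) (1 / 12) := ⟨_, rfl⟩
  have hδ'0 : 0 < δ' := by rw [hδ']; exact lt_min (by linarith) (by norm_num)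
  have hδ'1 : δ' ≤ 1 / 12 := by rw [hδ']; exact min_le_right _ _
  have hδ'2 : δ' ≤ δ / 2 := by rw [hδ']; exact min_le_left _ _
  obtain ⟨η', hη', T₁, h₁⟩ := DH31.backlund_zeta hδ'0 hδ'1 (show 0 < η / 2 by positivity)
  obtain ⟨A, hA1, hA⟩ := DH31.zeta_bounds (a := 1 + δ') (by linarith)
  obtain ⟨K, hK0, hK⟩ := low_bound
  obtain ⟨T₂, hT₂⟩ := Filter.eventually_atTop.1 (((tendsto_rpow_atTop hη).eventually_gt_atTop (max A K)))
  refine ⟨4 / η', by positivity, max (max T₁ T₂) 2, ?_⟩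
  intro T hT σ hσ1 hσ2 S hS
  have hT₁ : T₁ ≤ T := (le_max_left _ _).trans ((le_max_left _ _).trans hT)
  have hT₂' : T₂ ≤ T := (le_max_right _ _).trans ((le_max_left _ _).trans hT)
  have hT2 : 2 ≤ T := (le_max_right _ _).trans hT
  have hTK := hT₂ T hT₂'
  have hAT : A < T ^ η := (le_max_left _ _).trans_lt hTK
  have hKT : K < T ^ η := (le_max_right _ _).trans_lt hTK
  have hT1 : 1 < T := by linarith
  have hlog : 0 < Real.log T := Real.log_pos hT1
  have hpos : T ^ (η / 2) < T ^ η := Real.rpow_lt_rpow_of_exponent_lt hT1 (by linarith)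
  -- the zeros near each point
  have hF : ∀ s ∈ S, ∃ F : Finset ℂ, (∀ z ∈ F, z ∈ DH31.zeros (σ - δ) (T + 1) ∧ |z.im - s.im| ≤ 3 / 4) ∧
      η' * Real.log T ≤ ∑ z ∈ F, (analyticOrderNatAt riemannZeta z : ℝ) := by
    intro s hs
    obtain ⟨b1, b2, b3, b4⟩ := hS.1 s hs
    have hre : s.re ≤ 1 + δ' := by
      by_contra hcon
      push Not at hcon
      have := (hA s hcon.le).1
      linarith
    have him : 3 ≤ s.im := by
      by_contra hcon
      push Not at hcon
      have := hK s (by linarith) b2 hcon.le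
      linarith
    by_contra hcon
    push Not at hcon
    have key := h₁ T hT₁ s.im him b3 σ hσ1 hσ2 (fun F hF => by
      refine (hcon F (fun z hz => ?_)).le
      have h2 := DH31.ball_re_im (hF z hz).1
      have h3 := abs_le.1 h2.2
      refine ⟨⟨(hF z hz).2, by linarith [h2.1], by linarith [h3.1], by linarith [h3.2]⟩, by linarith [h2.2]⟩)
      s (by
        rw [mem_closedBall, dist_eq_norm]
        have e1 : s - ⟨1 + δ', s.im⟩ = ((s.re - (1 + δ') : ℝ) : ℂ) := by
          apply Complex.ext <;> simp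
        rw [e1, Complex.norm_real, Real.norm_eq_abs, abs_of_nonpos (by linarith)]
        linarith)
    linarith
  choose! F hF1 hF2 using hF
  -- classes modulo four
  have hZf := DH31.zeros_finite (σ - δ) (T + 1)
  have h1 : ∀ r ∈ Finset.range 4, ((S.filter (fun s => ⌊s.im⌋₊ % 4 = r)).card : ℝ) * (η' * Real.log T) ≤
      (DH31.cnt (DH31.zeros (σ - δ) (T + 1)) : ℝ) := by
    intro r _
    set Sr := S.filter (fun s => ⌊s.im⌋₊ % 4 = r) with hSr
    have hsp : ∀ s ∈ Sr, ∀ s' ∈ Sr, s ≠ s' → 3 ≤ |s.im - s'.im| := by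
      have aux : ∀ s ∈ Sr, ∀ s' ∈ Sr, ⌊s.im⌋₊ < ⌊s'.im⌋₊ → 3 ≤ |s.im - s'.im| := by
        intro s hs s' hs' hlt
        rw [hSr, Finset.mem_filter] at hs hs'
        have h2 : ⌊s.im⌋₊ + 4 ≤ ⌊s'.im⌋₊ := by omega
        have h3 : (⌊s.im⌋₊ : ℝ) + 4 ≤ ⌊s'.im⌋₊ := by exact_mod_cast h2
        have h4 := Nat.lt_floor_add_one s.im
        have h5 := Nat.floor_le (show 0 ≤ s'.im by linarith [(hS.1 s' hs'.1).2.1])
        rw [abs_sub_comm, abs_of_nonneg (by linarith)]
        linarith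
      intro s hs s' hs' hne
      have hne' : ⌊s.im⌋₊ ≠ ⌊s'.im⌋₊ := fun h => hne (floor_inj hS (Finset.mem_of_mem_filter _ hs)
        (Finset.mem_of_mem_filter _ hs') h)
      rcases lt_or_gt_of_ne hne' with h | h
      · exact aux s hs s' hs' h
      · rw [abs_sub_comm]
        exact aux s' hs' s hs h
    have hdisj : (Sr : Set ℂ).PairwiseDisjoint F := by
      intro s hs s' hs' hne
      rw [Function.onFun, Finset.disjoint_left]
      intro z hz hz'
      have h3 := hsp s hs s' hs' hne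
      have h4 := (hF1 s (Finset.mem_of_mem_filter _ hs) z hz).2
      have h5 := (hF1 s' (Finset.mem_of_mem_filter _ hs') z hz').2
      have h6 : |s.im - s'.im| ≤ |z.im - s.im| + |z.im - s'.im| := by
        have : s.im - s'.im = -(z.im - s.im) + (z.im - s'.im) := by ring
        rw [this]
        refine (abs_add_le _ _).trans ?_
        rw [abs_neg]
      linarith
    have h7 : ∑ z ∈ Sr.biUnion F, analyticOrderNatAt riemannZeta z ≤ DH31.cnt (DH31.zeros (σ - δ) (T + 1)) := by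
      refine DH31.sum_le_cnt hZf _ fun z hz => ?_
      rw [Finset.mem_biUnion] at hz
      obtain ⟨s, hs, hz⟩ := hz
      exact (hF1 s (Finset.mem_of_mem_filter _ hs) z hz).1
    have h8 : (∑ z ∈ Sr.biUnion F, (analyticOrderNatAt riemannZeta z : ℝ)) ≤
        (DH31.cnt (DH31.zeros (σ - δ) (T + 1)) : ℝ) := by exact_mod_cast h7
    rw [Finset.sum_biUnion hdisj] at h8
    refine le_trans ?_ h8
    calc (Sr.card : ℝ) * (η' * Real.log T) = ∑ s ∈ Sr, η' * Real.log T := by
          rw [Finset.sum_const, nsmul_eq_mul]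
      _ ≤ _ := Finset.sum_le_sum fun s hs => hF2 s (Finset.mem_of_mem_filter _ hs)
  have h2 : S.card = ∑ r ∈ Finset.range 4, (S.filter (fun s => ⌊s.im⌋₊ % 4 = r)).card :=
    Finset.card_eq_sum_card_fiberwise
      (fun s _ => Finset.mem_coe.2 (Finset.mem_range.2 (Nat.mod_lt _ (by norm_num))))
  have h3 : (S.card : ℝ) * (η' * Real.log T) ≤ 4 * (DH31.cnt (DH31.zeros (σ - δ) (T + 1)) : ℝ) := by
    rw [h2]
    push_cast
    rw [Finset.sum_mul]
    calc ∑ r ∈ Finset.range 4, ((S.filter (fun s => ⌊s.im⌋₊ % 4 = r)).card : ℝ) * (η' * Real.log T)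
        ≤ ∑ r ∈ Finset.range 4, (DH31.cnt (DH31.zeros (σ - δ) (T + 1)) : ℝ) := Finset.sum_le_sum h1
      _ = _ := by simp
  rw [div_mul_eq_mul_div, le_div_iff₀ hη']
  linarith

end Pool.Agent.TH804.LV
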