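import Pool.Agent.TH804.LV2

/-! The density hypothesis in terms of large values. -/

set_option autoImplicit false

open Complex Metric Set Filter Topology

namespace Pool.Agent.TH804.LV

/-- the density hypothesis -/
def DH : Prop := ∀ ε : ℝ, 0 < ε → ∃ C : ℝ, 0 < C ∧ ∃ T₀ : ℝ, ∀ T : ℝ, T₀ ≤ T → ∀ σ : ℝ, 1 / 2 ≤ σ → σ ≤ 1 →
  (DH31.cnt (DH31.zeros σ T) : ℝ) ≤ C * T ^ (2 * (1 - σ) + ε)

/-- the large value form, with points -/
def LVH : Prop := ∀ ε : ℝ, 0 < ε → ∀ η : ℝ, 0 < η → ∃ C : ℝ, 0 < C ∧ ∃ T₀ : ℝ, ∀ T : ℝ, T₀ ≤ T →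
  ∀ σ : ℝ, 1 / 2 ≤ σ → σ ≤ 1 → ∀ S : Finset ℂ, Large (T ^ η) σ T S → (S.card : ℝ) ≤ C * T ^ (2 * (1 - σ) + ε)

lemma two_rpow {T : ℝ} (hT : 2 ≤ T) {a b : ℝ} (ha : 0 ≤ a) (hab : a ≤ b) :
    (T + 1) ^ a ≤ 2 ^ b * T ^ a := by
  calc (T + 1) ^ a ≤ (2 * T) ^ a := Real.rpow_le_rpow (by linarith) (by linarith) ha
    _ = 2 ^ a * T ^ a := Real.mul_rpow (by norm_num) (by linarith)
    _ ≤ 2 ^ b * T ^ a := by
        have := Real.rpow_le_rpow_of_exponent_le (show (1 : ℝ) ≤ 2 by norm_num) hab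
        have : 0 ≤ T ^ a := by positivity
        gcongr

theorem LVH_of_DH (h : DH) : LVH := by
  intro ε hε η hη
  obtain ⟨C₁, hC₁, T₁, h₁⟩ := lower (η := η) (δ := ε / 8) hη (by positivity)
  obtain ⟨C₂, hC₂, T₂, h₂⟩ := h (ε / 4) (by positivity)
  obtain ⟨K, hK⟩ : ∃ K : ℝ, K = C₁ * (C₂ * 2 ^ (1 + ε)) := ⟨_, rfl⟩
  have hK0 : 0 < K := by rw [hK]; positivity
  refine ⟨K + 2, by positivity, max (max T₁ T₂) 3, ?_⟩
  intro T hT σ hσ1 hσ2 S hS
  have hT₁ : T₁ ≤ T := (le_max_left _ _).trans ((le_max_left _ _).trans hT)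
  have hT₂ : T₂ ≤ T := (le_max_right _ _).trans ((le_max_left _ _).trans hT)
  have hT3 : 3 ≤ T := (le_max_right _ _).trans hT
  have hT0 : 0 < T := by linarith
  have hpos : 0 ≤ T ^ (2 * (1 - σ) + ε) := by positivity
  rcases le_or_gt (1 / 2 + ε / 8) σ with hσ | hσ
  · have h3 := h₁ T hT₁ σ hσ1 hσ2 S hS
    have h4 := h₂ (T + 1) (by linarith) (σ - ε / 8) (by linarith) (by linarith)
    have hlog : 1 ≤ Real.log T := by
      rw [Real.le_log_iff_exp_le hT0]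
      linarith [Real.exp_one_lt_d9]
    have hc0 : (0 : ℝ) ≤ S.card := by positivity
    have h5 : (T + 1) ^ (2 * (1 - (σ - ε / 8)) + ε / 4) ≤ 2 ^ (1 + ε) * T ^ (2 * (1 - σ) + ε) := by
      refine (two_rpow (b := 1 + ε) (by linarith) (by linarith) (by linarith)).trans ?_
      exact mul_le_mul_of_nonneg_left (Real.rpow_le_rpow_of_exponent_le (by linarith) (by linarith))
        (by positivity)
    calc (S.card : ℝ) ≤ S.card * Real.log T := le_mul_of_one_le_right hc0 hlog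
      _ ≤ C₁ * (DH31.cnt (DH31.zeros (σ - ε / 8) (T + 1)) : ℝ) := h3
      _ ≤ C₁ * (C₂ * (2 ^ (1 + ε) * T ^ (2 * (1 - σ) + ε))) := by
          refine mul_le_mul_of_nonneg_left (h4.trans ?_) hC₁.le
          exact mul_le_mul_of_nonneg_left h5 hC₂.le
      _ = K * T ^ (2 * (1 - σ) + ε) := by rw [hK]; ring
      _ ≤ _ := by
          apply mul_le_mul_of_nonneg_right _ hpos
          linarith
  · have h3 := card_le hT0.le hS
    calc (S.card : ℝ) ≤ T + 1 := h3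
      _ ≤ 2 * T ^ (1 : ℝ) := by rw [Real.rpow_one]; linarith
      _ ≤ 2 * T ^ (2 * (1 - σ) + ε) :=
          mul_le_mul_of_nonneg_left (Real.rpow_le_rpow_of_exponent_le (by linarith) (by linarith)) (by norm_num)
      _ ≤ _ := by
          apply mul_le_mul_of_nonneg_right _ hpos
          linarith

theorem DH_of_LVH (h : LVH) : DH := by
  intro ε hε
  obtain ⟨η, hη, C₁, hC₁, T₁, h₁⟩ := upper (ε := ε / 2) (δ := ε / 16) (by positivity) (by positivity)
  obtain ⟨C₂, hC₂, T₂, h₂⟩ := h (ε / 4) (by positivity) (η / 2) (by positivity)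
  obtain ⟨T₃, h₃⟩ := Filter.eventually_atTop.1 (DH31.ev_log 1 (ε / 4) 1 (by positivity))
  obtain ⟨K, hK⟩ : ∃ K : ℝ, K = C₂ * 2 ^ (1 + ε) := ⟨_, rfl⟩
  have hK0 : 0 < K := by rw [hK]; positivity
  refine ⟨C₁ * (1 + (K + 2)), by positivity, max (max T₁ T₂) (max T₃ 3), ?_⟩
  intro T hT σ hσ1 hσ2
  have hT₁ : T₁ ≤ T := (le_max_left _ _).trans ((le_max_left _ _).trans hT)
  have hT₂ : T₂ ≤ T := (le_max_right _ _).trans ((le_max_left _ _).trans hT)
  have hT₃ : T₃ ≤ T := (le_max_left _ _).trans ((le_max_right _ _).trans hT)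
  have hT3 : 3 ≤ T := (le_max_right _ _).trans ((le_max_right _ _).trans hT)
  have hT0 : 0 < T := by linarith
  have hT1 : 1 ≤ T := by linarith
  have hlog : Real.log T ≤ T ^ (ε / 4) := by
    have := h₃ T hT₃
    simpa using this
  have hlog0 : 0 ≤ Real.log T := Real.log_nonneg hT1
  have hpos : 0 ≤ T ^ (2 * (1 - σ) + ε) := by positivity
  have hfirst : T ^ (2 * (1 - σ) + ε / 2) ≤ T ^ (2 * (1 - σ) + ε) :=
    Real.rpow_le_rpow_of_exponent_le hT1 (by linarith)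
  have hpow : (T + 1) ^ (η / 2) ≤ T ^ η := by
    have h5 : T + 1 ≤ T ^ (2 : ℝ) := by
      rw [show (2 : ℝ) = ((2 : ℕ) : ℝ) by norm_num, Real.rpow_natCast]
      nlinarith
    calc (T + 1) ^ (η / 2) ≤ (T ^ (2 : ℝ)) ^ (η / 2) := Real.rpow_le_rpow (by linarith) h5 (by positivity)
      _ = T ^ η := by rw [← Real.rpow_mul hT0.le]; congr 1; ring
  -- the final step from a bound for `R`
  have hfin : ∀ R : ℝ, 0 ≤ R → R * Real.log T ≤ (K + 2) * T ^ (2 * (1 - σ) + ε) →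
      (∀ S : Finset ℂ, Large (T ^ η) (σ - ε / 16) (T + 1) S → (S.card : ℝ) ≤ R) →
      (DH31.cnt (DH31.zeros σ T) : ℝ) ≤ C₁ * (1 + (K + 2)) * T ^ (2 * (1 - σ) + ε) := by
    intro R hR0 hR1 hR2
    refine (h₁ T hT₁ σ hσ1 hσ2 R hR0 hR2).trans ?_
    rw [mul_assoc]
    apply mul_le_mul_of_nonneg_left _ hC₁.le
    linarith
  rcases le_or_gt (1 / 2 + ε / 16) σ with hσ | hσ
  · refine hfin (C₂ * (T + 1) ^ (2 * (1 - (σ - ε / 16)) + ε / 4)) (by positivity) ?_ ?_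
    · calc C₂ * (T + 1) ^ (2 * (1 - (σ - ε / 16)) + ε / 4) * Real.log T
          ≤ C₂ * (2 ^ (1 + ε) * T ^ (2 * (1 - (σ - ε / 16)) + ε / 4)) * T ^ (ε / 4) := by
            have := two_rpow (T := T) (a := 2 * (1 - (σ - ε / 16)) + ε / 4) (b := 1 + ε) (by linarith)
              (by linarith) (by linarith)
            exact mul_le_mul (mul_le_mul_of_nonneg_left this hC₂.le) hlog hlog0 (by positivity)
        _ = K * (T ^ (2 * (1 - (σ - ε / 16)) + ε / 4) * T ^ (ε / 4)) := by rw [hK]; ring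
        _ = K * T ^ (2 * (1 - (σ - ε / 16)) + ε / 4 + ε / 4) := by rw [← Real.rpow_add hT0]
        _ ≤ (K + 2) * T ^ (2 * (1 - σ) + ε) :=
            mul_le_mul (by linarith) (Real.rpow_le_rpow_of_exponent_le hT1 (by linarith)) (by positivity)
              (by positivity)
    · intro S hS
      exact h₂ (T + 1) (by linarith) (σ - ε / 16) (by linarith) (by linarith) S
        (hS.mono hpow le_rfl le_rfl)
  · refine hfin (T + 2) (by linarith) ?_ ?_
    · calc (T + 2) * Real.log T ≤ (2 * T ^ (1 : ℝ)) * T ^ (ε / 4) := by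
            have : T + 2 ≤ 2 * T ^ (1 : ℝ) := by rw [Real.rpow_one]; linarith
            gcongr
        _ = 2 * T ^ (1 + ε / 4) := by rw [Real.rpow_add hT0]; ring
        _ ≤ (K + 2) * T ^ (2 * (1 - σ) + ε) :=
            mul_le_mul (by linarith) (Real.rpow_le_rpow_of_exponent_le hT1 (by linarith)) (by positivity)
              (by positivity)
    · intro S hS
      have := card_le (by linarith) hS
      linarith

theorem DH_iff_LVH : DH ↔ LVH := ⟨LVH_of_DH, DH_of_LVH⟩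

end Pool.Agent.TH804.LV
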