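import Pool.Agent.TH804.LV3
import Pool.Agent.TH804.LV4
import Pool.Agent.TH804.SP3

/-! The density hypothesis in terms of the measure of large values on vertical lines. -/

set_option autoImplicit false

open Complex Metric Set Filter Topology MeasureTheory

namespace Pool.Agent.TH804.LV

/-- the large value form, with measures on vertical lines -/
def LMH : Prop := ∀ ε : ℝ, 0 < ε → ∀ η : ℝ, 0 < η → ∃ C : ℝ, 0 < C ∧ ∃ T₀ : ℝ, ∀ T : ℝ, T₀ ≤ T →
  ∀ σ : ℝ, 1 / 2 ≤ σ → σ ≤ 1 →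
    volume {t : ℝ | 0 ≤ t ∧ t ≤ T ∧ T ^ η ≤ ‖riemannZeta (σ + t * I)‖} ≤
      ENNReal.ofReal (C * T ^ (2 * (1 - σ) + ε))

theorem LMH_of_LVH (h : LVH) : LMH := by
  classical
  intro ε hε η hη
  obtain ⟨C, hC, T₀, h₀⟩ := h ε hε η hη
  refine ⟨2 + 4 * C, by positivity, max T₀ 2, ?_⟩
  intro T hT σ hσ1 hσ2
  have hT₀ : T₀ ≤ T := (le_max_left _ _).trans hT
  have hT2 : 2 ≤ T := (le_max_right _ _).trans hT
  have hT0 : 0 < T := by linarith
  set E : Set ℝ := {t : ℝ | 0 ≤ t ∧ t ≤ T ∧ T ^ η ≤ ‖riemannZeta (σ + t * I)‖} with hE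
  set P : ℕ → Prop := fun n => ∃ t : ℝ, (n : ℝ) ≤ t ∧ t ≤ n + 1 ∧ 2 ≤ t ∧ t ≤ T ∧
    T ^ η ≤ ‖riemannZeta (σ + t * I)‖ with hP
  set Q : Finset ℕ := (Finset.range (⌊T⌋₊ + 1)).filter P with hQ
  have hQP : ∀ n ∈ Q, P n := fun n hn => (Finset.mem_filter.1 hn).2
  have hcard : (Q.card : ℝ) ≤ 4 * (C * T ^ (2 * (1 - σ) + ε)) := by
    choose! t ht1 ht2 ht3 ht4 ht5 using hQP
    refine choice_bound (h₀ T hT₀ σ hσ1 hσ2) Q (fun n => (σ : ℂ) + (t n : ℂ) * I) fun n hn => ?_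
    have e1 : ((σ : ℂ) + (t n : ℂ) * I).re = σ := by simp
    have e2 : ((σ : ℂ) + (t n : ℂ) * I).im = t n := by simp
    rw [e1, e2]
    refine ⟨le_rfl, ht3 n hn, ht4 n hn, ht5 n hn, by linarith [ht1 n hn], by linarith [ht2 n hn]⟩
  have hsub : E ⊆ Set.Icc 0 2 ∪ ⋃ n ∈ Q, Set.Icc (n : ℝ) (n + 1) := by
    rintro t ⟨h1, h2, h3⟩
    rcases le_or_gt t 2 with h | h
    · exact Or.inl ⟨h1, h⟩
    · right
      rw [Set.mem_iUnion₂]
      have hf1 := Nat.floor_le h1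
      have hf2 := Nat.lt_floor_add_one t
      refine ⟨⌊t⌋₊, ?_, hf1, hf2.le⟩
      rw [hQ, Finset.mem_filter, Finset.mem_range]
      exact ⟨Nat.lt_succ_of_le (Nat.floor_le_floor h2), t, hf1, hf2.le, h.le, h2, h3⟩
  have hpos : 0 ≤ C * T ^ (2 * (1 - σ) + ε) := by positivity
  have hone : 1 ≤ T ^ (2 * (1 - σ) + ε) := Real.one_le_rpow (by linarith) (by linarith)
  calc volume E ≤ volume (Set.Icc (0 : ℝ) 2 ∪ ⋃ n ∈ Q, Set.Icc (n : ℝ) (n + 1)) := measure_mono hsub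
    _ ≤ volume (Set.Icc (0 : ℝ) 2) + volume (⋃ n ∈ Q, Set.Icc (n : ℝ) (n + 1)) := measure_union_le _ _
    _ ≤ ENNReal.ofReal 2 + ∑ n ∈ Q, volume (Set.Icc (n : ℝ) (n + 1)) := by
        refine add_le_add ?_ (measure_biUnion_finset_le _ _)
        rw [Real.volume_Icc]
        simp
    _ = ENNReal.ofReal 2 + ENNReal.ofReal Q.card := by
        congr 1
        have : ∀ n ∈ Q, volume (Set.Icc (n : ℝ) (n + 1)) = 1 := by
          intro n _
          rw [Real.volume_Icc]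
          simp
        rw [Finset.sum_congr rfl this, Finset.sum_const, nsmul_eq_mul, mul_one, ENNReal.ofReal_natCast]
    _ = ENNReal.ofReal (2 + Q.card) := (ENNReal.ofReal_add (by norm_num) (by positivity)).symm
    _ ≤ _ := by
        apply ENNReal.ofReal_le_ofReal
        calc (2 : ℝ) + Q.card ≤ 2 * T ^ (2 * (1 - σ) + ε) + 4 * (C * T ^ (2 * (1 - σ) + ε)) := by linarith
          _ = _ := by ring

/-- area by vertical slices -/
lemma vol_slices {A : Set ℂ} (hA : MeasurableSet A) :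
    volume A = ∫⁻ x : ℝ, volume {y : ℝ | (⟨x, y⟩ : ℂ) ∈ A} := by
  have h := (Complex.volume_preserving_equiv_real_prod.symm Complex.measurableEquivRealProd).measure_preimage
    hA.nullMeasurableSet
  rw [← h, Measure.volume_eq_prod, Measure.prod_apply]
  · rfl
  · exact Complex.measurableEquivRealProd.symm.measurable hA

end Pool.Agent.TH804.LV
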