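import Pool.Agent.TH804.LV5

/-! From the measure of large values to the number of large values. -/

set_option autoImplicit false

open Complex Metric Set Filter Topology MeasureTheory

namespace Pool.Agent.TH804.LV

theorem LVH_of_LMH (h : LMH) : LVH := by
  classical
  intro ε hε η hη
  obtain ⟨r, hr⟩ : ∃ r : ℝ, r = min (ε / 32) (1 / 8) := ⟨_, rfl⟩
  have hr0 : 0 < r := by rw [hr]; exact lt_min (by positivity) (by norm_num)
  have hr1 : r ≤ 1 / 8 := by rw [hr]; exact min_le_right _ _
  have hr2 : r ≤ ε / 32 := by rw [hr]; exact min_le_left _ _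
  obtain ⟨C, hC, T₁, h₁⟩ := h (ε / 4) (by positivity) (η / 4) (by positivity)
  obtain ⟨A, hA1, hA⟩ := DH31.zeta_bounds (a := 3 / 2) (by norm_num)
  obtain ⟨K, hK0, hK⟩ := low_bound
  obtain ⟨E0, hE0, hE04, hedge⟩ := SP.zeta_edge (δ := η / 4) (by positivity)
  obtain ⟨C₂, hC₂, h₂⟩ := hedge E0 hE0 le_rfl
  obtain ⟨T₂, hT₂⟩ := Filter.eventually_atTop.1 (((tendsto_rpow_atTop hη).eventually_gt_atTop (max A K)))
  obtain ⟨T₃, hT₃⟩ := Filter.eventually_atTop.1
    (((tendsto_rpow_atTop (show 0 < η / 4 by positivity)).eventually_gt_atTop (2 * C₂)))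
  obtain ⟨a₀, ha₀⟩ : ∃ a₀ : ℝ, a₀ = Real.pi * r ^ 2 * (η / 4) := ⟨_, rfl⟩
  have ha₀0 : 0 < a₀ := by rw [ha₀]; have := Real.pi_pos; positivity
  obtain ⟨K', hK'⟩ : ∃ K' : ℝ, K' = 2 * C * 2 ^ (1 + ε) / a₀ := ⟨_, rfl⟩
  have hK'0 : 0 < K' := by rw [hK']; positivity
  refine ⟨K' + 2, by positivity, max (max T₁ T₂) (max T₃ 20), ?_⟩
  intro T hT σ hσ1 hσ2 S hS
  have hT₁ : T₁ ≤ T := (le_max_left _ _).trans ((le_max_left _ _).trans hT)
  have hT₂' : T₂ ≤ T := (le_max_right _ _).trans ((le_max_left _ _).trans hT)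
  have hT₃' : T₃ ≤ T := (le_max_left _ _).trans ((le_max_right _ _).trans hT)
  have hT20 : 20 ≤ T := (le_max_right _ _).trans ((le_max_right _ _).trans hT)
  have hT0 : 0 < T := by linarith
  have hT1 : 1 < T := by linarith
  have hpos : 0 ≤ T ^ (2 * (1 - σ) + ε) := by positivity
  have hTK := hT₂ T hT₂'
  have hAT : A < T ^ η := (le_max_left _ _).trans_lt hTK
  have hKT : K < T ^ η := (le_max_right _ _).trans_lt hTK
  have hC₂T := hT₃ T hT₃'
  rcases le_or_gt (1 / 2 + r) σ with hσ | hσ
  swap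
  · have h3 := card_le hT0.le hS
    calc (S.card : ℝ) ≤ T + 1 := h3
      _ ≤ 2 * T ^ (1 : ℝ) := by rw [Real.rpow_one]; linarith
      _ ≤ 2 * T ^ (2 * (1 - σ) + ε) :=
          mul_le_mul_of_nonneg_left (Real.rpow_le_rpow_of_exponent_le (by linarith) (by linarith)) (by norm_num)
      _ ≤ _ := by
          apply mul_le_mul_of_nonneg_right _ hpos
          linarith
  -- the main case
  obtain ⟨V, hV⟩ : ∃ V : ℝ, V = T ^ (η / 2) := ⟨_, rfl⟩
  have hV1 : 1 < V := by rw [hV]; exact Real.one_lt_rpow hT1 (by positivity)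
  have hV2 : V ^ 2 = T ^ η := by
    rw [hV, ← Real.rpow_natCast, ← Real.rpow_mul hT0.le]
    congr 1
    push_cast
    ring
  have hpt : ∀ s ∈ S, s.re ≤ 3 / 2 ∧ 3 ≤ s.im := by
    intro s hs
    obtain ⟨b1, b2, b3, b4⟩ := hS.1 s hs
    constructor
    · by_contra hcon
      push Not at hcon
      have := (hA s hcon.le).1
      linarith
    · by_contra hcon
      push Not at hcon
      have := hK s (by linarith) b2 hcon.le
      linarith
  set B : Set ℂ := {z | V ≤ ‖riemannZeta z‖} with hB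
  set R : Set ℂ := (Set.Icc (σ - r) 2) ×ℂ (Set.Icc (2 : ℝ) (T + 1)) with hR
  have hRcl : IsClosed R := isClosed_Icc.reProdIm isClosed_Icc
  have hRB : MeasurableSet (R ∩ B) := by
    have hc : ContinuousOn (fun z => ‖riemannZeta z‖) R := by
      intro z hz
      rw [hR, Complex.mem_reProdIm] at hz
      exact ((DH31.zeta_analyticAt (by linarith [hz.2.1])).continuousAt).norm.continuousWithinAt
    exact (hc.preimage_isClosed_of_isClosed hRcl (isClosed_Ici (a := V))).measurableSet
  -- the balls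
  have hball : ∀ s ∈ S, ball s r ⊆ R := by
    intro s hs z hz
    rw [mem_ball, dist_eq_norm] at hz
    have h1 := Complex.abs_re_le_norm (z - s)
    have h2 := Complex.abs_im_le_norm (z - s)
    rw [Complex.sub_re] at h1
    rw [Complex.sub_im] at h2
    have h3 := abs_le.1 (h1.trans hz.le)
    have h4 := abs_le.1 (h2.trans hz.le)
    obtain ⟨b1, b2, b3, b4⟩ := hS.1 s hs
    have := hpt s hs
    rw [hR, Complex.mem_reProdIm]
    exact ⟨⟨by linarith, by linarith⟩, ⟨by linarith, by linarith⟩⟩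
  have harea : ∀ s ∈ S, ENNReal.ofReal a₀ ≤ volume (ball s r ∩ B) := by
    intro s hs
    have hp := hpt s hs
    have hpos2 : ∀ z ∈ closedBall s r, 1 / 4 ≤ z.re ∧ 1 ≤ z.im ∧ ‖z‖ ≤ T + 3 := by
      intro z hz
      rw [mem_closedBall, dist_eq_norm] at hz
      have h1 := Complex.abs_re_le_norm (z - s)
      have h2 := Complex.abs_im_le_norm (z - s)
      rw [Complex.sub_re] at h1
      rw [Complex.sub_im] at h2
      have h3 := abs_le.1 (h1.trans hz)
      have h4 := abs_le.1 (h2.trans hz)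
      obtain ⟨b1, b2, b3, b4⟩ := hS.1 s hs
      refine ⟨by linarith, by linarith, ?_⟩
      refine (Complex.norm_le_abs_re_add_abs_im z).trans ?_
      rw [abs_of_nonneg (by linarith), abs_of_nonneg (by linarith)]
      linarith
    have key := area_large (w := riemannZeta) (c := s) (t := r) (V := V) (M := T ^ 2) hr0 hV1 (by nlinarith)
      (fun z hz => DH31.zeta_analyticAt (by linarith [(hpos2 z hz).2.1]))
      (fun z hz => by
        obtain ⟨h1, h2, h3⟩ := hpos2 z (ball_subset_closedBall hz)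
        refine (Pool.Agent.H388LH.zeta_growth h1 h2).trans ?_
        nlinarith)
      (by rw [hV2]; exact (hS.1 s hs).2.2.2)
    have hval : Real.pi * r ^ 2 * Real.log V / Real.log (T ^ 2) = a₀ := by
      rw [hV, Real.log_rpow hT0, Real.log_pow, ha₀]
      have : Real.log T ≠ 0 := (Real.log_pos hT1).ne'
      field_simp
      norm_num
    rw [hval] at key
    exact ENNReal.ofReal_le_of_le_toReal key
  have hdisj : (S : Set ℂ).PairwiseDisjoint (fun s => ball s r ∩ B) := by
    intro s hs s' hs' hne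
    rw [Function.onFun, Set.disjoint_left]
    rintro z ⟨hz, -⟩ ⟨hz', -⟩
    rw [mem_ball, dist_eq_norm] at hz hz'
    have h3 := hS.2 s hs s' hs' hne
    have h1 := Complex.abs_im_le_norm (z - s)
    have h2 := Complex.abs_im_le_norm (z - s')
    rw [Complex.sub_im] at h1 h2
    have h6 : |s.im - s'.im| ≤ |z.im - s.im| + |z.im - s'.im| := by
      have : s.im - s'.im = -(z.im - s.im) + (z.im - s'.im) := by ring
      rw [this]
      refine (abs_add_le _ _).trans ?_
      rw [abs_neg]
    linarith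
  have hsum : (S.card : ENNReal) * ENNReal.ofReal a₀ ≤ volume (R ∩ B) := by
    have hm : ∀ s ∈ S, MeasurableSet (ball s r ∩ B) := by
      intro s hs
      have : ball s r ∩ B = ball s r ∩ (R ∩ B) := by
        ext z
        constructor
        · rintro ⟨a, b⟩; exact ⟨a, hball s hs a, b⟩
        · rintro ⟨a, b, c⟩; exact ⟨a, c⟩
      rw [this]
      exact measurableSet_ball.inter hRB
    calc (S.card : ENNReal) * ENNReal.ofReal a₀ = ∑ s ∈ S, ENNReal.ofReal a₀ := by
          rw [Finset.sum_const, nsmul_eq_mul]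
      _ ≤ ∑ s ∈ S, volume (ball s r ∩ B) := Finset.sum_le_sum harea
      _ = volume (⋃ s ∈ S, ball s r ∩ B) := (measure_biUnion_finset hdisj hm).symm
      _ ≤ volume (R ∩ B) := by
          apply measure_mono
          intro z hz
          rw [Set.mem_iUnion₂] at hz
          obtain ⟨s, hs, hz1, hz2⟩ := hz
          exact ⟨hball s hs hz1, hz2⟩
  -- the slices
  obtain ⟨Y, hY⟩ : ∃ Y : ℝ, Y = C * (T + 1) ^ (2 * (1 - (σ - r)) + ε / 4) := ⟨_, rfl⟩
  have hY0 : 0 ≤ Y := by rw [hY]; positivity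
  have hVT : (T + 1) ^ (η / 4) ≤ V := by
    have h5 : T + 1 ≤ T ^ (2 : ℝ) := by
      rw [show (2 : ℝ) = ((2 : ℕ) : ℝ) by norm_num, Real.rpow_natCast]
      nlinarith
    calc (T + 1) ^ (η / 4) ≤ (T ^ (2 : ℝ)) ^ (η / 4) := Real.rpow_le_rpow (by linarith) h5 (by positivity)
      _ = V := by rw [hV, ← Real.rpow_mul hT0.le]; congr 1; ring
  have hslice : ∀ x : ℝ, volume {y : ℝ | (⟨x, y⟩ : ℂ) ∈ R ∩ B} ≤
      (Set.Icc (σ - r) 2).indicator (fun _ => ENNReal.ofReal Y) x := by
    intro x
    by_cases hx : x ∈ Set.Icc (σ - r) 2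
    · rw [Set.indicator_of_mem hx]
      rcases le_or_gt x 1 with hx1 | hx1
      · have h5 := h₁ (T + 1) (by linarith) x (by linarith [hx.1]) hx1
        refine (measure_mono ?_).trans (h5.trans (ENNReal.ofReal_le_ofReal ?_))
        · rintro y ⟨hy1, hy2⟩
          rw [hR, Complex.mem_reProdIm] at hy1
          refine ⟨by linarith [hy1.2.1], hy1.2.2, hVT.trans ?_⟩
          rw [← Complex.mk_eq_add_mul_I]
          exact hy2
        · rw [hY]
          apply mul_le_mul_of_nonneg_left _ hC.le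
          exact Real.rpow_le_rpow_of_exponent_le (by linarith) (by linarith [hx.1])
      · have hemp : {y : ℝ | (⟨x, y⟩ : ℂ) ∈ R ∩ B} = ∅ := by
          ext y
          simp only [Set.mem_ofPred_eq, Set.mem_empty_iff_false, iff_false]
          rintro ⟨hy1, hy2⟩
          rw [hR, Complex.mem_reProdIm] at hy1
          simp only [Set.mem_Icc] at hy1
          have h6 := h₂ ⟨x, y⟩ (by simp only; linarith) (by simp only; linarith [hx.2]) (by simpa using hy1.2.1)
          simp only at h6
          have h7 : V ≤ C₂ * y ^ (η / 4 * E0) := le_trans hy2 h6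
          have hy0 : 0 < y := by linarith [hy1.2.1]
          have h8 : y ^ (η / 4 * E0) ≤ 2 * T ^ (η / 4) := by
            calc y ^ (η / 4 * E0) ≤ (T + 1) ^ (η / 4 * E0) :=
                  Real.rpow_le_rpow hy0.le hy1.2.2 (by positivity)
              _ ≤ (T + 1) ^ (η / 8) := by
                  apply Real.rpow_le_rpow_of_exponent_le (by linarith)
                  nlinarith
              _ ≤ (T ^ (2 : ℝ)) ^ (η / 8) := by
                  apply Real.rpow_le_rpow (by linarith) _ (by positivity)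
                  rw [show (2 : ℝ) = ((2 : ℕ) : ℝ) by norm_num, Real.rpow_natCast]
                  nlinarith
              _ = T ^ (η / 4) := by rw [← Real.rpow_mul hT0.le]; congr 1; ring
              _ ≤ 2 * T ^ (η / 4) := by
                  have : 0 < T ^ (η / 4) := by positivity
                  linarith
          have h9 : V = T ^ (η / 4) * T ^ (η / 4) := by
            rw [hV, ← Real.rpow_add hT0]; congr 1; ring
          have h10 : 0 < T ^ (η / 4) := by positivity
          have h11 : C₂ * y ^ (η / 4 * E0) ≤ C₂ * (2 * T ^ (η / 4)) := mul_le_mul_of_nonneg_left h8 hC₂.le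
          have h12 : (2 * C₂) * T ^ (η / 4) < T ^ (η / 4) * T ^ (η / 4) := mul_lt_mul_of_pos_right hC₂T h10
          linarith
        rw [hemp, measure_empty]
        exact zero_le
    · rw [Set.indicator_of_notMem hx]
      have hemp : {y : ℝ | (⟨x, y⟩ : ℂ) ∈ R ∩ B} = ∅ := by
        ext y
        simp only [Set.mem_ofPred_eq, Set.mem_empty_iff_false, iff_false]
        rintro ⟨hy1, hy2⟩
        rw [hR, Complex.mem_reProdIm] at hy1
        exact hx hy1.1
      rw [hemp, measure_empty]
  have hvol : volume (R ∩ B) ≤ ENNReal.ofReal (2 * Y) := by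
    rw [vol_slices hRB]
    calc ∫⁻ x : ℝ, volume {y : ℝ | (⟨x, y⟩ : ℂ) ∈ R ∩ B}
        ≤ ∫⁻ x : ℝ, (Set.Icc (σ - r) 2).indicator (fun _ => ENNReal.ofReal Y) x := lintegral_mono hslice
      _ = ENNReal.ofReal Y * volume (Set.Icc (σ - r) 2) := by
          rw [lintegral_indicator measurableSet_Icc, setLIntegral_const]
      _ ≤ ENNReal.ofReal Y * ENNReal.ofReal 2 := by
          gcongr
          rw [Real.volume_Icc]
          apply ENNReal.ofReal_le_ofReal
          linarith
      _ = ENNReal.ofReal (2 * Y) := by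
          rw [← ENNReal.ofReal_mul hY0]; congr 1; ring
  have hfinal : (S.card : ℝ) * a₀ ≤ 2 * Y := by
    have h5 := hsum.trans hvol
    rw [← ENNReal.ofReal_natCast, ← ENNReal.ofReal_mul (by positivity)] at h5
    exact (ENNReal.ofReal_le_ofReal_iff (by positivity)).1 h5
  have h6 : (T + 1) ^ (2 * (1 - (σ - r)) + ε / 4) ≤ 2 ^ (1 + ε) * T ^ (2 * (1 - σ) + ε) := by
    refine (two_rpow (b := 1 + ε) (by linarith) (by linarith) (by linarith)).trans ?_
    exact mul_le_mul_of_nonneg_left (Real.rpow_le_rpow_of_exponent_le (by linarith) (by linarith))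
      (by positivity)
  calc (S.card : ℝ) ≤ 2 * Y / a₀ := by rw [le_div_iff₀ ha₀0]; exact hfinal
    _ ≤ 2 * (C * (2 ^ (1 + ε) * T ^ (2 * (1 - σ) + ε))) / a₀ := by
        rw [hY]
        gcongr
    _ = K' * T ^ (2 * (1 - σ) + ε) := by rw [hK']; ring
    _ ≤ _ := by
        apply mul_le_mul_of_nonneg_right _ hpos
        linarith

theorem main : (DH ↔ LVH) ∧ (DH ↔ LMH) :=
  ⟨DH_iff_LVH, ⟨fun h => LMH_of_LVH (LVH_of_DH h), fun h => DH_of_LVH (LVH_of_LMH h)⟩⟩

end Pool.Agent.TH804.LV
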