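import Pool.Agent.TH804.SS3
import Pool.Agent.W190.C1
import Pool.Agent.H31R2.DH.Detect

/-! Fourth power mean of the sections slightly to the right of the critical line. -/

set_option autoImplicit false

open Complex MeasureTheory Filter Topology Finset

namespace Pool.Agent.TH804.SD

open Pool.Agent.TH804.SS

/-- coefficients of the square of the section -/
noncomputable def sq (N m : ℕ) : ℝ :=
  ((((Finset.range N) ×ˢ (Finset.range N)).filter (fun p => (p.1 + 1) * (p.2 + 1) = m)).card : ℝ)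

lemma sq_nonneg' (N m : ℕ) : 0 ≤ sq N m := by unfold sq; positivity

lemma sq_le (N m : ℕ) (hm : 1 ≤ m) : sq N m ≤ m.divisors.card := by
  unfold sq
  have : (((Finset.range N) ×ˢ (Finset.range N)).filter (fun p => (p.1 + 1) * (p.2 + 1) = m)).card ≤
      m.divisors.card := by
    refine Finset.card_le_card_of_injOn (fun p => p.1 + 1) ?_ ?_
    · intro p hp
      rw [Finset.mem_coe, Finset.mem_filter] at hp
      rw [Finset.mem_coe, Nat.mem_divisors]
      exact ⟨⟨p.2 + 1, hp.2.symm⟩, by omega⟩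
    · intro p hp q hq hpq
      rw [Finset.mem_coe, Finset.mem_filter] at hp hq
      simp only at hpq
      have h1 : p.1 = q.1 := by omega
      have h2 : (p.1 + 1) * (p.2 + 1) = (p.1 + 1) * (q.2 + 1) := by rw [hp.2, h1, hq.2]
      have h3 : p.2 + 1 = q.2 + 1 := Nat.eq_of_mul_eq_mul_left (Nat.succ_pos _) h2
      exact Prod.ext h1 (by omega)
  exact_mod_cast this

lemma sec_sq (N : ℕ) (s : ℂ) :
    sec N s ^ 2 = ∑ m ∈ Finset.Icc 1 (N * N), (sq N m : ℂ) * (m : ℂ) ^ (-s) := by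
  classical
  unfold sec
  rw [pow_two, Finset.sum_mul_sum, ← Finset.sum_product']
  rw [← Finset.sum_fiberwise_of_maps_to (s := (Finset.range N) ×ˢ (Finset.range N))
    (t := Finset.Icc 1 (N * N)) (g := fun p => (p.1 + 1) * (p.2 + 1))]
  · refine Finset.sum_congr rfl fun m hm => ?_
    have h1 : ∀ p ∈ ((Finset.range N) ×ˢ (Finset.range N)).filter (fun p => (p.1 + 1) * (p.2 + 1) = m),
        ((p.1 : ℂ) + 1) ^ (-s) * ((p.2 : ℂ) + 1) ^ (-s) = (m : ℂ) ^ (-s) := by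
      intro p hp
      rw [Finset.mem_filter] at hp
      rw [← hp.2]
      have e1 : ((p.1 : ℂ) + 1) = ((p.1 + 1 : ℕ) : ℂ) := by push_cast; ring
      have e2 : ((p.2 : ℂ) + 1) = ((p.2 + 1 : ℕ) : ℂ) := by push_cast; ring
      rw [e1, e2, Nat.cast_mul, Complex.natCast_mul_natCast_cpow]
    rw [Finset.sum_congr rfl h1, Finset.sum_const, nsmul_eq_mul]
    simp [sq]
  · intro p hp
    rw [Finset.mem_product, Finset.mem_range, Finset.mem_range] at hp
    rw [Finset.mem_Icc]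
    exact ⟨Nat.one_le_iff_ne_zero.2 (by positivity), Nat.mul_le_mul (by omega) (by omega)⟩

/-- fourth power mean of a section on the line `1/2 + x` -/
theorem sec4 {x : ℝ} (hx : 0 < x) : ∃ C : ℝ, 0 < C ∧ ∀ T : ℝ, 1 ≤ T → ∀ N : ℕ, (N : ℝ) ≤ T →
    ∫ t in (-T)..T, ‖sec N (((1 / 2 + x : ℝ) : ℂ) + (t : ℂ) * I)‖ ^ 4 ≤ C * (T + (N : ℝ) ^ 2) := by
  obtain ⟨C₁, hC₁, hd⟩ := DH31.div_bound (show 0 < x / 2 by positivity)
  have hsum : Summable (fun n : ℕ => ((n : ℝ)) ^ (-(1 + x))) :=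
    Real.summable_nat_rpow.2 (by linarith)
  obtain ⟨Z, hZ⟩ : ∃ Z : ℝ, Z = ∑' n : ℕ, ((n : ℝ)) ^ (-(1 + x)) := ⟨_, rfl⟩
  have hZ0 : 0 ≤ Z := by rw [hZ]; exact tsum_nonneg fun n => by positivity
  refine ⟨Real.exp 1 * (24 * √Real.pi * (C₁ ^ 2 * Z)) + 1, by positivity, fun T hT N hN => ?_⟩
  have hT0 : 0 < T := by linarith
  have hNN : ((N * N : ℕ) : ℝ) ≤ T ^ 2 := by
    push_cast
    have : (0 : ℝ) ≤ N := N.cast_nonneg
    nlinarith
  obtain ⟨hi, hmv⟩ := Pool.Agent.W190.gmv (1 / 2 + x) (Finset.Icc 1 (N * N)) (sq N) (N * N)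
    (fun n hn => Finset.mem_Icc.1 hn) T hT hNN
  have heq : ∀ t : ℝ, ‖sec N (((1 / 2 + x : ℝ) : ℂ) + (t : ℂ) * I)‖ ^ 4 =
      ‖∑ n ∈ Finset.Icc 1 (N * N), (sq N n : ℂ) * (n : ℂ) ^ (-(((1 / 2 + x : ℝ) : ℂ) + t * I))‖ ^ 2 := by
    intro t
    rw [← sec_sq, norm_pow]
    ring
  have hcont : Continuous (fun t : ℝ => ‖sec N (((1 / 2 + x : ℝ) : ℂ) + (t : ℂ) * I)‖ ^ 4) := by
    have : Continuous (fun t : ℝ => sec N (((1 / 2 + x : ℝ) : ℂ) + (t : ℂ) * I)) :=
      (sec_diff N).continuous.comp (by fun_prop)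
    exact this.norm.pow 4
  have h1 : ∫ t in (-T)..T, ‖sec N (((1 / 2 + x : ℝ) : ℂ) + (t : ℂ) * I)‖ ^ 4 ≤
      Real.exp 1 * ∫ t : ℝ, Real.exp (-(t / T) ^ 2) *
        ‖∑ n ∈ Finset.Icc 1 (N * N), (sq N n : ℂ) * (n : ℂ) ^ (-(((1 / 2 + x : ℝ) : ℂ) + t * I))‖ ^ 2 := by
    rw [intervalIntegral.integral_of_le (by linarith), ← integral_const_mul]
    calc ∫ t in Set.Ioc (-T) T, ‖sec N (((1 / 2 + x : ℝ) : ℂ) + (t : ℂ) * I)‖ ^ 4
        ≤ ∫ t in Set.Ioc (-T) T, Real.exp 1 * (Real.exp (-(t / T) ^ 2) *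
        ‖∑ n ∈ Finset.Icc 1 (N * N), (sq N n : ℂ) * (n : ℂ) ^ (-(((1 / 2 + x : ℝ) : ℂ) + t * I))‖ ^ 2) := by
          refine setIntegral_mono_on ?_ (hi.const_mul _).integrableOn measurableSet_Ioc ?_
          · exact (hcont.integrableOn_Icc (a := -T) (b := T)).mono_set Set.Ioc_subset_Icc_self
          · intro t ht
            rw [heq t, ← mul_assoc, ← Real.exp_add]
            have h2 : 1 ≤ Real.exp (1 + -(t / T) ^ 2) := by
              apply Real.one_le_exp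
              have h3 : |t / T| ≤ 1 := by
                rw [abs_div, abs_of_pos hT0, div_le_one hT0]
                exact abs_le.2 ⟨ht.1.le, ht.2⟩
              have h4 : (t / T) ^ 2 ≤ 1 := by
                rw [← sq_abs]
                nlinarith [abs_nonneg (t / T)]
              linarith
            exact le_mul_of_one_le_left (by positivity) h2
      _ ≤ _ := setIntegral_le_integral (hi.const_mul _) (Eventually.of_forall fun t => by positivity)
  have h2 : ∑ n ∈ Finset.Icc 1 (N * N), (T + n) * (sq N n ^ 2 * (n : ℝ) ^ (-(2 * (1 / 2 + x)))) ≤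
      (T + (N : ℝ) ^ 2) * (C₁ ^ 2 * Z) := by
    calc ∑ n ∈ Finset.Icc 1 (N * N), (T + n) * (sq N n ^ 2 * (n : ℝ) ^ (-(2 * (1 / 2 + x))))
        ≤ ∑ n ∈ Finset.Icc 1 (N * N), (T + (N : ℝ) ^ 2) * (C₁ ^ 2 * (n : ℝ) ^ (-(1 + x))) := by
          refine Finset.sum_le_sum fun n hn => ?_
          rw [Finset.mem_Icc] at hn
          have hn1 : (1 : ℝ) ≤ n := by exact_mod_cast hn.1
          have hn2 : (n : ℝ) ≤ (N : ℝ) ^ 2 := by
            have : (n : ℝ) ≤ ((N * N : ℕ) : ℝ) := by exact_mod_cast hn.2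
            push_cast at this
            rw [pow_two]; exact this
          have hsq : sq N n ^ 2 ≤ C₁ ^ 2 * (n : ℝ) ^ x := by
            have h3 : sq N n ≤ C₁ * (n : ℝ) ^ (x / 2) := (sq_le N n hn.1).trans (hd n hn.1)
            calc sq N n ^ 2 ≤ (C₁ * (n : ℝ) ^ (x / 2)) ^ 2 := pow_le_pow_left₀ (sq_nonneg' N n) h3 2
              _ = C₁ ^ 2 * (n : ℝ) ^ x := by
                rw [mul_pow, ← Real.rpow_natCast ((n : ℝ) ^ (x / 2)), ← Real.rpow_mul (by linarith)]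
                congr 2
                push_cast
                ring
          have hp : (n : ℝ) ^ (-(1 + x)) = (n : ℝ) ^ x * (n : ℝ) ^ (-(2 * (1 / 2 + x))) := by
            rw [← Real.rpow_add (by linarith)]; congr 1; ring
          rw [hp]
          have h4 : (0 : ℝ) ≤ (n : ℝ) ^ (-(2 * (1 / 2 + x))) := by positivity
          calc (T + n) * (sq N n ^ 2 * (n : ℝ) ^ (-(2 * (1 / 2 + x))))
              ≤ (T + (N : ℝ) ^ 2) * ((C₁ ^ 2 * (n : ℝ) ^ x) * (n : ℝ) ^ (-(2 * (1 / 2 + x)))) := by gcongr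
            _ = _ := by ring
      _ = (T + (N : ℝ) ^ 2) * (C₁ ^ 2 * ∑ n ∈ Finset.Icc 1 (N * N), (n : ℝ) ^ (-(1 + x))) := by
          rw [← Finset.mul_sum, ← Finset.mul_sum]
      _ ≤ _ := by
          gcongr
          rw [hZ]
          exact hsum.sum_le_tsum _ fun n _ => by positivity
  calc ∫ t in (-T)..T, ‖sec N (((1 / 2 + x : ℝ) : ℂ) + (t : ℂ) * I)‖ ^ 4
      ≤ Real.exp 1 * (24 * √Real.pi * ((T + (N : ℝ) ^ 2) * (C₁ ^ 2 * Z))) := by
        refine h1.trans ?_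
        apply mul_le_mul_of_nonneg_left _ (Real.exp_pos _).le
        exact hmv.trans (mul_le_mul_of_nonneg_left h2 (by positivity))
    _ = (Real.exp 1 * (24 * √Real.pi * (C₁ ^ 2 * Z))) * (T + (N : ℝ) ^ 2) := by ring
    _ ≤ _ := by
        apply mul_le_mul_of_nonneg_right _ (by positivity)
        linarith

end Pool.Agent.TH804.SD
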