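import Pool.Agent.TH804.SD9

/-! The two comparisons. -/

set_option autoImplicit false

open Complex Metric Set Filter Topology

namespace Pool.Agent.TH804.SD

open Pool.Agent.TH804.SS DH31

/-- the size of the exceptional set -/
lemma exc_eq {T C κ ε x : ℝ} {N : ℕ} (hT : 1 ≤ T) (hN : (1 : ℝ) ≤ N) (hC : 0 < C) (hκε : 17 * κ ≤ ε) :
    T ^ (1 + κ) / (T ^ (-(4 * κ)) * (N : ℝ) ^ x / (2 * C)) ^ 4 ≤
      (2 * C) ^ 4 * (T ^ (1 + ε) * (N : ℝ) ^ (-(4 * x))) := by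
  have hT0 : 0 < T := by linarith
  have hN0 : (0 : ℝ) < N := by linarith
  have e1 : (T ^ (-(4 * κ)) * (N : ℝ) ^ x / (2 * C)) ^ 4 = T ^ (-(16 * κ)) * (N : ℝ) ^ (4 * x) / (2 * C) ^ 4 := by
    rw [div_pow, mul_pow, ← Real.rpow_natCast (T ^ (-(4 * κ))), ← Real.rpow_mul hT0.le,
      ← Real.rpow_natCast ((N : ℝ) ^ x), ← Real.rpow_mul hN0.le]
    congr 3
    · push_cast; ring
    · push_cast; ring
  have e2 : T ^ (1 + κ) = T ^ (1 + 17 * κ) * T ^ (-(16 * κ)) := by rw [← Real.rpow_add hT0]; congr 1; ring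
  have e3 : (N : ℝ) ^ (-(4 * x)) * (N : ℝ) ^ (4 * x) = 1 := by rw [← Real.rpow_add hN0]; simp
  rw [e1, div_le_iff₀ (by positivity), e2]
  calc T ^ (1 + 17 * κ) * T ^ (-(16 * κ)) ≤ T ^ (1 + ε) * T ^ (-(16 * κ)) := by
        apply mul_le_mul_of_nonneg_right _ (by positivity)
        exact Real.rpow_le_rpow_of_exponent_le hT (by linarith)
    _ = T ^ (1 + ε) * T ^ (-(16 * κ)) * ((N : ℝ) ^ (-(4 * x)) * (N : ℝ) ^ (4 * x)) := by rw [e3, mul_one]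
    _ = _ := by field_simp

/-- **zeros of the section in terms of zeros of zeta** -/
theorem sec_le_zeta {δ ε : ℝ} (hδ : 0 < δ) (hδ1 : δ ≤ 1 / 2) (hε : 0 < ε) :
    ∃ C : ℝ, 0 < C ∧ ∃ T₀ : ℝ, ∀ T : ℝ, T₀ ≤ T → ∀ N : ℕ, 1 ≤ N → (N : ℝ) ≤ T * T → ∀ σ : ℝ, 1 / 2 + δ ≤ σ →
      σ ≤ 1 → (cntf (sec N) (ZN N σ T (2 * T)) : ℝ) ≤ C * Real.log T *
        ((cntf riemannZeta (ZZ (σ - δ) (T - 2) (2 * T + 2)) : ℝ) + T ^ (1 + ε) * (N : ℝ) ^ (-(2 * (2 * σ - 1)))) := by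
  obtain ⟨κ, hκ⟩ : ∃ κ : ℝ, κ = min δ (ε / 17) := ⟨_, rfl⟩
  have hκ0 : 0 < κ := by rw [hκ]; exact lt_min hδ (by positivity)
  have hκδ : κ ≤ δ := by rw [hκ]; exact min_le_left _ _
  have hκε : 17 * κ ≤ ε := by
    have : κ ≤ ε / 17 := by rw [hκ]; exact min_le_right _ _
    linarith
  obtain ⟨d, hd⟩ : ∃ d : ℝ, d = min (δ / 3) (1 / 12) := ⟨_, rfl⟩
  have hd0 : 0 < d := by rw [hd]; exact lt_min (by positivity) (by norm_num)
  have hd1 : d ≤ 1 / 12 := by rw [hd]; exact min_le_right _ _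
  have hd2 : 3 * d ≤ δ := by
    have : d ≤ δ / 3 := by rw [hd]; exact min_le_left _ _
    linarith
  obtain ⟨C₁, hC₁, h₁⟩ := transfer hκ0
  obtain ⟨C₂, hC₂, T₂, h₂⟩ := large_diff hδ hδ1 hκ0 (by linarith) (by linarith)
  obtain ⟨C₃, hC₃, h₃⟩ := loc_sec (a := 2) (by norm_num)
  obtain ⟨T₄, h₄⟩ := zeta_window hd0 hd1 hκ0
  refine ⟨C₃ * (8 + C₁ * (2 * C₂) ^ 4), by positivity, max (max T₂ T₄) 8, ?_⟩
  intro T hT N hN1 hN2 σ hσ1 hσ2
  have hTT₂ : T₂ ≤ T := (le_max_left _ _).trans ((le_max_left _ _).trans hT)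
  have hTT₄ : T₄ ≤ T := (le_max_right _ _).trans ((le_max_left _ _).trans hT)
  have hT8 : 8 ≤ T := (le_max_right _ _).trans hT
  have hT0 : 0 < T := by linarith
  have hlog : 0 ≤ Real.log T := Real.log_nonneg (by linarith)
  have hN1' : (1 : ℝ) ≤ N := by exact_mod_cast hN1
  have hN0 : (0 : ℝ) < N := by linarith
  have hT2 : T * T = T ^ (2 : ℝ) := by
    rw [show (2 : ℝ) = ((2 : ℕ) : ℝ) by norm_num, Real.rpow_natCast]; ring
  have hmain := h₁ T hT8 (sec N) riemannZeta (ZN N σ T (2 * T)) (ZZ (σ - δ) (T - 2) (2 * T + 2))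
    (T ^ (-(4 * κ)) * (N : ℝ) ^ (σ - 1 / 2) / (2 * C₂)) (C₃ * Real.log T) (by positivity) (by positivity)
    (ZN_finite hN1 _ _ _) (ZZ_finite _ _ _) (fun z hz => ⟨hz.2.2.1, hz.2.2.2⟩)
    (fun z hz => zeta_ord (by linarith [hz.2.2.1]) hz.1)
    (fun z hz => by
      obtain ⟨z1, z2, z3, z4⟩ := hz
      by_cases hex : ∃ w : ℂ, riemannZeta w = 0 ∧ σ - 3 * d ≤ w.re ∧ |w.im - z.im| ≤ 2
      · obtain ⟨w, w1, w2, w3⟩ := hex
        left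
        have := abs_le.1 w3
        exact ⟨w, ⟨w1, by linarith, by linarith, by linarith⟩, w3⟩
      · right
        push Not at hex
        have h5 := (h₄ T hTT₄ σ (by linarith) hσ2 z.im (by linarith) (by linarith)
          (fun w hw1 hw2 hw0 => absurd hw2 (not_le.2 (hex w hw0 hw1))) z z2 rfl).1
        refine h₂ T hTT₂ N hN1 hN2 σ hσ1 z z2 ?_ z3 ?_
        · by_contra hcon
          push Not at hcon
          exact sec_ne hN1 hcon.le z1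
        · rw [z1, sub_zero]
          exact h5)
    (fun n W hW => h₃ T (by linarith) N hN1 (by rw [← hT2]; exact hN2) n W fun z hz => by
      obtain ⟨⟨z1, z2, z3, z4⟩, z5, z6⟩ := hW z hz
      exact ⟨z1, by linarith, z5, z6⟩)
  have hexc := exc_eq (T := T) (C := C₂) (κ := κ) (ε := ε) (x := σ - 1 / 2) (N := N) (by linarith) hN1' hC₂ hκε
  have e1 : -(4 * (σ - 1 / 2)) = -(2 * (2 * σ - 1)) := by ring
  rw [e1] at hexc
  refine hmain.trans ?_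
  obtain ⟨Y, hY⟩ : ∃ Y : ℝ, Y = (cntf riemannZeta (ZZ (σ - δ) (T - 2) (2 * T + 2)) : ℝ) := ⟨_, rfl⟩
  have hY0 : 0 ≤ Y := by rw [hY]; positivity
  rw [← hY]
  have hE0 : 0 ≤ T ^ (1 + ε) * (N : ℝ) ^ (-(2 * (2 * σ - 1))) := by positivity
  calc C₃ * Real.log T * (8 * Y + C₁ * T ^ (1 + κ) / (T ^ (-(4 * κ)) * (N : ℝ) ^ (σ - 1 / 2) / (2 * C₂)) ^ 4)
      ≤ C₃ * Real.log T * (8 * Y + C₁ * ((2 * C₂) ^ 4 * (T ^ (1 + ε) * (N : ℝ) ^ (-(2 * (2 * σ - 1)))))) := by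
        rw [mul_div_assoc]
        gcongr
    _ ≤ C₃ * Real.log T * ((8 + C₁ * (2 * C₂) ^ 4) * (Y + T ^ (1 + ε) * (N : ℝ) ^ (-(2 * (2 * σ - 1))))) := by
        apply mul_le_mul_of_nonneg_left _ (by positivity)
        have h6 : 0 ≤ C₁ * (2 * C₂) ^ 4 * Y := by positivity
        have h7 : 0 ≤ 8 * (T ^ (1 + ε) * (N : ℝ) ^ (-(2 * (2 * σ - 1)))) := by positivity
        nlinarith
    _ = _ := by ring

/-- **zeros of zeta in terms of zeros of the section** -/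
theorem zeta_le_sec {δ ε : ℝ} (hδ : 0 < δ) (hδ1 : δ ≤ 1 / 2) (hε : 0 < ε) :
    ∃ C : ℝ, 0 < C ∧ ∃ T₀ : ℝ, ∀ T : ℝ, T₀ ≤ T → ∀ N : ℕ, 1 ≤ N → (N : ℝ) ≤ T * T → ∀ σ : ℝ, 1 / 2 + δ ≤ σ →
      σ ≤ 1 → (cntf riemannZeta (ZZ σ T (2 * T)) : ℝ) ≤ C * Real.log T *
        ((cntf (sec N) (ZN N (σ - δ) (T - 2) (2 * T + 2)) : ℝ) + T ^ (1 + ε) * (N : ℝ) ^ (-(2 * (2 * σ - 1)))) := by
  obtain ⟨κ, hκ⟩ : ∃ κ : ℝ, κ = min δ (ε / 17) := ⟨_, rfl⟩
  have hκ0 : 0 < κ := by rw [hκ]; exact lt_min hδ (by positivity)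
  have hκδ : κ ≤ δ := by rw [hκ]; exact min_le_left _ _
  have hκε : 17 * κ ≤ ε := by
    have : κ ≤ ε / 17 := by rw [hκ]; exact min_le_right _ _
    linarith
  obtain ⟨d, hd⟩ : ∃ d : ℝ, d = min (δ / 3) (1 / 12) := ⟨_, rfl⟩
  have hd0 : 0 < d := by rw [hd]; exact lt_min (by positivity) (by norm_num)
  have hd1 : d ≤ 1 / 12 := by rw [hd]; exact min_le_right _ _
  have hd2 : 3 * d ≤ δ := by
    have : d ≤ δ / 3 := by rw [hd]; exact min_le_left _ _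
    linarith
  obtain ⟨C₁, hC₁, h₁⟩ := transfer hκ0
  obtain ⟨C₂, hC₂, T₂, h₂⟩ := large_diff hδ hδ1 hκ0 (by linarith) (by linarith)
  obtain ⟨C₃, hC₃, h₃⟩ := loc_zeta
  obtain ⟨T₄, h₄⟩ := sec_window (a := 2) hd0 hd1 hκ0 (by norm_num)
  refine ⟨C₃ * (8 + C₁ * (2 * C₂) ^ 4), by positivity, max (max T₂ T₄) 60, ?_⟩
  intro T hT N hN1 hN2 σ hσ1 hσ2
  have hTT₂ : T₂ ≤ T := (le_max_left _ _).trans ((le_max_left _ _).trans hT)
  have hTT₄ : T₄ ≤ T := (le_max_right _ _).trans ((le_max_left _ _).trans hT)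
  have hT60 : 60 ≤ T := (le_max_right _ _).trans hT
  have hT0 : 0 < T := by linarith
  have hlog : 0 ≤ Real.log T := Real.log_nonneg (by linarith)
  have hN1' : (1 : ℝ) ≤ N := by exact_mod_cast hN1
  have hN0 : (0 : ℝ) < N := by linarith
  have hT2 : T * T = T ^ (2 : ℝ) := by
    rw [show (2 : ℝ) = ((2 : ℕ) : ℝ) by norm_num, Real.rpow_natCast]; ring
  have hmain := h₁ T (by linarith) riemannZeta (sec N) (ZZ σ T (2 * T)) (ZN N (σ - δ) (T - 2) (2 * T + 2))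
    (T ^ (-(4 * κ)) * (N : ℝ) ^ (σ - 1 / 2) / (2 * C₂)) (C₃ * Real.log T) (by positivity) (by positivity)
    (ZZ_finite _ _ _) (ZN_finite hN1 _ _ _) (fun z hz => ⟨hz.2.2.1, hz.2.2.2⟩)
    (fun z hz => sec_ord hN1 hz.1)
    (fun z hz => by
      obtain ⟨z1, z2, z3, z4⟩ := hz
      by_cases hex : ∃ w : ℂ, sec N w = 0 ∧ σ - 3 * d ≤ w.re ∧ |w.im - z.im| ≤ 2
      · obtain ⟨w, w1, w2, w3⟩ := hex
        left
        have := abs_le.1 w3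
        exact ⟨w, ⟨w1, by linarith, by linarith, by linarith⟩, w3⟩
      · right
        push Not at hex
        have h5 := (h₄ T hTT₄ N hN1 (by rw [← hT2]; exact hN2) σ (by linarith) hσ2 z.im
          (fun w hw1 hw2 hw0 => absurd hw2 (not_le.2 (hex w hw0 hw1))) z z2 rfl).1
        refine h₂ T hTT₂ N hN1 hN2 σ hσ1 z z2 ?_ z3 ?_
        · by_contra hcon
          push Not at hcon
          exact riemannZeta_ne_zero_of_one_le_re (by linarith) z1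
        · rw [z1, zero_sub, norm_neg]
          exact h5)
    (fun n W hW => by
      rcases W.eq_empty_or_nonempty with hW0 | ⟨z₀, hz₀⟩
      · rw [hW0, Finset.sum_empty]
        positivity
      · obtain ⟨⟨a1, a2, a3, a4⟩, a5, a6⟩ := hW z₀ hz₀
        refine h₃ T hT60 n ?_ (by linarith) W fun z hz => by
          obtain ⟨⟨z1, z2, z3, z4⟩, z5, z6⟩ := hW z hz
          exact ⟨z1, by linarith, z5, z6⟩
        have : (3 : ℝ) ≤ n := by linarith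
        exact_mod_cast this)
  have hexc := exc_eq (T := T) (C := C₂) (κ := κ) (ε := ε) (x := σ - 1 / 2) (N := N) (by linarith) hN1' hC₂ hκε
  have e1 : -(4 * (σ - 1 / 2)) = -(2 * (2 * σ - 1)) := by ring
  rw [e1] at hexc
  refine hmain.trans ?_
  obtain ⟨Y, hY⟩ : ∃ Y : ℝ, Y = (cntf (sec N) (ZN N (σ - δ) (T - 2) (2 * T + 2)) : ℝ) := ⟨_, rfl⟩
  have hY0 : 0 ≤ Y := by rw [hY]; positivity
  rw [← hY]
  have hE0 : 0 ≤ T ^ (1 + ε) * (N : ℝ) ^ (-(2 * (2 * σ - 1))) := by positivity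
  calc C₃ * Real.log T * (8 * Y + C₁ * T ^ (1 + κ) / (T ^ (-(4 * κ)) * (N : ℝ) ^ (σ - 1 / 2) / (2 * C₂)) ^ 4)
      ≤ C₃ * Real.log T * (8 * Y + C₁ * ((2 * C₂) ^ 4 * (T ^ (1 + ε) * (N : ℝ) ^ (-(2 * (2 * σ - 1)))))) := by
        rw [mul_div_assoc]
        gcongr
    _ ≤ C₃ * Real.log T * ((8 + C₁ * (2 * C₂) ^ 4) * (Y + T ^ (1 + ε) * (N : ℝ) ^ (-(2 * (2 * σ - 1))))) := by
        apply mul_le_mul_of_nonneg_left _ (by positivity)
        have h6 : 0 ≤ C₁ * (2 * C₂) ^ 4 * Y := by positivity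
        have h7 : 0 ≤ 8 * (T ^ (1 + ε) * (N : ℝ) ^ (-(2 * (2 * σ - 1)))) := by positivity
        nlinarith
    _ = _ := by ring

end Pool.Agent.TH804.SD
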