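import Pool.Agent.TH804.SD10
import Pool.Agent.TH804.LV3

/-! Trivial counts and dyadic decomposition. -/

set_option autoImplicit false

open Complex Metric Set Filter Topology

namespace Pool.Agent.TH804.SD

open Pool.Agent.TH804.SS DH31 Pool.Agent.TH804.LV

lemma triv_count {f : ℂ → ℂ} {A : Set ℂ} {a b B : ℝ} (ha : 0 ≤ a) (hab : a ≤ b) (hB0 : 0 ≤ B) (hA : A.Finite)
    (hAb : ∀ z ∈ A, a < z.im ∧ z.im ≤ b)
    (hB : ∀ n : ℕ, ∀ W : Finset ℂ, (∀ z ∈ W, z ∈ A ∧ (n : ℝ) < z.im ∧ z.im ≤ n + 1) →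
      ∑ z ∈ W, (analyticOrderNatAt f z : ℝ) ≤ B) :
    (cntf f A : ℝ) ≤ (b - a + 2) * B := by
  classical
  refine (win_count hA (fun z hz => by linarith [(hAb z hz).1]) hB).trans ?_
  apply mul_le_mul_of_nonneg_right _ hB0
  have h1 : hA.toFinset.image wi ⊆ Finset.Icc ⌊a⌋₊ ⌊b⌋₊ := by
    intro n hn
    rw [Finset.mem_image] at hn
    obtain ⟨z, hz, rfl⟩ := hn
    rw [Set.Finite.mem_toFinset] at hz
    obtain ⟨h2, h3⟩ := hAb z hz
    have h4 := wi_spec (z := z) (by linarith)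
    rw [Finset.mem_Icc]
    constructor
    · have h5 : (⌊a⌋₊ : ℝ) < wi z + 1 := lt_of_le_of_lt (Nat.floor_le ha) (by linarith)
      have h6 : ⌊a⌋₊ < wi z + 1 := by exact_mod_cast h5
      omega
    · apply Nat.le_floor
      linarith
  have h2 := Finset.card_le_card h1
  rw [Nat.card_Icc] at h2
  have h3 : ⌊a⌋₊ ≤ ⌊b⌋₊ + 1 := (Nat.floor_le_floor hab).trans (Nat.le_succ _)
  have h4 : ((hA.toFinset.image wi).card : ℝ) ≤ (⌊b⌋₊ + 1 : ℝ) - ⌊a⌋₊ := by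
    have : ((hA.toFinset.image wi).card : ℝ) ≤ ((⌊b⌋₊ + 1 - ⌊a⌋₊ : ℕ) : ℝ) := by exact_mod_cast h2
    rw [Nat.cast_sub h3] at this
    push_cast at this
    exact this
  have h5 := Nat.floor_le (ha.trans hab)
  have h6 := Nat.lt_floor_add_one a
  linarith

/-- trivial count for the sections -/
lemma triv_sec {a : ℝ} (ha : 0 ≤ a) : ∃ C : ℝ, 0 < C ∧ ∀ T : ℝ, 3 ≤ T → ∀ N : ℕ, 1 ≤ N → (N : ℝ) ≤ T ^ a →
    ∀ σ : ℝ, 1 / 2 ≤ σ → ∀ u v : ℝ, 0 ≤ u → u ≤ v →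
      (cntf (sec N) (ZN N σ u v) : ℝ) ≤ (v - u + 2) * (C * Real.log T) := by
  obtain ⟨C, hC, h⟩ := loc_sec ha
  refine ⟨C, hC, fun T hT N hN1 hN2 σ hσ u v hu huv => ?_⟩
  have hlog : 0 ≤ Real.log T := Real.log_nonneg (by linarith)
  refine triv_count hu huv (by positivity) (ZN_finite hN1 _ _ _) (fun z hz => ⟨hz.2.2.1, hz.2.2.2⟩) ?_
  intro n W hW
  exact h T hT N hN1 hN2 n W fun z hz => by
    obtain ⟨⟨z1, z2, z3, z4⟩, z5, z6⟩ := hW z hz
    exact ⟨z1, by linarith, z5, z6⟩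

/-- trivial count for zeta -/
lemma triv_zeta : ∃ C : ℝ, 0 < C ∧ ∀ T : ℝ, 60 ≤ T → ∀ σ : ℝ, 1 / 2 ≤ σ →
      (cntf riemannZeta (ZZ σ T (2 * T)) : ℝ) ≤ (T + 2) * (C * Real.log T) := by
  obtain ⟨C, hC, h⟩ := loc_zeta
  refine ⟨C, hC, fun T hT σ hσ => ?_⟩
  have hlog : 0 ≤ Real.log T := Real.log_nonneg (by linarith)
  have h1 := triv_count (f := riemannZeta) (A := ZZ σ T (2 * T)) (a := T) (b := 2 * T) (B := C * Real.log T)
    (by linarith) (by linarith) (by positivity) (ZZ_finite _ _ _) (fun z hz => ⟨hz.2.2.1, hz.2.2.2⟩) (by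
      intro n W hW
      rcases W.eq_empty_or_nonempty with hW0 | ⟨z₀, hz₀⟩
      · rw [hW0, Finset.sum_empty]
        positivity
      · obtain ⟨⟨a1, a2, a3, a4⟩, a5, a6⟩ := hW z₀ hz₀
        refine h T hT n ?_ (by linarith) W fun z hz => by
          obtain ⟨⟨z1, z2, z3, z4⟩, z5, z6⟩ := hW z hz
          exact ⟨z1, by linarith, z5, z6⟩
        have : (3 : ℝ) ≤ n := by linarith
        exact_mod_cast this)
  have e1 : 2 * T - T + 2 = T + 2 := by ring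
  rwa [e1] at h1

/-- dyadic decomposition -/
theorem DH_of_dyadic (h : ∀ ε : ℝ, 0 < ε → ∃ C : ℝ, 0 < C ∧ ∃ T₀ : ℝ, ∀ T : ℝ, T₀ ≤ T → ∀ σ : ℝ, 1 / 2 ≤ σ →
    σ ≤ 1 → (cntf riemannZeta (ZZ σ T (2 * T)) : ℝ) ≤ C * T ^ (2 * (1 - σ) + ε)) : DH := by
  intro ε hε
  obtain ⟨C, hC, T₀, h₀⟩ := h (ε / 2) (by positivity)
  obtain ⟨T₁, h₁⟩ := Filter.eventually_atTop.1 (DH31.ev_log 1 (ε / 2) 1 (by positivity))
  obtain ⟨a, ha⟩ : ∃ a : ℝ, a = max T₀ 2 := ⟨_, rfl⟩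
  have ha2 : 2 ≤ a := by rw [ha]; exact le_max_right _ _
  have haT : T₀ ≤ a := by rw [ha]; exact le_max_left _ _
  obtain ⟨A₀, hA₀⟩ : ∃ A₀ : ℝ, A₀ = (cntf riemannZeta (ZZ (1 / 2) 0 (2 * a)) : ℝ) := ⟨_, rfl⟩
  have hA₀0 : 0 ≤ A₀ := by rw [hA₀]; positivity
  have claim : ∀ k : ℕ, ∀ T : ℝ, 1 ≤ T → T ≤ 2 ^ (k + 1) * a → ∀ σ : ℝ, 1 / 2 ≤ σ → σ ≤ 1 →
      (cntf riemannZeta (ZZ σ 0 T) : ℝ) ≤ A₀ + k * (C * T ^ (2 * (1 - σ) + ε / 2)) := by
    intro k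
    induction k with
    | zero =>
      intro T hT1 hT2 σ hσ1 hσ2
      rw [hA₀]
      simp only [Nat.cast_zero, zero_mul, add_zero]
      have : cntf riemannZeta (ZZ σ 0 T) ≤ cntf riemannZeta (ZZ (1 / 2) 0 (2 * a)) := by
        refine cntf_mono (ZZ_finite _ _ _) fun z hz => ⟨hz.1, hσ1.trans hz.2.1, hz.2.2.1, hz.2.2.2.trans ?_⟩
        simpa using hT2
      exact_mod_cast this
    | succ k ih =>
      intro T hT1 hT2 σ hσ1 hσ2
      have hT0 : 0 < T := by linarith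
      have hTx : 0 ≤ T ^ (2 * (1 - σ) + ε / 2) := by positivity
      rcases le_or_gt T (2 * a) with hTa | hTa
      · have h2 : cntf riemannZeta (ZZ σ 0 T) ≤ cntf riemannZeta (ZZ (1 / 2) 0 (2 * a)) := by
          refine cntf_mono (ZZ_finite _ _ _) fun z hz => ⟨hz.1, hσ1.trans hz.2.1, hz.2.2.1, hz.2.2.2.trans hTa⟩
        have h3 : (cntf riemannZeta (ZZ σ 0 T) : ℝ) ≤ A₀ := by rw [hA₀]; exact_mod_cast h2
        have : 0 ≤ ((k + 1 : ℕ) : ℝ) * (C * T ^ (2 * (1 - σ) + ε / 2)) := by positivity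
        linarith
      · have hhalf : (T / 2) ^ (2 * (1 - σ) + ε / 2) ≤ T ^ (2 * (1 - σ) + ε / 2) :=
          Real.rpow_le_rpow (by linarith) (by linarith) (by linarith)
        have h2 := ih (T / 2) (by linarith) (by
          rw [div_le_iff₀ (by norm_num)]
          calc T ≤ 2 ^ (k + 1 + 1) * a := hT2
            _ = _ := by ring) σ hσ1 hσ2
        have h3 := h₀ (T / 2) (by linarith) σ hσ1 hσ2
        have e1 : 2 * (T / 2) = T := by ring
        rw [e1] at h3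
        have h4 : cntf riemannZeta (ZZ σ 0 T) ≤
            cntf riemannZeta (ZZ σ 0 (T / 2)) + cntf riemannZeta (ZZ σ (T / 2) T) := by
          refine le_trans (cntf_mono ((ZZ_finite _ _ _).union (ZZ_finite _ _ _)) fun z hz => ?_)
            (cntf_union (ZZ_finite _ _ _) (ZZ_finite _ _ _))
          rcases le_or_gt z.im (T / 2) with h5 | h5
          · exact Or.inl ⟨hz.1, hz.2.1, hz.2.2.1, h5⟩
          · exact Or.inr ⟨hz.1, hz.2.1, h5, hz.2.2.2⟩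
        have h5 : (cntf riemannZeta (ZZ σ 0 T) : ℝ) ≤
            cntf riemannZeta (ZZ σ 0 (T / 2)) + cntf riemannZeta (ZZ σ (T / 2) T) := by exact_mod_cast h4
        have h6 : (k : ℝ) * (C * (T / 2) ^ (2 * (1 - σ) + ε / 2)) ≤ k * (C * T ^ (2 * (1 - σ) + ε / 2)) := by
          gcongr
        have h7 : C * (T / 2) ^ (2 * (1 - σ) + ε / 2) ≤ C * T ^ (2 * (1 - σ) + ε / 2) := by gcongr
        push_cast
        linarith
  refine ⟨A₀ + 3 * C, by positivity, max T₁ 3, ?_⟩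
  intro T hT σ hσ1 hσ2
  have hTT₁ : T₁ ≤ T := (le_max_left _ _).trans hT
  have hT3 : 3 ≤ T := (le_max_right _ _).trans hT
  have hT0 : 0 < T := by linarith
  have hlog1 : 1 ≤ Real.log T := by
    rw [Real.le_log_iff_exp_le hT0]
    linarith [Real.exp_one_lt_d9]
  have hlog : Real.log T ≤ T ^ (ε / 2) := by
    have := h₁ T hTT₁
    simpa using this
  obtain ⟨k, hk⟩ : ∃ k : ℕ, k = ⌈2 * Real.log T⌉₊ := ⟨_, rfl⟩
  have hk1 : 2 * Real.log T ≤ k := by rw [hk]; exact Nat.le_ceil _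
  have hk2 : (k : ℝ) ≤ 3 * Real.log T := by
    have := Nat.ceil_lt_add_one (show 0 ≤ 2 * Real.log T by linarith)
    rw [← hk] at this
    linarith
  have hTk : T ≤ 2 ^ (k + 1) * a := by
    have h2 : T ≤ 2 ^ k := by
      have h3 : (2 : ℝ) ^ k = Real.exp (k * Real.log 2) := by
        rw [mul_comm, Real.exp_mul, Real.exp_log (by norm_num), Real.rpow_natCast]
      rw [h3]
      calc T = Real.exp (Real.log T) := (Real.exp_log hT0).symm
        _ ≤ _ := by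
          apply Real.exp_le_exp.2
          have := Real.log_two_gt_d9
          nlinarith
    have h3 : (1 : ℝ) ≤ 2 ^ k := one_le_pow₀ (by norm_num)
    have e1 : (2 : ℝ) ^ (k + 1) * a = 2 ^ k * (2 * a) := by ring
    rw [e1]
    nlinarith
  have h2 := claim k T (by linarith) hTk σ hσ1 hσ2
  have hone : 1 ≤ T ^ (2 * (1 - σ) + ε) := Real.one_le_rpow (by linarith) (by linarith)
  have h3 : (k : ℝ) * (C * T ^ (2 * (1 - σ) + ε / 2)) ≤ 3 * C * T ^ (2 * (1 - σ) + ε) := by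
    calc (k : ℝ) * (C * T ^ (2 * (1 - σ) + ε / 2)) ≤ (3 * T ^ (ε / 2)) * (C * T ^ (2 * (1 - σ) + ε / 2)) := by
          gcongr
          linarith
      _ = 3 * C * (T ^ (2 * (1 - σ) + ε / 2) * T ^ (ε / 2)) := by ring
      _ = _ := by
        rw [← Real.rpow_add hT0]
        congr 2
        ring
  calc (DH31.cnt (DH31.zeros σ T) : ℝ) = (cntf riemannZeta (ZZ σ 0 T) : ℝ) := rfl
    _ ≤ A₀ * T ^ (2 * (1 - σ) + ε) + 3 * C * T ^ (2 * (1 - σ) + ε) := by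
        have : A₀ ≤ A₀ * T ^ (2 * (1 - σ) + ε) := le_mul_of_one_le_right hA₀0 hone
        linarith
    _ = _ := by ring

end Pool.Agent.TH804.SD
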