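import Pool.Agent.TH804.SD11

/-! The density hypothesis and the zeros of the sections. -/

set_option autoImplicit false

open Complex Metric Set Filter Topology

namespace Pool.Agent.TH804.SD

open Pool.Agent.TH804.SS DH31 Pool.Agent.TH804.LV

/-- the density hypothesis for the sections of length `T ^ θ` -/
def SecDH (θ : ℝ) : Prop := ∀ ε : ℝ, 0 < ε → ∃ C : ℝ, 0 < C ∧ ∃ T₀ : ℝ, ∀ T : ℝ, T₀ ≤ T → ∀ σ : ℝ, 1 / 2 ≤ σ →
  σ ≤ 1 → (cntf (sec ⌊T ^ θ⌋₊) (ZN ⌊T ^ θ⌋₊ σ T (2 * T)) : ℝ) ≤ C * T ^ (2 * (1 - σ) + ε)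

lemma len {T θ : ℝ} (hT : 4 ≤ T) (h1 : 1 / 2 ≤ θ) (h2 : θ ≤ 2) :
    1 ≤ ⌊T ^ θ⌋₊ ∧ ((⌊T ^ θ⌋₊ : ℕ) : ℝ) ≤ T ^ (2 : ℝ) ∧ ((⌊T ^ θ⌋₊ : ℕ) : ℝ) ≤ T * T ∧
      T ^ (1 / 2 : ℝ) / 2 ≤ ((⌊T ^ θ⌋₊ : ℕ) : ℝ) := by
  have hT0 : 0 < T := by linarith
  have hhalf : (2 : ℝ) ≤ T ^ (1 / 2 : ℝ) := by
    calc (2 : ℝ) = (4 : ℝ) ^ (1 / 2 : ℝ) := by
          rw [show (4 : ℝ) = 2 ^ (2 : ℝ) by norm_num, ← Real.rpow_mul (by norm_num)]; norm_num
      _ ≤ _ := Real.rpow_le_rpow (by norm_num) hT (by norm_num)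
  have hθ : T ^ (1 / 2 : ℝ) ≤ T ^ θ := Real.rpow_le_rpow_of_exponent_le (by linarith) h1
  have hθ2 : T ^ θ ≤ T ^ (2 : ℝ) := Real.rpow_le_rpow_of_exponent_le (by linarith) h2
  have hfl := Nat.floor_le (show 0 ≤ T ^ θ by positivity)
  have hfl2 := Nat.lt_floor_add_one (T ^ θ)
  have hT2 : T * T = T ^ (2 : ℝ) := by
    rw [show (2 : ℝ) = ((2 : ℕ) : ℝ) by norm_num, Real.rpow_natCast]; ring
  refine ⟨?_, hfl.trans hθ2, by rw [hT2]; exact hfl.trans hθ2, by linarith⟩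
  rw [Nat.one_le_floor_iff]
  linarith

lemma exc_small {T ε σ : ℝ} {N : ℕ} (hT : 4 ≤ T) (hN : T ^ (1 / 2 : ℝ) / 2 ≤ (N : ℝ)) (hσ1 : 1 / 2 ≤ σ)
    (hσ2 : σ ≤ 1) : T ^ (1 + ε) * (N : ℝ) ^ (-(2 * (2 * σ - 1))) ≤ 4 * T ^ (2 * (1 - σ) + ε) := by
  have hT0 : 0 < T := by linarith
  have h1 : (N : ℝ) ^ (-(2 * (2 * σ - 1))) ≤ (T ^ (1 / 2 : ℝ) / 2) ^ (-(2 * (2 * σ - 1))) :=
    Real.rpow_le_rpow_of_nonpos (by positivity) hN (by linarith)
  have h2 : (T ^ (1 / 2 : ℝ) / 2) ^ (-(2 * (2 * σ - 1))) = T ^ (-(2 * σ - 1)) * 2 ^ (2 * (2 * σ - 1)) := by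
    rw [Real.div_rpow (by positivity) (by norm_num), ← Real.rpow_mul hT0.le, Real.rpow_neg (x := 2) (by norm_num)]
    rw [div_inv_eq_mul]
    congr 2
    ring
  have h3 : (2 : ℝ) ^ (2 * (2 * σ - 1)) ≤ 4 := by
    calc (2 : ℝ) ^ (2 * (2 * σ - 1)) ≤ 2 ^ (2 : ℝ) := Real.rpow_le_rpow_of_exponent_le (by norm_num) (by linarith)
      _ = 4 := by norm_num
  have h4 : T ^ (1 + ε) * T ^ (-(2 * σ - 1)) = T ^ (2 * (1 - σ) + ε) := by
    rw [← Real.rpow_add hT0]; congr 1; ring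
  calc T ^ (1 + ε) * (N : ℝ) ^ (-(2 * (2 * σ - 1)))
      ≤ T ^ (1 + ε) * (T ^ (-(2 * σ - 1)) * 4) := by
        apply mul_le_mul_of_nonneg_left _ (by positivity)
        rw [h2] at h1
        refine h1.trans ?_
        apply mul_le_mul_of_nonneg_left h3 (by positivity)
    _ = 4 * (T ^ (1 + ε) * T ^ (-(2 * σ - 1))) := by ring
    _ = _ := by rw [h4]

theorem SecDH_of_DH {θ : ℝ} (hθ1 : 1 / 2 ≤ θ) (hθ2 : θ ≤ 2) (h : DH) : SecDH θ := by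
  intro ε hε
  obtain ⟨δ, hδ⟩ : ∃ δ : ℝ, δ = min (ε / 8) (1 / 2) := ⟨_, rfl⟩
  have hδ0 : 0 < δ := by rw [hδ]; exact lt_min (by positivity) (by norm_num)
  have hδ1 : δ ≤ 1 / 2 := by rw [hδ]; exact min_le_right _ _
  have hδ2 : δ ≤ ε / 8 := by rw [hδ]; exact min_le_left _ _
  obtain ⟨C₁, hC₁, T₁, h₁⟩ := sec_le_zeta (ε := ε / 4) hδ0 hδ1 (by positivity)
  obtain ⟨C₂, hC₂, T₂, h₂⟩ := h (ε / 4) (by positivity)
  obtain ⟨C₃, hC₃, h₃⟩ := triv_sec (a := 2) (by norm_num)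
  obtain ⟨T₄, h₄⟩ := Filter.eventually_atTop.1 (DH31.ev_log 1 (ε / 4) 1 (by positivity))
  obtain ⟨K, hK⟩ : ∃ K : ℝ, K = C₁ * (C₂ * 4 ^ (1 + ε) + 4) := ⟨_, rfl⟩
  have hK0 : 0 < K := by rw [hK]; positivity
  refine ⟨K + 2 * C₃, by positivity, max (max T₁ T₂) (max T₄ 4), ?_⟩
  intro T hT σ hσ1 hσ2
  have hTT₁ : T₁ ≤ T := (le_max_left _ _).trans ((le_max_left _ _).trans hT)
  have hTT₂ : T₂ ≤ T := (le_max_right _ _).trans ((le_max_left _ _).trans hT)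
  have hTT₄ : T₄ ≤ T := (le_max_left _ _).trans ((le_max_right _ _).trans hT)
  have hT4 : 4 ≤ T := (le_max_right _ _).trans ((le_max_right _ _).trans hT)
  have hT0 : 0 < T := by linarith
  have hT1 : 1 ≤ T := by linarith
  have hlog : Real.log T ≤ T ^ (ε / 4) := by
    have := h₄ T hTT₄
    simpa using this
  have hlog0 : 0 ≤ Real.log T := Real.log_nonneg hT1
  obtain ⟨l1, l2, l3, l4⟩ := len hT4 hθ1 hθ2
  obtain ⟨N, hN⟩ : ∃ N : ℕ, N = ⌊T ^ θ⌋₊ := ⟨_, rfl⟩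
  rw [← hN] at l1 l2 l3 l4 ⊢
  have hE0 : 0 ≤ T ^ (2 * (1 - σ) + ε) := by positivity
  rcases le_or_gt (1 / 2 + δ) σ with hσ | hσ
  · have h5 := h₁ T hTT₁ N l1 l3 σ hσ hσ2
    have h6 := exc_small (ε := ε / 4) hT4 l4 hσ1 hσ2
    have h7 := h₂ (2 * T + 2) (by linarith) (σ - δ) (by linarith) (by linarith)
    have h8 : (cntf riemannZeta (ZZ (σ - δ) (T - 2) (2 * T + 2)) : ℝ) ≤
        (DH31.cnt (DH31.zeros (σ - δ) (2 * T + 2)) : ℝ) := by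
      have : cntf riemannZeta (ZZ (σ - δ) (T - 2) (2 * T + 2)) ≤ cntf riemannZeta (ZZ (σ - δ) 0 (2 * T + 2)) :=
        cntf_mono (ZZ_finite _ _ _) fun z hz => ⟨hz.1, hz.2.1, by linarith [hz.2.2.1], hz.2.2.2⟩
      exact_mod_cast this
    have h9 : (2 * T + 2) ^ (2 * (1 - (σ - δ)) + ε / 4) ≤ 4 ^ (1 + ε) * T ^ (2 * (1 - σ) + 3 * (ε / 4)) := by
      calc (2 * T + 2) ^ (2 * (1 - (σ - δ)) + ε / 4) ≤ (4 * T) ^ (2 * (1 - (σ - δ)) + ε / 4) :=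
            Real.rpow_le_rpow (by linarith) (by linarith) (by linarith)
        _ = 4 ^ (2 * (1 - (σ - δ)) + ε / 4) * T ^ (2 * (1 - (σ - δ)) + ε / 4) :=
            Real.mul_rpow (by norm_num) hT0.le
        _ ≤ _ := mul_le_mul (Real.rpow_le_rpow_of_exponent_le (by norm_num) (by linarith))
            (Real.rpow_le_rpow_of_exponent_le hT1 (by linarith)) (by positivity) (by positivity)
    have h10 : Real.log T * T ^ (2 * (1 - σ) + 3 * (ε / 4)) ≤ T ^ (2 * (1 - σ) + ε) := by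
      calc Real.log T * T ^ (2 * (1 - σ) + 3 * (ε / 4)) ≤ T ^ (ε / 4) * T ^ (2 * (1 - σ) + 3 * (ε / 4)) := by gcongr
        _ = _ := by rw [← Real.rpow_add hT0]; congr 1; ring
    have h11 : Real.log T * T ^ (2 * (1 - σ) + ε / 4) ≤ T ^ (2 * (1 - σ) + ε) := by
      refine le_trans ?_ h10
      exact mul_le_mul_of_nonneg_left (Real.rpow_le_rpow_of_exponent_le hT1 (by linarith)) hlog0
    calc (cntf (sec N) (ZN N σ T (2 * T)) : ℝ) ≤ C₁ * Real.log T *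
          ((cntf riemannZeta (ZZ (σ - δ) (T - 2) (2 * T + 2)) : ℝ) +
            T ^ (1 + ε / 4) * (N : ℝ) ^ (-(2 * (2 * σ - 1)))) := h5
      _ ≤ C₁ * Real.log T * (C₂ * (4 ^ (1 + ε) * T ^ (2 * (1 - σ) + 3 * (ε / 4))) +
            4 * T ^ (2 * (1 - σ) + ε / 4)) := by
          apply mul_le_mul_of_nonneg_left _ (by positivity)
          exact add_le_add (h8.trans (h7.trans (mul_le_mul_of_nonneg_left h9 hC₂.le))) h6
      _ = C₁ * (C₂ * 4 ^ (1 + ε) * (Real.log T * T ^ (2 * (1 - σ) + 3 * (ε / 4))) +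
            4 * (Real.log T * T ^ (2 * (1 - σ) + ε / 4))) := by ring
      _ ≤ C₁ * (C₂ * 4 ^ (1 + ε) * T ^ (2 * (1 - σ) + ε) + 4 * T ^ (2 * (1 - σ) + ε)) := by gcongr
      _ = K * T ^ (2 * (1 - σ) + ε) := by rw [hK]; ring
      _ ≤ _ := by
          apply mul_le_mul_of_nonneg_right _ hE0
          linarith
  · have h5 := h₃ T (by linarith) N l1 l2 σ hσ1 T (2 * T) hT0.le (by linarith)
    have e1 : 2 * T - T + 2 = T + 2 := by ring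
    rw [e1] at h5
    calc (cntf (sec N) (ZN N σ T (2 * T)) : ℝ) ≤ (T + 2) * (C₃ * Real.log T) := h5
      _ ≤ (2 * T ^ (1 : ℝ)) * (C₃ * T ^ (ε / 4)) := by
          have : T + 2 ≤ 2 * T ^ (1 : ℝ) := by rw [Real.rpow_one]; linarith
          gcongr
      _ = (2 * C₃) * T ^ (1 + ε / 4) := by rw [Real.rpow_add hT0]; ring
      _ ≤ (K + 2 * C₃) * T ^ (2 * (1 - σ) + ε) :=
          mul_le_mul (by linarith) (Real.rpow_le_rpow_of_exponent_le hT1 (by linarith)) (by positivity)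
            (by positivity)

theorem DH_of_SecDH {θ : ℝ} (hθ1 : 1 / 2 ≤ θ) (hθ2 : θ ≤ 2) (h : SecDH θ) : DH := by
  apply DH_of_dyadic
  intro ε hε
  obtain ⟨δ, hδ⟩ : ∃ δ : ℝ, δ = min (ε / 8) (1 / 2) := ⟨_, rfl⟩
  have hδ0 : 0 < δ := by rw [hδ]; exact lt_min (by positivity) (by norm_num)
  have hδ1 : δ ≤ 1 / 2 := by rw [hδ]; exact min_le_right _ _
  have hδ2 : δ ≤ ε / 8 := by rw [hδ]; exact min_le_left _ _
  obtain ⟨C₁, hC₁, T₁, h₁⟩ := zeta_le_sec (ε := ε / 4) hδ0 hδ1 (by positivity)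
  obtain ⟨C₂, hC₂, T₂, h₂⟩ := h (ε / 4) (by positivity)
  obtain ⟨C₃, hC₃, h₃⟩ := triv_sec (a := 2) (by norm_num)
  obtain ⟨C₅, hC₅, h₅⟩ := triv_zeta
  obtain ⟨T₄, h₄⟩ := Filter.eventually_atTop.1 (DH31.ev_log 1 (ε / 8) 1 (by positivity))
  obtain ⟨K, hK⟩ : ∃ K : ℝ, K = C₁ * (C₂ + 8 * C₃ + 4) := ⟨_, rfl⟩
  have hK0 : 0 < K := by rw [hK]; positivity
  refine ⟨K + 2 * C₅, by positivity, max (max T₁ T₂) (max T₄ 60), ?_⟩
  intro T hT σ hσ1 hσ2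
  have hTT₁ : T₁ ≤ T := (le_max_left _ _).trans ((le_max_left _ _).trans hT)
  have hTT₂ : T₂ ≤ T := (le_max_right _ _).trans ((le_max_left _ _).trans hT)
  have hTT₄ : T₄ ≤ T := (le_max_left _ _).trans ((le_max_right _ _).trans hT)
  have hT60 : 60 ≤ T := (le_max_right _ _).trans ((le_max_right _ _).trans hT)
  have hT4 : 4 ≤ T := by linarith
  have hT0 : 0 < T := by linarith
  have hT1 : 1 ≤ T := by linarith
  have hlog8 : Real.log T ≤ T ^ (ε / 8) := by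
    have := h₄ T hTT₄
    simpa using this
  have hlog : Real.log T ≤ T ^ (ε / 4) :=
    hlog8.trans (Real.rpow_le_rpow_of_exponent_le hT1 (by linarith))
  have hlog0 : 0 ≤ Real.log T := Real.log_nonneg hT1
  obtain ⟨l1, l2, l3, l4⟩ := len hT4 hθ1 hθ2
  have h2' := h₂ T hTT₂
  obtain ⟨N, hN⟩ : ∃ N : ℕ, N = ⌊T ^ θ⌋₊ := ⟨_, rfl⟩
  rw [← hN] at l1 l2 l3 l4 h2'
  have hE0 : 0 ≤ T ^ (2 * (1 - σ) + ε) := by positivity
  rcases le_or_gt (1 / 2 + δ) σ with hσ | hσ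
  · have h5 := h₁ T hTT₁ N l1 l3 σ hσ hσ2
    have h6 := exc_small (ε := ε / 4) hT4 l4 hσ1 hσ2
    have h7 := h2' (σ - δ) (by linarith) (by linarith)
    have h8 : (cntf (sec N) (ZN N (σ - δ) (T - 2) (2 * T + 2)) : ℝ) ≤
        (cntf (sec N) (ZN N (σ - δ) T (2 * T)) : ℝ) + 8 * (C₃ * Real.log T) := by
      have g1 : cntf (sec N) (ZN N (σ - δ) (T - 2) (2 * T + 2)) ≤ cntf (sec N) (ZN N (σ - δ) T (2 * T)) +
          (cntf (sec N) (ZN N (σ - δ) (T - 2) T) + cntf (sec N) (ZN N (σ - δ) (2 * T) (2 * T + 2))) := by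
        refine (cntf_mono ((ZN_finite l1 _ _ _).union ((ZN_finite l1 _ _ _).union (ZN_finite l1 _ _ _)))
          fun z hz => ?_).trans ((cntf_union (ZN_finite l1 _ _ _)
            ((ZN_finite l1 _ _ _).union (ZN_finite l1 _ _ _))).trans
              (Nat.add_le_add_left (cntf_union (ZN_finite l1 _ _ _) (ZN_finite l1 _ _ _)) _))
        rcases le_or_gt z.im T with h5 | h5
        · exact Or.inr (Or.inl ⟨hz.1, hz.2.1, hz.2.2.1, h5⟩)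
        · rcases le_or_gt z.im (2 * T) with h6 | h6
          · exact Or.inl ⟨hz.1, hz.2.1, h5, h6⟩
          · exact Or.inr (Or.inr ⟨hz.1, hz.2.1, h6, hz.2.2.2⟩)
      have g2 := h₃ T (by linarith) N l1 l2 (σ - δ) (by linarith) (T - 2) T (by linarith) (by linarith)
      have g3 := h₃ T (by linarith) N l1 l2 (σ - δ) (by linarith) (2 * T) (2 * T + 2) (by linarith) (by linarith)
      have e2 : T - (T - 2) + 2 = 4 := by ring
      have e3 : 2 * T + 2 - 2 * T + 2 = 4 := by ring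
      rw [e2] at g2
      rw [e3] at g3
      have g4 : (cntf (sec N) (ZN N (σ - δ) (T - 2) (2 * T + 2)) : ℝ) ≤ cntf (sec N) (ZN N (σ - δ) T (2 * T)) +
          (cntf (sec N) (ZN N (σ - δ) (T - 2) T) + cntf (sec N) (ZN N (σ - δ) (2 * T) (2 * T + 2))) := by
        exact_mod_cast g1
      linarith
    have h10 : Real.log T * T ^ (2 * (1 - (σ - δ)) + ε / 4) ≤ T ^ (2 * (1 - σ) + ε) := by
      calc Real.log T * T ^ (2 * (1 - (σ - δ)) + ε / 4) ≤ T ^ (ε / 4) * T ^ (2 * (1 - (σ - δ)) + ε / 4) := by gcongr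
        _ = T ^ (ε / 4 + (2 * (1 - (σ - δ)) + ε / 4)) := by rw [← Real.rpow_add hT0]
        _ ≤ _ := Real.rpow_le_rpow_of_exponent_le hT1 (by linarith)
    have h11 : Real.log T * T ^ (2 * (1 - σ) + ε / 4) ≤ T ^ (2 * (1 - σ) + ε) := by
      calc Real.log T * T ^ (2 * (1 - σ) + ε / 4) ≤ T ^ (ε / 4) * T ^ (2 * (1 - σ) + ε / 4) := by gcongr
        _ = T ^ (ε / 4 + (2 * (1 - σ) + ε / 4)) := by rw [← Real.rpow_add hT0]
        _ ≤ _ := Real.rpow_le_rpow_of_exponent_le hT1 (by linarith)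
    have h12 : Real.log T * Real.log T ≤ T ^ (2 * (1 - σ) + ε) := by
      calc Real.log T * Real.log T ≤ T ^ (ε / 8) * T ^ (ε / 8) := by gcongr
        _ = T ^ (ε / 8 + ε / 8) := by rw [← Real.rpow_add hT0]
        _ ≤ _ := Real.rpow_le_rpow_of_exponent_le hT1 (by linarith)
    calc (cntf riemannZeta (ZZ σ T (2 * T)) : ℝ) ≤ C₁ * Real.log T *
          ((cntf (sec N) (ZN N (σ - δ) (T - 2) (2 * T + 2)) : ℝ) +
            T ^ (1 + ε / 4) * (N : ℝ) ^ (-(2 * (2 * σ - 1)))) := h5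
      _ ≤ C₁ * Real.log T * ((C₂ * T ^ (2 * (1 - (σ - δ)) + ε / 4) + 8 * (C₃ * Real.log T)) +
            4 * T ^ (2 * (1 - σ) + ε / 4)) := by
          apply mul_le_mul_of_nonneg_left _ (by positivity)
          exact add_le_add (h8.trans (by linarith)) h6
      _ = C₁ * (C₂ * (Real.log T * T ^ (2 * (1 - (σ - δ)) + ε / 4)) + 8 * C₃ * (Real.log T * Real.log T) +
            4 * (Real.log T * T ^ (2 * (1 - σ) + ε / 4))) := by ring
      _ ≤ C₁ * (C₂ * T ^ (2 * (1 - σ) + ε) + 8 * C₃ * T ^ (2 * (1 - σ) + ε) + 4 * T ^ (2 * (1 - σ) + ε)) := by gcongr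
      _ = K * T ^ (2 * (1 - σ) + ε) := by rw [hK]; ring
      _ ≤ _ := by
          apply mul_le_mul_of_nonneg_right _ hE0
          linarith
  · have h6 := h₅ T hT60 σ hσ1
    calc (cntf riemannZeta (ZZ σ T (2 * T)) : ℝ) ≤ (T + 2) * (C₅ * Real.log T) := h6
      _ ≤ (2 * T ^ (1 : ℝ)) * (C₅ * T ^ (ε / 4)) := by
          have : T + 2 ≤ 2 * T ^ (1 : ℝ) := by rw [Real.rpow_one]; linarith
          gcongr
      _ = (2 * C₅) * T ^ (1 + ε / 4) := by rw [Real.rpow_add hT0]; ring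
      _ ≤ (K + 2 * C₅) * T ^ (2 * (1 - σ) + ε) :=
          mul_le_mul (by linarith) (Real.rpow_le_rpow_of_exponent_le hT1 (by linarith)) (by positivity)
            (by positivity)

end Pool.Agent.TH804.SD
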