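import Pool.Agent.TH804.SS5
import Pool.Agent.Helper240.ZU.A4

/-! Long sections (of length `T^θ`, `θ > 2`) have many zeros. -/

set_option autoImplicit false

open Complex MeasureTheory Filter Topology Set

namespace Pool.Agent.TH804.SS

lemma sec_eq_DN (N : ℕ) (s : ℂ) : sec N s = ZU.DN N s := by
  unfold sec ZU.DN
  rw [Finset.sum_bij (fun n _ => n + 1)]
  · intro n hn
    rw [Finset.mem_range] at hn
    rw [Finset.mem_Icc]; omega
  · intro a _ b _ h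
    omega
  · intro m hm
    rw [Finset.mem_Icc] at hm
    exact ⟨m - 1, by rw [Finset.mem_range]; omega, by omega⟩
  · intro n _
    push_cast
    rfl

lemma em (N : ℕ) (hN : 1 ≤ N) {s : ℂ} (hs : 1 / 2 ≤ s.re) (hs1 : s ≠ 1) :
    ‖riemannZeta s - sec N s - (N : ℂ) ^ (1 - s) / (s - 1)‖ ≤ 2 * ‖s‖ * (N : ℝ) ^ (-(1 / 2) : ℝ) := by
  have hN0 : (0 : ℝ) < N := by exact_mod_cast hN
  have hN1 : (1 : ℝ) ≤ N := by exact_mod_cast hN
  have h1 := ZU.zeta_formula N hN s (by linarith) hs1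
  have h2 : riemannZeta s - sec N s - (N : ℂ) ^ (1 - s) / (s - 1) =
      -(s * ∫ u in Ioi (N : ℝ), ((Int.fract u : ℝ) : ℂ) * (u : ℂ) ^ (-s - 1)) := by
    rw [h1, sec_eq_DN]; ring
  rw [h2, norm_neg, norm_mul]
  have h3 : ‖∫ u in Ioi (N : ℝ), ((Int.fract u : ℝ) : ℂ) * (u : ℂ) ^ (-s - 1)‖ ≤
      ∫ u in Ioi (N : ℝ), u ^ (-s.re - 1) := by
    refine norm_integral_le_of_norm_le (integrableOn_Ioi_rpow_of_lt (by linarith) hN0) ?_
    rw [ae_restrict_iff' measurableSet_Ioi]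
    refine Eventually.of_forall fun u hu => ?_
    have hu0 : 0 < u := lt_trans hN0 hu
    rw [norm_mul, Complex.norm_cpow_eq_rpow_re_of_pos hu0, Complex.norm_real, Real.norm_eq_abs,
      abs_of_nonneg (Int.fract_nonneg u)]
    have h4 : (-s - 1).re = -s.re - 1 := by simp
    rw [h4]
    exact mul_le_of_le_one_left (by positivity) (Int.fract_lt_one u).le
  have h5 : ∫ u in Ioi (N : ℝ), u ^ (-s.re - 1) = (N : ℝ) ^ (-s.re) / s.re := by
    rw [integral_Ioi_rpow_of_lt (by linarith) hN0]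
    have : -s.re - 1 + 1 = -s.re := by ring
    rw [this, neg_div_neg_eq]
  rw [h5] at h3
  have h6 : (N : ℝ) ^ (-s.re) / s.re ≤ 2 * (N : ℝ) ^ (-(1 / 2) : ℝ) := by
    rw [div_le_iff₀ (by linarith)]
    have h7 : (N : ℝ) ^ (-s.re) ≤ (N : ℝ) ^ (-(1 / 2) : ℝ) :=
      Real.rpow_le_rpow_of_exponent_le hN1 (by linarith)
    have h8 : 0 ≤ (N : ℝ) ^ (-(1 / 2) : ℝ) := by positivity
    nlinarith
  calc ‖s‖ * ‖∫ u in Ioi (N : ℝ), ((Int.fract u : ℝ) : ℂ) * (u : ℂ) ^ (-s - 1)‖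
      ≤ ‖s‖ * (2 * (N : ℝ) ^ (-(1 / 2) : ℝ)) := mul_le_mul_of_nonneg_left (h3.trans h6) (norm_nonneg _)
    _ = _ := by ring

/-- zeta is often small to the right of the critical line -/
lemma exists_small {σ : ℝ} (h1 : 1 / 2 < σ) (h2 : σ < 1) : ∃ K : ℝ, ∀ T₀ : ℝ, ∃ T : ℝ, T₀ ≤ T ∧
    ‖riemannZeta ((σ : ℂ) + (T : ℂ) * I)‖ ≤ K := by
  obtain ⟨N, hN⟩ := ZU.zeta_meansq σ σ h1 le_rfl h2 1 one_pos (1 / 4) (by norm_num)
  obtain ⟨T1, hT1, h3⟩ := hN N le_rfl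
  refine ⟨N + 1, fun T₀ => ?_⟩
  by_contra hcon
  push Not at hcon
  set T := max (max T1 (2 * |T₀|)) 1 with hT
  have hTT1 : T1 ≤ T := (le_max_left _ _).trans (le_max_left _ _)
  have hTT0 : 2 * |T₀| ≤ T := (le_max_right _ _).trans (le_max_left _ _)
  have hT11 : 1 ≤ T := le_max_right _ _
  have h4 := h3 T hTT1 σ ⟨le_rfl, le_rfl⟩
  have hne : ∀ t : ℝ, (σ : ℂ) + t * I ≠ 1 := by
    intro t h
    have := congrArg Complex.re h
    simp at this
    linarith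
  have hcont : Continuous (fun t : ℝ => ‖riemannZeta ((σ : ℂ) + t * I) - ZU.DN N ((σ : ℂ) + t * I)‖ ^ 2) := by
    have hc1 : Continuous (fun t : ℝ => riemannZeta ((σ : ℂ) + t * I)) := by
      rw [continuous_iff_continuousAt]
      intro t
      have h5 := (differentiableAt_riemannZeta (hne t)).continuousAt
      have h6 : ContinuousAt (fun t : ℝ => (σ : ℂ) + t * I) t := by fun_prop
      exact ContinuousAt.comp (g := riemannZeta) (f := fun t : ℝ => (σ : ℂ) + t * I) h5 h6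
    have hc2 : Continuous (fun t : ℝ => ZU.DN N ((σ : ℂ) + t * I)) := by
      have : (fun t : ℝ => ZU.DN N ((σ : ℂ) + t * I)) = fun t : ℝ => sec N ((σ : ℂ) + t * I) := by
        ext t; rw [sec_eq_DN]
      rw [this]
      exact (sec_diff N).continuous.comp (by fun_prop)
    exact (hc1.sub hc2).norm.pow 2
  have h5 : ∫ t in (T / 2)..T, (1 : ℝ) ≤
      ∫ t in (T / 2)..T, ‖riemannZeta ((σ : ℂ) + t * I) - ZU.DN N ((σ : ℂ) + t * I)‖ ^ 2 := by
    refine intervalIntegral.integral_mono_on (by linarith) (by simp) (hcont.intervalIntegrable _ _) ?_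
    intro t ht
    have h6 := hcon t (by linarith [ht.1, le_abs_self T₀])
    have h7 : ‖ZU.DN N ((σ : ℂ) + t * I)‖ ≤ N := by
      rw [← sec_eq_DN]
      exact sec_crude N (by simp; linarith)
    have h8 := norm_sub_norm_le (riemannZeta ((σ : ℂ) + t * I)) (ZU.DN N ((σ : ℂ) + t * I))
    nlinarith
  have h6 : ∫ t in (T / 2)..T, ‖riemannZeta ((σ : ℂ) + t * I) - ZU.DN N ((σ : ℂ) + t * I)‖ ^ 2 ≤
      ∫ t in (-1)..(T + 1), ‖riemannZeta ((σ : ℂ) + t * I) - ZU.DN N ((σ : ℂ) + t * I)‖ ^ 2 :=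
    intervalIntegral.integral_mono_interval (by linarith) (by linarith) (by linarith)
      (Eventually.of_forall fun t => by positivity) (hcont.intervalIntegrable _ _)
  rw [intervalIntegral.integral_const, smul_eq_mul, mul_one] at h5
  linarith

/-- **sections of length `T^θ`, `θ > 2`, have many zeros** -/
theorem not_single {θ H : ℝ} (hθ : 2 < θ) (hH : 3 / 2 ≤ H) : ¬ Single θ H := by
  intro hS
  obtain ⟨δ, hδ⟩ : ∃ δ : ℝ, δ = min (1 / 12) ((θ - 2) / (8 * θ)) := ⟨_, rfl⟩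
  have hθ0 : 0 < θ := by linarith
  have hδ0 : 0 < δ := by
    rw [hδ]
    exact lt_min (by norm_num) (div_pos (by linarith) (by positivity))
  have hδ1 : δ ≤ 1 / 12 := by rw [hδ]; exact min_le_left _ _
  have hδ2 : δ * θ ≤ (θ - 2) / 8 := by
    have h1 : δ ≤ (θ - 2) / (8 * θ) := by rw [hδ]; exact min_le_right _ _
    calc δ * θ ≤ (θ - 2) / (8 * θ) * θ := mul_le_mul_of_nonneg_right h1 hθ0.le
      _ = _ := by field_simp
  obtain ⟨ε, hε⟩ : ∃ ε : ℝ, ε = (θ - 2) / 8 := ⟨_, rfl⟩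
  have hε0 : 0 < ε := by rw [hε]; linarith
  obtain ⟨T₁, h1⟩ := single_small hθ0 hH hS hδ0 hδ1 hε0
  obtain ⟨K, hK⟩ := exists_small (σ := 1 / 2 + 2 * δ) (by linarith) (by linarith)
  obtain ⟨Q, hQ⟩ : ∃ Q : ℝ, Q = 4 * (|K| + 14) + 5 := ⟨_, rfl⟩
  have hQ0 : 0 < Q := by rw [hQ]; positivity
  obtain ⟨T, hT, h2⟩ := hK (max (max T₁ 4) (Q ^ (1 / ε)))
  have hT1 : T₁ ≤ T := ((le_max_left _ _).trans (le_max_left _ _)).trans hT
  have hT4 : 4 ≤ T := ((le_max_right _ _).trans (le_max_left _ _)).trans hT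
  have hTQ : Q ^ (1 / ε) ≤ T := (le_max_right _ _).trans hT
  have hT0 : 0 < T := by linarith
  have hQT : Q ≤ T ^ ε := by
    calc Q = (Q ^ (1 / ε)) ^ ε := by
          rw [← Real.rpow_mul hQ0.le]
          have : 1 / ε * ε = 1 := by field_simp
          rw [this, Real.rpow_one]
      _ ≤ T ^ ε := Real.rpow_le_rpow (by positivity) hTQ hε0.le
  have h3 := h1 T hT1
  obtain ⟨N, hN⟩ : ∃ N : ℕ, N = ⌊T ^ θ⌋₊ := ⟨_, rfl⟩
  rw [← hN] at h3
  obtain ⟨s, hs⟩ : ∃ s : ℂ, s = ((1 / 2 + 2 * δ : ℝ) : ℂ) + (T : ℂ) * I := ⟨_, rfl⟩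
  rw [← hs] at h3 h2
  have hre : s.re = 1 / 2 + 2 * δ := by rw [hs]; simp
  have him : s.im = T := by rw [hs]; simp
  have hTθ : T ^ (2 : ℝ) ≤ T ^ θ := Real.rpow_le_rpow_of_exponent_le (by linarith) hθ.le
  have hT2 : T ^ (2 : ℝ) = T * T := by
    rw [show (2 : ℝ) = ((2 : ℕ) : ℝ) by norm_num, Real.rpow_natCast]; ring
  rw [hT2] at hTθ
  have h16 : 16 ≤ T * T := by nlinarith
  have hNlow : T ^ θ / 2 ≤ N := by
    have := Nat.lt_floor_add_one (T ^ θ)
    rw [← hN] at this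
    linarith
  have hN1 : 1 ≤ N := by
    have : (1 : ℝ) ≤ N := by linarith
    exact_mod_cast this
  have hN0 : (0 : ℝ) < N := by exact_mod_cast hN1
  have hne : s ≠ 1 := by
    intro h
    rw [h] at him
    simp at him
    linarith
  have h4 := em N hN1 (s := s) (by rw [hre]; linarith) hne
  have hsnorm : ‖s‖ ≤ 2 * T := by
    have := Complex.norm_le_abs_re_add_abs_im s
    rw [hre, him, abs_of_pos (by linarith), abs_of_pos hT0] at this
    linarith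
  have hs1norm : ‖s - 1‖ ≤ 2 * T := by
    have := Complex.norm_le_abs_re_add_abs_im (s - 1)
    rw [Complex.sub_re, Complex.sub_im, hre, him, Complex.one_re, Complex.one_im, sub_zero, abs_of_pos hT0,
      abs_of_neg (by linarith)] at this
    linarith
  have hs1pos : 0 < ‖s - 1‖ := norm_pos_iff.2 (sub_ne_zero.2 hne)
  -- the error term is bounded
  have h5 : 2 * ‖s‖ * (N : ℝ) ^ (-(1 / 2) : ℝ) ≤ 8 := by
    have h6 : (N : ℝ) ^ (-(1 / 2) : ℝ) ≤ (T * T / 4) ^ (-(1 / 2) : ℝ) :=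
      Real.rpow_le_rpow_of_nonpos (by positivity) (by linarith) (by norm_num)
    have h7 : (T * T / 4) ^ (-(1 / 2) : ℝ) = 2 / T := by
      have h8 : T * T / 4 = (T / 2) ^ (2 : ℝ) := by
        rw [show (2 : ℝ) = ((2 : ℕ) : ℝ) by norm_num, Real.rpow_natCast]; push_cast; ring
      rw [h8, ← Real.rpow_mul (by positivity)]
      rw [show (2 : ℝ) * -(1 / 2) = -1 by norm_num, Real.rpow_neg_one]
      rw [inv_div]
    rw [h7] at h6
    calc 2 * ‖s‖ * (N : ℝ) ^ (-(1 / 2) : ℝ) ≤ 2 * (2 * T) * (2 / T) := by gcongr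
      _ = 8 := by field_simp; norm_num
  -- the main term is large
  have h9 : T ^ (2 * ε) / 4 ≤ ‖(N : ℂ) ^ (1 - s) / (s - 1)‖ := by
    rw [norm_div, Complex.norm_natCast_cpow_of_pos (by omega)]
    have h10 : (1 - s).re = 1 / 2 - 2 * δ := by rw [Complex.sub_re, hre, Complex.one_re]; ring
    rw [h10, le_div_iff₀ hs1pos]
    have h11 : T ^ (2 * ε + 1) / 2 ≤ (N : ℝ) ^ (1 / 2 - 2 * δ) := by
      have h12 : (T ^ θ / 2) ^ (1 / 2 - 2 * δ) ≤ (N : ℝ) ^ (1 / 2 - 2 * δ) :=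
        Real.rpow_le_rpow (by positivity) hNlow (by linarith)
      refine le_trans ?_ h12
      rw [Real.div_rpow (by positivity) (by norm_num), ← Real.rpow_mul hT0.le]
      have h13 : (2 : ℝ) ^ (1 / 2 - 2 * δ) ≤ 2 := by
        calc (2 : ℝ) ^ (1 / 2 - 2 * δ) ≤ 2 ^ (1 : ℝ) := Real.rpow_le_rpow_of_exponent_le (by norm_num) (by linarith)
          _ = 2 := Real.rpow_one 2
      have h14 : T ^ (2 * ε + 1) ≤ T ^ (θ * (1 / 2 - 2 * δ)) := by
        apply Real.rpow_le_rpow_of_exponent_le (by linarith)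
        rw [hε]
        nlinarith
      have h15 : 0 < (2 : ℝ) ^ (1 / 2 - 2 * δ) := by positivity
      rw [div_le_div_iff₀ two_pos h15]
      exact mul_le_mul h14 h13 h15.le (by positivity)
    have h16 : T ^ (2 * ε + 1) = T ^ (2 * ε) * T := by rw [Real.rpow_add hT0, Real.rpow_one]
    rw [h16] at h11
    calc T ^ (2 * ε) / 4 * ‖s - 1‖ ≤ T ^ (2 * ε) / 4 * (2 * T) := by gcongr
      _ = T ^ (2 * ε) * T / 2 := by ring
      _ ≤ _ := h11
  have h17 : ‖(N : ℂ) ^ (1 - s) / (s - 1)‖ ≤ ‖riemannZeta s‖ + ‖sec N s‖ +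
      ‖riemannZeta s - sec N s - (N : ℂ) ^ (1 - s) / (s - 1)‖ := by
    have h18 : (N : ℂ) ^ (1 - s) / (s - 1) = riemannZeta s - sec N s -
        (riemannZeta s - sec N s - (N : ℂ) ^ (1 - s) / (s - 1)) := by ring
    calc ‖(N : ℂ) ^ (1 - s) / (s - 1)‖ = ‖riemannZeta s - sec N s -
        (riemannZeta s - sec N s - (N : ℂ) ^ (1 - s) / (s - 1))‖ := by rw [← h18]
      _ ≤ ‖riemannZeta s - sec N s‖ + ‖riemannZeta s - sec N s - (N : ℂ) ^ (1 - s) / (s - 1)‖ := norm_sub_le _ _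
      _ ≤ _ := by
        have := norm_sub_le (riemannZeta s) (sec N s)
        linarith
  have h19 : T ^ (2 * ε) = T ^ ε * T ^ ε := by rw [← Real.rpow_add hT0]; congr 1; ring
  have h20 := le_abs_self K
  have h21 : T ^ ε * T ^ ε / 4 ≤ |K| + T ^ ε + 8 := by
    rw [h19] at h9
    linarith
  have h22 : 0 ≤ |K| := abs_nonneg K
  nlinarith

end Pool.Agent.TH804.SS
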