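import Pool.Agent.TH804.SD12
import Pool.Agent.TH804.SS6

/-! Sections longer than `T ^ 2` violate the density bound. -/

set_option autoImplicit false

open Complex Metric Set Filter Topology MeasureTheory

namespace Pool.Agent.TH804.SD

open Pool.Agent.TH804.SS DH31 Pool.Agent.TH804.LV

/-- a zero-free window of a long section makes zeta large -/
lemma long_large {θ d : ℝ} (hθ : 2 < θ) (hd : 0 < d) (hd1 : d ≤ 1 / 12) (hd2 : 4 * d * θ ≤ (θ - 2) / 8)
    (K : ℝ) : ∃ T₀ : ℝ, ∀ T : ℝ, T₀ ≤ T → ∀ s : ℂ, s.re = 1 / 2 + 4 * d → T ≤ s.im → s.im ≤ 2 * T →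
      (∀ z : ℂ, 1 / 2 + d ≤ z.re → |z.im - s.im| ≤ 2 → sec ⌊T ^ θ⌋₊ z ≠ 0) → K < ‖riemannZeta s‖ := by
  obtain ⟨ε, hε⟩ : ∃ ε : ℝ, ε = (θ - 2) / 8 := ⟨_, rfl⟩
  have hε0 : 0 < ε := by rw [hε]; linarith
  have hθ0 : 0 < θ := by linarith
  obtain ⟨T₁, h1⟩ := sec_window (a := θ) hd hd1 hε0 hθ0.le
  obtain ⟨Q, hQ⟩ : ∃ Q : ℝ, Q = 6 * |K| + 80 := ⟨_, rfl⟩
  have hQ0 : 0 < Q := by rw [hQ]; positivity
  refine ⟨max (max T₁ 4) (Q ^ (1 / ε)), fun T hT s hre him1 him2 hzf => ?_⟩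
  have hT1 : T₁ ≤ T := ((le_max_left _ _).trans (le_max_left _ _)).trans hT
  have hT4 : 4 ≤ T := ((le_max_right _ _).trans (le_max_left _ _)).trans hT
  have hTQ : Q ^ (1 / ε) ≤ T := (le_max_right _ _).trans hT
  have hT0 : 0 < T := by linarith
  have hQT : Q ≤ T ^ ε := by
    calc Q = (Q ^ (1 / ε)) ^ ε := by
          rw [← Real.rpow_mul hQ0.le]
          have : 1 / ε * ε = 1 := by field_simp
          rw [this, Real.rpow_one]
      _ ≤ T ^ ε := Real.rpow_le_rpow (by positivity) hTQ hε0.le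
  obtain ⟨N, hN⟩ : ∃ N : ℕ, N = ⌊T ^ θ⌋₊ := ⟨_, rfl⟩
  rw [← hN] at hzf
  by_contra hcon
  push Not at hcon
  have hTθ : T ^ (2 : ℝ) ≤ T ^ θ := Real.rpow_le_rpow_of_exponent_le (by linarith) hθ.le
  have hT2 : T ^ (2 : ℝ) = T * T := by
    rw [show (2 : ℝ) = ((2 : ℕ) : ℝ) by norm_num, Real.rpow_natCast]; ring
  rw [hT2] at hTθ
  have h16 : 16 ≤ T * T := by nlinarith
  have hNlow : T ^ θ / 2 ≤ N := by
    have := Nat.lt_floor_add_one (T ^ θ)
    rw [← hN] at this
    linarith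
  have hNup : (N : ℝ) ≤ T ^ θ := by rw [hN]; exact Nat.floor_le (by positivity)
  have hN1 : 1 ≤ N := by
    have : (1 : ℝ) ≤ N := by linarith
    exact_mod_cast this
  have hN0 : (0 : ℝ) < N := by exact_mod_cast hN1
  have h3 := (h1 T hT1 N hN1 hNup (1 / 2 + 4 * d) (by linarith) (by linarith) s.im
    (fun z hz1 hz2 => hzf z (by linarith) hz2) s hre.ge rfl).2
  have hne : s ≠ 1 := by
    intro h
    rw [h] at him1
    simp at him1
    linarith
  have him0 : 0 < s.im := by linarith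
  have h4 := em N hN1 (s := s) (by rw [hre]; linarith) hne
  have hsnorm : ‖s‖ ≤ 3 * T := by
    have := Complex.norm_le_abs_re_add_abs_im s
    rw [hre, abs_of_pos (by linarith), abs_of_pos him0] at this
    linarith
  have hs1norm : ‖s - 1‖ ≤ 3 * T := by
    have := Complex.norm_le_abs_re_add_abs_im (s - 1)
    rw [Complex.sub_re, Complex.sub_im, hre, Complex.one_re, Complex.one_im, sub_zero, abs_of_pos him0,
      abs_of_neg (by linarith)] at this
    linarith
  have hs1pos : 0 < ‖s - 1‖ := norm_pos_iff.2 (sub_ne_zero.2 hne)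
  -- the error term is bounded
  have h5 : 2 * ‖s‖ * (N : ℝ) ^ (-(1 / 2) : ℝ) ≤ 12 := by
    have h6 : (N : ℝ) ^ (-(1 / 2) : ℝ) ≤ (T * T / 4) ^ (-(1 / 2) : ℝ) :=
      Real.rpow_le_rpow_of_nonpos (by positivity) (by linarith) (by norm_num)
    have h7 : (T * T / 4) ^ (-(1 / 2) : ℝ) = 2 / T := by
      have h8 : T * T / 4 = (T / 2) ^ (2 : ℝ) := by
        rw [show (2 : ℝ) = ((2 : ℕ) : ℝ) by norm_num, Real.rpow_natCast]; push_cast; ring
      rw [h8, ← Real.rpow_mul (by positivity)]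
      rw [show (2 : ℝ) * -(1 / 2) = -1 by norm_num, Real.rpow_neg_one]
      rw [inv_div]
    rw [h7] at h6
    calc 2 * ‖s‖ * (N : ℝ) ^ (-(1 / 2) : ℝ) ≤ 2 * (3 * T) * (2 / T) := by gcongr
      _ = 12 := by field_simp; norm_num
  -- the main term is large
  have h9 : T ^ (2 * ε) / 6 ≤ ‖(N : ℂ) ^ (1 - s) / (s - 1)‖ := by
    rw [norm_div, Complex.norm_natCast_cpow_of_pos (by omega)]
    have h10 : (1 - s).re = 1 / 2 - 4 * d := by rw [Complex.sub_re, hre, Complex.one_re]; ring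
    rw [h10, le_div_iff₀ hs1pos]
    have h11 : T ^ (2 * ε + 1) / 2 ≤ (N : ℝ) ^ (1 / 2 - 4 * d) := by
      have h12 : (T ^ θ / 2) ^ (1 / 2 - 4 * d) ≤ (N : ℝ) ^ (1 / 2 - 4 * d) :=
        Real.rpow_le_rpow (by positivity) hNlow (by linarith)
      refine le_trans ?_ h12
      rw [Real.div_rpow (by positivity) (by norm_num), ← Real.rpow_mul hT0.le]
      have h13 : (2 : ℝ) ^ (1 / 2 - 4 * d) ≤ 2 := by
        calc (2 : ℝ) ^ (1 / 2 - 4 * d) ≤ 2 ^ (1 : ℝ) := Real.rpow_le_rpow_of_exponent_le (by norm_num) (by linarith)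
          _ = 2 := Real.rpow_one 2
      have h14 : T ^ (2 * ε + 1) ≤ T ^ (θ * (1 / 2 - 4 * d)) := by
        apply Real.rpow_le_rpow_of_exponent_le (by linarith)
        rw [hε]
        nlinarith
      have h15 : 0 < (2 : ℝ) ^ (1 / 2 - 4 * d) := by positivity
      rw [div_le_div_iff₀ two_pos h15]
      exact mul_le_mul h14 h13 h15.le (by positivity)
    have h16 : T ^ (2 * ε + 1) = T ^ (2 * ε) * T := by rw [Real.rpow_add hT0, Real.rpow_one]
    rw [h16] at h11
    calc T ^ (2 * ε) / 6 * ‖s - 1‖ ≤ T ^ (2 * ε) / 6 * (3 * T) := by gcongr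
      _ = T ^ (2 * ε) * T / 2 := by ring
      _ ≤ _ := h11
  have h17 : ‖(N : ℂ) ^ (1 - s) / (s - 1)‖ ≤ ‖riemannZeta s‖ + ‖sec N s‖ +
      ‖riemannZeta s - sec N s - (N : ℂ) ^ (1 - s) / (s - 1)‖ := by
    have h18 : (N : ℂ) ^ (1 - s) / (s - 1) = riemannZeta s - sec N s -
        (riemannZeta s - sec N s - (N : ℂ) ^ (1 - s) / (s - 1)) := by ring
    calc ‖(N : ℂ) ^ (1 - s) / (s - 1)‖ = ‖riemannZeta s - sec N s -
        (riemannZeta s - sec N s - (N : ℂ) ^ (1 - s) / (s - 1))‖ := by rw [← h18]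
      _ ≤ ‖riemannZeta s - sec N s‖ + ‖riemannZeta s - sec N s - (N : ℂ) ^ (1 - s) / (s - 1)‖ := norm_sub_le _ _
      _ ≤ _ := by
        have := norm_sub_le (riemannZeta s) (sec N s)
        linarith
  have h19 : T ^ (2 * ε) = T ^ ε * T ^ ε := by rw [← Real.rpow_add hT0]; congr 1; ring
  have h20 := le_abs_self K
  have h21 : T ^ ε * T ^ ε / 6 ≤ |K| + T ^ ε + 12 := by
    rw [h19] at h9
    linarith
  have h22 : 0 ≤ |K| := abs_nonneg K
  nlinarith

theorem not_SecDH {θ : ℝ} (hθ : 2 < θ) : ¬ SecDH θ := by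
  classical
  intro h
  have hθ0 : 0 < θ := by linarith
  obtain ⟨d, hd⟩ : ∃ d : ℝ, d = min (1 / 12) ((θ - 2) / (32 * θ)) := ⟨_, rfl⟩
  have hd0 : 0 < d := by
    rw [hd]
    exact lt_min (by norm_num) (div_pos (by linarith) (by positivity))
  have hd1 : d ≤ 1 / 12 := by rw [hd]; exact min_le_left _ _
  have hd2 : 4 * d * θ ≤ (θ - 2) / 8 := by
    have h1 : d ≤ (θ - 2) / (32 * θ) := by rw [hd]; exact min_le_right _ _
    calc 4 * d * θ ≤ 4 * ((θ - 2) / (32 * θ)) * θ := by gcongr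
      _ = _ := by field_simp; ring
  obtain ⟨σ, hσ⟩ : ∃ σ : ℝ, σ = 1 / 2 + 4 * d := ⟨_, rfl⟩
  obtain ⟨N₀, hN₀⟩ := ZU.zeta_meansq σ σ (by linarith) le_rfl (by linarith) 1 one_pos (1 / 4) (by norm_num)
  obtain ⟨T₁, hT₁, h3⟩ := hN₀ N₀ le_rfl
  obtain ⟨T₂, h2⟩ := long_large hθ hd0 hd1 hd2 (N₀ + 2)
  obtain ⟨C, hC, T₃, h4⟩ := h d hd0
  obtain ⟨C₃, hC₃, h5⟩ := triv_sec (a := θ) hθ0.le
  obtain ⟨T₄, h6⟩ := Filter.eventually_atTop.1
    ((tendsto_rpow_atTop hd0).eventually_ge_atTop (32 * C))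
  obtain ⟨T₅, h7⟩ := Filter.eventually_atTop.1 (DH31.ev_log (256 * C₃) 1 1 (by norm_num))
  obtain ⟨T, hT⟩ : ∃ T : ℝ, T = max (max (max T₁ T₂) (max T₃ T₄)) (max T₅ 4) := ⟨_, rfl⟩
  have hTT₁ : T₁ ≤ T := by rw [hT]; exact (le_max_left _ _).trans ((le_max_left _ _).trans (le_max_left _ _))
  have hTT₂ : T₂ ≤ T := by rw [hT]; exact (le_max_right _ _).trans ((le_max_left _ _).trans (le_max_left _ _))
  have hTT₃ : T₃ ≤ T := by rw [hT]; exact (le_max_left _ _).trans ((le_max_right _ _).trans (le_max_left _ _))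
  have hTT₄ : T₄ ≤ T := by rw [hT]; exact (le_max_right _ _).trans ((le_max_right _ _).trans (le_max_left _ _))
  have hTT₅ : T₅ ≤ T := by rw [hT]; exact (le_max_left _ _).trans (le_max_right _ _)
  have hT4 : 4 ≤ T := by rw [hT]; exact (le_max_right _ _).trans (le_max_right _ _)
  have hT0 : 0 < T := by linarith
  obtain ⟨N, hN⟩ : ∃ N : ℕ, N = ⌊T ^ θ⌋₊ := ⟨_, rfl⟩
  have hTθ : T ^ (1 : ℝ) ≤ T ^ θ := Real.rpow_le_rpow_of_exponent_le (by linarith) (by linarith)
  rw [Real.rpow_one] at hTθ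
  have hNup : (N : ℝ) ≤ T ^ θ := by rw [hN]; exact Nat.floor_le (by positivity)
  have hN1 : 1 ≤ N := by
    rw [hN, Nat.one_le_floor_iff]
    linarith
  -- few zeros
  set Z := (ZN_finite hN1 (1 / 2 + d) (T - 2) (2 * T + 2)).toFinset with hZ
  have hcardZ : (Z.card : ℝ) ≤ T / 16 := by
    have g0 : (Z.card : ℝ) ≤ (cntf (sec N) (ZN N (1 / 2 + d) (T - 2) (2 * T + 2)) : ℝ) := by
      rw [cntf_eq (ZN_finite hN1 (1 / 2 + d) (T - 2) (2 * T + 2))]
      have : Z.card ≤ ∑ s ∈ Z, analyticOrderNatAt (sec N) s := by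
        calc Z.card = ∑ s ∈ Z, 1 := by simp
          _ ≤ _ := Finset.sum_le_sum fun z hz => by
            rw [hZ, Set.Finite.mem_toFinset] at hz
            exact sec_ord hN1 hz.1
      exact_mod_cast this
    have g1 : cntf (sec N) (ZN N (1 / 2 + d) (T - 2) (2 * T + 2)) ≤ cntf (sec N) (ZN N (1 / 2 + d) T (2 * T)) +
        (cntf (sec N) (ZN N (1 / 2 + d) (T - 2) T) + cntf (sec N) (ZN N (1 / 2 + d) (2 * T) (2 * T + 2))) := by
      refine (cntf_mono ((ZN_finite hN1 _ _ _).union ((ZN_finite hN1 _ _ _).union (ZN_finite hN1 _ _ _)))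
        fun z hz => ?_).trans ((cntf_union (ZN_finite hN1 _ _ _)
          ((ZN_finite hN1 _ _ _).union (ZN_finite hN1 _ _ _))).trans
            (Nat.add_le_add_left (cntf_union (ZN_finite hN1 _ _ _) (ZN_finite hN1 _ _ _)) _))
      rcases le_or_gt z.im T with h5 | h5
      · exact Or.inr (Or.inl ⟨hz.1, hz.2.1, hz.2.2.1, h5⟩)
      · rcases le_or_gt z.im (2 * T) with h6 | h6
        · exact Or.inl ⟨hz.1, hz.2.1, h5, h6⟩
        · exact Or.inr (Or.inr ⟨hz.1, hz.2.1, h6, hz.2.2.2⟩)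
    have g2 := h5 T (by linarith) N hN1 hNup (1 / 2 + d) (by linarith) (T - 2) T (by linarith) (by linarith)
    have g3 := h5 T (by linarith) N hN1 hNup (1 / 2 + d) (by linarith) (2 * T) (2 * T + 2) (by linarith)
      (by linarith)
    have e2 : T - (T - 2) + 2 = 4 := by ring
    have e3 : 2 * T + 2 - 2 * T + 2 = 4 := by ring
    rw [e2] at g2
    rw [e3] at g3
    have g4 : (cntf (sec N) (ZN N (1 / 2 + d) (T - 2) (2 * T + 2)) : ℝ) ≤ cntf (sec N) (ZN N (1 / 2 + d) T (2 * T)) +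
        (cntf (sec N) (ZN N (1 / 2 + d) (T - 2) T) + cntf (sec N) (ZN N (1 / 2 + d) (2 * T) (2 * T + 2))) := by
      exact_mod_cast g1
    have g5 := h4 T hTT₃ (1 / 2 + d) (by linarith) (by linarith)
    rw [← hN] at g5
    have e4 : 2 * (1 - (1 / 2 + d)) + d = 1 - d := by ring
    rw [e4] at g5
    have g6 : C * T ^ (1 - d) ≤ T / 32 := by
      have h8 := h6 T hTT₄
      have h9 : T ^ d * T ^ (1 - d) = T := by
        rw [← Real.rpow_add hT0]
        have : d + (1 - d) = 1 := by ring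
        rw [this, Real.rpow_one]
      have h10 : 0 ≤ T ^ (1 - d) := by positivity
      nlinarith [mul_le_mul_of_nonneg_right h8 h10]
    have g7 : 8 * (C₃ * Real.log T) ≤ T / 32 := by
      have h8 := h7 T hTT₅
      rw [pow_one, Real.rpow_one] at h8
      linarith
    linarith
  -- the mean square
  have hms := h3 (2 * T) (by linarith) σ ⟨le_rfl, le_rfl⟩
  have hne : ∀ t : ℝ, (σ : ℂ) + t * I ≠ 1 := by
    intro t h
    have := congrArg Complex.re h
    simp at this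
    linarith
  have hcont : Continuous (fun t : ℝ => ‖riemannZeta ((σ : ℂ) + t * I) - ZU.DN N₀ ((σ : ℂ) + t * I)‖ ^ 2) := by
    have hc1 : Continuous (fun t : ℝ => riemannZeta ((σ : ℂ) + t * I)) := by
      rw [continuous_iff_continuousAt]
      intro t
      have h5 := (differentiableAt_riemannZeta (hne t)).continuousAt
      have h6 : ContinuousAt (fun t : ℝ => (σ : ℂ) + t * I) t := by fun_prop
      exact ContinuousAt.comp (g := riemannZeta) (f := fun t : ℝ => (σ : ℂ) + t * I) h5 h6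
    have hc2 : Continuous (fun t : ℝ => ZU.DN N₀ ((σ : ℂ) + t * I)) := by
      have : (fun t : ℝ => ZU.DN N₀ ((σ : ℂ) + t * I)) = fun t : ℝ => sec N₀ ((σ : ℂ) + t * I) := by
        ext t; rw [sec_eq_DN]
      rw [this]
      exact (sec_diff N₀).continuous.comp (by fun_prop)
    exact (hc1.sub hc2).norm.pow 2
  have hpt : ∀ t ∈ Set.Ioc T (2 * T), 4 - ∑ w ∈ Z, (Set.Icc (w.im - 2) (w.im + 2)).indicator (fun _ => (4 : ℝ)) t ≤
      ‖riemannZeta ((σ : ℂ) + t * I) - ZU.DN N₀ ((σ : ℂ) + t * I)‖ ^ 2 := by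
    intro t ht
    by_cases hex : ∃ w ∈ Z, t ∈ Set.Icc (w.im - 2) (w.im + 2)
    · obtain ⟨w, hw, hwt⟩ := hex
      have g1 : (4 : ℝ) ≤ ∑ w ∈ Z, (Set.Icc (w.im - 2) (w.im + 2)).indicator (fun _ => (4 : ℝ)) t := by
        have g2 := Finset.single_le_sum (s := Z)
          (f := fun w => (Set.Icc (w.im - 2) (w.im + 2)).indicator (fun _ => (4 : ℝ)) t)
          (fun i _ => Set.indicator_nonneg (fun _ _ => by norm_num) _) hw
        simp only [Set.indicator_of_mem hwt] at g2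
        exact g2
      have g3 : 0 ≤ ‖riemannZeta ((σ : ℂ) + t * I) - ZU.DN N₀ ((σ : ℂ) + t * I)‖ ^ 2 := by positivity
      linarith
    · push Not at hex
      have g0 : 0 ≤ ∑ w ∈ Z, (Set.Icc (w.im - 2) (w.im + 2)).indicator (fun _ => (4 : ℝ)) t :=
        Finset.sum_nonneg fun i _ => Set.indicator_nonneg (fun _ _ => by norm_num) _
      obtain ⟨s, hs⟩ : ∃ s : ℂ, s = (σ : ℂ) + t * I := ⟨_, rfl⟩
      have hre : s.re = 1 / 2 + 4 * d := by rw [hs, ← hσ]; simp
      have him : s.im = t := by rw [hs]; simp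
      have g1 := h2 T hTT₂ s hre (by rw [him]; exact ht.1.le) (by rw [him]; exact ht.2) (by
        intro z hz1 hz2 hz0
        rw [him] at hz2
        have hz3 := abs_le.1 hz2
        rw [← hN] at hz0
        refine hex z ?_ ⟨by linarith, by linarith⟩
        rw [hZ, Set.Finite.mem_toFinset]
        exact ⟨hz0, hz1, by linarith [ht.1], by linarith [ht.2]⟩)
      rw [← hs]
      have g2 : ‖ZU.DN N₀ s‖ ≤ N₀ := by
        rw [← sec_eq_DN]
        exact sec_crude N₀ (by rw [hre]; linarith)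
      have g3 := norm_sub_norm_le (riemannZeta s) (ZU.DN N₀ s)
      have g4 : 2 ≤ ‖riemannZeta s - ZU.DN N₀ s‖ := by linarith
      nlinarith
  have hind : ∀ w ∈ Z, Integrable ((Set.Icc (w.im - 2) (w.im + 2)).indicator (fun _ => (4 : ℝ)))
      (volume.restrict (Set.Ioc T (2 * T))) := by
    intro w _
    exact (integrable_const _).indicator measurableSet_Icc
  have hlow : 4 * T - 16 * Z.card ≤
      ∫ t in Set.Ioc T (2 * T), ‖riemannZeta ((σ : ℂ) + t * I) - ZU.DN N₀ ((σ : ℂ) + t * I)‖ ^ 2 := by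
    have g1 : ∫ t in Set.Ioc T (2 * T), (4 - ∑ w ∈ Z, (Set.Icc (w.im - 2) (w.im + 2)).indicator
        (fun _ => (4 : ℝ)) t) ≤
        ∫ t in Set.Ioc T (2 * T), ‖riemannZeta ((σ : ℂ) + t * I) - ZU.DN N₀ ((σ : ℂ) + t * I)‖ ^ 2 := by
      refine setIntegral_mono_on ?_ ?_ measurableSet_Ioc hpt
      · exact (integrable_const _).sub (integrable_finsetSum _ hind)
      · exact (hcont.integrableOn_Icc (a := T) (b := 2 * T)).mono_set Set.Ioc_subset_Icc_self
    refine le_trans ?_ g1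
    rw [integral_sub (integrable_const _) (integrable_finsetSum _ hind), integral_finsetSum _ hind,
      setIntegral_const, measureReal_def, Real.volume_Ioc, ENNReal.toReal_ofReal (by linarith)]
    have g2 : ∀ w ∈ Z, ∫ t in Set.Ioc T (2 * T), (Set.Icc (w.im - 2) (w.im + 2)).indicator (fun _ => (4 : ℝ)) t ≤
        16 := by
      intro w _
      have g3 : ∫ t in Set.Ioc T (2 * T), (Set.Icc (w.im - 2) (w.im + 2)).indicator (fun _ => (4 : ℝ)) t ≤
          ∫ t, (Set.Icc (w.im - 2) (w.im + 2)).indicator (fun _ => (4 : ℝ)) t := by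
        refine setIntegral_le_integral ?_ (Eventually.of_forall fun t =>
          Set.indicator_nonneg (fun _ _ => by norm_num) _)
        rw [integrable_indicator_iff measurableSet_Icc]
        exact integrableOn_const (by rw [Real.volume_Icc]; exact ENNReal.ofReal_ne_top)
      refine g3.trans_eq ?_
      rw [integral_indicator measurableSet_Icc, setIntegral_const, measureReal_def, Real.volume_Icc,
        ENNReal.toReal_ofReal (by linarith), smul_eq_mul]
      ring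
    have g4 : ∑ w ∈ Z, ∫ t in Set.Ioc T (2 * T), (Set.Icc (w.im - 2) (w.im + 2)).indicator (fun _ => (4 : ℝ)) t ≤
        16 * Z.card := by
      calc _ ≤ ∑ w ∈ Z, (16 : ℝ) := Finset.sum_le_sum g2
        _ = _ := by rw [Finset.sum_const, nsmul_eq_mul]; ring
    rw [smul_eq_mul]
    linarith
  have hup : ∫ t in Set.Ioc T (2 * T), ‖riemannZeta ((σ : ℂ) + t * I) - ZU.DN N₀ ((σ : ℂ) + t * I)‖ ^ 2 ≤
      1 / 4 * (2 * T) := by
    refine le_trans ?_ hms
    rw [← intervalIntegral.integral_of_le (by linarith)]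
    exact intervalIntegral.integral_mono_interval (by linarith) (by linarith) (by linarith)
      (Eventually.of_forall fun t => by positivity) (hcont.intervalIntegrable _ _)
  linarith

end Pool.Agent.TH804.SD
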