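import Pool.Agent.TH804.SS3
import Pool.Agent.TH75.AFE2

/-! Small sections imply a small value of zeta on the critical line. -/

set_option autoImplicit false

open Complex MeasureTheory Filter Topology

namespace Pool.Agent.TH804.SS

open Pool.Agent.H448R2.GC

theorem zeta_small {θ A ε x κ η₁ : ℝ} (hθ : 1 / 2 < θ) (hε : 0 < ε) (hx : 0 < x)
    (hκ : 0 ≤ κ) (hsum : x + κ ≤ ε / 2) (hη₁ : 0 < η₁) :
    ∃ T₀ : ℝ, ∀ T : ℝ, T₀ ≤ T → ∀ N : ℕ, T ^ θ < N + 1 → (N : ℝ) ≤ T ^ A →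
      (∀ v : ℝ, |v - T| ≤ T ^ η₁ → ‖sec N (((1 / 2 + x : ℝ) : ℂ) + (v : ℂ) * I)‖ ≤ T ^ κ) →
        ‖riemannZeta (1 / 2 + (T : ℂ) * I)‖ ≤ T ^ ε := by
  obtain ⟨η, hη⟩ : ∃ η : ℝ, η = min (1 / 100) (θ - 1 / 2) := ⟨_, rfl⟩
  have hη0 : 0 < η := by rw [hη]; exact lt_min (by norm_num) (by linarith)
  have hη1 : η ≤ 1 / 100 := by rw [hη]; exact min_le_left _ _
  have hη2 : η ≤ θ - 1 / 2 := by rw [hη]; exact min_le_right _ _
  obtain ⟨k₀, hk₀⟩ := Pool.Agent.TH75.AFE1.main η hη0 hη1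
  obtain ⟨j, hj⟩ : ∃ j : ℕ, j = max k₀ ⌈A / η₁⌉₊ := ⟨_, rfl⟩
  have hj1 : k₀ ≤ j := by rw [hj]; exact le_max_left _ _
  have hj2 : A ≤ η₁ * j := by
    have h1 : A / η₁ ≤ (j : ℝ) := (Nat.le_ceil _).trans (by rw [hj]; exact_mod_cast le_max_right _ _)
    rw [div_le_iff₀ hη₁] at h1
    linarith
  obtain ⟨k, hk⟩ : ∃ k : ℕ, k = j + 2 := ⟨_, rfl⟩
  obtain ⟨T₁, hT₁⟩ := hk₀ k (by omega)
  have hkpos : (0 : ℝ) < k := by rw [hk]; positivity
  obtain ⟨Q, hQ⟩ : ∃ Q : ℝ, Q = 4 * (3 ^ k / x) + 1 := ⟨_, rfl⟩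
  have hQ0 : 0 < Q := by rw [hQ]; positivity
  refine ⟨max (max T₁ (Real.exp (k / η))) (max 10 (Q ^ (2 / ε))), fun T hT N hN1 hN2 hsec => ?_⟩
  have hTT1 : T₁ ≤ T := ((le_max_left _ _).trans (le_max_left _ _)).trans hT
  have hTk : Real.exp (k / η) ≤ T := ((le_max_right _ _).trans (le_max_left _ _)).trans hT
  have hT10 : 10 ≤ T := ((le_max_left _ _).trans (le_max_right _ _)).trans hT
  have hTQ : Q ^ (2 / ε) ≤ T := ((le_max_right _ _).trans (le_max_right _ _)).trans hT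
  have hT0 : 0 < T := by linarith
  obtain ⟨L, hL⟩ : ∃ L : ℝ, L = Real.log T := ⟨_, rfl⟩
  have hLk : k / η ≤ L := by
    rw [hL, Real.le_log_iff_exp_le hT0]
    exact hTk
  have hL0 : 0 < L := lt_of_lt_of_le (by positivity) hLk
  have hexpL : Real.exp L = T := by rw [hL, Real.exp_log hT0]
  have hpow : ∀ a : ℝ, T ^ a = Real.exp (a * L) := by
    intro a
    rw [Real.rpow_def_of_pos hT0, mul_comm, hL]
  obtain ⟨s, hs⟩ : ∃ s : ℂ, s = ((1 / 2 : ℝ) : ℂ) + (T : ℂ) * I := ⟨_, rfl⟩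
  have hmain := hT₁ T hTT1 T (by linarith) (1 / 2 * Real.log T) (by rw [← hL]; linarith) le_rfl s hs
  rw [← hL] at hmain
  obtain ⟨c, hcdef⟩ : ∃ c : ℝ, c = η * L / k := ⟨_, rfl⟩
  have hc1 : 1 ≤ c := by
    rw [hcdef, le_div_iff₀ hkpos]
    rw [div_le_iff₀ hη0] at hLk
    linarith
  have hkc : (k : ℝ) * c = η * L := by
    rw [hcdef]
    field_simp
  rw [← hcdef] at hmain
  obtain ⟨D₂, hD₂⟩ : ∃ D₂ : ℝ, D₂ = Real.log (T / (2 * Real.pi)) - 1 / 2 * L - η * L := ⟨_, rfl⟩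
  rw [← hD₂] at hmain
  have hD₂le : D₂ + k * c ≤ 1 / 2 * L := by
    rw [hkc, hD₂, Real.log_div hT0.ne' (by positivity), ← hL]
    have : 0 ≤ Real.log (2 * Real.pi) := Real.log_nonneg (by linarith [Real.pi_gt_three])
    linarith
  have hD₁le : 1 / 2 * L + k * c ≤ θ * L := by
    rw [hkc]
    nlinarith
  have hexp1 : ∀ D : ℝ, D + k * c ≤ θ * L → Real.exp (D + k * c) < N + 1 := by
    intro D hD
    refine lt_of_le_of_lt ?_ hN1
    rw [hpow]
    exact Real.exp_le_exp.2 hD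
  have hY : (N : ℝ) * ((1 + T ^ η₁) ^ j)⁻¹ ≤ 1 := by
    rw [← div_eq_mul_inv, div_le_one (by positivity)]
    refine hN2.trans ?_
    calc T ^ A ≤ T ^ (η₁ * j) := Real.rpow_le_rpow_of_exponent_le (by linarith) hj2
      _ = (T ^ η₁) ^ j := by rw [Real.rpow_mul hT0.le, Real.rpow_natCast]
      _ ≤ (1 + T ^ η₁) ^ j := by
          apply pow_le_pow_left₀ (by positivity)
          linarith
  have hTκ : 1 ≤ T ^ κ := Real.one_le_rpow (by linarith) hκ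
  -- the bound for the smoothed sums
  have hcsb : ∀ (D : ℝ) (w : ℂ), D + k * c ≤ θ * L → D + k * c ≤ L → w.re = 1 / 2 →
      (∀ y : ℝ, |y| ≤ T ^ η₁ → ‖sec N (w + ((x : ℂ) + (y : ℂ) * I))‖ ≤ T ^ κ) →
      ‖cs k c D w‖ ≤ 2 * (3 ^ k / x) * T ^ (ε / 2) := by
    intro D w hD1 hD2 hw hb
    have h1 := cs_bound j c D x (T ^ κ) (T ^ η₁) hc1 hx (by positivity) (by positivity) N
      (by rw [← hk]; exact hexp1 D hD1) w (by rw [hw]; norm_num) hb
    rw [← hk] at h1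
    refine h1.trans ?_
    have h2 : Real.exp ((D + k * c) * x) ≤ T ^ x := by
      rw [hpow]
      apply Real.exp_le_exp.2
      nlinarith
    calc Real.exp ((D + k * c) * x) * (3 ^ k / x) * (T ^ κ + N * ((1 + T ^ η₁) ^ j)⁻¹)
        ≤ T ^ x * (3 ^ k / x) * (T ^ κ + T ^ κ) := by
          gcongr
          exact hY.trans hTκ
      _ = 2 * (3 ^ k / x) * (T ^ x * T ^ κ) := by ring
      _ = 2 * (3 ^ k / x) * T ^ (x + κ) := by rw [Real.rpow_add hT0]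
      _ ≤ 2 * (3 ^ k / x) * T ^ (ε / 2) := by
          gcongr
          linarith
  have hsre : s.re = 1 / 2 := by rw [hs]; simp
  have b1 := hcsb (1 / 2 * L) s hD₁le (by rw [hkc]; nlinarith) hsre (by
    intro y hy
    have h1 : s + ((x : ℂ) + (y : ℂ) * I) = ((1 / 2 + x : ℝ) : ℂ) + ((T + y : ℝ) : ℂ) * I := by
      rw [hs]; push_cast; ring
    rw [h1]
    exact hsec (T + y) (by rw [add_sub_cancel_left]; exact hy))
  have b2 := hcsb D₂ (1 - s) (by nlinarith) (by linarith) (by rw [Complex.sub_re, hsre]; norm_num) (by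
    intro y hy
    have h1 : 1 - s + ((x : ℂ) + (y : ℂ) * I) =
        (starRingEnd ℂ) (((1 / 2 + x : ℝ) : ℂ) + ((T - y : ℝ) : ℂ) * I) := by
      rw [hs, map_add, map_mul, Complex.conj_ofReal, Complex.conj_ofReal, Complex.conj_I]
      push_cast
      ring
    rw [h1, sec_conj, RCLike.norm_conj]
    exact hsec (T - y) (by
      have : T - y - T = -y := by ring
      rw [this, abs_neg]
      exact hy))
  have b3 : ‖XX (1 - s)‖ = 1 := by
    have h1 : 1 - s = 1 / 2 + ((-T : ℝ) : ℂ) * I := by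
      rw [hs]; push_cast; ring
    rw [h1]
    exact H345.norm_XX_half (-T)
  have hz : (1 / 2 + (T : ℂ) * I) = s := by rw [hs]; push_cast; ring
  rw [hz]
  have hT5 : T ^ (-(1 / 5) : ℝ) ≤ T ^ (ε / 2) := Real.rpow_le_rpow_of_exponent_le (by linarith) (by linarith)
  have h4 : ‖riemannZeta s‖ ≤ T ^ (-(1 / 5) : ℝ) + ‖cs k c (1 / 2 * L) s‖ + ‖XX (1 - s)‖ * ‖cs k c D₂ (1 - s)‖ := by
    have h5 : riemannZeta s = (riemannZeta s - cs k c (1 / 2 * L) s - XX (1 - s) * cs k c D₂ (1 - s)) +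
        cs k c (1 / 2 * L) s + XX (1 - s) * cs k c D₂ (1 - s) := by ring
    calc ‖riemannZeta s‖ = ‖(riemannZeta s - cs k c (1 / 2 * L) s - XX (1 - s) * cs k c D₂ (1 - s)) +
        cs k c (1 / 2 * L) s + XX (1 - s) * cs k c D₂ (1 - s)‖ := by rw [← h5]
      _ ≤ _ := by
        refine (norm_add₃_le).trans ?_
        rw [norm_mul]
        gcongr
  rw [b3, one_mul] at h4
  have h6 : ‖riemannZeta s‖ ≤ Q * T ^ (ε / 2) := by
    rw [hQ]
    linarith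
  have h7 : Q ≤ T ^ (ε / 2) := by
    calc Q = (Q ^ (2 / ε)) ^ (ε / 2) := by
          rw [← Real.rpow_mul hQ0.le]
          have : 2 / ε * (ε / 2) = 1 := by field_simp
          rw [this, Real.rpow_one]
      _ ≤ T ^ (ε / 2) := Real.rpow_le_rpow (by positivity) hTQ (by positivity)
  calc ‖riemannZeta s‖ ≤ T ^ (ε / 2) * T ^ (ε / 2) := h6.trans (by gcongr)
    _ = T ^ ε := by rw [← Real.rpow_add hT0]; congr 1; ring

end Pool.Agent.TH804.SS
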