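import Pool.Agent.TH804.SD1
import Pool.Agent.TH804.SS4

/-! Fourth moment of zeta: the averaging lemmas. -/

set_option autoImplicit false

open Complex MeasureTheory Filter Topology Finset

namespace Pool.Agent.TH804.SD

open Pool.Agent.TH804.SS
open Pool.Agent.H448R2.GC (cs ker XX)

/-- Hölder's inequality with exponent four -/
lemma holder4 {f w : ℝ → ℝ} (hf0 : ∀ y, 0 ≤ f y) (hw0 : ∀ y, 0 ≤ w y) (hw : Integrable w)
    (hJ : 0 < ∫ y, w y) (h4 : Integrable (fun y => f y ^ 4 * w y)) (hm : AEStronglyMeasurable f volume) :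
    (∫ y, f y * w y) ^ 4 ≤ (∫ y, w y) ^ 3 * ∫ y, f y ^ 4 * w y := by
  obtain ⟨J, hJd⟩ : ∃ J : ℝ, J = ∫ y, w y := ⟨_, rfl⟩
  obtain ⟨M, hMd⟩ : ∃ M : ℝ, M = ∫ y, f y ^ 4 * w y := ⟨_, rfl⟩
  obtain ⟨A, hA⟩ : ∃ A : ℝ, A = ∫ y, f y * w y := ⟨_, rfl⟩
  rw [← hJd, ← hMd, ← hA]
  rw [← hJd] at hJ
  have hM0 : 0 ≤ M := by rw [hMd]; exact integral_nonneg fun y => mul_nonneg (pow_nonneg (hf0 y) 4) (hw0 y)
  have hA0 : 0 ≤ A := by rw [hA]; exact integral_nonneg fun y => mul_nonneg (hf0 y) (hw0 y)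
  have key : ∀ l : ℝ, 0 < l → A ≤ 3 / 4 * l * J + M / (4 * l ^ 3) := by
    intro l hl
    have hpt : ∀ y, f y * w y ≤ 3 / 4 * l * w y + 1 / (4 * l ^ 3) * (f y ^ 4 * w y) := by
      intro y
      have h1 : f y ≤ 3 / 4 * l + 1 / (4 * l ^ 3) * f y ^ 4 := by
        have h2 : 0 ≤ (f y - l) ^ 2 * (f y ^ 2 + 2 * l * f y + 3 * l ^ 2) := by
          have := hf0 y
          positivity
        have h3 : f y * (4 * l ^ 3) ≤ (3 / 4 * l + 1 / (4 * l ^ 3) * f y ^ 4) * (4 * l ^ 3) := by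
          have : (3 / 4 * l + 1 / (4 * l ^ 3) * f y ^ 4) * (4 * l ^ 3) = 3 * l ^ 4 + f y ^ 4 := by
            field_simp
          rw [this]
          nlinarith
        exact le_of_mul_le_mul_right h3 (by positivity)
      calc f y * w y ≤ (3 / 4 * l + 1 / (4 * l ^ 3) * f y ^ 4) * w y := mul_le_mul_of_nonneg_right h1 (hw0 y)
        _ = _ := by ring
    have hint : Integrable (fun y => 3 / 4 * l * w y + 1 / (4 * l ^ 3) * (f y ^ 4 * w y)) :=
      (hw.const_mul _).add (h4.const_mul _)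
    calc A = ∫ y, f y * w y := hA
      _ ≤ ∫ y, (3 / 4 * l * w y + 1 / (4 * l ^ 3) * (f y ^ 4 * w y)) := by
          refine integral_mono_of_nonneg (Eventually.of_forall fun y => mul_nonneg (hf0 y) (hw0 y)) hint
            (Eventually.of_forall hpt)
      _ = 3 / 4 * l * J + M / (4 * l ^ 3) := by
          rw [integral_add (hw.const_mul _) (h4.const_mul _), integral_const_mul, integral_const_mul, hJd, hMd]
          ring
  rcases eq_or_lt_of_le hA0 with h0 | h0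
  · rw [← h0]
    have : (0 : ℝ) ^ 4 = 0 := by norm_num
    rw [this]
    exact mul_nonneg (pow_nonneg hJ.le 3) hM0
  · have h1 := key (A / J) (by positivity)
    have h2 : 3 / 4 * (A / J) * J = 3 / 4 * A := by field_simp
    rw [h2] at h1
    have h3 : M / (4 * (A / J) ^ 3) = M * J ^ 3 / (4 * A ^ 3) := by field_simp
    rw [h3] at h1
    have h4 : A / 4 ≤ M * J ^ 3 / (4 * A ^ 3) := by linarith
    rw [le_div_iff₀ (by positivity)] at h4
    nlinarith

/-- the weight -/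
lemma w_int {r : ℝ} (hr : 1 < r) : Integrable (fun y : ℝ => (1 + |y|) ^ (-r)) := by
  have h1 := integrable_one_add_norm (E := ℝ) (μ := volume) (r := r) (by simp; linarith)
  simpa using h1

lemma w_pos {r : ℝ} (hr : 1 < r) : 0 < ∫ y : ℝ, (1 + |y|) ^ (-r) := by
  rw [integral_pos_iff_support_of_nonneg (fun y => by positivity) (w_int hr)]
  have : Function.support (fun y : ℝ => (1 + |y|) ^ (-r)) = Set.univ := by
    ext y
    simp only [Function.mem_support, Set.mem_univ, iff_true]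
    have : 0 < (1 + |y|) ^ (-r) := Real.rpow_pos_of_pos (by positivity) _
    exact this.ne'
  rw [this]
  simp

/-- the average of a section -/
noncomputable def KN (x : ℝ) (N : ℕ) (t : ℝ) : ℝ :=
  ∫ y : ℝ, ‖sec N (((1 / 2 + x : ℝ) : ℂ) + ((t + y : ℝ) : ℂ) * I)‖ * (1 + |y|) ^ (-(4 : ℝ))

lemma sec_line_cont (x : ℝ) (N : ℕ) (t : ℝ) :
    Continuous (fun y : ℝ => sec N (((1 / 2 + x : ℝ) : ℂ) + ((t + y : ℝ) : ℂ) * I)) :=
  (sec_diff N).continuous.comp (by fun_prop)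

lemma sec_line_le {x : ℝ} (hx : 0 < x) (N : ℕ) (u : ℝ) : ‖sec N (((1 / 2 + x : ℝ) : ℂ) + (u : ℂ) * I)‖ ≤ N := by
  apply sec_crude
  have : (((1 / 2 + x : ℝ) : ℂ) + (u : ℂ) * I).re = 1 / 2 + x := by simp
  rw [this]
  linarith

lemma KN_neg (x : ℝ) (N : ℕ) (t : ℝ) : KN x N (-t) = KN x N t := by
  unfold KN
  rw [← integral_neg_eq_self]
  congr 1
  ext y
  rw [abs_neg]
  congr 1
  have h1 : (((1 / 2 + x : ℝ) : ℂ) + ((-t + -y : ℝ) : ℂ) * I) =
      (starRingEnd ℂ) (((1 / 2 + x : ℝ) : ℂ) + ((t + y : ℝ) : ℂ) * I) := by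
    rw [map_add, map_mul, Complex.conj_ofReal, Complex.conj_ofReal, Complex.conj_I]
    push_cast
    ring
  rw [h1, sec_conj, RCLike.norm_conj]

/-- the smoothed sums are bounded by averages of the section -/
theorem cs_int {k : ℕ} (hk : 4 ≤ k) {c D x : ℝ} (hc : 1 ≤ c) (hx : 0 < x) {N : ℕ}
    (hN : Real.exp (D + k * c) < N + 1) (t : ℝ) :
    ‖cs k c D (((1 / 2 : ℝ) : ℂ) + (t : ℂ) * I)‖ ≤ Real.exp ((D + k * c) * x) * (3 ^ k / x) * KN x N t := by
  have hc0 : 0 < c := by linarith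
  obtain ⟨s, hs⟩ : ∃ s : ℂ, s = ((1 / 2 : ℝ) : ℂ) + (t : ℂ) * I := ⟨_, rfl⟩
  rw [← hs, cs_sec k (by omega) c D x hc0 hx N hN s]
  set E := Real.exp ((D + k * c) * x) with hE
  have hE0 : 0 < E := Real.exp_pos _
  have hse : ∀ y : ℝ, s + ((x : ℂ) + (y : ℂ) * I) = ((1 / 2 + x : ℝ) : ℂ) + ((t + y : ℝ) : ℂ) * I := by
    intro y
    rw [hs]
    push_cast
    ring
  have hpt : ∀ y : ℝ, ‖sec N (s + ((x : ℂ) + (y : ℂ) * I)) * ker k c D x y‖ ≤
      (E * (3 ^ k / x)) * (‖sec N (((1 / 2 + x : ℝ) : ℂ) + ((t + y : ℝ) : ℂ) * I)‖ * (1 + |y|) ^ (-(4 : ℝ))) := by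
    intro y
    rw [norm_mul, hse y]
    set r := ‖(x : ℂ) + (y : ℂ) * I‖ with hr
    have hrx : x ≤ r := by
      have := Complex.abs_re_le_norm ((x : ℂ) + (y : ℂ) * I)
      simp only [Complex.add_re, Complex.ofReal_re, Complex.mul_re, Complex.I_re, mul_zero,
        Complex.ofReal_im, Complex.I_im, mul_one, sub_self, add_zero] at this
      rwa [abs_of_pos hx] at this
    have hry : |y| ≤ r := by
      have := Complex.abs_im_le_norm ((x : ℂ) + (y : ℂ) * I)
      simpa using this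
    have hr0 : 0 < r := by linarith
    have hy0 : 0 ≤ |y| := abs_nonneg y
    have hkb : ‖ker k c D x y‖ ≤ E * (3 ^ k * (1 + |y|) ^ (-(4 : ℝ))) * (1 / x) := by
      refine (Pool.Agent.H448R2.GC.ker_bound k c D x y hc0).trans ?_
      rw [max_eq_left hx.le, ← hr]
      have e1 : Real.exp (D * x + k * c * x) = E := by rw [hE]; congr 1; ring
      rw [e1]
      have e2 : (3 / (1 + c * r)) ^ k ≤ 3 ^ k * (1 + |y|) ^ (-(4 : ℝ)) := by
        have h1 : (3 / (1 + c * r)) ^ k ≤ (3 / (1 + |y|)) ^ k := by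
          apply pow_le_pow_left₀ (by positivity)
          apply div_le_div_of_nonneg_left (by norm_num) (by positivity)
          nlinarith
        refine h1.trans ?_
        rw [div_pow, div_eq_mul_inv]
        apply mul_le_mul_of_nonneg_left _ (by positivity)
        rw [Real.rpow_neg (by positivity), show (4 : ℝ) = ((4 : ℕ) : ℝ) by norm_num, Real.rpow_natCast]
        apply inv_anti₀ (by positivity)
        exact pow_le_pow_right₀ (by linarith) hk
      rw [div_eq_mul_one_div]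
      apply mul_le_mul _ _ (by positivity) (by positivity)
      · exact mul_le_mul_of_nonneg_left e2 hE0.le
      · exact one_div_le_one_div_of_le hx hrx
    calc ‖sec N (((1 / 2 + x : ℝ) : ℂ) + ((t + y : ℝ) : ℂ) * I)‖ * ‖ker k c D x y‖
        ≤ ‖sec N (((1 / 2 + x : ℝ) : ℂ) + ((t + y : ℝ) : ℂ) * I)‖ *
          (E * (3 ^ k * (1 + |y|) ^ (-(4 : ℝ))) * (1 / x)) := by gcongr
      _ = _ := by ring
  have hint0 : Integrable (fun y : ℝ => ‖sec N (((1 / 2 + x : ℝ) : ℂ) + ((t + y : ℝ) : ℂ) * I)‖ *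
      (1 + |y|) ^ (-(4 : ℝ))) := by
    refine (w_int (r := 4) (by norm_num)).bdd_mul (c := N) (sec_line_cont x N t).norm.aestronglyMeasurable
      (Eventually.of_forall fun y => ?_)
    rw [norm_norm]
    exact sec_line_le hx N (t + y)
  rw [norm_mul]
  have h2 : ‖(1 / (2 * (Real.pi : ℂ)))‖ ≤ 1 := by
    rw [norm_div, norm_one, norm_mul, Complex.norm_real, Real.norm_of_nonneg Real.pi_pos.le]
    rw [Complex.norm_ofNat, div_le_one (by positivity)]
    linarith [Real.pi_gt_three]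
  have h3 : ‖∫ y : ℝ, sec N (s + ((x : ℂ) + (y : ℂ) * I)) * ker k c D x y‖ ≤ (E * (3 ^ k / x)) * KN x N t := by
    refine (norm_integral_le_of_norm_le (hint0.const_mul _) (Eventually.of_forall hpt)).trans_eq ?_
    rw [integral_const_mul]
    rfl
  calc ‖(1 / (2 * (Real.pi : ℂ)))‖ * ‖∫ y : ℝ, sec N (s + ((x : ℂ) + (y : ℂ) * I)) * ker k c D x y‖
      ≤ 1 * ((E * (3 ^ k / x)) * KN x N t) := by gcongr
    _ = _ := by ring

end Pool.Agent.TH804.SD
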