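import Pool.Agent.TH804.SD2

/-! Fourth moment of zeta on `[T, 2T]`. -/

set_option autoImplicit false

open Complex MeasureTheory Filter Topology Finset

namespace Pool.Agent.TH804.SD

open Pool.Agent.TH804.SS
open Pool.Agent.H448R2.GC (cs ker XX)

/-- fourth power average of the section -/
noncomputable def HN (x : ℝ) (N : ℕ) (t : ℝ) : ℝ :=
  ∫ y : ℝ, ‖sec N (((1 / 2 + x : ℝ) : ℂ) + ((t + y : ℝ) : ℂ) * I)‖ ^ 4 * (1 + |y|) ^ (-(4 : ℝ))

lemma KN_le {x : ℝ} (hx : 0 < x) (N : ℕ) (t : ℝ) :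
    KN x N t ^ 4 ≤ (∫ y : ℝ, (1 + |y|) ^ (-(4 : ℝ))) ^ 3 * HN x N t := by
  unfold KN HN
  refine holder4 (fun y => norm_nonneg _) (fun y => by positivity) (w_int (by norm_num)) (w_pos (by norm_num)) ?_
    (sec_line_cont x N t).norm.aestronglyMeasurable
  refine (w_int (r := 4) (by norm_num)).bdd_mul (c := (N : ℝ) ^ 4)
    ((sec_line_cont x N t).norm.pow 4).aestronglyMeasurable (Eventually.of_forall fun y => ?_)
  rw [Real.norm_of_nonneg (by positivity)]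
  exact pow_le_pow_left₀ (norm_nonneg _) (sec_line_le hx N (t + y)) 4

lemma prod_int {x : ℝ} (hx : 0 < x) (N : ℕ) (a b : ℝ) :
    Integrable (Function.uncurry fun t y : ℝ => ‖sec N (((1 / 2 + x : ℝ) : ℂ) + ((t + y : ℝ) : ℂ) * I)‖ ^ 4 *
      (1 + |y|) ^ (-(4 : ℝ))) ((volume.restrict (Set.Ioc a b)).prod volume) := by
  have h1 : Integrable (fun p : ℝ × ℝ => (N : ℝ) ^ 4 * (1 + |p.2|) ^ (-(4 : ℝ)))
      ((volume.restrict (Set.Ioc a b)).prod volume) :=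
    Integrable.mul_prod (f := fun _ : ℝ => (N : ℝ) ^ 4) (integrable_const _) (w_int (r := 4) (by norm_num))
  refine h1.mono' ?_ (Eventually.of_forall fun p => ?_)
  · have hc1 : Continuous (fun p : ℝ × ℝ => sec N (((1 / 2 + x : ℝ) : ℂ) + ((p.1 + p.2 : ℝ) : ℂ) * I)) :=
      (sec_diff N).continuous.comp (by fun_prop)
    have hc2 : Continuous (fun p : ℝ × ℝ => (1 + |p.2|) ^ (-(4 : ℝ))) := by
      refine Continuous.rpow_const (by fun_prop) fun p => Or.inl ?_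
      positivity
    exact ((hc1.norm.pow 4).mul hc2).aestronglyMeasurable
  · simp only [Function.uncurry]
    rw [Real.norm_of_nonneg (by positivity)]
    exact mul_le_mul_of_nonneg_right (pow_le_pow_left₀ (norm_nonneg _) (sec_line_le hx N _) 4) (by positivity)

lemma HN_int {x : ℝ} (hx : 0 < x) (N : ℕ) (a b : ℝ) : IntegrableOn (HN x N) (Set.Ioc a b) :=
  (prod_int hx N a b).integral_prod_left

/-- the mean of the average -/
theorem HN_mean {x : ℝ} (hx : 0 < x) : ∃ C : ℝ, 0 < C ∧ ∀ T : ℝ, 1 ≤ T → ∀ N : ℕ, (N : ℝ) ≤ T →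
    ∫ t in Set.Ioc T (2 * T), HN x N t ≤ C * (2 * T + (N : ℝ) ^ 2) := by
  obtain ⟨C₁, hC₁, h₁⟩ := sec4 hx
  refine ⟨C₁ * (∫ y : ℝ, (1 + |y|) ^ (-(3 : ℝ))), mul_pos hC₁ (w_pos (by norm_num)), fun T hT N hN => ?_⟩
  unfold HN
  rw [integral_integral_swap (prod_int hx N T (2 * T))]
  have hin : ∀ y : ℝ, ∫ t in Set.Ioc T (2 * T), ‖sec N (((1 / 2 + x : ℝ) : ℂ) + ((t + y : ℝ) : ℂ) * I)‖ ^ 4 *
      (1 + |y|) ^ (-(4 : ℝ)) ≤ (C₁ * (2 * T + (N : ℝ) ^ 2)) * (1 + |y|) ^ (-(3 : ℝ)) := by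
    intro y
    have hy0 := abs_nonneg y
    have hcont : Continuous (fun t : ℝ => ‖sec N (((1 / 2 + x : ℝ) : ℂ) + (t : ℂ) * I)‖ ^ 4) := by
      have : Continuous (fun t : ℝ => sec N (((1 / 2 + x : ℝ) : ℂ) + (t : ℂ) * I)) :=
        (sec_diff N).continuous.comp (by fun_prop)
      exact this.norm.pow 4
    rw [integral_mul_const, ← intervalIntegral.integral_of_le (by linarith)]
    have e1 : ∫ t in T..(2 * T), ‖sec N (((1 / 2 + x : ℝ) : ℂ) + ((t + y : ℝ) : ℂ) * I)‖ ^ 4 =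
        ∫ t in (T + y)..(2 * T + y), ‖sec N (((1 / 2 + x : ℝ) : ℂ) + (t : ℂ) * I)‖ ^ 4 :=
      intervalIntegral.integral_comp_add_right
        (fun t : ℝ => ‖sec N (((1 / 2 + x : ℝ) : ℂ) + (t : ℂ) * I)‖ ^ 4) y
    have e2 : ∫ t in (T + y)..(2 * T + y), ‖sec N (((1 / 2 + x : ℝ) : ℂ) + (t : ℂ) * I)‖ ^ 4 ≤
        ∫ t in (-(2 * T + |y|))..(2 * T + |y|), ‖sec N (((1 / 2 + x : ℝ) : ℂ) + (t : ℂ) * I)‖ ^ 4 := by
      refine intervalIntegral.integral_mono_interval ?_ (by linarith) ?_ ?_ ?_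
      · linarith [neg_abs_le y]
      · linarith [le_abs_self y]
      · exact Eventually.of_forall fun t => by positivity
      · exact hcont.intervalIntegrable _ _
    have e3 := h₁ (2 * T + |y|) (by linarith) N (by linarith)
    have e4 : (1 + |y|) ^ (-(3 : ℝ)) = (1 + |y|) * (1 + |y|) ^ (-(4 : ℝ)) := by
      rw [← Real.rpow_one_add' (by positivity) (by norm_num)]
      congr 1
      norm_num
    rw [e1, e4]
    have e5 : (0 : ℝ) ≤ (1 + |y|) ^ (-(4 : ℝ)) := by positivity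
    have e6 : C₁ * (2 * T + |y| + (N : ℝ) ^ 2) ≤ C₁ * (2 * T + (N : ℝ) ^ 2) * (1 + |y|) := by
      rw [mul_assoc]
      apply mul_le_mul_of_nonneg_left _ hC₁.le
      have : 0 ≤ (N : ℝ) ^ 2 := by positivity
      nlinarith
    calc (∫ t in (T + y)..(2 * T + y), ‖sec N (((1 / 2 + x : ℝ) : ℂ) + (t : ℂ) * I)‖ ^ 4) *
          (1 + |y|) ^ (-(4 : ℝ)) ≤ (C₁ * (2 * T + (N : ℝ) ^ 2) * (1 + |y|)) * (1 + |y|) ^ (-(4 : ℝ)) :=
          mul_le_mul_of_nonneg_right (e2.trans (e3.trans e6)) e5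
      _ = _ := by ring
  calc ∫ y : ℝ, ∫ t in Set.Ioc T (2 * T), ‖sec N (((1 / 2 + x : ℝ) : ℂ) + ((t + y : ℝ) : ℂ) * I)‖ ^ 4 *
      (1 + |y|) ^ (-(4 : ℝ)) ≤ ∫ y : ℝ, (C₁ * (2 * T + (N : ℝ) ^ 2)) * (1 + |y|) ^ (-(3 : ℝ)) := by
        refine integral_mono_of_nonneg (Eventually.of_forall fun y => ?_)
          ((w_int (r := 3) (by norm_num)).const_mul _) (Eventually.of_forall hin)
        exact integral_nonneg fun t => by positivity
    _ = _ := by rw [integral_const_mul]; ring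

/-- **fourth moment of zeta** (weak form) -/
theorem fourth {κ : ℝ} (hκ : 0 < κ) : ∃ C T₀ : ℝ, 0 < C ∧ ∀ T : ℝ, T₀ ≤ T →
    ∫ t in Set.Ioc T (2 * T), ‖riemannZeta (1 / 2 + (t : ℂ) * I)‖ ^ 4 ≤ C * T ^ (1 + κ) := by
  obtain ⟨x, hx⟩ : ∃ x : ℝ, x = κ / 8 := ⟨_, rfl⟩
  have hx0 : 0 < x := by rw [hx]; positivity
  obtain ⟨η, hη⟩ : ∃ η : ℝ, η = min (1 / 100) (κ / 4) := ⟨_, rfl⟩
  have hη0 : 0 < η := by rw [hη]; exact lt_min (by norm_num) (by linarith)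
  have hη1 : η ≤ 1 / 100 := by rw [hη]; exact min_le_left _ _
  have hη2 : η ≤ κ / 4 := by rw [hη]; exact min_le_right _ _
  obtain ⟨k₀, hk₀⟩ := Pool.Agent.TH75.AFE1.main η hη0 hη1
  obtain ⟨k, hk⟩ : ∃ k : ℕ, k = max k₀ 4 := ⟨_, rfl⟩
  have hk4 : 4 ≤ k := by rw [hk]; exact le_max_right _ _
  obtain ⟨T₁, hT₁⟩ := hk₀ k (by rw [hk]; exact le_max_left _ _)
  have hkpos : (0 : ℝ) < k := by exact_mod_cast (by omega : 0 < k)
  obtain ⟨C₂, hC₂, h₂⟩ := HN_mean hx0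
  obtain ⟨J, hJ⟩ : ∃ J : ℝ, J = ∫ y : ℝ, (1 + |y|) ^ (-(4 : ℝ)) := ⟨_, rfl⟩
  have hJ0 : 0 < J := by rw [hJ]; exact w_pos (by norm_num)
  obtain ⟨B, hB⟩ : ∃ B : ℝ, B = 2 * (3 ^ k / x) := ⟨_, rfl⟩
  have hB0 : 0 < B := by rw [hB]; positivity
  refine ⟨8 + 8 * B ^ 4 * J ^ 3 * C₂ * 3, max (max T₁ (Real.exp (k / η))) 10, by positivity, fun T hT => ?_⟩
  have hTT1 : T₁ ≤ T := ((le_max_left _ _).trans (le_max_left _ _)).trans hT
  have hTk : Real.exp (k / η) ≤ T := ((le_max_right _ _).trans (le_max_left _ _)).trans hT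
  have hT10 : 10 ≤ T := (le_max_right _ _).trans hT
  have hT0 : 0 < T := by linarith
  obtain ⟨L, hL⟩ : ∃ L : ℝ, L = Real.log T := ⟨_, rfl⟩
  have hLk : k / η ≤ L := by
    rw [hL, Real.le_log_iff_exp_le hT0]
    exact hTk
  have hL0 : 0 < L := lt_of_lt_of_le (by positivity) hLk
  have hpow : ∀ a : ℝ, T ^ a = Real.exp (a * L) := by
    intro a
    rw [Real.rpow_def_of_pos hT0, mul_comm, hL]
  obtain ⟨N, hN⟩ : ∃ N : ℕ, N = ⌊T ^ (1 / 2 + η)⌋₊ := ⟨_, rfl⟩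
  have hN1 : (N : ℝ) ≤ T ^ (1 / 2 + η) := by rw [hN]; exact Nat.floor_le (by positivity)
  have hN2 : T ^ (1 / 2 + η) < N + 1 := by rw [hN]; exact Nat.lt_floor_add_one _
  have hNT : (N : ℝ) ≤ T := by
    refine hN1.trans ?_
    calc T ^ (1 / 2 + η) ≤ T ^ (1 : ℝ) := Real.rpow_le_rpow_of_exponent_le (by linarith) (by linarith)
      _ = T := Real.rpow_one T
  obtain ⟨c, hcdef⟩ : ∃ c : ℝ, c = η * L / k := ⟨_, rfl⟩
  have hc1 : 1 ≤ c := by
    rw [hcdef, le_div_iff₀ hkpos]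
    rw [div_le_iff₀ hη0] at hLk
    linarith
  have hkc : (k : ℝ) * c = η * L := by
    rw [hcdef]
    field_simp
  have hpi : (1 : ℝ) < 2 * Real.pi := by linarith [Real.pi_gt_three]
  have hcsb : ∀ (D u : ℝ), D + k * c ≤ (1 / 2 + η) * L →
      ‖cs k c D (((1 / 2 : ℝ) : ℂ) + (u : ℂ) * I)‖ ≤ T ^ x * (3 ^ k / x) * KN x N u := by
    intro D u hD
    have h1 := cs_int hk4 hc1 hx0 (N := N) (D := D) (lt_of_le_of_lt (by
      rw [hpow]; exact Real.exp_le_exp.2 hD) hN2) u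
    refine h1.trans ?_
    have h2 : Real.exp ((D + k * c) * x) ≤ T ^ x := by
      rw [hpow]
      apply Real.exp_le_exp.2
      have : D + k * c ≤ L := by nlinarith
      nlinarith
    have h3 : 0 ≤ KN x N u := integral_nonneg fun y => by positivity
    gcongr
  have hpt : ∀ t ∈ Set.Ioc T (2 * T), ‖riemannZeta (1 / 2 + (t : ℂ) * I)‖ ^ 4 ≤
      8 + (8 * B ^ 4 * J ^ 3 * T ^ (4 * x)) * HN x N t := by
    intro t ht
    obtain ⟨s, hs⟩ : ∃ s : ℂ, s = ((1 / 2 : ℝ) : ℂ) + (t : ℂ) * I := ⟨_, rfl⟩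
    have hmain := hT₁ T hTT1 t (by linarith [ht.1]) (1 / 2 * Real.log T) (by rw [← hL]; linarith) le_rfl s hs
    rw [← hL] at hmain
    rw [← hcdef] at hmain
    obtain ⟨D₂, hD₂⟩ : ∃ D₂ : ℝ, D₂ = Real.log (t / (2 * Real.pi)) - 1 / 2 * L - η * L := ⟨_, rfl⟩
    rw [← hD₂] at hmain
    have ht0 : 0 < t := by linarith [ht.1]
    have hD₂le : D₂ + k * c ≤ (1 / 2 + η) * L := by
      rw [hkc, hD₂]
      have h1 : Real.log (t / (2 * Real.pi)) ≤ L := by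
        rw [hL]
        apply Real.log_le_log (by positivity)
        rw [div_le_iff₀ (by positivity)]
        have h2 : T * 2 ≤ T * (2 * Real.pi) := mul_le_mul_of_nonneg_left (by linarith [Real.pi_gt_three]) hT0.le
        linarith [ht.2]
      nlinarith
    have b1 := hcsb (1 / 2 * L) t (by rw [hkc]; linarith)
    have b2 := hcsb D₂ (-t) hD₂le
    rw [KN_neg] at b2
    have e2 : (((1 / 2 : ℝ) : ℂ) + ((-t : ℝ) : ℂ) * I) = 1 - s := by rw [hs]; push_cast; ring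
    rw [e2] at b2
    rw [← hs] at b1
    have b3 : ‖XX (1 - s)‖ = 1 := by
      have h1 : 1 - s = 1 / 2 + ((-t : ℝ) : ℂ) * I := by
        rw [hs]; push_cast; ring
      rw [h1]
      exact H345.norm_XX_half (-t)
    have hz : (1 / 2 + (t : ℂ) * I) = s := by rw [hs]; push_cast; ring
    rw [hz]
    have hT5 : T ^ (-(1 / 5) : ℝ) ≤ 1 := Real.rpow_le_one_of_one_le_of_nonpos (by linarith) (by norm_num)
    have h4 : ‖riemannZeta s‖ ≤ T ^ (-(1 / 5) : ℝ) + ‖cs k c (1 / 2 * L) s‖ + ‖XX (1 - s)‖ * ‖cs k c D₂ (1 - s)‖ := by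
      have h5 : riemannZeta s = (riemannZeta s - cs k c (1 / 2 * L) s - XX (1 - s) * cs k c D₂ (1 - s)) +
          cs k c (1 / 2 * L) s + XX (1 - s) * cs k c D₂ (1 - s) := by ring
      calc ‖riemannZeta s‖ = ‖(riemannZeta s - cs k c (1 / 2 * L) s - XX (1 - s) * cs k c D₂ (1 - s)) +
          cs k c (1 / 2 * L) s + XX (1 - s) * cs k c D₂ (1 - s)‖ := by rw [← h5]
        _ ≤ _ := by
          refine (norm_add₃_le).trans ?_
          rw [norm_mul]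
          gcongr
    rw [b3, one_mul] at h4
    have hK0 : 0 ≤ KN x N t := integral_nonneg fun y => by positivity
    have h6 : ‖riemannZeta s‖ ≤ 1 + B * T ^ x * KN x N t := by
      rw [hB]
      linarith
    have h7 : ‖riemannZeta s‖ ^ 4 ≤ 8 * (1 + (B * T ^ x * KN x N t) ^ 4) := by
      obtain ⟨b, hb⟩ : ∃ b : ℝ, b = B * T ^ x * KN x N t := ⟨_, rfl⟩
      rw [← hb] at h6 ⊢
      have hb0 : 0 ≤ b := by rw [hb]; positivity
      have e1 : (1 + b) ^ 2 ≤ 2 * (1 + b ^ 2) := by nlinarith [sq_nonneg (b - 1)]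
      calc ‖riemannZeta s‖ ^ 4 ≤ (1 + b) ^ 4 := pow_le_pow_left₀ (norm_nonneg _) h6 4
        _ = ((1 + b) ^ 2) ^ 2 := by ring
        _ ≤ (2 * (1 + b ^ 2)) ^ 2 := pow_le_pow_left₀ (by positivity) e1 2
        _ ≤ 8 * (1 + b ^ 4) := by nlinarith [sq_nonneg (b ^ 2 - 1)]
    have h8 : (T ^ x) ^ 4 = T ^ (4 * x) := by
      rw [← Real.rpow_natCast, ← Real.rpow_mul hT0.le]
      congr 1
      push_cast
      ring
    have h9 := KN_le hx0 N t
    rw [← hJ] at h9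
    calc ‖riemannZeta s‖ ^ 4 ≤ 8 * (1 + (B * T ^ x * KN x N t) ^ 4) := h7
      _ = 8 + 8 * B ^ 4 * (T ^ x) ^ 4 * KN x N t ^ 4 := by ring
      _ ≤ 8 + 8 * B ^ 4 * (T ^ x) ^ 4 * (J ^ 3 * HN x N t) := by gcongr
      _ = _ := by rw [h8]; ring
  have hNsq : 2 * T + (N : ℝ) ^ 2 ≤ 3 * T ^ (1 + 2 * η) := by
    have h1 : T ≤ T ^ (1 + 2 * η) := by
      calc T = T ^ (1 : ℝ) := (Real.rpow_one T).symm
        _ ≤ _ := Real.rpow_le_rpow_of_exponent_le (by linarith) (by linarith)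
    have h2 : (N : ℝ) ^ 2 ≤ T ^ (1 + 2 * η) := by
      calc (N : ℝ) ^ 2 ≤ (T ^ (1 / 2 + η)) ^ 2 := pow_le_pow_left₀ N.cast_nonneg hN1 2
        _ = T ^ (1 + 2 * η) := by
          rw [← Real.rpow_natCast, ← Real.rpow_mul hT0.le]
          congr 1
          push_cast
          ring
    linarith
  have hmean := h₂ T (by linarith) N hNT
  have hcz : ContinuousOn (fun t : ℝ => ‖riemannZeta (1 / 2 + (t : ℂ) * I)‖ ^ 4) (Set.Icc T (2 * T)) := by
    intro t ht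
    apply ContinuousAt.continuousWithinAt
    have hne : (1 / 2 + t * I : ℂ) ≠ 1 := by
      intro h
      have := congrArg Complex.re h
      norm_num at this
    exact (((differentiableAt_riemannZeta hne).continuousAt.comp (f := fun t : ℝ => (1 / 2 + (t : ℂ) * I))
      (by fun_prop)).norm).pow 4
  calc ∫ t in Set.Ioc T (2 * T), ‖riemannZeta (1 / 2 + (t : ℂ) * I)‖ ^ 4
      ≤ ∫ t in Set.Ioc T (2 * T), (8 + (8 * B ^ 4 * J ^ 3 * T ^ (4 * x)) * HN x N t) := by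
        refine setIntegral_mono_on (hcz.integrableOn_Icc.mono_set Set.Ioc_subset_Icc_self) ?_ measurableSet_Ioc hpt
        exact (integrable_const _).add ((HN_int hx0 N T (2 * T)).const_mul _)
    _ = 8 * T + (8 * B ^ 4 * J ^ 3 * T ^ (4 * x)) * ∫ t in Set.Ioc T (2 * T), HN x N t := by
        rw [integral_add (integrable_const _) ((HN_int hx0 N T (2 * T)).const_mul _), integral_const_mul,
          setIntegral_const, measureReal_def, Real.volume_Ioc, ENNReal.toReal_ofReal (by linarith)]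
        simp only [smul_eq_mul]
        ring
    _ ≤ 8 * T ^ (1 + κ) + (8 * B ^ 4 * J ^ 3 * T ^ (4 * x)) * (C₂ * (3 * T ^ (1 + 2 * η))) := by
        have h1 : T ≤ T ^ (1 + κ) := by
          calc T = T ^ (1 : ℝ) := (Real.rpow_one T).symm
            _ ≤ _ := Real.rpow_le_rpow_of_exponent_le (by linarith) (by linarith)
        have h2 : ∫ t in Set.Ioc T (2 * T), HN x N t ≤ C₂ * (3 * T ^ (1 + 2 * η)) :=
          hmean.trans (mul_le_mul_of_nonneg_left hNsq hC₂.le)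
        gcongr
    _ = 8 * T ^ (1 + κ) + (8 * B ^ 4 * J ^ 3 * C₂ * 3) * (T ^ (4 * x) * T ^ (1 + 2 * η)) := by ring
    _ ≤ 8 * T ^ (1 + κ) + (8 * B ^ 4 * J ^ 3 * C₂ * 3) * T ^ (1 + κ) := by
        have h1 : T ^ (4 * x) * T ^ (1 + 2 * η) ≤ T ^ (1 + κ) := by
          rw [← Real.rpow_add hT0]
          exact Real.rpow_le_rpow_of_exponent_le (by linarith) (by rw [hx]; linarith)
        gcongr
    _ = _ := by ring

end Pool.Agent.TH804.SD
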