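import Pool.Agent.TH804.SS4

/-! From zeros of sections to the Lindelöf hypothesis. -/

set_option autoImplicit false

open Complex MeasureTheory Filter Topology

namespace Pool.Agent.TH804.SS

/-- the Lindelöf hypothesis -/
def LH : Prop := ∀ ε : ℝ, 0 < ε → ∃ C : ℝ, ∀ t : ℝ, 1 ≤ |t| → ‖riemannZeta (1 / 2 + t * I)‖ ≤ C * |t| ^ ε

lemma zeta_abs (t : ℝ) : ‖riemannZeta (1 / 2 + (t : ℂ) * I)‖ = ‖riemannZeta (1 / 2 + ((|t| : ℝ) : ℂ) * I)‖ := by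
  rcases le_or_gt 0 t with h | h
  · rw [abs_of_nonneg h]
  · rw [abs_of_neg h]
    have h1 : (1 / 2 + (t : ℂ) * I) = (starRingEnd ℂ) (1 / 2 + ((-t : ℝ) : ℂ) * I) := by
      rw [map_add, map_mul, Complex.conj_ofReal, Complex.conj_I, map_div₀, map_one, Complex.conj_ofNat]
      push_cast
      ring
    rw [h1, riemannZeta_conj, RCLike.norm_conj]

lemma LH_of_large (h : ∀ ε : ℝ, 0 < ε → ∃ T₀ : ℝ, ∀ T : ℝ, T₀ ≤ T → ‖riemannZeta (1 / 2 + (T : ℂ) * I)‖ ≤ T ^ ε) :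
    LH := by
  intro ε hε
  obtain ⟨T₀, h1⟩ := h ε hε
  have hcont : ContinuousOn (fun t : ℝ => ‖riemannZeta (1 / 2 + t * I)‖) (Set.Icc 0 T₀) := by
    intro t _
    apply ContinuousAt.continuousWithinAt
    have hne : (1 / 2 + t * I : ℂ) ≠ 1 := by
      intro h
      have := congrArg Complex.re h
      norm_num at this
    have h2 : ContinuousAt riemannZeta (1 / 2 + t * I) := (differentiableAt_riemannZeta hne).continuousAt
    have h3 : ContinuousAt (fun t : ℝ => (1 / 2 + t * I : ℂ)) t := by fun_prop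
    exact (ContinuousAt.comp (f := fun t : ℝ => (1 / 2 + t * I : ℂ)) (g := riemannZeta) h2 h3).norm
  obtain ⟨K, hK⟩ := isCompact_Icc.exists_bound_of_continuousOn hcont
  refine ⟨max |K| 1, fun t ht => ?_⟩
  have hpow : 1 ≤ |t| ^ ε := Real.one_le_rpow ht hε.le
  rw [zeta_abs]
  rcases le_total T₀ |t| with h2 | h2
  · refine (h1 |t| h2).trans ?_
    exact le_mul_of_one_le_left (by positivity) (le_max_right _ _)
  · have h3 := hK |t| ⟨abs_nonneg t, h2⟩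
    rw [norm_norm] at h3
    calc ‖riemannZeta (1 / 2 + ((|t| : ℝ) : ℂ) * I)‖ ≤ K := h3
      _ ≤ max |K| 1 := (le_abs_self K).trans (le_max_left _ _)
      _ ≤ max |K| 1 * |t| ^ ε := le_mul_of_one_le_right (by positivity) hpow

lemma Few.mono {N : ℕ} {δ H H' T n n' : ℝ} (h : Few N δ H T n) (hH : H' ≤ H) (hn : n ≤ n') :
    Few N δ H' T n' := fun S hS =>
  (h S fun s hs => ⟨(hS s hs).1, (hS s hs).2.1.trans hH, (hS s hs).2.2⟩).trans hn

/-- **local form**: if a section has few zeros at the heights close to `T` then `ζ(1/2 + iT)` is small -/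
theorem local_small {θ A ε η : ℝ} (hθ : 1 / 2 < θ) (hA : 1 ≤ A) (hε : 0 < ε) (hη : 0 < η) :
    ∃ δ κ T₀ : ℝ, 0 < δ ∧ 0 < κ ∧ ∀ T : ℝ, T₀ ≤ T → ∀ N : ℕ, T ^ θ ≤ N → (N : ℝ) ≤ T ^ A →
      (∀ T' : ℝ, |T' - T| ≤ T ^ η → Few N δ (3 / 2) T' (κ * Real.log T)) →
        ‖riemannZeta (1 / 2 + (T : ℂ) * I)‖ ≤ T ^ ε := by
  obtain ⟨δ, hδ⟩ : ∃ δ : ℝ, δ = min (1 / 12) (ε / 8) := ⟨_, rfl⟩
  have hδ0 : 0 < δ := by rw [hδ]; positivity
  have hδ1 : δ ≤ 1 / 12 := by rw [hδ]; exact min_le_left _ _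
  have hδ2 : δ ≤ ε / 8 := by rw [hδ]; exact min_le_right _ _
  obtain ⟨κ, hκ, T₁, h1⟩ := sec_small (δ := δ) (η := ε / 4) (A := A) hδ0 hδ1 (by positivity) hA
  obtain ⟨T₂, h2⟩ := zeta_small (θ := θ) (A := A) (ε := ε) (x := 2 * δ) (κ := ε / 4) (η₁ := η) hθ hε
    (by positivity) (by positivity) (by linarith) hη
  refine ⟨δ, κ, max (max T₁ T₂) 1, hδ0, hκ, fun T hT N hN1 hN2 hfew => ?_⟩
  have hT1 : T₁ ≤ T := ((le_max_left _ _).trans (le_max_left _ _)).trans hT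
  have hT2 : T₂ ≤ T := ((le_max_right _ _).trans (le_max_left _ _)).trans hT
  have hT3 : 1 ≤ T := (le_max_right _ _).trans hT
  have hN : 1 ≤ N := by
    have h3 : 1 ≤ T ^ θ := Real.one_le_rpow hT3 (by linarith)
    exact_mod_cast h3.trans hN1
  refine h2 T hT2 N (by linarith) hN2 (fun v hv => ?_)
  exact h1 T hT1 N hN hN2 v (hfew v hv) _ (by simp) (by simp)

/-- the difference of two sections -/
lemma sec_sub_le {M N : ℕ} (hMN : M ≤ N) {s : ℂ} (hs : 1 / 2 ≤ s.re) :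
    ‖sec N s - sec M s‖ ≤ ((N : ℝ) - M) * ((M : ℝ) + 1) ^ (-(1 / 2) : ℝ) := by
  have h1 : sec N s - sec M s = ∑ n ∈ Finset.Ico M N, ((n : ℂ) + 1) ^ (-s) := by
    unfold sec
    rw [Finset.sum_Ico_eq_sub _ hMN]
  rw [h1]
  refine (norm_sum_le _ _).trans ?_
  calc ∑ n ∈ Finset.Ico M N, ‖((n : ℂ) + 1) ^ (-s)‖ ≤ ∑ n ∈ Finset.Ico M N, ((M : ℝ) + 1) ^ (-(1 / 2) : ℝ) := by
        refine Finset.sum_le_sum fun n hn => ?_
        rw [Finset.mem_Ico] at hn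
        rw [term_norm]
        have hn' : (M : ℝ) ≤ n := by exact_mod_cast hn.1
        have hM0 : (0 : ℝ) ≤ M := M.cast_nonneg
        calc ((n : ℝ) + 1) ^ (-s.re) ≤ ((n : ℝ) + 1) ^ (-(1 / 2) : ℝ) :=
              Real.rpow_le_rpow_of_exponent_le (by linarith) (by linarith)
          _ ≤ ((M : ℝ) + 1) ^ (-(1 / 2) : ℝ) :=
              Real.rpow_le_rpow_of_nonpos (by positivity) (by linarith) (by norm_num)
    _ = _ := by
        rw [Finset.sum_const, Nat.card_Ico, nsmul_eq_mul, Nat.cast_sub hMN]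

/-- the sections at neighbouring heights -/
lemma sec_near {θ u v s₀ : ℝ} (hθ0 : 0 ≤ θ) (hθ : θ ≤ 2) (hv : 1 ≤ v) (hvu : v ≤ u) (huv : u ≤ 4 * v)
    (hd : u - v ≤ s₀) {s : ℂ} (hs : 1 / 2 ≤ s.re) :
    ‖sec ⌊u ^ θ⌋₊ s - sec ⌊v ^ θ⌋₊ s‖ ≤ 1 + 8 * s₀ := by
  have hu : 1 ≤ u := hv.trans hvu
  have hle : v ^ θ ≤ u ^ θ := Real.rpow_le_rpow (by linarith) hvu hθ0
  refine (sec_sub_le (Nat.floor_le_floor hle) hs).trans ?_
  have hN : ((⌊u ^ θ⌋₊ : ℕ) : ℝ) ≤ u ^ θ := Nat.floor_le (by positivity)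
  have hM : v ^ θ < ((⌊v ^ θ⌋₊ : ℕ) : ℝ) + 1 := Nat.lt_floor_add_one _
  obtain ⟨m, hm⟩ : ∃ m : ℝ, m = ((⌊v ^ θ⌋₊ : ℕ) : ℝ) := ⟨_, rfl⟩
  rw [← hm] at hM ⊢
  have hm0 : 0 ≤ m := by rw [hm]; positivity
  have h1 : (m + 1) ^ (-(1 / 2) : ℝ) ≤ (v ^ θ) ^ (-(1 / 2) : ℝ) :=
    Real.rpow_le_rpow_of_nonpos (by positivity) hM.le (by norm_num)
  have h2 : (v ^ θ) ^ (-(1 / 2) : ℝ) = v ^ (-(θ / 2)) := by
    rw [← Real.rpow_mul (by linarith)]; congr 1; ring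
  have hv0 : 0 < v := by linarith
  -- u^θ ≤ v^θ (u/v)^2
  have h3 : u ^ θ ≤ v ^ θ * (u / v) ^ 2 := by
    have h4 : u = v * (u / v) := by field_simp
    have h5 : 1 ≤ u / v := by rw [le_div_iff₀ hv0]; linarith
    calc u ^ θ = (v * (u / v)) ^ θ := by rw [← h4]
      _ = v ^ θ * (u / v) ^ θ := Real.mul_rpow (by linarith) (by positivity)
      _ ≤ v ^ θ * (u / v) ^ (2 : ℝ) := by
          apply mul_le_mul_of_nonneg_left _ (by positivity)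
          exact Real.rpow_le_rpow_of_exponent_le h5 hθ
      _ = v ^ θ * (u / v) ^ 2 := by norm_cast
  have hs0 : 0 ≤ s₀ := by linarith
  have h6 : (u / v) ^ 2 - 1 ≤ 5 * (s₀ / v) := by
    have h7 : (u / v) ^ 2 - 1 = (u - v) / v * ((u + v) / v) := by field_simp; ring
    rw [h7]
    have h8 : (u + v) / v ≤ 5 := by rw [div_le_iff₀ hv0]; linarith
    have h9 : (u - v) / v ≤ s₀ / v := by gcongr
    have h10 : 0 ≤ (u - v) / v := div_nonneg (by linarith) hv0.le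
    have h11 : 0 ≤ (u + v) / v := by positivity
    calc (u - v) / v * ((u + v) / v) ≤ s₀ / v * 5 := mul_le_mul h9 h8 h11 (by positivity)
      _ = _ := by ring
  have h12 : ((⌊u ^ θ⌋₊ : ℕ) : ℝ) - m ≤ 1 + v ^ θ * (5 * (s₀ / v)) := by
    have : v ^ θ * ((u / v) ^ 2 - 1) ≤ v ^ θ * (5 * (s₀ / v)) := mul_le_mul_of_nonneg_left h6 (by positivity)
    nlinarith
  have h13 : 0 ≤ ((⌊u ^ θ⌋₊ : ℕ) : ℝ) - m := by
    rw [hm, sub_nonneg]
    exact_mod_cast Nat.floor_le_floor hle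
  have h14 : v ^ (-(θ / 2)) ≤ 1 := Real.rpow_le_one_of_one_le_of_nonpos hv (by linarith)
  have h15 : v ^ θ * (5 * (s₀ / v)) * v ^ (-(θ / 2)) ≤ 5 * s₀ := by
    have e1 : v ^ θ * (5 * (s₀ / v)) * v ^ (-(θ / 2)) = 5 * s₀ * v ^ (θ / 2 - 1) := by
      have e2 : v ^ (θ / 2 - 1) = v ^ θ * v ^ (-(θ / 2)) / v := by
        rw [← Real.rpow_add hv0, Real.rpow_sub hv0, Real.rpow_one]
        congr 2
        ring
      rw [e2]
      ring
    rw [e1]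
    have e3 : v ^ (θ / 2 - 1) ≤ 1 := Real.rpow_le_one_of_one_le_of_nonpos hv (by linarith)
    nlinarith
  calc (((⌊u ^ θ⌋₊ : ℕ) : ℝ) - m) * (m + 1) ^ (-(1 / 2) : ℝ)
      ≤ (1 + v ^ θ * (5 * (s₀ / v))) * v ^ (-(θ / 2)) := by
        rw [h2] at h1
        exact mul_le_mul h12 h1 (by positivity) (by positivity)
    _ = v ^ (-(θ / 2)) + v ^ θ * (5 * (s₀ / v)) * v ^ (-(θ / 2)) := by ring
    _ ≤ 1 + 8 * s₀ := by linarith

/-- one section for each height: few zeros -/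
def Single (θ H : ℝ) : Prop := ∀ δ : ℝ, 0 < δ → ∀ ε : ℝ, 0 < ε → ∃ T₀ : ℝ, ∀ T : ℝ, T₀ ≤ T →
  Few ⌊T ^ θ⌋₊ δ H T (ε * Real.log T)

/-- a single section at each height is small -/
lemma single_small {θ H : ℝ} (hθ0 : 0 < θ) (hH : 3 / 2 ≤ H) (hS : Single θ H) {δ ε : ℝ}
    (hδ : 0 < δ) (hδ1 : δ ≤ 1 / 12) (hε : 0 < ε) :
    ∃ T₀ : ℝ, ∀ T : ℝ, T₀ ≤ T → ‖sec ⌊T ^ θ⌋₊ (((1 / 2 + 2 * δ : ℝ) : ℂ) + (T : ℂ) * I)‖ ≤ T ^ ε := by
  obtain ⟨κ, hκ, T₁, h1⟩ := sec_small (δ := δ) (η := ε) (A := θ + 1) hδ hδ1 hε (by linarith)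
  obtain ⟨T₂, h2⟩ := hS δ hδ κ hκ
  refine ⟨max (max T₁ T₂) 1, fun T hT => ?_⟩
  have hT1 : T₁ ≤ T := ((le_max_left _ _).trans (le_max_left _ _)).trans hT
  have hT2 : T₂ ≤ T := ((le_max_right _ _).trans (le_max_left _ _)).trans hT
  have hT3 : 1 ≤ T := (le_max_right _ _).trans hT
  have hN : 1 ≤ ⌊T ^ θ⌋₊ := by
    rw [Nat.one_le_floor_iff]
    exact Real.one_le_rpow hT3 hθ0.le
  have hN2 : ((⌊T ^ θ⌋₊ : ℕ) : ℝ) ≤ T ^ (θ + 1) :=
    (Nat.floor_le (by positivity)).trans (Real.rpow_le_rpow_of_exponent_le hT3 (by linarith))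
  exact h1 T hT1 _ hN hN2 T ((h2 T hT2).mono hH le_rfl) _ (by simp) (by simp)

/-- **few zeros of one section for each height imply LH** -/
theorem LH_of_single {θ H : ℝ} (hθ : 1 / 2 < θ) (hθ2 : θ ≤ 2) (hH : 3 / 2 ≤ H) (hS : Single θ H) : LH := by
  apply LH_of_large
  intro ε hε
  obtain ⟨δ, hδ⟩ : ∃ δ : ℝ, δ = min (1 / 12) (ε / 8) := ⟨_, rfl⟩
  have hδ0 : 0 < δ := by rw [hδ]; positivity
  have hδ1 : δ ≤ 1 / 12 := by rw [hδ]; exact min_le_left _ _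
  have hδ2 : δ ≤ ε / 8 := by rw [hδ]; exact min_le_right _ _
  obtain ⟨η, hη⟩ : ∃ η : ℝ, η = min (1 / 2) (ε / 8) := ⟨_, rfl⟩
  have hη0 : 0 < η := by rw [hη]; positivity
  have hη1 : η ≤ 1 / 2 := by rw [hη]; exact min_le_left _ _
  have hη2 : η ≤ ε / 8 := by rw [hη]; exact min_le_right _ _
  obtain ⟨T₁, h1⟩ := single_small (by linarith) hH hS hδ0 hδ1 (show 0 < ε / 16 by positivity)
  obtain ⟨T₂, h2⟩ := zeta_small (θ := θ) (A := 2) (ε := ε) (x := 2 * δ) (κ := ε / 4) (η₁ := η) hθ hε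
    (by positivity) (by positivity) (by linarith) hη0
  refine ⟨max (max (2 * |T₁|) T₂) (max 16 (10 ^ (8 / ε))), fun T hT => ?_⟩
  have hT1 : 2 * |T₁| ≤ T := ((le_max_left _ _).trans (le_max_left _ _)).trans hT
  have hT2 : T₂ ≤ T := ((le_max_right _ _).trans (le_max_left _ _)).trans hT
  have hT3 : 16 ≤ T := ((le_max_left _ _).trans (le_max_right _ _)).trans hT
  have hT4 : (10 : ℝ) ^ (8 / ε) ≤ T := ((le_max_right _ _).trans (le_max_right _ _)).trans hT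
  have hT0 : 0 < T := by linarith
  have hTT : T₁ ≤ T / 2 := by linarith [le_abs_self T₁]
  refine h2 T hT2 ⌊T ^ θ⌋₊ (Nat.lt_floor_add_one _) ?_ (fun v hv => ?_)
  · exact (Nat.floor_le (by positivity)).trans (Real.rpow_le_rpow_of_exponent_le (by linarith) hθ2)
  · have hTη : T ^ η ≤ T / 4 := by
      have h3 : T ^ η ≤ T ^ (1 / 2 : ℝ) := Real.rpow_le_rpow_of_exponent_le (by linarith) hη1
      rw [← Real.sqrt_eq_rpow] at h3
      refine h3.trans ?_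
      rw [Real.sqrt_le_left (by positivity)]
      nlinarith
    have hv1 := abs_le.1 (hv.trans hTη)
    have hvT : T / 2 ≤ v := by linarith [hv1.1]
    have hvT2 : v ≤ 2 * T := by linarith [hv1.2]
    have h3 := h1 v (by linarith)
    have h4 : ‖sec ⌊T ^ θ⌋₊ (((1 / 2 + 2 * δ : ℝ) : ℂ) + (v : ℂ) * I) -
        sec ⌊v ^ θ⌋₊ (((1 / 2 + 2 * δ : ℝ) : ℂ) + (v : ℂ) * I)‖ ≤ 1 + 8 * T ^ η := by
      have hre : 1 / 2 ≤ ((((1 / 2 + 2 * δ : ℝ) : ℂ) + (v : ℂ) * I)).re := by simp; positivity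
      rcases le_total v T with h | h
      · refine sec_near (by linarith) hθ2 (by linarith) h (by linarith) ?_ hre
        rw [abs_sub_comm] at hv
        exact (le_abs_self _).trans hv
      · rw [norm_sub_rev]
        refine sec_near (by linarith) hθ2 (by linarith) h (by linarith) ?_ hre
        exact (le_abs_self _).trans hv
    have h5 : v ^ (ε / 16) ≤ T ^ (ε / 8) := by
      have h6 : v ≤ T ^ (2 : ℝ) := by
        have : T ^ (2 : ℝ) = T * T := by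
          rw [show (2 : ℝ) = ((2 : ℕ) : ℝ) by norm_num, Real.rpow_natCast]; ring
        rw [this]
        nlinarith
      calc v ^ (ε / 16) ≤ (T ^ (2 : ℝ)) ^ (ε / 16) := Real.rpow_le_rpow (by linarith) h6 (by positivity)
        _ = T ^ (ε / 8) := by rw [← Real.rpow_mul hT0.le]; congr 1; ring
    have h7 : T ^ η ≤ T ^ (ε / 8) := Real.rpow_le_rpow_of_exponent_le (by linarith) hη2
    have h8 : 10 ≤ T ^ (ε / 8) := by
      calc (10 : ℝ) = (10 ^ (8 / ε)) ^ (ε / 8) := by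
            rw [← Real.rpow_mul (by norm_num)]
            have : 8 / ε * (ε / 8) = 1 := by field_simp
            rw [this, Real.rpow_one]
        _ ≤ T ^ (ε / 8) := Real.rpow_le_rpow (by positivity) hT4 (by positivity)
    have h9 : T ^ (ε / 4) = T ^ (ε / 8) * T ^ (ε / 8) := by
      rw [← Real.rpow_add hT0]; congr 1; ring
    have h10 := norm_sub_norm_le (sec ⌊T ^ θ⌋₊ (((1 / 2 + 2 * δ : ℝ) : ℂ) + (v : ℂ) * I))
      (sec ⌊v ^ θ⌋₊ (((1 / 2 + 2 * δ : ℝ) : ℂ) + (v : ℂ) * I))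
    rw [h9]
    nlinarith

end Pool.Agent.TH804.SS
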