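import Pool.Agent.TH804.SD3
import Pool.Agent.TH804.SS5

/-! Weighted fourth moment and the exceptional windows. -/

set_option autoImplicit false

open Complex MeasureTheory Filter Topology Finset

namespace Pool.Agent.TH804.SD

open Pool.Agent.TH804.SS

lemma zeta_line_cont : Continuous (fun t : ℝ => riemannZeta (1 / 2 + (t : ℂ) * I)) := by
  rw [continuous_iff_continuousAt]
  intro t
  have hne : (1 / 2 + t * I : ℂ) ≠ 1 := by
    intro h
    have := congrArg Complex.re h
    norm_num at this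
  exact (differentiableAt_riemannZeta hne).continuousAt.comp (f := fun t : ℝ => (1 / 2 + (t : ℂ) * I))
    (by fun_prop)

lemma wr_cont (r : ℝ) : Continuous (fun t : ℝ => (1 + |t|) ^ (-r)) :=
  Continuous.rpow_const (by fun_prop) fun t => Or.inl (by positivity)

/-- the weighted fourth moment is finite -/
theorem weighted {κ : ℝ} (hκ : 0 < κ) :
    Integrable (fun u : ℝ => ‖riemannZeta (1 / 2 + (u : ℂ) * I)‖ ^ 4 * (1 + |u|) ^ (-(1 + κ))) := by
  set f : ℝ → ℝ := fun u => ‖riemannZeta (1 / 2 + (u : ℂ) * I)‖ ^ 4 * (1 + |u|) ^ (-(1 + κ)) with hf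
  have hfc : Continuous f := (zeta_line_cont.norm.pow 4).mul (wr_cont _)
  have hf0 : ∀ u, 0 ≤ f u := fun u => by rw [hf]; positivity
  obtain ⟨C, T₀, hC, h4⟩ := fourth (show 0 < κ / 2 by positivity)
  obtain ⟨a, ha⟩ : ∃ a : ℝ, a = max T₀ 1 := ⟨_, rfl⟩
  have ha1 : 1 ≤ a := by rw [ha]; exact le_max_right _ _
  have haT : T₀ ≤ a := by rw [ha]; exact le_max_left _ _
  have ha0 : 0 < a := by linarith
  obtain ⟨q, hq⟩ : ∃ q : ℝ, q = (2 : ℝ) ^ (-(κ / 2)) := ⟨_, rfl⟩
  have hq0 : 0 < q := by rw [hq]; positivity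
  have hq1 : q < 1 := by rw [hq]; exact Real.rpow_lt_one_of_one_lt_of_neg (by norm_num) (by linarith)
  -- one dyadic block
  have hblock : ∀ T : ℝ, a ≤ T → ∫ u in T..(2 * T), f u ≤ C * T ^ (-(κ / 2)) := by
    intro T hT
    have hT0 : 0 < T := by linarith
    rw [intervalIntegral.integral_of_le (by linarith)]
    have h5 := h4 T (haT.trans hT)
    calc ∫ u in Set.Ioc T (2 * T), f u
        ≤ ∫ u in Set.Ioc T (2 * T), ‖riemannZeta (1 / 2 + (u : ℂ) * I)‖ ^ 4 * T ^ (-(1 + κ)) := by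
          refine setIntegral_mono_on ?_ ?_ measurableSet_Ioc ?_
          · exact (hfc.integrableOn_Icc (a := T) (b := 2 * T)).mono_set Set.Ioc_subset_Icc_self
          · exact (((zeta_line_cont.norm.pow 4).mul continuous_const).integrableOn_Icc
              (a := T) (b := 2 * T)).mono_set Set.Ioc_subset_Icc_self
          · intro u hu
            apply mul_le_mul_of_nonneg_left _ (by positivity)
            apply Real.rpow_le_rpow_of_nonpos hT0 _ (by linarith)
            have := hu.1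
            rw [abs_of_pos (by linarith)]
            linarith
      _ = (∫ u in Set.Ioc T (2 * T), ‖riemannZeta (1 / 2 + (u : ℂ) * I)‖ ^ 4) * T ^ (-(1 + κ)) :=
          integral_mul_const _ _
      _ ≤ (C * T ^ (1 + κ / 2)) * T ^ (-(1 + κ)) := mul_le_mul_of_nonneg_right h5 (by positivity)
      _ = C * T ^ (-(κ / 2)) := by
          rw [mul_assoc, ← Real.rpow_add hT0]
          congr 2
          ring
  have hsum : ∀ n : ℕ, ∫ u in a..(2 ^ n * a), f u ≤ C * ∑ j ∈ Finset.range n, q ^ j := by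
    intro n
    induction n with
    | zero => simp
    | succ n ih =>
      have e1 : (2 : ℝ) ^ (n + 1) * a = 2 * (2 ^ n * a) := by ring
      rw [e1, ← intervalIntegral.integral_add_adjacent_intervals (b := 2 ^ n * a)
        (hfc.intervalIntegrable _ _) (hfc.intervalIntegrable _ _), Finset.sum_range_succ, mul_add]
      have hpow1 : (1 : ℝ) ≤ 2 ^ n := one_le_pow₀ (by norm_num)
      have h6 := hblock (2 ^ n * a) (by nlinarith)
      have h7 : (2 ^ n * a) ^ (-(κ / 2)) ≤ q ^ n := by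
        rw [Real.mul_rpow (by positivity) ha0.le]
        have e2 : ((2 : ℝ) ^ n) ^ (-(κ / 2)) = q ^ n := by
          rw [hq, ← Real.rpow_natCast, ← Real.rpow_natCast, ← Real.rpow_mul (by norm_num),
            ← Real.rpow_mul (by norm_num)]
          congr 1
          ring
        rw [e2]
        have e3 : a ^ (-(κ / 2)) ≤ 1 := Real.rpow_le_one_of_one_le_of_nonpos ha1 (by linarith)
        exact mul_le_of_le_one_right (by positivity) e3
      have h8 : C * (2 ^ n * a) ^ (-(κ / 2)) ≤ C * q ^ n := mul_le_mul_of_nonneg_left h7 hC.le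
      linarith
  have hgeo : ∀ n : ℕ, ∑ j ∈ Finset.range n, q ^ j ≤ (1 - q)⁻¹ := by
    intro n
    exact (summable_geometric_of_lt_one hq0.le hq1).sum_le_tsum _ (fun _ _ => by positivity) |>.trans_eq
      (tsum_geometric_of_lt_one hq0.le hq1)
  have hIoi : IntegrableOn f (Set.Ioi a) := by
    refine integrableOn_Ioi_of_intervalIntegral_norm_bounded (l := atTop) (b := fun n : ℕ => 2 ^ n * a)
      (C * (1 - q)⁻¹) a (fun n => ?_) ?_ (Eventually.of_forall fun n => ?_)
    · exact (hfc.integrableOn_Icc (a := a) (b := 2 ^ n * a)).mono_set Set.Ioc_subset_Icc_self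
    · exact (tendsto_pow_atTop_atTop_of_one_lt (by norm_num)).atTop_mul_const ha0
    · have e1 : ∀ u, ‖f u‖ = f u := fun u => Real.norm_of_nonneg (hf0 u)
      simp only [e1]
      exact (hsum n).trans (mul_le_mul_of_nonneg_left (hgeo n) hC.le)
  have heven : ∀ u, f (-u) = f u := by
    intro u
    have h1 := zeta_abs (-u)
    have h2 := zeta_abs u
    rw [abs_neg] at h1
    rw [hf]
    simp only
    rw [h1, h2, abs_neg]
  have hIio : IntegrableOn f (Set.Iio (-a)) := by
    have h1 : IntegrableOn (fun u => f (-u)) (Set.Iio (-a)) := by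
      have h2 : MeasurePreserving (Neg.neg : ℝ → ℝ) volume volume := Measure.measurePreserving_neg volume
      have h3 := (h2.integrableOn_comp_preimage (Homeomorph.neg ℝ).measurableEmbedding (f := f)
        (s := Set.Ioi a)).2 hIoi
      have h4 : (Neg.neg ⁻¹' Set.Ioi a : Set ℝ) = Set.Iio (-a) := by
        ext u
        simp only [Set.mem_preimage, Set.mem_Ioi, Set.mem_Iio]
        constructor <;> intro h <;> linarith
      rw [h4] at h3
      exact h3
    exact h1.congr_fun (fun u _ => heven u) measurableSet_Iio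
  have hmid : IntegrableOn f (Set.Icc (-a) a) := hfc.integrableOn_Icc
  have huniv : (Set.univ : Set ℝ) = (Set.Iio (-a) ∪ Set.Icc (-a) a) ∪ Set.Ioi a := by
    ext u
    simp only [Set.mem_univ, Set.mem_union, Set.mem_Iio, Set.mem_Icc, Set.mem_Ioi, true_iff]
    rcases lt_or_ge u (-a) with h | h
    · exact Or.inl (Or.inl h)
    · rcases le_or_gt u a with h' | h'
      · exact Or.inl (Or.inr ⟨h, h'⟩)
      · exact Or.inr h'
  rw [← integrableOn_univ, huniv]
  exact (hIio.union hmid).union hIoi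

/-- the average of `|ζ|` on the critical line around the height `t` -/
noncomputable def G (κ t : ℝ) : ℝ :=
  ∫ u : ℝ, ‖riemannZeta (1 / 2 + (u : ℂ) * I)‖ * (1 + |u - t|) ^ (-(1 + κ))

lemma shift_w {κ : ℝ} (hκ : 0 < κ) (t : ℝ) : Integrable (fun u : ℝ => (1 + |u - t|) ^ (-(1 + κ))) :=
  (w_int (r := 1 + κ) (by linarith)).comp_sub_right t

lemma shift_le {κ : ℝ} (hκ : 0 < κ) (t u : ℝ) :
    (1 + |u - t|) ^ (-(1 + κ)) ≤ (1 + |t|) ^ (1 + κ) * (1 + |u|) ^ (-(1 + κ)) := by
  have h1 : 1 + |u| ≤ (1 + |u - t|) * (1 + |t|) := by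
    have h2 : |u| ≤ |u - t| + |t| := by
      calc |u| = |(u - t) + t| := by congr 1; ring
        _ ≤ _ := abs_add_le _ _
    have := mul_nonneg (abs_nonneg (u - t)) (abs_nonneg t)
    nlinarith
  have h3 : (1 + |u|) / (1 + |t|) ≤ 1 + |u - t| := by
    rw [div_le_iff₀ (by positivity)]
    exact h1
  calc (1 + |u - t|) ^ (-(1 + κ)) ≤ ((1 + |u|) / (1 + |t|)) ^ (-(1 + κ)) :=
        Real.rpow_le_rpow_of_nonpos (by positivity) h3 (by linarith)
    _ = _ := by
      rw [Real.div_rpow (by positivity) (by positivity), Real.rpow_neg (x := 1 + |t|) (by positivity)]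
      field_simp

lemma weighted_shift {κ : ℝ} (hκ : 0 < κ) (t : ℝ) :
    Integrable (fun u : ℝ => ‖riemannZeta (1 / 2 + (u : ℂ) * I)‖ ^ 4 * (1 + |u - t|) ^ (-(1 + κ))) := by
  refine ((weighted hκ).const_mul ((1 + |t|) ^ (1 + κ))).mono' ?_ (Eventually.of_forall fun u => ?_)
  · have : Continuous (fun u : ℝ => (1 + |u - t|) ^ (-(1 + κ))) :=
      Continuous.rpow_const (by fun_prop) fun t => Or.inl (by positivity)
    exact ((zeta_line_cont.norm.pow 4).mul this).aestronglyMeasurable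
  · rw [Real.norm_of_nonneg (by positivity)]
    have := shift_le hκ t u
    calc ‖riemannZeta (1 / 2 + (u : ℂ) * I)‖ ^ 4 * (1 + |u - t|) ^ (-(1 + κ))
        ≤ ‖riemannZeta (1 / 2 + (u : ℂ) * I)‖ ^ 4 * ((1 + |t|) ^ (1 + κ) * (1 + |u|) ^ (-(1 + κ))) := by gcongr
      _ = _ := by ring

lemma G_int {κ : ℝ} (hκ : 0 < κ) (t : ℝ) :
    Integrable (fun u : ℝ => ‖riemannZeta (1 / 2 + (u : ℂ) * I)‖ * (1 + |u - t|) ^ (-(1 + κ))) := by
  refine ((shift_w hκ t).add (weighted_shift hκ t)).mono' ?_ (Eventually.of_forall fun u => ?_)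
  · have : Continuous (fun u : ℝ => (1 + |u - t|) ^ (-(1 + κ))) :=
      Continuous.rpow_const (by fun_prop) fun t => Or.inl (by positivity)
    exact (zeta_line_cont.norm.mul this).aestronglyMeasurable
  · rw [Real.norm_of_nonneg (by positivity), Pi.add_apply]
    obtain ⟨z, hz⟩ : ∃ z : ℝ, z = ‖riemannZeta (1 / 2 + (u : ℂ) * I)‖ := ⟨_, rfl⟩
    have hz0 : 0 ≤ z := by rw [hz]; exact norm_nonneg _
    rw [← hz]
    have h1 : z ≤ 1 + z ^ 4 := by nlinarith [sq_nonneg (z ^ 2 - 1), sq_nonneg (z - 1), sq_nonneg (z ^ 2 - z)]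
    have h2 : 0 ≤ (1 + |u - t|) ^ (-(1 + κ)) := by positivity
    nlinarith [mul_le_mul_of_nonneg_right h1 h2]

lemma G_four {κ : ℝ} (hκ : 0 < κ) (t : ℝ) :
    G κ t ^ 4 ≤ (∫ y : ℝ, (1 + |y|) ^ (-(1 + κ))) ^ 3 *
      ∫ u : ℝ, ‖riemannZeta (1 / 2 + (u : ℂ) * I)‖ ^ 4 * (1 + |u - t|) ^ (-(1 + κ)) := by
  have e1 : ∫ u : ℝ, (1 + |u - t|) ^ (-(1 + κ)) = ∫ y : ℝ, (1 + |y|) ^ (-(1 + κ)) :=
    integral_sub_right_eq_self (fun y : ℝ => (1 + |y|) ^ (-(1 + κ))) t
  unfold G
  rw [← e1]
  exact holder4 (fun u => norm_nonneg _) (fun u => by positivity) (shift_w hκ t)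
    (by rw [e1]; exact w_pos (by linarith)) (weighted_shift hκ t) zeta_line_cont.norm.aestronglyMeasurable

end Pool.Agent.TH804.SD
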