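import Pool.Agent.TH804.SD4

/-! The number of exceptional windows. -/

set_option autoImplicit false

open Complex MeasureTheory Filter Topology Finset

namespace Pool.Agent.TH804.SD

open Pool.Agent.TH804.SS

lemma int_sum {b : ℝ} (hb : 1 < b) : Summable (fun m : ℤ => (1 + |(m : ℝ)|) ^ (-b)) := by
  have h1 : Summable (fun m : ℤ => |(m : ℝ)| ^ (-b) + (if m = 0 then (1 : ℝ) else 0)) := by
    refine (Real.summable_abs_int_rpow hb).add ?_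
    exact summable_of_ne_finset_zero (s := {0}) (fun m hm => by
      rw [Finset.mem_singleton] at hm
      rw [if_neg hm])
  refine h1.of_nonneg_of_le (fun m => by positivity) fun m => ?_
  by_cases hm : m = 0
  · rw [hm, if_pos rfl]
    have e1 : (1 + |((0 : ℤ) : ℝ)|) ^ (-b) = 1 := by simp
    rw [e1]
    have : 0 ≤ |((0 : ℤ) : ℝ)| ^ (-b) := by positivity
    linarith
  · rw [if_neg hm, add_zero]
    have : 0 < |(m : ℝ)| := abs_pos.2 (by exact_mod_cast hm)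
    exact Real.rpow_le_rpow_of_nonpos this (by linarith) (by linarith)

/-- the weight of a set of well-spaced points -/
lemma weight_sum {κ : ℝ} (hκ : 0 < κ) : ∃ C : ℝ, 0 < C ∧ ∀ T : ℝ, 1 ≤ T → ∀ (Q : Finset ℕ) (γ : ℕ → ℝ),
    (∀ n ∈ Q, (n : ℝ) ≤ γ n ∧ γ n ≤ n + 1 ∧ γ n ≤ 3 * T) → ∀ u : ℝ,
      ∑ n ∈ Q, (1 + |u - γ n|) ^ (-(1 + κ)) ≤ C * T ^ (1 + κ) * (1 + |u|) ^ (-(1 + κ)) := by
  obtain ⟨b, hb⟩ : ∃ b : ℝ, b = 1 + κ := ⟨_, rfl⟩
  have hb1 : 1 < b := by linarith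
  rw [← hb]
  obtain ⟨Z, hZ⟩ : ∃ Z : ℝ, Z = ∑' m : ℤ, (1 + |(m : ℝ)|) ^ (-b) := ⟨_, rfl⟩
  have hZ0 : 0 ≤ Z := by rw [hZ]; exact tsum_nonneg fun n => by positivity
  refine ⟨4 ^ b * Z * 7 ^ b + 4 * 2 ^ b, by positivity, fun T hT Q γ hγ u => ?_⟩
  have hT0 : 0 < T := by linarith
  have hu0 := abs_nonneg u
  have hw0 : 0 ≤ T ^ b * (1 + |u|) ^ (-b) := by positivity
  rcases le_or_gt |u| (6 * T) with hu | hu
  · have h1 : ∑ n ∈ Q, (1 + |u - γ n|) ^ (-b) ≤ 4 ^ b * Z := by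
      have h2 : ∀ n ∈ Q, (1 + |u - γ n|) ^ (-b) ≤ 4 ^ b * (1 + |((⌊u⌋ - (n : ℤ) : ℤ) : ℝ)|) ^ (-b) := by
        intro n hn
        obtain ⟨a1, a2, a3⟩ := hγ n hn
        have h3 : 1 + |((⌊u⌋ - (n : ℤ) : ℤ) : ℝ)| ≤ 4 * (1 + |u - γ n|) := by
          have h4 : ((⌊u⌋ - (n : ℤ) : ℤ) : ℝ) = (u - γ n) + ((⌊u⌋ : ℝ) - u) + (γ n - n) := by
            push_cast; ring
          have h5 : |((⌊u⌋ - (n : ℤ) : ℤ) : ℝ)| ≤ |u - γ n| + |(⌊u⌋ : ℝ) - u| + |γ n - n| := by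
            rw [h4]
            exact abs_add_three _ _ _
          have h6 : |(⌊u⌋ : ℝ) - u| ≤ 1 := by
            have f1 := Int.floor_le u
            have f2 := Int.lt_floor_add_one u
            rw [abs_le]
            constructor <;> linarith
          have h7 : |γ n - n| ≤ 1 := by
            rw [abs_le]
            constructor <;> linarith
          have := abs_nonneg (u - γ n)
          linarith
        have h8 : (1 + |((⌊u⌋ - (n : ℤ) : ℤ) : ℝ)|) / 4 ≤ 1 + |u - γ n| := by linarith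
        calc (1 + |u - γ n|) ^ (-b) ≤ ((1 + |((⌊u⌋ - (n : ℤ) : ℤ) : ℝ)|) / 4) ^ (-b) :=
              Real.rpow_le_rpow_of_nonpos (by positivity) h8 (by linarith)
          _ = _ := by
            rw [Real.div_rpow (by positivity) (by norm_num), Real.rpow_neg (x := 4) (by norm_num)]
            field_simp
      have h3 : ∑ n ∈ Q, (1 + |((⌊u⌋ - (n : ℤ) : ℤ) : ℝ)|) ^ (-b) ≤ Z := by
        have h4 : ∑ n ∈ Q, (1 + |((⌊u⌋ - (n : ℤ) : ℤ) : ℝ)|) ^ (-b) =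
            ∑ m ∈ Q.image (fun n : ℕ => ⌊u⌋ - (n : ℤ)), (1 + |(m : ℝ)|) ^ (-b) := by
          rw [Finset.sum_image]
          intro n _ n' _ hnn
          simp only at hnn
          omega
        rw [h4, hZ]
        exact (int_sum hb1).sum_le_tsum _ fun m _ => by positivity
      calc ∑ n ∈ Q, (1 + |u - γ n|) ^ (-b) ≤ ∑ n ∈ Q, 4 ^ b * (1 + |((⌊u⌋ - (n : ℤ) : ℤ) : ℝ)|) ^ (-b) :=
            Finset.sum_le_sum h2
        _ = 4 ^ b * ∑ n ∈ Q, (1 + |((⌊u⌋ - (n : ℤ) : ℤ) : ℝ)|) ^ (-b) := (Finset.mul_sum _ _ _).symm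
        _ ≤ 4 ^ b * Z := mul_le_mul_of_nonneg_left h3 (by positivity)
    have h2 : 1 ≤ 7 ^ b * (T ^ b * (1 + |u|) ^ (-b)) := by
      have h3 : (1 + |u|) ^ b ≤ 7 ^ b * T ^ b := by
        rw [← Real.mul_rpow (by norm_num) hT0.le]
        exact Real.rpow_le_rpow (by positivity) (by linarith) (by linarith)
      rw [Real.rpow_neg (by positivity), ← mul_assoc, ← div_eq_mul_inv, le_div_iff₀ (by positivity), one_mul]
      exact h3
    calc ∑ n ∈ Q, (1 + |u - γ n|) ^ (-b) ≤ 4 ^ b * Z * 1 := by rw [mul_one]; exact h1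
      _ ≤ 4 ^ b * Z * (7 ^ b * (T ^ b * (1 + |u|) ^ (-b))) := mul_le_mul_of_nonneg_left h2 (by positivity)
      _ = (4 ^ b * Z * 7 ^ b) * (T ^ b * (1 + |u|) ^ (-b)) := by ring
      _ ≤ (4 ^ b * Z * 7 ^ b + 4 * 2 ^ b) * (T ^ b * (1 + |u|) ^ (-b)) := by
          apply mul_le_mul_of_nonneg_right _ hw0
          have : (0 : ℝ) ≤ 4 * 2 ^ b := by positivity
          linarith
      _ = _ := by ring
  · have hcard : (Q.card : ℝ) ≤ 4 * T ^ b := by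
      have h1 : Q ⊆ Finset.range (⌊3 * T⌋₊ + 1) := by
        intro n hn
        rw [Finset.mem_range]
        have h2 : (n : ℝ) ≤ 3 * T := (hγ n hn).1.trans (hγ n hn).2.2
        exact Nat.lt_succ_of_le (Nat.le_floor h2)
      have h2 := Finset.card_le_card h1
      rw [Finset.card_range] at h2
      have h3 : (Q.card : ℝ) ≤ ⌊3 * T⌋₊ + 1 := by exact_mod_cast h2
      have h4 := Nat.floor_le (show 0 ≤ 3 * T by positivity)
      have h5 : T ≤ T ^ b := by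
        calc T = T ^ (1 : ℝ) := (Real.rpow_one T).symm
          _ ≤ _ := Real.rpow_le_rpow_of_exponent_le hT hb1.le
      linarith
    have h2 : ∀ n ∈ Q, (1 + |u - γ n|) ^ (-b) ≤ 2 ^ b * (1 + |u|) ^ (-b) := by
      intro n hn
      obtain ⟨a1, a2, a3⟩ := hγ n hn
      have hg0 : 0 ≤ γ n := le_trans n.cast_nonneg a1
      have h3 : |u| - γ n ≤ |u - γ n| := by
        have := abs_sub_abs_le_abs_sub u (γ n)
        rw [abs_of_nonneg hg0] at this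
        exact this
      have h8 : (1 + |u|) / 2 ≤ 1 + |u - γ n| := by linarith
      calc (1 + |u - γ n|) ^ (-b) ≤ ((1 + |u|) / 2) ^ (-b) :=
            Real.rpow_le_rpow_of_nonpos (by positivity) h8 (by linarith)
        _ = _ := by
          rw [Real.div_rpow (by positivity) (by norm_num), Real.rpow_neg (x := 2) (by norm_num)]
          field_simp
    calc ∑ n ∈ Q, (1 + |u - γ n|) ^ (-b) ≤ ∑ n ∈ Q, 2 ^ b * (1 + |u|) ^ (-b) := Finset.sum_le_sum h2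
      _ = Q.card * (2 ^ b * (1 + |u|) ^ (-b)) := by rw [Finset.sum_const, nsmul_eq_mul]
      _ ≤ (4 * T ^ b) * (2 ^ b * (1 + |u|) ^ (-b)) := mul_le_mul_of_nonneg_right hcard (by positivity)
      _ = (4 * 2 ^ b) * (T ^ b * (1 + |u|) ^ (-b)) := by ring
      _ ≤ (4 ^ b * Z * 7 ^ b + 4 * 2 ^ b) * (T ^ b * (1 + |u|) ^ (-b)) := by
          apply mul_le_mul_of_nonneg_right _ hw0
          have : (0 : ℝ) ≤ 4 ^ b * Z * 7 ^ b := by positivity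
          linarith
      _ = _ := by ring

/-- **few exceptional windows** -/
theorem bad_count {κ : ℝ} (hκ : 0 < κ) : ∃ C : ℝ, 0 < C ∧ ∀ T : ℝ, 1 ≤ T → ∀ (Q : Finset ℕ) (γ : ℕ → ℝ),
    (∀ n ∈ Q, (n : ℝ) ≤ γ n ∧ γ n ≤ n + 1 ∧ γ n ≤ 3 * T) → ∀ V : ℝ, 0 ≤ V → (∀ n ∈ Q, V ≤ G κ (γ n)) →
      (Q.card : ℝ) * V ^ 4 ≤ C * T ^ (1 + κ) := by
  obtain ⟨C₁, hC₁, h₁⟩ := weight_sum hκ
  obtain ⟨J, hJ⟩ : ∃ J : ℝ, J = ∫ y : ℝ, (1 + |y|) ^ (-(1 + κ)) := ⟨_, rfl⟩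
  have hJ0 : 0 < J := by rw [hJ]; exact w_pos (by linarith)
  obtain ⟨W, hW⟩ : ∃ W : ℝ, W = ∫ u : ℝ, ‖riemannZeta (1 / 2 + (u : ℂ) * I)‖ ^ 4 * (1 + |u|) ^ (-(1 + κ)) :=
    ⟨_, rfl⟩
  have hW0 : 0 ≤ W := by rw [hW]; exact integral_nonneg fun u => by positivity
  refine ⟨J ^ 3 * C₁ * W + 1, by positivity, fun T hT Q γ hγ V hV hG => ?_⟩
  have h2 : (Q.card : ℝ) * V ^ 4 ≤ ∑ n ∈ Q, G κ (γ n) ^ 4 := by
    calc (Q.card : ℝ) * V ^ 4 = ∑ n ∈ Q, V ^ 4 := by rw [Finset.sum_const, nsmul_eq_mul]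
      _ ≤ _ := Finset.sum_le_sum fun n hn => pow_le_pow_left₀ hV (hG n hn) 4
  have h3 : ∑ n ∈ Q, G κ (γ n) ^ 4 ≤ J ^ 3 * ∫ u : ℝ, ‖riemannZeta (1 / 2 + (u : ℂ) * I)‖ ^ 4 *
      ∑ n ∈ Q, (1 + |u - γ n|) ^ (-(1 + κ)) := by
    calc ∑ n ∈ Q, G κ (γ n) ^ 4 ≤ ∑ n ∈ Q, J ^ 3 * ∫ u : ℝ, ‖riemannZeta (1 / 2 + (u : ℂ) * I)‖ ^ 4 *
          (1 + |u - γ n|) ^ (-(1 + κ)) := Finset.sum_le_sum fun n _ => by rw [hJ]; exact G_four hκ (γ n)
      _ = J ^ 3 * ∑ n ∈ Q, ∫ u : ℝ, ‖riemannZeta (1 / 2 + (u : ℂ) * I)‖ ^ 4 *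
          (1 + |u - γ n|) ^ (-(1 + κ)) := (Finset.mul_sum _ _ _).symm
      _ = _ := by
          rw [← integral_finsetSum _ fun n _ => weighted_shift hκ (γ n)]
          congr 2
          ext u
          rw [Finset.mul_sum]
  have h4 : ∫ u : ℝ, ‖riemannZeta (1 / 2 + (u : ℂ) * I)‖ ^ 4 * ∑ n ∈ Q, (1 + |u - γ n|) ^ (-(1 + κ)) ≤
      (C₁ * T ^ (1 + κ)) * W := by
    rw [hW, ← integral_const_mul]
    refine integral_mono_of_nonneg (Eventually.of_forall fun u => ?_) ((weighted hκ).const_mul _)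
      (Eventually.of_forall fun u => ?_)
    · exact mul_nonneg (by positivity) (Finset.sum_nonneg fun n _ => by positivity)
    · have h5 := h₁ T hT Q γ hγ u
      calc ‖riemannZeta (1 / 2 + (u : ℂ) * I)‖ ^ 4 * ∑ n ∈ Q, (1 + |u - γ n|) ^ (-(1 + κ))
          ≤ ‖riemannZeta (1 / 2 + (u : ℂ) * I)‖ ^ 4 * (C₁ * T ^ (1 + κ) * (1 + |u|) ^ (-(1 + κ))) :=
            mul_le_mul_of_nonneg_left h5 (by positivity)
        _ = _ := by ring
  calc (Q.card : ℝ) * V ^ 4 ≤ J ^ 3 * ((C₁ * T ^ (1 + κ)) * W) :=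
        h2.trans (h3.trans (mul_le_mul_of_nonneg_left h4 (by positivity)))
    _ = (J ^ 3 * C₁ * W) * T ^ (1 + κ) := by ring
    _ ≤ _ := by
        apply mul_le_mul_of_nonneg_right _ (by positivity)
        linarith

end Pool.Agent.TH804.SD
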