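import Pool.Agent.TH804.SS7

/-! The sections under the Lindelöf hypothesis: bounds. -/

set_option autoImplicit false

open Complex MeasureTheory Filter Topology

namespace Pool.Agent.TH804.SS

open Pool.Agent.H448R2.GC

/-- LH for all heights -/
lemma LH_all (hLH : LH) {κ : ℝ} (hκ : 0 < κ) : ∃ C : ℝ, 0 < C ∧ ∀ u : ℝ,
    ‖riemannZeta (1 / 2 + (u : ℂ) * I)‖ ≤ C * (1 + |u|) ^ κ := by
  obtain ⟨C, hC⟩ := hLH κ hκ
  have hcont : ContinuousOn (fun t : ℝ => ‖riemannZeta (1 / 2 + t * I)‖) (Set.Icc (-1) 1) := by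
    intro t _
    apply ContinuousAt.continuousWithinAt
    have hne : (1 / 2 + t * I : ℂ) ≠ 1 := by
      intro h
      have := congrArg Complex.re h
      norm_num at this
    have h2 : ContinuousAt riemannZeta (1 / 2 + t * I) := (differentiableAt_riemannZeta hne).continuousAt
    have h3 : ContinuousAt (fun t : ℝ => (1 / 2 + t * I : ℂ)) t := by fun_prop
    exact (ContinuousAt.comp (f := fun t : ℝ => (1 / 2 + t * I : ℂ)) (g := riemannZeta) h2 h3).norm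
  obtain ⟨K, hK⟩ := isCompact_Icc.exists_bound_of_continuousOn hcont
  refine ⟨|C| + |K| + 1, by positivity, fun u => ?_⟩
  have h1 : 1 ≤ (1 + |u|) ^ κ := Real.one_le_rpow (by linarith [abs_nonneg u]) hκ.le
  rcases le_or_gt 1 |u| with h | h
  · calc ‖riemannZeta (1 / 2 + (u : ℂ) * I)‖ ≤ C * |u| ^ κ := hC u h
      _ ≤ |C| * |u| ^ κ := mul_le_mul_of_nonneg_right (le_abs_self C) (by positivity)
      _ ≤ |C| * (1 + |u|) ^ κ := by
          apply mul_le_mul_of_nonneg_left _ (abs_nonneg C)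
          exact Real.rpow_le_rpow (abs_nonneg u) (by linarith) hκ.le
      _ ≤ (|C| + |K| + 1) * (1 + |u|) ^ κ := by
          apply mul_le_mul_of_nonneg_right _ (by positivity)
          linarith [abs_nonneg K]
  · have h2 := hK u (abs_le.1 h.le)
    rw [norm_norm] at h2
    calc ‖riemannZeta (1 / 2 + (u : ℂ) * I)‖ ≤ K := h2
      _ ≤ (|C| + |K| + 1) * 1 := by linarith [le_abs_self K, abs_nonneg C]
      _ ≤ _ := mul_le_mul_of_nonneg_left h1 (by positivity)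

/-- zeta and its section are close under LH (up to small powers) -/
theorem diff_bound (hLH : LH) {δ κ : ℝ} (hδ : 0 < δ) (hκ : 0 < κ) : ∃ C : ℝ, 0 < C ∧ ∀ T : ℝ, 4 ≤ T →
    ∀ N : ℕ, 1 ≤ N → (N : ℝ) ≤ T * T → ∀ s : ℂ, 1 / 2 + δ ≤ s.re → s.re ≤ 2 → T / 2 ≤ |s.im| → |s.im| ≤ 2 * T →
      ‖riemannZeta s - sec N s‖ ≤ C * T ^ κ := by
  obtain ⟨k, hk, hid⟩ := shift_half
  obtain ⟨κ₁, hκ₁⟩ : ∃ κ₁ : ℝ, κ₁ = min (κ / 7) (1 / 2) := ⟨_, rfl⟩
  have hκ0 : 0 < κ₁ := by rw [hκ₁]; positivity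
  have hκa : 7 * κ₁ ≤ κ := by
    have : κ₁ ≤ κ / 7 := by rw [hκ₁]; exact min_le_left _ _
    linarith
  have hκb : κ₁ ≤ 1 / 2 := by rw [hκ₁]; exact min_le_right _ _
  obtain ⟨C₁, hC₁, hz⟩ := LH_all hLH hκ0
  obtain ⟨J, hJ⟩ : ∃ J : ℝ, J = ∫ y : ℝ, (1 + |y|) ^ (-(1 + κ₁)) := ⟨_, rfl⟩
  have hint : Integrable (fun y : ℝ => (1 + |y|) ^ (-(1 + κ₁))) := by
    have h1 := integrable_one_add_norm (E := ℝ) (μ := volume) (r := 1 + κ₁) (by simp; linarith)
    simpa using h1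
  have hJ0 : 0 ≤ J := by rw [hJ]; exact integral_nonneg fun y => by positivity
  have hk0 : (0 : ℝ) < k := by exact_mod_cast hk
  have hk1 : (1 : ℝ) ≤ k := by exact_mod_cast hk
  obtain ⟨W, hW⟩ : ∃ W : ℝ, W = C₁ * 3 * (3 ^ k * k) * (5 / (2 * δ)) := ⟨_, rfl⟩
  have hW0 : 0 < W := by rw [hW]; positivity
  refine ⟨W * J + 2 * (3 * 3 ^ k), by positivity, fun T hT N hN1 hN2 s hs1 hs2 hs3 hs4 => ?_⟩
  have hT0 : 0 < T := by linarith
  have hN0 : (0 : ℝ) < N := by exact_mod_cast hN1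
  have hN1' : (1 : ℝ) ≤ N := by exact_mod_cast hN1
  obtain ⟨c, hc⟩ : ∃ c : ℝ, c = 1 / (k * T ^ 3) := ⟨_, rfl⟩
  have hc0 : 0 < c := by rw [hc]; positivity
  have hkc : (k : ℝ) * c = 1 / T ^ 3 := by rw [hc]; field_simp
  have hT3 : 64 ≤ T ^ 3 := by
    calc (64 : ℝ) = 4 ^ 3 := by norm_num
      _ ≤ T ^ 3 := pow_le_pow_left₀ (by norm_num) hT 3
  have hc1 : c ≤ 1 := by
    rw [hc, div_le_one (by positivity)]
    nlinarith
  have hkc1 : (k : ℝ) * c ≤ 1 / 64 := by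
    rw [hkc]
    exact one_div_le_one_div_of_le (by norm_num) hT3
  obtain ⟨D, hD⟩ : ∃ D : ℝ, D = Real.log N := ⟨_, rfl⟩
  have hD0 : 0 ≤ D := by rw [hD]; exact Real.log_nonneg hN1'
  have hexpD : Real.exp D = N := by rw [hD, Real.exp_log hN0]
  have hNexp : Real.exp (D + k * c) < N + 1 := by
    rw [Real.exp_add, hexpD]
    have h1 := Real.exp_bound_div_one_sub_of_interval (x := k * c) (by positivity) (by linarith)
    have h2 : 0 < 1 - (k : ℝ) * c := by linarith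
    calc (N : ℝ) * Real.exp (k * c) ≤ N * (1 / (1 - k * c)) := mul_le_mul_of_nonneg_left h1 hN0.le
      _ < N + 1 := by
        rw [mul_one_div, div_lt_iff₀ h2, hkc]
        have h3 : ((N : ℝ) + 1) * (1 / T ^ 3) < 1 := by
          rw [mul_one_div, div_lt_one (by positivity)]
          nlinarith
        nlinarith
  have hcs : cs k c D s = sec N s := cs_eq_sec k c D hc0 N hNexp (by rw [hD]) s
  obtain ⟨x, hx⟩ : ∃ x : ℝ, x = s.re - 1 / 2 := ⟨_, rfl⟩
  have hxδ : δ ≤ x := by linarith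
  have hx0 : 0 < x := by linarith
  have hx2 : x ≤ 3 / 2 := by linarith
  have hne : s ≠ 1 := by
    intro h
    rw [h] at hs3
    simp at hs3
    linarith
  have hmain := hid c D hc0 s x hx hx0 hx2 hne
  rw [hcs] at hmain
  -- the integral
  have hpt : ∀ y : ℝ, ‖riemannZeta (s + (((-x : ℝ) : ℂ) + (y : ℂ) * I)) *
      Pool.Agent.H448R2.GC.ker k c D (-x) y‖ ≤ (W * T ^ (7 * κ₁)) * (1 + |y|) ^ (-(1 + κ₁)) := by
    intro y
    rw [norm_mul]
    have e1 : s + (((-x : ℝ) : ℂ) + (y : ℂ) * I) = 1 / 2 + ((s.im + y : ℝ) : ℂ) * I := by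
      apply Complex.ext
      · simp [hx]
      · simp
    rw [e1]
    have hy0 := abs_nonneg y
    have hy1 : 0 < 1 + |y| := by linarith
    have a1 : ‖riemannZeta (1 / 2 + ((s.im + y : ℝ) : ℂ) * I)‖ ≤ C₁ * (3 * T ^ κ₁ * (1 + |y|) ^ κ₁) := by
      refine (hz _).trans (mul_le_mul_of_nonneg_left ?_ hC₁.le)
      calc (1 + |s.im + y|) ^ κ₁ ≤ ((3 * T) * (1 + |y|)) ^ κ₁ := by
            apply Real.rpow_le_rpow (by positivity) _ hκ0.le
            refine (S4.one_add_abs_le _ _).trans ?_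
            apply mul_le_mul_of_nonneg_right _ hy1.le
            linarith
        _ = 3 ^ κ₁ * T ^ κ₁ * (1 + |y|) ^ κ₁ := by
            rw [Real.mul_rpow (by positivity) hy1.le, Real.mul_rpow (by norm_num) hT0.le]
        _ ≤ 3 * T ^ κ₁ * (1 + |y|) ^ κ₁ := by
            have h3 : (3 : ℝ) ^ κ₁ ≤ 3 := by
              calc (3 : ℝ) ^ κ₁ ≤ 3 ^ (1 : ℝ) := Real.rpow_le_rpow_of_exponent_le (by norm_num) (by linarith)
                _ = 3 := Real.rpow_one 3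
            gcongr
    obtain ⟨r, hr⟩ : ∃ r : ℝ, r = ‖((-x : ℝ) : ℂ) + (y : ℂ) * I‖ := ⟨_, rfl⟩
    have hrx : x ≤ r := by
      have := Complex.abs_re_le_norm (((-x : ℝ) : ℂ) + (y : ℂ) * I)
      rw [← hr] at this
      simp only [Complex.add_re, Complex.ofReal_re, Complex.mul_re, Complex.I_re, mul_zero,
        Complex.ofReal_im, Complex.I_im, mul_one, sub_self, add_zero, abs_neg] at this
      rwa [abs_of_pos hx0] at this
    have hry : |y| ≤ r := by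
      have := Complex.abs_im_le_norm (((-x : ℝ) : ℂ) + (y : ℂ) * I)
      rw [← hr] at this
      simpa using this
    have hr0 : 0 < r := by linarith
    have a2 : ‖Pool.Agent.H448R2.GC.ker k c D (-x) y‖ ≤
        (3 ^ k * (c * (1 + |y|)) ^ (-(2 * κ₁))) * (5 / (2 * δ) * (1 + |y|)⁻¹) := by
      refine (Pool.Agent.H448R2.GC.ker_bound k c D (-x) y hc0).trans ?_
      rw [max_eq_right (by linarith), mul_zero, add_zero, ← hr]
      have b1 : Real.exp (D * -x) ≤ 1 := Real.exp_le_one_iff.2 (by nlinarith)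
      have b2 : (3 / (1 + c * r)) ^ k ≤ 3 ^ k * (c * (1 + |y|)) ^ (-(2 * κ₁)) := by
        rw [div_pow, div_eq_mul_inv]
        apply mul_le_mul_of_nonneg_left _ (by positivity)
        have h1 : 1 ≤ 1 + c * r := by nlinarith
        have h2 : c * (1 + |y|) ≤ 1 + c * r := by nlinarith
        have h3 : 0 < c * (1 + |y|) := by positivity
        calc ((1 + c * r) ^ k)⁻¹ ≤ (1 + c * r)⁻¹ := by
              apply inv_anti₀ (by positivity)
              exact le_self_pow₀ h1 (by omega)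
          _ = (1 + c * r) ^ (-1 : ℝ) := by rw [Real.rpow_neg_one]
          _ ≤ (1 + c * r) ^ (-(2 * κ₁)) := Real.rpow_le_rpow_of_exponent_le h1 (by linarith)
          _ ≤ (c * (1 + |y|)) ^ (-(2 * κ₁)) :=
              Real.rpow_le_rpow_of_nonpos h3 h2 (by linarith)
      have b3 : 1 / r ≤ 5 / (2 * δ) * (1 + |y|)⁻¹ := by
        rw [← div_eq_mul_inv, div_div, div_le_div_iff₀ hr0 (by positivity)]
        have h4 : 2 * δ * |y| ≤ 3 * r := by
          have : δ * |y| ≤ 3 / 2 * |y| := mul_le_mul_of_nonneg_right (by linarith) hy0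
          linarith
        linarith
      rw [div_eq_mul_one_div]
      calc Real.exp (D * -x) * (3 / (1 + c * r)) ^ k * (1 / r)
          ≤ 1 * (3 ^ k * (c * (1 + |y|)) ^ (-(2 * κ₁))) * (5 / (2 * δ) * (1 + |y|)⁻¹) := by gcongr
        _ = _ := by ring
    have a3 : c ^ (-(2 * κ₁)) ≤ k * T ^ (6 * κ₁) := by
      have h1 : c = (k * T ^ 3)⁻¹ := by rw [hc, one_div]
      rw [h1, Real.rpow_neg (by positivity), Real.inv_rpow (by positivity), inv_inv,
        Real.mul_rpow (by positivity) (by positivity)]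
      have h2 : (k : ℝ) ^ (2 * κ₁) ≤ k := by
        calc (k : ℝ) ^ (2 * κ₁) ≤ k ^ (1 : ℝ) := Real.rpow_le_rpow_of_exponent_le hk1 (by linarith)
          _ = k := Real.rpow_one _
      have h3 : (T ^ 3) ^ (2 * κ₁) = T ^ (6 * κ₁) := by
        rw [← Real.rpow_natCast T 3, ← Real.rpow_mul hT0.le]
        congr 1
        push_cast
        ring
      rw [h3]
      exact mul_le_mul_of_nonneg_right h2 (by positivity)
    have a4 : (c * (1 + |y|)) ^ (-(2 * κ₁)) = c ^ (-(2 * κ₁)) * (1 + |y|) ^ (-(2 * κ₁)) :=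
      Real.mul_rpow hc0.le hy1.le
    have a5 : (1 + |y|) ^ κ₁ * ((1 + |y|) ^ (-(2 * κ₁)) * (1 + |y|)⁻¹) = (1 + |y|) ^ (-(1 + κ₁)) := by
      rw [← Real.rpow_neg_one, ← Real.rpow_add hy1, ← Real.rpow_add hy1]
      congr 1
      ring
    have a6 : T ^ κ₁ * T ^ (6 * κ₁) = T ^ (7 * κ₁) := by rw [← Real.rpow_add hT0]; congr 1; ring
    calc ‖riemannZeta (1 / 2 + ((s.im + y : ℝ) : ℂ) * I)‖ * ‖Pool.Agent.H448R2.GC.ker k c D (-x) y‖
        ≤ (C₁ * (3 * T ^ κ₁ * (1 + |y|) ^ κ₁)) *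
          ((3 ^ k * (c * (1 + |y|)) ^ (-(2 * κ₁))) * (5 / (2 * δ) * (1 + |y|)⁻¹)) := by gcongr
      _ = C₁ * 3 * (3 ^ k) * (5 / (2 * δ)) * T ^ κ₁ * c ^ (-(2 * κ₁)) *
          ((1 + |y|) ^ κ₁ * ((1 + |y|) ^ (-(2 * κ₁)) * (1 + |y|)⁻¹)) := by rw [a4]; ring
      _ ≤ C₁ * 3 * (3 ^ k) * (5 / (2 * δ)) * T ^ κ₁ * (k * T ^ (6 * κ₁)) *
          ((1 + |y|) ^ κ₁ * ((1 + |y|) ^ (-(2 * κ₁)) * (1 + |y|)⁻¹)) := by gcongr
      _ = C₁ * 3 * (3 ^ k * k) * (5 / (2 * δ)) * (T ^ κ₁ * T ^ (6 * κ₁)) *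
          ((1 + |y|) ^ κ₁ * ((1 + |y|) ^ (-(2 * κ₁)) * (1 + |y|)⁻¹)) := by ring
      _ = (W * T ^ (7 * κ₁)) * (1 + |y|) ^ (-(1 + κ₁)) := by rw [a5, a6, hW]
  have hT7 : T ^ (7 * κ₁) ≤ T ^ κ := Real.rpow_le_rpow_of_exponent_le (by linarith) hκa
  have hT1 : 1 ≤ T ^ κ := Real.one_le_rpow (by linarith) hκ.le
  have hI : ‖(1 / (2 * (Real.pi : ℂ))) * ∫ y : ℝ, riemannZeta (s + (((-x : ℝ) : ℂ) + (y : ℂ) * I)) *
      Pool.Agent.H448R2.GC.ker k c D (-x) y‖ ≤ W * J * T ^ κ := by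
    rw [norm_mul]
    have h2 : ‖(1 / (2 * (Real.pi : ℂ)))‖ ≤ 1 := by
      rw [norm_div, norm_one, norm_mul, Complex.norm_real, Real.norm_of_nonneg Real.pi_pos.le]
      rw [Complex.norm_ofNat, div_le_one (by positivity)]
      linarith [Real.pi_gt_three]
    have h3 : ‖∫ y : ℝ, riemannZeta (s + (((-x : ℝ) : ℂ) + (y : ℂ) * I)) *
      Pool.Agent.H448R2.GC.ker k c D (-x) y‖ ≤ W * T ^ (7 * κ₁) * J := by
      refine (norm_integral_le_of_norm_le (hint.const_mul _) (Eventually.of_forall hpt)).trans_eq ?_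
      rw [integral_const_mul, hJ]
    calc ‖(1 / (2 * (Real.pi : ℂ)))‖ * ‖∫ y : ℝ, riemannZeta (s + (((-x : ℝ) : ℂ) + (y : ℂ) * I)) *
      Pool.Agent.H448R2.GC.ker k c D (-x) y‖ ≤ 1 * (W * T ^ (7 * κ₁) * J) := by gcongr
      _ = W * J * T ^ (7 * κ₁) := by ring
      _ ≤ W * J * T ^ κ := by gcongr
  -- the pole
  have hpole : ‖cexp ((D : ℂ) * (1 - s)) * Ps k c (1 - s) / (1 - s)‖ ≤ 2 * (3 * 3 ^ k) := by
    rw [norm_div, norm_mul]
    have hn1 : T / 2 ≤ ‖1 - s‖ := by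
      have := Complex.abs_im_le_norm (1 - s)
      rw [Complex.sub_im, Complex.one_im, zero_sub, abs_neg] at this
      linarith
    have b1 : ‖cexp ((D : ℂ) * (1 - s))‖ ≤ T := by
      rw [Complex.norm_exp]
      have h1 : ((D : ℂ) * (1 - s)).re = D * (1 - s.re) := by simp
      rw [h1]
      calc Real.exp (D * (1 - s.re)) ≤ Real.exp (D * (1 / 2)) := Real.exp_le_exp.2 (by nlinarith)
        _ = Real.exp D ^ (1 / 2 : ℝ) := by rw [← Real.exp_mul]
        _ = (N : ℝ) ^ (1 / 2 : ℝ) := by rw [hexpD]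
        _ ≤ (T * T) ^ (1 / 2 : ℝ) := Real.rpow_le_rpow hN0.le hN2 (by norm_num)
        _ = T := by rw [← Real.sqrt_eq_rpow, Real.sqrt_mul_self hT0.le]
    have b2 : ‖Ps k c (1 - s)‖ ≤ 3 * 3 ^ k := by
      refine (Pool.Agent.H448R2.GC.Ps_bound k c hc0 (1 - s)).trans ?_
      have h1 : Real.exp (k * c * max (1 - s).re 0) ≤ 3 := by
        have h2 : max (1 - s).re 0 ≤ 1 := by
          rw [Complex.sub_re, Complex.one_re]
          exact max_le (by linarith) zero_le_one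
        have h3 : k * c * max (1 - s).re 0 ≤ 1 := by
          have : 0 ≤ max (1 - s).re 0 := le_max_right _ _
          nlinarith
        calc Real.exp (k * c * max (1 - s).re 0) ≤ Real.exp 1 := Real.exp_le_exp.2 h3
          _ ≤ 3 := by linarith [Real.exp_one_lt_d9]
      have h4 : (3 / (1 + c * ‖1 - s‖)) ^ k ≤ 3 ^ k := by
        apply pow_le_pow_left₀ (by positivity)
        apply div_le_self (by norm_num)
        have : 0 ≤ c * ‖1 - s‖ := by positivity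
        linarith
      exact mul_le_mul h1 h4 (by positivity) (by norm_num)
    rw [div_le_iff₀ (by linarith)]
    calc ‖cexp ((D : ℂ) * (1 - s))‖ * ‖Ps k c (1 - s)‖ ≤ T * (3 * 3 ^ k) := by gcongr
      _ = 2 * (3 * 3 ^ k) * (T / 2) := by ring
      _ ≤ 2 * (3 * 3 ^ k) * ‖1 - s‖ := by gcongr
  have hfin : riemannZeta s - sec N s = -((1 / (2 * (Real.pi : ℂ))) * ∫ y : ℝ,
      riemannZeta (s + (((-x : ℝ) : ℂ) + (y : ℂ) * I)) * Pool.Agent.H448R2.GC.ker k c D (-x) y) -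
      cexp ((D : ℂ) * (1 - s)) * Ps k c (1 - s) / (1 - s) := by
    linear_combination hmain
  rw [hfin]
  refine (norm_sub_le _ _).trans ?_
  rw [norm_neg]
  calc _ ≤ W * J * T ^ κ + 2 * (3 * 3 ^ k) * 1 := by linarith
    _ ≤ W * J * T ^ κ + 2 * (3 * 3 ^ k) * T ^ κ := by gcongr
    _ = _ := by ring

/-- the sections are small under LH -/
theorem sec_LH (hLH : LH) {δ κ : ℝ} (hδ : 0 < δ) (hκ : 0 < κ) : ∃ C : ℝ, 0 < C ∧ ∀ T : ℝ, 4 ≤ T →
    ∀ N : ℕ, 1 ≤ N → (N : ℝ) ≤ T * T → ∀ s : ℂ, 1 / 2 + δ ≤ s.re → T / 2 ≤ |s.im| → |s.im| ≤ 2 * T →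
      ‖sec N s‖ ≤ C * T ^ κ := by
  obtain ⟨C, hC, h⟩ := diff_bound hLH hδ hκ
  obtain ⟨l, A, hl, hl1, hA, hright⟩ := sec_right
  refine ⟨A + 1 + 2 * C, by positivity, fun T hT N hN1 hN2 s hs1 hs3 hs4 => ?_⟩
  have hT1 : 1 ≤ T ^ κ := Real.one_le_rpow (by linarith) hκ.le
  rcases le_or_gt 2 s.re with h2 | h2
  · calc ‖sec N s‖ ≤ A := (hright N hN1 s (by linarith)).1
      _ ≤ (A + 1 + 2 * C) * 1 := by linarith
      _ ≤ _ := mul_le_mul_of_nonneg_left hT1 (by positivity)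
  · have h3 := h T hT N hN1 hN2 s hs1 h2.le hs3 hs4
    have h4 := h T hT 1 le_rfl (by norm_num; nlinarith) s hs1 h2.le hs3 hs4
    have h5 : sec 1 s = 1 := by unfold sec; simp
    rw [h5] at h4
    have h6 : ‖sec N s‖ ≤ ‖riemannZeta s - sec N s‖ + ‖riemannZeta s - 1‖ + 1 := by
      have e : sec N s = -(riemannZeta s - sec N s) + (riemannZeta s - 1) + 1 := by ring
      calc ‖sec N s‖ = ‖-(riemannZeta s - sec N s) + (riemannZeta s - 1) + 1‖ := by rw [← e]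
        _ ≤ ‖-(riemannZeta s - sec N s)‖ + ‖riemannZeta s - 1‖ + ‖(1 : ℂ)‖ := norm_add₃_le
        _ = _ := by rw [norm_neg, norm_one]
    have h7 : (A + 1 + 2 * C) * T ^ κ = A * T ^ κ + T ^ κ + 2 * (C * T ^ κ) := by ring
    rw [h7]
    have h8 : 0 ≤ A * T ^ κ := by positivity
    linarith

end Pool.Agent.TH804.SS
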