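import Pool.Agent.TH804.SD5
import Pool.Agent.TH804.SS8

/-! The difference of zeta and its sections, unconditionally. -/

set_option autoImplicit false

open Complex MeasureTheory Filter Topology

namespace Pool.Agent.TH804.SD

open Pool.Agent.TH804.SS
open Pool.Agent.H448R2.GC

/-- the difference of zeta and a section -/
theorem diff_G {δ κ : ℝ} (hδ : 0 < δ) (hκ : 0 < κ) (hκ1 : κ ≤ 1) : ∃ C : ℝ, 0 < C ∧ ∀ T : ℝ, 4 ≤ T →
    ∀ N : ℕ, 1 ≤ N → (N : ℝ) ≤ T * T → ∀ s : ℂ, 1 / 2 + δ ≤ s.re → s.re ≤ 2 → T / 2 ≤ |s.im| →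
      ‖riemannZeta s - sec N s‖ ≤ C * (T ^ (3 * κ) * (N : ℝ) ^ (-(s.re - 1 / 2)) * G κ s.im +
        (N : ℝ) ^ (1 - s.re) / T) := by
  obtain ⟨k, hk, hid⟩ := shift_half
  have hk0 : (0 : ℝ) < k := by exact_mod_cast hk
  have hk1 : (1 : ℝ) ≤ k := by exact_mod_cast hk
  obtain ⟨W, hW⟩ : ∃ W : ℝ, W = 3 ^ k * k * (5 / (2 * δ)) := ⟨_, rfl⟩
  have hW0 : 0 < W := by rw [hW]; positivity
  refine ⟨W + 2 * (3 * 3 ^ k), by positivity, fun T hT N hN1 hN2 s hs1 hs2 hs3 => ?_⟩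
  have hT0 : 0 < T := by linarith
  have hN0 : (0 : ℝ) < N := by exact_mod_cast hN1
  have hN1' : (1 : ℝ) ≤ N := by exact_mod_cast hN1
  obtain ⟨c, hc⟩ : ∃ c : ℝ, c = 1 / (k * T ^ 3) := ⟨_, rfl⟩
  have hc0 : 0 < c := by rw [hc]; positivity
  have hkc : (k : ℝ) * c = 1 / T ^ 3 := by rw [hc]; field_simp
  have hT3 : 64 ≤ T ^ 3 := by
    calc (64 : ℝ) = 4 ^ 3 := by norm_num
      _ ≤ T ^ 3 := pow_le_pow_left₀ (by norm_num) hT 3
  have hc1 : c ≤ 1 := by
    rw [hc, div_le_one (by positivity)]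
    nlinarith
  have hkc1 : (k : ℝ) * c ≤ 1 / 64 := by
    rw [hkc]
    exact one_div_le_one_div_of_le (by norm_num) hT3
  obtain ⟨D, hD⟩ : ∃ D : ℝ, D = Real.log N := ⟨_, rfl⟩
  have hD0 : 0 ≤ D := by rw [hD]; exact Real.log_nonneg hN1'
  have hexpD : Real.exp D = N := by rw [hD, Real.exp_log hN0]
  have hNexp : Real.exp (D + k * c) < N + 1 := by
    rw [Real.exp_add, hexpD]
    have h1 := Real.exp_bound_div_one_sub_of_interval (x := k * c) (by positivity) (by linarith)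
    have h2 : 0 < 1 - (k : ℝ) * c := by linarith
    calc (N : ℝ) * Real.exp (k * c) ≤ N * (1 / (1 - k * c)) := mul_le_mul_of_nonneg_left h1 hN0.le
      _ < N + 1 := by
        rw [mul_one_div, div_lt_iff₀ h2, hkc]
        have h3 : ((N : ℝ) + 1) * (1 / T ^ 3) < 1 := by
          rw [mul_one_div, div_lt_one (by positivity)]
          nlinarith
        nlinarith
  have hcs : cs k c D s = sec N s := cs_eq_sec k c D hc0 N hNexp (by rw [hD]) s
  obtain ⟨x, hx⟩ : ∃ x : ℝ, x = s.re - 1 / 2 := ⟨_, rfl⟩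
  have hxδ : δ ≤ x := by linarith
  have hx0 : 0 < x := by linarith
  have hx2 : x ≤ 3 / 2 := by linarith
  have hne : s ≠ 1 := by
    intro h
    rw [h] at hs3
    simp at hs3
    linarith
  have hmain := hid c D hc0 s x hx hx0 hx2 hne
  rw [hcs] at hmain
  -- the integral
  have hG0 : 0 ≤ G κ s.im := integral_nonneg fun u => by positivity
  have hNx : Real.exp (D * -x) = (N : ℝ) ^ (-x) := by
    rw [Real.rpow_def_of_pos hN0, hD]
  have hpt : ∀ y : ℝ, ‖riemannZeta (s + (((-x : ℝ) : ℂ) + (y : ℂ) * I)) *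
      Pool.Agent.H448R2.GC.ker k c D (-x) y‖ ≤ (W * T ^ (3 * κ) * (N : ℝ) ^ (-x)) *
        (‖riemannZeta (1 / 2 + ((y + s.im : ℝ) : ℂ) * I)‖ * (1 + |y|) ^ (-(1 + κ))) := by
    intro y
    rw [norm_mul]
    have e1 : s + (((-x : ℝ) : ℂ) + (y : ℂ) * I) = 1 / 2 + ((y + s.im : ℝ) : ℂ) * I := by
      apply Complex.ext
      · simp [hx]
      · simp [add_comm]
    rw [e1]
    have hy0 := abs_nonneg y
    have hy1 : 0 < 1 + |y| := by linarith
    obtain ⟨r, hr⟩ : ∃ r : ℝ, r = ‖((-x : ℝ) : ℂ) + (y : ℂ) * I‖ := ⟨_, rfl⟩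
    have hrx : x ≤ r := by
      have := Complex.abs_re_le_norm (((-x : ℝ) : ℂ) + (y : ℂ) * I)
      rw [← hr] at this
      simp only [Complex.add_re, Complex.ofReal_re, Complex.mul_re, Complex.I_re, mul_zero,
        Complex.ofReal_im, Complex.I_im, mul_one, sub_self, add_zero, abs_neg] at this
      rwa [abs_of_pos hx0] at this
    have hry : |y| ≤ r := by
      have := Complex.abs_im_le_norm (((-x : ℝ) : ℂ) + (y : ℂ) * I)
      rw [← hr] at this
      simpa using this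
    have hr0 : 0 < r := by linarith
    have a2 : ‖Pool.Agent.H448R2.GC.ker k c D (-x) y‖ ≤
        (N : ℝ) ^ (-x) * (3 ^ k * (c * (1 + |y|)) ^ (-κ)) * (5 / (2 * δ) * (1 + |y|)⁻¹) := by
      refine (Pool.Agent.H448R2.GC.ker_bound k c D (-x) y hc0).trans ?_
      rw [max_eq_right (by linarith), mul_zero, add_zero, ← hr, hNx]
      have b2 : (3 / (1 + c * r)) ^ k ≤ 3 ^ k * (c * (1 + |y|)) ^ (-κ) := by
        rw [div_pow, div_eq_mul_inv]
        apply mul_le_mul_of_nonneg_left _ (by positivity)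
        have h1 : 1 ≤ 1 + c * r := by nlinarith
        have h2 : c * (1 + |y|) ≤ 1 + c * r := by nlinarith
        have h3 : 0 < c * (1 + |y|) := by positivity
        calc ((1 + c * r) ^ k)⁻¹ ≤ (1 + c * r)⁻¹ := by
              apply inv_anti₀ (by positivity)
              exact le_self_pow₀ h1 (by omega)
          _ = (1 + c * r) ^ (-1 : ℝ) := by rw [Real.rpow_neg_one]
          _ ≤ (1 + c * r) ^ (-κ) := Real.rpow_le_rpow_of_exponent_le h1 (by linarith)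
          _ ≤ (c * (1 + |y|)) ^ (-κ) :=
              Real.rpow_le_rpow_of_nonpos h3 h2 (by linarith)
      have b3 : 1 / r ≤ 5 / (2 * δ) * (1 + |y|)⁻¹ := by
        rw [← div_eq_mul_inv, div_div, div_le_div_iff₀ hr0 (by positivity)]
        have h4 : 2 * δ * |y| ≤ 3 * r := by
          have : δ * |y| ≤ 3 / 2 * |y| := mul_le_mul_of_nonneg_right (by linarith) hy0
          linarith
        linarith
      rw [div_eq_mul_one_div]
      gcongr
    have a3 : c ^ (-κ) ≤ k * T ^ (3 * κ) := by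
      have h1 : c = (k * T ^ 3)⁻¹ := by rw [hc, one_div]
      rw [h1, Real.rpow_neg (by positivity), Real.inv_rpow (by positivity), inv_inv,
        Real.mul_rpow (by positivity) (by positivity)]
      have h2 : (k : ℝ) ^ κ ≤ k := by
        calc (k : ℝ) ^ κ ≤ k ^ (1 : ℝ) := Real.rpow_le_rpow_of_exponent_le hk1 (by linarith)
          _ = k := Real.rpow_one _
      have h3 : (T ^ 3) ^ κ = T ^ (3 * κ) := by
        rw [← Real.rpow_natCast T 3, ← Real.rpow_mul hT0.le]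
        congr 1
      rw [h3]
      exact mul_le_mul_of_nonneg_right h2 (by positivity)
    have a4 : (c * (1 + |y|)) ^ (-κ) = c ^ (-κ) * (1 + |y|) ^ (-κ) :=
      Real.mul_rpow hc0.le hy1.le
    have a5 : (1 + |y|) ^ (-κ) * (1 + |y|)⁻¹ = (1 + |y|) ^ (-(1 + κ)) := by
      rw [← Real.rpow_neg_one, ← Real.rpow_add hy1]
      congr 1
      ring
    calc ‖riemannZeta (1 / 2 + ((y + s.im : ℝ) : ℂ) * I)‖ * ‖Pool.Agent.H448R2.GC.ker k c D (-x) y‖
        ≤ ‖riemannZeta (1 / 2 + ((y + s.im : ℝ) : ℂ) * I)‖ *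
          ((N : ℝ) ^ (-x) * (3 ^ k * (c * (1 + |y|)) ^ (-κ)) * (5 / (2 * δ) * (1 + |y|)⁻¹)) := by gcongr
      _ = 3 ^ k * (5 / (2 * δ)) * (N : ℝ) ^ (-x) * c ^ (-κ) *
          (‖riemannZeta (1 / 2 + ((y + s.im : ℝ) : ℂ) * I)‖ * ((1 + |y|) ^ (-κ) * (1 + |y|)⁻¹)) := by
          rw [a4]; ring
      _ ≤ 3 ^ k * (5 / (2 * δ)) * (N : ℝ) ^ (-x) * (k * T ^ (3 * κ)) *
          (‖riemannZeta (1 / 2 + ((y + s.im : ℝ) : ℂ) * I)‖ * ((1 + |y|) ^ (-κ) * (1 + |y|)⁻¹)) := by gcongr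
      _ = _ := by rw [a5, hW]; ring
  have hGeq : ∫ y : ℝ, ‖riemannZeta (1 / 2 + ((y + s.im : ℝ) : ℂ) * I)‖ * (1 + |y|) ^ (-(1 + κ)) = G κ s.im := by
    have h1 := integral_add_right_eq_self (μ := volume)
      (fun u : ℝ => ‖riemannZeta (1 / 2 + (u : ℂ) * I)‖ * (1 + |u - s.im|) ^ (-(1 + κ))) s.im
    unfold G
    rw [← h1]
    congr 1
    ext y
    rw [add_sub_cancel_right]
  have hGint : Integrable (fun y : ℝ => ‖riemannZeta (1 / 2 + ((y + s.im : ℝ) : ℂ) * I)‖ *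
      (1 + |y|) ^ (-(1 + κ))) := by
    have h1 := (G_int hκ s.im).comp_add_right s.im
    refine h1.congr (Eventually.of_forall fun y => ?_)
    simp only
    rw [add_sub_cancel_right]
  have hI : ‖(1 / (2 * (Real.pi : ℂ))) * ∫ y : ℝ, riemannZeta (s + (((-x : ℝ) : ℂ) + (y : ℂ) * I)) *
      Pool.Agent.H448R2.GC.ker k c D (-x) y‖ ≤ W * (T ^ (3 * κ) * (N : ℝ) ^ (-x) * G κ s.im) := by
    rw [norm_mul]
    have h2 : ‖(1 / (2 * (Real.pi : ℂ)))‖ ≤ 1 := by
      rw [norm_div, norm_one, norm_mul, Complex.norm_real, Real.norm_of_nonneg Real.pi_pos.le]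
      rw [Complex.norm_ofNat, div_le_one (by positivity)]
      linarith [Real.pi_gt_three]
    have h3 : ‖∫ y : ℝ, riemannZeta (s + (((-x : ℝ) : ℂ) + (y : ℂ) * I)) *
      Pool.Agent.H448R2.GC.ker k c D (-x) y‖ ≤ W * T ^ (3 * κ) * (N : ℝ) ^ (-x) * G κ s.im := by
      refine (norm_integral_le_of_norm_le (hGint.const_mul _) (Eventually.of_forall hpt)).trans_eq ?_
      rw [integral_const_mul, hGeq]
    calc ‖(1 / (2 * (Real.pi : ℂ)))‖ * ‖∫ y : ℝ, riemannZeta (s + (((-x : ℝ) : ℂ) + (y : ℂ) * I)) *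
      Pool.Agent.H448R2.GC.ker k c D (-x) y‖ ≤ 1 * (W * T ^ (3 * κ) * (N : ℝ) ^ (-x) * G κ s.im) := by gcongr
      _ = _ := by ring
  -- the pole
  have hpole : ‖cexp ((D : ℂ) * (1 - s)) * Ps k c (1 - s) / (1 - s)‖ ≤
      2 * (3 * 3 ^ k) * ((N : ℝ) ^ (1 - s.re) / T) := by
    rw [norm_div, norm_mul]
    have hn1 : T / 2 ≤ ‖1 - s‖ := by
      have := Complex.abs_im_le_norm (1 - s)
      rw [Complex.sub_im, Complex.one_im, zero_sub, abs_neg] at this
      linarith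
    have b1 : ‖cexp ((D : ℂ) * (1 - s))‖ = (N : ℝ) ^ (1 - s.re) := by
      rw [Complex.norm_exp]
      have h1 : ((D : ℂ) * (1 - s)).re = D * (1 - s.re) := by simp
      rw [h1, Real.rpow_def_of_pos hN0, hD]
    have b2 : ‖Ps k c (1 - s)‖ ≤ 3 * 3 ^ k := by
      refine (Pool.Agent.H448R2.GC.Ps_bound k c hc0 (1 - s)).trans ?_
      have h1 : Real.exp (k * c * max (1 - s).re 0) ≤ 3 := by
        have h2 : max (1 - s).re 0 ≤ 1 := by
          rw [Complex.sub_re, Complex.one_re]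
          exact max_le (by linarith) zero_le_one
        have h3 : k * c * max (1 - s).re 0 ≤ 1 := by
          have : 0 ≤ max (1 - s).re 0 := le_max_right _ _
          nlinarith
        calc Real.exp (k * c * max (1 - s).re 0) ≤ Real.exp 1 := Real.exp_le_exp.2 h3
          _ ≤ 3 := by linarith [Real.exp_one_lt_d9]
      have h4 : (3 / (1 + c * ‖1 - s‖)) ^ k ≤ 3 ^ k := by
        apply pow_le_pow_left₀ (by positivity)
        apply div_le_self (by norm_num)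
        have : 0 ≤ c * ‖1 - s‖ := by positivity
        linarith
      exact mul_le_mul h1 h4 (by positivity) (by norm_num)
    rw [b1, div_le_iff₀ (by linarith)]
    calc (N : ℝ) ^ (1 - s.re) * ‖Ps k c (1 - s)‖ ≤ (N : ℝ) ^ (1 - s.re) * (3 * 3 ^ k) := by gcongr
      _ = 2 * (3 * 3 ^ k) * ((N : ℝ) ^ (1 - s.re) / T) * (T / 2) := by field_simp
      _ ≤ 2 * (3 * 3 ^ k) * ((N : ℝ) ^ (1 - s.re) / T) * ‖1 - s‖ := by gcongr
  have hfin : riemannZeta s - sec N s = -((1 / (2 * (Real.pi : ℂ))) * ∫ y : ℝ,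
      riemannZeta (s + (((-x : ℝ) : ℂ) + (y : ℂ) * I)) * Pool.Agent.H448R2.GC.ker k c D (-x) y) -
      cexp ((D : ℂ) * (1 - s)) * Ps k c (1 - s) / (1 - s) := by
    linear_combination hmain
  rw [hfin]
  refine (norm_sub_le _ _).trans ?_
  rw [norm_neg]
  have e1 : (N : ℝ) ^ (-(s.re - 1 / 2)) = (N : ℝ) ^ (-x) := by rw [hx]
  rw [e1]
  have p1 : 0 ≤ T ^ (3 * κ) * (N : ℝ) ^ (-x) * G κ s.im := by positivity
  have p2 : 0 ≤ (N : ℝ) ^ (1 - s.re) / T := by positivity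
  calc _ ≤ W * (T ^ (3 * κ) * (N : ℝ) ^ (-x) * G κ s.im) +
        2 * (3 * 3 ^ k) * ((N : ℝ) ^ (1 - s.re) / T) := add_le_add hI hpole
    _ ≤ (W + 2 * (3 * 3 ^ k)) * (T ^ (3 * κ) * (N : ℝ) ^ (-x) * G κ s.im) +
        (W + 2 * (3 * 3 ^ k)) * ((N : ℝ) ^ (1 - s.re) / T) := by
        have : 0 ≤ 2 * (3 * (3 : ℝ) ^ k) := by positivity
        gcongr
        · linarith
        · linarith
    _ = _ := by ring

end Pool.Agent.TH804.SD
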