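import Pool.Agent.TH804.SS1
import Pool.Agent.H31R2.DH.Back
import Pool.Agent.H31R2.DH.BackZeta

/-! Zero-free windows: both bounds. -/

set_option autoImplicit false

open Complex Metric Set Filter Topology

namespace Pool.Agent.TH804.SD

open Pool.Agent.TH804.SS DH31

/-- a function without zeros in a disc, abstract form -/
lemma zf_abs {f : ℂ → ℂ} {c : ℂ} {ϱ δ l M A : ℝ} (hl : 0 < l) (hlϱ : l ≤ ϱ) (hδ : 0 < δ) (hM1 : 1 ≤ M)
    (hA1 : 1 ≤ A) (hf : AnalyticOnNhd ℂ f (closedBall c (ϱ + 3 * δ)))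
    (hM : ∀ z ∈ closedBall c (ϱ + 3 * δ), ‖f z‖ ≤ M)
    (hA : ∀ z ∈ closedBall c l, ‖f z‖ ≤ A) (ha : 1 / A ≤ ‖f c‖)
    (h0 : ∀ z ∈ closedBall c (ϱ + 3 * δ), f z ≠ 0) (K : ℕ) {z : ℂ} (hz : z ∈ closedBall c ϱ) :
    |Real.log ‖f z‖| ≤ Real.log A + (2 * (2 * Real.log A + 1)) * ∑ n ∈ Finset.range K, (ϱ / (l / 2)) ^ n +
      (2 * (Real.log M + Real.log A + 1) * (ϱ + 2 * δ) / δ) * (ϱ / (ϱ + 2 * δ)) ^ K /
        (1 - ϱ / (ϱ + 2 * δ)) := by
  have hϱ : 0 < ϱ := by linarith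
  have hM0 : 0 < M := by linarith
  have hA0 : 0 < A := by linarith
  have hlM : 0 ≤ Real.log M := Real.log_nonneg hM1
  have hlA : 0 ≤ Real.log A := Real.log_nonneg hA1
  have hfc0 : 0 < ‖f c‖ := lt_of_lt_of_le (by positivity) ha
  have hfc : f c ≠ 0 := norm_pos_iff.1 hfc0
  have hfcA : 1 ≤ A * ‖f c‖ := by
    rw [div_le_iff₀ hA0] at ha
    linarith
  obtain ⟨h, hh, hhc, hgh⟩ := exists_log (g := f) (c := c) (r := ϱ + 3 * δ) (by positivity)
    (hf.mono ball_subset_closedBall) (fun w hw => h0 w (ball_subset_closedBall hw))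
  have hb1 : ∀ w ∈ closedBall c (ϱ + 2 * δ), ‖h w‖ ≤ 2 * (Real.log M + Real.log A + 1) * (ϱ + 2 * δ) / δ := by
    intro w hw
    have := bc_log (g := f) (h := h) (c := c) (r := ϱ + 3 * δ) (r' := ϱ + 3 * δ) (r1 := ϱ + 2 * δ)
      (B := Real.log M + Real.log A) (by positivity) (by linarith) le_rfl (by positivity) hfc hh hhc hgh
      (fun v hv => by
        rw [Real.exp_add, Real.exp_log hM0, Real.exp_log hA0]
        calc ‖f v‖ ≤ M * 1 := by rw [mul_one]; exact hM v (ball_subset_closedBall hv)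
          _ ≤ M * (A * ‖f c‖) := by gcongr
          _ = _ := by ring) hw
    have e1 : ϱ + 3 * δ - (ϱ + 2 * δ) = δ := by ring
    rw [e1] at this
    exact this
  have hb2 : ∀ w ∈ closedBall c (l / 2), ‖h w‖ ≤ 2 * (2 * Real.log A + 1) := by
    intro w hw
    have := bc_log (g := f) (h := h) (c := c) (r := ϱ + 3 * δ) (r' := l) (r1 := l / 2)
      (B := 2 * Real.log A) (by positivity) (by linarith) (by linarith) (by positivity) hfc hh hhc hgh
      (fun v hv => by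
        have e1 : Real.exp (2 * Real.log A) = A * A := by
          rw [two_mul, Real.exp_add, Real.exp_log hA0]
        rw [e1]
        calc ‖f v‖ ≤ A * 1 := by rw [mul_one]; exact hA v (ball_subset_closedBall hv)
          _ ≤ A * (A * ‖f c‖) := by gcongr
          _ = _ := by ring) hw
    have e1 : 2 * (2 * Real.log A + 1) * (l / 2) / (l - l / 2) = 2 * (2 * Real.log A + 1) := by
      have : l - l / 2 = l / 2 := by ring
      rw [this]
      field_simp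
    rw [e1] at this
    exact this
  have hz' : ‖z - c‖ ≤ ϱ := by rwa [mem_closedBall, dist_eq_norm] at hz
  have hcirc := circle_bound (f := h) (c := c) (z := z) (r := ϱ) (s0 := l / 2) (s := ϱ + 2 * δ) (R := ϱ + 3 * δ)
    (m := 2 * (2 * Real.log A + 1)) (M := 2 * (Real.log M + Real.log A + 1) * (ϱ + 2 * δ) / δ)
    (by positivity) (by positivity) hϱ.le (by linarith) (by linarith) (by linarith) hh
    (fun w hw => hb2 w (sphere_subset_closedBall hw)) (fun w hw => hb1 w (sphere_subset_closedBall hw)) hz' K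
  have hzb : z ∈ ball c (ϱ + 3 * δ) := by
    rw [mem_ball, dist_eq_norm]; linarith
  have hval : Real.log ‖f z‖ = Real.log ‖f c‖ + (h z).re := by
    rw [hgh z hzb, norm_mul, Complex.norm_exp, Real.log_mul hfc0.ne' (Real.exp_pos _).ne', Real.log_exp]
  have hlogc : |Real.log ‖f c‖| ≤ Real.log A := by
    rw [abs_le]
    constructor
    · have h1 := Real.log_le_log (by positivity) ha
      rw [one_div, Real.log_inv] at h1
      exact h1
    · exact Real.log_le_log hfc0 (hA c (mem_closedBall_self hl.le))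
  rw [hval]
  calc |Real.log ‖f c‖ + (h z).re| ≤ |Real.log ‖f c‖| + |(h z).re| := abs_add_le _ _
    _ ≤ Real.log A + ‖h z‖ := add_le_add hlogc (Complex.abs_re_le_norm _)
    _ ≤ _ := by linarith

/-- a function without zeros in a disc -/
theorem zf_T {l A a δ κ : ℝ} (hl : 0 < l) (hA1 : 1 ≤ A) (ha : 0 ≤ a) (hδ : 0 < δ) (hκ : 0 < κ) :
    ∃ T₀ : ℝ, ∀ T : ℝ, T₀ ≤ T → ∀ (f : ℂ → ℂ) (c : ℂ) (ϱ : ℝ), l ≤ ϱ → ϱ ≤ 2 →
      AnalyticOnNhd ℂ f (closedBall c (ϱ + 3 * δ)) → (∀ z ∈ closedBall c (ϱ + 3 * δ), ‖f z‖ ≤ T ^ a) →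
      (∀ z ∈ closedBall c l, ‖f z‖ ≤ A) → 1 / A ≤ ‖f c‖ → (∀ z ∈ closedBall c (ϱ + 3 * δ), f z ≠ 0) →
      ∀ z ∈ closedBall c ϱ, T ^ (-κ) ≤ ‖f z‖ ∧ ‖f z‖ ≤ T ^ κ := by
  have hlA : 0 ≤ Real.log A := Real.log_nonneg hA1
  obtain ⟨q, hq⟩ : ∃ q : ℝ, q = 2 / (2 + 2 * δ) := ⟨_, rfl⟩
  have hq0 : 0 ≤ q := by rw [hq]; positivity
  have hq1 : q < 1 := by rw [hq, div_lt_one (by positivity)]; linarith
  obtain ⟨D, hD⟩ : ∃ D : ℝ, D = 2 * (a + 1) * (2 + 2 * δ) / δ * ((2 + 2 * δ) / (2 * δ)) := ⟨_, rfl⟩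
  have hD0 : 0 < D := by rw [hD]; positivity
  obtain ⟨K, hK⟩ := exists_pow_lt_of_lt_one (show 0 < κ / 2 / D by positivity) hq1
  rw [lt_div_iff₀ hD0] at hK
  obtain ⟨S, hS⟩ : ∃ S : ℝ, S = ∑ n ∈ Finset.range K, (2 / (l / 2)) ^ n := ⟨_, rfl⟩
  have hS0 : 0 ≤ S := by rw [hS]; exact Finset.sum_nonneg fun n _ => by positivity
  obtain ⟨E, hE⟩ : ∃ E : ℝ, E = Real.log A + (2 * (2 * Real.log A + 1)) * S := ⟨_, rfl⟩
  have hE0 : 0 ≤ E := by rw [hE]; positivity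
  refine ⟨max (max 2 (Real.exp (Real.log A + 1))) (Real.exp (2 * E / κ)), ?_⟩
  intro T hT f c ϱ hϱ1 hϱ2 hf hM hA hfc h0 z hz
  have hT2 : 2 ≤ T := (le_max_left _ _).trans ((le_max_left _ _).trans hT)
  have hTA : Real.exp (Real.log A + 1) ≤ T := (le_max_right _ _).trans ((le_max_left _ _).trans hT)
  have hTE : Real.exp (2 * E / κ) ≤ T := (le_max_right _ _).trans hT
  have hT0 : 0 < T := by linarith
  obtain ⟨L, hL⟩ : ∃ L : ℝ, L = Real.log T := ⟨_, rfl⟩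
  have hLA : Real.log A + 1 ≤ L := by rw [hL, Real.le_log_iff_exp_le hT0]; exact hTA
  have hLE : 2 * E / κ ≤ L := by rw [hL, Real.le_log_iff_exp_le hT0]; exact hTE
  rw [div_le_iff₀ hκ] at hLE
  have hL0 : 0 < L := by linarith
  have hϱ0 : 0 < ϱ := by linarith
  have key := zf_abs hl hϱ1 hδ (Real.one_le_rpow (by linarith) ha) hA1 hf hM hA hfc h0 K hz
  rw [Real.log_rpow hT0, ← hL] at key
  have e1 : ∑ n ∈ Finset.range K, (ϱ / (l / 2)) ^ n ≤ S := by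
    rw [hS]
    refine Finset.sum_le_sum fun n _ => ?_
    gcongr
  have e2 : (2 * (a * L + Real.log A + 1) * (ϱ + 2 * δ) / δ) * (ϱ / (ϱ + 2 * δ)) ^ K /
        (1 - ϱ / (ϱ + 2 * δ)) ≤ κ / 2 * L := by
    have f1 : a * L + Real.log A + 1 ≤ (a + 1) * L := by linarith
    have f2 : ϱ / (ϱ + 2 * δ) ≤ q := by
      rw [hq, div_le_div_iff₀ (by positivity) (by positivity)]
      nlinarith
    have f3 : 1 - ϱ / (ϱ + 2 * δ) = (2 * δ) / (ϱ + 2 * δ) := by field_simp; ring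
    have f4 : (0 : ℝ) ≤ a * L + Real.log A + 1 := by positivity
    have f5 : (ϱ / (ϱ + 2 * δ)) ^ K ≤ q ^ K := pow_le_pow_left₀ (by positivity) f2 K
    rw [f3, div_eq_mul_inv, inv_div]
    calc (2 * (a * L + Real.log A + 1) * (ϱ + 2 * δ) / δ) * (ϱ / (ϱ + 2 * δ)) ^ K * ((ϱ + 2 * δ) / (2 * δ))
        ≤ (2 * ((a + 1) * L) * (2 + 2 * δ) / δ) * q ^ K * ((2 + 2 * δ) / (2 * δ)) := by gcongr
      _ = (q ^ K * D) * L := by rw [hD]; ring
      _ ≤ κ / 2 * L := mul_le_mul_of_nonneg_right hK.le hL0.le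
  have key2 : |Real.log ‖f z‖| ≤ κ * L := by
    have f6 : Real.log A + (2 * (2 * Real.log A + 1)) * ∑ n ∈ Finset.range K, (ϱ / (l / 2)) ^ n ≤ E := by
      rw [hE]
      gcongr
    linarith
  have hfz : 0 < ‖f z‖ := norm_pos_iff.2 (h0 z (closedBall_subset_closedBall (by linarith) hz))
  have h1 := abs_le.1 key2
  constructor
  · rw [Real.rpow_def_of_pos hT0, ← hL, ← Real.le_log_iff_exp_le hfz]
    linarith [h1.1]
  · rw [Real.rpow_def_of_pos hT0, ← hL, ← Real.log_le_iff_le_exp hfz]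
    linarith [h1.2]

/-- sections in zero-free windows -/
theorem sec_window {δ κ a : ℝ} (hδ : 0 < δ) (hδ1 : δ ≤ 1 / 12) (hκ : 0 < κ) (ha : 0 ≤ a) :
    ∃ T₀ : ℝ, ∀ T : ℝ, T₀ ≤ T → ∀ N : ℕ, 1 ≤ N → (N : ℝ) ≤ T ^ a → ∀ σ : ℝ, 1 / 2 ≤ σ → σ ≤ 1 → ∀ t : ℝ,
      (∀ z : ℂ, σ - 3 * δ ≤ z.re → |z.im - t| ≤ 2 → sec N z ≠ 0) → ∀ s : ℂ, σ ≤ s.re → s.im = t →
        T ^ (-κ) ≤ ‖sec N s‖ ∧ ‖sec N s‖ ≤ T ^ κ := by
  obtain ⟨l, A, hl, hl1, hA, hright⟩ := sec_right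
  obtain ⟨T₁, h₁⟩ := zf_T (l := l) (A := A) (a := a) (δ := δ) (κ := κ) hl hA ha hδ hκ
  obtain ⟨T₂, h₂⟩ := Filter.eventually_atTop.1 ((tendsto_rpow_atTop hκ).eventually_ge_atTop A)
  refine ⟨max (max T₁ T₂) 1, ?_⟩
  intro T hT N hN1 hN2 σ hσ1 hσ2 t h0 s hs1 hs2
  have hT₁ : T₁ ≤ T := (le_max_left _ _).trans ((le_max_left _ _).trans hT)
  have hT₂ : T₂ ≤ T := (le_max_right _ _).trans ((le_max_left _ _).trans hT)
  have hT1 : 1 ≤ T := (le_max_right _ _).trans hT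
  have hT0 : 0 < T := by linarith
  rcases le_or_gt s.re 2 with h | h
  · refine h₁ T hT₁ (sec N) ⟨2, t⟩ (2 - σ) (by linarith) (by linarith) (fun z _ => sec_analytic N z) ?_ ?_ ?_ ?_ s ?_
    · intro z hz
      have h3 := ball_re_im hz
      exact (sec_crude N (by linarith)).trans hN2
    · intro z hz
      have h3 := ball_re_im hz
      exact (hright N hN1 z (by linarith)).1
    · exact (hright N hN1 ⟨2, t⟩ (by simp only; linarith)).2
    · intro z hz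
      have h3 := ball_re_im hz
      exact h0 z (by linarith) (by linarith [h3.2])
    · rw [mem_closedBall, dist_eq_norm]
      have e1 : s - ⟨2, t⟩ = ((s.re - 2 : ℝ) : ℂ) := by
        apply Complex.ext <;> simp [hs2]
      rw [e1, Complex.norm_real, Real.norm_eq_abs, abs_of_nonpos (by linarith)]
      linarith
  · have h3 := hright N hN1 s (by linarith)
    have h4 := h₂ T hT₂
    refine ⟨?_, h3.1.trans h4⟩
    refine le_trans ?_ h3.2
    rw [Real.rpow_neg hT0.le, ← one_div]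
    exact one_div_le_one_div_of_le (by linarith) h4

/-- zeta in zero-free windows -/
theorem zeta_window {δ κ : ℝ} (hδ : 0 < δ) (hδ1 : δ ≤ 1 / 12) (hκ : 0 < κ) :
    ∃ T₀ : ℝ, ∀ T : ℝ, T₀ ≤ T → ∀ σ : ℝ, 1 / 2 ≤ σ → σ ≤ 1 → ∀ t : ℝ, 4 ≤ t → t ≤ 4 * T →
      (∀ z : ℂ, σ - 3 * δ ≤ z.re → |z.im - t| ≤ 2 → riemannZeta z ≠ 0) → ∀ s : ℂ, σ ≤ s.re → s.im = t →
        T ^ (-κ) ≤ ‖riemannZeta s‖ ∧ ‖riemannZeta s‖ ≤ T ^ κ := by
  obtain ⟨A, hA, hright⟩ := zeta_bounds (a := 7 / 4) (by norm_num)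
  obtain ⟨T₁, h₁⟩ := zf_T (l := 1 / 4) (A := A) (a := 2) (δ := δ) (κ := κ) (by norm_num) hA (by norm_num) hδ hκ
  obtain ⟨T₂, h₂⟩ := Filter.eventually_atTop.1 ((tendsto_rpow_atTop hκ).eventually_ge_atTop A)
  refine ⟨max (max T₁ T₂) 60, ?_⟩
  intro T hT σ hσ1 hσ2 t ht1 ht2 h0 s hs1 hs2
  have hT₁ : T₁ ≤ T := (le_max_left _ _).trans ((le_max_left _ _).trans hT)
  have hT₂ : T₂ ≤ T := (le_max_right _ _).trans ((le_max_left _ _).trans hT)
  have hT60 : 60 ≤ T := (le_max_right _ _).trans hT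
  have hT0 : 0 < T := by linarith
  have him : ∀ z ∈ closedBall (⟨2, t⟩ : ℂ) (2 - σ + 3 * δ), 1 / 4 ≤ z.re ∧ z.re ≤ 4 ∧ 1 ≤ z.im ∧ z.im ≤ 4 * T + 2 := by
    intro z hz
    have h3 := ball_re_im hz
    have h4 := abs_le.1 h3.2
    rw [mem_closedBall, dist_eq_norm] at hz
    have h5 := Complex.abs_re_le_norm (z - ⟨2, t⟩)
    simp only [Complex.sub_re] at h5
    have h6 := abs_le.1 (h5.trans hz)
    exact ⟨by linarith, by linarith, by linarith, by linarith⟩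
  rcases le_or_gt s.re 2 with h | h
  · refine h₁ T hT₁ riemannZeta ⟨2, t⟩ (2 - σ) (by linarith) (by linarith)
      (fun z hz => zeta_analyticAt (by linarith [(him z hz).2.2.1])) ?_ ?_ ?_ ?_ s ?_
    · intro z hz
      obtain ⟨h3, h4, h5, h6⟩ := him z hz
      refine (Pool.Agent.H388LH.zeta_growth h3 h5).trans ?_
      have h7 : ‖z‖ ≤ 4 + (4 * T + 2) := by
        refine (Complex.norm_le_abs_re_add_abs_im z).trans ?_
        rw [abs_of_nonneg (by linarith), abs_of_nonneg (by linarith)]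
        linarith
      rw [show (2 : ℝ) = ((2 : ℕ) : ℝ) by norm_num, Real.rpow_natCast]
      nlinarith
    · intro z hz
      have h3 := ball_re_im hz
      exact (hright z (by linarith)).1
    · exact (hright ⟨2, t⟩ (by simp only; norm_num)).2
    · intro z hz
      have h3 := ball_re_im hz
      exact h0 z (by linarith) (by linarith [h3.2])
    · rw [mem_closedBall, dist_eq_norm]
      have e1 : s - ⟨2, t⟩ = ((s.re - 2 : ℝ) : ℂ) := by
        apply Complex.ext <;> simp [hs2]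
      rw [e1, Complex.norm_real, Real.norm_eq_abs, abs_of_nonpos (by linarith)]
      linarith
  · have h3 := hright s (by linarith)
    have h4 := h₂ T hT₂
    refine ⟨?_, h3.1.trans h4⟩
    refine le_trans ?_ h3.2
    rw [Real.rpow_neg hT0.le, ← one_div]
    exact one_div_le_one_div_of_le (by linarith) h4

end Pool.Agent.TH804.SD
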