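import Pool.Agent.TH804.SD6
import Pool.Agent.TH804.SD7
import Pool.Agent.H31R2.DH.Assemble

/-! Counting zeros by windows. -/

set_option autoImplicit false

open Complex Metric Set Filter Topology

namespace Pool.Agent.TH804.SD

open Pool.Agent.TH804.SS DH31 H370 H370.Loc

/-- number of zeros of `f` in `A` with multiplicity -/
noncomputable def cntf (f : ℂ → ℂ) (A : Set ℂ) : ℕ := ∑ᶠ s ∈ A, analyticOrderNatAt f s

lemma cntf_eq {f : ℂ → ℂ} {A : Set ℂ} (hA : A.Finite) :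
    cntf f A = ∑ s ∈ hA.toFinset, analyticOrderNatAt f s :=
  finsum_mem_eq_finite_toFinset_sum _ hA

lemma cntf_mono {f : ℂ → ℂ} {A B : Set ℂ} (hB : B.Finite) (h : A ⊆ B) : cntf f A ≤ cntf f B := by
  rw [cntf_eq (hB.subset h), cntf_eq hB]
  exact Finset.sum_le_sum_of_subset (by
    intro x hx
    rw [Set.Finite.mem_toFinset] at hx ⊢
    exact h hx)

lemma cntf_union {f : ℂ → ℂ} {A B : Set ℂ} (hA : A.Finite) (hB : B.Finite) :
    cntf f (A ∪ B) ≤ cntf f A + cntf f B := by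
  classical
  rw [cntf_eq (hA.union hB), cntf_eq hA, cntf_eq hB]
  have h1 : (hA.union hB).toFinset ⊆ hA.toFinset ∪ hB.toFinset := by
    intro x hx
    rw [Set.Finite.mem_toFinset] at hx
    rw [Finset.mem_union, Set.Finite.mem_toFinset, Set.Finite.mem_toFinset]
    exact hx
  refine (Finset.sum_le_sum_of_subset h1).trans ?_
  rw [← Finset.sum_union_inter]
  exact Nat.le_add_right _ _

/-- the window of a point -/
noncomputable def wi (z : ℂ) : ℕ := ⌈z.im⌉₊ - 1

lemma wi_spec {z : ℂ} (hz : 0 < z.im) : (wi z : ℝ) < z.im ∧ z.im ≤ wi z + 1 := by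
  unfold wi
  have hceil : 1 ≤ ⌈z.im⌉₊ := Nat.one_le_iff_ne_zero.2 (by
    intro h; rw [Nat.ceil_eq_zero] at h; linarith)
  have hn1 : ((⌈z.im⌉₊ - 1 : ℕ) : ℝ) + 1 = (⌈z.im⌉₊ : ℝ) := by
    push_cast [Nat.cast_sub hceil]; ring
  have := Nat.ceil_lt_add_one (show 0 ≤ z.im by linarith)
  constructor
  · linarith
  · rw [hn1]; exact Nat.le_ceil _

/-- counting by windows -/
lemma win_count {f : ℂ → ℂ} {A : Set ℂ} {B : ℝ} (hA : A.Finite) (hpos : ∀ z ∈ A, 0 < z.im)
    (hB : ∀ n : ℕ, ∀ W : Finset ℂ, (∀ z ∈ W, z ∈ A ∧ (n : ℝ) < z.im ∧ z.im ≤ n + 1) →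
      ∑ z ∈ W, (analyticOrderNatAt f z : ℝ) ≤ B) :
    (cntf f A : ℝ) ≤ ((hA.toFinset.image wi).card : ℝ) * B := by
  classical
  rw [cntf_eq hA, ← Finset.sum_fiberwise_of_maps_to (t := hA.toFinset.image wi) (g := wi)
    (fun x hx => Finset.mem_image_of_mem wi hx)]
  push_cast
  calc ∑ n ∈ hA.toFinset.image wi, ∑ z ∈ hA.toFinset.filter (fun z => wi z = n), (analyticOrderNatAt f z : ℝ)
      ≤ ∑ n ∈ hA.toFinset.image wi, B := by
        refine Finset.sum_le_sum fun n _ => hB n _ fun z hz => ?_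
        rw [Finset.mem_filter, Set.Finite.mem_toFinset] at hz
        have := wi_spec (hpos z hz.1)
        rw [hz.2] at this
        exact ⟨hz.1, this.1, this.2⟩
    _ = _ := by rw [Finset.sum_const, nsmul_eq_mul]

/-- points attached to windows -/
lemma class_count {f : ℂ → ℂ} {B : Set ℂ} (hB : B.Finite) (hord : ∀ z ∈ B, 1 ≤ analyticOrderNatAt f z)
    (Q : Finset ℕ) (z : ℕ → ℂ) (hz : ∀ n ∈ Q, z n ∈ B ∧ |(z n).im - n| ≤ 3) :
    (Q.card : ℝ) ≤ 8 * (cntf f B : ℝ) := by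
  classical
  have h1 : ∀ r ∈ Finset.range 8, (Q.filter (fun n => n % 8 = r)).card ≤ cntf f B := by
    intro r _
    set Qr := Q.filter (fun n => n % 8 = r) with hQr
    have hinj : Set.InjOn z Qr := by
      have aux : ∀ n ∈ Qr, ∀ m ∈ Qr, n < m → z n ≠ z m := by
        intro n hn m hm hnm he
        rw [hQr, Finset.mem_filter] at hn hm
        have h2 : n + 8 ≤ m := by omega
        have h3 : (n : ℝ) + 8 ≤ m := by exact_mod_cast h2
        have h4 := abs_le.1 (hz n hn.1).2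
        have h5 := abs_le.1 (hz m hm.1).2
        rw [he] at h4
        linarith [h4.2, h5.1]
      intro n hn m hm hnm
      by_contra hne
      rcases lt_or_gt_of_ne hne with h | h
      · exact aux n hn m hm h hnm
      · exact aux m hm n hn h hnm.symm
    have hcard : (Qr.image z).card = Qr.card := Finset.card_image_of_injOn hinj
    rw [← hcard, cntf_eq hB]
    calc (Qr.image z).card = ∑ w ∈ Qr.image z, 1 := by simp
      _ ≤ ∑ w ∈ Qr.image z, analyticOrderNatAt f w := by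
          refine Finset.sum_le_sum fun w hw => ?_
          rw [Finset.mem_image] at hw
          obtain ⟨n, hn, rfl⟩ := hw
          exact hord _ (hz n (Finset.mem_of_mem_filter _ hn)).1
      _ ≤ _ := by
          refine Finset.sum_le_sum_of_subset fun w hw => ?_
          rw [Finset.mem_image] at hw
          obtain ⟨n, hn, rfl⟩ := hw
          rw [Set.Finite.mem_toFinset]
          exact (hz n (Finset.mem_of_mem_filter _ hn)).1
  have h2 : Q.card = ∑ r ∈ Finset.range 8, (Q.filter (fun n => n % 8 = r)).card :=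
    Finset.card_eq_sum_card_fiberwise
      (fun s _ => Finset.mem_coe.2 (Finset.mem_range.2 (Nat.mod_lt _ (by norm_num))))
  have h3 : Q.card ≤ 8 * cntf f B := by
    rw [h2]
    calc ∑ r ∈ Finset.range 8, (Q.filter (fun n => n % 8 = r)).card ≤ ∑ r ∈ Finset.range 8, cntf f B :=
          Finset.sum_le_sum h1
      _ = _ := by simp
  exact_mod_cast h3

/-- the abstract comparison: each zero of `f` is close to a zero of `g` or in an exceptional window -/
theorem transfer {κ : ℝ} (hκ : 0 < κ) : ∃ C : ℝ, 0 < C ∧ ∀ T : ℝ, 8 ≤ T → ∀ (f g : ℂ → ℂ) (A B : Set ℂ) (V B₀ : ℝ),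
    0 < V → 0 ≤ B₀ → A.Finite → B.Finite → (∀ z ∈ A, T < z.im ∧ z.im ≤ 2 * T) →
    (∀ z ∈ B, 1 ≤ analyticOrderNatAt g z) →
    (∀ z ∈ A, (∃ w ∈ B, |w.im - z.im| ≤ 2) ∨ V ≤ G κ z.im) →
    (∀ n : ℕ, ∀ W : Finset ℂ, (∀ z ∈ W, z ∈ A ∧ (n : ℝ) < z.im ∧ z.im ≤ n + 1) →
      ∑ z ∈ W, (analyticOrderNatAt f z : ℝ) ≤ B₀) →
    (cntf f A : ℝ) ≤ B₀ * (8 * (cntf g B : ℝ) + C * T ^ (1 + κ) / V ^ 4) := by
  classical
  obtain ⟨C, hC, hbad⟩ := bad_count hκ
  refine ⟨C, hC, ?_⟩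
  intro T hT f g A B V B₀ hV hB₀ hA hB hAT hord hdich hloc
  have hwin := win_count hA (fun z hz => by linarith [(hAT z hz).1]) hloc
  set Q := hA.toFinset.image wi with hQ
  set Q1 := Q.filter (fun n => ∃ z ∈ A, wi z = n ∧ ∃ w ∈ B, |w.im - z.im| ≤ 2) with hQ1
  set Q2 := Q.filter (fun n => ∃ z ∈ A, wi z = n ∧ V ≤ G κ z.im) with hQ2
  have hcov : Q ⊆ Q1 ∪ Q2 := by
    intro n hn
    have hn' := hn
    rw [hQ, Finset.mem_image] at hn
    obtain ⟨z, hz, hzn⟩ := hn
    rw [Set.Finite.mem_toFinset] at hz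
    rw [Finset.mem_union]
    rcases hdich z hz with ⟨w, hw, hwz⟩ | h
    · left
      rw [hQ1, Finset.mem_filter]
      exact ⟨hn', z, hz, hzn, w, hw, hwz⟩
    · right
      rw [hQ2, Finset.mem_filter]
      exact ⟨hn', z, hz, hzn, h⟩
  have hc1 : (Q1.card : ℝ) ≤ 8 * (cntf g B : ℝ) := by
    have hP : ∀ n ∈ Q1, ∃ z ∈ A, wi z = n ∧ ∃ w ∈ B, |w.im - z.im| ≤ 2 := fun n hn => (Finset.mem_filter.1 hn).2
    choose! z hzA hzn w hwB hwz using hP
    refine class_count hB hord Q1 w fun n hn => ⟨hwB n hn, ?_⟩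
    have h1 := wi_spec (z := z n) (by linarith [(hAT _ (hzA n hn)).1])
    rw [hzn n hn] at h1
    have h2 := abs_le.1 (hwz n hn)
    rw [abs_le]
    constructor <;> linarith
  have hc2 : (Q2.card : ℝ) ≤ C * T ^ (1 + κ) / V ^ 4 := by
    have hP : ∀ n ∈ Q2, ∃ z ∈ A, wi z = n ∧ V ≤ G κ z.im := fun n hn => (Finset.mem_filter.1 hn).2
    choose! z hzA hzn hzG using hP
    have h3 := hbad T (by linarith) Q2 (fun n => (z n).im) (fun n hn => by
      have h1 := wi_spec (z := z n) (by linarith [(hAT _ (hzA n hn)).1])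
      rw [hzn n hn] at h1
      have h2 := (hAT _ (hzA n hn)).2
      exact ⟨h1.1.le, h1.2, by linarith⟩) V hV.le hzG
    rw [le_div_iff₀ (by positivity)]
    exact h3
  have hcard : (Q.card : ℝ) ≤ Q1.card + Q2.card := by
    exact_mod_cast (Finset.card_le_card hcov).trans (Finset.card_union_le _ _)
  calc (cntf f A : ℝ) ≤ (Q.card : ℝ) * B₀ := hwin
    _ ≤ (8 * (cntf g B : ℝ) + C * T ^ (1 + κ) / V ^ 4) * B₀ :=
        mul_le_mul_of_nonneg_right (by linarith) hB₀
    _ = _ := by ring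

end Pool.Agent.TH804.SD
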