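import Mathlib
import Pool.Agent.TH804.SB5

/-!
Uniform versions (in `a`) of the local theorems.
-/

set_option autoImplicit false

open Complex Filter Topology Metric Set Polynomial
open H370 H370.Loc

set_option maxHeartbeats 4000000

namespace Pool.Agent.TH804.SB

/-- **few zeros imply small values** -/
theorem few_zeros_u (L : List ℂ) {A₀ : ℝ} (hA₀ : 0 ≤ A₀) {ε B : ℝ} (hε : 0 < ε) (hε1 : ε ≤ 1 / 4) (hB : 0 ≤ B) :
    ∃ δ κ η ℓ₀ : ℝ, 0 < δ ∧ δ ≤ ε ∧ 0 < κ ∧ κ ≤ ε ∧ 0 < η ∧ η ≤ ε ∧ ∀ (a : ℂ), ‖a‖ ≤ A₀ → ∀ (F : ℂ → ℂ) (W ℓ y : ℝ), ℓ₀ ≤ ℓ →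
      LG F η W B ℓ → |y| ≤ W - 2 → Few (opL L F) a δ y (κ * ℓ) →
      ∀ x : ℝ, ε ≤ x → x ≤ 1 → ‖opL L F (-x + y * I)‖ ≤ Real.exp ((x + ε) * ℓ) := by
  obtain ⟨ℓ₁, hcrude⟩ := opL_crude L
  set δ : ℝ := ε / 4 with hδ
  have hδ0 : 0 < δ := by positivity
  -- the number of terms
  set D : ℝ := 8 * (B + 8) / δ * (2 / δ) with hD
  have hD0 : 0 < D := by positivity
  obtain ⟨K, hK⟩ := exists_pow_lt_of_lt_one (show 0 < ε / 8 / D by positivity)
    (show 1 - δ / 2 < 1 by linarith)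
  rw [lt_div_iff₀ hD0] at hK
  set N : ℝ := K * (32 : ℝ) ^ K with hN
  have hN0 : 0 ≤ N := by positivity
  set l16 : ℝ := Real.log 16 with hl16
  have hl16' : l16 ≤ 4 := by
    rw [hl16, show (16:ℝ) = 2 ^ 4 by norm_num, Real.log_pow]
    have := Real.log_two_lt_d9
    push_cast
    linarith
  have hl160 : 0 ≤ l16 := Real.log_nonneg (by norm_num)
  have hlogδ : 0 ≤ Real.log (1 / δ) := Real.log_nonneg (by rw [le_div_iff₀ hδ0]; linarith)
  set κ : ℝ := min (ε / (64 * (1 + N))) (1 / (1 + Real.log (1 / δ))) with hκ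
  have hκ0 : 0 < κ := by positivity
  have hκ1 : κ * (64 * (1 + N)) ≤ ε := by
    have : κ ≤ ε / (64 * (1 + N)) := min_le_left _ _
    rwa [le_div_iff₀ (by positivity)] at this
  have hκ2 : κ * Real.log (1 / δ) ≤ 1 := by
    have h1 : κ ≤ 1 / (1 + Real.log (1 / δ)) := min_le_right _ _
    rw [le_div_iff₀ (by positivity)] at h1
    linarith
  have hκ64 : κ ≤ ε / 64 := by
    have : κ * 64 ≤ κ * (64 * (1 + N)) := mul_le_mul_of_nonneg_left (by linarith) hκ0.le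
    linarith
  obtain ⟨η, hη, hηκ, ℓ₂, hℓ₂, hleft⟩ := opL_left L κ hκ0 (by linarith)
  refine ⟨δ, κ, η, |ℓ₁| + ℓ₂ + 4 * (1 + A₀) + 16 * (1 + A₀) / κ + 4 / κ, hδ0, by linarith, hκ0, by linarith, hη,
    by linarith, fun a haA F W ℓ y hℓ hF hy hfew x hx1 hx2 => ?_⟩
  have hx0 : 0 < x := by linarith
  have b1 := le_abs_self ℓ₁
  have b2 := abs_nonneg ℓ₁
  have ha0 := norm_nonneg a
  have b3 : 0 ≤ 16 * (1 + A₀) / κ := by positivity
  have b4 : 0 ≤ 4 / κ := by positivity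
  have hℓ1 : 1 ≤ ℓ := by linarith
  have hℓ0 : 0 < ℓ := by linarith
  have hκℓ : 16 * (1 + ‖a‖) ≤ κ * ℓ := by
    have : 16 * (1 + A₀) / κ ≤ ℓ := by linarith
    rw [div_le_iff₀ hκ0] at this
    linarith
  have hκℓ1 : 1 ≤ κ * ℓ := by linarith
  have hy' := abs_le.1 hy
  set G : ℂ → ℂ := opL L F with hG
  set f : ℂ → ℂ := fun v => (G v - a) * cexp (ℓ * v) with hf
  set c : ℂ := ⟨-(3 / 4), y⟩ with hc
  have hcoord : ∀ (R : ℝ) (v : ℂ), v ∈ closedBall c R → -(3 / 4) - R ≤ v.re ∧ v.re ≤ -(3 / 4) + R ∧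
      y - R ≤ v.im ∧ v.im ≤ y + R := by
    intro R v hv
    have h1 := abs_le.1 (ball_re hv)
    have h2 := abs_le.1 (ball_im hv)
    have e1 : c.re = -(3 / 4) := rfl
    have e2 : c.im = y := rfl
    rw [e1] at h1
    rw [e2] at h2
    refine ⟨by linarith, by linarith, by linarith, by linarith⟩
  have hGan : ∀ v ∈ closedBall c (3 / 4), AnalyticAt ℂ G v := by
    intro v hv
    obtain ⟨h1, h2, h3, h4⟩ := hcoord _ v hv
    apply opL_an L
    apply hF.an
    · rw [abs_le]; constructor <;> linarith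
    · rw [abs_le]; constructor <;> linarith
  -- size of `a`
  have haexp : ∀ p : ℝ, 1 / 4 ≤ p → 2 * ‖a‖ ≤ Real.exp (p * ℓ) ∧ ‖a‖ < Real.exp (p * ℓ) := by
    intro p hp
    have h1 := Real.add_one_le_exp (p * ℓ)
    have h2 : 1 / 4 * ℓ ≤ p * ℓ := mul_le_mul_of_nonneg_right hp hℓ0.le
    have h3 : 16 * (1 + ‖a‖) ≤ 1 / 4 * ℓ := by
      have : κ * ℓ ≤ 1 / 4 * ℓ := mul_le_mul_of_nonneg_right (by linarith) hℓ0.le
      linarith
    constructor <;> linarith
  have hsmall : (1 + ‖a‖) * Real.exp (κ * ℓ) ≤ Real.exp (2 * κ * ℓ) := by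
    have h1 := Real.add_one_le_exp (κ * ℓ)
    have e : Real.exp (2 * κ * ℓ) = Real.exp (κ * ℓ) * Real.exp (κ * ℓ) := by
      rw [← Real.exp_add]; congr 1; ring
    rw [e]
    exact mul_le_mul_of_nonneg_right (by linarith) (Real.exp_pos _).le
  have hmain := DH31.backlund_abs (f := f) (c := c) (ϱ := 3 / 4 - 3 * δ) (δ := δ) (l := 1 / 8)
    (n := κ * ℓ) (M := Real.exp ((B + 2) * ℓ)) (A := Real.exp (2 * κ * ℓ)) (a := Real.exp (2 * κ * ℓ))
    (by norm_num) (by norm_num) (by linarith) (by linarith) hδ0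
    (Real.one_le_exp (by positivity)) (Real.one_le_exp (by positivity)) (Real.one_le_exp (by positivity))
    (by positivity)
    (fun v hv => ((hGan v (by
      convert hv using 2; ring)).sub analyticAt_const).mul (by fun_prop))
    (fun v hv => by
      have hv' : v ∈ closedBall c (3 / 4) := by
        convert hv using 2; ring
      obtain ⟨h1, h2, h3, h4⟩ := hcoord _ v hv'
      have h5 := hcrude F η W B ℓ (by linarith) hF v (by rw [abs_le]; constructor <;> linarith)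
        (by rw [abs_le]; constructor <;> linarith)
      have h6 := tw_norm (fun v => G v - a) ℓ v
      rw [hf]
      simp only
      rw [h6]
      have h7 : Real.exp (ℓ * v.re) ≤ 1 := by
        rw [Real.exp_le_one_iff]
        exact mul_nonpos_of_nonneg_of_nonpos hℓ0.le (by linarith)
      have h8 : ‖G v - a‖ ≤ Real.exp ((B + 1) * ℓ) + ‖a‖ := (norm_sub_le _ _).trans (by linarith)
      have h9 : Real.exp ((B + 1) * ℓ) + ‖a‖ ≤ Real.exp ((B + 2) * ℓ) := by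
        have e : Real.exp ((B + 2) * ℓ) = Real.exp ((B + 1) * ℓ) * Real.exp ℓ := by
          rw [← Real.exp_add]; congr 1; ring
        rw [e]
        have h10 : 1 ≤ Real.exp ((B + 1) * ℓ) := Real.one_le_exp (by positivity)
        have h11 := Real.add_one_le_exp ℓ
        have h12 : 1 + ‖a‖ ≤ Real.exp ℓ := by linarith
        nlinarith
      calc ‖G v - a‖ * Real.exp (ℓ * v.re) ≤ ‖G v - a‖ * 1 :=
            mul_le_mul_of_nonneg_left h7 (norm_nonneg _)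
        _ ≤ _ := by rw [mul_one]; linarith)
    (fun v hv => by
      obtain ⟨h1, h2, h3, h4⟩ := hcoord _ v hv
      obtain ⟨h5, h6⟩ := hleft F W B ℓ (by linarith) hF v (by linarith) (by linarith)
        (by rw [abs_le]; constructor <;> linarith)
      exact (tw_sub_le hκ0.le hℓ0.le (by linarith) h6).trans hsmall)
    (by
      obtain ⟨h5, h6⟩ := hleft F W B ℓ (by linarith) hF c (by show -2 + κ ≤ -(3 / 4); linarith)
        (by show -(3 / 4 : ℝ) ≤ -(1 / 2 + κ); linarith)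
        (by show |y| ≤ W - κ; linarith)
      have h7 := tw_sub_ge (a := a) h5 (haexp _ (by show (1:ℝ) / 4 ≤ - -(3 / 4) - κ; linarith)).1
      refine le_trans ?_ h7
      rw [one_div, ← Real.exp_neg, le_div_iff₀ (by norm_num)]
      have h8 := Real.add_one_le_exp (κ * ℓ)
      have e : Real.exp (-(κ * ℓ)) = Real.exp (-(2 * κ * ℓ)) * Real.exp (κ * ℓ) := by
        rw [← Real.exp_add]; congr 1; ring
      rw [e]
      exact mul_le_mul_of_nonneg_left (by linarith) (Real.exp_pos _).le)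
    (fun z hz h0 => by
      obtain ⟨h1, h2, h3, h4⟩ := hcoord _ z hz
      have h5 : G z = a := by
        rw [hf] at h0
        simp only [mul_eq_zero, Complex.exp_ne_zero, or_false] at h0
        exact sub_eq_zero.1 h0
      by_contra hcon
      push Not at hcon
      obtain ⟨h6, h7, h8, h9⟩ := hcoord (1 / 8) z (by
        rw [mem_closedBall, dist_eq_norm]; exact hcon.le)
      obtain ⟨h10, h11⟩ := hleft F W B ℓ (by linarith) hF z (by linarith) (by linarith)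
        (by rw [abs_le]; constructor <;> linarith)
      have h12 : ‖G z‖ = ‖a‖ := by rw [h5]
      have h13 := (haexp (-z.re - κ) (by linarith)).2
      have h14 : Real.exp ((-z.re - κ) * ℓ) ≤ ‖G z‖ := h10
      linarith)
    (fun S hS => by
      have h1 := hfew S (fun z hz => by
        obtain ⟨h2, h3⟩ := hS z hz
        obtain ⟨h4, h5, h6, h7⟩ := hcoord _ z h2
        have h8 : G z = a := by
          rw [hf] at h3
          simp only [mul_eq_zero, Complex.exp_ne_zero, or_false] at h3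
          exact sub_eq_zero.1 h3
        refine ⟨?_, by linarith, by rw [abs_le]; constructor <;> linarith, h8⟩
        by_contra hcon
        push Not at hcon
        obtain ⟨h10, h11⟩ := hleft F W B ℓ (by linarith) hF z (by linarith) (by linarith)
          (by rw [abs_le]; constructor <;> linarith)
        have h12 : ‖G z‖ = ‖a‖ := by rw [h8]
        have h13 := (haexp (-z.re - κ) (by linarith)).2
        have h14 : Real.exp ((-z.re - κ) * ℓ) ≤ ‖G z‖ := h10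
        linarith)
      refine le_trans (le_of_eq (Finset.sum_congr rfl fun z hz => ?_)) h1
      rw [hf, mult_tw]
      refine (hGan z ?_).sub analyticAt_const
      exact closedBall_subset_closedBall (by linarith) (hS z hz).1)
    K (z := -x + y * I) (by
      rw [mem_closedBall, dist_eq_norm]
      have e1 : (-x + y * I : ℂ) - c = ((3 / 4 - x : ℝ) : ℂ) := by
        apply Complex.ext
        · simp [hc]; ring
        · simp [hc]
      rw [e1, Complex.norm_real, Real.norm_eq_abs, abs_le]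
      constructor <;> linarith)
  -- simplification
  have e28 : Real.log (2 / (1 / 8 : ℝ)) = l16 := by rw [hl16]; norm_num
  have e48 : (4 / (1 / 8 : ℝ)) = 32 := by norm_num
  rw [e28, e48, Real.log_exp, Real.log_exp, ← Real.exp_add] at hmain
  have hfz := tw_norm (fun v => G v - a) ℓ (-x + y * I)
  rw [hf] at hmain
  simp only at hmain
  rw [hfz] at hmain
  have hre : (-x + y * I : ℂ).re = -x := by simp
  rw [hre] at hmain
  have hexp : 2 * κ * ℓ + (κ * ℓ * l16 + 2 * (2 * κ * ℓ + κ * ℓ * l16 + 2 * κ * ℓ + 1) * (K * 32 ^ K) +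
      4 * ((B + 2) * ℓ + κ * ℓ * Real.log (1 / δ) + 2 * κ * ℓ + 1) / δ * (1 - δ / 2) ^ K * (2 / δ)) ≤
      ε / 2 * ℓ := by
    have t1 : κ * ℓ * l16 ≤ 4 * (κ * ℓ) := by nlinarith
    have t2 : 2 * (2 * κ * ℓ + κ * ℓ * l16 + 2 * κ * ℓ + 1) * (K * 32 ^ K) ≤ 18 * (κ * ℓ) * N := by
      rw [hN]
      apply mul_le_mul_of_nonneg_right _ hN0
      linarith
    have t3 : κ * ℓ * Real.log (1 / δ) ≤ ℓ := by nlinarith
    have t4 : 4 * ((B + 2) * ℓ + κ * ℓ * Real.log (1 / δ) + 2 * κ * ℓ + 1) / δ * (1 - δ / 2) ^ K * (2 / δ)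
        ≤ ε / 8 * ℓ := by
      have hq : 0 ≤ (1 - δ / 2) ^ K := pow_nonneg (by linarith) K
      calc 4 * ((B + 2) * ℓ + κ * ℓ * Real.log (1 / δ) + 2 * κ * ℓ + 1) / δ * (1 - δ / 2) ^ K * (2 / δ)
          ≤ 4 * (2 * (B + 8) * ℓ) / δ * (1 - δ / 2) ^ K * (2 / δ) := by
            apply mul_le_mul_of_nonneg_right _ (by positivity)
            apply mul_le_mul_of_nonneg_right _ hq
            apply div_le_div_of_nonneg_right _ hδ0.le
            have : 2 * κ * ℓ ≤ ℓ := by nlinarith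
            nlinarith
        _ = ((1 - δ / 2) ^ K * D) * ℓ := by rw [hD]; ring
        _ ≤ ε / 8 * ℓ := mul_le_mul_of_nonneg_right hK.le hℓ0.le
    have t5 : κ * ℓ * (64 * (1 + N)) ≤ ε * ℓ := by
      have := mul_le_mul_of_nonneg_right hκ1 hℓ0.le
      linarith
    have t6 : 0 ≤ κ * ℓ * N := by positivity
    nlinarith
  have h1 : ‖G (-x + y * I) - a‖ * Real.exp (ℓ * -x) ≤ Real.exp (ε / 2 * ℓ) :=
    hmain.trans (Real.exp_le_exp.2 hexp)
  have h2 : ‖G (-x + y * I) - a‖ ≤ Real.exp ((x + ε / 2) * ℓ) := by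
    calc ‖G (-x + y * I) - a‖ = ‖G (-x + y * I) - a‖ * Real.exp (ℓ * -x) * Real.exp (ℓ * x) := by
          rw [mul_assoc, ← Real.exp_add]; simp
      _ ≤ Real.exp (ε / 2 * ℓ) * Real.exp (ℓ * x) := mul_le_mul_of_nonneg_right h1 (Real.exp_pos _).le
      _ = _ := by rw [← Real.exp_add]; congr 1; ring
  calc ‖G (-x + y * I)‖ ≤ ‖G (-x + y * I) - a‖ + ‖a‖ := by
        have := norm_add_le (G (-x + y * I) - a) a
        rwa [sub_add_cancel] at this
    _ ≤ (1 + ‖a‖) * Real.exp ((x + ε / 2) * ℓ) := by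
        have h3 : 1 ≤ Real.exp ((x + ε / 2) * ℓ) := Real.one_le_exp (by positivity)
        nlinarith
    _ ≤ Real.exp (ε / 2 * ℓ) * Real.exp ((x + ε / 2) * ℓ) := by
        apply mul_le_mul_of_nonneg_right _ (Real.exp_pos _).le
        have h4 := Real.add_one_le_exp (ε / 2 * ℓ)
        have h5 : κ * ℓ ≤ ε / 2 * ℓ := mul_le_mul_of_nonneg_right (by linarith) hℓ0.le
        linarith
    _ = _ := by rw [← Real.exp_add]; congr 1; ring

/-- **local theorem, second part** -/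
theorem T2_u (L : List ℂ) {A₀ : ℝ} (hA₀ : 0 ≤ A₀) {ε B : ℝ} (hε : 0 < ε) (hB : 0 ≤ B) :
    ∃ δ κ η W ℓ₀ : ℝ, 0 < δ ∧ δ ≤ 1 / 4 ∧ 0 < κ ∧ 0 < η ∧ 0 < W ∧ ∀ (a : ℂ), ‖a‖ ≤ A₀ → ∀ (F : ℂ → ℂ) (ℓ : ℝ), ℓ₀ ≤ ℓ → LG F η W B ℓ →
      (∀ y : ℝ, |y| ≤ W → Few (opL L F) a δ y (κ * ℓ)) → ‖F 0‖ ≤ Real.exp (ε * ℓ) := by
  obtain ⟨δ₁, η₁, W, ℓ₁, hδ₁, hδ₁ε, hη₁, hη₁ε, hW, hcrit⟩ := crit_bound L (ε := min ε (1 / 4)) (B := B)
    (lt_min hε (by norm_num)) ((min_le_right _ _).trans (by norm_num)) hB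
  have hm : min ε (1 / 4) ≤ 1 / 4 := min_le_right _ _
  obtain ⟨δ, κ, η₂, ℓ₂, hδ, hδε, hκ, hκε, hη₂, hη₂ε, hfew⟩ := few_zeros_u L hA₀ (ε := δ₁) (B := B) hδ₁
    (by linarith) hB
  refine ⟨δ, κ, min η₁ η₂, W + 1, |ℓ₁| + |ℓ₂|, hδ, by linarith, hκ, lt_min hη₁ hη₂, by linarith,
    fun a haA F ℓ hℓ hF hall => ?_⟩
  have b1 := le_abs_self ℓ₁
  have b2 := abs_nonneg ℓ₁
  have b3 := le_abs_self ℓ₂
  have b4 := abs_nonneg ℓ₂
  have hℓ0 : 0 ≤ ℓ := by linarith
  have hF1 := hF.mono (η' := η₁) (W' := W) (min_le_left η₁ η₂) (by linarith) hℓ0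
  have hF2 := hF.mono (η' := η₂) (W' := W + 1) (min_le_right η₁ η₂) le_rfl hℓ0
  refine (hcrit F ℓ (by linarith) hF1 (fun z h1 h2 h3 => ?_)).trans ?_
  · have h4 := hfew a haA F (W + 1) ℓ z.im (by linarith) hF2 (by linarith) (hall z.im (by linarith)) (-z.re)
      (by linarith) (by linarith)
    have e : (-((-z.re : ℝ) : ℂ) + z.im * I) = z := by
      apply Complex.ext <;> simp
    rw [e] at h4
    exact h4
  · apply Real.exp_le_exp.2
    exact mul_le_mul_of_nonneg_right (min_le_left _ _) hℓ0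

/-- **local theorem, second part** -/
theorem P2_u {P : ℂ[X]} (hP : P ≠ 0) {A₀ : ℝ} (hA₀ : 0 ≤ A₀) {ε B : ℝ} (hε : 0 < ε) (hB : 0 ≤ B) :
    ∃ δ κ η W ℓ₀ : ℝ, 0 < δ ∧ δ ≤ 1 / 4 ∧ 0 < κ ∧ 0 < η ∧ 0 < W ∧ ∀ (a : ℂ), ‖a‖ ≤ A₀ → ∀ (F : ℂ → ℂ) (ℓ : ℝ), ℓ₀ ≤ ℓ → LG F η W B ℓ →
      (∀ y : ℝ, |y| ≤ W → Few (PF P F) a δ y (κ * ℓ)) → ‖F 0‖ ≤ Real.exp (ε * ℓ) := by
  obtain ⟨c, L, hc, h⟩ := PF_eq _ P hP rfl
  obtain ⟨δ, κ, η, W, ℓ₀, hδ, hδ1, hκ, hη, hW, hT⟩ := T2_u L (A₀ := A₀ / ‖c‖) (by positivity) hε hB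
  refine ⟨δ, κ, η, W + 1, |ℓ₀|, hδ, hδ1, hκ, hη, by linarith, fun a haA F ℓ hℓ hF hall => ?_⟩
  have b1 := le_abs_self ℓ₀
  have b2 := abs_nonneg ℓ₀
  refine hT (a / c) (by rw [norm_div]; exact div_le_div_of_nonneg_right haA (norm_nonneg _)) F ℓ (by linarith) (hF.mono le_rfl (by linarith) (by linarith)) (fun y hy => ?_)
  rw [← few_iff hc (fun z h1 h2 => hF.an z (by linarith) (by
    have h3 := abs_le.1 h2
    have h4 := abs_le.1 hy
    rw [abs_le]; constructor <;> linarith)) (h F) hδ]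
  exact hall y (by linarith)

end Pool.Agent.TH804.SB
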