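import Pool.Agent.TH804.SS6
import Pool.Agent.TH804.SP3
import Pool.Agent.TH804.SP4

/-! The trivial bound for zeta in the right half of the critical strip. -/

set_option autoImplicit false

open Complex MeasureTheory Filter Topology Set

namespace Pool.Agent.TH804.SE

open Pool.Agent.TH804.SS

lemma em' (N : ℕ) (hN : 1 ≤ N) {s : ℂ} (hs : 1 / 2 ≤ s.re) (hs1 : s ≠ 1) :
    ‖riemannZeta s - sec N s - (N : ℂ) ^ (1 - s) / (s - 1)‖ ≤ 2 * ‖s‖ * (N : ℝ) ^ (-s.re) := by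
  have hN0 : (0 : ℝ) < N := by exact_mod_cast hN
  have hN1 : (1 : ℝ) ≤ N := by exact_mod_cast hN
  have h1 := ZU.zeta_formula N hN s (by linarith) hs1
  have h2 : riemannZeta s - sec N s - (N : ℂ) ^ (1 - s) / (s - 1) =
      -(s * ∫ u in Ioi (N : ℝ), ((Int.fract u : ℝ) : ℂ) * (u : ℂ) ^ (-s - 1)) := by
    rw [h1, sec_eq_DN]; ring
  rw [h2, norm_neg, norm_mul]
  have h3 : ‖∫ u in Ioi (N : ℝ), ((Int.fract u : ℝ) : ℂ) * (u : ℂ) ^ (-s - 1)‖ ≤
      ∫ u in Ioi (N : ℝ), u ^ (-s.re - 1) := by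
    refine norm_integral_le_of_norm_le (integrableOn_Ioi_rpow_of_lt (by linarith) hN0) ?_
    rw [ae_restrict_iff' measurableSet_Ioi]
    refine Eventually.of_forall fun u hu => ?_
    have hu0 : 0 < u := lt_trans hN0 hu
    rw [norm_mul, Complex.norm_cpow_eq_rpow_re_of_pos hu0, Complex.norm_real, Real.norm_eq_abs,
      abs_of_nonneg (Int.fract_nonneg u)]
    have h4 : (-s - 1).re = -s.re - 1 := by simp
    rw [h4]
    exact mul_le_of_le_one_left (by positivity) (Int.fract_lt_one u).le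
  have h5 : ∫ u in Ioi (N : ℝ), u ^ (-s.re - 1) = (N : ℝ) ^ (-s.re) / s.re := by
    rw [integral_Ioi_rpow_of_lt (by linarith) hN0]
    have : -s.re - 1 + 1 = -s.re := by ring
    rw [this, neg_div_neg_eq]
  rw [h5] at h3
  have h6 : (N : ℝ) ^ (-s.re) / s.re ≤ 2 * (N : ℝ) ^ (-s.re) := by
    rw [div_le_iff₀ (by linarith)]
    have h8 : 0 ≤ (N : ℝ) ^ (-s.re) := by positivity
    nlinarith
  calc ‖s‖ * ‖∫ u in Ioi (N : ℝ), ((Int.fract u : ℝ) : ℂ) * (u : ℂ) ^ (-s - 1)‖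
      ≤ ‖s‖ * (2 * (N : ℝ) ^ (-s.re)) := mul_le_mul_of_nonneg_left (h3.trans h6) (norm_nonneg _)
    _ = _ := by ring

lemma sec_triv (N : ℕ) (hN : 1 ≤ N) {s : ℂ} (hs : s.re ≤ 1) :
    ‖sec N s‖ ≤ (N : ℝ) ^ (1 - s.re) * (1 + Real.log N) := by
  have hN0 : (0 : ℝ) < N := by exact_mod_cast hN
  have h1 : ‖sec N s‖ ≤ ∑ n ∈ Finset.range N, (N : ℝ) ^ (1 - s.re) * ((n : ℝ) + 1)⁻¹ := by
    unfold sec
    refine (norm_sum_le _ _).trans (Finset.sum_le_sum fun n hn => ?_)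
    rw [Finset.mem_range] at hn
    rw [term_norm]
    have hn0 : (0 : ℝ) < (n : ℝ) + 1 := by positivity
    have e : ((n : ℝ) + 1) ^ (-s.re) = ((n : ℝ) + 1) ^ (1 - s.re) * ((n : ℝ) + 1)⁻¹ := by
      rw [← Real.rpow_neg_one ((n : ℝ) + 1), ← Real.rpow_add hn0]
      congr 1
      ring
    rw [e]
    apply mul_le_mul_of_nonneg_right _ (by positivity)
    apply Real.rpow_le_rpow hn0.le _ (by linarith)
    have : n + 1 ≤ N := hn
    exact_mod_cast this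
  refine h1.trans ?_
  rw [← Finset.mul_sum]
  apply mul_le_mul_of_nonneg_left _ (by positivity)
  have h2 := harmonic_le_one_add_log N
  have h3 : ((harmonic N : ℚ) : ℝ) = ∑ n ∈ Finset.range N, ((n : ℝ) + 1)⁻¹ := by
    unfold harmonic
    push_cast
    rfl
  rw [← h3]
  exact h2

lemma zeta_triv {s : ℂ} (h1 : 1 / 2 ≤ s.re) (h2 : s.re ≤ 1) (h3 : 2 ≤ |s.im|) :
    ‖riemannZeta s‖ ≤ 10 * |s.im| ^ (1 - s.re) * (1 + Real.log |s.im|) := by
  obtain ⟨t, ht⟩ : ∃ t : ℝ, t = |s.im| := ⟨_, rfl⟩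
  rw [← ht] at h3 ⊢
  have ht0 : 0 < t := by linarith
  have hs1 : s ≠ 1 := by
    intro h
    rw [h] at ht
    simp at ht
    linarith
  obtain ⟨N, hN⟩ : ∃ N : ℕ, N = ⌈t⌉₊ := ⟨_, rfl⟩
  have hNt : t ≤ N := by rw [hN]; exact Nat.le_ceil _
  have hNt2 : (N : ℝ) ≤ 2 * t := by
    have := Nat.ceil_lt_add_one ht0.le
    rw [← hN] at this
    linarith
  have hN1 : 1 ≤ N := by
    have : (1 : ℝ) ≤ N := by linarith
    exact_mod_cast this
  have hN0 : (0 : ℝ) < N := by linarith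
  have e1 := em' N hN1 h1 hs1
  have e2 := sec_triv N hN1 h2
  have hp : (N : ℝ) ^ (1 - s.re) ≤ 2 * t ^ (1 - s.re) := by
    calc (N : ℝ) ^ (1 - s.re) ≤ (2 * t) ^ (1 - s.re) := Real.rpow_le_rpow hN0.le hNt2 (by linarith)
      _ = 2 ^ (1 - s.re) * t ^ (1 - s.re) := Real.mul_rpow (by norm_num) ht0.le
      _ ≤ 2 ^ (1 : ℝ) * t ^ (1 - s.re) := by
          apply mul_le_mul_of_nonneg_right _ (by positivity)
          exact Real.rpow_le_rpow_of_exponent_le (by norm_num) (by linarith)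
      _ = _ := by rw [Real.rpow_one]
  have hlog : Real.log N ≤ 1 + Real.log t := by
    calc Real.log N ≤ Real.log (2 * t) := Real.log_le_log hN0 hNt2
      _ = Real.log 2 + Real.log t := Real.log_mul (by norm_num) ht0.ne'
      _ ≤ _ := by linarith [Real.log_two_lt_d9]
  have hlt : 0 ≤ Real.log t := Real.log_nonneg (by linarith)
  have hs : ‖s‖ ≤ 2 * t := by
    refine (Complex.norm_le_abs_re_add_abs_im s).trans ?_
    rw [abs_of_nonneg (by linarith), ← ht]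
    linarith
  have hq : (N : ℝ) ^ (-s.re) ≤ t ^ (-s.re) := by
    exact Real.rpow_le_rpow_of_nonpos ht0 hNt (by linarith)
  have hpole : ‖(N : ℂ) ^ (1 - s) / (s - 1)‖ ≤ t ^ (1 - s.re) := by
    rw [norm_div, Complex.norm_natCast_cpow_of_pos (by omega)]
    have e3 : (1 - s).re = 1 - s.re := by simp
    rw [e3]
    have e4 : 2 ≤ ‖s - 1‖ := by
      have := Complex.abs_im_le_norm (s - 1)
      rw [Complex.sub_im, Complex.one_im, sub_zero, ← ht] at this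
      linarith
    rw [div_le_iff₀ (by linarith)]
    have : 0 < t ^ (1 - s.re) := by positivity
    nlinarith
  have e5 : t * t ^ (-s.re) = t ^ (1 - s.re) := by
    rw [sub_eq_add_neg, Real.rpow_add ht0, Real.rpow_one]
  have hX : 0 < t ^ (1 - s.re) := by positivity
  have tri : ‖riemannZeta s‖ ≤ ‖riemannZeta s - sec N s - (N : ℂ) ^ (1 - s) / (s - 1)‖ + ‖sec N s‖ +
      ‖(N : ℂ) ^ (1 - s) / (s - 1)‖ := by
    calc ‖riemannZeta s‖ = ‖(riemannZeta s - sec N s - (N : ℂ) ^ (1 - s) / (s - 1)) + sec N s +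
          (N : ℂ) ^ (1 - s) / (s - 1)‖ := by congr 1; ring
      _ ≤ _ := norm_add₃_le
  calc ‖riemannZeta s‖ ≤ 2 * ‖s‖ * (N : ℝ) ^ (-s.re) + (N : ℝ) ^ (1 - s.re) * (1 + Real.log N) +
        t ^ (1 - s.re) := by linarith
    _ ≤ 2 * (2 * t) * t ^ (-s.re) + (2 * t ^ (1 - s.re)) * (1 + (1 + Real.log t)) + t ^ (1 - s.re) := by
        gcongr
    _ = 4 * (t * t ^ (-s.re)) + 2 * t ^ (1 - s.re) * (2 + Real.log t) + t ^ (1 - s.re) := by ring
    _ ≤ _ := by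
        rw [e5]
        nlinarith [mul_nonneg hX.le hlt]

/-- the functional equation -/
lemma zeta_left' : ∃ K : ℝ, 0 < K ∧ ∀ w : ℂ, 1 / 2 ≤ w.re → w.re ≤ 4 → 1 ≤ |w.im| →
    Real.exp (-K) * |w.im| ^ (w.re - 1 / 2) * ‖riemannZeta w‖ ≤ ‖riemannZeta (1 - w)‖ ∧
    ‖riemannZeta (1 - w)‖ ≤ Real.exp K * |w.im| ^ (w.re - 1 / 2) * ‖riemannZeta w‖ := by
  obtain ⟨K, hK, hX⟩ := H345.Chi.XX_size
  have main : ∀ w : ℂ, 1 / 2 ≤ w.re → w.re ≤ 4 → 1 ≤ w.im →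
      Real.exp (-K) * w.im ^ (w.re - 1 / 2) * ‖riemannZeta w‖ ≤ ‖riemannZeta (1 - w)‖ ∧
      ‖riemannZeta (1 - w)‖ ≤ Real.exp K * w.im ^ (w.re - 1 / 2) * ‖riemannZeta w‖ := by
    intro w h1 h2 h3
    have h4 := SP.fz_norm (w := w) h3
    unfold SP.fz at h4
    rw [h4]
    obtain ⟨h5, h6⟩ := hX w h1 (by linarith) h3
    exact ⟨mul_le_mul_of_nonneg_right h5 (norm_nonneg _), mul_le_mul_of_nonneg_right h6 (norm_nonneg _)⟩
  refine ⟨K, hK, fun w h1 h2 h3 => ?_⟩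
  rcases le_total 0 w.im with h | h
  · rw [abs_of_nonneg h] at h3 ⊢
    exact main w h1 h2 h3
  · rw [abs_of_nonpos h] at h3 ⊢
    have h4 := main ((starRingEnd ℂ) w) (by rw [Complex.conj_re]; exact h1) (by rw [Complex.conj_re]; exact h2)
      (by rw [Complex.conj_im]; exact h3)
    rw [Complex.conj_im, Complex.conj_re, SP.norm_zeta_conj] at h4
    have e : 1 - (starRingEnd ℂ) w = (starRingEnd ℂ) (1 - w) := by simp
    rw [e, SP.norm_zeta_conj] at h4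
    exact h4

end Pool.Agent.TH804.SE
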