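import Pool.Agent.TH804.SE1
import Pool.Agent.TH804.SE2
import Pool.Agent.TH804.SB7

/-! The local growth of `T^(1/2 - σ) ζ(1 - σ + iT + z)`, uniformly in `σ`. -/

set_option autoImplicit false

open Complex Filter Topology Metric Set Polynomial
open H370 H370.Loc

set_option maxHeartbeats 4000000

namespace Pool.Agent.TH804.SE

open Pool.Agent.TH804.SB
open SP (PZ)

/-- `T^(1/2 - σ) ζ(1 - σ + iT + z)` -/
noncomputable def zS (σ T : ℝ) (z : ℂ) : ℂ := ((T ^ (1 / 2 - σ) : ℝ) : ℂ) * riemannZeta ((1 - σ : ℝ) + T * I + z)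

/-- the bound for zeta in the right half plane, in terms of the height -/
lemma right_bound {η : ℝ} (hη : 0 < η) : ∃ C : ℝ, 1 ≤ C ∧ ∀ s : ℂ, 1 / 2 ≤ s.re → 2 ≤ s.im → ∀ x : ℝ, 0 ≤ x →
    1 - s.re ≤ x → ‖riemannZeta s‖ ≤ C * s.im ^ (x + η) := by
  obtain ⟨C₁, hC₁, h₁⟩ := SP.zeta_one_up hη
  obtain ⟨C₂, hC₂, h₂⟩ := DH31.zeta_bounds (a := 2) (by norm_num)
  -- `1 + log t ≤ (2 + 1/η) t^η`
  have hlog : ∀ t : ℝ, 2 ≤ t → 1 + Real.log t ≤ (1 + 1 / η) * t ^ η := by
    intro t ht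
    have ht0 : 0 < t := by linarith
    have h1 : 1 ≤ t ^ η := Real.one_le_rpow (by linarith) hη.le
    have h2 : η * Real.log t ≤ t ^ η := by
      rw [← Real.log_rpow ht0]
      have := Real.log_le_sub_one_of_pos (show 0 < t ^ η by positivity)
      linarith
    have h3 : Real.log t ≤ 1 / η * t ^ η := by
      rw [one_div_mul_eq_div, le_div_iff₀ hη]
      linarith
    linarith
  refine ⟨C₁ + C₂ + 10 * (1 + 1 / η), by
    have : 0 < 1 / η := by positivity
    linarith, fun s h1 h2 x hx hx2 => ?_⟩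
  have ht0 : 0 < s.im := by linarith
  have hpow : s.im ^ η ≤ s.im ^ (x + η) := Real.rpow_le_rpow_of_exponent_le (by linarith) (by linarith)
  have hP : 0 < s.im ^ (x + η) := by positivity
  have hone : 1 ≤ s.im ^ (x + η) := Real.one_le_rpow (by linarith) (by linarith)
  have hη1 : 0 < 1 / η := by positivity
  rcases le_total s.re 1 with h | h
  · have h3 := zeta_triv h1 h (by rw [abs_of_pos ht0]; exact h2)
    rw [abs_of_pos ht0] at h3
    have h4 : s.im ^ (1 - s.re) ≤ s.im ^ x := Real.rpow_le_rpow_of_exponent_le (by linarith) hx2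
    have e : s.im ^ (x + η) = s.im ^ x * s.im ^ η := Real.rpow_add ht0 _ _
    have hl := hlog s.im h2
    have hl0 : 0 ≤ 1 + Real.log s.im := by
      have := Real.log_nonneg (show 1 ≤ s.im by linarith)
      linarith
    calc ‖riemannZeta s‖ ≤ 10 * s.im ^ (1 - s.re) * (1 + Real.log s.im) := h3
      _ ≤ 10 * s.im ^ x * ((1 + 1 / η) * s.im ^ η) := by gcongr
      _ = 10 * (1 + 1 / η) * s.im ^ (x + η) := by rw [e]; ring
      _ ≤ _ := by
          apply mul_le_mul_of_nonneg_right _ hP.le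
          linarith
  · rcases le_total s.re 3 with h' | h'
    · have h3 := h₁ s h h' h2
      calc ‖riemannZeta s‖ ≤ C₁ * s.im ^ η := h3
        _ ≤ C₁ * s.im ^ (x + η) := by gcongr
        _ ≤ _ := by
          apply mul_le_mul_of_nonneg_right _ hP.le
          nlinarith
    · have h3 := (h₂ s (by linarith)).1
      calc ‖riemannZeta s‖ ≤ C₂ * 1 := by rw [mul_one]; exact h3
        _ ≤ C₂ * s.im ^ (x + η) := by gcongr
        _ ≤ _ := by
          apply mul_le_mul_of_nonneg_right _ hP.le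
          nlinarith

/-- **local growth** -/
theorem zS_LG {η W : ℝ} (hη : 0 < η) (hη1 : η ≤ 1 / 2) (hW : 0 < W) : ∃ T₀ : ℝ, 8 ≤ T₀ ∧ ∀ T : ℝ, T₀ ≤ T →
    ∀ σ : ℝ, 1 / 2 ≤ σ → σ ≤ 1 → LG (zS σ T) η W 5 (Real.log T) := by
  obtain ⟨K, hK, hleft⟩ := zeta_left'
  obtain ⟨A, hA, hz⟩ := DH31.zeta_bounds (a := 1 + η) (by linarith)
  obtain ⟨C, hC, hR⟩ := right_bound (η := η / 2) (by positivity)
  obtain ⟨M, hM⟩ : ∃ M : ℝ, M = 8 * Real.exp K * A + 2 * C := ⟨_, rfl⟩
  have hM0 : 0 < M := by rw [hM]; positivity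
  have hp : 0 ≤ M ^ (1 / (η / 2)) := by positivity
  have hK1 := Real.one_le_exp hK.le
  refine ⟨1000 * Real.exp K + 2 * W + M ^ (1 / (η / 2)), by linarith, fun T hT σ hσ1 hσ2 => ?_⟩
  have ht100 : 1000 ≤ T := by linarith
  have ht0 : 0 < T := by linarith
  have hℓ0 : 0 ≤ Real.log T := Real.log_nonneg (by linarith)
  have hpow : ∀ p : ℝ, Real.exp (p * Real.log T) = T ^ p := fun p => by
    rw [Real.rpow_def_of_pos ht0, mul_comm]
  have hMt' : M ≤ T ^ (η / 2) := W587.PL.large_of_rpow hM0 (by positivity) (by linarith)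
  have hMt : M ≤ T ^ η := hMt'.trans (Real.rpow_le_rpow_of_exponent_le (by linarith) (by linarith))
  -- coordinates
  have hco : ∀ z : ℂ, |z.im| ≤ W → (((1 - σ : ℝ) : ℂ) + T * I + z : ℂ).re = 1 - σ + z.re ∧
      T / 2 ≤ (((1 - σ : ℝ) : ℂ) + T * I + z : ℂ).im ∧ (((1 - σ : ℝ) : ℂ) + T * I + z : ℂ).im ≤ 2 * T := by
    intro z hz
    have e : (((1 - σ : ℝ) : ℂ) + T * I + z : ℂ).im = T + z.im := by simp
    have h1 := abs_le.1 hz
    refine ⟨by simp, ?_, ?_⟩ <;> rw [e] <;> linarith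
  have hne : ∀ z : ℂ, |z.im| ≤ W → (((1 - σ : ℝ) : ℂ) + T * I + z : ℂ) ≠ 1 := by
    intro z hz h
    obtain ⟨h1, h2, h3⟩ := hco z hz
    rw [h] at h2
    simp at h2
    linarith
  have hnorm : ∀ z : ℂ, ‖zS σ T z‖ = T ^ (1 / 2 - σ) * ‖riemannZeta (((1 - σ : ℝ) : ℂ) + T * I + z)‖ := by
    intro z
    unfold zS
    rw [norm_mul, Complex.norm_real, Real.norm_eq_abs, abs_of_pos (by positivity)]
  have hfac : T ^ (1 / 2 - σ) ≤ 1 := Real.rpow_le_one_of_one_le_of_nonpos (by linarith) (by linarith)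
  have hfac0 : 0 < T ^ (1 / 2 - σ) := by positivity
  have h2pow : ∀ p : ℝ, 0 ≤ p → p ≤ 3 → (2 : ℝ) ^ p ≤ 8 := by
    intro p h0 h1
    calc (2:ℝ) ^ p ≤ 2 ^ (3:ℝ) := Real.rpow_le_rpow_of_exponent_le (by norm_num) h1
      _ = 8 := by norm_num
  -- the left side
  have hl : ∀ z : ℂ, -2 ≤ z.re → z.re ≤ σ - 1 / 2 → |z.im| ≤ W →
      Real.exp (-K) * (T / 2) ^ (σ - 1 / 2 - z.re) * ‖riemannZeta (1 - (((1 - σ : ℝ) : ℂ) + T * I + z))‖ ≤
        ‖riemannZeta (((1 - σ : ℝ) : ℂ) + T * I + z)‖ ∧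
      ‖riemannZeta (((1 - σ : ℝ) : ℂ) + T * I + z)‖ ≤
        Real.exp K * (2 * T) ^ (σ - 1 / 2 - z.re) * ‖riemannZeta (1 - (((1 - σ : ℝ) : ℂ) + T * I + z))‖ := by
    intro z h1 h2 h3
    obtain ⟨h4, h5, h6⟩ := hco z h3
    obtain ⟨s, hs⟩ : ∃ s : ℂ, s = ((1 - σ : ℝ) : ℂ) + T * I + z := ⟨_, rfl⟩
    rw [← hs] at h4 h5 h6 ⊢
    have e1 : (1 - s).re = σ - z.re := by rw [Complex.sub_re, h4, Complex.one_re]; ring
    have e2 : |(1 - s).im| = s.im := by
      rw [Complex.sub_im, Complex.one_im, zero_sub, abs_neg, abs_of_pos (by linarith)]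
    obtain ⟨h7, h8⟩ := hleft (1 - s) (by rw [e1]; linarith) (by rw [e1]; linarith) (by rw [e2]; linarith)
    rw [sub_sub_cancel, e1, e2] at h7 h8
    have e3 : σ - z.re - 1 / 2 = σ - 1 / 2 - z.re := by ring
    rw [e3] at h7 h8
    constructor
    · refine le_trans ?_ h7
      apply mul_le_mul_of_nonneg_right _ (norm_nonneg _)
      apply mul_le_mul_of_nonneg_left _ (Real.exp_pos _).le
      exact Real.rpow_le_rpow (by positivity) h5 (by linarith)
    · refine h8.trans ?_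
      apply mul_le_mul_of_nonneg_right _ (norm_nonneg _)
      apply mul_le_mul_of_nonneg_left _ (Real.exp_pos _).le
      exact Real.rpow_le_rpow (by linarith) h6 (by linarith)
  have hcomb : ∀ p : ℝ, T ^ (1 / 2 - σ) * T ^ (σ - 1 / 2 + p) = T ^ p := fun p => by
    rw [← Real.rpow_add ht0]; congr 1; ring
  refine ⟨fun z h1 h2 => ?_, fun z h1 h2 => ?_, fun z h1 h2 h3 => ?_, fun z h1 h2 h3 => ?_, fun z h1 h2 h3 => ?_⟩
  · have hd : DifferentiableOn ℂ riemannZeta {s : ℂ | s ≠ 1} := fun s hs =>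
      (differentiableAt_riemannZeta hs).differentiableWithinAt
    have h3 : AnalyticAt ℂ riemannZeta (((1 - σ : ℝ) : ℂ) + T * I + z) :=
      hd.analyticAt (isOpen_ne.mem_nhds (hne z h2))
    have h4 : AnalyticAt ℂ (fun z : ℂ => ((1 - σ : ℝ) : ℂ) + T * I + z) z := by fun_prop
    exact analyticAt_const.mul
      (AnalyticAt.comp (g := riemannZeta) (f := fun z : ℂ => ((1 - σ : ℝ) : ℂ) + T * I + z) h3 h4)
  · -- crude
    have h1' := abs_le.1 h1
    obtain ⟨h4, h5, h6⟩ := hco z h2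
    rw [hnorm]
    have hT5 : Real.exp (5 * Real.log T) = T ^ 5 := by
      rw [hpow]
      exact_mod_cast Real.rpow_natCast T 5
    rw [hT5]
    refine le_trans (mul_le_of_le_one_left (norm_nonneg _) hfac) ?_
    rcases le_total (σ - 1 / 2) z.re with h | h
    · have h7 := zeta_growth_abs (s := ((1 - σ : ℝ) : ℂ) + T * I + z) (by rw [h4]; linarith)
        (by rw [abs_of_pos (by linarith)]; linarith)
      have h8 := Complex.norm_le_abs_re_add_abs_im (((1 - σ : ℝ) : ℂ) + T * I + z)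
      rw [h4, abs_of_nonneg (by linarith : 0 ≤ 1 - σ + z.re), abs_of_pos (show 0 < (((1 - σ : ℝ) : ℂ) + T * I + z : ℂ).im by linarith)] at h8
      have h9 : ‖riemannZeta (((1 - σ : ℝ) : ℂ) + T * I + z)‖ ≤ 6 * (3 + 2 * T) := h7.trans (by linarith)
      have h10 : 6 * (3 + 2 * T) ≤ 100 * T := by linarith
      have h11 : 100 * T ≤ T ^ 2 := by nlinarith
      have h12 : T ^ 2 ≤ T ^ 5 := pow_le_pow_right₀ (by linarith) (by norm_num)
      linarith
    · obtain ⟨-, h7⟩ := hl z h1'.1 h h2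
      have h8 := zeta_growth_abs (s := 1 - (((1 - σ : ℝ) : ℂ) + T * I + z)) (by
        rw [Complex.sub_re, h4, Complex.one_re]; linarith) (by
        rw [Complex.sub_im, Complex.one_im, zero_sub, abs_neg, abs_of_pos (by linarith)]; linarith)
      have h9 := Complex.norm_le_abs_re_add_abs_im (1 - (((1 - σ : ℝ) : ℂ) + T * I + z))
      rw [Complex.sub_re, h4, Complex.one_re, Complex.sub_im, Complex.one_im, zero_sub, abs_neg,
        abs_of_nonneg (by linarith : 0 ≤ 1 - (1 - σ + z.re)), abs_of_pos (show 0 < (((1 - σ : ℝ) : ℂ) + T * I + z : ℂ).im by linarith)] at h9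
      have h10 : ‖riemannZeta (1 - (((1 - σ : ℝ) : ℂ) + T * I + z))‖ ≤ 100 * T := h8.trans (by linarith)
      have h11 : (2 * T) ^ (σ - 1 / 2 - z.re) ≤ 8 * T ^ 3 := by
        calc (2 * T) ^ (σ - 1 / 2 - z.re) ≤ (2 * T) ^ (3:ℝ) :=
              Real.rpow_le_rpow_of_exponent_le (by linarith) (by linarith)
          _ = (2 * T) ^ 3 := by exact_mod_cast Real.rpow_natCast (2 * T) 3
          _ = 8 * T ^ 3 := by ring
      calc ‖riemannZeta (((1 - σ : ℝ) : ℂ) + T * I + z)‖ ≤ Real.exp K * (8 * T ^ 3) * (100 * T) := by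
            refine h7.trans ?_
            exact mul_le_mul (mul_le_mul_of_nonneg_left h11 (Real.exp_pos _).le) h10 (norm_nonneg _)
              (by positivity)
        _ = (1000 * Real.exp K) * ((4 / 5) * T ^ 4) := by ring
        _ ≤ T * ((4 / 5) * T ^ 4) := mul_le_mul_of_nonneg_right (by linarith) (by positivity)
        _ ≤ T ^ 5 := by
            have : 0 < T ^ 5 := by positivity
            nlinarith
  · -- right
    obtain ⟨h4, h5, h6⟩ := hco z h3
    rw [hnorm, hpow]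
    have h7 := hR (((1 - σ : ℝ) : ℂ) + T * I + z) (by rw [h4]; linarith) (by linarith)
      (σ - 1 / 2) (by linarith) (by rw [h4]; linarith)
    have h8 : (((1 - σ : ℝ) : ℂ) + T * I + z : ℂ).im ^ (σ - 1 / 2 + η / 2) ≤ 2 * T ^ (σ - 1 / 2 + η / 2) := by
      calc (((1 - σ : ℝ) : ℂ) + T * I + z : ℂ).im ^ (σ - 1 / 2 + η / 2) ≤ (2 * T) ^ (σ - 1 / 2 + η / 2) :=
            Real.rpow_le_rpow (by linarith) h6 (by linarith)
        _ = 2 ^ (σ - 1 / 2 + η / 2) * T ^ (σ - 1 / 2 + η / 2) := Real.mul_rpow (by norm_num) ht0.le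
        _ ≤ 2 ^ (1 : ℝ) * T ^ (σ - 1 / 2 + η / 2) := by
            apply mul_le_mul_of_nonneg_right _ (by positivity)
            exact Real.rpow_le_rpow_of_exponent_le (by norm_num) (by linarith)
        _ = _ := by rw [Real.rpow_one]
    calc T ^ (1 / 2 - σ) * ‖riemannZeta (((1 - σ : ℝ) : ℂ) + T * I + z)‖
        ≤ T ^ (1 / 2 - σ) * (C * (2 * T ^ (σ - 1 / 2 + η / 2))) := by
          apply mul_le_mul_of_nonneg_left _ hfac0.le
          refine h7.trans ?_
          exact mul_le_mul_of_nonneg_left h8 (by linarith)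
      _ = 2 * C * (T ^ (1 / 2 - σ) * T ^ (σ - 1 / 2 + η / 2)) := by ring
      _ = 2 * C * T ^ (η / 2) := by rw [hcomb]
      _ ≤ T ^ (η / 2) * T ^ (η / 2) := by
          apply mul_le_mul_of_nonneg_right _ (by positivity)
          refine le_trans ?_ hMt'
          rw [hM]
          have : 0 < 8 * Real.exp K * A := by positivity
          linarith
      _ = T ^ η := by rw [← Real.rpow_add ht0]; congr 1; ring
  · -- up
    obtain ⟨h4, h5, h6⟩ := hco z h3
    obtain ⟨-, h7⟩ := hl z h1 (by linarith) h3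
    have h8 := (hz (1 - (((1 - σ : ℝ) : ℂ) + T * I + z)) (by rw [Complex.sub_re, h4, Complex.one_re]; linarith)).1
    rw [hnorm, hpow]
    have h9 : (2 * T) ^ (σ - 1 / 2 - z.re) ≤ 8 * T ^ (σ - 1 / 2 + -z.re) := by
      rw [Real.mul_rpow (by norm_num) ht0.le, ← sub_eq_add_neg]
      exact mul_le_mul_of_nonneg_right (h2pow _ (by linarith) (by linarith)) (by positivity)
    calc T ^ (1 / 2 - σ) * ‖riemannZeta (((1 - σ : ℝ) : ℂ) + T * I + z)‖
        ≤ T ^ (1 / 2 - σ) * (Real.exp K * (8 * T ^ (σ - 1 / 2 + -z.re)) * A) := by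
          apply mul_le_mul_of_nonneg_left _ hfac0.le
          refine h7.trans ?_
          exact mul_le_mul (mul_le_mul_of_nonneg_left h9 (Real.exp_pos _).le) h8 (norm_nonneg _)
            (by positivity)
      _ = (T ^ (1 / 2 - σ) * T ^ (σ - 1 / 2 + -z.re)) * (8 * Real.exp K * A) := by ring
      _ = T ^ (-z.re) * (8 * Real.exp K * A) := by rw [hcomb]
      _ ≤ T ^ (-z.re) * T ^ η := by
          apply mul_le_mul_of_nonneg_left _ (by positivity)
          refine le_trans ?_ hMt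
          rw [hM]
          linarith
      _ = _ := by rw [← Real.rpow_add ht0]
  · -- lo
    obtain ⟨h4, h5, h6⟩ := hco z h3
    obtain ⟨h7, -⟩ := hl z h1 (by linarith) h3
    have h8 := (hz (1 - (((1 - σ : ℝ) : ℂ) + T * I + z)) (by rw [Complex.sub_re, h4, Complex.one_re]; linarith)).2
    rw [hnorm, hpow]
    have h9 : T ^ (σ - 1 / 2 + -z.re) / 8 ≤ (T / 2) ^ (σ - 1 / 2 - z.re) := by
      rw [Real.div_rpow ht0.le (by norm_num), ← sub_eq_add_neg]
      apply div_le_div_of_nonneg_left (by positivity) (by positivity)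
      exact h2pow _ (by linarith) (by linarith)
    have hMA : 8 * Real.exp K * A ≤ T ^ η := by
      refine le_trans ?_ hMt
      rw [hM]
      linarith
    calc T ^ (-z.re - η) = T ^ (-z.re) * (T ^ η)⁻¹ := by
          rw [sub_eq_add_neg, Real.rpow_add ht0, Real.rpow_neg ht0.le η]
      _ ≤ T ^ (-z.re) * (8 * Real.exp K * A)⁻¹ := by
          apply mul_le_mul_of_nonneg_left _ (by positivity)
          exact inv_anti₀ (by positivity) hMA
      _ = (T ^ (1 / 2 - σ) * T ^ (σ - 1 / 2 + -z.re)) * (8 * Real.exp K * A)⁻¹ := by rw [hcomb]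
      _ = T ^ (1 / 2 - σ) * (Real.exp (-K) * (T ^ (σ - 1 / 2 + -z.re) / 8) * (1 / A)) := by
          rw [Real.exp_neg]
          field_simp
      _ ≤ T ^ (1 / 2 - σ) * (Real.exp (-K) * (T / 2) ^ (σ - 1 / 2 - z.re) *
          ‖riemannZeta (1 - (((1 - σ : ℝ) : ℂ) + T * I + z))‖) := by
          apply mul_le_mul_of_nonneg_left _ hfac0.le
          apply mul_le_mul _ h8 (by positivity) (by positivity)
          exact mul_le_mul_of_nonneg_left h9 (Real.exp_pos _).le
      _ ≤ _ := mul_le_mul_of_nonneg_left h7 hfac0.le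

end Pool.Agent.TH804.SE
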