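import Pool.Agent.TH804.SE3

/-! Few `a`-points of `P(D)ζ` imply small values of zeta on the reflected line, uniformly. -/

set_option autoImplicit false

open Complex Filter Topology Metric Set Polynomial
open H370 H370.Loc

set_option maxHeartbeats 4000000

namespace Pool.Agent.TH804.SE

open Pool.Agent.TH804.SB
open SP (PZ)

lemma PF_smul_left (P : ℂ[X]) (c : ℂ) (F : ℂ → ℂ) (z : ℂ) : PF P (fun z => c * F z) z = c * PF P F z := by
  induction P using Polynomial.induction_on' with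
  | add p q hp hq => rw [PF_add, PF_add, hp, hq]; ring
  | monomial i a =>
    rw [PF_monomial, PF_monomial, iteratedDeriv_const_mul_field]
    ring

lemma PF_zS (P : ℂ[X]) (σ T : ℝ) (z : ℂ) :
    PF P (zS σ T) z = ((T ^ (1 / 2 - σ) : ℝ) : ℂ) * PZ P (((1 - σ : ℝ) : ℂ) + T * I + z) := by
  have h1 := PF_smul_left P ((T ^ (1 / 2 - σ) : ℝ) : ℂ) (fun z => riemannZeta (((1 - σ : ℝ) : ℂ) + T * I + z)) z
  have h2 : PF P (fun z => riemannZeta (((1 - σ : ℝ) : ℂ) + T * I + z)) z =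
      PZ P (((1 - σ : ℝ) : ℂ) + T * I + z) := PF_shift P riemannZeta (((1 - σ : ℝ) : ℂ) + T * I) z
  rw [h2] at h1
  exact h1

/-- few `a`-points of `P(D)ζ` in the box `0 < Re s ≤ 1 - σ`, `|Im s - T| ≤ 1` -/
def FewP (P : ℂ[X]) (a : ℂ) (σ T n : ℝ) : Prop := ∀ S : Finset ℂ,
  (∀ s ∈ S, 0 < s.re ∧ s.re ≤ 1 - σ ∧ |s.im - T| ≤ 1 ∧ PZ P s = a) →
    ∑ s ∈ S, (analyticOrderNatAt (fun s => PZ P s - a) s : ℝ) ≤ n

/-- no `a`-points to the left of the strip -/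
theorem no_left' {P : ℂ[X]} (hP : P ≠ 0) (a : ℂ) : ∃ T₀ : ℝ, ∀ s : ℂ, -1 ≤ s.re → s.re ≤ 0 →
    T₀ ≤ |s.im| → PZ P s ≠ a := by
  obtain ⟨T₁, h1⟩ := no_left hP a
  obtain ⟨c, L, hc, hPF⟩ := PF_eq _ P hP rfl
  obtain ⟨η, hη, hηb, ℓ₀, hℓ₀, hleft⟩ := opL_left L (1 / 8) (by norm_num) (by norm_num)
  obtain ⟨T₃, hT₃, hLG⟩ := zT_LG (η := η) (W := 1) hη one_pos
  have hc0 : 0 < ‖c‖ := norm_pos_iff.2 hc
  refine ⟨|T₁| + T₃ + Real.exp ℓ₀ + Real.exp (4 * (1 + ‖a‖) / ‖c‖), fun s hs1 hs2 hs3 hsa => ?_⟩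
  have c1 := le_abs_self T₁
  have c3 := abs_nonneg T₁
  have c5 := Real.exp_pos ℓ₀
  have c6 := Real.exp_pos (4 * (1 + ‖a‖) / ‖c‖)
  rcases le_or_gt (-(1 / 4)) s.re with h | h
  · exact h1 s h hs2 (by linarith) hsa
  · obtain ⟨ℓ, hℓ⟩ : ∃ ℓ : ℝ, ℓ = Real.log |s.im| := ⟨_, rfl⟩
    have him0 : 0 < |s.im| := by linarith
    have hℓ1 : ℓ₀ ≤ ℓ := by
      rw [hℓ, Real.le_log_iff_exp_le him0]; linarith
    have hℓ2 : 4 * (1 + ‖a‖) / ‖c‖ ≤ ℓ := by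
      rw [hℓ, Real.le_log_iff_exp_le him0]; linarith
    have hF := hLG s.im (by linarith)
    rw [← hℓ] at hF
    obtain ⟨z, hz⟩ : ∃ z : ℂ, z = ((s.re - 1 / 2 : ℝ) : ℂ) := ⟨_, rfl⟩
    have hzre : z.re = s.re - 1 / 2 := by rw [hz, Complex.ofReal_re]
    have hzim : z.im = 0 := by rw [hz, Complex.ofReal_im]
    have hzs : 1 / 2 + s.im * I + z = s := by
      apply Complex.ext <;> simp [hz]
    obtain ⟨h4, -⟩ := hleft (zT s.im) 1 5 ℓ hℓ1 hF z (by rw [hzre]; linarith) (by rw [hzre]; linarith)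
      (by rw [hzim, abs_zero]; linarith)
    have h5 := hPF (zT s.im) z (hF.an z (by rw [hzre, abs_le]; constructor <;> linarith)
      (by rw [hzim, abs_zero]; exact zero_le_one))
    rw [PF_zT, hzs, hsa] at h5
    have h6 : ‖a‖ = ‖c‖ * ‖opL L (zT s.im) z‖ := by rw [h5, norm_mul]
    have h7 : 1 / 4 * ℓ ≤ (-z.re - 1 / 8) * ℓ := by
      apply mul_le_mul_of_nonneg_right _ (by linarith)
      rw [hzre]; linarith
    have h8 := Real.add_one_le_exp ((-z.re - 1 / 8) * ℓ)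
    rw [div_le_iff₀ hc0] at hℓ2
    have h9 : ‖c‖ * (1 / 4 * ℓ) ≤ ‖c‖ * ‖opL L (zT s.im) z‖ :=
      mul_le_mul_of_nonneg_left (by linarith) hc0.le
    have h10 := norm_nonneg a
    nlinarith

/-- translation of the counts -/
lemma few_of_fewP {P : ℂ[X]} {a : ℂ} {δ σ T y n : ℝ} (hσ : 1 / 2 ≤ σ) (hσ1 : σ ≤ 1) (hT : 0 < T) (hTy : 1 < T + y)
    (hno : ∀ s : ℂ, -1 ≤ s.re → s.re ≤ 0 → |s.im - (T + y)| ≤ 1 → PZ P s ≠ a)
    (h : FewP P a (σ + δ) (T + y) n) : Few (PF P (zS σ T)) (((T ^ (1 / 2 - σ) : ℝ) : ℂ) * a) δ y n := by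
  classical
  obtain ⟨τ, hτ⟩ : ∃ τ : ℂ, τ = ((T ^ (1 / 2 - σ) : ℝ) : ℂ) := ⟨_, rfl⟩
  have hτ0 : τ ≠ 0 := by
    rw [hτ, Ne, Complex.ofReal_eq_zero]
    positivity
  obtain ⟨s₀, hs₀⟩ : ∃ s₀ : ℂ, s₀ = ((1 - σ : ℝ) : ℂ) + T * I := ⟨_, rfl⟩
  have hs₀re : s₀.re = 1 - σ := by rw [hs₀]; simp
  have hs₀im : s₀.im = T := by rw [hs₀]; simp
  have hPFz : ∀ z, PF P (zS σ T) z = τ * PZ P (s₀ + z) := fun z => by rw [PF_zS, hτ, hs₀]
  intro S hS
  have hinj : Set.InjOn (fun z : ℂ => s₀ + z) S := fun x _ y _ h => by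
    simpa using h
  have hb : ∀ z ∈ S, 0 < (s₀ + z).re ∧ (s₀ + z).re ≤ 1 - (σ + δ) ∧ |(s₀ + z).im - (T + y)| ≤ 1 ∧
      PZ P (s₀ + z) = a := by
    intro z hz
    obtain ⟨h1, h2, h3, h4⟩ := hS z hz
    have hre : (s₀ + z).re = 1 - σ + z.re := by rw [Complex.add_re, hs₀re]
    have him : (s₀ + z).im = T + z.im := by rw [Complex.add_im, hs₀im]
    have h3' : |(s₀ + z).im - (T + y)| ≤ 1 := by
      rw [him]
      have : T + z.im - (T + y) = z.im - y := by ring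
      rw [this]; exact h3
    rw [hPFz, ← hτ] at h4
    have h5 : PZ P (s₀ + z) = a := mul_left_cancel₀ hτ0 h4
    refine ⟨?_, by rw [hre]; linarith, h3', h5⟩
    by_contra hcon
    push Not at hcon
    exact hno _ (by rw [hre]; linarith) hcon h3' h5
  have h1 := h (S.image fun z : ℂ => s₀ + z) (fun s hs => by
    obtain ⟨z, hz, rfl⟩ := Finset.mem_image.1 hs
    exact hb z hz)
  rw [Finset.sum_image hinj] at h1
  refine le_trans (le_of_eq (Finset.sum_congr rfl fun z hz => ?_)) h1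
  obtain ⟨b1, b2, b3, b4⟩ := hb z hz
  have hne : s₀ + z ≠ 1 := by
    intro h0
    rw [h0] at b3
    have := abs_le.1 b3
    simp only [Complex.one_im] at this
    linarith
  have han : AnalyticAt ℂ (fun s => PZ P s - a) (s₀ + z) := (SP.PZ_an P _ hne).sub analyticAt_const
  have e : (fun v => PF P (zS σ T) v - τ * a) = fun v => τ * ((fun s => PZ P s - a) (s₀ + v)) := by
    funext v
    rw [hPFz]
    ring
  have h6 := mult_shift (fun s => PZ P s - a) s₀ z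
  have h7 : AnalyticAt ℂ (fun v => (fun s => PZ P s - a) (s₀ + v)) z := by
    have h8 : AnalyticAt ℂ (fun v : ℂ => s₀ + v) z := by fun_prop
    exact AnalyticAt.comp (g := fun s => PZ P s - a) (f := fun v : ℂ => s₀ + v) han h8
  have h9 := mult_smul (c := τ) hτ0 h7
  rw [← hτ, e, h9, h6]
  rfl

/-- **few points imply small values** -/
theorem small_of_few_s {P : ℂ[X]} (hP : P ≠ 0) (a : ℂ) {ε : ℝ} (hε : 0 < ε) : ∃ δ κ W T₀ : ℝ, 0 < δ ∧ δ ≤ 1 / 4 ∧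
    0 < κ ∧ 0 < W ∧ ∀ T : ℝ, T₀ ≤ T → ∀ σ : ℝ, 1 / 2 ≤ σ → σ ≤ 1 →
      (∀ T' : ℝ, |T' - T| ≤ W → FewP P a (σ + δ) T' (κ * Real.log T)) →
      ‖riemannZeta (σ + T * I)‖ ≤ T ^ ε := by
  obtain ⟨δ, κ, η, W, ℓ₀, hδ, hδ1, hκ, hη, hW, h⟩ := P2_u hP (A₀ := ‖a‖) (norm_nonneg a) (ε := ε / 2) (B := 5)
    (by positivity) (by norm_num)
  obtain ⟨T₁, hT₁, hLG⟩ := zS_LG (η := min η (1 / 2)) (W := W) (lt_min hη (by norm_num)) (min_le_right _ _) hW
  obtain ⟨T₂, hno⟩ := no_left' hP a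
  obtain ⟨K, hK, hleft⟩ := zeta_left'
  have hKp : 0 ≤ (Real.exp K) ^ (1 / (ε / 2)) := by positivity
  refine ⟨δ, κ, W, T₁ + |T₂| + W + 4 + Real.exp ℓ₀ + (Real.exp K) ^ (1 / (ε / 2)), hδ, hδ1, hκ, hW,
    fun T hT σ hσ1 hσ2 hfew => ?_⟩
  have c1 := le_abs_self T₂
  have c2 := abs_nonneg T₂
  have c3 := Real.exp_pos ℓ₀
  have hT0 : 0 < T := by linarith
  have hℓ0 : 0 ≤ Real.log T := Real.log_nonneg (by linarith)
  have hKT : Real.exp K ≤ T ^ (ε / 2) := W587.PL.large_of_rpow (Real.exp_pos K) (by positivity) (by linarith)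
  have hna : ‖((T ^ (1 / 2 - σ) : ℝ) : ℂ) * a‖ ≤ ‖a‖ := by
    rw [norm_mul, Complex.norm_real, Real.norm_eq_abs, abs_of_pos (by positivity)]
    refine mul_le_of_le_one_left (norm_nonneg a) ?_
    exact Real.rpow_le_one_of_one_le_of_nonpos (by linarith) (by linarith)
  have h1 := h (((T ^ (1 / 2 - σ) : ℝ) : ℂ) * a) hna (zS σ T) (Real.log T)
    (by rw [Real.le_log_iff_exp_le hT0]; linarith)
    ((hLG T (by linarith) σ hσ1 hσ2).mono (min_le_left _ _) le_rfl hℓ0)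
    (fun y hy => by
      have hy' := abs_le.1 hy
      refine few_of_fewP hσ1 hσ2 hT0 (by linarith) (fun s h1 h2 h3 => hno s h1 h2 ?_)
        (hfew (T + y) (by rw [add_sub_cancel_left]; exact hy))
      have h3' := abs_le.1 h3
      rw [abs_of_pos (by linarith)]
      linarith)
  have h2 : ‖zS σ T 0‖ = T ^ (1 / 2 - σ) * ‖riemannZeta (1 - ((σ : ℂ) - T * I))‖ := by
    unfold zS
    rw [norm_mul, Complex.norm_real, Real.norm_eq_abs, abs_of_pos (by positivity)]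
    congr 3
    push_cast
    ring
  have hwre : ((σ : ℂ) - T * I).re = σ := by simp
  have hwim : |((σ : ℂ) - T * I).im| = T := by simp [abs_of_pos hT0]
  obtain ⟨h3, -⟩ := hleft ((σ : ℂ) - T * I) (by rw [hwre]; exact hσ1) (by rw [hwre]; linarith)
    (by rw [hwim]; linarith)
  rw [hwre, hwim] at h3
  have hconj : ‖riemannZeta ((σ : ℂ) - T * I)‖ = ‖riemannZeta (σ + T * I)‖ := by
    rw [← SP.norm_zeta_conj]
    congr 2
    simp
  rw [hconj] at h3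
  have hexp : Real.exp (ε / 2 * Real.log T) = T ^ (ε / 2) := by
    rw [Real.rpow_def_of_pos hT0, mul_comm]
  rw [h2, hexp] at h1
  have h4 : T ^ (1 / 2 - σ) * (Real.exp (-K) * T ^ (σ - 1 / 2) * ‖riemannZeta (σ + T * I)‖) ≤ T ^ (ε / 2) :=
    (mul_le_mul_of_nonneg_left h3 (by positivity)).trans h1
  have h5 : T ^ (1 / 2 - σ) * T ^ (σ - 1 / 2) = 1 := by
    rw [← Real.rpow_add hT0]
    simp
  have h6 : Real.exp (-K) * ‖riemannZeta (σ + T * I)‖ ≤ T ^ (ε / 2) := by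
    calc Real.exp (-K) * ‖riemannZeta (σ + T * I)‖ =
        (T ^ (1 / 2 - σ) * T ^ (σ - 1 / 2)) * (Real.exp (-K) * ‖riemannZeta (σ + T * I)‖) := by rw [h5, one_mul]
      _ = T ^ (1 / 2 - σ) * (Real.exp (-K) * T ^ (σ - 1 / 2) * ‖riemannZeta (σ + T * I)‖) := by ring
      _ ≤ _ := h4
  calc ‖riemannZeta (σ + T * I)‖ = Real.exp K * (Real.exp (-K) * ‖riemannZeta (σ + T * I)‖) := by
        rw [← mul_assoc, ← Real.exp_add]; simp
    _ ≤ T ^ (ε / 2) * T ^ (ε / 2) := mul_le_mul hKT h6 (by positivity) (by positivity)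
    _ = T ^ ε := by rw [← Real.rpow_add hT0]; congr 1; ring

end Pool.Agent.TH804.SE
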