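import Pool.Agent.TH804.SE4
import Pool.Agent.TH804.SD11

/-! No `a`-points of `P(D)ζ` opposite to zero-free windows; the number of `a`-points in a window. -/

set_option autoImplicit false

open Complex Filter Topology Metric Set Polynomial
open H370 H370.Loc

set_option maxHeartbeats 4000000

namespace Pool.Agent.TH804.SE

open Pool.Agent.TH804.SB Pool.Agent.TH804.SD
open SP (PZ)

/-- **two-sided bounds, local form** -/
theorem opL_loc (L : List ℂ) : ∀ ε : ℝ, 0 < ε → ε ≤ 1 → ∃ η : ℝ, 0 < η ∧ η ≤ ε ∧ ∃ ℓ₀ : ℝ, 1 ≤ ℓ₀ ∧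
    ∀ (F : ℂ → ℂ) (ℓ : ℝ) (z : ℂ), ℓ₀ ≤ ℓ → (∀ v ∈ closedBall z ε, AnalyticAt ℂ F v ∧
      Real.exp ((-v.re - η) * ℓ) ≤ ‖F v‖ ∧ ‖F v‖ ≤ Real.exp ((-v.re + η) * ℓ)) →
      Real.exp ((-z.re - ε) * ℓ) ≤ ‖opL L F z‖ ∧ ‖opL L F z‖ ≤ Real.exp ((-z.re + ε) * ℓ) := by
  induction L with
  | nil =>
    intro ε hε _
    refine ⟨ε, hε, le_rfl, 1, le_rfl, fun F ℓ z hℓ h => ?_⟩
    exact (h z (mem_closedBall_self hε.le)).2
  | cons l L ih =>
    intro ε hε hε1
    set ε' : ℝ := ε / 200 with hε'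
    have hε'0 : 0 < ε' := by positivity
    obtain ⟨η, hη, hηε, ℓ₀, hℓ₀, h⟩ := ih ε' hε'0 (by linarith)
    obtain ⟨Y, hY1, hY⟩ := exists_exp_dom 2 (ε := ε / 2) (by positivity)
    have hl0 := norm_nonneg l
    refine ⟨η, hη, by linarith, ℓ₀ + |Y| + 200 / ε + 4 * (1 + ‖l‖), by
      have := abs_nonneg Y
      have : 0 ≤ 200 / ε := by positivity
      linarith, fun F ℓ z hℓ hF => ?_⟩
    have hYa := le_abs_self Y
    have hYn := abs_nonneg Y
    have h200 : 0 ≤ 200 / ε := by positivity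
    have hℓ1 : 1 ≤ ℓ := by linarith
    have hℓ0 : 0 < ℓ := by linarith
    have hεℓ : 200 ≤ ε * ℓ := by
      have : 200 / ε ≤ ℓ := by linarith
      rw [div_le_iff₀ hε] at this
      linarith
    set G : ℂ → ℂ := opL L F with hG
    have hsub : ∀ v ∈ closedBall z (ε / 2), closedBall v ε' ⊆ closedBall z ε := by
      intro v hv w hw
      rw [mem_closedBall] at hv hw ⊢
      linarith [dist_triangle w v z]
    have hGan : ∀ v ∈ closedBall z (ε / 2), AnalyticAt ℂ G v := fun v hv =>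
      opL_an L (hF v (closedBall_subset_closedBall (by linarith) hv)).1
    have hGb : ∀ v ∈ closedBall z (ε / 2), Real.exp ((-v.re - ε') * ℓ) ≤ ‖G v‖ ∧
        ‖G v‖ ≤ Real.exp ((-v.re + ε') * ℓ) := fun v hv =>
      h F ℓ v (by linarith) (fun w hw => hF w (hsub v hv hw))
    have hb : ∀ v ∈ closedBall z (ε / 2), Real.exp (-(ε' * ℓ)) ≤ ‖G v * cexp (ℓ * v)‖ ∧
        ‖G v * cexp (ℓ * v)‖ ≤ Real.exp (ε' * ℓ) := by
      intro v hv
      obtain ⟨h4, h5⟩ := hGb v hv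
      rw [tw_norm]
      have hpos := Real.exp_pos (ℓ * v.re)
      constructor
      · calc Real.exp (-(ε' * ℓ)) = Real.exp ((-v.re - ε') * ℓ) * Real.exp (ℓ * v.re) := by
              rw [← Real.exp_add]; congr 1; ring
          _ ≤ _ := mul_le_mul_of_nonneg_right h4 hpos.le
      · calc ‖G v‖ * Real.exp (ℓ * v.re) ≤ Real.exp ((-v.re + ε') * ℓ) * Real.exp (ℓ * v.re) :=
              mul_le_mul_of_nonneg_right h5 hpos.le
          _ = _ := by rw [← Real.exp_add]; congr 1; ring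
    have hzz : z ∈ closedBall z (ε / 2) := mem_closedBall_self (by positivity)
    have hG0 : ∀ v ∈ closedBall z (ε / 2), G v ≠ 0 := by
      intro v hv h0
      have h1 := (hb v hv).1
      rw [h0, zero_mul, norm_zero] at h1
      linarith [Real.exp_pos (-(ε' * ℓ))]
    have hld := logDeriv_zero_free (g := fun v => G v * cexp (ℓ * v)) (c := z) (r := ε / 2)
      (r1 := ε / 4) (r2 := ε / 8) (B := 2 * (ε' * ℓ)) (by positivity) (by linarith) (by linarith)
      (by positivity) (fun v hv => (hGan v hv).mul (by fun_prop))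
      (fun v hv => mul_ne_zero (hG0 v hv) (Complex.exp_ne_zero _)) (fun v hv => by
        refine (hb v hv).2.trans ?_
        calc Real.exp (ε' * ℓ) = Real.exp (2 * (ε' * ℓ)) * Real.exp (-(ε' * ℓ)) := by
              rw [← Real.exp_add]; congr 1; ring
          _ ≤ _ := mul_le_mul_of_nonneg_left (hb z hzz).1 (Real.exp_pos _).le)
      (z := z) (mem_closedBall_self (by positivity))
    rw [tw_logDeriv (hGan z hzz).differentiableAt (hG0 z hzz)] at hld
    have e1 : 2 * (2 * (ε' * ℓ) + 1) * (ε / 4) / (ε / 2 - ε / 4) / (ε / 4 - ε / 8) =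
        2 * (2 * (ε' * ℓ) + 1) / (ε / 8) := by
      field_simp
      ring
    have e2 : 2 * (2 * (ε' * ℓ) + 1) / (ε / 8) ≤ ℓ / 4 := by
      rw [div_le_iff₀ (by positivity)]
      have : ε' * ℓ = ε * ℓ / 200 := by rw [hε']; ring
      rw [this]
      nlinarith
    rw [e1] at hld
    have hld2 : ‖logDeriv G z + ℓ‖ ≤ ℓ / 4 := hld.trans e2
    have hGz := hG0 z hzz
    have heq : deriv G z - l * G z = (logDeriv G z - l) * G z := by
      rw [logDeriv_apply, sub_mul, div_mul_cancel₀ _ hGz]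
    have hlow : 1 ≤ ‖logDeriv G z - l‖ := by
      have h1 : ‖(ℓ : ℂ)‖ ≤ ‖logDeriv G z + ℓ‖ + ‖l‖ + ‖logDeriv G z - l‖ := by
        calc ‖(ℓ : ℂ)‖ = ‖(logDeriv G z + ℓ) - l - (logDeriv G z - l)‖ := by congr 1; ring
          _ ≤ ‖(logDeriv G z + ℓ) - l‖ + ‖logDeriv G z - l‖ := norm_sub_le _ _
          _ ≤ _ := by
              have := norm_sub_le (logDeriv G z + ℓ) l
              linarith
      rw [Complex.norm_real, Real.norm_eq_abs, abs_of_pos hℓ0] at h1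
      linarith
    have hupp : ‖logDeriv G z - l‖ ≤ 2 * ℓ := by
      have h1 : ‖logDeriv G z - l‖ ≤ ‖logDeriv G z + ℓ‖ + ‖(ℓ : ℂ)‖ + ‖l‖ := by
        calc ‖logDeriv G z - l‖ = ‖(logDeriv G z + ℓ) - ℓ - l‖ := by congr 1; ring
          _ ≤ ‖(logDeriv G z + ℓ) - ℓ‖ + ‖l‖ := norm_sub_le _ _
          _ ≤ _ := by
              have := norm_sub_le (logDeriv G z + ℓ) (ℓ : ℂ)
              linarith
      rw [Complex.norm_real, Real.norm_eq_abs, abs_of_pos hℓ0] at h1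
      linarith
    obtain ⟨h4, h5⟩ := hGb z hzz
    rw [opL_cons]
    show _ ≤ ‖deriv G z - l * G z‖ ∧ ‖deriv G z - l * G z‖ ≤ _
    rw [heq, norm_mul]
    constructor
    · calc Real.exp ((-z.re - ε) * ℓ) ≤ Real.exp ((-z.re - ε') * ℓ) := by
            apply Real.exp_le_exp.2
            apply mul_le_mul_of_nonneg_right _ hℓ0.le
            linarith
        _ ≤ ‖G z‖ := h4
        _ = 1 * ‖G z‖ := (one_mul _).symm
        _ ≤ _ := mul_le_mul_of_nonneg_right hlow (norm_nonneg _)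
    · calc ‖logDeriv G z - l‖ * ‖G z‖ ≤ (2 * ℓ) * Real.exp ((-z.re + ε') * ℓ) :=
            mul_le_mul hupp h5 (norm_nonneg _) (by positivity)
        _ ≤ Real.exp (ε / 2 * ℓ) * Real.exp ((-z.re + ε') * ℓ) :=
            mul_le_mul_of_nonneg_right (hY ℓ (by linarith)) (Real.exp_pos _).le
        _ ≤ _ := by
            rw [← Real.exp_add]
            apply Real.exp_le_exp.2
            nlinarith

/-- zeta in zero-free windows, with the constant `7/4` -/
theorem zeta_window' {δ κ : ℝ} (hδ : 0 < δ) (hδ1 : δ ≤ 1 / 12) (hκ : 0 < κ) :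
    ∃ T₀ : ℝ, ∀ T : ℝ, T₀ ≤ T → ∀ σ : ℝ, 1 / 2 ≤ σ → σ ≤ 1 → ∀ t : ℝ, 4 ≤ t → t ≤ 4 * T →
      (∀ z : ℂ, σ - 3 * δ ≤ z.re → |z.im - t| ≤ 7 / 4 → riemannZeta z ≠ 0) → ∀ s : ℂ, σ ≤ s.re → s.im = t →
        T ^ (-κ) ≤ ‖riemannZeta s‖ ∧ ‖riemannZeta s‖ ≤ T ^ κ := by
  obtain ⟨A, hA, hright⟩ := DH31.zeta_bounds (a := 7 / 4) (by norm_num)
  obtain ⟨T₁, h₁⟩ := zf_T (l := 1 / 4) (A := A) (a := 2) (δ := δ) (κ := κ) (by norm_num) hA (by norm_num) hδ hκ
  obtain ⟨T₂, h₂⟩ := Filter.eventually_atTop.1 ((tendsto_rpow_atTop hκ).eventually_ge_atTop A)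
  refine ⟨max (max T₁ T₂) 60, ?_⟩
  intro T hT σ hσ1 hσ2 t ht1 ht2 h0 s hs1 hs2
  have hT₁ : T₁ ≤ T := (le_max_left _ _).trans ((le_max_left _ _).trans hT)
  have hT₂ : T₂ ≤ T := (le_max_right _ _).trans ((le_max_left _ _).trans hT)
  have hT60 : 60 ≤ T := (le_max_right _ _).trans hT
  have hT0 : 0 < T := by linarith
  have him : ∀ z ∈ closedBall (⟨2, t⟩ : ℂ) (2 - σ + 3 * δ), 1 / 4 ≤ z.re ∧ z.re ≤ 4 ∧ 1 ≤ z.im ∧ z.im ≤ 4 * T + 2 := by
    intro z hz
    have h3 := DH31.ball_re_im hz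
    have h4 := abs_le.1 h3.2
    rw [mem_closedBall, dist_eq_norm] at hz
    have h5 := Complex.abs_re_le_norm (z - ⟨2, t⟩)
    simp only [Complex.sub_re] at h5
    have h6 := abs_le.1 (h5.trans hz)
    exact ⟨by linarith, by linarith, by linarith, by linarith⟩
  rcases le_or_gt s.re 2 with h | h
  · refine h₁ T hT₁ riemannZeta ⟨2, t⟩ (2 - σ) (by linarith) (by linarith)
      (fun z hz => DH31.zeta_analyticAt (by linarith [(him z hz).2.2.1])) ?_ ?_ ?_ ?_ s ?_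
    · intro z hz
      obtain ⟨h3, h4, h5, h6⟩ := him z hz
      refine (Pool.Agent.H388LH.zeta_growth h3 h5).trans ?_
      have h7 : ‖z‖ ≤ 4 + (4 * T + 2) := by
        refine (Complex.norm_le_abs_re_add_abs_im z).trans ?_
        rw [abs_of_nonneg (by linarith), abs_of_nonneg (by linarith)]
        linarith
      rw [show (2 : ℝ) = ((2 : ℕ) : ℝ) by norm_num, Real.rpow_natCast]
      nlinarith
    · intro z hz
      have h3 := DH31.ball_re_im hz
      exact (hright z (by linarith)).1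
    · exact (hright ⟨2, t⟩ (by simp only; norm_num)).2
    · intro z hz
      have h3 := DH31.ball_re_im hz
      exact h0 z (by linarith) (by linarith [h3.2])
    · rw [mem_closedBall, dist_eq_norm]
      have e1 : s - ⟨2, t⟩ = ((s.re - 2 : ℝ) : ℂ) := by
        apply Complex.ext <;> simp [hs2]
      rw [e1, Complex.norm_real, Real.norm_eq_abs, abs_of_nonpos (by linarith)]
      linarith
  · have h3 := hright s (by linarith)
    have h4 := h₂ T hT₂
    refine ⟨?_, h3.1.trans h4⟩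
    refine le_trans ?_ h3.2
    rw [Real.rpow_neg hT0.le, ← one_div]
    exact one_div_le_one_div_of_le (by linarith) h4

/-- **no `a`-points opposite to a zero-free window** -/
theorem no_pts {P : ℂ[X]} (hP : P ≠ 0) (a : ℂ) {δ : ℝ} (hδ : 0 < δ) (hδ1 : δ ≤ 1 / 2) : ∃ T₁ : ℝ, 8 ≤ T₁ ∧ ∀ σ : ℝ,
    1 / 2 + δ ≤ σ → σ ≤ 1 → ∀ s : ℂ, 0 ≤ s.re → s.re ≤ 1 - σ → T₁ ≤ s.im →
      (∀ z : ℂ, σ - δ ≤ z.re → |z.im - s.im| ≤ 2 → riemannZeta z ≠ 0) → PZ P s ≠ a := by
  obtain ⟨c, L, hc, hPF⟩ := PF_eq _ P hP rfl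
  have hc0 : 0 < ‖c‖ := norm_pos_iff.2 hc
  obtain ⟨ε, hεd⟩ : ∃ ε : ℝ, ε = δ / 4 := ⟨_, rfl⟩
  have hε0 : 0 < ε := by rw [hεd]; positivity
  obtain ⟨η, hη, hηε, ℓ₀, hℓ₀, hloc⟩ := opL_loc L ε hε0 (by linarith)
  obtain ⟨K, hK, hleft⟩ := zeta_left'
  have hK1 := Real.one_le_exp hK.le
  obtain ⟨T₂, hwin⟩ := zeta_window' (δ := δ / 6) (κ := η / 3) (by positivity) (by linarith) (by positivity)
  obtain ⟨M, hM⟩ : ∃ M : ℝ, M = Real.exp K * 2 := ⟨_, rfl⟩
  have hM0 : 0 < M := by rw [hM]; positivity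
  have hp : 0 ≤ M ^ (1 / (η / 3)) := by positivity
  have c0 := Real.exp_pos ℓ₀
  have c1 := abs_nonneg T₂
  have c2 := le_abs_self T₂
  have c3 := Real.exp_pos ((1 + ‖a‖) / ‖c‖ / ε)
  refine ⟨8 + |T₂| + Real.exp ℓ₀ + M ^ (1 / (η / 3)) + Real.exp ((1 + ‖a‖) / ‖c‖ / ε), by linarith,
    fun σ hσ1 hσ2 s hs1 hs2 hs3 hzf hsa => ?_⟩
  obtain ⟨T, hT⟩ : ∃ T : ℝ, T = s.im := ⟨_, rfl⟩
  rw [← hT] at hs3
  have hT8 : 8 ≤ T := by linarith
  have hT0 : 0 < T := by linarith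
  obtain ⟨ℓ, hℓ⟩ : ∃ ℓ : ℝ, ℓ = Real.log T := ⟨_, rfl⟩
  have hℓ1 : ℓ₀ ≤ ℓ := by
    rw [hℓ, Real.le_log_iff_exp_le hT0]; linarith
  have hℓ2 : (1 + ‖a‖) / ‖c‖ / ε ≤ ℓ := by
    rw [hℓ, Real.le_log_iff_exp_le hT0]; linarith
  have hMT : M ≤ T ^ (η / 3) := W587.PL.large_of_rpow hM0 (by positivity) (by linarith)
  obtain ⟨z, hz⟩ : ∃ z : ℂ, z = ((s.re - 1 / 2 : ℝ) : ℂ) := ⟨_, rfl⟩
  have hzre : z.re = s.re - 1 / 2 := by rw [hz, Complex.ofReal_re]
  have hzim : z.im = 0 := by rw [hz, Complex.ofReal_im]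
  have hzs : 1 / 2 + T * I + z = s := by
    apply Complex.ext <;> simp [hz, hT]
  have hpow : ∀ p : ℝ, Real.exp (p * ℓ) = T ^ p := fun p => by
    rw [Real.rpow_def_of_pos hT0, hℓ, mul_comm]
  -- the bounds for zeta near `s`
  have hbound : ∀ v ∈ closedBall z ε, AnalyticAt ℂ (zT T) v ∧
      Real.exp ((-v.re - η) * ℓ) ≤ ‖zT T v‖ ∧ ‖zT T v‖ ≤ Real.exp ((-v.re + η) * ℓ) := by
    intro v hv
    have h1 := abs_le.1 (ball_re hv)
    have h2 := abs_le.1 (ball_im hv)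
    rw [hzre] at h1
    rw [hzim, sub_zero] at h2
    obtain ⟨w, hw⟩ : ∃ w : ℂ, w = 1 / 2 + T * I + v := ⟨_, rfl⟩
    have hwre : w.re = 1 / 2 + v.re := by rw [hw]; simp
    have hwim : w.im = T + v.im := by rw [hw]; simp
    have hwim0 : 0 < w.im := by linarith
    have hzw : zT T v = riemannZeta w := by rw [hw]; rfl
    constructor
    · have h3 : AnalyticAt ℂ riemannZeta (1 / 2 + T * I + v) := by
        rw [← hw]; exact DH31.zeta_analyticAt hwim0
      have h4 : AnalyticAt ℂ (fun z : ℂ => 1 / 2 + T * I + z) v := by fun_prop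
      exact AnalyticAt.comp (g := riemannZeta) (f := fun z : ℂ => 1 / 2 + T * I + z) h3 h4
    · -- the reflected point
      have e1 : (1 - w).re = 1 / 2 - v.re := by rw [Complex.sub_re, hwre, Complex.one_re]; ring
      have e2 : |(1 - w).im| = w.im := by
        rw [Complex.sub_im, Complex.one_im, zero_sub, abs_neg, abs_of_pos hwim0]
      obtain ⟨h5, h6⟩ := hleft (1 - w) (by rw [e1]; linarith) (by rw [e1]; linarith) (by rw [e2]; linarith)
      rw [sub_sub_cancel, e1, e2] at h5 h6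
      have e3 : (1 : ℝ) / 2 - v.re - 1 / 2 = -v.re := by ring
      rw [e3] at h5 h6
      have hcj : ‖riemannZeta (1 - w)‖ = ‖riemannZeta ((starRingEnd ℂ) (1 - w))‖ := (SP.norm_zeta_conj _).symm
      have e4 : ((starRingEnd ℂ) (1 - w)).re = 1 / 2 - v.re := by rw [Complex.conj_re, e1]
      have e5 : ((starRingEnd ℂ) (1 - w)).im = w.im := by
        rw [Complex.conj_im, Complex.sub_im, Complex.one_im]; ring
      obtain ⟨h7, h8⟩ := hwin T (by linarith) (σ - ε) (by linarith) (by linarith) w.im (by linarith) (by linarith)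
        (fun u hu1 hu2 => hzf u (by linarith) (by
          have h9 := abs_le.1 hu2
          rw [← hT, abs_le]
          constructor <;> linarith)) ((starRingEnd ℂ) (1 - w)) (by rw [e4]; linarith) e5
      rw [← hcj] at h7 h8
      have hv0 : 0 ≤ -v.re := by linarith
      have hlow : T ^ (-v.re) / 2 ≤ w.im ^ (-v.re) := by
        have h9 : T / 2 ≤ w.im := by linarith
        calc T ^ (-v.re) / 2 ≤ T ^ (-v.re) / 2 ^ (-v.re) := by
              apply div_le_div_of_nonneg_left (by positivity) (by positivity)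
              calc (2 : ℝ) ^ (-v.re) ≤ 2 ^ (1 : ℝ) := Real.rpow_le_rpow_of_exponent_le (by norm_num) (by linarith)
                _ = 2 := Real.rpow_one _
          _ = (T / 2) ^ (-v.re) := (Real.div_rpow hT0.le (by norm_num) _).symm
          _ ≤ _ := Real.rpow_le_rpow (by positivity) h9 hv0
      have hupp : w.im ^ (-v.re) ≤ 2 * T ^ (-v.re) := by
        have h9 : w.im ≤ 2 * T := by linarith
        calc w.im ^ (-v.re) ≤ (2 * T) ^ (-v.re) := Real.rpow_le_rpow hwim0.le h9 hv0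
          _ = 2 ^ (-v.re) * T ^ (-v.re) := Real.mul_rpow (by norm_num) hT0.le
          _ ≤ 2 ^ (1 : ℝ) * T ^ (-v.re) := by
              apply mul_le_mul_of_nonneg_right _ (by positivity)
              exact Real.rpow_le_rpow_of_exponent_le (by norm_num) (by linarith)
          _ = _ := by rw [Real.rpow_one]
      rw [hzw, hpow, hpow]
      constructor
      · calc T ^ (-v.re - η) = (T ^ (η / 3))⁻¹ * (T ^ (-v.re) * (T ^ (-(η / 3)) * T ^ (-(η / 3)))) := by
              rw [← Real.rpow_neg hT0.le, ← Real.rpow_add hT0, ← Real.rpow_add hT0, ← Real.rpow_add hT0]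
              congr 1
              ring
          _ ≤ M⁻¹ * (T ^ (-v.re) * (T ^ (-(η / 3)) * 1)) := by
              have h10 : T ^ (-(η / 3)) ≤ 1 := Real.rpow_le_one_of_one_le_of_nonpos (by linarith) (by linarith)
              have h11 : (T ^ (η / 3))⁻¹ ≤ M⁻¹ := inv_anti₀ hM0 hMT
              gcongr
          _ = Real.exp (-K) * (T ^ (-v.re) / 2) * T ^ (-(η / 3)) := by
              rw [hM, Real.exp_neg]
              field_simp
          _ ≤ Real.exp (-K) * w.im ^ (-v.re) * ‖riemannZeta (1 - w)‖ := by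
              gcongr
          _ ≤ _ := h5
      · calc ‖riemannZeta w‖ ≤ Real.exp K * w.im ^ (-v.re) * ‖riemannZeta (1 - w)‖ := h6
          _ ≤ Real.exp K * (2 * T ^ (-v.re)) * T ^ (η / 3) := by gcongr
          _ = M * (T ^ (-v.re) * T ^ (η / 3)) := by rw [hM]; ring
          _ ≤ T ^ (η / 3) * (T ^ (-v.re) * T ^ (η / 3)) := by gcongr
          _ = T ^ (-v.re + 2 * (η / 3)) := by
              rw [← Real.rpow_add hT0, ← Real.rpow_add hT0]; congr 1; ring
          _ ≤ _ := Real.rpow_le_rpow_of_exponent_le (by linarith) (by linarith)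
  obtain ⟨h4, -⟩ := hloc (zT T) ℓ z hℓ1 hbound
  have h5 := hPF (zT T) z (hbound z (mem_closedBall_self hε0.le)).1
  rw [PF_zT, hzs, hsa] at h5
  have h6 : ‖a‖ = ‖c‖ * ‖opL L (zT T) z‖ := by rw [h5, norm_mul]
  have h7 : ε * ℓ ≤ (-z.re - ε) * ℓ := by
    apply mul_le_mul_of_nonneg_right _ (by linarith)
    rw [hzre]; linarith
  have h8 := Real.add_one_le_exp ((-z.re - ε) * ℓ)
  rw [div_le_iff₀ hε0, div_le_iff₀ hc0] at hℓ2
  have h9 : ‖c‖ * (ε * ℓ) ≤ ‖c‖ * ‖opL L (zT T) z‖ :=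
    mul_le_mul_of_nonneg_left (by linarith) hc0.le
  nlinarith

end Pool.Agent.TH804.SE
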