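import Pool.Agent.TH804.SE5

/-! The `a`-points: finiteness, local count, and the bound by zeros. -/

set_option autoImplicit false

open Complex Filter Topology Metric Set Polynomial
open H370 H370.Loc

set_option maxHeartbeats 4000000

namespace Pool.Agent.TH804.SE

open Pool.Agent.TH804.SB Pool.Agent.TH804.SD
open SP (PZ)

/-- `a`-points of `P(D)ζ` -/
def AP (P : ℂ[X]) (a : ℂ) (σ u v : ℝ) : Set ℂ :=
  {s : ℂ | PZ P s = a ∧ 0 < s.re ∧ s.re ≤ 1 - σ ∧ u < s.im ∧ s.im ≤ v}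

/-- `P(D)ζ - a` -/
noncomputable def fP (P : ℂ[X]) (a : ℂ) (s : ℂ) : ℂ := PZ P s - a

lemma AP_finite {P : ℂ[X]} (hP : P ≠ 0) (a : ℂ) {σ : ℝ} (hσ : 1 / 2 ≤ σ) (u v : ℝ) : (AP P a σ u v).Finite := by
  obtain ⟨T₀, hno⟩ := no_left' hP a
  have hcomp : IsCompact (Icc (0 : ℝ) (1 / 2) ×ℂ Icc u v) := isCompact_Icc.reProdIm isCompact_Icc
  by_contra hinf
  have hinf : (AP P a σ u v).Infinite := hinf
  obtain ⟨x, hx, hacc⟩ := hinf.exists_accPt_of_subset_isCompact hcomp (fun s hs =>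
    ⟨⟨hs.2.1.le, by linarith [hs.2.2.1]⟩, ⟨hs.2.2.2.1.le, hs.2.2.2.2⟩⟩)
  rw [Complex.mem_reProdIm] at hx
  have hx1 : x ≠ 1 := by
    rintro rfl
    have := hx.1.2
    norm_num at this
  have hfreq : ∃ᶠ z in 𝓝[≠] x, fP P a z = 0 := by
    rw [accPt_iff_frequently_nhdsNE] at hacc
    refine hacc.mono fun z hz => ?_
    unfold fP
    rw [hz.1, sub_self]
  have hconn : IsPreconnected ({1}ᶜ : Set ℂ) := by
    have h := isConnected_compl_singleton_of_one_lt_rank (E := ℂ) (by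
      rw [Complex.rank_real_complex]; norm_num) (1 : ℂ)
    exact h.isPreconnected
  have hz := AnalyticOnNhd.eqOn_zero_of_preconnected_of_frequently_eq_zero
      (f := fP P a) (U := {1}ᶜ) (fun s hs => (SP.PZ_an P s hs).sub analyticAt_const) hconn
      (show x ∈ ({1}ᶜ : Set ℂ) from hx1) hfreq
  have h1 : (⟨0, |T₀| + 1⟩ : ℂ) ≠ 1 := by
    intro h
    have := congrArg Complex.re h
    simp at this
  have h2 : fP P a ⟨0, |T₀| + 1⟩ = 0 := hz h1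
  refine hno ⟨0, |T₀| + 1⟩ (by simp) (by simp) ?_ (sub_eq_zero.1 h2)
  simp only
  rw [abs_of_nonneg (by positivity)]
  linarith [le_abs_self T₀]

/-- **local count** -/
theorem loc_AP {P : ℂ[X]} (hP : P ≠ 0) (a : ℂ) : ∃ C T₁ : ℝ, 0 < C ∧ 8 ≤ T₁ ∧ ∀ n : ℕ, T₁ ≤ n →
    ∀ W : Finset ℂ, (∀ z ∈ W, PZ P z = a ∧ 0 < z.re ∧ z.re ≤ 1 / 2 ∧ (n : ℝ) < z.im ∧ z.im ≤ n + 1) →
      ∑ z ∈ W, (analyticOrderNatAt (fP P a) z : ℝ) ≤ C * Real.log n := by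
  obtain ⟨c, L, hc, hPF⟩ := PF_eq _ P hP rfl
  have hc0 : 0 < ‖c‖ := norm_pos_iff.2 hc
  obtain ⟨η, hη, hηb, ℓ₀, hℓ₀, hleft⟩ := opL_left L (1 / 8) (by norm_num) (by norm_num)
  obtain ⟨T₃, hT₃, hLG⟩ := zT_LG (η := η) (W := 2) hη (by norm_num)
  obtain ⟨ℓ₁, hcrude⟩ := opL_crude L
  obtain ⟨q, hq⟩ : ∃ q : ℝ, q = Real.log ((87 / 100 : ℝ) / (81 / 100)) := ⟨_, rfl⟩
  have hq0 : 0 < q := by rw [hq]; exact Real.log_pos (by norm_num)
  have k1 := Real.exp_pos ℓ₀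
  have k2 := Real.exp_pos ℓ₁
  have k3 := Real.exp_pos (2 * (1 + ‖a‖) / ‖c‖ + ‖c‖ + ‖a‖ + 1)
  refine ⟨16 / q, T₃ + Real.exp ℓ₀ + Real.exp ℓ₁ + Real.exp (2 * (1 + ‖a‖) / ‖c‖ + ‖c‖ + ‖a‖ + 1),
    by positivity, by linarith, fun n hn W hW => ?_⟩
  obtain ⟨T, hT⟩ : ∃ T : ℝ, T = n + 1 / 2 := ⟨_, rfl⟩
  have hT8 : 8 ≤ T := by linarith
  have hT0 : 0 < T := by linarith
  have hn0 : (0 : ℝ) < n := by linarith
  obtain ⟨ℓ, hℓ⟩ : ∃ ℓ : ℝ, ℓ = Real.log T := ⟨_, rfl⟩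
  have hℓ1 : ℓ₀ ≤ ℓ := by rw [hℓ, Real.le_log_iff_exp_le hT0]; linarith
  have hℓ2 : ℓ₁ ≤ ℓ := by rw [hℓ, Real.le_log_iff_exp_le hT0]; linarith
  have hℓ3 : 2 * (1 + ‖a‖) / ‖c‖ + ‖c‖ + ‖a‖ + 1 ≤ ℓ := by rw [hℓ, Real.le_log_iff_exp_le hT0]; linarith
  have ha0 := norm_nonneg a
  have hd0 : 0 ≤ 2 * (1 + ‖a‖) / ‖c‖ := by positivity
  have hℓa : 2 * (1 + ‖a‖) ≤ ‖c‖ * ℓ := by
    have : 2 * (1 + ‖a‖) / ‖c‖ ≤ ℓ := by linarith
    rw [div_le_iff₀ hc0] at this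
    linarith
  have hℓpos : 1 ≤ ℓ := by linarith
  have hlogT : ℓ ≤ 2 * Real.log n := by
    rw [hℓ, ← Real.log_rpow hn0, show (2 : ℝ) = ((2 : ℕ) : ℝ) by norm_num, Real.rpow_natCast]
    apply Real.log_le_log hT0
    nlinarith
  have hF := hLG T (by rw [abs_of_pos hT0]; linarith)
  rw [abs_of_pos hT0, ← hℓ] at hF
  obtain ⟨p, hp⟩ : ∃ p : ℂ, p = ⟨-(1 / 8), T⟩ := ⟨_, rfl⟩
  have hpre : p.re = -(1 / 8) := by rw [hp]
  have hpim : p.im = T := by rw [hp]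
  -- values of `P(D)ζ` in terms of the local function
  have hval : ∀ s ∈ closedBall p (87 / 100), ‖PZ P s‖ = ‖c‖ * ‖opL L (zT T) (s - (1 / 2 + T * I))‖ ∧
      |(s - (1 / 2 + T * I)).re| ≤ 3 / 2 ∧ |(s - (1 / 2 + T * I)).im| ≤ 1 ∧ 0 < s.im := by
    intro s hs
    have h1 := abs_le.1 (ball_re hs)
    have h2 := abs_le.1 (ball_im hs)
    rw [hpre] at h1
    rw [hpim] at h2
    have e1 : (s - (1 / 2 + T * I)).re = s.re - 1 / 2 := by simp
    have e2 : (s - (1 / 2 + T * I)).im = s.im - T := by simp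
    rw [e1, e2]
    have b1 : |s.re - 1 / 2| ≤ 3 / 2 := by rw [abs_le]; constructor <;> linarith
    have b2 : |s.im - T| ≤ 1 := by rw [abs_le]; constructor <;> linarith
    refine ⟨?_, b1, b2, by linarith⟩
    have h5 := hPF (zT T) (s - (1 / 2 + T * I)) (hF.an _ (by rw [e1]; linarith) (by rw [e2]; linarith))
    rw [PF_zT, add_sub_cancel] at h5
    rw [h5, norm_mul]
  have hpc : p - (1 / 2 + T * I) = ((-(5 / 8) : ℝ) : ℂ) := by
    apply Complex.ext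
    · simp [hp]; norm_num
    · simp [hp]
  have hcen : 1 ≤ ‖fP P a p‖ := by
    have h1 := (hval p (mem_closedBall_self (by norm_num))).1
    rw [hpc] at h1
    obtain ⟨h2, -⟩ := hleft (zT T) 2 5 ℓ hℓ1 hF ((-(5 / 8) : ℝ) : ℂ) (by rw [Complex.ofReal_re]; norm_num)
      (by rw [Complex.ofReal_re]; norm_num) (by rw [Complex.ofReal_im, abs_zero]; norm_num)
    rw [Complex.ofReal_re] at h2
    have h3 := Real.add_one_le_exp ((- -(5 / 8) - 1 / 8) * ℓ)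
    have h4 : ‖c‖ * ((- -(5 / 8) - 1 / 8) * ℓ) ≤ ‖PZ P p‖ := by
      rw [h1]
      exact mul_le_mul_of_nonneg_left (by linarith) hc0.le
    have h5 : ‖PZ P p‖ - ‖a‖ ≤ ‖fP P a p‖ := norm_sub_norm_le _ _
    have h6 : (- -(5 / 8) - 1 / 8 : ℝ) = 1 / 2 := by norm_num
    rw [h6] at h4
    nlinarith
  have hup : ∀ s ∈ closedBall p (87 / 100), ‖fP P a s‖ ≤ Real.exp (8 * ℓ) := by
    intro s hs
    obtain ⟨h1, h2, h3, h4⟩ := hval s hs
    have h5 := hcrude (zT T) η 2 5 ℓ hℓ2 hF (s - (1 / 2 + T * I)) h2 (by linarith)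
    have h6 : ‖fP P a s‖ ≤ ‖PZ P s‖ + ‖a‖ := norm_sub_le _ _
    have h7 : ‖c‖ + ‖a‖ ≤ Real.exp ℓ := by
      have := Real.add_one_le_exp ℓ
      linarith
    have h8 : 1 ≤ Real.exp ((5 + 1) * ℓ) := Real.one_le_exp (by positivity)
    calc ‖fP P a s‖ ≤ ‖PZ P s‖ + ‖a‖ := h6
      _ ≤ ‖c‖ * Real.exp ((5 + 1) * ℓ) + ‖a‖ * Real.exp ((5 + 1) * ℓ) := by
          rw [h1]
          have i1 := mul_le_mul_of_nonneg_left h5 hc0.le
          have i2 := mul_le_mul_of_nonneg_left h8 ha0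
          rw [mul_one] at i2
          exact add_le_add i1 i2
      _ = (‖c‖ + ‖a‖) * Real.exp ((5 + 1) * ℓ) := by ring
      _ ≤ Real.exp ℓ * Real.exp ((5 + 1) * ℓ) := by gcongr
      _ = Real.exp (7 * ℓ) := by rw [← Real.exp_add]; congr 1; ring
      _ ≤ _ := Real.exp_le_exp.2 (by linarith)
  have han : AnalyticOnNhd ℂ (fP P a) (closedBall p (87 / 100)) := fun s hs => by
    have hne : s ≠ 1 := by
      rintro rfl
      have := (hval 1 hs).2.2.2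
      simp at this
    exact (SP.PZ_an P s hne).sub analyticAt_const
  have hj := jensen_mult (f := fP P a) (c := p) (r := 81 / 100) (R := 87 / 100) (M := Real.exp (8 * ℓ))
    (by norm_num) (by norm_num) (Real.one_le_exp (by positivity)) han
    (norm_pos_iff.1 (by linarith)) hup W (fun z hz => by
      obtain ⟨h1, h2, h3, h4, h5⟩ := hW z hz
      rw [mem_closedBall, dist_eq_norm]
      apply abs_le_of_sq_le_sq' _ (by norm_num) |>.2
      rw [← Complex.normSq_eq_norm_sq, Complex.normSq_apply, Complex.sub_re, Complex.sub_im, hpre, hpim, hT]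
      have e1 : (z.re - -(1 / 8)) * (z.re - -(1 / 8)) ≤ 25 / 64 := by nlinarith
      have e2 : (z.im - (n + 1 / 2)) * (z.im - (n + 1 / 2)) ≤ 1 / 4 := by nlinarith
      linarith)
  refine hj.trans ?_
  rw [← hq, div_mul_eq_mul_div]
  apply div_le_div_of_nonneg_right _ hq0.le
  have h9 : Real.log (Real.exp (8 * ℓ) / ‖fP P a p‖) ≤ 8 * ℓ := by
    rw [Real.log_div (Real.exp_pos _).ne' (by linarith), Real.log_exp]
    have := Real.log_nonneg hcen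
    linarith
  linarith

end Pool.Agent.TH804.SE
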