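import Pool.Agent.TH804.SE6
import Pool.Agent.TH804.LV3

/-! The two comparisons. -/

set_option autoImplicit false

open Complex Filter Topology Metric Set Polynomial

set_option maxHeartbeats 4000000

namespace Pool.Agent.TH804.SE

open Pool.Agent.TH804.SD Pool.Agent.TH804.LV
open SP (PZ)

/-- separated points, each with many points nearby -/
lemma sep_count {f : ℂ → ℂ} {B : Set ℂ} (hB : B.Finite) {W b : ℝ} {m : ℕ} (hm0 : 0 < m) (hm : 2 * W + 1 < m)
    (S : Finset ℂ) (hinj : Set.InjOn (fun s : ℂ => ⌊s.im⌋₊) S) (hpos : ∀ s ∈ S, 0 ≤ s.im) (F : ℂ → Finset ℂ)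
    (hF : ∀ s ∈ S, ∀ z ∈ F s, z ∈ B ∧ |z.im - s.im| ≤ W)
    (hb : ∀ s ∈ S, b ≤ ∑ z ∈ F s, (analyticOrderNatAt f z : ℝ)) :
    (S.card : ℝ) * b ≤ m * (cntf f B : ℝ) := by
  classical
  have h1 : ∀ r ∈ Finset.range m, ((S.filter (fun s => ⌊s.im⌋₊ % m = r)).card : ℝ) * b ≤ (cntf f B : ℝ) := by
    intro r _
    obtain ⟨Sr, hSr⟩ : ∃ Sr : Finset ℂ, Sr = S.filter (fun s => ⌊s.im⌋₊ % m = r) := ⟨_, rfl⟩
    rw [← hSr]
    have hsub : ∀ s ∈ Sr, s ∈ S := fun s hs => by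
      rw [hSr] at hs
      exact Finset.mem_of_mem_filter _ hs
    have hmod : ∀ s ∈ Sr, ⌊s.im⌋₊ % m = r := fun s hs => by
      rw [hSr] at hs
      exact (Finset.mem_filter.1 hs).2
    have hsp : ∀ s ∈ Sr, ∀ s' ∈ Sr, s ≠ s' → 2 * W < |s.im - s'.im| := by
      have aux : ∀ s ∈ Sr, ∀ s' ∈ Sr, ⌊s.im⌋₊ < ⌊s'.im⌋₊ → 2 * W < |s.im - s'.im| := by
        intro s hs s' hs' hlt
        have a1 := hmod s hs
        have a2 := hmod s' hs'
        have h2 : ⌊s.im⌋₊ + m ≤ ⌊s'.im⌋₊ := by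
          by_contra hcon
          push Not at hcon
          have a3 : (⌊s'.im⌋₊ - ⌊s.im⌋₊) % m = 0 := by
            have a4 : ⌊s.im⌋₊ ≡ ⌊s'.im⌋₊ [MOD m] := by
              unfold Nat.ModEq
              rw [a1, a2]
            exact Nat.mod_eq_zero_of_dvd ((Nat.modEq_iff_dvd' hlt.le).1 a4)
          rw [Nat.mod_eq_of_lt (by omega)] at a3
          omega
        have h3 : (⌊s.im⌋₊ : ℝ) + m ≤ ⌊s'.im⌋₊ := by exact_mod_cast h2
        have h4 := Nat.lt_floor_add_one s.im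
        have h5 := Nat.floor_le (hpos s' (hsub s' hs'))
        rw [abs_sub_comm]
        refine lt_of_lt_of_le ?_ (le_abs_self _)
        linarith
      intro s hs s' hs' hne
      have hne' : ⌊s.im⌋₊ ≠ ⌊s'.im⌋₊ := fun h => hne (hinj (hsub s hs) (hsub s' hs') h)
      rcases lt_or_gt_of_ne hne' with h | h
      · exact aux s hs s' hs' h
      · rw [abs_sub_comm]
        exact aux s' hs' s hs h
    have hdisj : (Sr : Set ℂ).PairwiseDisjoint F := by
      intro s hs s' hs' hne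
      rw [Function.onFun, Finset.disjoint_left]
      intro z hz hz'
      have h3 := hsp s hs s' hs' hne
      have h4 := (hF s (hsub s hs) z hz).2
      have h5 := (hF s' (hsub s' hs') z hz').2
      have h6 : |s.im - s'.im| ≤ |z.im - s.im| + |z.im - s'.im| := by
        have : s.im - s'.im = -(z.im - s.im) + (z.im - s'.im) := by ring
        rw [this]
        refine (abs_add_le _ _).trans ?_
        rw [abs_neg]
      linarith
    have h7 : ∑ z ∈ Sr.biUnion F, analyticOrderNatAt f z ≤ cntf f B := by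
      rw [cntf_eq hB]
      refine Finset.sum_le_sum_of_subset fun z hz => ?_
      rw [Finset.mem_biUnion] at hz
      obtain ⟨s, hs, hz⟩ := hz
      rw [Set.Finite.mem_toFinset]
      exact (hF s (hsub s hs) z hz).1
    have h8 : (∑ z ∈ Sr.biUnion F, (analyticOrderNatAt f z : ℝ)) ≤ (cntf f B : ℝ) := by exact_mod_cast h7
    rw [Finset.sum_biUnion hdisj] at h8
    refine le_trans ?_ h8
    calc (Sr.card : ℝ) * b = ∑ s ∈ Sr, b := by rw [Finset.sum_const, nsmul_eq_mul]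
      _ ≤ _ := Finset.sum_le_sum fun s hs => hb s (hsub s hs)
  have h2 : S.card = ∑ r ∈ Finset.range m, (S.filter (fun s => ⌊s.im⌋₊ % m = r)).card :=
    Finset.card_eq_sum_card_fiberwise
      (fun s _ => Finset.mem_coe.2 (Finset.mem_range.2 (Nat.mod_lt _ hm0)))
  rw [h2]
  push_cast
  rw [Finset.sum_mul]
  calc ∑ r ∈ Finset.range m, ((S.filter (fun s => ⌊s.im⌋₊ % m = r)).card : ℝ) * b
      ≤ ∑ r ∈ Finset.range m, (cntf f B : ℝ) := Finset.sum_le_sum h1
    _ = _ := by simp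

/-- **zeros of zeta in terms of `a`-points** -/
theorem zeta_le_AP {P : ℂ[X]} (hP : P ≠ 0) (a : ℂ) {ε δ : ℝ} (hε : 0 < ε) (hδ : 0 < δ) :
    ∃ C : ℝ, 0 < C ∧ ∃ W : ℝ, 0 < W ∧ ∃ T₀ : ℝ, ∀ T : ℝ, T₀ ≤ T → ∀ σ : ℝ, 1 / 2 + δ ≤ σ → σ ≤ 1 →
      (DH31.cnt (DH31.zeros σ T) : ℝ) ≤
        C * (T ^ (2 * (1 - σ) + ε) + (cntf (fP P a) (AP P a (σ - δ) 0 (T + W)) : ℝ)) := by
  classical
  obtain ⟨η, hη, C₁, hC₁, T₁, h₁⟩ := upper hε hδ
  obtain ⟨δ₁, κ, W, T₂, hδ₁, hδ₁1, hκ, hW, h₂⟩ := small_of_few_s hP a (ε := η / 2) (by positivity)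
  obtain ⟨η', hη'⟩ : ∃ η' : ℝ, η' = min (η / 2) 1 := ⟨_, rfl⟩
  have hη'0 : 0 < η' := by rw [hη']; exact lt_min (by positivity) one_pos
  have hη'1 : η' ≤ 1 := by rw [hη']; exact min_le_right _ _
  have hη'2 : η' ≤ η / 2 := by rw [hη']; exact min_le_left _ _
  obtain ⟨C₃, hC₃, h₃⟩ := right_bound (η := η') hη'0
  obtain ⟨T₄, h₄⟩ := Filter.eventually_atTop.1
    ((tendsto_rpow_atTop (show 0 < η / 2 by positivity)).eventually_gt_atTop (2 * C₃ + 2))
  obtain ⟨T₅, h₅⟩ := Filter.eventually_atTop.1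
    ((tendsto_rpow_atTop (show 0 < ε / 4 by positivity)).eventually_ge_atTop (|T₂| + W + 4))
  obtain ⟨T₆, h₆⟩ := Filter.eventually_atTop.1 (DH31.ev_log 1 (ε / 4) 1 (by positivity))
  obtain ⟨m, hm⟩ : ∃ m : ℕ, m = ⌈2 * (W + 1) + 1⌉₊ + 1 := ⟨_, rfl⟩
  have hm0 : 0 < m := by omega
  have hm1 : 2 * (W + 1) + 1 < (m : ℝ) := by
    rw [hm]
    push_cast
    have := Nat.le_ceil (2 * (W + 1) + 1)
    linarith
  have hmR : (0 : ℝ) < m := by exact_mod_cast hm0
  refine ⟨C₁ * (3 + m / (κ * (ε / 4))), by positivity, W + 2, by positivity,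
    max (max (max T₁ T₄) (max T₅ T₆)) 4, ?_⟩
  intro T hT σ hσ1 hσ2
  have hT₁ : T₁ ≤ T := ((le_max_left _ _).trans (le_max_left _ _)).trans ((le_max_left _ _).trans hT)
  have hT₄ : T₄ ≤ T := ((le_max_right _ _).trans (le_max_left _ _)).trans ((le_max_left _ _).trans hT)
  have hT₅ : T₅ ≤ T := ((le_max_left _ _).trans (le_max_right _ _)).trans ((le_max_left _ _).trans hT)
  have hT₆ : T₆ ≤ T := ((le_max_right _ _).trans (le_max_right _ _)).trans ((le_max_left _ _).trans hT)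
  have hT4 : 4 ≤ T := (le_max_right _ _).trans hT
  have hT0 : 0 < T := by linarith
  have hlogpos : 0 < Real.log T := Real.log_pos (by linarith)
  have hη2 := h₄ T hT₄
  have hε4 := h₅ T hT₅
  have hlog : Real.log T ≤ T ^ (ε / 4) := by
    have := h₆ T hT₆
    simpa using this
  obtain ⟨Y, hY⟩ : ∃ Y : ℝ, Y = T ^ (ε / 4) := ⟨_, rfl⟩
  rw [← hY] at hε4 hlog
  have hY4 : 4 ≤ Y := by linarith [abs_nonneg T₂]
  obtain ⟨B, hBdef⟩ : ∃ B : Set ℂ, B = AP P a (σ - δ) 0 (T + (W + 2)) := ⟨_, rfl⟩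
  have hB : B.Finite := by rw [hBdef]; exact AP_finite hP a (by linarith) _ _
  obtain ⟨b, hb⟩ : ∃ b : ℝ, b = κ * (ε / 4 * Real.log T) := ⟨_, rfl⟩
  have hb0 : 0 < b := by rw [hb]; positivity
  rw [← hBdef]
  -- the bound for the number of large values
  have hR : ∀ S : Finset ℂ, Large (T ^ η) (σ - δ) (T + 1) S →
      (S.card : ℝ) ≤ (Y + 1) + m * (cntf (fP P a) B : ℝ) / b := by
    intro S hS
    obtain ⟨S1, hS1⟩ : ∃ S1 : Finset ℂ, S1 = S.filter (fun s => s.im ≤ Y) := ⟨_, rfl⟩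
    obtain ⟨S2, hS2⟩ : ∃ S2 : Finset ℂ, S2 = S.filter (fun s => ¬ s.im ≤ Y) := ⟨_, rfl⟩
    have hcard : (S.card : ℝ) = S1.card + S2.card := by
      rw [hS1, hS2]
      exact_mod_cast (Finset.card_filter_add_card_filter_not (s := S) (fun s => s.im ≤ Y)).symm
    have hlow : (S1.card : ℝ) ≤ Y + 1 := by
      refine card_le (V := T ^ η) (σ := σ - δ) (by linarith) ⟨fun s hs => ?_, fun s hs s' hs' hne => ?_⟩
      · rw [hS1, Finset.mem_filter] at hs
        obtain ⟨b1, b2, b3, b4⟩ := hS.1 s hs.1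
        exact ⟨b1, b2, hs.2, b4⟩
      · rw [hS1, Finset.mem_filter] at hs hs'
        exact hS.2 s hs.1 s' hs'.1 hne
    have hS2S : ∀ s ∈ S2, s ∈ S ∧ Y < s.im := fun s hs => by
      rw [hS2, Finset.mem_filter] at hs
      exact ⟨hs.1, not_le.1 hs.2⟩
    have hF : ∀ s ∈ S2, ∃ F : Finset ℂ, (∀ z ∈ F, z ∈ B ∧ |z.im - s.im| ≤ W + 1) ∧
        b ≤ ∑ z ∈ F, (analyticOrderNatAt (fP P a) z : ℝ) := by
      intro s hs
      obtain ⟨hsS, hsY⟩ := hS2S s hs
      obtain ⟨b1, b2, b3, b4⟩ := hS.1 s hsS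
      have hs0 : 0 < s.im := by linarith
      -- the size
      have hTη : T ^ η = T ^ (η / 2) * T ^ (η / 2) := by rw [← Real.rpow_add hT0]; congr 1; ring
      have hTη0 : 0 < T ^ (η / 2) := by positivity
      have hre : s.re ≤ 1 := by
        by_contra hcon
        push Not at hcon
        have h7 := h₃ s (by linarith) b2 0 le_rfl (by linarith)
        rw [zero_add] at h7
        have h8 : s.im ^ η' ≤ 2 * T ^ (η / 2) := by
          calc s.im ^ η' ≤ (2 * T) ^ η' := Real.rpow_le_rpow hs0.le (by linarith) hη'0.le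
            _ = 2 ^ η' * T ^ η' := Real.mul_rpow (by norm_num) hT0.le
            _ ≤ 2 ^ (1 : ℝ) * T ^ (η / 2) := by
                apply mul_le_mul _ _ (by positivity) (by positivity)
                · exact Real.rpow_le_rpow_of_exponent_le (by norm_num) hη'1
                · exact Real.rpow_le_rpow_of_exponent_le (by linarith) hη'2
            _ = _ := by rw [Real.rpow_one]
        have h9 : ‖riemannZeta s‖ ≤ C₃ * (2 * T ^ (η / 2)) :=
          h7.trans (mul_le_mul_of_nonneg_left h8 (by linarith))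
        rw [hTη] at b4
        nlinarith
      have hsT : s.im ^ (η / 2) < T ^ η := by
        calc s.im ^ (η / 2) < (T ^ (2 : ℝ)) ^ (η / 2) := by
              apply Real.rpow_lt_rpow hs0.le _ (by positivity)
              rw [show (2 : ℝ) = ((2 : ℕ) : ℝ) by norm_num, Real.rpow_natCast]
              nlinarith
          _ = T ^ η := by rw [← Real.rpow_mul hT0.le]; congr 1; ring
      have hsT₂ : T₂ ≤ s.im := by linarith [le_abs_self T₂]
      have hse : ((s.re : ℝ) : ℂ) + (s.im : ℝ) * I = s := Complex.re_add_im s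
      have hnot : ¬ ∀ T' : ℝ, |T' - s.im| ≤ W → FewP P a (s.re + δ₁) T' (κ * Real.log s.im) := by
        intro hall
        have h7 := h₂ s.im hsT₂ s.re (by linarith) hre hall
        rw [hse] at h7
        linarith
      push Not at hnot
      obtain ⟨T', hT', hnf⟩ := hnot
      unfold FewP at hnf
      push Not at hnf
      obtain ⟨F, hF1, hF2⟩ := hnf
      have hT'' := abs_le.1 hT'
      have hYW : W + 4 < s.im := by linarith [abs_nonneg T₂]
      refine ⟨F, fun z hz => ?_, ?_⟩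
      · obtain ⟨z1, z2, z3, z4⟩ := hF1 z hz
        have z3' := abs_le.1 z3
        constructor
        · rw [hBdef]
          exact ⟨z4, z1, by linarith, by linarith, by linarith⟩
        · rw [abs_le]; constructor <;> linarith
      · have h7 : ε / 4 * Real.log T ≤ Real.log s.im := by
          rw [← Real.log_rpow hT0, ← hY]
          exact Real.log_le_log (by linarith) hsY.le
        have h8 : b ≤ κ * Real.log s.im := by
          rw [hb]
          exact mul_le_mul_of_nonneg_left h7 hκ.le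
        exact h8.trans hF2.le
    choose! F hF1 hF2 using hF
    have hkey := sep_count hB hm0 hm1 S2 (fun s hs s' hs' h =>
      floor_inj hS (hS2S s hs).1 (hS2S s' hs').1 h) (fun s hs => by linarith [(hS2S s hs).2]) F hF1 hF2
    have h7 : (S2.card : ℝ) ≤ m * (cntf (fP P a) B : ℝ) / b := by
      rw [le_div_iff₀ hb0]
      exact hkey
    rw [hcard]
    linarith
  have hmain := h₁ T hT₁ σ (by linarith) hσ2 _ (by positivity) hR
  refine hmain.trans ?_
  rw [mul_assoc]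
  apply mul_le_mul_of_nonneg_left _ hC₁.le
  obtain ⟨X, hX⟩ : ∃ X : ℝ, X = (cntf (fP P a) B : ℝ) := ⟨_, rfl⟩
  have hX0 : 0 ≤ X := by rw [hX]; positivity
  rw [← hX]
  have e1 : m * X / b * Real.log T = m / (κ * (ε / 4)) * X := by
    rw [hb]
    field_simp
  have e2 : (Y + 1) * Real.log T ≤ 2 * T ^ (2 * (1 - σ) + ε) := by
    calc (Y + 1) * Real.log T ≤ (2 * Y) * Y := by
          apply mul_le_mul (by linarith) hlog hlogpos.le (by linarith)
      _ = 2 * T ^ (ε / 4 + ε / 4) := by rw [Real.rpow_add hT0, ← hY]; ring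
      _ ≤ _ := by
          apply mul_le_mul_of_nonneg_left _ (by norm_num)
          exact Real.rpow_le_rpow_of_exponent_le (by linarith) (by linarith)
  have e3 : 0 ≤ m / (κ * (ε / 4)) := by positivity
  have e4 : 0 ≤ T ^ (2 * (1 - σ) + ε) := by positivity
  rw [add_mul, e1]
  nlinarith [mul_nonneg e3 e4]

/-- **`a`-points in terms of zeros of zeta** -/
theorem AP_le_zeta {P : ℂ[X]} (hP : P ≠ 0) (a : ℂ) {δ : ℝ} (hδ : 0 < δ) :
    ∃ C : ℝ, 0 < C ∧ ∃ T₀ : ℝ, ∀ T : ℝ, T₀ ≤ T → ∀ σ : ℝ, 1 / 2 + δ ≤ σ → σ ≤ 1 →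
      (cntf (fP P a) (AP P a σ 0 T) : ℝ) ≤
        C * (1 + (DH31.cnt (DH31.zeros (σ - δ) (T + 2)) : ℝ) * Real.log T) := by
  classical
  rcases le_or_gt δ (1 / 2) with hδ1 | hδ1
  swap
  · exact ⟨1, one_pos, 0, fun T _ σ h1 h2 => by linarith⟩
  obtain ⟨C, T₁, hC, hT₁8, hloc⟩ := loc_AP hP a
  obtain ⟨T₂, hT₂8, hno⟩ := no_pts hP a hδ hδ1
  obtain ⟨N₀, hN₀⟩ : ∃ N₀ : ℕ, N₀ = ⌈T₁ + T₂⌉₊ := ⟨_, rfl⟩
  have hN₀1 : T₁ + T₂ ≤ N₀ := by rw [hN₀]; exact Nat.le_ceil _
  obtain ⟨C₀, hC₀⟩ : ∃ C₀ : ℝ, C₀ = (cntf (fP P a) (AP P a (1 / 2) 0 N₀) : ℝ) := ⟨_, rfl⟩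
  have hC₀0 : 0 ≤ C₀ := by rw [hC₀]; positivity
  refine ⟨C₀ + 8 * C + 1, by positivity, N₀ + 1, fun T hT σ hσ1 hσ2 => ?_⟩
  have hT0 : 0 < T := by linarith
  have hlog : 0 ≤ Real.log T := Real.log_nonneg (by linarith)
  have hA : (AP P a σ N₀ T).Finite := AP_finite hP a (by linarith) _ _
  have hA0 : (AP P a σ 0 N₀).Finite := AP_finite hP a (by linarith) _ _
  have hsplit : cntf (fP P a) (AP P a σ 0 T) ≤ cntf (fP P a) (AP P a σ 0 N₀) + cntf (fP P a) (AP P a σ N₀ T) := by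
    refine le_trans (cntf_mono (hA0.union hA) fun z hz => ?_) (cntf_union hA0 hA)
    obtain ⟨z1, z2, z3, z4, z5⟩ := hz
    rcases le_or_gt z.im N₀ with h | h
    · exact Or.inl ⟨z1, z2, z3, z4, h⟩
    · exact Or.inr ⟨z1, z2, z3, h, z5⟩
  have h0 : (cntf (fP P a) (AP P a σ 0 N₀) : ℝ) ≤ C₀ := by
    rw [hC₀]
    have hsubs : AP P a σ 0 N₀ ⊆ AP P a (1 / 2) 0 N₀ := fun z hz =>
      ⟨hz.1, hz.2.1, by linarith [hz.2.2.1], hz.2.2.2.1, hz.2.2.2.2⟩
    exact_mod_cast cntf_mono (AP_finite hP a le_rfl _ _) hsubs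
  have hwin := win_count (f := fP P a) (A := AP P a σ N₀ T) (B := C * Real.log T) hA
    (fun z hz => by linarith [hz.2.2.2.1]) (by
      intro n W hW
      rcases W.eq_empty_or_nonempty with hW0 | ⟨z₀, hz₀⟩
      · rw [hW0, Finset.sum_empty]
        positivity
      · obtain ⟨⟨a1, a2, a3, a4, a5⟩, a6, a7⟩ := hW z₀ hz₀
        have hn : N₀ ≤ n := by
          have h1 : (N₀ : ℝ) < n + 1 := by linarith
          have h2 : N₀ < n + 1 := by exact_mod_cast h1
          omega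
        have hn' : (N₀ : ℝ) ≤ n := by exact_mod_cast hn
        refine (hloc n (by linarith) W fun z hz => ?_).trans ?_
        · obtain ⟨⟨z1, z2, z3, z4, z5⟩, z6, z7⟩ := hW z hz
          exact ⟨z1, z2, by linarith, z6, z7⟩
        · apply mul_le_mul_of_nonneg_left _ hC.le
          exact Real.log_le_log (by linarith) (by linarith))
  have hB : (ZZ (σ - δ) 0 (T + 2)).Finite := ZZ_finite _ _ _
  have hcl : ((hA.toFinset.image wi).card : ℝ) ≤ 8 * (cntf riemannZeta (ZZ (σ - δ) 0 (T + 2)) : ℝ) := by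
    have hP' : ∀ n ∈ hA.toFinset.image wi, ∃ w : ℂ, w ∈ ZZ (σ - δ) 0 (T + 2) ∧ |w.im - n| ≤ 3 := by
      intro n hn
      rw [Finset.mem_image] at hn
      obtain ⟨z, hz, rfl⟩ := hn
      rw [Set.Finite.mem_toFinset] at hz
      obtain ⟨z1, z2, z3, z4, z5⟩ := hz
      have h3 := wi_spec (z := z) (by linarith)
      by_contra hcon
      push Not at hcon
      refine hno σ hσ1 hσ2 z z2.le z3 (by linarith) (fun w hw1 hw2 hw0 => ?_) z1
      have h4 := abs_le.1 hw2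
      have h5 := hcon w ⟨hw0, hw1, by linarith, by linarith⟩
      have h6 : |w.im - (wi z : ℝ)| ≤ 3 := by rw [abs_le]; constructor <;> linarith
      linarith
    choose! w hw using hP'
    exact class_count hB (fun z hz => zeta_ord hz.2.2.1 hz.1) _ w hw
  have h7 : (cntf (fP P a) (AP P a σ 0 T) : ℝ) ≤
      cntf (fP P a) (AP P a σ 0 N₀) + cntf (fP P a) (AP P a σ N₀ T) := by exact_mod_cast hsplit
  obtain ⟨X, hX⟩ : ∃ X : ℝ, X = (cntf riemannZeta (ZZ (σ - δ) 0 (T + 2)) : ℝ) := ⟨_, rfl⟩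
  have hX' : (DH31.cnt (DH31.zeros (σ - δ) (T + 2)) : ℝ) = X := by rw [hX]; rfl
  have hX0 : 0 ≤ X := by rw [hX]; positivity
  rw [hX']
  rw [← hX] at hcl
  have h8 : (cntf (fP P a) (AP P a σ N₀ T) : ℝ) ≤ 8 * X * (C * Real.log T) :=
    hwin.trans (mul_le_mul_of_nonneg_right hcl (by positivity))
  have h9 : 0 ≤ X * Real.log T := by positivity
  have h10 : 0 ≤ C * (X * Real.log T) := by positivity
  nlinarith [mul_nonneg hC₀0 h9]

end Pool.Agent.TH804.SE
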