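import Pool.Agent.TH804.SE7

/-! The density hypothesis in terms of the `a`-points of `P(D)ζ`. -/

set_option autoImplicit false

open Complex Filter Topology Metric Set Polynomial

set_option maxHeartbeats 4000000

namespace Pool.Agent.TH804.SE

open Pool.Agent.TH804.SD Pool.Agent.TH804.LV
open SP (PZ)

/-- the density bound for the `a`-points -/
def SDH (P : ℂ[X]) (a : ℂ) : Prop := ∀ ε : ℝ, 0 < ε → ∃ C : ℝ, 0 < C ∧ ∃ T₀ : ℝ, ∀ T : ℝ, T₀ ≤ T → ∀ σ : ℝ,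
  1 / 2 ≤ σ → σ ≤ 1 → (cntf (fP P a) (AP P a σ 0 T) : ℝ) ≤ C * T ^ (2 * (1 - σ) + ε)

/-- the trivial bound -/
lemma AP_triv {P : ℂ[X]} (hP : P ≠ 0) (a : ℂ) : ∃ C : ℝ, 0 < C ∧ ∃ T₀ : ℝ, ∀ T : ℝ, T₀ ≤ T → ∀ σ : ℝ, 1 / 2 ≤ σ →
    (cntf (fP P a) (AP P a σ 0 T) : ℝ) ≤ C * (T * Real.log T) := by
  classical
  obtain ⟨C, T₁, hC, hT₁8, hloc⟩ := loc_AP hP a
  obtain ⟨N₀, hN₀⟩ : ∃ N₀ : ℕ, N₀ = ⌈T₁⌉₊ := ⟨_, rfl⟩
  have hN₀1 : T₁ ≤ N₀ := by rw [hN₀]; exact Nat.le_ceil _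
  obtain ⟨C₀, hC₀⟩ : ∃ C₀ : ℝ, C₀ = (cntf (fP P a) (AP P a (1 / 2) 0 N₀) : ℝ) := ⟨_, rfl⟩
  have hC₀0 : 0 ≤ C₀ := by rw [hC₀]; positivity
  refine ⟨C₀ + C, by positivity, N₀ + 3, fun T hT σ hσ1 => ?_⟩
  have hT0 : 0 < T := by linarith
  have hlog : 0 ≤ Real.log T := Real.log_nonneg (by linarith)
  have hlog1 : 1 ≤ Real.log T := by
    rw [Real.le_log_iff_exp_le hT0]
    linarith [Real.exp_one_lt_d9]
  have hA : (AP P a σ N₀ T).Finite := AP_finite hP a (by linarith) _ _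
  have hA0 : (AP P a σ 0 N₀).Finite := AP_finite hP a (by linarith) _ _
  have hsplit : cntf (fP P a) (AP P a σ 0 T) ≤ cntf (fP P a) (AP P a σ 0 N₀) + cntf (fP P a) (AP P a σ N₀ T) := by
    refine le_trans (cntf_mono (hA0.union hA) fun z hz => ?_) (cntf_union hA0 hA)
    obtain ⟨z1, z2, z3, z4, z5⟩ := hz
    rcases le_or_gt z.im N₀ with h | h
    · exact Or.inl ⟨z1, z2, z3, z4, h⟩
    · exact Or.inr ⟨z1, z2, z3, h, z5⟩
  have h0 : (cntf (fP P a) (AP P a σ 0 N₀) : ℝ) ≤ C₀ := by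
    rw [hC₀]
    have hsubs : AP P a σ 0 N₀ ⊆ AP P a (1 / 2) 0 N₀ := fun z hz =>
      ⟨hz.1, hz.2.1, by linarith [hz.2.2.1], hz.2.2.2.1, hz.2.2.2.2⟩
    exact_mod_cast cntf_mono (AP_finite hP a le_rfl _ _) hsubs
  have hN₀0 : (0 : ℝ) ≤ N₀ := by positivity
  have hwin := triv_count (f := fP P a) (A := AP P a σ N₀ T) (a := N₀) (b := T) (B := C * Real.log T)
    hN₀0 (by linarith) (by positivity) hA
    (fun z hz => ⟨hz.2.2.2.1, hz.2.2.2.2⟩) (by
      intro n W hW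
      rcases W.eq_empty_or_nonempty with hW0 | ⟨z₀, hz₀⟩
      · rw [hW0, Finset.sum_empty]
        positivity
      · obtain ⟨⟨a1, a2, a3, a4, a5⟩, a6, a7⟩ := hW z₀ hz₀
        have hn : N₀ ≤ n := by
          have h1 : (N₀ : ℝ) < n + 1 := by linarith
          have h2 : N₀ < n + 1 := by exact_mod_cast h1
          omega
        have hn' : (N₀ : ℝ) ≤ n := by exact_mod_cast hn
        refine (hloc n (by linarith) W fun z hz => ?_).trans ?_
        · obtain ⟨⟨z1, z2, z3, z4, z5⟩, z6, z7⟩ := hW z hz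
          exact ⟨z1, z2, by linarith, z6, z7⟩
        · apply mul_le_mul_of_nonneg_left _ hC.le
          exact Real.log_le_log (by linarith) (by linarith))
  have h7 : (cntf (fP P a) (AP P a σ 0 T) : ℝ) ≤
      cntf (fP P a) (AP P a σ 0 N₀) + cntf (fP P a) (AP P a σ N₀ T) := by exact_mod_cast hsplit
  have h8 : (T - N₀ + 2) * (C * Real.log T) ≤ T * (C * Real.log T) :=
    mul_le_mul_of_nonneg_right (by linarith) (by positivity)
  have h9 : 1 ≤ T * Real.log T := by nlinarith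
  nlinarith [mul_le_mul_of_nonneg_left h9 hC₀0]

lemma shift_rpow {T w : ℝ} (hw : 0 ≤ w) (hT : w ≤ T) (hT0 : 0 < T) {a b : ℝ} (ha : 0 ≤ a) (hab : a ≤ b) :
    (T + w) ^ a ≤ 2 ^ b * T ^ a := by
  calc (T + w) ^ a ≤ (2 * T) ^ a := Real.rpow_le_rpow (by linarith) (by linarith) ha
    _ = 2 ^ a * T ^ a := Real.mul_rpow (by norm_num) (by linarith)
    _ ≤ 2 ^ b * T ^ a := by
        have := Real.rpow_le_rpow_of_exponent_le (show (1 : ℝ) ≤ 2 by norm_num) hab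
        have : 0 ≤ T ^ a := by positivity
        gcongr

theorem SDH_of_DH {P : ℂ[X]} (hP : P ≠ 0) (a : ℂ) (h : DH) : SDH P a := by
  intro ε hε
  obtain ⟨δ, hδ⟩ : ∃ δ : ℝ, δ = ε / 8 := ⟨_, rfl⟩
  have hδ0 : 0 < δ := by rw [hδ]; positivity
  obtain ⟨C₁, hC₁, T₁, h₁⟩ := AP_le_zeta hP a hδ0
  obtain ⟨C₂, hC₂, T₂, h₂⟩ := h (ε / 4) (by positivity)
  obtain ⟨C₃, hC₃, T₃, h₃⟩ := AP_triv hP a
  obtain ⟨T₄, h₄⟩ := Filter.eventually_atTop.1 (DH31.ev_log 1 (ε / 4) 1 (by positivity))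
  obtain ⟨K, hK⟩ : ∃ K : ℝ, K = C₂ * 2 ^ (1 + ε) := ⟨_, rfl⟩
  have hK0 : 0 < K := by rw [hK]; positivity
  refine ⟨C₁ * (1 + K) + C₃, by positivity, max (max T₁ T₂) (max (max T₃ T₄) 3), ?_⟩
  intro T hT σ hσ1 hσ2
  have hT₁ : T₁ ≤ T := (le_max_left _ _).trans ((le_max_left _ _).trans hT)
  have hT₂ : T₂ ≤ T := (le_max_right _ _).trans ((le_max_left _ _).trans hT)
  have hT₃ : T₃ ≤ T := ((le_max_left _ _).trans (le_max_left _ _)).trans ((le_max_right _ _).trans hT)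
  have hT₄ : T₄ ≤ T := ((le_max_right _ _).trans (le_max_left _ _)).trans ((le_max_right _ _).trans hT)
  have hT3 : 3 ≤ T := (le_max_right _ _).trans ((le_max_right _ _).trans hT)
  have hT0 : 0 < T := by linarith
  have hT1 : 1 ≤ T := by linarith
  have hlog : Real.log T ≤ T ^ (ε / 4) := by
    have := h₄ T hT₄
    simpa using this
  have hlog0 : 0 ≤ Real.log T := Real.log_nonneg hT1
  have hpos : 0 ≤ T ^ (2 * (1 - σ) + ε) := by positivity
  have hone : 1 ≤ T ^ (2 * (1 - σ) + ε) := Real.one_le_rpow hT1 (by linarith)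
  rcases le_or_gt (1 / 2 + δ) σ with hσ | hσ
  · have h5 := h₁ T hT₁ σ hσ hσ2
    have h6 := h₂ (T + 2) (by linarith) (σ - δ) (by linarith) (by linarith)
    have h7 : (T + 2) ^ (2 * (1 - (σ - δ)) + ε / 4) ≤ 2 ^ (1 + ε) * T ^ (2 * (1 - (σ - δ)) + ε / 4) :=
      shift_rpow (by norm_num) (by linarith) hT0 (by linarith) (by linarith)
    have h8 : (DH31.cnt (DH31.zeros (σ - δ) (T + 2)) : ℝ) * Real.log T ≤ K * T ^ (2 * (1 - σ) + ε) := by
      calc (DH31.cnt (DH31.zeros (σ - δ) (T + 2)) : ℝ) * Real.log T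
          ≤ (C₂ * (2 ^ (1 + ε) * T ^ (2 * (1 - (σ - δ)) + ε / 4))) * T ^ (ε / 4) := by
            apply mul_le_mul _ hlog hlog0 (by positivity)
            exact h6.trans (mul_le_mul_of_nonneg_left h7 hC₂.le)
        _ = K * T ^ (2 * (1 - (σ - δ)) + ε / 4 + ε / 4) := by
            rw [Real.rpow_add hT0 (2 * (1 - (σ - δ)) + ε / 4), hK]; ring
        _ ≤ _ := by
            apply mul_le_mul_of_nonneg_left _ hK0.le
            exact Real.rpow_le_rpow_of_exponent_le hT1 (by linarith)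
    calc (cntf (fP P a) (AP P a σ 0 T) : ℝ)
        ≤ C₁ * (1 + (DH31.cnt (DH31.zeros (σ - δ) (T + 2)) : ℝ) * Real.log T) := h5
      _ ≤ C₁ * (T ^ (2 * (1 - σ) + ε) + K * T ^ (2 * (1 - σ) + ε)) :=
          mul_le_mul_of_nonneg_left (add_le_add hone h8) hC₁.le
      _ = C₁ * (1 + K) * T ^ (2 * (1 - σ) + ε) := by ring
      _ ≤ _ := by
          apply mul_le_mul_of_nonneg_right _ hpos
          linarith
  · have h5 := h₃ T hT₃ σ hσ1
    calc (cntf (fP P a) (AP P a σ 0 T) : ℝ) ≤ C₃ * (T * Real.log T) := h5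
      _ ≤ C₃ * (T ^ (1 : ℝ) * T ^ (ε / 4)) := by
          rw [Real.rpow_one]
          gcongr
      _ = C₃ * T ^ (1 + ε / 4) := by rw [Real.rpow_add hT0]
      _ ≤ C₃ * T ^ (2 * (1 - σ) + ε) := by
          apply mul_le_mul_of_nonneg_left _ hC₃.le
          exact Real.rpow_le_rpow_of_exponent_le hT1 (by linarith)
      _ ≤ _ := by
          apply mul_le_mul_of_nonneg_right _ hpos
          have : 0 < C₁ * (1 + K) := by positivity
          linarith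

theorem DH_of_SDH {P : ℂ[X]} (hP : P ≠ 0) (a : ℂ) (h : SDH P a) : DH := by
  intro ε hε
  obtain ⟨δ, hδ⟩ : ∃ δ : ℝ, δ = ε / 8 := ⟨_, rfl⟩
  have hδ0 : 0 < δ := by rw [hδ]; positivity
  obtain ⟨C₁, hC₁, W, hW, T₁, h₁⟩ := zeta_le_AP hP a (ε := ε / 2) (by positivity) hδ0
  obtain ⟨C₂, hC₂, T₂, h₂⟩ := h (ε / 4) (by positivity)
  obtain ⟨η, hη, C₃, hC₃, T₃, h₃⟩ := upper (ε := ε / 2) (δ := 1) (by positivity) one_pos
  obtain ⟨T₄, h₄⟩ := Filter.eventually_atTop.1 (DH31.ev_log 1 (ε / 4) 1 (by positivity))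
  obtain ⟨K, hK⟩ : ∃ K : ℝ, K = C₂ * 2 ^ (1 + ε) := ⟨_, rfl⟩
  have hK0 : 0 < K := by rw [hK]; positivity
  refine ⟨C₁ * (1 + K) + 3 * C₃, by positivity, max (max T₁ T₂) (max (max T₃ T₄) (max W 3)), ?_⟩
  intro T hT σ hσ1 hσ2
  have hT₁ : T₁ ≤ T := (le_max_left _ _).trans ((le_max_left _ _).trans hT)
  have hT₂ : T₂ ≤ T := (le_max_right _ _).trans ((le_max_left _ _).trans hT)
  have hT₃ : T₃ ≤ T := ((le_max_left _ _).trans (le_max_left _ _)).trans ((le_max_right _ _).trans hT)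
  have hT₄ : T₄ ≤ T := ((le_max_right _ _).trans (le_max_left _ _)).trans ((le_max_right _ _).trans hT)
  have hTW : W ≤ T := ((le_max_left _ _).trans (le_max_right _ _)).trans ((le_max_right _ _).trans hT)
  have hT3 : 3 ≤ T := ((le_max_right _ _).trans (le_max_right _ _)).trans ((le_max_right _ _).trans hT)
  have hT0 : 0 < T := by linarith
  have hT1 : 1 ≤ T := by linarith
  have hlog : Real.log T ≤ T ^ (ε / 4) := by
    have := h₄ T hT₄
    simpa using this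
  have hlog0 : 0 ≤ Real.log T := Real.log_nonneg hT1
  have hpos : 0 ≤ T ^ (2 * (1 - σ) + ε) := by positivity
  have hfirst : T ^ (2 * (1 - σ) + ε / 2) ≤ T ^ (2 * (1 - σ) + ε) :=
    Real.rpow_le_rpow_of_exponent_le hT1 (by linarith)
  rcases le_or_gt (1 / 2 + δ) σ with hσ | hσ
  · have h5 := h₁ T hT₁ σ hσ hσ2
    have h6 := h₂ (T + W) (by linarith) (σ - δ) (by linarith) (by linarith)
    have h7 : (T + W) ^ (2 * (1 - (σ - δ)) + ε / 4) ≤ 2 ^ (1 + ε) * T ^ (2 * (1 - (σ - δ)) + ε / 4) :=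
      shift_rpow hW.le hTW hT0 (by linarith) (by linarith)
    have h8 : (cntf (fP P a) (AP P a (σ - δ) 0 (T + W)) : ℝ) ≤ K * T ^ (2 * (1 - σ) + ε) := by
      calc (cntf (fP P a) (AP P a (σ - δ) 0 (T + W)) : ℝ)
          ≤ C₂ * (2 ^ (1 + ε) * T ^ (2 * (1 - (σ - δ)) + ε / 4)) :=
            h6.trans (mul_le_mul_of_nonneg_left h7 hC₂.le)
        _ = K * T ^ (2 * (1 - (σ - δ)) + ε / 4) := by rw [hK]; ring
        _ ≤ _ := by
            apply mul_le_mul_of_nonneg_left _ hK0.le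
            exact Real.rpow_le_rpow_of_exponent_le hT1 (by linarith)
    calc (DH31.cnt (DH31.zeros σ T) : ℝ)
        ≤ C₁ * (T ^ (2 * (1 - σ) + ε / 2) + (cntf (fP P a) (AP P a (σ - δ) 0 (T + W)) : ℝ)) := h5
      _ ≤ C₁ * (T ^ (2 * (1 - σ) + ε) + K * T ^ (2 * (1 - σ) + ε)) :=
          mul_le_mul_of_nonneg_left (add_le_add hfirst h8) hC₁.le
      _ = C₁ * (1 + K) * T ^ (2 * (1 - σ) + ε) := by ring
      _ ≤ _ := by
          apply mul_le_mul_of_nonneg_right _ hpos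
          linarith
  · have h5 := h₃ T hT₃ σ hσ1 hσ2 (T + 2) (by linarith) (fun S hS => by
      have := card_le (by linarith) hS
      linarith)
    have h6 : (T + 2) * Real.log T ≤ 2 * T ^ (2 * (1 - σ) + ε) := by
      calc (T + 2) * Real.log T ≤ (2 * T ^ (1 : ℝ)) * T ^ (ε / 4) := by
            have : T + 2 ≤ 2 * T ^ (1 : ℝ) := by rw [Real.rpow_one]; linarith
            gcongr
        _ = 2 * T ^ (1 + ε / 4) := by rw [Real.rpow_add hT0]; ring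
        _ ≤ _ := by
            apply mul_le_mul_of_nonneg_left _ (by norm_num)
            exact Real.rpow_le_rpow_of_exponent_le hT1 (by linarith)
    calc (DH31.cnt (DH31.zeros σ T) : ℝ) ≤ C₃ * (T ^ (2 * (1 - σ) + ε / 2) + (T + 2) * Real.log T) := h5
      _ ≤ C₃ * (T ^ (2 * (1 - σ) + ε) + 2 * T ^ (2 * (1 - σ) + ε)) :=
          mul_le_mul_of_nonneg_left (add_le_add hfirst h6) hC₃.le
      _ = 3 * C₃ * T ^ (2 * (1 - σ) + ε) := by ring
      _ ≤ _ := by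
          apply mul_le_mul_of_nonneg_right _ hpos
          have : 0 < C₁ * (1 + K) := by positivity
          linarith

theorem DH_iff_SDH {P : ℂ[X]} (hP : P ≠ 0) (a : ℂ) : DH ↔ SDH P a := ⟨SDH_of_DH hP a, DH_of_SDH hP a⟩

end Pool.Agent.TH804.SE
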