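import Pool.Agent.TH804.SE5
import Pool.Agent.TH804.SP6

/-! Going down from `(D - l₁) ⋯ (D - lₙ) F` to `F` in discs without zeros. -/

set_option autoImplicit false

open Complex Filter Topology Metric Set Polynomial
open H370 H370.Loc

set_option maxHeartbeats 4000000

namespace Pool.Agent.TH804.SE

open Pool.Agent.TH804.SB
open Pool.Agent.TH804.SP (Good deriv_twist re_close)

/-- upper bounds for the operators, in terms of growth -/
lemma opL_up (L : List ℂ) {ν : ℝ} (hν : 0 < ν) : ∃ ℓ₀ : ℝ, ∀ (F : ℂ → ℂ) (c : ℂ) (A ℓ R : ℝ), ℓ₀ ≤ ℓ → 0 < A →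
    (∀ w ∈ closedBall c R, AnalyticAt ℂ F w) →
    (∀ w ∈ closedBall c R, ‖F w‖ ≤ A * Real.exp (ℓ * (w.re - c.re) + ν * ℓ)) →
      ∀ w ∈ closedBall c (R - ν), ‖opL L F w‖ ≤ A * Real.exp (ℓ * (w.re - c.re) + 3 * ν * ℓ) := by
  obtain ⟨C, hC, h⟩ := opL_le L ν hν
  refine ⟨|Real.log C / ν|, fun F c A ℓ R hℓ hA han hup w hw => ?_⟩
  have hℓ0 : 0 ≤ ℓ := (abs_nonneg _).trans hℓ
  have hℓC : Real.log C ≤ ν * ℓ := by
    have := (le_abs_self _).trans hℓ
    rw [div_le_iff₀ hν] at this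
    linarith
  have hsub : closedBall w ν ⊆ closedBall c R := by
    intro v hv
    rw [mem_closedBall] at hv hw ⊢
    linarith [dist_triangle v w c]
  have h1 := h F w (A * Real.exp (ℓ * (w.re + ν - c.re) + ν * ℓ)) (by positivity) (fun v hv => han v (hsub hv))
    (fun v hv => by
      refine (hup v (hsub hv)).trans ?_
      apply mul_le_mul_of_nonneg_left _ hA.le
      apply Real.exp_le_exp.2
      have h2 := (abs_le.1 (re_close hv)).2
      have h3 := mul_le_mul_of_nonneg_left h2 hℓ0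
      linarith)
  refine h1.trans ?_
  have hCe : C = Real.exp (Real.log C) := (Real.exp_log (by linarith)).symm
  calc C * (A * Real.exp (ℓ * (w.re + ν - c.re) + ν * ℓ))
      = A * (Real.exp (Real.log C) * Real.exp (ℓ * (w.re + ν - c.re) + ν * ℓ)) := by rw [← hCe]; ring
    _ ≤ _ := by
        apply mul_le_mul_of_nonneg_left _ hA.le
        rw [← Real.exp_add]
        apply Real.exp_le_exp.2
        linarith

/-- **one step down** -/
theorem down_step (l : ℂ) {R κ : ℝ} (hR : 0 < R) (hκ : 0 < κ) : ∃ ν : ℝ, 0 < ν ∧ ∃ ℓ₀ : ℝ, ∀ (G : ℂ → ℂ) (c : ℂ)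
    (A ℓ : ℝ), ℓ₀ ≤ ℓ → 0 < A → (∀ w ∈ closedBall c R, AnalyticAt ℂ G w) →
    (∀ w ∈ closedBall c R, ‖G w‖ ≤ A * Real.exp (ℓ * (w.re - c.re) + ν * ℓ)) →
    A * Real.exp (-(ν * ℓ)) ≤ ‖deriv G c - l * G c‖ →
    (∀ w ∈ closedBall c R, deriv G w - l * G w ≠ 0) →
      ∀ w ∈ closedBall c (R / 8), A * Real.exp (ℓ * (w.re - c.re) - κ * ℓ) ≤ ‖G w‖ := by
  obtain ⟨ν, hν⟩ : ∃ ν : ℝ, ν = min (R / 100000) (κ / 741) := ⟨_, rfl⟩
  have hν0 : 0 < ν := by rw [hν]; exact lt_min (by positivity) (by positivity)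
  have hνR : 100000 * ν ≤ R := by
    have : ν ≤ R / 100000 := by rw [hν]; exact min_le_left _ _
    linarith
  have hνκ : 741 * ν ≤ κ := by
    have : ν ≤ κ / 741 := by rw [hν]; exact min_le_right _ _
    linarith
  obtain ⟨Y, hY1, hY⟩ := exists_exp_dom 16 (ε := 6 * ν) (by positivity)
  obtain ⟨ℓ₁, hup1⟩ := opL_up [l] hν0
  refine ⟨ν, hν0, |ℓ₁| + Y + 1 / ν + ‖l‖ * R / ν + Real.log (1 / ν + ‖l‖ + 1) / ν + 1, ?_⟩
  intro G c A ℓ hℓ hA han hup hlo h0
  have hl0 := norm_nonneg l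
  have a1 := abs_nonneg ℓ₁
  have a2 := le_abs_self ℓ₁
  have a3 : 0 ≤ 1 / ν := by positivity
  have a4 : 0 ≤ ‖l‖ * R / ν := by positivity
  have a5 : 0 ≤ Real.log (1 / ν + ‖l‖ + 1) / ν := div_nonneg (Real.log_nonneg (by linarith)) hν0.le
  have hℓ0 : 0 < ℓ := by linarith
  have hνℓ : 1 ≤ ν * ℓ := by
    have : 1 / ν ≤ ℓ := by linarith
    rw [div_le_iff₀ hν0] at this
    linarith
  have hlR : ‖l‖ * R ≤ ν * ℓ := by
    have : ‖l‖ * R / ν ≤ ℓ := by linarith
    rw [div_le_iff₀ hν0] at this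
    linarith
  have hlog : Real.log (1 / ν + ‖l‖ + 1) ≤ ν * ℓ := by
    have : Real.log (1 / ν + ‖l‖ + 1) / ν ≤ ℓ := by linarith
    rw [div_le_iff₀ hν0] at this
    linarith
  have hlin : 1 / ν + ‖l‖ ≤ Real.exp (ν * ℓ) := by
    have h1 : 1 / ν + ‖l‖ + 1 ≤ Real.exp (ν * ℓ) := by
      rw [← Real.exp_log (show 0 < 1 / ν + ‖l‖ + 1 by positivity)]
      exact Real.exp_le_exp.2 hlog
    linarith
  have hY' : 8 * (ℓ + 1) ≤ Real.exp (6 * ν * ℓ) := by
    have := hY ℓ (by linarith)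
    linarith
  have hsubR : ∀ r : ℝ, r ≤ R → closedBall c r ⊆ closedBall c R := fun r hr => closedBall_subset_closedBall hr
  -- `G` is good
  have hGup : ∀ w ∈ closedBall c R, ‖G w‖ ≤ A * Real.exp (ℓ * (w.re - c.re) + 3 * ν * ℓ) := by
    intro w hw
    refine (hup w hw).trans ?_
    apply mul_le_mul_of_nonneg_left _ hA.le
    apply Real.exp_le_exp.2
    nlinarith
  have hGlo : ∃ p ∈ closedBall c (3 * ν), A * Real.exp (-(3 * ν * ℓ)) ≤ ‖G p‖ := by
    by_contra hcon
    push Not at hcon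
    have h1 : ‖deriv G c‖ ≤ A * Real.exp (-(3 * ν * ℓ)) / ν :=
      deriv_le hν0 (fun v hv => han v (hsubR ν (by linarith) hv))
        (fun v hv => (hcon v (closedBall_subset_closedBall (by linarith) hv)).le)
    have h2 := (hcon c (mem_closedBall_self (by positivity))).le
    have h3 : ‖deriv G c - l * G c‖ ≤ (1 / ν + ‖l‖) * (A * Real.exp (-(3 * ν * ℓ))) := by
      refine (norm_sub_le _ _).trans ?_
      rw [norm_mul]
      have h4 := mul_le_mul_of_nonneg_left h2 hl0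
      calc ‖deriv G c‖ + ‖l‖ * ‖G c‖ ≤ A * Real.exp (-(3 * ν * ℓ)) / ν + ‖l‖ * (A * Real.exp (-(3 * ν * ℓ))) :=
            add_le_add h1 h4
        _ = _ := by ring
    have h4 : (1 / ν + ‖l‖) * (A * Real.exp (-(3 * ν * ℓ))) ≤ Real.exp (ν * ℓ) * (A * Real.exp (-(3 * ν * ℓ))) :=
      mul_le_mul_of_nonneg_right hlin (by positivity)
    have h5 : Real.exp (ν * ℓ) * (A * Real.exp (-(3 * ν * ℓ))) = A * Real.exp (-(2 * ν * ℓ)) := by
      have : Real.exp (-(2 * ν * ℓ)) = Real.exp (ν * ℓ) * Real.exp (-(3 * ν * ℓ)) := by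
        rw [← Real.exp_add]; congr 1; ring
      rw [this]; ring
    have h6 : A * Real.exp (-(2 * ν * ℓ)) < A * Real.exp (-(ν * ℓ)) := by
      apply mul_lt_mul_of_pos_left _ hA
      apply Real.exp_lt_exp.2
      linarith
    linarith
  have hG : Good G c (R / 2) (3 * ν) A ℓ := ⟨fun w hw => han w (hsubR _ (by linarith) hw),
    fun w hw => hGup w (hsubR _ (by linarith) hw), hGlo⟩
  -- the operator is good
  have hH : Good (fun w => deriv G w - l * G w) c (R / 2) (3 * ν) A ℓ := by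
    refine ⟨fun w hw => ?_, fun w hw => ?_, c, mem_closedBall_self (by positivity), ?_⟩
    · have := han w (hsubR _ (by linarith) hw)
      exact this.deriv.sub (analyticAt_const.mul this)
    · exact hup1 G c A ℓ R (by linarith) hA han hup w (closedBall_subset_closedBall (by linarith) hw)
    · refine le_trans ?_ hlo
      apply mul_le_mul_of_nonneg_left _ hA.le
      apply Real.exp_le_exp.2
      linarith
  have hl2 : ‖l‖ * (R / 2) ≤ 3 * ν * ℓ := by nlinarith
  have hGt := (hG.twist hA hℓ0.le (by positivity) (by linarith) (l := l) hl2)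
  have hHt := (hH.twist hA hℓ0.le (by positivity) (by linarith) (l := l) hl2)
  have hev : ∀ w ∈ closedBall c (R / 2), (fun w => cexp (-(l * (w - c))) * (deriv G w - l * G w))
      =ᶠ[𝓝 w] deriv (fun w => cexp (-(l * (w - c))) * G w) := by
    intro w hw
    filter_upwards [(hG.an w hw).eventually_analyticAt] with v hv
    exact (deriv_twist hv.differentiableAt).symm
  have hHt2 := hHt.congr (by linarith) hev
  have e6 : 2 * (3 * ν) = 6 * ν := by ring
  rw [e6] at hGt hHt2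
  have hdown := hGt.down hHt2 hA hℓ0 (by positivity) (by linarith) (by linarith) hY' (fun w hw => by
    rw [← (hev w hw).eq_of_nhds]
    exact mul_ne_zero (Complex.exp_ne_zero _) (h0 w (hsubR _ (by linarith) hw)))
  intro w hw
  have hw2 : w ∈ closedBall c (R / 2 / 4) := closedBall_subset_closedBall (by linarith) hw
  have h1 := hdown w hw2
  rw [norm_mul] at h1
  have h2 : ‖cexp (-(l * (w - c)))‖ ≤ Real.exp (ν * ℓ) := by
    rw [Complex.norm_exp]
    apply Real.exp_le_exp.2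
    refine (Complex.re_le_norm _).trans ?_
    rw [norm_neg, norm_mul]
    have h3 : ‖w - c‖ ≤ R := by
      rw [mem_closedBall, dist_eq_norm] at hw
      linarith
    exact (mul_le_mul_of_nonneg_left h3 hl0).trans hlR
  have h4 : A * Real.exp (ℓ * (w.re - c.re) - 123 * (6 * ν) * ℓ) ≤ Real.exp (ν * ℓ) * ‖G w‖ :=
    h1.trans (mul_le_mul_of_nonneg_right h2 (norm_nonneg _))
  have h5 : A * Real.exp (ℓ * (w.re - c.re) - 739 * ν * ℓ) ≤ ‖G w‖ := by
    have e1 : Real.exp (ℓ * (w.re - c.re) - 123 * (6 * ν) * ℓ) =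
        Real.exp (ν * ℓ) * Real.exp (ℓ * (w.re - c.re) - 739 * ν * ℓ) := by
      rw [← Real.exp_add]; congr 1; ring
    rw [e1] at h4
    have h6 : 0 < Real.exp (ν * ℓ) := Real.exp_pos _
    refine le_of_mul_le_mul_left ?_ h6
    linarith
  refine le_trans ?_ h5
  apply mul_le_mul_of_nonneg_left _ hA.le
  apply Real.exp_le_exp.2
  have := mul_le_mul_of_nonneg_right hνκ hℓ0.le
  nlinarith

/-- **the chain down** -/
theorem down_chain (L : List ℂ) : ∀ R κ : ℝ, 0 < R → 0 < κ → ∃ ν : ℝ, 0 < ν ∧ ∃ ℓ₀ : ℝ, ∀ (F : ℂ → ℂ) (c : ℂ)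
    (A ℓ : ℝ), ℓ₀ ≤ ℓ → 0 < A → (∀ w ∈ closedBall c R, AnalyticAt ℂ F w) →
    (∀ w ∈ closedBall c R, ‖F w‖ ≤ A * Real.exp (ℓ * (w.re - c.re) + ν * ℓ)) →
    A * Real.exp (-(ν * ℓ)) ≤ ‖opL L F c‖ →
    (∀ w ∈ closedBall c R, opL L F w ≠ 0) → A * Real.exp (-(κ * ℓ)) ≤ ‖F c‖ := by
  induction L with
  | nil =>
    intro R κ hR hκ
    refine ⟨κ, hκ, 0, fun F c A ℓ hℓ hA _ _ hlo _ => hlo⟩
  | cons l L ih =>
    intro R κ hR hκ
    obtain ⟨ν₁, hν₁, ℓ₁, h₁⟩ := ih (R / 16) κ (by positivity) hκ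
    obtain ⟨ν₂, hν₂, ℓ₂, h₂⟩ := down_step l (R := R / 2) (κ := ν₁) (by positivity) hν₁
    obtain ⟨ν, hν⟩ : ∃ ν : ℝ, ν = min (min ν₁ (ν₂ / 3)) (R / 2) := ⟨_, rfl⟩
    have hν0 : 0 < ν := by rw [hν]; exact lt_min (lt_min hν₁ (by positivity)) (by positivity)
    have hνν₁ : ν ≤ ν₁ := by rw [hν]; exact (min_le_left _ _).trans (min_le_left _ _)
    have hνν₂ : 3 * ν ≤ ν₂ := by
      have : ν ≤ ν₂ / 3 := by rw [hν]; exact (min_le_left _ _).trans (min_le_right _ _)
      linarith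
    have hνR : ν ≤ R / 2 := by rw [hν]; exact min_le_right _ _
    obtain ⟨ℓ₃, h₃⟩ := opL_up L hν0
    refine ⟨ν, hν0, |ℓ₁| + |ℓ₂| + |ℓ₃|, fun F c A ℓ hℓ hA han hup hlo h0 => ?_⟩
    have a1 := abs_nonneg ℓ₁
    have a2 := le_abs_self ℓ₁
    have a3 := abs_nonneg ℓ₂
    have a4 := le_abs_self ℓ₂
    have a5 := abs_nonneg ℓ₃
    have a6 := le_abs_self ℓ₃
    have hℓ0 : 0 ≤ ℓ := by linarith
    have hGup := h₃ F c A ℓ R (by linarith) hA han hup
    have hsub : closedBall c (R / 2) ⊆ closedBall c (R - ν) := closedBall_subset_closedBall (by linarith)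
    have hsub2 : closedBall c (R / 2) ⊆ closedBall c R := closedBall_subset_closedBall (by linarith)
    have hG := h₂ (opL L F) c A ℓ (by linarith) hA (fun w hw => opL_an L (han w (hsub2 hw)))
      (fun w hw => by
        refine (hGup w (hsub hw)).trans ?_
        apply mul_le_mul_of_nonneg_left _ hA.le
        apply Real.exp_le_exp.2
        have := mul_le_mul_of_nonneg_right hνν₂ hℓ0
        linarith)
      (by
        refine le_trans ?_ hlo
        apply mul_le_mul_of_nonneg_left _ hA.le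
        apply Real.exp_le_exp.2
        have : ν * ℓ ≤ ν₂ * ℓ := mul_le_mul_of_nonneg_right (by linarith) hℓ0
        linarith)
      (fun w hw => h0 w (hsub2 hw))
    have e8 : R / 2 / 8 = R / 16 := by ring
    rw [e8] at hG
    refine h₁ F c A ℓ (by linarith) hA
      (fun w hw => han w (closedBall_subset_closedBall (by linarith) hw))
      (fun w hw => by
        refine (hup w (closedBall_subset_closedBall (by linarith) hw)).trans ?_
        apply mul_le_mul_of_nonneg_left _ hA.le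
        apply Real.exp_le_exp.2
        have := mul_le_mul_of_nonneg_right hνν₁ hℓ0
        linarith) ?_ (fun w hw h => ?_)
    · have := hG c (mem_closedBall_self (by positivity))
      rw [sub_self, mul_zero, zero_sub] at this
      exact this
    · have h1 := hG w hw
      rw [h, norm_zero] at h1
      have : 0 < A * Real.exp (ℓ * (w.re - c.re) - ν₁ * ℓ) := by positivity
      linarith

end Pool.Agent.TH804.SE
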