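import Pool.Agent.TH804.SF1
import Pool.Agent.TH804.SE6

/-! Windows without `a`-points of `P(D)ζ` and windows without zeros of zeta. -/

set_option autoImplicit false

open Complex Filter Topology Metric Set Polynomial
open H370 H370.Loc

set_option maxHeartbeats 4000000

namespace Pool.Agent.TH804.SE

open Pool.Agent.TH804.SB Pool.Agent.TH804.SD
open SP (PZ)

/-- reflection -/
lemma opL_refl (L : List ℂ) (G : ℂ → ℂ) : ∀ w : ℂ, opL (L.map (fun l => -l)) (fun w => G (1 - w)) w =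
    (-1) ^ L.length * opL L G (1 - w) := by
  induction L with
  | nil => intro w; simp [opL_nil]
  | cons l L ih =>
    intro w
    have h1 : opL (L.map (fun l => -l)) (fun w => G (1 - w)) = fun w => (-1) ^ L.length * opL L G (1 - w) :=
      funext ih
    rw [List.map_cons, opL_cons, opL_cons, h1]
    simp only
    rw [deriv_const_mul_field, deriv_comp_const_sub, List.length_cons, pow_succ]
    ring

/-- Harnack's inequality -/
lemma harnack {f : ℂ → ℂ} {c : ℂ} {r ρ M : ℝ} (hρ : 0 < ρ) (hρr : ρ < r) (hM : 0 ≤ M)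
    (hf : AnalyticOnNhd ℂ f (closedBall c r)) (h0 : ∀ z ∈ closedBall c r, f z ≠ 0)
    (hup : ∀ z ∈ closedBall c r, ‖f z‖ ≤ Real.exp M) (hlo : Real.exp (-M) ≤ ‖f c‖) {z : ℂ}
    (hz : z ∈ closedBall c ρ) : Real.exp (-(M + 2 * (2 * M + 1) * ρ / (r - ρ))) ≤ ‖f z‖ := by
  have hr0 : 0 < r := hρ.trans hρr
  have hfc : f c ≠ 0 := h0 c (mem_closedBall_self hr0.le)
  obtain ⟨h, hh, hhc, hgh⟩ := DH31.exists_log (g := f) (c := c) (r := r) hr0
    (hf.mono ball_subset_closedBall) (fun w hw => h0 w (ball_subset_closedBall hw))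
  have hb := DH31.bc_log (g := f) (h := h) (c := c) (r := r) (r' := r) (r1 := ρ)
      (B := 2 * M) hρ hρr le_rfl (by positivity) hfc hh hhc hgh
      (fun v hv => by
        calc ‖f v‖ ≤ Real.exp M := hup v (ball_subset_closedBall hv)
          _ = Real.exp (2 * M) * Real.exp (-M) := by rw [← Real.exp_add]; congr 1; ring
          _ ≤ _ := mul_le_mul_of_nonneg_left hlo (Real.exp_pos _).le) hz
  have hzb : z ∈ ball c r := by
    rw [mem_closedBall] at hz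
    rw [mem_ball]; linarith
  rw [hgh z hzb, norm_mul, Complex.norm_exp]
  have h1 : -(2 * (2 * M + 1) * ρ / (r - ρ)) ≤ (h z).re := by
    have h2 := (abs_le.1 ((Complex.abs_re_le_norm (h z)).trans hb)).1
    exact h2
  calc Real.exp (-(M + 2 * (2 * M + 1) * ρ / (r - ρ))) =
      Real.exp (-M) * Real.exp (-(2 * (2 * M + 1) * ρ / (r - ρ))) := by
        rw [← Real.exp_add]; congr 1; ring
    _ ≤ _ := mul_le_mul hlo (Real.exp_le_exp.2 h1) (Real.exp_pos _).le (norm_nonneg _)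

/-- zeta is small to the right of the reflected line if there are no `a`-points -/
theorem zeta_up_right {P : ℂ[X]} (hP : P ≠ 0) (a : ℂ) {ε : ℝ} (hε : 0 < ε) : ∃ W T₀ : ℝ, 0 < W ∧ ∀ T : ℝ, T₀ ≤ T →
    ∀ σ : ℝ, 1 / 2 ≤ σ → (∀ s : ℂ, 0 < s.re → s.re ≤ 1 - σ → |s.im - T| ≤ W → PZ P s ≠ a) →
      ∀ w : ℂ, σ ≤ w.re → |w.im - T| ≤ 3 → ‖riemannZeta w‖ ≤ T ^ ε := by
  obtain ⟨δ₁, κ, W, T₁, hδ₁, hδ₁1, hκ, hW, h⟩ := small_of_few_s hP a (ε := ε / 2) (by positivity)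
  obtain ⟨C, hC, hR⟩ := right_bound (η := ε / 4) (by positivity)
  have hC0 : 0 < C := by linarith
  have hp : 0 ≤ C ^ (1 / (ε / 2)) := by positivity
  refine ⟨W + 4, |T₁| + 10 + C ^ (1 / (ε / 2)), by positivity, fun T hT σ hσ hno w hw1 hw2 => ?_⟩
  have a1 := abs_nonneg T₁
  have a2 := le_abs_self T₁
  have hT0 : 0 < T := by linarith
  have hw3 := abs_le.1 hw2
  have hCT : C ≤ T ^ (ε / 2) := W587.PL.large_of_rpow hC0 (by positivity) (by linarith)
  have him : w.im ≤ T ^ (2 : ℝ) := by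
    rw [show (2 : ℝ) = ((2 : ℕ) : ℝ) by norm_num, Real.rpow_natCast]
    nlinarith
  have him0 : 0 < w.im := by linarith
  rcases le_or_gt w.re 1 with h1 | h1
  · have h2 := h w.im (by linarith) w.re (by linarith) h1 (fun T' hT' S hS => by
      have hS0 : S = ∅ := by
        rw [Finset.eq_empty_iff_forall_notMem]
        intro s hs
        obtain ⟨b1, b2, b3, b4⟩ := hS s hs
        have b3' := abs_le.1 b3
        have hT'' := abs_le.1 hT'
        exact hno s b1 (by linarith) (by rw [abs_le]; constructor <;> linarith) b4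
      rw [hS0, Finset.sum_empty]
      have := Real.log_nonneg (show 1 ≤ w.im by linarith)
      positivity)
    rw [Complex.re_add_im w] at h2
    calc ‖riemannZeta w‖ ≤ w.im ^ (ε / 2) := h2
      _ ≤ (T ^ (2 : ℝ)) ^ (ε / 2) := Real.rpow_le_rpow him0.le him (by positivity)
      _ = T ^ ε := by rw [← Real.rpow_mul hT0.le]; congr 1; ring
  · have h2 := hR w (by linarith) (by linarith) 0 le_rfl (by linarith)
    rw [zero_add] at h2
    calc ‖riemannZeta w‖ ≤ C * w.im ^ (ε / 4) := h2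
      _ ≤ T ^ (ε / 2) * (T ^ (2 : ℝ)) ^ (ε / 4) := by gcongr
      _ = T ^ ε := by
          rw [← Real.rpow_mul hT0.le, ← Real.rpow_add hT0]; congr 1; ring

/-- zeta on the left if there are no `a`-points -/
theorem zeta_up_left {P : ℂ[X]} (hP : P ≠ 0) (a : ℂ) {ε : ℝ} (hε : 0 < ε) : ∃ W T₀ : ℝ, 0 < W ∧ ∀ T : ℝ, T₀ ≤ T →
    ∀ σ : ℝ, 1 / 2 ≤ σ → (∀ s : ℂ, 0 < s.re → s.re ≤ 1 - σ → |s.im - T| ≤ W → PZ P s ≠ a) →
      ∀ s : ℂ, -2 ≤ s.re → s.re ≤ 1 - σ → |s.im - T| ≤ 3 → ‖riemannZeta s‖ ≤ T ^ (1 / 2 - s.re + ε) := by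
  obtain ⟨W, T₀, hW, h⟩ := zeta_up_right hP a (ε := ε / 2) (by positivity)
  obtain ⟨K, hK, hleft⟩ := zeta_left'
  obtain ⟨M, hM⟩ : ∃ M : ℝ, M = 8 * Real.exp K := ⟨_, rfl⟩
  have hM0 : 0 < M := by rw [hM]; positivity
  have hp : 0 ≤ M ^ (1 / (ε / 2)) := by positivity
  refine ⟨W, |T₀| + 10 + M ^ (1 / (ε / 2)), hW, fun T hT σ hσ hno s hs1 hs2 hs3 => ?_⟩
  have a1 := abs_nonneg T₀
  have a2 := le_abs_self T₀
  have hT0 : 0 < T := by linarith
  have hs3' := abs_le.1 hs3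
  have hMT : M ≤ T ^ (ε / 2) := W587.PL.large_of_rpow hM0 (by positivity) (by linarith)
  have e1 : (1 - s).re = 1 - s.re := by simp
  have e2 : |(1 - s).im| = s.im := by
    rw [Complex.sub_im, Complex.one_im, zero_sub, abs_neg, abs_of_pos (by linarith)]
  obtain ⟨-, h1⟩ := hleft (1 - s) (by rw [e1]; linarith) (by rw [e1]; linarith) (by rw [e2]; linarith)
  rw [sub_sub_cancel, e1, e2] at h1
  have e3 : ((starRingEnd ℂ) (1 - s)).re = 1 - s.re := by rw [Complex.conj_re, e1]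
  have e4 : ((starRingEnd ℂ) (1 - s)).im = s.im := by
    rw [Complex.conj_im, Complex.sub_im, Complex.one_im]; ring
  have h2 := h T (by linarith) σ hσ hno ((starRingEnd ℂ) (1 - s)) (by rw [e3]; linarith) (by rw [e4]; exact hs3)
  rw [SP.norm_zeta_conj] at h2
  have e5 : 1 - s.re - 1 / 2 = 1 / 2 - s.re := by ring
  rw [e5] at h1
  have h3 : s.im ^ (1 / 2 - s.re) ≤ 8 * T ^ (1 / 2 - s.re) := by
    calc s.im ^ (1 / 2 - s.re) ≤ (2 * T) ^ (1 / 2 - s.re) :=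
          Real.rpow_le_rpow (by linarith) (by linarith) (by linarith)
      _ = 2 ^ (1 / 2 - s.re) * T ^ (1 / 2 - s.re) := Real.mul_rpow (by norm_num) hT0.le
      _ ≤ 2 ^ (3 : ℝ) * T ^ (1 / 2 - s.re) := by
          apply mul_le_mul_of_nonneg_right _ (by positivity)
          exact Real.rpow_le_rpow_of_exponent_le (by norm_num) (by linarith)
      _ = _ := by norm_num
  calc ‖riemannZeta s‖ ≤ Real.exp K * s.im ^ (1 / 2 - s.re) * ‖riemannZeta (1 - s)‖ := h1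
    _ ≤ Real.exp K * (8 * T ^ (1 / 2 - s.re)) * T ^ (ε / 2) := by gcongr
    _ = M * (T ^ (1 / 2 - s.re) * T ^ (ε / 2)) := by rw [hM]; ring
    _ ≤ T ^ (ε / 2) * (T ^ (1 / 2 - s.re) * T ^ (ε / 2)) := by gcongr
    _ = _ := by rw [← Real.rpow_add hT0, ← Real.rpow_add hT0]; congr 1; ring

/-- **lower bound for `P(D)ζ - a` if there are no `a`-points** -/
theorem PZ_low {P : ℂ[X]} (hP : P ≠ 0) (a : ℂ) {δ ν : ℝ} (hδ : 0 < δ) (hδ1 : δ ≤ 1 / 2) (hν : 0 < ν)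
    (hν1 : ν ≤ 1) : ∃ W T₀ : ℝ, 0 < W ∧ ∀ T : ℝ, T₀ ≤ T → ∀ σ : ℝ, 1 / 2 + δ ≤ σ → σ ≤ 1 →
      (∀ s : ℂ, 0 < s.re → s.re ≤ 1 - σ + δ → |s.im - T| ≤ W → PZ P s ≠ a) →
      ∀ s : ℂ, -(1 / 4) ≤ s.re → s.re ≤ 1 - σ + δ / 2 → |s.im - T| ≤ 1 →
        T ^ (1 / 2 - s.re - ν) ≤ ‖PZ P s - a‖ := by
  obtain ⟨c₀, L, hc₀, hPF⟩ := PF_eq _ P hP rfl
  have hc0 : 0 < ‖c₀‖ := norm_pos_iff.2 hc₀
  obtain ⟨ε, hε⟩ : ∃ ε : ℝ, ε = ν * δ / 256 := ⟨_, rfl⟩
  have hε0 : 0 < ε := by rw [hε]; positivity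
  have hε1 : ε ≤ 1 / 256 := by rw [hε]; nlinarith
  obtain ⟨W, T₁, hW, hzup⟩ := zeta_up_left hP a hε0
  obtain ⟨η, hη, hηε, ℓ₀, hℓ₀, hleft⟩ := opL_left L ε hε0 (by linarith)
  obtain ⟨T₃, hT₃, hLG⟩ := zT_LG (η := η) (W := 3) hη (by norm_num)
  obtain ⟨r, hr⟩ : ∃ r : ℝ, r = min (δ / 8) ε := ⟨_, rfl⟩
  have hr0 : 0 < r := by rw [hr]; exact lt_min (by positivity) hε0
  have hrδ : r ≤ δ / 8 := by rw [hr]; exact min_le_left _ _
  have hrε : r ≤ ε := by rw [hr]; exact min_le_right _ _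
  obtain ⟨C, hC, hCau⟩ := opL_le L r hr0
  obtain ⟨T₄, hno'⟩ := no_left' hP a
  obtain ⟨a₁, ha₁⟩ : ∃ a₁ : ℂ, a₁ = a / c₀ := ⟨_, rfl⟩
  have hna0 := norm_nonneg a₁
  -- thresholds
  obtain ⟨Q, hQ⟩ : ∃ Q : ℝ, Q = (C + 4 * (1 + ‖a₁‖) + 1 / ‖c₀‖ + 4) / ε := ⟨_, rfl⟩
  have hQ0 : 0 < Q := by rw [hQ]; positivity
  have k1 := Real.exp_pos ℓ₀
  have k2 := Real.exp_pos Q
  refine ⟨W + 3, |T₁| + T₃ + |T₄| + Real.exp ℓ₀ + Real.exp Q + 10, by positivity,
    fun T hT σ hσ1 hσ2 hno s hs1 hs2 hs3 => ?_⟩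
  have a2 := abs_nonneg T₁
  have a3 := le_abs_self T₁
  have a4 := abs_nonneg T₄
  have a5 := le_abs_self T₄
  have hT0 : 0 < T := by linarith
  obtain ⟨ℓ, hℓ⟩ : ∃ ℓ : ℝ, ℓ = Real.log T := ⟨_, rfl⟩
  have hℓ1 : ℓ₀ ≤ ℓ := by rw [hℓ, Real.le_log_iff_exp_le hT0]; linarith
  have hℓ2 : Q ≤ ℓ := by rw [hℓ, Real.le_log_iff_exp_le hT0]; linarith
  have hεℓ : C + 4 * (1 + ‖a₁‖) + 1 / ‖c₀‖ + 4 ≤ ε * ℓ := by
    rw [hQ, div_le_iff₀ hε0] at hℓ2
    linarith
  have hic : 0 < 1 / ‖c₀‖ := by positivity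
  have hℓ0 : 0 < ℓ := by linarith
  have hpow : ∀ p : ℝ, Real.exp (p * ℓ) = T ^ p := fun p => by
    rw [Real.rpow_def_of_pos hT0, hℓ, mul_comm]
  have hexp1 : C + 4 * (1 + ‖a₁‖) + 1 / ‖c₀‖ + 4 ≤ Real.exp (ε * ℓ) := by
    have := Real.add_one_le_exp (ε * ℓ)
    linarith
  have hF := hLG T (by rw [abs_of_pos hT0]; linarith)
  rw [abs_of_pos hT0, ← hℓ] at hF
  have hs3' := abs_le.1 hs3
  obtain ⟨G, hG⟩ : ∃ G : ℂ → ℂ, G = opL L (zT T) := ⟨_, rfl⟩
  obtain ⟨f, hf⟩ : ∃ f : ℂ → ℂ, f = fun v => (G v - a₁) * cexp (ℓ * v) := ⟨_, rfl⟩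
  obtain ⟨p, hp⟩ : ∃ p : ℂ, p = ⟨-(3 / 4), s.im - T⟩ := ⟨_, rfl⟩
  have hpre : p.re = -(3 / 4) := by rw [hp]
  have hpim : p.im = s.im - T := by rw [hp]
  obtain ⟨R, hR⟩ : ∃ R : ℝ, R = 5 / 4 - σ + 7 / 8 * δ := ⟨_, rfl⟩
  have hco : ∀ v ∈ closedBall p R, -(3 / 2) ≤ v.re ∧ v.re ≤ 1 / 2 - σ + 7 / 8 * δ ∧ |v.im| ≤ 5 / 2 := by
    intro v hv
    have h1 := abs_le.1 (ball_re hv)
    have h2 := abs_le.1 (ball_im hv)
    rw [hpre] at h1
    rw [hpim] at h2
    refine ⟨by linarith, by linarith, ?_⟩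
    rw [abs_le]; constructor <;> linarith
  have hPFv : ∀ v : ℂ, |v.re| ≤ 2 → |v.im| ≤ 3 → PZ P (1 / 2 + T * I + v) = c₀ * G v := by
    intro v h1 h2
    rw [hG, ← hPF (zT T) v (hF.an v h1 h2), PF_zT]
  have han : AnalyticOnNhd ℂ f (closedBall p R) := by
    intro v hv
    obtain ⟨h1, h2, h3⟩ := hco v hv
    have h4 : AnalyticAt ℂ G v := by
      rw [hG]
      exact opL_an L (hF.an v (by rw [abs_le]; constructor <;> linarith) (by linarith))
    rw [hf]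
    exact (h4.sub analyticAt_const).mul (by fun_prop)
  have hzf : ∀ v ∈ closedBall p R, f v ≠ 0 := by
    intro v hv h0
    obtain ⟨h1, h2, h3⟩ := hco v hv
    rw [hf] at h0
    simp only [mul_eq_zero, Complex.exp_ne_zero, or_false] at h0
    have h4 : G v = a₁ := sub_eq_zero.1 h0
    have h5 := hPFv v (by rw [abs_le]; constructor <;> linarith) (by linarith)
    rw [h4, ha₁, mul_div_cancel₀ _ hc₀] at h5
    have hre : (1 / 2 + T * I + v : ℂ).re = 1 / 2 + v.re := by simp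
    have him : (1 / 2 + T * I + v : ℂ).im = T + v.im := by simp
    have h3' := abs_le.1 h3
    rcases le_or_gt (1 / 2 + v.re) 0 with h6 | h6
    · refine hno' _ (by rw [hre]; linarith) (by rw [hre]; exact h6) ?_ h5
      rw [him, abs_of_pos (by linarith)]
      linarith
    · refine hno _ (by rw [hre]; exact h6) (by rw [hre]; linarith) ?_ h5
      rw [him, abs_le]; constructor <;> linarith
  have hup : ∀ v ∈ closedBall p R, ‖f v‖ ≤ Real.exp (4 * (ε * ℓ)) := by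
    intro v hv
    obtain ⟨h1, h2, h3⟩ := hco v hv
    have h3' := abs_le.1 h3
    have h4 : ‖G v‖ ≤ C * Real.exp ((-v.re + 2 * ε) * ℓ) := by
      rw [hG]
      refine hCau (zT T) v _ (Real.exp_pos _).le (fun u hu => ?_) (fun u hu => ?_)
      · have h5 := abs_le.1 (ball_re hu)
        have h6 := abs_le.1 (ball_im hu)
        apply hF.an
        · rw [abs_le]; constructor <;> linarith
        · rw [abs_le]; constructor <;> linarith
      · have h5 := abs_le.1 (ball_re hu)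
        have h6 := abs_le.1 (ball_im hu)
        have hre : (1 / 2 + T * I + u : ℂ).re = 1 / 2 + u.re := by simp
        have him : (1 / 2 + T * I + u : ℂ).im = T + u.im := by simp
        have h7 := hzup T (by linarith) (σ - δ) (by linarith)
          (fun s' b1 b2 b3 => hno s' b1 (by linarith) (by linarith)) (1 / 2 + T * I + u)
          (by rw [hre]; linarith) (by rw [hre]; linarith)
          (by rw [him, abs_le]; constructor <;> linarith)
        rw [hre, ← hpow] at h7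
        refine h7.trans ?_
        apply Real.exp_le_exp.2
        apply mul_le_mul_of_nonneg_right _ hℓ0.le
        linarith
    have h5 : ‖G v‖ ≤ Real.exp ((-v.re + 3 * ε) * ℓ) := by
      calc ‖G v‖ ≤ C * Real.exp ((-v.re + 2 * ε) * ℓ) := h4
        _ ≤ Real.exp (ε * ℓ) * Real.exp ((-v.re + 2 * ε) * ℓ) := by
            apply mul_le_mul_of_nonneg_right _ (Real.exp_pos _).le
            linarith
        _ = _ := by rw [← Real.exp_add]; congr 1; ring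
    have h6 := tw_sub_le (a := a₁) (show 0 ≤ 3 * ε by positivity) hℓ0.le (by linarith) h5
    rw [hf]
    refine h6.trans ?_
    calc (1 + ‖a₁‖) * Real.exp (3 * ε * ℓ) ≤ Real.exp (ε * ℓ) * Real.exp (3 * ε * ℓ) := by
          apply mul_le_mul_of_nonneg_right _ (Real.exp_pos _).le
          linarith
      _ = _ := by rw [← Real.exp_add]; congr 1; ring
  have hlo : Real.exp (-(4 * (ε * ℓ))) ≤ ‖f p‖ := by
    obtain ⟨h5, -⟩ := hleft (zT T) 3 5 ℓ hℓ1 hF p (by rw [hpre]; linarith)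
      (by rw [hpre]; linarith) (by rw [hpim, abs_le]; constructor <;> linarith)
    rw [← hG] at h5
    have h7 := tw_sub_ge (a := a₁) h5 (by
      have h8 := Real.add_one_le_exp ((-p.re - ε) * ℓ)
      have h9 : ε * ℓ ≤ (-p.re - ε) * ℓ := by
        apply mul_le_mul_of_nonneg_right _ hℓ0.le
        rw [hpre]; linarith
      linarith)
    rw [hf]
    refine le_trans ?_ h7
    rw [le_div_iff₀ (by norm_num)]
    have e : Real.exp (-(ε * ℓ)) = Real.exp (-(4 * (ε * ℓ))) * (Real.exp (ε * ℓ) * Real.exp (2 * (ε * ℓ))) := by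
      rw [← Real.exp_add, ← Real.exp_add]; congr 1; ring
    rw [e]
    apply mul_le_mul_of_nonneg_left _ (Real.exp_pos _).le
    have h8 : 1 ≤ Real.exp (2 * (ε * ℓ)) := Real.one_le_exp (by positivity)
    nlinarith
  obtain ⟨z, hz⟩ : ∃ z : ℂ, z = s - (1 / 2 + T * I) := ⟨_, rfl⟩
  have hzre : z.re = s.re - 1 / 2 := by rw [hz]; simp
  have hzim : z.im = s.im - T := by rw [hz]; simp
  have hzb : z ∈ closedBall p (R - 3 / 8 * δ) := by
    rw [mem_closedBall, dist_eq_norm]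
    have e1 : z - p = ((s.re + 1 / 4 : ℝ) : ℂ) := by
      apply Complex.ext
      · rw [Complex.sub_re, hzre, hpre, Complex.ofReal_re]; ring
      · rw [Complex.sub_im, hzim, hpim, Complex.ofReal_im]; ring
    rw [e1, Complex.norm_real, Real.norm_eq_abs, abs_of_nonneg (by linarith)]
    linarith
  have hM0 : 0 ≤ 4 * (ε * ℓ) := by positivity
  have hhar := harnack (f := f) (c := p) (r := R) (ρ := R - 3 / 8 * δ) (M := 4 * (ε * ℓ))
    (by linarith) (by linarith) hM0 han hzf hup hlo hzb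
  have hden : R - (R - 3 / 8 * δ) = 3 / 8 * δ := by ring
  rw [hden] at hhar
  have hbd : 4 * (ε * ℓ) + 2 * (2 * (4 * (ε * ℓ)) + 1) * (R - 3 / 8 * δ) / (3 / 8 * δ) ≤ 3 / 4 * ν * ℓ := by
    have h1 : 2 * (2 * (4 * (ε * ℓ)) + 1) * (R - 3 / 8 * δ) / (3 / 8 * δ) ≤
        2 * (9 * (ε * ℓ)) * (19 / 16) / (3 / 8 * δ) := by
      apply div_le_div_of_nonneg_right _ (by positivity)
      apply mul_le_mul _ (by linarith) (by linarith) (by positivity)
      linarith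
    have h2 : 2 * (9 * (ε * ℓ)) * (19 / 16) / (3 / 8 * δ) = 57 * (ν * ℓ) / 256 := by
      rw [hε]; field_simp; norm_num
    have h3 : 4 * (ε * ℓ) ≤ ν * ℓ / 128 := by
      rw [hε]
      have : 0 ≤ ν * ℓ := by positivity
      nlinarith
    have : 0 ≤ ν * ℓ := by positivity
    linarith
  have hfz : Real.exp (-(3 / 4 * ν * ℓ)) ≤ ‖f z‖ :=
    (Real.exp_le_exp.2 (by linarith)).trans hhar
  have hnorm : ‖f z‖ = ‖G z - a₁‖ * Real.exp (ℓ * z.re) := by
    rw [hf]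
    exact tw_norm (fun v => G v - a₁) ℓ z
  have hval : ‖PZ P s - a‖ = ‖c₀‖ * ‖G z - a₁‖ := by
    have h1 := hPFv z (by rw [hzre, abs_le]; constructor <;> linarith) (by rw [hzim, abs_le]; constructor <;> linarith)
    have h2 : 1 / 2 + T * I + z = s := by rw [hz]; ring
    rw [h2] at h1
    have h3 : PZ P s - a = c₀ * (G z - a₁) := by
      rw [h1, ha₁, mul_sub, mul_div_cancel₀ _ hc₀]
    rw [h3, norm_mul]
  rw [hnorm] at hfz
  have h6 : Real.exp (-(3 / 4 * ν * ℓ)) * Real.exp (-(ℓ * z.re)) ≤ ‖G z - a₁‖ := by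
    have h7 := mul_le_mul_of_nonneg_right hfz (Real.exp_pos (-(ℓ * z.re))).le
    have h8 : ‖G z - a₁‖ * Real.exp (ℓ * z.re) * Real.exp (-(ℓ * z.re)) = ‖G z - a₁‖ := by
      rw [mul_assoc, ← Real.exp_add]; simp
    rwa [h8] at h7
  rw [hval]
  have h9 : Real.exp (-(ε * ℓ)) ≤ ‖c₀‖ := by
    rw [Real.exp_neg]
    rw [inv_le_comm₀ (Real.exp_pos _) hc0]
    rw [← one_div]
    linarith
  calc T ^ (1 / 2 - s.re - ν) = Real.exp ((1 / 2 - s.re - ν) * ℓ) := (hpow _).symm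
    _ ≤ Real.exp (-(ε * ℓ)) * (Real.exp (-(3 / 4 * ν * ℓ)) * Real.exp (-(ℓ * z.re))) := by
        rw [← Real.exp_add, ← Real.exp_add]
        apply Real.exp_le_exp.2
        rw [hzre]
        have h10 : ε * ℓ ≤ ν * ℓ / 256 := by
          rw [hε]
          have : 0 ≤ ν * ℓ := by positivity
          nlinarith
        have : 0 ≤ ν * ℓ := by positivity
        nlinarith
    _ ≤ _ := mul_le_mul h9 h6 (by positivity) (norm_nonneg _)

end Pool.Agent.TH804.SE
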