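import Pool.Agent.TH804.SF2
import Pool.Agent.TH804.SE8

/-! Every zero of zeta to the right of the critical line comes with `a`-points of `P(D)ζ` opposite to it. -/

set_option autoImplicit false

open Complex Filter Topology Metric Set Polynomial
open H370 H370.Loc

set_option maxHeartbeats 4000000

namespace Pool.Agent.TH804.SE

open Pool.Agent.TH804.SB Pool.Agent.TH804.SD Pool.Agent.TH804.LV
open SP (PZ)

/-- **a zero of zeta is opposite to `a`-points** -/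
theorem zero_gives_pt {P : ℂ[X]} (hP : P ≠ 0) (a : ℂ) {δ : ℝ} (hδ : 0 < δ) (hδ1 : δ ≤ 1 / 2) :
    ∃ W T₁ : ℝ, 0 < W ∧ 8 ≤ T₁ ∧ ∀ σ : ℝ, 1 / 2 + δ ≤ σ → σ ≤ 1 → ∀ z : ℂ, riemannZeta z = 0 → σ ≤ z.re → T₁ ≤ z.im →
      ∃ s : ℂ, PZ P s = a ∧ 0 < s.re ∧ s.re ≤ 1 - σ + δ ∧ |s.im - z.im| ≤ W := by
  obtain ⟨c₀, L, hc₀, hPF⟩ := PF_eq _ P hP rfl
  have hc0 : 0 < ‖c₀‖ := norm_pos_iff.2 hc₀
  obtain ⟨ν, hν, ℓ₀, hdown⟩ := down_chain (L.map (fun l => -l)) (δ / 8) 1 (by positivity) one_pos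
  obtain ⟨W₁, T₁, hW₁, hup⟩ := zeta_up_left hP a hν
  obtain ⟨ν', hν'⟩ : ∃ ν' : ℝ, ν' = min (ν / 2) (δ / 4) := ⟨_, rfl⟩
  have hν'0 : 0 < ν' := by rw [hν']; exact lt_min (by positivity) (by positivity)
  have hν'ν : ν' ≤ ν / 2 := by rw [hν']; exact min_le_left _ _
  have hν'δ : ν' ≤ δ / 4 := by rw [hν']; exact min_le_right _ _
  obtain ⟨W₂, T₂, hW₂, hlow⟩ := PZ_low hP a hδ hδ1 hν'0 (by linarith)
  obtain ⟨M, hM⟩ : ∃ M : ℝ, M = 2 * ‖c₀‖ + 4 * (1 + ‖a‖) := ⟨_, rfl⟩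
  have hna := norm_nonneg a
  have hM0 : 0 < M := by rw [hM]; positivity
  have hp1 : 0 ≤ M ^ (1 / (ν / 2)) := by positivity
  have hp2 : 0 ≤ M ^ (1 / (δ / 2)) := by positivity
  have k1 := Real.exp_pos ℓ₀
  refine ⟨W₁ + W₂, |T₁| + |T₂| + Real.exp ℓ₀ + M ^ (1 / (ν / 2)) + M ^ (1 / (δ / 2)) + 10, by positivity,
    by have := abs_nonneg T₁; have := abs_nonneg T₂; linarith, fun σ hσ1 hσ2 z hz hz1 hz2 => ?_⟩
  have a1 := abs_nonneg T₁
  have a2 := le_abs_self T₁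
  have a3 := abs_nonneg T₂
  have a4 := le_abs_self T₂
  obtain ⟨T, hT⟩ : ∃ T : ℝ, T = z.im := ⟨_, rfl⟩
  rw [← hT] at hz2 ⊢
  have hT0 : 0 < T := by linarith
  have hT1 : 1 ≤ T := by linarith
  obtain ⟨ℓ, hℓ⟩ : ∃ ℓ : ℝ, ℓ = Real.log T := ⟨_, rfl⟩
  have hℓ1 : ℓ₀ ≤ ℓ := by rw [hℓ, Real.le_log_iff_exp_le hT0]; linarith
  have hpow : ∀ p : ℝ, Real.exp (p * ℓ) = T ^ p := fun p => by
    rw [Real.rpow_def_of_pos hT0, hℓ, mul_comm]
  have hMν : M ≤ T ^ (ν / 2) := W587.PL.large_of_rpow hM0 (by positivity) (by linarith)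
  have hMδ : M ≤ T ^ (δ / 2) := W587.PL.large_of_rpow hM0 (by positivity) (by linarith)
  by_contra hcon
  push Not at hcon
  have hno : ∀ W : ℝ, W ≤ W₁ + W₂ → ∀ s : ℂ, 0 < s.re → s.re ≤ 1 - σ + δ → |s.im - T| ≤ W → PZ P s ≠ a := by
    intro W hW s h1 h2 h3 h4
    have := hcon s h4 h1 h2
    linarith
  have hzre : z.re < 1 := by
    by_contra h
    push Not at h
    exact riemannZeta_ne_zero_of_one_le_re h hz
  have hup' := hup T (by linarith) (σ - δ) (by linarith)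
    (fun s b1 b2 b3 => hno W₁ (by linarith) s b1 (by linarith) b3)
  have hlow' := hlow T (by linarith) σ hσ1 hσ2 (fun s b1 b2 b3 => hno W₂ (by linarith) s b1 b2 b3)
  obtain ⟨c, hc⟩ : ∃ c : ℂ, c = (starRingEnd ℂ) z := ⟨_, rfl⟩
  have hcre : c.re = z.re := by rw [hc, Complex.conj_re]
  have hcim : c.im = -T := by rw [hc, Complex.conj_im, hT]
  have hco : ∀ w ∈ closedBall c (δ / 8), z.re - δ / 8 ≤ w.re ∧ w.re ≤ z.re + δ / 8 ∧ |(1 - w).im - T| ≤ 1 ∧
      (1 - w).re = 1 - w.re := by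
    intro w hw
    have h1 := abs_le.1 (ball_re hw)
    have h2 := abs_le.1 (ball_im hw)
    rw [hcre] at h1
    rw [hcim] at h2
    refine ⟨by linarith, by linarith, ?_, by simp⟩
    have : (1 - w).im = -w.im := by simp
    rw [this, abs_le]; constructor <;> linarith
  -- the values of `P(D)ζ`
  have hPZs : ∀ w ∈ closedBall c (δ / 8), PZ P (1 - w) = c₀ * opL L riemannZeta (1 - w) := by
    intro w hw
    obtain ⟨h1, h2, h3, h4⟩ := hco w hw
    have h3' := abs_le.1 h3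
    exact hPF riemannZeta (1 - w) (DH31.zeta_analyticAt (by linarith))
  have hPZlow : ∀ w ∈ closedBall c (δ / 8), T ^ (w.re - 1 / 2 - ν') / 2 ≤ ‖PZ P (1 - w)‖ := by
    intro w hw
    obtain ⟨h1, h2, h3, h4⟩ := hco w hw
    have h5 := hlow' (1 - w) (by rw [h4]; linarith) (by rw [h4]; linarith) h3
    rw [h4] at h5
    have e1 : 1 / 2 - (1 - w.re) - ν' = w.re - 1 / 2 - ν' := by ring
    rw [e1] at h5
    have h6 : ‖PZ P (1 - w) - a‖ ≤ ‖PZ P (1 - w)‖ + ‖a‖ := norm_sub_le _ _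
    have h7 : 2 * ‖a‖ ≤ T ^ (w.re - 1 / 2 - ν') := by
      calc 2 * ‖a‖ ≤ M := by rw [hM]; linarith
        _ ≤ T ^ (δ / 2) := hMδ
        _ ≤ _ := Real.rpow_le_rpow_of_exponent_le hT1 (by linarith)
    linarith
  have hopn : ∀ w : ℂ, ‖opL (L.map (fun l => -l)) (fun w => riemannZeta (1 - w)) w‖ = ‖opL L riemannZeta (1 - w)‖ := by
    intro w
    rw [opL_refl, norm_mul, norm_pow, norm_neg, norm_one, one_pow, one_mul]
  have hkey := hdown (fun w => riemannZeta (1 - w)) c (T ^ (z.re - 1 / 2)) ℓ hℓ1 (by positivity)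
    (fun w hw => by
      obtain ⟨h1, h2, h3, h4⟩ := hco w hw
      have h3' := abs_le.1 h3
      have h5 : AnalyticAt ℂ riemannZeta (1 - w) := DH31.zeta_analyticAt (by linarith)
      have h6 : AnalyticAt ℂ (fun w : ℂ => 1 - w) w := by fun_prop
      exact AnalyticAt.comp (g := riemannZeta) (f := fun w : ℂ => 1 - w) h5 h6)
    (fun w hw => by
      obtain ⟨h1, h2, h3, h4⟩ := hco w hw
      have h5 := hup' (1 - w) (by rw [h4]; linarith) (by rw [h4]; linarith) (by linarith)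
      rw [h4] at h5
      refine h5.trans (le_of_eq ?_)
      have e1 : ℓ * (w.re - c.re) + ν * ℓ = (w.re - c.re + ν) * ℓ := by ring
      rw [e1, hpow, ← Real.rpow_add hT0, hcre]
      congr 1
      ring)
    (by
      have hcc := mem_closedBall_self (x := c) (show 0 ≤ δ / 8 by positivity)
      have h1 := hPZlow c hcc
      rw [hPZs c hcc, norm_mul, hcre] at h1
      rw [hopn]
      have h2 : T ^ (z.re - 1 / 2) * Real.exp (-(ν * ℓ)) * (2 * ‖c₀‖) ≤ T ^ (z.re - 1 / 2 - ν') := by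
        have e1 : Real.exp (-(ν * ℓ)) = T ^ (-ν) := by rw [← hpow]; congr 1; ring
        calc T ^ (z.re - 1 / 2) * Real.exp (-(ν * ℓ)) * (2 * ‖c₀‖)
            ≤ T ^ (z.re - 1 / 2) * T ^ (-ν) * T ^ (ν / 2) := by
              rw [e1]
              apply mul_le_mul_of_nonneg_left _ (by positivity)
              refine le_trans ?_ hMν
              rw [hM]; linarith
          _ = T ^ (z.re - 1 / 2 - ν / 2) := by
              rw [← Real.rpow_add hT0, ← Real.rpow_add hT0]; congr 1; ring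
          _ ≤ _ := Real.rpow_le_rpow_of_exponent_le hT1 (by linarith)
      have h3 : T ^ (z.re - 1 / 2) * Real.exp (-(ν * ℓ)) * (2 * ‖c₀‖) ≤
          ‖opL L riemannZeta (1 - c)‖ * (2 * ‖c₀‖) := by linarith
      exact le_of_mul_le_mul_right h3 (by positivity))
    (fun w hw h => by
      have h1 := hPZlow w hw
      have h2 : ‖opL L riemannZeta (1 - w)‖ = 0 := by rw [← hopn, h, norm_zero]
      rw [hPZs w hw, norm_mul, h2, mul_zero] at h1
      have : 0 < T ^ (w.re - 1 / 2 - ν') := by positivity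
      linarith)
  -- the zero
  obtain ⟨K, hK, hleft⟩ := zeta_left'
  have hcim' : |c.im| = T := by rw [hcim, abs_neg, abs_of_pos hT0]
  obtain ⟨-, h9⟩ := hleft c (by rw [hcre]; linarith) (by rw [hcre]; linarith) (by rw [hcim']; linarith)
  have h10 : ‖riemannZeta c‖ = 0 := by rw [hc, SP.norm_zeta_conj, hz, norm_zero]
  rw [h10, mul_zero] at h9
  have : 0 < T ^ (z.re - 1 / 2) * Real.exp (-(1 * ℓ)) := by positivity
  linarith

/-- points attached to windows -/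
lemma class_count' {f : ℂ → ℂ} {B : Set ℂ} (hB : B.Finite) (hord : ∀ z ∈ B, 1 ≤ analyticOrderNatAt f z) {W : ℝ}
    {m : ℕ} (hm : 2 * W < m) (hm0 : 0 < m)
    (Q : Finset ℕ) (z : ℕ → ℂ) (hz : ∀ n ∈ Q, z n ∈ B ∧ |(z n).im - n| ≤ W) :
    (Q.card : ℝ) ≤ m * (cntf f B : ℝ) := by
  classical
  have h1 : ∀ r ∈ Finset.range m, (Q.filter (fun n => n % m = r)).card ≤ cntf f B := by
    intro r _
    obtain ⟨Qr, hQr⟩ : ∃ Qr : Finset ℕ, Qr = Q.filter (fun n => n % m = r) := ⟨_, rfl⟩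
    rw [← hQr]
    have hsub : ∀ n ∈ Qr, n ∈ Q ∧ n % m = r := fun n hn => by
      rw [hQr, Finset.mem_filter] at hn
      exact hn
    have hinj : Set.InjOn z Qr := by
      have aux : ∀ n ∈ Qr, ∀ k ∈ Qr, n < k → z n ≠ z k := by
        intro n hn k hk hnk he
        have a1 := (hsub n hn).2
        have a2 := (hsub k hk).2
        have h2 : n + m ≤ k := by
          by_contra hcon
          push Not at hcon
          have a3 : (k - n) % m = 0 := by
            have a4 : n ≡ k [MOD m] := by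
              unfold Nat.ModEq
              rw [a1, a2]
            exact Nat.mod_eq_zero_of_dvd ((Nat.modEq_iff_dvd' hnk.le).1 a4)
          rw [Nat.mod_eq_of_lt (by omega)] at a3
          omega
        have h3 : (n : ℝ) + m ≤ k := by exact_mod_cast h2
        have h4 := abs_le.1 (hz n (hsub n hn).1).2
        have h5 := abs_le.1 (hz k (hsub k hk).1).2
        rw [he] at h4
        linarith [h4.2, h5.1]
      intro n hn k hk hnk
      by_contra hne
      rcases lt_or_gt_of_ne hne with h | h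
      · exact aux n hn k hk h hnk
      · exact aux k hk n hn h hnk.symm
    have hcard : (Qr.image z).card = Qr.card := Finset.card_image_of_injOn hinj
    rw [← hcard, cntf_eq hB]
    calc (Qr.image z).card = ∑ w ∈ Qr.image z, 1 := by simp
      _ ≤ ∑ w ∈ Qr.image z, analyticOrderNatAt f w := by
          refine Finset.sum_le_sum fun w hw => ?_
          rw [Finset.mem_image] at hw
          obtain ⟨n, hn, rfl⟩ := hw
          exact hord _ (hz n (hsub n hn).1).1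
      _ ≤ _ := by
          refine Finset.sum_le_sum_of_subset fun w hw => ?_
          rw [Finset.mem_image] at hw
          obtain ⟨n, hn, rfl⟩ := hw
          rw [Set.Finite.mem_toFinset]
          exact (hz n (hsub n hn).1).1
  have h2 : Q.card = ∑ r ∈ Finset.range m, (Q.filter (fun n => n % m = r)).card :=
    Finset.card_eq_sum_card_fiberwise
      (fun s _ => Finset.mem_coe.2 (Finset.mem_range.2 (Nat.mod_lt _ hm0)))
  have h3 : Q.card ≤ m * cntf f B := by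
    rw [h2]
    calc ∑ r ∈ Finset.range m, (Q.filter (fun n => n % m = r)).card ≤ ∑ r ∈ Finset.range m, cntf f B :=
          Finset.sum_le_sum h1
      _ = _ := by simp
  exact_mod_cast h3

/-- the order is at least one -/
lemma fP_ord {P : ℂ[X]} (hP : P ≠ 0) (a : ℂ) {z : ℂ} (hz1 : z ≠ 1) (hz : PZ P z = a) :
    1 ≤ analyticOrderNatAt (fP P a) z := by
  obtain ⟨T₀, hno⟩ := no_left' hP a
  have hconn : IsPreconnected ({1}ᶜ : Set ℂ) := by
    have h := isConnected_compl_singleton_of_one_lt_rank (E := ℂ) (by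
      rw [Complex.rank_real_complex]; norm_num) (1 : ℂ)
    exact h.isPreconnected
  have han : ∀ s ∈ ({1}ᶜ : Set ℂ), AnalyticAt ℂ (fP P a) s := fun s hs => (SP.PZ_an P s hs).sub analyticAt_const
  have hx1 : (⟨0, |T₀| + 1⟩ : ℂ) ∈ ({1}ᶜ : Set ℂ) := by
    intro h
    have := congrArg Complex.re h
    simp at this
  have hx2 : fP P a ⟨0, |T₀| + 1⟩ ≠ 0 := by
    intro h
    refine hno ⟨0, |T₀| + 1⟩ (by simp) (by simp) ?_ (sub_eq_zero.1 h)
    simp only
    rw [abs_of_nonneg (by positivity)]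
    linarith [le_abs_self T₀]
  have h1 := order_ne_top (f := fP P a) (K := {1}ᶜ) hconn han hx1 hx2 (show z ∈ ({1}ᶜ : Set ℂ) from hz1)
  have h2 : analyticOrderAt (fP P a) z ≠ 0 := by
    rw [Ne, (han z hz1).analyticOrderAt_eq_zero]
    unfold fP
    simpa using sub_eq_zero.2 hz
  unfold analyticOrderNatAt
  rw [Nat.one_le_iff_ne_zero, Ne, ENat.toNat_eq_zero]
  push Not
  exact ⟨h2, h1⟩

/-- **zeros of zeta in terms of `a`-points**, without an error term -/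
theorem zeta_le_AP' {P : ℂ[X]} (hP : P ≠ 0) (a : ℂ) {δ : ℝ} (hδ : 0 < δ) :
    ∃ C : ℝ, 0 < C ∧ ∃ W : ℝ, 0 < W ∧ ∃ T₀ : ℝ, ∀ T : ℝ, T₀ ≤ T → ∀ σ : ℝ, 1 / 2 + δ ≤ σ → σ ≤ 1 →
      (DH31.cnt (DH31.zeros σ T) : ℝ) ≤
        C * (1 + (cntf (fP P a) (AP P a (σ - δ) 0 (T + W)) : ℝ) * Real.log T) := by
  classical
  rcases le_or_gt δ (1 / 2) with hδ1 | hδ1
  swap
  · exact ⟨1, one_pos, 1, one_pos, 0, fun T _ σ h1 h2 => by linarith⟩
  obtain ⟨C, hC, hloc⟩ := loc_zeta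
  obtain ⟨W, T₁, hW, hT₁, hpt⟩ := zero_gives_pt hP a hδ hδ1
  obtain ⟨m, hm⟩ : ∃ m : ℕ, m = ⌈2 * (W + 1)⌉₊ + 1 := ⟨_, rfl⟩
  have hm0 : 0 < m := by omega
  have hm1 : 2 * (W + 1) < (m : ℝ) := by
    rw [hm]
    push_cast
    have := Nat.le_ceil (2 * (W + 1))
    linarith
  have hmR : (0 : ℝ) < m := by exact_mod_cast hm0
  obtain ⟨N₀, hN₀⟩ : ∃ N₀ : ℕ, N₀ = ⌈T₁ + W + 60⌉₊ := ⟨_, rfl⟩
  have hN₀1 : T₁ + W + 60 ≤ N₀ := by rw [hN₀]; exact Nat.le_ceil _
  obtain ⟨C₀, hC₀⟩ : ∃ C₀ : ℝ, C₀ = (cntf riemannZeta (ZZ (1 / 2) 0 N₀) : ℝ) := ⟨_, rfl⟩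
  have hC₀0 : 0 ≤ C₀ := by rw [hC₀]; positivity
  refine ⟨C₀ + m * C + 1, by positivity, W + 1, by positivity, N₀ + 1, fun T hT σ hσ1 hσ2 => ?_⟩
  have hT0 : 0 < T := by linarith
  have hlog : 0 ≤ Real.log T := Real.log_nonneg (by linarith)
  have hA : (ZZ σ N₀ T).Finite := ZZ_finite _ _ _
  have hA0 : (ZZ σ 0 N₀).Finite := ZZ_finite _ _ _
  have hsplit : cntf riemannZeta (ZZ σ 0 T) ≤ cntf riemannZeta (ZZ σ 0 N₀) + cntf riemannZeta (ZZ σ N₀ T) := by
    refine le_trans (cntf_mono (hA0.union hA) fun z hz => ?_) (cntf_union hA0 hA)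
    obtain ⟨z1, z2, z3, z4⟩ := hz
    rcases le_or_gt z.im N₀ with h | h
    · exact Or.inl ⟨z1, z2, z3, h⟩
    · exact Or.inr ⟨z1, z2, h, z4⟩
  have h0 : (cntf riemannZeta (ZZ σ 0 N₀) : ℝ) ≤ C₀ := by
    rw [hC₀]
    have hsubs : ZZ σ 0 N₀ ⊆ ZZ (1 / 2) 0 N₀ := fun z hz =>
      ⟨hz.1, by linarith [hz.2.1], hz.2.2.1, hz.2.2.2⟩
    exact_mod_cast cntf_mono (ZZ_finite _ _ _) hsubs
  have hwin := win_count (f := riemannZeta) (A := ZZ σ N₀ T) (B := C * Real.log T) hA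
    (fun z hz => by linarith [hz.2.2.1]) (by
      intro n Wf hW
      rcases Wf.eq_empty_or_nonempty with hW0 | ⟨z₀, hz₀⟩
      · rw [hW0, Finset.sum_empty]
        positivity
      · obtain ⟨⟨a1, a2, a3, a4⟩, a6, a7⟩ := hW z₀ hz₀
        refine hloc T (by linarith) n ?_ (by linarith) Wf fun z hz => ?_
        · have : (3 : ℝ) ≤ n := by linarith
          exact_mod_cast this
        · obtain ⟨⟨z1, z2, z3, z4⟩, z6, z7⟩ := hW z hz
          exact ⟨z1, by linarith, z6, z7⟩)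
  have hB : (AP P a (σ - δ) 0 (T + (W + 1))).Finite := AP_finite hP a (by linarith) _ _
  have hcl : ((hA.toFinset.image wi).card : ℝ) ≤ m * (cntf (fP P a) (AP P a (σ - δ) 0 (T + (W + 1))) : ℝ) := by
    have hP' : ∀ n ∈ hA.toFinset.image wi, ∃ w : ℂ, w ∈ AP P a (σ - δ) 0 (T + (W + 1)) ∧ |w.im - n| ≤ W + 1 := by
      intro n hn
      rw [Finset.mem_image] at hn
      obtain ⟨z, hz, rfl⟩ := hn
      rw [Set.Finite.mem_toFinset] at hz
      obtain ⟨z1, z2, z3, z4⟩ := hz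
      have h3 := wi_spec (z := z) (by linarith)
      obtain ⟨s, s1, s2, s3, s4⟩ := hpt σ hσ1 hσ2 z z1 z2 (by linarith)
      have s4' := abs_le.1 s4
      refine ⟨s, ⟨s1, s2, by linarith, by linarith, by linarith⟩, ?_⟩
      rw [abs_le]; constructor <;> linarith
    choose! w hw using hP'
    refine class_count' hB (fun z hz => fP_ord hP a ?_ hz.1) hm1 hm0 _ w hw
    rintro rfl
    have := hz.2.2.2.1
    simp at this
  have h7 : (cntf riemannZeta (ZZ σ 0 T) : ℝ) ≤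
      cntf riemannZeta (ZZ σ 0 N₀) + cntf riemannZeta (ZZ σ N₀ T) := by exact_mod_cast hsplit
  have e0 : (DH31.cnt (DH31.zeros σ T) : ℝ) = (cntf riemannZeta (ZZ σ 0 T) : ℝ) := rfl
  rw [e0]
  obtain ⟨X, hX⟩ : ∃ X : ℝ, X = (cntf (fP P a) (AP P a (σ - δ) 0 (T + (W + 1))) : ℝ) := ⟨_, rfl⟩
  have hX0 : 0 ≤ X := by rw [hX]; positivity
  rw [← hX] at hcl ⊢
  have h8 : (cntf riemannZeta (ZZ σ N₀ T) : ℝ) ≤ m * X * (C * Real.log T) :=
    hwin.trans (mul_le_mul_of_nonneg_right hcl (by positivity))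
  have h9 : 0 ≤ X * Real.log T := by positivity
  have h10 : 0 ≤ m * C := by positivity
  nlinarith [mul_nonneg hC₀0 h9, mul_nonneg h10 h9]

end Pool.Agent.TH804.SE
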