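import Pool.Agent.TH804.SF3

/-! Transfer of density estimates. -/

set_option autoImplicit false

open Complex Filter Topology Metric Set Polynomial

set_option maxHeartbeats 4000000

namespace Pool.Agent.TH804.SE

open Pool.Agent.TH804.SD Pool.Agent.TH804.LV
open SP (PZ)

/-- the trivial bound for the zeros -/
lemma ZZ_triv : ∃ C : ℝ, 0 < C ∧ ∃ T₀ : ℝ, ∀ T : ℝ, T₀ ≤ T → ∀ σ : ℝ, 1 / 2 ≤ σ →
    (DH31.cnt (DH31.zeros σ T) : ℝ) ≤ C * (T * Real.log T) := by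
  classical
  obtain ⟨C, hC, hloc⟩ := loc_zeta
  obtain ⟨C₀, hC₀⟩ : ∃ C₀ : ℝ, C₀ = (cntf riemannZeta (ZZ (1 / 2) 0 60) : ℝ) := ⟨_, rfl⟩
  have hC₀0 : 0 ≤ C₀ := by rw [hC₀]; positivity
  refine ⟨C₀ + C, by positivity, 62, fun T hT σ hσ1 => ?_⟩
  have hT0 : 0 < T := by linarith
  have hlog : 0 ≤ Real.log T := Real.log_nonneg (by linarith)
  have hlog1 : 1 ≤ Real.log T := by
    rw [Real.le_log_iff_exp_le hT0]
    linarith [Real.exp_one_lt_d9]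
  have hA : (ZZ σ 60 T).Finite := ZZ_finite _ _ _
  have hA0 : (ZZ σ 0 60).Finite := ZZ_finite _ _ _
  have hsplit : cntf riemannZeta (ZZ σ 0 T) ≤ cntf riemannZeta (ZZ σ 0 60) + cntf riemannZeta (ZZ σ 60 T) := by
    refine le_trans (cntf_mono (hA0.union hA) fun z hz => ?_) (cntf_union hA0 hA)
    obtain ⟨z1, z2, z3, z4⟩ := hz
    rcases le_or_gt z.im 60 with h | h
    · exact Or.inl ⟨z1, z2, z3, h⟩
    · exact Or.inr ⟨z1, z2, h, z4⟩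
  have h0 : (cntf riemannZeta (ZZ σ 0 60) : ℝ) ≤ C₀ := by
    rw [hC₀]
    have hsubs : ZZ σ 0 60 ⊆ ZZ (1 / 2) 0 60 := fun z hz => ⟨hz.1, by linarith [hz.2.1], hz.2.2.1, hz.2.2.2⟩
    exact_mod_cast cntf_mono (ZZ_finite _ _ _) hsubs
  have hwin := triv_count (f := riemannZeta) (A := ZZ σ 60 T) (a := 60) (b := T) (B := C * Real.log T)
    (by norm_num) (by linarith) (by positivity) hA
    (fun z hz => ⟨hz.2.2.1, hz.2.2.2⟩) (by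
      intro n W hW
      rcases W.eq_empty_or_nonempty with hW0 | ⟨z₀, hz₀⟩
      · rw [hW0, Finset.sum_empty]
        positivity
      · obtain ⟨⟨a1, a2, a3, a4⟩, a6, a7⟩ := hW z₀ hz₀
        refine hloc T (by linarith) n ?_ (by linarith) W fun z hz => ?_
        · have : (3 : ℝ) ≤ n := by linarith
          exact_mod_cast this
        · obtain ⟨⟨z1, z2, z3, z4⟩, z6, z7⟩ := hW z hz
          exact ⟨z1, by linarith, z6, z7⟩)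
  have h7 : (cntf riemannZeta (ZZ σ 0 T) : ℝ) ≤
      cntf riemannZeta (ZZ σ 0 60) + cntf riemannZeta (ZZ σ 60 T) := by exact_mod_cast hsplit
  have e0 : (DH31.cnt (DH31.zeros σ T) : ℝ) = (cntf riemannZeta (ZZ σ 0 T) : ℝ) := rfl
  rw [e0]
  have h8 : (T - 60 + 2) * (C * Real.log T) ≤ T * (C * Real.log T) :=
    mul_le_mul_of_nonneg_right (by linarith) (by positivity)
  have h9 : 1 ≤ T * Real.log T := by nlinarith
  nlinarith [mul_le_mul_of_nonneg_left h9 hC₀0]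

/-- the bound with exponent `f σ + ε` -/
def Dens (f : ℝ → ℝ) (X : ℝ → ℝ → ℝ) : Prop := ∀ ε : ℝ, 0 < ε → ∃ C : ℝ, 0 < C ∧ ∃ T₀ : ℝ, ∀ T : ℝ, T₀ ≤ T →
  ∀ σ : ℝ, 1 / 2 ≤ σ → σ ≤ 1 → X σ T ≤ C * T ^ (f σ + ε)

/-- **transfer** -/
theorem Dens.transfer {f : ℝ → ℝ} (hf : ContinuousOn f (Icc (1 / 2) 1)) (hf0 : ∀ σ ∈ Icc (1 / 2 : ℝ) 1, 0 ≤ f σ)
    (hf1 : 1 ≤ f (1 / 2)) {X Y : ℝ → ℝ → ℝ}
    (hXY : ∀ δ : ℝ, 0 < δ → ∃ C : ℝ, 0 < C ∧ ∃ W : ℝ, 0 < W ∧ ∃ T₀ : ℝ, ∀ T : ℝ, T₀ ≤ T → ∀ σ : ℝ,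
      1 / 2 + δ ≤ σ → σ ≤ 1 → X σ T ≤ C * (1 + Y (σ - δ) (T + W) * Real.log T))
    (htriv : ∃ C : ℝ, 0 < C ∧ ∃ T₀ : ℝ, ∀ T : ℝ, T₀ ≤ T → ∀ σ : ℝ, 1 / 2 ≤ σ → X σ T ≤ C * (T * Real.log T))
    (hY : Dens f Y) : Dens f X := by
  intro ε hε
  have hun : UniformContinuousOn f (Icc (1 / 2) 1) := isCompact_Icc.uniformContinuousOn_of_continuous hf
  obtain ⟨δ₀, hδ₀, hun⟩ := (Metric.uniformContinuousOn_iff.1 hun) (ε / 4) (by positivity)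
  obtain ⟨δ, hδ⟩ : ∃ δ : ℝ, δ = min (δ₀ / 2) (1 / 4) := ⟨_, rfl⟩
  have hδ0 : 0 < δ := by rw [hδ]; exact lt_min (by positivity) (by norm_num)
  have hδδ₀ : δ < δ₀ := by
    have : δ ≤ δ₀ / 2 := by rw [hδ]; exact min_le_left _ _
    linarith
  have hδ1 : δ ≤ 1 / 4 := by rw [hδ]; exact min_le_right _ _
  obtain ⟨B, hB⟩ : ∃ B : ℝ, ∀ σ ∈ Icc (1 / 2 : ℝ) 1, f σ ≤ B := by
    obtain ⟨B, hB⟩ := isCompact_Icc.bddAbove_image hf
    exact ⟨B, fun σ hσ => hB (mem_image_of_mem f hσ)⟩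
  obtain ⟨C₁, hC₁, W, hW, T₁, h₁⟩ := hXY δ hδ0
  obtain ⟨C₂, hC₂, T₂, h₂⟩ := hY (ε / 4) (by positivity)
  obtain ⟨C₃, hC₃, T₃, h₃⟩ := htriv
  obtain ⟨T₄, h₄⟩ := Filter.eventually_atTop.1 (DH31.ev_log 1 (ε / 4) 1 (by positivity))
  obtain ⟨K, hK⟩ : ∃ K : ℝ, K = C₂ * 2 ^ (B + ε) := ⟨_, rfl⟩
  have hK0 : 0 < K := by rw [hK]; positivity
  refine ⟨C₁ * (1 + K) + C₃, by positivity, max (max T₁ T₂) (max (max T₃ T₄) (max W 3)), ?_⟩
  intro T hT σ hσ1 hσ2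
  have hT₁ : T₁ ≤ T := (le_max_left _ _).trans ((le_max_left _ _).trans hT)
  have hT₂ : T₂ ≤ T := (le_max_right _ _).trans ((le_max_left _ _).trans hT)
  have hT₃ : T₃ ≤ T := ((le_max_left _ _).trans (le_max_left _ _)).trans ((le_max_right _ _).trans hT)
  have hT₄ : T₄ ≤ T := ((le_max_right _ _).trans (le_max_left _ _)).trans ((le_max_right _ _).trans hT)
  have hTW : W ≤ T := ((le_max_left _ _).trans (le_max_right _ _)).trans ((le_max_right _ _).trans hT)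
  have hT3 : 3 ≤ T := ((le_max_right _ _).trans (le_max_right _ _)).trans ((le_max_right _ _).trans hT)
  have hT0 : 0 < T := by linarith
  have hT1 : 1 ≤ T := by linarith
  have hlog : Real.log T ≤ T ^ (ε / 4) := by
    have := h₄ T hT₄
    simpa using this
  have hlog0 : 0 ≤ Real.log T := Real.log_nonneg hT1
  have hfσ := hf0 σ ⟨hσ1, hσ2⟩
  have hpos : 0 ≤ T ^ (f σ + ε) := by positivity
  have hone : 1 ≤ T ^ (f σ + ε) := Real.one_le_rpow hT1 (by linarith)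
  rcases le_or_gt (1 / 2 + δ) σ with hσ | hσ
  · have h5 := h₁ T hT₁ σ hσ hσ2
    have h6 := h₂ (T + W) (by linarith) (σ - δ) (by linarith) (by linarith)
    have hmem : σ - δ ∈ Icc (1 / 2 : ℝ) 1 := ⟨by linarith, by linarith⟩
    have hcl := hun σ ⟨hσ1, hσ2⟩ (σ - δ) hmem (by
      rw [Real.dist_eq, sub_sub_cancel, abs_of_pos hδ0]; exact hδδ₀)
    rw [Real.dist_eq] at hcl
    have hcl' := abs_lt.1 hcl
    have hf2 := hf0 _ hmem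
    have hf3 := hB _ hmem
    have h7 : (T + W) ^ (f (σ - δ) + ε / 4) ≤ 2 ^ (B + ε) * T ^ (f (σ - δ) + ε / 4) :=
      shift_rpow hW.le hTW hT0 (by linarith) (by linarith)
    have h8 : Y (σ - δ) (T + W) * Real.log T ≤ K * T ^ (f σ + ε) := by
      calc Y (σ - δ) (T + W) * Real.log T ≤ (C₂ * (2 ^ (B + ε) * T ^ (f (σ - δ) + ε / 4))) * Real.log T := by
            apply mul_le_mul_of_nonneg_right _ hlog0
            exact h6.trans (mul_le_mul_of_nonneg_left h7 hC₂.le)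
        _ ≤ (C₂ * (2 ^ (B + ε) * T ^ (f (σ - δ) + ε / 4))) * T ^ (ε / 4) :=
            mul_le_mul_of_nonneg_left hlog (by positivity)
        _ = K * T ^ (f (σ - δ) + ε / 4 + ε / 4) := by
            rw [Real.rpow_add hT0 (f (σ - δ) + ε / 4), hK]; ring
        _ ≤ _ := by
            apply mul_le_mul_of_nonneg_left _ hK0.le
            exact Real.rpow_le_rpow_of_exponent_le hT1 (by linarith)
    calc X σ T ≤ C₁ * (1 + Y (σ - δ) (T + W) * Real.log T) := h5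
      _ ≤ C₁ * (T ^ (f σ + ε) + K * T ^ (f σ + ε)) :=
          mul_le_mul_of_nonneg_left (add_le_add hone h8) hC₁.le
      _ = C₁ * (1 + K) * T ^ (f σ + ε) := by ring
      _ ≤ _ := by
          apply mul_le_mul_of_nonneg_right _ hpos
          linarith
  · have h5 := h₃ T hT₃ σ hσ1
    have hcl := hun σ ⟨hσ1, hσ2⟩ (1 / 2) ⟨le_rfl, by norm_num⟩ (by
      rw [Real.dist_eq, abs_of_nonneg (by linarith)]; linarith)
    rw [Real.dist_eq] at hcl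
    have hcl' := abs_lt.1 hcl
    calc X σ T ≤ C₃ * (T * Real.log T) := h5
      _ ≤ C₃ * (T ^ (1 : ℝ) * T ^ (ε / 4)) := by
          rw [Real.rpow_one]
          gcongr
      _ = C₃ * T ^ (1 + ε / 4) := by rw [Real.rpow_add hT0]
      _ ≤ C₃ * T ^ (f σ + ε) := by
          apply mul_le_mul_of_nonneg_left _ hC₃.le
          exact Real.rpow_le_rpow_of_exponent_le hT1 (by linarith)
      _ ≤ _ := by
          apply mul_le_mul_of_nonneg_right _ hpos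
          have : 0 < C₁ * (1 + K) := by positivity
          linarith

/-- the two-sided comparison -/
theorem two_sided {P : ℂ[X]} (hP : P ≠ 0) (a : ℂ) {δ : ℝ} (hδ : 0 < δ) :
    ∃ C : ℝ, 0 < C ∧ ∃ W : ℝ, 0 < W ∧ ∃ T₀ : ℝ, ∀ T : ℝ, T₀ ≤ T → ∀ σ : ℝ, 1 / 2 + δ ≤ σ → σ ≤ 1 →
      (cntf (fP P a) (AP P a σ 0 T) : ℝ) ≤ C * (1 + (DH31.cnt (DH31.zeros (σ - δ) (T + W)) : ℝ) * Real.log T) ∧
      (DH31.cnt (DH31.zeros σ T) : ℝ) ≤
        C * (1 + (cntf (fP P a) (AP P a (σ - δ) 0 (T + W)) : ℝ) * Real.log T) := by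
  obtain ⟨C₁, hC₁, T₁, h₁⟩ := AP_le_zeta hP a hδ
  obtain ⟨C₂, hC₂, W, hW, T₂, h₂⟩ := zeta_le_AP' hP a hδ
  refine ⟨C₁ + C₂, by positivity, W + 2, by positivity, max (max T₁ T₂) 1, fun T hT σ hσ1 hσ2 => ?_⟩
  have hT₁ : T₁ ≤ T := (le_max_left _ _).trans ((le_max_left _ _).trans hT)
  have hT₂ : T₂ ≤ T := (le_max_right _ _).trans ((le_max_left _ _).trans hT)
  have hT1 : 1 ≤ T := (le_max_right _ _).trans hT
  have hlog : 0 ≤ Real.log T := Real.log_nonneg hT1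
  have h3 := h₁ T hT₁ σ hσ1 hσ2
  have h4 := h₂ T hT₂ σ hσ1 hσ2
  constructor
  · have h5 : (DH31.cnt (DH31.zeros (σ - δ) (T + 2)) : ℝ) ≤ DH31.cnt (DH31.zeros (σ - δ) (T + (W + 2))) := by
      have : cntf riemannZeta (ZZ (σ - δ) 0 (T + 2)) ≤ cntf riemannZeta (ZZ (σ - δ) 0 (T + (W + 2))) :=
        cntf_mono (ZZ_finite _ _ _) fun z hz => ⟨hz.1, hz.2.1, hz.2.2.1, by linarith [hz.2.2.2]⟩
      exact_mod_cast this
    calc (cntf (fP P a) (AP P a σ 0 T) : ℝ)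
        ≤ C₁ * (1 + (DH31.cnt (DH31.zeros (σ - δ) (T + 2)) : ℝ) * Real.log T) := h3
      _ ≤ (C₁ + C₂) * (1 + (DH31.cnt (DH31.zeros (σ - δ) (T + (W + 2))) : ℝ) * Real.log T) := by
          gcongr
          linarith
  · have h5 : (cntf (fP P a) (AP P a (σ - δ) 0 (T + W)) : ℝ) ≤ cntf (fP P a) (AP P a (σ - δ) 0 (T + (W + 2))) := by
      have : cntf (fP P a) (AP P a (σ - δ) 0 (T + W)) ≤ cntf (fP P a) (AP P a (σ - δ) 0 (T + (W + 2))) :=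
        cntf_mono (AP_finite hP a (by linarith) _ _) fun z hz =>
          ⟨hz.1, hz.2.1, hz.2.2.1, hz.2.2.2.1, by linarith [hz.2.2.2.2]⟩
      exact_mod_cast this
    calc (DH31.cnt (DH31.zeros σ T) : ℝ)
        ≤ C₂ * (1 + (cntf (fP P a) (AP P a (σ - δ) 0 (T + W)) : ℝ) * Real.log T) := h4
      _ ≤ (C₁ + C₂) * (1 + (cntf (fP P a) (AP P a (σ - δ) 0 (T + (W + 2))) : ℝ) * Real.log T) := by
          gcongr
          linarith

/-- **all density estimates** -/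
theorem dens_iff {P : ℂ[X]} (hP : P ≠ 0) (a : ℂ) {f : ℝ → ℝ} (hf : ContinuousOn f (Icc (1 / 2) 1))
    (hf0 : ∀ σ ∈ Icc (1 / 2 : ℝ) 1, 0 ≤ f σ) (hf1 : 1 ≤ f (1 / 2)) :
    Dens f (fun σ T => (DH31.cnt (DH31.zeros σ T) : ℝ)) ↔ Dens f (fun σ T => (cntf (fP P a) (AP P a σ 0 T) : ℝ)) := by
  constructor
  · intro h
    refine Dens.transfer hf hf0 hf1 (fun δ hδ => ?_) ?_ h
    · obtain ⟨C, hC, W, hW, T₀, h₀⟩ := two_sided hP a hδ
      exact ⟨C, hC, W, hW, T₀, fun T hT σ hσ1 hσ2 => (h₀ T hT σ hσ1 hσ2).1⟩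
    · exact AP_triv hP a
  · intro h
    refine Dens.transfer hf hf0 hf1 (fun δ hδ => ?_) ?_ h
    · obtain ⟨C, hC, W, hW, T₀, h₀⟩ := two_sided hP a hδ
      exact ⟨C, hC, W, hW, T₀, fun T hT σ hσ1 hσ2 => (h₀ T hT σ hσ1 hσ2).2⟩
    · exact ZZ_triv

/-- **the local theorem** -/
theorem local_both {P : ℂ[X]} (hP : P ≠ 0) (a : ℂ) {δ : ℝ} (hδ : 0 < δ) :
    ∃ W T₀ : ℝ, ∀ σ : ℝ, 1 / 2 + δ ≤ σ → σ ≤ 1 →
      (∀ s : ℂ, PZ P s = a → 0 < s.re → s.re ≤ 1 - σ → T₀ ≤ s.im →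
        ∃ z : ℂ, riemannZeta z = 0 ∧ σ - δ ≤ z.re ∧ |z.im - s.im| ≤ W) ∧
      (∀ z : ℂ, riemannZeta z = 0 → σ ≤ z.re → T₀ ≤ z.im →
        ∃ s : ℂ, PZ P s = a ∧ 0 < s.re ∧ s.re ≤ 1 - σ + δ ∧ |s.im - z.im| ≤ W) := by
  rcases le_or_gt δ (1 / 2) with hδ1 | hδ1
  swap
  · exact ⟨0, 0, fun σ h1 h2 => by linarith⟩
  obtain ⟨T₁, hT₁, h₁⟩ := no_pts hP a hδ hδ1
  obtain ⟨W, T₂, hW, hT₂, h₂⟩ := zero_gives_pt hP a hδ hδ1
  refine ⟨W + 2, T₁ + T₂, fun σ hσ1 hσ2 => ⟨fun s hs1 hs2 hs3 hs4 => ?_, fun z hz1 hz2 hz3 => ?_⟩⟩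
  · by_contra hcon
    push Not at hcon
    refine h₁ σ hσ1 hσ2 s hs2.le hs3 (by linarith) (fun z z1 z2 z3 => ?_) hs1
    have := hcon z z3 z1
    linarith
  · obtain ⟨s, s1, s2, s3, s4⟩ := h₂ σ hσ1 hσ2 z hz1 hz2 (by linarith)
    exact ⟨s, s1, s2, s3, by linarith⟩

end Pool.Agent.TH804.SE
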