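import Pool.Agent.H31R2.DH.BackZeta

/-! Sections of the zeta series: basic facts. -/

set_option autoImplicit false

open Complex Metric Set Filter Topology

namespace Pool.Agent.TH804.SS

open H370 H370.Loc

/-- partial sums of the zeta series -/
noncomputable def sec (N : ℕ) (s : ℂ) : ℂ := ∑ n ∈ Finset.range N, ((n : ℂ) + 1) ^ (-s)

lemma n1_ne (n : ℕ) : ((n : ℂ) + 1) ≠ 0 := by exact_mod_cast n.succ_ne_zero

lemma sec_diff (N : ℕ) : Differentiable ℂ (sec N) := by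
  unfold sec
  refine Differentiable.fun_sum fun n _ => ?_
  intro s
  exact DifferentiableAt.const_cpow (by fun_prop) (Or.inl (n1_ne n))

lemma sec_analytic (N : ℕ) (s : ℂ) : AnalyticAt ℂ (sec N) s := (sec_diff N).analyticAt s

lemma term_norm (n : ℕ) (s : ℂ) : ‖((n : ℂ) + 1) ^ (-s)‖ = ((n : ℝ) + 1) ^ (-s.re) := by
  have h : ((n : ℂ) + 1) = (((n : ℝ) + 1 : ℝ) : ℂ) := by push_cast; ring
  rw [h, Complex.norm_cpow_eq_rpow_re_of_pos (by positivity)]
  simp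

lemma sec_crude (N : ℕ) {s : ℂ} (hs : 0 ≤ s.re) : ‖sec N s‖ ≤ N := by
  unfold sec
  refine (norm_sum_le _ _).trans ?_
  calc ∑ n ∈ Finset.range N, ‖((n : ℂ) + 1) ^ (-s)‖ ≤ ∑ n ∈ Finset.range N, (1 : ℝ) := by
        refine Finset.sum_le_sum fun n _ => ?_
        rw [term_norm]
        exact Real.rpow_le_one_of_one_le_of_nonpos (by linarith [n.cast_nonneg (α := ℝ)]) (by linarith)
    _ = N := by simp

/-- `ζ(2 - l) < 2` for some `l > 0` -/
lemma exists_l : ∃ l : ℝ, 0 < l ∧ l ≤ 1 / 4 ∧ ∑' n : ℕ, ((n : ℝ) + 1) ^ (-(2 - l)) < 2 := by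
  have hz2 : riemannZeta 2 = (Real.pi : ℂ) ^ 2 / 6 := riemannZeta_two
  have hc : ContinuousAt (fun x : ℝ => (riemannZeta (x : ℂ)).re) 2 := by
    have h1 : ContinuousAt riemannZeta ((2 : ℝ) : ℂ) :=
      (differentiableAt_riemannZeta (by norm_num)).continuousAt
    exact Complex.continuous_re.continuousAt.comp
      (ContinuousAt.comp (f := fun x : ℝ => (x : ℂ)) h1 Complex.continuous_ofReal.continuousAt)
  have h2 : (riemannZeta ((2 : ℝ) : ℂ)).re < 2 := by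
    have : ((2 : ℝ) : ℂ) = 2 := by norm_num
    rw [this, hz2]
    have h3 : ((Real.pi : ℂ) ^ 2 / 6).re = Real.pi ^ 2 / 6 := by
      have : (Real.pi : ℂ) ^ 2 / 6 = ((Real.pi ^ 2 / 6 : ℝ) : ℂ) := by push_cast; ring
      rw [this, Complex.ofReal_re]
    rw [h3]
    have := Real.pi_lt_d2
    nlinarith [Real.pi_pos]
  have h4 := hc.eventually (gt_mem_nhds h2)
  rw [Metric.eventually_nhds_iff] at h4
  obtain ⟨r, hr, h5⟩ := h4
  refine ⟨min (r / 2) (1 / 4), by positivity, min_le_right _ _, ?_⟩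
  set l := min (r / 2) (1 / 4) with hl
  have hl0 : 0 < l := by positivity
  have hl1 : l ≤ 1 / 4 := min_le_right _ _
  have h6 := h5 (y := 2 - l) (by
    rw [Real.dist_eq]
    have : |2 - l - 2| = l := by rw [show 2 - l - 2 = -l by ring, abs_neg, abs_of_pos hl0]
    rw [this]
    exact lt_of_le_of_lt (min_le_left _ _) (by linarith))
  have h7 : riemannZeta ((2 - l : ℝ) : ℂ) = ((∑' n : ℕ, ((n : ℝ) + 1) ^ (-(2 - l)) : ℝ) : ℂ) := by
    rw [zeta_eq_tsum_one_div_nat_add_one_cpow (by simp only [Complex.ofReal_re]; linarith), Complex.ofReal_tsum]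
    congr 1
    ext n
    have h8 : (0 : ℝ) ≤ (n : ℝ) + 1 := by positivity
    rw [Real.rpow_neg h8, Complex.ofReal_inv, Complex.ofReal_cpow h8]
    push_cast
    rw [one_div]
  rw [h7, Complex.ofReal_re] at h6
  exact h6

/-- sections to the right -/
lemma sec_right : ∃ l A : ℝ, 0 < l ∧ l ≤ 1 / 4 ∧ 1 ≤ A ∧ ∀ N : ℕ, 1 ≤ N → ∀ s : ℂ, 2 - l ≤ s.re →
    ‖sec N s‖ ≤ A ∧ 1 / A ≤ ‖sec N s‖ := by
  obtain ⟨l, hl, hl1, hl2⟩ := exists_l
  set K := ∑' n : ℕ, ((n : ℝ) + 1) ^ (-(2 - l)) with hK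
  have hsum : Summable (fun n : ℕ => ((n : ℝ) + 1) ^ (-(2 - l))) := by
    have h := (summable_nat_add_iff 1).2 (Real.summable_nat_rpow (p := -(2 - l)) |>.2 (by linarith))
    simpa using h
  refine ⟨l, max 2 (1 / (2 - K)), hl, hl1, le_trans (by norm_num) (le_max_left _ _), fun N hN s hs => ?_⟩
  have h2K : 0 < 2 - K := by linarith
  have hsplit : sec N s = 1 + ∑ n ∈ Finset.Ico 1 N, ((n : ℂ) + 1) ^ (-s) := by
    unfold sec
    rw [Finset.range_eq_Ico, Finset.sum_eq_sum_Ico_succ_bot (by omega)]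
    simp
  have hK1 : 1 + ∑ n ∈ Finset.Ico 1 N, ((n : ℝ) + 1) ^ (-(2 - l)) ≤ K := by
    have h1 : ∑ n ∈ Finset.range N, ((n : ℝ) + 1) ^ (-(2 - l)) =
        1 + ∑ n ∈ Finset.Ico 1 N, ((n : ℝ) + 1) ^ (-(2 - l)) := by
      rw [Finset.range_eq_Ico, Finset.sum_eq_sum_Ico_succ_bot (by omega)]
      simp
    rw [← h1]
    exact hsum.sum_le_tsum _ (fun n _ => by positivity)
  have hR : ‖∑ n ∈ Finset.Ico 1 N, ((n : ℂ) + 1) ^ (-s)‖ ≤ K - 1 := by
    refine (norm_sum_le _ _).trans ?_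
    have : ∑ n ∈ Finset.Ico 1 N, ‖((n : ℂ) + 1) ^ (-s)‖ ≤
        ∑ n ∈ Finset.Ico 1 N, ((n : ℝ) + 1) ^ (-(2 - l)) := by
      refine Finset.sum_le_sum fun n _ => ?_
      rw [term_norm]
      exact Real.rpow_le_rpow_of_exponent_le (by linarith [n.cast_nonneg (α := ℝ)]) (by linarith)
    linarith
  constructor
  · rw [hsplit]
    refine (norm_add_le _ _).trans ?_
    rw [norm_one]
    exact le_trans (by linarith) (le_max_left _ _)
  · have h1 : 2 - K ≤ ‖sec N s‖ := by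
      rw [hsplit]
      have := norm_sub_le_norm_add (1 : ℂ) (∑ n ∈ Finset.Ico 1 N, ((n : ℂ) + 1) ^ (-s))
      rw [norm_one] at this
      linarith
    refine le_trans ?_ h1
    rw [one_div_le (lt_of_lt_of_le two_pos (le_max_left _ _)) h2K]
    exact le_max_right _ _

end Pool.Agent.TH804.SS
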