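import Pool.Agent.TH804.SS1

/-! Backlund's argument for the sections of the zeta series. -/

set_option autoImplicit false

open Complex Metric Set Filter Topology

namespace Pool.Agent.TH804.SS

open H370 H370.Loc

/-- at most `n` zeros of the section in `Re s ≥ 1/2 + δ`, `|Im s - T| ≤ H` -/
def Few (N : ℕ) (δ H T n : ℝ) : Prop := ∀ S : Finset ℂ,
  (∀ s ∈ S, 1 / 2 + δ ≤ s.re ∧ |s.im - T| ≤ H ∧ sec N s = 0) →
    ∑ s ∈ S, (analyticOrderNatAt (sec N) s : ℝ) ≤ n

lemma mult_scale (N : ℕ) (z : ℂ) : mult (fun z => sec N (2 * z)) z = analyticOrderNatAt (sec N) (2 * z) := by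
  have h2 : AnalyticAt ℂ (fun z : ℂ => 2 * z) z := by fun_prop
  have h3 : deriv (fun z : ℂ => 2 * z) z ≠ 0 := by
    have : HasDerivAt (fun z : ℂ => 2 * z) (2 * 1) z := (hasDerivAt_id z).const_mul 2
    rw [this.deriv]; norm_num
  have h4 := analyticOrderAt_comp_of_deriv_ne_zero (f := sec N) h2 h3
  unfold mult analyticOrderNatAt
  rw [← h4]
  rfl

theorem sec_small {δ η A : ℝ} (hδ : 0 < δ) (hδ1 : δ ≤ 1 / 12) (hη : 0 < η) (hA : 1 ≤ A) :
    ∃ κ : ℝ, 0 < κ ∧ ∃ T0 : ℝ, ∀ T : ℝ, T0 ≤ T → ∀ N : ℕ, 1 ≤ N → (N : ℝ) ≤ T ^ A → ∀ t : ℝ,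
      Few N δ (3 / 2) t (κ * Real.log T) → ∀ s : ℂ, 1 / 2 + 2 * δ ≤ s.re → s.im = t →
        ‖sec N s‖ ≤ T ^ η := by
  obtain ⟨l, B, hl, hl1, hB1, hB⟩ := sec_right
  obtain ⟨d, hd⟩ : ∃ d : ℝ, d = δ / 2 := ⟨_, rfl⟩
  obtain ⟨p, hp⟩ : ∃ p : ℝ, p = l / 2 := ⟨_, rfl⟩
  have hd0 : 0 < d := by rw [hd]; positivity
  have hp0 : 0 < p := by rw [hp]; positivity
  have hlogδ : 0 ≤ Real.log (1 / d) := Real.log_nonneg (by rw [le_div_iff₀ hd0]; linarith)
  have hlog2δ : 0 ≤ Real.log (2 / p) := Real.log_nonneg (by rw [le_div_iff₀ hp0]; linarith)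
  have hlogB : 0 ≤ Real.log B := Real.log_nonneg hB1
  set D : ℝ := 8 / d ^ 2 * (A + Real.log (1 / d)) with hD
  have hD0 : 0 < D := by positivity
  obtain ⟨K, hK⟩ := exists_pow_lt_of_lt_one (show 0 < η / 4 / D by positivity)
    (show 1 - d / 2 < 1 by linarith)
  have hq0 : 0 ≤ 1 - d / 2 := by linarith
  rw [lt_div_iff₀ hD0] at hK
  set G : ℝ := K * (4 / p) ^ K with hG
  have hG0 : 0 ≤ G := by positivity
  set E : ℝ := Real.log (2 / p) * (1 + 2 * G) + 1 with hE
  have hE0 : 0 < E := by positivity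
  set C : ℝ := Real.log B + 2 * (2 * Real.log B + 1) * G +
    8 / d ^ 2 * (Real.log B + 1) with hC
  have hC0 : 0 ≤ C := by positivity
  refine ⟨min 1 (η / 4 / E), lt_min one_pos (by positivity), max (max 10 (Real.exp (4 * C / η)))
    (max (Real.exp (Real.log B / η)) 1), ?_⟩
  intro T hT N hN1 hNT t hfew s hs1 hs2
  set η' := min 1 (η / 4 / E) with hη'
  have hη'0 : 0 < η' := lt_min one_pos (by positivity)
  have hη'1 : η' ≤ 1 := min_le_left _ _
  have hη'2 : η' * E ≤ η / 4 := by
    have : η' ≤ η / 4 / E := min_le_right _ _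
    rwa [le_div_iff₀ hE0] at this
  have hT10 : 10 ≤ T := ((le_max_left _ _).trans (le_max_left _ _)).trans hT
  have hT0 : 0 < T := by linarith
  have hL : 4 * C / η ≤ Real.log T := by
    rw [Real.le_log_iff_exp_le hT0]
    exact ((le_max_right _ _).trans (le_max_left _ _)).trans hT
  have hLB : Real.log B / η ≤ Real.log T := by
    rw [Real.le_log_iff_exp_le hT0]
    exact ((le_max_left _ _).trans (le_max_right _ _)).trans hT
  have hL0 : 0 ≤ Real.log T := Real.log_nonneg (by linarith)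
  rw [div_le_iff₀ hη] at hL hLB
  set L := Real.log T with hLdef
  have hTη : T ^ η = Real.exp (η * L) := by
    rw [Real.rpow_def_of_pos hT0, mul_comm]
  -- to the right of 2 - l
  rcases le_or_gt 2 s.re with h2s | h2s
  · refine (hB N hN1 s (by linarith)).1.trans ?_
    rw [hTη, ← Real.exp_log (show 0 < B by linarith)]
    apply Real.exp_le_exp.2
    linarith
  have hballre : ∀ (w : ℂ) (r : ℝ), w ∈ closedBall (⟨1, t / 2⟩ : ℂ) r → 2 - 2 * r ≤ (2 * w).re ∧
      |(2 * w).im - t| ≤ 2 * r := by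
    intro w r hw
    have h1 := DH31.ball_re_im hw
    have h2 : (2 * w).re = 2 * w.re := by simp
    have h3 : (2 * w).im = 2 * w.im := by simp
    rw [h2, h3]
    refine ⟨by linarith [h1.1], ?_⟩
    have h4 : 2 * w.im - t = 2 * (w.im - t / 2) := by ring
    rw [h4, abs_mul, abs_two]
    linarith [h1.2]
  have key := DH31.backlund_abs (f := fun z => sec N (2 * z)) (c := ⟨1, t / 2⟩) (ϱ := 3 / 4 - 3 * d)
    (δ := d) (l := p) (n := η' * L) (M := T ^ A) (A := B) (a := B) (z := s / 2) hp0 (by linarith)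
    (by linarith) (by linarith) hd0 (Real.one_le_rpow (by linarith) (by linarith)) hB1 hB1
    (by positivity)
    (fun w _ => by
      have h1 : AnalyticAt ℂ (fun z : ℂ => 2 * z) w := by fun_prop
      exact AnalyticAt.fun_comp (sec_analytic N (2 * w)) h1)
    (fun w hw => by
      have h1 := (hballre w _ hw).1
      exact (sec_crude N (by linarith)).trans hNT)
    (fun w hw => by
      have h1 := (hballre w _ hw).1
      exact (hB N hN1 _ (by rw [hp] at h1; linarith)).1)
    (hB N hN1 _ (by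
      have : (2 * (⟨1, t / 2⟩ : ℂ)).re = 2 := by simp
      rw [this]; linarith)).2
    (by
      intro w hw hw0
      by_contra hcon
      push Not at hcon
      have h1 : w ∈ closedBall (⟨1, t / 2⟩ : ℂ) p := by
        rw [mem_closedBall, dist_eq_norm]; exact hcon.le
      have h2 := (hballre w _ h1).1
      have h3 := (hB N hN1 (2 * w) (by rw [hp] at h2; linarith)).2
      rw [hw0, norm_zero] at h3
      have : 0 < 1 / B := by positivity
      linarith)
    (by
      intro S hS
      classical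
      have h1 : ∑ z ∈ S, (mult (fun z => sec N (2 * z)) z : ℝ) =
          ∑ s ∈ S.image (fun z => 2 * z), (analyticOrderNatAt (sec N) s : ℝ) := by
        rw [Finset.sum_image (fun a _ b _ hab => mul_left_cancel₀ two_ne_zero hab)]
        refine Finset.sum_congr rfl fun z _ => ?_
        rw [mult_scale]
      rw [h1]
      apply hfew
      intro w hw
      rw [Finset.mem_image] at hw
      obtain ⟨z, hz, rfl⟩ := hw
      obtain ⟨h2, h3⟩ := hS z hz
      have h4 := hballre z _ h2
      refine ⟨by rw [hd] at h4; linarith [h4.1], ?_, h3⟩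
      refine h4.2.trans ?_
      linarith) K (by
      rw [mem_closedBall, dist_eq_norm]
      have h1 : s / 2 - (⟨1, t / 2⟩ : ℂ) = (((s.re - 2) / 2 : ℝ) : ℂ) := by
        apply Complex.ext
        · simp; ring
        · simp [hs2]
      rw [h1, Complex.norm_real, Real.norm_eq_abs, abs_le]
      constructor
      · rw [hd]; linarith
      · rw [hd]; linarith)
  have hs3 : 2 * (s / 2) = s := by ring
  simp only [hs3] at key
  refine key.trans ?_
  rw [Real.log_rpow hT0]
  rw [hTη, ← Real.exp_log (show 0 < B by linarith), ← Real.exp_add, Real.log_exp]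
  apply Real.exp_le_exp.2
  have hp : 0 ≤ (1 - d / 2) ^ K := by positivity
  have hp1 : (1 - d / 2) ^ K ≤ 1 := pow_le_one₀ hq0 (by linarith)
  -- main terms
  have e1 : η' * L * Real.log (2 / p) + 2 * (η' * L * Real.log (2 / p)) * G ≤ η / 4 * L := by
    have : η' * L * Real.log (2 / p) + 2 * (η' * L * Real.log (2 / p)) * G ≤ η' * E * L := by
      have e0 : η' * E * L = η' * L * Real.log (2 / p) + 2 * (η' * L * Real.log (2 / p)) * G +
        η' * L := by rw [hE]; ring
      have : 0 ≤ η' * L := by positivity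
      linarith
    exact this.trans (mul_le_mul_of_nonneg_right hη'2 hL0)
  have e2 : 8 / d ^ 2 * (A * L + η' * L * Real.log (1 / d)) *
      (1 - d / 2) ^ K ≤ η / 4 * L := by
    have h1 : A * L + η' * L * Real.log (1 / d) ≤ L * (A + Real.log (1 / d)) := by
      have a1 : η' * L * Real.log (1 / d) ≤ 1 * L * Real.log (1 / d) := by gcongr
      linarith
    calc 8 / d ^ 2 * (A * L + η' * L * Real.log (1 / d)) *
      (1 - d / 2) ^ K ≤ 8 / d ^ 2 * (L * (A + Real.log (1 / d))) *
      (1 - d / 2) ^ K := by gcongr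
      _ = ((1 - d / 2) ^ K * D) * L := by rw [hD]; ring
      _ ≤ η / 4 * L := mul_le_mul_of_nonneg_right hK.le hL0
  have e3 : 8 / d ^ 2 * (Real.log B + 1) * (1 - d / 2) ^ K ≤ 8 / d ^ 2 * (Real.log B + 1) :=
    mul_le_of_le_one_right (by positivity) hp1
  have e4 : 4 * (A * L + η' * L * Real.log (1 / d) + Real.log B + 1) / d *
      (1 - d / 2) ^ K * (2 / d) = 8 / d ^ 2 * (A * L + η' * L * Real.log (1 / d)) *
      (1 - d / 2) ^ K + 8 / d ^ 2 * (Real.log B + 1) * (1 - d / 2) ^ K := by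
    field_simp
    ring
  rw [e4]
  have e5 : C ≤ η / 4 * L := by linarith
  rw [hC] at e5
  have e6 : 2 * (Real.log B + η' * L * Real.log (2 / p) + Real.log B + 1) * (K * (4 / p) ^ K) =
      2 * (2 * Real.log B + 1) * G + 2 * (η' * L * Real.log (2 / p)) * G := by rw [hG]; ring
  rw [e6]
  linarith

end Pool.Agent.TH804.SS
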