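import Pool.Agent.TH804.SS2
import Pool.Agent.H448R2.GC.S4

/-! Smoothed partial sums from the sections. -/

set_option autoImplicit false

open Complex MeasureTheory Filter Topology

namespace Pool.Agent.TH804.SS

open Pool.Agent.H448R2.GC

lemma sec_conj (N : ℕ) (s : ℂ) : sec N ((starRingEnd ℂ) s) = (starRingEnd ℂ) (sec N s) := by
  unfold sec
  rw [map_sum]
  refine Finset.sum_congr rfl fun n _ => ?_
  have h1 : ((n : ℂ) + 1).arg ≠ Real.pi := by
    have h : ((n : ℂ) + 1) = (((n : ℝ) + 1 : ℝ) : ℂ) := by push_cast; ring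
    rw [h, Complex.arg_ofReal_of_nonneg (by positivity)]
    exact Real.pi_ne_zero.symm
  have h2 : (starRingEnd ℂ) ((n : ℂ) + 1) = (n : ℂ) + 1 := by simp
  rw [← map_neg, Complex.cpow_conj _ _ h1, h2]

/-- the sum over `range N` for any long enough `N` -/
lemma cs_range (k : ℕ) (c D : ℝ) (hc : 0 < c) (N : ℕ) (hN : Real.exp (D + k * c) < N + 1) (s : ℂ) :
    cs k c D s = ∑ n ∈ Finset.range N, (cu k c (Real.log ((n : ℝ) + 1) - D) : ℂ) * ((n : ℂ) + 1) ^ (-s) := by
  classical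
  set g : ℕ → ℂ := fun n => (cu k c (Real.log ((n : ℝ) + 1) - D) : ℂ) * ((n : ℂ) + 1) ^ (-s) with hg
  set N' := ⌊Real.exp (D + k * c)⌋₊ with hN'
  have hNN : N' ≤ N := by
    have h1 : (N' : ℝ) ≤ Real.exp (D + k * c) := Nat.floor_le (Real.exp_pos _).le
    have h2 : (N' : ℝ) < N + 1 := by linarith
    have h3 : N' < N + 1 := by exact_mod_cast h2
    omega
  have hcs : cs k c D s = ∑ n ∈ Finset.range N', g n := by
    unfold cs
    rw [← hN', Finset.sum_bij (fun m _ => m - 1)]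
    · intro m hm
      rw [Finset.mem_Icc] at hm
      rw [Finset.mem_range]; omega
    · intro m hm m' hm' h
      rw [Finset.mem_Icc] at hm hm'
      omega
    · intro n hn
      rw [Finset.mem_range] at hn
      exact ⟨n + 1, by rw [Finset.mem_Icc]; omega, by simp⟩
    · intro m hm
      rw [Finset.mem_Icc] at hm
      obtain ⟨n, rfl⟩ : ∃ n, m = n + 1 := ⟨m - 1, by omega⟩
      simp only [hg, Nat.add_sub_cancel]
      push_cast
      rfl
  rw [hcs]
  apply Finset.sum_subset (Finset.range_subset_range.2 hNN)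
  intro n _ hn
  rw [Finset.mem_range, not_lt] at hn
  have h1 : Real.exp (D + k * c) < (n : ℝ) + 1 := by
    have h2 := Nat.lt_floor_add_one (Real.exp (D + k * c))
    rw [← hN'] at h2
    have h3 : (N' : ℝ) ≤ n := by exact_mod_cast hn
    linarith
  have h2 : D + k * c < Real.log ((n : ℝ) + 1) := (Real.lt_log_iff_exp_lt (by positivity)).mpr h1
  simp only [hg]
  rw [Pool.Agent.H448R2.GC.cu_zero k c _ hc (by linarith)]
  simp

/-- short transition: the smoothed sum is the section -/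
lemma cs_eq_sec (k : ℕ) (c D : ℝ) (hc : 0 < c) (N : ℕ) (hN : Real.exp (D + k * c) < N + 1)
    (hN2 : Real.log N ≤ D) (s : ℂ) : cs k c D s = sec N s := by
  rw [cs_range k c D hc N hN s]
  unfold sec
  refine Finset.sum_congr rfl fun n hn => ?_
  rw [Finset.mem_range] at hn
  have h1 : Real.log ((n : ℝ) + 1) ≤ Real.log N := by
    apply Real.log_le_log (by positivity)
    exact_mod_cast hn
  rw [Pool.Agent.H448R2.GC.cu_one k c _ hc (by linarith)]
  simp

theorem cs_sec (k : ℕ) (hk : 1 ≤ k) (c D x : ℝ) (hc : 0 < c) (hx : 0 < x) (N : ℕ)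
    (hN : Real.exp (D + k * c) < N + 1) (s : ℂ) :
    cs k c D s = (1 / (2 * Real.pi)) * ∫ y : ℝ, sec N (s + ((x : ℂ) + (y : ℂ) * I)) * ker k c D x y := by
  rw [cs_range k c D hc N hN s]
  have hker : Integrable (ker k c D x) := Pool.Agent.H448R2.GC.ker_integrable k hk c D x hc hx.ne'
  set F : ℕ → ℝ → ℂ := fun n y =>
    (((n : ℂ) + 1) ^ (-(s + ((x : ℂ) + (y : ℂ) * I)))) * ker k c D x y with hF
  have hnorm : ∀ n y, ‖F n y‖ = ((n : ℝ) + 1) ^ (-(s.re + x)) * ‖ker k c D x y‖ := by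
    intro n y
    simp only [hF]
    rw [norm_mul, S1.norm_cpow_neg]
    simp
  have hcontF : ∀ n : ℕ, Continuous (fun y : ℝ => ((n : ℂ) + 1) ^ (-(s + ((x : ℂ) + (y : ℂ) * I)))) := by
    intro n
    have hn : ((n : ℂ) + 1) ≠ 0 := Nat.cast_add_one_ne_zero n
    exact Continuous.const_cpow (by fun_prop) (Or.inl hn)
  have hFint : ∀ n, Integrable (F n) := by
    intro n
    refine (hker.norm.const_mul (((n : ℝ) + 1) ^ (-(s.re + x)))).mono' ?_ ?_
    · exact ((hcontF n).aestronglyMeasurable).mul hker.aestronglyMeasurable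
    · exact Eventually.of_forall (fun y => (hnorm n y).le)
  have e1 : (∫ y : ℝ, sec N (s + ((x : ℂ) + (y : ℂ) * I)) * ker k c D x y) =
      ∑ n ∈ Finset.range N, ∫ y : ℝ, F n y := by
    rw [← integral_finset_sum _ (fun n _ => hFint n)]
    congr 1
    ext y
    unfold sec
    rw [Finset.sum_mul]
  rw [e1, Finset.mul_sum]
  refine Finset.sum_congr rfl fun n _ => ?_
  have hn : ((n : ℂ) + 1) ≠ 0 := Nat.cast_add_one_ne_zero n
  rw [Pool.Agent.H448R2.GC.cu_mellin k hk c hc x hx, mul_assoc]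
  congr 1
  rw [mul_comm, ← integral_const_mul]
  refine integral_congr_ae (Eventually.of_forall (fun y => ?_))
  simp only [hF]
  have hsplit : -(s + ((x : ℂ) + (y : ℂ) * I)) = -s + -((x : ℂ) + (y : ℂ) * I) := by ring
  rw [S1.ker_shift, hsplit, Complex.cpow_add _ _ hn]
  ring

/-- the smoothed sum is small if the section is small nearby -/
theorem cs_bound (j : ℕ) (c D x M Y : ℝ) (hc : 1 ≤ c) (hx : 0 < x) (hM0 : 0 ≤ M) (hY : 0 ≤ Y) (N : ℕ)
    (hN : Real.exp (D + ((j + 2 : ℕ) : ℝ) * c) < N + 1) (s : ℂ) (hs : 0 ≤ s.re)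
    (hM : ∀ y : ℝ, |y| ≤ Y → ‖sec N (s + ((x : ℂ) + (y : ℂ) * I))‖ ≤ M) :
    ‖cs (j + 2) c D s‖ ≤ Real.exp ((D + ((j + 2 : ℕ) : ℝ) * c) * x) * (3 ^ (j + 2) / x) *
      (M + N * ((1 + Y) ^ j)⁻¹) := by
  have hc0 : 0 < c := by linarith
  rw [cs_sec (j + 2) (by omega) c D x hc0 hx N hN s]
  set E := Real.exp ((D + ((j + 2 : ℕ) : ℝ) * c) * x) with hE
  have hE0 : 0 < E := Real.exp_pos _
  set Q := M + N * ((1 + Y) ^ j)⁻¹ with hQ
  have hQ0 : 0 ≤ Q := by positivity
  have hpt : ∀ y : ℝ, ‖sec N (s + ((x : ℂ) + (y : ℂ) * I)) * ker (j + 2) c D x y‖ ≤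
      (E * (3 ^ (j + 2) / x) * Q) * (1 + y ^ 2)⁻¹ := by
    intro y
    rw [norm_mul]
    set r := ‖(x : ℂ) + (y : ℂ) * I‖ with hr
    have hrx : x ≤ r := by
      have := Complex.abs_re_le_norm ((x : ℂ) + (y : ℂ) * I)
      simp only [Complex.add_re, Complex.ofReal_re, Complex.mul_re, Complex.I_re, mul_zero,
        Complex.ofReal_im, Complex.I_im, mul_one, sub_self, add_zero] at this
      rwa [abs_of_pos hx] at this
    have hry : |y| ≤ r := by
      have := Complex.abs_im_le_norm ((x : ℂ) + (y : ℂ) * I)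
      simpa using this
    have hr0 : 0 < r := by linarith
    have hy0 : 0 ≤ |y| := abs_nonneg y
    have hkb : ‖ker (j + 2) c D x y‖ ≤ E * (3 ^ (j + 2) * (((1 + |y|) ^ j)⁻¹ * (1 + y ^ 2)⁻¹)) * (1 / x) := by
      refine (Pool.Agent.H448R2.GC.ker_bound (j + 2) c D x y hc0).trans ?_
      rw [max_eq_left hx.le, ← hr]
      have e1 : Real.exp (D * x + ((j + 2 : ℕ) : ℝ) * c * x) = E := by rw [hE]; congr 1; ring
      rw [e1]
      have e2 : (3 / (1 + c * r)) ^ (j + 2) ≤ 3 ^ (j + 2) * (((1 + |y|) ^ j)⁻¹ * (1 + y ^ 2)⁻¹) := by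
        have h1 : (3 / (1 + c * r)) ^ (j + 2) ≤ (3 / (1 + |y|)) ^ (j + 2) := by
          apply pow_le_pow_left₀ (by positivity)
          apply div_le_div_of_nonneg_left (by norm_num) (by positivity)
          nlinarith
        refine h1.trans ?_
        rw [div_pow, div_eq_mul_inv, pow_add (1 + |y|), mul_inv]
        apply mul_le_mul_of_nonneg_left _ (by positivity)
        apply mul_le_mul_of_nonneg_left _ (by positivity)
        apply inv_anti₀ (by positivity)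
        nlinarith [sq_abs y]
      rw [div_eq_mul_one_div]
      apply mul_le_mul _ _ (by positivity) (by positivity)
      · exact mul_le_mul_of_nonneg_left e2 hE0.le
      · exact one_div_le_one_div_of_le hx hrx
    have hsec : ‖sec N (s + ((x : ℂ) + (y : ℂ) * I))‖ * ((1 + |y|) ^ j)⁻¹ ≤ Q := by
      rcases le_or_gt |y| Y with h | h
      · have h1 : ((1 + |y|) ^ j)⁻¹ ≤ 1 := inv_le_one_of_one_le₀ (one_le_pow₀ (by linarith))
        have h2 := hM y h
        calc ‖sec N (s + ((x : ℂ) + (y : ℂ) * I))‖ * ((1 + |y|) ^ j)⁻¹ ≤ M * 1 := by gcongr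
          _ ≤ Q := by rw [hQ, mul_one]; linarith [show 0 ≤ (N : ℝ) * ((1 + Y) ^ j)⁻¹ by positivity]
      · have h1 : ((1 + |y|) ^ j)⁻¹ ≤ ((1 + Y) ^ j)⁻¹ := by
          apply inv_anti₀ (by positivity)
          gcongr
        have h2 : ‖sec N (s + ((x : ℂ) + (y : ℂ) * I))‖ ≤ N := sec_crude N (by simp; linarith)
        calc ‖sec N (s + ((x : ℂ) + (y : ℂ) * I))‖ * ((1 + |y|) ^ j)⁻¹ ≤ N * ((1 + Y) ^ j)⁻¹ := by gcongr
          _ ≤ Q := by rw [hQ]; linarith
    calc ‖sec N (s + ((x : ℂ) + (y : ℂ) * I))‖ * ‖ker (j + 2) c D x y‖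
        ≤ ‖sec N (s + ((x : ℂ) + (y : ℂ) * I))‖ *
          (E * (3 ^ (j + 2) * (((1 + |y|) ^ j)⁻¹ * (1 + y ^ 2)⁻¹)) * (1 / x)) := by gcongr
      _ = (‖sec N (s + ((x : ℂ) + (y : ℂ) * I))‖ * ((1 + |y|) ^ j)⁻¹) *
          (E * (3 ^ (j + 2) / x) * (1 + y ^ 2)⁻¹) := by ring
      _ ≤ Q * (E * (3 ^ (j + 2) / x) * (1 + y ^ 2)⁻¹) := by gcongr
      _ = _ := by ring
  have hint : Integrable (fun y : ℝ => (E * (3 ^ (j + 2) / x) * Q) * (1 + y ^ 2)⁻¹) :=
    integrable_inv_one_add_sq.const_mul _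
  have hI : ‖∫ y : ℝ, sec N (s + ((x : ℂ) + (y : ℂ) * I)) * ker (j + 2) c D x y‖ ≤
      (E * (3 ^ (j + 2) / x) * Q) * Real.pi := by
    refine (norm_integral_le_of_norm_le hint (Eventually.of_forall hpt)).trans_eq ?_
    rw [integral_const_mul, integral_univ_inv_one_add_sq]
  rw [norm_mul]
  have h2 : ‖(1 / (2 * (Real.pi : ℂ)))‖ = 1 / (2 * Real.pi) := by
    rw [norm_div, norm_one, norm_mul, Complex.norm_real, Real.norm_of_nonneg Real.pi_pos.le]
    simp
  rw [h2]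
  calc 1 / (2 * Real.pi) * ‖∫ y : ℝ, sec N (s + ((x : ℂ) + (y : ℂ) * I)) * ker (j + 2) c D x y‖
      ≤ 1 / (2 * Real.pi) * ((E * (3 ^ (j + 2) / x) * Q) * Real.pi) := by gcongr
    _ = (E * (3 ^ (j + 2) / x) * Q) / 2 := by field_simp
    _ ≤ E * (3 ^ (j + 2) / x) * Q := by
      have : 0 ≤ E * (3 ^ (j + 2) / x) * Q := by positivity
      linarith

end Pool.Agent.TH804.SS
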