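import Pool.Agent.TH804.SS6

/-! The sections under the Lindelöf hypothesis. -/

set_option autoImplicit false

open Complex MeasureTheory Filter Topology

namespace Pool.Agent.TH804.SS

open Pool.Agent.H448R2.GC

/-- the exact formula after the shift to the critical line -/
theorem shift_half : ∃ k : ℕ, 1 ≤ k ∧ ∀ (c D : ℝ), 0 < c → ∀ (s : ℂ) (x : ℝ), x = s.re - 1 / 2 → 0 < x →
    x ≤ 3 / 2 → s ≠ 1 →
    riemannZeta s - cs k c D s + (1 / (2 * Real.pi)) * ∫ y : ℝ,
      riemannZeta (s + (((-x : ℝ) : ℂ) + (y : ℂ) * I)) * ker k c D (-x) y =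
    -(cexp ((D : ℂ) * (1 - s)) * Ps k c (1 - s) / (1 - s)) := by
  obtain ⟨CZ, B, hCZ, hZ⟩ := Pool.Agent.H448R2.GC.zeta_one_growth 0
  refine ⟨B + 1, by omega, ?_⟩
  intro c D hc s x hx hx0 hx1 hs
  obtain ⟨k, hk⟩ : ∃ k : ℕ, k = B + 1 := ⟨_, rfl⟩
  rw [← hk]
  have hm : 0 < min 1 c := lt_min one_pos hc
  set Z : ℂ → ℂ := Function.update (fun w : ℂ => (w - 1) * riemannZeta w) 1 1 with hZdef
  have hZne : ∀ w : ℂ, w ≠ 1 → Z w = (w - 1) * riemannZeta w := by
    intro w hw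
    rw [hZdef, Function.update_of_ne hw]
  have hZ1 : Z 1 = 1 := by
    rw [hZdef, Function.update_self]
  set G : ℂ → ℂ := fun z => Z (s + z) * (cexp ((D : ℂ) * z) * Ps k c z) with hG
  have hGd : Differentiable ℂ G := by
    have h1 : Differentiable ℂ (fun z : ℂ => Z (s + z)) :=
      Pool.Agent.H448R2.GC.zeta_one_entire.comp (by fun_prop)
    have h2 : Differentiable ℂ (fun z : ℂ => cexp ((D : ℂ) * z)) := by fun_prop
    exact h1.mul (h2.mul (Pool.Agent.H448R2.GC.Ps_entire k c))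
  have hs' : (1 : ℂ) - s ≠ 0 := fun h => hs (sub_eq_zero.1 h).symm
  have hline : ∀ x : ℝ, s.re + x ≠ 1 → x ≠ 0 → ∀ y : ℝ,
      G ((x : ℂ) + (y : ℂ) * I) /
        ((((x : ℂ) + (y : ℂ) * I) - 0) * (((x : ℂ) + (y : ℂ) * I) - (1 - s))) =
      riemannZeta (s + ((x : ℂ) + (y : ℂ) * I)) * ker k c D x y := by
    intro x hx hx0 y
    have hne : s + ((x : ℂ) + (y : ℂ) * I) ≠ 1 := by
      intro h
      apply hx
      have := congrArg Complex.re h
      simpa using this
    have hz0 : ((x : ℂ) + (y : ℂ) * I) ≠ 0 := by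
      intro h
      apply hx0
      have := congrArg Complex.re h
      simpa using this
    have hsub : ((x : ℂ) + (y : ℂ) * I) - (1 - s) = (s + ((x : ℂ) + (y : ℂ) * I)) - 1 := by ring
    have hne' : (s + ((x : ℂ) + (y : ℂ) * I)) - 1 ≠ 0 := sub_ne_zero.2 hne
    rw [hG]
    simp only
    rw [hZne _ hne, hsub, sub_zero]
    unfold Pool.Agent.H448R2.GC.ker
    field_simp
  have key := Pool.Agent.H448R2.GC.shift2 G 0 (1 - s) (-x) 1
    (CZ * (1 + |s.im|) ^ B * (Real.exp (|D| * (3 / 2)) * (Real.exp (k * c) * (3 / min 1 c) ^ k)))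
    hGd (Ne.symm hs') (by simp; linarith) (by simp) (by simp; linarith) (by simp; linarith) ?_
  · have e1 : (∫ y : ℝ, G (((1 : ℝ) : ℂ) + (y : ℂ) * I) /
        (((((1 : ℝ) : ℂ) + (y : ℂ) * I) - 0) * ((((1 : ℝ) : ℂ) + (y : ℂ) * I) - (1 - s)))) =
        ∫ y : ℝ, riemannZeta (s + (((1 : ℝ) : ℂ) + (y : ℂ) * I)) * ker k c D 1 y := by
      congr 1
      ext y
      exact hline 1 (by linarith) one_ne_zero y
    have e2 : (∫ y : ℝ, G (((-x : ℝ) : ℂ) + (y : ℂ) * I) /
        (((((-x : ℝ) : ℂ) + (y : ℂ) * I) - 0) * ((((-x : ℝ) : ℂ) + (y : ℂ) * I) - (1 - s)))) =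
        ∫ y : ℝ, riemannZeta (s + (((-x : ℝ) : ℂ) + (y : ℂ) * I)) * ker k c D (-x) y := by
      congr 1
      ext y
      exact hline (-x) (by rw [hx]; intro h; linarith) (by linarith) y
    rw [e1, e2] at key
    have e3 := Pool.Agent.H448R2.GC.cs_line k (by omega) c D 1 hc one_pos s (by linarith)
    have e4 : G 0 / (0 - (1 - s)) = riemannZeta s := by
      rw [hG]
      simp only
      rw [add_zero, hZne s hs, Pool.Agent.H448R2.GC.Ps_zero]
      have : (0 : ℂ) - (1 - s) = s - 1 := by ring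
      rw [this]
      have h3 : s - 1 ≠ 0 := sub_ne_zero.2 hs
      simp
      field_simp
    have e5 : G (1 - s) / (1 - s - 0) = cexp ((D : ℂ) * (1 - s)) * Ps k c (1 - s) / (1 - s) := by
      rw [hG]
      simp only
      have : s + (1 - s) = 1 := by ring
      rw [this, hZ1, one_mul, sub_zero]
    rw [e4, e5] at key
    rw [e3]
    have hpi : (Real.pi : ℂ) ≠ 0 := by exact_mod_cast Real.pi_ne_zero
    have key2 : (∫ y : ℝ, riemannZeta (s + (((1 : ℝ) : ℂ) + (y : ℂ) * I)) * ker k c D 1 y) =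
        (∫ y : ℝ, riemannZeta (s + (((-x : ℝ) : ℂ) + (y : ℂ) * I)) * ker k c D (-x) y) +
        2 * Real.pi * (riemannZeta s + cexp ((D : ℂ) * (1 - s)) * Ps k c (1 - s) / (1 - s)) := by
      rw [← key]
      ring
    rw [key2, mul_add]
    have h5 : (1 / (2 * (Real.pi : ℂ))) * (2 * Real.pi *
        (riemannZeta s + cexp ((D : ℂ) * (1 - s)) * Ps k c (1 - s) / (1 - s))) =
        riemannZeta s + cexp ((D : ℂ) * (1 - s)) * Ps k c (1 - s) / (1 - s) := by
      rw [← mul_assoc]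
      rw [one_div, inv_mul_cancel₀ (by simp [Real.pi_ne_zero]), one_mul]
    rw [h5]
    ring
  · intro z hz1 hz2
    have b1 : ‖Z (s + z)‖ ≤ CZ * (1 + |s.im|) ^ B * (1 + ‖z‖) ^ B := by
      refine (hZ (s + z) (by simp; linarith) (by simp; linarith)).trans ?_
      have e1 : 1 + |(s + z).im| ≤ (1 + |s.im|) * (1 + ‖z‖) := by
        rw [Complex.add_im]
        refine (S4.one_add_abs_le _ _).trans ?_
        apply mul_le_mul_of_nonneg_left _ (by positivity)
        linarith [Complex.abs_im_le_norm z]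
      calc CZ * (1 + |(s + z).im|) ^ B ≤ CZ * ((1 + |s.im|) * (1 + ‖z‖)) ^ B := by gcongr
        _ = _ := by rw [mul_pow]; ring
    have b2 : ‖cexp ((D : ℂ) * z)‖ ≤ Real.exp (|D| * (3 / 2)) := by
      rw [Complex.norm_exp]
      apply Real.exp_le_exp.2
      simp
      calc D * z.re ≤ |D * z.re| := le_abs_self _
        _ = |D| * |z.re| := abs_mul _ _
        _ ≤ |D| * (3 / 2) := by
            apply mul_le_mul_of_nonneg_left _ (abs_nonneg D)
            rw [abs_le]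
            constructor <;> linarith
    have b3 : ‖Ps k c z‖ ≤ Real.exp (k * c) * (3 / min 1 c) ^ k * ((1 + ‖z‖) ^ k)⁻¹ := by
      refine (Pool.Agent.H448R2.GC.Ps_bound k c hc z).trans ?_
      rw [mul_assoc (Real.exp (k * c))]
      apply mul_le_mul _ (S4.ratio k c hc ‖z‖ (norm_nonneg z)) (by positivity) (Real.exp_pos _).le
      apply Real.exp_le_exp.2
      have : max z.re 0 ≤ 1 := max_le hz2 zero_le_one
      have h2 : 0 ≤ (k : ℝ) * c := by positivity
      nlinarith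
    have b4 : (1 + ‖z‖) ^ B * ((1 + ‖z‖) ^ k)⁻¹ ≤ 1 := by
      rw [← div_eq_mul_inv]
      apply div_le_one_of_le₀ _ (by positivity)
      apply pow_le_pow_right₀ (by linarith [norm_nonneg z]) (by omega)
    rw [hG]
    simp only
    rw [norm_mul, norm_mul]
    calc ‖Z (s + z)‖ * (‖cexp ((D : ℂ) * z)‖ * ‖Ps k c z‖)
        ≤ (CZ * (1 + |s.im|) ^ B * (1 + ‖z‖) ^ B) * (Real.exp (|D| * (3 / 2)) *
          (Real.exp (k * c) * (3 / min 1 c) ^ k * ((1 + ‖z‖) ^ k)⁻¹)) := by gcongr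
      _ = (CZ * (1 + |s.im|) ^ B * (Real.exp (|D| * (3 / 2)) * (Real.exp (k * c) * (3 / min 1 c) ^ k))) *
          ((1 + ‖z‖) ^ B * ((1 + ‖z‖) ^ k)⁻¹) := by ring
      _ ≤ (CZ * (1 + |s.im|) ^ B * (Real.exp (|D| * (3 / 2)) * (Real.exp (k * c) * (3 / min 1 c) ^ k))) *
          1 := by
          apply mul_le_mul_of_nonneg_left b4
          positivity
      _ = _ := by ring

end Pool.Agent.TH804.SS
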